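import Pool.Agent.Lib.MP_5d3e93_al.K.Gd
import Pool.Agent.Lib.MP_5d3e93_al.Gr.KnL

/-! Additive functors between additive categories and K-groups. -/

open CategoryTheory Limits ZeroObject

namespace Pool.Agent.Lib.MP_5d3e93_al.Gr

universe v u v' u'

theorem ad_zero {C : Type u} [Category.{v} C] [Preadditive C] {X Y Z : C} {i : X ⟶ Y} {p : Y ⟶ Z}
    {r : Y ⟶ X} {s : Z ⟶ Y} (h₁ : i ≫ r = 𝟙 _) (h₂ : s ≫ p = 𝟙 _) (h₃ : r ≫ i + p ≫ s = 𝟙 _) :
    i ≫ p = 0 := by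
  have a : i ≫ p ≫ s = 0 := by
    have := congrArg (i ≫ ·) h₃
    simp only [Preadditive.comp_add, reassoc_of% h₁, Category.comp_id] at this
    exact left_eq_add.1 this.symm
  have := congrArg (· ≫ p) a
  simpa [h₂] using this

namespace Am

variable {A : Type (max u v)} [Category.{v} A] [Preadditive A] [HasZeroObject A]
  [HasBinaryBiproducts A] {B : Type (max u' v')} [Category.{v'} B] [Preadditive B]
  [HasZeroObject B] [HasBinaryBiproducts B]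

theorem of_gs : (of.{v, u} A).Gs := fun _ h => Tg.zero (genK ⊤) h

theorem deq_ff (F : A ⥤ B) [F.Additive] [F.Full] [F.Faithful] :
    Deq (ofOf.{v, u, v', u'} F).D (of A).bdd ((of B).gen F.essImage) := by
  have e : F.essImage = (⊤ : ObjectProperty A).map F :=
    le_antisymm (fun _ ⟨X, h⟩ => ⟨X, trivial, h⟩) fun _ ⟨X, _, h⟩ => ⟨X, h⟩
  rw [e]
  exact FF.deq_gen (ofOf.{v, u, v', u'} F) (ff_of_pj (ofOf.{v, u, v', u'} F) (G := ⊤)
    (fun g _ => of_pj.{v, u} g) (fun g _ => of_pj.{v', u'} (F.obj g))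
    fun _ _ _ _ => ⟨F.map_injective, F.map_surjective⟩)

theorem Z_ff (F : A ⥤ B) [F.Additive] [F.Full] [F.Faithful] :
    Z (of.{v, u} A).bdd ↔ Z ((of.{v', u'} B).gen F.essImage) :=
  have : Tg ((of.{v', u'} B).gen F.essImage) := inferInstanceAs (Tg (Cl _))
  Z_deq (deq_ff F)

theorem Z_equiv (F : A ⥤ B) [F.Additive] [F.IsEquivalence] :
    Z (of.{v, u} A).bdd ↔ Z (of.{v', u'} B).bdd := by
  have e : F.essImage = ⊤ := le_antisymm le_top fun Y _ => Functor.EssSurj.mem_essImage F Y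
  have := Z_ff.{v, u, v', u'} F
  rwa [e] at this

theorem Z_retract (F : A ⥤ B) [F.Additive] (H : B ⥤ A) [H.Additive] (e : F ⋙ H ≅ 𝟭 A)
    (z : Z (of.{v', u'} B).bdd) : Z (of.{v, u} A).bdd :=
  Z_of_null (Map.bdd_map _) fun n =>
    (Kmap_iso n ((ofOf.{v, u, v', u'} F).comp (ofOf.{v', u', v, u} H)) (of.{v, u} A).idm e
      (Map.bdd_map _) _).symm.trans (z.null _ _ (Map.bdd_map _) (Map.bdd_map _) _ n)

/-- If the identity is an extension of two functors that vanish on K-theory. -/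
theorem null_ses {F₁ F F₂ : A ⥤ B} [F₁.Additive] [F.Additive] [F₂.Additive] (α : F₁ ⟶ F)
    (β : F ⟶ F₂) (k : ∀ X, ∃ r s, α.app X ≫ r = 𝟙 _ ∧ s ≫ β.app X = 𝟙 _ ∧
      r ≫ α.app X + β.app X ≫ s = 𝟙 _) (n : ℕ) :
    Kmap n (ofOf.{v, u, v', u'} F) (Map.bdd_map _) =
      Kmap n (ofOf F₁) (Map.bdd_map _) + Kmap n (ofOf F₂) (Map.bdd_map _) :=
  have e : α ≫ β = 0 := NatTrans.ext (funext fun X => by
    obtain ⟨r, s, a, b, c⟩ := k X
    exact ad_zero a b c)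
  Kmap_add n (ses_of_split (f₁ := ofOf.{v, u, v', u'} F₁) (f := ofOf.{v, u, v', u'} F)
    (f₂ := ofOf.{v, u, v', u'} F₂) (α := α) (β := β) (h := e) k _) _ _ _

theorem Z_swindle (Φ : A ⥤ A) [Φ.Additive] (i : 𝟭 A ⟶ Φ) (r : Φ ⟶ 𝟭 A) (i' r' : Φ ⟶ Φ)
    (h₁ : i ≫ r = 𝟙 _) (h₂ : i' ≫ r' = 𝟙 _) (h₃ : r ≫ i + r' ≫ i' = 𝟙 _) :
    Z (of.{v, u} A).bdd :=
  Z_of_swindle (ses_of_split (f₁ := (of.{v, u} A).idm) (f := ofOf.{v, u, v, u} Φ)
    (f₂ := ofOf.{v, u, v, u} Φ) (α := i) (β := r') (h := ad_zero h₁ h₂ h₃)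
    (fun X => ⟨r.app X, i'.app X, NatTrans.congr_app h₁ X, NatTrans.congr_app h₂ X,
      NatTrans.congr_app h₃ X⟩) _) (Iso.refl _) (Map.bdd_map _)

/-- An equivalence of the additive categories that respects the trivial complexes. -/
theorem surj_equiv {a : Am.{v, u}} {b : Am.{v', u'}} (g : Map a b) [g.F.IsEquivalence]
    (h : ∀ K, b.T (g.K.obj K) → a.T K) (n : ℕ) :
    Function.Surjective (Kmap n g g.bdd_map) := by
  let e : g.F.inv ⋙ g.F ≅ 𝟭 b.A := g.F.asEquivalence.counitIso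
  have : g.F.asEquivalence.functor.Additive := g.add
  have ad : g.F.inv.Additive := inferInstanceAs g.F.asEquivalence.inverse.Additive
  let E : (𝟭 b.A).mapHomotopyCategory (.up ℤ) ≅ (g.F.inv ⋙ g.F).mapHomotopyCategory (.up ℤ) :=
    ⟨NatTrans.mapHomotopyCategory e.inv _, NatTrans.mapHomotopyCategory e.hom _,
      by rw [← NatTrans.mapHomotopyCategory_comp, e.inv_hom_id, NatTrans.mapHomotopyCategory_id],
      by rw [← NatTrans.mapHomotopyCategory_comp, e.hom_inv_id, NatTrans.mapHomotopyCategory_id]⟩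
  let g' : Map b a := ⟨g.F.inv, fun K k => a.le_Tb _ (h _ (b.T.prop_of_iso (E.app K) k))⟩
  intro x
  refine ⟨Kmap n g' g'.bdd_map x, ?_⟩
  rw [← Kmap_comp n g' g _ _ (Map.bdd_map _), Kmap_iso n (g'.comp g) b.idm e _ (Map.bdd_map _)]
  exact Kinc_refl n le_rfl x

end Am

end Pool.Agent.Lib.MP_5d3e93_al.Gr
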