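import Pool.Agent.Lib.MP_5d3e93_al.K.Ad
import Pool.Agent.Lib.MP_5d3e93_al.Gr.Brg
import Pool.Agent.Lib.MP_5d3e93_al.PrT

/-! Twisted group categories: subgroups, swindles, the bridge to the statement. -/

open CategoryTheory Limits ZeroObject MulAction

namespace Pool.Agent.Lib.MP_5d3e93_al

universe w v u w' v' u'

open Gr

namespace GC

variable {G : Type w} [Group G] {C : Type u} [Category.{v} C] [Preadditive C] {S : GC G C}
variable {G' : Type w'} [Group G'] {C' : Type u'} [Category.{v'} C'] [Preadditive C']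
  {S' : GC G' C'} {H : Subgroup G} {H' : Subgroup G'}

theorem tw_e {A : C} (L : S.Lo Unit A) : L.e () = 𝟙 A := by
  rw [← L.total, Finset.sum_eq_single () (fun _ _ h => (h rfl).elim) (L.out ())]

theorem tw_rg {A B : C} {L : S.Lo Unit A} {M : S.Lo Unit B} {f : A ⟶ B} :
    L.Rg M (Rl.pt H).r f ↔ S.Sup H f := by
  have e : L.e () ≫ f ≫ M.e () = f := by simp [tw_e]
  exact ⟨fun h => e ▸ h () (), fun h _ _ => e.symm ▸ h⟩

variable (S S' H H') in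
/-- A functor that respects the degrees, on located idempotents over one point. -/
noncomputable def twF (Φ : C ⥤ C')
    (h : ∀ {A B : C} (f : A ⟶ B), S.Sup H f → S'.Sup H' (Φ.map f)) :
    S.LQ (Rl.pt H) ⥤ S'.LQ (Rl.pt H') where
  obj M := ⟨Φ.obj M.A, .one S' () _, Φ.map M.p, by rw [← Φ.map_comp, M.idem],
    tw_rg.2 (h _ (tw_rg.1 M.rg))⟩
  map f := LQ.homMk (Φ.map f.1) ((Φ.map_comp _ _).symm.trans (congrArg Φ.map (LQ.p_comp f)))
    ((Φ.map_comp _ _).symm.trans (congrArg Φ.map (LQ.comp_p f)))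
    (tw_rg.2 (h _ (tw_rg.1 (LQ.hom_rg f))))
  map_id _ := rfl
  map_comp _ _ := LQ.hom_ext (Φ.map_comp ..)

instance (Φ : C ⥤ C') [Φ.Additive]
    (h : ∀ {A B : C} (f : A ⟶ B), S.Sup H f → S'.Sup H' (Φ.map f)) :
    (twF S S' H H' Φ h).Additive := ⟨LQ.hom_ext Φ.map_add⟩

theorem twF_equiv (Φ : C ⥤ C') [Φ.Faithful]
    (h : ∀ {A B : C} (f : A ⟶ B), S.Sup H f → S'.Sup H' (Φ.map f))
    (h2 : ∀ {A B : C} (f : Φ.obj A ⟶ Φ.obj B), S'.Sup H' f → ∃ f', S.Sup H f' ∧ Φ.map f' = f)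
    (h3 : ∀ B, ∃ A, Φ.obj A = B) : (twF S S' H H' Φ h).IsEquivalence where
  faithful := ⟨fun e => LQ.hom_ext (Φ.map_injective (congrArg (·.1) e))⟩
  full := ⟨fun {M N} f => by
    obtain ⟨f', a, b⟩ := h2 f.1 (tw_rg.1 (LQ.hom_rg f))
    refine ⟨LQ.cut f' (tw_rg.2 a), LQ.hom_ext ?_⟩
    change Φ.map (M.p ≫ f' ≫ N.p) = _
    rw [Φ.map_comp, Φ.map_comp, b]
    exact (congrArg (_ ≫ ·) (LQ.comp_p f)).trans (LQ.p_comp f)⟩
  essSurj := ⟨fun ⟨B, L, q, e, k⟩ => by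
    obtain ⟨A, rfl⟩ := h3 B
    obtain ⟨p, a, rfl⟩ := h2 q (tw_rg.1 k)
    exact ⟨⟨A, .one S () A, p, Φ.map_injective (by rw [Φ.map_comp, e]), tw_rg.2 a⟩,
      ⟨⟨LQ.homMk (Φ.map p) e e (tw_rg.2 (tw_rg.1 k)), LQ.homMk (Φ.map p) e e (tw_rg.2 (tw_rg.1 k)),
        LQ.hom_ext e, LQ.hom_ext e⟩⟩⟩⟩

variable [HasZeroObject C] [HasZeroObject C']

theorem wk_equiv (Φ : C ⥤ C') [Φ.Additive] [Φ.Faithful]
    (h : ∀ {A B : C} (f : A ⟶ B), S.Sup H f → S'.Sup H' (Φ.map f))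
    (h2 : ∀ {A B : C} (f : Φ.obj A ⟶ Φ.obj B), S'.Sup H' f → ∃ f', S.Sup H f' ∧ Φ.map f' = f)
    (h3 : ∀ B, ∃ A, Φ.obj A = B) : S.WK H ↔ S'.WK H' :=
  have := twF_equiv Φ h h2 h3
  Am.Z_equiv (twF S S' H H' Φ h)

theorem wk_swindle (S : GC G C) (Φ : C ⥤ C) [Φ.Additive] (i : ∀ A, A ⟶ Φ.obj A)
    (r : ∀ A, Φ.obj A ⟶ A) (i' r' : ∀ A, Φ.obj A ⟶ Φ.obj A)
    (c : ∀ A, r A ≫ i A + r' A ≫ i' A = 𝟙 _)
    (d : ∀ (A B : C) (f : A ⟶ B), i A ≫ Φ.map f ≫ r B = f ∧ i A ≫ Φ.map f ≫ r' B = 0 ∧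
      i' A ≫ Φ.map f ≫ r B = 0 ∧ i' A ≫ Φ.map f ≫ r' B = Φ.map f) : S.WK ⊤ := by
  have n1 {A B : C} (f : A ⟶ B) : f ≫ i B = i A ≫ Φ.map f := by
    obtain ⟨d1, d2, -, -⟩ := d A B f
    rw [← Category.comp_id (Φ.map f), ← c]
    simp [reassoc_of% d1, reassoc_of% d2]
  have n2 {A B : C} (f : A ⟶ B) : Φ.map f ≫ r B = r A ≫ f := by
    obtain ⟨d1, -, d3, -⟩ := d A B f
    rw [← Category.id_comp (Φ.map f), ← c]
    simp [d1, d3]
  have n3 {A B : C} (f : A ⟶ B) : Φ.map f ≫ i' B = i' A ≫ Φ.map f := by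
    obtain ⟨-, -, d3, d4⟩ := d A B f
    conv_rhs => rw [← Category.comp_id (Φ.map f), ← c]
    simp [reassoc_of% d3, reassoc_of% d4]
  have n4 {A B : C} (f : A ⟶ B) : Φ.map f ≫ r' B = r' A ≫ Φ.map f := by
    obtain ⟨-, d2, -, d4⟩ := d A B f
    conv_lhs => rw [← Category.id_comp (Φ.map f), ← c]
    simp [d2, d4]
  have pp (M : S.LQ (Rl.pt ⊤)) : Φ.map M.p ≫ Φ.map M.p = Φ.map M.p := by
    rw [← Φ.map_comp, M.idem]
  have t {A B : C} {L : S.Lo Unit A} {M : S.Lo Unit B} {f : A ⟶ B} : L.Rg M (Rl.pt ⊤).r f :=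
    tw_rg.2 (S.sup_top f)
  let Ψ := twF S S ⊤ ⊤ Φ fun _ _ => S.sup_top _
  let end' (j : ∀ A, Φ.obj A ⟶ Φ.obj A)
      (n : ∀ {A B : C} (f : A ⟶ B), Φ.map f ≫ j B = j A ≫ Φ.map f) : Ψ ⟶ Ψ :=
    ⟨fun M => LQ.homMk (M := Ψ.obj M) (N := Ψ.obj M) (Φ.map M.p ≫ j M.A)
      ((reassoc_of% pp M) (j M.A))
      (show (Φ.map M.p ≫ j M.A) ≫ Φ.map M.p = Φ.map M.p ≫ j M.A by
        rw [Category.assoc, ← n, reassoc_of% pp M]) t,
      fun M N f => LQ.hom_ext (by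
        change Φ.map f.1 ≫ Φ.map N.p ≫ j N.A = (Φ.map M.p ≫ j M.A) ≫ Φ.map f.1
        rw [Category.assoc, ← n, ← Φ.map_comp_assoc, ← Φ.map_comp_assoc, LQ.p_comp, LQ.comp_p])⟩
  refine Am.Z_swindle Ψ
    ⟨fun M => LQ.homMk (M := M) (N := Ψ.obj M) (M.p ≫ i M.A) (M.idem_assoc _)
      (show (M.p ≫ i M.A) ≫ Φ.map M.p = M.p ≫ i M.A by
        rw [Category.assoc, ← n1, M.idem_assoc]) t,
      fun M N f => LQ.hom_ext ?_⟩
    ⟨fun M => LQ.homMk (M := Ψ.obj M) (N := M) (r M.A ≫ M.p)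
      (show Φ.map M.p ≫ r M.A ≫ M.p = r M.A ≫ M.p by rw [reassoc_of% n2, M.idem])
      (show (r M.A ≫ M.p) ≫ M.p = r M.A ≫ M.p by simp) t,
      fun M N f => LQ.hom_ext ?_⟩ (end' i' n3) (end' r' n4) ?_ ?_ ?_
  · change f.1 ≫ N.p ≫ i N.A = (M.p ≫ i M.A) ≫ Φ.map f.1
    rw [Category.assoc, ← n1, LQ.comp_p_assoc, LQ.p_comp_assoc]
  · change Φ.map f.1 ≫ r N.A ≫ N.p = (r M.A ≫ M.p) ≫ f.1
    rw [reassoc_of% n2, Category.assoc, LQ.comp_p, LQ.p_comp]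
  · ext M
    change (M.p ≫ i M.A) ≫ r M.A ≫ M.p = M.p
    rw [Category.assoc, ← n2, (d _ _ M.p).1, M.idem]
  · ext M
    change (Φ.map M.p ≫ i' M.A) ≫ Φ.map M.p ≫ r' M.A = Φ.map M.p
    rw [Category.assoc, (d _ _ M.p).2.2.2, pp]
  · ext M
    change (r M.A ≫ M.p) ≫ M.p ≫ i M.A + (Φ.map M.p ≫ r' M.A) ≫ Φ.map M.p ≫ i' M.A = Φ.map M.p
    rw [Category.assoc, M.idem_assoc, ← reassoc_of% n2, Category.assoc, ← reassoc_of% n4,
      reassoc_of% pp M, ← Preadditive.comp_add, c, Category.comp_id]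

omit [HasZeroObject C] in
variable (S) in
/-- The idempotent completion as located idempotents over one point. -/
noncomputable def twK : Idempotents.Karoubi C ⥤ S.LQ (Rl.pt ⊤) where
  obj P := ⟨P.X, .one S () _, P.p, P.idem, tw_rg.2 (S.sup_top _)⟩
  map f := LQ.homMk f.f (Idempotents.Karoubi.p_comp f) (Idempotents.Karoubi.comp_p f)
    (tw_rg.2 (S.sup_top _))
  map_id _ := rfl
  map_comp _ _ := rfl

omit [HasZeroObject C] in
instance : (twK S).Additive := ⟨rfl⟩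

omit [HasZeroObject C] in
instance : (twK S).IsEquivalence where
  faithful := ⟨fun e => Idempotents.Karoubi.hom_ext _ _ (congrArg (·.1) e)⟩
  full := ⟨fun f => ⟨⟨f.1, (congrArg (_ ≫ ·) (LQ.comp_p f)).trans (LQ.p_comp f)⟩, rfl⟩⟩
  essSurj := ⟨fun M => ⟨⟨M.A, M.p, M.idem⟩,
    ⟨⟨LQ.homMk M.p M.idem M.idem (tw_rg.2 (S.sup_top _)),
      LQ.homMk M.p M.idem M.idem (tw_rg.2 (S.sup_top _)), LQ.hom_ext M.idem, LQ.hom_ext M.idem⟩⟩⟩⟩

theorem wk_iff_kzero (S : GC G C) : S.WK ⊤ ↔ KZero C := by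
  have : HasBinaryProducts (Idempotents.Karoubi C) :=
    Adjunction.hasLimitsOfShape_of_equivalence (twK S)
  have : HasBinaryBiproducts (Idempotents.Karoubi C) := .of_hasBinaryProducts
  have : HasZeroObject (Idempotents.Karoubi C) :=
    (Idempotents.toKaroubi C).hasZeroObject_of_additive
  exact ((bridge C).trans (Am.Z_equiv (twK S))).symm

end GC

open Tw in
theorem tw_sw {G : Type w} [Group G] {C : Type u} [Category.{v} C] [Preadditive C]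
    [HasBinaryBiproducts C] [HasZeroObject C] {σ : Act G C} (hs : Swd σ fun _ => True) :
    (twGC σ).WK ⊤ := by
  classical
  obtain ⟨Φ, _, i, r, i', r', e, n, hh⟩ := hs
  have h g := (hh g trivial).1
  have k g := (hh g trivial).2
  let Ψ {A B : Tw σ} : (A ⟶ B) →+ ((⟨Φ.obj A.as⟩ : Tw σ) ⟶ ⟨Φ.obj B.as⟩) :=
    DFinsupp.mapRange.addMonoidHom (β₁ := fun g => A.as ⟶ (σ.F g).obj B.as) fun g =>
      (Preadditive.rightComp _ (eqToHom (Functor.congr_obj (h g) B.as))).comp Φ.mapAddHom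
  have s {A B : Tw σ} (g) (a : A.as ⟶ (σ.F g).obj B.as) :
      Ψ (Tw.sg g a) = Tw.sg g (Φ.map a ≫ eqToHom (Functor.congr_obj (h g) B.as)) :=
    DFinsupp.mapRange_single (hf := fun _ => map_zero _)
  have k1 (g A) : eqToHom (Functor.congr_obj (h g) A) ≫ (σ.F g).map (r A) = r _ :=
    eq_of_heq ((eqToHom_comp_heq ..).trans (k g A).1)
  have k2 (g A) : eqToHom (Functor.congr_obj (h g) A) ≫ (σ.F g).map (r' A) =
      r' _ ≫ eqToHom (Functor.congr_obj (h g) A) :=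
    eq_of_heq ((eqToHom_comp_heq ..).trans ((k g A).2.trans (comp_eqToHom_heq ..).symm))
  have a1 (A : Tw σ) : Ψ (𝟙 A) = 𝟙 _ := by
    rw [one_def, s, one_def]
    simp [eqToHom_map]
  have a2 {A B D : Tw σ} (f : A ⟶ B) (g : B ⟶ D) : Ψ (f ≫ g) = Ψ f ≫ Ψ g := by
    induction f using ind' with
    | h0 => simp
    | h1 a b c d => simp [c, d]
    | h2 x a =>
      induction g using ind' with
      | h0 => simp
      | h1 a b c d => simp [c, d]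
      | h2 y b =>
        rw [sg_comp, s, s, s, sg_comp]
        have := Functor.congr_hom (h x) b
        simp only [Functor.comp_map] at this
        simp [Tw.cmp, eqToHom_map, this]
  have a3 (A B : Tw σ) (f : A ⟶ B) : emb (i A.as) ≫ Ψ f ≫ emb (r B.as) = f ∧
      emb (A := A) (i A.as) ≫ Ψ f ≫ emb (B := ⟨Φ.obj B.as⟩) (r' B.as) = 0 ∧
      emb (A := ⟨Φ.obj A.as⟩) (i' A.as) ≫ Ψ f ≫ emb (B := B) (r B.as) = 0 ∧
      emb (i' A.as) ≫ Ψ f ≫ emb (r' B.as) = Ψ f := by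
    induction f using ind' with
    | h0 => simp
    | h1 a b c d => simp [c, d]
    | h2 x a =>
      obtain ⟨f1, f2, f3, f4⟩ := n _ _ a
      simp only [s, sg_emb, emb_sg, Category.assoc, k1, k2, f1, f3, reassoc_of% f2, reassoc_of% f4,
        sg_zero, zero_comp, and_self]
  let Θ : Tw σ ⥤ Tw σ := ⟨fun A => ⟨Φ.obj A.as⟩, fun f => Ψ f, a1, a2⟩
  have : Θ.Additive := ⟨map_add Ψ _ _⟩
  exact (twGC σ).wk_swindle Θ (fun A => emb (i _)) (fun A => emb (r _)) (fun A => emb (i' _))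
    (fun A => emb (r' _)) (fun A => by rw [emb_comp, emb_comp, ← emb_add, e, emb_id]) a3

variable {Γ : Type w} [Group Γ] {C : Type u} [Category.{v} C] [Preadditive C]
  [HasBinaryBiproducts C] [HasZeroObject C] {σ : Act Γ C}

theorem kz_iff {H : Type w} [Group H] {j : H →* Γ} (hj : Function.Injective j) :
    KZ (σ.comap j) ↔ (SZ σ).WK (j.range.comap (.fst Γ Zi)) := by
  have := Tw.push_faithful (ρ := σ.comap (MonoidHom.fst Γ Zi))
    (j := j.prodMap (MonoidHom.id Zi)) (hj.prodMap Function.injective_id)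
  have e : j.range.comap (.fst Γ Zi) = (j.prodMap (MonoidHom.id Zi)).range := by
    ext g
    exact ⟨fun ⟨a, h⟩ => ⟨(a, g.2), Prod.ext h rfl⟩, fun ⟨a, h⟩ => ⟨a.1, congrArg Prod.fst h⟩⟩
  rw [e]
  exact GC.wk_equiv (S := twGC ((σ.comap (MonoidHom.fst Γ Zi)).comap
    (j.prodMap (MonoidHom.id Zi)))) (Tw.pushF _) (fun f _ => sup_push f)
    (fun f h => (push_surj f h).imp fun _ k => ⟨GC.sup_top _ _, k⟩) fun A => ⟨⟨A.as⟩, rfl⟩

theorem kz_sub (H : Subgroup Γ) :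
    KZ (σ.comap H.subtype) ↔ (SZ σ).WK (H.comap (.fst Γ Zi)) := by
  rw [kz_iff H.subtype_injective, H.range_subtype]

theorem kz_sw (hs : Sw σ) (V : Type w) [Group V] (x : V) (h : (Subgroup.zpowers x).FiniteIndex)
    (q : V →* Γ) : KZ (σ.comap q) := by
  obtain ⟨Φ, b, i, r, i', r', c, d, e⟩ := hs V x h q
  exact tw_sw ⟨Φ, b, i, r, i', r', c, d, fun g _ => e (q g.1) ⟨g.1, rfl⟩⟩

theorem wk_sw (hs : Sw σ) (V : Subgroup Γ) (x : V) (h : (Subgroup.zpowers x).FiniteIndex) :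
    (SZ σ).WK (V.comap (.fst Γ Zi)) := (kz_sub V).1 (kz_sw hs V x h V.subtype)

/-- The bridge to the statement: `LQ (pt ⊤)` is equivalent to `Karoubi`; F6 of 33. -/
theorem kz_iff_kzero : KZ σ ↔ KZero (TwZ σ) := (SZ σ).wk_iff_kzero

end Pool.Agent.Lib.MP_5d3e93_al
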