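import Pool.Agent.Lib.MP_5d3e93_al.K.IC
import Pool.Agent.Lib.MP_5d3e93_al.Gr.Of
import Pool.Agent.Lib.MP_5d3e93_al.Gr.ExaG
import Pool.Agent.Lib.MP_5d3e93_al.Gr.KnL

/-! Karoubi filtrations and cofinality. -/

open CategoryTheory Limits Pretriangulated ZeroObject

namespace Pool.Agent.Lib.MP_5d3e93_al.K

open Gr

universe w v u v' u' v'' u''

/-- The essential image of an idempotent complete category is closed under retracts. -/
theorem kar_ret {A D : Type*} [Category* A] [Category* D] [IsIdempotentComplete A] (H : A ⥤ D)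
    [H.Full] [H.Faithful] {X Y : D} (i : X ⟶ Y) (r : Y ⟶ X) (h : i ≫ r = 𝟙 X)
    (k : H.essImage Y) : H.essImage X := by
  obtain ⟨a, ⟨e⟩⟩ := k
  obtain ⟨b, j, q, h1, h2⟩ := IsIdempotentComplete.idempotents_split a
    (H.preimage (e.hom ≫ r ≫ i ≫ e.inv)) (H.map_injective (by simp [reassoc_of% h]))
  have h3 : H.map q ≫ H.map j = e.hom ≫ r ≫ i ≫ e.inv := by rw [← H.map_comp, h2, H.map_preimage]
  have h4 : H.map j ≫ H.map q = 𝟙 _ := by rw [← H.map_comp, h1, H.map_id]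
  refine ⟨b, ⟨⟨H.map j ≫ e.hom ≫ r, i ≫ e.inv ≫ H.map q, ?_, ?_⟩⟩⟩
  · simp only [Category.assoc]
    rw [← reassoc_of% h3, h4, Category.comp_id, h4]
  · simp [reassoc_of% h3, h]

theorem kar_th {D : Type*} [Category* D] [HasZeroObject D] [HasShift D ℤ] [Preadditive D]
    [∀ n : ℤ, (shiftFunctor D n).Additive] [Pretriangulated D] {S : ObjectProperty D} [Tg S]
    {X : D} (h : Th S X) : S (X ⊞ X⟦(1 : ℤ)⟧) := by
  obtain ⟨Y, h⟩ := h
  have k := S.prop_of_iso (biprod.braiding X Y) h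
  exact S.prop_of_iso (isoZeroBiprod (isZero_zero D)).symm (k0_sum S
    (rot_of_distTriang _ (contractible_distinguished Y)) k (k0_shift S 1 k))

instance kar_sg_add (a : Am.{v, u}) : a.sg.Additive :=
  inferInstanceAs (HomotopyCategory.singleFunctor a.A 0 ⋙ a.Q).Additive

section KarUp
variable {A : Type (max u v)} [Category.{v} A] [Preadditive A] [HasZeroObject A]
  [HasBinaryBiproducts A] {U : Type (max u' v')} [Category.{v'} U] [Preadditive U]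
  [HasZeroObject U] [HasBinaryBiproducts U] {Q : Type (max u'' v'')} [Category.{v''} Q]
  [Preadditive Q] [HasZeroObject Q] [HasBinaryBiproducts Q]
/-- An additive functor as a map. -/
def ofF (F : A ⥤ U) [h : F.Additive] : Am.Map (Am.of.{v, u} A) (Am.of.{v', u'} U) :=
  @Am.ofMap _ _ _ _ _ (Am.of U) F h

theorem ofF_top (F : A ⥤ U) [F.Additive] :
    ObjectProperty.map ⊤ (ofF.{v, u, v', u'} F).F = F.essImage := ObjectProperty.map_top F

theorem ofF_deq (ι : A ⥤ U) [ι.Additive] [ι.Full] [ι.Faithful] :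
    Deq (ofF.{v, u, v', u'} ι).D (Am.of A).bdd ((Am.of U).gen ι.essImage) := by
  have := Am.FF.deq_gen (ofF.{v, u, v', u'} ι) (Am.ff_of_pj _ (G := ⊤) (fun g _ => Am.of_pj g)
    (fun g _ => Am.of_pj (ι.obj g)) fun _ _ _ _ => ⟨ι.map_injective, ι.map_surjective⟩)
  rw [ofF_top] at this
  exact this

/-- Split sequences give triangles. -/
theorem kar_tri {X Y Z : U} {i : X ⟶ Y} {p : Y ⟶ Z} (h : Spl i p) :
    ∃ δ, Triangle.mk ((Am.of.{v', u'} U).sg.map i) ((Am.of.{v', u'} U).sg.map p) δ ∈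
      distTriang (Am.of.{v', u'} U).D := by
  have z : i ≫ p = 0 := by
    obtain ⟨r, s, h1, h2, h3⟩ := h
    have h4 : i ≫ (r ≫ i + p ≫ s) ≫ p = i ≫ p := by rw [h3, Category.id_comp]
    simpa [reassoc_of% h1, h2] using h4
  exact (Am.exaS_of_reflect (fun _ : Unit => (Am.of.{v', u'} U).idm) (fun _ k => k ()) z
    fun _ => h).tri

/-- `cl_retract`. -/
theorem gen_thick (ι : A ⥤ U) [ι.Additive] [ι.Full] [ι.Faithful] [IsIdempotentComplete A]
    (X : (Am.of.{v', u'} U).D) (h : Th ((Am.of.{v', u'} U).gen ι.essImage) X) :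
    (Am.of.{v', u'} U).gen ι.essImage X := by
  let s : U ⥤ (Am.of.{v', u'} U).D := (Am.of.{v', u'} U).sg
  have : s.Additive := kar_sg_add (Am.of.{v', u'} U)
  have : s.Full := ⟨fun f => ((Am.of_pj _).sg_bij _).2 f⟩
  have : s.Faithful := ⟨fun f => ((Am.of_pj _).sg_bij _).1 f⟩
  have e : ι.essImage.map s = (ι ⋙ s).essImage := funext fun Y => propext
    ⟨fun ⟨_, ⟨a, ⟨i⟩⟩, ⟨j⟩⟩ => ⟨a, ⟨s.mapIso i ≪≫ j⟩⟩, fun ⟨a, i⟩ => ⟨_, ι.obj_mem_essImage a, i⟩⟩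
  change Cl (ι.essImage.map s) X
  change Th (Cl (ι.essImage.map s)) X at h
  rw [e] at h ⊢
  refine cl_retract (fun Y z => ⟨0, ⟨((ι ⋙ s).map_isZero (isZero_zero A)).iso z⟩⟩) ?_ ?_
    (fun _ _ i r k => kar_ret _ i r k) h
  · rintro n hn _ _ f ⟨a, ⟨i⟩⟩ ⟨b, ⟨j⟩⟩
    have := (Am.of_pj (ι.obj a)).ext_zero (ι.obj b) hn.ne' (i.hom ≫ f ≫ j.inv⟦n⟧')
    rw [← cancel_epi i.hom, ← cancel_mono (j.inv⟦n⟧'), Category.assoc, comp_zero, zero_comp]
    exact this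
  · rintro _ _ ⟨a, ⟨i⟩⟩ ⟨b, ⟨j⟩⟩
    have := preservesBinaryBiproducts_of_preservesBinaryProducts (ι ⋙ s)
    exact ⟨a ⊞ b, ⟨(ι ⋙ s).mapBiprod a b ≪≫ biprod.mapIso i j⟩⟩

/-- `proadj` with `G = G' = ⊤`. -/
theorem kar_loc (ι : A ⥤ U) [ι.Additive] [ι.Full] [ι.Faithful] [IsIdempotentComplete A]
    (h : U ⥤ Q) [h.Additive] [h.Full] (kill : ∀ a, IsZero (h.obj (ι.obj a)))
    (fac : ∀ {X Y : U} (f : X ⟶ Y), h.map f = 0 → ∃ (X' : U) (a : A) (i : X' ⟶ X)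
      (r : X ⟶ ι.obj a), Spl i r ∧ i ≫ f = 0) :
    Loc (ofF.{v', u', v'', u''} h).D ((Am.of U).gen ι.essImage) (Am.of U).bdd
      ((Am.of Q).gen h.essImage) := by
  have k : LocOn (ofF.{v', u', v'', u''} h).D ((Am.of U).gen ι.essImage) ((Am.of U).gen ⊤) := by
    refine Am.proadj (G := ⊤) _ (Cl.le fun _ ⟨x, _, e⟩ => Cl.of ⟨x, trivial, e⟩)
      (Cl.le (S := Zr.inverseImage (ofF.{v', u', v'', u''} h).D) ?_) le_rfl
      (fun g _ => Am.of_pj g) (fun g _ => Am.of_pj (h.obj g)) (fun g P _ _ φ => ?_)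
      fun g P _ _ ψ z => ?_
    · rintro _ ⟨x, ⟨a, ⟨i⟩⟩, ⟨j⟩⟩
      obtain ⟨e⟩ := (ofF.{v', u', v'', u''} h).sg_iso
      exact (((Am.of.{v'', u''} Q).sg.map_isZero ((kill a).of_iso (h.mapIso i.symm))).of_iso
        (e.app x)).of_iso ((ofF.{v', u', v'', u''} h).D.mapIso j.symm)
    · refine ⟨g, 𝟙 g, h.preimage φ, trivial, ?_, ?_⟩
      · rw [CategoryTheory.Functor.map_id]
        exact MorphismProperty.id_mem _ _
      · rw [CategoryTheory.Functor.map_id, Category.id_comp]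
        exact (h.map_preimage φ).symm
    · obtain ⟨X', a, i, r, s, e⟩ := fac ψ z
      obtain ⟨δ, hδ⟩ := kar_tri s
      exact ⟨X', i, trivial, ⟨_, _, δ, hδ, Cl.of ⟨_, ι.obj_mem_essImage a, ⟨Iso.refl _⟩⟩⟩, e⟩
  have l := k.loc fun X _ => gen_thick ι X
  have e : ((Am.of U).gen ⊤).map (ofF.{v', u', v'', u''} h).D = (Am.of Q).gen h.essImage :=
    (k.map_cl.trans (Am.gen_map_eq _ _)).trans (congrArg _ (ofF_top h))
  rw [e] at l
  exact l

theorem kar (ι : A ⥤ U) [ι.Additive] [ι.Full] [ι.Faithful] [IsIdempotentComplete A]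
    (h : U ⥤ Q) [h.Additive] [h.Full] [h.EssSurj] (kill : ∀ a, IsZero (h.obj (ι.obj a)))
    (fac : ∀ {X Y : U} (f : X ⟶ Y), h.map f = 0 → ∃ (X' : U) (a : A) (i : X' ⟶ X)
      (r : X ⟶ ι.obj a), Spl i r ∧ i ≫ f = 0) (z : Am.Z (Am.of.{v, u} A).bdd) :
    Am.Z (Am.of.{v', u'} U).bdd ↔ Am.Z (Am.of.{v'', u''} Q).bdd := by
  have l := kar_loc.{v, u, v', u', v'', u''} ι h kill fac
  have e : h.essImage = ⊤ := funext fun X => eq_true (Functor.EssSurj.mem_essImage h X)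
  rw [e] at l
  have z' := (Am.Z_deq (ofF_deq.{v, u, v', u'} ι)).1 z
  exact ⟨Am.Z_quo l z', Am.Z_mid l z'⟩

/-- Cofinality in vanishing form (`dense_eq`; `X ⊞ X⟦1⟧` lies in `S` for `X` in `Th S`). -/
theorem gen_eq_of_cof (P : ObjectProperty U)
    (cof : ∀ c, ∃ (x : U) (i : c ⟶ x) (r : x ⟶ c), P x ∧ i ≫ r = 𝟙 c)
    (S : ObjectProperty (Am.of.{v', u'} U).D) [Tg S] (h : (Am.of.{v', u'} U).gen P ≤ S)
    (h' : S ≤ (Am.of.{v', u'} U).bdd) (z : Subsingleton (K0 S)) : (Am.of.{v', u'} U).gen P = S := by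
  have k : (Am.of.{v', u'} U).bdd ≤ Th ((Am.of.{v', u'} U).gen P) := Cl.le (by
    rintro _ ⟨c, -, ⟨e⟩⟩
    obtain ⟨x, i, r, p, q⟩ := cof c
    refine Th.of_retract (e.inv ≫ (Am.of.{v', u'} U).sg.map i)
      ((Am.of.{v', u'} U).sg.map r ≫ e.hom) ?_ (Cl.of ⟨x, p, ⟨Iso.refl _⟩⟩)
    have : (Am.of.{v', u'} U).sg.map i ≫ (Am.of.{v', u'} U).sg.map r = 𝟙 _ :=
      ((Am.of.{v', u'} U).sg.map_comp i r).symm.trans
        ((congrArg _ q).trans ((Am.of.{v', u'} U).sg.map_id c))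
    rw [Category.assoc, reassoc_of% this, e.inv_hom_id])
  exact dense_eq h (fun X a => ⟨X⟦(1 : ℤ)⟧, S.le_shift 1 _ a, kar_th (k X (h' X a))⟩) z

end KarUp

end Pool.Agent.Lib.MP_5d3e93_al.K
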