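import Pool.Agent.Lib.MP_5d3e93_al.K.Tm

/-! Actions on trees whose edge stabilisers are accessible, all degrees. -/

open CategoryTheory Limits ZeroObject MulAction

namespace Pool.Agent.Lib.MP_5d3e93_al

universe w v u

open Gr

namespace GC

variable {G : Type w} [Group G] {C : Type u} [Category.{v} C] [Preadditive C] [HasZeroObject C]
variable {S : GC G C} {Γ : Type w} [Group Γ] {q : G →* Γ}

theorem gi_orb2 {Y : Type w} [MulAction Γ Y] (Ω : Y → Y → Prop)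
    (tr : ∀ a b c, Ω a b → Ω b c → Ω a c)
    (h : ∀ a b, Ω a b → Unq (fun x y => (x, y) ∈ orbit Γ (a, b)) →
      S.GI q Y fun x y => (x, y) ∈ orbit Γ (a, b)) (R : Y → Y → Prop)
    (hR : ∀ (g : Γ) a b, R a b → R (g • a) (g • b)) (hu : Unq R) (hΩ : ∀ a b, R a b → Ω a b) :
    S.GI q Y R := by
  intro m
  induction m generalizing R with
  | zero => exact gm_one.anti zero_le_one
  | succ m ih =>
    obtain rfl | hm := Nat.eq_zero_or_pos m
    · exact gm_one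
    refine gm_laz (fun a g b => orbit Γ (a, q g • b)) ?_ ?_
      (fun _ _ _ _ _ e x y => PO.sep hu e (wr_po hR x) (wr_po hR y)) (fun k => ?_) (fun κ l => ?_) hm
    · rintro _ g b h d rfl -
      rw [map_mul, mul_smul]
      exact orbit_smul (q g) (b, q h • d)
    · rintro a g _ h d - rfl
      rw [map_mul, mul_smul]
    · by_cases e : ∃ a b, R a b ∧ orbit Γ (a, b) = k
      · obtain ⟨a, b, x, rfl⟩ := e
        refine (h a b (hΩ _ _ x) (hu.mono ?_) _).push id (fun _ _ _ => id) fun _ _ _ y =>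
          y.2 ▸ mem_orbit_self _
        rintro c d ⟨g, y⟩
        obtain ⟨rfl, rfl⟩ := Prod.ext_iff.1 y
        exact hR g _ _ x
      · exact gm_empty fun a g b x => e ⟨_, _, x⟩
    · refine (ih (Pth R κ.length) (fun g _ _ => Pth.smul hR g) (hu.pth _) ?_).push id
        (fun _ _ _ => id) fun _ _ _ y => (wr_po hR y).pth
      have key (n : ℕ) : ∀ a b, Pth R (n + 1) a b → Ω a b := by
        induction n with
        | zero =>
          rintro a _ ⟨c, x, rfl⟩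
          exact hΩ _ _ x
        | succ n k => exact fun a b ⟨c, x, y⟩ => tr _ _ _ (hΩ _ _ x) (k _ _ y)
      obtain _ | ⟨k, κ⟩ := κ
      · simp at l
      · exact key _

theorem gi_acc (hq : Function.Surjective q) (Φ : Subgroup Γ → Prop)
    (hle : ∀ D D', D' ≤ D → Φ D → Φ D') (hW : ∀ D, Φ D → S.WK (D.comap q))
    {E : Type w} [MulAction Γ E] (Q : E → E → Prop) (tr : ∀ a b c, Q a b → Q b c → Q a c)
    (sm : ∀ (g : Γ) a b, Q a b → Q (g • a) (g • b)) (e : E) {D : Subgroup Γ}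
    (hD : Acc (fun D₁ D => ∃ t, Q e (t • e) ∧ Fr D (dc D t) ∧
      ¬ S.GS (D.comap q) {k | q k ∈ dc D t} ∧ D₁ = cj D t) D) :
    ∀ (Y : Type w) [MulAction Γ Y] (f : Y → E), (∀ (g : Γ) y, f (g • y) = g • f y) →
      (∀ a : Y, Φ (stabilizer Γ a)) → ∀ a b : Y, f a = e → stabilizer Γ a = D → Q (f a) (f b) →
      Unq (fun x y => (x, y) ∈ orbit Γ (a, b)) → S.GI q Y fun x y => (x, y) ∈ orbit Γ (a, b) := by
  induction hD with
  | intro D _ ih =>
    rintro Y _ f hf tm a b rfl rfl hQ hu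
    by_cases o : b ∈ orbit Γ a
    swap
    · exact gi_ne o
    obtain ⟨t, rfl⟩ := o
    by_cases k : S.GS ((stabilizer Γ a).comap q) {k | q k ∈ dc (stabilizer Γ a) t}
    · exact gi_of_gs hq k
    have tm' (r : orbit Γ (a, t • a)) : Φ (stabilizer Γ r) :=
      hle _ _ (fun g l => congrArg (fun r : orbit Γ (a, t • a) => r.1.1) l) (tm r.1.1)
    refine gi_stepZ (fun y => hW _ (tm y)) (fun r => hW _ (tm' r))
      (gi_orb2 (fun r r' => Q (f r.1.1) (f r'.1.1)) (fun _ _ _ => tr _ _ _) (fun r r' c l => ?_) _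
        (fun g r r' l => congrArg (g • ·) l) (unq_step hu) ?_)
    · let r₀ : orbit Γ (a, t • a) := ⟨_, mem_orbit_self _⟩
      obtain ⟨g, rfl⟩ := exists_smul_eq Γ r₀ r
      obtain ⟨r', rfl⟩ := MulAction.surjective g r'
      have p : orbit Γ (g • r₀, g • r') = orbit Γ (r₀, r') := orbit_smul g (r₀, r')
      simp only [p] at l ⊢
      refine ih _ ⟨t, hf t a ▸ hQ, fr_of_unq hu, k, rfl⟩ _ (fun r => f r.1.1) (fun g r => hf g r.1.1)
        tm' r₀ r' rfl (stab_pair a t) ?_ l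
      have := sm g⁻¹ _ _ c
      rwa [← hf, ← hf, show g⁻¹ • (g • r₀).1.1 = r₀.1.1 from inv_smul_smul g _,
        show g⁻¹ • (g • r').1.1 = r'.1.1 from inv_smul_smul g _] at this
    · rintro ⟨_, g, rfl⟩ r' l
      rw [← l]
      have := sm g _ _ hQ
      rwa [← hf, ← hf] at this

end GC

variable {Γ : Type w} [Group Γ] {C : Type u} [Category.{v} C] [Preadditive C]
  [HasBinaryBiproducts C] [HasZeroObject C] {σ : Act Γ C}
  {V : Type w} [MulAction Γ V] {T : SimpleGraph V}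

theorem Dt.ssub (hT : T.IsTree) {ha : ∀ (g : Γ) a b, T.Adj a b → T.Adj (g • a) (g • b)} (k : ℕ) :
    ∀ d e : Dt T ha, Pth Dt.st (k + 1) d e → Half T e.a e.b ⊂ Half T d.a d.b := by
  have o (d e : Dt T ha) (h : d.st e) : Half T e.a e.b ⊂ Half T d.a d.b := by
    obtain ⟨a, b, p⟩ := d
    obtain ⟨c, e, q⟩ := e
    obtain ⟨rfl, r⟩ := h
    refine ⟨half_nest hT p q (half_step half_self q fun l => ?_), fun l => not_half hT q (l half_self)⟩
    rcases Sym2.eq_iff.1 l with ⟨l, -⟩ | ⟨-, l⟩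
    exacts [p.ne l.symm, r l]
  induction k with
  | zero =>
    rintro d _ ⟨e, h, rfl⟩
    exact o _ _ h
  | succ k ih => exact fun d e ⟨c, h, l⟩ => (ih _ _ l).trans (o _ _ h)

theorem kz_acc (hT : T.IsTree) (ha : ∀ (g : Γ) a b, T.Adj a b → T.Adj (g • a) (g • b))
    (hi : ∀ (g : Γ) a b, T.Adj a b → g • a = b → g • b ≠ a)
    (hV : ∀ a : V, KZ (σ.comap (stabilizer Γ a).subtype))
    (hE : ∀ a b, T.Adj a b → ∀ D ≤ stabilizer Γ a ⊓ stabilizer Γ b, KZ (σ.comap D.subtype))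
    (hA : ∀ a b, T.Adj a b → Acc (fun D₁ D => ∃ g : Γ, Half T (g • a) (g • b) ⊂ Half T a b ∧
      Fr D (dc D g) ∧ ¬ GD σ D g ∧ D₁ = cj D g) (stabilizer Γ a ⊓ stabilizer Γ b)) : KZ σ := by
  have e (d : Dt T ha) : stabilizer Γ d = stabilizer Γ d.a ⊓ stabilizer Γ d.b :=
    Subgroup.ext fun _ => Dt.ext_iff
  have tr (a b c : Dt T ha) : (∃ k, Pth Dt.st (k + 1) a b) → (∃ k, Pth Dt.st (k + 1) b c) →
      ∃ k, Pth Dt.st (k + 1) a c := fun ⟨k, x⟩ ⟨l, y⟩ => ⟨l + 1 + k, x.trans y⟩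
  refine kz_of_zf (GC.zf_tree (.fst Γ Zi) hT ha hi (fun a => (kz_sub _).1 (hV a))
    (fun d => (kz_sub _).1 (hE _ _ d.adj _ (e d).le)) (GC.gi_orb2 _ tr (fun a b c => ?_) _
      Dt.st_smul (Dt.unq hT) fun a b c => ⟨0, b, c, rfl⟩))
  refine GC.gi_acc Prod.fst_surjective (fun D => ∃ d : Dt T ha, D ≤ stabilizer Γ d)
    (fun _ _ a b => b.imp fun _ c => a.trans c)
    (fun D ⟨d, a⟩ => (kz_sub _).1 (hE _ _ d.adj D (a.trans (e d).le))) _ tr
    (fun g _ _ k => k.imp fun _ => Pth.smul Dt.st_smul g) a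
    (Subrelation.accessible ?_ (hA _ _ a.adj)) _ id (fun _ _ => rfl) (fun d => ⟨d, le_rfl⟩) a b rfl
    (e a) c
  rintro _ D ⟨t, ⟨k, x⟩, y⟩
  exact ⟨t, Dt.ssub hT k _ _ x, y⟩

end Pool.Agent.Lib.MP_5d3e93_al
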