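import Pool.Agent.Lib.MP_5d3e93_al.K.Kar
import Pool.Agent.Lib.MP_5d3e93_al.Gr.KnL
import Pool.Agent.Lib.MP_5d3e93_al.Gr.Of

/-! Mayer-Vietoris sequences and dense subcategories. -/

open CategoryTheory Limits Pretriangulated ZeroObject

namespace Pool.Agent.Lib.MP_5d3e93_al

universe v u

namespace Gr

section Tri
variable {D : Type*} [Category* D] [HasZeroObject D] [HasShift D ℤ] [Preadditive D]
  [∀ n : ℤ, (shiftFunctor D n).Additive] [Pretriangulated D]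

/-- Maps from objects of `G` to `T` die after an equivalence modulo `N`. -/
def MvK (N G : ObjectProperty D) (T : D) : Prop :=
  ∀ X, G X → ∀ g : X ⟶ T, ∃ (X' : D) (s : X' ⟶ X), G X' ∧ N.trW s ∧ s ≫ g = 0

theorem MvK.iso {N G : ObjectProperty D} {T T' : D} (e : T ≅ T') (h : MvK N G T) :
    MvK N G T' := fun X a g => by
  obtain ⟨X', s, b, c, d⟩ := h X a (g ≫ e.inv)
  exact ⟨X', s, b, c, by rw [← cancel_mono e.inv, Category.assoc, d, zero_comp]⟩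

theorem mvK_cl [IsTriangulated D] {N G G' : ObjectProperty D} [Tg N]
    (h : ∀ (n : ℤ) Y, G' Y → MvK N G (Y⟦n⟧)) {T : D} (a : Cl G' T) : MvK N G T := by
  have : ∀ n : ℤ, MvK N G (T⟦n⟧) := by
    induction a with
    | of a => exact fun n => h n _ a
    | zero a =>
      exact fun n X b g => ⟨X, 𝟙 X, b, MorphismProperty.id_mem _ _,
        ((shiftFunctor D n).map_isZero a).eq_of_tgt _ _⟩
    | shift m _ ih => exact fun n => (ih (m + n)).iso ((shiftFunctorAdd D m n).app _)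
    | ext T k _ _ h₁ h₃ =>
      intro n X b g
      obtain ⟨X₁, s, b₁, c₁, d₁⟩ := h₃ n X b (g ≫ ((Triangle.shiftFunctor D n).obj T).mor₂)
      obtain ⟨g', e⟩ := Triangle.coyoneda_exact₂ _ (T.shift_distinguished k n) (s ≫ g)
        ((Category.assoc _ _ _).trans d₁)
      obtain ⟨X₂, t, b₂, c₂, d₂⟩ := h₁ n X₁ b₁ g'
      refine ⟨X₂, t ≫ s, b₂, MorphismProperty.comp_mem _ _ _ c₂ c₁, ?_⟩
      exact ((Category.assoc _ _ _).trans (congrArg (t ≫ ·) e)).trans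
        (((Category.assoc _ _ _).symm.trans (congrArg (· ≫ _) d₂)).trans zero_comp)
  exact (this 0).iso ((shiftFunctorZero D ℤ).app T)

variable {S S₀ : ObjectProperty D}

theorem mv_shift [Tg S] (n : ℤ) : ∃ ε : ℤ, ∀ X (a : S X) (b : S (X⟦n⟧)),
    K0.mk _ b = ε • K0.mk X a := by
  induction n using Int.induction_on with
  | zero =>
    exact ⟨1, fun X a b => by
      rw [one_smul]; exact K0.mk_iso ((shiftFunctorZero D ℤ).app X) _ _⟩
  | succ n ih =>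
    obtain ⟨ε, h⟩ := ih
    refine ⟨-ε, fun X a b => ?_⟩
    have c : S (X⟦(n : ℤ)⟧) := S.le_shift (n : ℤ) _ a
    have d : S (X⟦(n : ℤ)⟧⟦(1 : ℤ)⟧) := S.le_shift (1 : ℤ) _ c
    rw [neg_smul, ← h X a c]
    exact (K0.mk_iso ((shiftFunctorAdd D (n : ℤ) 1).app X) b d).trans (K0.mk_shift c d)
  | pred n ih =>
    obtain ⟨ε, h⟩ := ih
    refine ⟨-ε, fun X a b => ?_⟩
    have c : S (X⟦-(n : ℤ)⟧) := S.le_shift (-(n : ℤ)) _ a
    have d : S (X⟦-(n : ℤ) - 1⟧⟦(1 : ℤ)⟧) := S.le_shift (1 : ℤ) _ b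
    rw [neg_smul, ← h X a c]
    exact (neg_eq_iff_eq_neg.2 ((K0.mk_iso ((shiftFunctorAdd' D (-(n : ℤ) - 1) 1 (-n)
      (by omega)).app X) c d).trans (K0.mk_shift b d))).symm

theorem mv_sum [Tg S] {T : Triangle D} (hT : T ∈ distTriang D) {X Y : D} (a : S (T.obj₁ ⊞ X))
    (b : S (T.obj₃ ⊞ Y)) (c : S (T.obj₂ ⊞ (X ⊞ Y))) : K0.mk _ c = K0.mk _ a + K0.mk _ b := by
  let U : Bool → Triangle D := fun b => match b with
    | true => T
    | false => binaryBiproductTriangle X Y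
  have hU := productTriangle_distinguished U fun b => match b with
    | true => hT
    | false => binaryBiproductTriangle_distinguished X Y
  have a' := S.prop_of_iso (k0Pi fun b => (U b).obj₁).symm a
  have b' := S.prop_of_iso (k0Pi fun b => (U b).obj₃).symm b
  have c' := S.prop_of_iso (k0Pi fun b => (U b).obj₂).symm c
  exact ((K0.mk_iso (k0Pi fun b => (U b).obj₂) c' c).symm.trans (K0.mk_tri hU a' c' b')).trans
    (congrArg₂ (· + ·) (K0.mk_iso (k0Pi fun b => (U b).obj₁) a' a)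
      (K0.mk_iso (k0Pi fun b => (U b).obj₃) b' b))

theorem mv_inj [Tg S] [Tg S₀] (le : S₀ ≤ S) (hd : ∀ X, S X → ∃ Y, S Y ∧ S₀ (X ⊞ Y)) {X Y : D}
    (a : S₀ X) (b : S₀ Y) (h : K0.mk X (le _ a) = K0.mk Y (le _ b)) : K0.mk X a = K0.mk Y b := by
  obtain ⟨Z, -, h1, h2, e⟩ := K0.rel (fun x y => ∃ z, S z ∧ ∃ (p : S₀ (x ⊞ z)) (q : S₀ (y ⊞ z)),
      K0.mk _ p = K0.mk _ q)
    (fun X a => (hd X a).imp fun _ h => ⟨h.1, h.2, h.2, rfl⟩)
    (fun n x y _ _ ⟨z, c, h, h', e⟩ => ⟨z⟦n⟧, S.le_shift n _ c, k0_shift S₀ n h,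
      k0_shift S₀ n h', by
        have := preservesBinaryBiproducts_of_preservesBiproducts (shiftFunctor D n)
        obtain ⟨ε, k⟩ := mv_shift (S := S₀) n
        have p : S₀ ((x ⊞ z)⟦n⟧) := S₀.le_shift n _ h
        have q : S₀ ((y ⊞ z)⟦n⟧) := S₀.le_shift n _ h'
        rw [← K0.mk_iso ((shiftFunctor D n).mapBiprod x z) p,
          ← K0.mk_iso ((shiftFunctor D n).mapBiprod y z) q, k _ h, k _ h', e]⟩)
    (fun T k T' k' _ _ _ _ ⟨z, c, h, h', e⟩ ⟨w, c', g, g', e'⟩ =>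
      ⟨z ⊞ w, Tg.biprod S c c', k0_sum S₀ k h g, k0_sum S₀ k' h' g', by
        rw [mv_sum k h g, mv_sum k' h' g', e, e']⟩) _ _ h
  have c : S₀ Z := S₀.ext_of_isTriangulatedClosed₃ _ (binaryBiproductTriangle_distinguished Y Z) b h2
  rw [K0.mk_biprod a c, K0.mk_biprod b c] at e
  exact add_right_cancel e

end Tri

namespace Am
section CMv
variable {A : Type (max u v)} [Category.{v} A] [Preadditive A] [HasZeroObject A]
  [HasBinaryBiproducts A]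

theorem mv_mono {a : Am.{v, u}} {P P' : ObjectProperty a.A} (h : P ≤ P') : a.gen P ≤ a.gen P' :=
  Cl.le fun _ ⟨x, p, e⟩ => Cl.of ⟨x, h x p, e⟩

theorem mv_kill {V W G : ObjectProperty A}
    (fac : ∀ X Z (f : X ⟶ Z), G X → V Z → ∃ (X' c : A) (i : X' ⟶ X) (r : X ⟶ c),
      G X' ∧ W c ∧ Spl i r ∧ i ≫ f = 0) {T : (of.{v, u} A).D} (h : (of.{v, u} A).gen V T) :
    MvK ((of.{v, u} A).gen W) (fun Y => ∃ g, G g ∧ Y = (of.{v, u} A).sg.obj g) T := by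
  refine mvK_cl ?_ (of_gen_le (a := of.{v, u} A) V T h)
  rintro n _ ⟨Z, hZ, rfl⟩
  by_cases hn : n = 0
  · subst hn
    refine MvK.iso ((shiftFunctorZero _ ℤ).app _).symm ?_
    rintro _ ⟨X, hX, rfl⟩ g
    obtain ⟨f, rfl⟩ := ((of_pj X).sg_bij Z).2 g
    obtain ⟨X', c, i, r, p, q, s, e⟩ := fac X Z f hX hZ
    obtain ⟨δ, hδ⟩ := K.kar_tri.{v, u} s
    exact ⟨_, (of.{v, u} A).sg.map i, ⟨X', p, rfl⟩, ⟨_, _, δ, hδ, Cl.of ⟨c, q, ⟨Iso.refl _⟩⟩⟩,
      ((of.{v, u} A).sg.map_comp i f).symm.trans ((congrArg _ e).trans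
        ((of.{v, u} A).sg.map_zero _ _))⟩
  · rintro _ ⟨X, hX, rfl⟩ g
    exact ⟨_, 𝟙 _, ⟨X, hX, rfl⟩, MorphismProperty.id_mem _ _,
      (Category.id_comp _).trans ((of_pj X).ext_zero Z hn g)⟩

theorem Z_mv (U V W G : ObjectProperty A) (hU : W ≤ U) (hV : W ≤ V)
    (th : ∀ X, Th ((of.{v, u} A).gen W) X → (of.{v, u} A).gen W X)
    (ret : ∀ X, U X → ∃ (X₀ : A) (i : X ⟶ X₀) (r : X₀ ⟶ X), G X₀ ∧ i ≫ r = 𝟙 X)
    (fac : ∀ X Z (f : X ⟶ Z), G X → V Z → ∃ (X' c : A) (i : X' ⟶ X) (r : X ⟶ c),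
      G X' ∧ W c ∧ Spl i r ∧ i ≫ f = 0)
    (zU : Z ((of.{v, u} A).gen U)) (zV : Z ((of.{v, u} A).gen V)) (zW : Z ((of.{v, u} A).gen W)) :
    Z ((of.{v, u} A).gen (U ⊔ V)) := by
  let a := of.{v, u} A
  let p := a.π (a.gen W)
  have l : ∀ P : ObjectProperty a.A, W ≤ P →
      Loc p.D (a.gen W) (a.gen P) ((a.gen P).map p.D) := fun P h =>
    quo_loc (mv_mono h) fun X _ => th X
  have lU := l U hU
  have lV := l V hV
  have lS := l (U ⊔ V) (hU.trans le_sup_left)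
  have := lU.toLocOn.tg_map
  have := lV.toLocOn.tg_map
  have := lS.toLocOn.tg_map
  have := π_isLocalization (N := a.gen W)
  have lT : LocOn p.D (a.gen W) ⊤ := locOn_of_isLocalization le_top
  have key : ∀ X T, G X → a.gen V T → ∀ φ : p.D.obj (a.sg.obj X) ⟶ p.D.obj T, φ = 0 := by
    intro X T hX hT φ
    obtain ⟨T', s, f, hs, e⟩ := lT.full trivial trivial φ
    obtain ⟨X', t, -, ht, e'⟩ := mv_kill fac ((Tg.of_trW (mv_mono hV) hs).1 hT) _ ⟨X, hX, rfl⟩ f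
    have := isIso_of_kill lT.kill hs
    have := isIso_of_kill lT.kill ht
    rw [← cancel_mono (p.D.map s), ← cancel_epi (p.D.map t), e, ← p.D.map_comp, zero_comp,
      comp_zero]
    exact (congrArg _ e').trans (p.D.map_zero _ _)
  have mono : ∀ {P P' : ObjectProperty a.A}, P ≤ P' → (a.gen P).map p.D ≤ (a.gen P').map p.D :=
    fun h _ ⟨x, k, e⟩ => ⟨x, mv_mono h x k, e⟩
  refine Z_mid lS zW ((Z_sod (sod_of_gen (mono le_sup_left) (mono le_sup_right) ?_ ?_)).2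
    ⟨Z_quo lU zW zU, Z_quo lV zW zV⟩)
  · intro X Y f hX hY
    refine orth_of_gen (G := (U.map a.sg).map p.D) (G' := (a.gen V).map p.D) ?_ X Y f
      (lU.toLocOn.map_cl ▸ hX) (Cl.of hY)
    rintro n X Y f ⟨_, ⟨x, hx, ⟨i⟩⟩, ⟨j⟩⟩ hY
    obtain ⟨T, hT, ⟨k⟩⟩ := ((a.gen V).map p.D).le_shift n Y hY
    obtain ⟨x₀, c, r, g, e⟩ := ret x hx
    have e' : p.D.map (a.sg.map c) ≫ p.D.map (a.sg.map r) = 𝟙 _ := by
      rw [← p.D.map_comp]
      exact (congrArg _ ((a.sg.map_comp c r).symm.trans ((congrArg _ e).trans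
        (a.sg.map_id x)))).trans (p.D.map_id _)
    rw [← cancel_mono k.inv, ← cancel_epi j.hom, ← cancel_epi (p.D.map i.hom), zero_comp,
      comp_zero, comp_zero, ← Category.id_comp (p.D.map i.hom ≫ _), ← e', Category.assoc,
      key x₀ T g hT (_ ≫ _), comp_zero]
  · rw [show (a.gen (U ⊔ V)).map p.D = _ from lS.toLocOn.map_cl]
    refine Cl.le ?_
    rintro _ ⟨y, ⟨x, hx | hx, i⟩, j⟩
    · exact Cl.of (Or.inl ⟨y, Cl.of ⟨x, hx, i⟩, j⟩)
    · exact Cl.of (Or.inr ⟨y, Cl.of ⟨x, hx, i⟩, j⟩)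

theorem Kinc_dense {a : Am.{v, u}} {S₀ S : ObjectProperty a.D} [Tg S₀] [Tg S] (le : S₀ ≤ S)
    (hd : ∀ X, S X → ∃ Y, S Y ∧ S₀ (X ⊞ Y)) (n : ℕ) : Function.Injective (Kinc n le) := by
  induction n generalizing a with
  | zero =>
    intro x y e
    obtain ⟨X, p, rfl⟩ := K0.mk_surj (S := S₀) x
    obtain ⟨Y, q, rfl⟩ := K0.mk_surj (S := S₀) y
    exact mv_inj le hd p q ((knl_mk le X p).symm.trans (e.trans (knl_mk le Y q)))
  | succ n ih =>
    refine ih (knl_V_le le) fun M h => ?_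
    have h1 : V S (M⟦(1 : ℤ)⟧) := (V S).le_shift (1 : ℤ) M h
    have h2 := Tg.biprod (V S) h h1
    refine ⟨_, h1, ⟨fun j => ?_, h2.1.2⟩, h2.2⟩
    have := preservesBinaryBiproducts_of_preservesBiproducts (a.ev j).D
    obtain ⟨Y, -, k⟩ := hd _ (h.1.1 j)
    exact S₀.prop_of_iso ((a.ev j).D.mapBiprod M _ ≪≫ biprod.mapIso (Iso.refl _)
      (((a.ev j).D.commShiftIso (1 : ℤ)).app M)).symm (K.kar_th ⟨Y, k⟩)

theorem gen_dense (P : ObjectProperty A) [Ad P]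
    (cof : ∀ c, ∃ (x : A) (i : c ⟶ x) (r : x ⟶ c), P x ∧ i ≫ r = 𝟙 c) (X : (of.{v, u} A).D)
    (h : (of.{v, u} A).bdd X) : ∃ Y, (of.{v, u} A).bdd Y ∧ (of.{v, u} A).gen P (X ⊞ Y) := by
  have k : (of.{v, u} A).bdd ≤ Th ((of.{v, u} A).gen P) := Cl.le (by
    rintro _ ⟨c, -, ⟨e⟩⟩
    obtain ⟨x, i, r, p, q⟩ := cof c
    refine Th.of_retract (e.inv ≫ (of.{v, u} A).sg.map i)
      ((of.{v, u} A).sg.map r ≫ e.hom) ?_ (Cl.of ⟨x, p, ⟨Iso.refl _⟩⟩)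
    have : (of.{v, u} A).sg.map i ≫ (of.{v, u} A).sg.map r = 𝟙 _ :=
      ((of.{v, u} A).sg.map_comp i r).symm.trans
        ((congrArg _ q).trans ((of.{v, u} A).sg.map_id c))
    rw [Category.assoc, reassoc_of% this, e.inv_hom_id])
  exact ⟨X⟦(1 : ℤ)⟧, (of.{v, u} A).bdd.le_shift 1 _ h, K.kar_th (k X h)⟩

end CMv
end Am

end Gr

end Pool.Agent.Lib.MP_5d3e93_al
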