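import Pool.Agent.Lib.MP_5d3e93_al.Gr.Am

/-! Short binary complexes of additive functors. -/

open CategoryTheory Limits Pretriangulated ZeroObject

namespace Pool.Agent.Lib.MP_5d3e93_al.Gr

universe v u v' u' v'' u''

namespace Bin

variable {C : Type u} [Category.{v} C] [Preadditive C]
variable {A : Type u'} [Category.{v'} A] [Preadditive A]

/-- Adding a term in degree zero. -/
def cons (M : Bin C) (X : C) (δ : Bool → (M.X 0 ⟶ X)) (h : ∀ b, M.d b 0 ≫ δ b = 0) : Bin C where
  X
    | 0 => X
    | n + 1 => M.X n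
  d b
    | 0 => δ b
    | n + 1 => M.d b n
  sq b
    | 0 => h b
    | n + 1 => M.sq b n

/-- Morphisms of such complexes. -/
def consHom {M M' : Bin C} {X X' : C} {δ δ' h h'} (f : M ⟶ M') (g : X ⟶ X')
    (e : ∀ b, f.1 0 ≫ δ' b = δ b ≫ g) : cons M X δ h ⟶ cons M' X' δ' h' :=
  homMk (fun | 0 => g | n + 1 => f.1 n) fun b => fun | 0 => e b | n + 1 => f.2 b n

theorem cons_ext {P Q : Bin C} {f g : P ⟶ Q} (h0 : f.1 0 = g.1 0)
    (h : ∀ n, f.1 (n + 1) = g.1 (n + 1)) : f = g := hom_ext fun | 0 => h0 | n + 1 => h n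

/-- The same for functors. -/
def consF (F : A ⥤ Bin C) (G : A ⥤ C) (δ : ∀ _ : Bool, F ⋙ ev C 0 ⟶ G)
    (h : ∀ b X, (F.obj X).d b 0 ≫ (δ b).app X = 0) : A ⥤ Bin C where
  obj X := cons (F.obj X) (G.obj X) (fun b => (δ b).app X) fun b => h b X
  map f := consHom (F.map f) (G.map f) fun b => (δ b).naturality f
  map_id X := cons_ext (G.map_id X) fun n => congrArg (·.1 n) (F.map_id X)
  map_comp f g := cons_ext (G.map_comp f g) fun n => congrArg (·.1 n) (F.map_comp f g)

instance consF_add (F : A ⥤ Bin C) (G : A ⥤ C) [F.Additive] [G.Additive] (δ h) :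
    (consF F G δ h).Additive :=
  ⟨fun {_ _ f g} => cons_ext G.map_add fun n =>
    congrArg (fun k : F.obj _ ⟶ F.obj _ => k.1 n) (F.map_add (f := f) (g := g))⟩

variable (C)

/-- Forgetting the term of degree zero. -/
def tl : Bin C ⥤ Bin C where
  obj M := ⟨fun n => M.X (n + 1), fun b n => M.d b (n + 1), fun b n => M.sq b (n + 1)⟩
  map f := homMk (fun n => f.1 (n + 1)) fun b n => f.2 b (n + 1)

/-- Exchanging the differentials. -/
def sw : Bin C ⥤ Bin C where
  obj M := ⟨M.X, fun b => M.d !b, fun b => M.sq !b⟩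
  map f := homMk f.1 fun b => f.2 !b

/-- Forgetting the differentials. -/
def gr : Bin C ⥤ Bin C where
  obj M := ⟨M.X, fun _ _ => 0, fun _ _ => zero_comp⟩
  map f := homMk f.1 fun _ _ => comp_zero.trans zero_comp.symm

instance : (tl C).Additive where
instance : (sw C).Additive where
instance : (gr C).Additive where

end Bin

namespace Am

variable {a : Am.{v, u}} {b : Am.{v', u'}} {c : Am.{v'', u''}}

namespace Map

variable (a b) in
/-- The zero map. -/
noncomputable def zero : Map a b where
  F := (Functor.const _).obj 0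
  add := ⟨(isZero_zero _).eq_of_src _ _⟩
  hT _ _ := Tg.zero _ ((HomotopyCategory.quotient _ _).map_isZero
    ((IsZero.iff_id_eq_zero _).2 (HomologicalComplex.hom_ext _ _ fun _ =>
      (isZero_zero _).eq_of_src _ _)))

/-- The direct sum of additive functors. -/
noncomputable def sumF (f g : Map a b) : a.A ⥤ b.A where
  obj X := f.F.obj X ⊞ g.F.obj X
  map φ := biprod.map (f.F.map φ) (g.F.map φ)
  map_id _ := by ext <;> simp
  map_comp _ _ := by ext <;> simp

instance (f g : Map a b) : (sumF f g).Additive := ⟨fun {_ _ φ ψ} => by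
  change biprod.map _ _ = biprod.map (f.F.map φ) (g.F.map φ) + biprod.map (f.F.map ψ) (g.F.map ψ)
  ext <;> simp [Preadditive.add_comp, Preadditive.comp_add]⟩

variable (f g : Map a b)

/-- First inclusion. -/
noncomputable def inl : f.F ⟶ sumF f g := ⟨fun _ => biprod.inl, fun _ _ _ => by simp [sumF]⟩

/-- Second inclusion. -/
noncomputable def inr : g.F ⟶ sumF f g := ⟨fun _ => biprod.inr, fun _ _ _ => by simp [sumF]⟩

/-- First projection. -/
noncomputable def fst : sumF f g ⟶ f.F := ⟨fun _ => biprod.fst, fun _ _ _ => by simp [sumF]⟩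

/-- Second projection. -/
noncomputable def snd : sumF f g ⟶ g.F := ⟨fun _ => biprod.snd, fun _ _ _ => by simp [sumF]⟩

@[simp] theorem inl_app (X) : (f.inl g).app X = biprod.inl := rfl
@[simp] theorem inr_app (X) : (f.inr g).app X = biprod.inr := rfl
@[simp] theorem fst_app (X) : (f.fst g).app X = biprod.fst := rfl
@[simp] theorem snd_app (X) : (f.snd g).app X = biprod.snd := rfl

/-- The direct sum of two maps. -/
noncomputable def sum : Map a b where
  F := sumF f g
  hT X h := by
    obtain ⟨K⟩ := X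
    have e : 𝟙 (((sumF f g).mapHomologicalComplex _).obj K) =
        (NatTrans.mapHomologicalComplex (f.fst g) _).app K ≫
          (NatTrans.mapHomologicalComplex (f.inl g) _).app K +
        (NatTrans.mapHomologicalComplex (f.snd g) _).app K ≫
          (NatTrans.mapHomologicalComplex (f.inr g) _).app K :=
      HomologicalComplex.hom_ext _ _ fun _ => biprod.total.symm
    have := congrArg (HomotopyCategory.quotient _ _ ⋙ b.Q).map e
    rw [Functor.map_add, Functor.map_comp, Functor.map_comp, CategoryTheory.Functor.map_id] at this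
    refine (IsZero.iff_id_eq_zero _).2 (this.trans ((congrArg₂ (· + ·) ?_ ?_).trans (add_zero 0)))
    · exact (congrArg (· ≫ _) (IsZero.eq_of_tgt (f.hT _ h) _ 0)).trans zero_comp
    · exact (congrArg (· ≫ _) (IsZero.eq_of_tgt (g.hT _ h) _ 0)).trans zero_comp

end Map

/-- Adding a term in degree zero. -/
def Map.cons (f : Map a b.B) (g : Map a b) (δ : ∀ _ : Bool, (f.comp (b.ev 0)).F ⟶ g.F)
    (h : ∀ c X, Bin.d (f.F.obj X) c 0 ≫ (δ c).app X = 0) : Map a b.B where
  F := Bin.consF f.F g.F δ h
  add := @Bin.consF_add _ _ _ _ _ _ f.F g.F f.add g.add δ h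
  hT X k := b.B.le_Tb _ fun
    | 0 => g.hT X k
    | j + 1 => (b.ev j).hTb _ (f.hT X k)

/-- Natural transformations between such maps. -/
def Map.consNat {f f' : Map a b.B} {g g' : Map a b} {δ : ∀ _ : Bool, (f.comp (b.ev 0)).F ⟶ g.F}
    {δ' : ∀ _ : Bool, (f'.comp (b.ev 0)).F ⟶ g'.F} {h h'} (α : f.F ⟶ f'.F) (β : g.F ⟶ g'.F)
    (e : ∀ c X, (α.app X).1 0 ≫ (δ' c).app X = (δ c).app X ≫ β.app X) :
    (f.cons g δ h).F ⟶ (f'.cons g' δ' h').F where
  app X := Bin.consHom (h := fun c => h c X) (h' := fun c => h' c X) (α.app X) (β.app X)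
    fun c => e c X
  naturality _ _ φ := Subtype.ext (funext fun
    | 0 => β.naturality φ
    | n + 1 => congrArg (·.1 n) (α.naturality φ))

variable (a)

/-- An object in degree zero. -/
noncomputable def c0 : Map a a.B := (Map.zero a a.B).cons a.idm (fun _ => 0) fun _ _ => comp_zero

/-- The shift of the grading. -/
noncomputable def sh : Map a.B a.B := a.B.idm.cons (Map.zero a.B a) (fun _ => 0) fun _ _ => comp_zero

/-- Forgetting the term of degree zero. -/
def tl : Map a.B a.B where
  F := Bin.tl a.A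
  add := inferInstanceAs (Bin.tl a.A).Additive
  hT _ h := a.B.le_Tb _ fun j => h (j + 1)

/-- Exchanging the differentials. -/
def sw : Map a.B a.B where
  F := Bin.sw a.A
  add := inferInstanceAs (Bin.sw a.A).Additive
  hT _ h := a.B.le_Tb _ h

/-- Forgetting the differentials. -/
def gr : Map a.B a.B where
  F := Bin.gr a.A
  add := inferInstanceAs (Bin.gr a.A).Additive
  hT _ h := a.B.le_Tb _ h

variable {a}

/-- Two natural transformations as a binary complex of length one. -/
noncomputable def Map.two (f g : Map a b) (α : Bool → (f.F ⟶ g.F)) : Map a b.B :=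
  (f.comp b.c0).cons g α fun _ _ =>
    (congrArg (· ≫ _) (show (_ : _ ⟶ f.F.obj _) = 0 from rfl)).trans zero_comp

/-- Natural transformations between such maps. -/
noncomputable def Map.twoNat {f g f' g' : Map a b} {α : Bool → (f.F ⟶ g.F)}
    {α' : Bool → (f'.F ⟶ g'.F)} (φ : f.F ⟶ f'.F) (ψ : g.F ⟶ g'.F)
    (e : ∀ c, φ ≫ α' c = α c ≫ ψ) : (f.two g α).F ⟶ (f'.two g' α').F :=
  Map.consNat (Functor.whiskerRight φ b.c0.F) ψ fun c X => NatTrans.congr_app (e c) X

/-- Objects acyclic for one differential. -/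
def Ac1 (a : Am.{v, u}) (c : Bool) : ObjectProperty a.B.D :=
  fun M => ∀ Y (φ : M ⟶ (a.R c).D.obj Y), φ = 0

end Am

end Pool.Agent.Lib.MP_5d3e93_al.Gr
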