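import Pool.Agent.Lib.MP_5d3e93_al.K.LQ
import Pool.Agent.Lib.MP_5d3e93_al.TreeMain
import Pool.Agent.Lib.MP_5d3e93_al.K.Two
import Pool.Agent.Lib.MP_5d3e93_al.Gr.Kn
import Pool.Agent.Lib.MP_5d3e93_al.Gr.Of

/-! Classes of natural automorphisms, sources, and vanishing of Nil terms in all degrees. -/

open CategoryTheory Limits ZeroObject

namespace Pool.Agent.Lib.MP_5d3e93_al

universe w v u y v' u' v'' u''

namespace Gr

namespace Am

variable {a : Am.{v, u}} {b : Am.{v', u'}}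

/-- The two-term binary complexes with differentials the identity and `t`. -/
noncomputable def Map.bin (f : Map a b) (t : f.F ⟶ f.F) : Map a b.B :=
  f.two f fun c => bif c then 𝟙 _ else t

/-- Natural automorphisms with trivial class in all degrees. -/
def Tr (f : Map a b) (t : f.F ⟶ f.F) : Prop :=
  IsIso t ∧ ∀ n (h : a.bdd ≤ (V b.bdd).inverseImage (f.bin t).D)
    (h' : a.bdd ≤ (V b.bdd).inverseImage (f.bin (𝟙 _)).D),
      Kmap n (f.bin t) h = Kmap n (f.bin (𝟙 _)) h'

/-- All trivial complexes are bounded. -/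
def Gs (a : Am.{v, u}) : Prop := a.T ≤ genK ⊤

end Am

/-- Additive functors that kill the trivial complexes. -/
structure Fn (X : Am.{v, u}) (B : Type u') [Category.{v'} B] [Preadditive B] where
  F : X.A ⥤ B
  [add : F.Additive]
  hT : ∀ K, X.Tb K → IsZero ((F.mapHomotopyCategory _).obj K)

attribute [instance] Fn.add

namespace Fn

variable {X : Am.{v, u}} {B : Type u'} [Category.{v'} B] [Preadditive B]

instance : Category (Fn X B) where
  Hom F F' := F.F ⟶ F'.F
  id F := 𝟙 F.F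
  comp α β := α ≫ β

instance : Preadditive (Fn X B) where
  homGroup F F' := inferInstanceAs (AddCommGroup (F.F ⟶ F'.F))
  add_comp F F' F'' := Preadditive.add_comp F.F F'.F F''.F
  comp_add F F' F'' := Preadditive.comp_add F.F F'.F F''.F

/-- Composition with an additive functor. -/
def post (F : Fn X B) {B' : Type u''} [Category.{v''} B'] [Preadditive B'] (Φ : B ⥤ B')
    [Φ.Additive] : Fn X B' :=
  ⟨F.F ⋙ Φ, fun K h => (Φ.mapHomotopyCategory _).map_isZero (F.hT K h)⟩

/-- Restriction along a map of sources. -/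
def pre (F : Fn X B) {X' : Am.{v'', u''}} (g : Am.Map X' X) : Fn X' B :=
  ⟨g.F ⋙ F.F, fun K h => F.hT _ (g.hTb K h)⟩

/-- It suffices to kill the given trivial complexes. -/
def mk' {B : Type (max u' v')} [Category.{v'} B] [Preadditive B] [HasZeroObject B]
    [HasBinaryBiproducts B] (F : X.A ⥤ B) [k : F.Additive]
    (h : ∀ K, X.T K → IsZero ((F.mapHomotopyCategory _).obj K)) : Fn X B :=
  ⟨F, fun K l => (Am.of_Tb.{v', u'} _).1 (Am.Map.hTb (b := Am.of.{v', u'} B)
    (@Am.Map.mk X (Am.of B) F k fun K h' => Tg.zero (Am.of B).Tb (h K h')) K l)⟩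

/-- The map of ambient categories. -/
def map {B : Type (max u' v')} [Category.{v'} B] [Preadditive B] [HasZeroObject B]
    [HasBinaryBiproducts B] (F : Fn X B) : Am.Map X (Am.of.{v', u'} B) where
  F := F.F
  add := F.add
  hT K h := Tg.zero (Am.of B).Tb (F.hT K (X.le_Tb K h))

/-- Natural automorphisms with trivial class. -/
def Tr {B : Type (max u' v')} [Category.{v'} B] [Preadditive B] [HasZeroObject B]
    [HasBinaryBiproducts B] {F : Fn X B} (t : F ⟶ F) : Prop := Am.Tr (map.{v, u, v', u'} F) t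

end Fn

/-- Additive subcategories. -/
structure Su (A : Type u) [Category.{v} A] [Preadditive A] where
  ob : A → Prop
  mor : ∀ X Y : A, AddSubgroup (X ⟶ Y)
  id : ∀ X, ob X → 𝟙 X ∈ mor X X
  comp : ∀ {X Y Z : A} {f : X ⟶ Y} {g : Y ⟶ Z}, f ∈ mor X Y → g ∈ mor Y Z → f ≫ g ∈ mor X Z
  zero : ∃ Z, IsZero Z ∧ ob Z
  sum : ∀ X Y, ob X → ob Y → ∃ b : BinaryBicone X Y, ob b.pt ∧ b.fst ∈ mor _ _ ∧ b.snd ∈ mor _ _ ∧
    b.inl ∈ mor _ _ ∧ b.inr ∈ mor _ _ ∧ b.fst ≫ b.inl + b.snd ≫ b.inr = 𝟙 _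

namespace Su

variable {A : Type u} [Category.{v} A] [Preadditive A] (s : Su A)

/-- The subcategory. -/
structure Cat where
  X : A
  ob : s.ob X

instance : Category.{v} s.Cat where
  Hom X Y := s.mor X.X Y.X
  id X := ⟨𝟙 _, s.id _ X.ob⟩
  comp f g := ⟨f.1 ≫ g.1, s.comp f.2 g.2⟩
  id_comp _ := Subtype.ext (Category.id_comp _)
  comp_id _ := Subtype.ext (Category.comp_id _)
  assoc _ _ _ := Subtype.ext (Category.assoc ..)

instance : Preadditive s.Cat where
  homGroup X Y := inferInstanceAs (AddCommGroup (s.mor X.X Y.X))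
  add_comp _ _ _ _ _ _ := Subtype.ext (Preadditive.add_comp ..)
  comp_add _ _ _ _ _ _ := Subtype.ext (Preadditive.comp_add ..)

instance : HasZeroObject s.Cat := ⟨by
  obtain ⟨Z, a, b⟩ := s.zero
  exact ⟨⟨Z, b⟩, (IsZero.iff_id_eq_zero _).2 (Subtype.ext (a.eq_of_src _ _))⟩⟩

instance : HasBinaryBiproducts s.Cat := ⟨fun X Y => by
  obtain ⟨b, h0, h1, h2, h3, h4, h5⟩ := s.sum _ _ X.ob Y.ob
  exact hasBinaryBiproduct_of_total ⟨⟨_, h0⟩, ⟨_, h1⟩, ⟨_, h2⟩, ⟨_, h3⟩, ⟨_, h4⟩,
    Subtype.ext b.inl_fst, Subtype.ext b.inl_snd, Subtype.ext b.inr_fst, Subtype.ext b.inr_snd⟩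
    (Subtype.ext h5)⟩

/-- The inclusion. -/
def ι : s.Cat ⥤ A where
  obj X := X.X
  map f := f.1

instance : s.ι.Additive where

instance : s.ι.Faithful := ⟨Subtype.ext⟩

/-- Containment. -/
def le (s' : Su A) : Prop := (∀ X, s.ob X → s'.ob X) ∧ ∀ X Y, s.mor X Y ≤ s'.mor X Y

variable {s} in
/-- The inclusion of a smaller subcategory. -/
def inc {s' : Su A} (h : s.le s') : s.Cat ⥤ s'.Cat where
  obj X := ⟨X.X, h.1 _ X.ob⟩
  map f := ⟨f.1, h.2 _ _ f.2⟩

instance {s' : Su A} (h : s.le s') : (inc h).Additive where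

end Su

/-- A subcategory of a source with a class of trivial complexes. -/
def Am.sub (a : Am.{v, u}) (s : Su a.A) (T : ObjectProperty (Kh s.Cat)) [Tg T] : Am.{v, u} :=
  ⟨s.Cat, T⟩

/-- The inclusion of a subcategory as a map. -/
def Am.subι (a : Am.{v, u}) (s : Su a.A) (T : ObjectProperty (Kh s.Cat)) [Tg T]
    (h : ∀ K, T K → a.T ((s.ι.mapHomotopyCategory _).obj K)) : Am.Map (a.sub s T) a where
  F := s.ι
  add := inferInstanceAs s.ι.Additive
  hT K k := a.le_Tb _ (h K k)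

end Gr

open Gr

/-- Restriction to a set of points. -/
def Rl.res {G : Type w} [Group G] {Y : Type y} (P : Rl G Y) (Ω : Y → Prop) : Rl G Y :=
  ⟨fun a g b => P.r a g b ∧ Ω a ∧ Ω b, fun h k => ⟨P.trans h.1 k.1, h.2.1, k.2.2⟩⟩

/-- Products. -/
def Rl.prod {G : Type w} [Group G] {Y : Type y} {Y' : Type u'} (P : Rl G Y) (Q : Rl G Y') :
    Rl G (Y × Y') :=
  ⟨fun a g b => P.r a.1 g b.1 ∧ Q.r a.2 g b.2, fun h k => ⟨P.trans h.1 k.1, Q.trans h.2 k.2⟩⟩

namespace GC

variable {G : Type w} [Group G] {C : Type u} [Category.{v} C] [Preadditive C] [HasZeroObject C]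
variable (S : GC G C) {Y : Type w}

/-- The underlying functor. -/
noncomputable abbrev und {X : Am.{v', u'}} {Y : Type y} {P : Rl G Y} (F : Fn X (S.LQ P)) :
    Fn X (S.LQ (Rl.pt ⊤)) := F.post (LQ.U S P)

/-- Natural endomorphisms of the underlying functor whose components have type `B`. -/
def Ty {X : Am.{v', u'}} {Y : Type y} {P : Rl G Y} (F : Fn X (S.LQ P)) (B : Y → G → Y → Prop)
    (x : S.und F ⟶ S.und F) : Prop :=
  ∀ A, (F.F.obj A).L.Rg (F.F.obj A).L B (NatTrans.app x A).1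

/-- Nil terms of type `B` and order `m` over the category controlled by `P` are trivial. -/
def Gm (P : Rl G Y) (B : Y → G → Y → Prop) (m : ℕ) : Prop :=
  ∀ (X : Am.{v, max u w}), X.Gs → ∀ (F : Fn X (S.LQ P)) (x : S.und F ⟶ S.und F), S.Ty F B x →
    pw x m = 0 → Fn.Tr.{v, max u w, v, u} (𝟙 _ - x)

/-- Nil terms of type `B` over the category controlled by `P` are trivial. -/
def GQ (P : Rl G Y) (B : Y → G → Y → Prop) : Prop := ∀ m, S.Gm P B m

/-- The invariant form over the transport groupoid. -/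
def GI {Γ : Type w} [Group Γ] (q : G →* Γ) (Y : Type w) [MulAction Γ Y] (R : Y → Y → Prop) : Prop :=
  S.GQ (Rl.eq q Y) fun a g b => R a (q g • b)

/-- Vanishing on a class that contains the free objects. -/
def ZF : Prop := ∃ (N : ObjectProperty S.top.D) (_ : Tg N),
  S.top.gen (fun M : S.LQ (Rl.pt ⊤) => M.p = 𝟙 M.A) ≤ N ∧ N ≤ S.top.bdd ∧ Am.Z N

/-- All objects are located and all morphisms have type `P`. -/
def Lcq {Y : Type y} (P : Rl G Y) : Prop :=
  ∃ L : ∀ A : C, S.Lo Y A, ∀ A B (f : A ⟶ B), (L A).Rg (L B) P.r f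

end GC

section

variable {G : Type w} [Group G] {C : Type u} [Category.{v} C] [Preadditive C]

instance [HasZeroObject C] (ρ : Act G C) : HasZeroObject (Tw ρ) := ⟨by
  obtain ⟨Z, h⟩ := HasZeroObject.zero (C := C)
  exact ⟨⟨Z⟩, (IsZero.iff_id_eq_zero _).2 (by rw [← Tw.emb_id, h.eq_of_src (𝟙 Z) 0, Tw.emb_zero])⟩⟩

/-- All K-groups of the idempotent completion of the twisted group category vanish. -/
def KZ [HasBinaryBiproducts C] [HasZeroObject C] (ρ : Act G C) : Prop := (SZ ρ).WK ⊤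

/-- Oriented edges. -/
@[ext] structure Dt {V : Type y} [MulAction G V] (T : SimpleGraph V)
    (ha : ∀ (g : G) a b, T.Adj a b → T.Adj (g • a) (g • b)) where
  a : V
  b : V
  adj : T.Adj a b

variable {V : Type y} [MulAction G V] {T : SimpleGraph V}
  {ha : ∀ (g : G) a b, T.Adj a b → T.Adj (g • a) (g • b)}

instance : MulAction G (Dt T ha) where
  smul g d := ⟨g • d.a, g • d.b, ha g _ _ d.adj⟩
  one_smul d := Dt.ext (one_smul G d.a) (one_smul G d.b)
  mul_smul g h d := Dt.ext (mul_smul g h d.a) (mul_smul g h d.b)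

/-- Steps without backtracking. -/
def Dt.st (d e : Dt T ha) : Prop := e.a = d.b ∧ e.b ≠ d.a

/-- Paths of equal length with the same ends start with the same step. -/
def Unq {X : Type*} (R : X → X → Prop) : Prop :=
  ∀ k σ τ x y, R σ τ → R σ x → Pth R k τ y → Pth R k x y → τ = x

end

end Pool.Agent.Lib.MP_5d3e93_al
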