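import Pool.Agent.Lib.MP_5d3e93_al.K.CAs
import Pool.Agent.Lib.MP_5d3e93_al.K.Gd
import Pool.Agent.Lib.MP_5d3e93_al.Tor

/-! Asymptotic control: joins of cones, vanishing predicates, circles. -/

open CategoryTheory Limits ZeroObject Filter

namespace Pool.Agent.Lib.MP_5d3e93_al

universe w v u y y'

/-- Paths of bounded length. -/
def Nr.pth (Γ : Type*) [Group Γ] {Y : Type*} [MulAction Γ Y] (ρ : Y → Y → Prop) (h1 : ∀ y, ρ y y)
    (h3 : ∀ (g : Γ) x y, ρ x y → ρ (g • x) (g • y)) : Nr Γ Y where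
  n r := Pth ρ r
  mono h k := GC.Pth.succ h1 k h
  refl r _ := GC.Pth.succ h1 (Nat.zero_le r) rfl
  trans h k := Nat.add_comm _ _ ▸ h.trans k
  smul g h := h.smul h3 g

/-- Joins of cones. -/
def Ar.cone {G : Type w} [Group G] {J : Type} {Γ : Type*} [Group Γ] (q : G →* Γ) (I : J → Type y)
    [∀ j, MulAction Γ (I j)] (N : ℕ) (R : J → ℕ) (P : ∀ j, (ℕ → Cn (I j)) → Prop) :
    Ar G fun j => ℕ → Cn (I j) :=
  (Ar.act q fun j => Cn.nr Γ (I j) N).res fun j => Cn.Om N (R j) (P j)

/-- The integers modulo `p` with the translation action of a character. -/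
@[ext] structure Ch.Cy {G : Type w} [Group G] (ω : Ch G) (p : ℕ) : Type where
  t : ZMod p

instance {G : Type w} [Group G] (ω : Ch G) (p : ℕ) : MulAction G (ω.Cy p) where
  smul g x := ⟨(ω g : ZMod p) + x.t⟩
  one_smul x := Ch.Cy.ext (show ((ω 1 : ℤ) : ZMod p) + x.t = _ by simp)
  mul_smul a b x := Ch.Cy.ext (show ((ω (a * b) : ℤ) : ZMod p) + x.t =
    (ω a : ZMod p) + ((ω b : ZMod p) + x.t) by simp [add_assoc])

instance {G : Type w} [Group G] (ω : Ch G) (p : ℕ) [NeZero p] : Fintype (ω.Cy p) :=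
  Fintype.ofEquiv (ZMod p) ⟨Ch.Cy.mk, Ch.Cy.t, fun _ => rfl, fun _ => rfl⟩

namespace GC

open Gr

variable {G : Type w} [Group G] {C : Type u} [Category.{v} C] [Preadditive C] (S : GC G C)
variable {J : Type} {Y : J → Type y} (l : Filter J) (ν : Ar G Y)

/-- An additive endofunctor acts on the idempotent completion. -/
noncomputable def LQ.lift (F : C ⥤ C) : S.LQ (Rl.pt ⊤) ⥤ S.LQ (Rl.pt ⊤) where
  obj M := ⟨F.obj M.A, .one S () _, F.map M.p, by rw [← F.map_comp, M.idem],
    fun _ _ _ h => (h trivial).elim⟩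
  map f := LQ.homMk (F.map f.1) ((F.map_comp ..).symm.trans (congrArg F.map (LQ.p_comp f)))
    ((F.map_comp ..).symm.trans (congrArg F.map (LQ.comp_p f))) fun _ _ _ h => (h trivial).elim
  map_id _ := rfl
  map_comp _ _ := LQ.hom_ext (F.map_comp _ _)

instance (F : C ⥤ C) [F.Additive] : (LQ.lift S F).Additive := ⟨LQ.hom_ext F.map_add⟩

variable [HasZeroObject C]

/-- The projection to the asymptotic category. -/
noncomputable def πm : Am.Map (S.au l ν) (S.ao l ν) := Am.ofOf (AO.π S l ν)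

/-- Vanishing on a class that contains the diagonal objects. -/
def ZD : Prop := ∃ (N : ObjectProperty (S.ao l ν).D) (_ : Tg N),
  (S.ao l ν).gen (fun X : S.AO l ν => AS.Dg X.as) ≤ N ∧ N ≤ (S.ao l ν).bdd ∧ Am.Z N

/-- The components of every class vanish eventually. -/
def EV (N : ObjectProperty (S.au l ν).D) : Prop :=
  ∀ n (x : Am.Kn n (S.au l ν) N), ∀ᶠ j in l,
    ∀ h : N ≤ S.top.bdd.inverseImage (S.evm l ν j).D, Am.Kmap n (S.evm l ν j) h x = 0

/-- The class generated by the free objects. -/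
abbrev fr {Z : Type y'} (P : Rl G Z) : ObjectProperty (S.am P).D :=
  (S.am P).gen fun M : S.LQ P => M.p = 𝟙 M.A

/-- The class generated by the diagonal objects. -/
abbrev dgc : ObjectProperty (S.au l ν).D := (S.au l ν).gen fun M : S.AS l ν => M.Dg

/-- From a subgroup to the whole group. -/
noncomputable def up (H : Subgroup G) : Am.Map (S.am (Rl.pt H)) S.top :=
  S.im fun _ _ _ _ => trivial

/-- The map of an additive endofunctor. -/
noncomputable def lm (F : C ⥤ C) [F.Additive] : Am.Map S.top S.top := Am.ofOf (LQ.lift S F)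

end GC

end Pool.Agent.Lib.MP_5d3e93_al
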