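import Pool.Agent.Lib.MP_5d3e93_al.Str
import Pool.Agent.Lib.MP_5d3e93_al.K.CDf

/-! The induction relation for two characters. -/

namespace Pool.Agent.Lib.MP_5d3e93_al

universe w

variable {Q : Type w} [Group Q] {V : Type*} [AddCommGroup V]

/-- Coarsening a grading along a map that is equivariant on `P`. -/
theorem Lat.Gr.push {X X' : Type} [Fintype X] [MulAction Q X] [Fintype X'] [MulAction Q X']
    {P : X → Prop} {L : Lat Q} (a : Lat.Gr X P L) (t : X → X')
    (h : ∀ (g : Q) x, P x → t (g • x) = g • t x) : Nonempty (Lat.Gr X' (fun _ => True) L) := by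
  classical
  let e : X' → L.M →ₗ[ℤ] L.M := fun y => ∑ x, if t x = y then a.ε x else 0
  have e0 (y m) : e y m = ∑ x, if t x = y then a.ε x m else 0 := by
    simp [e, apply_ite (fun f : L.M →ₗ[ℤ] L.M => f m)]
  have k (x y m) : a.ε x (e y m) = if t x = y then a.ε x m else 0 := by
    rw [e0, map_sum, Finset.sum_eq_single x, apply_ite (a.ε x), map_zero, a.idem]
    · exact fun z _ b => by rw [apply_ite (a.ε x), map_zero, a.orth x z m b.symm, ite_self]
    · simp
  refine ⟨e, fun _ _ b => (b trivial).elim, fun y m => ?_, fun y z m b => ?_, fun m => ?_,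
    fun q y m => ?_⟩
  · rw [e0 y (e y m)]
    refine (Finset.sum_congr rfl fun x _ => ?_).trans (e0 y m).symm
    rw [k]
    split_ifs <;> rfl
  · rw [e0]
    refine Finset.sum_eq_zero fun x _ => ?_
    rw [k]
    split_ifs with c d
    exacts [(b (c.symm.trans d)).elim, rfl, rfl]
  · simp only [e0]
    rw [Finset.sum_comm]
    simpa using a.total m
  · rw [e0, e0, map_sum]
    refine (Finset.sum_congr rfl fun x _ => ?_).trans (Equiv.sum_comp (MulAction.toPerm q) _)
    rw [MulAction.toPerm_apply, ← a.eqv, apply_ite (L.T q), map_zero]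
    by_cases b : P x
    · simp only [h q x b, smul_left_cancel_iff]
    · rw [a.on x m b, map_zero, ite_self, ite_self]

/-- Enlarging the support of a grading. -/
def Lat.Gr.wk {X : Type} [Fintype X] [MulAction Q X] {P P' : X → Prop} {L : Lat Q}
    (a : Lat.Gr X P L) (h : ∀ x, P x → P' x) : Lat.Gr X P' L :=
  ⟨a.ε, fun x m b => a.on x m (mt (h x) b), a.idem, a.orth, a.total, a.eqv⟩

/-- Iterate `Gr.split`. -/
theorem Lat.Gr.split_fin {τ : Lat Q → V} (hτ : Lat.Ses τ) {X K : Type} [Fintype X] [MulAction Q X]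
    {P : X → Prop} (κ : X → K) (h : ∀ (g : Q) x, κ (g • x) = κ x)
    (z : ∀ k L, Lat.Gr X (fun x => P x ∧ κ x = k) L → τ L = 0) {L : Lat Q} (a : Lat.Gr X P L) :
    τ L = 0 := by
  classical
  have key (s : Finset K) : ∀ L, Lat.Gr X (fun x => P x ∧ κ x ∈ s) L → τ L = 0 := by
    induction s using Finset.induction_on with
    | empty =>
      intro L b
      have k (m : L.M) : m = 0 :=
        (b.total m).symm.trans (Finset.sum_eq_zero fun x _ => b.on x m (by simp))
      have : Subsingleton L.M := ⟨fun m n => (k m).trans (k n).symm⟩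
      exact hτ.zero L
    | insert k s _ ih =>
      exact fun L b => b.split (κ · = k) (fun q x => by simp only [h]) hτ
        (fun L c => z k L (c.wk fun x d => ⟨d.1.1, d.2⟩)) fun L c =>
          ih L (c.wk fun x d => ⟨d.1.1, (Finset.mem_insert.1 d.1.2).resolve_left d.2⟩)
  exact key (Finset.univ.image κ) L (a.wk fun x b => ⟨b, by simp⟩)

/-- The arithmetic of `tr_of_primes`. -/
theorem zero_of_primes (x : V) (b : ℕ) (h : ∀ p c : ℕ, p.Prime → b < p → 2 * c + 1 = p →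
    ∃ i j : ℕ, ((c : ℤ) ^ i * (p : ℤ) ^ j) • x = 0) : x = 0 := by
  obtain ⟨p, h1, h2⟩ := Nat.exists_infinite_primes (b + 3)
  obtain ⟨c, hc⟩ := h2.odd_of_ne_two (by omega)
  obtain ⟨i, j, h3⟩ := h p c h2 (by omega) hc.symm
  have h0 : c ^ i * p ^ j ≠ 0 := mul_ne_zero (pow_ne_zero _ (by omega)) (pow_ne_zero _ (by omega))
  obtain ⟨q, h4, h5, h6⟩ := Nat.forall_exists_prime_gt_and_zmodEq (b + 2) (a := -1)
    (q := 2 * (c ^ i * p ^ j)) (by omega) isCoprime_one_left.neg_left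
  obtain ⟨d, hd⟩ := h5.odd_of_ne_two (by omega)
  obtain ⟨i', j', h7⟩ := h q d h5 (by omega) hd.symm
  obtain ⟨k, hk⟩ := h6.dvd
  push_cast at hk
  have a1 : IsCoprime (q : ℤ) (c ^ i * p ^ j) := ⟨-1, -2 * k, by linear_combination hk⟩
  have a2 : IsCoprime (d : ℤ) (c ^ i * p ^ j) := ⟨-1, -k, by
    rw [hd] at hk; push_cast at hk; linarith⟩
  obtain ⟨u, y, e⟩ := (a2.pow_left (m := i')).mul_left (a1.pow_left (m := j'))
  rw [← one_zsmul x, ← e, add_smul, mul_smul, mul_smul y, h3, h7]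
  simp

/-- A lemma of Thue: a nonzero vector modulo `p` has a small nonzero multiple. -/
theorem thue_two {p : ℕ} [Fact p.Prime] {u v : ZMod p} (h : u ≠ 0 ∨ v ≠ 0) :
    ∃ (a b : ℤ) (m : ZMod p), (a ≠ 0 ∨ b ≠ 0) ∧ |a| ≤ p.sqrt ∧ |b| ≤ p.sqrt ∧ m * u = a ∧
      m * v = b := by
  obtain ⟨x, y, h1, h2⟩ := Fintype.exists_ne_map_eq_of_card_lt
    (fun z : Fin (p.sqrt + 1) × Fin (p.sqrt + 1) => ((z.1 : ℕ) : ZMod p) * v - (z.2 : ℕ) * u)
    (by simpa using Nat.lt_succ_sqrt p)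
  have k (i j : Fin (p.sqrt + 1)) : |((i : ℕ) : ℤ) - (j : ℕ)| ≤ p.sqrt := by
    have := i.2
    have := j.2
    rw [abs_le]
    omega
  have n : ((x.1 : ℕ) : ℤ) - (y.1 : ℕ) ≠ 0 ∨ ((x.2 : ℕ) : ℤ) - (y.2 : ℕ) ≠ 0 := by
    by_contra c
    exact h1 (Prod.ext (Fin.ext (by omega)) (Fin.ext (by omega)))
  rcases h with h | h
  · refine ⟨_, _, (((x.1 : ℕ) : ZMod p) - (y.1 : ℕ)) / u, n, k _ _, k _ _, ?_, ?_⟩
    · push_cast
      exact div_mul_cancel₀ _ h
    · push_cast
      field_simp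
      linear_combination h2
  · refine ⟨_, _, (((x.2 : ℕ) : ZMod p) - (y.2 : ℕ)) / v, n, k _ _, k _ _, ?_, ?_⟩
    · push_cast
      field_simp
      linear_combination -h2
    · push_cast
      exact div_mul_cancel₀ _ h

/-- The plane modulo `p`, to carry the translation action of two characters. -/
def Ch.Pl (_ _ : Ch Q) (p : ℕ) : Type := ZMod p × ZMod p

section
variable (χ ψ : Ch Q) (p : ℕ) [Fact p.Prime]

instance : AddCommGroup (χ.Pl ψ p) := inferInstanceAs (AddCommGroup (ZMod p × ZMod p))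

instance : Module (ZMod p) (χ.Pl ψ p) := inferInstanceAs (Module (ZMod p) (ZMod p × ZMod p))

instance : Fintype (χ.Pl ψ p) := inferInstanceAs (Fintype (ZMod p × ZMod p))

instance : MulAction Q (χ.Pl ψ p) where
  smul g x := ((χ g : ZMod p) + x.1, (ψ g : ZMod p) + x.2)
  one_smul x := Prod.ext (show ((χ 1 : ℤ) : ZMod p) + x.1 = _ by simp)
    (show ((ψ 1 : ℤ) : ZMod p) + x.2 = _ by simp)
  mul_smul a b x := Prod.ext (show ((χ (a * b) : ℤ) : ZMod p) + x.1 =
    (χ a : ZMod p) + ((χ b : ZMod p) + x.1) by simp [add_assoc])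
    (show ((ψ (a * b) : ℤ) : ZMod p) + x.2 =
      (ψ a : ZMod p) + ((ψ b : ZMod p) + x.2) by simp [add_assoc])

/-- The translation action is affine. -/
def Ch.aa : AA Q (ZMod p) (χ.Pl ψ p) :=
  ⟨fun _ => .id, fun _ _ _ => Prod.ext (add_sub_add_left_eq_sub _ _ _)
    (add_sub_add_left_eq_sub _ _ _)⟩

theorem Ch.aa_du (g : Q) (a : (χ.aa ψ p).Du) : g • a = a := rfl

theorem Ch.aa_ev (a : (χ.aa ψ p).Du) (s t : ZMod p) :
    a (s, t) = s * a (1, 0) + t * a (0, 1) := by
  let b : ZMod p × ZMod p →ₗ[ZMod p] ZMod p := a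
  change b (s, t) = s • b (1, 0) + t • b (0, 1)
  rw [← map_smul, ← map_smul, ← map_add]
  simp

theorem Ch.aa_card : Nat.card (χ.aa ψ p).Du = p ^ 2 := by
  change Nat.card (Module.Dual (ZMod p) (ZMod p × ZMod p)) = _
  rw [Module.natCard_eq_pow_finrank (K := ZMod p), Subspace.dual_finrank_eq]
  simp

end

/-- `swan` for the plane modulo `p` with translations by `(χ g, ψ g)`. -/
theorem swan_two (χ ψ : Ch Q) {τ : Lat Q → V} (hτ : Lat.Ses τ) {p c : ℕ} [Fact p.Prime]
    (hc : 2 * c + 1 = p) (h : ∀ (a b : ℤ) (ω : Ch Q), a ≠ 0 ∨ b ≠ 0 → |a| ≤ p.sqrt → |b| ≤ p.sqrt →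
      (∀ g, ω g = a * χ g + b * ψ g) → ∀ L, Lat.Gr (ω.Cy p) (fun _ => True) L → τ L = 0) :
    ((c : ℤ) ^ 2 * (p : ℤ) ^ 2) • τ (Lat.int Q) = 0 := by
  classical
  have hp : (2 : ZMod p) ≠ 0 := fun e => by
    have : ((2 * c + 1 : ℕ) : ZMod p) = 0 := by rw [hc, ZMod.natCast_self]
    simp [e] at this
  have h0 := h 1 0 χ (.inl one_ne_zero) (by
    have := Nat.sqrt_pos.2 (Fact.out : p.Prime).pos
    rw [abs_one]
    omega) (by simp) (by simp)
  let A := χ.aa ψ p
  let e := Fintype.equivFin A.Du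
  let π : A.Af → A.Af := fun a => if e a.1 < e (-a.1) then a else if e (-a.1) < e a.1 then -a else 0
  have n1 (a : A.Af) : (-a).1 = -a.1 := rfl
  have := swan hτ A (fun L a => (a.push (X' := χ.Cy p) (fun x => ⟨x.1⟩) fun _ _ _ => rfl).elim (h0 L))
    π (fun q a => ?_) (fun a => ?_) (fun L a => a.split_fin hτ (fun x : A.Af => x.1) (fun _ _ => rfl) ?_)
    (Y := A.Sc) (fun _ => (0 : ZMod p)) (fun _ _ => rfl) (fun _ => rfl)
    (fun L a => (a.push (X' := χ.Cy p) (fun _ => ⟨0⟩) fun _ _ ⟨_, _, b, _⟩ =>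
      (b fun _ => .inl rfl).elim).elim (h0 L)) hc (f := c * (p + 1)) ?_
  · rw [← this]
    congr 1
    push_cast
    ring
  · change (if e a.1 < e (-a.1) then q • a else if e (-a.1) < e a.1 then -(q • a) else 0) = _
    simp only [π]
    split_ifs
    exacts [rfl, A.i4.eqv q a, Prod.ext rfl (add_zero (0 : ZMod p)).symm]
  · simp only [π, n1, neg_neg]
    split_ifs with a1 a2
    exacts [(a1.not_gt a2).elim, rfl, rfl, rfl]
  · intro k L b
    by_cases hk : k = 0
    · refine (b.push (X' := χ.Cy p) (fun _ => ⟨0⟩) ?_).elim (h0 L)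
      rintro - _ ⟨⟨a, a1, rfl⟩, a2⟩
      exfalso
      simp only [π, hk] at a2
      split_ifs at a2 with a3 a4
      · exact a1 a2
      · exact a1 (neg_eq_zero.1 a2)
      · have a5 := e.injective (le_antisymm (not_lt.1 a3) (not_lt.1 a4))
        refine a1 (DFunLike.ext _ _ fun x => ?_)
        have c' : -a.1 x = a.1 x := DFunLike.congr_fun a5 x
        have : 2 * a.1 x = 0 := by linear_combination -c'
        exact (mul_eq_zero.1 this).resolve_left hp
    · obtain ⟨a, d, m, a1, a2, a3, a4, a5⟩ := thue_two (u := k (1, 0)) (v := k (0, 1)) (by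
        by_contra a
        rw [not_or, not_not, not_not] at a
        refine hk (DFunLike.ext _ _ fun x => (χ.aa_ev ψ p k x.1 x.2).trans ?_)
        rw [a.1, a.2, mul_zero, mul_zero, add_zero]
        rfl)
      let ω : Ch Q := ⟨fun g => a * χ g + d * ψ g, fun _ _ => by simp only [Ch.mul]; ring⟩
      refine (b.push (X' := ω.Cy p) (fun x => ⟨-m * x.2⟩) ?_).elim
        (h a d ω a1 a2 a3 (fun _ => rfl) L)
      rintro g x ⟨-, rfl⟩
      refine Ch.Cy.ext ?_
      change -m * (x.1 ((χ g⁻¹ : ZMod p) + 0, (ψ g⁻¹ : ZMod p) + 0) + x.2) =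
        ((a * χ g + d * ψ g : ℤ) : ZMod p) + -m * x.2
      rw [χ.aa_ev ψ p]
      simp only [Ch.inv]
      push_cast
      rw [← a4, ← a5]
      ring
  · rw [Nat.card_congr (Equiv.subtypeEquivRight (q := fun a : A.Du => ¬ a = 0) fun a =>
      ⟨fun b => b.1, fun b => ⟨b, fun _ => .inl rfl⟩⟩), Nat.card_eq_fintype_card,
      Fintype.card_subtype_compl, Fintype.card_subtype_eq, ← Nat.card_eq_fintype_card,
      χ.aa_card ψ p, ← hc]
    exact Nat.eq_sub_of_add_eq (by ring)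

end Pool.Agent.Lib.MP_5d3e93_al
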