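import Pool.Agent.Lib.MP_5d3e93_al.K.CCi
import Pool.Agent.Lib.MP_5d3e93_al.K.CSw
import Pool.Agent.Lib.MP_5d3e93_al.K.CMv

/-! The Farrell-Hsiang step for two characters in all degrees. -/

open CategoryTheory Limits ZeroObject Filter MulAction

namespace Pool.Agent.Lib.MP_5d3e93_al

universe w v u y

open Gr

namespace GC

variable {G : Type w} [Group G] {C : Type u} [Category.{v} C] [Preadditive C] [HasZeroObject C]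
  {S : GC G C}

theorem fr_le {Z : Type y} (P : Rl G Z) : S.fr P ≤ (S.am P).bdd :=
  Gr.Cl.le fun _ ⟨M, _, e⟩ => Gr.Cl.of ⟨M, trivial, e⟩

theorem fr_dense (X : S.top.D) (h : S.top.bdd X) :
    ∃ Y, S.top.bdd Y ∧ S.fr (Rl.pt ⊤) (X ⊞ Y) := by
  have k : S.fr (Rl.pt ⊤) = S.top.gen
      fun M : S.LQ (Rl.pt ⊤) => ∃ N : S.LQ (Rl.pt ⊤), N.p = 𝟙 N.A ∧ Nonempty (M ≅ N) :=
    le_antisymm (Gr.Cl.le fun _ ⟨M, a, e⟩ => Gr.Cl.of ⟨M, ⟨M, a, ⟨.refl _⟩⟩, e⟩)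
      (Gr.Cl.le fun _ ⟨M, ⟨N, a, ⟨i⟩⟩, ⟨e⟩⟩ => Gr.Cl.of ⟨N, a, ⟨(S.top.sg.mapIso i).symm ≪≫ e⟩⟩)
  rw [k]
  have : Gr.Ad fun M : S.LQ (Rl.pt ⊤) => ∃ N : S.LQ (Rl.pt ⊤), N.p = 𝟙 N.A ∧ Nonempty (M ≅ N) :=
    ⟨fun M z => by
      obtain ⟨Z, hZ⟩ := hz_of (C := C)
      exact ⟨⟨Z, .one S () Z, 𝟙 Z, by simp, fun _ _ _ h => (h trivial).elim⟩, rfl,
        ⟨z.iso (LQ.isZero_iff.2 hZ)⟩⟩,
    fun e ⟨N, a, ⟨i⟩⟩ => ⟨N, a, ⟨e.symm ≪≫ i⟩⟩,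
    fun M M' ⟨N, a, ⟨i⟩⟩ ⟨N', a', ⟨i'⟩⟩ => ⟨N.sum N', by
      change S.blk N.p 0 0 N'.p = _
      rw [a, a', S.blk_id], ⟨biprod.mapIso i i' ≪≫
        (biprod.uniqueUpToIso _ _ (isBinaryBilimitOfTotal _ (LQ.bicone_total N N'))).symm⟩⟩⟩
  refine Am.gen_dense _ (fun c => ?_) X h
  let x : S.LQ (Rl.pt ⊤) := ⟨c.A, c.L, 𝟙 _, by simp, fun _ _ _ h => (h trivial).elim⟩
  exact ⟨x, LQ.homMk c.p c.idem (Category.comp_id _) c.rg,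
    LQ.homMk c.p (Category.id_comp _) c.idem c.rg, ⟨x, rfl, ⟨.refl _⟩⟩, LQ.hom_ext c.idem⟩

/-- It suffices to kill the images of the classes of free objects. -/
theorem zf_of_null (h : ∀ n (x : Am.Kn n S.top (S.fr (Rl.pt ⊤))), Am.Kinc n (fr_le _) x = 0) :
    S.ZF :=
  ⟨S.fr (Rl.pt ⊤), inferInstance, le_rfl, fr_le _, fun n => ⟨fun x y =>
    Am.Kinc_dense (fr_le _) fr_dense n ((h n x).trans (h n y).symm)⟩⟩

theorem zf_two (χ ψ : Ch G) (h : ∀ (a b : ℤ) (H : Subgroup G), a ≠ 0 ∨ b ≠ 0 →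
    (∀ g, g ∈ H ↔ a * χ g + b * ψ g = 0) → S.WK H) : S.ZF := by
  refine zf_of_null fun n x => ?_
  let J := {j : ℕ × ℤ × ℤ // j.1.Prime ∧ (j.2.1 ≠ 0 ∨ j.2.2 ≠ 0) ∧ |j.2.1| ≤ j.1.sqrt ∧
    |j.2.2| ≤ j.1.sqrt}
  let ω : J → Ch G := fun j => ⟨fun g => j.1.2.1 * χ g + j.1.2.2 * ψ g, fun a b => by
    rw [χ.mul, ψ.mul]; ring⟩
  have : ∀ j : J, NeZero j.1.1 := fun j => ⟨j.2.1.ne_zero⟩
  have key := tk_circ (S := S) (l := comap (fun j : J => j.1.1) atTop) ω (fun j => j.1.1)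
    (fun j => j.1.1.sqrt) (fun R => ?_) (fun g => ⟨(χ g).natAbs + (ψ g).natAbs, fun j => ?_⟩)
    (fun j => h _ _ _ j.2.2.1 fun _ => Iff.rfl) n x (fr_le _)
  · obtain ⟨b, hb⟩ := eventually_atTop.1 (eventually_comap.1 key)
    refine zero_of_primes _ b fun p c hp k e => ⟨2, 2, ?_⟩
    have := Fact.mk hp
    rw [← tk_int (π := .id G) n (Am.Kinc n (fr_le _) x)]
    refine swan_two χ ψ (tk_ses n _) e fun a b' ω' h1 h2 h3 h4 => ?_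
    obtain rfl : ω' = ω ⟨(p, a, b'), hp, h1, h2, h3⟩ := by
      obtain ⟨f, _⟩ := ω'
      obtain rfl : f = fun g => a * χ g + b' * ψ g := funext h4
      rfl
    exact hb p k.le ⟨(p, a, b'), hp, h1, h2, h3⟩ rfl
  · refine eventually_comap.2 (eventually_atTop.2 ⟨(2 * R + 1) ^ 2, fun p hp j e => ?_⟩)
    have h1 : 2 * R + 1 ≤ p.sqrt := Nat.le_sqrt'.2 hp
    have h2 := Nat.sqrt_le p
    rw [e]
    nlinarith
  · obtain ⟨⟨p, a, b⟩, -, -, h1, h2⟩ := j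
    change |a * χ g + b * ψ g| ≤ _
    refine (abs_add_le _ _).trans ?_
    rw [abs_mul, abs_mul]
    push_cast
    have := abs_nonneg (χ g)
    have := abs_nonneg (ψ g)
    simp only at h1 h2 ⊢
    nlinarith

end GC

end Pool.Agent.Lib.MP_5d3e93_al
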