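import Pool.Agent.Lib.MP_5d3e93_al.K.LQ
import Pool.Agent.Lib.MP_5d3e93_al.PrT

/-! Lifting controlled morphisms to a located coefficient category. -/

open CategoryTheory Limits ZeroObject MulAction

namespace Pool.Agent.Lib.MP_5d3e93_al

universe w v u y v' u'

open Tw

/-- An additive functor on the idempotent completions. -/
noncomputable def GC.lfT {G G' : Type w} [Group G] [Group G'] {C : Type u} [Category.{v} C]
    [Preadditive C] {C' : Type u'} [Category.{v'} C'] [Preadditive C'] (S' : GC G' C') (S : GC G C)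
    (Φ : C' ⥤ C) : S'.LQ (Rl.pt ⊤) ⥤ S.LQ (Rl.pt ⊤) where
  obj M := ⟨Φ.obj M.A, .one S () _, Φ.map M.p, by rw [← Φ.map_comp, M.idem],
    fun _ _ _ h => (h trivial).elim⟩
  map f := GC.LQ.homMk (Φ.map f.1)
    ((Φ.map_comp ..).symm.trans (congrArg Φ.map (GC.LQ.p_comp f)))
    ((Φ.map_comp ..).symm.trans (congrArg Φ.map (GC.LQ.comp_p f))) fun _ _ _ h => (h trivial).elim
  map_id _ := rfl
  map_comp _ _ := GC.LQ.hom_ext (Φ.map_comp ..)

instance {G G' : Type w} [Group G] [Group G'] {C : Type u} [Category.{v} C]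
    [Preadditive C] {C' : Type u'} [Category.{v'} C'] [Preadditive C'] (S' : GC G' C') (S : GC G C)
    (Φ : C' ⥤ C) [Φ.Additive] : (GC.lfT S' S Φ).Additive :=
  ⟨GC.LQ.hom_ext Φ.map_add⟩

variable {Γ : Type w} [Group Γ] {C : Type u} [Category.{v} C] [Preadditive C]
  [HasBinaryBiproducts C]

theorem lf_emb {ρ : Act Γ C} {A B : Tw ρ} {f : A ⟶ B} (h : (twGC ρ).Sup {1} f) :
    ∃ f0 : A.as ⟶ B.as, emb f0 = f :=
  ⟨co 1 f ≫ eqToHom (Functor.congr_obj ρ.one B.as), by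
    rw [emb, Category.assoc, eqToHom_trans, eqToHom_refl, Category.comp_id]
    exact h.cp_eq⟩

omit [HasBinaryBiproducts C] in
theorem lf_inj {ρ : Act Γ C} {A B : Tw ρ} {f g : A.as ⟶ B.as} (h : emb f = emb g) : f = g := by
  have := congrArg (co 1) h
  rw [emb, emb, co_sg, co_sg] at this
  exact (cancel_mono _).1 this

variable [HasZeroObject C]

theorem lf_ld {ρ : Act Γ C} {Y : Type y} {A : Tw ρ} (L : (twGC ρ).Lo Y A) :
    ∃ d : Ld Y A.as, ∀ x, emb (d.e x) = L.e x := by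
  choose e he using fun x => lf_emb (L.spl x).deg
  refine ⟨⟨e, ⟨L.s, fun x k => lf_inj (ρ := ρ) (by rw [he, L.out x k, emb_zero]), lf_inj (ρ := ρ) ?_⟩,
    fun x => ?_, fun x y k => lf_inj (ρ := ρ) (by
      rw [← emb_comp, he, he, L.orth x y k, emb_zero])⟩, he⟩
  · rw [emb_id, ← L.total]
    exact (map_sum (AddMonoidHom.mk' (emb (A := A) (B := A)) emb_add) ..).trans
      (Finset.sum_congr rfl fun x _ => he x)
  · obtain ⟨O, hO⟩ := HasZeroObject.zero (C := C)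
    obtain ⟨B, i, r, h1, h2, h3, h4⟩ := (L.spl x).split
      ⟨⟨O⟩, by rw [← emb_id, hO.eq_of_src (𝟙 O) 0, emb_zero]⟩
    obtain ⟨i, rfl⟩ := lf_emb h1
    obtain ⟨r, rfl⟩ := lf_emb h2
    exact ⟨B.as, i, r, lf_inj (ρ := ρ) (by rw [← emb_comp, h3, emb_id]),
      lf_inj (ρ := ρ) (by rw [← emb_comp, h4, he])⟩

variable {G : Type w} [Group G] {Y : Type w} [Preorder Y] [MulAction G Y] (ρ : Act Γ C)
  (j : G →* Γ) (hm : ∀ (g : G) (x y : Y), x ≤ y → g • x ≤ g • y)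

/-- Forgetting the locations. -/
noncomputable def lfF : TwZ (Lc.act (ρ.comap j) hm) ⥤
    Tw ((ρ.comap (.fst Γ Zi)).comap (j.prodMap (.id Zi))) :=
  fgt (ρ.comap j) hm (.fst G Zi)

omit [HasBinaryBiproducts C] [HasZeroObject C] in
instance : (lfF ρ j hm).Additive := ⟨map_add fgm _ _⟩

/-- Forgetting the locations and extending the group. -/
noncomputable def lfP : TwZ (Lc.act (ρ.comap j) hm) ⥤ TwZ ρ :=
  lfF ρ j hm ⋙ pushF (j.prodMap (.id Zi))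

omit [HasBinaryBiproducts C] [HasZeroObject C] in
instance : (lfP ρ j hm).Additive :=
  inferInstanceAs (lfF ρ j hm ⋙ pushF (j.prodMap (.id Zi))).Additive

variable {ρ j hm}

omit [HasBinaryBiproducts C] [HasZeroObject C] in
theorem lfP_sg {A B : TwZ (Lc.act (ρ.comap j) hm)} (k : G × Zi)
    (a : A.as ⟶ (((Lc.act (ρ.comap j) hm).comap (.fst G Zi)).F k).obj B.as) :
    (lfP ρ j hm).map (Tw.sg k a) = Tw.sg (ρ := ρ.comap (.fst Γ Zi)) (A := ⟨A.as.A⟩)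
      (B := ⟨B.as.A⟩) (j.prodMap (.id Zi) k) a.1 := by
  have h : (lfF ρ j hm).map (Tw.sg k a) =
      Tw.sg (ρ := (ρ.comap (.fst Γ Zi)).comap (j.prodMap (.id Zi))) (A := ⟨A.as.A⟩)
        (B := ⟨B.as.A⟩) k a.1 := fgm_sg k a
  exact (congrArg (pushF (j.prodMap (.id Zi))).map h).trans (push_sg ..)

omit [HasZeroObject C] in
theorem lf_zero {Ω : Set (G × Zi)} (hj : Set.InjOn (j.prodMap (.id Zi)) Ω)
    {A B : TwZ (Lc.act (ρ.comap j) hm)} {f : A ⟶ B} (h : (SZ (Lc.act (ρ.comap j) hm)).Sup Ω f)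
    (e : (lfP ρ j hm).map f = 0) : f = 0 := by
  refine fgt_zero (push_zero (ρ := ρ.comap (.fst Γ Zi)) (f := (lfF ρ j hm).map f) hj
    (fun g k => ?_) e)
  have := congrArg (fgt (ρ.comap j) hm (.fst G Zi)).map (h g k)
  rw [Functor.map_zero] at this
  exact (fgm_sg ..).symm.trans this

omit [HasZeroObject C] in
theorem lf_eq {Ω : Set (G × Zi)} (hj : Set.InjOn (j.prodMap (.id Zi)) Ω)
    {A B : TwZ (Lc.act (ρ.comap j) hm)} {f g : A ⟶ B} (h : (SZ (Lc.act (ρ.comap j) hm)).Sup Ω f)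
    (h' : (SZ (Lc.act (ρ.comap j) hm)).Sup Ω g)
    (e : (lfP ρ j hm).map f = (lfP ρ j hm).map g) : f = g :=
  sub_eq_zero.1 (lf_zero hj (h.sub h') (by rw [Functor.map_sub, e, sub_self]))

variable (j hm) in
/-- The located object. -/
noncomputable def lfO {A : TwZ ρ} (L : (SZ ρ).Lo Y A) : TwZ (Lc.act (ρ.comap j) hm) :=
  ⟨⟨A.as, (lf_ld L).choose⟩⟩

theorem lf_ex {Ω : Set (G × Zi)} {A B : TwZ ρ} {L : (SZ ρ).Lo Y A} {M : (SZ ρ).Lo Y B} {f : A ⟶ B}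
    (h : L.Rg M (fun a g b => ∃ k, (k ∈ Ω ∧ a ≤ k.1 • b) ∧ j.prodMap (.id Zi) k = g) f) :
    ∃ y : lfO j hm L ⟶ lfO j hm M, (SZ (Lc.act (ρ.comap j) hm)).Sup Ω y ∧
      (lfP ρ j hm).map y = f := by
  let P : (A ⟶ B) → Prop := fun f => ∃ y : lfO j hm L ⟶ lfO j hm M,
    (SZ (Lc.act (ρ.comap j) hm)).Sup Ω y ∧ (lfP ρ j hm).map y = f
  have p0 : P 0 := ⟨0, .zero, Functor.map_zero ..⟩
  have p1 (a b) : P a → P b → P (a + b) := by
    rintro ⟨a, ha, rfl⟩ ⟨b, hb, rfl⟩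
    exact ⟨a + b, ha.add hb, Functor.map_add _⟩
  have e : f = ∑ b ∈ M.s, ∑ a ∈ L.s, L.e a ≫ (L.e a ≫ f ≫ M.e b) ≫ M.e b := by
    simp only [Category.assoc, M.idem, reassoc_of% L.idem, ← Preadditive.sum_comp, L.total,
      Category.id_comp, ← Preadditive.comp_sum, M.total, Category.comp_id]
  change P f
  rw [e]
  refine Finset.sum_induction _ P p1 p0 fun b _ => Finset.sum_induction _ P p1 p0 fun a _ => ?_
  refine (h a b).induction (P := fun u => P (L.e a ≫ u ≫ M.e b)) (by simpa using p0)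
    (fun u u' k k' => by simpa using p1 _ _ k k') ?_
  rintro _ ⟨k, ⟨h1, h2⟩, rfl⟩
  generalize L.e a ≫ f ≫ M.e b = u
  have := ρ.additive (j k.1)
  refine ⟨Tw.sg k ⟨(lf_ld L).choose.e a ≫ co (j.prodMap (.id Zi) k) u ≫
    (ρ.F (j k.1)).map ((lf_ld M).choose.e b), fun x y c => ?_⟩, .of_cp (cpt_sg ..) h1, ?_⟩
  · change (lf_ld L).choose.e x ≫ (_ ≫ _ ≫ (ρ.F (j k.1)).map _) ≫
      (ρ.F (j k.1)).map ((lf_ld M).choose.e (k.1⁻¹ • y)) = 0
    by_cases d : x = a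
    · have d' : b ≠ k.1⁻¹ • y := by
        rintro rfl
        exact c (by rwa [smul_inv_smul, ← d] at h2)
      rw [Category.assoc, Category.assoc, ← Functor.map_comp, Ld.orth _ _ _ d', Functor.map_zero,
        comp_zero, comp_zero, comp_zero]
    · rw [Category.assoc, reassoc_of% Ld.orth _ _ _ d, zero_comp]
  · rw [← (lf_ld L).choose_spec, ← (lf_ld M).choose_spec]
    refine (lfP_sg ..).trans ?_
    exact ((congrArg _ (sg_emb ..)).trans (emb_sg ..)).symm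

variable {Z : Type y} {P : Rl (Γ × Zi) Z} (φ : Z → Y) {H : Subgroup (G × Zi)}
  (hj : Set.InjOn (j.prodMap (.id Zi)) H)
  (hP : ∀ a g b, P.r a g b → ∃ k, (k ∈ H ∧ φ a ≤ k.1 • φ b) ∧ j.prodMap (.id Zi) k = g)

theorem lf_ex' {Ω : Set (G × Zi)} {B : Z → Γ × Zi → Z → Prop}
    (hB : ∀ a g b, B a g b → ∃ k, (k ∈ Ω ∧ φ a ≤ k.1 • φ b) ∧ j.prodMap (.id Zi) k = g)
    {M N : (SZ ρ).LQ P} {f : M.A ⟶ N.A} (h : M.L.Rg N.L B f) :
    ∃ y : lfO j hm (M.L.map φ) ⟶ lfO j hm (N.L.map φ), (SZ (Lc.act (ρ.comap j) hm)).Sup Ω y ∧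
      (lfP ρ j hm).map y = f :=
  lf_ex (h.map M.L.on_true N.L.on_true fun a g b _ _ => hB a g b)

variable (hm) in
/-- The lift of a morphism. -/
noncomputable def lfM {M N : (SZ ρ).LQ P} (f : M ⟶ N) :
    lfO j hm (M.L.map φ) ⟶ lfO j hm (N.L.map φ) :=
  (lf_ex' (hm := hm) φ hP (GC.LQ.hom_rg f)).choose

theorem lfM_sup {M N : (SZ ρ).LQ P} (f : M ⟶ N) :
    (SZ (Lc.act (ρ.comap j) hm)).Sup H (lfM hm φ hP f) :=
  (lf_ex' (hm := hm) φ hP (GC.LQ.hom_rg f)).choose_spec.1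

theorem lfM_map {M N : (SZ ρ).LQ P} (f : M ⟶ N) : (lfP ρ j hm).map (lfM hm φ hP f) = f.1 :=
  (lf_ex' (hm := hm) φ hP (GC.LQ.hom_rg f)).choose_spec.2

include hj in
theorem lfM_comp {M N K : (SZ ρ).LQ P} (f : M ⟶ N) (g : N ⟶ K) :
    lfM hm φ hP f ≫ lfM hm φ hP g = lfM hm φ hP (f ≫ g) :=
  lf_eq hj ((lfM_sup φ hP f).scomp (lfM_sup φ hP g)) (lfM_sup φ hP _) (by
    rw [Functor.map_comp, lfM_map, lfM_map, lfM_map]; rfl)

include hj in
theorem lfM_add {M N : (SZ ρ).LQ P} (f g : M ⟶ N) :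
    lfM hm φ hP (f + g) = lfM hm φ hP f + lfM hm φ hP g :=
  lf_eq hj (lfM_sup φ hP _) ((lfM_sup φ hP f).add (lfM_sup φ hP g)) (by
    rw [Functor.map_add, lfM_map, lfM_map, lfM_map]; rfl)

variable (hm) in
/-- The lifting functor. -/
noncomputable def lfL : (SZ ρ).LQ P ⥤ (SZ (Lc.act (ρ.comap j) hm)).LQ (Rl.pt ⊤) where
  obj M := ⟨lfO j hm (M.L.map φ), .one _ () _, lfM hm φ hP (𝟙 M), by
    rw [lfM_comp φ hj, Category.id_comp], fun _ _ _ h => (h trivial).elim⟩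
  map f := GC.LQ.homMk (lfM hm φ hP f)
    ((lfM_comp φ hj hP ..).trans (congrArg _ (Category.id_comp f)))
    ((lfM_comp φ hj hP ..).trans (congrArg _ (Category.comp_id f))) fun _ _ _ h => (h trivial).elim
  map_id _ := rfl
  map_comp _ _ := GC.LQ.hom_ext (lfM_comp φ hj hP ..).symm

instance : (lfL (ρ := ρ) hm φ hj hP).Additive := ⟨GC.LQ.hom_ext (lfM_add φ hj hP ..)⟩

variable (hm) in
/-- The lift projects to the underlying object. -/
noncomputable def lfE : GC.LQ.U (SZ ρ) P ≅ lfL hm φ hj hP ⋙ GC.lfT _ (SZ ρ) (lfP ρ j hm) :=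
  NatIso.ofComponents (fun M =>
    ⟨GC.LQ.homMk M.p M.idem ((congrArg _ (lfM_map φ hP (𝟙 M))).trans M.idem)
        fun _ _ _ h => (h trivial).elim,
      GC.LQ.homMk M.p ((congrArg (· ≫ M.p) (lfM_map φ hP (𝟙 M))).trans M.idem) M.idem
        fun _ _ _ h => (h trivial).elim,
      GC.LQ.hom_ext M.idem, GC.LQ.hom_ext (M.idem.trans (lfM_map φ hP (𝟙 M)).symm)⟩)
    fun f => GC.LQ.hom_ext ((GC.LQ.comp_p f).trans ((GC.LQ.p_comp f).symm.trans
      (congrArg _ (lfM_map φ hP f).symm)))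

theorem lfE_hom (M : (SZ ρ).LQ P) : ((lfE hm φ hj hP).hom.app M).1 = M.p := rfl

end Pool.Agent.Lib.MP_5d3e93_al
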