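import Pool.Agent.Lib.MP_5d3e93_al.K.Tr
import Pool.Agent.Lib.MP_5d3e93_al.K.Ad
import Pool.Agent.Lib.MP_5d3e93_al.K.LiftA
import Pool.Agent.Lib.MP_5d3e93_al.PrM

/-! A Nil term lives in a category over the product of the group with the integers. -/

open CategoryTheory Limits ZeroObject MulAction

namespace Pool.Agent.Lib.MP_5d3e93_al

universe w v u y y' v' u' v'' u''

open Gr

section abs
variable {G G' : Type w} [Group G] [Group G'] {C : Type u} [Category.{v} C] [Preadditive C]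
  [HasZeroObject C] {C' : Type u'} [Category.{v'} C'] [Preadditive C'] [HasZeroObject C']
  {S : GC G C} {S' : GC G' C'}

theorem GC.lf_wk (F : S.LQ (Rl.pt ⊤) ⥤ S'.LQ (Rl.pt ⊤)) [F.Additive]
    (Φ : S'.LQ (Rl.pt ⊤) ⥤ S.LQ (Rl.pt ⊤)) [Φ.Additive] (e : GC.LQ.U S (Rl.pt ⊤) ≅ F ⋙ Φ)
    (z : S'.WK ⊤) : S.WK ⊤ :=
  Am.Z_retract.{v, u, v', u'} F Φ (e.symm ≪≫ NatIso.ofComponents (fun M =>
    ⟨GC.LQ.homMk M.p M.idem M.idem fun _ _ _ h => (h trivial).elim,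
      GC.LQ.homMk M.p M.idem M.idem fun _ _ _ h => (h trivial).elim,
      GC.LQ.hom_ext M.idem, GC.LQ.hom_ext M.idem⟩) fun f => GC.LQ.hom_ext
        ((GC.LQ.comp_p f).trans (GC.LQ.p_comp f).symm)) z

theorem GC.lf_tr (z : S'.WK ⊤) {X : Am.{v'', u''}} {F : Fn X (S.LQ (Rl.pt ⊤))}
    (F' : Fn X (S'.LQ (Rl.pt ⊤))) (Φ : S'.LQ (Rl.pt ⊤) ⥤ S.LQ (Rl.pt ⊤)) [Φ.Additive]
    (e : F.F ≅ F'.F ⋙ Φ) {x : F ⟶ F} {t : F' ⟶ F'} {m : ℕ} (ht : pw t m = 0)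
    (h : ∀ A, e.hom.app A ≫ Φ.map (NatTrans.app t A) = NatTrans.app x A ≫ e.hom.app A) :
    Fn.Tr.{v'', u'', v, u} (𝟙 F - x) := by
  have := Fn.isIso_unip ht
  refine Fn.Tr.conj (F' := F'.post Φ) ⟨e.hom, e.inv, e.hom_inv_id, e.inv_hom_id⟩
    (NatTrans.ext (funext fun A => ?_))
    (Fn.Tr.post.{v'', u'', v', u', v, u} Φ (Fn.tr_of_Z.{v'', u'', v', u'} z (𝟙 F' - t)))
  change e.hom.app A ≫ Φ.map (𝟙 (F'.F.obj A) - NatTrans.app t A) =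
    (𝟙 (F.F.obj A) - NatTrans.app x A) ≫ e.hom.app A
  rw [Φ.map_sub, Φ.map_id, Preadditive.comp_sub, Preadditive.sub_comp, h, Category.id_comp]
  exact congrArg (fun k => k - NatTrans.app x A ≫ e.hom.app A) (Category.comp_id (e.hom.app A))

end abs

variable {Γ : Type w} [Group Γ] {C : Type u} [Category.{v} C] [Preadditive C]
  [HasBinaryBiproducts C] [HasZeroObject C] {σ : Act Γ C}

section gen
variable {G : Type w} [Group G] {Y : Type w} [Preorder Y] [MulAction G Y] [Nonempty Y]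
  {j : G →* Γ} {hm : ∀ (g : G) (x y : Y), x ≤ y → g • x ≤ g • y}

theorem lf_gm {Z : Type w} {P : Rl (Γ × Zi) Z} (φ : Z → Y) {H : Subgroup (G × Zi)}
    (Ω : ℕ → Set (G × Zi)) (h0 : Ω 0 = H) (hj : ∀ n, Set.InjOn (j.prodMap (.id Zi)) (Ω n))
    (hΩ : ∀ n m, ∀ a ∈ Ω n, ∀ b ∈ Ω m, a * b ∈ Ω (n + m))
    (hP : ∀ a g b, P.r a g b → ∃ k, (k ∈ H ∧ φ a ≤ k.1 • φ b) ∧ j.prodMap (.id Zi) k = g)
    {B : Z → Γ × Zi → Z → Prop}
    (hB : ∀ a g b, B a g b → ∃ k, (k ∈ Ω 1 ∧ φ a ≤ k.1 • φ b) ∧ j.prodMap (.id Zi) k = g)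
    (hK : KZ (Lc.act (σ.comap j) hm)) : (SZ σ).GQ P B := by
  intro m X _ F x hx e
  have hj0 : Set.InjOn (j.prodMap (.id Zi)) H := h0 ▸ hj 0
  choose y y1 y2 using fun A => lf_ex' (hm := hm) φ hB (hx A)
  have n0 {M N : (SZ σ).LQ P} (f : M ⟶ N) :
      (SZ (Lc.act (σ.comap j) hm)).Sup (Ω 0) (lfM hm φ hP f) := h0 ▸ lfM_sup φ hP f
  have n1 {M N : (SZ σ).LQ P} (f : M ⟶ N) {u : lfO j hm (N.L.map φ) ⟶ lfO j hm (N.L.map φ)}
      (h : (SZ (Lc.act (σ.comap j) hm)).Sup (Ω 1) u) :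
      (SZ (Lc.act (σ.comap j) hm)).Sup (Ω 1) (lfM hm φ hP f ≫ u) := (n0 f).comp h (hΩ 0 1)
  have n2 {M N : (SZ σ).LQ P} (f : M ⟶ N) {u : lfO j hm (M.L.map φ) ⟶ lfO j hm (M.L.map φ)}
      (h : (SZ (Lc.act (σ.comap j) hm)).Sup (Ω 1) u) :
      (SZ (Lc.act (σ.comap j) hm)).Sup (Ω 1) (u ≫ lfM hm φ hP f) := h.comp (n0 f) (hΩ 1 0)
  have c1 (A) : lfM hm φ hP (𝟙 (F.F.obj A)) ≫ y A = y A :=
    lf_eq (hj 1) (n1 _ (y1 A)) (y1 A) (by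
      rw [Functor.map_comp, y2, lfM_map]
      exact GC.LQ.p_comp (NatTrans.app x A))
  have c2 (A) : y A ≫ lfM hm φ hP (𝟙 (F.F.obj A)) = y A :=
    lf_eq (hj 1) (n2 _ (y1 A)) (y1 A) (by
      rw [Functor.map_comp, y2, lfM_map]
      exact GC.LQ.comp_p (NatTrans.app x A))
  have c3 {A A'} (f : A ⟶ A') : lfM hm φ hP (F.F.map f) ≫ y A' = y A ≫ lfM hm φ hP (F.F.map f) :=
    lf_eq (hj 1) (n1 _ (y1 A')) (n2 _ (y1 A)) (by
      rw [Functor.map_comp, Functor.map_comp, lfM_map, y2, y2]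
      exact congrArg (·.1) (NatTrans.naturality x f))
  let F' := F.post (lfL hm φ hj0 hP)
  obtain ⟨t, ht⟩ : ∃ t : F' ⟶ F', ∀ A, (NatTrans.app t A).1 = y A :=
    ⟨NatTrans.mk (fun A => GC.LQ.homMk (y A) (c1 A) (c2 A) fun _ _ _ h => (h trivial).elim)
      fun A B f => GC.LQ.hom_ext (c3 f), fun _ => rfl⟩
  have key (n : ℕ) (A) : (SZ (Lc.act (σ.comap j) hm)).Sup (Ω n) (NatTrans.app (pw t n) A).1 ∧
      (lfP σ j hm).map (NatTrans.app (pw t n) A).1 = (NatTrans.app (pw x n) A).1 := by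
    induction n with
    | zero => exact ⟨n0 _, lfM_map φ hP _⟩
    | succ n ih =>
      have q : (NatTrans.app (pw t (n + 1)) A).1 = y A ≫ (NatTrans.app (pw t n) A).1 :=
        congrArg (· ≫ _) (ht A)
      rw [q]
      exact ⟨(y1 A).comp ih.1 (Nat.add_comm 1 n ▸ hΩ 1 n),
        (Functor.map_comp ..).trans (congrArg₂ (· ≫ ·) (y2 A) ih.2)⟩
  have e' : pw t m = 0 := NatTrans.ext (funext fun A => GC.LQ.hom_ext
    (lf_zero (hj m) (key m A).1 ((key m A).2.trans (by rw [e]; rfl))))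
  refine GC.lf_tr hK F' (GC.lfT _ (SZ σ) (lfP σ j hm))
    (Functor.isoWhiskerLeft F.F (lfE hm φ hj0 hP)) e' fun A => GC.LQ.hom_ext ?_
  change (F.F.obj A).p ≫ (lfP σ j hm).map (NatTrans.app t A).1 =
    (NatTrans.app x A).1 ≫ (F.F.obj A).p
  exact (congrArg _ ((congrArg _ (ht A)).trans (y2 A))).trans
    ((GC.LQ.p_comp (NatTrans.app x A)).trans (GC.LQ.comp_p (NatTrans.app x A)).symm)

theorem lf_kz {H : Subgroup (G × Zi)} (hj : Set.InjOn (j.prodMap (.id Zi)) H) (z : Y)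
    (hP : ∀ g, ∃ k, (k ∈ H ∧ z ≤ k.1 • z) ∧ j.prodMap (.id Zi) k = g)
    (hK : KZ (Lc.act (σ.comap j) hm)) : KZ σ := by
  have hP' : ∀ a g b, (Rl.pt (⊤ : Subgroup (Γ × Zi))).r a g b → ∃ k,
      (k ∈ H ∧ (fun _ => z) a ≤ k.1 • (fun _ => z) b) ∧ j.prodMap (.id Zi) k = g :=
    fun _ g _ _ => hP g
  exact GC.lf_wk _ _ (lfE hm _ hj hP') hK

end gen

section Liftfile
/-- Points with a height. -/
@[ext] structure Pz {Z : Type w} (R : Z → Z → Prop) where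
  x : Z
  n : ℤ
variable {Z : Type w} {R : Z → Z → Prop}
instance [Nonempty Z] : Nonempty (Pz R) := ⟨⟨Classical.arbitrary Z, 0⟩⟩
instance : Preorder (Pz R) where
  le p q := ∃ k : ℕ, q.n = p.n + k ∧ Pth R k p.x q.x
  le_refl p := ⟨0, by simp, rfl⟩
  le_trans p q r := fun ⟨k, a, b⟩ ⟨l, c, d⟩ => ⟨l + k, by rw [c, a]; push_cast; ring, b.trans d⟩
variable [MulAction Γ Z]
instance : MulAction (Γ × Multiplicative ℤ) (Pz R) where
  smul g p := ⟨g.1 • p.x, g.2.toAdd + p.n⟩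
  one_smul p := Pz.ext (one_smul Γ p.x) (zero_add _)
  mul_smul a b p := Pz.ext (mul_smul a.1 b.1 p.x) (add_assoc ..)
theorem Pz.hm (hR : ∀ (g : Γ) a b, R a b → R (g • a) (g • b)) (g : Γ × Multiplicative ℤ)
    (p q : Pz R) : p ≤ q → g • p ≤ g • q :=
  fun ⟨k, a, b⟩ => ⟨k, show _ + q.n = _ + p.n + k by rw [a, add_assoc], b.smul hR g.1⟩
/-- As `Fr.gp` in PrM. -/
def Pz.gp (hR : ∀ (g : Γ) a b, R a b → R (g • a) (g • b)) (hu : Unq R) :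
    Gp (Γ × Multiplicative ℤ) (Pz R) Unit where
  h p _ := p.n
  χ _ := ⟨fun g => g.2.toAdd, fun _ _ => rfl⟩
  hm := Pz.hm hR
  smul _ _ _ := rfl
  mono := fun ⟨k, a, _⟩ _ => by simp [a]
  fac {x z a} := fun ⟨k, b, c⟩ d e => by
    have d' : x.n ≤ a () := d ()
    have e' : a () ≤ z.n := e ()
    obtain ⟨l, m, rfl, f⟩ : ∃ l m : ℕ, k = m + l ∧ a () = x.n + l :=
      ⟨(a () - x.n).toNat, (z.n - a ()).toNat, by omega, by omega⟩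
    obtain ⟨y, p, q⟩ := c.split
    exact ⟨⟨y, a ()⟩, ⟨l, f, p⟩, ⟨m, by rw [b, f]; push_cast; ring, q⟩, rfl⟩
  uniq {x y y' z} := fun ⟨k, a, b⟩ ⟨l, c, d⟩ ⟨k', a', b'⟩ ⟨l', c', d'⟩ e => by
    have e' : y.n = y'.n := congrFun e ()
    obtain rfl : k = k' := by omega
    obtain rfl : l = l' := by omega
    exact Pz.ext (Pth.uniq hu b b' d d') e'

/-- Degrees of a given height. -/
def lfH (Γ : Type w) (n : ℕ) : Set ((Γ × Multiplicative ℤ) × Zi) := {g | g.1.2.toAdd = n}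

theorem lfH_inj (n : ℕ) :
    Set.InjOn ((MonoidHom.fst Γ (Multiplicative ℤ)).prodMap (.id Zi)) (lfH Γ n) :=
  fun _ a _ b e => Prod.ext (Prod.ext (Prod.ext_iff.1 e).1
    (Multiplicative.toAdd.injective (Eq.trans a (Eq.symm b)))) (Prod.ext_iff.1 e).2

theorem lfH_mul {n m : ℕ} : ∀ a ∈ lfH Γ n, ∀ b ∈ lfH Γ m, a * b ∈ lfH Γ (n + m) :=
  fun _ a _ b => (congrArg₂ (· + ·) a b).trans (Nat.cast_add n m).symm

variable (Γ) in
/-- Degrees of height zero. -/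
def lfH0 : Subgroup ((Γ × Multiplicative ℤ) × Zi) where
  carrier := lfH Γ 0
  mul_mem' a b := lfH_mul _ a _ b
  one_mem' := rfl
  inv_mem' a := congrArg (-·) a

theorem gi_lift [Nonempty Z] (hR : ∀ (g : Γ) a b, R a b → R (g • a) (g • b))
    (hK : KZ (Lc.act (Z := Pz R) (σ.comap (.fst Γ (Multiplicative ℤ))) (Pz.hm hR))) :
    (SZ σ).GI (.fst Γ Zi) Z R :=
  lf_gm (H := lfH0 Γ) (fun a => (⟨a, 0⟩ : Pz R)) (lfH Γ) rfl lfH_inj (fun _ _ => lfH_mul)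
    (fun _ g _ h => ⟨((g.1, 1), g.2), ⟨rfl, Exists.intro 0 ⟨rfl, h⟩⟩, rfl⟩)
    (fun _ g _ h => ⟨((g.1, .ofAdd 1), g.2), ⟨rfl, Exists.intro 1 ⟨rfl, _, h, rfl⟩⟩, rfl⟩) hK

theorem kz_loc {Y : Type w} [Preorder Y] [MulAction Γ Y] [Nonempty Y]
    {hm : ∀ (g : Γ) (a b : Y), a ≤ b → g • a ≤ g • b} (z : Y) (hz : ∀ g : Γ, z ≤ g • z)
    (hK : KZ (Lc.act σ hm)) : KZ σ :=
  lf_kz (j := .id Γ) (hm := hm) (H := ⊤) (fun _ _ _ _ e => e) z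
    (fun g => ⟨g, ⟨trivial, hz _⟩, rfl⟩) hK

end Liftfile

end Pool.Agent.Lib.MP_5d3e93_al
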