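import Pool.Agent.Lib.MP_5d3e93_al.K.Line
import Pool.Agent.Lib.MP_5d3e93_al.K.Lift
import Pool.Agent.Lib.MP_5d3e93_al.K.FH

/-! Actions on products of trees: vanishing in all degrees. -/

open CategoryTheory Limits ZeroObject MulAction

namespace Pool.Agent.Lib.MP_5d3e93_al

universe w v u y y' v' u' v'' u''

open Gr

theorem fin_map {A B : Type*} [Group A] [Group B] {N : Subgroup A} {M : Subgroup B} (f : A →* B)
    (hf : Set.InjOn f N) (h : ∀ g ∈ N, f g ∈ M) (k : Finite M) : Finite N :=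
  Finite.of_injective (fun g : N => (⟨f g, h g g.2⟩ : M)) fun a b e =>
    Subtype.ext (hf a.2 b.2 (congrArg Subtype.val e))

variable {Γ : Type w} [Group Γ] {C : Type u} [Category.{v} C] [Preadditive C]
  [HasBinaryBiproducts C] [HasZeroObject C] {σ : Act Γ C}

theorem kz_two (χ ψ : Ch Γ) (h : ∀ H : Subgroup Γ, (∀ g ∈ H, χ g = 0 → ψ g = 0) ∨
    (∀ g ∈ H, ψ g = 0 → χ g = 0) → KZ (σ.comap H.subtype)) : KZ σ := by
  refine kz_of_zf (GC.zf_two (χ.comap (.fst Γ Zi)) (ψ.comap (.fst Γ Zi)) fun a b H c d => ?_)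
  let ω : Ch Γ := ⟨fun g => a * χ g + b * ψ g, fun x y => by rw [χ.mul, ψ.mul]; ring⟩
  obtain rfl : H = ω.ker.comap (.fst Γ Zi) := Subgroup.ext d
  refine (kz_sub _).1 (h _ (c.symm.imp (fun c g (k : a * χ g + b * ψ g = 0) l => ?_)
    fun c g (k : a * χ g + b * ψ g = 0) l => ?_))
  · simpa [l, c] using k
  · simpa [l, c] using k

theorem kz_fib' {κ : Type} (s : Finset κ) : ∀ (Γ : Type w) [Group Γ] (σ : Act Γ C)
    (χ : κ → Ch Γ), (∀ g, (∀ i ∈ s, χ i g = 0) → ∀ i, χ i g = 0) →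
    (∀ (H : Type w) [Group H] (j : H →* Γ), Function.Injective j → ∀ ω : Ch H,
      (∀ g, ω g = 0 → ∀ i, χ i (j g) = 0) → KZ (σ.comap j)) → KZ σ := by
  classical
  induction s using Finset.strongInduction with | _ s ih => ?_
  intro Γ _ σ χ h1 h2
  have sub (i) (a : i ∈ s) (H : Subgroup Γ)
      (b : ∀ g ∈ H, (∀ j ∈ s.erase i, χ j g = 0) → χ i g = 0) : KZ (σ.comap H.subtype) := by
    refine ih _ (Finset.erase_ssubset a) H _ (fun j => (χ j).comap H.subtype)
      (fun g c => h1 g fun j d => ?_) fun H' _ j c =>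
        h2 H' (H.subtype.comp j) (H.subtype_injective.comp c)
    by_cases e : j = i
    · exact e ▸ b g g.2 c
    · exact c j (Finset.mem_erase.2 ⟨e, d⟩)
  have top := h2 Γ (.id Γ) Function.injective_id
  obtain rfl | ⟨i, a⟩ := s.eq_empty_or_nonempty
  · exact top ⟨0, by simp⟩ fun g _ => h1 g (by simp)
  obtain e | ⟨j, b⟩ := (s.erase i).eq_empty_or_nonempty
  · exact top (χ i) fun g c => h1 g fun j d => by_contra fun k =>
      Finset.notMem_empty j (e ▸ Finset.mem_erase.2 ⟨fun l => k (l ▸ c), d⟩)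
  obtain ⟨b1, b2⟩ := Finset.mem_erase.1 b
  refine kz_two (χ i) (χ j) fun H c => c.elim (fun c => ?_) fun c => ?_
  · exact sub j b2 H fun g m n => c g m (n i (Finset.mem_erase.2 ⟨b1.symm, a⟩))
  · exact sub i a H fun g m n => c g m (n j b)

section Prodfile
theorem kz_fib {κ : Type} [Fintype κ] (χ : κ → Ch Γ)
    (h : ∀ (H : Type w) [Group H] (j : H →* Γ), Function.Injective j → ∀ ω : Ch H,
      (∀ g, ω g = 0 → ∀ i, χ i (j g) = 0) → KZ (σ.comap j)) : KZ σ :=
  kz_fib' Finset.univ Γ σ χ (fun _ k i => k i (Finset.mem_univ i)) h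
theorem kz_gp {Y : Type w} [Preorder Y] [MulAction Γ Y] {κ : Type} [Fintype κ] (P : Gp Γ Y κ)
    (hs : Sw σ) (hL : Lcd Y σ) (hY : ∀ y : Y, Finite (stabilizer Γ y)) : KZ σ :=
  kz_fib P.χ fun H _ j a ω b => by
    let _ : MulAction H Y := MulAction.compHom Y j
    exact kz_line (P.comap j fun _ _ => rfl) (hs.comap j) (hL.comap j fun _ _ => rfl)
      (fun y => fin_map j a.injOn (fun _ k => k) (hY y)) ω b
theorem Dt.unq {V : Type y} [MulAction Γ V] {T : SimpleGraph V} (hT : T.IsTree)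
    {ha : ∀ (g : Γ) a b, T.Adj a b → T.Adj (g • a) (g • b)} : Unq (Dt.st (T := T) (ha := ha)) := by
  have key (k : ℕ) : ∀ d y : Dt T ha, Pth Dt.st k d y → y.b ∈ Half T d.a d.b := by
    induction k with
    | zero => rintro d _ rfl; exact half_self
    | succ k ih =>
      rintro ⟨a, b, p⟩ y ⟨⟨c, e, q⟩, ⟨rfl, r⟩, t⟩
      refine half_nest hT p q (half_step half_self q fun l => ?_) (ih _ _ t)
      rcases Sym2.eq_iff.1 l with ⟨l, -⟩ | ⟨-, l⟩
      exacts [p.ne l.symm, r l]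
  rintro k d ⟨a, b, p⟩ ⟨_, c, q⟩ y ⟨rfl, -⟩ ⟨rfl, -⟩ r t
  exact Dt.ext rfl (half_uniq hT p q (key _ _ _ r) (key _ _ _ t))
theorem Dt.st_smul {V : Type y} [MulAction Γ V] {T : SimpleGraph V}
    {ha : ∀ (g : Γ) a b, T.Adj a b → T.Adj (g • a) (g • b)} (g : Γ) (d e : Dt T ha) (h : d.st e) :
    (g • d).st (g • e) :=
  ⟨congrArg (g • ·) h.1, fun k => h.2 (MulAction.injective g k)⟩
variable {G : Type w} [Group G] {ι : Type} {W : ι → Type w} [∀ i, MulAction G (W i)]
  {U : ∀ i, SimpleGraph (W i)} (hU : ∀ i, (U i).IsTree)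
  (hb : ∀ i (g : G) a b, (U i).Adj a b → (U i).Adj (g • a) (g • b))
  (hj : ∀ i (g : G) a b, (U i).Adj a b → g • a = b → g • b ≠ a)
include hU hb hj
theorem kz_prod (s : Finset ι) : ∀ (Γ : Type w) [Group Γ] (q : Γ →* G) (C : Type (max u v w))
    [Category.{v} C] [Preadditive C] [HasBinaryBiproducts C] [HasZeroObject C] (σ : Act Γ C)
    (Y : Type w) [Preorder Y] [MulAction Γ Y] (κ : Type) [Fintype κ] (_ : Gp Γ Y κ), Sw σ →
    Lcd Y σ → (∀ (y : Y) (x : ∀ i, W i) (N : Subgroup Γ),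
      (∀ g ∈ N, g • y = y ∧ ∀ i ∈ s, q g • x i = x i) → Finite N) → KZ σ := by
  classical
  induction s using Finset.induction_on with
  | empty =>
    intro Γ _ q C _ _ _ _ σ Y _ _ κ _ P hs hL h
    exact kz_gp P hs hL fun y => h y (fun i => (hU i).connected.nonempty.some) _
      fun g k => ⟨k, by simp⟩
  | insert i s hi ih =>
    intro Γ _ q C _ _ _ _ σ Y _ _ κ _ P hs hL h
    let _ : MulAction Γ (W i) := MulAction.compHom _ q
    have e (y : Y) (x : ∀ i, W i) (z : W i) (N : Subgroup Γ)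
        (a : ∀ g ∈ N, g • y = y ∧ q g • z = z ∧ ∀ j ∈ s, q g • x j = x j) : Finite N :=
      h y (Function.update x i z) N fun g k => ⟨(a g k).1, fun j l => by
        obtain rfl | l := Finset.mem_insert.1 l
        · simpa using (a g k).2.1
        · simpa [Function.update_of_ne (ne_of_mem_of_not_mem l hi)] using (a g k).2.2 j l⟩
    have ha (g : Γ) (a b) (k : (U i).Adj a b) : (U i).Adj (g • a) (g • b) := hb i (q g) a b k
    have sub (z : W i) (D : Subgroup Γ) (a : ∀ g ∈ D, q g • z = z) :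
        (SZ σ).WK (D.comap (.fst Γ Zi)) := by
      refine (kz_sub D).1 (ih D (q.comp D.subtype) C _ Y κ (P.comap D.subtype fun _ _ => rfl)
        (hs.comap _) (hL.comap _ fun _ _ => rfl) fun y x N c =>
          fin_map D.subtype D.subtype_injective.injOn (fun _ => Subgroup.mem_map_of_mem _)
            (e y x z _ ?_))
      rintro _ ⟨g, k, rfl⟩
      exact ⟨(c g k).1, a g g.2, (c g k).2⟩
    refine kz_of_zf (GC.zf_tree (.fst Γ Zi) (hU i) ha (fun g => hj i (q g))
      (fun z => sub z _ fun _ k => k) (fun d => sub d.a _ fun _ k => congrArg Dt.a k) ?_)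
    obtain c | c := isEmpty_or_nonempty (Dt (U i) ha)
    · exact fun m => GC.gm_empty fun a _ _ _ => c.elim a
    let _ : MulAction (Γ × Multiplicative ℤ) Y := MulAction.compHom _ (MonoidHom.fst ..)
    refine gi_lift Dt.st_smul (ih _ (q.comp (.fst ..)) _ _ (Y × Pz (Dt.st (ha := ha))) _
      ((P.comap (.fst ..) fun _ _ => rfl).prod (Pz.gp Dt.st_smul (Dt.unq (hU i))))
      ((hs.comap _).act _) ((hL.comap _ fun _ _ => rfl).act _) fun y x N c => ?_)
    have f (k) (l : k ∈ N) : k.2 = 1 := by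
      simpa using show k.2.toAdd + y.2.n = y.2.n from congrArg (·.2.n) (c k l).1
    refine fin_map (.fst ..) (fun k l k' l' m => Prod.ext m ((f k l).trans (f k' l').symm))
      (fun _ => Subgroup.mem_map_of_mem _) (e y.1 x y.2.x.a _ ?_)
    rintro _ ⟨k, l, rfl⟩
    exact ⟨congrArg Prod.fst (c k l).1, congrArg (·.2.x.a) (c k l).1, (c k l).2⟩
variable [Finite ι] {ρ : Act G C} (hs : Sw ρ)
include hs
theorem kz_sm {D : Subgroup G} (h : ∀ x : ∀ i, W i, Finite ↥(D ⊓ stabilizer G x)) :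
    KZ (ρ.comap D.subtype) := by
  have := Fintype.ofFinite ι
  exact kz_loc (Y := PUnit.{w + 1}) (hm := fun _ _ _ _ => le_rfl) ⟨⟩ (fun _ => le_rfl)
    (kz_prod.{w, v, u} hU hb hj Finset.univ D D.subtype _ _ (PUnit × PUnit) _
      (Gp.unit.prod Gp.unit) ((hs.comap _).act _) ((lcd_unit ⟨⟩).act _) fun y x N c =>
        fin_map D.subtype D.subtype_injective.injOn
          (fun k l => Subgroup.mem_inf.2 ⟨k.2, funext fun i => (c k l).2 i (Finset.mem_univ i)⟩)
          (h x))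
theorem kz_main {V : Type w} [MulAction G V] {T : SimpleGraph V} (hT : T.IsTree)
    (ha : ∀ (g : G) a b, T.Adj a b → T.Adj (g • a) (g • b))
    (hi : ∀ (g : G) a b, T.Adj a b → g • a = b → g • b ≠ a)
    (h1 : ∀ a : V, (∀ x : ∀ i, W i, Finite ↥(stabilizer G a ⊓ stabilizer G x)) ∨
      KZ (ρ.comap (stabilizer G a).subtype))
    (h2 : ∀ a b, T.Adj a b → ∀ x : ∀ i, W i,
      Finite ↥(stabilizer G a ⊓ stabilizer G b ⊓ stabilizer G x)) : KZ ρ := by
  have := Fintype.ofFinite ι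
  refine kz_of_zf (GC.zf_tree (.fst G Zi) hT ha hi
    (fun a => (kz_sub _).1 ((h1 a).elim (kz_sm hU hb hj hs) id))
    (fun d => (kz_sub _).1 (kz_sm hU hb hj hs fun x => fin_map (.id G) Function.injective_id.injOn
      (fun g k => Subgroup.mem_inf.2
        ⟨Subgroup.mem_inf.2 ⟨congrArg Dt.a k.1, congrArg Dt.b k.1⟩, k.2⟩)
      (h2 _ _ d.adj x))) ?_)
  obtain c | c := isEmpty_or_nonempty (Dt T ha)
  · exact fun m => GC.gm_empty fun a _ _ _ => c.elim a
  refine gi_lift Dt.st_smul (kz_prod.{w, v, u} hU hb hj Finset.univ _ (.fst ..) _ _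
    (PUnit × Pz (Dt.st (ha := ha))) _ (Gp.unit.prod (Pz.gp Dt.st_smul (Dt.unq hT)))
    ((hs.comap _).act _) ((lcd_unit ⟨⟩).act _) fun y x N c => ?_)
  have f (k) (l : k ∈ N) : k.2 = 1 := by
    simpa using show k.2.toAdd + y.2.n = y.2.n from congrArg (·.2.n) (c k l).1
  exact fin_map (.fst ..) (fun k l k' l' m => Prod.ext m ((f k l).trans (f k' l').symm))
    (fun k l => Subgroup.mem_inf.2 ⟨Subgroup.mem_inf.2
      ⟨congrArg (·.2.x.a) (c k l).1, congrArg (·.2.x.b) (c k l).1⟩,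
      funext fun i => (c k l).2 i (Finset.mem_univ i)⟩) (h2 _ _ y.2.x.adj x)
end Prodfile

end Pool.Agent.Lib.MP_5d3e93_al
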