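import Pool.Agent.Lib.MP_5d3e93_al.K.Line2
import Pool.Agent.Lib.MP_5d3e93_al.K.Prod

/-! Actions on products of trees with terminating descent at the stabilisers. -/

open CategoryTheory Limits ZeroObject MulAction

namespace Pool.Agent.Lib.MP_5d3e93_al

universe w v u y y' v' u' v'' u'' u₁ u₂ u₃

open Gr

section
variable {Γ : Type w} [Group Γ] {C : Type u} [Category.{v} C] [Preadditive C]
  [HasBinaryBiproducts C] [HasZeroObject C] {σ : Act Γ C} {𝓕 : Fam Γ}
  {Y : Type w} [Preorder Y] [MulAction Γ Y] {κ : Type} [Fintype κ]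
theorem kz_gp2 (P : Gp Γ Y κ) (hs : W2 𝓕 σ) (hL : Lcd Y σ)
    (hY : ∀ y : Y, 𝓕.Tm (stabilizer Γ y)) : KZ σ :=
  kz_fib P.χ fun H _ j a ω b => by
    let _ : MulAction H Y := MulAction.compHom Y j
    refine kz_line2 (P.comap j fun _ _ => rfl) (hs.comap j a) (hL.comap j fun _ _ => rfl)
      (fun y => (hY y).comap a.injOn ?_) ω b
    rintro _ ⟨g, k, rfl⟩
    exact k
end
section
variable {G : Type w} [Group G] {ι : Type} {W : ι → Type w} [∀ i, MulAction G (W i)]
  {U : ∀ i, SimpleGraph (W i)} (hU : ∀ i, (U i).IsTree)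
  (hb : ∀ i (g : G) a b, (U i).Adj a b → (U i).Adj (g • a) (g • b))
  (hj : ∀ i (g : G) a b, (U i).Adj a b → g • a = b → g • b ≠ a)
include hU hb hj
theorem kz_prod2 (s : Finset ι) : ∀ (Γ : Type w) [Group Γ] (q : Γ →* G) (C : Type (max u v w))
    [Category.{v} C] [Preadditive C] [HasBinaryBiproducts C] [HasZeroObject C] (σ : Act Γ C)
    (𝓕 : Fam Γ) (Y : Type w) [Preorder Y] [MulAction Γ Y] (κ : Type) [Fintype κ] (_ : Gp Γ Y κ),
    Okf.{w, v, u} 𝓕 σ → Sw σ → Lcd Y σ → (∀ (y : Y) (x : ∀ i, W i) (N : Subgroup Γ),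
      (∀ g ∈ N, g • y = y ∧ ∀ i ∈ s, q g • x i = x i) → 𝓕.Tm N) → KZ σ := by
  classical
  induction s using Finset.induction_on with
  | empty =>
    intro Γ _ q C _ _ _ _ σ 𝓕 Y _ _ κ _ P hs hw hL h
    exact kz_gp2 P ⟨hs.wf, hw⟩ hL fun y => h y (fun i => (hU i).connected.nonempty.some) _
      fun g k => ⟨k, by simp⟩
  | insert i s hi ih =>
    intro Γ _ q C _ _ _ _ σ 𝓕 Y _ _ κ _ P hs hw hL h
    let _ : MulAction Γ (W i) := MulAction.compHom _ q
    have e (y : Y) (x : ∀ i, W i) (z : W i) (N : Subgroup Γ)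
        (a : ∀ g ∈ N, g • y = y ∧ q g • z = z ∧ ∀ j ∈ s, q g • x j = x j) : 𝓕.Tm N :=
      h y (Function.update x i z) N fun g k => ⟨(a g k).1, fun j l => by
        obtain rfl | l := Finset.mem_insert.1 l
        · simpa using (a g k).2.1
        · simpa [Function.update_of_ne (ne_of_mem_of_not_mem l hi)] using (a g k).2.2 j l⟩
    have ha (g : Γ) (a b) (k : (U i).Adj a b) : (U i).Adj (g • a) (g • b) := hb i (q g) a b k
    have sub (z : W i) (D : Subgroup Γ) (a : ∀ g ∈ D, q g • z = z) :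
        (SZ σ).WK (D.comap (.fst Γ Zi)) := by
      refine (kz_sub D).1 (ih D (q.comp D.subtype) C _ _ Y κ (P.comap D.subtype fun _ _ => rfl)
        (hs.sub _ D.subtype_injective) (hw.comap _) (hL.comap _ fun _ _ => rfl) fun y x N c =>
          (e y x z _ ?_).comap D.subtype_injective.injOn le_rfl)
      rintro _ ⟨g, k, rfl⟩
      exact ⟨(c g k).1, a g g.2, (c g k).2⟩
    refine kz_of_zf (GC.zf_tree (.fst Γ Zi) (hU i) ha (fun g => hj i (q g))
      (fun z => sub z _ fun _ k => k) (fun d => sub d.a _ fun _ k => congrArg Dt.a k) ?_)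
    obtain c | c := isEmpty_or_nonempty (Dt (U i) ha)
    · exact fun m => GC.gm_empty fun a _ _ _ => c.elim a
    let _ : MulAction (Γ × Multiplicative ℤ) Y := MulAction.compHom _ (MonoidHom.fst ..)
    refine gi_lift Dt.st_smul (ih _ (q.comp (.fst ..)) _ _ _ (Y × Pz (Dt.st (ha := ha))) _
      ((P.comap (.fst ..) fun _ _ => rfl).prod (Pz.gp Dt.st_smul (Dt.unq (hU i))))
      (hs.fst.act _) ((hw.comap _).act _) ((hL.comap _ fun _ _ => rfl).act _) fun y x N c => ?_)
    have f (k) (l : k ∈ N) : k.2 = 1 := by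
      simpa using show k.2.toAdd + y.2.n = y.2.n from congrArg (·.2.n) (c k l).1
    refine (e y.1 x y.2.x.a _ ?_).comap
      (fun k l k' l' m => Prod.ext m ((f k l).trans (f k' l').symm)) le_rfl
    rintro _ ⟨k, l, rfl⟩
    exact ⟨congrArg Prod.fst (c k l).1, congrArg (·.2.x.a) (c k l).1, (c k l).2⟩
end

end Pool.Agent.Lib.MP_5d3e93_al
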