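import Pool.Agent.Lib.MP_5d3e93_al.K.Adm
import Pool.Agent.Lib.MP_5d3e93_al.K.Acc
import Pool.Agent.Lib.MP_5d3e93_al.K.Prod2
import Pool.Agent.Lib.MP_5d3e93_al.PrM
import Pool.Agent.Lib.MP_5d3e93_al.DefsM

/-! A tree, a product of trees and a linear representation. -/

open CategoryTheory Limits MulAction
open scoped Pointwise

namespace Pool.Agent.Lib.MP_5d3e93_al

universe w v u

theorem LocHyper.pull {H H' : Type w} [Group H] [Group H'] {i : H' →* H} (hi : Hyper i.ker)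
    {D : Subgroup H} {E : Subgroup H'} (k : E.map i ≤ D) (h : LocHyper D) : LocHyper E := by
  intro U a
  have b := fg_map a E.subtype
  have c : (U.map E.subtype).map i ≤ D := (Subgroup.map_mono (Subgroup.map_subtype_le U)).trans k
  exact (Hyper.ext' (U := U.map E.subtype) i (hi.le inf_le_right) ((Cl.le (s := LH) c h ⊤
    ((Group.fg_iff_subgroup_fg _).2 (fg_map b i)).out).equiv Subgroup.topEquiv)).inj
      (E.subtype.subgroupMap U) fun _ _ e => Subtype.ext (Subtype.ext (Subtype.mk.inj e))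

theorem Lin.pull {H H' : Type w} [Group H] [Group H'] {i : H' →* H} (hi : Hyper i.ker)
    {D : Subgroup H} {E : Subgroup H'} (k : E.map i ≤ D) (h : Lin D) : Lin E := by
  intro U a
  let f : E →* D := (i.comp E.subtype).codRestrict D fun x => k ⟨x, x.2, rfl⟩
  obtain ⟨R, _, n, φ, b⟩ := h _ (fg_map a f)
  refine ⟨R, _, n, φ.comp (f.subgroupMap U), Hyper.ext' (f.subgroupMap U)
    (rg_comap (j := E.subtype.comp U.subtype) (E.subtype_injective.comp U.subtype_injective) hi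
      fun _ c => Subtype.mk.inj (Subtype.mk.inj c.2)) (b.le ?_)⟩
  rintro _ ⟨x, c, rfl⟩
  exact c

/-- The empty family. -/
def Fam.emp (Γ : Type w) [Group Γ] : Fam Γ := ⟨fun _ => False, fun _ => id, fun _ => id⟩

variable {G H H' : Type w} [Group G] [Group H] [Group H'] {X : Type w} [MulAction G X]

variable (X) in
/-- Small subgroups relative to a subgroup. -/
def Sml (j : H →* G) (N D : Subgroup H) : Prop := ∀ x : X,
  LocHyper ↥(D ⊓ (stabilizer G x).comap j) ∨ Hyper ↥(D ⊓ (stabilizer G x).comap j ⊓ N)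

variable {j : H →* G} {N D : Subgroup H}

theorem Sml.pull {i : H' →* H} (hi : Hyper i.ker) {N' E : Subgroup H'} (a : N' ≤ N.comap i)
    (k : E.map i ≤ D) (h : Sml X j N D) : Sml X (j.comp i) N' E := fun x => (h x).imp
  (LocHyper.pull hi (by
    rintro _ ⟨g, b, rfl⟩
    exact ⟨k ⟨g, b.1, rfl⟩, b.2⟩)) fun b => Hyper.ext' i (hi.le inf_le_right) (b.le (by
      rintro _ ⟨g, c, rfl⟩
      exact ⟨⟨k ⟨g, c.1.1, rfl⟩, c.1.2⟩, a c.2⟩))

theorem Sml.ext {L : Type w} [Group L] {N' : Subgroup H} (f : H →* L) (a : N' ⊓ f.ker ≤ N)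
    (b : Hyper (N'.map f)) (h : Sml X j N D) : Sml X j N' D := fun x => (h x).imp_right fun c =>
  Hyper.ext' f (c.le fun _ e => ⟨e.1.1, a ⟨e.1.2, e.2⟩⟩) (b.le (Subgroup.map_mono inf_le_right))

theorem Sml.lh (h : Sml X j ⊤ D) (x : X) : LocHyper ↥(D ⊓ (stabilizer G x).comap j) :=
  (h x).elim id fun a => (a.le (le_inf le_rfl le_top)).loc

variable {V : Type w} [MulAction G V] (T : SimpleGraph V) (𝓕 : Fam G)

variable (X) in
/-- One step of the descent. -/
def Stt (j : H →* G) (N : Subgroup H) (a b : V) (D₁ D : Subgroup H) : Prop :=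
  ∃ g : H, Half T (j g • a) (j g • b) ⊂ Half T a b ∧ ¬ Sml X j N D ∧ D₁ ≤ cj D g

variable (X) in
/-- Groups with small or good vertex groups and accessible edge groups. -/
def admT : Adm G where
  a j N := (∀ a : V, Sml X j N ((stabilizer G a).comap j) ∨ Lin ((stabilizer G a).comap j) ∨
      𝓕.m (((stabilizer G a).comap j).map j)) ∧
    ∀ a b, T.Adj a b → Acc (Stt X T j N a b) ((stabilizer G a ⊓ stabilizer G b).comap j)
  pull := fun {H H'} _ _ j N i N' hi a h => by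
    refine ⟨fun v => (h.1 v).imp (Sml.pull hi a ?_) (Or.imp (Lin.pull hi ?_) (𝓕.le ?_)),
      fun v v' c => ?_⟩
    · rintro _ ⟨g, b, rfl⟩
      exact b
    · rintro _ ⟨g, b, rfl⟩
      exact b
    · rintro _ ⟨g, b, rfl⟩
      exact ⟨i g, b, rfl⟩
    have key (D) (d : Acc (Stt X T j N v v') D) : ∀ E : Subgroup H', E.map i ≤ D →
        Acc (Stt X T (j.comp i) N' v v') E := by
      induction d with
      | intro D _ ih =>
        refine fun E k => ⟨_, fun E₁ ⟨t, o, p, q⟩ => ih (E₁.map i)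
          ⟨i t, o, fun c => p (c.pull hi a k), ?_⟩ _ le_rfl⟩
        rintro _ ⟨x, hx, rfl⟩
        obtain ⟨r, s⟩ := mem_cj.1 (q hx)
        exact mem_cj.2 ⟨k ⟨x, r, rfl⟩, k ⟨_, s, by simp⟩⟩
    refine key _ (h.2 v v' c) _ ?_
    rintro _ ⟨g, b, rfl⟩
    exact b
  ext0 f a b h := ⟨fun v => (h.1 v).imp_left (Sml.ext f a b), fun v v' c =>
    Subrelation.accessible (fun ⟨t, o, p, q⟩ => ⟨t, o, fun e => p (e.ext f a b), q⟩) (h.2 v v' c)⟩

variable {ι : Type} [Finite ι] {W : ι → Type w} [∀ i, MulAction G (W i)]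
  {U : ∀ i, SimpleGraph (W i)} (hU : ∀ i, (U i).IsTree)
  (hb : ∀ i (g : G) a b, (U i).Adj a b → (U i).Adj (g • a) (g • b))
  (hj : ∀ i (g : G) a b, (U i).Adj a b → g • a = b → g • b ≠ a)
include hU hb hj

section
variable {C : Type u} [Category.{v} C] [Preadditive C] [HasBinaryBiproducts C] [HasZeroObject C]
  {σ : Act H C} (hs : Sw σ) (h : ∀ x : ∀ i, W i, LocHyper ↥(D ⊓ (stabilizer G x).comap j))
include hs h

theorem kz_sm2 : KZ (σ.comap D.subtype) := by
  have := Fintype.ofFinite ι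
  refine kz_loc (Y := PUnit.{w + 1}) (hm := fun _ _ _ _ => le_rfl) ⟨⟩ (fun _ => le_rfl)
    (kz_prod2.{w, v, u} hU hb hj Finset.univ D (j.comp D.subtype) _ _ (Fam.emp _) (PUnit × PUnit) _
      (Gp.unit.prod Gp.unit) (SwF.okf fun _ => False.elim) ((hs.comap _).act _)
      ((lcd_unit ⟨⟩).act _) fun y x N c => Fam.tm_lh
        (Cl.map (s := LH) D.subtype_injective.injOn ?_ (h x)))
  rintro _ ⟨k, l, rfl⟩
  exact ⟨k.2, funext fun i => (c k l).2 i (Finset.mem_univ i)⟩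

theorem gd_sm2 {g : H} (b : Fr D (dc D g)) : GD σ D g := by
  have := Fintype.ofFinite ι
  intro m
  refine GC.Gm.push (fun _ => ((1 : H) : H ⧸ D)) (fun _ k _ c => ?_) (fun _ k _ c => ?_)
    (gi_lift (R := Cst D (dc D g)) Cst.smul (kz_prod2.{w, v, u} hU hb hj Finset.univ _
      (j.comp (.fst ..)) _ _ (Fam.emp _) (PUnit × Pz (Cst D (dc D g))) _
      (Gp.unit.prod (Pz.gp Cst.smul b.uniq)) (SwF.okf fun _ => False.elim) ((hs.comap _).act _)
      ((lcd_unit ⟨⟩).act _) fun y x N c => Fam.tm_lh ?_) m)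
  · exact QuotientGroup.eq.2 (show (1 : H)⁻¹ * (k.1 * 1) ∈ D by
      rw [inv_one, one_mul, mul_one]; exact c)
  · exact ⟨1, k.1, c, rfl, show ((k.1 * 1 : H) : H ⧸ D) = _ by rw [one_mul, mul_one]⟩
  obtain ⟨y, p, n⟩ := y
  obtain ⟨p, rfl⟩ := QuotientGroup.mk_surjective p
  have f (k) (l : k ∈ N) : k.2 = 1 := by
    simpa using show k.2.toAdd + n = n from congrArg (·.2.n) (c k l).1
  refine Cl.map (s := LH) (f := (MulAut.conj p⁻¹).toMonoidHom.comp (.fst ..))
    (fun k l k' l' m => Prod.ext ((MulAut.conj p⁻¹).injective m) ((f k l).trans (f k' l').symm)) ?_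
      (h ((j p)⁻¹ • x))
  rintro _ ⟨k, l, rfl⟩
  refine ⟨?_, funext fun i => ?_⟩
  · simpa [mul_assoc] using D.inv_mem (QuotientGroup.eq.1 (congrArg (·.2.x) (c k l).1))
  · simpa [mul_smul] using (c k l).2 i (Finset.mem_univ i)

end

variable {T 𝓕} (hT : T.IsTree) (ha : ∀ (g : G) a b, T.Adj a b → T.Adj (g • a) (g • b))
  (hi : ∀ (g : G) a b, T.Adj a b → g • a = b → g • b ≠ a)
include hT ha hi

theorem admT_unit : Adm.Gd.{w, v, u} (admT (∀ i, W i) T 𝓕) 𝓕 PUnit.{w + 1} := by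
  intro H _ j ψ h C _ _ _ _ σ hs hf
  rw [show ψ.ker = ⊤ from top_le_iff.1 fun _ _ => rfl] at h
  let _ : MulAction H V := MulAction.compHom V j
  have k (a : V) (D : Subgroup H) (e : D ≤ (stabilizer G a).comap j) : KZ (σ.comap D.subtype) :=
    (h.1 a).elim (fun b => kz_sm2 hU hb hj hs fun x =>
      Cl.le (s := LH) (inf_le_inf_right _ e) (b.lh x))
      fun b => b.elim (fun c => kz_all (c.pull (hyper_ker Function.injective_id (i := .id H))
        ((Subgroup.map_id D).trans_le e)) (hs.comap _))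
        fun c => hf.wf D (𝓕.le (Subgroup.map_mono e) c)
  refine kz_acc hT (fun g => ha (j g)) (fun g => hi (j g)) (fun a => k a _ le_rfl)
    (fun a b _ D e => k a D fun _ c => (e c).1) fun a b c =>
      Subrelation.accessible ?_ (h.2 a b c)
  rintro _ D ⟨t, o, p, q, rfl⟩
  exact ⟨t, o, fun e => q (gd_sm2 hU hb hj hs e.lh p), le_rfl⟩

theorem kz_tw {R : Type w} [CommRing R] {n : ℕ} (φ : G →* GL (Fin n) R)
    (hV : ∀ a : V, Slim (∀ i, W i) φ.ker (stabilizer G a) ∨ Lin (stabilizer G a) ∨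
      𝓕.m (stabilizer G a))
    (hA : ∀ a b, T.Adj a b → Acc (fun D₁ D : Subgroup G => ∃ g : G,
      Half T (g • a) (g • b) ⊂ Half T a b ∧ ¬ Slim (∀ i, W i) φ.ker D ∧
        D₁ = D ⊓ MulAut.conj g • D) (stabilizer G a ⊓ stabilizer G b))
    {C : Type u} [Category.{v} C] [Preadditive C] [HasBinaryBiproducts C] [HasZeroObject C]
    {σ : Act G C} (hs : Sw σ) (hf : SwF 𝓕 σ) : KZ σ := by
  refine Adm.kz (admT_unit hU hb hj hT ha hi) φ ⟨fun a => (hV a).imp_right (Or.imp_right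
    (𝓕.le (Subgroup.map_comap_le _ _))), fun a b c => ?_⟩ hs hf
  have key (D) (d : Acc (fun D₁ D : Subgroup G => ∃ g : G, Half T (g • a) (g • b) ⊂ Half T a b ∧
      ¬ Slim (∀ i, W i) φ.ker D ∧ D₁ = D ⊓ MulAut.conj g • D) D) :
      ∀ E ≤ D, Acc (Stt (∀ i, W i) T (.id G) φ.ker a b) E := by
    induction d with
    | intro D _ ih =>
      refine fun E k => ⟨_, fun E₁ ⟨t, o, p, q⟩ => ih _ ⟨t, o, fun c => p fun x => (c x).imp
        (Cl.le (s := LH) (inf_le_inf_right _ k))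
        (·.le (inf_le_inf_right _ (inf_le_inf_right _ k))), (cj_eq D t)⟩ _ fun x hx => ?_⟩
      exact mem_cj.2 ⟨k (mem_cj.1 (q hx)).1, k (mem_cj.1 (q hx)).2⟩
  exact key _ (hA a b c) _ le_rfl

end Pool.Agent.Lib.MP_5d3e93_al
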