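import Pool.Agent.Lib.MP_5d3e93_al.K.Gd
import Pool.Agent.Lib.MP_5d3e93_al.Gr.ColK
import Pool.Agent.Lib.MP_5d3e93_al.Gr.Str

/-! Directed unions of additive subcategories. -/

open CategoryTheory Limits Pretriangulated ZeroObject Filter

set_option linter.unusedSectionVars false

namespace Pool.Agent.Lib.MP_5d3e93_al

universe v u

namespace Gr

section Su
variable {A : Type u} [Category.{v} A] [Preadditive A]

/-- The inclusion on homotopy categories. -/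
abbrev Su.κ (t : Su A) : Kh t.Cat ⥤ Kh A := t.ι.mapHomotopyCategory _

/-- The transition on homotopy categories. -/
abbrev Su.incK {t t' : Su A} (h : t.le t') : Kh t.Cat ⥤ Kh t'.Cat :=
  (Su.inc h).mapHomotopyCategory _

theorem cs_map {t t' : Su A} (h : t.le t') {X Y : Kh t.Cat} (g : X ⟶ Y) :
    t'.κ.map ((Su.incK h).map g) = t.κ.map g := by
  obtain ⟨g⟩ := g
  rfl

variable {ι : Type*} [Preorder ι] {s : ι → Su A} (hs : ∀ {i j}, i ≤ j → (s i).le (s j))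
  (hm : ∀ X Y (f : X ⟶ Y), ∃ i, f ∈ (s i).mor X Y)
include hs hm

theorem cs_fin {κ : Type*} {X Y : κ → A} (f : ∀ k, X k ⟶ Y k) (hf : {k | f k ≠ 0}.Finite) :
    ∀ᶠ j in atTop, ∀ k, f k ∈ (s j).mor _ _ := by
  refine ((eventually_all_finite hf (p := fun k j => f k ∈ (s j).mor _ _)).2 fun k _ => ?_).mono
    fun j h k => ?_
  · obtain ⟨i, hi⟩ := hm _ _ (f k)
    exact (eventually_ge_atTop i).mono fun j h => (hs h).2 _ _ hi
  · by_cases e : f k = 0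
    · exact e ▸ zero_mem _
    · exact h k e

theorem cs_lift {i i' : ι} {K : CochainComplex (s i).Cat ℤ} {L : CochainComplex (s i').Cat ℤ}
    (hK : {n | ¬ IsZero (K.X n)}.Finite)
    (c : ((s i).ι.mapHomologicalComplex _).obj K ⟶ ((s i').ι.mapHomologicalComplex _).obj L) :
    ∀ᶠ j in atTop, ∀ (h : i ≤ j) (h' : i' ≤ j),
      ∃ c' : ((Su.inc (hs h)).mapHomologicalComplex _).obj K ⟶
        ((Su.inc (hs h')).mapHomologicalComplex _).obj L,
        ((s j).ι.mapHomologicalComplex _).map c' = c :=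
  (cs_fin hs hm c.f (hK.subset fun _ h k => h (((s i).ι.map_isZero k).eq_of_src _ _))).mono
    fun _ k _ _ => ⟨⟨fun l => ⟨c.f l, k l⟩, fun a b e => Subtype.ext (c.comm' a b e)⟩, rfl⟩

theorem cs_htpy {i : ι} {K L : CochainComplex (s i).Cat ℤ} (hK : {n | ¬ IsZero (K.X n)}.Finite)
    (c : K ⟶ L) (H : Homotopy (((s i).ι.mapHomologicalComplex _).map c) 0) :
    ∀ᶠ j in atTop, ∀ h : i ≤ j,
      Nonempty (Homotopy (((Su.inc (hs h)).mapHomologicalComplex _).map c) 0) := by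
  refine (cs_fin hs hm (fun k : ℤ × ℤ => H.hom k.1 k.2) ((hK.image fun n => (n, n - 1)).subset
    fun k h => ⟨k.1, fun z => h (((s i).ι.map_isZero z).eq_of_src _ _), ?_⟩)).mono
    fun _ k _ => ⟨⟨fun m n => ⟨H.hom m n, k (m, n)⟩, fun m n e => Subtype.ext (H.zero m n e),
      fun n => Subtype.ext (H.comm n)⟩⟩
  have e : k.2 + 1 = k.1 := by
    by_contra e
    exact h (H.zero _ _ e)
  exact Prod.ext rfl (by simp [← e])

variable [HasZeroObject A] [HasBinaryBiproducts A]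

omit hs hm in
theorem cs_strict {X : Kh A} (h : genK ⊤ X) : ∃ K : CochainComplex A ℤ,
    {n | ¬ IsZero (K.X n)}.Finite ∧ Nonempty (X ≅ (HomotopyCategory.quotient _ _).obj K) := by
  obtain ⟨K, ⟨-, p, q, k⟩, e⟩ := genK_strict h
  exact ⟨K, (Set.finite_Icc p q).subset fun n l => by
    by_contra c
    exact l (k n (by simp only [Set.mem_Icc] at c; omega)), e⟩

omit hs hm in
theorem cs_genK {B : Type*} [Category* B] [Preadditive B] [HasZeroObject B] [HasBinaryBiproducts B]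
    (F : A ⥤ B) [F.Additive] {X : Kh A} (h : genK ⊤ X) :
    genK ⊤ ((F.mapHomotopyCategory _).obj X) := by
  obtain ⟨K, ⟨-, p, q, k⟩, ⟨e⟩⟩ := genK_strict h
  exact Cl.iso ((F.mapHomotopyCategory _).mapIso e).symm
    (Sb.genK (K := (F.mapHomologicalComplex _).obj K)
      ⟨fun _ => trivial, p, q, fun n l => F.map_isZero (k n l)⟩)

theorem cs_full {i i' : ι} {X : Kh (s i).Cat} {Y : Kh (s i').Cat} (hX : genK ⊤ X)
    (φ : (s i).κ.obj X ⟶ (s i').κ.obj Y) : ∀ᶠ j in atTop, ∀ (h : i ≤ j) (h' : i' ≤ j),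
      ∃ ψ : (Su.incK (hs h)).obj X ⟶ (Su.incK (hs h')).obj Y, (s j).κ.map ψ = φ := by
  obtain ⟨K, hK, ⟨e⟩⟩ := cs_strict hX
  obtain ⟨L⟩ := Y
  obtain ⟨c, hc⟩ := (HomotopyCategory.quotient A (.up ℤ)).map_surjective
    (X := ((s i).ι.mapHomologicalComplex _).obj K) (Y := ((s i').ι.mapHomologicalComplex _).obj L)
    ((s i).κ.map e.inv ≫ φ)
  refine (cs_lift hs hm hK c).mono fun j k h h' => ?_
  obtain ⟨c', hc'⟩ := k h h'
  refine ⟨(Su.incK (hs h)).map e.hom ≫ (HomotopyCategory.quotient _ _).map c',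
    ((s j).κ.map_comp _ _).trans ?_⟩
  have e' : (s j).κ.map ((HomotopyCategory.quotient _ _).map c') = (s i).κ.map e.inv ≫ φ :=
    (congrArg (HomotopyCategory.quotient A (.up ℤ)).map hc').trans hc
  have e'' : (s i).κ.map e.hom ≫ (s i).κ.map e.inv ≫ φ = φ := by
    rw [← Functor.map_comp_assoc, e.hom_inv_id, CategoryTheory.Functor.map_id, Category.id_comp]
  exact (congrArg₂ (fun (x : (s i).κ.obj X ⟶ _) y => x ≫ y) (cs_map (hs h) e.hom) e').trans e''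

theorem cs_faith {i : ι} {X Y : Kh (s i).Cat} (hX : genK ⊤ X) (ψ : X ⟶ Y)
    (e₀ : (s i).κ.map ψ = 0) : ∀ᶠ j in atTop, ∀ h : i ≤ j, (Su.incK (hs h)).map ψ = 0 := by
  obtain ⟨K, hK, ⟨e⟩⟩ := cs_strict hX
  obtain ⟨L⟩ := Y
  obtain ⟨c, hc⟩ := (HomotopyCategory.quotient _ (.up ℤ)).map_surjective (X := K) (Y := L)
    (e.inv ≫ ψ)
  have k : (s i).κ.map ((HomotopyCategory.quotient _ _).map c) = 0 := by
    rw [hc]
    exact ((s i).κ.map_comp _ _).trans ((congrArg (_ ≫ ·) e₀).trans comp_zero)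
  refine (cs_htpy hs hm hK c (HomotopyCategory.homotopyOfEq _ _ k)).mono fun j l h => ?_
  have k' : (Su.incK (hs h)).map ((HomotopyCategory.quotient _ _).map c) = 0 :=
    HomotopyCategory.eq_of_homotopy _ _ (l h).some
  rw [← e.hom_inv_id_assoc ψ, Functor.map_comp]
  exact (congrArg (_ ≫ ·) ((congrArg _ hc.symm).trans k')).trans comp_zero

theorem cs_obj [Nonempty ι] [IsDirectedOrder ι] (ho : ∀ X, ∃ i, (s i).ob X) {M : Kh A}
    (hM : genK ⊤ M) : ∃ (i : ι) (M' : Kh (s i).Cat), genK ⊤ M' ∧ Nonempty ((s i).κ.obj M' ≅ M) := by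
  obtain ⟨K, ⟨-, p, q, k⟩, ⟨e₀⟩⟩ := genK_strict hM
  obtain ⟨i, hi⟩ := ((eventually_all_finite (l := atTop) (Set.finite_Icc p q)
    (p := fun n j => (s j).ob (K.X n))).2 fun n _ => by
      obtain ⟨i, hi⟩ := ho (K.X n)
      exact (eventually_ge_atTop i).mono fun j h => (hs h).1 _ hi).exists
  obtain ⟨Z, z, hZ⟩ := (s i).zero
  have : ∀ n, ∃ (Y : A) (_ : Y ≅ K.X n), (s i).ob Y := fun n => by
    by_cases c : n ∈ Set.Icc p q
    · exact ⟨_, Iso.refl _, hi n c⟩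
    · exact ⟨Z, z.iso (k n (by simp only [Set.mem_Icc] at c; omega)), hZ⟩
  choose Y e hY using this
  obtain ⟨j, hj, h⟩ := ((cs_fin hs hm (fun x : ℤ × ℤ => (e x.1).hom ≫ K.d x.1 x.2 ≫ (e x.2).inv)
    (((Set.finite_Icc p q).prod (Set.finite_Icc p q)).subset fun x l => by
      by_contra c
      simp only [Set.mem_prod, Set.mem_Icc] at c
      by_cases c' : x.1 < p ∨ q < x.1
      · exact l (((k _ c').of_iso (e _)).eq_of_src _ _)
      · exact l (((k _ (by omega)).of_iso (e _)).eq_of_tgt _ _))).and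
    (eventually_ge_atTop i)).exists
  let K' : CochainComplex (s j).Cat ℤ :=
    { X := fun n => ⟨Y n, (hs h).1 _ (hY n)⟩
      d := fun m n => ⟨(e m).hom ≫ K.d m n ≫ (e n).inv, hj (m, n)⟩
      shape := fun m n c => Subtype.ext (by
        change (e m).hom ≫ K.d m n ≫ (e n).inv = 0
        rw [K.shape m n c, zero_comp, comp_zero])
      d_comp_d' := fun l m n _ _ => Subtype.ext (by
        change ((e l).hom ≫ K.d l m ≫ (e m).inv) ≫ (e m).hom ≫ K.d m n ≫ (e n).inv = 0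
        simp) }
  refine ⟨j, (HomotopyCategory.quotient _ _).obj K', Sb.genK ⟨fun _ => trivial, p, q, fun n c =>
    (IsZero.iff_id_eq_zero _).2 (Subtype.ext (((k n c).of_iso (e n)).eq_of_src _ _))⟩,
    ⟨(HomotopyCategory.quotient _ _).mapIso (HomologicalComplex.Hom.isoOfComponents
      (C₁ := ((s j).ι.mapHomologicalComplex _).obj K') (C₂ := K) e fun m n _ => ?_) ≪≫ e₀.symm⟩⟩
  change (e m).hom ≫ K.d m n = ((e m).hom ≫ K.d m n ≫ (e n).inv) ≫ (e n).hom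
  simp

omit hm in
theorem cs_trW {T₀ : ObjectProperty (Kh A)} [Tg T₀] {T : ∀ i, ObjectProperty (Kh (s i).Cat)}
    [∀ i, Tg (T i)] (h2 : ∀ i j (h : i ≤ j) K, T i K → T j ((Su.incK (hs h)).obj K))
    (h3 : ∀ i (K : CochainComplex (s i).Cat ℤ), {n | ¬ IsZero (K.X n)}.Finite →
      T₀ ((s i).κ.obj ((HomotopyCategory.quotient _ _).obj K)) →
      ∃ (j : ι) (h : i ≤ j), T j ((Su.incK (hs h)).obj ((HomotopyCategory.quotient _ _).obj K)))
    {i : ι} {X Y : Kh (s i).Cat} (hX : genK ⊤ X) (hY : genK ⊤ Y) (t : X ⟶ Y)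
    (w : T₀.trW ((s i).κ.map t)) :
    ∀ᶠ j in atTop, ∀ h : i ≤ j, (T j).trW ((Su.incK (hs h)).map t) := by
  obtain ⟨Z, g, δ, hT⟩ := distinguished_cocone_triangle t
  obtain ⟨K, hK, ⟨e⟩⟩ := cs_strict ((genK ⊤).ext_of_isTriangulatedClosed₃ _ hT hX hY)
  obtain ⟨j₀, h₀, k⟩ := h3 i K hK (T₀.prop_of_iso ((s i).κ.mapIso e)
    ((T₀.trW_iff_of_distinguished _ ((s i).κ.map_distinguished _ hT)).1 w))
  exact (eventually_ge_atTop j₀).mono fun j l h =>
    ((T j).trW_iff_of_distinguished _ ((Su.incK (hs h)).map_distinguished _ hT)).2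
      ((T j).prop_of_iso ((Su.incK (hs h)).mapIso e).symm (h2 j₀ j l ((Su.incK (hs h₀)).obj ((HomotopyCategory.quotient _ _).obj K)) k))

end Su

theorem cs_conj {C D : Type*} [Category* C] [Category* D] (F : C ⥤ D) {X X' Y Y' : C} (e₁ : X' ≅ X)
    (e₂ : Y' ≅ Y) (φ : F.obj X ⟶ F.obj Y) :
    F.map e₁.inv ≫ (F.map e₁.hom ≫ φ ≫ F.map e₂.inv) ≫ F.map e₂.hom = φ := by
  simp only [Category.assoc, ← Functor.map_comp, ← Functor.map_comp_assoc, Iso.inv_hom_id,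
    CategoryTheory.Functor.map_id, Category.id_comp, Category.comp_id]

namespace Am

theorem cs_gs {b : Am.{v, u}} (hb : b.Gs) {Y M : Kh b.A} {t : Y ⟶ M} (w : b.T.trW t)
    (h : genK ⊤ Y) : genK ⊤ M := (Tg.of_trW hb w).1 h

/-- The system of the subcategories. -/
def subSys (a : Am.{v, u}) {ι : Type*} [Preorder ι] (s : ι → Su a.A)
    (hs : ∀ {i j}, i ≤ j → (s i).le (s j)) (T : ∀ i, ObjectProperty (Kh (s i).Cat)) [∀ i, Tg (T i)]
    (h1 : ∀ i K, T i K → a.T ((s i).κ.obj K))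
    (h2 : ∀ i j (h : i ≤ j) K, T i K → T j ((Su.incK (hs h)).obj K)) : Sys.{v, u, v, u} ι where
  x i := a.sub (s i) (T i)
  t {i j} h :=
    { F := Su.inc (hs h)
      add := inferInstanceAs (Su.inc (hs h)).Additive
      hT := fun K k => (a.sub (s j) (T j)).le_Tb _ (h2 i j h K k) }
  a := a
  f i := a.subι (s i) (T i) (h1 i)
  tt _ _ := rfl
  tf _ := rfl

section
variable {a : Am.{v, u}} (ha : a.Gs) {ι : Type*} [Nonempty ι] [Preorder ι]
  [IsDirectedOrder ι] {s : ι → Su a.A} (hs : ∀ {i j}, i ≤ j → (s i).le (s j))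
  {T : ∀ i, ObjectProperty (Kh (s i).Cat)} [∀ i, Tg (T i)] (hb : ∀ i, (a.sub (s i) (T i)).Gs)
  (h1 : ∀ i K, T i K → a.T ((s i).κ.obj K))
  (h2 : ∀ i j (h : i ≤ j) K, T i K → T j ((Su.incK (hs h)).obj K))
  (h3 : ∀ i (K : CochainComplex (s i).Cat ℤ), {n | ¬ IsZero (K.X n)}.Finite →
    a.T ((s i).κ.obj ((HomotopyCategory.quotient _ _).obj K)) →
    ∃ (j : ι) (h : i ≤ j), T j ((Su.incK (hs h)).obj ((HomotopyCategory.quotient _ _).obj K)))
  (ho : ∀ X, ∃ i, (s i).ob X) (hm : ∀ X Y (f : X ⟶ Y), ∃ i, f ∈ (s i).mor X Y)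
include ha h2 h3 ho hm

theorem cs_Qfull {i : ι} {X Y : Kh (s i).Cat} (hX : genK ⊤ X) (hY : genK ⊤ Y)
    (φ : a.Q.obj ((s i).κ.obj X) ⟶ a.Q.obj ((s i).κ.obj Y)) : ∃ (j : ι) (h : i ≤ j)
      (ψ : (a.sub (s j) (T j)).Q.obj ((Su.incK (hs h)).obj X) ⟶
        (a.sub (s j) (T j)).Q.obj ((Su.incK (hs h)).obj Y)),
      (a.subι (s j) (T j) (h1 j)).D.map ψ = φ := by
  obtain ⟨M, t, f, w, e⟩ := (locOn_of_isLocalization (F := a.Q) (N := a.T) (S := ⊤) le_top).full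
    trivial trivial φ
  obtain ⟨i', M', hM, ⟨ε⟩⟩ := cs_obj hs hm ho ((Tg.of_trW ha w).1 (cs_genK _ hY))
  obtain ⟨j, ⟨⟨k₁, k₂⟩, h⟩, h'⟩ := ((((cs_full hs hm hX (f ≫ ε.inv)).and
    (cs_full hs hm hY (t ≫ ε.inv))).and (eventually_ge_atTop i)).and
      (eventually_ge_atTop i')).exists
  obtain ⟨f', hf⟩ := k₁ h h'
  obtain ⟨t', ht⟩ := k₂ h h'
  have w' : a.T.trW (t ≫ ε.inv) := a.T.trW.comp_mem _ _ w (a.T.trW_of_isIso _)
  obtain ⟨l, k, g⟩ := ((cs_trW hs h2 h3 (cs_genK _ hY) (cs_genK _ hM) t' (ht ▸ w')).and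
    (eventually_ge_atTop j)).exists
  let b := a.sub (s l) (T l)
  let m := a.subι (s l) (T l) (h1 l)
  have i₁ : IsIso (b.Q.map ((Su.incK (hs g)).map t')) := Localization.inverts b.Q b.T.trW _ (k g)
  have := Localization.inverts a.Q a.T.trW _ w'
  refine ⟨l, h.trans g, b.Q.map ((Su.incK (hs g)).map f') ≫ @inv _ _ _ _ _ i₁,
    (cancel_mono (a.Q.map (t ≫ ε.inv))).1 ?_⟩
  have e₁ : m.D.map (b.Q.map ((Su.incK (hs g)).map t')) = a.Q.map (t ≫ ε.inv) :=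
    (m.D_map _).trans (congrArg a.Q.map ((cs_map (hs g) t').trans ht))
  have e₂ : m.D.map (b.Q.map ((Su.incK (hs g)).map f')) = a.Q.map (f ≫ ε.inv) :=
    (m.D_map _).trans (congrArg a.Q.map ((cs_map (hs g) f').trans hf))
  have e₃ : φ ≫ a.Q.map (t ≫ ε.inv) = a.Q.map (f ≫ ε.inv) := by
    rw [Functor.map_comp, Functor.map_comp, ← Category.assoc, e]
  refine Eq.trans ?_ (e₂.trans e₃.symm)
  refine ((congrArg (_ ≫ ·) e₁.symm).trans (m.D.map_comp _ _).symm).trans (congrArg m.D.map ?_)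
  exact (Category.assoc ..).trans ((congrArg (_ ≫ ·) (@IsIso.inv_hom_id _ _ _ _ _ i₁)).trans
    (Category.comp_id _))

theorem cs_Qfaith {i : ι} {X Y : Kh (s i).Cat} (hX : genK ⊤ X) (hY : genK ⊤ Y) (f : X ⟶ Y)
    (e : a.Q.map ((s i).κ.map f) = 0) : ∃ (j : ι) (h : i ≤ j),
      (a.sub (s j) (T j)).Q.map ((Su.incK (hs h)).map f) = 0 := by
  obtain ⟨M, t, w, e⟩ := (locOn_of_isLocalization (F := a.Q) (N := a.T) (S := ⊤) le_top).faith
    trivial trivial _ e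
  obtain ⟨i', M', hM, ⟨ε⟩⟩ := cs_obj hs hm ho ((Tg.of_trW ha w).1 (cs_genK _ hY))
  obtain ⟨j, ⟨k₂, h⟩, h'⟩ := (((cs_full hs hm hY (t ≫ ε.inv)).and (eventually_ge_atTop i)).and
      (eventually_ge_atTop i')).exists
  obtain ⟨t', ht⟩ := k₂ h h'
  have w' : a.T.trW (t ≫ ε.inv) := a.T.trW.comp_mem _ _ w (a.T.trW_of_isIso _)
  have e' : (s i).κ.map f ≫ t ≫ ε.inv = 0 := by rw [← Category.assoc, e, zero_comp]
  obtain ⟨l, ⟨k, k'⟩, g⟩ := (((cs_trW hs h2 h3 (cs_genK _ hY) (cs_genK _ hM) t' (ht ▸ w')).and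
    (cs_faith hs hm (cs_genK _ hX) ((Su.incK (hs h)).map f ≫ t') (((s j).κ.map_comp _ _).trans
      ((congrArg₂ (fun (x : (s i).κ.obj X ⟶ _) y => x ≫ y) (cs_map (hs h) f) ht).trans e')))).and
    (eventually_ge_atTop j)).exists
  let b := a.sub (s l) (T l)
  have : IsIso (b.Q.map ((Su.incK (hs g)).map t')) := Localization.inverts b.Q b.T.trW _ (k g)
  have e₁ : b.Q.map ((Su.incK (hs g)).map ((Su.incK (hs h)).map f)) = 0 := by
    refine (cancel_mono (b.Q.map ((Su.incK (hs g)).map t'))).1 (Eq.trans ?_ zero_comp.symm)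
    exact (b.Q.map_comp _ _).symm.trans ((congrArg b.Q.map
      (((Su.incK (hs g)).map_comp _ _).symm.trans (k' g))).trans (b.Q.map_zero _ _))
  refine ⟨l, h.trans g, Eq.trans ?_ e₁⟩
  obtain ⟨f⟩ := f
  rfl

include hb in
theorem cs_col : (a.subSys s hs T h1 h2).Col (fun i => (a.sub (s i) (T i)).bdd) a.bdd where
  mt h := Map.bdd_map _
  mf i := Map.bdd_map _
  obj X hX := by
    obtain ⟨M, hM, ⟨e⟩⟩ := a.exists_genK ha hX
    obtain ⟨i, M', k, ⟨ε⟩⟩ := cs_obj hs hm ho hM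
    exact ⟨i, _, (a.sub (s i) (T i)).gen_of_genK k, ⟨a.Q.mapIso ε ≪≫ e⟩⟩
  full i X Y hX hY φ := by
    let σ := a.subSys s hs T h1 h2
    obtain ⟨X₀, k₁, ⟨e₁⟩⟩ := (σ.x i).exists_genK (hb i) hX
    obtain ⟨Y₀, k₂, ⟨e₂⟩⟩ := (σ.x i).exists_genK (hb i) hY
    obtain ⟨j, h, ψ, e⟩ := cs_Qfull ha hs h1 h2 h3 ho hm k₁ k₂
      ((σ.f i).D.map e₁.hom ≫ φ ≫ (σ.f i).D.map e₂.inv)
    refine ⟨j, h, (σ.t h).D.map e₁.inv ≫ ψ ≫ (σ.t h).D.map e₂.hom, heq_of_eq ?_⟩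
    have c : ∀ {U V : (σ.x i).D} (g : U ⟶ V), (σ.f j).D.map ((σ.t h).D.map g) = (σ.f i).D.map g :=
      fun g => ((σ.t h).comp_map (σ.f j) g).symm
    have e' := cs_conj (σ.f i).D e₁ e₂ φ
    refine ((σ.f j).D.map_comp _ _).trans (Eq.trans ?_ e')
    exact congrArg₂ (fun (x : (σ.f i).D.obj X ⟶ _) y => x ≫ y) (c _)
      (((σ.f j).D.map_comp _ _).trans
        (congrArg₂ (fun x (y : _ ⟶ (σ.f i).D.obj Y) => x ≫ y) e (c _)))
  faith i X Y hX hY ψ e := by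
    let σ := a.subSys s hs T h1 h2
    obtain ⟨X₀, k₁, ⟨e₁⟩⟩ := (σ.x i).exists_genK (hb i) hX
    obtain ⟨Y₀, k₂, ⟨e₂⟩⟩ := (σ.x i).exists_genK (hb i) hY
    obtain ⟨M, t, f, w, c⟩ := (locOn_of_isLocalization (F := (σ.x i).Q) (N := (σ.x i).T) (S := ⊤)
      le_top).full trivial trivial (e₁.hom ≫ ψ ≫ e₂.inv)
    have := Localization.inverts (σ.x i).Q (σ.x i).T.trW _ w
    have c' : (σ.f i).D.map ((σ.x i).Q.map f) = 0 := by
      have e' : (σ.f i).D.map ψ = 0 := e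
      rw [← c]
      simp only [Functor.map_comp, e', zero_comp, comp_zero]
    obtain ⟨j, h, k⟩ := cs_Qfaith ha hs h2 h3 ho hm k₁ (cs_gs (hb i) w k₂) f
      (((σ.f i).D_map f).symm.trans c')
    have k' : (σ.t h).D.map ((σ.x i).Q.map f) = 0 := ((σ.t h).D_map f).trans k
    refine ⟨j, h, ?_⟩
    rw [← c] at k'
    simpa only [Functor.map_comp, Category.assoc, Preadditive.IsIso.comp_left_eq_zero,
      Preadditive.IsIso.comp_right_eq_zero] using k'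

end

theorem sb_surj (a : Am.{v, u}) (ha : a.Gs) {ι : Type*} [Nonempty ι] [Preorder ι]
    [IsDirectedOrder ι] (s : ι → Su a.A) (hs : ∀ {i j}, i ≤ j → (s i).le (s j))
    (T : ∀ i, ObjectProperty (Kh (s i).Cat)) [∀ i, Tg (T i)] (hb : ∀ i, (a.sub (s i) (T i)).Gs)
    (h1 : ∀ i K, T i K → a.T (((s i).ι.mapHomotopyCategory _).obj K))
    (h2 : ∀ i j (h : i ≤ j) K, T i K → T j (((Su.inc (hs h)).mapHomotopyCategory _).obj K))
    (h3 : ∀ i (K : CochainComplex (s i).Cat ℤ), {n | ¬ IsZero (K.X n)}.Finite →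
      a.T (((s i).ι.mapHomotopyCategory _).obj ((HomotopyCategory.quotient _ _).obj K)) →
      ∃ (j : ι) (h : i ≤ j), T j (((Su.inc (hs h)).mapHomotopyCategory _).obj
        ((HomotopyCategory.quotient _ _).obj K)))
    (ho : ∀ X, ∃ i, (s i).ob X) (hm : ∀ X Y (f : X ⟶ Y), ∃ i, f ∈ (s i).mor X Y) (n : ℕ)
    (x : Kn n a a.bdd) : ∃ i y, Kmap n (a.subι (s i) (T i) (h1 i)) (Map.bdd_map _) y = x :=
  @Sys.Col.surj _ _ _ _ _ _ _ (fun i => (inferInstance : Tg (a.sub (s i) (T i)).bdd))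
    (inferInstance : Tg a.bdd)
    (cs_col ha hs hb h1 h2 h3 ho hm) n x

/-- A bounded complex in a subcategory that is contractible in the union is contractible at a
later stage. -/
theorem sb_contr {A : Type u} [Category.{v} A] [Preadditive A] {ι : Type*} [Nonempty ι]
    [Preorder ι] [IsDirectedOrder ι] (s : ι → Su A) (hs : ∀ {i j}, i ≤ j → (s i).le (s j))
    (hm : ∀ X Y (f : X ⟶ Y), ∃ i, f ∈ (s i).mor X Y) (i : ι) (K : CochainComplex (s i).Cat ℤ)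
    (hK : {n | ¬ IsZero (K.X n)}.Finite) (h : IsZero (((s i).ι.mapHomotopyCategory _).obj
      ((HomotopyCategory.quotient _ _).obj K))) : ∃ (j : ι) (k : i ≤ j),
      IsZero (((Su.inc (hs k)).mapHomotopyCategory _).obj ((HomotopyCategory.quotient _ _).obj K)) := by
  obtain ⟨j, l, k⟩ := ((cs_htpy hs hm hK (𝟙 K)
    (HomotopyCategory.homotopyOfEq _ _ (h.eq_of_src _ _))).and (eventually_ge_atTop i)).exists
  exact ⟨j, k, (IsZero.iff_id_eq_zero _).2 (((Su.incK (hs k)).map_id _).symm.trans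
    (HomotopyCategory.eq_of_homotopy _ _ (l k).some))⟩

end Am

end Gr

end Pool.Agent.Lib.MP_5d3e93_al
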