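import Pool.Agent.Lib.MP_5d3e93_al.K.Gd
import Pool.Agent.Lib.MP_5d3e93_al.Gr.Str

/-! Stages of a controlled category and of a source with chosen models of the images. -/

open CategoryTheory Limits ZeroObject

namespace Pool.Agent.Lib.MP_5d3e93_al

universe w v u y y' v' u' v'' u''

namespace Gr

section
variable {A : Type u} [Category.{v} A] [Preadditive A] [HasZeroObject A] [HasBinaryBiproducts A]
  {B : Type u'} [Category.{v'} B] [Preadditive B] [HasZeroObject B] [HasBinaryBiproducts B]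

theorem un_genK (j : A ⥤ B) [j.Additive] {K : Kh A} (h : genK ⊤ K) :
    genK ⊤ ((j.mapHomotopyCategory _).obj K) :=
  Cl.le (S := (genK ⊤).inverseImage (j.mapHomotopyCategory (.up ℤ))) (by
    rintro _ ⟨x, -, ⟨e⟩⟩
    exact Cl.iso ((HomotopyCategory.quotient _ _).mapIso
      ((HomologicalComplex.singleMapHomologicalComplex j (.up ℤ) 0).app x).symm ≪≫
        (j.mapHomotopyCategory (.up ℤ)).mapIso e) (Cl.of ⟨_, trivial, ⟨Iso.refl _⟩⟩)) K h

theorem un_fin {K : CochainComplex A ℤ} (h : {n | ¬ IsZero (K.X n)}.Finite) :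
    genK ⊤ ((HomotopyCategory.quotient _ _).obj K) := by
  obtain ⟨p, hp⟩ := h.bddBelow
  obtain ⟨q, hq⟩ := h.bddAbove
  refine Sb.genK ⟨fun _ => trivial, p, q, fun n k => by_contra fun l => ?_⟩
  have := hp l
  have := hq l
  omega

omit [HasZeroObject A] [HasBinaryBiproducts A] [HasZeroObject B] [HasBinaryBiproducts B] in
/-- Isomorphic functors have isomorphic values on complexes. -/
def unIso {j k : A ⥤ B} [j.Additive] [k.Additive] (e : j ≅ k) (K : Kh A) :
    (j.mapHomotopyCategory _).obj K ≅ (k.mapHomotopyCategory _).obj K :=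
  (HomotopyCategory.quotient _ _).mapIso ((NatIso.mapHomologicalComplex e _).app K.as)

end

end Gr

open Gr

namespace GC

open Lo

variable {G : Type w} [Group G] {C : Type u} [Category.{v} C] [Preadditive C] [HasZeroObject C]
variable {S : GC G C} {m : ℕ}
variable {ι : Type*} [Nonempty ι] [Preorder ι] [IsDirectedOrder ι]

omit [HasZeroObject C] in
/-- A morphism has finitely many components. -/
theorem Lo.Rg.union {X X' : Type*} {A B : C} {L : S.Lo X A} {M : S.Lo X' B}
    {R : X → G → X' → Prop} {f : A ⟶ B} (h : L.Rg M R f) (R' : ι → X → G → X' → Prop)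
    (k1 : ∀ i j, i ≤ j → ∀ a g b, R' i a g b → R' j a g b)
    (k3 : ∀ a g b, R a g b → ∃ i, R' i a g b) : ∃ i, L.Rg M (R' i) f := by
  let T : Set (X × X' × G) := {t | S.cp t.2.2 (L.e t.1 ≫ f ≫ M.e t.2.1) ≠ 0}
  have hT : T.Finite := by
    refine (L.s.finite_toSet.biUnion fun a _ => M.s.finite_toSet.biUnion fun b _ =>
      (S.fin (L.e a ≫ f ≫ M.e b)).image fun g => (a, b, g)).subset ?_
    rintro ⟨a, b, g⟩ k
    simp only [Set.mem_iUnion]
    exact ⟨a, by_contra fun l => k (by simp [L.out a l]), b,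
      by_contra fun l => k (by simp [M.out b l]), g, k, rfl⟩
  have := hT.to_subtype
  choose c hc using fun t : T => k3 t.1.1 t.1.2.2 t.1.2.1 (by_contra fun l => t.2 (h _ _ _ l))
  obtain ⟨i, hi⟩ := Finite.exists_le c
  exact ⟨i, fun a b g l => by_contra fun k =>
    l (k1 _ _ (hi ⟨(a, b, g), k⟩) _ _ _ (hc ⟨(a, b, g), k⟩))⟩

section
variable {Z : Type y} (S) (P Q : Rl G Z)

/-- The objects and morphisms of type `Q`. -/
def unSu : Su (S.LQ P) where
  ob M := M.L.Rg M.L Q.r M.p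
  mor M N :=
    { carrier := {f | M.L.Rg N.L Q.r f.1}
      add_mem' := Rg.add
      zero_mem' := Rg.zero
      neg_mem' := Rg.neg }
  id _ h := h
  comp h k := Rg.comp h k fun _ _ _ _ _ => Q.trans
  zero := ⟨0, isZero_zero _, by rw [LQ.isZero_iff.1 (isZero_zero _)]; exact .zero⟩
  sum M N h k := ⟨M.bicone N, (LQ.sum (P := Q) ⟨_, _, _, M.idem, h⟩ ⟨_, _, _, N.idem, k⟩).rg,
    rg_fst.dg_comp h, rg_snd.dg_comp k, h.comp_dg rg_inl, k.comp_dg rg_inr, M.bicone_total N⟩

/-- The subcategory as a controlled category. -/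
def unTo : (S.unSu P Q).Cat ⥤ S.LQ Q where
  obj M := ⟨M.X.A, M.X.L, M.X.p, M.X.idem, M.ob⟩
  map f := LQ.homMk f.1.1 (LQ.p_comp f.1) (LQ.comp_p f.1) f.2

instance : (S.unTo P Q).Additive where

variable {S P Q}

theorem unTo_eqv (h : ∀ a g b, Q.r a g b → P.r a g b) : (S.unTo P Q).IsEquivalence where
  faithful := ⟨fun k => Subtype.ext (LQ.hom_ext (congrArg (·.1) k))⟩
  full := ⟨fun f => ⟨⟨LQ.homMk f.1 (LQ.p_comp f) (LQ.comp_p f) ((LQ.hom_rg f).mono h),
    LQ.hom_rg f⟩, rfl⟩⟩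
  essSurj := ⟨fun M => ⟨⟨(LQ.inc S h).obj M, M.rg⟩, ⟨Iso.refl _⟩⟩⟩

theorem unSu_le {Q' : Rl G Z} (h : ∀ a g b, Q.r a g b → Q'.r a g b) :
    (S.unSu P Q).le (S.unSu P Q') := ⟨fun _ k => Rg.mono k h, fun _ _ _ k => Rg.mono k h⟩

end

section
variable {Y : Type w} {P : Rl G Y} {X : Am.{v, max u w}} {F : Fn X (S.LQ P)}
  (x : S.und F ⟶ S.und F) (B : Y → G → Y → Prop)

/-- The components of an endomorphism of the underlying functor. -/
def unA (A : X.A) : (F.F.obj A).A ⟶ (F.F.obj A).A := (NatTrans.app x A).1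

@[reassoc] theorem unA_nat {A A' : X.A} (f : A ⟶ A') :
    (F.F.map f).1 ≫ unA x A' = unA x A ≫ (F.F.map f).1 :=
  congrArg (·.1) (NatTrans.naturality x f)

@[reassoc (attr := simp)] theorem p_unA (A : X.A) : (F.F.obj A).p ≫ unA x A = unA x A :=
  LQ.p_comp (NatTrans.app x A)

@[reassoc (attr := simp)] theorem unA_p (A : X.A) : unA x A ≫ (F.F.obj A).p = unA x A :=
  LQ.comp_p (NatTrans.app x A)

/-- Objects of the source with a model of their image on which the endomorphism has type `B`. -/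
structure Up where
  A : X.A
  M : S.LQ P
  e : F.F.obj A ≅ M
  ty : M.L.Rg M.L B (e.inv.1 ≫ unA x A ≫ e.hom.1)

namespace Up

instance : Category.{v} (Up x B) where
  Hom s t := s.A ⟶ t.A
  id s := 𝟙 s.A
  comp f g := f ≫ g

instance : Preadditive (Up x B) where
  homGroup s t := inferInstanceAs (AddCommGroup (s.A ⟶ t.A))
  add_comp s t r := Preadditive.add_comp s.A t.A r.A
  comp_add s t r := Preadditive.comp_add s.A t.A r.A

/-- The object of the source. -/
def pr : Up x B ⥤ X.A where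
  obj s := s.A
  map f := f

instance : (pr x B).Additive where

variable {x B} in
/-- The model of the image of a morphism. -/
def mm (s t : Up x B) (f : s.A ⟶ t.A) : s.M ⟶ t.M := s.e.inv ≫ F.F.map f ≫ t.e.hom

/-- The model of the image. -/
def md : Up x B ⥤ S.LQ P where
  obj s := s.M
  map {s t} f := mm s t f
  map_id s := show mm s s (𝟙 s.A) = _ by simp [mm]
  map_comp {s t r} := show ∀ (f : s.A ⟶ t.A) (g : t.A ⟶ r.A), mm s r (f ≫ g) = mm s t f ≫ mm t r g
    from fun _ _ => by simp [mm]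

instance : (md x B).Additive := ⟨fun {s t} => show ∀ {f g : s.A ⟶ t.A},
  mm s t (f + g) = mm s t f + mm s t g from by simp [mm]⟩

/-- The model is isomorphic to the image. -/
def mdIso : pr x B ⋙ F.F ≅ md x B := NatIso.ofComponents (fun s => s.e) fun {s _} _ =>
  (s.e.hom_inv_id_assoc _).symm

variable {x B}

/-- The endomorphism on the model. -/
def xm (s : Up x B) : s.M.A ⟶ s.M.A := s.e.inv.1 ≫ unA x s.A ≫ s.e.hom.1

@[reassoc (attr := simp)] theorem p_xm (s : Up x B) : s.M.p ≫ s.xm = s.xm := by simp [xm]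

@[reassoc (attr := simp)] theorem xm_p (s : Up x B) : s.xm ≫ s.M.p = s.xm := by simp [xm]

@[reassoc] theorem e_xm (s : Up x B) : s.e.hom.1 ≫ s.xm = unA x s.A ≫ s.e.hom.1 := by
  rw [xm, ← Category.assoc, ← LQ.comp_f, s.e.hom_inv_id, LQ.id_f, p_unA_assoc]

@[reassoc] theorem xm_nat {s t : Up x B} (f : s ⟶ t) :
    ((md x B).map f).1 ≫ t.xm = s.xm ≫ ((md x B).map f).1 := by
  change (s.e.inv.1 ≫ (F.F.map (X := s.A) (Y := t.A) f).1 ≫ t.e.hom.1) ≫ _ =
    _ ≫ s.e.inv.1 ≫ (F.F.map (X := s.A) (Y := t.A) f).1 ≫ t.e.hom.1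
  have : s.e.hom.1 ≫ s.e.inv.1 = (F.F.obj s.A).p := congrArg (·.1) s.e.hom_inv_id
  simp only [Category.assoc, e_xm, unA_nat_assoc]
  simp [xm, reassoc_of% this]

/-- The image of a direct sum. -/
noncomputable def sumIso (s t : Up x B) : F.F.obj (s.A ⊞ t.A) ≅ (s.M.bicone t.M).pt where
  hom := F.F.map biprod.fst ≫ s.e.hom ≫ (s.M.bicone t.M).inl +
    F.F.map biprod.snd ≫ t.e.hom ≫ (s.M.bicone t.M).inr
  inv := (s.M.bicone t.M).fst ≫ s.e.inv ≫ F.F.map biprod.inl +
    (s.M.bicone t.M).snd ≫ t.e.inv ≫ F.F.map biprod.inr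
  hom_inv_id := by
    have := congrArg F.F.map (biprod.total (X := s.A) (Y := t.A))
    rw [F.F.map_add, F.F.map_comp, F.F.map_comp, F.F.map_id] at this
    simpa using this
  inv_hom_id := by simpa [← F.F.map_comp_assoc] using s.M.bicone_total t.M

theorem inl_sum (s t : Up x B) : F.F.map biprod.inl ≫ (sumIso s t).hom =
    s.e.hom ≫ (s.M.bicone t.M).inl := by simp [sumIso, ← F.F.map_comp_assoc]

theorem inr_sum (s t : Up x B) : F.F.map biprod.inr ≫ (sumIso s t).hom =
    t.e.hom ≫ (s.M.bicone t.M).inr := by simp [sumIso, ← F.F.map_comp_assoc]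

theorem sum_rg (s t : Up x B) {B' : Y → G → Y → Prop} (h : s.M.L.Rg s.M.L B' s.xm)
    (k : t.M.L.Rg t.M.L B' t.xm) : (s.M.L.add t.M.L).Rg (s.M.L.add t.M.L) B'
      ((sumIso s t).inv.1 ≫ unA x (s.A ⊞ t.A) ≫ (sumIso s t).hom.1) := by
  have key (c : (F.F.obj (s.A ⊞ t.A)).A ⟶ S.sum s.M.A t.M.A)
      (a : (F.F.map biprod.inl).1 ≫ c = s.e.hom.1 ≫ s.M.p ≫ S.inl _ _)
      (b : (F.F.map biprod.inr).1 ≫ c = t.e.hom.1 ≫ t.M.p ≫ S.inr _ _) :
      ((S.fst _ _ ≫ s.M.p) ≫ s.e.inv.1 ≫ (F.F.map biprod.inl).1 +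
        (S.snd _ _ ≫ t.M.p) ≫ t.e.inv.1 ≫ (F.F.map biprod.inr).1) ≫ unA x (s.A ⊞ t.A) ≫ c =
      S.fst _ _ ≫ s.xm ≫ S.inl _ _ + S.snd _ _ ≫ t.xm ≫ S.inr _ _ := by
    rw [Preadditive.add_comp]
    simp only [Category.assoc, unA_nat_assoc, a, b]
    simp [xm]
  exact (congrArg (Rg _ _ B') (key _ (congrArg (·.1) (inl_sum s t))
    (congrArg (·.1) (inr_sum s t)))).mpr
      ((rg_fst.dg_comp (h.comp_dg rg_inl)).add (rg_snd.dg_comp (k.comp_dg rg_inr)))

/-- The direct sum. -/
noncomputable def bic (s t : Up x B) : BinaryBicone s t where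
  pt := ⟨s.A ⊞ t.A, (s.M.bicone t.M).pt, sumIso s t, sum_rg s t s.ty t.ty⟩
  fst := biprod.fst (X := s.A)
  snd := biprod.snd (X := s.A)
  inl := biprod.inl (X := s.A)
  inr := biprod.inr (X := s.A)
  inl_fst := biprod.inl_fst
  inl_snd := biprod.inl_snd
  inr_fst := biprod.inr_fst
  inr_snd := biprod.inr_snd

instance : HasBinaryBiproducts (Up x B) :=
  ⟨fun s t => hasBinaryBiproduct_of_total (bic s t) biprod.total⟩

theorem p_zero {s : Up x B} (h : IsZero s) : s.M.p = 0 :=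
  LQ.isZero_iff.1 ((md x B).map_isZero h)

instance : HasZeroObject (Up x B) := ⟨⟨⟨0, _, Iso.refl _, by
  rw [Iso.refl_inv, LQ.id_f, LQ.isZero_iff.1 (F.F.map_isZero (isZero_zero _)), zero_comp]
  exact .zero⟩, (IsZero.iff_id_eq_zero _).2 ((isZero_zero X.A).eq_of_src _ _)⟩⟩

variable (x B)

/-- The source of models. -/
abbrev src : Am.{v, max u w} := ⟨Up x B, X.T.inverseImage ((pr x B).mapHomotopyCategory _)⟩

/-- The projection of sources. -/
def prm : Am.Map (src x B) X where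
  F := pr x B
  add := inferInstanceAs (pr x B).Additive
  hT _ h := X.le_Tb _ h

variable {x B}

theorem pr_eqv (h : S.Ty F B x) : (pr x B).IsEquivalence where
  faithful := ⟨id⟩
  full := ⟨fun f => ⟨f, rfl⟩⟩
  essSurj := ⟨fun A => ⟨⟨A, _, Iso.refl _, by
    rw [Iso.refl_inv, Iso.refl_hom, LQ.id_f, unA_p, p_unA]
    exact h A⟩, ⟨Iso.refl _⟩⟩⟩

theorem src_gs (h : S.Ty F B x) (hX : X.Gs) : (src x B).Gs := fun K k => by
  have := pr_eqv h
  have : (pr x B).asEquivalence.functor.Additive := inferInstanceAs (pr x B).Additive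
  exact Cl.iso (unIso (j := 𝟭 (Up x B)) (k := pr x B ⋙ (pr x B).asEquivalence.inverse)
    (pr x B).asEquivalence.unitIso K).symm (un_genK (pr x B).asEquivalence.inverse (hX _ k))

variable (x B) (Q : Rl G Y) (B' : Y → G → Y → Prop)

/-- The models of type `Q` on which the endomorphism has type `B'`. -/
noncomputable def st : Su (Up x B) where
  ob s := (S.unSu P Q).ob s.M ∧ s.M.L.Rg s.M.L B' s.xm
  mor s t := ((S.unSu P Q).mor s.M t.M).comap (md x B).mapAddHom
  id s h := by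
    change (md x B).map (𝟙 s) ∈ (S.unSu P Q).mor s.M s.M
    rw [(md x B).map_id]
    exact h.1
  comp {s t r f g} h k := by
    change (md x B).map (f ≫ g) ∈ (S.unSu P Q).mor s.M r.M
    rw [(md x B).map_comp]
    exact (S.unSu P Q).comp h k
  zero := ⟨0, isZero_zero _, by
    change Rg _ _ _ _
    rw [p_zero (isZero_zero _)]
    exact .zero, by
    rw [← p_xm, p_zero (isZero_zero _), zero_comp]
    exact .zero⟩
  sum s t h k := by
    have a : (md x B).map (bic s t).fst = (s.M.bicone t.M).fst := by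
      change (sumIso s t).inv ≫ F.F.map biprod.fst ≫ s.e.hom = _
      simp [sumIso, ← F.F.map_comp_assoc]
    have b : (md x B).map (bic s t).snd = (s.M.bicone t.M).snd := by
      change (sumIso s t).inv ≫ F.F.map biprod.snd ≫ t.e.hom = _
      simp [sumIso, ← F.F.map_comp_assoc]
    have c : (md x B).map (bic s t).inl = (s.M.bicone t.M).inl :=
      (Iso.inv_comp_eq _).2 (inl_sum s t)
    have d : (md x B).map (bic s t).inr = (s.M.bicone t.M).inr :=
      (Iso.inv_comp_eq _).2 (inr_sum s t)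
    refine ⟨bic s t, ⟨(LQ.sum (P := Q) ⟨_, _, _, s.M.idem, h.1⟩ ⟨_, _, _, t.M.idem, k.1⟩).rg,
      sum_rg s t h.2 k.2⟩, ?_, ?_, ?_, ?_, biprod.total⟩
    · exact (congrArg (· ∈ (S.unSu P Q).mor _ _) a).mpr (rg_fst.dg_comp h.1)
    · exact (congrArg (· ∈ (S.unSu P Q).mor _ _) b).mpr (rg_snd.dg_comp k.1)
    · exact (congrArg (· ∈ (S.unSu P Q).mor _ _) c).mpr (Rg.comp_dg h.1 rg_inl)
    · exact (congrArg (· ∈ (S.unSu P Q).mor _ _) d).mpr (Rg.comp_dg k.1 rg_inr)

/-- The model as a functor of stages. -/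
def stF : (st x B Q B').Cat ⥤ (S.unSu P Q).Cat where
  obj s := ⟨s.X.M, s.ob.1⟩
  map f := ⟨(md x B).map f.1, f.2⟩
  map_id _ := Subtype.ext ((md x B).map_id _)
  map_comp _ _ := Subtype.ext ((md x B).map_comp _ _)

instance : (stF x B Q B').Additive := ⟨Subtype.ext (md x B).map_add⟩

/-- The trivial complexes of a stage. -/
def stT : ObjectProperty (Kh (st x B Q B').Cat) :=
  genK ⊤ ⊓ (X.T.inverseImage (((st x B Q B').ι ⋙ pr x B).mapHomotopyCategory _) ⊓
    Zr.inverseImage ((stF x B Q B').mapHomotopyCategory _))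

instance : Tg (stT x B Q B') := inferInstanceAs (Tg (_ ⊓ _))

/-- The source of a stage. -/
noncomputable def stX : Am.{v, max u w} := (src x B).sub (st x B Q B') (stT x B Q B')

/-- The map of a stage to the source. -/
noncomputable def stm : Am.Map (stX x B Q B') X :=
  ((src x B).subι (st x B Q B') (stT x B Q B') fun _ h => h.2.1).comp (prm x B)

/-- The functor of a stage. -/
noncomputable def stG : Fn (stX x B Q B') (S.LQ Q) :=
  Fn.mk'.{v, max u w, v, max u w} (stF x B Q B' ⋙ S.unTo P Q)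
    (k := inferInstanceAs (stF x B Q B' ⋙ S.unTo P Q).Additive) fun _ h =>
      ((S.unTo P Q).mapHomotopyCategory _).map_isZero h.2.2

/-- The endomorphism of a stage. -/
noncomputable def stx : S.und (stG x B Q B') ⟶ S.und (stG x B Q B') where
  app s := LQ.homMk s.X.xm (p_xm s.X) (xm_p s.X) fun _ _ _ h => (h trivial).elim
  naturality _ _ f := LQ.hom_ext (xm_nat f.1)

/-- The comparison of the underlying functors. -/
noncomputable def stE : (S.und F).pre (stm x B Q B') ≅ S.und (stG x B Q B') :=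
  let e := Functor.isoWhiskerRight (Functor.isoWhiskerLeft (st x B Q B').ι (mdIso x B)) (LQ.U S P)
  ⟨e.hom, e.inv, e.hom_inv_id, e.inv_hom_id⟩

/-- The restricted endomorphism. -/
noncomputable def stw (t : S.und F ⟶ S.und F) :
    (S.und F).pre (stm x B Q B') ⟶ (S.und F).pre (stm x B Q B') :=
  Functor.whiskerLeft (stm x B Q B').F t

theorem stE_x : (stE x B Q B').hom ≫ stx x B Q B' = stw x B Q B' x ≫ (stE x B Q B').hom :=
  NatTrans.ext (funext fun s => LQ.hom_ext (e_xm s.X))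

theorem stE_pw (n : ℕ) : (stE x B Q B').hom ≫ pw (stx x B Q B') n =
    stw x B Q B' (pw x n) ≫ (stE x B Q B').hom := by
  induction n with
  | zero => exact (Category.comp_id _).trans (Category.id_comp _).symm
  | succ n ih =>
    rw [pw_succ, ← Category.assoc, stE_x, Category.assoc, ih, ← Category.assoc]
    rfl

end Up

end

end GC

end Pool.Agent.Lib.MP_5d3e93_al
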