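import Pool.Agent.Lib.MP_5d3e93_al.K.Tr
import Pool.Agent.Lib.MP_5d3e93_al.K.Ad
import Pool.Agent.Lib.MP_5d3e93_al.K.Col
import Pool.Agent.Lib.MP_5d3e93_al.K.UniA

/-! Directed unions of control relations. -/

open CategoryTheory Limits ZeroObject

namespace Pool.Agent.Lib.MP_5d3e93_al

universe w v u y y' v' u' v'' u''

open Gr

namespace GC

open Lo

variable {G : Type w} [Group G] {C : Type u} [Category.{v} C] [Preadditive C] [HasZeroObject C]
variable {S : GC G C} {m : ℕ}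
variable {ι : Type*} [Nonempty ι] [Preorder ι] [IsDirectedOrder ι]

theorem zq_union {Z : Type y} {P : Rl G Z} (Q : ι → Rl G Z)
    (h1 : ∀ i j, i ≤ j → ∀ a g b, (Q i).r a g b → (Q j).r a g b)
    (h2 : ∀ i a g b, (Q i).r a g b → P.r a g b) (h3 : ∀ a g b, P.r a g b → ∃ i, (Q i).r a g b)
    (z : ∀ i, S.Zq (Q i)) : S.Zq P := fun n => subsingleton_of_forall_eq 0 fun x => by
  have hm : ∀ (M N : S.LQ P) (f : M ⟶ N), ∃ i, f ∈ (S.unSu P (Q i)).mor M N := fun M N f =>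
    (LQ.hom_rg f).union (fun i => (Q i).r) h1 h3
  obtain ⟨i, y, rfl⟩ := Am.sb_surj (S.am P) Am.of_gs (fun i => S.unSu P (Q i))
    (fun {i j} h => unSu_le (h1 i j h)) (fun _ => Zr) (fun _ _ k => Tg.zero _ k)
    (fun i _ k => ((S.unSu P (Q i)).ι.mapHomotopyCategory _).map_isZero k)
    (fun i j h _ k => ((Su.inc (unSu_le (h1 i j h))).mapHomotopyCategory _).map_isZero k)
    (fun i K a b => Am.sb_contr (fun i => S.unSu P (Q i)) (fun {i j} h => unSu_le (h1 i j h))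
      hm i K a b) (fun M => hm M M (𝟙 M)) hm n x
  have := unTo_eqv (S := S) (h2 i)
  rw [((Am.Z_equiv.{v, max u y, v, max u y} (S.unTo P (Q i))).2 (z i) n).elim y 0]
  exact map_zero _

theorem Up.st_tr {Y : Type w} {P : Rl G Y} {X : Am.{v, max u w}} {F : Fn X (S.LQ P)}
    (x : S.und F ⟶ S.und F) (B : Y → G → Y → Prop) (Q : Rl G Y) (B' : Y → G → Y → Prop)
    (z : S.Gm Q B' m) (h : pw x m = 0) :
    Fn.Tr.{v, max u w, v, u} (stw x B Q B' (𝟙 _ - x)) := by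
  refine Fn.Tr.conj (stE x B Q B') ?_ (z (stX x B Q B') (fun _ k => k.1) (stG x B Q B')
    (stx x B Q B') (fun s => s.ob.2) ?_)
  · rw [Preadditive.comp_sub, stE_x, Category.comp_id,
      show stw x B Q B' (𝟙 _ - x) = 𝟙 _ - stw x B Q B' x from rfl, Preadditive.sub_comp,
      Category.id_comp]
  · rw [← cancel_epi (stE x B Q B').hom, stE_pw, h, comp_zero]
    exact zero_comp

theorem gm_union {Y : Type w} {P : Rl G Y} {B : Y → G → Y → Prop} (Q : ι → Rl G Y)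
    (B' : ι → Y → G → Y → Prop) (h1 : ∀ i j, i ≤ j → ∀ a g b, (Q i).r a g b → (Q j).r a g b)
    (h2 : ∀ i a g b, (Q i).r a g b → P.r a g b) (h3 : ∀ a g b, P.r a g b → ∃ i, (Q i).r a g b)
    (k1 : ∀ i j, i ≤ j → ∀ a g b, B' i a g b → B' j a g b)
    (k3 : ∀ a g b, B a g b → ∃ i, B' i a g b) (z : ∀ i, S.Gm (Q i) (B' i) m) : S.Gm P B m := by
  intro X hX F x hx hp
  have _ := h2
  have := Fn.isIso_unip hp
  have e : (Up.prm x B).F.IsEquivalence := Up.pr_eqv hx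
  have hm : ∀ (M N : S.LQ P) (f : M ⟶ N), ∃ i, f ∈ (S.unSu P (Q i)).mor M N := fun M N f =>
    (LQ.hom_rg f).union (fun i => (Q i).r) h1 h3
  have hs : ∀ {i j}, i ≤ j → (Up.st x B (Q i) (B' i)).le (Up.st x B (Q j) (B' j)) :=
    fun {i j} h => ⟨fun _ k => ⟨Rg.mono k.1 (h1 i j h), k.2.mono (k1 i j h)⟩,
      fun _ _ _ k => Rg.mono k (h1 i j h)⟩
  refine Fn.tr_of_surj (fun i => Up.stX x B (Q i) (B' i)) (fun i => Up.stm x B (Q i) (B' i))
    (fun n c => ?_) _ fun i => Up.st_tr x B (Q i) (B' i) (z i) hp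
  obtain ⟨c, rfl⟩ := Am.surj_equiv (Up.prm x B) (fun _ k => k) n c
  obtain ⟨i, c, rfl⟩ := Am.sb_surj (Up.src x B) (Up.src_gs hx hX)
    (fun i => Up.st x B (Q i) (B' i)) hs (fun i => Up.stT x B (Q i) (B' i)) (fun _ _ k => k.1)
    (fun _ _ k => k.2.1) (fun i j h K k => ⟨un_genK _ k.1, k.2.1,
      ((Su.inc (unSu_le (h1 i j h))).mapHomotopyCategory _).map_isZero k.2.2⟩)
    (fun i K a b => by
      obtain ⟨j, h, k⟩ := Am.sb_contr (fun i => S.unSu P (Q i))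
        (fun {i j} h => unSu_le (h1 i j h)) hm i
        (((Up.stF x B (Q i) (B' i)).mapHomologicalComplex _).obj K)
        (a.subset fun n k l => k ((Up.stF x B (Q i) (B' i)).map_isZero l))
        ((F.hT _ (X.le_Tb _ b)).of_iso (unIso (Up.mdIso x B)
          (((Up.st x B (Q i) (B' i)).ι.mapHomotopyCategory _).obj
            ((HomotopyCategory.quotient _ _).obj K))).symm)
      exact ⟨j, h, un_genK _ (un_fin a), b, k⟩)
    (fun s => by
      obtain ⟨i, a⟩ := hm s.M s.M (𝟙 _)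
      obtain ⟨j, b⟩ := s.ty.union B' k1 k3
      obtain ⟨l, c, d⟩ := exists_ge_ge i j
      exact ⟨l, Rg.mono a (h1 i l c), Rg.mono b (k1 j l d)⟩)
    (fun s t f => hm s.M t.M ((Up.md x B).map f)) n c
  exact ⟨i, c, Am.Kmap_comp n _ _ _ _ _ c⟩

end GC

end Pool.Agent.Lib.MP_5d3e93_al
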