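import Pool.Agent.Lib.MP_5d3e93_al.K.All

/-! Linear representations over classes of admissible groups. -/

open CategoryTheory Limits

namespace Pool.Agent.Lib.MP_5d3e93_al

universe w v u

/-- Classes of groups over `G` with a subgroup, closed under pull back and hyper extension. -/
structure Adm (G : Type w) [Group G] where
  a : ∀ {H : Type w} [Group H], (H →* G) → Subgroup H → Prop
  pull : ∀ {H H' : Type w} [Group H] [Group H'] {j : H →* G} {N : Subgroup H} (i : H' →* H)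
    {N' : Subgroup H'}, Hyper i.ker → N' ≤ N.comap i → a j N → a (j.comp i) N'
  ext0 : ∀ {H L : Type w} [Group H] [Group L] {j : H →* G} {N N' : Subgroup H} (f : H →* L),
    N' ⊓ f.ker ≤ N → Hyper (N'.map f) → a j N → a j N'

theorem hyper_ker {H H' : Type w} [Group H] [Group H'] {i : H' →* H} (h : Function.Injective i) :
    Hyper i.ker := hyper_comm fun x y => Subtype.ext (h ((x * y).2.trans (y * x).2.symm))

theorem hyper_fst {H : Type w} [Group H] : Hyper (MonoidHom.fst H (Multiplicative ℤ)).ker :=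
  hyper_comm fun x y => Subtype.ext (Prod.ext
    ((congrArg₂ (· * ·) x.2 y.2).trans (congrArg₂ (· * ·) y.2 x.2).symm) (mul_comm _ _))

theorem hyper_smap {H H' : Type w} [Group H] [Group H'] {i : H' →* H} (h : Hyper i.ker)
    (V : Subgroup H') : Hyper (i.subgroupMap V).ker :=
  rg_comap V.subtype_injective h fun _ k => Subtype.mk.inj k

namespace Adm

variable {G : Type w} [Group G] (A : Adm G) (𝓕 : Fam G)

theorem ext {H : Type w} {L : Type*} [Group H] [Group L] {j : H →* G} {N N' : Subgroup H}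
    (f : H →* L) (a : N' ⊓ f.ker ≤ N) (b : Hyper (N'.map f)) (h : A.a j N) : A.a j N' :=
  A.ext0 (QuotientGroup.mk' f.ker) (by rwa [QuotientGroup.ker_mk']) (b.inj
    (((QuotientGroup.kerLift f).comp (Subgroup.subtype _)).codRestrict _ (by
      rintro ⟨_, x, c, rfl⟩
      exact ⟨x, c, rfl⟩)) fun _ _ e => Subtype.ext (QuotientGroup.kerLift_injective f
        (Subtype.mk.inj e))) h

/-- The vanishing for all admissible groups over `L`. -/
def Gd (L : Type w) [Group L] : Prop := ∀ (H : Type w) [Group H] (j : H →* G) (ψ : H →* L),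
  A.a j ψ.ker → ∀ (C : Type (max u v w)) [Category.{v} C] [Preadditive C] [HasBinaryBiproducts C]
    [HasZeroObject C] (σ : Act H C), Sw σ → SwF (𝓕.comap j) σ → KZ σ

variable {A 𝓕}

theorem Gd.pull {L L' : Type w} [Group L] [Group L'] (f : L' →* L) (a : Hyper f.ker)
    (h : Gd.{w, v, u} A 𝓕 L) : Gd.{w, v, u} A 𝓕 L' :=
  fun H _ j ψ b => h H j (f.comp ψ) (A.ext ψ inf_le_right (a.le (by
    rintro _ ⟨x, c, rfl⟩
    exact c)) b)

variable (A) (k : Type) [Field k] {L Γ : Type w} [Group L] [Group Γ] (j : Γ →* G) (χ : Γ →* L)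

/-- Subgroups that are admissible over a linear group over `k` and `L`. -/
def Rk (V : Subgroup Γ) : Prop := ∃ (m : ℕ) (q : V →* GL (Fin m) k) (c : G),
  A.a (((MulAut.conj c).toMonoidHom.comp j).comp V.subtype) (q.ker ⊓ (χ.comp V.subtype).ker)

variable {A k j χ}

theorem Rk.comap {Γ' : Type w} [Group Γ'] {i : Γ' →* Γ} (hi : Hyper i.ker) {V : Subgroup Γ'}
    (h : A.Rk k j χ (V.map i)) : A.Rk k (j.comp i) (χ.comp i) V := by
  obtain ⟨m, q, c, h⟩ := h
  exact ⟨m, q.comp (i.subgroupMap V), c, A.pull (i.subgroupMap V) (hyper_smap hi V)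
    (fun _ e => e) h⟩

variable (A k j χ) in
/-- The family of these subgroups. -/
def fam : Fam Γ where
  m := A.Rk k j χ
  le := fun {V W} e ⟨m, q, c, h⟩ => ⟨m, q.comp (Subgroup.inclusion e), c,
    A.pull (Subgroup.inclusion e) (hyper_ker (Subgroup.inclusion_injective e)) (fun _ e => e) h⟩
  conj := fun {V} g ⟨m, q, c, h⟩ => by
    let i : V.map (MulAut.conj g).toMonoidHom →* V :=
      (V.equivMapOfInjective _ (MulAut.conj g).injective).symm.toMonoidHom
    have e (x) : (i x : Γ) = g⁻¹ * x * g := by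
      obtain ⟨_, x, a, rfl⟩ := x
      have := (V.equivMapOfInjective (MulAut.conj g).toMonoidHom
        (MulAut.conj g).injective).symm_apply_apply ⟨x, a⟩
      exact (congrArg Subtype.val this).trans (by simp [mul_assoc])
    have o : ((MulAut.conj (c * (j g)⁻¹)).toMonoidHom.comp j).comp (Subgroup.subtype _) =
        (((MulAut.conj c).toMonoidHom.comp j).comp V.subtype).comp i := MonoidHom.ext fun x => by
      change c * (j g)⁻¹ * j x * (c * (j g)⁻¹)⁻¹ = c * j (i x) * c⁻¹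
      rw [e]
      simp [mul_assoc]
    refine ⟨m, q.comp i, c * (j g)⁻¹, o ▸ A.pull i (hyper_ker (MulEquiv.injective _))
      (fun x a => ?_) h⟩
    have : χ x = 1 := a.2
    exact ⟨a.1, show χ (i x) = 1 by rw [e]; simp [this]⟩

theorem swF_conj {C : Type u} [Category.{v} C] [Preadditive C] {σ : Act Γ C}
    (h : SwF (𝓕.comap j) σ) (c : G) : SwF (𝓕.comap ((MulAut.conj c).toMonoidHom.comp j)) σ :=
  fun V a => h V (𝓕.le (by
    rintro _ ⟨x, b, rfl⟩
    exact ⟨_, ⟨x, b, rfl⟩, by simp [mul_assoc]⟩) (𝓕.conj c⁻¹ a))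

theorem okf (hL : Gd.{w, v, u} A 𝓕 L) (gl : GlK.{w, v, u} k) {C : Type (max u v w)}
    [Category.{v} C] [Preadditive C] [HasBinaryBiproducts C] [HasZeroObject C] {σ : Act Γ C}
    (hs : Sw σ) (hf : SwF (𝓕.comap j) σ) : Okf.{w, v, u} (A.fam k j χ) σ :=
  ⟨{ k := fun {Γ} _ _ _ _ _ _ 𝓖 σ => ∃ (j : Γ →* G) (χ : Γ →* L), Sw σ ∧ SwF (𝓕.comap j) σ ∧
        ∀ V, 𝓖.m V → A.Rk k j χ V
     sub := fun ⟨j, χ, a, b, c⟩ _ _ i hi => ⟨j.comp i, χ.comp i, a.comap i,
       𝓕.comap_comp j i ▸ b.comap i, fun _ d => (c _ d).comap (hyper_ker hi)⟩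
     fst := fun {Γ} _ _ _ _ _ _ _ _ ⟨j, χ, a, b, c⟩ => ⟨j.comp (.fst ..), χ.comp (.fst ..),
       a.comap _, 𝓕.comap_comp j (.fst Γ (Multiplicative ℤ)) ▸ b.comap _,
       fun _ d => (c _ d).comap hyper_fst⟩
     act := fun ⟨j, χ, a, b, c⟩ _ _ _ _ hm => ⟨j, χ, a.act hm, b.act hm, c⟩
     kz := fun {Γ} _ D _ _ _ _ _ τ ⟨j, χ, a, b, c⟩ d => by
       obtain ⟨m, q, g, e⟩ := c _ d
       let t : Γ →* (⊤ : Subgroup Γ) := Subgroup.topEquiv.symm.toMonoidHom
       refine gl D m Γ τ a (q.comp t) fun Δ _ i hi f => hL Δ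
         (((MulAut.conj g).toMonoidHom.comp j).comp i) (χ.comp i) ?_ D _ (a.comap i)
         (𝓕.comap_comp _ i ▸ (swF_conj b g).comap i)
       exact A.ext ((q.comp t).comp i) le_rfl (f.le (Subgroup.map_le_range _ _))
         (A.pull (t.comp i) (hyper_ker fun _ _ o => hi (Subtype.mk.inj o))
           (fun _ o => by exact ⟨o.2, o.1⟩) e) }, j, χ, hs, hf, fun _ => id⟩

theorem pair {R : Type*} [Ring R] [Algebra k R] (φ : Γ →* Rˣ) (hφ : A.a j (φ.ker ⊓ χ.ker))
    (N : Subgroup Γ)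
    (hf : Module.Finite k (Submodule.span k ((fun g => (φ g : R)) '' N))) (t : Γ)
    (ht : t ∈ Subgroup.normalizer (N : Set Γ)) : A.Rk k j χ (N ⊔ Subgroup.zpowers t) := by
  let V := N ⊔ Subgroup.zpowers t
  let t' : V := ⟨t, Subgroup.mem_sup_right (Subgroup.mem_zpowers t)⟩
  have e : (fun g => ((φ.comp V.subtype) g : R)) '' (N.subgroupOf V) =
      (fun g => (φ g : R)) '' N := Set.ext fun _ => ⟨fun ⟨g, a, b⟩ => ⟨g, a, b⟩,
        fun ⟨g, a, b⟩ => ⟨⟨g, Subgroup.mem_sup_left a⟩, a, b⟩⟩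
  obtain ⟨m, q, c⟩ := ex_aut (k := k) (φ.comp V.subtype) (N.subgroupOf V) t' (by
    refine Subgroup.map_injective V.subtype_injective (le_antisymm (Subgroup.map_mono le_top) ?_)
    refine (Subgroup.map_subtype_le _).trans (sup_le (fun g a => ?_) (Subgroup.zpowers_le.2 ?_))
    · exact ⟨⟨g, Subgroup.mem_sup_left a⟩, Subgroup.subset_closure (.inr a), rfl⟩
    · exact ⟨t', Subgroup.subset_closure (.inl rfl), rfl⟩) (e ▸ hf) fun g a =>
      Submodule.subset_span ⟨t' * g * t'⁻¹, (Subgroup.mem_normalizer_iff.1 ht g).1 a, rfl⟩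
  refine ⟨m, q, 1, A.ext (φ.comp V.subtype) (N := (φ.ker ⊓ χ.ker).comap V.subtype)
    (fun x a => ⟨a.2, a.1.2⟩) (hyper_comm fun ⟨_, x, a, rfl⟩ ⟨_, y, b, rfl⟩ =>
      Subtype.ext (c x a.1 y b.1)) ?_⟩
  convert A.pull V.subtype (hyper_ker V.subtype_injective) le_rfl hφ using 2
  ext x
  simp

theorem Gd.step {K : Type w} [Field K] (n : ℕ) (hL : Gd.{w, v, u} A 𝓕 L) :
    Gd.{w, v, u} A 𝓕 (GL (Fin n) K × L) := by
  intro H _ j ψ a C _ _ _ _ σ hs hf
  have b : A.a j (((MonoidHom.fst _ _).comp ψ).ker ⊓ ((MonoidHom.snd _ _).comp ψ).ker) :=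
    A.pull (.id H) (hyper_ker Function.injective_id) (fun _ c => by exact Prod.ext c.1 c.2) a
  obtain h | ⟨p, hp, h⟩ := CharP.exists' K
  · exact Bg.linK H _ _ _ hs.k0 (okf hL (fun _ _ _ _ _ M => glq M) hs hf) ℚ K n _
      (pair _ b)
  · let _ : Algebra (ZMod p) K := ZMod.algebra K p
    exact Bg.linK H _ _ _ hs.k0 (okf hL (glK_fin (ZMod p)) hs hf) (ZMod p) K n _
      (pair _ b)

theorem kz (h0 : Gd.{w, v, u} A 𝓕 PUnit.{w + 1}) {R : Type w} [CommRing R] {n : ℕ}
    (φ : G →* GL (Fin n) R) (h : A.a (.id G) φ.ker) {C : Type u} [Category.{v} C] [Preadditive C]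
    [HasBinaryBiproducts C] [HasZeroObject C] {σ : Act G C} (hs : Sw σ) (hf : SwF 𝓕 σ) : KZ σ := by
  have hm : ∀ (g : G) (a b : PUnit.{w + 1}), a ≤ b → g • a ≤ g • b := fun _ _ _ _ => le_rfl
  refine kz_loc (hm := hm) PUnit.unit (fun _ => le_rfl) (kz_fg fun H a => ?_)
  have := (Group.fg_iff_subgroup_fg H).2 a
  let ψ := φ.comp H.subtype
  exact ring_ind (fun L _ => Gd.{w, v, u} A 𝓕 L) h0 (fun _ _ _ _ n => Gd.step n)
    (fun _ _ _ _ => Gd.pull) (Group.fg_of_surjective ψ.rangeRestrict_surjective) ψ.range.subtype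
    (hyper_ker ψ.range.subtype_injective) H H.subtype ψ.rangeRestrict
    (A.pull H.subtype (hyper_ker H.subtype_injective) (fun _ c => by exact Subtype.mk.inj c) h) _ _
    ((hs.act hm).comap _) ((hf.act hm).comap _)

end Adm

end Pool.Agent.Lib.MP_5d3e93_al
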