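import Pool.Agent.Lib.MP_5d3e93_al.K.HAa
import Pool.Agent.Lib.MP_5d3e93_al.PrS
import Pool.Agent.Lib.MP_5d3e93_al.GQ.Hy

/-! The transfinite induction over the radical series, in all degrees. -/

open CategoryTheory Limits ZeroObject Filter MulAction HNNExtension
open scoped Pointwise

namespace Pool.Agent.Lib.MP_5d3e93_al

universe w w' v u y y' v' u' v'' u''

open Gr

section Asm
variable {C : Type u} [Category.{v} C] [Preadditive C] [HasBinaryBiproducts C] [HasZeroObject C]
  {G : Type w'} [Group G] {ρ : Act G C} {Γ : Type w} [Group Γ] {s : Cl.{w}} {n : ℕ} {R : AR Γ n}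

theorem hin_loc (h : ∀ (D : Type w) [Group D], s.P D → (⊤ : Subgroup D).FG →
    ∃ s' : Cl.{w}, s'.P D ∧ IK ρ s') : IK ρ s := fun _ _ k q => by
  refine kTR k (fun D a => kz_fg fun H b => ?_) 0 fun D a g b => .inl (kd_fg b
    Set.finite_empty (Set.empty_subset _) fun D' c d _ => kd_of_kz ?_ _ _)
  · obtain ⟨s', c, d⟩ := h H (s.inj H.subtype H.subtype_injective (a 1 D (by simp)))
      (Group.fg_def.1 ((Group.fg_iff_subgroup_fg H).2 b))
    exact ak_small d c ((q.comp D.subtype).comp H.subtype)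
  · obtain ⟨s', c, d⟩ := h D' (a 1 D' (by simpa)) (Group.fg_def.1 ((Group.fg_iff_subgroup_fg _).2 d))
    exact d _ ((Hn.ot D' g).mono fun _ ⟨b, _, _, e⟩ => Cl.map b le_rfl (Cl.conj e c))
      (q.comp (jj D' g))

theorem hin_fin (hV : ∀ (V : Type w) [Group V] (x : V), (Subgroup.zpowers x).FiniteIndex → AK ρ V) :
    IK.{w} ρ ⟨fun D _ => Finite D, fun _ a _ => .of_injective _ a⟩ := fun _ _ k q => by
  refine kTR k (fun D a => ?_) (fun D => Nat.card D) fun D a g b => ?_
  all_goals have : Finite D := a 1 D (by simp)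
  · exact hV D 1 inferInstance (q.comp D.subtype)
  · by_cases e : cj D g = D
    · exact .inl (kd_hn b (hV _ _ (vc_hn e) (q.comp (jj D g))))
    · exact .inr (Set.Finite.card_lt_card this (lt_of_le_of_ne inf_le_left e : cj D g < D))

theorem hin_succ (h0 : K0Zero C) {β : Ordinal.{w}} {m : ℕ} (h : IK ρ (Sm β m)) :
    IK ρ (Sm β (m + 1)) := fun _ _ k q => by
  classical
  refine kTR k (fun D a => ?_) (fun D => if (Sm β m).P D then 0 else 1) fun D a g b => ?_
  all_goals
    replace a := a 1 D (by simp)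
    by_cases e : (Sm β m).P D
  · exact ak_small h e (q.comp D.subtype)
  · obtain ⟨n, c, R, d⟩ := Sm.affine (.refl (⊤ : Subgroup D)) a
      fun l => e ((Sm β m).inj (MulEquiv.toMonoidHom _) Subgroup.topEquiv.symm.injective l)
    exact kAA h0 h c (d.comap of fun U => TF.comap (of_injective _).injOn) (q.comp D.subtype)
  · exact .inl (kd_small h b e q)
  · by_cases f : (Sm β m).P (cj D g)
    · exact .inr (by simp [e, f])
    · obtain ⟨n, c, R, d⟩ := Sm.affine (pE D g) a fun l => f (Cl.inj _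
        ((Subgroup.inclusion (inf_le_left : cj D g ≤ D)).codRestrict (pA D g⁻¹) fun x =>
          mem_pA.2 (by rw [inv_inv]; exact (mem_cj.1 x.2).2))
        (fun x y o => Subtype.ext (congrArg (·.1.1) o)) l)
      exact .inl (kd_hn b (kAA h0 h c d (q.comp (jj D g))))

theorem hin_sm (h0 : K0Zero C)
    (hV : ∀ (V : Type w) [Group V] (x : V), (Subgroup.zpowers x).FiniteIndex → AK ρ V)
    (β : Ordinal.{w}) (m : ℕ) : IK ρ (Sm β m) := by
  induction β using WellFoundedLT.induction generalizing m with | ind β ih =>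
  induction m with
  | zero =>
    exact hin_loc fun D _ a b => (Sm.fg a b).elim (fun c => ⟨_, by exact c, hin_fin hV⟩)
      fun ⟨γ, c, m, d⟩ => ⟨_, d, ih γ c m⟩
  | succ m k => exact hin_succ h0 k

theorem ik_lh (h0 : K0Zero C)
    (hV : ∀ (V : Type w) [Group V] (x : V), (Subgroup.zpowers x).FiniteIndex → AK ρ V) :
    IK ρ LH.{w} :=
  hin_loc fun D _ a b => ((a ⊤ b).equiv Subgroup.topEquiv).top.elim fun α c =>
    ⟨Sm α 0, (Set.finite_singleton 1).subset (by
      rintro _ ⟨x, -, rfl⟩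
      exact (QuotientGroup.eq_one_iff x).2 (c.ge trivial)), hin_sm h0 hV α 0⟩

theorem kz_lh {σ : Act Γ C} (hs : Sw σ) (h : LocHyper Γ) : KZ σ :=
  ik_lh hs.k0 (kz_sw hs) Γ (.triv fun U => LH.inj U.subtype U.subtype_injective h) (.id Γ)

theorem kz_hy {σ : Act Γ C} (hs : Sw σ) (h : Hyper Γ) : KZ σ := kz_lh hs h.loc
end Asm

end Pool.Agent.Lib.MP_5d3e93_al
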