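import Pool.Agent.Lib.MP_5d3e93_al.K.Glue

/-! Groups over which the vanishing holds for all hyper-polycyclic extensions. -/

open CategoryTheory Limits

namespace Pool.Agent.Lib.MP_5d3e93_al

universe w v u

/-- The vanishing for all groups that map to `L` with hyper-polycyclic kernel. -/
def GoodOver (L : Type w) [Group L] : Prop := ∀ (H : Type w) [Group H] (ψ : H →* L),
  Hyper ψ.ker → ∀ (C : Type (max u v w)) [Category.{v} C] [Preadditive C] [HasBinaryBiproducts C]
    [HasZeroObject C] (σ : Act H C), Sw σ → KZ σ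

theorem rg_comap {H H' : Type w} [Group H] [Group H'] {j : H' →* H} (a : Function.Injective j)
    {U : Subgroup H} {U' : Subgroup H'} (h : Hyper U) (b : ∀ x ∈ U', j x ∈ U) : Hyper U' :=
  h.inj ((j.comp U'.subtype).codRestrict _ fun x => b _ x.2)
    fun _ _ e => Subtype.ext (a (Subtype.mk.inj e))

theorem goodOver_unit (hy : HyK.{w, v, u}) : GoodOver.{w, v, u} PUnit.{w + 1} :=
  fun H _ ψ h C _ _ _ _ σ hs => hy H C σ hs (Hyper.ext ψ h hyper_fin)

theorem GoodOver.pull {L L' : Type w} [Group L] [Group L'] (f : L' →* L) (a : Hyper f.ker)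
    (h : GoodOver.{w, v, u} L) : GoodOver.{w, v, u} L' :=
  fun H _ ψ b => h H (f.comp ψ) (Hyper.ext' ψ (b.le inf_le_right) (a.le (by
    rintro _ ⟨x, c, rfl⟩
    exact c)))

section
variable (k : Type) [Field k] (L : Type w) [Group L]

/-- Groups with a map to the product of a linear group over `k` and `L` whose kernel is
hyper-polycyclic. -/
def RkL (H : Type w) [Group H] : Prop :=
  ∃ (m : ℕ) (q : H →* GL (Fin m) k) (χ : H →* L), Hyper ↥(q.ker ⊓ χ.ker)

variable {k L}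

theorem RkL.inj {H H' : Type w} [Group H] [Group H'] (j : H' →* H) (a : Function.Injective j)
    (h : RkL k L H) : RkL k L H' := by
  obtain ⟨m, q, χ, b⟩ := h
  exact ⟨m, q.comp j, χ.comp j, rg_comap a b fun _ c => c⟩

theorem RkL.prod {H : Type w} [Group H] (h : RkL k L H) : RkL k L (H × Multiplicative ℤ) := by
  obtain ⟨m, q, χ, b⟩ := h
  refine ⟨m, q.comp (.fst _ _), χ.comp (.fst _ _), Hyper.ext' (.fst H (Multiplicative ℤ))
    (hyper_comm fun x y => Subtype.ext (Prod.ext ?_ (mul_comm _ _))) (b.le ?_)⟩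
  · exact (congrArg₂ (· * ·) x.2.2 y.2.2).trans (congrArg₂ (· * ·) y.2.2 x.2.2).symm
  · rintro _ ⟨x, c, rfl⟩
    exact c

variable (k L) in
/-- The family of these subgroups. -/
def Fam.rkL (G : Type w) [Group G] : Fam G where
  m H := RkL k L H
  le h := RkL.inj _ (Subgroup.inclusion_injective h)
  conj {H} g := RkL.inj (H.equivMapOfInjective _ (MulAut.conj g).injective).symm.toMonoidHom
    (MulEquiv.injective _)

theorem rkL_pair {G : Type w} [Group G] {R : Type*} [Ring R] [Algebra k R] (φ : G →* Rˣ)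
    (χ : G →* L) (hφ : Hyper ↥(φ.ker ⊓ χ.ker)) (N : Subgroup G)
    (hf : Module.Finite k (Submodule.span k ((fun g => (φ g : R)) '' N))) (t : G)
    (ht : t ∈ Subgroup.normalizer (N : Set G)) : RkL k L ↥(N ⊔ Subgroup.zpowers t) := by
  let V := N ⊔ Subgroup.zpowers t
  let t' : V := ⟨t, Subgroup.mem_sup_right (Subgroup.mem_zpowers t)⟩
  have e : (fun g => ((φ.comp V.subtype) g : R)) '' (N.subgroupOf V) =
      (fun g => (φ g : R)) '' N := Set.ext fun _ => ⟨fun ⟨g, a, b⟩ => ⟨g, a, b⟩,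
        fun ⟨g, a, b⟩ => ⟨⟨g, Subgroup.mem_sup_left a⟩, a, b⟩⟩
  obtain ⟨m, q, c⟩ := ex_aut (k := k) (φ.comp V.subtype) (N.subgroupOf V) t' (by
    refine Subgroup.map_injective V.subtype_injective (le_antisymm (Subgroup.map_mono le_top) ?_)
    refine (Subgroup.map_subtype_le _).trans (sup_le (fun g a => ?_) (Subgroup.zpowers_le.2 ?_))
    · exact ⟨⟨g, Subgroup.mem_sup_left a⟩, Subgroup.subset_closure (.inr a), rfl⟩
    · exact ⟨t', Subgroup.subset_closure (.inl rfl), rfl⟩) (e ▸ hf) fun g a =>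
      Submodule.subset_span ⟨t' * g * t'⁻¹, (Subgroup.mem_normalizer_iff.1 ht g).1 a, rfl⟩
  exact ⟨m, q, χ.comp V.subtype, Hyper.ext' (φ.comp V.subtype)
    (rg_comap V.subtype_injective hφ fun _ a => ⟨a.2, a.1.2⟩)
    (hyper_comm fun ⟨_, x, a, rfl⟩ ⟨_, y, b, rfl⟩ => Subtype.ext (c x a.1 y b.1))⟩

theorem okf_rkL (hL : GoodOver.{w, v, u} L) (gl : GlK.{w, v, u} k) {G : Type w}
    [Group G] {C : Type (max u v w)} [Category.{v} C] [Preadditive C] [HasBinaryBiproducts C]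
    [HasZeroObject C] {σ : Act G C} (hs : Sw σ) : Okf.{w, v, u} (Fam.rkL k L G) σ :=
  okf_of_class (fun H _ => RkL k L H) (fun _ _ _ _ => RkL.inj) (fun _ _ => RkL.prod)
    (fun H _ ⟨m, q, χ, b⟩ D _ _ _ _ τ s => gl D m H τ s q fun Δ _ j a c => hL Δ (χ.comp j)
      (Hyper.ext' (q.comp j) (rg_comap a b fun _ d => ⟨d.2, d.1⟩)
        (c.le (Subgroup.map_le_range _ _))) D _ (s.comap j))
    hs fun _ h => h

end

theorem GoodOver.step (gl : GlK.{w, v, u} ℚ) (lin : LinK.{w, v, u}) {L K : Type w} [Group L]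
    [Field K] (n : ℕ) (hL : GoodOver.{w, v, u} L) : GoodOver.{w, v, u} (GL (Fin n) K × L) := by
  intro G _ ψ a C _ _ _ _ σ hs
  have b : Hyper ↥(((MonoidHom.fst _ _).comp ψ).ker ⊓ ((MonoidHom.snd _ _).comp ψ).ker) :=
    a.le fun _ c => Prod.ext c.1 c.2
  obtain h | ⟨p, hp, h⟩ := CharP.exists' K
  · exact lin G _ _ _ hs.k0 (okf_rkL hL gl hs) ℚ K n _ (rkL_pair _ _ b)
  · let _ : Algebra (ZMod p) K := ZMod.algebra K p
    exact lin G _ _ _ hs.k0 (okf_rkL hL (glK_fin (ZMod p)) hs) (ZMod p) K n _ (rkL_pair _ _ b)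

end Pool.Agent.Lib.MP_5d3e93_al
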