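import Pool.Agent.Lib.MP_5d3e93_al.K.RingA
import Pool.Agent.Lib.MP_5d3e93_al.K.RingB

/-! Groups that are locally linear over commutative rings up to hyper-polycyclic kernels. -/

open CategoryTheory Limits

namespace Pool.Agent.Lib.MP_5d3e93_al

universe w v u

theorem kz_ring (hy : HyK.{w, v, u}) (gl : GlK.{w, v, u} ℚ) (lin : LinK.{w, v, u}) {G : Type w}
    [Group G] (hG : ∀ H : Subgroup G, H.FG → ∃ (R : Type w) (_ : CommRing R) (n : ℕ)
      (φ : H →* GL (Fin n) R), Hyper φ.ker)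
    {C : Type u} [Category.{v} C] [Preadditive C] [HasBinaryBiproducts C] [HasZeroObject C]
    {σ : Act G C} (hs : Sw σ) : KZ σ := by
  have hm : ∀ (g : G) (a b : PUnit.{w + 1}), a ≤ b → g • a ≤ g • b := fun _ _ _ _ => le_rfl
  refine kz_loc (hm := hm) PUnit.unit (fun _ => le_rfl) (kz_fg fun H a => ?_)
  obtain ⟨R, _, n, φ, b⟩ := hG H a
  exact ring_ind (fun L _ => GoodOver.{w, v, u} L) (goodOver_unit hy)
    (fun _ _ _ _ n => GoodOver.step gl lin n) (fun _ _ _ _ => GoodOver.pull)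
    ((Group.fg_iff_subgroup_fg H).2 a) φ b H (.id H)
    (hyper_comm fun x y => Subtype.ext ((congrArg₂ (· * ·) x.2 y.2).trans
      (congrArg₂ (· * ·) y.2 x.2).symm)) _ _ ((hs.act hm).comap _)

end Pool.Agent.Lib.MP_5d3e93_al
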