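import Pool.Agent.Lib.MP_5d3e93_al.K.BMain
import Pool.Agent.Lib.MP_5d3e93_al.K.Ring
import Pool.Agent.Lib.MP_5d3e93_al.K.HIn
import Pool.Agent.Lib.MP_5d3e93_al.Lq.End

/-! Vanishing in all degrees for groups that are locally linear up to hyper kernels. -/

open CategoryTheory Limits

namespace Pool.Agent.Lib.MP_5d3e93_al

universe w v u

theorem kz_all {G : Type w} [Group G] (hG : ∀ H : Subgroup G, H.FG → ∃ (R : Type w)
    (_ : CommRing R) (n : ℕ) (φ : H →* GL (Fin n) R), Hyper φ.ker)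
    {C : Type u} [Category.{v} C] [Preadditive C] [HasBinaryBiproducts C] [HasZeroObject C]
    {σ : Act G C} (hs : Sw σ) : KZ σ :=
  kz_ring (fun _ _ _ _ _ _ _ _ => kz_hy) (fun _ _ _ _ _ M => glq M) Bg.linK hG hs

end Pool.Agent.Lib.MP_5d3e93_al
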