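import Pool.Agent.Lib.MP_5d3e93_al.K.Tw
import Pool.Agent.Lib.MP_5d3e93_al.Bg.Lft

/-! Vanishing over the trivial group gives stable isomorphisms. -/

open CategoryTheory Limits ZeroObject Idempotents

namespace Pool.Agent.Lib.MP_5d3e93_al

universe w v u v' u'

section

variable (D : Type u') [Category.{v'} D] [Preadditive D] [HasBinaryBiproducts D] [HasZeroObject D]

/-- Isomorphism classes. -/
def Bk0 : Type u' := Quotient (isIsomorphicSetoid D)

noncomputable instance : Add (Bk0 D) :=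
  ⟨Quotient.map₂ (· ⊞ ·) fun _ _ ⟨a⟩ _ _ ⟨b⟩ => ⟨biprod.mapIso a b⟩⟩

noncomputable instance : Zero (Bk0 D) := ⟨⟦0⟧⟩

noncomputable instance : AddCommMonoid (Bk0 D) where
  add_assoc := by
    rintro ⟨a⟩ ⟨b⟩ ⟨c⟩
    exact Quotient.sound ⟨biprod.associator ..⟩
  zero_add := by
    rintro ⟨a⟩
    exact Quotient.sound ⟨(isoZeroBiprod (isZero_zero D)).symm⟩
  add_zero := by
    rintro ⟨a⟩
    exact Quotient.sound ⟨(isoBiprodZero (isZero_zero D)).symm⟩
  add_comm := by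
    rintro ⟨a⟩ ⟨b⟩
    exact Quotient.sound ⟨biprod.braiding ..⟩
  nsmul := nsmulRec

variable {D} in
theorem bk0_st {K : Type (max u v)} [Category.{v} K] [Preadditive K]
    (h : Subsingleton (Gr.spl.{v, u} K).K0) (Φ : K ⥤ D) [Φ.Additive] (X Y : K) :
    ∃ E : D, Nonempty (E ⊞ Φ.obj X ≅ E ⊞ Φ.obj Y) := by
  let c0 (X : K) : Bk0 D := ⟦Φ.obj X⟧
  let o := AddLocalization.addMonoidOf (⊤ : AddSubmonoid (Bk0 D))
  let l : FreeAbelianGroup K →+ Algebra.GrothendieckAddGroup (Bk0 D) :=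
    FreeAbelianGroup.lift fun X => o (c0 X)
  have l1 (X) : l (.of X) = o (c0 X) := FreeAbelianGroup.lift_apply_of ..
  have k := (AddSubgroup.closure_le l.ker).2 (show {x : FreeAbelianGroup K | ∃ (X Y Z : K)
      (i : X ⟶ Y) (p : Y ⟶ Z), (Gr.spl.{v, u} K).ses i p ∧ x = .of Y - .of X - .of Z} ⊆ _ by
    rintro _ ⟨X, Y, Z, i, p, ⟨r, s, a, b, c⟩, rfl⟩
    have d := Gr.ad_zero a b c
    have e : s ≫ r = 0 := by
      rw [← Category.comp_id (s ≫ r), ← a, ← add_left_inj (s ≫ r)]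
      have := congrArg (fun x => s ≫ x ≫ r) c
      simpa [a, reassoc_of% b] using this
    have f0 : Φ.obj Y ≅ Φ.obj X ⊞ Φ.obj Z :=
      ⟨biprod.lift (Φ.map r) (Φ.map p), biprod.desc (Φ.map i) (Φ.map s),
        by rw [biprod.lift_desc, ← Φ.map_comp, ← Φ.map_comp, ← Φ.map_add, c, Φ.map_id], by ext <;> simp [← Φ.map_comp, a, b, d, e]⟩
    have f : c0 Y = c0 X + c0 Z :=
      Quotient.sound (s := isIsomorphicSetoid D) (b := Φ.obj X ⊞ Φ.obj Z) ⟨f0⟩
    change l _ = 0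
    rw [map_sub, map_sub, l1, l1, l1, f, map_add, add_sub_cancel_left, sub_self])
  have m : l (-.of X + .of Y) = 0 := k (QuotientAddGroup.eq.1 (h.elim (QuotientAddGroup.mk (.of X))
    (QuotientAddGroup.mk (.of Y))))
  rw [map_add, map_neg, l1, l1, neg_add_eq_zero] at m
  obtain ⟨⟨⟨E⟩, _⟩, e⟩ := o.exists_of_eq m
  exact ⟨E, Quotient.exact e⟩

end

variable {Γ : Type w} [Group Γ] {C : Type u} [Category.{v} C] [Preadditive C]
  [HasBinaryBiproducts C] [HasZeroObject C]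

theorem k0_of_kz [Subsingleton Γ] {τ : Act Γ C} (h : KZ τ) : K0Zero C := by
  let F : C ⥤ Tw τ := ⟨fun A => ⟨A⟩, Tw.emb, fun A => Tw.emb_id ⟨A⟩,
    fun f g => (Tw.emb_comp ..).symm⟩
  have : F.Additive := ⟨Tw.emb_add ..⟩
  have : F.IsEquivalence :=
    { faithful := ⟨Bg.emb_inj⟩
      full := ⟨fun f => Bg.ex_emb fun g k => (k (Subsingleton.elim ..)).elim⟩
      essSurj := ⟨fun A => ⟨A.as, ⟨.refl _⟩⟩⟩ }
  have := hasFiniteProducts_of_has_binary_and_terminal (C := C)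
  have := HasFiniteBiproducts.of_hasFiniteProducts (C := C)
  have := hasBinaryBiproducts_of_finite_biproducts (Karoubi C)
  have := (toKaroubi C).hasZeroObject_of_additive
  let Ψ := Tw.pushF (ρ := τ) (.fst Γ Zi) ⋙ F.asEquivalence.inverse
  have : F.asEquivalence.functor.Additive := ‹F.Additive›
  have : Ψ.Additive := inferInstanceAs (_ ⋙ F.asEquivalence.inverse).Additive
  have := preservesBinaryBiproducts_of_preservesBiproducts (toKaroubi C)
  let Φ := (functorExtension₂ _ _).obj Ψ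
  have : Φ.Additive := ⟨fun {_ _ f g} => Karoubi.hom_ext _ _ (Ψ.map_add (f := f.f) (g := g.f))⟩
  have e (A : C) : Nonempty (Φ.obj ((toKaroubi _).obj ⟨A⟩) ≅ (toKaroubi C).obj A) :=
    ⟨((functorExtension₂CompWhiskeringLeftToKaroubiIso _ _).app _).app _ ≪≫
      (toKaroubi C).mapIso (F.asEquivalence.unitIso.app A).symm⟩
  intro A B
  obtain ⟨E, ⟨a⟩⟩ := bk0_st (kz_iff_kzero.1 h 0) Φ ((toKaroubi _).obj ⟨A⟩) ((toKaroubi _).obj ⟨B⟩)
  have b (A : C) : Nonempty ((toKaroubi C).obj (A ⊞ E.X) ≅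
      (E ⊞ Φ.obj ((toKaroubi _).obj ⟨A⟩)) ⊞ E.complement) :=
    ⟨(toKaroubi C).mapBiprod .. ≪≫ biprod.mapIso (e A).some.symm E.decomposition.symm ≪≫
      (biprod.associator ..).symm ≪≫ biprod.mapIso (biprod.braiding ..) (.refl _)⟩
  exact ⟨E.X, ⟨(toKaroubi C).preimageIso
    ((b A).some ≪≫ biprod.mapIso a (.refl _) ≪≫ (b B).some.symm)⟩⟩

end Pool.Agent.Lib.MP_5d3e93_al
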