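import Pool.Agent.Lib.MP_5d3e93_al.K.Ad

/-! Moving Nil terms and vanishing statements along maps of the sets of points. -/

open CategoryTheory Limits

namespace Pool.Agent.Lib.MP_5d3e93_al

universe w v u y y'

open Gr

namespace GC

open Lo

variable {G : Type w} [Group G] {C : Type u} [Category.{v} C] [Preadditive C] [HasZeroObject C]
variable {S : GC G C} {m : ℕ}

section Pushfile
variable {Y Y' : Type w} {P : Rl G Y} {P' : Rl G Y'} {B : Y → G → Y → Prop}
  {B' : Y' → G → Y' → Prop}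

theorem Gm.push (φ : Y → Y') (h : ∀ a g b, P.r a g b → P'.r (φ a) g (φ b))
    (k : ∀ a g b, B a g b → B' (φ a) g (φ b)) (z : S.Gm P' B' m) : S.Gm P B m :=
  fun X hX F x hx hm => z X hX (F.post (LQ.push S φ h)) x
    (fun A => (hx A).map (on_true _) (on_true _) fun a g b _ _ => k a g b) hm

/-- An endomorphism of the underlying functor with controlled components lifts. -/
def pushLift {X : Am.{v, max u w}} (F : Fn X (S.LQ P)) (x : S.und F ⟶ S.und F)
    (hx : S.Ty F P.r x) : F ⟶ F where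
  app A := LQ.homMk (NatTrans.app x A).1 (LQ.p_comp (NatTrans.app x A))
    (LQ.comp_p (NatTrans.app x A)) (hx A)
  naturality _ _ f := LQ.hom_ext (congrArg (·.1) (NatTrans.naturality x f))

omit [HasZeroObject C] in
theorem pushLift_pw {X : Am.{v, max u w}} (F : Fn X (S.LQ P)) (x : S.und F ⟶ S.und F)
    (hx : S.Ty F P.r x) (n : ℕ) (A : X.A) :
    (NatTrans.app (pw (pushLift F x hx) n) A).1 = (NatTrans.app (pw x n) A).1 := by
  induction n with
  | zero => rfl
  | succ n ih => exact congrArg ((NatTrans.app x A).1 ≫ ·) ih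

/-- `x = p x p`. -/
theorem Gm.sandwich (z : S.Gm P (fun a g b => B a g b ∧ (∃ h c, P.r a h c) ∧ ∃ h c, P.r c h b) m) :
    S.Gm P B m := by
  refine fun X hX F x hx hm => z X hX F x (fun A => (hx A).and (Rg.and ?_ ?_)) hm
  · rw [← LQ.p_comp (NatTrans.app x A)]
    exact (F.F.obj A).rg.comp (hx A) fun _ g b _ _ h _ => ⟨g, b, h⟩
  · rw [← LQ.comp_p (NatTrans.app x A)]
    exact (hx A).comp (F.F.obj A).rg fun _ _ b g _ _ h => ⟨g, b, h⟩

theorem Gm.anti {m' : ℕ} (z : S.Gm P B m) (h : m' ≤ m) : S.Gm P B m' := by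
  refine fun X hX F x hx hm => z X hX F x hx ?_
  obtain ⟨d, rfl⟩ := Nat.exists_eq_add_of_le h
  rw [pw_add, hm, zero_comp]

theorem Zq.retract {Z : Type y} {Z' : Type y'} {Q : Rl G Z} {Q' : Rl G Z'} (φ : Z → Z')
    (ψ : Z' → Z) (h : ∀ a g b, Q.r a g b → Q'.r (φ a) g (φ b))
    (k : ∀ a g b, Q'.r a g b → Q.r (ψ a) g (ψ b))
    (e : ∀ a g b, Q.r a g b → Q.r a g (ψ (φ b)) ∧ Q.r (ψ (φ a)) g b) (z : S.Zq Q') : S.Zq Q := by
  let i : LQ.push S φ h ⋙ LQ.push S ψ k ≅ 𝟭 (S.LQ Q) := NatIso.ofComponents (fun M =>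
    ⟨LQ.homMk M.p M.idem M.idem ((M.rg.mapl (R' := fun a g b => Q.r (ψ a) g b)
        fun a g b l => (e a g b l).2).mapl fun _ _ _ l => l),
      LQ.homMk M.p M.idem M.idem ((M.rg.mapr (R' := fun a g b => Q.r a g (ψ b))
        fun a g b l => (e a g b l).1).mapr fun _ _ _ l => l),
      LQ.hom_ext M.idem, LQ.hom_ext M.idem⟩)
    fun f => LQ.hom_ext ((LQ.comp_p f).trans (LQ.p_comp f).symm)
  exact Am.Z_retract (A := S.LQ Q) (B := S.LQ Q') _ _ i z

theorem zq_empty {Z : Type y} {Q : Rl G Z} (h : ∀ a g b, ¬ Q.r a g b) : S.Zq Q := by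
  have k (M : S.LQ Q) : IsZero M := LQ.isZero_iff.2 (M.rg.eq_zero h)
  exact Am.Z_swindle (A := S.LQ Q) (𝟭 _) (𝟙 _) (𝟙 _) (𝟙 _) (𝟙 _) (Category.id_comp _)
    (Category.id_comp _) (NatTrans.ext (funext fun M => (k M).eq_of_src _ _))

end Pushfile

end GC

end Pool.Agent.Lib.MP_5d3e93_al
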