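import Pool.Agent.Lib.MP_5d3e93_al.K.CDf
import Pool.Agent.Lib.MP_5d3e93_al.Bg.Mv

/-! One-sided asymptotic control on formal locations. -/

namespace Pool.Agent.Lib.MP_5d3e93_al

universe w w'

/-- The relation of radius zero. -/
def Nr.rl {G : Type w} [Group G] {X : Type w'} [MulAction G X] (ν : Nr G X) : Rl G X :=
  ⟨fun a g b => ν.n 0 a (g • b), fun h k => by
    rw [mul_smul]; exact ν.trans h (ν.smul _ k)⟩

namespace Bg

variable {G : Type w} [Group G] {W : Type w'} [MulAction G W] {n : ℕ} {J : Type}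

/-- One-sided control with a varying mesh. -/
def Pf.ar (P : Pf G W (Finset (Fin (n + 1)))) (h : J → ℕ) : Ar G fun _ : J => Pt n W :=
  Ar.act (.id G) fun j => (P.nv (h j)).nr

/-- Boxes. -/
def Pf.box (P : Pf G W (Finset (Fin (n + 1)))) (h : J → ℕ) (p q : Fin n → ℕ) :
    Ar G fun _ : J => Pt n W :=
  (P.ar h).res fun j => mvRn (h j) 0 p q

theorem Pf.ar_n (P : Pf G W (Finset (Fin (n + 1)))) (h : J → ℕ) (r j a) (g : G) (b) :
    (P.ar h).n r j a g b ↔ (∀ i, b.t i ≤ a.t i + r) ∧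
      ∀ L, Adm (h j) r a.t b.t L → P.le L a.w (g • b.w) := Iff.rfl

theorem Pf.box_n (P : Pf G W (Finset (Fin (n + 1)))) (h : J → ℕ) (p q r j a) (g : G) (b) :
    (P.box h p q).n r j a g b ↔
      (P.ar h).n r j a g b ∧ mvRn (h j) 0 p q a ∧ mvRn (h j) 0 p q b := Iff.rfl

end Bg

end Pool.Agent.Lib.MP_5d3e93_al
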