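import Pool.Agent.Lib.MP_5d3e93_al.K.Filt
import Pool.Agent.Lib.MP_5d3e93_al.K.Union

/-! Triangular controlled categories. -/

open CategoryTheory Limits ZeroObject MulAction

namespace Pool.Agent.Lib.MP_5d3e93_al

universe w v u y

open Gr

namespace GC

open Lo

variable {G : Type w} [Group G] {C : Type u} [Category.{v} C] [Preadditive C] [HasZeroObject C]
variable {S : GC G C} {m : ℕ}

theorem zq_cut {Z : Type y} {P : Rl G Z} {π : Z → Prop} (k : ∀ x g y, P.r x g y → π x → π y)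
    (z₁ : S.Zq (P.res π)) (z₂ : S.Zq (P.res (¬π ·))) : S.Zq P :=
  Am.Z_of_null (fun _ h => h) fun n => by
    have e := Am.null_ses.{v, max u y, v, max u y} (LQ.fα (S := S) k) (LQ.fβ k) (LQ.f_spl k) n
    have e₁ := Am.Z.null z₁ (Am.ofOf.{v, max u y, v, max u y} (LQ.fsub (S := S) k))
      (S.im (P := P.res π) (Q := P) fun _ _ _ h => h.1) (Am.Map.bdd_map _) (Am.Map.bdd_map _)
      (Am.Map.bdd_map _) n
    have e₂ := Am.Z.null z₂ (Am.ofOf.{v, max u y, v, max u y} (LQ.fquo (S := S) k))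
      (S.im (P := P.res (¬π ·)) (Q := P) fun _ _ _ h => h.1) (Am.Map.bdd_map _)
      (Am.Map.bdd_map _) (Am.Map.bdd_map _) n
    exact e.trans ((congrArg₂ (· + ·) e₁ e₂).trans (add_zero _))

theorem gm_cut {Y : Type w} {P : Rl G Y} {B : Y → G → Y → Prop} {π : Y → Prop}
    (k : ∀ x g y, P.r x g y → π x → π y) (k' : ∀ x g y, B x g y → π x → π y)
    (z₁ : S.Gm (P.res π) (fun a g b => B a g b ∧ π a ∧ π b) m)
    (z₂ : S.Gm (P.res (¬π ·)) (fun a g b => B a g b ∧ ¬π a ∧ ¬π b) m) : S.Gm P B m := by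
  intro X hX F x hx hm
  let M : X.A → S.LQ P := F.F.obj
  let t : ∀ A, (M A).A ⟶ (M A).A := fun A => (NatTrans.app x A).1
  let φ : ∀ {A A' : X.A}, (A ⟶ A') → ((M A).A ⟶ (M A').A) := fun f => (F.F.map f).1
  have t₁ : ∀ A, (M A).p ≫ t A = t A := fun A => LQ.p_comp (NatTrans.app x A)
  have t₂ : ∀ A, t A ≫ (M A).p = t A := fun A => LQ.comp_p (NatTrans.app x A)
  have t₃ : ∀ {A A'} (f : A ⟶ A'), φ f ≫ t A' = t A ≫ φ f := fun f =>
    congrArg Subtype.val (NatTrans.naturality x f)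
  have a₁ : ∀ A, (M A).L.ec π ≫ (M A).p ≫ (M A).L.ec π = (M A).L.ec π ≫ (M A).p := fun A =>
    (M A).rg.ec_ll k
  have a₂ : ∀ A, (M A).L.ec π ≫ t A ≫ (M A).L.ec π = (M A).L.ec π ≫ t A := fun A =>
    Rg.ec_ll (hx A) k'
  have a₃ : ∀ {A A'} (f : A ⟶ A'), (M A).L.ec π ≫ φ f ≫ (M A').L.ec π = (M A).L.ec π ≫ φ f :=
    fun f => (LQ.hom_rg (F.F.map f)).ec_ll k
  have b₁ : ∀ A, (M A).L.ec (¬π ·) ≫ (M A).p ≫ (M A).L.ec (¬π ·) = (M A).p ≫ (M A).L.ec (¬π ·) :=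
    fun A => (M A).rg.ec_rr k
  have b₂ : ∀ A, (M A).L.ec (¬π ·) ≫ t A ≫ (M A).L.ec (¬π ·) = t A ≫ (M A).L.ec (¬π ·) :=
    fun A => Rg.ec_rr (hx A) k'
  have b₃ : ∀ {A A'} (f : A ⟶ A'),
      (M A).L.ec (¬π ·) ≫ φ f ≫ (M A').L.ec (¬π ·) = φ f ≫ (M A').L.ec (¬π ·) :=
    fun f => (LQ.hom_rg (F.F.map f)).ec_rr k
  let x₁ : S.und (F.post (LQ.fsub k)) ⟶ S.und (F.post (LQ.fsub k)) :=
    NatTrans.mk (fun A => LQ.homMk ((M A).L.ec π ≫ t A)
      (show ((M A).L.ec π ≫ (M A).p) ≫ (M A).L.ec π ≫ t A = (M A).L.ec π ≫ t A by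
        simp [reassoc_of% a₁ A, t₁ A])
      (show ((M A).L.ec π ≫ t A) ≫ (M A).L.ec π ≫ (M A).p = (M A).L.ec π ≫ t A by
        simp [reassoc_of% a₂ A, t₂ A]) fun _ _ _ h => (h trivial).elim)
      fun A A' f => LQ.hom_ext (show ((M A).L.ec π ≫ φ f) ≫ (M A').L.ec π ≫ t A' =
        ((M A).L.ec π ≫ t A) ≫ (M A).L.ec π ≫ φ f by
          simp [reassoc_of% a₃ f, reassoc_of% a₂ A, t₃ f])
  let x₂ : S.und (F.post (LQ.fquo k)) ⟶ S.und (F.post (LQ.fquo k)) :=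
    NatTrans.mk (fun A => LQ.homMk (t A ≫ (M A).L.ec (¬π ·))
      (show ((M A).p ≫ (M A).L.ec (¬π ·)) ≫ t A ≫ (M A).L.ec (¬π ·) = t A ≫ (M A).L.ec (¬π ·) by
        simp [b₂ A, reassoc_of% t₁ A])
      (show (t A ≫ (M A).L.ec (¬π ·)) ≫ (M A).p ≫ (M A).L.ec (¬π ·) = t A ≫ (M A).L.ec (¬π ·) by
        simp [b₁ A, reassoc_of% t₂ A]) fun _ _ _ h => (h trivial).elim)
      fun A A' f => LQ.hom_ext (show (φ f ≫ (M A').L.ec (¬π ·)) ≫ t A' ≫ (M A').L.ec (¬π ·) =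
        (t A ≫ (M A).L.ec (¬π ·)) ≫ φ f ≫ (M A').L.ec (¬π ·) by
          simp [b₂ A', b₃ f, reassoc_of% t₃ f])
  let α : S.und (F.post (LQ.fsub k)) ⟶ S.und F :=
    Functor.whiskerRight (Functor.whiskerLeft F.F (LQ.fα k)) (LQ.U S P)
  let β : S.und F ⟶ S.und (F.post (LQ.fquo k)) :=
    Functor.whiskerRight (Functor.whiskerLeft F.F (LQ.fβ k)) (LQ.U S P)
  have sp : ∀ A, ∃ r s, NatTrans.app α A ≫ r = 𝟙 _ ∧ s ≫ NatTrans.app β A = 𝟙 _ ∧
      r ≫ NatTrans.app α A + NatTrans.app β A ≫ s = 𝟙 _ := fun A => by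
    obtain ⟨r, s, c₁, c₂, c₃⟩ := LQ.f_spl k (M A)
    have d₁ := congrArg Subtype.val c₁
    have d₂ := congrArg Subtype.val c₂
    have d₃ := congrArg Subtype.val c₃
    exact ⟨(LQ.U S P).map r, (LQ.U S P).map s, LQ.hom_ext d₁, LQ.hom_ext d₂, LQ.hom_ext d₃⟩
  have h₁ : α ≫ x = x₁ ≫ α := NatTrans.ext (funext fun A => LQ.hom_ext
    (show ((M A).L.ec π ≫ (M A).p) ≫ t A = ((M A).L.ec π ≫ t A) ≫ (M A).L.ec π ≫ (M A).p by
      simp [reassoc_of% a₂ A, t₁ A, t₂ A]))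
  have h₂ : β ≫ x₂ = x ≫ β := NatTrans.ext (funext fun A => LQ.hom_ext
    (show ((M A).p ≫ (M A).L.ec (¬π ·)) ≫ t A ≫ (M A).L.ec (¬π ·) =
      t A ≫ (M A).p ≫ (M A).L.ec (¬π ·) by simp [b₂ A, reassoc_of% t₁ A, reassoc_of% t₂ A]))
  have n₁ : pw x₁ m = 0 := NatTrans.ext (funext fun A => by
    obtain ⟨r, -, c, -⟩ := sp A
    have e : pw x₁ m ≫ α = 0 := by rw [← fl_pw h₁, hm, comp_zero]
    have e' : NatTrans.app (pw x₁ m) A ≫ NatTrans.app α A = 0 := NatTrans.congr_app e A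
    exact (Category.comp_id _).symm.trans ((congrArg (_ ≫ ·) c.symm).trans
      ((Category.assoc ..).symm.trans ((congrArg (· ≫ r) e').trans zero_comp))))
  have n₂ : pw x₂ m = 0 := NatTrans.ext (funext fun A => by
    obtain ⟨-, s, -, c, -⟩ := sp A
    have e : β ≫ pw x₂ m = 0 := by rw [fl_pw h₂, hm, zero_comp]
    have e' : NatTrans.app β A ≫ NatTrans.app (pw x₂ m) A = 0 := NatTrans.congr_app e A
    exact (Category.id_comp _).symm.trans ((congrArg (· ≫ _) c.symm).trans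
      ((Category.assoc ..).trans ((congrArg (s ≫ ·) e').trans comp_zero))))
  exact Fn.Tr.ses α β sp (by simp [h₁]) (by simp [h₂])
    (z₁ X hX _ x₁ (fun A => Rg.ec_l (hx A) k') n₁) (z₂ X hX _ x₂ (fun A => Rg.ec_r (hx A) k') n₂)

theorem zq_tri {Z : Type y} {P : Rl G Z} (l : Z → ℤ) (h : ∀ a g b, P.r a g b → l a ≤ l b)
    (z : ∀ k, S.Zq (P.res fun a => l a = k)) : S.Zq P :=
  zq_union (ι := ℕ) (fun i => P.res fun a => -(i : ℤ) ≤ l a ∧ l a ≤ -(i : ℤ) + (2 * i : ℕ))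
    (fun i j e a g b c => ⟨c.1, by have := c.2.1; omega, by have := c.2.2; omega⟩)
    (fun _ _ _ _ c => c.1)
    (fun a g b c => ⟨(l a).natAbs + (l b).natAbs, c, by omega, by omega⟩)
    fun i => fl_range l (fun Ω => S.Zq (P.res Ω)) z (fun Ω k z₁ z₂ =>
      zq_cut (π := fun a => k ≤ l a) (fun a g b c d => d.trans (h a g b c.1))
        (by convert z₁ using 1; exact Rl.ext' fun _ _ _ => by simp only [Rl.res]; tauto)
        (by convert z₂ using 1; exact Rl.ext' fun _ _ _ => by simp only [Rl.res]; tauto)) _ _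

theorem gm_tri {Y : Type w} {P : Rl G Y} {B : Y → G → Y → Prop} (l : Y → ℤ)
    (h : ∀ a g b, P.r a g b → l a ≤ l b) (h' : ∀ a g b, B a g b → l a ≤ l b)
    (z : ∀ k, S.Gm (P.res fun a => l a = k) (fun a g b => B a g b ∧ l a = k ∧ l b = k) m) :
    S.Gm P B m :=
  gm_union (ι := ℕ) (fun i => P.res fun a => -(i : ℤ) ≤ l a ∧ l a ≤ -(i : ℤ) + (2 * i : ℕ))
    (fun i a g b => B a g b ∧ (-(i : ℤ) ≤ l a ∧ l a ≤ -(i : ℤ) + (2 * i : ℕ)) ∧
      (-(i : ℤ) ≤ l b ∧ l b ≤ -(i : ℤ) + (2 * i : ℕ)))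
    (fun i j e a g b c => ⟨c.1, by have := c.2.1; omega, by have := c.2.2; omega⟩)
    (fun _ _ _ _ c => c.1)
    (fun a g b c => ⟨(l a).natAbs + (l b).natAbs, c, by omega, by omega⟩)
    (fun i j e a g b c => ⟨c.1, by have := c.2.1; omega, by have := c.2.2; omega⟩)
    (fun a g b c => ⟨(l a).natAbs + (l b).natAbs, c, by omega, by omega⟩)
    fun i => fl_range l (fun Ω => S.Gm (P.res Ω) (fun a g b => B a g b ∧ Ω a ∧ Ω b) m) z
      (fun Ω k z₁ z₂ => gm_cut (π := fun a => k ≤ l a) (fun a g b c d => d.trans (h a g b c.1))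
        (fun a g b c d => d.trans (h' a g b c.1))
        (by
          convert z₁ using 1
          · exact Rl.ext' fun _ _ _ => by simp only [Rl.res]; tauto
          · exact funext fun _ => funext fun _ => funext fun _ => propext (by tauto))
        (by
          convert z₂ using 1
          · exact Rl.ext' fun _ _ _ => by simp only [Rl.res]; tauto
          · exact funext fun _ => funext fun _ => funext fun _ => propext (by tauto))) _ _

end GC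

end Pool.Agent.Lib.MP_5d3e93_al
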