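import Pool.Agent.Lib.MP_5d3e93_al.Bg.Loc
import Pool.Agent.Lib.MP_5d3e93_al.Bg.TowQ
import Pool.Agent.Lib.MP_5d3e93_al.K.SDf
import Pool.Agent.Lib.MP_5d3e93_al.K.PushA
import Pool.Agent.Lib.MP_5d3e93_al.K.Tri
import Pool.Agent.Lib.MP_5d3e93_al.K.Tw

/-! Vanishing in all degrees for the categories controlled by some of the word orders. -/

open CategoryTheory Limits MulAction

namespace Pool.Agent.Lib.MP_5d3e93_al

universe w w' w'' v u

open GC GC.CF GC.Lo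

theorem GC.zq_of_fun {G : Type*} [Group G] {C : Type*} [Category C] [Preadditive C]
    [HasZeroObject C] {S : GC G C} {G' : Type*} [Group G'] {C' : Type*} [Category C']
    [Preadditive C'] [HasZeroObject C'] {S' : GC G' C'} {Z : Type*} {P : Rl G Z} (Φ : C' ⥤ C)
    [Φ.Additive] [Φ.Faithful] (Λ : ∀ A, S.Lo Z (Φ.obj A))
    (h1 : ∀ {A B} (f : A ⟶ B), (Λ A).Rg (Λ B) P.r (Φ.map f))
    (h2 : ∀ {A B} (f : Φ.obj A ⟶ Φ.obj B), (Λ A).Rg (Λ B) P.r f → ∃ f', Φ.map f' = f)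
    (h3 : ∀ B (L : S.Lo Z B), ∃ A L', (⟨B, L⟩ : Σ B, S.Lo Z B) = ⟨Φ.obj A, L'⟩ ∧
      ∀ x, L'.e x = (Λ A).e x) (z : S'.WK ⊤) : S.Zq P := by
  let F : S'.LQ (Rl.pt ⊤) ⥤ S.LQ P :=
    { obj M := ⟨Φ.obj M.A, Λ _, Φ.map M.p, by rw [← Φ.map_comp, M.idem], h1 _⟩
      map f := LQ.homMk (Φ.map f.1) ((Φ.map_comp _ _).symm.trans (congrArg Φ.map (LQ.p_comp f)))
        ((Φ.map_comp _ _).symm.trans (congrArg Φ.map (LQ.comp_p f))) (h1 _)
      map_id _ := rfl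
      map_comp _ _ := LQ.hom_ext (Φ.map_comp ..) }
  have : F.Additive := ⟨LQ.hom_ext Φ.map_add⟩
  have : F.IsEquivalence :=
    { faithful := ⟨fun e => LQ.hom_ext (Φ.map_injective (congrArg (·.1) e))⟩
      full := ⟨fun {M N} f => by
        obtain ⟨f', b⟩ := h2 f.1 (LQ.hom_rg f)
        refine ⟨LQ.cut f' (tw_rg.2 (S'.sup_top _)), LQ.hom_ext ?_⟩
        change Φ.map (M.p ≫ f' ≫ N.p) = _
        rw [Φ.map_comp, Φ.map_comp, b]
        exact (congrArg (_ ≫ ·) (LQ.comp_p f)).trans (LQ.p_comp f)⟩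
      essSurj := ⟨fun ⟨B, L, q, e, k⟩ => by
        obtain ⟨A, L', a, b⟩ := h3 B L
        cases a
        obtain ⟨p, rfl⟩ := h2 q fun x y => b x ▸ b y ▸ k x y
        exact ⟨⟨A, .one S' () A, p, Φ.map_injective (by rw [Φ.map_comp, e]),
          tw_rg.2 (S'.sup_top _)⟩, ⟨⟨LQ.homMk (Φ.map p) e e fun x y => b x ▸ k x y,
            LQ.homMk (Φ.map p) e e fun x y => b y ▸ k x y, LQ.hom_ext e, LQ.hom_ext e⟩⟩⟩⟩ }
  exact (Gr.Am.Z_equiv F).1 z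

namespace Bg

section

variable {C : Type u} [Category.{v} C] [Preadditive C] {G : Type w} [Group G]
variable [HasBinaryBiproducts C] [HasZeroObject C] {σ : Act G C}

theorem zq_lf {Γ : Type w} [Group Γ] (j : Γ →* G) {Z : Type w'} [Preorder Z] [MulAction Γ Z]
    [Nonempty Z] (hm : ∀ (g : Γ) (x y : Z), x ≤ y → g • x ≤ g • y)
    (hK : KZ (Lc.act (σ.comap j) hm))
    (h3 : ∀ (x : Z) (γ γ' : Γ) (y : Z), x ≤ γ • y → x ≤ γ' • y → j γ = j γ' → γ = γ')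
    {Y : Type w''} {P : Rl (G × Zi) Y} (φ : Z → Y) (ψ : Y → Z)
    (h1 : ∀ x (γ : Γ) (z : Zi) y, x ≤ γ • y → P.r (φ x) (j γ, z) (φ y))
    (h2 : ∀ x (g : G × Zi) y, P.r (φ x) g (φ y) → ∃ γ, j γ = g.1 ∧ x ≤ γ • y)
    (h4 : ∀ a g b, P.r a g b → P.r a g (φ (ψ b)) ∧ P.r (φ (ψ a)) g b) : (SZ σ).Zq P := by
  let p : Γ × Zi →* G × Zi := j.prodMap (.id Zi)
  let F0 : TwZ (Lc.act (σ.comap j) hm) ⥤ Tw ((σ.comap (.fst G Zi)).comap p) :=
    fgt (σ.comap j) hm (.fst Γ Zi)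
  have : F0.Additive := ⟨map_add fgm _ _⟩
  let L (A : TwZ (Lc.act (σ.comap j) hm)) : (twGC _).Lo Z (F0.obj A) := lo (σ.comap j) A.as.d
  let L' (A : TwZ (Lc.act (σ.comap j) hm)) : (twGC _).Lo Z (Tw.up p (F0.obj A)) := lo σ A.as.d
  have e (A x) : Tw.push p ((L A).e x) = (L' A).e x := push_emb _
  have rg {A B} (f : A ⟶ B) : (L A).Rg (L B) (fun x g y => x ≤ g.1 • y) (F0.map f) := rg_fgt f
  have zr {A B} (f : A ⟶ B) (k : (F0 ⋙ Tw.pushF p).map f = 0) : f = 0 :=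
    fgt_zero (push_rg_zero (e A) (e B) (rg f) (fun x y a b c d l =>
      Prod.ext (h3 x _ _ y b d (Prod.ext_iff.1 l).1) (Prod.ext_iff.1 l).2) k)
  have : (F0 ⋙ Tw.pushF p).Faithful :=
    ⟨fun k => sub_eq_zero.1 (zr _ (by rw [Functor.map_sub, k, sub_self]))⟩
  refine Zq.retract (Q' := ⟨fun x g y => P.r (φ x) g (φ y), P.trans⟩) ψ φ
    (fun a g b k => (h4 _ _ _ (h4 a g b k).1).2) (fun _ _ _ k => k) h4
    (zq_of_fun (F0 ⋙ Tw.pushF p) L' (fun {A B} f => (push_rg (e A) (e B) (rg f)).mono ?_)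
      (fun {A B} f k => ?_) (fun B M => ?_) hK)
  · rintro x _ y ⟨γ, k, rfl⟩
    exact h1 x γ.1 γ.2 y k
  · obtain ⟨f0, a, b⟩ := push_rg_lift (R := fun x g y => x ≤ g.1 • y) (e A) (e B)
      (k.mono fun x g y a => by
        obtain ⟨γ, b, c⟩ := h2 x g y a
        exact ⟨(γ, g.2), c, Prod.ext b rfl⟩)
    obtain ⟨f', c⟩ := fgt_full (A := A) (B := B) a
    exact ⟨f', (congrArg (Tw.push p) c).trans b⟩
  · obtain ⟨d, hd⟩ := ex_ld M
    exact ⟨⟨⟨B.as, d⟩⟩, M, rfl, fun x => (hd x).symm⟩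

end

section

variable {X : Type w'} [Lattice X] {B : Bl X} {G : Type w} [Group G] [MulAction G X] {N : ℕ}

theorem wl_free [B.Ac G] {J : Type} [Finite J] {A : Set J} (hA : A.Nonempty)
    (y0 : J → YL B N) : ∃ (Γ : Type w) (_ : Group Γ) (j : Γ →* G) (Z : Type w') (_ : Preorder Z)
      (_ : MulAction Γ Z) (_ : Nonempty Z) (κ : Type) (_ : Fintype κ) (_ : Oq Γ Z κ)
      (φ : Z → J → YL B N) (ψ : (J → YL B N) → Z),
      (∀ x (γ : Γ) y, x ≤ γ • y → ∀ L ∈ A, (φ x L).le (j γ • φ y L)) ∧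
      (∀ x (g : G) y, (∀ L ∈ A, (φ x L).le (g • φ y L)) → ∃ γ, j γ = g ∧ x ≤ γ • y) ∧
      (∀ (x : Z) (γ γ' : Γ) (y : Z), x ≤ γ • y → x ≤ γ' • y → j γ = j γ' → γ = γ') ∧
      (∀ y, (∀ L ∈ A, (y L).ℓ = (y0 L).ℓ) → ∀ L ∈ A, φ (ψ y) L = y L) ∧
      (∀ x, ∀ L ∈ A, (φ x L).ℓ = (y0 L).ℓ) ∧
      (∃ (m : ℕ) (e : Γ →* Multiplicative (Fin m → ℤ)), Function.Injective (j.prod e)) ∧
      ∀ z : Z, ∃ x : X, Set.InjOn j (stabilizer Γ z) ∧
        (stabilizer Γ z).map j ≤ stabilizer G x := by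
  classical
  have := Fintype.ofFinite A
  let κ (i : A) : Type := {c // 0 < (y0 i).ℓ c}
  let Z (i : A) : Type w' := Cw B fun c : κ i => (y0 i).ℓ c
  let Γ : Type w := G × Multiplicative (∀ i, κ i → ℤ)
  let p (i : A) : Γ →* G × Multiplicative (κ i → ℤ) := (MonoidHom.id G).prodMap
    (AddMonoidHom.toMultiplicative (Pi.evalAddMonoidHom (fun i => κ i → ℤ) i))
  let _ (i : A) : MulAction Γ (Z i) := MulAction.compHom _ (p i)
  have e (γ : Γ) (y : ∀ i, Z i) (i) : (γ • y) i = (y i).act γ.1 (γ.2.toAdd i) := rfl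
  have P (i : A) : Oq Γ (Z i) (κ i) :=
    ((Cw.wp B (fun c : κ i => (y0 i).ℓ c) G).some.oq.some.comap (p i) fun _ _ => rfl).choose
  choose ψ hψ using fun (y : J → YL B N) (i : A) => show ∃ x : Z i,
      (y i).ℓ = (y0 i).ℓ → (⟨_, x⟩ : YL B N) = y i by
    by_cases k : (y i).ℓ = (y0 i).ℓ
    · generalize y i = a at k
      obtain ⟨ℓ, x⟩ := a
      obtain rfl : ℓ = _ := k
      exact ⟨x, fun _ => rfl⟩
    · exact ⟨(y0 i).x, fun l => (k l).elim⟩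
  refine ⟨Γ, inferInstance, .fst .., ∀ i, Z i, inferInstance, inferInstance, ⟨fun i => (y0 i).x⟩,
    _, inferInstance, (Oq.pi P).some, fun x L => if h : L ∈ A then ⟨_, x ⟨L, h⟩⟩ else y0 L, ψ,
    fun x γ y k L h => ?_, fun x g y k => ?_, fun x γ γ' y a b c => ?_, fun y k L h => ?_,
    fun x L h => by simp only [dif_pos h], ⟨_, (AddMonoidHom.toMultiplicative (Module.finBasis ℤ
      (∀ i, κ i → ℤ)).equivFun.toLinearMap.toAddMonoidHom).comp (.snd ..), fun a b k =>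
        Prod.ext (Prod.ext_iff.1 k).1 (Multiplicative.toAdd.injective
          ((Module.finBasis ℤ (∀ i, κ i → ℤ)).equivFun.injective
            (congrArg Multiplicative.toAdd (Prod.ext_iff.1 k).2)))⟩, fun z => ?_⟩
  · simp only [dif_pos h]
    exact YL.le_mk.2 ⟨γ.2.toAdd ⟨L, h⟩, Cw.le_act_iff.2 (k ⟨L, h⟩)⟩
  · choose s hs using fun i : A => show ∃ s, (x i).le (((y i).act g 0).sh s) by
      have := k i i.2
      simp only [dif_pos i.2] at this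
      exact YL.le_mk.1 this
    exact ⟨(g, .ofAdd s), rfl, fun i => Cw.le_act_iff.1 (hs i)⟩
  · obtain ⟨g, s⟩ := γ
    obtain ⟨g', s'⟩ := γ'
    obtain rfl : g = g' := c
    exact Prod.ext rfl (Multiplicative.toAdd.injective (funext fun i => Cw.sh_uniq
      (z := (y i).act g 0) (Cw.le_act_iff.2 (a i)) (Cw.le_act_iff.2 (b i))))
  · simp only [dif_pos h]
    exact hψ y ⟨L, h⟩ (k L h)
  · obtain ⟨i, h⟩ := hA
    obtain ⟨c⟩ := (z ⟨i, h⟩).ne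
    have s (γ : Γ) (k : γ ∈ stabilizer Γ z) (i) := Cw.stab ((e γ z i).symm.trans (congrFun k i))
    refine ⟨(z ⟨i, h⟩).U (c, 0), fun a k b l m => Prod.ext m (Multiplicative.toAdd.injective
      (funext fun i => (s a k i).1.trans (s b l i).1.symm)), ?_⟩
    rintro _ ⟨γ, k, rfl⟩
    exact (s γ k _).2 _

end

variable {C : Type u} [Category.{v} C] [Preadditive C] {G : Type w} [Group G]
variable [HasBinaryBiproducts C] [HasZeroObject C] {σ : Act G C}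

theorem zq_wd {X : Type w'} [Lattice X] (B : Bl X) [MulAction G X] [B.Ac G]
    [MulAction (G × Zi) X] [B.Ac (G × Zi)] (hj : ∀ (g : G × Zi) (x : X), g • x = g.1 • x)
    (hX : ∀ (Γ : Type w) [Group Γ] (j : Γ →* G) (Z : Type w') [Preorder Z] [MulAction Γ Z]
      [Nonempty Z] (κ : Type) [Fintype κ] (O : Oq Γ Z κ),
      (∃ (m : ℕ) (e : Γ →* Multiplicative (Fin m → ℤ)), Function.Injective (j.prod e)) →
      (∀ z : Z, ∃ x : X, Set.InjOn j (stabilizer Γ z) ∧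
        (stabilizer Γ z).map j ≤ stabilizer G x) → KZ (Lc.act (σ.comap j) O.hm))
    {N : ℕ} {J : Type} [Finite J] {A : Set J} (hA : A.Nonempty) :
    (SZ σ).Zq ((YL.pf B (G × Zi) N J).cap A).nr.rl := by
  classical
  have := Fintype.ofFinite A
  have e (g : G × Zi) (y : YL B N) : g • y = g.1 • y := congrArg (YL.mk y.ℓ)
    (Cw.ext (funext fun _ => hj ..) (funext fun _ => hj ..))
  obtain ⟨c, hc⟩ := Countable.exists_injective_nat (A → Fin N → ℕ)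
  have k' {x g y} (k : ((YL.pf B (G × Zi) N J).cap A).nr.rl.r x g y) (L : A) :
      (x L).ℓ = (y L).ℓ ∨ ∑ c, (y L).ℓ c < ∑ c, (x L).ℓ c := YL.le_l (z := g • y L) (k L L.2)
  have k2 {x g y} (k : ((YL.pf B (G × Zi) N J).cap A).nr.rl.r x g y) (L : A) :
      ∑ c, (y L).ℓ c ≤ ∑ c, (x L).ℓ c :=
    (k' k L).elim (fun m => (congrArg (∑ c, · c) m).ge) le_of_lt
  refine zq_tri (fun x => -(∑ L : A, ∑ c, (x L).ℓ c : ℕ)) (fun x g y k =>
    neg_le_neg (Int.ofNat_le.2 (Finset.sum_le_sum fun L _ => k2 k L))) fun m =>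
      zq_tri (fun x => c fun L => (x L).ℓ) (fun x g y k => le_of_eq ?_) fun t => ?_
  · have l := (Finset.sum_eq_sum_iff_of_le fun L _ => k2 k.1 L).1
      (Int.ofNat_inj.1 (neg_injective (k.2.2.trans k.2.1.symm)))
    exact congrArg (fun s => (c s : ℤ)) (funext fun L =>
      (k' k.1 L).resolve_right (l L (Finset.mem_univ _)).not_lt)
  by_cases k : ∃ y0 : J → YL B N, -(∑ L : A, ∑ c, (y0 L).ℓ c : ℕ) = m ∧
    (c fun L => (y0 L).ℓ : ℤ) = t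
  swap
  · exact zq_empty fun a g b l => k ⟨a, l.1.2.1, l.2.1⟩
  obtain ⟨y0, rfl, rfl⟩ := k
  obtain ⟨Γ, _, j, Z, _, _, _, κ, _, O, φ, ψ, h1, h2, h3, h4, h5, h7, h6⟩ :=
    wl_free (G := G) hA y0
  have f (x) : (fun L : A => (φ x L).ℓ) = fun L : A => (y0 L).ℓ := funext fun L => h5 x L L.2
  have f' (x) : -((∑ L : A, ∑ c, (φ x L).ℓ c : ℕ) : ℤ) = -(∑ L : A, ∑ c, (y0 L).ℓ c : ℕ) :=
    congrArg (fun s : A → Fin N → ℕ => -((∑ L, ∑ c, s L c : ℕ) : ℤ)) (f x)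
  have f2 (x) := congrArg (fun s => (c s : ℤ)) (f x)
  refine zq_lf j O.hm (hX Γ j Z κ O h7 h6) h3 φ ψ
    (fun x γ z y k => ⟨⟨fun L l => ?_, f' x, f' y⟩, f2 x, f2 y⟩)
    (fun x g y k => h2 x g.1 y fun L l => ?_) fun a g b k => ?_
  · exact (congrArg (φ x L).le (e (j γ, z) (φ y L))).mpr (h1 x γ y k L l)
  · exact (congrArg (φ x L).le (e g (φ y L))).mp (k.1.1 L l)
  · have p := h4 a fun L l => congrFun (hc (Int.ofNat_inj.1 k.2.1)) ⟨L, l⟩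
    have q := h4 b fun L l => congrFun (hc (Int.ofNat_inj.1 k.2.2)) ⟨L, l⟩
    exact ⟨⟨⟨fun L l => (congrArg (fun s => (a L).le (g • s)) (q L l)).mpr (k.1.1 L l), k.1.2.1,
      f' _⟩, k.2.1, f2 _⟩, ⟨fun L l => (congrArg (YL.le · (g • b L)) (p L l)).mpr (k.1.1 L l),
        f' _, k.1.2.2⟩, f2 _, k.2.2⟩

end Bg

end Pool.Agent.Lib.MP_5d3e93_al
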