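import Pool.Agent.Lib.MP_5d3e93_al.K.Fam

/-! Closed classes and groups of shifts. -/

open CategoryTheory Limits

namespace Pool.Agent.Lib.MP_5d3e93_al

universe w v u

theorem Fam.comap_comp {Γ Γ' Γ'' : Type w} [Group Γ] [Group Γ'] [Group Γ''] (𝓕 : Fam Γ)
    (j : Γ' →* Γ) (i : Γ'' →* Γ') : (𝓕.comap j).comap i = 𝓕.comap (j.comp i) := by
  unfold Fam.comap
  congr 1
  exact funext fun H => congrArg 𝓕.m (Subgroup.map_map ..)

variable {C : Type (max u v w)} [Category.{v} C] [Preadditive C] [HasBinaryBiproducts C]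
  [HasZeroObject C] {H : Type w} [Group H] {κ : Type*} (χ : κ → H → ℤ)
  (mul : ∀ c a b, χ c (a * b) = χ c a + χ c b)

include mul in
theorem Okf.pi_aux (s : Finset κ) : ∀ {Γ : Type w} [Group Γ] {𝓕 : Fam Γ} {σ : Act Γ C},
    Okf.{w, v, u} 𝓕 σ → ∀ j : H →* Γ, (∀ g, j g = 1 → (∀ c ∈ s, χ c g = 0) → g = 1) →
      Okf.{w, v, u} (𝓕.comap j) (σ.comap j) := by
  classical
  induction s using Finset.induction_on with
  | empty =>
    exact fun h j k => h.sub j ((injective_iff_map_eq_one j).2 fun g e => k g e (by simp))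
  | insert c s _ ih =>
    intro Γ _ 𝓕 σ h j k
    have := ih h.fst (j.prod (MonoidHom.mk' (fun g => Multiplicative.ofAdd (χ c g)) fun a b =>
      congrArg Multiplicative.ofAdd (mul c a b))) fun g e l => k g (congrArg Prod.fst e) (by
        simpa using ⟨congrArg Prod.snd e, l⟩)
    rw [Fam.comap_comp] at this
    exact this

include mul in
theorem Okf.pi [Finite κ] {Γ : Type w} [Group Γ] {𝓕 : Fam Γ} {σ : Act Γ C}
    (h : Okf.{w, v, u} 𝓕 σ) (j : H →* Γ) (hk : ∀ g, j g = 1 → (∀ c, χ c g = 0) → g = 1) :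
    Okf.{w, v, u} (𝓕.comap j) (σ.comap j) :=
  have := Fintype.ofFinite κ
  Okf.pi_aux χ mul Finset.univ h j fun g e l => hk g e fun c => l c (Finset.mem_univ c)

end Pool.Agent.Lib.MP_5d3e93_al
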