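import Pool.Agent.Lib.MP_5d3e93_al.K.Glue
import Pool.Agent.Lib.MP_5d3e93_al.Bg.LinA

/-! From lattices with a shift to linear groups, relative form in all degrees. -/

open CategoryTheory Limits MulAction

namespace Pool.Agent.Lib.MP_5d3e93_al

universe w v u

/-- The relative theorem for lattices with a shift. -/
def LatK : Prop := ∀ (G : Type w) [Group G] (C : Type (max u v w)) [Category.{v} C] [Preadditive C]
  [HasBinaryBiproducts C] [HasZeroObject C] (σ : Act G C) (𝓕 : Fam G), K0Zero C →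
  Okf.{w, v, u} 𝓕 σ →
  ∀ (X : Type w) [Lattice X] [Nonempty X] (B : Bg.Bl X) [MulAction G X] [B.Ac G],
    (∀ x : X, 𝓕.Tame (stabilizer G x)) → KZ σ

theorem linK_of_latK (lat : LatK.{w, v, u}) : LinK.{w, v, u} := by
  intro G _ C _ _ _ _ σ 𝓕 h0 hs k K _ _ _ n φ h
  have a := Fam.tame_of_span (𝓕 := 𝓕) (k := k) ((Units.coeHom _).comp φ) h
  refine kz_fg fun U b => ?_
  have := (Group.fg_iff_subgroup_fg U).2 b
  obtain ⟨X, _, _, _, B, d, e⟩ := Bg.ex_lat (k := k) (φ.comp U.subtype)
  refine lat U C _ _ h0 (hs.sub _ U.subtype_injective) X B fun x => (a _ ?_).comap le_rfl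
  rw [Subgroup.coe_map, Set.image_image]
  exact e x

end Pool.Agent.Lib.MP_5d3e93_al
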