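import Pool.Agent.Lib.MP_5d3e93_al.K.Glue
import Pool.Agent.Lib.MP_5d3e93_al.Bg.LinA

/-! All linear groups from lattices with a shift, the rational case and the hyper case. -/

open CategoryTheory Limits MulAction

namespace Pool.Agent.Lib.MP_5d3e93_al

universe w v u

/-- The relative theorem for lattices with a shift, for stably trivial coefficients. -/
def LatK0 : Prop := ∀ (G : Type w) [Group G] (C : Type (max u v w)) [Category.{v} C]
  [Preadditive C] [HasBinaryBiproducts C] [HasZeroObject C] (σ : Act G C) (𝓕 : Fam G),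
  K0Zero C → Okf.{w, v, u} 𝓕 σ →
  ∀ (X : Type w) [Lattice X] [Nonempty X] (B : Bg.Bl X) [MulAction G X] [B.Ac G],
    (∀ x : X, 𝓕.Tame (stabilizer G x)) → KZ σ

theorem LatK0.lin (lat : LatK0.{w, v, u}) {G : Type w} [Group G] {C : Type (max u v w)}
    [Category.{v} C] [Preadditive C] [HasBinaryBiproducts C] [HasZeroObject C] {σ : Act G C}
    {𝓕 : Fam G} (h0 : K0Zero C) (hs : Okf.{w, v, u} 𝓕 σ) (k : Type*) {K : Type w} [Field k]
    [Field K] [Algebra k K] {n : ℕ} (φ : G →* GL (Fin n) K)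
    (h : ∀ N : Subgroup G, Module.Finite k (Submodule.span k
      ((fun g => (φ g : Matrix (Fin n) (Fin n) K)) '' N)) →
      ∀ t ∈ Subgroup.normalizer (N : Set G), 𝓕.m (N ⊔ Subgroup.zpowers t)) : KZ σ := by
  have a := Fam.tame_of_span (𝓕 := 𝓕) (k := k) ((Units.coeHom _).comp φ) h
  refine kz_fg fun U b => ?_
  have := (Group.fg_iff_subgroup_fg U).2 b
  obtain ⟨X, _, _, _, B, d, e⟩ := Bg.ex_lat (k := k) (φ.comp U.subtype)
  refine lat U C _ _ h0 (hs.sub _ U.subtype_injective) X B fun x => (a _ ?_).comap le_rfl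
  rw [Subgroup.coe_map, Set.image_image]
  exact e x

theorem kz_linear0 (hy : HyK.{w, v, u}) (gl : GlK.{w, v, u} ℚ) (lat : LatK0.{w, v, u}) {G : Type w}
    [Group G] {K : Type w} [Field K] {n : ℕ} (φ : G →* GL (Fin n) K) (hφ : Hyper φ.ker)
    {C : Type u} [Category.{v} C] [Preadditive C] [HasBinaryBiproducts C] [HasZeroObject C]
    {σ : Act G C} (hs : Sw σ) : KZ σ := by
  have hm : ∀ (g : G) (a b : PUnit.{w + 1}), a ≤ b → g • a ≤ g • b := fun _ _ _ _ => le_rfl
  refine kz_loc (hm := hm) PUnit.unit (fun _ => le_rfl) ?_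
  obtain h | ⟨p, hp, h⟩ := CharP.exists' K
  · exact lat.lin (hs.act hm).k0 (okf_rk hy gl (hs.act hm)) ℚ φ (rk_pair φ hφ)
  · let _ : Algebra (ZMod p) K := ZMod.algebra K p
    exact lat.lin (hs.act hm).k0 (okf_rk hy (glK_fin (ZMod p)) (hs.act hm)) (ZMod p) φ
      (rk_pair φ hφ)

/-- The relative form, for swindles along a family. -/
theorem LatK0.rel (lat : LatK0.{w, v, u}) {G : Type w} [Group G] {C : Type u} [Category.{v} C]
    [Preadditive C] [HasBinaryBiproducts C] [HasZeroObject C] {σ : Act G C} {𝓕 : Fam G}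
    (hs : SwF 𝓕 σ) (k : Type*) {K : Type w} [Field k] [Field K] [Algebra k K] {n : ℕ}
    (φ : G →* GL (Fin n) K) (h : ∀ N : Subgroup G, Module.Finite k (Submodule.span k
      ((fun g => (φ g : Matrix (Fin n) (Fin n) K)) '' N)) →
      ∀ t ∈ Subgroup.normalizer (N : Set G), 𝓕.m (N ⊔ Subgroup.zpowers t)) : KZ σ := by
  have hm : ∀ (g : G) (a b : PUnit.{w + 1}), a ≤ b → g • a ≤ g • b := fun _ _ _ _ => le_rfl
  exact kz_loc (hm := hm) PUnit.unit (fun _ => le_rfl) (lat.lin (hs.act hm _ (h ⊥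
    (Module.Finite.span_of_finite k ((Set.finite_singleton 1).image _)) 1 (one_mem _))).k0
    (hs.act hm).okf k φ h)

end Pool.Agent.Lib.MP_5d3e93_al
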