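import Pool.Agent.Lib.MP_5d3e93_al.Gr.Tor
import Pool.Agent.Lib.MP_5d3e93_al.Gr.Brg
import Pool.Agent.Lib.MP_5d3e93_al.K.CDf

/-! From the vanishing of all K-groups back to degree one. -/

open CategoryTheory Limits ZeroObject Filter MulAction

namespace Pool.Agent.Lib.MP_5d3e93_al

universe w w' v u y y' v' u'

namespace Gr

section Em

variable {A : Type u'} [Category.{v'} A] [Preadditive A]

/-- Split embeddings. -/
structure Ck1Em (X B : A) where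
  i : X ⟶ B
  r : B ⟶ X
  e : i ≫ r = 𝟙 X

namespace Ck1Em

variable {X Y B B' : A}

/-- Composition. -/
def trans (a : Ck1Em X Y) (b : Ck1Em Y B) : Ck1Em X B :=
  ⟨a.i ≫ b.i, b.r ≫ a.r, by simp [reassoc_of% b.e, a.e]⟩

/-- The map of abelianised automorphism groups. -/
def β (a : Ck1Em X B) : Abelianization (Aut X) →* Abelianization (Aut B) :=
  Abelianization.map (GC.autExt a.e)

theorem β_trans (a : Ck1Em X Y) (b : Ck1Em Y B) (x) : (a.trans b).β x = b.β (a.β x) := by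
  obtain ⟨x, rfl⟩ := QuotientGroup.mk_surjective x
  refine congrArg Abelianization.of (Iso.ext ?_)
  change (b.r ≫ a.r) ≫ x.hom ≫ a.i ≫ b.i + (𝟙 B - (b.r ≫ a.r) ≫ a.i ≫ b.i) =
    b.r ≫ (a.r ≫ x.hom ≫ a.i + (𝟙 Y - a.r ≫ a.i)) ≫ b.i + (𝟙 B - b.r ≫ b.i)
  simp
  abel

theorem β_id (x) : (⟨𝟙 X, 𝟙 X, by simp⟩ : Ck1Em X X).β x = x := by
  obtain ⟨x, rfl⟩ := QuotientGroup.mk_surjective x
  refine congrArg Abelianization.of (Iso.ext ?_)
  change 𝟙 X ≫ x.hom ≫ 𝟙 X + (𝟙 X - 𝟙 X ≫ 𝟙 X) = x.hom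
  simp

theorem β_orth (a b : Ck1Em X B) (h : a.i ≫ b.r = 0) (h' : b.i ≫ a.r = 0) (x) :
    a.β x = b.β x := by
  obtain ⟨x, rfl⟩ := QuotientGroup.mk_surjective x
  have ea := a.e
  have eb := b.e
  let t : B ⟶ B := a.r ≫ b.i + b.r ≫ a.i + (𝟙 B - a.r ≫ a.i - b.r ≫ b.i)
  have tt : t ≫ t = 𝟙 B := by
    simp [t, reassoc_of% ea, reassoc_of% eb, reassoc_of% h, reassoc_of% h']
    abel
  let σ : Aut B := ⟨t, t, tt, tt⟩
  have : σ * GC.autExt a.e x = GC.autExt b.e x * σ := Iso.ext (by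
    change (a.r ≫ x.hom ≫ a.i + (𝟙 B - a.r ≫ a.i)) ≫ t =
      t ≫ (b.r ≫ x.hom ≫ b.i + (𝟙 B - b.r ≫ b.i))
    simp [t, reassoc_of% ea, reassoc_of% eb, reassoc_of% h, reassoc_of% h']
    abel)
  have k := congrArg Abelianization.of this
  rw [map_mul, map_mul, mul_comm] at k
  exact mul_right_cancel k

variable [HasBinaryBiproducts A]

/-- The first summand. -/
noncomputable def l (B B' : A) : Ck1Em B (B ⊞ B') := ⟨biprod.inl, biprod.fst, by simp⟩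

/-- The second summand. -/
noncomputable def rr (B B' : A) : Ck1Em B' (B ⊞ B') := ⟨biprod.inr, biprod.snd, by simp⟩

theorem β_two (a : Ck1Em X B) (b : Ck1Em X B') (x) :
    (l B B').β (a.β x) = (rr B B').β (b.β x) := by
  rw [← β_trans, ← β_trans]
  exact β_orth _ _ (by simp [trans, l, rr]) (by simp [trans, l, rr]) x

/-- Stably trivial classes. -/
def St (X : A) : Subgroup (Abelianization (Aut X)) where
  carrier := {x | ∃ (B : A) (a : Ck1Em X B), a.β x = 1}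
  one_mem' := ⟨X, ⟨𝟙 X, 𝟙 X, by simp⟩, map_one _⟩
  mul_mem' := fun {x y} ⟨B, a, h⟩ ⟨B', b, k⟩ => ⟨_, a.trans (l B B'), by
    rw [map_mul, β_trans, β_trans, h, β_two a b, k, map_one, map_one, one_mul]⟩
  inv_mem' := fun ⟨B, a, h⟩ => ⟨B, a, by rw [map_inv, h, inv_one]⟩

/-- The map of the reduced groups. -/
def γ (a : Ck1Em X B) :
    Abelianization (Aut X) ⧸ St X →* Abelianization (Aut B) ⧸ St B :=
  QuotientGroup.map _ _ a.β fun x ⟨B', b, h⟩ => ⟨_, l B B', by rw [β_two a b, h, map_one]⟩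

theorem γ_eq (a b : Ck1Em X B) (x) : a.γ x = b.γ x := by
  obtain ⟨x, rfl⟩ := QuotientGroup.mk_surjective x
  exact QuotientGroup.eq.2 ⟨_, l B B, by
    rw [map_mul, map_inv, β_two a b, β_two b b, inv_mul_cancel]⟩

theorem unip (p : Y ⟶ B) (j : B ⟶ Y) (h : j ≫ p = 0) (u : Aut Y) (e : u.hom = 𝟙 Y + p ≫ j) :
    Abelianization.of u ∈ St Y := by
  let m : Y ⊞ B ⟶ Y ⊞ B := biprod.fst ≫ p ≫ biprod.inr
  let n : Y ⊞ B ⟶ Y ⊞ B := biprod.snd ≫ j ≫ biprod.inl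
  let M : Aut (Y ⊞ B) := ⟨𝟙 _ + m, 𝟙 _ - m, by simp [m], by simp [m]⟩
  let N : Aut (Y ⊞ B) := ⟨𝟙 _ + n, 𝟙 _ - n, by simp [n], by simp [n]⟩
  have : M * N * GC.autExt (l Y B).e u = N * M := Iso.ext (by
    change (biprod.fst ≫ u.hom ≫ biprod.inl + (𝟙 _ - biprod.fst ≫ biprod.inl)) ≫
      (𝟙 _ + n) ≫ (𝟙 _ + m) = (𝟙 _ + m) ≫ (𝟙 _ + n)
    simp [e, m, n, reassoc_of% h]
    abel)
  have k := congrArg Abelianization.of this
  rw [map_mul, map_mul, map_mul, mul_comm (Abelianization.of N)] at k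
  exact ⟨_, l Y B, mul_eq_left.1 k⟩

end Ck1Em

/-- Objects ordered by split embeddings. -/
structure Ck1Ob (A : Type u') where
  X : A

instance : Preorder (Ck1Ob A) where
  le a b := Nonempty (Ck1Em a.X b.X)
  le_refl a := ⟨⟨𝟙 _, 𝟙 _, by simp⟩⟩
  le_trans _ _ _ := fun ⟨a⟩ ⟨b⟩ => ⟨a.trans b⟩

variable [HasBinaryBiproducts A]

instance : IsDirectedOrder (Ck1Ob A) :=
  ⟨fun a b => ⟨⟨a.X ⊞ b.X⟩, ⟨.l _ _⟩, ⟨.rr _ _⟩⟩⟩

/-- The reduced groups. -/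
abbrev Ck1G (a : Ck1Ob A) := Abelianization (Aut a.X) ⧸ Ck1Em.St a.X

/-- The transition maps. -/
noncomputable def ck1f (a b : Ck1Ob A) (h : a ≤ b) : Ck1G a →* Ck1G b := (Nonempty.some h).γ

instance : DirectedSystem (Ck1G (A := A)) (ck1f · · ·) where
  map_self a x := by
    refine (Ck1Em.γ_eq _ ⟨𝟙 _, 𝟙 _, by simp⟩ x).trans ?_
    obtain ⟨x, rfl⟩ := QuotientGroup.mk_surjective x
    exact congrArg _ (Ck1Em.β_id x)
  map_map a b c h k x := by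
    refine Eq.trans ?_ (Ck1Em.γ_eq ((Nonempty.some h).trans (Nonempty.some k)) _ x)
    obtain ⟨x, rfl⟩ := QuotientGroup.mk_surjective x
    exact congrArg _ (Ck1Em.β_trans _ _ x).symm

/-- The class of an automorphism. -/
noncomputable def ck1c (X : A) (a : Aut X) : DirectLimit (Ck1G (A := A)) ck1f :=
  ⟦⟨⟨X⟩, QuotientGroup.mk (Abelianization.of a)⟩⟧

theorem ck1c_mul (X : A) (a b : Aut X) : ck1c X (a * b) = ck1c X a * ck1c X b := by
  unfold ck1c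
  rw [DirectLimit.mul_def, map_mul]
  rfl

theorem ck1c_ext {X B : A} (e : Ck1Em X B) (a : Aut X) :
    ck1c B (GC.autExt e.e a) = ck1c X a := by
  unfold ck1c
  rw [DirectLimit.eq_of_le (F := Ck1G (A := A)) (f := ck1f) ⟨⟨X⟩, _⟩ ⟨B⟩ ⟨e⟩]
  exact congrArg (fun t => (⟦⟨⟨B⟩, t⟩⟧ : DirectLimit (Ck1G (A := A)) ck1f))
    (Ck1Em.γ_eq e _ (QuotientGroup.mk (Abelianization.of a)))

end Em

section Tor
variable {A : Type (max u v)} [Category.{v} A] [Preadditive A] [HasZeroObject A]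
  [HasBinaryBiproducts A]

theorem k1zero_of_lam (h : ∀ (M : Type (max u v)) [AddCommGroup M] (lam : ∀ X : A, Aut X → M),
    Lam lam → ∀ X a, lam X a = 0) : K1Zero A := by
  intro X a
  have : Nonempty (Ck1Ob A) := ⟨⟨X⟩⟩
  have k : ck1c X a = 1 := by
    refine h (Additive (DirectLimit (Ck1G (A := A)) ck1f)) (fun X a => .ofMul (ck1c X a))
      ⟨ck1c_mul, fun {X Y Z} i p ⟨r, s, e1, e2, e3⟩ a b c h1 h2 => ?_⟩ X a
    have ip : i ≫ p = 0 := by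
      have := congrArg (fun t => i ≫ t ≫ p) e3
      simpa [reassoc_of% e1, e2] using this
    have sr : s ≫ r = 0 := by
      have := congrArg (fun t => s ≫ t ≫ r) e3
      simpa [reassoc_of% e2, e1] using this
    let d := GC.autExt e1 a * GC.autExt e2 c
    have hd : d.hom = r ≫ a.hom ≫ i + p ≫ c.hom ≫ s := by
      change (p ≫ c.hom ≫ s + (𝟙 Y - p ≫ s)) ≫ (r ≫ a.hom ≫ i + (𝟙 Y - r ≫ i)) = _
      rw [eq_sub_of_add_eq e3, (eq_sub_of_add_eq e3).symm, (eq_sub_of_add_eq' e3).symm]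
      simp [reassoc_of% e1, reassoc_of% e2, reassoc_of% ip, reassoc_of% sr, add_comm]
    have hb : b.hom = (𝟙 Y + p ≫ s ≫ b.hom ≫ r ≫ a.inv ≫ i) ≫ d.hom := by
      have : b.hom = (r ≫ i + p ≫ s) ≫ b.hom ≫ (r ≫ i + p ≫ s) := by simp [e3]
      rw [hd]
      refine this.trans ?_
      simp [reassoc_of% h1, ← reassoc_of% h2, reassoc_of% e1, reassoc_of% e2, reassoc_of% ip,
        reassoc_of% a.inv_hom_id]
    have u : ck1c Y (d⁻¹ * b) = 1 :=
      (DirectLimit.exists_eq_one (G := Ck1G (A := A)) (f := ck1f) _).2 ⟨⟨Y⟩, le_rfl, by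
        rw [(QuotientGroup.eq_one_iff _).2 (Ck1Em.unip p (s ≫ b.hom ≫ r ≫ a.inv ≫ i)
          (by simp [ip]) (d⁻¹ * b) ((Iso.comp_inv_eq d).2 hb)), map_one]⟩
    change ck1c Y b = ck1c X a * ck1c Z c
    rw [← ck1c_ext ⟨i, r, e1⟩ a, ← ck1c_ext ⟨s, p, e2⟩ c, ← ck1c_mul, ← mul_inv_cancel_left d b,
      ck1c_mul, u, mul_one]
  obtain ⟨B, ⟨e⟩, k⟩ := (DirectLimit.exists_eq_one (G := Ck1G (A := A)) (f := ck1f) _).1 k
  obtain ⟨B', e', k⟩ := (QuotientGroup.eq_one_iff _).1 ((Ck1Em.γ_eq e _ _).trans k)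
  have k' := Ck1Em.β_two ⟨𝟙 X, 𝟙 X, by simp⟩ (e.trans e') (Abelianization.of a)
  rw [Ck1Em.β_id, Ck1Em.β_trans, k, map_one] at k'
  refine ⟨X ⊞ B', B', biprod.inl, biprod.fst, biprod.inr, biprod.snd, by simp, by simp, by simp,
    _, (QuotientGroup.eq_one_iff _).1 k', ?_⟩
  exact congrArg (_ + ·) (eq_sub_of_add_eq' biprod.total).symm

theorem k1zero_of_Z [IsIdempotentComplete A] (z : Am.Z (Am.of.{v, u} A).bdd) : K1Zero A :=
  (Mo.base.{v, u} (A := A)).elim fun m =>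
    k1zero_of_lam.{v, u} fun _ _ _ h => torsion.{v, u} h ((brg_iter 1 m).2 (z 1))

end Tor

end Gr

open Gr

namespace GC

variable {G : Type w} [Group G] {C : Type u} [Category.{v} C] [Preadditive C] [HasZeroObject C]
  {S : GC G C}

omit [HasZeroObject C] in
theorem ck1_ext {H : Subgroup G} {X B : C} {i : X ⟶ B} {r : B ⟶ X} {a : X ⟶ X} (hi : S.Sup H i)
    (hr : S.Sup H r) (e : i ≫ r = 𝟙 X) (h : S.Tr H (r ≫ a ≫ i + (𝟙 B - r ≫ i))) : S.Tr H a := by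
  have t := Sup.blk .zero hi hr ((Sup.id H.one_mem).sub (hr.scomp hi))
  have tt : S.blk 0 i r (𝟙 B - r ≫ i) ≫ S.blk 0 i r (𝟙 B - r ≫ i) = 𝟙 _ := by
    simp [e, reassoc_of% e]
  have := Tr.conj t t tt tt (h.id_bd X)
  refine Tr.of_bd (D := B) ?_
  convert this using 1
  simp [e, reassoc_of% e]

theorem W_of_WK (h0 : ∀ A B, ∃ (E : C) (c : S.sum B E ⟶ S.sum A E), S.HIso 1 c) {H : Subgroup G}
    (z : S.WK H) : S.W H := by
  have sup : ∀ {M N : S.LQ (Rl.pt H)} (f : M ⟶ N), S.Sup H f.1 := fun f =>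
    (LQ.hom_rg f).sup fun _ _ _ => id
  have key : ∀ (X : C) (a : X ⟶ X), S.Iso H a → S.Tr H a := by
    intro X a ⟨h1, a', h2, h3, h4⟩
    let M : S.LQ (Rl.pt H) := ⟨X, .one S () X, 𝟙 X, by simp, Lo.rg_sup (.id H.one_mem)⟩
    obtain ⟨B, E, i, r, i', r', e1, -, e3, b, hb, e⟩ :=
      k1zero_of_Z.{v, u} (A := S.LQ (Rl.pt H)) z M
        ⟨LQ.homMk a (by simp [M]) (by simp [M]) (Lo.rg_sup h1),
          LQ.homMk a' (by simp [M]) (by simp [M]) (Lo.rg_sup h2), LQ.hom_ext h3, LQ.hom_ext h4⟩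
    have s1 : ∀ f : B ⟶ B, S.Sup H (f.1 + (𝟙 B.A - B.p)) := fun f =>
      (sup f).add ((Sup.id H.one_mem).sub (sup (𝟙 B)))
    have m : ∀ f g : B ⟶ B, (f.1 + (𝟙 B.A - B.p)) ≫ (g.1 + (𝟙 B.A - B.p)) =
        (f ≫ g).1 + (𝟙 B.A - B.p) := fun f g => by simp
    have hi : ∀ f g : B ⟶ B, f ≫ g = 𝟙 B →
        (f.1 + (𝟙 B.A - B.p)) ≫ (g.1 + (𝟙 B.A - B.p)) = 𝟙 _ := fun f g h => by
      rw [m, h]
      simp
    have cm : ∀ c ∈ commutator (Aut B), S.Tr H (c.hom.1 + (𝟙 B.A - B.p)) := by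
      intro c hc
      rw [commutator_eq_closure] at hc
      induction hc using Subgroup.closure_induction with
      | mem _ h =>
        obtain ⟨c, d, rfl⟩ := h
        have := Tr.comm (s1 _) (s1 _) (s1 _) (s1 _) (hi _ _ d.inv_hom_id) (hi _ _ d.hom_inv_id)
          (hi _ _ c.inv_hom_id) (hi _ _ c.hom_inv_id)
        rw [m, m, m] at this
        exact this
      | one =>
        have : (1 : Aut B).hom.1 + (𝟙 B.A - B.p) = 𝟙 _ := add_sub_cancel _ _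
        rw [this]
        exact .id
      | mul c d _ _ h1 h2 =>
        have := h2.comp h1
        rwa [m] at this
      | inv c _ h => exact h.cancel_left ((hi _ _ c.hom_inv_id).symm ▸ .id)
    have f3 : r.1 ≫ i.1 + r'.1 ≫ i'.1 = B.p := congrArg (·.1) e3
    have f : b.hom.1 + (𝟙 B.A - B.p) = r.1 ≫ a ≫ i.1 + (𝟙 B.A - r.1 ≫ i.1) := by
      rw [show b.hom.1 = r.1 ≫ a ≫ i.1 + r'.1 ≫ i'.1 from congrArg (·.1) e, ← f3]
      abel
    exact ck1_ext (X := X) (sup i) (sup r) (congrArg (·.1) e1) (f ▸ cm b hb)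
  intro A B f hf
  obtain ⟨E, c, hc⟩ := h0 A B
  exact (Tr.cancel_right (.one hc) (key _ _ ((hf.bd (.id (A := E))).comp
    (hc.iso (one_mem _))))).of_bd

end GC

end Pool.Agent.Lib.MP_5d3e93_al
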