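import Pool.Agent.Lib.MP_5d3e93_al.K.SK1a
import Pool.Agent.Lib.MP_5d3e93_al.K.CK1

/-! Back to degree one, with locations. -/

open CategoryTheory Limits ZeroObject Filter MulAction

namespace Pool.Agent.Lib.MP_5d3e93_al

universe w w' w'' v u y

open Gr

variable {G : Type w} [Group G] {C : Type u} [Category.{v} C] [Preadditive C] [HasZeroObject C]

theorem GC.tq_of_zq {S : GC G C}
    (h0 : ∀ A B, ∃ (E : C) (c : S.sum B E ⟶ S.sum A E), S.HIso 1 c) {X : Type y} [MulAction G X]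
    {ν : Nr G X} (z : S.Zq ν.rl) (D E : S.LO X fun _ => True) (u : D ⟶ E)
    (h : (S.lc _ ν).CI 0 u) : (S.lc _ ν).Tq 0 u :=
  GC.tq_of_k1 (GC.hz_of (C := C)) h0 (k1zero_of_Z.{v, max u y} (A := S.LQ ν.rl) z) D E u h

end Pool.Agent.Lib.MP_5d3e93_al
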