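import Pool.Agent.Lib.MP_5d3e93_al.K.BMv
import Pool.Agent.Lib.MP_5d3e93_al.K.SK1

/-! Vanishing over formal locations in all degrees. -/

open CategoryTheory Limits ZeroObject Filter MulAction

namespace Pool.Agent.Lib.MP_5d3e93_al

universe w w' v u

variable {G : Type w} [Group G] {C : Type u} [Category.{v} C] [Preadditive C] [HasZeroObject C]

namespace Bg

variable {J : Type} {l : Filter J} {h : J → ℕ} {n : ℕ}

variable {S : GC (G × Zi) C} {W : Type w'} [MulAction (G × Zi) W]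
  {P : Pf (G × Zi) W (Finset (Fin (n + 1)))}

variable (ok : S.Ok) (hW : ∀ (z : Zi) (x : W), ((1 : G), z) • x = x)
  (hloc : ∀ A : Set (Finset (Fin (n + 1))), A.Nonempty → S.Zq (P.cap A).nr.rl)
  (hh : Tendsto h l atTop)
include ok hW hloc hh

theorem ev_nv (M : ℕ) :
    S.EV l ((P.ar h).res fun j y => ∀ i, y.t i ≤ M * h j) (S.au l _).bdd :=
  ev_mv ok.hc hW (fun A a => GC.tq_of_zq ok.h0 (hloc A a)) hloc hh M

end Bg

end Pool.Agent.Lib.MP_5d3e93_al
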