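import Pool.Agent.Lib.MP_5d3e93_al.K.Trf
import Pool.Agent.Lib.MP_5d3e93_al.K.KopT
import Pool.Agent.Lib.MP_5d3e93_al.K.BLoc
import Pool.Agent.Lib.MP_5d3e93_al.K.SMv
import Pool.Agent.Lib.MP_5d3e93_al.K.FamB
import Pool.Agent.Lib.MP_5d3e93_al.K.LinK
import Pool.Agent.Lib.MP_5d3e93_al.K.LinL
import Pool.Agent.Lib.MP_5d3e93_al.K.BK0
import Pool.Agent.Lib.MP_5d3e93_al.Bg.TfB

/-! Vanishing in all degrees for actions on lattices with a shift. -/

open CategoryTheory Limits MulAction Filter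

namespace Pool.Agent.Lib.MP_5d3e93_al.Bg

universe w v u

variable {G : Type w} [Group G] {C : Type (max u v w)} [Category.{v} C] [Preadditive C]
  [HasBinaryBiproducts C] [HasZeroObject C] {σ : Act G C} {𝓕 : Fam G}
  (h : Okf.{w, v, u} 𝓕 σ) {X : Type w} [Lattice X] [Nonempty X] (B : Bl X)
  [MulAction G X] [hB : B.Ac G] (hX : ∀ x : X, 𝓕.Tame (stabilizer G x))
include h hB hX

theorem kz_lat_fg [Group.FG G] : KZ σ := by
  let _ : MulAction (G × Zi) X := MulAction.compHom X (MonoidHom.fst G Zi)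
  have : B.Ac (G × Zi) := ⟨fun g => hB.hm g.1, fun g => hB.hπ g.1, fun g => hB.hc g.1⟩
  have h0 := k0_of_kz (h.wf ⊥ (𝓕.le bot_le (hX (Classical.arbitrary X)).mem))
  obtain ⟨F, hF⟩ := (Group.fg_iff_monoid_fg.1 ‹_›).fg_top
  have z := ev_nv (l := atTop) (h := fun j : ℕ => j + 2) (ok (σ := σ) h0)
    (P := YL.pf B (G × Zi) (B.n + 2) (Finset (Fin (B.n + 1))))
    (fun z x => funext fun L => one_smul G (x L))
    (fun A k => zq_wd B (fun _ _ => rfl) (fun Γ _ j Z _ _ _ κ _ O ⟨m, e, a⟩ b => kz_oq' O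
      ((Okf.pi (fun c g => (e g).toAdd c) (fun c x y => by simp) h j fun g p q =>
        a (Prod.ext (p.trans (map_one j).symm) ((Multiplicative.toAdd.injective (funext q)).trans
          (map_one e).symm))).act O.hm).wf (lcd_act _ _) fun z =>
        (b z).elim fun x c => (hX x).comap c.2) k) (tendsto_add_atTop_nat 2) (4 * B.n + 6)
  refine GC.trf (q := .fst G Zi) (fun j => (B.tf (F.finite_toSet.insert 1)
    (Nat.le_add_left 2 j)).some) (.of_forall fun _ => .inl rfl) (fun g => ?_)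
      ⟨1, .of_forall fun j a g b k => k⟩ z
  obtain ⟨g, t⟩ := g
  rw [show (g, t) = (g, 1) * (1, t) by simp]
  refine mul_mem ?_ (Submonoid.subset_closure (.of_forall fun _ => .inl rfl))
  induction (hF ▸ Submonoid.mem_top g : g ∈ Submonoid.closure (F : Set G)) using
    Submonoid.closure_induction with
  | mem x p => exact Submonoid.subset_closure (.of_forall fun _ => .inr p)
  | one => exact one_mem _
  | mul x y _ _ p q => simpa using mul_mem p q

theorem kz_lat : KZ σ := by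
  refine kz_fg fun H a => ?_
  have := (Group.fg_iff_subgroup_fg H).2 a
  have : B.Ac H := ⟨fun g => hB.hm g.1, fun g => hB.hπ g.1, fun g => hB.hc g.1⟩
  refine kz_lat_fg (h.sub H.subtype H.subtype_injective) B fun x => (hX x).comap ?_
  rintro _ ⟨g, k, rfl⟩
  exact k

omit h hB hX in
theorem latK : LatK.{w, v, u} := fun _ _ _ _ _ _ _ _ _ _ h _ _ _ B _ _ hX => kz_lat h B hX

omit h hB hX in
theorem latK0 : LatK0.{w, v, u} := fun _ _ _ _ _ _ _ _ _ _ h _ _ _ B _ _ hX => kz_lat h B hX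

omit h hB hX in
theorem linK : LinK.{w, v, u} := linK_of_latK latK

end Pool.Agent.Lib.MP_5d3e93_al.Bg
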