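import Pool.Agent.Lib.MP_5d3e93_al.K.Gd

/-! Cutting located idempotents along a set of points that is closed under the relation. -/

open CategoryTheory Limits ZeroObject

namespace Pool.Agent.Lib.MP_5d3e93_al

universe w v u y v' u'

open Gr

theorem Rl.ext' {G : Type w} [Group G] {Y : Type y} {P Q : Rl G Y}
    (h : ∀ a g b, P.r a g b ↔ Q.r a g b) : P = Q := by
  obtain ⟨r, t⟩ := P
  obtain ⟨r', t'⟩ := Q
  obtain rfl : r = r' := funext fun a => funext fun g => funext fun b => propext (h a g b)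
  rfl

theorem fl_range {Z : Type*} (l : Z → ℤ) (Φ : (Z → Prop) → Prop) (h0 : ∀ k, Φ fun a => l a = k)
    (cut : ∀ (Ω : Z → Prop) k, Φ (fun a => Ω a ∧ k ≤ l a) → Φ (fun a => Ω a ∧ ¬k ≤ l a) → Φ Ω)
    (lo : ℤ) (n : ℕ) : Φ fun a => lo ≤ l a ∧ l a ≤ lo + n := by
  induction n with
  | zero => convert h0 lo using 2; omega
  | succ n ih =>
    refine cut _ (lo + (n + 1 : ℕ)) ?_ ?_
    · convert h0 (lo + (n + 1 : ℕ)) using 2; omega
    · convert ih using 2; omega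

theorem fl_pw {D : Type u'} [Category.{v'} D] {A B : D} {x : A ⟶ A} {y : B ⟶ B} {α : A ⟶ B}
    (h : α ≫ y = x ≫ α) (n : ℕ) : α ≫ pw y n = pw x n ≫ α := by
  induction n with
  | zero => simp
  | succ n ih => rw [pw_succ, pw_succ, reassoc_of% h, ih, Category.assoc]

namespace GC

variable {G : Type w} [Group G] {C : Type u} [Category.{v} C] [Preadditive C] {S : GC G C}
variable {Z : Type y} {A B D : C} {π : Z → Prop}

namespace Lo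

variable {L : S.Lo Z A} {M : S.Lo Z B} {R : Z → G → Z → Prop} {f : A ⟶ B}

/-- The part located in `π`. -/
noncomputable def ec (L : S.Lo Z A) (π : Z → Prop) : A ⟶ A := (L.map π).e True

theorem e_ec {x : Z} (h : π x) : L.e x ≫ L.ec π = L.e x :=
  (L.map_mul π True x).2.trans (if_pos (eq_true h))

theorem e_ec' {x : Z} (h : ¬π x) : L.e x ≫ L.ec π = 0 :=
  (L.map_mul π True x).2.trans (if_neg fun k => h (of_eq_true k))

theorem ec_tot (L : S.Lo Z A) (π : Z → Prop) : L.ec π + L.ec (¬π ·) = 𝟙 A := L.ext_l fun x => by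
  by_cases h : π x
  · simp [e_ec h, e_ec' (π := (¬π ·)) (not_not.2 h)]
  · simp [e_ec' h, e_ec (π := (¬π ·)) h]

theorem ec_rg : L.Rg L (fun x g y => g = 1 ∧ x = y ∧ π x) (L.ec π) := fun x y => by
  by_cases h : π x
  · rw [reassoc_of% e_ec h]
    simpa using (rg_id (L := L) x y).mono (Y := {g | g = 1 ∧ x = y ∧ π x}) fun g k => ⟨k.1, k.2, h⟩
  · rw [reassoc_of% e_ec' h, zero_comp]
    exact .zero

theorem Rg.ec_l (h : L.Rg M R f) (k : ∀ x g y, R x g y → π x → π y) :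
    L.Rg M (fun x g y => R x g y ∧ π x ∧ π y) (L.ec π ≫ f) :=
  ec_rg.comp h fun x g y g' z a b => by
    obtain ⟨rfl, rfl, c⟩ := a
    rw [one_mul]
    exact ⟨b, c, k _ _ _ b c⟩

theorem Rg.ec_r (h : L.Rg M R f) (k : ∀ x g y, R x g y → π x → π y) :
    L.Rg M (fun x g y => R x g y ∧ ¬π x ∧ ¬π y) (f ≫ M.ec (¬π ·)) :=
  h.comp ec_rg fun x g y g' z a b => by
    obtain ⟨rfl, rfl, c⟩ := b
    rw [mul_one]
    exact ⟨a, mt (k _ _ _ a) c, c⟩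

theorem Rg.ec_zero (h : L.Rg M R f) (k : ∀ x g y, R x g y → π x → π y) :
    L.ec π ≫ f ≫ M.ec (¬π ·) = 0 :=
  (ec_rg.comp (h.ec_r k) (R'' := fun _ _ _ => False) fun _ _ _ _ _ a b =>
    b.2.1 (a.2.1 ▸ a.2.2)).eq_zero fun _ _ _ => id

theorem Rg.ec_ll (h : L.Rg M R f) (k : ∀ x g y, R x g y → π x → π y) :
    L.ec π ≫ f ≫ M.ec π = L.ec π ≫ f := by
  have := congrArg (L.ec π ≫ f ≫ ·) (M.ec_tot π)
  simpa [h.ec_zero k] using this

theorem Rg.ec_rr (h : L.Rg M R f) (k : ∀ x g y, R x g y → π x → π y) :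
    L.ec (¬π ·) ≫ f ≫ M.ec (¬π ·) = f ≫ M.ec (¬π ·) := by
  have := congrArg (· ≫ f ≫ M.ec (¬π ·)) (L.ec_tot π)
  simpa [h.ec_zero k] using this

end Lo

namespace LQ

open Lo

variable {P : Rl G Z} (k : ∀ x g y, P.r x g y → π x → π y)

/-- The subobject located in `π`. -/
noncomputable def fsub : S.LQ P ⥤ S.LQ (P.res π) where
  obj M := ⟨M.A, M.L, M.L.ec π ≫ M.p, by simp [reassoc_of% M.rg.ec_ll k], M.rg.ec_l k⟩
  map {M N} f := homMk (M.L.ec π ≫ f.1) (by simp [reassoc_of% M.rg.ec_ll k])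
    (by simp [reassoc_of% (hom_rg f).ec_ll k]) ((hom_rg f).ec_l k)
  map_id _ := rfl
  map_comp {M N K} f g := hom_ext (show M.L.ec π ≫ f.1 ≫ g.1 =
    (M.L.ec π ≫ f.1) ≫ N.L.ec π ≫ g.1 by simp [reassoc_of% (hom_rg f).ec_ll k])

instance : (fsub (S := S) k).Additive := ⟨hom_ext (Preadditive.comp_add ..)⟩

/-- The quotient located outside `π`. -/
noncomputable def fquo : S.LQ P ⥤ S.LQ (P.res (¬π ·)) where
  obj M := ⟨M.A, M.L, M.p ≫ M.L.ec (¬π ·), by simp [M.rg.ec_rr k], M.rg.ec_r k⟩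
  map {M N} f := homMk (f.1 ≫ N.L.ec (¬π ·)) (by simp [(hom_rg f).ec_rr k])
    (by simp [N.rg.ec_rr k]) ((hom_rg f).ec_r k)
  map_id _ := rfl
  map_comp {M N K} f g := hom_ext (show (f.1 ≫ g.1) ≫ K.L.ec (¬π ·) =
    (f.1 ≫ N.L.ec (¬π ·)) ≫ g.1 ≫ K.L.ec (¬π ·) by simp [(hom_rg g).ec_rr k])

instance : (fquo (S := S) k).Additive := ⟨hom_ext (Preadditive.add_comp ..)⟩

/-- The inclusion of the subobject. -/
noncomputable def fα : fsub k ⋙ inc S (fun _ _ _ h => h.1) ⟶ 𝟭 (S.LQ P) where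
  app M := homMk (M.L.ec π ≫ M.p) ((fsub k).obj M).idem
    (show (M.L.ec π ≫ M.p) ≫ M.p = M.L.ec π ≫ M.p by simp) ((M.rg.ec_l k).mono fun _ _ _ h => h.1)
  naturality M N f := hom_ext (show (M.L.ec π ≫ f.1) ≫ N.L.ec π ≫ N.p =
    (M.L.ec π ≫ M.p) ≫ f.1 by simp [reassoc_of% (hom_rg f).ec_ll k])

/-- The projection to the quotient. -/
noncomputable def fβ : 𝟭 (S.LQ P) ⟶ fquo k ⋙ inc S (fun _ _ _ h => h.1) where
  app M := homMk (M.p ≫ M.L.ec (¬π ·))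
    (show M.p ≫ M.p ≫ M.L.ec (¬π ·) = M.p ≫ M.L.ec (¬π ·) by simp) ((fquo k).obj M).idem
    ((M.rg.ec_r k).mono fun _ _ _ h => h.1)
  naturality M N f := hom_ext (show f.1 ≫ N.p ≫ N.L.ec (¬π ·) =
    (M.p ≫ M.L.ec (¬π ·)) ≫ f.1 ≫ N.L.ec (¬π ·) by simp [(hom_rg f).ec_rr k])

theorem f_spl (M : S.LQ P) : ∃ r s, (fα k).app M ≫ r = 𝟙 _ ∧ s ≫ (fβ k).app M = 𝟙 _ ∧
    r ≫ (fα k).app M + (fβ k).app M ≫ s = 𝟙 _ := by
  have a := M.rg.ec_ll k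
  have b := M.rg.ec_rr k
  refine ⟨homMk (M.p ≫ M.L.ec π ≫ M.p)
      (show M.p ≫ M.p ≫ M.L.ec π ≫ M.p = M.p ≫ M.L.ec π ≫ M.p by simp)
      (show (M.p ≫ M.L.ec π ≫ M.p) ≫ M.L.ec π ≫ M.p = M.p ≫ M.L.ec π ≫ M.p by
        simp [reassoc_of% a])
      (M.rg.comp (M.rg.ec_l k) fun _ _ _ _ _ c d => P.trans c d.1),
    homMk ((M.p ≫ M.L.ec (¬π ·)) ≫ M.p)
      (show (M.p ≫ M.L.ec (¬π ·)) ≫ (M.p ≫ M.L.ec (¬π ·)) ≫ M.p = (M.p ≫ M.L.ec (¬π ·)) ≫ M.p by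
        simp [reassoc_of% b])
      (show ((M.p ≫ M.L.ec (¬π ·)) ≫ M.p) ≫ M.p = (M.p ≫ M.L.ec (¬π ·)) ≫ M.p by simp)
      ((M.rg.ec_r k).comp M.rg fun _ _ _ _ _ c d => P.trans c.1 d),
    hom_ext (show (M.L.ec π ≫ M.p) ≫ M.p ≫ M.L.ec π ≫ M.p = M.L.ec π ≫ M.p by
      simp [reassoc_of% a]),
    hom_ext (show ((M.p ≫ M.L.ec (¬π ·)) ≫ M.p) ≫ M.p ≫ M.L.ec (¬π ·) = M.p ≫ M.L.ec (¬π ·) by
      simp [b]),
    hom_ext (show (M.p ≫ M.L.ec π ≫ M.p) ≫ M.L.ec π ≫ M.p + (M.p ≫ M.L.ec (¬π ·)) ≫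
      (M.p ≫ M.L.ec (¬π ·)) ≫ M.p = M.p from ?_)⟩
  have := congrArg (M.p ≫ · ≫ M.p) (M.L.ec_tot π)
  simpa [reassoc_of% a, reassoc_of% b] using this

end LQ

end GC

end Pool.Agent.Lib.MP_5d3e93_al
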