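import Pool.Agent.Lib.MP_5d3e93_al.K.CDf
import Pool.Agent.Lib.MP_5d3e93_al.K.Filt

/-! Excision for the asymptotic category: objects over a region and parts of diagonal objects. -/

open CategoryTheory Limits ZeroObject Filter

namespace Pool.Agent.Lib.MP_5d3e93_al

universe w v u y

open Gr

namespace GC

open Lo

variable {G : Type w} [Group G] {C : Type u} [Category.{v} C] [Preadditive C] {S : GC G C}

section ec

variable {Z : Type y} {A B : C} {π : Z → Prop} {L : S.Lo Z A} {M : S.Lo Z B}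
  {R : Z → G → Z → Prop} {f : A ⟶ B}

theorem cex_idem (L : S.Lo Z A) (π : Z → Prop) : L.ec π ≫ L.ec π = L.ec π := (L.map π).idem True

theorem cex_dg (L : S.Lo Z A) (π : Z → Prop) : L.Rg L dg (L.ec π) :=
  ec_rg.mono fun _ _ _ h => ⟨h.1, h.2.1⟩

theorem cex_l (h : L.Rg M R f) (π : Z → Prop) :
    L.Rg M (fun x g y => R x g y ∧ π x) (L.ec π ≫ f) :=
  ec_rg.comp h fun x g y g' z a b => by
    obtain ⟨rfl, rfl, c⟩ := a
    rw [one_mul]
    exact ⟨b, c⟩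

theorem cex_r (h : L.Rg M R f) (π : Z → Prop) :
    L.Rg M (fun x g y => R x g y ∧ π y) (f ≫ M.ec π) :=
  h.comp ec_rg fun x g y g' z a b => by
    obtain ⟨rfl, rfl, c⟩ := b
    rw [mul_one]
    exact ⟨a, c⟩

theorem cex_fix (h : L.Rg M R f) (k : ∀ x g y, R x g y → π y) : f ≫ M.ec π = f := by
  have z := (cex_r h (¬π ·)).eq_zero fun x g y a => a.2 (k x g y a.1)
  simpa [z] using congrArg (f ≫ ·) (M.ec_tot π)

theorem cex_comm (h : L.Rg M dg f) (π : Z → Prop) : f ≫ M.ec π = L.ec π ≫ f := by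
  have z := (cex_l (cex_r h π) (¬π ·)).eq_zero fun x g y a => a.2 (a.1.1.2 ▸ a.1.2)
  have a := congrArg (· ≫ f ≫ M.ec π) (L.ec_tot π)
  simp only [Preadditive.add_comp, z, add_zero, Category.id_comp] at a
  rw [← a, h.ec_ll fun x g y a b => a.2 ▸ b]

theorem cex_orth (L : S.Lo Z A) (π : Z → Prop) : L.ec (¬π ·) ≫ L.ec π = 0 :=
  (cex_r ec_rg π).eq_zero fun _ _ _ a => a.1.2.2 (a.1.2.1 ▸ a.2)

theorem cex_orth' (L : S.Lo Z A) (π : Z → Prop) : L.ec π ≫ L.ec (¬π ·) = 0 :=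
  (cex_r ec_rg (¬π ·)).eq_zero fun _ _ _ a => a.2 (a.1.2.1 ▸ a.1.2.2)

end ec

variable {J : Type} {Y : J → Type y} {l : Filter J} {ν : Ar G Y}

theorem cex_co (l : Filter J) (ν : Ar G Y) (Ω : ∀ j, Y j → Prop) :
    Ar.Co l (ν.res Ω) ν (fun _ => id) fun _ => id :=
  fun r => ⟨r, .of_forall fun _ _ _ _ h => h.1⟩

namespace AS

/-- The idempotent is controlled over the region. -/
def CexOv (Ω : ∀ j, Y j → Prop) (M : S.AS l ν) : Prop := Ec l (ν.res Ω) M.L M.L M.p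

/-- All idempotents are diagonal. -/
def CexDs (M : S.AS l ν) : Prop := ∀ j, (M.L j).Rg (M.L j) dg (M.p j)

variable {M N : S.AS l ν} {Ω Ω' π : ∀ j, Y j → Prop}

theorem cex_hom (h : M.CexOv Ω) (k : N.CexOv Ω') (f : M ⟶ N) : ∃ r, ∀ᶠ j in l,
    (M.L j).Rg (N.L j) (fun a g b => ν.n r j a g b ∧ Ω j a ∧ Ω' j b) (f.1 j) := by
  obtain ⟨r, h⟩ := h
  obtain ⟨s, k⟩ := k
  obtain ⟨t, e⟩ := hom_rg f
  refine ⟨t, (h.and (k.and e)).mono fun j a => a.2.2.and (.and ?_ ?_)⟩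
  · rw [← p_comp f j]
    exact a.1.comp a.2.2 fun _ _ _ _ _ b _ => b.2.1
  · rw [← comp_p f j]
    exact a.2.2.comp a.2.1 fun _ _ _ _ _ _ b => b.2.2

/-- The part of a diagonal object that is located in `π`. -/
noncomputable abbrev cexPart (h : M.CexDs) (π : ∀ j, Y j → Prop) : S.AS l ν :=
  ⟨M.A, M.L, fun j => (M.L j).ec (π j) ≫ M.p j, fun j => by
    simp [reassoc_of% cex_comm (h j) (π j), reassoc_of% cex_idem],
    .dg_comp (fun _ => cex_dg _ _) M.rg⟩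

theorem cexPart_ds (h : M.CexDs) (π : ∀ j, Y j → Prop) : (cexPart h π).CexDs :=
  fun j => (cex_dg _ _).dg_comp (h j)

theorem cexPart_ov (h : M.CexDs) (k : ∀ r, ∀ᶠ j in l, ∀ a, ν.n r j a 1 a → π j a → Ω j a) :
    (cexPart h π).CexOv Ω := by
  obtain ⟨r, e⟩ := M.rg
  refine ⟨r, (e.and (k r)).mono fun j a => (cex_l (a.1.and (h j)) (π j)).mono ?_⟩
  rintro x _ _ ⟨⟨b, rfl, rfl⟩, c⟩
  exact ⟨b, a.2 x b c, a.2 x b c⟩

/-- The inclusion of a part. -/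
noncomputable def cexI (h : M.CexDs) (π : ∀ j, Y j → Prop) : cexPart h π ⟶ M :=
  homMk (cexPart h π).p (cexPart h π).idem (by simp) (cexPart h π).rg

/-- The projection to a part. -/
noncomputable def cexR (h : M.CexDs) (π : ∀ j, Y j → Prop) : M ⟶ cexPart h π :=
  homMk (cexPart h π).p (fun j => by simp [reassoc_of% cex_comm (h j) (π j)]) (cexPart h π).idem
    (cexPart h π).rg

theorem cex_spl (h : M.CexDs) (π : ∀ j, Y j → Prop) :
    Gr.Spl ((AO.π S l ν).map (cexI h fun j a => ¬π j a)) ((AO.π S l ν).map (cexR h π)) := by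
  refine ⟨(AO.π S l ν).map (cexR h _), (AO.π S l ν).map (cexI h _), ?_, ?_, ?_⟩ <;>
    simp only [← Functor.map_comp, ← Functor.map_add, ← CategoryTheory.Functor.map_id] <;>
    refine congrArg _ (hom_ext fun j => ?_)
  · exact (cexPart h fun j a => ¬π j a).idem j
  · exact (cexPart h π).idem j
  · refine (congrArg₂ (· + ·) ((cexPart h fun j a => ¬π j a).idem j)
      ((cexPart h π).idem j)).trans ?_
    change _ ≫ _ + _ ≫ _ = M.p j
    rw [← Preadditive.add_comp, add_comm, ec_tot, Category.id_comp]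

open Classical in
/-- A diagonal object is isomorphic to one with all idempotents diagonal. -/
theorem cex_ds (h : M.Dg) : ∃ N : S.AS l ν, N.CexDs ∧
    Nonempty ((AO.π S l ν).obj N ≅ (AO.π S l ν).obj M) := by
  let q : ∀ j, M.A j ⟶ M.A j := fun j => if (M.L j).Rg (M.L j) dg (M.p j) then M.p j else 0
  have a (j) : q j ≫ q j = q j ∧ q j ≫ M.p j = q j ∧ M.p j ≫ q j = q j := by
    simp only [q]
    split_ifs <;> simp
  have e : ∀ᶠ j in l, q j = M.p j := h.mono fun j k => if_pos k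
  have c : Ec l ν M.L M.L q := M.rg.imp fun r k => (k.and e).mono fun j b => b.2 ▸ b.1
  let N : S.AS l ν := ⟨M.A, M.L, q, fun j => (a j).1, c⟩
  refine ⟨N, fun j => ?_, ⟨⟨(AO.π S l ν).map (homMk (M := N) q (fun j => (a j).1)
    (fun j => (a j).2.1) c), (AO.π S l ν).map (homMk (N := N) q (fun j => (a j).2.2)
      (fun j => (a j).1) c), ?_, ?_⟩⟩⟩
  · change (M.L j).Rg (M.L j) dg (if _ then _ else _)
    split_ifs with k
    exacts [k, .zero]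
  all_goals rw [← Functor.map_comp, ← CategoryTheory.Functor.map_id, AO.π_eq]
  · exact .of_forall fun j => (a j).1
  · exact e.mono fun j k => (a j).1.trans k

end AS

namespace AO

variable (S l ν) in
/-- The inclusion of the objects over a region. -/
noncomputable abbrev cexInc (Ω : ∀ j, Y j → Prop) : S.AO l (ν.res Ω) ⥤ S.AO l ν :=
  AO.inc S (cex_co l ν Ω)

instance (Ω : ∀ j, Y j → Prop) : (cexInc S l ν Ω).Faithful := ⟨by
  rintro _ _ ⟨f⟩ ⟨g⟩ h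
  exact π_eq.2 ((π_eq (f := (AS.inc S (cex_co l ν Ω)).map f)
    (g := (AS.inc S (cex_co l ν Ω)).map g)).1 h)⟩

instance (Ω : ∀ j, Y j → Prop) : (cexInc S l ν Ω).Full := ⟨by
  rintro X Z ⟨f⟩
  exact ⟨(π S l _).map (AS.homMk (M := X.as) (N := Z.as) f.1 f.2.1 f.2.2.1
    (AS.cex_hom (M := (AS.inc S (cex_co l ν Ω)).obj X.as) (N := (AS.inc S (cex_co l ν Ω)).obj Z.as)
      X.as.rg Z.as.rg f)), rfl⟩⟩

theorem cex_mem {Ω : ∀ j, Y j → Prop} {X : S.AO l ν} : (cexInc S l ν Ω).essImage X ↔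
    ∃ M : S.AS l ν, M.CexOv Ω ∧ Nonempty ((π S l ν).obj M ≅ X) :=
  ⟨fun ⟨Z, h⟩ => ⟨(AS.inc S (cex_co l ν Ω)).obj Z.as, Z.as.rg, h⟩,
    fun ⟨M, k, h⟩ => ⟨(π S l _).obj ⟨M.A, M.L, M.p, M.idem, k⟩, h⟩⟩

theorem cex_le {Ω Ω' : ∀ j, Y j → Prop} (h : ∀ j a, Ω j a → Ω' j a) :
    (cexInc S l ν Ω).essImage ≤ (cexInc S l ν Ω').essImage := fun _ k =>
  cex_mem.2 ((cex_mem.1 k).imp fun _ a => ⟨a.1.imp fun _ b => b.mono fun j c =>
    c.mono fun _ _ _ d => ⟨d.1, h j _ d.2.1, h j _ d.2.2⟩, a.2⟩)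

/-- An object over `U` is a retract of a diagonal object over `U`. -/
theorem cex_ret (hr : ν.Rf) {U : ∀ j, Y j → Prop} (X : S.AO l ν)
    (h : (cexInc S l ν U).essImage X) : ∃ (X₀ : S.AO l ν) (i : X ⟶ X₀) (r : X₀ ⟶ X),
      (X₀.as.CexDs ∧ X₀.as.CexOv U) ∧ i ≫ r = 𝟙 X := by
  obtain ⟨M, ⟨t, k⟩, ⟨e⟩⟩ := cex_mem.1 h
  let E : ∀ j, M.A j ⟶ M.A j := fun j => (M.L j).ec fun a => ν.n 0 j a 1 a ∧ U j a
  have a : Ec l (ν.res U) M.L M.L E := ⟨0, .of_forall fun j => ec_rg.mono (by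
    rintro x _ _ ⟨rfl, rfl, b⟩
    exact ⟨b.1, b.2, b.2⟩)⟩
  let N : S.AS l ν := ⟨M.A, M.L, E, fun j => cex_idem _ _, a.mono (cex_co l ν U)⟩
  refine ⟨(π S l ν).obj N, e.inv ≫ (π S l ν).map (AS.homMk (N := N) (fun j => M.p j ≫ E j)
    (by simp) (fun j => by simp [N, E, cex_idem]) (M.rg.comp N.rg)),
    (π S l ν).map (AS.homMk (M := N) (fun j => E j ≫ M.p j)
      (fun j => by simp [N, E, reassoc_of% cex_idem]) (by simp) (N.rg.comp M.rg)) ≫ e.hom,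
    ⟨fun j => cex_dg _ _, a⟩, ?_⟩
  rw [Category.assoc, ← Functor.map_comp_assoc, (π_eq (g := 𝟙 M)).2 (k.mono fun j b => ?_)]
  · simp
  · have := cex_fix (π := fun a => ν.n 0 j a 1 a ∧ U j a) b fun x g y c =>
      ⟨(hr _ _ _ _ _ c.1).2, c.2.2⟩
    change (M.p j ≫ E j) ≫ E j ≫ M.p j = M.p j
    simp [E, reassoc_of% this, this]

/-- Moving the locations of a diagonal object into `W`. -/
theorem cex_move {W B : ∀ j, Y j → Prop} {M : S.AS l ν} (h : M.CexDs) {s : ℕ}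
    (k : ∀ᶠ j in l, ∀ a, B j a → ∃ c, W j c ∧ ν.n s j a 1 c ∧ ν.n s j c 1 a) :
    (cexInc S l ν W).essImage ((π S l ν).obj (AS.cexPart h B)) := by
  have k1 (j a) : ∃ c, (∃ c, W j c ∧ ν.n s j a 1 c ∧ ν.n s j c 1 a) →
      W j c ∧ ν.n s j a 1 c ∧ ν.n s j c 1 a := by
    by_cases b : ∃ c, W j c ∧ ν.n s j a 1 c ∧ ν.n s j c 1 a
    · exact b.imp fun _ c _ => c
    · exact ⟨a, fun c => (b c).elim⟩
  choose φ hφ using k1
  let P := AS.cexPart h B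
  have a (j) := cex_l (h j) (B j)
  have o : Ec l (ν.res W) (fun j => (M.L j).map (φ j)) (fun j => (M.L j).map (φ j)) P.p :=
    ⟨s + s, k.mono fun j b => (a j).map (on_true _) (on_true _) (by
      rintro x _ _ - - ⟨⟨rfl, rfl⟩, c⟩
      have d := hφ j x (b x c)
      exact ⟨by simpa using ν.trans d.2.2 d.2.1, d.1, d.1⟩)⟩
  let N : S.AS l ν := ⟨M.A, fun j => (M.L j).map (φ j), P.p, P.idem, o.mono (cex_co l ν W)⟩
  refine cex_mem.2 ⟨N, o, ⟨(π S l ν).mapIso ⟨AS.homMk P.p P.idem P.idem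
    ⟨s, k.mono fun j b => (a j).mapl ?_⟩, AS.homMk P.p P.idem P.idem
    ⟨s, k.mono fun j b => (a j).mapr ?_⟩, AS.hom_ext P.idem, AS.hom_ext P.idem⟩⟩⟩
  all_goals rintro x _ _ ⟨⟨rfl, rfl⟩, c⟩
  exacts [(hφ j x (b x c)).2.2, (hφ j x (b x c)).2.1]

theorem cex_fac {U V W : ∀ j, Y j → Prop}
    (exc : ∀ r, ∃ s, ∀ᶠ j in l, ∀ a g b, ν.n r j a g b → U j a → V j b →
      ∃ c, W j c ∧ ν.n s j a 1 c ∧ ν.n s j c 1 a) (X : S.AS l ν) (Z : S.AO l ν)
    (f : (π S l ν).obj X ⟶ Z) (h : X.CexDs ∧ X.CexOv U) (k : (cexInc S l ν V).essImage Z) :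
    ∃ (X' c : S.AO l ν) (i : X' ⟶ (π S l ν).obj X) (r : (π S l ν).obj X ⟶ c),
      (X'.as.CexDs ∧ X'.as.CexOv U) ∧ (cexInc S l ν W).essImage c ∧ Gr.Spl i r ∧ i ≫ f = 0 := by
  obtain ⟨N, o, ⟨e⟩⟩ := cex_mem.1 k
  obtain ⟨φ, hφ⟩ := (π S l ν).map_surjective (f ≫ e.inv)
  obtain ⟨r, a⟩ := AS.cex_hom h.2 o φ
  obtain ⟨s, b⟩ := exc r
  let B : ∀ j, Y j → Prop := fun j x => U j x ∧ ∃ g y, ν.n r j x g y ∧ V j y
  refine ⟨(π S l ν).obj (AS.cexPart h.1 fun j a => ¬B j a), (π S l ν).obj (AS.cexPart h.1 B), _, _,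
    ⟨AS.cexPart_ds h.1 _, .dg_comp (fun _ => cex_dg _ _) h.2⟩,
    cex_move h.1 (s := s) (b.mono fun j c x ⟨d, g, y, d1, d2⟩ => c x g y d1 d d2),
    AS.cex_spl h.1 B, ?_⟩
  rw [← cancel_mono e.inv, Category.assoc, ← hφ, ← Functor.map_comp, zero_comp,
    ← (π S l ν).map_zero, π_eq]
  refine a.mono fun j c => ?_
  change (_ ≫ _) ≫ φ.1 j = 0
  rw [Category.assoc, AS.p_comp]
  exact (cex_l c _).eq_zero fun x g y d => d.2 ⟨d.1.2.1, g, y, d.1.1, d.1.2.2⟩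

open Classical in
theorem cex_ic : IsIdempotentComplete (S.AO l ν) := ⟨fun X e h => by
  obtain ⟨f, rfl⟩ := (π S l ν).map_surjective (X := X.as) (Y := X.as) e
  have h' : ∀ᶠ j in l, f.1 j ≫ f.1 j = f.1 j := (π_eq (f := f ≫ f) (g := f)).1 h
  let q : ∀ j, X.as.A j ⟶ X.as.A j := fun j => if f.1 j ≫ f.1 j = f.1 j then f.1 j else 0
  have a (j) : q j ≫ q j = q j ∧ q j ≫ X.as.p j = q j ∧ X.as.p j ≫ q j = q j := by
    simp only [q]
    split_ifs with k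
    · exact ⟨k, AS.comp_p f j, AS.p_comp f j⟩
    · simp
  have e : ∀ᶠ j in l, q j = f.1 j := h'.mono fun j k => if_pos k
  have c : Ec l ν X.as.L X.as.L q :=
    (AS.hom_rg f).imp fun r k => (k.and e).mono fun j b => b.2 ▸ b.1
  let N : S.AS l ν := ⟨X.as.A, X.as.L, q, fun j => (a j).1, c⟩
  exact ⟨(π S l ν).obj N, (π S l ν).map (AS.homMk (M := N) (N := X.as) q (fun j => (a j).1)
    (fun j => (a j).2.1) c), (π S l ν).map (AS.homMk (M := X.as) (N := N) q (fun j => (a j).2.2)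
      (fun j => (a j).1) c), π_eq.2 (.of_forall fun j => (a j).1),
    π_eq.2 (e.mono fun j k => (a j).1.trans k)⟩⟩

end AO

end GC

end Pool.Agent.Lib.MP_5d3e93_al
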