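import Pool.Agent.Lib.MP_5d3e93_al.K.CMv
import Pool.Agent.Lib.MP_5d3e93_al.K.CExA
import Pool.Agent.Lib.MP_5d3e93_al.K.Kar
import Pool.Agent.Lib.MP_5d3e93_al.K.Ad

/-! Excision for the asymptotic category. -/

open CategoryTheory Limits ZeroObject Filter

namespace Pool.Agent.Lib.MP_5d3e93_al

universe w v u y

open Gr

namespace GC

variable {G : Type w} [Group G] {C : Type u} [Category.{v} C] [Preadditive C] [HasZeroObject C]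
  {S : GC G C} {J : Type} {Y : J → Type y} {l : Filter J} {ν : Ar G Y}

theorem zd_mv (hr : ν.Rf) (U V W : ∀ j, Y j → Prop)
    (cov : ∀ᶠ j in l, ∀ a, ν.n 0 j a 1 a → U j a ∨ V j a) (hW : ∀ j a, W j a → U j a ∧ V j a)
    (exc : ∀ r, ∃ s, ∀ᶠ j in l, ∀ a g b, ν.n r j a g b → U j a → V j b →
      ∃ c, W j c ∧ ν.n s j a 1 c ∧ ν.n s j c 1 a)
    (zU : S.ZO l (ν.res U)) (zV : S.ZO l (ν.res V)) (zW : S.ZO l (ν.res W)) : S.ZD l ν := by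
  have := AO.cex_ic (S := S) (l := l) (ν := ν.res W)
  have z := Am.Z_mv.{v, max u y} (AO.cexInc S l ν U).essImage (AO.cexInc S l ν V).essImage
    (AO.cexInc S l ν W).essImage (fun X => X.as.CexDs ∧ X.as.CexOv U)
    (AO.cex_le fun j a h => (hW j a h).1) (AO.cex_le fun j a h => (hW j a h).2)
    (K.gen_thick.{v, max u y, v, max u y} (AO.cexInc S l ν W)) (AO.cex_ret hr)
    (fun X => AO.cex_fac exc X.as)
    ((Am.Z_ff.{v, max u y, v, max u y} _).1 zU) ((Am.Z_ff.{v, max u y, v, max u y} _).1 zV)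
    ((Am.Z_ff.{v, max u y, v, max u y} _).1 zW)
  refine ⟨_, inferInstanceAs (Tg (Cl _)), Cl.le ?_,
    Cl.le fun _ ⟨X, _, e⟩ => Cl.of ⟨X, trivial, e⟩, z⟩
  rintro _ ⟨X, h, ⟨e⟩⟩
  obtain ⟨N, k, ⟨e'⟩⟩ := AS.cex_ds h
  obtain ⟨δ, t⟩ := K.kar_tri.{v, max u y} (AS.cex_spl k U)
  refine Cl.iso ((S.ao l ν).sg.mapIso e' ≪≫ e) (Cl.ext _ t
    (Cl.of ⟨_, .inr (AO.cex_mem.2 ⟨_, AS.cexPart_ov k fun r => cov.mono fun j a x b c => ?_,
      ⟨.refl _⟩⟩), ⟨.refl _⟩⟩)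
    (Cl.of ⟨_, .inl (AO.cex_mem.2 ⟨_, AS.cexPart_ov k fun r => .of_forall fun j x _ c => c,
      ⟨.refl _⟩⟩), ⟨.refl _⟩⟩))
  exact (a x (hr _ _ _ _ _ b).1).resolve_left c

end GC

end Pool.Agent.Lib.MP_5d3e93_al
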