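import Pool.Agent.Lib.MP_5d3e93_al.K.FdA

/-! The stable category of the Frobenius category of bounded complexes. -/

open CategoryTheory Limits Pretriangulated ZeroObject

namespace Pool.Agent.Lib.MP_5d3e93_al.K

open Gr

universe w v u v' u' v'' u''

section Fd
variable {A : Type (max u v)} [Category.{v} A] [Preadditive A] [HasZeroObject A]
  [HasBinaryBiproducts A]
variable [IsIdempotentComplete A]

theorem fs_frob : Frob ((Jc A).map (fs.{v, u} A)) (ObjectProperty.map ⊤ (fs.{v, u} A)) where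
  le := ObjectProperty.map_monotone le_top _
  proj n hn X Y f := by
    rintro ⟨I, hI, ⟨e⟩⟩ ⟨Q, -, ⟨e'⟩⟩
    rw [← cancel_epi e.hom, ← cancel_mono ((shiftFunctor _ n).mapIso e').inv, comp_zero, zero_comp]
    exact (Jc.pj.{v, u} hI).ext_zero Q hn.ne' _
  inj n hn X Y f := by
    rintro ⟨P, -, ⟨e⟩⟩ ⟨I, hI, ⟨e'⟩⟩
    rw [← cancel_epi e.hom, ← cancel_mono ((shiftFunctor _ n).mapIso e').inv, comp_zero, zero_comp]
    exact (Jc.ij.{v, u} hI).ext_zero P hn.ne' _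
  up := by
    rintro X ⟨P, -, ⟨e⟩⟩
    obtain ⟨I, Q, i, p, hI, z, s, -⟩ := fc_up P
    obtain ⟨δ, hT⟩ := fs_tri.{v, u} z s
    obtain ⟨Z, g, k, hU⟩ := distinguished_cocone_triangle (e.inv ≫ (fs.{v, u} A).map i)
    exact ⟨_, hU, rfl, ⟨I, hI, ⟨Iso.refl _⟩⟩, Q, trivial, ⟨Triangle.π₃.mapIso
      (isoTriangleOfIso₁₂ _ _ hT hU e (Iso.refl _)
        ((Category.comp_id _).trans (e.hom_inv_id_assoc _).symm))⟩⟩
  down := by
    rintro X ⟨P, -, ⟨e⟩⟩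
    obtain ⟨K, I, i, p, hI, z, s, -⟩ := fc_down P
    obtain ⟨δ, hT⟩ := fs_tri.{v, u} z s
    refine ⟨Triangle.mk ((fs.{v, u} A).map i) ((fs.{v, u} A).map p ≫ e.hom) (e.inv ≫ δ),
      isomorphic_distinguished _ hT _ (Triangle.isoMk _ _ (Iso.refl _) (Iso.refl _) e.symm
        ((Category.comp_id _).trans (Category.id_comp _).symm) ?_ ?_),
      ⟨K, trivial, ⟨Iso.refl _⟩⟩, ⟨I, hI, ⟨Iso.refl _⟩⟩, rfl⟩
    · change ((fs.{v, u} A).map p ≫ e.hom) ≫ e.inv = 𝟙 _ ≫ (fs.{v, u} A).map p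
      rw [Category.assoc, e.hom_inv_id, Category.comp_id, Category.id_comp]
    · change (e.inv ≫ δ) ≫ (𝟙 ((fs.{v, u} A).obj K))⟦(1 : ℤ)⟧' = e.inv ≫ δ
      rw [CategoryTheory.Functor.map_id, Category.comp_id]
  cone := by
    rintro X Y φ ⟨P, -, ⟨e⟩⟩ ⟨Q, -, ⟨e'⟩⟩
    obtain ⟨f, hf⟩ := (fs_bij.{v, u} P Q).2 (e.hom ≫ φ ≫ e'.inv)
    obtain ⟨I, _, i, _, hI, -, s, -⟩ := fc_up P
    obtain ⟨Z, p, z, s'⟩ := fc_coker (biprod.lift f i) fun n => by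
      obtain ⟨r, _, h, -⟩ := s n
      have k : (biprod.lift f i).hom.f n ≫ (biprod.snd : Q ⊞ I ⟶ I).hom.f n = i.hom.f n :=
        congrArg (fun x => x.hom.f n) (biprod.lift_snd f i)
      exact ⟨(biprod.snd : Q ⊞ I ⟶ I).hom.f n ≫ r, by rw [reassoc_of% k, h]⟩
    obtain ⟨δ, hT⟩ := fs_tri.{v, u} z s'
    obtain ⟨Z', g, k, hU⟩ := distinguished_cocone_triangle
      (biprod.lift φ (e.inv ≫ (fs.{v, u} A).map i))
    have := preservesBinaryBiproducts_of_preservesBiproducts (fs.{v, u} A)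
    refine ⟨_, Z', _, g, k, ⟨I, hI, ⟨Iso.refl _⟩⟩, ⟨Z, trivial, ⟨Triangle.π₃.mapIso
      (isoTriangleOfIso₁₂ _ _ hT hU e ((fs.{v, u} A).mapBiprod Q I ≪≫
        biprod.mapIso e' (Iso.refl _)) ?_)⟩⟩, hU⟩
    change (fs.{v, u} A).map (biprod.lift f i) ≫ ((fs.{v, u} A).mapBiprod Q I).hom ≫
      biprod.map e'.hom (𝟙 _) = e.hom ≫ biprod.lift φ (e.inv ≫ (fs.{v, u} A).map i)
    rw [← Category.assoc, biprod.map_lift_mapBiprod]
    ext <;> simp [hf]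

theorem fa_frob : Frob (ObjectProperty.map (C := (fa.{v, u} A).A) (Jc A) (fa.{v, u} A).sg)
    (ObjectProperty.map ⊤ (fa.{v, u} A).sg) := fs_frob

theorem fs_ret (X Y : (fa.{v, u} A).D) (i : X ⟶ Y) (r : Y ⟶ X) (h : i ≫ r = 𝟙 X)
    (k : (Jc A).map (fs.{v, u} A) Y) : (Jc A).map (fs.{v, u} A) X := by
  obtain ⟨I, ⟨hI⟩, ⟨e⟩⟩ := k
  obtain ⟨ε, hε⟩ := (fs_bij.{v, u} I I).2 (e.hom ≫ r ≫ i ≫ e.inv)
  obtain ⟨P, ι, ρ, a, b⟩ := IsIdempotentComplete.idempotents_split I ε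
    ((fs_bij.{v, u} I I).1 (by simp [hε, reassoc_of% h]))
  have c : 𝟙 P.obj = ι.hom ≫ 𝟙 I.obj ≫ ρ.hom := by
    rw [Category.id_comp]
    exact congrArg (·.hom) a.symm
  have d : (fs.{v, u} A).map ρ ≫ (fs.{v, u} A).map ι = e.hom ≫ r ≫ i ≫ e.inv := by
    rw [← Functor.map_comp, b, hε]
  have d' : (fs.{v, u} A).map ι ≫ (fs.{v, u} A).map ρ = 𝟙 _ := by
    rw [← Functor.map_comp, a, CategoryTheory.Functor.map_id]
  refine ⟨P, ⟨(Homotopy.ofEq c).trans (((hI.compRight _).compLeft _).trans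
    (Homotopy.ofEq (by simp)))⟩, ⟨⟨(fs.{v, u} A).map ι ≫ e.hom ≫ r,
      i ≫ e.inv ≫ (fs.{v, u} A).map ρ, ?_, ?_⟩⟩⟩
  · simp only [Category.assoc]
    rw [← reassoc_of% d, reassoc_of% d', d']
  · simp [reassoc_of% d, h]

theorem fa_ret (X Y : (fa.{v, u} A).D) (i : X ⟶ Y) (r : Y ⟶ X) (h : i ≫ r = 𝟙 X)
    (k : ObjectProperty.map (C := (fa.{v, u} A).A) (Jc A) (fa.{v, u} A).sg Y) :
    ObjectProperty.map (C := (fa.{v, u} A).A) (Jc A) (fa.{v, u} A).sg X := fs_ret X Y i r h k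

variable (A) in
/-- The closure of the contractible complexes. -/
def fN : ObjectProperty (fa.{v, u} A).D := (fa.{v, u} A).gen (Jc A)
instance : Tg (fN.{v, u} A) := inferInstanceAs (Tg (Cl _))
variable (A) in
/-- The projection to the stable category. -/
def fπ : Am.Map (fa.{v, u} A) ((fa.{v, u} A).quo (fN.{v, u} A)) := (fa.{v, u} A).π _

theorem fπ_loc : Loc (fπ.{v, u} A).D (fN.{v, u} A) (fa.{v, u} A).bdd
    ((fa.{v, u} A).bdd.map (fπ.{v, u} A).D) := by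
  refine Am.quo_loc (Cl.le fun X h => Cl.of (fa_frob.le X h)) fun X _ h => ?_
  refine cl_retract (G := (Jc A).map (fs.{v, u} A)) (fun Z z => ?_)
    (fun n hn X Y f a b => fs_frob.proj n hn X Y f a (fs_frob.le Y b)) ?_ fs_ret h
  · obtain ⟨I, a, b⟩ := ObjectProperty.ContainsZero.exists_zero (P := Jc A)
    exact ⟨I, b, ⟨((fs.{v, u} A).map_isZero a).iso z⟩⟩
  · rintro X Y ⟨I, a, ⟨e⟩⟩ ⟨I', b, ⟨e'⟩⟩
    have := preservesBinaryBiproducts_of_preservesBiproducts (fs.{v, u} A)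
    exact ⟨I ⊞ I', Jc.biprod A I I' a b, ⟨(fs.{v, u} A).mapBiprod I I' ≪≫ biprod.mapIso e e'⟩⟩

theorem fq_loc : LocOn (fπ.{v, u} A).D (Cl ((Jc A).map (fs.{v, u} A)))
    (Cl (ObjectProperty.map ⊤ (fs.{v, u} A))) := fπ_loc.toLocOn

theorem fq_zero {I : Fc A} (h : Jc A I) :
    IsZero ((fπ.{v, u} A).D.obj ((fs.{v, u} A).obj I)) :=
  fq_loc.kill _ (.of ⟨I, h, ⟨Iso.refl _⟩⟩)

theorem fq_surj (P Q : Fc A) :
    Function.Surjective ((fs.{v, u} A ⋙ (fπ.{v, u} A).D).map : (P ⟶ Q) → _) :=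
  (fs_frob.surj₀ fq_loc ⟨P, trivial, ⟨Iso.refl _⟩⟩ ⟨Q, trivial, ⟨Iso.refl _⟩⟩).comp
    (fs_bij P Q).2

theorem fq_null {P Q : Fc A} (φ : P ⟶ Q) (h : (fs.{v, u} A ⋙ (fπ.{v, u} A).D).map φ = 0) :
    (HomotopyCategory.quotient _ _).map φ.hom = 0 := by
  obtain ⟨K, I, i, p, ⟨hI⟩, z, s, -⟩ := fc_down Q
  obtain ⟨δ, hT⟩ := fs_tri.{v, u} z s
  have h' : (fπ.{v, u} A).D.map ((fs.{v, u} A).map φ) = 0 := h
  obtain ⟨ψ, hψ⟩ := Triangle.coyoneda_exact₃ _ hT ((fs.{v, u} A).map φ)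
    (fs_frob.injective fq_loc 1 one_pos (X := (fs.{v, u} A).obj P) (Y := (fs.{v, u} A).obj K)
      ⟨P, trivial, ⟨Iso.refl _⟩⟩ ⟨K, trivial, ⟨Iso.refl _⟩⟩ (a₁ := (fs.{v, u} A).map φ ≫ δ)
      (a₂ := 0) (by rw [Functor.map_comp, h', zero_comp, Functor.map_zero]))
  obtain ⟨χ, rfl⟩ := (fs_bij.{v, u} P I).2 ψ
  obtain rfl : φ = χ ≫ p := (fs_bij.{v, u} P Q).1 (hψ.trans ((fs.{v, u} A).map_comp _ _).symm)
  have c : (χ ≫ p).hom = χ.hom ≫ 𝟙 I.obj ≫ p.hom := by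
    rw [Category.id_comp]
    rfl
  exact (HomotopyCategory.eq_of_homotopy _ 0 ((Homotopy.ofEq c).trans
    (((hI.compRight _).compLeft _).trans (Homotopy.ofEq (by simp))))).trans
      (Functor.map_zero _ _ _)

theorem fq_up {P Q : Fc A} (e : Q.obj ≅ P.obj⟦(1 : ℤ)⟧) :
    Nonempty ((fs.{v, u} A ⋙ (fπ.{v, u} A).D).obj Q ≅
      ((fs.{v, u} A ⋙ (fπ.{v, u} A).D).obj P)⟦(1 : ℤ)⟧) := by
  obtain ⟨I, Q', i, p, hI, z, s, ⟨e'⟩⟩ := fc_up P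
  obtain ⟨δ, hT⟩ := fs_tri.{v, u} z s
  have k := (Triangle.isZero₂_iff_isIso₃ _ ((fπ.{v, u} A).D.map_distinguished _ hT)).1
    (fq_zero hI)
  exact ⟨(fs.{v, u} A ⋙ (fπ.{v, u} A).D).mapIso ((Fs A).isoMk (e ≪≫ e'.symm)) ≪≫
    @asIso _ _ _ _ _ k⟩

theorem fq_shift (n : ℤ) (P Q : Fc A) (e : Q.obj ≅ P.obj⟦n⟧) :
    Nonempty ((fs.{v, u} A ⋙ (fπ.{v, u} A).D).obj Q ≅
      ((fs.{v, u} A ⋙ (fπ.{v, u} A).D).obj P)⟦n⟧) := by
  induction n using Int.induction_on generalizing Q with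
  | zero => exact ⟨Functor.mapIso _ ((Fs A).isoMk (e ≪≫ (shiftFunctorZero _ ℤ).app _)) ≪≫
      ((shiftFunctorZero _ ℤ).app _).symm⟩
  | succ n ih =>
    obtain ⟨a⟩ := ih (fsh n P) (Iso.refl _)
    obtain ⟨b⟩ := fq_up.{v, u} (P := fsh n P)
      (e ≪≫ (shiftFunctorAdd' _ (n : ℤ) 1 _ rfl).app P.obj)
    exact ⟨b ≪≫ (shiftFunctor _ (1 : ℤ)).mapIso a ≪≫
      ((shiftFunctorAdd' _ (n : ℤ) 1 _ rfl).app _).symm⟩
  | pred n ih =>
    obtain ⟨a⟩ := ih (fsh (-n) P) (Iso.refl _)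
    obtain ⟨b⟩ := fq_up.{v, u} (P := Q) (Q := fsh (-n) P)
      ((shiftFunctorAdd' _ (-n - 1 : ℤ) 1 (-n) (by ring)).app P.obj ≪≫
        (shiftFunctor _ (1 : ℤ)).mapIso e.symm)
    exact ⟨((shiftFunctorCompIsoId _ (1 : ℤ) (-1) (by simp)).app _).symm ≪≫
      (shiftFunctor _ (-1 : ℤ)).mapIso (b.symm ≪≫ a) ≪≫
        ((shiftFunctorAdd' _ (-n : ℤ) (-1) _ (by ring)).app _).symm⟩

theorem fq_bij (X Y : A) :
    Function.Bijective ((Fc.c0 A ⋙ fs.{v, u} A ⋙ (fπ.{v, u} A).D).map : (X ⟶ Y) → _) := by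
  refine ⟨fun f g e => (of_single_bij X Y).1 ?_, (fq_surj _ _).comp fun φ => ?_⟩
  · have k := fq_null.{v, u} ((Fc.c0 A).map f - (Fc.c0 A).map g) (by
      rw [Functor.map_sub]
      exact sub_eq_zero.2 e)
    exact sub_eq_zero.1 ((HomotopyCategory.quotient A (.up ℤ)).map_sub.symm.trans k)
  · obtain ⟨f, hf⟩ := (CochainComplex.singleFunctor A 0).map_surjective (X := X) (Y := Y) φ.hom
    exact ⟨f, ObjectProperty.hom_ext _ hf⟩

theorem fq_ext (X Y : A) {n : ℤ} (hn : n ≠ 0)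
    (φ : (Fc.c0 A ⋙ fs.{v, u} A ⋙ (fπ.{v, u} A).D).obj X ⟶
      ((Fc.c0 A ⋙ fs.{v, u} A ⋙ (fπ.{v, u} A).D).obj Y)⟦n⟧) : φ = 0 := by
  obtain ⟨e⟩ := fq_shift.{v, u} n ((Fc.c0 A).obj Y) (fsh n _) (Iso.refl _)
  obtain ⟨ψ, hψ⟩ := fq_surj.{v, u} ((Fc.c0 A).obj X) _ (φ ≫ e.inv)
  obtain rfl : ψ = 0 := ObjectProperty.hom_ext _ (HomologicalComplex.from_single_hom_ext
    ((HomologicalComplex.isZero_single_obj_X (ComplexShape.up ℤ) 0 Y (0 + n)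
      (by simpa using hn)).eq_of_tgt _ _))
  rw [Functor.map_zero] at hψ
  exact (Preadditive.IsIso.comp_right_eq_zero _ _).1 hψ.symm

theorem fq_gen (S : ObjectProperty ((fa.{v, u} A).quo (fN.{v, u} A)).D) [Tg S]
    (h : ∀ X, S ((Fc.c0 A ⋙ fs.{v, u} A ⋙ (fπ.{v, u} A).D).obj X)) (P : Fc A) :
    S ((fs.{v, u} A ⋙ (fπ.{v, u} A).D).obj P) := by
  obtain ⟨p, q, hP⟩ := P.property
  obtain ⟨m, hm⟩ : ∃ m : ℕ, q < p + m := ⟨(q - p + 1).toNat, by omega⟩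
  induction m generalizing P q with
  | zero => exact Tg.zero S (Functor.map_isZero _ (fd_isZero fun n => hP n (by omega)))
  | succ m ih =>
    have u : ∀ n, q ≤ n → q ≤ n + 1 := fun _ k => by omega
    obtain ⟨δ, hT⟩ := fs_tri.{v, u} (i := (fsigI (q ≤ ·) u).app P) (p := fsigR (q ≤ ·) u P)
      (ObjectProperty.hom_ext _ (HomologicalComplex.hom_ext _ _ fun n => fd_IR (q ≤ n) _))
      fun n => fd_spl (q ≤ n) _
    refine S.ext_of_isTriangulatedClosed₂ _ ((fπ.{v, u} A).D.map_distinguished _ hT) ?_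
      (ih _ (q - 1) (fun n k => ?_) (by push_cast at hm; omega))
    · let K : Fc A := (fsig (q ≤ ·)).obj P
      have z : ∀ n, n ≠ q → IsZero (K.obj.X n) := fun n k => by
        by_cases l : q ≤ n
        · exact (ct (q ≤ n)).map_isZero (hP n (by omega))
        · exact ct_zero l _
      have : (K.obj⟦q⟧).IsStrictlyGE 0 := (CochainComplex.isStrictlyGE_iff _ _).2 fun n k =>
        z (n + q) (by omega)
      have : (K.obj⟦q⟧).IsStrictlyLE 0 := (CochainComplex.isStrictlyLE_iff _ _).2 fun n k =>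
        z (n + q) (by omega)
      obtain ⟨M, ⟨e⟩⟩ := (K.obj⟦q⟧).exists_iso_single 0
      obtain ⟨a⟩ := fq_shift.{v, u} (-q) ((Fc.c0 A).obj M) K
        (((shiftFunctorCompIsoId _ q (-q) (by simp)).app K.obj).symm ≪≫
          (shiftFunctor _ (-q)).mapIso e)
      exact S.prop_of_iso a.symm (S.le_shift (-q) _ (h M))
    · by_cases l : q ≤ n
      · exact ct_zero (not_not.2 l) _
      · exact (ct (¬q ≤ n)).map_isZero (hP n (by omega))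

variable (A) in
noncomputable def fc0 : Am.Map (Am.of.{v, u} A) (fa.{v, u} A) :=
  @Am.ofMap _ _ _ _ _ (fa.{v, u} A) (Fc.c0 A) (inferInstanceAs (Fc.c0 A).Additive)

omit [IsIdempotentComplete A] in
theorem fq_iso : Nonempty ((Am.of.{v, u} A).sg ⋙ ((fc0.{v, u} A).comp (fπ.{v, u} A)).D ≅
    Fc.c0 A ⋙ fs.{v, u} A ⋙ (fπ.{v, u} A).D) := by
  obtain ⟨e⟩ := (fc0.{v, u} A).sg_iso
  exact ⟨Functor.isoWhiskerLeft _ ((fc0.{v, u} A).compD (fπ.{v, u} A)) ≪≫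
    Functor.isoWhiskerRight e (fπ.{v, u} A).D⟩

/-- In the quotient `(sg P)⟦1⟧ ≅ sg (P⟦1⟧)` (`fc_up`), so `c0 a ⟦n⟧` is `a` in degree `-n`;
`Frob.surj 0` and `fa_sg_bij`: morphisms between objects of `Fc A` come from chain maps; a chain
map that dies factors through a contractible complex (`Frob.injective 1`, `fc_down`); `ff_of_gen₂`.
Onto: brutal filtration (`fsig`, `fa_tri`), induction on the length. -/
theorem fq_deq : Deq ((fc0.{v, u} A).comp (fπ.{v, u} A)).D (Am.of.{v, u} A).bdd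
    ((fa.{v, u} A).bdd.map (fπ.{v, u} A).D) := by
  obtain ⟨e⟩ := fq_iso.{v, u} (A := A)
  set f := (fc0.{v, u} A).comp (fπ.{v, u} A)
  have ff : FF f.D (Am.of.{v, u} A).bdd := by
    refine ff_of_gen₂ ?_
    rintro n _ _ ⟨X, -, ⟨i⟩⟩ ⟨Y, -, ⟨j⟩⟩
    refine lc_iso i ((shiftFunctor _ n).mapIso j) ?_
    by_cases hn : n = 0
    · subst hn
      refine lc_iso (Iso.refl _) ((shiftFunctorZero _ ℤ).symm.app _)
        ((Function.Bijective.of_comp_iff _ ((Am.of_pj.{v, u} (A := A) X).sg_bij Y)).1 ?_)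
      have q : (f.D.map ∘ (Am.of.{v, u} A).sg.map : (X ⟶ Y) → _) = _ :=
        funext fun φ => (NatIso.naturality_2 e φ).symm
      exact q ▸ (Iso.homCongr (e.app X).symm (e.app Y).symm).bijective.comp
        (fq_bij.{v, u} (A := A) X Y)
    · have k : ∀ φ : f.D.obj ((Am.of.{v, u} A).sg.obj X) ⟶
          f.D.obj (((Am.of.{v, u} A).sg.obj Y)⟦n⟧), φ = 0 := fun φ => by
        have a : f.D.obj ((Am.of.{v, u} A).sg.obj X) ≅ _ := e.app X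
        have b : f.D.obj (((Am.of.{v, u} A).sg.obj Y)⟦n⟧) ≅ _ :=
          (f.D.commShiftIso n).app _ ≪≫ (shiftFunctor _ n).mapIso (e.app Y)
        rw [← cancel_mono b.hom, ← cancel_epi a.inv, zero_comp, comp_zero]
        exact fq_ext.{v, u} (A := A) X Y hn _
      exact ⟨fun p q _ => ((Am.of_pj.{v, u} (A := A) X).ext_zero Y hn p).trans
        ((Am.of_pj.{v, u} (A := A) X).ext_zero Y hn q).symm, fun φ => ⟨0, (k _).trans (k φ).symm⟩⟩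
  have := ff.tg_map
  refine ⟨ff, fun X h => ⟨_, (fc0.{v, u} A).bdd_map X h, ⟨Iso.refl _⟩⟩, ?_⟩
  rintro Y ⟨Z, hZ, ⟨i⟩⟩
  refine ((Am.of.{v, u} A).bdd.map f.D).prop_of_iso i (Cl.le
    (S := ((Am.of.{v, u} A).bdd.map f.D).inverseImage (fπ.{v, u} A).D) ?_ Z hZ)
  rintro _ ⟨P, -, ⟨j⟩⟩
  exact ((Am.of.{v, u} A).bdd.map f.D).prop_of_iso ((fπ.{v, u} A).D.mapIso j)
    (fq_gen.{v, u} _ (fun X => ⟨_, Cl.of ⟨X, trivial, ⟨Iso.refl _⟩⟩, ⟨e.app X⟩⟩) P)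

end Fd

end Pool.Agent.Lib.MP_5d3e93_al.K
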