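import Pool.Agent.Lib.MP_5d3e93_al.K.PDef

/-! Even and odd parts of bounded complexes, cycles of contractible complexes. -/

open CategoryTheory Limits Pretriangulated ZeroObject

set_option linter.unusedSectionVars false

namespace Pool.Agent.Lib.MP_5d3e93_al.K

open Gr

universe v u

section Fe
variable {A : Type u} [Category.{v} A] [Preadditive A] [HasZeroObject A] [HasBinaryBiproducts A]

/-- The sum of the terms whose degree satisfies `p`. -/
structure FeS (f : ℤ → A) (p : ℤ → Prop) where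
  P : A
  j : ∀ n, f n ⟶ P
  j0 : ∀ n, ¬ p n → j n = 0
  ext : ∀ {W : A} {a b : P ⟶ W}, (∀ n, p n → j n ≫ a = j n ≫ b) → a = b
  desc : ∀ {W : A}, (∀ n, f n ⟶ W) → (P ⟶ W)
  fac : ∀ {W : A} (g : ∀ n, f n ⟶ W) n, p n → j n ≫ desc g = g n

theorem fe_ex (K : Fc A) (p : ℤ → Prop) : Nonempty (FeS K.obj.X p) := by
  classical
  obtain ⟨a, b, h⟩ := K.property
  have : HasFiniteCoproducts A := hasFiniteCoproducts_of_has_binary_and_initial
  let s := (Finset.Icc a b).filter p
  have k : ∀ n, p n → n ∉ s → IsZero (K.obj.X n) := fun n e e' => h n (by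
    by_contra c
    exact e' (Finset.mem_filter.2 ⟨Finset.mem_Icc.2 (by omega), e⟩))
  refine ⟨⟨∐ fun i : s => K.obj.X i, fun n => if e : n ∈ s then Sigma.ι (fun i : s => K.obj.X i)
    ⟨n, e⟩ else 0, fun n e => dif_neg fun c => e (Finset.mem_filter.1 c).2, fun e => ?_,
    fun g => Sigma.desc fun i => g i, fun g n e => ?_⟩⟩
  · refine Sigma.hom_ext _ _ fun i => ?_
    simpa only [dif_pos i.2] using e i (Finset.mem_filter.1 i.2).2
  · by_cases c : n ∈ s
    · rw [dif_pos c, Sigma.ι_desc]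
    · exact (k n e c).eq_of_src _ _

/-- The parity. -/
def fePar (b : Bool) (n : ℤ) : Prop := Even n ↔ b = true

theorem fePar_succ {b : Bool} {n : ℤ} (h : fePar b n) : fePar (!b) (n + 1) := by
  cases b <;> simp_all [fePar]

theorem fePar_pred {b : Bool} {n : ℤ} (h : fePar b n) : fePar (!b) (n - 1) := by
  cases b <;> simp_all [fePar]

/-- The chosen sums. -/
noncomputable def feS (b : Bool) (K : Fc A) : FeS K.obj.X (fePar b) := (fe_ex K _).some

/-- The even and the odd part. -/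
noncomputable def feE (b : Bool) : Fc A ⥤ A where
  obj K := (feS b K).P
  map {K L} φ := (feS b K).desc fun n => φ.hom.f n ≫ (feS b L).j n
  map_id K := (feS b K).ext fun n h => by
    rw [FeS.fac _ _ _ h, Category.comp_id]
    exact Category.id_comp _
  map_comp {K L M} φ ψ := (feS b K).ext fun n h => by
    rw [FeS.fac _ _ _ h, ← Category.assoc, FeS.fac _ _ _ h, Category.assoc, FeS.fac _ _ _ h,
      ← Category.assoc]
    rfl

/-- The inclusions of the terms. -/
noncomputable def feJ (b : Bool) (K : Fc A) (n : ℤ) : K.obj.X n ⟶ (feE b).obj K := (feS b K).j n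

/-- Maps from the even or odd part. -/
noncomputable def feD (b : Bool) {K : Fc A} {W : A} (g : ∀ n, K.obj.X n ⟶ W) :
    (feE b).obj K ⟶ W := (feS b K).desc g

@[reassoc] theorem feJ_D {b : Bool} {K : Fc A} {W : A} (g : ∀ n, K.obj.X n ⟶ W) {n : ℤ}
    (h : fePar b n) : feJ b K n ≫ feD b g = g n := (feS b K).fac g n h

theorem fe_ext {b : Bool} {K : Fc A} {W : A} {x y : (feE b).obj K ⟶ W}
    (h : ∀ n, fePar b n → feJ b K n ≫ x = feJ b K n ≫ y) : x = y := (feS b K).ext h

@[reassoc] theorem feJ_map (b : Bool) {K L : Fc A} (φ : K ⟶ L) (n : ℤ) :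
    feJ b K n ≫ (feE b).map φ = φ.hom.f n ≫ feJ b L n := by
  by_cases h : fePar b n
  · exact (feS b K).fac _ n h
  · have e : ∀ K : Fc A, feJ b K n = 0 := fun K => FeS.j0 _ n h
    rw [e, e, zero_comp, comp_zero]

instance (b : Bool) : (feE (A := A) b).Additive := ⟨fun {K L φ ψ} => fe_ext fun n _ => by
  rw [Preadditive.comp_add, feJ_map, feJ_map, feJ_map, ← Preadditive.add_comp]
  rfl⟩

/-- The differential. -/
noncomputable def feδ (b c : Bool) (K : Fc A) : (feE b).obj K ⟶ (feE c).obj K :=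
  feD b fun n => K.obj.d n (n + 1) ≫ feJ c K (n + 1)

@[reassoc] theorem feδ_nat (b c : Bool) {K L : Fc A} (φ : K ⟶ L) :
    (feE b).map φ ≫ feδ b c L = feδ b c K ≫ (feE c).map φ := fe_ext fun n h => by
  rw [feJ_map_assoc, feδ, feδ, feJ_D _ h, feJ_D_assoc _ h, Category.assoc, feJ_map,
    φ.hom.comm_assoc]

@[reassoc] theorem feδ_δ (b c : Bool) (K : Fc A) : feδ b (!b) K ≫ feδ (!b) c K = 0 :=
  fe_ext fun n h => by
    rw [feδ, feδ, feJ_D_assoc _ h, Category.assoc, feJ_D _ (fePar_succ h), K.obj.d_comp_d_assoc,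
      zero_comp, comp_zero]

/-- The contraction. -/
noncomputable def feσ (b c : Bool) (K : (Jc A).FullSubcategory) :
    (feE b).obj K.obj ⟶ (feE c).obj K.obj :=
  feD b fun n => K.property.some.hom n (n - 1) ≫ feJ c K.obj (n - 1)

theorem fe_con (b : Bool) (K : (Jc A).FullSubcategory) :
    feσ b (!b) K ≫ feδ (!b) b K.obj + feδ b (!b) K.obj ≫ feσ (!b) b K = 𝟙 _ :=
  fe_ext fun n h => by
    have e := K.property.some.comm n
    rw [dNext_eq _ (show (ComplexShape.up ℤ).Rel n (n + 1) from rfl),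
      prevD_eq _ (show (ComplexShape.up ℤ).Rel (n - 1) n from sub_add_cancel n 1)] at e
    have e₁ : ∀ m, m = n → K.obj.obj.d (n - 1) m ≫ feJ b K.obj m =
        K.obj.obj.d (n - 1) n ≫ feJ b K.obj n := by
      rintro _ rfl
      rfl
    have e₂ : ∀ m, m = n → K.property.some.hom (n + 1) m ≫ feJ b K.obj m =
        K.property.some.hom (n + 1) n ≫ feJ b K.obj n := by
      rintro _ rfl
      rfl
    rw [Preadditive.comp_add, feσ, feδ, feδ, feσ, feJ_D_assoc _ h, feJ_D_assoc _ h, Category.assoc,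
      Category.assoc, feJ_D _ (fePar_succ h), feJ_D _ (fePar_pred h), e₁ _ (sub_add_cancel n 1),
      e₂ _ (add_sub_cancel_right n 1), ← Category.assoc, ← Category.assoc, ← Preadditive.add_comp,
      add_comm, Category.comp_id]
    rw [HomologicalComplex.zero_f, add_zero] at e
    rw [← e]
    exact Category.id_comp _

theorem fe_kill {b : Bool} {K : (Jc A).FullSubcategory} {W : A} {t : W ⟶ (feE b).obj K.obj}
    (h : t ≫ feδ b (!b) K.obj = 0) : t ≫ feσ b (!b) K ≫ feδ (!b) b K.obj = t := by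
  have := congrArg (t ≫ ·) (fe_con b K)
  simpa only [Preadditive.comp_add, reassoc_of% h, zero_comp, add_zero, Category.comp_id] using this

theorem fe_q (b : Bool) (K : (Jc A).FullSubcategory) :
    (feσ b (!b) K ≫ feδ (!b) b K.obj) ≫ feδ b (!b) K.obj = 0 := by
  have : feδ (!b) b K.obj ≫ feδ b (!b) K.obj = 0 := by
    cases b
    exacts [feδ_δ true true K.obj, feδ_δ false false K.obj]
  rw [Category.assoc, this, comp_zero]

theorem fe_hom (b : Bool) (X : Kh (Fc A))
    (h : ∀ k, IsZero (((Fc.ev A k).mapHomotopyCategory _).obj X)) :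
    IsZero (((feE b).mapHomotopyCategory _).obj X) := by
  obtain ⟨K⟩ := X
  have H : ∀ k, Homotopy (𝟙 (((Fc.ev A k).mapHomologicalComplex _).obj K)) 0 := fun k =>
    ((HomotopyCategory.isZero_quotient_obj_iff _).1 (h k)).some
  let η : ∀ n i j, (K.X i).obj.X n ⟶ (K.X j).obj.X n := fun n => (H n).hom
  have η0 : ∀ n i j, ¬ (ComplexShape.up ℤ).Rel j i → η n i j = 0 := fun n => (H n).zero
  have η1 : ∀ n i, 𝟙 ((K.X i).obj.X n) = (K.d i ((ComplexShape.up ℤ).next i)).hom.f n ≫ η n _ i +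
      η n i _ ≫ (K.d ((ComplexShape.up ℤ).prev i) i).hom.f n := fun n i =>
    ((H n).comm i).trans (add_zero _)
  let θ : ∀ i j, (feE b).obj (K.X i) ⟶ (feE b).obj (K.X j) := fun i j =>
    feD b fun n => η n i j ≫ feJ b (K.X j) n
  have θ0 : ∀ i j, ¬ (ComplexShape.up ℤ).Rel j i → θ i j = 0 := fun i j c => fe_ext fun n e => by
    rw [feJ_D _ e, η0 n i j c, zero_comp, comp_zero]
  have θ1 : ∀ i, 𝟙 ((feE b).obj (K.X i)) = (feE b).map (K.d i ((ComplexShape.up ℤ).next i)) ≫
      θ _ i + θ i _ ≫ (feE b).map (K.d ((ComplexShape.up ℤ).prev i) i) := fun i =>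
    fe_ext fun n e => by
      rw [Preadditive.comp_add, feJ_map_assoc, feJ_D _ e, feJ_D_assoc _ e, Category.assoc, feJ_map,
        ← Category.assoc, ← Category.assoc, ← Preadditive.add_comp, ← η1, Category.comp_id,
        Category.id_comp]
  exact (HomotopyCategory.isZero_quotient_obj_iff
    (((feE b).mapHomologicalComplex _).obj K)).2 ⟨⟨θ, θ0, fun i => (θ1 i).trans (add_zero _).symm⟩⟩

theorem fe_c0 (X : A) (n : ℤ) (h : n ≠ 0) : IsZero (((Fc.c0 A).obj X).obj.X n) :=
  HomologicalComplex.isZero_single_obj_X _ _ X n h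

theorem fe_iso (X : A) : IsIso (feJ true ((Fc.c0 A).obj X) 0) := by
  have e : fePar true 0 := by simp [fePar]
  refine ⟨feD true fun n => if h : n = 0 then (HomologicalComplex.XIsoOfEq _ h).hom else 0, ?_,
    fe_ext fun n h => ?_⟩
  · rw [feJ_D _ e, dif_pos rfl]
    rfl
  · by_cases c : n = 0
    · subst c
      rw [feJ_D_assoc _ e, dif_pos rfl, Category.comp_id]
      exact Category.id_comp _
    · exact (fe_c0 X n c).eq_of_src _ _

theorem fe_one : Nonempty (Fc.c0 A ⋙ feE true ≅ 𝟭 A) := by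
  refine ⟨(NatIso.ofComponents (fun X => (HomologicalComplex.singleObjXSelf (.up ℤ) 0 X).symm ≪≫
    @asIso _ _ _ _ (feJ true ((Fc.c0 A).obj X) 0) (fe_iso X)) fun {X Y} f => ?_).symm⟩
  change f ≫ _ ≫ feJ true _ 0 = (_ ≫ feJ true _ 0) ≫ (feE true).map ((Fc.c0 A).map f)
  rw [Category.assoc, feJ_map]
  change _ = _ ≫ ((HomologicalComplex.single A (.up ℤ) 0).map f).f 0 ≫ _
  rw [HomologicalComplex.single_map_f_self]
  simp only [Category.assoc, Iso.symm_hom, Iso.inv_hom_id_assoc]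
  rfl

variable (A)
/-- `e b K` = coproduct of the `K.X n` over the `n` of parity `b` (a family with finitely many
nonzero terms has a coproduct; `Sigma.map`); `δ b : e b ⟶ e (!b)`; on a contractible complex
`δ σ` is idempotent, so `δ b` has a kernel `z b`. -/
theorem exists_par [IsIdempotentComplete A] : ∃ (e : Bool → Fc A ⥤ A) (_ : ∀ b, (e b).Additive)
    (z : Bool → (Jc A).FullSubcategory ⥤ A) (_ : ∀ b, (z b).Additive),
    (∀ b (X : Kh (Fc A)), (∀ k, IsZero (((Fc.ev A k).mapHomotopyCategory _).obj X)) →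
      IsZero (((e b).mapHomotopyCategory _).obj X)) ∧
    Nonempty (Fc.c0 A ⋙ e true ≅ 𝟭 A) ∧ (∀ X, IsZero ((e false).obj ((Fc.c0 A).obj X))) ∧
    ∀ b, ∃ (α : z b ⟶ (Jc A).ι ⋙ e b) (β : (Jc A).ι ⋙ e b ⟶ z (!b)), α ≫ β = 0 ∧
      ∀ X, Spl (α.app X) (β.app X) := by
  choose Z i r ir ri using fun (b : Bool) (K : (Jc A).FullSubcategory) =>
    IsIdempotentComplete.idempotents_split _ (feσ b (!b) K ≫ feδ (!b) b K.obj)
      (fe_kill (fe_q b K))
  have iδ : ∀ b K, i b K ≫ feδ b (!b) K.obj = 0 := fun b K => by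
    rw [← Category.id_comp (i b K), ← ir, Category.assoc, Category.assoc, ← Category.assoc (r b K),
      ri, fe_q, comp_zero]
  have kill : ∀ b K {W : A} (t : W ⟶ (feE b).obj K.obj), t ≫ feδ b (!b) K.obj = 0 →
      t ≫ r b K ≫ i b K = t := fun b K W t h => by rw [ri, fe_kill h]
  have nat : ∀ b {K L : (Jc A).FullSubcategory} (φ : K ⟶ L),
      (i b K ≫ (feE b).map φ.hom ≫ r b L) ≫ i b L = i b K ≫ (feE b).map φ.hom := fun b K L φ => by
    have := kill b L (i b K ≫ (feE b).map φ.hom) (by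
      rw [Category.assoc, feδ_nat, ← Category.assoc, iδ, zero_comp])
    simpa only [Category.assoc] using this
  let z : Bool → (Jc A).FullSubcategory ⥤ A := fun b =>
    { obj := Z b
      map := fun {K L} φ => i b K ≫ (feE b).map φ.hom ≫ r b L
      map_id := fun K => by
        change i b K ≫ (feE b).map (𝟙 _) ≫ r b K = _
        rw [CategoryTheory.Functor.map_id, Category.id_comp, ir]
      map_comp := fun {K L M} φ ψ => by
        change i b K ≫ (feE b).map (φ.hom ≫ ψ.hom) ≫ r b M = _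
        rw [← Category.assoc _ (i b L), nat, Functor.map_comp]
        simp only [Category.assoc] }
  have δr : ∀ b K, feδ b (!b) K.obj ≫ r (!b) K ≫ i (!b) K = feδ b (!b) K.obj := fun b K =>
    kill _ _ _ (feδ_δ b _ K.obj)
  refine ⟨feE, inferInstance, z, fun b => ⟨fun {K L φ ψ} => ?_⟩, fe_hom, fe_one,
    fun X => (IsZero.iff_id_eq_zero _).2 (fe_ext fun n h => (fe_c0 X n ?_).eq_of_src _ _),
    fun b => ⟨⟨i b, fun K L φ => nat b φ⟩, ⟨fun K => feδ b (!b) K.obj ≫ r (!b) K, fun K L φ => ?_⟩,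
      NatTrans.ext (funext fun K => ?_), fun K => ⟨r b K, i (!b) K ≫ feσ (!b) b K, ir b K, ?_, ?_⟩⟩⟩
  · change i b K ≫ (feE b).map (φ.hom + ψ.hom) ≫ r b L = i b K ≫ (feE b).map φ.hom ≫ r b L +
      i b K ≫ (feE b).map ψ.hom ≫ r b L
    rw [Functor.map_add, Preadditive.add_comp, Preadditive.comp_add]
  · rintro rfl
    simp [fePar] at h
  · change (feE b).map φ.hom ≫ feδ b (!b) L.obj ≫ r (!b) L =
      (feδ b (!b) K.obj ≫ r (!b) K) ≫ i (!b) K ≫ (feE (!b)).map φ.hom ≫ r (!b) L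
    rw [feδ_nat_assoc, Category.assoc, reassoc_of% δr b K]
  · change i b K ≫ feδ b (!b) K.obj ≫ r (!b) K = 0
    rw [← Category.assoc, iδ, zero_comp]
  · change (i (!b) K ≫ feσ (!b) b K) ≫ feδ b (!b) K.obj ≫ r (!b) K = 𝟙 _
    have : feσ (!b) b K ≫ feδ b (!b) K.obj = r (!b) K ≫ i (!b) K := by
      rw [ri]
      cases b <;> rfl
    rw [Category.assoc, reassoc_of% this, ir, Category.comp_id, ir]
  · change r b K ≫ i b K + (feδ b (!b) K.obj ≫ r (!b) K) ≫ i (!b) K ≫ feσ (!b) b K = 𝟙 _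
    rw [ri, Category.assoc, reassoc_of% δr b K]
    exact fe_con b K
end Fe

end Pool.Agent.Lib.MP_5d3e93_al.K
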