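import Pool.Agent.Lib.MP_5d3e93_al.K.P8a
import Pool.Agent.Lib.MP_5d3e93_al.K.Fd
import Pool.Agent.Lib.MP_5d3e93_al.K.Fe
import Pool.Agent.Lib.MP_5d3e93_al.K.Kar

/-! Vanishing of all K-groups passes to products of idempotent complete additive categories. -/

open CategoryTheory Limits Pretriangulated ZeroObject

namespace Pool.Agent.Lib.MP_5d3e93_al.K

open Gr

universe w v u

theorem p8_abs {c x j : Am.{v, u}} {N : ObjectProperty x.D} [Tg N] (n : ℕ) (ι : Am.Map j x)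
    (c₀ : Am.Map c x) (e : Bool → Am.Map x c) (z : Bool → Am.Map j c) (le : N ≤ x.bdd)
    (su : Function.Surjective (Am.Kinc n le)) (dq : Deq ι.D j.bdd N)
    (i₁ : (c₀.comp (e true)).F ≅ c.idm.F) (i₀ : ∀ X, IsZero ((c₀.comp (e false)).F.obj X))
    {α : ∀ b, (z b).F ⟶ (ι.comp (e b)).F} {β : ∀ b, (ι.comp (e b)).F ⟶ (z (!b)).F}
    {h : ∀ b, α b ≫ β b = 0} (s : ∀ b, Am.Ses (α b) (β b) (h b) j.bdd) :
    Subsingleton (Am.Kn n c c.bdd) := by
  refine subsingleton_of_forall_eq 0 fun y => ?_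
  obtain ⟨y₁, h₁⟩ := su (Am.Kmap n c₀ c₀.bdd_map y)
  obtain ⟨y₂, rfl⟩ := (Am.deq_bij n dq).2 y₁
  have k : ∀ b, Am.Kmap n (c₀.comp (e b)) (c₀.comp (e b)).bdd_map y =
      Am.Kmap n (z b) (z b).bdd_map y₂ + Am.Kmap n (z (!b)) (z (!b)).bdd_map y₂ := fun b => by
    have l : N ≤ c.bdd.inverseImage (x.idm.comp (e b)).D := fun X a => (e b).bdd_map X (le X a)
    rw [Am.Kmap_comp n c₀ (e b) c₀.bdd_map (e b).bdd_map, ← h₁, ← AddMonoidHom.add_apply,
      ← Am.Kmap_add n (s b) _ (ι.comp (e b)).bdd_map]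
    exact (Am.Kmap_comp n x.idm (e b) le (e b).bdd_map l _).symm.trans
      (Am.Kmap_comp n ι (x.idm.comp (e b)) dq.maps l (ι.comp (e b)).bdd_map y₂).symm
  have k₁ := k true
  have k₀ := k false
  rw [Am.Kmap_iso n _ _ i₁ _ c.idm.bdd_map] at k₁
  rw [Am.Kmap_zero (S := c.bdd) n _ (Cl.le (S := Zr.inverseImage (c₀.comp (e false)).D) fun X ⟨Y, _, ⟨i⟩⟩ =>
    (c.sg.map_isZero (i₀ Y)).of_iso ((c₀.comp (e false)).D.mapIso i.symm ≪≫
      (c₀.comp (e false)).of_iso.choose Y))] at k₀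
  exact (Am.Kinc_refl n le_rfl y).symm.trans (k₁.trans ((add_comm _ _).trans k₀.symm))

theorem fj_sum {A : Type (max u v)} [Category.{v} A] [Preadditive A] [HasZeroObject A]
    [HasBinaryBiproducts A] {X Y : (fa.{v, u} A).D}
    (h : ObjectProperty.map (C := (fa.{v, u} A).A) (Jc A) (fa.{v, u} A).sg X)
    (k : ObjectProperty.map (C := (fa.{v, u} A).A) (Jc A) (fa.{v, u} A).sg Y) :
    ObjectProperty.map (C := (fa.{v, u} A).A) (Jc A) (fa.{v, u} A).sg (X ⊞ Y) := by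
  obtain ⟨X', h, ⟨e⟩⟩ := h
  obtain ⟨Y', k, ⟨e'⟩⟩ := k
  have := preservesBinaryBiproducts_of_preservesBiproducts (fa.{v, u} A).sg
  exact ⟨_, Jc.biprod A X' Y' h k, ⟨(fa.{v, u} A).sg.mapBiprod X' Y' ≪≫ biprod.mapIso e e'⟩⟩

variable {I : Type w} (A : I → Type (max u v)) [∀ i, Category.{v} (A i)] [∀ i, Preadditive (A i)]
  [∀ i, HasZeroObject (A i)] [∀ i, HasBinaryBiproducts (A i)]

/-- The product of the categories of bounded complexes. -/
abbrev pf : Am.{max w v, max w u} := api fun i => fa.{v, u} (A i)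

/-- Families of contractible complexes. -/
def pJ : ObjectProperty (pf.{w, v, u} A).A := fun X => ∀ i, Jc (A i) (X i)

theorem pG_eq : piS (fun i => ObjectProperty.map ⊤ (fa.{v, u} (A i)).sg) =
    ObjectProperty.map ⊤ (pf.{w, v, u} A).sg := (piS_sg _).trans (congrArg
  (ObjectProperty.map · (pf.{w, v, u} A).sg) (funext fun _ => propext ⟨fun _ => trivial,
    fun _ _ => trivial⟩))

theorem pJ_eq : piS (fun i => ObjectProperty.map (C := (fa.{v, u} (A i)).A) (Jc (A i))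
    (fa.{v, u} (A i)).sg) = (pJ.{w, v, u} A).map (pf.{w, v, u} A).sg := piS_sg _

/-- The inclusion of the contractible complexes. -/
def pι : Am.Map (Am.of.{max w v, max w u} (∀ i, (Jc (A i)).FullSubcategory)) (pf.{w, v, u} A) :=
  @Am.ofMap _ _ _ _ _ (pf.{w, v, u} A) (Functor.pi fun i => (Jc (A i)).ι)
    (inferInstanceAs (Functor.pi fun i => (Jc (A i)).ι).Additive)

theorem pι_deq : Deq (pι.{w, v, u} A).D (Am.of _).bdd ((pf.{w, v, u} A).gen (pJ.{w, v, u} A)) := by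
  have h := Am.FF.deq_gen (pι.{w, v, u} A) (Am.ff_of_pj (G := ⊤) _ (fun g _ => Am.of_pj g)
    (fun g _ => api_pj fun i => Jc.pj (g i).property) fun g g' _ _ =>
      ⟨fun f f' e => funext fun i => (Jc (A i)).ι.map_injective (congrFun e i),
        fun φ => ⟨fun i => (Jc (A i)).homMk (φ i), rfl⟩⟩)
  have e : ObjectProperty.map (ObjectProperty.map ⊤ (pι.{w, v, u} A).F) (pf.{w, v, u} A).sg =
      (pJ.{w, v, u} A).map (pf.{w, v, u} A).sg := funext fun X => propext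
    ⟨fun ⟨_, ⟨Z, _, ⟨i⟩⟩, ⟨k⟩⟩ => ⟨_, fun i => (Z i).property,
      ⟨(pf.{w, v, u} A).sg.mapIso i ≪≫ k⟩⟩,
      fun ⟨Y, a, k⟩ => ⟨Y, ⟨fun i => ⟨Y i, a i⟩, trivial, ⟨Iso.refl _⟩⟩, k⟩⟩
  rwa [Am.gen, Am.gen, e] at h

variable [∀ i, IsIdempotentComplete (A i)]

theorem pf_frob : Frob ((pJ.{w, v, u} A).map (pf.{w, v, u} A).sg)
    (ObjectProperty.map ⊤ (pf.{w, v, u} A).sg) := by
  rw [← pG_eq, ← pJ_eq]
  have : ∀ i, (ObjectProperty.map (C := (fa.{v, u} (A i)).A) (Jc (A i))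
    (fa.{v, u} (A i)).sg).IsClosedUnderIsomorphisms := fun i =>
      ⟨fun e ⟨X, a, ⟨k⟩⟩ => ⟨X, a, ⟨k ≪≫ e⟩⟩⟩
  exact (isPi_apr _).frob fun i => fa_frob

theorem pf_locOn : LocOn (mpi fun i => fπ.{v, u} (A i)).D
    ((pf.{w, v, u} A).gen (pJ.{w, v, u} A)) (pf.{w, v, u} A).bdd := by
  refine (pf_frob A).locOn (fun X h => ?_) fun X Y a b => ?_
  · rw [← pJ_eq] at h
    exact (isPi_apr _).isZero fun i => fπ_loc.kill _ (Cl.of (h i))
  · rw [← pG_eq] at a b
    exact (isPi_apr _).map_bij (fun i => (mpi_iso _ i).some) (isPi_apr _) fun i =>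
      lc_iso (Iso.refl _) (((apr _ i).D.commShiftIso (1 : ℤ)).app Y).symm
        ⟨fa_frob.injective fπ_loc.toLocOn 1 one_pos (a i) (b i),
          fa_frob.surj fπ_loc.toLocOn 1 zero_le_one (a i) (b i)⟩

theorem pf_thick {X : (pf.{w, v, u} A).D} (h : Th ((pf.{w, v, u} A).gen (pJ.{w, v, u} A)) X) :
    (pf.{w, v, u} A).gen (pJ.{w, v, u} A) X := by
  refine cl_retract ?_ (fun n hn X Y f a b => (pf_frob A).proj n hn X Y f a
    ((pf_frob A).le _ b)) ?_ ?_ h <;> rw [← pJ_eq]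
  · intro X a i
    obtain ⟨Z, hZ, k⟩ := (Jc (A i)).exists_prop_of_containsZero
    exact ⟨Z, k, ⟨((fa.{v, u} (A i)).sg.map_isZero hZ).iso ((apr _ i).D.map_isZero a)⟩⟩
  · intro X Y a b i
    have := preservesBinaryBiproducts_of_preservesBiproducts (apr (fun i => fa.{v, u} (A i)) i).D
    exact ObjectProperty.prop_of_iso _ ((apr _ i).D.mapBiprod X Y).symm (fj_sum (a i) (b i))
  · intro X Y s r e a i
    exact fa_ret _ _ ((apr _ i).D.map s) ((apr _ i).D.map r)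
      (by rw [← Functor.map_comp, e]; exact CategoryTheory.Functor.map_id _ _) (a i)

theorem pf_loc : Loc (mpi fun i => fπ.{v, u} (A i)).D ((pf.{w, v, u} A).gen (pJ.{w, v, u} A))
    (pf.{w, v, u} A).bdd (piS fun i => (fa.{v, u} (A i)).bdd.map (fπ.{v, u} (A i)).D) where
  toLocOn := pf_locOn A
  thick _ a b := pf_thick A ((pf_locOn A).th a b)
  maps := le_trans (b := piS fun i => (fa.{v, u} (A i)).bdd)
    (Cl.le fun X h i => Cl.of ((pG_eq A).ge X h i)) (mpi_maps fun _ => fπ_loc.maps)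
  surj Y a := by
    choose X hX e using a
    choose Z hZ e' using fun i => fa_frob.ess fπ_loc.toLocOn
      ⟨_, (0 : (fa.{v, u} (A i)).A), trivial, ⟨Iso.refl _⟩⟩ (hX i)
    obtain ⟨W, hW⟩ := (isPi_apr fun i => fa.{v, u} (A i)).surj Z
    exact ⟨W, Cl.of ((pG_eq A).le W fun i => ObjectProperty.prop_of_iso _ (hW i).some.symm (hZ i)),
      (isPi_apr _).iso fun i =>
        ⟨(fπ.{v, u} (A i)).D.mapIso (hW i).some ≪≫ (e' i).some.symm ≪≫ (e i).some⟩⟩

/-- A product of idempotent complete additive categories without K-theory has no K-theory. -/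
theorem Z_prod (z : ∀ i, Am.Z (Am.of.{v, u} (A i)).bdd) :
    Am.Z (Am.of.{max w v, max w u} (∀ i, A i)).bdd := fun n => by
  have tg := fun i => (fπ_loc (A := A i)).toLocOn.tg_map
  have z' := Z_pi (fun i => (fa.{v, u} (A i)).bdd.map (fπ.{v, u} (A i)).D)
    fun i => (Am.Z_deq fq_deq).1 (z i)
  choose e ae ζ aζ hT i₁ i₀ α β h s using fun i => exists_par (A i)
  exact p8_abs n (pι A) (@Am.ofMap _ _ _ _ _ (pf.{w, v, u} A) (Functor.pi fun i => Fc.c0 (A i))
      (inferInstanceAs (Functor.pi fun i => Fc.c0 (A i)).Additive))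
    (fun b => @Am.Map.mk _ (Am.of.{max w v, max w u} (∀ i, A i)) (Functor.pi fun i => e i b)
      (inferInstanceAs (Functor.pi fun i => e i b).Additive) fun X k => (Am.of_Tb _).2
        ((isPi_K A).isZero fun i => hT i b _ fun l =>
          (Am.of_Tb _).1 ((fev.{v, u} (A i) l).hTb _ (k i))))
    (fun b => @Am.ofMap _ _ _ _ _ (Am.of.{max w v, max w u} (∀ i, A i)) (Functor.pi fun i => ζ i b)
      (inferInstanceAs (Functor.pi fun i => ζ i b).Additive))
    (pf_loc A).le (Am.loc_inc_surj n (pf_loc A) fun j _ => z' j) (pι_deq A)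
    (NatIso.pi (F := fun i => Fc.c0 (A i) ⋙ e i true) (G := fun i => 𝟭 (A i)) fun i => (i₁ i).some)
    (fun X => (IsZero.iff_id_eq_zero _).2 (funext fun i => (i₀ i (X i)).eq_of_src _ _))
    (α := fun b => NatTrans.pi fun i => α i b) (β := fun b => NatTrans.pi fun i => β i b)
    (h := fun b => NatTrans.ext (funext fun X => funext fun i =>
      NatTrans.congr_app (h i b) (X i)))
    fun b => by
      refine Am.ses_of_split (fun X : ∀ i, (Jc (A i)).FullSubcategory => ?_) _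
      exact spl_pi (A := A) fun i => s i b (X i)

end Pool.Agent.Lib.MP_5d3e93_al.K
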