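import Pool.Agent.Lib.MP_5d3e93_al.K.CDf
import Pool.Agent.Lib.MP_5d3e93_al.K.PushA
import Pool.Agent.Lib.MP_5d3e93_al.K.P8b

/-! The localisation sequence of the asymptotic category. -/

open CategoryTheory Limits ZeroObject Filter MulAction

namespace Pool.Agent.Lib.MP_5d3e93_al

universe w w' v u y y' v' u'

open Gr

namespace GC

variable {G : Type w} [Group G] {C : Type u} [Category.{v} C] [Preadditive C] [HasZeroObject C]
  {S : GC G C}

variable {J : Type} {Y : J → Type y} {Y' : J → Type y'} {l l' : Filter J} {ν : Ar G Y}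
  {ν' : Ar G Y'}

section Cut

omit [HasZeroObject C]

open Classical in
/-- A family replaced by zero outside a set. -/
noncomputable def clo {A B : J → C} (s : Set J) (f : ∀ j, A j ⟶ B j) (j : J) : A j ⟶ B j :=
  if j ∈ s then f j else 0

variable {A B D : J → C} {s : Set J} {f : ∀ j, A j ⟶ B j} {j : J}

theorem clo_of (h : j ∈ s) : clo s f j = f j := if_pos h

theorem clo_not (h : j ∉ s) : clo s f j = 0 := if_neg h

theorem clo_comp {g : ∀ j, B j ⟶ D j} {k : ∀ j, A j ⟶ D j} (h : j ∈ s → f j ≫ g j = k j) :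
    clo s f j ≫ clo s g j = clo s k j := by
  by_cases a : j ∈ s
  · rw [clo_of a, clo_of a, clo_of a, h a]
  · rw [clo_not a, clo_not a, clo_not a, zero_comp]

theorem clo_l {g : ∀ j, B j ⟶ D j} {k : ∀ j, A j ⟶ D j} (h : j ∈ s → f j ≫ g j = k j) :
    clo s f j ≫ g j = clo s k j := by
  by_cases a : j ∈ s
  · rw [clo_of a, clo_of a, h a]
  · rw [clo_not a, clo_not a, zero_comp]

theorem clo_r {g : ∀ j, B j ⟶ D j} {k : ∀ j, A j ⟶ D j} (h : j ∈ s → f j ≫ g j = k j) :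
    f j ≫ clo s g j = clo s k j := by
  by_cases a : j ∈ s
  · rw [clo_of a, clo_of a, h a]
  · rw [clo_not a, clo_not a, comp_zero]

theorem clo_rg {L : S.Lo (Y j) (A j)} {M : S.Lo (Y j) (B j)} {R : Y j → G → Y j → Prop}
    (h : j ∈ s → L.Rg M R (f j)) : L.Rg M R (clo s f j) := by
  by_cases a : j ∈ s
  · rw [clo_of a]
    exact h a
  · rw [clo_not a]
    exact .zero

theorem Ec.clo {L : ∀ j, S.Lo (Y j) (A j)} {M : ∀ j, S.Lo (Y j) (B j)} (h : Ec l ν L M f)
    (s : Set J) : Ec l ν L M (clo s f) := h.imp fun _ a => a.mono fun _ b => clo_rg fun _ => b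

variable (S l ν) in
/-- Cutting to a set of indices. -/
noncomputable def AS.cut (s : Set J) : S.AS l ν ⥤ S.AS l ν where
  obj M := ⟨M.A, M.L, clo s M.p, fun j => clo_comp fun _ => M.idem j, M.rg.clo s⟩
  map f := AS.homMk (clo s f.1) (fun j => clo_comp fun _ => AS.p_comp f j)
    (fun j => clo_comp fun _ => AS.comp_p f j) ((AS.hom_rg f).clo s)
  map_id _ := rfl
  map_comp _ _ := AS.hom_ext fun _ => (clo_comp fun _ => rfl).symm

instance (s : Set J) : (AS.cut S l ν s).Additive := ⟨fun {_ _ f g} => AS.hom_ext fun j => by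
  change clo s (f + g).1 j = clo s f.1 j + clo s g.1 j
  by_cases a : j ∈ s
  · rw [clo_of a, clo_of a, clo_of a]
    rfl
  · rw [clo_not a, clo_not a, clo_not a, add_zero]⟩

variable (S l ν) in
/-- The inclusion of the part over a set. -/
noncomputable def AS.cutI (s : Set J) : AS.cut S l ν s ⟶ 𝟭 _ where
  app M := AS.homMk (clo s M.p) (fun j => clo_comp fun _ => M.idem j)
    (fun j => clo_l fun _ => M.idem j) (M.rg.clo s)
  naturality _ _ f := AS.hom_ext fun j => (clo_comp (k := f.1) fun _ => AS.comp_p f j).trans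
    (clo_l fun _ => AS.p_comp f j).symm

variable (S l ν) in
/-- The projection to the part over a set. -/
noncomputable def AS.cutR (s : Set J) : 𝟭 _ ⟶ AS.cut S l ν s where
  app M := AS.homMk (clo s M.p) (fun j => clo_r fun _ => M.idem j)
    (fun j => clo_comp fun _ => M.idem j) (M.rg.clo s)
  naturality _ _ f := AS.hom_ext fun j => (clo_r (k := f.1) fun _ => AS.comp_p f j).trans
    (clo_comp fun _ => AS.p_comp f j).symm

theorem AS.cut_spl {s t : Set J} (h : ∀ j, j ∈ t ↔ j ∉ s) (M : S.AS l ν) :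
    Gr.Spl ((AS.cutI S l ν s).app M) ((AS.cutR S l ν t).app M) :=
  ⟨(AS.cutR S l ν s).app M, (AS.cutI S l ν t).app M,
    AS.hom_ext fun j => clo_comp fun _ => M.idem j,
    AS.hom_ext fun j => clo_comp fun _ => M.idem j, AS.hom_ext fun j => by
      change clo s M.p j ≫ clo s M.p j + clo t M.p j ≫ clo t M.p j = M.p j
      by_cases a : j ∈ s
      · rw [clo_of a, clo_not fun b => (h j).1 b a, M.idem, zero_comp, add_zero]
      · rw [clo_not a, clo_of ((h j).2 a), M.idem, zero_comp, zero_add]⟩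

end Cut

section CLo

/-- Replace a representative by zero where it is not idempotent. -/
instance : IsIdempotentComplete (S.AO l ν) := ⟨fun X e h => by
  obtain ⟨f, rfl⟩ := (AO.π S l ν).map_surjective (X := X.as) (Y := X.as) e
  have k := AO.π_eq.1 (((AO.π S l ν).map_comp f f).trans h)
  let s : Set J := {j | (f ≫ f).1 j = f.1 j}
  let g : X.as ⟶ X.as := AS.homMk (clo s f.1) (fun j => clo_r fun _ => AS.p_comp f j)
    (fun j => clo_l fun _ => AS.comp_p f j) ((AS.hom_rg f).clo s)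
  obtain ⟨Z, i, r, a, b⟩ := IsIdempotentComplete.idempotents_split _ g
    (AS.hom_ext fun j => clo_comp fun c => c)
  refine ⟨(AO.π S l ν).obj Z, (AO.π S l ν).map i, (AO.π S l ν).map r, ?_, ?_⟩
  · exact ((AO.π S l ν).map_comp i r).symm.trans ((congrArg _ a).trans ((AO.π S l ν).map_id _))
  · exact ((AO.π S l ν).map_comp r i).symm.trans ((congrArg _ b).trans
      (AO.π_eq.2 (k.mono fun j c => clo_of c)))⟩

/-- Objects that vanish eventually. -/
def AS.Nl (l : Filter J) (M : S.AS l' ν) : Prop := ∀ᶠ j in l, M.p j = 0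

omit [HasZeroObject C] in
theorem AS.p_zero {M N : S.AS l' ν} (i : M ⟶ N) (r : N ⟶ M) (h : i ≫ r = 𝟙 M) {j : J}
    (k : N.p j = 0) : M.p j = 0 := by
  have e : i.1 j ≫ r.1 j = M.p j := congrArg (·.1 j) h
  rw [← e, ← AS.p_comp r, k, zero_comp, comp_zero]

omit [HasZeroObject C] in
theorem AS.Nl.add (M N : S.AS l' ν) (h : AS.Nl l M) (k : AS.Nl l N) : AS.Nl l (M ⊞ N) :=
  (h.and k).mono fun j a => by
    have e : (biprod.fst : M ⊞ N ⟶ M).1 j ≫ (biprod.inl : M ⟶ M ⊞ N).1 j +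
        (biprod.snd : M ⊞ N ⟶ N).1 j ≫ (biprod.inr : N ⟶ M ⊞ N).1 j = (M ⊞ N).p j :=
      congrArg (·.1 j) (biprod.total (X := M) (Y := N))
    rw [← e, ← AS.p_comp biprod.inl, ← AS.p_comp biprod.inr, a.1, a.2]
    simp

omit [HasZeroObject C] in
theorem clo_full (h : l ≤ l') : (AS.flt S ν h ⋙ AO.π S l ν).Full := ⟨fun {M N} φ => by
  obtain ⟨f, rfl⟩ := (AO.π S l ν).map_surjective φ
  obtain ⟨r, k⟩ := AS.hom_rg f
  exact ⟨AS.homMk (clo {j | (M.L j).Rg (N.L j) (ν.n r j) (f.1 j)} f.1)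
    (fun j => clo_r fun _ => AS.p_comp f j) (fun j => clo_l fun _ => AS.comp_p f j)
    ⟨r, .of_forall fun j => clo_rg fun c => c⟩, AO.π_eq.2 (k.mono fun j c => clo_of c)⟩⟩

omit [HasZeroObject C] in
theorem clo_ess (h : l ≤ l') : (AS.flt S ν h ⋙ AO.π S l ν).essImage = ⊤ := by
  refine le_antisymm le_top fun X _ => ?_
  obtain ⟨r, k⟩ := X.as.rg
  let s : Set J := {j | (X.as.L j).Rg (X.as.L j) (ν.n r j) (X.as.p j)}
  refine ⟨⟨X.as.A, X.as.L, clo s X.as.p, fun j => clo_comp fun _ => X.as.idem j,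
    ⟨r, .of_forall fun j => clo_rg fun c => c⟩⟩,
    ⟨⟨(AO.π S l ν).map ((AS.cutI S l ν s).app X.as), (AO.π S l ν).map ((AS.cutR S l ν s).app X.as),
      ?_, ?_⟩⟩⟩
  · exact ((AO.π S l ν).map_comp _ _).symm.trans ((congrArg _
      (AS.hom_ext fun j => clo_comp fun _ => X.as.idem j)).trans ((AO.π S l ν).map_id _))
  · exact ((AO.π S l ν).map_comp _ _).symm.trans ((AO.π_eq.2 (k.mono fun j c =>
      (clo_comp fun _ => X.as.idem j).trans (clo_of c))).trans ((AO.π S l ν).map_id _))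

/-- `kar_loc` for the full subcategory `Nl l` (or `proadj`); full and essentially surjective by
cutting to a set in `l`. -/
theorem as_loc (h : l ≤ l') : Gr.Loc (Am.ofOf.{v, max u y, v, max u y} (AS.flt S ν h ⋙ AO.π S l ν)).D
    ((S.au l' ν).gen (AS.Nl l)) (S.au l' ν).bdd (S.ao l ν).bdd := by
  let P : ObjectProperty (S.AS l' ν) := AS.Nl l
  have : P.ContainsZero := ⟨0, isZero_zero _, .of_forall fun j =>
    congrArg (·.1 j) ((IsZero.iff_id_eq_zero _).1 (isZero_zero (S.AS l' ν)))⟩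
  have : HasBinaryBiproducts P.FullSubcategory := K.hasBiprod_full P AS.Nl.add
  have : IsIdempotentComplete P.FullSubcategory := ⟨fun X e k => by
    obtain ⟨Z, i, r, a, b⟩ := IsIdempotentComplete.idempotents_split _ e.hom (congrArg (·.hom) k)
    exact ⟨⟨Z, X.property.mono fun j => AS.p_zero i r a⟩, P.homMk i, P.homMk r,
      ObjectProperty.hom_ext _ a, ObjectProperty.hom_ext _ b⟩⟩
  have := clo_full (S := S) (ν := ν) h
  have k := K.kar_loc.{v, max u y, v, max u y, v, max u y} P.ι (AS.flt S ν h ⋙ AO.π S l ν)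
    (fun a => (IsZero.iff_id_eq_zero _).2 (((AO.π S l ν).map_id _).symm.trans
      ((AO.π_eq.2 (a.property.mono fun _ c => c)).trans ((AO.π S l ν).map_zero _ _))))
    fun {M N} f z => by
      have z' := AO.π_eq.1 (z.trans ((AO.π S l ν).map_zero _ _).symm)
      let s : Set J := {j | f.1 j = 0}
      refine ⟨_, ⟨(AS.cut S l' ν sᶜ).obj M, z'.mono fun j c => clo_not fun d => d c⟩, _, _,
        AS.cut_spl (s := s) (t := sᶜ) (fun _ => Iff.rfl) M, AS.hom_ext fun j => ?_⟩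
      refine (clo_l (k := fun _ => 0) fun c => ?_).trans (ite_self _)
      exact (AS.p_comp f j).trans c
  have e : P.ι.essImage = P := le_antisymm
    (fun X ⟨a, ⟨i⟩⟩ => a.property.mono fun j => AS.p_zero i.inv i.hom i.inv_hom_id)
    fun X a => ⟨⟨X, a⟩, ⟨Iso.refl _⟩⟩
  rw [e, clo_ess h] at k
  exact k

theorem clo_loc : Gr.Loc (S.πm l ν).D ((S.au l ν).gen (AS.Nl l)) (S.au l ν).bdd (S.ao l ν).bdd :=
  as_loc le_rfl

/-- The class generated by the objects that vanish on a set. -/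
def cloQ (S : GC G C) (l' : Filter J) (ν : Ar G Y) (s : Set J) : ObjectProperty (S.au l' ν).D :=
  (S.au l' ν).gen fun M : S.AS l' ν => ∀ j ∈ s, M.p j = 0

instance (s : Set J) : Tg (cloQ S l' ν s) := inferInstanceAs (Tg (Cl _))

theorem cloQ_mono {s t : Set J} (h : t ⊆ s) : cloQ S l' ν s ≤ cloQ S l' ν t :=
  (S.au l' ν).idm.gen_map fun _ a j b => a j (h b)

theorem cloQ_le {s : Set J} (h : s ∈ l) : cloQ S l' ν s ≤ (S.au l' ν).gen (AS.Nl l) :=
  (S.au l' ν).idm.gen_map fun _ a => mem_of_superset h fun j b => a j b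

theorem clo_union (n : ℕ) (x : Am.Kn n (S.au l' ν) ((S.au l' ν).gen (AS.Nl l))) :
    ∃ (s : Set J) (h : s ∈ l) (z : Am.Kn n (S.au l' ν) (cloQ S l' ν s)),
      Am.Kinc n (cloQ_le h) z = x := by
  have : Tg ((S.au l' ν).gen (AS.Nl l)) := inferInstanceAs (Tg (Cl _))
  have : Nonempty {s // s ∈ l} := ⟨⟨_, univ_mem⟩⟩
  have t : Tg (fun X => ∃ s : {s // s ∈ l}, cloQ S l' ν s.1 X : ObjectProperty (S.au l' ν).D) :=
    Tg.mk' (fun _ h => ⟨⟨_, univ_mem⟩, Tg.zero _ h⟩)
      (fun n X ⟨s, h⟩ => ⟨s, (cloQ S l' ν s.1).le_shift n X h⟩)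
      fun T e ⟨s, h⟩ ⟨t, k⟩ => ⟨⟨_, inter_mem s.2 t.2⟩,
        (cloQ S l' ν (s.1 ∩ t.1)).ext_of_isTriangulatedClosed₂ T e
          (cloQ_mono Set.inter_subset_left _ h) (cloQ_mono Set.inter_subset_right _ k)⟩
  obtain ⟨s, z, e⟩ := Am.union_surj n (fun s : {s // s ∈ l} => cloQ S l' ν s.1)
    (fun s t => ⟨⟨_, inter_mem s.2 t.2⟩, cloQ_mono Set.inter_subset_left,
      cloQ_mono Set.inter_subset_right⟩) (fun s => cloQ_le s.2)
    (@Cl.le _ _ _ _ _ _ _ _ _ t (by
      rintro _ ⟨M, h, e⟩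
      exact ⟨⟨_, h⟩, Cl.of ⟨M, fun _ a => a, e⟩⟩)) x
  exact ⟨s.1, s.2, z, e⟩

theorem clo_kill {a : Am.{v, u}} {b : Am.{v', u'}} (f : Am.Map a b) {P : ObjectProperty a.A}
    (h : ∀ X, P X → IsZero (f.F.obj X)) (X : a.D) (k : a.gen P X) : IsZero (f.D.obj X) :=
  Cl.le (S := Zr) (by
    rintro _ ⟨Z, z, ⟨i⟩⟩
    exact (b.sg.map_isZero z).of_iso i.symm) _ (f.gen_map (P' := fun Z => IsZero Z) h X k)

theorem clo_inc {a : Am.{v, u}} {b : Am.{v', u'}} (f : Am.Map a b) {N N' : ObjectProperty a.D}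
    {U : ObjectProperty b.D} (k : N ≤ N') (h : N ≤ U.inverseImage f.D)
    (h' : N' ≤ U.inverseImage f.D) (n : ℕ) (x : Am.Kn n a N) :
    Am.Kmap n f h' (Am.Kinc n k x) = Am.Kmap n f h x :=
  (Am.Kmap_comp n a.idm f k h' h x).symm

/-- `Loc.restrict`, `loc_inc_surj`; the kernel is the directed union over `s ∈ l` of the objects
killed by the `evm j`, `j ∈ s` (`union_surj`, `Kmap_zero`). -/
theorem asym (N : ObjectProperty (S.ao l ν).D) [Tg N] (h : N ≤ (S.ao l ν).bdd) (z : Am.Z N) :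
    S.EV l ν ((S.au l ν).bdd ⊓ N.inverseImage (S.πm l ν).D) := fun n x => by
  have : Tg ((S.au l ν).gen (AS.Nl l)) := inferInstanceAs (Tg (Cl _))
  have : Tg (S.au l ν).bdd := inferInstanceAs (Tg (Cl _))
  have : Tg (S.ao l ν).bdd := inferInstanceAs (Tg (Cl _))
  have k := (clo_loc (S := S) (l := l) (ν := ν)).restrict h
  obtain ⟨x, rfl⟩ := Am.loc_inc_surj n k (fun j _ => z j) x
  obtain ⟨s, hs, x, rfl⟩ := clo_union n x
  refine mem_of_superset hs fun j hj a => ?_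
  rw [Am.knl_comp, clo_inc _ _ (((cloQ_le hs).trans k.le).trans a)]
  exact DFunLike.congr_fun (Am.Kmap_zero n _ (clo_kill (S.evm l ν j) fun M b =>
    LQ.isZero_iff.2 (b j hj)) _) x

theorem EV.mono {N N' : ObjectProperty (S.au l ν).D} (h : S.EV l ν N') (k : N ≤ N')
    (k' : N' ≤ (S.au l ν).bdd) : S.EV l ν N := fun n x =>
  (h n (Am.Kinc n k x)).mono fun j a b =>
    (clo_inc _ k b (k'.trans (S.evm l ν j).bdd_map) n x).symm.trans (a _)

theorem ZO.ev (z : S.ZO l ν) : S.EV l ν (S.au l ν).bdd :=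
  have : Tg (S.ao l ν).bdd := inferInstanceAs (Tg (Cl _))
  (asym _ le_rfl z).mono (le_inf le_rfl (S.πm l ν).bdd_map) inf_le_left

theorem ZD.ev (z : S.ZD l ν) : S.EV l ν (S.dgc l ν) := by
  obtain ⟨N, _, a, b, c⟩ := z
  exact (asym N b c).mono (le_inf ((S.au l ν).idm.gen_map fun _ _ => trivial)
    fun X h => a _ ((S.πm l ν).gen_map (fun _ k => k) X h)) inf_le_left

/-- `push φ ⋙ ev j = ev j` by `rfl`. -/
theorem EV.push (φ : ∀ j, Y j → Y' j) (h : Ar.Co l ν ν' φ φ) {N : ObjectProperty (S.au l ν).D}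
    {N' : ObjectProperty (S.au l ν').D} (k : N ≤ N'.inverseImage (S.pu φ h).D)
    (k' : N' ≤ (S.au l ν').bdd) (z : S.EV l ν' N') : S.EV l ν N := fun n x =>
  (z n (Am.Kmap n _ k x)).mono fun j a b =>
    (Am.Kmap_comp n (S.pu φ h) (S.evm l ν' j) k (k'.trans (S.evm l ν' j).bdd_map) b x).trans (a _)

theorem dgc_push (φ : ∀ j, Y j → Y' j) (h : Ar.Co l ν ν' φ φ) :
    S.dgc l ν ≤ (S.dgc l ν').inverseImage (S.pu φ h).D :=
  (S.pu φ h).gen_map fun M k => Eventually.mono k fun j a =>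
    a.map (Lo.on_true _) (Lo.on_true _) fun _ _ _ _ _ b => ⟨b.1, congrArg _ b.2⟩

theorem ZD.zo (z : S.ZD l ν) (h : S.SF l ν) : S.ZO l ν := by
  obtain ⟨N, _, a, b, c⟩ := z
  have k : (S.ao l ν).bdd ≤ N := Cl.le (by
    rintro _ ⟨X, -, ⟨i⟩⟩
    obtain ⟨D, E, hD, hE, ⟨e⟩⟩ := h (Quotient.as X)
    obtain ⟨δ, t⟩ := K.kar_tri.{v, max u y} (i := biprod.inr ≫ e.hom) (p := e.inv ≫ biprod.fst)
      ⟨e.inv ≫ biprod.snd, biprod.inl ≫ e.hom, by simp, by simp, by
        rw [Category.assoc, Category.assoc, ← Preadditive.comp_add, ← Category.assoc,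
          ← Category.assoc, ← Preadditive.add_comp, add_comm, biprod.total]
        simp⟩
    exact N.prop_of_iso i (N.ext_of_isTriangulatedClosed₃ _ t (a _ (Cl.of ⟨_, hD, ⟨Iso.refl _⟩⟩))
      (a _ (Cl.of ⟨_, hE, ⟨Iso.refl _⟩⟩))))
  rw [le_antisymm b k] at c
  exact c

/-- Vanishing passes from the controlled families to the asymptotic category. -/
theorem clo_zo (h : l ≤ l') (z : Am.Z (S.au l' ν).bdd) : S.ZO l ν := by
  have : Tg ((S.au l' ν).gen (AS.Nl l)) := inferInstanceAs (Tg (Cl _))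
  have : Tg (S.au l' ν).bdd := inferInstanceAs (Tg (Cl _))
  have : Tg (S.ao l ν).bdd := inferInstanceAs (Tg (Cl _))
  refine Am.Z_quo (a := S.au l' ν) (b := S.ao l ν) (f := Am.ofOf _) (as_loc h)
    (fun n => subsingleton_of_forall_eq 0 fun x => ?_) z
  obtain ⟨s, hs, x, rfl⟩ := clo_union n x
  let c (t : Set J) : Am.Map (S.au l' ν) (S.au l' ν) :=
    Am.ofOf.{v, max u y, v, max u y} (AS.cut S l' ν t)
  have z₂ := clo_kill (c s) (P := fun M : S.AS l' ν => ∀ j ∈ s, M.p j = 0) fun M a =>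
    (IsZero.iff_id_eq_zero _).2 (AS.hom_ext fun j => by
      change clo s M.p j = 0
      by_cases b : j ∈ s
      · rw [clo_of b, a j b]
      · exact clo_not b)
  have h₁ : (S.au l' ν).bdd ≤ ((S.au l' ν).gen (AS.Nl l)).inverseImage (c sᶜ).D :=
    (c sᶜ).gen_map fun M _ => mem_of_superset hs fun j b => clo_not fun d => d b
  have le : cloQ S l' ν s ≤ (S.au l' ν).bdd := (S.au l' ν).idm.gen_map fun _ _ => trivial
  have sp := AS.cut_spl (S := S) (l := l') (ν := ν) (s := sᶜ) (t := s) fun _ => not_not.symm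
  have e := Am.Kmap_add n (Am.ses_of_split (f₁ := c sᶜ) (f := (S.au l' ν).idm) (f₂ := c s)
    (α := AS.cutI S l' ν sᶜ) (β := AS.cutR S l' ν s) (h := NatTrans.ext (funext fun M => by
      obtain ⟨r, q, a, b, d⟩ := sp M
      exact ad_zero a b d)) sp _) (le.trans h₁) (cloQ_le hs)
    fun X a => Tg.zero ((S.au l' ν).gen (AS.Nl l)) (z₂ X a)
  have e' := e.trans ((congrArg _ (Am.Kmap_zero n (c s) z₂ _)).trans (add_zero _))
  refine (DFunLike.congr_fun e' x).trans ((clo_inc _ le _ h₁ n x).symm.trans ?_)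
  rw [(z n).elim (Am.Kinc n le x) 0, map_zero]

variable (S) in
/-- The components of a family controlled everywhere. -/
def cloF (P : ∀ j, Rl G (Y j)) : S.AS ⊤ (Ar.cst P) ⥤ ∀ j, S.LQ (P j) where
  obj M j := ⟨M.A j, M.L j, M.p j, M.idem j, M.rg.elim fun _ a => eventually_top.1 a j⟩
  map f j := LQ.homMk (f.1 j) (AS.p_comp f j) (AS.comp_p f j)
    ((AS.hom_rg f).elim fun _ a => eventually_top.1 a j)

variable (S) in
/-- The family with given components. -/
def cloH (P : ∀ j, Rl G (Y j)) : (∀ j, S.LQ (P j)) ⥤ S.AS ⊤ (Ar.cst P) where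
  obj M := ⟨fun j => (M j).A, fun j => (M j).L, fun j => (M j).p, fun j => (M j).idem,
    ⟨0, .of_forall fun j => (M j).rg⟩⟩
  map f := AS.homMk (fun j => (f j).1) (fun j => LQ.p_comp (f j)) (fun j => LQ.comp_p (f j))
    ⟨0, .of_forall fun j => LQ.hom_rg (f j)⟩

instance (P : ∀ j, Rl G (Y j)) : (cloF S P).Additive where

instance (P : ∀ j, Rl G (Y j)) : (cloH S P).Additive where

theorem clo_all (P : ∀ j, Rl G (Y j)) (z : ∀ j, S.Zq (P j)) : S.ZO l (Ar.cst P) :=
  clo_zo le_top (Am.Z_retract.{v, max u y, v, max u y} (cloF S P) (cloH S P) (Iso.refl _)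
    (K.Z_prod.{0, v, max u y} (fun j => S.LQ (P j)) z))

theorem clo_back {μ : Ar G Y} (h : Ar.Co l ν μ (fun _ => id) fun _ => id)
    (k : Ar.Co l μ ν (fun _ => id) fun _ => id) (z : S.ZO l μ) : S.ZO l ν :=
  Am.Z_retract.{v, max u y, v, max u y} (AO.inc S h) (AO.inc S k)
    (NatIso.ofComponents (fun _ => Iso.refl _) (by
      rintro _ _ ⟨f⟩
      exact (Category.comp_id _).trans (Category.id_comp _).symm)) z

/-- `AS ⊤ (cst P)` is equivalent to the product of the `LQ (P j)`: `Z_prod`, `Z_equiv`. The kernel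
of `as_loc le_top` is the directed union over `s ∈ l` of the classes `gen (p j = 0 on s)`, which
are retracts of `bdd` by `cut sᶜ`; `Z_quo`. First all `j`, then replace the bad `P j` by the empty
relation (`zq_empty`, `ZO.retract` of CTe or `inc` in both directions). -/
theorem zo_cst (P : ∀ j, Rl G (Y j)) (z : ∀ᶠ j in l, S.Zq (P j)) : S.ZO l (Ar.cst P) := by
  let Q (j : J) : Rl G (Y j) := ⟨fun a g b => (P j).r a g b ∧ S.Zq (P j),
    fun h k => ⟨(P j).trans h.1 k.1, h.2⟩⟩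
  refine clo_back (μ := Ar.cst Q) (fun _ => ⟨0, z.mono fun j a _ _ _ b => ⟨b, a⟩⟩)
    (fun _ => ⟨0, .of_forall fun j _ _ _ b => b.1⟩) (clo_all Q fun j => ?_)
  by_cases a : S.Zq (P j)
  · exact Zq.retract id id (fun _ _ _ b => b.1) (fun _ _ _ b => ⟨b, a⟩)
      (fun _ _ _ b => ⟨b, b⟩) a
  · exact zq_empty fun _ _ _ b => a b.2

end CLo

end GC

end Pool.Agent.Lib.MP_5d3e93_al
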