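import Pool.Agent.Lib.MP_5d3e93_al.K.CDf

/-! Uniformly controlled stable freeness on a region gives stable freeness of the asymptotic
category, for any action. -/

open CategoryTheory Limits ZeroObject Filter MulAction

namespace Pool.Agent.Lib.MP_5d3e93_al

universe w v u y

namespace GC

open Lo CF

variable {G : Type w} [Group G] {C : Type u} [Category.{v} C] [Preadditive C] {S : GC G C}

theorem CSg_pt (hz : ∃ Z : C, 𝟙 Z = 0) {X : Type*} [MulAction G X] {ν : Nr G X} {Ω : X → Prop}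
    {r s : ℕ} (bd : ∀ (A : S.LO X Ω) (e : A ⟶ A), (S.lc Ω ν).Ct r e → e ≫ e = e →
      ∃ D E, (S.lc Ω ν).So s e D E) {A : C} (L : S.Lo X A) {p : A ⟶ A}
    (h : L.Rg L (fun a g b => ν.n r a (g • b) ∧ Ω a ∧ Ω b) p) (hp : p ≫ p = p) :
    ∃ (D E : C) (LD : S.Lo X D) (LE : S.Lo X E) (x : S.sum A D ⟶ E) (y : E ⟶ S.sum A D),
      LD.On Ω ∧ LE.On Ω ∧ (L.add LD).Rg LE (fun a g b => ν.n s a (g • b) ∧ Ω a ∧ Ω b) x ∧
      LE.Rg (L.add LD) (fun a g b => ν.n s a (g • b) ∧ Ω a ∧ Ω b) y ∧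
      x ≫ y = S.blk p 0 0 (𝟙 D) ∧ y ≫ x = 𝟙 E := by
  obtain ⟨B, M, i, t, h1, h2, h3, h4, h5, h6, -⟩ := L.res hz Ω
  have z (a b) (k : ¬ (Ω a ∧ Ω b)) : L.e a ≫ p ≫ L.e b = 0 :=
    S.ext0 _ fun g => h a b g fun c => k c.2
  have e1 : t ≫ i ≫ p = p := L.ext_l fun a => by
    by_cases k : Ω a
    · rw [reassoc_of% h4 a k]
    · rw [reassoc_of% h5 a k, zero_comp, ← L.sum_r p, Preadditive.comp_sum]
      exact (Finset.sum_eq_zero fun b _ => z a b fun c => k c.1).symm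
  have e2 : p ≫ t ≫ i = p := by
    conv_lhs => rw [← L.sum_r p, Preadditive.sum_comp]
    conv_rhs => rw [← L.sum_r p]
    refine Finset.sum_congr rfl fun b _ => ?_
    by_cases k : Ω b
    · rw [Category.assoc, h4 b k]
    · have : p ≫ L.e b = 0 := L.ext_l fun a => by rw [z a b fun c => k c.2, comp_zero]
      rw [this, zero_comp]
  obtain ⟨e, he⟩ : ∃ e : B ⟶ B, e = i ≫ p ≫ t := ⟨_, rfl⟩
  have e3 : M.Rg M (fun a g b => ν.n r a (g • b)) e :=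
    he ▸ (h1.dg_comp (h.comp_dg h2)).mono fun _ _ _ c => c.1
  have e4 : e ≫ e = e := by simp only [he, Category.assoc, reassoc_of% e1, reassoc_of% hp]
  obtain ⟨D, E, x, y, b1, b2, b3, b4⟩ := bd ⟨B, M, h6⟩ e e3 e4
  revert x y
  intro (x : S.sum B D.A ⟶ E.A) (y : E.A ⟶ S.sum B D.A) b1 b2 b3 b4
  have c3 : x ≫ y = S.blk (i ≫ p ≫ t) 0 0 (𝟙 D.A) := he ▸ b3
  have c4 : y ≫ x = 𝟙 E.A := b4
  have d1 : (L.add D.L).Rg (M.add D.L) dg (S.blk t 0 0 (𝟙 D.A)) := by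
    simpa [blk] using (rg_fst.dg_comp (h2.comp_dg rg_inl)).add
      (rg_snd.dg_comp (rg_inr (L := M) (L' := D.L)))
  have d2 : (M.add D.L).Rg (L.add D.L) dg (S.blk i 0 0 (𝟙 D.A)) := by
    simpa [blk] using (rg_fst.dg_comp (h1.comp_dg rg_inl)).add
      (rg_snd.dg_comp (rg_inr (L := L) (L' := D.L)))
  refine ⟨D.A, E.A, D.L, E.L, S.blk t 0 0 (𝟙 D.A) ≫ x, y ≫ S.blk i 0 0 (𝟙 D.A), D.on, E.on,
    d1.dg_comp (Rg.on (L := M.add D.L) b1 (h6.add D.on) E.on fun _ _ _ a b c => ⟨c, a, b⟩),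
    (Rg.on (M := M.add D.L) b2 E.on (h6.add D.on) fun _ _ _ a b c => ⟨c, a, b⟩).comp_dg d2, ?_, ?_⟩
  · rw [Category.assoc, reassoc_of% c3]
    simp [e1, e2]
  · rw [Category.assoc, ← Category.assoc (S.blk i 0 0 _)]
    simp [h3, c4]

variable [HasZeroObject C] {J : Type} {l : Filter J} {Y : J → Type y} [∀ j, MulAction G (Y j)]

theorem sf_of_so' (ν : ∀ j, Nr G (Y j)) (Ω : ∀ j, Y j → Prop) {μ : Ar G Y}
    (hμ : ∀ r j a g b, μ.n r j a g b ↔ (ν j).n r a (g • b) ∧ Ω j a ∧ Ω j b)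
    (bd : ∀ r, ∃ s, ∀ᶠ j in l, ∀ (A : S.LO (Y j) (Ω j)) (e : A ⟶ A),
      (S.lc (Ω j) (ν j)).Ct r e → e ≫ e = e → ∃ D E, (S.lc (Ω j) (ν j)).So s e D E) :
    S.SF l μ := by
  intro X
  have hz : ∃ Z : C, 𝟙 Z = 0 := ⟨0, (isZero_zero C).eq_of_src _ _⟩
  obtain ⟨r, hr⟩ := X.rg
  obtain ⟨s, hs⟩ := bd r
  let good : J → Prop := fun j => (X.L j).Rg (X.L j) (μ.n r j) (X.p j) ∧
    ∀ (A : S.LO (Y j) (Ω j)) (e : A ⟶ A),
      (S.lc (Ω j) (ν j)).Ct r e → e ≫ e = e → ∃ D E, (S.lc (Ω j) (ν j)).So s e D E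
  have hg : ∀ᶠ j in l, good j := hr.and hs
  have key (j : J) : ∃ (D E : C) (LD : S.Lo (Y j) D) (LE : S.Lo (Y j) E)
      (x : S.sum (X.A j) D ⟶ E) (y : E ⟶ S.sum (X.A j) D),
      S.blk (X.p j) 0 0 (𝟙 D) ≫ x = x ∧ y ≫ S.blk (X.p j) 0 0 (𝟙 D) = y ∧ (good j →
        LD.On (Ω j) ∧ LE.On (Ω j) ∧
        ((X.L j).add LD).Rg LE (μ.n s j) x ∧ LE.Rg ((X.L j).add LD) (μ.n s j) y ∧
        x ≫ y = S.blk (X.p j) 0 0 (𝟙 D) ∧ y ≫ x = 𝟙 E) := by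
    by_cases k : good j
    · obtain ⟨D, E, LD, LE, x, y, a1, a2, a3, a4, a5, a6⟩ := CSg_pt hz k.2 (X.L j)
        (k.1.mono fun _ _ _ c => (hμ ..).1 c) (X.idem j)
      exact ⟨D, E, LD, LE, x, y, by rw [← a5, Category.assoc, a6, Category.comp_id],
        by rw [← a5, reassoc_of% a6], fun _ => ⟨a1, a2, a3.mono fun _ _ _ c => (hμ ..).2 c,
          a4.mono fun _ _ _ c => (hμ ..).2 c, a5, a6⟩⟩
    · exact ⟨_, _, X.L j, X.L j, 0, 0, comp_zero, zero_comp, fun a => (k a).elim⟩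
  choose D E LD LE x y k1 k2 k3 using key
  have fr (B : J → C) (L : ∀ j, S.Lo (Y j) (B j)) (h : ∀ j, good j → (L j).On (Ω j)) :
      Ec l μ L L fun j => 𝟙 (B j) :=
    ⟨0, hg.mono fun j k => rg_id.on (h j k) (h j k) fun a g b c d e => (hμ ..).2 ⟨by
      rw [e.1, e.2, one_smul]
      exact Nr.refl _ _ _, c, d⟩⟩
  let D' : S.AS l μ := ⟨D, LD, fun j => 𝟙 _, fun j => Category.id_comp _,
    fr D LD fun j k => (k3 j k).1⟩
  let E' : S.AS l μ := ⟨E, LE, fun j => 𝟙 _, fun j => Category.id_comp _,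
    fr E LE fun j k => (k3 j k).2.1⟩
  let x' : AS.sum X D' ⟶ E' := AS.homMk x k1 (fun j => Category.comp_id _)
    ⟨s, hg.mono fun j k => (k3 j k).2.2.1⟩
  let y' : E' ⟶ AS.sum X D' := AS.homMk y (fun j => Category.id_comp _) k2
    ⟨s, hg.mono fun j k => (k3 j k).2.2.2.1⟩
  have tot := congrArg (AO.π S l μ).map (AS.bicone_total X D')
  rw [Functor.map_add, Functor.map_comp, Functor.map_comp, CategoryTheory.Functor.map_id] at tot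
  refine ⟨D', E', .of_forall fun j => rg_id, .of_forall fun j => rg_id,
    ⟨(biprod.uniqueUpToIso _ _ (isBinaryBilimitOfTotal
      ((AO.π S l μ).mapBinaryBicone (AS.bicone X D')) tot)).symm ≪≫
      ⟨(AO.π S l μ).map x', (AO.π S l μ).map y', ?_, ?_⟩⟩⟩
  · exact ((AO.π S l μ).map_comp x' y').symm.trans ((AO.π_eq.2
      (hg.mono fun j k => (k3 j k).2.2.2.2.1)).trans ((AO.π S l μ).map_id _))
  · exact ((AO.π S l μ).map_comp y' x').symm.trans ((AO.π_eq.2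
      (hg.mono fun j k => (k3 j k).2.2.2.2.2)).trans ((AO.π S l μ).map_id _))

theorem sf_of_so (ν : ∀ j, Nr G (Y j)) (Ω : ∀ j, Y j → Prop)
    (bd : ∀ r, ∃ s, ∀ᶠ j in l, ∀ (A : S.LO (Y j) (Ω j)) (e : A ⟶ A),
      (S.lc (Ω j) (ν j)).Ct r e → e ≫ e = e → ∃ D E, (S.lc (Ω j) (ν j)).So s e D E) :
    S.SF l ((Ar.act (.id G) ν).res Ω) := sf_of_so' ν Ω (fun _ _ _ _ _ => Iff.rfl) bd

end GC

end Pool.Agent.Lib.MP_5d3e93_al
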