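import Pool.Agent.Lib.MP_5d3e93_al.K.CTeA

/-! Asymptotic control: telescopes and contractions. -/

open CategoryTheory Limits ZeroObject Filter MulAction

namespace Pool.Agent.Lib.MP_5d3e93_al

universe w w' v u y y' v' u'

open Gr

namespace GC

variable {G : Type w} [Group G] {C : Type u} [Category.{v} C] [Preadditive C] [HasZeroObject C]
  {S : GC G C}

variable {J : Type} {Y : J → Type y} {Y' : J → Type y'} {l l' : Filter J} {ν : Ar G Y}
  {ν' : Ar G Y'}

section Tele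

variable {k : J → ℕ} {ψ : ∀ j, Fin (k j) → Y j → Y' j} {ι : J → Type} {σ τ : ∀ j, ι j → Fin (k j)}

variable (l ν ν' ψ σ τ) in
/-- Uniform control of two families of maps. -/
def Uc : Prop := ∀ r, ∃ s, ∀ᶠ j in l, ∀ m a g b, ν.n r j a g b →
  ν'.n s j (ψ j (σ j m) a) g (ψ j (τ j m) b)

variable (ψ) in
/-- The locations of the telescope. -/
noncomputable abbrev teL (X : S.AS l ν) (j : J) : S.Lo (Y' j) (S.cpy (X.A j) (k j)).P :=
  (S.cpy (X.A j) (k j)).lo fun m => (X.L j).map (ψ j m)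

variable [∀ j, Fintype (ι j)]

variable (σ τ) in
/-- The matrices of the telescope. -/
noncomputable abbrev teM {X Z : S.AS l ν} (f : ∀ j, X.A j ⟶ Z.A j) (j : J) :
    (S.cpy (X.A j) (k j)).P ⟶ (S.cpy (Z.A j) (k j)).P :=
  (S.cpy (X.A j) (k j)).mat (S.cpy (Z.A j) (k j)) (σ j) (τ j) fun _ => f j

theorem te_ec (h : Uc l ν ν' ψ σ τ) {X Z : S.AS l ν} {f : ∀ j, X.A j ⟶ Z.A j}
    (e : Ec l ν X.L Z.L f) : Ec l ν' (teL ψ X) (teL ψ Z) (teM σ τ f) := by
  obtain ⟨r, a⟩ := e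
  obtain ⟨s, b⟩ := h r
  exact ⟨s, (a.and b).mono fun j c => Cpy.rg_mat _ _ _ _ _ _ fun m =>
    c.1.map (X.L j).on_true (Z.L j).on_true fun x g y _ _ => c.2 m x g y⟩

theorem te_comp (h : ∀ j, Function.Injective (τ j)) (ρ : ∀ j, ι j → Fin (k j))
    {X Z U : S.AS l ν} {f : ∀ j, X.A j ⟶ Z.A j} {g : ∀ j, Z.A j ⟶ U.A j} {e : ∀ j, X.A j ⟶ U.A j}
    (a : ∀ j, f j ≫ g j = e j) (j : J) : teM σ τ f j ≫ teM τ ρ g j = teM σ ρ e j := by
  rw [Cpy.mat_comp _ _ _ _ (h j), a j]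

variable (S) in
/-- The part of the telescope indexed by `σ`. -/
noncomputable def te (i : ∀ j, Function.Injective (σ j)) (h : Uc l ν ν' ψ σ σ) :
    S.AS l ν ⥤ S.AS l ν' where
  obj X := ⟨_, teL ψ X, teM σ σ X.p, te_comp i σ X.idem, te_ec h X.rg⟩
  map f := AS.homMk (teM σ σ f.1) (te_comp i σ (AS.p_comp f)) (te_comp i σ (AS.comp_p f))
    (te_ec h (AS.hom_rg f))
  map_id _ := rfl
  map_comp _ _ := AS.hom_ext fun j => (te_comp i σ (fun _ => rfl) j).symm

instance (i : ∀ j, Function.Injective (σ j)) (h : Uc l ν ν' ψ σ σ) : (te S i h).Additive :=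
  ⟨AS.hom_ext fun _ => Cpy.mat_add ..⟩

theorem te_kr (i : ∀ j, Function.Injective (σ j)) (h : Uc l ν ν' ψ σ σ) : Kr (te S i h) :=
  fun X Z _ _ e => e.mono fun j a => congrArg
    (fun t => (S.cpy (X.A j) (k j)).mat (S.cpy (Z.A j) (k j)) (σ j) (σ j) fun _ => t) a

/-- The shift of the telescope. -/
noncomputable def teIso (i : ∀ j, Function.Injective (σ j)) (h : Uc l ν ν' ψ σ σ)
    (i' : ∀ j, Function.Injective (τ j)) (h' : Uc l ν ν' ψ τ τ) (e : Uc l ν ν' ψ σ τ)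
    (e' : Uc l ν ν' ψ τ σ) : te S i h ≅ te S i' h' := NatIso.ofComponents
  (fun X => ⟨AS.homMk (teM σ τ X.p) (te_comp i τ X.idem) (te_comp i' τ X.idem) (te_ec e X.rg),
    AS.homMk (teM τ σ X.p) (te_comp i' σ X.idem) (te_comp i σ X.idem) (te_ec e' X.rg),
    AS.hom_ext (te_comp i' σ X.idem), AS.hom_ext (te_comp i τ X.idem)⟩)
  fun f => AS.hom_ext fun j =>
    (te_comp i τ (AS.comp_p f) j).trans (te_comp i' τ (AS.p_comp f) j).symm

end Tele

omit [HasZeroObject C] in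
theorem push_kr (φ : ∀ j, Y j → Y' j) (h : Ar.Co l ν ν' φ φ) : Kr (AS.push S φ h) :=
  fun _ _ _ _ e => e

section Split

variable {k : J → ℕ} {ψ : ∀ j, Fin (k j) → Y j → Y' j} {ι : J → Type} [∀ j, Fintype (ι j)]
  {σ : ∀ j, ι j → Fin (k j)} (x : ∀ j, Fin (k j)) (h : Uc l ν ν' ψ (fun _ => id) fun _ => id)
  (h0 : Ar.Co l ν ν' (fun j => ψ j (x j)) fun j => ψ j (x j))

theorem te_i {X Z : S.AS l ν} (f : ∀ j, X.A j ⟶ Z.A j) (j : J) : (S.cpy (X.A j) _).i (x j) ≫
    teM (fun _ => id) (fun _ => id) f j = f j ≫ (S.cpy (Z.A j) _).i (x j) :=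
  Cpy.i_mat _ _ Function.injective_id id _ (x j)

theorem te_r {X Z : S.AS l ν} (f : ∀ j, X.A j ⟶ Z.A j) (j : J) :
    teM (fun _ => id) (fun _ => id) f j ≫ (S.cpy (Z.A j) _).r (x j) =
      (S.cpy (X.A j) _).r (x j) ≫ f j :=
  Cpy.mat_r _ _ id Function.injective_id _ (x j)

/-- One step as a summand of the telescope. -/
noncomputable def teI : AS.push S _ h0 ⟶ te S (fun _ => Function.injective_id) h where
  app X := AS.homMk (fun j => X.p j ≫ (S.cpy (X.A j) _).i (x j)) (fun j => X.idem_assoc j _)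
    (fun j => (Category.assoc ..).trans ((congrArg (X.p j ≫ ·) (te_i x X.p j)).trans
      (X.idem_assoc j _)))
    ((X.rg.map h0).comp_dg fun j => Cpy.rg_i _ (fun m => (X.L j).map (ψ j m)) (x j))
  naturality X _ f := AS.hom_ext fun j => (AS.comp_p_assoc f j _).trans
    ((Category.assoc ..).trans ((congrArg (X.p j ≫ ·) (te_i x f.1 j)).trans
      (AS.p_comp_assoc f j _))).symm

/-- The projection to one step. -/
noncomputable def teR (X : S.AS l ν) :
    (te S (fun _ => Function.injective_id) h).obj X ⟶ (AS.push S _ h0).obj X :=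
  AS.homMk (fun j => (S.cpy (X.A j) _).r (x j) ≫ X.p j)
    (fun j => (Category.assoc ..).symm.trans ((congrArg (· ≫ X.p j) (te_r x X.p j)).trans
      ((Category.assoc ..).trans (congrArg (_ ≫ ·) (X.idem j)))))
    (fun j => (Category.assoc ..).trans (congrArg (_ ≫ ·) (X.idem j)))
    (Ec.dg_comp (fun j => Cpy.rg_r _ (fun m => (X.L j).map (ψ j m)) (x j)) (X.rg.map h0))

variable (i : ∀ j, Function.Injective (σ j)) (h' : Uc l ν ν' ψ σ σ)

theorem te_all {X Z U : S.AS l ν} {f : ∀ j, X.A j ⟶ Z.A j} {g : ∀ j, Z.A j ⟶ U.A j}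
    {e : ∀ j, X.A j ⟶ U.A j} (a : ∀ j, f j ≫ g j = e j) (j : J) :
    teM (fun _ => id) (fun _ => id) f j ≫ teM σ σ g j = teM σ σ e j := by
  rw [Cpy.all_mat, a j]

/-- The projection to a part of the telescope. -/
noncomputable def teQ : te S (fun _ => Function.injective_id) h ⟶ te S i h' where
  app X := AS.homMk (teM σ σ X.p) (te_all X.idem) (te_comp i σ X.idem) (te_ec h' X.rg)
  naturality _ _ f := AS.hom_ext fun j =>
    (te_all (AS.comp_p f) j).trans (te_comp i σ (AS.p_comp f) j).symm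

/-- The inclusion of a part of the telescope. -/
noncomputable def teS (X : S.AS l ν) :
    (te S i h').obj X ⟶ (te S (fun _ => Function.injective_id) h).obj X :=
  AS.homMk (teM σ σ X.p) (te_comp i σ X.idem)
    (fun j => (Cpy.mat_all ..).trans (by rw [X.idem])) (te_ec h' X.rg)

end Split

/-- Splitting off one step of the telescope. -/
theorem te_split {k : J → ℕ} {ψ : ∀ j, Fin (k j + 1) → Y j → Y' j} (x : ∀ j, Fin (k j + 1))
    (h : Uc l ν ν' ψ (fun _ => id) fun _ => id)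
    (h' : Uc l ν ν' ψ (fun j => (x j).succAbove) fun j => (x j).succAbove)
    (h0 : Ar.Co l ν ν' (fun j => ψ j (x j)) fun j => ψ j (x j)) (n : ℕ) :
    (te_kr (S := S) (fun _ => Function.injective_id) h).km n = (push_kr _ h0).km n +
      (te_kr (fun _ => Fin.succAbove_right_injective) h').km n := by
  have i : ∀ j, Function.Injective (x j).succAbove := fun _ => Fin.succAbove_right_injective
  refine kd_ses _ _ _ (teI x h h0) (teQ h i h') (fun X => ⟨teR x h h0 X, teS h i h' X,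
    AS.hom_ext fun j => ?_, AS.hom_ext (te_comp i (fun j => (x j).succAbove) X.idem),
    AS.hom_ext fun j => ?_⟩) n
  · have : (X.p j ≫ (S.cpy (X.A j) _).i (x j)) ≫ (S.cpy (X.A j) _).r (x j) ≫ X.p j = X.p j := by
      simp [reassoc_of% (S.cpy (X.A j) _).ir (x j)]
    exact this
  · have : ((S.cpy (X.A j) _).r (x j) ≫ X.p j) ≫ X.p j ≫ (S.cpy (X.A j) _).i (x j) +
        teM (fun j => (x j).succAbove) (fun j => (x j).succAbove) X.p j ≫
          teM (fun j => (x j).succAbove) (fun j => (x j).succAbove) X.p j =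
        teM (k := fun j => k j + 1) (fun _ => id) (fun _ => id) X.p j := by
      rw [te_comp i _ X.idem]
      simp [Cpy.mat, Fin.sum_univ_succAbove _ (x j)]
    exact this

section CTe

/-- The telescope: `B j` is a sum of `M j + 1` copies of `A j`. -/
theorem tel (φ : ℕ → ∀ j, Y j → Y' j) (h : ∀ r, ∃ s, ∀ᶠ j in l, ∀ m a g b, ν.n r j a g b →
      ν'.n s j (φ m j a) g (φ m j b) ∧ ν'.n s j (φ m j a) g (φ (m + 1) j b) ∧
        ν'.n s j (φ (m + 1) j a) g (φ m j b)) (M : J → ℕ) (h0 : Ar.Co l ν ν' (φ 0) (φ 0))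
    (h1 : Ar.Co l ν ν' (fun j => φ (M j) j) fun j => φ (M j) j) (n : ℕ) :
    Am.Kmap n (S.po _ h0) (Am.Map.bdd_map _) = Am.Kmap n (S.po _ h1) (Am.Map.bdd_map _) := by
  let ψ : ∀ j, Fin (M j + 1) → Y j → Y' j := fun j m => φ m j
  have d : ∀ {ι : J → Type} (σ : ∀ j, ι j → Fin (M j + 1)), Uc l ν ν' ψ σ σ := fun σ r =>
    (h r).imp fun _ c => c.mono fun j c m a g b e => (c (σ j m) a g b e).1
  have a := te_split (S := S) (ψ := ψ) (fun _ => 0) (d _) (d _) h0 n
  have b := te_split (S := S) (ψ := ψ) (fun _ => Fin.last _) (d _) (d _) h1 n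
  rw [kd_iso _ (te_kr (fun _ => Fin.succAbove_right_injective) (d _))
    (teIso _ (d fun j => (0 : Fin (M j + 1)).succAbove) _ (d fun j => (Fin.last (M j)).succAbove)
    (fun r => (h r).imp fun _ c => c.mono fun j c m a g b e => by
      simpa [ψ] using (c m a g b e).2.2)
    fun r => (h r).imp fun _ c => c.mono fun j c m a g b e => by
      simpa [ψ] using (c m a g b e).2.1) n] at a
  exact add_right_cancel (a.symm.trans b)

theorem ZO.contr (φ : ℕ → ∀ j, Y j → Y j) (h : ∀ r, ∃ s, ∀ᶠ j in l, ∀ m a g b, ν.n r j a g b →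
      ν.n s j (φ m j a) g (φ m j b) ∧ ν.n s j (φ m j a) g (φ (m + 1) j b) ∧
        ν.n s j (φ (m + 1) j a) g (φ m j b)) (e : Ar.Co l ν ν (fun _ => id) (φ 0))
    (e' : Ar.Co l ν ν (φ 0) fun _ => id) (M : J → ℕ) {μ : Ar G Y}
    (h1 : Ar.Co l ν μ (fun j => φ (M j) j) fun j => φ (M j) j)
    (h2 : Ar.Co l μ ν (fun _ => id) fun _ => id) (z : S.ZO l μ) : S.ZO l ν := by
  have d : ∀ N : J → ℕ, Ar.Co l ν ν (fun j => φ (N j) j) fun j => φ (N j) j := fun N r =>
    (h r).imp fun _ c => c.mono fun j c a g b e => (c (N j) a g b e).1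
  let i : AS.push S (φ 0) (d fun _ => 0) ≅ 𝟭 _ := NatIso.ofComponents
    (fun X => ⟨AS.homMk X.p X.idem X.idem (by
        obtain ⟨r, a⟩ := X.rg
        obtain ⟨s, b⟩ := e' r
        exact ⟨s, (a.and b).mono fun j c => c.1.mapl c.2⟩),
      AS.homMk X.p X.idem X.idem (by
        obtain ⟨r, a⟩ := X.rg
        obtain ⟨s, b⟩ := e r
        exact ⟨s, (a.and b).mono fun j c => c.1.mapr c.2⟩),
      AS.hom_ext X.idem, AS.hom_ext X.idem⟩)
    fun f => AS.hom_ext fun j => (AS.comp_p f j).trans (AS.p_comp f j).symm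
  let q : Am.Map (S.ao l μ) (S.ao l ν) := Am.ofOf.{v, max u y, v, max u y} (AO.inc S h2)
  have t : Tg (S.ao l ν).bdd := inferInstanceAs (Tg (Cl _))
  refine Am.Z_of_null (Am.Map.bdd_map _) fun n => ?_
  rw [← Am.Kmap_iso n (S.po _ (d fun _ => 0)) (S.ao l ν).idm
      (Quotient.natIsoLift _ (Functor.isoWhiskerRight i (AO.π S l ν))) (Am.Map.bdd_map _),
    tel φ h M (d fun _ => 0) (d M),
    Am.Kmap_iso n (S.po _ (d M)) ((S.po _ h1).comp q) (Quotient.natIsoLift _ (Iso.refl _)) _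
      (Am.Map.bdd_map _)]
  exact Am.Z.null z _ _ (Am.Map.bdd_map _) (Am.Map.bdd_map _) _ n

end CTe

end GC

end Pool.Agent.Lib.MP_5d3e93_al
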