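import Pool.Agent.Lib.MP_5d3e93_al.K.SDf
import Pool.Agent.Lib.MP_5d3e93_al.K.CSg
import Pool.Agent.Lib.MP_5d3e93_al.K.CEx
import Pool.Agent.Lib.MP_5d3e93_al.K.CTe
import Pool.Agent.Lib.MP_5d3e93_al.K.CLo

/-! Mayer-Vietoris induction over boxes of formal locations, in all degrees. -/

open CategoryTheory Limits MulAction Filter

namespace Pool.Agent.Lib.MP_5d3e93_al.Bg

open GC GC.Lo

universe w w' v u y

variable {C : Type u} [Category.{v} C] [Preadditive C] [HasZeroObject C] {G : Type w} [Group G]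

theorem bm_res {J : Type} {Y : J → Type y} (ν : Ar G Y) {Ω Ω' : ∀ j, Y j → Prop}
    (k : ∀ j a, Ω' j a → Ω j a) : (ν.res Ω).res Ω' = ν.res Ω' := by
  unfold Ar.res
  congr 1
  funext r j a g b
  exact propext ⟨fun h => ⟨h.1.1, h.2⟩, fun h => ⟨⟨h.1, k _ _ h.2.1, k _ _ h.2.2⟩, h.2⟩⟩

variable {W : Type w'} {n : ℕ} {p q : Fin n → ℕ} {J : Type} {l : Filter J} {h : J → ℕ}

/-- Moving towards the centre of a box. -/
def bmφ (p q : Fin n → ℕ) (m h : ℕ) (x : Pt n W) : Pt n W :=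
  ⟨fun j => max (x.t j - m) (min ((p j + q j) * h) (x.t j + m)), x.w⟩

theorem bm_ctr (hp : ∀ j, p j ≤ q j) (hq : ∀ j, q j ≤ p j + 1) (h : ℕ) (j : Fin n) :
    2 * p j * h ≤ (p j + q j) * h ∧ (p j + q j) * h ≤ 2 * p j * h + h ∧
      (p j + q j) * h ≤ 2 * q j * h ∧ 2 * q j * h ≤ (p j + q j) * h + h := by
  have := hp j
  have := hq j
  refine ⟨Nat.mul_le_mul_right _ (by omega), ?_, Nat.mul_le_mul_right _ (by omega), ?_⟩
  · rw [← Nat.succ_mul]; exact Nat.mul_le_mul_right _ (by omega)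
  · rw [← Nat.succ_mul]; exact Nat.mul_le_mul_right _ (by omega)

theorem bm_cut {k : ℕ} (hp : ∀ j, p j ≤ q j) (hk : ∑ j, (q j - p j) < k + 1) {j : Fin n}
    (hj : ¬ q j ≤ p j + 1) : ∃ (c : ℕ) (p' q' : Fin n → ℕ),
      (∀ i, (i = j ∧ p' i = c ∧ q' i = c) ∨ (i ≠ j ∧ p' i = p i ∧ q' i = q i)) ∧
      ∀ a b : Fin n → ℕ, a = p ∨ a = p' → b = q ∨ b = q' → a = p' ∨ b = q' →
        (∀ i, a i ≤ b i) ∧ ∑ i, (b i - a i) < k ∧
          ∀ h R (x : Pt n W), mvRn h R a b x → mvRn h R p q x := by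
  have u1 (i) : (i = j ∧ Function.update p j (p j + 1) i = p j + 1 ∧
      Function.update q j (p j + 1) i = p j + 1) ∨ (i ≠ j ∧ Function.update p j (p j + 1) i = p i ∧
        Function.update q j (p j + 1) i = q i) := by
    by_cases m : i = j
    · subst m; simp
    · simp [m]
  refine ⟨_, _, _, u1, fun a b ha hb m => ?_⟩
  generalize Function.update p j (p j + 1) = p', Function.update q j (p j + 1) = q' at u1 ha hb m
  have v1 (i) : p i ≤ a i ∧ a i ≤ b i ∧ b i ≤ q i := by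
    have := hp i
    rcases ha with rfl | rfl <;> rcases hb with rfl | rfl <;>
      rcases u1 i with ⟨rfl, _⟩ | _ <;> omega
  refine ⟨fun i => (v1 i).2.1, lt_of_lt_of_le (Finset.sum_lt_sum (fun i _ => ?_)
    ⟨j, Finset.mem_univ _, ?_⟩) (Nat.lt_succ_iff.1 hk), fun h R x a' i => ?_⟩
  · have := v1 i
    omega
  · have := v1 j
    have := u1 j
    rcases m with rfl | rfl <;> omega
  · have := a' i
    have := Nat.mul_le_mul_right h (Nat.mul_le_mul_left 2 (v1 i).1)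
    have := Nat.mul_le_mul_right h (Nat.mul_le_mul_left 2 (v1 i).2.2)
    omega

section
variable [MulAction G W] (P : Pf G W (Finset (Fin (n + 1))))

/-- Asymptotic control on thick boxes. -/
def bmAr (h : J → ℕ) (p q : Fin n → ℕ) : Ar G fun _ : J => Pt n W :=
  (P.ar h).res fun j => mvRn (h j) ((h j - 1) / 2) p q

variable {P} {S : GC G C}

theorem bm_base (hK : ∀ A : Set (Finset (Fin (n + 1))), A.Nonempty → S.Zq (P.cap A).nr.rl)
    (hh : Tendsto h l atTop) (hp : ∀ j, p j ≤ q j) (hq : ∀ j, q j ≤ p j + 1) :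
    S.ZO l (bmAr P h p q) := by
  let b : ℕ → Fin n → ℕ := fun h j => (p j + q j) * h
  let A : J → Set (Finset (Fin (n + 1))) := fun j => {L | Adm (h j) 0 (b (h j)) (b (h j)) L}
  let μ : Ar G fun _ : J => Pt n W := Ar.cst fun j =>
    ⟨fun x g y => x.t = b (h j) ∧ y.t = b (h j) ∧ (P.cap (A j)).nr.rl.r x.w g y.w,
      fun a c => ⟨a.1, c.2.1, (P.cap (A j)).nr.rl.trans a.2.2 c.2.2⟩⟩
  have z : S.ZO l μ := ZO.retract (ν' := Ar.cst fun j => (P.cap (A j)).nr.rl) (fun _ => Pt.w)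
    (fun j x => ⟨b (h j), x⟩) (fun _ => ⟨0, .of_forall fun _ _ _ _ c => c.2.2⟩)
    (fun _ => ⟨0, .of_forall fun _ _ _ _ c => ⟨rfl, rfl, c⟩⟩)
    (fun _ => ⟨0, .of_forall fun _ _ _ _ c => ⟨c.1, rfl, c.2.2⟩⟩)
    (fun _ => ⟨0, .of_forall fun _ _ _ _ c => ⟨rfl, c.2.1, c.2.2⟩⟩)
    (zo_cst _ ((hh.eventually_gt_atTop 0).mono fun t k => hK _ (by
      classical
      refine ⟨Finset.univ.filter fun i => ∀ j, b (h t) j ≠ lv (h t) i, fun i m j => ?_,
        fun i m => ?_⟩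
      · have := (Finset.mem_filter.1 m).2 j
        omega
      · simp only [Finset.mem_filter, Finset.mem_univ, true_and, not_forall, not_not] at m
        obtain ⟨j, m⟩ := m
        exact ⟨j, by omega, by omega⟩)))
  have f0 (h) (x : Pt n W) : bmφ p q 0 h x = x :=
    Pt.ext (funext fun j => by simp only [bmφ]; omega) rfl
  have f1 (m h) (x : Pt n W) (a : mvRn h ((h - 1) / 2) p q x) :
      mvRn h ((h - 1) / 2) p q (bmφ p q m h x) := fun j => by
    have := a j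
    have := bm_ctr hp hq h j
    simp only [bmφ]
    omega
  have f2 (h) (x : Pt n W) (a : mvRn h ((h - 1) / 2) p q x) : (bmφ p q (2 * h) h x).t = b h :=
    funext fun j => by
      have := a j
      have := bm_ctr hp hq h j
      simp only [bmφ, b]
      omega
  have f3 (h) (x : Pt n W) (a : x.t = b h) : mvRn h ((h - 1) / 2) p q x := fun j => by
    have := bm_ctr hp hq h j
    simp only [a, b]
    omega
  have f4 {r t m m'} (hh : 2 * r + 3 ≤ h t) (e : m ≤ m' + 1) (e' : m' ≤ m + 1) {x g y}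
      (c : (bmAr P h p q).n r t x g y) :
      (bmAr P h p q).n (r + 1) t (bmφ p q m (h t) x) g (bmφ p q m' (h t) y) := by
    refine ⟨⟨fun j => ?_, fun L k => c.1.2 L (mvAdm (R := (h t - 1) / 2) (by omega) r.le_succ hq
      (fun j => (c.2.1 j).2) (fun j => (c.2.2 j).1) (fun j => ?_) (fun j => ?_) k)⟩,
      f1 _ _ _ c.2.1, f1 _ _ _ c.2.2⟩
    · have : y.t j ≤ x.t j + r := c.1.1 j
      change max _ _ ≤ max _ _ + (r + 1)
      omega
    · change _ ≤ max _ _ ∨ _ ≤ max _ _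
      omega
    · change max (y.t j - m') _ ≤ y.t j ∨ max _ _ ≤ _
      omega
  refine ZO.contr (μ := μ) (fun m t => bmφ p q m (h t)) (fun r => ⟨r + 1,
    (hh.eventually_ge_atTop (2 * r + 3)).mono
    fun t k m x g y c => ⟨f4 k (by omega) (by omega) c, f4 k (by omega) (by omega) c,
      f4 k (by omega) (by omega) c⟩⟩)
    (fun r => ⟨r, .of_forall fun t x g y c => by simp only [f0]; exact c⟩)
    (fun r => ⟨r, .of_forall fun t x g y c => by simp only [f0]; exact c⟩) (fun t => 2 * h t)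
    (fun r => ⟨0, (hh.eventually_ge_atTop (2 * r + 3)).mono fun t k x g y c =>
      ⟨f2 _ x c.2.1, f2 _ y c.2.2, fun L m => c.1.2 L (mvAdm (R := (h t - 1) / 2) (by omega) le_rfl
        hq (fun j => (c.2.1 j).2) (fun j => (c.2.2 j).1) (fun j => .inr le_rfl)
        (fun j => .inr le_rfl) (mvAdm0 (by omega) m))⟩⟩)
    (fun r => ⟨0, .of_forall fun t x g y c => ⟨⟨fun j => ?_, fun L m => c.2.2 L ?_⟩,
      f3 _ x c.1, f3 _ y c.2.1⟩⟩) z
  · change y.t j ≤ x.t j + 0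
    rw [c.1, c.2.1, add_zero]
  · change Adm (h t) 0 x.t y.t L at m
    rwa [c.1, c.2.1] at m

theorem bm_ind (hK : ∀ A : Set (Finset (Fin (n + 1))), A.Nonempty → S.Zq (P.cap A).nr.rl)
    (hh : Tendsto h l atTop) (sf : ∀ p q : Fin n → ℕ, (∀ j, p j ≤ q j) → S.SF l (bmAr P h p q))
    (k : ℕ) : ∀ p q : Fin n → ℕ, (∀ j, p j ≤ q j) → ∑ j, (q j - p j) < k →
      S.ZO l (bmAr P h p q) := by
  induction k with
  | zero => exact fun _ _ _ a => by omega
  | succ k ih =>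
    intro p q hp hk
    by_cases hq : ∀ j, q j ≤ p j + 1
    · exact bm_base hK hh hp hq
    obtain ⟨j, hj⟩ := not_forall.1 hq
    obtain ⟨c, p', q', u1, u2⟩ := bm_cut (W := W) hp hk hj
    obtain ⟨x1, x2, x3⟩ := u2 p' q (.inr rfl) (.inl rfl) (.inl rfl)
    obtain ⟨y1, y2, y3⟩ := u2 p q' (.inl rfl) (.inr rfl) (.inr rfl)
    obtain ⟨z1, z2, z3⟩ := u2 p' q' (.inr rfl) (.inr rfl) (.inl rfl)
    have rf (h) (x : Pt n W) : (P.nv h).nr.n 0 x ((MonoidHom.id G) 1 • x) := by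
      rw [map_one, one_smul]; exact Nr.refl _ _ _
    refine ZD.zo (zd_mv (fun r t x g y a => ⟨⟨rf _ x, a.2.1, a.2.1⟩, rf _ y, a.2.2, a.2.2⟩)
      (fun t => mvRn (h t) ((h t - 1) / 2) p q') (fun t => mvRn (h t) ((h t - 1) / 2) p' q)
      (fun t => mvRn (h t) ((h t - 1) / 2) p' q') (.of_forall fun t x a => ?_)
      (fun t x a => ⟨fun i => ⟨(z3 _ _ x a i).1, (a i).2⟩, fun i => ⟨(a i).1, (z3 _ _ x a i).2⟩⟩)
      (fun r => ⟨r, .of_forall fun t x g y a a1 a2 => ?_⟩) ?_ ?_ ?_) (sf p q hp)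
    · rcases le_total (x.t j) (2 * c * h t) with m | m
      · refine .inl fun i => ?_
        have := a.2.1 i
        rcases u1 i with ⟨rfl, -, e⟩ | ⟨-, -, e⟩ <;> rw [e] <;> omega
      · refine .inr fun i => ?_
        have := a.2.1 i
        rcases u1 i with ⟨rfl, e, -⟩ | ⟨-, e, -⟩ <;> rw [e] <;> omega
    · let x' : Pt n W := ⟨fun i => max (x.t i) (2 * p' i * h t - (h t - 1) / 2), x.w⟩
      have m (i) : x.t i ≤ x'.t i ∧ x'.t i ≤ x.t i + r := by
        have : y.t i ≤ x.t i + r := a.1.1 i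
        have := a2 i
        simp only [x']
        omega
      have m' : mvRn (h t) ((h t - 1) / 2) p' q' x' := fun i => by
        have := a1 i
        have := Nat.mul_le_mul_right (h t) (Nat.mul_le_mul_left 2 (z1 i))
        simp only [x']
        omega
      exact ⟨x', m', ⟨⟨fun i => (m i).2, fun L _ => (one_smul G x.w).symm ▸ P.refl L x.w⟩,
        a.2.1, z3 _ _ _ m'⟩, ⟨fun i => (m i).1.trans (Nat.le_add_right _ _),
          fun L _ => (one_smul G x.w).symm ▸ P.refl L x.w⟩, z3 _ _ _ m', a.2.1⟩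
    · rw [bmAr, bm_res _ fun t => y3 (h t) _]
      exact ih _ _ y1 y2
    · rw [bmAr, bm_res _ fun t => x3 (h t) _]
      exact ih _ _ x1 x2
    · rw [bmAr, bm_res _ fun t => z3 (h t) _]
      exact ih _ _ z1 z2

end

/-- The vanishing on boxes in all degrees. -/
theorem ev_mv {S : GC (G × Zi) C} (hc : S.Central) [MulAction (G × Zi) W]
    (hW : ∀ (z : Zi) (x : W), ((1 : G), z) • x = x) {P : Pf (G × Zi) W (Finset (Fin (n + 1)))}
    (hloc : ∀ A : Set (Finset (Fin (n + 1))), A.Nonempty →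
      ∀ (D E : S.LO W fun _ => True) (u : D ⟶ E), (S.lc _ (P.cap A).nr).CI 0 u →
        (S.lc _ (P.cap A).nr).Tq 0 u)
    (hK : ∀ A : Set (Finset (Fin (n + 1))), A.Nonempty → S.Zq (P.cap A).nr.rl)
    (hh : Tendsto h l atTop) (M : ℕ) :
    S.EV l ((P.ar h).res fun j y => ∀ i, y.t i ≤ M * h j) (S.au l _).bdd := by
  have z := bm_ind hK hh (fun p q hp => sf_of_so _ _ fun r => by
    obtain ⟨T, -, H⟩ := mvInd (hz_of (C := C)) hc hW hloc (∑ j, (q j - p j) + 1) (r + 1) (by omega)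
    exact ⟨_, (hh.eventually_ge_atTop (2 * T + 1)).mono fun t k A e a b =>
      mvBd hc (fun z x => Pt.ext rfl (hW z x.w))
        (H _ (h t) (by omega) (by omega) p q hp (Nat.lt_succ_self _)) e (CF.mono _ a r.le_succ) b⟩)
    _ (fun _ => 0) (fun _ => M) (fun _ => Nat.zero_le _) (Nat.lt_succ_self _)
  have k (h) (x : Pt n W) (a : ∀ j, x.t j ≤ M * h) :
      mvRn h ((h - 1) / 2) (fun _ => 0) (fun _ => M) x := fun j => by
    have := a j
    simp only [mul_assoc]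
    omega
  have c : Ar.Co l ((P.ar h).res fun j y => ∀ i, y.t i ≤ M * h j)
      (bmAr P h (fun _ => 0) fun _ => M) (fun _ => id) fun _ => id :=
    fun r => ⟨r, .of_forall fun t x g y c => ⟨c.1, k _ x c.2.1, k _ y c.2.2⟩⟩
  exact EV.push _ c (Gr.Am.Map.bdd_map _) le_rfl z.ev

end Pool.Agent.Lib.MP_5d3e93_al.Bg
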