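import Pool.Agent.Lib.MP_5d3e93_al.K.Cyc
import Pool.Agent.Lib.MP_5d3e93_al.K.Union

/-! The invariant form of the cyclic move for actions with finite stabilisers. -/

open CategoryTheory Limits ZeroObject MulAction Relation

namespace Pool.Agent.Lib.MP_5d3e93_al

universe w v u

open Gr

section Orb

variable {Γ : Type w} [Group Γ] {Y : Type w} [MulAction Γ Y]

variable (Γ) in
/-- The orbits of finitely many pairs of a relation. -/
def BkE (P : Y → Y → Prop) (s : Finset (Y × Y)) (a b : Y) : Prop :=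
  ∃ (γ : Γ) (x : Y × Y), x ∈ s ∧ P x.1 x.2 ∧ a = γ • x.1 ∧ b = γ • x.2

variable {P R : Y → Y → Prop} {s s' t t' : Finset (Y × Y)} {a b c : Y}

theorem BkE.smul (h : BkE Γ P s a b) (g : Γ) : BkE Γ P s (g • a) (g • b) := by
  obtain ⟨γ, x, h1, h2, rfl, rfl⟩ := h
  exact ⟨g * γ, x, h1, h2, (mul_smul ..).symm, (mul_smul ..).symm⟩

theorem BkE.mono (h : BkE Γ P s a b) (k : s ≤ t) : BkE Γ P t a b := by
  obtain ⟨γ, x, h1, h2⟩ := h
  exact ⟨γ, x, k h1, h2⟩

theorem BkE.le (i : ∀ (g : Γ) a b, P a b → P (g • a) (g • b)) (h : BkE Γ P s a b) : P a b := by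
  obtain ⟨γ, x, -, h2, rfl, rfl⟩ := h
  exact i _ _ _ h2

theorem BkE.one (h : P a b) : BkE Γ P {(a, b)} a b :=
  ⟨1, (a, b), Finset.mem_singleton_self _, h, (one_smul ..).symm, (one_smul ..).symm⟩

theorem bk_fin_smul (fin : ∀ a : Y, Finite (stabilizer Γ a)) (y b : Y) :
    {γ : Γ | b = γ • y}.Finite := by
  by_cases h : ∃ δ : Γ, b = δ • y
  · obtain ⟨δ, rfl⟩ := h
    have k : (stabilizer Γ y : Set Γ).Finite := fin y
    refine (k.image (δ * ·)).subset fun γ hγ => ⟨δ⁻¹ * γ, ?_, by simp⟩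
    rw [SetLike.mem_coe, mem_stabilizer_iff, mul_smul, ← show δ • y = γ • y from hγ,
      inv_smul_smul]
  · exact Set.finite_empty.subset fun γ hγ => h ⟨γ, hγ⟩

theorem BkE.fin (fin : ∀ a : Y, Finite (stabilizer Γ a)) (b : Y) :
    {a | BkE Γ P s a b}.Finite := by
  refine (s.finite_toSet.biUnion fun x _ =>
    (bk_fin_smul fin x.2 b).image (· • x.1)).subset ?_
  rintro _ ⟨γ, x, h1, -, rfl, h2⟩
  exact Set.mem_biUnion h1 ⟨γ, h2, rfl⟩

theorem bk_fin_rt {E : Y → Y → Prop} (fin : ∀ b, {a | E a b}.Finite) (l : Y → ℤ)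
    (hl : ∀ a b, E a b → a = b ∨ l a < l b) (N : ℕ) (bd : ∀ a b, E a b → |l b| ≤ N) (b : Y) :
    {a | ReflTransGen E a b}.Finite := by
  have k : ∀ a b, ReflTransGen E a b → a = b ∨ ∃ c, (E c b ∧ c ≠ b) ∧ ReflTransGen E a c := by
    intro a b h
    induction h with
    | refl => exact .inl rfl
    | @tail c d h e ih =>
      by_cases q : c = d
      · exact q ▸ ih
      · exact .inr ⟨c, ⟨e, q⟩, h⟩
  have step : ∀ b, (∀ c, E c b → c ≠ b → {a | ReflTransGen E a c}.Finite) →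
      {a | ReflTransGen E a b}.Finite := fun b h => by
    have f : {c | E c b ∧ c ≠ b}.Finite := (fin b).subset fun _ q => q.1
    refine ((Set.finite_singleton b).union (f.biUnion fun c q => h c q.1 q.2)).subset
      fun a q => ?_
    rcases k a b q with q | ⟨c, q, q'⟩
    · exact .inl q
    · exact .inr (Set.mem_biUnion q q')
  have ind : ∀ n : ℕ, ∀ b, l b + N < n → {a | ReflTransGen E a b}.Finite := by
    intro n
    induction n with
    | zero =>
      refine fun b h => step b fun c q _ => ?_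
      have := abs_le.1 (bd c b q)
      omega
    | succ n ih =>
      refine fun b h => step b fun c q q' => ih c ?_
      have := (hl c b q).resolve_left q'
      omega
  exact ind ((l b + N).toNat + 1) b (by omega)

theorem bk_tg_smul (h : TransGen (BkE Γ P s) a b) (g : Γ) :
    TransGen (BkE Γ P s) (g • a) (g • b) := by
  induction h with
  | single h => exact .single (h.smul g)
  | tail _ h ih => exact ih.tail (h.smul g)

theorem bk_tg_mono (h : TransGen (BkE Γ P s) a b) (k : s ≤ t) : TransGen (BkE Γ P t) a b := by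
  induction h with
  | single h => exact .single (h.mono k)
  | tail _ h ih => exact ih.tail (h.mono k)

theorem bk_rt_mono (h : ReflTransGen (BkE Γ P s) a b) (k : s ≤ t) :
    ReflTransGen (BkE Γ P t) a b := by
  induction h with
  | refl => exact .refl
  | tail _ h ih => exact ih.tail (h.mono k)

theorem bk_rt_smul (h : ReflTransGen (BkE Γ P s) a b) (g : Γ) :
    ReflTransGen (BkE Γ P s) (g • a) (g • b) := by
  induction h with
  | refl => exact .refl
  | tail _ h ih => exact ih.tail (h.smul g)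

theorem bk_tg_le (t : ∀ a b c, P a b → P b c → P a c)
    (i : ∀ (g : Γ) a b, P a b → P (g • a) (g • b)) (h : TransGen (BkE Γ P s) a b) : P a b := by
  induction h with
  | single h => exact h.le i
  | tail _ h ih => exact t _ _ _ ih (h.le i)

variable (Γ) in
/-- The bimodule generated by finitely many pairs. -/
def BkB (P R : Y → Y → Prop) (s s' : Finset (Y × Y)) (a b : Y) : Prop :=
  ∃ x y, ReflTransGen (BkE Γ P s) a x ∧ BkE Γ R s' x y ∧ ReflTransGen (BkE Γ P s) y b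

theorem BkB.smul (h : BkB Γ P R s s' a b) (g : Γ) : BkB Γ P R s s' (g • a) (g • b) := by
  obtain ⟨x, y, h1, h2, h3⟩ := h
  exact ⟨_, _, bk_rt_smul h1 g, h2.smul g, bk_rt_smul h3 g⟩

theorem BkB.mono (h : BkB Γ P R s s' a b) (k : s ≤ t) (k' : s' ≤ t') : BkB Γ P R t t' a b := by
  obtain ⟨x, y, h1, h2, h3⟩ := h
  exact ⟨x, y, bk_rt_mono h1 k, h2.mono k', bk_rt_mono h3 k⟩

theorem BkB.left (k : TransGen (BkE Γ P s) a b) (h : BkB Γ P R s s' b c) :
    BkB Γ P R s s' a c := by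
  obtain ⟨x, y, h1, h2, h3⟩ := h
  exact ⟨x, y, k.to_reflTransGen.trans h1, h2, h3⟩

theorem BkB.right (h : BkB Γ P R s s' a b) (k : TransGen (BkE Γ P s) b c) :
    BkB Γ P R s s' a c := by
  obtain ⟨x, y, h1, h2, h3⟩ := h
  exact ⟨x, y, h1, h2, h3.trans k.to_reflTransGen⟩

theorem BkB.le (i : ∀ (g : Γ) a b, P a b → P (g • a) (g • b))
    (iR : ∀ (g : Γ) a b, R a b → R (g • a) (g • b))
    (bl : ∀ a b c, P a b → R b c → R a c) (br : ∀ a b c, R a b → P b c → R a c)
    (h : BkB Γ P R s s' a b) : R a b := by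
  obtain ⟨x, y, h1, h2, h3⟩ := h
  have k : R x b := by
    induction h3 with
    | refl => exact h2.le iR
    | tail _ h ih => exact br _ _ _ ih (h.le i)
  clear h2
  induction h1 using ReflTransGen.head_induction_on with
  | refl => exact k
  | head h _ ih => exact bl _ _ _ (h.le i) ih

theorem BkB.fin (fin : ∀ a : Y, Finite (stabilizer Γ a))
    (f : ∀ b, {a | ReflTransGen (BkE Γ P s) a b}.Finite) (b : Y) :
    {a | BkB Γ P R s s' a b}.Finite := by
  refine ((f b).biUnion fun y _ => (BkE.fin (P := R) (s := s') fin y).biUnion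
    fun x _ => f x).subset ?_
  rintro a ⟨x, y, h1, h2, h3⟩
  exact Set.mem_biUnion h3 (Set.mem_biUnion h2 h1)

end Orb

namespace GC

variable {G : Type w} [Group G] {C : Type u} [Category.{v} C] [Preadditive C] [HasZeroObject C]
variable {S : GC G C} {m : ℕ}

section Backfile
theorem gq_back {Γ : Type w} [Group Γ] (π : G →* Γ) {Y Y' : Type w} [MulAction Γ Y]
    [MulAction Γ Y'] {P R : Y → Y → Prop} {P' R' : Y' → Y' → Prop} (α β : Y → Y' → Prop)
    (t : ∀ a b c, P a b → P b c → P a c) (i : ∀ (g : Γ) a b, P a b → P (g • a) (g • b))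
    (t' : ∀ a b c, P' a b → P' b c → P' a c) (i' : ∀ (g : Γ) a b, P' a b → P' (g • a) (g • b))
    (iR : ∀ (g : Γ) a b, R a b → R (g • a) (g • b))
    (iα : ∀ (g : Γ) a b, α a b → α (g • a) (g • b)) (iβ : ∀ (g : Γ) a b, β a b → β (g • a) (g • b))
    (fin : ∀ a : Y, Finite (stabilizer Γ a)) (l : Y → ℤ)
    (hl : ∀ a b, P a b → a = b ∨ l a < l b) (N : ℕ) (bd : ∀ a b, P a b → |l a| ≤ N ∧ |l b| ≤ N)
    (bl : ∀ a b c, P a b → R b c → R a c) (br : ∀ a b c, R a b → P b c → R a c)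
    (al : ∀ a b r, P a b → α b r → α a r) (ar : ∀ a r r', α a r → P' r r' → α a r')
    (j1 : ∀ p q, R p q → ∃! r, β q r ∧ α p r)
    (j2 : ∀ p q q' r r', R p q → P q q' → β q r → α p r → β q' r' → α p r' → P' r r')
    (j3 : ∀ q r q' r', β q r → R q q' → β q' r' → α q r' → R' r r')
    (z : S.GQ (Rl.act π P' t' i') fun a g b => R' a (π g • b)) :
    S.GQ (Rl.act π P t i) fun a g b => R a (π g • b) := by
  classical
  intro m
  refine gm_union (ι := Finset (Y × Y) × Finset (Y × Y))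
    (fun s => Rl.act π (TransGen (BkE Γ P s.1)) (fun _ _ _ => TransGen.trans)
      fun g _ _ h => bk_tg_smul h g)
    (fun s a g b => BkB Γ P R s.1 s.2 a (π g • b))
    (fun s s' h a g b k => bk_tg_mono k h.1)
    (fun s a g b k => bk_tg_le t i k)
    (fun a g b k => ⟨({(a, π g • b)}, ∅), .single (BkE.one k)⟩)
    (fun s s' h a g b k => k.mono h.1 h.2)
    (fun a g b k => ⟨(∅, {(a, π g • b)}), _, _, .refl, BkE.one k, .refl⟩) ?_
  rintro ⟨s, s'⟩
  have le : ∀ {a b}, BkB Γ P R s s' a b → R a b := BkB.le i iR bl br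
  have f1 : ∀ q, {p | BkB Γ P R s s' p q}.Finite := BkB.fin fin
    (bk_fin_rt (BkE.fin fin) l (fun a b h => hl a b (h.le i)) N fun a b h => (bd a b (h.le i)).2)
  have f2 : ∀ q, {r | β q r ∧ ∃ p, BkB Γ P R s s' p q ∧ α p r}.Finite := fun q => by
    refine ((f1 q).biUnion (t := fun p => {r | β q r ∧ α p r}) fun p hp => ?_).subset ?_
    · obtain ⟨r, -, h⟩ := j1 p q (le hp)
      exact (Set.finite_singleton r).subset h
    · rintro r ⟨h, p, hp, k⟩
      exact Set.mem_biUnion hp ⟨h, k⟩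
  have key : ∀ p (γ : Γ) q, BkB Γ P R s s' p (γ • q) → ∃ r, (r ∈ (f2 q).toFinset ∧ α p (γ • r)) ∧
      ∀ r', β q r' → α p (γ • r') → r' = r := fun p γ q h => by
    obtain ⟨r, ⟨h1, h2⟩, h3⟩ := j1 p _ (le h)
    refine ⟨γ⁻¹ • r, ⟨(f2 q).mem_toFinset.2 ⟨?_, γ⁻¹ • p, ?_, iα _ _ _ h2⟩, ?_⟩, fun r' a b => ?_⟩
    · simpa using iβ γ⁻¹ _ _ h1
    · simpa using h.smul γ⁻¹
    · simpa using h2
    · rw [← h3 _ ⟨iβ γ _ _ a, b⟩, inv_smul_smul]
  refine Gm.cyc (fun q => (f2 q).toFinset) (fun p g r => α p (π g • r)) ?_ ?_ ?_ ?_ ?_ ?_ ?_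
    (z (m + 1))
  · intro q g q' r h hr
    obtain ⟨h1, p, h2, h3⟩ := (f2 q).mem_toFinset.1 hr
    obtain ⟨r', ⟨h4, h5⟩, h6⟩ := key p (π g) q' (h2.right h)
    exact ⟨r', ⟨h4, j2 p q _ r _ (le h2) (bk_tg_le t i h) h1 h3
      (iβ _ _ _ ((f2 q').mem_toFinset.1 h4).1) h5⟩,
      fun x hx => h6 x ((f2 q').mem_toFinset.1 hx.1).1 (ar _ _ _ h3 hx.2)⟩
  · intro p g q h
    obtain ⟨r, h1, h2⟩ := key p (π g) q h
    exact ⟨r, h1, fun x hx => h2 x ((f2 q).mem_toFinset.1 hx.1).1 hx.2⟩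
  · intro p g p' h q a b
    rw [map_mul, mul_smul]
    exact BkB.left a (b.smul _)
  · intro p g q h q' a b
    rw [map_mul, mul_smul]
    exact BkB.right a (bk_tg_smul b _)
  · intro p g p' h r a b
    rw [map_mul, mul_smul]
    exact al _ _ _ (bk_tg_le t i a) (iα _ _ _ b)
  · intro p g r h r' a b
    rw [map_mul, mul_smul]
    exact ar _ _ _ a (i' _ _ _ b)
  · intro q r g q' r' a b c d
    exact j3 q r _ _ ((f2 q).mem_toFinset.1 a).1 (le b)
      (iβ _ _ _ ((f2 q').mem_toFinset.1 c).1) d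
end Backfile

end GC

end Pool.Agent.Lib.MP_5d3e93_al
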