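import Pool.Agent.Lib.MP_5d3e93_al.K.CycB

/-! The invariant form of the cyclic move for arbitrary stabilisers. -/

open CategoryTheory Limits ZeroObject MulAction

namespace Pool.Agent.Lib.MP_5d3e93_al

universe w v u

open Gr

namespace GC

variable {G : Type w} [Group G] {C : Type u} [Category.{v} C] [Preadditive C] [HasZeroObject C]
variable {S : GC G C}

/-- The invariant form of the cyclic move without finiteness. -/
theorem gq_back' {Γ : Type w} [Group Γ] (π : G →* Γ) {Y Y' : Type w} [MulAction Γ Y]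
    [MulAction Γ Y'] {P R : Y → Y → Prop} {P' R' : Y' → Y' → Prop} (α β : Y → Y' → Prop)
    (t : ∀ a b c, P a b → P b c → P a c) (i : ∀ (g : Γ) a b, P a b → P (g • a) (g • b))
    (t' : ∀ a b c, P' a b → P' b c → P' a c) (i' : ∀ (g : Γ) a b, P' a b → P' (g • a) (g • b))
    (iR : ∀ (g : Γ) a b, R a b → R (g • a) (g • b))
    (iR' : ∀ (g : Γ) a b, R' a b → R' (g • a) (g • b))
    (iα : ∀ (g : Γ) a b, α a b → α (g • a) (g • b)) (iβ : ∀ (g : Γ) a b, β a b → β (g • a) (g • b))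
    (qr : ∀ a b, P a b → P a a ∧ P b b) (rf : ∀ p q r, R p q → β q r → α p r → P' r r)
    (bl : ∀ a b c, P a b → R b c → R a c) (br : ∀ a b c, R a b → P b c → R a c)
    (bl' : ∀ a b c, P' a b → R' b c → R' a c) (br' : ∀ a b c, R' a b → P' b c → R' a c)
    (al : ∀ a b r, P a b → α b r → α a r) (ar : ∀ a r r', α a r → P' r r' → α a r')
    (j1 : ∀ p q, R p q → ∃ r, β q r ∧ α p r)
    (j2 : ∀ p q q' r r', R p q → P q q' → β q r → α p r → β q' r' → α p r' → P' r r')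
    (j3 : ∀ q r q' r', β q r → R q q' → β q' r' → α q r' → R' r r')
    (j4 : ∀ q r r₁ r₂, β q r₁ → β q r₂ → P' r r₁ → P' r r₂ → r₁ = r₂)
    (j5 : ∀ q p r₁ r₂, β q r₁ → β q r₂ → α p r₁ → α p r₂ → r₁ = r₂)
    (z₁ : S.Zq (Rl.act π P t i)) (z₂ : S.Zq (Rl.act π P' t' i'))
    (z : S.GQ (Rl.act π P' t' i') fun a g b => R' a (π g • b)) :
    S.GQ (Rl.act π P t i) fun a g b => R a (π g • b) := by
  intro m
  have key : ∀ p (γ : Γ) q, R p (γ • q) → ∃ r, (β q r ∧ ∃ p', R p' q ∧ α p' r) ∧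
      β (γ • q) (γ • r) ∧ α p (γ • r) := fun p γ q h => by
    obtain ⟨r, h1, h2⟩ := j1 p _ h
    refine ⟨γ⁻¹ • r, ⟨?_, γ⁻¹ • p, ?_, iα _ _ _ h2⟩, ?_, ?_⟩
    · simpa using iβ γ⁻¹ _ _ h1
    · simpa using iR γ⁻¹ _ _ h
    · simpa using h1
    · simpa using h2
  refine Gm.cyc' (fun q => {r | β q r ∧ ∃ p, R p q ∧ α p r})
    (fun p g r' => ∃ q r, R p q ∧ β q r ∧ α p r ∧ P' r (π g • r')) ?_ ?_ ?_ ?_ ?_ ?_ ?_ ?_ ?_
    z₁ z₂ (z (m + 1))
  · intro a g b h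
    obtain ⟨h1, h2⟩ := qr _ _ h
    refine ⟨?_, ?_⟩
    · change P a (π 1 • a)
      simpa using h1
    · change P b (π 1 • b)
      simpa using i (π g)⁻¹ _ _ h2
  · rintro q r ⟨h1, p, h2, h3⟩
    change P' r (π 1 • r)
    simpa using rf p q r h2 h1 h3
  · rintro q g q' r h ⟨h1, p, h2, h3⟩
    obtain ⟨r', h4, h5, h6⟩ := key p (π g) q' (br _ _ _ h2 h)
    exact ⟨r', h4, j2 p q _ r _ h2 h h1 h3 h5 h6⟩
  · intro p g q h
    obtain ⟨r, h4, h5, h6⟩ := key p (π g) q h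
    exact ⟨r, h4, _, _, h, h5, h6, rf _ _ _ h h5 h6⟩
  · intro q r g r₁ r₂ a b c d
    exact smul_left_cancel (π g) (j4 _ r _ _ (iβ _ _ _ a.1) (iβ _ _ _ b.1) c d)
  · rintro q p g r₁ r₂ a b ⟨_, _, -, -, c, c'⟩ ⟨_, _, -, -, d, d'⟩
    exact smul_left_cancel (π g)
      (j5 _ p _ _ (iβ _ _ _ a.1) (iβ _ _ _ b.1) (ar _ _ _ c c') (ar _ _ _ d d'))
  · rintro p g p' h r a ⟨q, s, b1, b2, b3, b4⟩
    refine ⟨π g • q, π g • s, bl _ _ _ a (iR _ _ _ b1), iβ _ _ _ b2, al _ _ _ a (iα _ _ _ b3), ?_⟩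
    rw [map_mul, mul_smul]
    exact i' _ _ _ b4
  · rintro p g r h r' ⟨q, s, b1, b2, b3, b4⟩ a
    refine ⟨q, s, b1, b2, b3, ?_⟩
    rw [map_mul, mul_smul]
    exact t' _ _ _ b4 (i' _ _ _ a)
  · rintro r g r₁ q h r' a b ⟨q', s, b1, b2, b3, b4⟩
    rw [map_mul, mul_smul]
    exact bl' _ _ _ a (iR' _ _ _ (br' _ _ _ (j3 q r₁ q' s b.1 b1 b2 b3) b4))

end GC

end Pool.Agent.Lib.MP_5d3e93_al
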