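import Pool.Agent.Lib.MP_5d3e93_al.K.TwoV

/-! Exchanging the two directions of a binary double complex. -/

open CategoryTheory Limits Pretriangulated ZeroObject

namespace Pool.Agent.Lib.MP_5d3e93_al.Gr

universe v u v' u' v'' u''

namespace Am

variable {a : Am.{v, u}} {b : Am.{v', u'}} {c : Am.{v'', u''}}
variable {S : ObjectProperty a.D} {S' : ObjectProperty b.D} {S'' : ObjectProperty c.D}

/-- Exchanging the two directions of a binary double complex. -/
def τ (a : Am.{v, u}) : Map a.B.B a.B.B where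
  F :=
    { obj M := ⟨fun j => (a.ev j).B.F.obj M,
        fun e j => ((a.ev (j + 1)).natB (a.ev j) (a.B.idm.dn e j)).app M,
        fun e j => Bin.hom_ext fun i => Bin.sq (C := a.A) (Bin.X (C := a.B.A) M i) e j⟩
      map φ := Bin.homMk (fun j => (a.ev j).B.F.map φ) fun e j =>
        Bin.hom_ext fun i => Bin.comm (φ.1 i) e j }
  add := ⟨rfl⟩
  hT X h := a.B.B.le_Tb _ fun j => (a.ev j).B.hT X h

/-- An isomorphism of functors to binary double complexes from its components. -/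
theorem tau_iso {A : Type*} [Category* A] {C : Type u'} [Category.{v'} C] [Preadditive C]
    (F G : A ⥤ Bin (Bin C)) (φ : ∀ X j i, ((F.obj X).X j).X i ⟶ ((G.obj X).X j).X i)
    (h₀ : ∀ X j i, IsIso (φ X j i))
    (h₁ : ∀ X j e i, φ X j (i + 1) ≫ ((G.obj X).X j).d e i = ((F.obj X).X j).d e i ≫ φ X j i)
    (h₂ : ∀ X e j i, φ X (j + 1) i ≫ ((G.obj X).d e j).1 i = ((F.obj X).d e j).1 i ≫ φ X j i)
    (h₃ : ∀ X Y (f : X ⟶ Y) j i,
      ((F.map f).1 j).1 i ≫ φ Y j i = φ X j i ≫ ((G.map f).1 j).1 i) : Nonempty (F ≅ G) :=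
  ⟨NatIso.ofComponents (fun X => @asIso _ _ _ _
    (Bin.homMk (fun j => Bin.homMk (φ X j) (h₁ X j)) fun e j => Bin.hom_ext (h₂ X e j))
    (Bin.isIso_of _ fun j => Bin.isIso_of _ (h₀ X j)))
    fun f => Bin.hom_ext fun j => Bin.hom_ext (h₃ _ _ f j)⟩

theorem tau_z (n : ℕ) : IsZero (Bin.X (0 : a.B.A) n) := (a.ev n).F.map_isZero (isZero_zero _)

theorem tau_zz (j i : ℕ) : IsZero (Bin.X (C := a.A) (Bin.X (C := a.B.A) (0 : a.B.B.A) j) i) :=
  (a.ev i).F.map_isZero (tau_z (a := a.B) j)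

theorem tau_one {C : Type*} [Category* C] {X Y : C} (f : X ⟶ Y) : 𝟙 X ≫ f = f ≫ 𝟙 Y :=
  (Category.id_comp f).trans (Category.comp_id f).symm

theorem tau_c0 (a : Am.{v, u}) : Nonempty ((a.B.c0.comp a.τ).F ≅ a.c0.B.F) :=
  tau_iso (C := a.A) _ _ (fun X j => fun | 0 => 𝟙 (Bin.X X j) | _ + 1 => 0)
    (fun X j => fun
      | 0 => IsIso.id (Bin.X X j)
      | i + 1 => (tau_zz i j).isIso (tau_z i) _)
    (fun _ j _ i => (tau_zz i j).eq_of_src _ _)
    (fun X e j => fun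
      | 0 => tau_one (Bin.d X e j)
      | i + 1 => (tau_zz i (j + 1)).eq_of_src _ _)
    fun _ _ f j => fun
      | 0 => (tau_one (f.1 j)).symm
      | i + 1 => (tau_zz i j).eq_of_src _ _

theorem tau_sh (a : Am.{v, u}) : Nonempty ((a.B.sh.comp a.τ).F ≅ (a.τ.comp a.sh.B).F) :=
  tau_iso (C := a.A) _ _
    (fun X j => fun | 0 => 0 | i + 1 => 𝟙 (Bin.X (C := a.A) (Bin.X (C := a.B.A) X i) j))
    (fun X j => fun
      | 0 => (tau_z j).isIso (isZero_zero _) _
      | i + 1 => IsIso.id (Bin.X (C := a.A) (Bin.X (C := a.B.A) X i) j))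
    (fun X j e => fun
      | 0 => (isZero_zero a.A).eq_of_tgt _ _
      | i + 1 => tau_one ((Bin.d (C := a.B.A) X e i).1 j))
    (fun X e j => fun
      | 0 => (isZero_zero a.A).eq_of_tgt _ _
      | i + 1 => tau_one (Bin.d (C := a.A) (Bin.X (C := a.B.A) X i) e j))
    fun _ _ f j => fun
      | 0 => (isZero_zero a.A).eq_of_tgt _ _
      | i + 1 => (tau_one ((f.1 i).1 j)).symm

theorem tau_tr {f g : Map a b} (e : Nonempty (f.F ≅ g.F)) (P : ObjectProperty b.D) [Tg P] {X : a.D}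
    (h : P (g.D.obj X)) : P (f.D.obj X) := P.prop_of_iso ((f.natIso g e.some).app X).symm h

theorem tau_comp (f : Map a b) (g : Map b c) (X : a.D) :
    (f.comp g).D.obj X = g.D.obj (f.D.obj X) := rfl

theorem tau_h0 {X : a.B.D} (h : V S X) :
    V (⊤ : ObjectProperty a.B.D) (a.τ.D.obj (a.B.c0.D.obj X)) := by
  rw [← tau_comp]
  exact tau_tr (tau_c0 a) _ (a.c0.V_map (S := S) (S' := ⊤) (fun _ _ => trivial) X h)

theorem tau_h1 {X : a.B.B.D} (h : V (⊤ : ObjectProperty a.B.D) (a.τ.D.obj X)) :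
    V (⊤ : ObjectProperty a.B.D) (a.τ.D.obj (a.B.sh.D.obj X)) := by
  rw [← tau_comp]
  refine tau_tr (tau_sh a) _ ?_
  rw [tau_comp]
  exact a.sh.V_map (S := ⊤) (S' := ⊤) (fun _ _ => trivial) _ h

theorem tau_ev (j : ℕ) (M : a.B.B.D) :
    (a.B.ev j).D.obj (a.τ.D.obj M) = (a.ev j).B.D.obj M := rfl

theorem V_τ [Tg S] : V (V S) ≤ (V (V S)).inverseImage a.τ.D := by
  intro M hM
  have k : V (⊤ : ObjectProperty a.B.D) (a.τ.D.obj M) :=
    W_ind (a := a.B) (S := V S) ((V (⊤ : ObjectProperty a.B.D)).inverseImage a.τ.D)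
      (fun _ hX => tau_h0 hX) (fun _ _ hX => tau_h1 hX) M hM.1
  refine ⟨⟨fun j => ?_, k.1.2⟩, k.2⟩
  beta_reduce
  rw [tau_ev]
  exact (a.ev j).V_map (S := V S) (S' := S) (fun _ h => h.1.1 j) M hM

theorem two_B (f g : Map a b) (α : Bool → (f.F ⟶ g.F)) :
    Nonempty (((f.two g α).B.comp b.τ).F ≅ (f.B.two g.B fun e => f.natB g (α e)).F) :=
  tau_iso (C := b.A) _ _
    (fun X => fun
      | 0 => fun i => 𝟙 (g.F.obj (Bin.X X i))
      | 1 => fun i => 𝟙 (f.F.obj (Bin.X X i))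
      | _ + 2 => fun _ => 0)
    (fun X => fun
      | 0 => fun i => IsIso.id (g.F.obj (Bin.X X i))
      | 1 => fun i => IsIso.id (f.F.obj (Bin.X X i))
      | j + 2 => fun i => (tau_z j).isIso (tau_zz j i) _)
    (fun X => fun
      | 0 => fun e i => tau_one (g.F.map (Bin.d X e i))
      | 1 => fun e i => tau_one (f.F.map (Bin.d X e i))
      | j + 2 => fun _ _ => (tau_z j).eq_of_src _ _)
    (fun X e => fun
      | 0 => fun i => tau_one ((α e).app (Bin.X X i))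
      | j + 1 => fun _ => (tau_z j).eq_of_src _ _)
    fun _ _ φ => fun
      | 0 => fun i => (tau_one (g.F.map (φ.1 i))).symm
      | 1 => fun i => (tau_one (f.F.map (φ.1 i))).symm
      | j + 2 => fun _ => (tau_z j).eq_of_src _ _

end Am

end Pool.Agent.Lib.MP_5d3e93_al.Gr
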