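import Pool.Agent.Lib.MP_5d3e93_al.K.TwoA
import Pool.Agent.Lib.MP_5d3e93_al.K.Tau
import Pool.Agent.Lib.MP_5d3e93_al.Gr.KnL

/-! The boundary lemma. -/

open CategoryTheory Limits Pretriangulated ZeroObject

namespace Pool.Agent.Lib.MP_5d3e93_al.Gr

universe v u v' u' v'' u''

theorem bdy_s1 {C : Type*} [Category* C] [Preadditive C] {A B Z : C} (i : A ⟶ B) (p : B ⟶ Z)
    (h : IsIso i) (k : IsZero Z) : ∃ r s, i ≫ r = 𝟙 _ ∧ s ≫ p = 𝟙 _ ∧ r ≫ i + p ≫ s = 𝟙 _ :=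
  ⟨inv i, 0, by simp, k.eq_of_src _ _, by simp⟩

theorem bdy_s2 {C : Type*} [Category* C] [Preadditive C] {A B Z : C} (i : A ⟶ B) (p : B ⟶ Z)
    (h : IsZero A) (k : IsIso p) : ∃ r s, i ≫ r = 𝟙 _ ∧ s ≫ p = 𝟙 _ ∧ r ≫ i + p ≫ s = 𝟙 _ :=
  ⟨0, inv p, h.eq_of_src _ _, by simp, by simp⟩

theorem bdy_s3 {C : Type*} [Category* C] [Preadditive C] [HasBinaryBiproducts C] {A B : C}
    (β : A ⟶ B) (i : A ⟶ B ⊞ A) (p : B ⊞ A ⟶ B) (h : i = biprod.inr - β ≫ biprod.inl)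
    (k : p = biprod.fst + biprod.snd ≫ β) :
    i ≫ p = 0 ∧ ∃ r s, i ≫ r = 𝟙 _ ∧ s ≫ p = 𝟙 _ ∧ r ≫ i + p ≫ s = 𝟙 _ := by
  subst h k
  exact ⟨by simp, biprod.snd, biprod.inl, by simp, by simp, by ext <;> simp⟩

namespace Am

variable {a : Am.{v, u}} {b : Am.{v', u'}} {c : Am.{v'', u''}}
variable {S : ObjectProperty a.D} {S' : ObjectProperty b.D} {S'' : ObjectProperty c.D}

theorem tot_iso {e : Bool} {M M' : a.B.D} {s : M ⟶ M'} (hs : (a.Ac1 e).trW s) {P P' : a.D}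
    {u : M ⟶ (a.R e).D.obj P} {u' : M' ⟶ (a.R e).D.obj P'} (h : Un _ u) (h' : Un _ u') :
    Nonempty (P ≅ P') := by
  obtain ⟨Z, g, k, hT, hZ⟩ := hs
  obtain ⟨f, g', t, hP⟩ := un_tri (a.R e).D hT h h' (f4_un_zero hZ)
  exact ⟨@asIso _ _ _ _ f ((Triangle.isZero₃_iff_isIso₁ _ hP).1 (isZero_zero _))⟩

theorem bdy_mid {e : Bool} {T : Triangle a.B.D} (hT : T ∈ distTriang a.B.D) (z : a.Ac1 e T.obj₂)
    {P P' : a.D} {u : T.obj₁ ⟶ (a.R e).D.obj P} {u' : T.obj₃ ⟶ (a.R e).D.obj P'} (h : Un _ u)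
    (h' : Un _ u') : Nonempty (P' ≅ P⟦(1 : ℤ)⟧) := by
  obtain ⟨f, g', t, hP⟩ := un_tri (a.R e).D hT h (f4_un_zero z) h'
  exact ⟨@asIso _ _ _ _ t ((Triangle.isZero₂_iff_isIso₃ _ hP).1 (isZero_zero _))⟩

theorem bdy_fst {e : Bool} {T : Triangle a.B.D} (hT : T ∈ distTriang a.B.D) (z : a.Ac1 e T.obj₁)
    {P P' : a.D} {u : T.obj₂ ⟶ (a.R e).D.obj P} {u' : T.obj₃ ⟶ (a.R e).D.obj P'} (h : Un _ u)
    (h' : Un _ u') : Nonempty (P ≅ P') := by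
  obtain ⟨f, g', t, hP⟩ := un_tri (a.R e).D hT (f4_un_zero z) h h'
  exact ⟨@asIso _ _ _ _ g' ((Triangle.isZero₁_iff_isIso₂ _ hP).1 (isZero_zero _))⟩

theorem bdy_tot {M : a.B.D} (h : W ⊤ M) (e : Bool) :
    ∃ (P : a.D) (u : M ⟶ (a.R e).D.obj P), Un _ u := by
  obtain ⟨P, -, u, hu⟩ := a.bs.tot h e
  exact ⟨P, u, hu⟩

theorem bdy_one (f : Map a b) (α : Bool → (f.F ⟶ f.F)) (e : Bool) (h : α e = 𝟙 _) (X : a.D) :
    b.Ac1 e ((f.two f α).D.obj X) :=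
  Ac1_two α e (by rw [h, Map.nat_id]; exact IsIso.id _)

theorem tot_c2 (e : Bool) (Y : a.D) {P : a.D}
    {u : a.sh.D.obj (a.sh.D.obj (a.c0.D.obj Y)) ⟶ (a.R e).D.obj P} (h : Un _ u) :
    Nonempty (P ≅ (Y⟦(1 : ℤ)⟧)⟦(1 : ℤ)⟧) := by
  obtain ⟨δ, hT⟩ := (ses_cons (a.idm.comp a.c0) a.idm (fun _ => 𝟙 a.idm.F) (fun _ _ =>
    (congrArg (· ≫ _) (show (_ : _ ⟶ a.idm.F.obj _) = 0 from rfl)).trans zero_comp) ⊤).tri
      (X := Y) trivial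
  have z := bdy_one a.idm (fun _ => 𝟙 _) e rfl Y
  obtain ⟨P₁, u₁, h₁⟩ := bdy_tot (W_sh _ (W_c0 (S := ⊤) Y trivial)) e
  obtain ⟨i⟩ := bdy_mid hT z (un_c0 e Y) h₁
  obtain ⟨j⟩ := bdy_mid (a.sh.D.map_distinguished _ hT) (Ac1_sh z) h₁ h
  exact ⟨j ≪≫ (shiftFunctor _ (1 : ℤ)).mapIso i⟩

theorem bdy_bi (f g : Map a b) : f.inl g ≫ f.fst g = 𝟙 _ ∧ f.inl g ≫ f.snd g = 0 ∧
    f.inr g ≫ f.fst g = 0 ∧ f.inr g ≫ f.snd g = 𝟙 _ :=
  ⟨NatTrans.ext (funext fun _ => biprod.inl_fst), NatTrans.ext (funext fun _ => biprod.inl_snd),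
    NatTrans.ext (funext fun _ => biprod.inr_fst), NatTrans.ext (funext fun _ => biprod.inr_snd)⟩

/-- The complex that only depends on one differential. -/
noncomputable def bdyG {P₁ P₀ : Map a b} (γ : P₁.F ⟶ P₀.F) (e : Bool) : Map a b.B :=
  (P₁.two (P₀.sum P₁) fun c => if c = e then γ ≫ P₀.inl P₁ else P₀.inr P₁).cons P₁
    (fun c => (if c = e then P₀.snd P₁ else 0 : P₀.sumF P₁ ⟶ P₁.F)) fun c X =>
      NatTrans.congr_app (show (if c = e then γ ≫ P₀.inl P₁ else P₀.inr P₁) ≫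
        (if c = e then P₀.snd P₁ else 0 : P₀.sumF P₁ ⟶ P₁.F) = 0 by
          split_ifs <;> simp [bdy_bi]) X

theorem bdy_G {P₁ P₀ : Map a b} (d : Bool → (P₁.F ⟶ P₀.F)) (e : Bool) {γ : P₁.F ⟶ P₀.F}
    (hγ : d e = γ) (X : a.D) {P P' : b.D} {u : (bdyG γ e).D.obj X ⟶ (b.R e).D.obj P}
    {u' : b.sh.D.obj ((P₁.two P₀ d).D.obj X) ⟶ (b.R e).D.obj P'} (h : Un _ u) (h' : Un _ u') :
    Nonempty (P ≅ P') := by
  let κ : P₁.F ⟶ P₀.sumF P₁ := P₀.inr P₁ - d (!e) ≫ P₀.inl P₁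
  let π : P₀.sumF P₁ ⟶ P₀.F := P₀.fst P₁ + P₀.snd P₁ ≫ d (!e)
  let t : Bool → (P₁.F ⟶ P₀.sumF P₁) := fun c => if c = e then γ ≫ P₀.inl P₁ else P₀.inr P₁
  let o : Bool → (P₁.F ⟶ P₁.F) := fun c => if c = e then 𝟙 _ else 0
  let α : (P₁.two P₁ o).F ⟶ (bdyG γ e).F :=
    Map.consNat (f := P₁.comp b.c0) (f' := P₁.two (P₀.sum P₁) t)
      (Functor.whiskerRight (show P₁.F ⟶ (P₀.sum P₁).F from κ) b.c0.F ≫
        (P₁.comp b.c0).consI (P₀.sum P₁) t _) (𝟙 P₁.F) fun c X =>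
      NatTrans.congr_app (show (κ ≫ 𝟙 _) ≫ (if c = e then P₀.snd P₁ else 0 : P₀.sumF P₁ ⟶ P₁.F) =
        o c ≫ 𝟙 _ by by_cases k : c = e <;> simp [κ, o, k, bdy_bi]) X
  have q : ∀ c, 𝟙 P₁.F ≫ d c = t c ≫ π := fun c => by
    by_cases k : c = e
    · simp [π, t, k, bdy_bi, hγ, reassoc_of% (bdy_bi P₀ P₁).2.1]
    · simp [π, t, Bool.eq_not_iff.2 k, bdy_bi, reassoc_of% (bdy_bi P₀ P₁).2.2.2]
  let β : (bdyG γ e).F ⟶ ((P₁.two P₀ d).comp b.sh).F :=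
    (P₁.two (P₀.sum P₁) t).consP P₁ _ _ ≫
      Functor.whiskerRight (Map.twoNat (g := P₀.sum P₁) (𝟙 P₁.F) π q) b.sh.F
  have m : ∀ X, ((α.app X).1 1 : _ ⟶ P₀.F.obj X ⊞ P₁.F.obj X) ≫ (β.app X).1 1 = 0 ∧ _ := fun X =>
    bdy_s3 ((d (!e)).app X) ((α.app X).1 1) ((β.app X).1 1) (Category.comp_id _)
      (Category.id_comp _)
  have z : ∀ n X, IsZero (Bin.X ((P₁.two P₁ o).F.obj X) (n + 2)) := fun n _ =>
    (b.ev n).F.map_isZero (isZero_zero b.B.A)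
  have w : α ≫ β = 0 := NatTrans.ext (funext fun X => Bin.hom_ext fun
    | 0 => (isZero_zero b.A).eq_of_tgt _ _
    | 1 => (m X).1
    | n + 2 => (z n X).eq_of_src _ _)
  obtain ⟨δ, hT⟩ := (ses_of_reflect (h := w) b.ev b.B.le_Tb (fun j X => match j with
    | 0 => bdy_s1 _ _ (IsIso.id (P₁.F.obj X)) (isZero_zero b.A)
    | 1 => (m X).2
    | n + 2 => bdy_s2 _ _ (z n X) (by
        change IsIso (𝟙 _ ≫ (b.c0.F ⋙ (b.ev n).F).map (𝟙 (P₁.F.obj X)))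
        infer_instance)) ⊤).tri (X := X) trivial
  exact bdy_fst hT (bdy_one P₁ o e (if_pos rfl) X) h h'

theorem tot_two {F P₁ P₀ : Map a b} {i : F.F ⟶ P₁.F} (d : Bool → (P₁.F ⟶ P₀.F)) (e : Bool) {h}
    (k : Ses i (d e) h S) {X : a.D} (hX : S X) {P : b.D}
    {u : b.sh.D.obj ((P₁.two P₀ d).D.obj X) ⟶ (b.R e).D.obj P} (hu : Un _ u) :
    Nonempty (P ≅ ((F.D.obj X)⟦(1 : ℤ)⟧)⟦(1 : ℤ)⟧) := by
  let d' : Bool → (P₁.F ⟶ P₀.F) := fun c => if c = e then d e else 0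
  let o : Bool → (P₀.F ⟶ P₀.F) := fun c => if c = e then 𝟙 _ else 0
  obtain ⟨Q, s, hs⟩ := bdy_tot (M := (bdyG (d e) e).D.obj X)
    (W_cons _ _ (W_two _ trivial trivial) trivial) e
  obtain ⟨Q', s', hs'⟩ := bdy_tot (W_sh _ (W_two (X := X) d' trivial trivial)) e
  obtain ⟨Q'', s'', hs''⟩ := bdy_tot (W_sh _ (W_sh _ (W_c0 (S := ⊤) (F.D.obj X) trivial))) e
  obtain ⟨i₁⟩ := bdy_G d e rfl X hs hu
  obtain ⟨i₂⟩ := bdy_G d' e (if_pos rfl) X hs hs'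
  obtain ⟨z, l⟩ := ses_two (α₁ := fun _ => (0 : F.F ⟶ (Map.zero a b).F)) (α := d') (α₂ := o) k
    (ses_of_split (α := (0 : (Map.zero a b).F ⟶ P₀.F)) (β := 𝟙 P₀.F) (h := zero_comp)
      (fun X => bdy_s2 _ _ (isZero_zero b.A) (IsIso.id _)) S)
    (fun c => by by_cases q : c = e <;> simp [d', q, h])
    (fun c => by by_cases q : c = e <;> simp [d', o, q])
  obtain ⟨δ, hT⟩ := l.tri hX
  obtain ⟨i₃⟩ := tot_iso ⟨_, _, _, b.sh.D.map_distinguished _ hT,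
    Ac1_sh (bdy_one P₀ o e (if_pos rfl) X)⟩ hs'' hs'
  obtain ⟨i₄⟩ := tot_c2 e _ hs''
  exact ⟨i₁.symm ≪≫ i₂ ≪≫ i₃.symm ≪≫ i₄⟩

theorem bdy_sh (f : Map a b.B) (h : ∀ X, IsZero (Bin.X (f.F.obj X) 0)) (X : a.D) :
    Nonempty (f.D.obj X ≅ b.sh.D.obj (b.tl.D.obj (f.D.obj X))) := by
  obtain ⟨i⟩ := f.iso_cons
  have := Map.isIso_nat _ _ ((f.comp b.tl).consP (f.comp (b.ev 0)) (fun e => f.dn e 0)
    fun e X => Bin.sq (f.F.obj X) e 0) (fun X => Bin.isIso_of _ fun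
      | 0 => (h X).isIso (isZero_zero b.A) _
      | _ + 1 => IsIso.id _) X
  exact ⟨(f.natIso _ i).app X ≪≫ @asIso _ _ _ _ _ this⟩

theorem bdy_post {f g : Map a b} (α : Bool → (f.F ⟶ g.F)) (p : Map b c) (X : a.D) :
    Nonempty (p.B.D.obj (b.sh.D.obj ((f.two g α).D.obj X)) ≅ c.sh.D.obj (((f.comp p).two (g.comp p)
      fun e => Functor.whiskerRight (α e) p.F).D.obj X)) := by
  obtain ⟨i⟩ := bdy_sh (((f.two g α).comp b.sh).comp p.B)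
    (fun _ => p.F.map_isZero (isZero_zero b.A)) X
  obtain ⟨j⟩ := ((f.two g α).comp p.B).iso_two fun _ j =>
    p.F.map_isZero ((b.ev j).F.map_isZero (isZero_zero b.B.A))
  exact ⟨i ≪≫ c.sh.D.mapIso ((Map.natIso _ _ j).app X)⟩

theorem bdy (n : ℕ) (p : Map b c) {N : ObjectProperty b.D} [Tg N] [Tg S'] [Tg S'']
    (h : Loc p.D N S' S'') (z : ∀ j, j < n → Subsingleton (Kn j b N)) (F : Bool → Map a b)
    {P₁ P₀ : Map a b} {i : ∀ e, (F e).F ⟶ P₁.F} {d : Bool → (P₁.F ⟶ P₀.F)}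
    {w : ∀ e, i e ≫ d e = 0}
    (k : ∀ e, Ses (i e) (d e) (w e) S) (hF : ∀ e, S ≤ N.inverseImage (F e).D)
    (h₁ : S ≤ S'.inverseImage P₁.D) (h₀ : S ≤ S'.inverseImage P₀.D)
    (hV : S ≤ (V S'').inverseImage ((P₁.comp p).two (P₀.comp p)
      fun e => Functor.whiskerRight (d e) p.F).D) (x : Kn n a S)
    (hx : Kmap n _ hV x = 0) : Kmap n (F true) (hF true) x = Kmap n (F false) (hF false) x := by
  induction n generalizing a b c with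
  | zero =>
    obtain ⟨δ, hδ⟩ : ∃ δ : K0 (V S'') →+ K0 N, _ := p.bm.bd h
    have key : (δ.comp (K0.map c.sh.D (V_sh (S := S'')))).comp (K0.map _ hV) =
        K0.map (F true).D (hF true) - K0.map (F false).D (hF false) := K0.hom_ext fun X hX => by
      have m : W S' (b.sh.D.obj ((P₁.two P₀ d).D.obj X)) := W_sh _ (W_two d (h₁ X hX) (h₀ X hX))
      have t : ∀ e, ∃ (P : b.D) (u : b.sh.D.obj ((P₁.two P₀ d).D.obj X) ⟶ (b.R e).D.obj P)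
          (q : N P), Un _ u ∧ K0.mk P q = K0.map (F e).D (hF e) (K0.mk X hX) := fun e => by
        obtain ⟨P, -, u, hu⟩ := b.bs.tot m e
        obtain ⟨j⟩ := tot_two d e (k e) hX hu
        have q₀ : N ((F e).D.obj X) := hF e X hX
        have q₁ : N (((F e).D.obj X)⟦(1 : ℤ)⟧) := f4_sh q₀ 1
        have q₂ := f4_sh q₁ 1
        exact ⟨P, u, N.prop_of_iso j.symm q₂, hu, by
          rw [K0.mk_iso j _ q₂, K0.mk_shift q₁, K0.mk_shift q₀, neg_neg, K0.map_mk]⟩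
      obtain ⟨P, u, q, hu, e₁⟩ := t true
      obtain ⟨P', u', q', hu', e₂⟩ := t false
      obtain ⟨j⟩ := bdy_post d p X
      have r : V S'' (c.sh.D.obj _) := V_sh _ (hV X hX)
      rw [AddMonoidHom.comp_apply, AddMonoidHom.comp_apply, AddMonoidHom.sub_apply, ← e₁, ← e₂,
        ← hδ _ m P P' u u' hu hu' q q' ((V S'').prop_of_iso j.symm r)]
      exact congrArg δ (((congrArg _ (K0.map_mk _ hV X hX)).trans (K0.map_mk ..)).trans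
        (K0.mk_iso j _ r).symm)
    exact sub_eq_zero.1 ((DFunLike.congr_fun key x).symm.trans
      ((congrArg (δ.comp (K0.map c.sh.D (V_sh (S := S'')))) hx).trans (map_zero _)))
  | succ n ih =>
    obtain ⟨j⟩ := two_B (P₁.comp p) (P₀.comp p) fun e => Functor.whiskerRight (d e) p.F
    have l := Map.V_map _ hV
    have l' := fun X hX => V_τ (S := S'') _ (l X hX)
    have l'' := fun X hX => (V (V S'')).prop_of_iso ((Map.natIso _ _ j).app X) (l' X hX)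
    have w' : ∀ e, (F e).natB P₁ (i e) ≫ P₁.natB P₀ (d e) = 0 := fun e => by
      ext P
      exact Bin.hom_ext fun j => NatTrans.congr_app (w e) _
    refine ih p.B (knl_locV h (have := z 0 n.succ_pos; Function.injective_of_subsingleton _))
      (fun j q => z (j + 1) (Nat.succ_lt_succ q)) (fun e => (F e).B) (w := w')
      (fun e K hK => (k e).B (w' e) K hK.1) (fun e => (F e).V_map (hF e)) (P₁.V_map h₁)
      (P₀.V_map h₀) l'' x ?_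
    refine (DFunLike.congr_fun (Kmap_iso n _ _ j l' l'') x).symm.trans
      ((Kmap_comp n _ c.τ l V_τ l' x).trans ?_)
    exact (congrArg (Kmap n c.τ V_τ) hx).trans (map_zero _)

end Am

end Pool.Agent.Lib.MP_5d3e93_al.Gr
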