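import Pool.Agent.Lib.MP_5d3e93_al.K.LQ
import Pool.Agent.Lib.MP_5d3e93_al.Gr.W2

/-! Families of located idempotents with asymptotically uniform control. -/

open CategoryTheory Limits ZeroObject Filter

namespace Pool.Agent.Lib.MP_5d3e93_al

universe w v u y y'

/-- Families of nearness relations. -/
structure Ar (G : Type w) [Group G] {J : Type} (Y : J → Type y) where
  n : ℕ → ∀ j, Y j → G → Y j → Prop
  mono : ∀ {r s j a g b}, n r j a g b → r ≤ s → n s j a g b
  trans : ∀ {r s j a g b h c}, n r j a g b → n s j b h c → n (r + s) j a (g * h) c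

/-- The transport groupoid of a subset. -/
def Rl.gp {G : Type w} [Group G] {Γ : Type*} [Group Γ] (q : G →* Γ) {Y : Type y} [MulAction Γ Y]
    (Ω : Y → Prop) : Rl G Y :=
  ⟨fun a g b => a = q g • b ∧ Ω a ∧ Ω b, fun h k => ⟨by rw [map_mul, mul_smul, ← k.1, ← h.1],
    h.2.1, k.2.2⟩⟩

namespace Ar

variable {G : Type w} [Group G] {J : Type} {Y : J → Type y} {Y' : J → Type y'}

/-- Restriction to a region. -/
def res (ν : Ar G Y) (Ω : ∀ j, Y j → Prop) : Ar G Y :=
  ⟨fun r j a g b => ν.n r j a g b ∧ Ω j a ∧ Ω j b, fun h k => ⟨ν.mono h.1 k, h.2⟩,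
    fun h k => ⟨ν.trans h.1 k.1, h.2.1, k.2.2⟩⟩

/-- Relations that do not depend on the radius. -/
def cst (P : ∀ j, Rl G (Y j)) : Ar G Y :=
  ⟨fun _ j => (P j).r, fun h _ => h, fun h k => (P _).trans h k⟩

/-- Invariant coarse structures. -/
def act {Γ : Type*} [Group Γ] (q : G →* Γ) [∀ j, MulAction Γ (Y j)] (ν : ∀ j, Nr Γ (Y j)) :
    Ar G Y :=
  ⟨fun r j a g b => (ν j).n r a (q g • b), fun h k => (ν _).mono h k, fun h k => by
    rw [map_mul, mul_smul]; exact (ν _).trans h ((ν _).smul _ k)⟩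

/-- The pair of maps is asymptotically controlled. -/
def Co (l : Filter J) (ν : Ar G Y) (ν' : Ar G Y') (φ ψ : ∀ j, Y j → Y' j) : Prop :=
  ∀ r, ∃ s, ∀ᶠ j in l, ∀ a g b, ν.n r j a g b → ν'.n s j (φ j a) g (ψ j b)

/-- Reflexive on the support. -/
def Rf (ν : Ar G Y) : Prop := ∀ r j a g b, ν.n r j a g b → ν.n 0 j a 1 a ∧ ν.n 0 j b 1 b

end Ar

namespace GC

open Lo

variable {G : Type w} [Group G] {C : Type u} [Category.{v} C] [Preadditive C] {S : GC G C}
variable {J : Type} {Y : J → Type y} {Y' : J → Type y'} {l l' : Filter J} {ν : Ar G Y}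
  {ν' : Ar G Y'}

section Ec

variable {A B D : J → C} {L : ∀ j, S.Lo (Y j) (A j)} {M : ∀ j, S.Lo (Y j) (B j)}
  {N : ∀ j, S.Lo (Y j) (D j)} {f f' : ∀ j, A j ⟶ B j} {k : ∀ j, B j ⟶ D j}

variable (l ν L M f) in
/-- Eventually uniform control. -/
def Ec : Prop := ∃ r, ∀ᶠ j in l, (L j).Rg (M j) (ν.n r j) (f j)

theorem Ec.zero : Ec l ν L M fun _ => 0 := ⟨0, .of_forall fun _ => .zero⟩

theorem Ec.add (h : Ec l ν L M f) (h' : Ec l ν L M f') : Ec l ν L M fun j => f j + f' j := by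
  obtain ⟨r, h⟩ := h
  obtain ⟨s, h'⟩ := h'
  exact ⟨r + s, (h.and h').mono fun j a => (a.1.mono fun _ _ _ b => ν.mono b (by omega)).add
    (a.2.mono fun _ _ _ b => ν.mono b (by omega))⟩

theorem Ec.neg (h : Ec l ν L M f) : Ec l ν L M fun j => -f j :=
  h.imp fun _ h => h.mono fun _ a => a.neg

theorem Ec.comp (h : Ec l ν L M f) (h' : Ec l ν M N k) : Ec l ν L N fun j => f j ≫ k j := by
  obtain ⟨r, h⟩ := h
  obtain ⟨s, h'⟩ := h'
  exact ⟨r + s, (h.and h').mono fun j a => a.1.comp a.2 fun _ _ _ _ _ => ν.trans⟩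

theorem Ec.dg_comp (h : ∀ j, (L j).Rg (M j) dg (f j)) (h' : Ec l ν M N k) :
    Ec l ν L N fun j => f j ≫ k j := h'.imp fun _ a => a.mono fun j a => (h j).dg_comp a

theorem Ec.comp_dg (h : Ec l ν L M f) (h' : ∀ j, (M j).Rg (N j) dg (k j)) :
    Ec l ν L N fun j => f j ≫ k j := h.imp fun _ a => a.mono fun j a => a.comp_dg (h' j)

theorem Ec.map {φ ψ : ∀ j, Y j → Y' j} (h : Ec l ν L M f) (c : Ar.Co l ν ν' φ ψ) :
    Ec l ν' (fun j => (L j).map (φ j)) (fun j => (M j).map (ψ j)) f := by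
  obtain ⟨r, h⟩ := h
  obtain ⟨s, c⟩ := c r
  exact ⟨s, (h.and c).mono fun j a =>
    a.1.map (L j).on_true (M j).on_true fun x g y _ _ => a.2 x g y⟩

theorem Ec.mono {μ : Ar G Y} (h : Ec l ν L M f) (c : Ar.Co l ν μ (fun _ => id) fun _ => id) :
    Ec l μ L M f := by
  obtain ⟨r, h⟩ := h
  obtain ⟨s, c⟩ := c r
  exact ⟨s, (h.and c).mono fun j a => a.1.mono a.2⟩

end Ec

variable (S l ν) in
/-- Families of located objects with controlled idempotents. -/
structure AS where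
  A : J → C
  L : ∀ j, S.Lo (Y j) (A j)
  p : ∀ j, A j ⟶ A j
  idem : ∀ j, p j ≫ p j = p j
  rg : Ec l ν L L p

namespace AS

attribute [reassoc (attr := simp)] idem

/-- Controlled families of morphisms compatible with the idempotents. -/
def Mor (M N : S.AS l ν) : AddSubgroup (∀ j, M.A j ⟶ N.A j) where
  carrier := {f | (∀ j, M.p j ≫ f j = f j) ∧ (∀ j, f j ≫ N.p j = f j) ∧ Ec l ν M.L N.L f}
  add_mem' h k := ⟨fun j => by simp [h.1 j, k.1 j], fun j => by simp [h.2.1 j, k.2.1 j],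
    h.2.2.add k.2.2⟩
  zero_mem' := ⟨by simp, by simp, .zero⟩
  neg_mem' h := ⟨fun j => by simp [h.1 j], fun j => by simp [h.2.1 j], h.2.2.neg⟩

instance : Category.{v} (S.AS l ν) where
  Hom M N := Mor M N
  id M := ⟨M.p, M.idem, M.idem, M.rg⟩
  comp f g := ⟨fun j => f.1 j ≫ g.1 j, fun j => by rw [← Category.assoc, f.2.1],
    fun j => by rw [Category.assoc, g.2.2.1], f.2.2.2.comp g.2.2.2⟩
  id_comp f := Subtype.ext (funext f.2.1)
  comp_id f := Subtype.ext (funext f.2.2.1)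
  assoc _ _ _ := Subtype.ext (funext fun _ => Category.assoc ..)

instance : Preadditive (S.AS l ν) where
  homGroup M N := inferInstanceAs (AddCommGroup (Mor M N))
  add_comp _ _ _ _ _ _ := Subtype.ext (funext fun _ => Preadditive.add_comp ..)
  comp_add _ _ _ _ _ _ := Subtype.ext (funext fun _ => Preadditive.comp_add ..)

variable {M N K : S.AS l ν}

@[ext] theorem hom_ext {f g : M ⟶ N} (h : ∀ j, f.1 j = g.1 j) : f = g := Subtype.ext (funext h)

@[simp] theorem id_f (M : S.AS l ν) (j) : (𝟙 M : M ⟶ M).1 j = M.p j := rfl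

@[simp] theorem comp_f (f : M ⟶ N) (g : N ⟶ K) (j) : (f ≫ g).1 j = f.1 j ≫ g.1 j := rfl

@[simp] theorem add_f (f g : M ⟶ N) (j) : (f + g).1 j = f.1 j + g.1 j := rfl

@[simp] theorem sub_f (f g : M ⟶ N) (j) : (f - g).1 j = f.1 j - g.1 j := rfl

@[simp] theorem neg_f (f : M ⟶ N) (j) : (-f).1 j = -f.1 j := rfl

@[simp] theorem zero_f (j) : (0 : M ⟶ N).1 j = 0 := rfl

@[reassoc (attr := simp)] theorem p_comp (f : M ⟶ N) (j) : M.p j ≫ f.1 j = f.1 j := f.2.1 j

@[reassoc (attr := simp)] theorem comp_p (f : M ⟶ N) (j) : f.1 j ≫ N.p j = f.1 j := f.2.2.1 j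

theorem hom_rg (f : M ⟶ N) : Ec l ν M.L N.L f.1 := f.2.2.2

/-- A morphism from its components. -/
def homMk (f : ∀ j, M.A j ⟶ N.A j) (h : ∀ j, M.p j ≫ f j = f j) (h' : ∀ j, f j ≫ N.p j = f j)
    (k : Ec l ν M.L N.L f) : M ⟶ N := ⟨f, h, h', k⟩

@[simp] theorem homMk_f (f : ∀ j, M.A j ⟶ N.A j) (h h' k) : (homMk f h h' k).1 = f := rfl

instance [HasZeroObject C] : HasZeroObject (S.AS l ν) :=
  ⟨⟨⟨fun _ => 0, fun _ => ⟨fun _ => 0, ∅, fun _ _ => rfl, fun _ => .inl rfl, by simp,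
    (isZero_zero C).eq_of_src _ _⟩, fun _ => 0, by simp, .zero⟩,
    (IsZero.iff_id_eq_zero _).2 rfl⟩⟩

/-- The chosen direct sum. -/
noncomputable abbrev sum (M N : S.AS l ν) : S.AS l ν :=
  ⟨fun j => S.sum (M.A j) (N.A j), fun j => (M.L j).add (N.L j),
    fun j => S.blk (M.p j) 0 0 (N.p j), by simp, by
    simpa [blk] using (Ec.dg_comp (fun _ => rg_fst) (M.rg.comp_dg fun _ => rg_inl)).add
      (Ec.dg_comp (fun _ => rg_snd) (N.rg.comp_dg fun _ => rg_inr))⟩

/-- The chosen direct sum as a bicone. -/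
noncomputable def bicone (M N : S.AS l ν) : BinaryBicone M N where
  pt := M.sum N
  fst := homMk (fun j => S.fst _ _ ≫ M.p j) (fun j => by rw [S.blk_fst_assoc]; simp) (by simp)
    (.dg_comp (fun _ => rg_fst) M.rg)
  snd := homMk (fun j => S.snd _ _ ≫ N.p j) (fun j => by rw [S.blk_snd_assoc]; simp) (by simp)
    (.dg_comp (fun _ => rg_snd) N.rg)
  inl := homMk (fun j => M.p j ≫ S.inl _ _) (by simp) (by simp) (M.rg.comp_dg fun _ => rg_inl)
  inr := homMk (fun j => N.p j ≫ S.inr _ _) (by simp) (by simp) (N.rg.comp_dg fun _ => rg_inr)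
  inl_fst := hom_ext (by simp)
  inl_snd := hom_ext (by simp)
  inr_fst := hom_ext (by simp)
  inr_snd := hom_ext (by simp)

theorem bicone_total (M N : S.AS l ν) :
    (M.bicone N).fst ≫ (M.bicone N).inl + (M.bicone N).snd ≫ (M.bicone N).inr = 𝟙 _ :=
  hom_ext fun j => by
    have : (S.fst (M.A j) (N.A j) ≫ M.p j) ≫ M.p j ≫ S.inl _ (N.A j) + (S.snd (M.A j) (N.A j) ≫
      N.p j) ≫ N.p j ≫ S.inr (M.A j) _ = S.blk (M.p j) 0 0 (N.p j) := by simp [blk]
    exact this

instance : HasBinaryBiproducts (S.AS l ν) :=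
  ⟨fun M N => hasBinaryBiproduct_of_total _ (bicone_total M N)⟩

/-- The summand defined by an idempotent. -/
abbrev img (e : M ⟶ M) (h : e ≫ e = e) : S.AS l ν :=
  ⟨M.A, M.L, e.1, fun j => congrArg (·.1 j) h, hom_rg e⟩

instance : IsIdempotentComplete (S.AS l ν) := ⟨fun _ e h =>
  ⟨img e h, homMk e.1 (img e h).idem (comp_p e) (hom_rg e),
    homMk e.1 (p_comp e) (img e h).idem (hom_rg e), hom_ext (img e h).idem,
    hom_ext (img e h).idem⟩⟩

variable (S) in
/-- Moving the locations. -/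
noncomputable def push (φ : ∀ j, Y j → Y' j) (h : Ar.Co l ν ν' φ φ) : S.AS l ν ⥤ S.AS l ν' where
  obj M := ⟨M.A, fun j => (M.L j).map (φ j), M.p, M.idem, M.rg.map h⟩
  map f := homMk f.1 (p_comp f) (comp_p f) ((hom_rg f).map h)

instance (φ : ∀ j, Y j → Y' j) (h : Ar.Co l ν ν' φ φ) : (push S φ h).Additive where

variable (S) in
/-- Enlarging the relation. -/
def inc {μ : Ar G Y} (h : Ar.Co l ν μ (fun _ => id) fun _ => id) : S.AS l ν ⥤ S.AS l μ where
  obj M := ⟨M.A, M.L, M.p, M.idem, M.rg.mono h⟩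
  map f := homMk f.1 (p_comp f) (comp_p f) ((hom_rg f).mono h)

instance {μ : Ar G Y} (h : Ar.Co l ν μ (fun _ => id) fun _ => id) : (inc S h).Additive where

variable (S ν) in
/-- Refining the filter. -/
def flt (h : l ≤ l') : S.AS l' ν ⥤ S.AS l ν where
  obj M := ⟨M.A, M.L, M.p, M.idem, M.rg.imp fun _ a => a.filter_mono h⟩
  map f := homMk f.1 (p_comp f) (comp_p f) ((hom_rg f).imp fun _ a => a.filter_mono h)

instance (h : l ≤ l') : (flt S ν h).Additive where

variable (S l ν) in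
/-- One component, without its locations. -/
noncomputable def ev (j : J) : S.AS l ν ⥤ S.LQ (Rl.pt ⊤) where
  obj M := ⟨M.A j, .one S () _, M.p j, M.idem j, fun _ _ _ h => (h trivial).elim⟩
  map f := LQ.homMk (f.1 j) (p_comp f j) (comp_p f j) fun _ _ _ h => (h trivial).elim

instance (j : J) : (ev S l ν j).Additive where

variable (S l ν) in
/-- Eventually equal morphisms. -/
def rel : HomRel (S.AS l ν) := fun _ _ f g => ∀ᶠ j in l, f.1 j = g.1 j

instance : Congruence (rel S l ν) where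
  comp_left f _ _ h := h.mono fun j a => congrArg (f.1 j ≫ ·) a
  comp_right g h := h.mono fun j a => congrArg (· ≫ g.1 j) a
  equivalence := ⟨fun _ => .of_forall fun _ => rfl, fun h => h.mono fun _ => Eq.symm,
    fun h k => (h.and k).mono fun _ a => a.1.trans a.2⟩

theorem rel_add ⦃X Z : S.AS l ν⦄ (f₁ f₂ g₁ g₂ : X ⟶ Z) (h : rel S l ν f₁ f₂) (k : rel S l ν g₁ g₂) :
    rel S l ν (f₁ + g₁) (f₂ + g₂) := (h.and k).mono fun _ a => congrArg₂ (· + ·) a.1 a.2

/-- The idempotent is diagonal. -/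
def Dg (M : S.AS l ν) : Prop := ∀ᶠ j in l, (M.L j).Rg (M.L j) dg (M.p j)

end AS

variable (S l ν) in
/-- The asymptotic category. -/
def AO : Type (max u y v) := Quotient (AS.rel S l ν)

namespace AO

instance : Category.{v} (S.AO l ν) := inferInstanceAs (Category (Quotient (AS.rel S l ν)))

instance : Preadditive (S.AO l ν) := Quotient.preadditive _ AS.rel_add

variable (S l ν) in
/-- The projection. -/
def π : S.AS l ν ⥤ S.AO l ν := Quotient.functor _

instance : (π S l ν).Additive := Quotient.functor_additive _ AS.rel_add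

instance : (π S l ν).Full := Quotient.full_functor _

instance : (π S l ν).EssSurj := Quotient.essSurj_functor _

theorem π_eq {M N : S.AS l ν} {f g : M ⟶ N} :
    (π S l ν).map f = (π S l ν).map g ↔ ∀ᶠ j in l, f.1 j = g.1 j :=
  Quotient.functor_map_eq_iff _ f g

theorem π_obj (X : S.AO l ν) : (π S l ν).obj X.as = X := rfl

instance [HasZeroObject C] : HasZeroObject (S.AO l ν) :=
  ⟨⟨_, (π S l ν).map_isZero (isZero_zero _)⟩⟩

instance : HasBinaryBiproducts (S.AO l ν) := ⟨fun M N =>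
  hasBinaryBiproduct_of_total ((π S l ν).mapBinaryBicone (M.as.bicone N.as)) (by
    have := congrArg (π S l ν).map (AS.bicone_total M.as N.as)
    rw [Functor.map_add, Functor.map_comp, Functor.map_comp, CategoryTheory.Functor.map_id] at this
    exact this)⟩

/-- Functors that keep eventual equality descend. -/
def desc (F : S.AS l ν ⥤ S.AS l ν')
    (h : ∀ {M N} (f g : M ⟶ N), AS.rel S l ν f g → AS.rel S l ν' (F.map f) (F.map g)) :
    S.AO l ν ⥤ S.AO l ν' :=
  CategoryTheory.Quotient.lift _ (F ⋙ π S l ν') fun _ _ f g k => π_eq.2 (h f g k)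

theorem desc_map (F : S.AS l ν ⥤ S.AS l ν')
    (h : ∀ {M N} (f g : M ⟶ N), AS.rel S l ν f g → AS.rel S l ν' (F.map f) (F.map g))
    {M N : S.AS l ν} (f : M ⟶ N) :
    (desc F h).map ((π S l ν).map f) = (π S l ν').map (F.map f) := rfl

instance (F : S.AS l ν ⥤ S.AS l ν') [F.Additive]
    (h : ∀ {M N} (f g : M ⟶ N), AS.rel S l ν f g → AS.rel S l ν' (F.map f) (F.map g)) :
    (desc F h).Additive := ⟨by
  rintro _ _ ⟨f⟩ ⟨g⟩
  exact (F ⋙ π S l ν').map_add (f := f) (g := g)⟩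

variable (S) in
/-- Moving the locations. -/
noncomputable def push (φ : ∀ j, Y j → Y' j) (h : Ar.Co l ν ν' φ φ) : S.AO l ν ⥤ S.AO l ν' :=
  desc (AS.push S φ h) fun _ _ k => k

instance (φ : ∀ j, Y j → Y' j) (h : Ar.Co l ν ν' φ φ) : (push S φ h).Additive :=
  inferInstanceAs (desc _ _).Additive

variable (S) in
/-- Enlarging the relation. -/
def inc {μ : Ar G Y} (h : Ar.Co l ν μ (fun _ => id) fun _ => id) : S.AO l ν ⥤ S.AO l μ :=
  desc (AS.inc S h) fun _ _ k => k

instance {μ : Ar G Y} (h : Ar.Co l ν μ (fun _ => id) fun _ => id) : (inc S h).Additive :=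
  inferInstanceAs (desc _ _).Additive

end AO

variable (S l ν)

/-- Every object is stably diagonal. -/
def SF : Prop := ∀ X : S.AS l ν, ∃ D E : S.AS l ν, D.Dg ∧ E.Dg ∧
  Nonempty ((AO.π S l ν).obj X ⊞ (AO.π S l ν).obj D ≅ (AO.π S l ν).obj E)

variable [HasZeroObject C]

/-- The ambient category of controlled families. -/
def au : Gr.Am.{v, max u y} := Gr.Am.of (S.AS l ν)

/-- The ambient category of the asymptotic category. -/
def ao : Gr.Am.{v, max u y} := Gr.Am.of (S.AO l ν)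

/-- All K-groups of the asymptotic category vanish. -/
def ZO : Prop := Gr.Am.Z (S.ao l ν).bdd

/-- One component. -/
noncomputable def evm (j : J) : Gr.Am.Map (S.au l ν) S.top := Gr.Am.ofOf (AS.ev S l ν j)

variable {l ν}

/-- Moving the locations. -/
noncomputable def pu (φ : ∀ j, Y j → Y' j) (h : Ar.Co l ν ν' φ φ) :
    Gr.Am.Map (S.au l ν) (S.au l ν') := Gr.Am.ofOf (AS.push S φ h)

/-- Moving the locations. -/
noncomputable def po (φ : ∀ j, Y j → Y' j) (h : Ar.Co l ν ν' φ φ) :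
    Gr.Am.Map (S.ao l ν) (S.ao l ν') := Gr.Am.ofOf (AO.push S φ h)

end GC

end Pool.Agent.Lib.MP_5d3e93_al
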