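import Pool.Agent.Lib.MP_5d3e93_al.K.TwoA

/-! The class of a natural automorphism. -/

open CategoryTheory Limits Pretriangulated ZeroObject

namespace Pool.Agent.Lib.MP_5d3e93_al.Gr

universe v u v' u' v'' u''

section Alg
variable {C : Type*} [Category* C] [Preadditive C] {X Y M : C} {i₁ : X ⟶ M} {p₁ : M ⟶ X}
  {i₂ : Y ⟶ M} {p₂ : M ⟶ Y}

theorem cls_orth (e₁ : i₁ ≫ p₁ = 𝟙 _) (e₂ : i₂ ≫ p₂ = 𝟙 _) (e : p₁ ≫ i₁ + p₂ ≫ i₂ = 𝟙 _) :
    i₁ ≫ p₂ = 0 := by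
  have := congrArg (i₁ ≫ · ≫ p₂) e
  simpa [Preadditive.add_comp, Preadditive.comp_add, reassoc_of% e₁, e₂] using this

theorem cls_diag (e₁ : i₁ ≫ p₁ = 𝟙 _) (e₂ : i₂ ≫ p₂ = 𝟙 _) (e : p₁ ≫ i₁ + p₂ ≫ i₂ = 𝟙 _)
    (s : X ⟶ X) (t : Y ⟶ Y) [IsIso s] [IsIso t] : IsIso (p₁ ≫ s ≫ i₁ + p₂ ≫ t ≫ i₂) := by
  have z := cls_orth e₁ e₂ e
  have z' := cls_orth e₂ e₁ ((add_comm _ _).trans e)
  refine ⟨p₁ ≫ inv s ≫ i₁ + p₂ ≫ inv t ≫ i₂, ?_, ?_⟩ <;>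
    simpa [Preadditive.add_comp, Preadditive.comp_add, reassoc_of% e₁, reassoc_of% e₂,
      reassoc_of% z, reassoc_of% z'] using e

theorem cls_unip (z : i₂ ≫ p₁ = 0) (x : X ⟶ Y) : IsIso (𝟙 M + p₁ ≫ x ≫ i₂) := by
  refine ⟨𝟙 M - p₁ ≫ x ≫ i₂, ?_, ?_⟩ <;>
    simp [Preadditive.add_comp, Preadditive.comp_add, Preadditive.sub_comp, Preadditive.comp_sub,
      reassoc_of% z]

theorem cls_s1 (h : IsZero Y) (p : X ⟶ Y) :
    ∃ r s, 𝟙 X ≫ r = 𝟙 _ ∧ s ≫ p = 𝟙 _ ∧ r ≫ 𝟙 X + p ≫ s = 𝟙 _ :=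
  ⟨𝟙 _, 0, by simp, h.eq_of_src _ _, by simp⟩

theorem cls_s2 (h : IsZero Y) (i : Y ⟶ X) :
    ∃ r s, i ≫ r = 𝟙 _ ∧ s ≫ 𝟙 X = 𝟙 _ ∧ r ≫ i + 𝟙 X ≫ s = 𝟙 _ :=
  ⟨0, 𝟙 _, h.eq_of_src _ _, by simp, by simp⟩

end Alg

namespace Am

variable {a : Am.{v, u}} {b : Am.{v', u'}} {c : Am.{v'', u''}}
variable {S : ObjectProperty a.D} {S' : ObjectProperty b.D} {S'' : ObjectProperty c.D}

theorem cls_sum (f g : Map a b) : ∃ (m : Map a b) (i₁ : f.F ⟶ m.F) (p₁ : m.F ⟶ f.F)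
    (i₂ : g.F ⟶ m.F) (p₂ : m.F ⟶ g.F),
      i₁ ≫ p₁ = 𝟙 _ ∧ i₂ ≫ p₂ = 𝟙 _ ∧ p₁ ≫ i₁ + p₂ ≫ i₂ = 𝟙 _ :=
  ⟨f.sum g, f.inl g, f.fst g, f.inr g, f.snd g, NatTrans.ext (funext fun _ => biprod.inl_fst),
    NatTrans.ext (funext fun _ => biprod.inr_snd), NatTrans.ext (funext fun _ => biprod.total)⟩

theorem cls_split {f₁ f f₂ : Map a b} {i₁ : f₁.F ⟶ f.F} {p₁ : f.F ⟶ f₁.F} {i₂ : f₂.F ⟶ f.F}
    {p₂ : f.F ⟶ f₂.F} (e₁ : i₁ ≫ p₁ = 𝟙 _) (e₂ : i₂ ≫ p₂ = 𝟙 _) (e : p₁ ≫ i₁ + p₂ ≫ i₂ = 𝟙 _)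
    (S : ObjectProperty a.D) : Ses i₁ p₂ (cls_orth e₁ e₂ e) S :=
  ses_of_split (fun X => ⟨p₁.app X, i₂.app X, NatTrans.congr_app e₁ X, NatTrans.congr_app e₂ X,
    NatTrans.congr_app e X⟩) S

theorem Ses.cls_mid [Tg S'] {f₁ f f₂ : Map a b} {i : f₁.F ⟶ f.F} {p : f.F ⟶ f₂.F} {z}
    (k : Ses i p z S) (h₁ : S ≤ S'.inverseImage f₁.D) (h₂ : S ≤ S'.inverseImage f₂.D) :
    S ≤ S'.inverseImage f.D := fun X hX => by
  obtain ⟨δ, hT⟩ := k.tri hX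
  exact S'.ext_of_isTriangulatedClosed₂ _ hT (h₁ X hX) (h₂ X hX)

/-- A natural transformation of functors to binary complexes from its components. -/
def Map.mkB (P Q : Map a b.B) (φ : ∀ j, (P.comp (b.ev j)).F ⟶ (Q.comp (b.ev j)).F)
    (h : ∀ e j X, (φ (j + 1)).app X ≫ Bin.d (Q.F.obj X) e j =
      Bin.d (P.F.obj X) e j ≫ (φ j).app X) : P.F ⟶ Q.F where
  app X := Bin.homMk (fun j => (φ j).app X) fun e j => h e j X
  naturality _ _ ψ := Bin.hom_ext fun j => (φ j).naturality ψ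

theorem cls_zero (b : Am.{v', u'}) (n : ℕ) : IsZero (Bin.X (0 : Bin b.A) n) :=
  (Bin.ev b.A n).map_isZero (isZero_zero _)

/-- A complex of length two. -/
noncomputable def Map.three {f m g : Map a b} (d : Bool → (f.F ⟶ m.F)) (δ : Bool → (m.F ⟶ g.F))
    (z : ∀ c, d c ≫ δ c = 0) : Map a b.B :=
  (f.two m d).cons g δ fun c X =>
    show (d c).app X ≫ (δ c).app X = 0 from NatTrans.congr_app (z c) X

/-- A complex of length two whose middle term splits. -/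
theorem cls_three {f m g A B : Map a b} {d : Bool → (f.F ⟶ m.F)} {δ : Bool → (m.F ⟶ g.F)}
    (z : ∀ c, d c ≫ δ c = 0)
    {i : A.F ⟶ m.F} {r : m.F ⟶ A.F} {s : B.F ⟶ m.F} {p : m.F ⟶ B.F} (e₁ : i ≫ r = 𝟙 _)
    (e₂ : s ≫ p = 𝟙 _) (e : r ≫ i + p ≫ s = 𝟙 _) {β : Bool → (A.F ⟶ g.F)}
    {α : Bool → (f.F ⟶ B.F)} (hβ : ∀ c, i ≫ δ c = β c) (hα : ∀ c, d c ≫ p = α c)
    (S : ObjectProperty a.D) : ∃ i' p' w, Ses (f₁ := A.two g β) (f := Map.three d δ z)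
      (f₂ := (f.two B α).comp b.sh) i' p' w S := by
  have o := isZero_zero b.A
  have o' := b.cls_zero
  refine ⟨Map.mkB _ _ (fun | 0 => 𝟙 g.F | 1 => i | _ + 2 => 0) fun c j X => ?_,
    Map.mkB _ _ (fun | 0 => 0 | 1 => p | 2 => 𝟙 f.F | _ + 3 => 0) fun c j X => ?_, ?_, ?_⟩
  · match j with
    | 0 => exact (NatTrans.congr_app (hβ c) X).trans (Category.comp_id _).symm
    | j + 1 => exact (o' j).eq_of_src _ _
  · match j with
    | 0 => exact o.eq_of_tgt _ _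
    | 1 => exact (Category.id_comp _).trans (NatTrans.congr_app (hα c) X).symm
    | j + 2 => exact (o' j).eq_of_src _ _
  · refine NatTrans.ext (funext fun X => Bin.hom_ext fun j => ?_)
    match j with
    | 0 => exact o.eq_of_tgt _ _
    | 1 => exact NatTrans.congr_app (cls_orth e₁ e₂ e) X
    | j + 2 => exact (o' j).eq_of_src _ _
  · refine ses_of_reflect b.ev b.B.le_Tb (fun j X => ?_) S
    match j with
    | 0 => exact cls_s1 (X := g.F.obj X) o _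
    | 1 => exact ⟨r.app X, s.app X, NatTrans.congr_app e₁ X, NatTrans.congr_app e₂ X,
        NatTrans.congr_app e X⟩
    | 2 => exact cls_s2 (X := f.F.obj X) (o' 0) _
    | j + 3 =>
      exact ⟨0, 0, (o' (j + 1)).eq_of_src _ _, (o' j).eq_of_src _ _, (o' j).eq_of_src _ _⟩

theorem cls_comp {f : Map a b} {g : Map b c} (h : S ≤ S'.inverseImage f.D)
    (k : S' ≤ S''.inverseImage g.D) : S ≤ S''.inverseImage (f.comp g).D :=
  fun X hX => k (f.D.obj X) (h X hX)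

theorem cls_congr (n : ℕ) {f g : Map a b} {α α' : Bool → (f.F ⟶ g.F)} (e : ∀ c, α c = α' c)
    {T : ObjectProperty b.B.D} (h : S ≤ T.inverseImage (f.two g α).D)
    (k : S ≤ T.inverseImage (f.two g α').D) : Kmap n _ h = Kmap n _ k := by
  obtain rfl := funext e
  rfl

theorem cls_congr' {f g : Map a b} {α α' : Bool → (f.F ⟶ g.F)} (e : ∀ c, α c = α' c)
    {T : ObjectProperty b.B.D} (h : S ≤ T.inverseImage (f.two g α).D) :
    S ≤ T.inverseImage (f.two g α').D := funext e ▸ h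

section Cls
/-- A natural endomorphism that is invertible on `S`. -/
structure Map.Au (f : Map a b) (u : f.F ⟶ f.F) (S : ObjectProperty a.D)
    (S' : ObjectProperty b.D) : Prop where
  maps : S ≤ S'.inverseImage f.D
  iso : ∀ X, S X → IsIso ((f.nat f u).app X)
variable {f g : Map a b} {u u' : f.F ⟶ f.F} {w : g.F ⟶ g.F}
theorem Map.Au.of_iso [IsIso u] (h : S ≤ S'.inverseImage f.D) : f.Au u S S' :=
  ⟨h, fun X _ => ((f.natIso f (asIso u)).app X).isIso_hom⟩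
theorem Map.Au.one (h : S ≤ S'.inverseImage f.D) : f.Au (𝟙 _) S S' := .of_iso h
theorem Map.Au.mul (h : f.Au u S S') (k : f.Au u' S S') : f.Au (u ≫ u') S S' :=
  ⟨h.maps, fun X hX => by
    have := h.iso X hX
    have := k.iso X hX
    rw [Map.nat_comp f f f, NatTrans.comp_app]
    infer_instance⟩
theorem Map.Au.post (h : f.Au u S S') (k : Map b c) (l : S' ≤ S''.inverseImage k.D) :
    (f.comp k).Au (Functor.whiskerRight u k.F) S S'' :=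
  ⟨cls_comp h.maps l, fun X hX => by
    have := h.iso X hX
    rw [← Map.map_nat]
    exact Functor.map_isIso k.D _⟩
theorem Map.Au.pre {k : Map b c} {t : k.F ⟶ k.F} (h : k.Au t S' S'') (f : Map a b)
    (l : S ≤ S'.inverseImage f.D) : (f.comp k).Au (Functor.whiskerLeft f.F t) S S'' :=
  ⟨cls_comp l h.maps, fun X hX => by
    rw [← Map.nat_obj]
    exact h.iso _ (l X hX)⟩
theorem Map.Au.V [Tg S'] (h : f.Au u S S') :
    S ≤ (V S').inverseImage (f.two f fun e => cond e (𝟙 _) u).D :=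
  V_two _ h.maps fun
    | true => (Map.Au.one h.maps).iso
    | false => h.iso
variable [Tg S'] (n : ℕ)
/-- The class of a natural automorphism, one degree up. -/
noncomputable def cls (h : f.Au u S S') : Kn n a S →+ Kn (n + 1) b S' :=
  Kmap n _ h.V - Kmap n _ (Map.Au.one h.maps).V
/-- The square: both ways of cutting the total complex. -/
theorem two_square {f₁ f₀ g₁ g₀ : Map a b} (α : Bool → (f₁.F ⟶ f₀.F)) (β : Bool → (g₁.F ⟶ g₀.F))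
    (l : Bool → (f₁.F ⟶ g₁.F)) (r : Bool → (f₀.F ⟶ g₀.F)) (e : ∀ c, α c ≫ r c = l c ≫ β c)
    (hα : S ≤ (V S').inverseImage (f₁.two f₀ α).D) (hβ : S ≤ (V S').inverseImage (g₁.two g₀ β).D)
    (hl : S ≤ (V S').inverseImage (f₁.two g₁ l).D) (hr : S ≤ (V S').inverseImage (f₀.two g₀ r).D)
    (x : Kn n a S) : Kmap n _ hβ x + Kmap n b.sh V_sh (Kmap n _ hα x) =
      Kmap n _ hr x + Kmap n b.sh V_sh (Kmap n _ hl x) := by
  obtain ⟨m, i₁, p₁, i₂, p₂, e₁, e₂, t⟩ := cls_sum f₀ g₁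
  have z := cls_orth e₁ e₂ t
  have t' := (add_comm _ _).trans t
  have z' := cls_orth e₂ e₁ t'
  have dd : ∀ c, (α c ≫ i₁ - l c ≫ i₂) ≫ (p₁ ≫ r c + p₂ ≫ β c) = 0 := fun c => by
    simp [Preadditive.sub_comp, Preadditive.comp_add, reassoc_of% e₁, reassoc_of% e₂,
      reassoc_of% z, reassoc_of% z', e c]
  obtain ⟨_, _, _, k₁⟩ := cls_three dd e₂ e₁ t'
    (β := β) (α := α) (fun c => by simp [Preadditive.comp_add, reassoc_of% e₂, reassoc_of% z'])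
    (fun c => by simp [Preadditive.sub_comp, e₁, z']) S
  obtain ⟨_, _, _, k₂⟩ := cls_three dd (s := -i₂)
    (p := -p₂) e₁ (by simpa using e₂) (by simpa using t) (β := r) (α := l)
    (fun c => by simp [Preadditive.comp_add, reassoc_of% e₁, reassoc_of% z])
    (fun c => by simp [Preadditive.sub_comp, e₂, z]) S
  have s₁ := cls_comp hα V_sh
  have s₂ := cls_comp hl V_sh
  rw [← Kmap_comp n _ _ hα V_sh s₁, ← Kmap_comp n _ _ hl V_sh s₂, ← AddMonoidHom.add_apply,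
    ← AddMonoidHom.add_apply, ← Kmap_add n k₁ hβ (k₁.cls_mid hβ s₁) s₁,
    ← Kmap_add n k₂ hr (k₁.cls_mid hβ s₁) s₂]
theorem cls_one (h : f.Au (𝟙 _) S S') : cls n h = 0 := sub_self _
theorem cls_mul (h : f.Au u S S') (k : f.Au u' S S') (l : f.Au (u ≫ u') S S') :
    cls n l = cls n h + cls n k := by
  have o := (Map.Au.one h.maps).V
  refine AddMonoidHom.ext fun x => ?_
  have e₁ := two_square n _ _ _ _ (by rintro (_ | _) <;> simp) h.V l.V o k.V x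
  have e₂ := two_square n _ _ _ _ (by rintro (_ | _) <;> simp) h.V h.V o o x
  change Kmap n _ l.V x - Kmap n _ o x =
    (Kmap n _ h.V x - Kmap n _ o x) + (Kmap n _ k.V x - Kmap n _ o x)
  rw [eq_sub_of_add_eq e₁, eq_sub_of_add_eq' e₂]
  abel
theorem cls_conj (h : f.Au u S S') (k : g.Au w S S') (φ : f.F ⟶ g.F) (e : u ≫ φ = φ ≫ w)
    (hφ : ∀ X, S X → IsIso ((f.nat g φ).app X)) : cls n h = cls n k :=
  congrArg₂ (· - ·)
    (Kmap_weq n _ _ (Map.twoNat φ φ (by rintro (_ | _) <;> simp [e]))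
      (fun X hX => isIso_twoNat _ _ _ X (hφ X hX) (hφ X hX)) h.V k.V)
    (Kmap_weq n _ _ (Map.twoNat φ φ (by rintro (_ | _) <;> simp))
      (fun X hX => isIso_twoNat _ _ _ X (hφ X hX) (hφ X hX)) (Map.Au.one h.maps).V
      (Map.Au.one k.maps).V)
theorem cls_ses {f₁ f₂ : Map a b} {u₁ : f₁.F ⟶ f₁.F} {u₂ : f₂.F ⟶ f₂.F} {i : f₁.F ⟶ f.F}
    {p : f.F ⟶ f₂.F} {z} (k : Ses i p z S) (h₁ : f₁.Au u₁ S S') (h : f.Au u S S')
    (h₂ : f₂.Au u₂ S S') (e₁ : u₁ ≫ i = i ≫ u) (e₂ : u ≫ p = p ≫ u₂) :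
    cls n h = cls n h₁ + cls n h₂ := by
  have key : ∀ {u₁ u u₂} (h₁ : f₁.Au u₁ S S') (h : f.Au u S S') (h₂ : f₂.Au u₂ S S'),
      u₁ ≫ i = i ≫ u → u ≫ p = p ≫ u₂ →
        Kmap n _ h.V = Kmap n _ h₁.V + Kmap n _ h₂.V := fun {u₁ u u₂} h₁ h h₂ e₁ e₂ => by
    obtain ⟨_, t⟩ := ses_two (α₁ := fun e => cond e (𝟙 _) u₁) (α := fun e => cond e (𝟙 _) u)
      (α₂ := fun e => cond e (𝟙 _) u₂) k k (by rintro (_ | _) <;> simp [e₁])
      (by rintro (_ | _) <;> simp [e₂])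
    exact Kmap_add n t _ _ _
  exact (congrArg₂ (· - ·) (key h₁ h h₂ e₁ e₂) (key (.one h₁.maps) (.one h.maps) (.one h₂.maps)
    (by simp) (by simp))).trans (add_sub_add_comm ..)
omit [Tg S'] in
theorem two_post (α : Bool → (f.F ⟶ g.F)) (k : Map b c) : Nonempty (((f.two g α).comp k.B).F ≅
    ((f.comp k).two (g.comp k) fun e => Functor.whiskerRight (α e) k.F).F) :=
  ((f.two g α).comp k.B).iso_two fun _ _ => k.F.map_isZero (b.cls_zero _)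
theorem cls_postK [Tg S''] (h : f.Au u S S') (k : Map b c) (l : S' ≤ S''.inverseImage k.D)
    {t} (m : (f.comp k).Au t S S'') (e : Functor.whiskerRight u k.F = t) (x : Kn n a S) :
    Kmap n _ m.V x = Kmap n k.B (k.V_map l) (Kmap n _ h.V x) := by
  have e' : ∀ c, (cond c (𝟙 _) t : (f.comp k).F ⟶ (f.comp k).F) =
      Functor.whiskerRight (cond c (𝟙 _) u) k.F := by
    rintro (_ | _)
    · exact e.symm
    · exact (Functor.whiskerRight_id' k.F).symm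
  rw [← Kmap_comp n _ _ h.V (k.V_map l) (cls_comp h.V (k.V_map l)),
    Kmap_iso n _ _ (two_post _ k).some _ (cls_congr' e' m.V), cls_congr n e' m.V]
theorem cls_post [Tg S''] (h : f.Au u S S') (k : Map b c) (l : S' ≤ S''.inverseImage k.D)
    (x : Kn n a S) : cls n (h.post k l) x = Kmap (n + 1) k l (cls n h x) :=
  (congrArg₂ (· - ·) (cls_postK n h k l (h.post k l) rfl x) (cls_postK n (.one h.maps) k l
    (.one (h.post k l).maps) (Functor.whiskerRight_id' k.F) x)).trans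
      (map_sub (Kmap n k.B (k.V_map l)) _ _).symm
omit [Tg S'] in
theorem cls_preK [Tg S''] {k : Map b c} {t : k.F ⟶ k.F} (h : k.Au t S' S'') (f : Map a b)
    (l : S ≤ S'.inverseImage f.D) (x : Kn n a S) :
    Kmap n _ (h.pre f l).V x = Kmap n _ h.V (Kmap n f l x) := by
  have e' : ∀ c, (cond c (𝟙 _) (Functor.whiskerLeft f.F t) : (f.comp k).F ⟶ (f.comp k).F) =
      Functor.whiskerLeft f.F (cond c (𝟙 _) t) := by
    rintro (_ | _) <;> rfl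
  rw [← Kmap_comp n _ _ l h.V (cls_comp l h.V),
    cls_congr n e' _ (cls_congr' e' (h.pre f l).V)]
  rfl
omit [Tg S'] in
theorem cls_pre [Tg S''] {k : Map b c} {t : k.F ⟶ k.F} (h : k.Au t S' S'') (f : Map a b)
    (l : S ≤ S'.inverseImage f.D) (x : Kn n a S) :
    cls n (h.pre f l) x = cls n h (Kmap n f l x) :=
  congrArg₂ (· - ·) (cls_preK n h f l x) (cls_preK n (.one h.maps) f l x)
theorem cls_of_Z (z : Z S') (h : f.Au u S S') : cls n h = 0 :=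
  AddMonoidHom.ext fun _ => (z (n + 1)).elim _ _
/-- Block triangular automorphisms: `f` is a natural direct sum, `u` keeps the first summand. -/
theorem cls_block {f₁ f₂ : Map a b} (i₁ : f₁.F ⟶ f.F) (p₁ : f.F ⟶ f₁.F) (i₂ : f₂.F ⟶ f.F)
    (p₂ : f.F ⟶ f₂.F) (e₁ : i₁ ≫ p₁ = 𝟙 _) (e₂ : i₂ ≫ p₂ = 𝟙 _) (e : p₁ ≫ i₁ + p₂ ≫ i₂ = 𝟙 _)
    (z : i₁ ≫ u ≫ p₂ = 0) (h : f.Au u S S') (h₁ : f₁.Au (i₁ ≫ u ≫ p₁) S S')
    (h₂ : f₂.Au (i₂ ≫ u ≫ p₂) S S') : cls n h = cls n h₁ + cls n h₂ := by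
  refine cls_ses n (cls_split e₁ e₂ e S) h₁ h h₂ ?_ ?_
  · simpa [Preadditive.comp_add, reassoc_of% z] using congrArg (i₁ ≫ u ≫ ·) e
  · simpa [Preadditive.add_comp, z] using (congrArg (· ≫ u ≫ p₂) e).symm
theorem Map.Au.diag {f₁ f₂ : Map a b} {i₁ : f₁.F ⟶ f.F} {p₁ : f.F ⟶ f₁.F} {i₂ : f₂.F ⟶ f.F}
    {p₂ : f.F ⟶ f₂.F} (e₁ : i₁ ≫ p₁ = 𝟙 _) (e₂ : i₂ ≫ p₂ = 𝟙 _) (e : p₁ ≫ i₁ + p₂ ≫ i₂ = 𝟙 _)
    {u₁ u₂} (h₁ : f₁.Au u₁ S S') (h₂ : f₂.Au u₂ S S') :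
    ∃ h : f.Au (p₁ ≫ u₁ ≫ i₁ + p₂ ≫ u₂ ≫ i₂) S S', cls n h = cls n h₁ + cls n h₂ := by
  have z := cls_orth e₁ e₂ e
  have z' := cls_orth e₂ e₁ ((add_comm _ _).trans e)
  refine ⟨⟨(cls_split e₁ e₂ e S).cls_mid h₁.maps h₂.maps, fun X hX => ?_⟩,
    cls_ses n (cls_split e₁ e₂ e S) h₁ _ h₂
      (by simp [Preadditive.comp_add, reassoc_of% e₁, reassoc_of% z])
      (by simp [Preadditive.add_comp, e₂, z])⟩
  have := h₁.iso X hX
  have := h₂.iso X hX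
  rw [Map.nat_add, Map.nat_comp f f₁ f, Map.nat_comp f₁ f₁ f, Map.nat_comp f f₂ f,
    Map.nat_comp f₂ f₂ f]
  refine cls_diag (i₁ := (f₁.nat f i₁).app X) (p₁ := (f.nat f₁ p₁).app X)
    (i₂ := (f₂.nat f i₂).app X) (p₂ := (f.nat f₂ p₂).app X) ?_ ?_ ?_ _ _
  · rw [← NatTrans.comp_app, ← Map.nat_comp, e₁, Map.nat_id, NatTrans.id_app]
  · rw [← NatTrans.comp_app, ← Map.nat_comp, e₂, Map.nat_id, NatTrans.id_app]
  · rw [← NatTrans.comp_app, ← NatTrans.comp_app, ← Map.nat_comp, ← Map.nat_comp,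
      ← NatTrans.app_add, ← Map.nat_add, e, Map.nat_id, NatTrans.id_app]
/-- On `f.sum g`: two factorisations of the matrix `(1, x; y, 1)`. -/
theorem cls_cyc (x : f.F ⟶ g.F) (y : g.F ⟶ f.F) (h : f.Au (𝟙 _ - x ≫ y) S S')
    (k : g.Au (𝟙 _ - y ≫ x) S S') : cls n h = cls n k := by
  obtain ⟨m, i₁, p₁, i₂, p₂, e₁, e₂, t⟩ := cls_sum f g
  have z := cls_orth e₁ e₂ t
  have z' := cls_orth e₂ e₁ ((add_comm _ _).trans t)
  obtain ⟨d₁, c₁⟩ := Map.Au.diag n e₁ e₂ t h (.one k.maps)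
  obtain ⟨d₂, c₂⟩ := Map.Au.diag n e₁ e₂ t (.one h.maps) k
  have := cls_unip z' x
  have := cls_unip z y
  have ux : m.Au (𝟙 _ + p₁ ≫ x ≫ i₂) S S' := .of_iso d₁.maps
  have uy : m.Au (𝟙 _ + p₂ ≫ y ≫ i₁) S S' := .of_iso d₁.maps
  have e : (𝟙 _ + p₁ ≫ x ≫ i₂) ≫ (p₁ ≫ (𝟙 _ - x ≫ y) ≫ i₁ + p₂ ≫ 𝟙 _ ≫ i₂) ≫
      (𝟙 _ + p₂ ≫ y ≫ i₁) = (𝟙 _ + p₂ ≫ y ≫ i₁) ≫
        (p₁ ≫ 𝟙 _ ≫ i₁ + p₂ ≫ (𝟙 _ - y ≫ x) ≫ i₂) ≫ (𝟙 _ + p₁ ≫ x ≫ i₂) := by
    simp only [Preadditive.add_comp, Preadditive.comp_add, Preadditive.sub_comp,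
      Preadditive.comp_sub, Category.assoc, Category.id_comp, Category.comp_id, reassoc_of% e₁,
      reassoc_of% e₂, reassoc_of% z, reassoc_of% z', zero_comp, comp_zero]
    abel
  have c : cls n (ux.mul (d₁.mul uy)) = cls n (uy.mul (d₂.mul ux)) :=
    cls_conj n _ _ (𝟙 _) (by rw [e]; simp) (Map.Au.one d₁.maps).iso
  rw [cls_mul n ux (d₁.mul uy), cls_mul n uy (d₂.mul ux), cls_mul n d₁ uy, cls_mul n d₂ ux, c₁, c₂,
    cls_one, cls_one, add_zero, zero_add] at c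
  refine add_left_cancel (a := cls n ux + cls n uy) ?_
  calc _ = cls n ux + (cls n h + cls n uy) := by abel
    _ = cls n uy + (cls n k + cls n ux) := c
    _ = _ := by abel
/-- A pair of isomorphisms against the class of their quotient. -/
theorem two_eq_cls (α : Bool → (f.F ⟶ g.F)) (h : f.Au u S S') (e : α false = u ≫ α true)
    (k : ∀ X, S X → IsIso ((f.nat g (α true)).app X))
    (l : S ≤ (V S').inverseImage (f.two g α).D) (x : Kn n a S) :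
    Kmap n _ l x - Kmap n _ (Map.Au.one h.maps).V x = cls n h x := by
  rw [← Kmap_weq n _ _ (Map.twoNat (𝟙 _) (α true) (by rintro (_ | _) <;> simp [e]))
    (fun X hX => isIso_twoNat _ _ _ X ((Map.Au.one h.maps).iso X hX) (k X hX)) h.V l]
  rfl
/-- The diagonal complex of a map that factors through a category without K-theory. -/
theorem two_one_null [Tg S''] (z : Z S') (f : Map a b) (k : Map b c) (h : S ≤ S'.inverseImage f.D)
    (l : S' ≤ S''.inverseImage k.D) (m : (f.comp k).Au (𝟙 _) S S'') : Kmap n _ m.V = 0 :=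
  AddMonoidHom.ext fun x => by
    rw [cls_postK n (.one h) k l m (Functor.whiskerRight_id' k.F) x,
      (z.V n).elim (Kmap n _ (Map.Au.one h).V x) 0, map_zero]
    rfl
end Cls

end Am

end Pool.Agent.Lib.MP_5d3e93_al.Gr
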