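import Pool.Agent.Lib.MP_5d3e93_al.K.Gd
import Pool.Agent.Lib.MP_5d3e93_al.K.Cls

/-! The calculus of natural automorphisms with trivial class. -/

open CategoryTheory Limits ZeroObject MulAction

namespace Pool.Agent.Lib.MP_5d3e93_al

universe w v u y y' v' u' v'' u''

namespace Gr

section Add

variable {D : Type u} [Category.{v} D] [Preadditive D]

theorem tr_cyc {A B : D} (x : A ⟶ B) (y : B ⟶ A) (h : IsIso (𝟙 B - y ≫ x)) :
    IsIso (𝟙 A - x ≫ y) := by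
  obtain ⟨w, h1, h2⟩ := h.out
  have a := congrArg (fun k => x ≫ k ≫ y) h1
  have b := congrArg (fun k => x ≫ k ≫ y) h2
  refine ⟨𝟙 A + x ≫ w ≫ y, ?_, ?_⟩
  · simp only [Preadditive.sub_comp, Preadditive.comp_sub, Preadditive.comp_add, Category.assoc,
      Category.id_comp, Category.comp_id] at a ⊢
    rw [a, sub_add_cancel]
  · simp only [Preadditive.sub_comp, Preadditive.comp_sub, Preadditive.add_comp, Category.assoc,
      Category.id_comp, Category.comp_id] at b ⊢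
    rw [← sub_eq_zero, ← sub_eq_zero.2 b]
    abel

theorem tr_zero {X Y Z : D} {i : X ⟶ Y} {p : Y ⟶ Z} {r s} (h1 : i ≫ r = 𝟙 _) (h2 : s ≫ p = 𝟙 _)
    (h3 : r ≫ i + p ≫ s = 𝟙 _) : i ≫ p = 0 := by
  simpa [reassoc_of% h1, h2] using congrArg (fun k => i ≫ k ≫ p) h3

theorem tr_five {X Y Z : D} {i : X ⟶ Y} {p : Y ⟶ Z} {r s} (h1 : i ≫ r = 𝟙 _) (h2 : s ≫ p = 𝟙 _)
    (h3 : r ≫ i + p ≫ s = 𝟙 _) {a : X ⟶ X} {t : Y ⟶ Y} {b : Z ⟶ Z} (e : i ≫ t = a ≫ i)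
    (e' : p ≫ b = t ≫ p) [IsIso a] [IsIso b] : IsIso t := by
  have z := tr_zero h1 h2 h3
  have k : t = r ≫ a ≫ i + p ≫ s ≫ t ≫ r ≫ i + p ≫ b ≫ s := by
    have l : s ≫ t = s ≫ t ≫ r ≫ i + b ≫ s := by
      rw [← Category.comp_id (s ≫ t), ← h3]
      simp [← reassoc_of% e', reassoc_of% h2]
    rw [add_assoc, ← Preadditive.comp_add, ← l, ← e, ← Category.assoc, ← Category.assoc,
      ← Preadditive.add_comp, h3, Category.id_comp]
  have z' : s ≫ r = 0 := by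
    simpa [reassoc_of% h2, h1] using congrArg (fun k => s ≫ k ≫ r) h3
  obtain ⟨c, hc⟩ : ∃ c, c = s ≫ t ≫ r := ⟨_, rfl⟩
  have k' : t = r ≫ a ≫ i + p ≫ c ≫ i + p ≫ b ≫ s := by simpa [hc] using k
  refine ⟨r ≫ inv a ≫ i + p ≫ inv b ≫ s - p ≫ inv b ≫ c ≫ inv a ≫ i, ?_, ?_⟩
  · rw [k', ← h3]
    simp [reassoc_of% h1, reassoc_of% h2, reassoc_of% z, reassoc_of% z']
    abel
  · rw [k', ← h3]
    simp [reassoc_of% h1, reassoc_of% h2, reassoc_of% z, reassoc_of% z']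

end Add

namespace Am

variable {a : Am.{v, u}} {b : Am.{v', u'}} {f : Map a b} {t : f.F ⟶ f.F}

theorem Tr.cls (h : Tr f t) (n : ℕ) (k : f.Au t a.bdd b.bdd) : cls n k = 0 :=
  sub_eq_zero.2 (h.2 n _ _)

theorem tr_of (i : IsIso t) (h : ∀ n (k : f.Au t a.bdd b.bdd), cls n k = 0) : Tr f t :=
  ⟨i, fun n _ _ => sub_eq_zero.1 (h n (.of_iso f.bdd_map))⟩

theorem Tr.au (h : Tr f t) : f.Au t a.bdd b.bdd :=
  have := h.1
  .of_iso f.bdd_map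

theorem Tr.post' {c : Am.{v'', u''}} (h : Tr f t) (k : Map b c) :
    Tr (f.comp k) (Functor.whiskerRight t k.F) :=
  have := h.1
  tr_of (inferInstanceAs (IsIso (Functor.whiskerRight t k.F))) fun n _ => AddMonoidHom.ext fun x =>
    (cls_post n h.au k k.bdd_map x).trans (by rw [h.cls n, AddMonoidHom.zero_apply, map_zero]; rfl)

theorem Tr.pre' {c : Am.{v'', u''}} (h : Tr f t) (g : Map c a) :
    Tr (g.comp f) (Functor.whiskerLeft g.F t) :=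
  have := h.1
  tr_of (inferInstanceAs (IsIso (Functor.whiskerLeft g.F t))) fun n _ => AddMonoidHom.ext fun x =>
    (cls_pre n h.au g g.bdd_map x).trans (by rw [h.cls n]; rfl)

theorem tr_surj {ι : Type*} (Y : ι → Am.{v'', u''}) (g : ∀ i, Map (Y i) a)
    (hg : ∀ n (x : Kn n a a.bdd), ∃ i y, Kmap n (g i) (g i).bdd_map y = x) (e : IsIso t)
    (h : ∀ i, Tr ((g i).comp f) (Functor.whiskerLeft (g i).F t)) : Tr f t :=
  tr_of e fun n k => AddMonoidHom.ext fun x => by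
    obtain ⟨i, y, rfl⟩ := hg n x
    rw [← cls_pre n k (g i) (g i).bdd_map y, (h i).cls n]
    rfl

theorem Tr.ses' {f₁ f₂ : Map a b} (α : f₁.F ⟶ f.F) (β : f.F ⟶ f₂.F) (k : ∀ A, ∃ r s,
      α.app A ≫ r = 𝟙 _ ∧ s ≫ β.app A = 𝟙 _ ∧ r ≫ α.app A + β.app A ≫ s = 𝟙 _) {t₁ : f₁.F ⟶ f₁.F}
    {t₂ : f₂.F ⟶ f₂.F} (h₁ : α ≫ t = t₁ ≫ α) (h₂ : β ≫ t₂ = t ≫ β) (k₁ : Tr f₁ t₁)
    (k₂ : Tr f₂ t₂) : Tr f t := by
  have := k₁.1
  have := k₂.1
  have z : α ≫ β = 0 := NatTrans.ext (funext fun A => by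
    obtain ⟨r, s, e1, e2, e3⟩ := k A
    exact tr_zero e1 e2 e3)
  have : ∀ A, IsIso (t.app A) := fun A => by
    obtain ⟨r, s, e1, e2, e3⟩ := k A
    exact tr_five e1 e2 e3 (NatTrans.congr_app h₁ A) (NatTrans.congr_app h₂ A)
  refine tr_of (NatIso.isIso_of_isIso_app t) fun n l => ?_
  rw [cls_ses n (ses_of_split (h := z) k _) k₁.au l k₂.au h₁.symm h₂.symm, k₁.cls n, k₂.cls n,
    add_zero]

theorem Tr.conj' {g : Map a b} (e : f.F ≅ g.F) {s : g.F ⟶ g.F} (h : e.hom ≫ s = t ≫ e.hom)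
    (k : Tr g s) : Tr f t := by
  have := k.1
  have i : IsIso t := by
    rw [show t = e.hom ≫ s ≫ e.inv by rw [reassoc_of% h, e.hom_inv_id, Category.comp_id]]
    infer_instance
  refine tr_of i fun n l => ?_
  rw [cls_conj n l k.au e.hom h.symm fun X _ => ((f.natIso g e).app X).isIso_hom, k.cls n]

theorem Tr.mul {s : f.F ⟶ f.F} (h : Tr f s) (k : Tr f t) : Tr f (s ≫ t) :=
  have := h.1
  have := k.1
  tr_of inferInstance fun n l => by rw [cls_mul n h.au k.au l, h.cls n, k.cls n, add_zero]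

theorem Tr.cyc' {g : Map a b} (x : f.F ⟶ g.F) (y : g.F ⟶ f.F) (h : Tr g (𝟙 _ - y ≫ x)) :
    Tr f (𝟙 _ - x ≫ y) :=
  tr_of (tr_cyc x y h.1) fun n l => by rw [cls_cyc n x y l h.au, h.cls n]

end Am

namespace Fn

variable {X : Am.{v, u}} {X' : Am.{v'', u''}} {B : Type (max u' v')} [Category.{v'} B]
  [Preadditive B] [HasZeroObject B] [HasBinaryBiproducts B]

theorem Tr.isIso {F : Fn X B} {t : F ⟶ F} (h : Tr.{v, u, v', u'} t) : IsIso t := ⟨h.1.out⟩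

theorem tr_id (F : Fn X B) : Tr.{v, u, v', u'} (𝟙 F) :=
  Am.tr_of (f := map.{v, u, v', u'} F) (t := 𝟙 _) inferInstance fun n k => Am.cls_one n k

theorem Tr.comp {F : Fn X B} {s t : F ⟶ F} (h : Tr.{v, u, v', u'} s) (k : Tr.{v, u, v', u'} t) :
    Tr.{v, u, v', u'} (s ≫ t) := Am.Tr.mul h k

theorem Tr.cyc {F F' : Fn X B} (x : F ⟶ F') (y : F' ⟶ F) (h : Tr.{v, u, v', u'} (𝟙 F' - y ≫ x)) :
    Tr.{v, u, v', u'} (𝟙 F - x ≫ y) :=
  Am.Tr.cyc' (f := map.{v, u, v', u'} F) (g := map.{v, u, v', u'} F') x y h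

variable (X B) in
/-- The calculus of nilpotent endomorphisms on functors. -/
def nt : Nt (Fn X B) := ⟨fun t => Tr.{v, u, v', u'} t, tr_id, Tr.comp, Tr.cyc⟩

theorem Tr.conj {F F' : Fn X B} (e : F ≅ F') {t : F ⟶ F} {s : F' ⟶ F'} (h : e.hom ≫ s = t ≫ e.hom)
    (k : Tr.{v, u, v', u'} s) : Tr.{v, u, v', u'} t :=
  Am.Tr.conj' (f := map.{v, u, v', u'} F) (g := map.{v, u, v', u'} F')
    ⟨e.hom, e.inv, e.hom_inv_id, e.inv_hom_id⟩ h k

/-- Sequences that split on every object; the middle map is then invertible. -/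
theorem Tr.ses {F₁ F F₂ : Fn X B} (α : F₁ ⟶ F) (β : F ⟶ F₂) (k : ∀ A, ∃ r s,
      NatTrans.app α A ≫ r = 𝟙 _ ∧ s ≫ NatTrans.app β A = 𝟙 _ ∧
      r ≫ NatTrans.app α A + NatTrans.app β A ≫ s = 𝟙 _) {t₁ : F₁ ⟶ F₁} {t : F ⟶ F} {t₂ : F₂ ⟶ F₂}
    (h₁ : α ≫ t = t₁ ≫ α) (h₂ : β ≫ t₂ = t ≫ β) (k₁ : Tr.{v, u, v', u'} t₁)
    (k₂ : Tr.{v, u, v', u'} t₂) : Tr.{v, u, v', u'} t :=
  Am.Tr.ses' (f := map.{v, u, v', u'} F) (f₁ := map.{v, u, v', u'} F₁) (f₂ := map.{v, u, v', u'} F₂)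
    α β k h₁ h₂ k₁ k₂

theorem tr_of_Z (z : Am.Z (Am.of.{v', u'} B).bdd) {F : Fn X B} (t : F ⟶ F) [IsIso t] :
    Tr.{v, u, v', u'} t :=
  Am.tr_of (f := map.{v, u, v', u'} F) ⟨IsIso.out (f := t)⟩ fun n k => Am.cls_of_Z n z k

theorem Tr.post {B' : Type (max u'' v'')} [Category.{v''} B'] [Preadditive B'] [HasZeroObject B']
    [HasBinaryBiproducts B'] (Φ : B ⥤ B') [Φ.Additive] {F : Fn X B} {t : F ⟶ F}
    (h : Tr.{v, u, v', u'} t) :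
    Tr.{v, u, v'', u''} (F := F.post Φ) (Functor.whiskerRight t Φ) :=
  Am.Tr.post' h (Am.ofOf.{v', u', v'', u''} Φ)

theorem Tr.pre (g : Am.Map X' X) {F : Fn X B} {t : F ⟶ F} (h : Tr.{v, u, v', u'} t) :
    Tr.{v'', u'', v', u'} (F := F.pre g) (Functor.whiskerLeft g.F t) := Am.Tr.pre' h g

theorem tr_of_surj {ι : Type*} (Y : ι → Am.{v'', u''}) (g : ∀ i, Am.Map (Y i) X)
    (hg : ∀ n (x : Am.Kn n X X.bdd), ∃ i y, Am.Kmap n (g i) (g i).bdd_map y = x) {F : Fn X B}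
    (t : F ⟶ F) [IsIso t]
    (h : ∀ i, Tr.{v'', u'', v', u'} (F := F.pre (g i)) (Functor.whiskerLeft (g i).F t)) :
    Tr.{v, u, v', u'} t :=
  Am.tr_surj (f := map.{v, u, v', u'} F) Y g hg ⟨IsIso.out (f := t)⟩ h

theorem isIso_unip {D : Type u} [Category.{v} D] [Preadditive D] {A : D} {x : A ⟶ A} {m : ℕ}
    (h : pw x m = 0) : IsIso (𝟙 A - x) :=
  ⟨_, (geom_left x m).trans (by rw [h, sub_zero]), (geom_right x m).trans (by rw [h, sub_zero])⟩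

end Fn

end Gr

end Pool.Agent.Lib.MP_5d3e93_al
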