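import Pool.Agent.Lib.MP_5d3e93_al.K.PushA
import Pool.Agent.Lib.MP_5d3e93_al.K.Tr

/-! Nil terms whose type is controlled or empty. -/

open CategoryTheory Limits

namespace Pool.Agent.Lib.MP_5d3e93_al

universe w v u

open Gr

namespace GC

open Lo

variable {G : Type w} [Group G] {C : Type u} [Category.{v} C] [Preadditive C] [HasZeroObject C]
variable {S : GC G C} {m : ℕ}

section Pushfile
variable {Y : Type w} {P : Rl G Y} {B : Y → G → Y → Prop}

theorem gm_of_zq (z : S.Zq P) (k : ∀ a g b, B a g b → P.r a g b) : S.Gm P B m := by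
  intro X _ F x hx hm
  have hx' : S.Ty F P.r x := fun A => (hx A).mono k
  have h0 : pw (pushLift F x hx') m = 0 :=
    NatTrans.ext (funext fun A => LQ.hom_ext (by rw [pushLift_pw, hm]; rfl))
  have := Fn.isIso_unip h0
  exact (Fn.tr_of_Z (B := S.LQ P) z (𝟙 F - pushLift F x hx')).post (LQ.U S P)

theorem gm_empty (k : ∀ a g b, ¬ B a g b) : S.Gm P B m := by
  intro X _ F x hx _
  have : x = 0 := NatTrans.ext (funext fun A => LQ.hom_ext ((hx A).eq_zero k))
  rw [this, sub_zero]
  exact Fn.tr_id _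

end Pushfile

end GC

end Pool.Agent.Lib.MP_5d3e93_al
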