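import Pool.Agent.Lib.MP_5d3e93_al.K.Tri
import Pool.Agent.Lib.MP_5d3e93_al.K.Push
import Pool.Agent.Lib.MP_5d3e93_al.K.Union
import Pool.Agent.Lib.MP_5d3e93_al.K.Ad

/-! Controlled categories of groupoids reduce to the vertex groups. -/

open CategoryTheory Limits ZeroObject MulAction

namespace Pool.Agent.Lib.MP_5d3e93_al

universe w v u y

open Gr

namespace GC

open Lo

variable {G : Type w} [Group G] {C : Type u} [Category.{v} C] [Preadditive C] [HasZeroObject C]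
variable {S : GC G C}

theorem diag_move {Z : Type y} {P : Rl G Z} (h : ∀ a g b, P.r a g b → P.r b g⁻¹ a) (a₀ : Z)
    {A : C} (L : S.Lo Z A) (t : Finset Z) (ht : ∀ x ∈ t, ∃ g, P.r x g a₀) :
    ∃ (B : C) (O : S.Lo Unit B) (u : A ⟶ B) (v : B ⟶ A), L.Rg O (fun x g _ => P.r x g a₀) u ∧
      O.Rg L (fun _ g x => P.r a₀ g x) v ∧ u ≫ v = ∑ x ∈ t, L.e x := by
  classical
  induction t using Finset.induction_on with
  | empty => exact ⟨A, .one S () A, 0, 0, .zero, .zero, by simp⟩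
  | insert x t hx ih =>
    obtain ⟨B, O, u, v, h1, h2, h3⟩ := ih fun y hy => ht y (Finset.mem_insert_of_mem hy)
    obtain ⟨g, hg⟩ := ht x (Finset.mem_insert_self x t)
    obtain ⟨D, i, r, k1, k2, k3, k4⟩ := (L.spl x).split hz_of
    obtain ⟨D', f, f', s1, s2, s3, -⟩ := S.shift D g
    have a : L.Rg (.one S () D') (fun x g _ => P.r x g a₀) (r ≫ f) := fun y z => by
      by_cases e : y = x
      · exact (rg_sup (Sup.one_comp k2.cp_eq (.of_cp (X := {g}) s1 rfl)) y z).mono fun k hk => by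
          rw [show k = g from hk, e]
          exact hg
      · have : L.e y ≫ r = 0 := by
          rw [← Category.comp_id r, ← k3, reassoc_of% k4, reassoc_of% L.orth y x e, zero_comp]
        rw [Category.assoc, reassoc_of% this, zero_comp]
        exact .zero
    have b : (Lo.one S () D').Rg L (fun _ g x => P.r a₀ g x) (f' ≫ i) := fun z y => by
      by_cases e : y = x
      · exact (rg_sup ((Sup.of_cp (X := {g⁻¹}) s2 rfl).comp_one k1.cp_eq) z y).mono fun k hk => by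
          rw [show k = g⁻¹ from hk, e]
          exact h _ _ _ hg
      · have : i ≫ L.e y = 0 := by
          rw [← Category.id_comp i, ← k3, Category.assoc, Category.assoc, reassoc_of% k4,
            L.orth x y (Ne.symm e), comp_zero]
        rw [Category.assoc, this, comp_zero, comp_zero]
        exact .zero
    refine ⟨S.sum B D', O.add (.one S () D'), u ≫ S.inl _ _ + (r ≫ f) ≫ S.inr _ _,
      S.fst _ _ ≫ v + S.snd _ _ ≫ f' ≫ i, (h1.comp_dg rg_inl).add (a.comp_dg rg_inr),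
      (rg_fst.dg_comp h2).add (rg_snd.dg_comp b), ?_⟩
    simp [Finset.sum_insert hx, h3, reassoc_of% s3, k4, add_comm]

theorem diag_conn {Z : Type y} {P : Rl G Z} (h : ∀ a g b, P.r a g b → P.r b g⁻¹ a) (a₀ : Z)
    (hc : ∀ a, P.r a 1 a → ∃ g, P.r a g a₀) {H : Subgroup G} (hH : ∀ g, g ∈ H ↔ P.r a₀ g a₀) :
    S.WK H ↔ S.Zq P := by
  classical
  let F := LQ.push S (P := Rl.pt H) (P' := P) (fun _ => a₀) fun _ g _ k => (hH g).1 k
  have o : ∀ M : S.LQ (Rl.pt H), (F.obj M).L.On (· = a₀) := fun M =>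
    M.L.on_true.map fun _ _ => rfl
  have : F.Faithful := ⟨fun e => LQ.hom_ext (congrArg (·.1) e)⟩
  have : F.Full := ⟨fun {M N} f => ⟨LQ.homMk f.1 (LQ.p_comp f) (LQ.comp_p f) (rg_sup
    (((LQ.hom_rg f).on (R' := fun _ g _ => g ∈ H) (o M) (o N) fun x g y a b k =>
      (hH g).2 (by rwa [a, b] at k)).sup (T := H) fun _ _ _ k => k)), rfl⟩⟩
  have : F.EssSurj := ⟨fun M => by
    obtain ⟨B, O, u, v, h1, h2, h3⟩ := diag_move h a₀ M.L (M.L.s.filter fun x => P.r x 1 x)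
      fun x hx => hc x (Finset.mem_filter.1 hx).2
    have e : M.p ≫ u ≫ v = M.p := by
      rw [h3, Preadditive.comp_sum, Finset.sum_filter_of_ne, M.L.sum_r]
      intro x _ k
      by_contra k'
      refine k (M.L.ext_l fun y => S.ext0 _ ?_ |>.trans comp_zero.symm)
      intro g
      refine M.rg y x g fun l => k' ?_
      simpa using P.trans (h _ _ _ l) l
    have a := M.rg.comp (R'' := fun x g _ => P.r x g a₀) h1 fun _ _ _ _ _ => P.trans
    have b := h2.comp (R'' := fun _ g x => P.r a₀ g x) M.rg fun _ _ _ _ _ => P.trans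
    have e1 : (v ≫ M.p ≫ u) ≫ v ≫ M.p = v ≫ M.p := by simp [reassoc_of% e]
    have e2 : (v ≫ M.p) ≫ M.p = v ≫ M.p := by simp
    have e3 : M.p ≫ M.p ≫ u = M.p ≫ u := by simp
    have e4 : (M.p ≫ u) ≫ v ≫ M.p ≫ u = M.p ≫ u := by simp [reassoc_of% e]
    have e5 : (v ≫ M.p) ≫ M.p ≫ u = v ≫ M.p ≫ u := by simp
    have e6 : (M.p ≫ u) ≫ v ≫ M.p = M.p := by simp [reassoc_of% e]
    let N : S.LQ (Rl.pt H) := ⟨B, O, v ≫ M.p ≫ u, by simp [reassoc_of% e],
      h2.comp a fun _ _ _ _ _ k l => (hH _).2 (P.trans k l)⟩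
    exact ⟨N, ⟨{
      hom := LQ.homMk (v ≫ M.p) e1 e2 (b.mapl fun _ _ _ k => k)
      inv := LQ.homMk (M.p ≫ u) e3 e4 (a.mapr fun _ _ _ k => k)
      hom_inv_id := LQ.hom_ext e5
      inv_hom_id := LQ.hom_ext e6 }⟩⟩⟩
  have : F.IsEquivalence := {}
  exact Am.Z_equiv.{v, u, v, max u y} F

theorem zq_diag {Z : Type y} {P : Rl G Z} (h : ∀ a g b, P.r a g b → P.r b g⁻¹ a)
    (z : ∀ a (H : Subgroup G), (∀ g, g ∈ H ↔ P.r a g a) → S.WK H) : S.Zq P := by
  classical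
  refine zq_union (ι := Finset Z) (fun s => P.res (· ∈ s))
    (fun i j l a g b k => ⟨k.1, l k.2.1, l k.2.2⟩) (fun i a g b k => k.1)
    (fun a g b k => ⟨{a, b}, k, by simp, by simp⟩) fun s => ?_
  let c : Z → Set Z := fun a => {b | ∃ g, P.r a g b}
  obtain ⟨f, hf⟩ := Set.countable_iff_exists_injOn.1 (s.finite_toSet.image c).countable
  have hc : ∀ a g b, P.r a g b → c a = c b := fun a g b k => Set.ext fun x =>
    ⟨fun ⟨_, l⟩ => ⟨_, P.trans (h _ _ _ k) l⟩, fun ⟨_, l⟩ => ⟨_, P.trans k l⟩⟩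
  refine zq_tri (fun a => (f (c a) : ℤ)) (fun a g b k => by rw [hc a g b k.1]) fun k => ?_
  by_cases e : ∃ a g b, ((P.res (· ∈ s)).res fun a => (f (c a) : ℤ) = k).r a g b
  · obtain ⟨a, g, b, e⟩ := e
    have a1 : P.r a 1 a := by simpa using P.trans e.1.1 (h _ _ _ e.1.1)
    let H : Subgroup G := ⟨⟨⟨{g | P.r a g a}, P.trans⟩, a1⟩, h _ _ _⟩
    refine (diag_conn (P := (P.res (· ∈ s)).res fun a => (f (c a) : ℤ) = k)
      (fun a g b l => ⟨⟨h _ _ _ l.1.1, l.1.2.2, l.1.2.1⟩, l.2.2, l.2.1⟩) a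
      (fun x l => ?_) (H := H) fun g => ⟨fun l => ⟨⟨l, e.1.2.1, e.1.2.1⟩, e.2.1, e.2.1⟩,
        fun l => l.1.1⟩).1 (z a H fun _ => Iff.rfl)
    have : c x = c a := hf ⟨x, l.1.2.1, rfl⟩ ⟨a, e.1.2.1, rfl⟩
      (Int.natCast_inj.1 (l.2.1.trans e.2.1.symm))
    obtain ⟨g, m⟩ : a ∈ c x := this ▸ ⟨1, a1⟩
    exact ⟨g, ⟨m, l.1.2.1, e.1.2.1⟩, l.2.1, e.2.1⟩
  · exact zq_empty fun a g b l => e ⟨a, g, b, l⟩

theorem zq_eq {Γ : Type*} [Group Γ] (q : G →* Γ) (Z : Type y) [MulAction Γ Z]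
    (z : ∀ a : Z, S.WK ((stabilizer Γ a).comap q)) : S.Zq (Rl.eq q Z) := by
  refine zq_diag (fun a g b (k : a = q g • b) => show b = q g⁻¹ • a by simp [k]) fun a H k => ?_
  have : H = (stabilizer Γ a).comap q := Subgroup.ext fun g => (k g).trans eq_comm
  exact this ▸ z a

theorem WK.conj {H : Subgroup G} (z : S.WK H) (g : G) :
    S.WK (H.map (MulAut.conj g).toMonoidHom) := by
  let P : Rl G G := ⟨fun a k b => a⁻¹ * k * b ∈ H, fun k l => by
    simpa [mul_assoc] using H.mul_mem k l⟩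
  have h : ∀ a k b, P.r a k b → P.r b k⁻¹ a := fun a k b l => by
    simpa [P, mul_assoc] using H.inv_mem l
  have c : ∀ b a, P.r a 1 a → ∃ k, P.r a k b := fun b a _ => ⟨a * b⁻¹, by simp [P]⟩
  refine (diag_conn h g (c g) (H := H.map (MulAut.conj g).toMonoidHom) fun k =>
    ⟨?_, fun l => ⟨_, l, by simp [mul_assoc]⟩⟩).2
    ((diag_conn h 1 (c 1) fun k => by simp [P]).1 z)
  rintro ⟨x, l, rfl⟩
  simpa [P, mul_assoc] using l

end GC

end Pool.Agent.Lib.MP_5d3e93_al
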