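import Pool.Agent.Lib.MP_5d3e93_al.K.CEx
import Pool.Agent.Lib.MP_5d3e93_al.K.CLo
import Pool.Agent.Lib.MP_5d3e93_al.K.CTe
import Pool.Agent.Lib.MP_5d3e93_al.K.Diag

/-! Vanishing over joins of cones. -/

open CategoryTheory Limits ZeroObject Filter MulAction

namespace Pool.Agent.Lib.MP_5d3e93_al

universe w w' v u y y' v' u'

namespace Cn

variable {Γ : Type w'} [Group Γ] {I : Type y} [MulAction Γ I] {N R r : ℕ}
  {P : (ℕ → Cn I) → Prop} {x y : ℕ → Cn I} {g : Γ}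

theorem ccn_symm (h : (nr Γ I N).n r x y) : (nr Γ I N).n r y x :=
  fun i => ⟨fun k => ((h i).1 k).symm, fun k => ((h i).2 k).symm⟩

theorem ccn_lab (c : (nr Γ I (N + 1)).n r x (g • y)) (h : r < (x N).t + (y N).t) :
    (x N).l = g • (y N).l :=
  ((c N).1 (by omega)).2.2.resolve_right (by simp only [Pi.smul_apply, smul_t]; omega)

theorem ccn_up {P' : (ℕ → Cn I) → Prop} (b : Om N R P' x) (h : P x) (h1 : (x N).t ≤ R)
    (h2 : (x N).l = none → (x N).t = 0) : Om (N + 1) R P x := by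
  obtain ⟨-, a2, j, a3, a4⟩ := b
  refine ⟨h, fun i k => ?_, j, by omega, a4⟩
  obtain rfl | k' := eq_or_ne i N
  · exact ⟨h1, h2⟩
  · exact a2 i (by omega)

theorem ccn_down {P' : (ℕ → Cn I) → Prop} (b : Om (N + 1) R P x) (h : P' x) (h1 : (x N).t < R) :
    Om N R P' x := by
  obtain ⟨-, a2, j, a3, a4⟩ := b
  have k : j ≠ N := by rintro rfl; omega
  exact ⟨h, fun i k => a2 i (by omega), j, by omega, a4⟩

theorem ccn_nr (c : (nr Γ I (N + 1)).n r x y) (h : x N = y N) : (nr Γ I N).n r x y := fun i =>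
  ⟨fun k => (c i).1 (by omega), fun k => by
    obtain rfl | k' := eq_or_ne i N
    · exact h
    · exact (c i).2 (by omega)⟩

/-- changing the last coordinate -/
theorem ccn_om (hP : Fz (N + 1) P) (b : Om (N + 1) R P x) (h : (x N).t < R) {c : Cn I}
    (h1 : c.t ≤ R) (h2 : c.l = none → c.t = 0) : Om (N + 1) R P (Function.update x N c) := by
  obtain ⟨a1, a2, j, a3, a4⟩ := b
  have k : j ≠ N := by rintro rfl; omega
  refine ⟨hP _ _ (fun i k => (Function.update_of_ne (by omega) _ _).symm) a1, fun i k => ?_, j, a3,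
    by rw [Function.update_of_ne k, a4]⟩
  obtain rfl | k' := eq_or_ne i N
  · rw [Function.update_self]; exact ⟨h1, h2⟩
  · rw [Function.update_of_ne k']; exact a2 i k

theorem ccn_upd (c : (nr Γ I (N + 1)).n r x (g • y)) {a b : Cn I} (h : c1 r a (g • b)) :
    (nr Γ I (N + 1)).n r (Function.update x N a) (g • Function.update y N b) := fun i => by
  rw [Pi.smul_apply]
  obtain rfl | k := eq_or_ne i N
  · rw [Function.update_self, Function.update_self]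
    exact ⟨fun _ => h, by omega⟩
  · rw [Function.update_of_ne k, Function.update_of_ne k]; exact c i

/-- the contraction of the outer part -/
def ccnF (N R m : ℕ) (x : ℕ → Cn I) (i : ℕ) : Cn I :=
  if i < N then dn (m - R) (x i) else if i = N then ⟨(x i).l, min ((x i).t + m) R⟩ else x i

theorem ccnF1 (m : ℕ) (x : ℕ → Cn I) {i : ℕ} (h : i < N) : ccnF N R m x i = dn (m - R) (x i) :=
  if_pos h

theorem ccnF2 (m : ℕ) (x : ℕ → Cn I) : ccnF N R m x N = ⟨(x N).l, min ((x N).t + m) R⟩ := by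
  simp [ccnF]

theorem ccnF3 (m : ℕ) (x : ℕ → Cn I) {i : ℕ} (h : N + 1 ≤ i) : ccnF N R m x i = x i := by
  rw [ccnF, if_neg (by omega), if_neg (by omega)]

theorem ccnF_om (hP : Fz (N + 1) P) (m : ℕ) (a : Om (N + 1) R P x) (a5 : 0 < (x N).t) :
    Om (N + 1) R P (ccnF N R m x) := by
  obtain ⟨a1, a2, j, a3, a4⟩ := a
  refine ⟨hP _ _ (fun i k => (ccnF3 m x k).symm) a1, fun i k => ?_, ?_⟩
  · obtain k | rfl := Nat.lt_succ_iff_lt_or_eq.1 k
    · rw [ccnF1 _ _ k]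
      exact ⟨by rw [dn_t]; have := (a2 i (by omega)).1; omega, dn_none _ _ (a2 i (by omega)).2⟩
    · rw [ccnF2]
      exact ⟨min_le_right _ _, fun k => by have := (a2 i (by omega)).2 k; omega⟩
  · by_cases k : R ≤ m ∨ j = N
    · refine ⟨N, by omega, ?_⟩
      rw [ccnF2]
      rcases k with k | rfl <;> simp only <;> omega
    · exact ⟨j, a3, by rw [ccnF1 _ _ (by omega), dn_t]; omega⟩

theorem ccnF_nr (m : ℕ) (c : (nr Γ I (N + 1)).n r x (g • y)) (h : r < (x N).t + (y N).t) :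
    (nr Γ I (N + 1)).n r (ccnF N R m x) (g • ccnF N R m y) := fun i => by
  refine ⟨fun k => ?_, fun k => by rw [Pi.smul_apply, ccnF3 _ _ k, ccnF3 _ _ k]; exact (c i).2 k⟩
  rw [Pi.smul_apply]
  obtain k | rfl := Nat.lt_succ_iff_lt_or_eq.1 k
  · rw [ccnF1 _ _ k, ccnF1 _ _ k, ← dn_smul]
    exact ((c i).1 (by omega)).dn _
  · rw [ccnF2, ccnF2]
    obtain ⟨c1, c2, -⟩ := (c i).1 (by omega)
    simp only [Pi.smul_apply, smul_t] at c1 c2
    exact ⟨by simp only [smul_t]; omega, by simp only [smul_t]; omega, .inl (ccn_lab c h)⟩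

theorem ccnF_step (m : ℕ) (x : ℕ → Cn I) :
    (nr Γ I (N + 1)).n 1 (ccnF N R m x) (ccnF N R (m + 1) x) := fun i => by
  refine ⟨fun k => ?_, fun k => by rw [ccnF3 _ _ k, ccnF3 _ _ k]⟩
  obtain k | rfl := Nat.lt_succ_iff_lt_or_eq.1 k
  · rw [ccnF1 _ _ k, ccnF1 _ _ k]
    exact c1_dn le_rfl _ _ _ (by omega) (by omega)
  · rw [ccnF2, ccnF2]
    exact ⟨by simp only; omega, by simp only; omega, .inl rfl⟩

theorem ccnF_zero (a : Om (N + 1) R P x) : (nr Γ I (N + 1)).n 0 x (ccnF N R 0 x) := fun i => by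
  refine ⟨fun k => ?_, fun k => by rw [ccnF3 _ _ k]⟩
  have := (a.2.1 i k).1
  obtain k | rfl := Nat.lt_succ_iff_lt_or_eq.1 k
  · rw [ccnF1 _ _ k, Nat.zero_sub]
    exact c1_dn0 _
  · rw [ccnF2]
    exact ⟨by simp only; omega, by simp only; omega, .inl rfl⟩

theorem ccnF_end (a : Om (N + 1) R P x) (b : Om (N + 1) R P y)
    (c : (nr Γ I (N + 1)).n r x (g • y)) (h : r < (x N).t + (y N).t) :
    ccnF N R (2 * R) x = g • ccnF N R (2 * R) y := funext fun i => by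
  rw [Pi.smul_apply]
  by_cases k : i < N + 1
  · have a1 := (a.2.1 i k).1
    have b1 := (b.2.1 i k).1
    obtain k | rfl := Nat.lt_succ_iff_lt_or_eq.1 k
    · rw [ccnF1 _ _ k, ccnF1 _ _ k, dn, dn, if_pos (by omega), if_pos (by omega)]; rfl
    · rw [ccnF2, ccnF2]
      exact Cn.ext (ccn_lab c h) (by simp only [smul_t]; omega)
  · rw [ccnF3 _ _ (by omega), ccnF3 _ _ (by omega)]; exact (c i).2 (by omega)

end Cn

open Gr Cn

namespace GC

variable {G : Type w} [Group G] {C : Type u} [Category.{v} C] [Preadditive C] [HasZeroObject C]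
  {S : GC G C}

variable {J : Type} {Y : J → Type y} {Y' : J → Type y'} {l l' : Filter J} {ν : Ar G Y}
  {ν' : Ar G Y'}

theorem ccn_ret {μ : Ar G Y} (h : Ar.Co l ν μ (fun _ => id) fun _ => id)
    (k : Ar.Co l μ ν (fun _ => id) fun _ => id) (z : S.ZO l μ) : S.ZO l ν :=
  ZO.retract _ _ h k (fun r => ⟨r, .of_forall fun _ _ _ _ a => a⟩)
    (fun r => ⟨r, .of_forall fun _ _ _ _ a => a⟩) z

theorem ccn_contr (hr : ν.Rf) (φ : ℕ → ∀ j, Y j → Y j)
    (h : ∀ r, ∀ᶠ j in l, ∀ m a g b, ν.n r j a g b → ν.n r j (φ m j a) g (φ m j b))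
    (h' : ∀ᶠ j in l, ∀ m a, ν.n 0 j a 1 a → ν.n 1 j (φ m j a) 1 (φ (m + 1) j a) ∧
      ν.n 1 j (φ (m + 1) j a) 1 (φ m j a))
    (h0 : ∀ᶠ j in l, ∀ a, ν.n 0 j a 1 a → ν.n 0 j a 1 (φ 0 j a) ∧ ν.n 0 j (φ 0 j a) 1 a)
    (M : J → ℕ) {μ : Ar G Y} (h1 : Ar.Co l ν μ (fun j => φ (M j) j) fun j => φ (M j) j)
    (h2 : Ar.Co l μ ν (fun _ => id) fun _ => id) (z : S.ZO l μ) : S.ZO l ν :=
  ZO.contr φ (fun r => ⟨r + 1, ((h r).and h').mono fun j k m a g b c =>
      ⟨ν.mono (k.1 m a g b c) (by omega),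
        mul_one g ▸ ν.trans (k.1 m a g b c) (k.2 m b (hr _ _ _ _ _ c).2).1,
        one_mul g ▸ Nat.add_comm 1 r ▸ ν.trans (k.2 m a (hr _ _ _ _ _ c).1).2 (k.1 m a g b c)⟩⟩)
    (fun r => ⟨r + 0, h0.mono fun _ k _ g b c =>
      mul_one g ▸ ν.trans c (k b (hr _ _ _ _ _ c).2).1⟩)
    (fun r => ⟨0 + r, h0.mono fun _ k a g _ c =>
      one_mul g ▸ ν.trans (k a (hr _ _ _ _ _ c).1).2 c⟩) M h1 h2 z

section CCn
variable {Γ : Type w'} [Group Γ] {q : G →* Γ} {I : J → Type y} [∀ j, MulAction Γ (I j)]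
  {R : J → ℕ}
/-- From `zq_diag`; for `¬ Ω a` the hypothesis is vacuous (`1 ∈ H`). -/
theorem zq_gp {Z : Type y} [MulAction Γ Z] (Ω : Z → Prop)
    (z : ∀ a, Ω a → S.WK ((stabilizer Γ a).comap q)) : S.Zq (Rl.gp q Ω) :=
  zq_diag (fun a g b h => ⟨by rw [h.1, map_inv, inv_smul_smul], h.2.2, h.2.1⟩) fun a H h => by
    have k : Ω a := ((h 1).1 H.one_mem).2.1
    rw [show H = (stabilizer Γ a).comap q from Subgroup.ext fun g =>
      (h g).trans ⟨fun c => c.1.symm, fun c => ⟨Eq.symm c, k, k⟩⟩]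
    exact z a k

theorem ccn_one {N r : ℕ} {P : ∀ j, (ℕ → Cn (I j)) → Prop} {j : J} {a b : ℕ → Cn (I j)}
    (h : (nr Γ (I j) N).n r a b)
    (ha : Om N (R j) (P j) a) (hb : Om N (R j) (P j) b) : (Ar.cone q I N R P).n r j a 1 b :=
  ⟨show (nr Γ (I j) N).n r a (q 1 • b) by rwa [map_one, one_smul], ha, hb⟩

theorem ccn_rf (N : ℕ) (P) : (Ar.cone q I N R P).Rf := fun _ _ _ _ _ h =>
  ⟨ccn_one (Nr.refl _ _ _) h.2.1 h.2.1, ccn_one (Nr.refl _ _ _) h.2.2 h.2.2⟩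

theorem ccn_res (h : ν.Rf) (U) : (ν.res U).Rf := fun _ _ _ _ _ c =>
  ⟨⟨(h _ _ _ _ _ c.1).1, c.2.1, c.2.1⟩, (h _ _ _ _ _ c.1).2, c.2.2, c.2.2⟩

variable (hR : Tendsto R l atTop) (hK : ∀ᶠ j in l, ∀ x : ℕ → Cn (I j),
  (∃ i U, (x i).l = some U) → S.WK ((stabilizer Γ x).comap q))
include hR hK

theorem ccn_disc {N : ℕ} {P : ∀ j, (ℕ → Cn (I j)) → Prop} (Ω : ∀ j, (ℕ → Cn (I j)) → Prop)
    (h : ∀ j x, Ω j x → Om N (R j) (P j) x) : S.ZO l (Ar.cst fun j => Rl.gp q (Ω j)) :=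
  zo_cst _ ((hK.and (hR.eventually_ge_atTop 1)).mono fun j k => zq_gp _ fun x a => by
    obtain ⟨-, a2, i, a3, a4⟩ := h j x a
    exact k.1 x ⟨i, Option.ne_none_iff_exists'.1 fun c => by have := (a2 i a3).2 c; omega⟩)

theorem zd_succ {N : ℕ} (ih : ∀ P, (∀ j, Cn.Fz N (P j)) → S.ZO l (Ar.cone q I N R P)) (P)
    (hP : ∀ j, Cn.Fz (N + 1) (P j)) : S.ZD l (Ar.cone q I (N + 1) R P) := by
  have ev := hR.eventually_ge_atTop
  refine zd_mv (ccn_rf _ _) (fun j x => R j / 2 ≤ (x N).t) (fun j x => (x N).t ≤ R j / 2)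
    (fun j x => (x N).t = R j / 2) (.of_forall fun j a _ => le_total _ _)
    (fun j a h => ⟨h.ge, h.le⟩) (fun r => ⟨r, (ev (2 * r + 1)).mono fun j k a g b c hU hV => ?_⟩)
    ?_ ?_ ?_
  · have e : (a N).t ≤ (b N).t + r := ((c.1 N).1 (by omega)).1
    have o := ccn_om (c := ⟨(a N).l, R j / 2⟩) (hP j) c.2.1 (by omega) (Nat.div_le_self _ _)
      fun h => by have := (c.2.1.2.1 N (by omega)).2 h; simp only; omega
    have n : (nr Γ (I j) (N + 1)).n r a (Function.update a N ⟨(a N).l, R j / 2⟩) := by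
      have := ccn_upd (Γ := Γ) (N := N) (r := r) (x := a) (y := a) (g := 1) (a := a N)
        (b := ⟨(a N).l, R j / 2⟩) (by rw [one_smul]; exact Nr.refl _ _ _)
        (by rw [one_smul]; exact ⟨by simp only; omega, by simp only; omega, .inl rfl⟩)
      rwa [one_smul, Function.update_eq_self] at this
    exact ⟨_, by rw [Function.update_self], ccn_one n c.2.1 o, ccn_one (ccn_symm n) o c.2.1⟩
  · have u (j m) (x : ℕ → Cn (I j)) (h : R j / 2 ≤ (x N).t) : R j / 2 ≤ (ccnF N (R j) m x N).t := by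
      rw [ccnF2]; simp only; omega
    refine ccn_contr (ccn_res (ccn_rf _ _) _) (fun m j => ccnF N (R j) m)
      (fun r => (ev (r + 2)).mono fun j k m a g b ⟨c, a1, b1⟩ => ?_)
      ((ev 2).mono fun j k m a ⟨c, a1, _⟩ => ?_) ((ev 2).mono fun j k a ⟨c, a1, _⟩ => ?_)
      (fun j => 2 * R j) (fun r => ⟨0, (ev (r + 2)).mono fun j k a g b ⟨c, a1, b1⟩ => ?_⟩)
      (fun r => ⟨0, .of_forall fun j a g b c => ?_⟩)
      (ccn_disc hR hK (fun j x => Om (N + 1) (R j) (P j) x ∧ R j / 2 ≤ (x N).t) fun _ _ a => a.1)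
    · exact ⟨⟨ccnF_nr m c.1 (by omega), ccnF_om (hP j) m c.2.1 (by omega),
        ccnF_om (hP j) m c.2.2 (by omega)⟩, u j m a a1, u j m b b1⟩
    · have o := fun m => ccnF_om (hP j) m c.2.1 (by omega)
      exact ⟨⟨ccn_one (ccnF_step m a) (o _) (o _), u j _ a a1, u j _ a a1⟩,
        ccn_one (ccn_symm (ccnF_step m a)) (o _) (o _), u j _ a a1, u j _ a a1⟩
    · have o := ccnF_om (hP j) 0 c.2.1 (by omega)
      exact ⟨⟨ccn_one (ccnF_zero c.2.1) c.2.1 o, a1, u j _ a a1⟩,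
        ccn_one (ccn_symm (ccnF_zero c.2.1)) o c.2.1, u j _ a a1, a1⟩
    · exact ⟨ccnF_end c.2.1 c.2.2 c.1 (by omega), ⟨ccnF_om (hP j) _ c.2.1 (by omega), u j _ a a1⟩,
        ccnF_om (hP j) _ c.2.2 (by omega), u j _ b b1⟩
    · exact ⟨⟨show (nr Γ (I j) (N + 1)).n 0 a (q g • b) from c.1 ▸ Nr.refl _ _ _, c.2.1.1, c.2.2.1⟩,
        c.2.1.2, c.2.2.2⟩
  · have u (j m) (x : ℕ → Cn (I j)) (h : (x N).t ≤ R j / 2) :
        (Function.update x N (dn m (x N)) N).t ≤ R j / 2 := by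
      rw [Function.update_self, dn_t]; omega
    have o (j m) (x : ℕ → Cn (I j)) (k : 1 ≤ R j) (a : Om (N + 1) (R j) (P j) x)
        (h : (x N).t ≤ R j / 2) : Om (N + 1) (R j) (P j) (Function.update x N (dn m (x N))) :=
      ccn_om (hP j) a (by omega) (by rw [dn_t]; omega) (dn_none _ _ (a.2.1 N (by omega)).2)
    have n (j r m) (x y : ℕ → Cn (I j)) (g : Γ) (c : (nr Γ (I j) (N + 1)).n r x (g • y)) :=
      ccn_upd c (a := dn m (x N)) (b := dn m (y N))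
        (by rw [← dn_smul]; exact ((c N).1 (by omega)).dn m)
    have n' (j r) (x : ℕ → Cn (I j)) (a b) (h : c1 r a b) :
        (nr Γ (I j) (N + 1)).n r (Function.update x N a) (Function.update x N b) := by
      have := ccn_upd (Γ := Γ) (N := N) (r := r) (x := x) (y := x) (g := 1) (a := a) (b := b)
        (by rw [one_smul]; exact Nr.refl _ _ _) (by rwa [one_smul])
      rwa [one_smul] at this
    have e (j) (x : ℕ → Cn (I j)) (h : (x N).t ≤ R j / 2) :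
        Function.update x N (dn (R j) (x N)) N = ⟨none, 0⟩ := by
      rw [Function.update_self, dn, if_pos (by omega)]
    refine ccn_contr (ccn_res (ccn_rf _ _) _) (fun m j x => Function.update x N (dn m (x N)))
      (fun r => (ev 1).mono fun j k m a g b ⟨c, a1, b1⟩ => ?_)
      ((ev 1).mono fun j k m a ⟨c, a1, _⟩ => ?_) ((ev 1).mono fun j k a ⟨c, a1, _⟩ => ?_)
      R (fun r => ⟨r, (ev 1).mono fun j k a g b ⟨c, a1, b1⟩ => ?_⟩)
      (fun r => ⟨r, .of_forall fun j a g b c => ?_⟩)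
      (ih (fun j x => P j x ∧ x N = ⟨none, 0⟩) fun j x y k a =>
        ⟨hP j x y (fun i h => k i (by omega)) a.1, k N le_rfl ▸ a.2⟩)
    · exact ⟨⟨n j r m a b _ c.1, o j m a k c.2.1 a1, o j m b k c.2.2 b1⟩, u j m a a1, u j m b b1⟩
    · have s := n' j 1 a _ _ (c1_dn le_rfl (a N) m (m + 1) (by omega) le_rfl)
      have o := fun m => o j m a k c.2.1 a1
      exact ⟨⟨ccn_one s (o _) (o _), u j _ a a1, u j _ a a1⟩,
        ccn_one (ccn_symm s) (o _) (o _), u j _ a a1, u j _ a a1⟩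
    · have s := n' j 0 a _ _ (c1_dn0 (a N))
      rw [Function.update_eq_self] at s
      exact ⟨⟨ccn_one s c.2.1 (o j 0 a k c.2.1 a1), a1, u j _ a a1⟩,
        ccn_one (ccn_symm s) (o j 0 a k c.2.1 a1) c.2.1, u j _ a a1, a1⟩
    · have oa := o j (R j) a k c.2.1 a1
      have ob := o j (R j) b k c.2.2 b1
      have s := ccn_nr (n j r (R j) a b _ c.1) (by rw [Pi.smul_apply, e j a a1, e j b b1]; rfl)
      exact ⟨s, ccn_down oa ⟨oa.1, e j a a1⟩ ((congrArg Cn.t (e j a a1)).trans_lt k),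
        ccn_down ob ⟨ob.1, e j b b1⟩ ((congrArg Cn.t (e j b b1)).trans_lt k)⟩
    · have t (x : ℕ → Cn (I j)) (h : x N = ⟨none, 0⟩) : (x N).t = 0 := by rw [h]
      have ta := t a c.2.1.1.2
      have tb := t b c.2.2.1.2
      exact ⟨⟨nr_succ (G := Γ) _ _ _ c.1,
        ccn_up c.2.1 c.2.1.1.1 (ta.le.trans (Nat.zero_le _)) fun _ => ta,
        ccn_up c.2.2 c.2.2.1.1 (tb.le.trans (Nat.zero_le _)) fun _ => tb⟩,
        ta.le.trans (Nat.zero_le _), tb.le.trans (Nat.zero_le _)⟩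
  · refine ccn_ret (fun r => ⟨r, (ev (r + 2)).mono fun j k a g b ⟨c, a1, b1⟩ => ?_⟩)
      (fun r => ⟨r, .of_forall fun j a g b c => ?_⟩)
      (ih (fun j x => P j x ∧ (x N).t = R j / 2 ∧ (x N).l ≠ none) fun j x y k a =>
        ⟨hP j x y (fun i h => k i (by omega)) a.1, k N le_rfl ▸ a.2⟩)
    · have d (x : ℕ → Cn (I j)) (a : Om (N + 1) (R j) (P j) x) (h : (x N).t = R j / 2) :
          Om N (R j) (fun x => P j x ∧ (x N).t = R j / 2 ∧ (x N).l ≠ none) x :=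
        ccn_down a ⟨a.1, h, fun c => by have := (a.2.1 N (by omega)).2 c; omega⟩ (by omega)
      have a2 : (a N).t = R j / 2 := a1
      have b2 : (b N).t = R j / 2 := b1
      have s := ccn_lab (x := a) (y := b) c.1 (by omega)
      exact ⟨ccn_nr (Γ := Γ) c.1 (Cn.ext s (a2.trans b2.symm)), d a c.2.1 a1, d b c.2.2 b1⟩
    · have d (x : ℕ → Cn (I j))
          (a : Om N (R j) (fun x => P j x ∧ (x N).t = R j / 2 ∧ (x N).l ≠ none) x) :
          Om (N + 1) (R j) (P j) x :=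
        ccn_up a a.1.1 (a.1.2.1.le.trans (Nat.div_le_self _ _)) fun c => (a.1.2.2 c).elim
      exact ⟨⟨nr_succ (G := Γ) _ _ _ c.1, d a c.2.1, d b c.2.2⟩, c.2.1.1.2.1, c.2.2.1.2.1⟩

/-- Discrete: `ZO.retract` with identity maps to `cst (gp (Om 1 R P))`. -/
theorem zo_one (P) : S.ZO l (Ar.cone q I 1 R P) := by
  refine ccn_ret (μ := Ar.cst fun j => Rl.gp q (Om 1 (R j) (P j)))
    (fun r => ⟨0, (hR.eventually_ge_atTop (r + 1)).mono fun j k a g b c => ?_⟩)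
    (fun r => ⟨0, .of_forall fun j a g b c =>
      ⟨show (nr Γ (I j) 1).n 0 a (q g • b) from c.1 ▸ Nr.refl _ _ _, c.2⟩⟩)
    (ccn_disc hR hK (fun j => Om 1 (R j) (P j)) fun _ _ a => a)
  have t (x : ℕ → Cn (I j)) (a : Om 1 (R j) (P j) x) : (x 0).t = R j := by
    obtain ⟨i, h, e⟩ := a.2.2
    rwa [Nat.lt_one_iff.1 h] at e
  have ta := t a c.2.1
  have tb := t b c.2.2
  have s := ccn_lab (N := 0) (x := a) (y := b) c.1 (by omega)
  have s' := ccn_nr (Γ := Γ) (N := 0) c.1 (Cn.ext s (ta.trans tb.symm))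
  exact ⟨funext fun i => (s' i).2 (Nat.zero_le _), c.2⟩

theorem zd_two (P) (hP : ∀ j, Cn.Fz 2 (P j)) : S.ZD l (Ar.cone q I 2 R P) :=
  zd_succ hR hK (fun P _ => zo_one hR hK P) P hP

theorem zo_cone (sf : ∀ N P, (∀ j, Cn.Fz N (P j)) → S.SF l (Ar.cone q I N R P)) (N : ℕ) (P)
    (hP : ∀ j, Cn.Fz N (P j)) : S.ZO l (Ar.cone q I N R P) := by
  induction N generalizing P with
  | zero => exact zo_empty fun r => .of_forall fun j a g b c => by obtain ⟨i, h, -⟩ := c.2.1.2.2; omega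
  | succ N ih => exact (zd_succ hR hK ih P hP).zo (sf _ _ hP)

end CCn

end GC

end Pool.Agent.Lib.MP_5d3e93_al
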