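import Pool.Agent.Lib.MP_5d3e93_al.K.CLa
import Pool.Agent.Lib.MP_5d3e93_al.K.CCn
import Pool.Agent.Lib.MP_5d3e93_al.K.CLo

/-! Labelled covers with two labels. -/

open CategoryTheory Limits ZeroObject Filter MulAction

namespace Pool.Agent.Lib.MP_5d3e93_al

universe w w' v u y y' v' u'

open Gr

namespace GC

variable {G : Type w} [Group G] {C : Type u} [Category.{v} C] [Preadditive C] [HasZeroObject C]
  {S : GC G C}

variable {J : Type} {Y : J → Type y} {Y' : J → Type y'} {l l' : Filter J} {ν : Ar G Y}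
  {ν' : Ar G Y'}

section CLb
variable {Γ : Type w'} [Group Γ] [∀ j, MulAction Γ (Y j)] {I : J → Type y'}
  [∀ j, MulAction Γ (I j)] {ρ : ∀ j, Y j → Y j → Prop} (h1 : ∀ j y, ρ j y y)
  (h2 : ∀ j x y, ρ j x y → ρ j y x) (h3 : ∀ j (g : Γ) x y, ρ j x y → ρ j (g • x) (g • y))
  {ι : Type} [Fintype ι] (Lab : ∀ j, ι → Y j → I j → Prop)
  (h4 : ∀ j i y U U', Lab j i y U → Lab j i y U' → U = U')
  (h5 : ∀ j i (g : Γ) y U, Lab j i y U → Lab j i (g • y) (g • U)) {α : ∀ j, Y j → Prop}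
  {b : J → ℕ} (hb : Tendsto b l atTop)
  (h6 : ∀ R, ∀ᶠ j in l, ∀ y, α j y → ∃ i U, ∀ y', Pth (ρ j) R y y' → Lab j i y' U)
include h2 h4 h5 hb h6

/-- Two labels. -/
theorem ev_lab2 (q : G →* Γ) (hι : Fintype.card ι = 2) (hK : ∀ᶠ j in l, ∀ x : ℕ → Cn (I j),
      (∃ i U, (x i).l = some U) → S.WK ((stabilizer Γ x).comap q)) :
    S.EV l ((Ar.act q fun j => Nr.pth Γ (ρ j) (h1 j) (h3 j)).res α) (S.dgc l _) := by
  obtain ⟨R, hR, φ, h⟩ := clb_co h1 h2 h3 Lab h4 h5 hb h6 q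
  rw [hι] at h
  exact EV.push φ h (dgc_push φ h) (Cl.le fun X ⟨Z, _, i⟩ => .of ⟨Z, trivial, i⟩)
    (zd_two hR hK _ fun _ _ _ _ a => a).ev
end CLb

end GC

end Pool.Agent.Lib.MP_5d3e93_al
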