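import Pool.Agent.Lib.MP_5d3e93_al.K.CTr
import Pool.Agent.Lib.MP_5d3e93_al.K.CLb
import Pool.Agent.Lib.MP_5d3e93_al.PrF

/-! Control over circles. -/

open CategoryTheory Limits Filter MulAction

namespace Pool.Agent.Lib.MP_5d3e93_al

universe w v u

open Gr

/-- The integers with the translation action of a character. -/
@[ext] structure CiLv {G : Type w} [Group G] (ω : Ch G) : Type where
  t : ℤ

instance {G : Type w} [Group G] (ω : Ch G) : MulAction G (CiLv ω) where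
  smul g x := ⟨ω g + x.t⟩
  one_smul x := CiLv.ext (show ω 1 + x.t = _ by simp)
  mul_smul a b x := CiLv.ext (show ω (a * b) + x.t = ω a + (ω b + x.t) by rw [ω.mul, add_assoc])

section

variable {G : Type w} [Group G] {ω : Ch G} {p s : ℕ}

theorem ci_smul (g : G) (x : CiLv ω) : (g • x).t = ω g + x.t := rfl

theorem ci_stab {x : ℕ → Cn (CiLv ω)} (h : ∃ i U, (x i).l = some U) : stabilizer G x = ω.ker := by
  obtain ⟨i, U, h⟩ := h
  refine Subgroup.ext fun g => ⟨fun k => ?_, fun (k : ω g = 0) => funext fun i => Cn.ext ?_ rfl⟩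
  · have a : g • (x i).l = (x i).l := congrArg (fun y : ℕ → Cn (CiLv ω) => (y i).l) k
    rw [h, Option.smul_some, Option.some.injEq] at a
    exact add_eq_right.1 (congrArg CiLv.t a)
  · change g • (x i).l = (x i).l
    cases (x i).l with
    | none => rfl
    | some U => exact congrArg some (CiLv.ext (by rw [ci_smul, k, zero_add]))

/-- Steps along the fibres. -/
def CiR (s : ℕ) (y y' : ω.Cy p × CiLv ω) : Prop := y.1 = y'.1 ∧ |y.2.t - y'.2.t| ≤ s

theorem ci_pth (r : ℕ) : ∀ y y' : ω.Cy p × CiLv ω,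
    Pth (CiR s) r y y' ↔ y.1 = y'.1 ∧ |y.2.t - y'.2.t| ≤ r * s := by
  induction r with
  | zero =>
    refine fun y y' => ⟨?_, fun h => Prod.ext h.1 (CiLv.ext ?_)⟩
    · rintro rfl; simp
    · simpa [sub_eq_zero] using h.2
  | succ r ih =>
    intro y y'
    have h0 : (0 : ℤ) ≤ r * s := by positivity
    push_cast
    rw [add_mul, one_mul, abs_le]
    refine ⟨fun ⟨z, a, b⟩ => ?_, fun h => ⟨(y.1, ⟨max (y.2.t - s) (min (y.2.t + s) y'.2.t)⟩),
      ⟨rfl, abs_le.2 ?_⟩, (ih _ _).2 ⟨h.1, abs_le.2 ?_⟩⟩⟩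
    · obtain ⟨c, d⟩ := (ih _ _).1 b
      have := abs_le.1 a.2
      have := abs_le.1 d
      exact ⟨a.1.trans c, by omega⟩
    · dsimp only; omega
    · dsimp only; omega

/-- Two covers of the fibres by intervals. -/
def CiL (i : Bool) (y : ω.Cy p × CiLv ω) (m : CiLv ω) : Prop :=
  (m.t : ZMod p) = y.1.t ∧ 2 * |y.2.t - m.t - (bif i then (p / 2 : ℕ) else 0)| < p

theorem ci_uniq {i : Bool} {y : ω.Cy p × CiLv ω} {m m' : CiLv ω} (h : CiL i y m) (k : CiL i y m') :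
    m = m' := by
  have a := (ZMod.intCast_eq_intCast_iff_dvd_sub _ _ _).1 (h.1.trans k.1.symm)
  have b := h.2
  have c := k.2
  refine CiLv.ext (sub_eq_zero.1 (Int.eq_zero_of_abs_lt_dvd a ?_)).symm
  generalize (bif i then ((p / 2 : ℕ) : ℤ) else 0) = t at b c
  simp only [abs_eq_max_neg] at b c ⊢
  omega

theorem ci_ex [NeZero p] {R : ℕ} (h : (4 * R + 2) * (s + 1) < p) (y : ω.Cy p × CiLv ω)
    (k : y.2.t = 0) : ∃ i U, ∀ y', Pth (CiR s) R y y' → CiL i y' U := by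
  have a : ((y.1.t.val : ℤ) : ZMod p) = y.1.t := by simp
  have b : ((y.1.t.val - p : ℤ) : ZMod p) = y.1.t := by simp
  have c := ZMod.val_lt y.1.t
  have d : 4 * ((R : ℤ) * s) + 2 < p := by zify at h; nlinarith
  simp only [ci_pth, k, CiL, abs_eq_max_neg]
  by_cases e : 4 * y.1.t.val ≤ p
  · exact ⟨false, ⟨y.1.t.val⟩, fun y' q => ⟨q.1 ▸ a, by have := q.2; dsimp only [cond]; omega⟩⟩
  by_cases e' : 3 * p ≤ 4 * y.1.t.val
  · exact ⟨false, ⟨y.1.t.val - p⟩, fun y' q => ⟨q.1 ▸ b, by have := q.2; dsimp only [cond]; omega⟩⟩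
  · exact ⟨true, ⟨y.1.t.val - p⟩, fun y' q => ⟨q.1 ▸ b, by have := q.2; dsimp only [cond]; omega⟩⟩

end

namespace GC

variable {G : Type w} [Group G] {C : Type u} [Category.{v} C] [Preadditive C] [HasZeroObject C]
  {S : GC G C} {J : Type} {l : Filter J}

theorem tk_circ (ω : J → Ch G) (p s : J → ℕ) [∀ j, NeZero (p j)]
    (hs : ∀ R, ∀ᶠ j in l, R * (s j + 1) < p j) (hω : ∀ g, ∃ r : ℕ, ∀ j, |ω j g| ≤ r * s j)
    (hK : ∀ j, S.WK (ω j).ker) (n : ℕ) (x : Am.Kn n S.top (S.fr (Rl.pt ⊤)))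
    (h : S.fr (Rl.pt ⊤) ≤ S.top.bdd) : ∀ᶠ j in l, ∀ L,
      Lat.Gr ((ω j).Cy (p j)) (fun _ => True) L → S.tk (.id G) n (Am.Kinc n h x) L = 0 := by
  have z := ev_lab2 (S := S) (l := l) (Γ := G) (Y := fun j => (ω j).Cy (p j) × CiLv (ω j))
    (I := fun j => CiLv (ω j)) (ρ := fun j => CiR (s j)) (fun j y => ⟨rfl, by simp⟩)
    (fun j x y a => ⟨a.1.symm, abs_sub_comm x.2.t _ ▸ a.2⟩)
    (fun j g x y a => ⟨congrArg (g • ·) a.1, by simpa [ci_smul] using a.2⟩) (fun _ => CiL)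
    (fun _ _ _ _ _ => ci_uniq) (fun j i g y U a => ⟨by
      change ((ω j g + U.t : ℤ) : ZMod (p j)) = ω j g + y.1.t
      rw [Int.cast_add, a.1], by simpa [ci_smul] using a.2⟩) (α := fun _ y => y.2.t = 0) (b := p)
    (tendsto_atTop.2 fun R => (hs R).mono fun j a => by nlinarith)
    (fun R => (hs (4 * R + 2)).mono fun j a => ci_ex a) (.id G) Fintype.card_bool
    (.of_forall fun j x a => by rw [ci_stab a, Subgroup.comap_id]; exact hK j)
  refine tk_ev' (π := .id G) (H := ⊤) (Xs := fun j => (ω j).Cy (p j)) (Ps := fun _ _ => True)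
    (fun j x => (x, ⟨0⟩)) (fun g _ => ?_) z n x h
  obtain ⟨r, a⟩ := hω g
  exact ⟨r, .of_forall fun j y _ _ => ⟨(ci_pth _ _ _).2 ⟨rfl, by simpa [ci_smul] using a j⟩, rfl,
    rfl⟩⟩

end GC

end Pool.Agent.Lib.MP_5d3e93_al
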