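import Pool.Agent.Lib.MP_5d3e93_al.K.CDf

/-! Labelled covers give controlled maps to joins of cones. -/

open CategoryTheory Limits ZeroObject Filter MulAction

namespace Pool.Agent.Lib.MP_5d3e93_al

universe w w' v u y y' v' u'

open Gr

namespace GC

variable {G : Type w} [Group G] {J : Type} {Y : J → Type y} {l : Filter J}

section CLa
/-- The map to the join of cones defined by a labelling. -/
theorem ex_cone {Γ : Type w'} [Group Γ] {Z : Type*} {I : Type*} [MulAction Γ Z] [MulAction Γ I]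
    {ρ : Z → Z → Prop} (h1 : ∀ y, ρ y y) (h2 : ∀ x y, ρ x y → ρ y x)
    (h3 : ∀ (g : Γ) x y, ρ x y → ρ (g • x) (g • y)) (N R : ℕ) (Lab : ℕ → Z → I → Prop)
    (h4 : ∀ i y U U', Lab i y U → Lab i y U' → U = U')
    (h5 : ∀ i (g : Γ) y U, Lab i y U → Lab i (g • y) (g • U)) : ∃ φ : Z → ℕ → Cn I,
      (∀ (g : Γ) y, φ (g • y) = g • φ y) ∧
      (∀ r x y, Pth ρ r x y → (Cn.nr Γ I N).n r (φ x) (φ y)) ∧
      ∀ y, (∃ i < N, ∃ U, ∀ y', Pth ρ R y y' → Lab i y' U) → Cn.Om N R (fun _ => True) (φ y) := by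
  classical
  let In : ℕ → Z → ℕ → Prop := fun i y t => ∃ U, ∀ y', Pth ρ t y y' → Lab i y' U
  let l : ℕ → Z → Option I := fun i y => if h : ∃ U, Lab i y U then some h.choose else none
  have a1 (i y U) (h : Lab i y U) : l i y = some U := by
    have k : ∃ U, Lab i y U := ⟨U, h⟩
    simp only [l, dif_pos k, h4 _ _ _ _ k.choose_spec h]
  have a2 (i) (g : Γ) (y) : l i (g • y) = g • l i y := by
    by_cases k : ∃ U, Lab i y U
    · obtain ⟨U, k⟩ := k
      rw [a1 _ _ _ k, a1 _ _ _ (h5 i g y U k)]; rfl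
    · have : ¬ ∃ U, Lab i (g • y) U := fun ⟨U, h⟩ => k ⟨_, by simpa using h5 i g⁻¹ _ U h⟩
      simp only [l, dif_neg k, dif_neg this]; rfl
  have a3 (i) (g : Γ) (y t) (h : In i y t) : In i (g • y) t := by
    obtain ⟨U, h⟩ := h
    exact ⟨g • U, fun y' p => smul_inv_smul g y' ▸ h5 i g _ U
      (h _ (by simpa using p.smul h3 g⁻¹))⟩
  let φ : Z → ℕ → Cn I := fun y i =>
    if i < N then ⟨l i y, Nat.findGreatest (In i y) R⟩ else ⟨none, 0⟩
  have a4 (g : Γ) (y) : φ (g • y) = g • φ y := funext fun i => by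
    simp only [φ, Pi.smul_apply]
    split_ifs
    · refine Cn.ext (a2 _ _ _) ?_
      rw [show In i (g • y) = In i y from funext fun t => propext
        ⟨fun h => by simpa using a3 i g⁻¹ _ t h, a3 i g y t⟩]
      rfl
    · rfl
  have a5 (i y) (h : 0 < Nat.findGreatest (In i y) R) : In i y (Nat.findGreatest (In i y) R) :=
    Nat.findGreatest_of_ne_zero rfl h.ne'
  have a6 (i x y) (h : ρ x y) :
      Nat.findGreatest (In i x) R ≤ Nat.findGreatest (In i y) R + 1 := by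
    rcases Nat.eq_zero_or_pos (Nat.findGreatest (In i x) R) with k | k
    · omega
    obtain ⟨U, k'⟩ := a5 i x k
    have := Nat.findGreatest_le (P := In i x) R
    have := Nat.le_findGreatest (P := In i y) (m := Nat.findGreatest (In i x) R - 1) (n := R)
      (by omega) ⟨U, fun y' p => k' y' (Pth.succ h1 (k := Nat.findGreatest (In i x) R - 1 + 1)
        (by omega) ⟨y, h, p⟩)⟩
    omega
  have a7 (i x y) (h : ρ x y) (k : 0 < Nat.findGreatest (In i x) R) : l i x = l i y := by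
    obtain ⟨U, k'⟩ := a5 i x k
    rw [a1 _ _ _ (k' x (Pth.succ h1 (Nat.zero_le _) rfl)),
      a1 _ _ _ (k' y (Pth.succ h1 (k := 1) k ⟨y, h, rfl⟩))]
  have a8 (x y) (h : ρ x y) : (Cn.nr Γ I N).n 1 (φ x) (φ y) := fun i =>
    ⟨fun k => by
      simp only [φ, if_pos k]
      refine ⟨a6 i x y h, a6 i y x (h2 _ _ h), ?_⟩
      by_contra m
      have := mt (a7 i x y h) (not_or.1 m).1
      have := mt (a7 i y x (h2 _ _ h)) (Ne.symm (not_or.1 m).1)
      simp only [not_or] at m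
      omega, fun k => by simp only [φ, if_neg (not_lt.2 k)]⟩
  refine ⟨φ, a4, fun r => ?_, fun y ⟨i, k, m⟩ => ⟨trivial, fun i k => ?_, i, k, ?_⟩⟩
  · induction r with
    | zero => rintro x y rfl; exact (Cn.nr Γ I N).refl 0 _
    | succ r ih =>
      rintro x y ⟨z, a, b⟩
      exact Nat.add_comm 1 r ▸ (Cn.nr Γ I N).trans (a8 _ _ a) (ih _ _ b)
  · simp only [φ, if_pos k]
    refine ⟨Nat.findGreatest_le R, fun m => ?_⟩
    by_contra m'
    obtain ⟨U, k'⟩ := a5 i y (Nat.pos_of_ne_zero m')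
    rw [a1 _ _ _ (k' y (Pth.succ h1 (Nat.zero_le _) rfl))] at m
    cases m
  · simp only [φ, if_pos k]
    exact Nat.findGreatest_eq m

variable {Γ : Type w'} [Group Γ] [∀ j, MulAction Γ (Y j)] {I : J → Type y'}
  [∀ j, MulAction Γ (I j)] {ρ : ∀ j, Y j → Y j → Prop} (h1 : ∀ j y, ρ j y y)
  (h2 : ∀ j x y, ρ j x y → ρ j y x) (h3 : ∀ j (g : Γ) x y, ρ j x y → ρ j (g • x) (g • y))
  {ι : Type} [Fintype ι] (Lab : ∀ j, ι → Y j → I j → Prop)
  (h4 : ∀ j i y U U', Lab j i y U → Lab j i y U' → U = U')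
  (h5 : ∀ j i (g : Γ) y U, Lab j i y U → Lab j i (g • y) (g • U)) {α : ∀ j, Y j → Prop}
  {b : J → ℕ} (hb : Tendsto b l atTop)
  (h6 : ∀ R, ∀ᶠ j in l, ∀ y, α j y → ∃ i U, ∀ y', Pth (ρ j) R y y' → Lab j i y' U)
include h2 h4 h5 hb h6

/-- The family of maps to joins of cones with radii that tend to infinity. -/
theorem clb_co (q : G →* Γ) : ∃ R : J → ℕ, Tendsto R l atTop ∧ ∃ φ : ∀ j, Y j → ℕ → Cn (I j),
    Ar.Co l ((Ar.act q fun j => Nr.pth Γ (ρ j) (h1 j) (h3 j)).res α)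
      (Ar.cone q I (Fintype.card ι) R fun _ _ => True) φ φ := by
  classical
  let Q : J → ℕ → Prop := fun j R => ∀ y, α j y → ∃ i U, ∀ y', Pth (ρ j) R y y' → Lab j i y' U
  let R : J → ℕ := fun j => Nat.findGreatest (Q j) (b j)
  choose φ a1 a2 a3 using fun j => ex_cone (Γ := Γ) (h1 j) (h2 j) (h3 j) (Fintype.card ι) (R j)
    (fun i y U => ∃ k, (Fintype.equivFin ι k).1 = i ∧ Lab j k y U)
    (fun _ y U U' ⟨k, a, c⟩ ⟨_, d, e⟩ => h4 j k y U U' c
      ((Fintype.equivFin ι).injective (Fin.ext (d.trans a.symm)) ▸ e))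
    fun _ g y U ⟨k, a, c⟩ => ⟨k, a, h5 j k g y U c⟩
  refine ⟨R, tendsto_atTop.2 fun r => ((h6 r).and (hb.eventually_ge_atTop r)).mono
    fun j a => Nat.le_findGreatest a.2 a.1, φ, fun r => ⟨r, (h6 0).mono fun j a => ?_⟩⟩
  have k (y) (h : α j y) : Cn.Om (Fintype.card ι) (R j) (fun _ => True) (φ j y) := by
    obtain ⟨i, U, c⟩ := Nat.findGreatest_spec (P := Q j) (Nat.zero_le (b j)) a y h
    exact a3 j y ⟨_, (Fintype.equivFin ι i).2, U, fun y' d => ⟨i, rfl, c y' d⟩⟩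
  intro x g y c
  refine ⟨?_, k x c.2.1, k y c.2.2⟩
  have := a2 j r x (q g • y) c.1
  rw [a1] at this
  exact this

end CLa

end GC

end Pool.Agent.Lib.MP_5d3e93_al
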