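import Pool.Agent.Lib.MP_5d3e93_al.K.CDf

/-! Idempotents over joins of cones are stably free, from the vanishing in degree one. -/

open CategoryTheory Limits ZeroObject Filter MulAction

namespace Pool.Agent.Lib.MP_5d3e93_al

universe w v u y

namespace GC

open Lo CF Cn

section pt

variable {G : Type w} [Group G] {C : Type u} [Category.{v} C] [Preadditive C]
variable {S : GC (G × Zi) C} {I : Type*} [MulAction (G × Zi) I] {N R r κ : ℕ}
variable {P : (ℕ → Cn I) → Prop}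

theorem CSf_bd (hc : S.Central) (hI : ∀ (z : Zi) (U : I), ((1 : G), z) • U = U) (ih : S.SN I N κ)
    (hP : Fz N P) (hr : 1 ≤ r) (hk : κ * r < R) {A : S.LO _ (Om N R P)} (e : A ⟶ A)
    (h : (S.lc _ (nr _ I N)).Ct r e) (he : e ≫ e = e) :
    ∃ D E : S.LO _ (Om N R P), (S.lc _ (nr _ I N)).So (5 * r + 9 * (κ * r)) e D E := by
  classical
  obtain ⟨F, hF, -, h3⟩ := (S.sup_top (A := A.A) (B := A.A) e).finite
  obtain ⟨j, hj⟩ := (hF.biUnion (t := fun g : G × Zi => (g.2.toAdd.support : Set ℕ))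
    fun _ _ => Finset.finite_toSet _).exists_notMem
  let Z : Zg (G × Zi) := ⟨⊤, fun g => g.2.toAdd j, fun a _ b _ => by simp⟩
  obtain ⟨f, f', a1, a2, a3, a4, a5⟩ := hc (Multiplicative.ofAdd (Finsupp.single j 1))
  let c : (S.lg _ (Om N R P)).Cz Z 1 := ⟨fun X => f X.A, fun X => f' X.A,
    fun X => (a1 X.A).ge1 (Z := Z) trivial (by simp [Z]),
    fun X => (a1 X.A).le1 (Z := Z) trivial (by simp [Z]),
    fun X => (a2 X.A).ge1 (Z := Z) trivial (by simp [Z]),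
    fun X => (a2 X.A).le1 (Z := Z) trivial (by simp [Z]), fun X => a3 X.A, fun X => a4 X.A,
    fun k => a5 k, fun {X Y} (k : X.A ⟶ Y.A) => by
      have := congrArg (fun k => f' X.A ≫ k ≫ f' Y.A) (a5 k)
      change f' X.A ≫ k = k ≫ f' Y.A
      simpa [reassoc_of% a4, a3] using this.symm⟩
  have q (X : S.LO _ (Om N R P)) (z : Zi) (k : X.A ⟶ X.A) (b : S.Sup {(1, z)} k)
      (b' : ∀ x, X.L.e x ≫ k = k ≫ X.L.e x) : (S.lc _ (nr _ I N)).Ct 0 (A := X) (B := X) k :=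
    fun x y => by
      by_cases m : x = y
      · refine (((X.L.spl x).deg.cp_eq |> Sup.one_comp) (b.comp_one (X.L.spl y).deg.cp_eq)).mono ?_
        rintro _ rfl
        have : ((1 : G), z) • y = y := funext fun i => Cn.ext (by
          rw [Pi.smul_apply, smul_l]
          cases (y i).l with
          | none => rfl
          | some U => exact congrArg some (hI z U)) rfl
        change (nr (G × Zi) I N).n 0 x (_ • y)
        rw [this, m]
        exact Nr.refl _ _ _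
      · rw [reassoc_of% b', X.L.orth x y m, Limits.comp_zero]
        exact .zero
  have hq : (S.lc _ (nr _ I N)).Cq c := fun X =>
    ⟨q X _ _ (a1 _) fun x => (a5 _).symm, q X _ _ (a2 _) fun x => (c.nψ (A := X) (B := X) _).symm⟩
  exact CF.boundary hq (fun _ => trivial) (A := A) (e := e)
    (h3.mono fun g hg => ⟨trivial, by
      by_contra k
      exact hj (Set.mem_biUnion hg (by simpa using k))⟩) h he (ih R r P hP hr hk _ _ _)

theorem CSf_pt (hz : ∃ Z : C, 𝟙 Z = 0) (hc : S.Central)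
    (hI : ∀ (z : Zi) (U : I), ((1 : G), z) • U = U) (ih : S.SN I N κ)
    (hP : Fz N P) (hr : 1 ≤ r) (hk : κ * r < R) {A : C} (L : S.Lo (ℕ → Cn I) A) {p : A ⟶ A}
    (h : L.Rg L (fun a g b => (nr (G × Zi) I N).n r a (g • b) ∧ Om N R P a ∧ Om N R P b) p)
    (hp : p ≫ p = p) :
    ∃ (D E : C) (LD : S.Lo (ℕ → Cn I) D) (LE : S.Lo (ℕ → Cn I) E) (x : S.sum A D ⟶ E)
      (y : E ⟶ S.sum A D), LD.On (Om N R P) ∧ LE.On (Om N R P) ∧
      (L.add LD).Rg LE (fun a g b => (nr (G × Zi) I N).n (5 * r + 9 * (κ * r)) a (g • b) ∧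
        Om N R P a ∧ Om N R P b) x ∧
      LE.Rg (L.add LD) (fun a g b => (nr (G × Zi) I N).n (5 * r + 9 * (κ * r)) a (g • b) ∧
        Om N R P a ∧ Om N R P b) y ∧ x ≫ y = S.blk p 0 0 (𝟙 D) ∧ y ≫ x = 𝟙 E := by
  obtain ⟨B, M, i, t, h1, h2, h3, h4, h5, h6, -⟩ := L.res hz (Om N R P)
  have z (a b) (k : ¬ (Om N R P a ∧ Om N R P b)) : L.e a ≫ p ≫ L.e b = 0 :=
    S.ext0 _ fun g => h a b g fun c => k c.2
  have e1 : t ≫ i ≫ p = p := L.ext_l fun a => by
    by_cases k : Om N R P a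
    · rw [reassoc_of% h4 a k]
    · rw [reassoc_of% h5 a k, zero_comp, ← L.sum_r p, Preadditive.comp_sum]
      exact (Finset.sum_eq_zero fun b _ => z a b fun c => k c.1).symm
  have e2 : p ≫ t ≫ i = p := by
    conv_lhs => rw [← L.sum_r p, Preadditive.sum_comp]
    conv_rhs => rw [← L.sum_r p]
    refine Finset.sum_congr rfl fun b _ => ?_
    by_cases k : Om N R P b
    · rw [Category.assoc, h4 b k]
    · have : p ≫ L.e b = 0 := L.ext_l fun a => by rw [z a b fun c => k c.2, comp_zero]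
      rw [this, zero_comp]
  obtain ⟨e, he⟩ : ∃ e : B ⟶ B, e = i ≫ p ≫ t := ⟨_, rfl⟩
  have e3 : M.Rg M (fun a g b => (nr (G × Zi) I N).n r a (g • b)) e :=
    he ▸ (h1.dg_comp (h.comp_dg h2)).mono fun _ _ _ c => c.1
  have e4 : e ≫ e = e := by simp only [he, Category.assoc, reassoc_of% e1, reassoc_of% hp]
  obtain ⟨D, E, x, y, b1, b2, b3, b4⟩ := CSf_bd hc hI ih hP hr hk (A := ⟨B, M, h6⟩) e e3 e4
  revert x y
  intro (x : S.sum B D.A ⟶ E.A) (y : E.A ⟶ S.sum B D.A) b1 b2 b3 b4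
  have c3 : x ≫ y = S.blk (i ≫ p ≫ t) 0 0 (𝟙 D.A) := he ▸ b3
  have c4 : y ≫ x = 𝟙 E.A := b4
  have d1 : (L.add D.L).Rg (M.add D.L) dg (S.blk t 0 0 (𝟙 D.A)) := by
    simpa [blk] using (rg_fst.dg_comp (h2.comp_dg rg_inl)).add
      (rg_snd.dg_comp (rg_inr (L := M) (L' := D.L)))
  have d2 : (M.add D.L).Rg (L.add D.L) dg (S.blk i 0 0 (𝟙 D.A)) := by
    simpa [blk] using (rg_fst.dg_comp (h1.comp_dg rg_inl)).add
      (rg_snd.dg_comp (rg_inr (L := L) (L' := D.L)))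
  refine ⟨D.A, E.A, D.L, E.L, S.blk t 0 0 (𝟙 D.A) ≫ x, y ≫ S.blk i 0 0 (𝟙 D.A), D.on, E.on,
    d1.dg_comp (Rg.on (L := M.add D.L) b1 (h6.add D.on) E.on fun _ _ _ a b c => ⟨c, a, b⟩),
    (Rg.on (M := M.add D.L) b2 E.on (h6.add D.on) fun _ _ _ a b c => ⟨c, a, b⟩).comp_dg d2, ?_, ?_⟩
  · rw [Category.assoc, reassoc_of% c3]
    simp [e1, e2]
  · rw [Category.assoc, ← Category.assoc (S.blk i 0 0 _)]
    simp [h3, c4]

end pt

variable {C : Type u} [Category.{v} C] [Preadditive C] [HasZeroObject C]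
variable {J : Type} {l : Filter J}

theorem sf_cone {Γ : Type w} [Group Γ] {S : GC (Γ × Zi) C} (hc : S.Central) {I : J → Type y}
    [∀ j, MulAction Γ (I j)] {R : J → ℕ} (hR : Tendsto R l atTop)
    (hW : ∀ᶠ j in l, ∀ (U : I j), ∀ H ≤ stabilizer Γ U, S.V H) (N : ℕ) (P)
    (hP : ∀ j, Cn.Fz N (P j)) : S.SF l (Ar.cone (.fst Γ Zi) I N R P) := by
  intro X
  have hz : ∃ Z : C, 𝟙 Z = 0 := ⟨0, (isZero_zero C).eq_of_src _ _⟩
  obtain ⟨r, hr⟩ := X.rg
  let ν := Ar.cone (.fst Γ Zi) I N R P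
  let s := 5 * (r + 1) + 9 * (kap N * (r + 1))
  let good : J → Prop := fun j => (X.L j).Rg (X.L j) (ν.n r j) (X.p j) ∧
    (∀ (U : I j), ∀ H ≤ stabilizer Γ U, S.V H) ∧ kap N * (r + 1) < R j
  have hg : ∀ᶠ j in l, good j := hr.and (hW.and (hR.eventually_gt_atTop _))
  have key (j : J) : ∃ (D E : C) (LD : S.Lo (ℕ → Cn (I j)) D) (LE : S.Lo (ℕ → Cn (I j)) E)
      (x : S.sum (X.A j) D ⟶ E) (y : E ⟶ S.sum (X.A j) D),
      S.blk (X.p j) 0 0 (𝟙 D) ≫ x = x ∧ y ≫ S.blk (X.p j) 0 0 (𝟙 D) = y ∧ (good j →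
        LD.On (Om N (R j) (P j)) ∧ LE.On (Om N (R j) (P j)) ∧
        ((X.L j).add LD).Rg LE (ν.n s j) x ∧ LE.Rg ((X.L j).add LD) (ν.n s j) y ∧
        x ≫ y = S.blk (X.p j) 0 0 (𝟙 D) ∧ y ≫ x = 𝟙 E) := by
    by_cases k : good j
    · let _ : MulAction (Γ × Zi) (I j) := MulAction.compHom (I j) (MonoidHom.fst Γ Zi)
      have sn' : S.SN (I j) N (kap N) := sn hz hc (fun z U => one_smul Γ U) (fun U H b c => by
        rw [show H = (H.map (.fst Γ Zi)).prod ⊤ from Subgroup.ext fun g => ⟨fun k => ⟨⟨g, k, rfl⟩,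
          trivial⟩, fun ⟨⟨k, d, e⟩, _⟩ => by
            rw [show g = k * (1, k.2⁻¹ * g.2) from Prod.ext (by simpa using e.symm) (by simp)]
            exact H.mul_mem d (c _)⟩]
        exact k.2.1 U _ (by rintro _ ⟨g, k, rfl⟩; exact b k)) N
      obtain ⟨D, E, LD, LE, x, y, a1, a2, a3, a4, a5, a6⟩ := CSf_pt hz hc
        (fun z U => one_smul Γ U) sn' (hP j) (Nat.le_add_left 1 r) k.2.2 (X.L j)
        (k.1.mono fun _ _ _ c => ν.mono c (Nat.le_succ r)) (X.idem j)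
      exact ⟨D, E, LD, LE, x, y, by rw [← a5, Category.assoc, a6, Category.comp_id],
        by rw [← a5, reassoc_of% a6], fun _ => ⟨a1, a2, a3, a4, a5, a6⟩⟩
    · exact ⟨_, _, X.L j, X.L j, 0, 0, comp_zero, zero_comp, fun a => (k a).elim⟩
  choose D E LD LE x y k1 k2 k3 using key
  have fr (B : J → C) (L : ∀ j, S.Lo (ℕ → Cn (I j)) (B j))
      (h : ∀ j, good j → (L j).On (Om N (R j) (P j))) : Ec l ν L L fun j => 𝟙 (B j) :=
    ⟨0, hg.mono fun j k => rg_id.on (h j k) (h j k) fun a g b c d e => by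
      refine ⟨?_, c, d⟩
      change (nr Γ (I j) N).n 0 a ((MonoidHom.fst Γ Zi) g • b)
      rw [e.1, e.2, map_one, one_smul]
      exact Nr.refl _ _ _⟩
  let D' : S.AS l ν := ⟨D, LD, fun j => 𝟙 _, fun j => Category.id_comp _,
    fr D LD fun j k => (k3 j k).1⟩
  let E' : S.AS l ν := ⟨E, LE, fun j => 𝟙 _, fun j => Category.id_comp _,
    fr E LE fun j k => (k3 j k).2.1⟩
  let x' : AS.sum X D' ⟶ E' := AS.homMk x k1 (fun j => Category.comp_id _)
    ⟨s, hg.mono fun j k => (k3 j k).2.2.1⟩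
  let y' : E' ⟶ AS.sum X D' := AS.homMk y (fun j => Category.id_comp _) k2
    ⟨s, hg.mono fun j k => (k3 j k).2.2.2.1⟩
  have tot := congrArg (AO.π S l ν).map (AS.bicone_total X D')
  rw [Functor.map_add, Functor.map_comp, Functor.map_comp, CategoryTheory.Functor.map_id] at tot
  refine ⟨D', E', .of_forall fun j => rg_id, .of_forall fun j => rg_id,
    ⟨(biprod.uniqueUpToIso _ _ (isBinaryBilimitOfTotal
      ((AO.π S l ν).mapBinaryBicone (AS.bicone X D')) tot)).symm ≪≫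
      ⟨(AO.π S l ν).map x', (AO.π S l ν).map y', ?_, ?_⟩⟩⟩
  · exact ((AO.π S l ν).map_comp x' y').symm.trans ((AO.π_eq.2
      (hg.mono fun j k => (k3 j k).2.2.2.2.1)).trans ((AO.π S l ν).map_id _))
  · exact ((AO.π S l ν).map_comp y' x').symm.trans ((AO.π_eq.2
      (hg.mono fun j k => (k3 j k).2.2.2.2.2)).trans ((AO.π S l ν).map_id _))

end GC

end Pool.Agent.Lib.MP_5d3e93_al
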