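import Pool.Agent.Lib.MP_5d3e93_al.K.CLb
import Pool.Agent.Lib.MP_5d3e93_al.K.CSf
import Pool.Agent.Lib.MP_5d3e93_al.K.CK1

/-! Labelled covers with any finite number of labels. -/

open CategoryTheory Limits ZeroObject Filter MulAction

namespace Pool.Agent.Lib.MP_5d3e93_al

universe w w' v u y y' v' u'

open Gr

namespace GC

variable {C : Type u} [Category.{v} C] [Preadditive C] [HasZeroObject C]

variable {J : Type} {Y : J → Type y} {l : Filter J}

/-- The general case. -/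
theorem ev_lab {Γ : Type w} [Group Γ] {S : GC (Γ × Zi) C} (ok : S.Ok) [∀ j, MulAction Γ (Y j)]
    {I : J → Type y'} [∀ j, MulAction Γ (I j)] {ρ : ∀ j, Y j → Y j → Prop} (h1 : ∀ j y, ρ j y y)
    (h2 : ∀ j x y, ρ j x y → ρ j y x) (h3 : ∀ j (g : Γ) x y, ρ j x y → ρ j (g • x) (g • y))
    {ι : Type} [Fintype ι] (Lab : ∀ j, ι → Y j → I j → Prop)
    (h4 : ∀ j i y U U', Lab j i y U → Lab j i y U' → U = U')
    (h5 : ∀ j i (g : Γ) y U, Lab j i y U → Lab j i (g • y) (g • U)) {α : ∀ j, Y j → Prop}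
    {b : J → ℕ} (hb : Tendsto b l atTop)
    (h6 : ∀ R, ∀ᶠ j in l, ∀ y, α j y → ∃ i U, ∀ y', Pth (ρ j) R y y' → Lab j i y' U)
    (hK : ∀ᶠ j in l, ∀ (U : I j), ∀ H ≤ stabilizer Γ U, S.WK (H.comap (.fst Γ Zi))) :
    S.EV l ((Ar.act (.fst Γ Zi) fun j => Nr.pth Γ (ρ j) (h1 j) (h3 j)).res α) (S.au l _).bdd := by
  obtain ⟨R, hR, φ, h⟩ := clb_co h1 h2 h3 Lab h4 h5 hb h6 (MonoidHom.fst Γ Zi)
  refine EV.push φ h (Am.Map.bdd_map _) le_rfl (zo_cone hR (hK.mono fun j a x ⟨i, U, e⟩ =>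
    a U _ fun g k => ?_) (sf_cone ok.hc hR (hK.mono fun j a U H k => ?_)) _ _
      fun _ _ _ _ a => a).ev
  · have := congrArg (fun z : ℕ → Cn (I j) => (z i).l) (mem_stabilizer_iff.1 k)
    simp only [Pi.smul_apply, Cn.smul_l, e] at this
    exact Option.some.inj this
  · have := W_of_WK ok.h0 (a U H k)
    rw [← Subgroup.prod_top] at this
    exact this

end GC

end Pool.Agent.Lib.MP_5d3e93_al
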