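import Pool.Agent.Lib.MP_5d3e93_al.K.CLc
import Pool.Agent.Lib.MP_5d3e93_al.GQ.Lab
import Pool.Agent.Lib.MP_5d3e93_al.Pc

/-! Covers of bounded order. -/

open CategoryTheory Limits ZeroObject Filter MulAction

namespace Pool.Agent.Lib.MP_5d3e93_al

universe w v u y y'

open Gr

namespace GC

variable {C : Type u} [Category.{v} C] [Preadditive C] [HasZeroObject C]
  {J : Type} {Y : J → Type y} {l : Filter J}
  {Γ : Type w} [Group Γ] {S : GC (Γ × Zi) C} (ok : S.Ok) [∀ j, MulAction Γ (Y j)]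
  {I : J → Type y'} [∀ j, MulAction Γ (I j)] {ρ : ∀ j, Y j → Y j → Prop} (h1 : ∀ j y, ρ j y y)
  (h2 : ∀ j x y, ρ j x y → ρ j y x) (h3 : ∀ j (g : Γ) x y, ρ j x y → ρ j (g • x) (g • y))
  {ι : Type} [Fintype ι] (Lab : ∀ j, ι → Y j → I j → Prop)
  (h5 : ∀ j i (g : Γ) y U, Lab j i y U → Lab j i (g • y) (g • U)) {α : ∀ j, Y j → Prop}
  {b : J → ℕ} (hb : Tendsto b l atTop)
  (h6 : ∀ R, ∀ᶠ j in l, ∀ y, α j y → ∃ i U, ∀ y', Pth (ρ j) R y y' → Lab j i y' U)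
include ok h2 h5 hb h6

/-- Only the labels that occur matter. -/
theorem ev_lab' (h4 : ∀ j i y U U', Lab j i y U → Lab j i y U' → U = U')
    (hK : ∀ᶠ j in l, ∀ i y U, Lab j i y U → ∀ H ≤ stabilizer Γ U, S.WK (H.comap (.fst Γ Zi))) :
    S.EV l ((Ar.act (.fst Γ Zi) fun j => Nr.pth Γ (ρ j) (h1 j) (h3 j)).res α) (S.au l _).bdd := by
  let O : ∀ j, SubMulAction Γ (I j) := fun j =>
    ⟨{U | ∃ i y, Lab j i y U}, fun g {U} ⟨i, y, h⟩ => ⟨i, g • y, h5 j i g y U h⟩⟩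
  refine ev_lab ok (I := fun j => O j) h1 h2 h3 (fun j i y U => Lab j i y U.1)
    (fun j i y U U' a c => Subtype.ext (h4 j i y _ _ a c)) (fun j i g y U a => h5 j i g y _ a) hb
    (fun R => (h6 R).mono fun j a y c => ?_) (hK.mono fun j a ⟨U, i, y, c⟩ H k =>
      a i y U c H fun g m => congrArg Subtype.val (mem_stabilizer_iff.1 (k m)))
  obtain ⟨i, U, d⟩ := a y c
  exact ⟨i, ⟨U, i, y, d y (Pth.succ (h1 j) (Nat.zero_le R) rfl)⟩, d⟩

/-- In each colour at most `N` labels contain a point. The groups that occur virtually fix a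
label, and fix it where it is the only one. -/
theorem ev_cov (N : ℕ) (h4 : ∀ᶠ j in l, ∀ i y, α j y →
      {U | Lab j i y U}.Finite ∧ {U | Lab j i y U}.ncard ≤ N)
    (hK : ∀ᶠ j in l, ∀ i y U, Lab j i y U → ∀ H : Subgroup Γ, Fi (stabilizer Γ U) H →
      ((∀ V, Lab j i y V → V = U) → H ≤ stabilizer Γ U) → S.WK (H.comap (.fst Γ Zi))) :
    S.EV l ((Ar.act (.fst Γ Zi) fun j => Nr.pth Γ (ρ j) (h1 j) (h3 j)).res α) (S.au l _).bdd := by
  refine ev_lab' ok (I := fun j => GQ.Fs (I j)) (ι := ι × Fin N) h1 h2 h3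
    (fun j i y a => GQ.col (ρ j) (Lab j i.1) i.2 y a)
    (fun j i g y a => GQ.col_smul (h3 j) (h5 j i.1) _ g y a) hb
    (fun R => ((h6 (2 * R * N)).and h4).mono fun j a y c => ?_)
    (fun j i y => GQ.col_uniq (h1 j) _ y) (hK.mono fun j a i y s ⟨_, t, e⟩ H k => ?_)
  · obtain ⟨i, d⟩ := a.1 y c
    obtain ⟨m, s, -, f⟩ := GQ.col_ex (h1 j) (h2 j) (a.2 i y c).1 (a.2 i y c).2 d
    exact ⟨(i, m), s, f⟩
  · have s0 (U) (m : U ∈ s.s) : Lab j i.1 y U :=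
      (e ▸ m : U ∈ GQ.deep _ _ t y) y (Pth.succ (h1 j) (Nat.zero_le t) rfl)
    obtain ⟨U, m⟩ := s.ne
    refine a i.1 y U (s0 U m) H (s.fi k m) fun o g p => o _ (s0 _ ?_)
    rw [← congrArg GQ.Fs.s (mem_stabilizer_iff.1 (k p))]
    exact ⟨U, m, rfl⟩

end GC

end Pool.Agent.Lib.MP_5d3e93_al
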