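import Pool.Agent.Lib.MP_5d3e93_al.K.CDf
import Pool.Agent.Lib.MP_5d3e93_al.K.Ad

/-! Asymptotic control: close maps, retracts, finite sums of copies. -/

open CategoryTheory Limits ZeroObject Filter MulAction

namespace Pool.Agent.Lib.MP_5d3e93_al

universe w w' v u y y' v' u'

open Gr

namespace GC

variable {G : Type w} [Group G] {C : Type u} [Category.{v} C] [Preadditive C] [HasZeroObject C]
  {S : GC G C}

variable {J : Type} {Y : J → Type y} {Y' : J → Type y'} {l l' : Filter J} {ν : Ar G Y}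
  {ν' : Ar G Y'}

section CTe

omit [HasZeroObject C] in
/-- Close maps: the isomorphism is given by the idempotents. -/
theorem push_iso {φ ψ : ∀ j, Y j → Y' j} (h : Ar.Co l ν ν' φ φ) (k : Ar.Co l ν ν' ψ ψ)
    (e : Ar.Co l ν ν' φ ψ) (e' : Ar.Co l ν ν' ψ φ) :
    Nonempty (AO.push S φ h ≅ AO.push S ψ k) :=
  let i : AS.push S φ h ≅ AS.push S ψ k := NatIso.ofComponents
    (fun X => ⟨AS.homMk X.p X.idem X.idem (X.rg.map e), AS.homMk X.p X.idem X.idem (X.rg.map e'),
      AS.hom_ext X.idem, AS.hom_ext X.idem⟩)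
    fun f => AS.hom_ext fun j => (AS.comp_p f j).trans (AS.p_comp f j).symm
  ⟨Quotient.natIsoLift _ (Functor.isoWhiskerRight i (AO.π S l ν'))⟩

theorem ZO.retract (φ : ∀ j, Y j → Y' j) (ψ : ∀ j, Y' j → Y j) (h : Ar.Co l ν ν' φ φ)
    (k : Ar.Co l ν' ν ψ ψ) (e : Ar.Co l ν ν (fun _ => id) fun j => ψ j ∘ φ j)
    (e' : Ar.Co l ν ν (fun j => ψ j ∘ φ j) fun _ => id) (z : S.ZO l ν') : S.ZO l ν := by
  let i : AS.push S φ h ⋙ AS.push S ψ k ≅ 𝟭 _ := NatIso.ofComponents
    (fun X => ⟨AS.homMk X.p X.idem X.idem (by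
        obtain ⟨r, a⟩ := X.rg
        obtain ⟨s, b⟩ := e' r
        exact ⟨s, (a.and b).mono fun j c => (c.1.mapl (φ := φ j)
          (R' := fun x g y => ν.n s j (ψ j x) g y) c.2).mapl fun _ _ _ d => d⟩),
      AS.homMk X.p X.idem X.idem (by
        obtain ⟨r, a⟩ := X.rg
        obtain ⟨s, b⟩ := e r
        exact ⟨s, (a.and b).mono fun j c => (c.1.mapr (φ := φ j)
          (R' := fun x g y => ν.n s j x g (ψ j y)) c.2).mapr fun _ _ _ d => d⟩),
      AS.hom_ext X.idem, AS.hom_ext X.idem⟩)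
    fun f => AS.hom_ext fun j => (AS.comp_p f j).trans (AS.p_comp f j).symm
  exact Am.Z_retract.{v, max u y, v, max u y'} (AO.push S φ h) (AO.push S ψ k)
    (Quotient.natIsoLift _ (Functor.isoWhiskerRight i (AO.π S l ν))) z

theorem zo_empty (h : ∀ r, ∀ᶠ j in l, ∀ a g b, ¬ ν.n r j a g b) : S.ZO l ν :=
  Am.knl_zero fun X _ => (S.ao l ν).idm.isZero (fun (M : S.AO l ν) => by
    obtain ⟨r, a⟩ := M.as.rg
    refine (IsZero.iff_id_eq_zero _).2 (((AO.π S l ν).map_id M.as).symm.trans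
      ((AO.π_eq.2 ?_).trans ((AO.π S l ν).map_zero M.as M.as)))
    exact (a.and (h r)).mono fun j c => c.1.eq_zero c.2) X

/-- Functors that keep eventual equality. -/
def Kr (F : S.AS l ν ⥤ S.AS l ν') : Prop :=
  ∀ ⦃M N⦄ (f g : M ⟶ N), AS.rel S l ν f g → AS.rel S l ν' (F.map f) (F.map g)

/-- The induced functor. -/
abbrev Kr.fn {F : S.AS l ν ⥤ S.AS l ν'} (h : Kr F) : S.AO l ν ⥤ S.AO l ν' :=
  AO.desc F fun f g k => h f g k

/-- The induced map on K-groups. -/
noncomputable def Kr.km {F : S.AS l ν ⥤ S.AS l ν'} [F.Additive] (h : Kr F) (n : ℕ) :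
    Am.Kn n (S.ao l ν) (S.ao l ν).bdd →+ Am.Kn n (S.ao l ν') (S.ao l ν').bdd :=
  Am.Kmap n (Am.ofOf.{v, max u y, v, max u y'} h.fn) (Am.Map.bdd_map _)

theorem kd_iso {F F' : S.AS l ν ⥤ S.AS l ν'} [F.Additive] [F'.Additive] (h : Kr F) (h' : Kr F')
    (e : F ≅ F') (n : ℕ) : h.km n = h'.km n :=
  Am.Kmap_iso (S' := Am.bdd _) n (Am.ofOf.{v, max u y, v, max u y'} h.fn) (Am.ofOf h'.fn)
    (Quotient.natIsoLift _ (Functor.isoWhiskerRight e (AO.π S l ν'))) _ _

theorem kd_ses {F₁ F F₂ : S.AS l ν ⥤ S.AS l ν'} [F₁.Additive] [F.Additive] [F₂.Additive]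
    (h₁ : Kr F₁) (h : Kr F) (h₂ : Kr F₂) (α : F₁ ⟶ F) (β : F ⟶ F₂)
    (k : ∀ X, ∃ r s, α.app X ≫ r = 𝟙 _ ∧ s ≫ β.app X = 𝟙 _ ∧ r ≫ α.app X + β.app X ≫ s = 𝟙 _)
    (n : ℕ) : h.km n = h₁.km n + h₂.km n :=
  Am.null_ses.{v, max u y, v, max u y'} (F₁ := h₁.fn) (F := h.fn) (F₂ := h₂.fn)
    (Quotient.natTransLift _ (Functor.whiskerRight α (AO.π S l ν')))
    (Quotient.natTransLift _ (Functor.whiskerRight β (AO.π S l ν'))) (fun X => by
      obtain ⟨r, s, a, b, c⟩ := k X.as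
      have a' := congrArg (AO.π S l ν').map a
      have b' := congrArg (AO.π S l ν').map b
      have c' := congrArg (AO.π S l ν').map c
      rw [Functor.map_add] at c'
      simp only [Functor.map_comp, CategoryTheory.Functor.map_id] at a' b' c'
      exact ⟨(AO.π S l ν').map r, (AO.π S l ν').map s, a', b', c'⟩) n

end CTe

variable (S) in
/-- A finite sum of copies of an object. -/
structure Cpy (A : C) (k : ℕ) where
  P : C
  i : Fin k → (A ⟶ P)
  r : Fin k → (P ⟶ A)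
  hi : ∀ x, S.Sup {1} (i x)
  hr : ∀ x, S.Sup {1} (r x)
  ir : ∀ x, i x ≫ r x = 𝟙 A
  ne : ∀ x y, x ≠ y → i x ≫ r y = 0
  tot : ∑ x, r x ≫ i x = 𝟙 P

variable (S) in
/-- A chosen sum of copies. -/
noncomputable def cpy (A : C) (k : ℕ) : S.Cpy A k := Classical.choice (by
  obtain ⟨P, i, r, h1, h2, h3, h4, h5⟩ := S.orth (hz_of (C := C)) (Fin k) fun _ => A
  exact ⟨⟨P, i, r, h1, h2, h3, h4, h5⟩⟩)

namespace Cpy

omit [HasZeroObject C]

variable {A B D E : C} {k : ℕ} (c : S.Cpy A k) (d : S.Cpy B k) (e : S.Cpy D k)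
variable {ι κ : Type} [Fintype ι] [Fintype κ] {X : Type*}

/-- Matrices with one entry for each index. -/
def mat (σ τ : ι → Fin k) (f : ι → (A ⟶ B)) : c.P ⟶ d.P := ∑ m, c.r (σ m) ≫ f m ≫ d.i (τ m)

theorem i_mat {σ : ι → Fin k} (h : Function.Injective σ) (τ : ι → Fin k) (f : ι → (A ⟶ B))
    (m : ι) : c.i (σ m) ≫ c.mat d σ τ f = f m ≫ d.i (τ m) := by
  rw [mat, Preadditive.comp_sum, Finset.sum_eq_single m, reassoc_of% c.ir]
  · exact fun y _ a => by rw [reassoc_of% c.ne _ _ (h.ne a.symm), zero_comp]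
  · simp

theorem mat_r (σ : ι → Fin k) {τ : ι → Fin k} (h : Function.Injective τ) (f : ι → (A ⟶ B))
    (m : ι) : c.mat d σ τ f ≫ d.r (τ m) = c.r (σ m) ≫ f m := by
  rw [mat, Preadditive.sum_comp, Finset.sum_eq_single m]
  · simp [d.ir]
  · exact fun y _ a => by simp [d.ne _ _ (h.ne a)]
  · simp

theorem mat_comp (σ : ι → Fin k) {τ : ι → Fin k} (h : Function.Injective τ) (ρ : ι → Fin k)
    (f : ι → (A ⟶ B)) (g : ι → (B ⟶ D)) :
    c.mat d σ τ f ≫ d.mat e τ ρ g = c.mat e σ ρ fun m => f m ≫ g m := by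
  conv_lhs => rw [mat, Preadditive.sum_comp]
  exact Finset.sum_congr rfl fun m _ => by simp only [Category.assoc, d.i_mat e h]

theorem all_mat (σ τ : ι → Fin k) (f : A ⟶ B) (g : B ⟶ D) :
    c.mat d id id (fun _ => f) ≫ d.mat e σ τ (fun _ => g) = c.mat e σ τ fun _ => f ≫ g := by
  conv_lhs => rw [mat.eq_1 d, Preadditive.comp_sum]
  exact Finset.sum_congr rfl fun m _ => by
    have := c.mat_r d id Function.injective_id (fun _ => f) (σ m)
    simp only [id] at this
    rw [reassoc_of% this, Category.assoc]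

theorem mat_all (σ τ : ι → Fin k) (f : A ⟶ B) (g : B ⟶ D) :
    c.mat d σ τ (fun _ => f) ≫ d.mat e id id (fun _ => g) = c.mat e σ τ fun _ => f ≫ g := by
  conv_lhs => rw [mat, Preadditive.sum_comp]
  exact Finset.sum_congr rfl fun m _ => by
    have := d.i_mat e Function.injective_id id (fun _ => g) (τ m)
    simp only [id] at this
    simp only [Category.assoc, this]

theorem mat_add (σ τ : ι → Fin k) (f g : ι → (A ⟶ B)) :
    c.mat d σ τ (fun m => f m + g m) = c.mat d σ τ f + c.mat d σ τ g := by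
  simp [mat, Finset.sum_add_distrib]

open Classical in
/-- The locations of a sum of copies. -/
noncomputable def lo (L : Fin k → S.Lo X A) : S.Lo X c.P where
  e y := c.mat c id id fun m => (L m).e y
  s := Finset.univ.biUnion fun m => (L m).s
  out y h := Finset.sum_eq_zero fun m _ => by
    simp [(L m).out y fun a => h (Finset.mem_biUnion.2 ⟨m, Finset.mem_univ _, a⟩)]
  spl y := .sum _ (fun m => ((L m).spl y).tr (c.hi m) (c.hr m) (c.ir m)) fun m m' h => by
    simp [reassoc_of% c.ne _ _ h]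
  orth y z h := by
    rw [c.mat_comp c c id Function.injective_id]
    simp [mat, fun m => (L m).orth y z h]
  total := by
    rw [← c.tot]
    simp only [mat]
    rw [Finset.sum_comm]
    refine Finset.sum_congr rfl fun m _ => ?_
    rw [← Preadditive.comp_sum, ← Preadditive.sum_comp, ← Finset.sum_subset
      (Finset.subset_biUnion_of_mem (fun m => (L m).s) (Finset.mem_univ m))
      fun y _ a => (L m).out y a, (L m).total]
    simp

theorem rg_i (L : Fin k → S.Lo X A) (m : Fin k) : (L m).Rg (c.lo L) Lo.dg (c.i m) :=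
  Lo.rg_dg (c.hi m) fun x y h => by
    have := c.i_mat c Function.injective_id id (fun m => (L m).e y) m
    rw [show c.i m ≫ (c.lo L).e y = (L m).e y ≫ c.i m from this, reassoc_of% (L m).orth x y h,
      zero_comp]

theorem rg_r (L : Fin k → S.Lo X A) (m : Fin k) : (c.lo L).Rg (L m) Lo.dg (c.r m) :=
  Lo.rg_dg (c.hr m) fun x y h => by
    have := c.mat_r c id Function.injective_id (fun m => (L m).e x) m
    rw [← Category.assoc, show (c.lo L).e x ≫ c.r m = c.r m ≫ (L m).e x from this,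
      Category.assoc, (L m).orth x y h, comp_zero]

theorem rg_mat (L : Fin k → S.Lo X A) (N : Fin k → S.Lo X B) (σ τ : ι → Fin k)
    {f : ι → (A ⟶ B)} {R : X → G → X → Prop} (h : ∀ m, (L (σ m)).Rg (N (τ m)) R (f m)) :
    (c.lo L).Rg (d.lo N) R (c.mat d σ τ f) :=
  .sum _ fun m _ => (c.rg_r L _).dg_comp ((h m).comp_dg (d.rg_i N _))

end Cpy

end GC

end Pool.Agent.Lib.MP_5d3e93_al
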