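import Pool.Agent.Lib.MP_5d3e93_al.K.CDf
import Pool.Agent.Lib.MP_5d3e93_al.K.Ad

/-! Tensor functors and the action of lattices on K-theory. -/

open CategoryTheory Limits ZeroObject Filter MulAction

namespace Pool.Agent.Lib.MP_5d3e93_al

universe w w' v u

open Gr

namespace GC

variable {G : Type w} [Group G] {C : Type u} [Category.{v} C] [Preadditive C] {S : GC G C}
variable {Q : Type w'} [Group Q]

section Ac

variable {A B D X Y : C} (π : G →* Q)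

variable (S A) in
/-- The action on additive maps, two objects. -/
noncomputable def ac2 (L : Lat Q) (θ : L.M → (B ⟶ X)) (m : L.M) : (A ⟶ B) →+ (A ⟶ X) :=
  S.ex fun g => Preadditive.rightComp _ (θ (L.T (π g)⁻¹ m))

variable {π} {L L' : Lat Q}

theorem ac2_cp (θ : L.M → (B ⟶ X)) (m : L.M) (g : G) (f : A ⟶ B) :
    S.ac2 A π L θ m (S.cp g f) = S.cp g f ≫ θ (L.T (π g)⁻¹ m) := ex_cp _ _ _

theorem ac2_comp (θ : L.M → (B ⟶ X)) (m : L.M) (f : A ⟶ B) (k : X ⟶ Y) :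
    S.ac2 A π L θ m f ≫ k = S.ac2 A π L (fun m => θ m ≫ k) m f :=
  ind_all (S := S) (P := fun f => S.ac2 A π L θ m f ≫ k = S.ac2 A π L (fun m => θ m ≫ k) m f) f
    (by simp) (fun a b ha hb => by simp only [map_add, Preadditive.add_comp, ha, hb])
    fun g => by simp only [ac2_cp, Category.assoc]

theorem ac2_congr {θ : L.M → (B ⟶ X)} {θ' : L'.M → (B ⟶ X)} {m : L.M} {m' : L'.M}
    (h : ∀ q, θ (L.T q m) = θ' (L'.T q m')) : S.ac2 A π L θ m = S.ac2 A π L' θ' m' := by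
  simp only [ac2, h]

theorem ac2_add {θ : L.M → (B ⟶ X)} (h : ∀ a b, θ (a + b) = θ a + θ b) (f : A ⟶ B) (a b : L.M) :
    S.ac2 A π L θ (a + b) f = S.ac2 A π L θ a f + S.ac2 A π L θ b f :=
  ind_all (S := S)
    (P := fun f => S.ac2 A π L θ (a + b) f = S.ac2 A π L θ a f + S.ac2 A π L θ b f) f
    (by simp) (fun x y hx hy => by simp only [map_add, hx, hy]; abel)
    fun g => by simp only [ac2_cp, map_add, h, Preadditive.comp_add]

theorem ac2_mul (θ : L.M → (D ⟶ X)) (m : L.M) (f : A ⟶ B) (f' : B ⟶ D) :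
    S.ac2 A π L θ m (f ≫ f') = S.ac2 A π L (fun m => S.ac2 B π L θ m f') m f := by
  refine ind_all (S := S) (P := fun f => S.ac2 A π L θ m (f ≫ f') =
    S.ac2 A π L (fun m => S.ac2 B π L θ m f') m f) f (by simp)
    (fun a b ha hb => by simp only [map_add, Preadditive.add_comp, ha, hb]) fun g => ?_
  rw [ac2_cp]
  refine ind_all (S := S) (P := fun f' => S.ac2 A π L θ m (S.cp g f ≫ f') =
    S.cp g f ≫ S.ac2 B π L θ (L.T (π g)⁻¹ m) f') f' (by simp)
    (fun a b ha hb => by simp only [map_add, Preadditive.comp_add, ha, hb]) fun k => ?_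
  have e := S.cp_comp (S.cp_same g f) (S.cp_same k f')
  rw [← e, ac2_cp, e, ac2_cp, map_mul, mul_inv_rev, map_mul, Category.assoc]
  rfl

theorem ac2_triv (θ : L.M → (B ⟶ X)) {m : L.M} (h : ∀ q, L.T q m = m) (f : A ⟶ B) :
    S.ac2 A π L θ m f = f ≫ θ m :=
  ind_all (S := S) (P := fun f => S.ac2 A π L θ m f = f ≫ θ m) f (by simp)
    (fun a b ha hb => by simp only [map_add, Preadditive.add_comp, ha, hb])
    fun g => by rw [ac2_cp, h]

variable (F : S.Fm A L.M) (F' : S.Fm B L.M) (F'' : S.Fm D L.M)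

variable (π) in
/-- Tensor product of a morphism with a lattice. -/
noncomputable def Fm.tm (y : A ⟶ B) : F.P ⟶ F'.P := F.desc fun m => S.ac2 A π L F'.In m y

@[reassoc]
theorem Fm.In_tm (y : A ⟶ B) (m : L.M) : F.In m ≫ F.tm π F' y = S.ac2 A π L F'.In m y :=
  F.In_desc (θ := fun m => S.ac2 A π L F'.In m y) (ac2_add (map_add _) _) m

theorem Fm.tm_id : F.tm π F (𝟙 A) = 𝟙 _ := F.ext fun m => by
  rw [Fm.In_tm, ← S.cp_id, ac2_cp, S.cp_id]
  simp

theorem Fm.tm_comp (a : A ⟶ B) (b : B ⟶ D) :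
    F.tm π F'' (a ≫ b) = F.tm π F' a ≫ F'.tm π F'' b := F.ext fun m => by
  rw [Fm.In_tm, Fm.In_tm_assoc, ac2_comp, ac2_mul]
  simp only [Fm.In_tm]

theorem Fm.tm_add (a b : A ⟶ B) : F.tm π F' (a + b) = F.tm π F' a + F.tm π F' b := by
  simp only [Fm.tm, map_add, F.desc_add]

theorem Fm.tm_mp (E : S.Fm A L'.M) (E' : S.Fm B L'.M) {α : L.M →ₗ[ℤ] L'.M}
    (h : ∀ q m, α (L.T q m) = L'.T q (α m)) (y : A ⟶ B) :
    F.tm π F' y ≫ F'.mp E' α = F.mp E α ≫ E.tm π E' y := F.ext fun m => by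
  rw [Fm.In_mp_assoc, Fm.In_tm, Fm.In_tm_assoc, ac2_comp]
  exact DFunLike.congr_fun (ac2_congr fun q => by rw [Fm.In_mp, h]) _

end Ac

section Lift

variable {F F₁ F₂ : C ⥤ C}

/-- A morphism of the values, cut by the idempotents. -/
noncomputable def LQ.liftH (M : S.LQ (Rl.pt ⊤)) (r : F.obj M.A ⟶ F₁.obj M.A) :
    (LQ.lift S F).obj M ⟶ (LQ.lift S F₁).obj M :=
  LQ.cut (M := (LQ.lift S F).obj M) (N := (LQ.lift S F₁).obj M) r fun _ _ _ h => (h trivial).elim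

theorem LQ.liftH_f (M : S.LQ (Rl.pt ⊤)) (r : F.obj M.A ⟶ F₁.obj M.A) :
    (LQ.liftH M r).1 = F.map M.p ≫ r ≫ F₁.map M.p := rfl

variable (S) in
/-- Natural transformations act on the idempotent completion. -/
noncomputable def LQ.liftN (α : F ⟶ F₁) : LQ.lift S F ⟶ LQ.lift S F₁ where
  app M := LQ.liftH M (α.app M.A)
  naturality M N f := LQ.hom_ext (by
    change F.map f.1 ≫ F.map N.p ≫ α.app N.A ≫ F₁.map N.p =
      (F.map M.p ≫ α.app M.A ≫ F₁.map M.p) ≫ F₁.map f.1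
    simp only [Category.assoc, α.naturality_assoc, ← F₁.map_comp, LQ.idem, LQ.p_comp,
      LQ.comp_p])

variable [HasZeroObject C] [F.Additive] [F₁.Additive] [F₂.Additive]

theorem lm_ses (α : F₁ ⟶ F) (β : F ⟶ F₂) (k : ∀ A, ∃ r s, α.app A ≫ r = 𝟙 _ ∧
    s ≫ β.app A = 𝟙 _ ∧ r ≫ α.app A + β.app A ≫ s = 𝟙 _) (n : ℕ) :
    Am.Kmap n (S.lm F) (Am.Map.bdd_map _) =
      Am.Kmap n (S.lm F₁) (Am.Map.bdd_map _) + Am.Kmap n (S.lm F₂) (Am.Map.bdd_map _) := by
  refine Am.null_ses (LQ.liftN S α) (LQ.liftN S β) (fun M => ?_) n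
  obtain ⟨r, s, a, b, c⟩ := k M.A
  have e : F.map M.p ≫ F.map M.p = F.map M.p := by rw [← F.map_comp, M.idem]
  have e₁ : F₁.map M.p ≫ F₁.map M.p = F₁.map M.p := by rw [← F₁.map_comp, M.idem]
  have e₂ : F₂.map M.p ≫ F₂.map M.p = F₂.map M.p := by rw [← F₂.map_comp, M.idem]
  refine ⟨LQ.liftH M r, LQ.liftH M s, LQ.hom_ext ?_, LQ.hom_ext ?_, LQ.hom_ext ?_⟩
  · change (F₁.map M.p ≫ α.app M.A ≫ F.map M.p) ≫ F.map M.p ≫ r ≫ F₁.map M.p = F₁.map M.p
    simp only [Category.assoc, ← α.naturality_assoc, reassoc_of% a, e₁]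
  · change (F₂.map M.p ≫ s ≫ F.map M.p) ≫ F.map M.p ≫ β.app M.A ≫ F₂.map M.p = F₂.map M.p
    simp only [Category.assoc, β.naturality_assoc, reassoc_of% b, e₂]
  · change (F.map M.p ≫ r ≫ F₁.map M.p) ≫ F₁.map M.p ≫ α.app M.A ≫ F.map M.p +
      (F.map M.p ≫ β.app M.A ≫ F₂.map M.p) ≫ F₂.map M.p ≫ s ≫ F.map M.p = F.map M.p
    have := congrArg (fun t => F.map M.p ≫ t ≫ F.map M.p) c
    simp only [Preadditive.comp_add, Preadditive.add_comp, Category.assoc, Category.id_comp,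
      e] at this
    simp only [Category.assoc, α.naturality_assoc, ← β.naturality_assoc, reassoc_of% e, e, this]

theorem lm_id (i : 𝟭 C ≅ F) (n : ℕ) (x : Am.Kn n S.top S.top.bdd) :
    Am.Kmap n (S.lm F) (Am.Map.bdd_map _) x = x := by
  have e (M : S.LQ (Rl.pt ⊤)) : M.p ≫ i.hom.app M.A = i.hom.app M.A ≫ F.map M.p :=
    i.hom.naturality M.p
  let j : LQ.lift S F ≅ 𝟭 _ := NatIso.ofComponents (fun M =>
    ⟨LQ.cut (M := (LQ.lift S F).obj M) (N := M) (i.inv.app M.A) fun _ _ _ h => (h trivial).elim,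
      LQ.cut (M := M) (N := (LQ.lift S F).obj M) (i.hom.app M.A) fun _ _ _ h => (h trivial).elim,
      LQ.hom_ext (by
        change (F.map M.p ≫ i.inv.app M.A ≫ M.p) ≫ M.p ≫ i.hom.app M.A ≫ F.map M.p = F.map M.p
        simp only [Category.assoc, reassoc_of% e, Iso.inv_hom_id_app_assoc, ← F.map_comp,
          LQ.idem]),
      LQ.hom_ext (by
        change (M.p ≫ i.hom.app M.A ≫ F.map M.p) ≫ F.map M.p ≫ i.inv.app M.A ≫ M.p = M.p
        simp only [Category.assoc, ← reassoc_of% e, Iso.hom_inv_id_app_assoc, LQ.idem])⟩)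
    fun {M N} f => LQ.hom_ext (by
      change F.map f.1 ≫ F.map N.p ≫ i.inv.app N.A ≫ N.p =
        (F.map M.p ≫ i.inv.app M.A ≫ M.p) ≫ f.1
      simp only [Category.assoc, i.inv.naturality_assoc, Functor.id_map, LQ.idem, LQ.p_comp,
        LQ.comp_p])
  rw [Am.Kmap_iso n (S.lm F) S.top.idm j _ (Am.Map.bdd_map _)]
  exact Am.Kinc_refl n le_rfl x

end Lift

variable [HasZeroObject C]

variable (S) in
/-- The chosen model of the tensor product. -/
noncomputable def fm (A : C) (M : Type) [AddCommGroup M] [Module.Free ℤ M] [Module.Finite ℤ M] :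
    S.Fm A M := (Fm.nonempty hz_of M).some

/-- `A ↦ (Fm A L.M).P` (chosen), `f ↦ desc fun m => act π L In m f`. -/
noncomputable def tn (S : GC G C) (π : G →* Q) (L : Lat Q) : C ⥤ C where
  obj A := (S.fm A L.M).P
  map {A B} f := (S.fm A L.M).tm π (S.fm B L.M) f
  map_id _ := Fm.tm_id _
  map_comp _ _ := Fm.tm_comp ..

instance (π : G →* Q) (L : Lat Q) : (S.tn π L).Additive := ⟨Fm.tm_add ..⟩

variable {π : G →* Q} {L : Lat Q} {X : Type} [Fintype X] [MulAction Q X] {P : X → Prop}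

/-- The locations of a graded lattice on a model. -/
noncomputable def Fm.gl {A : C} (F : S.Fm A L.M) (a : Lat.Gr X P L) : S.Lo X F.P where
  e x := F.mp F (a.ε x)
  s := Finset.univ
  out := by simp
  spl x := by
    obtain ⟨F'⟩ := Fm.nonempty (S := S) (A := A) hz_of (LinearMap.range (a.ε x))
    refine .inr ⟨_, F'.mp F (Submodule.subtype _), F.mp F' (a.ε x).rangeRestrict,
      Fm.sup_mp _ _ _, Fm.sup_mp _ _ _, F'.ext ?_, F.ext fun m => ?_⟩
    · rintro ⟨_, m, rfl⟩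
      rw [Fm.In_mp_assoc, Fm.In_mp, Category.comp_id]
      exact congrArg _ (Subtype.ext (a.idem x m))
    · rw [Fm.In_mp_assoc, Fm.In_mp, Fm.In_mp]; rfl
  orth x y k := F.ext fun m => by simp [Fm.In_mp_assoc, Fm.In_mp, a.orth y x m k.symm]
  total := F.ext fun m => by simp [Preadditive.comp_sum, Fm.In_mp, ← map_sum, a.total]

theorem Fm.gl_on {A : C} (F : S.Fm A L.M) (a : Lat.Gr X P L) : (F.gl a).On P := fun x k =>
  F.ext fun m => by simp [Fm.gl, Fm.In_mp, a.on x m k]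

/-- The locations of a graded lattice, as in `tau_gr`. -/
noncomputable def tnL (S : GC G C) (π : G →* Q) (a : Lat.Gr X P L) (A : C) :
    S.Lo X ((S.tn π L).obj A) := (S.fm A L.M).gl a

theorem tnL_on (a : Lat.Gr X P L) (A : C) : (S.tnL π a A).On P := Fm.gl_on _ a

theorem tnL_rg (a : Lat.Gr X P L) {A B : C} {T : Set G} {f : A ⟶ B} (h : S.Sup T f) :
    (S.tnL π a A).Rg (S.tnL π a B) (fun x g z => g ∈ T ∧ x = π g • z) ((S.tn π L).map f) := by
  intro x z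
  change S.Sup _ ((S.fm A L.M).mp (S.fm A L.M) (a.ε x) ≫ (S.fm A L.M).tm π (S.fm B L.M) f ≫
    (S.fm B L.M).mp (S.fm B L.M) (a.ε z))
  generalize S.fm A L.M = F, S.fm B L.M = F'
  have z0 : F.tm π F' (0 : A ⟶ B) = 0 := F.ext fun m => by rw [Fm.In_tm, map_zero, comp_zero]
  refine h.induction (P := fun y => S.Sup {g | g ∈ T ∧ x = π g • z}
    (F.mp F (a.ε x) ≫ F.tm π F' y ≫ F'.mp F' (a.ε z))) (by simpa [z0] using Sup.zero)
    (fun a b ha hb => by simpa [Fm.tm_add] using ha.add hb) fun g hg => ?_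
  rw [Fm.mp, F.desc_comp]
  refine F.sup_desc fun m => ?_
  rw [Fm.In_tm_assoc, ac2_cp, Category.assoc, Fm.In_mp, a.eqv]
  by_cases k : x = π g • z
  · exact .comp_one (.of_cp (S.cp_same g f) ⟨hg, k⟩) (F'.sIn _).cp_eq
  · rw [a.orth _ _ _ fun e => k (by rw [e, smul_inv_smul]), map_zero, comp_zero]
    exact .zero

variable (S π) in
/-- The action of lattices on K-theory. -/
noncomputable def tk (n : ℕ) (x : Am.Kn n S.top S.top.bdd) (L : Lat Q) : Am.Kn n S.top S.top.bdd :=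
  Am.Kmap n (S.lm (S.tn π L)) (Am.Map.bdd_map _) x

variable (S π) in
/-- Equivariant maps give natural transformations. -/
noncomputable def tnN {L L' : Lat Q} (α : L.M →ₗ[ℤ] L'.M)
    (h : ∀ q m, α (L.T q m) = L'.T q (α m)) : S.tn π L ⟶ S.tn π L' where
  app A := (S.fm A L.M).mp (S.fm A L'.M) α
  naturality _ _ f := Fm.tm_mp _ _ _ _ h f

theorem tk_ses (n : ℕ) (x : Am.Kn n S.top S.top.bdd) : Lat.Ses (S.tk π n x) := by
  intro L' L L'' α β h1 h2 h3 h4 h5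
  obtain ⟨σ, ρ, s1, s2, -, s4⟩ := Lat.split h3 h4 h5
  refine DFunLike.congr_fun (lm_ses (S.tnN π α h1) (S.tnN π β h2) (fun A => ?_) n) x
  change ∃ (r : (S.fm A L.M).P ⟶ (S.fm A L'.M).P) (s : (S.fm A L''.M).P ⟶ (S.fm A L.M).P),
    (S.fm A L'.M).mp (S.fm A L.M) α ≫ r = 𝟙 (S.fm A L'.M).P ∧
    s ≫ (S.fm A L.M).mp (S.fm A L''.M) β = 𝟙 (S.fm A L''.M).P ∧
    r ≫ (S.fm A L'.M).mp (S.fm A L.M) α + (S.fm A L.M).mp (S.fm A L''.M) β ≫ s = 𝟙 (S.fm A L.M).P
  generalize S.fm A L.M = F, S.fm A L'.M = F', S.fm A L''.M = F''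
  exact ⟨F.mp F' ρ, F''.mp F σ, F'.ext fun m => by simp [Fm.In_mp_assoc, Fm.In_mp, s2],
    F''.ext fun m => by simp [Fm.In_mp_assoc, Fm.In_mp, s1],
    F.ext fun m => by simp [Fm.In_mp_assoc, Fm.In_mp, ← map_add, s4]⟩

theorem tk_int (n : ℕ) (x : Am.Kn n S.top S.top.bdd) : S.tk π n x (Lat.int Q) = x := by
  have e {A : C} (F : S.Fm A ℤ) (m : ℤ) : F.In m ≫ F.desc (fun m => m • 𝟙 A) = m • 𝟙 A :=
    F.In_desc (θ := fun m => m • 𝟙 A) (fun a b => add_smul a b _) m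
  have e' {A : C} (F : S.Fm A ℤ) : F.desc (fun m => m • 𝟙 A) ≫ F.In 1 = 𝟙 _ := F.ext fun m => by
    rw [reassoc_of% e, Preadditive.zsmul_comp, Category.id_comp, Category.comp_id, ← map_zsmul,
      smul_eq_mul, mul_one]
  exact lm_id (F := S.tn π (Lat.int Q)) (NatIso.ofComponents (fun A => ⟨(S.fm A ℤ).In 1,
    (S.fm A ℤ).desc fun m => m • 𝟙 A, (e _ 1).trans (one_smul ..), e' _⟩) fun {A B} f =>
      ((Fm.In_tm (L := Lat.int Q) _ _ f 1).trans (ac2_triv _ (fun _ => rfl) f)).symm) n x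

end GC

end Pool.Agent.Lib.MP_5d3e93_al
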