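import Pool.Agent.Lib.MP_5d3e93_al.K.CTn
import Pool.Agent.Lib.MP_5d3e93_al.K.CLo
import Pool.Agent.Lib.MP_5d3e93_al.K.CCn

/-! Transfers: tensor functors of graded lattices factor through controlled categories. -/

open CategoryTheory Limits ZeroObject Filter MulAction

namespace Pool.Agent.Lib.MP_5d3e93_al

universe w w' v u y y' v' u'

open Gr

namespace GC

variable {G : Type w} [Group G] {C : Type u} [Category.{v} C] [Preadditive C] [HasZeroObject C]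
  {S : GC G C}

variable {J : Type} {Y : J → Type y} {Y' : J → Type y'} {l l' : Filter J} {ν : Ar G Y}
  {ν' : Ar G Y'}

section CTn
variable {Q : Type w'} [Group Q]
variable {π : G →* Q} {L : Lat Q} {X : Type} [Fintype X] [MulAction Q X] {P : X → Prop}

theorem ctr_rg (a : Lat.Gr X P L) {A B : C} (f : A ⟶ B) :
    (S.tnL π a A).Rg (S.tnL π a B) (Rl.gp π P).r ((S.tn π L).map f) :=
  (tnL_rg a (T := Set.univ) fun _ h => (h trivial).elim).on (tnL_on a A) (tnL_on a B)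
    fun _ _ _ h k e => ⟨e.2, h, k⟩

variable (S π) in
/-- The tensor functor with values in the transport groupoid. -/
noncomputable def ctrF (a : Lat.Gr X P L) : S.LQ (Rl.pt ⊤) ⥤ S.LQ (Rl.gp π P) where
  obj M := ⟨(S.tn π L).obj M.A, S.tnL π a M.A, (S.tn π L).map M.p,
    by rw [← Functor.map_comp, M.idem], ctr_rg a _⟩
  map f := LQ.homMk ((S.tn π L).map f.1)
    (((S.tn π L).map_comp _ f.1).symm.trans (congrArg (S.tn π L).map (LQ.p_comp f)))
    (((S.tn π L).map_comp f.1 _).symm.trans (congrArg (S.tn π L).map (LQ.comp_p f))) (ctr_rg a _)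
  map_id _ := rfl
  map_comp f g := LQ.hom_ext ((S.tn π L).map_comp f.1 g.1)

instance (a : Lat.Gr X P L) : (S.ctrF π a).Additive :=
  ⟨fun {_ _ f g} => LQ.hom_ext ((S.tn π L).map_add (f := f.1) (g := g.1))⟩

/-- The tensor functor factors through `LQ (gp π P)`. -/
theorem tk_stab (z : ∀ y, P y → S.WK ((stabilizer Q y).comap π)) (a : Lat.Gr X P L) (n : ℕ)
    (x : Am.Kn n S.top S.top.bdd) : S.tk π n x L = 0 := by
  have k := Am.Kmap_comp n (a := S.top) (b := S.am (Rl.gp π P)) (Am.ofOf (S.ctrF π a))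
    (S.um (Rl.gp π P)) (Am.Map.bdd_map _) (Am.Map.bdd_map _) (Am.Map.bdd_map _) x
  exact k.trans ((congrArg _ ((zq_gp (S := S) P z n).elim _ 0)).trans (map_zero _))

/-- The zero lattice is graded. -/
theorem ctr_zero (X : Type) [Fintype X] [MulAction Q X] (P : X → Prop) :
    ∃ L : Lat Q, Nonempty (Lat.Gr X P L) :=
  ⟨⟨PUnit, 1⟩, ⟨⟨0, fun _ _ _ => rfl, fun _ _ => rfl, fun _ _ _ _ => rfl, fun _ => rfl,
    fun _ _ _ => rfl⟩⟩⟩

variable {Xs : J → Type} [∀ j, Fintype (Xs j)] [∀ j, MulAction Q (Xs j)] {Ps : ∀ j, Xs j → Prop}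
  {H : Subgroup G} (β : ∀ j, Xs j → Y j)
  (hν : ∀ g ∈ H, ∃ r, ∀ᶠ j in l, ∀ z, Ps j z → Ps j (π g • z) → ν.n r j (β j (π g • z)) g (β j z))
include hν

theorem ctr_ec {Ls : J → Lat Q} (a : ∀ j, Lat.Gr (Xs j) (Ps j) (Ls j)) {A B : C} {f : A ⟶ B}
    (h : S.Sup H f) : Ec l ν (fun j => (S.tnL π (a j) A).map (β j))
      (fun j => (S.tnL π (a j) B).map (β j)) fun j => (S.tn π (Ls j)).map f := by
  obtain ⟨F, fin, sub, hF⟩ := h.finite
  choose! r hr using hν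
  obtain ⟨s, hs⟩ := (fin.image r).bddAbove
  refine ⟨s, ((eventually_all_finite fin).2 fun g m => hr g (sub m)).mono fun j k => ?_⟩
  refine (tnL_rg (a j) hF).map (tnL_on _ A) (tnL_on _ B) ?_
  rintro _ g z p p' ⟨m, rfl⟩
  exact ν.mono (k g m z p' p) (hs ⟨g, m, rfl⟩)

variable (S) in
/-- The family of tensor functors with its locations. -/
noncomputable def ctrA {Ls : J → Lat Q} (a : ∀ j, Lat.Gr (Xs j) (Ps j) (Ls j)) :
    S.LQ (Rl.pt H) ⥤ S.AS l ν where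
  obj M := ⟨fun j => (S.tn π (Ls j)).obj M.A, fun j => (S.tnL π (a j) M.A).map (β j),
    fun j => (S.tn π (Ls j)).map M.p, fun j => by rw [← Functor.map_comp, M.idem],
    ctr_ec β hν a (M.rg.sup fun _ _ _ h => h)⟩
  map f := AS.homMk (fun j => (S.tn π (Ls j)).map f.1)
    (fun j => ((S.tn π (Ls j)).map_comp _ f.1).symm.trans
      (congrArg (S.tn π (Ls j)).map (LQ.p_comp f)))
    (fun j => ((S.tn π (Ls j)).map_comp f.1 _).symm.trans
      (congrArg (S.tn π (Ls j)).map (LQ.comp_p f)))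
    (ctr_ec β hν a ((LQ.hom_rg f).sup fun _ _ _ h => h))
  map_id _ := rfl
  map_comp f g := AS.hom_ext fun j => (S.tn π (Ls j)).map_comp f.1 g.1

instance {Ls : J → Lat Q} (a : ∀ j, Lat.Gr (Xs j) (Ps j) (Ls j)) : (S.ctrA β hν a).Additive :=
  ⟨fun {_ _ f g} => AS.hom_ext fun j => (S.tn π (Ls j)).map_add (f := f.1) (g := g.1)⟩

theorem ctr_gen {N₀ : ObjectProperty (S.am (Rl.pt H)).D} {N : ObjectProperty (S.au l ν).D}
    (z : S.EV l ν N) (hN : ∀ j, N ≤ S.top.bdd.inverseImage (S.evm l ν j).D)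
    (k : ∀ {Ls : J → Lat Q} (a : ∀ j, Lat.Gr (Xs j) (Ps j) (Ls j)), N₀ ≤ N.inverseImage
      (Am.ofOf (S.ctrA β hν a) : Am.Map (S.am (Rl.pt H)) (S.au l ν)).D) (n : ℕ)
    (x : Am.Kn n (S.am (Rl.pt H)) N₀) (h : N₀ ≤ S.top.bdd.inverseImage (S.up H).D) :
    ∀ᶠ j in l, ∀ L, Lat.Gr (Xs j) (Ps j) L → S.tk π n (Am.Kmap n (S.up H) h x) L = 0 := by
  have : ∀ j, ∃ L, ∃ _ : Lat.Gr (Xs j) (Ps j) L, S.tk π n (Am.Kmap n (S.up H) h x) L = 0 →
      ∀ L, Lat.Gr (Xs j) (Ps j) L → S.tk π n (Am.Kmap n (S.up H) h x) L = 0 := fun j => by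
    by_cases e : ∀ L, Lat.Gr (Xs j) (Ps j) L → S.tk π n (Am.Kmap n (S.up H) h x) L = 0
    · obtain ⟨L, ⟨a⟩⟩ := ctr_zero (Q := Q) (Xs j) (Ps j)
      exact ⟨L, a, fun _ => e⟩
    · obtain ⟨L, e⟩ := not_forall.1 e
      obtain ⟨a, e⟩ := not_forall.1 e
      exact ⟨L, a, fun b => (e b).elim⟩
  choose Ls a hL using this
  refine (z n (Am.Kmap n _ (k a) x)).mono fun j e => hL j ?_
  have l₁ : N₀ ≤ S.top.bdd.inverseImage ((S.up H).comp (S.lm (S.tn π (Ls j)))).D :=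
    fun A m => (S.lm (S.tn π (Ls j))).bdd_map _ (h A m)
  exact (Am.Kmap_comp n (S.up H) (S.lm (S.tn π (Ls j))) h _ l₁ x).symm.trans
    ((Am.Kmap_comp n (a := S.am (Rl.pt H)) (b := S.au l ν) (Am.ofOf (S.ctrA β hν a))
      (S.evm l ν j) (k a) (hN j) l₁ x).trans (e _))

/-- Choose a bad graded lattice where there is one (else the zero lattice); the functor
`LQ (pt H) ⥤ AS l ν`, `M ↦ (tn (L j) A, (tnL A).map (β j), tn (L j) p)` (finite supports);
followed by `ev j` it is `up H` followed by `lift (tn (L j))`. -/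
theorem tk_ev (z : S.EV l ν (S.au l ν).bdd) (n : ℕ)
    (x : Am.Kn n (S.am (Rl.pt H)) (S.am (Rl.pt H)).bdd) : ∀ᶠ j in l, ∀ L, Lat.Gr (Xs j) (Ps j) L →
      S.tk π n (Am.Kmap n (S.up H) (Am.Map.bdd_map _) x) L = 0 :=
  ctr_gen β hν z (fun _ => Am.Map.bdd_map _) (fun _ => Am.Map.bdd_map _) n x _

/-- Free objects go to diagonal objects. -/
theorem tk_ev' (z : S.EV l ν (S.dgc l ν)) (n : ℕ) (x : Am.Kn n (S.am (Rl.pt H)) (S.fr (Rl.pt H)))
    (h : S.fr (Rl.pt H) ≤ S.top.bdd.inverseImage (S.up H).D) :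
    ∀ᶠ j in l, ∀ L, Lat.Gr (Xs j) (Ps j) L → S.tk π n (Am.Kmap n (S.up H) h x) L = 0 := by
  refine ctr_gen β hν z (fun _ => Am.Map.gen_map _ fun _ _ => trivial)
    (fun {Ls} a => Am.Map.gen_map _ fun (M : S.LQ (Rl.pt H)) m => .of_forall fun j => ?_) n x h
  have e : (S.tn π (Ls j)).map M.p = 𝟙 _ := (congrArg _ m).trans ((S.tn π (Ls j)).map_id _)
  have k : ((S.tnL π (a j) M.A).map (β j)).Rg ((S.tnL π (a j) M.A).map (β j)) Lo.dg
      ((S.tn π (Ls j)).map M.p) := e ▸ Lo.rg_id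
  exact k

end CTn

end GC

end Pool.Agent.Lib.MP_5d3e93_al
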