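import Pool.Agent.Lib.MP_5d3e93_al.K.Tr
import Pool.Agent.Lib.MP_5d3e93_al.Win

/-! Cyclic moves. -/

open CategoryTheory Limits

namespace Pool.Agent.Lib.MP_5d3e93_al

universe w v u

open Gr

namespace GC

open Lo

variable {G : Type w} [Group G] {C : Type u} [Category.{v} C] [Preadditive C]
variable {S : GC G C} {Y Y' : Type w}

theorem cyc_copies (hz : ∃ Z : C, 𝟙 Z = 0) {A : C} (L : S.Lo Y A) (Φ : Y → Finset Y')
    (s : Finset Y') : ∃ (B : C) (M : S.Lo (Y × Y') B) (i : Y' → (A ⟶ B)) (r : Y' → (B ⟶ A)),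
      (∀ c ∈ s, ∀ y, c ∈ Φ y → L.e y ≫ i c ≫ r c = L.e y) ∧ (∀ c c', c ≠ c' → i c ≫ r c' = 0) ∧
      ∑ c ∈ s, r c ≫ i c = 𝟙 B ∧ (∀ c, L.Rg M (fun y g z => g = 1 ∧ z = (y, c)) (i c)) ∧
      ∀ c, M.Rg L (fun z g y => g = 1 ∧ z = (y, c) ∧ c ∈ Φ y) (r c) := by
  classical
  induction s using Finset.induction_on with
  | empty =>
    obtain ⟨Z, hZ⟩ := hz
    exact ⟨Z, ⟨fun _ => 0, ∅, fun _ _ => rfl, fun _ => .inl rfl, by simp, hZ.symm⟩, fun _ => 0,
      fun _ => 0, by simp, by simp, by simp [hZ], fun _ => .zero, fun _ => .zero⟩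
  | insert d s hd ih =>
    obtain ⟨B, M, i, r, h1, h2, h3, h4, h5⟩ := ih
    obtain ⟨D, N, j, ρ, a1, a2, a3, a4, -, a5, -⟩ := L.res hz (d ∈ Φ ·)
    refine ⟨_, (N.map (·, d)).add M, fun c => if c = d then ρ ≫ S.inl _ _ else i c ≫ S.inr _ _,
      fun c => if c = d then S.fst _ _ ≫ j else S.snd _ _ ≫ r c, fun c k y t => ?_,
      fun c c' k => ?_, ?_, fun c => ?_, fun c => ?_⟩
    all_goals beta_reduce
    · split_ifs with e
      · simpa using a4 y (e ▸ t)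
      · simpa using h1 c (by simpa [e] using k) y t
    · split_ifs with e e'
      · exact (k (e.trans e'.symm)).elim
      all_goals simp [h2 c c' k]
    · rw [Finset.sum_insert hd, Finset.sum_congr rfl (g := fun c => S.snd D B ≫ (r c ≫ i c) ≫
        S.inr D B) fun c k => by simp [show c ≠ d from fun e => hd (e ▸ k)],
        ← Preadditive.comp_sum, ← Preadditive.sum_comp, h3]
      simp [reassoc_of% a3, S.total]
    · split_ifs with e
      · exact (a2.mapr (φ := (·, d)) (R' := fun y g z => g = 1 ∧ z = (y, c))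
          fun _ _ _ a => ⟨a.1, by rw [a.2, e]⟩).comp_dg rg_inl
      · exact (h4 c).comp_dg rg_inr
    · split_ifs with e
      · exact rg_fst.dg_comp ((a1.on a5 L.on_true (R' := fun x g y => dg x g y ∧ d ∈ Φ x)
          fun _ _ _ a _ b => ⟨b, a⟩).mapl (φ := (·, d))
            fun _ _ _ a => ⟨a.1.1, by rw [a.1.2, e], e ▸ a.1.2 ▸ a.2⟩)
      · exact rg_snd.dg_comp (h5 c)

/-- The covering object of a located object. -/
structure CycCov {A : C} (L : S.Lo Y A) (Φ : Y → Finset Y') where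
  B : C
  M : S.Lo (Y × Y') B
  b : B ⟶ A
  rg : M.Rg L (fun z g y => g = 1 ∧ z.1 = y ∧ z.2 ∈ Φ y) b
  ex : ∀ {X : Type w} {D : C} {N : S.Lo X D} (R : X → G → Y × Y' → Prop) {f : D ⟶ A},
    N.Rg L (fun x g y => ∃ c ∈ Φ y, R x g (y, c)) f → ∃ t, N.Rg M R t ∧ t ≫ b = f
  un : ∀ {X : Type w} {D : C} {N : S.Lo X D} {R : X → G → Y × Y' → Prop} {t t' : D ⟶ B},
    (∀ x g y c c', R x g (y, c) → R x g (y, c') → c = c') → N.Rg M R t → N.Rg M R t' →
      t ≫ b = t' ≫ b → t = t'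

theorem cyc_cov (hz : ∃ Z : C, 𝟙 Z = 0) {A : C} (L : S.Lo Y A) (Φ : Y → Finset Y') :
    Nonempty (CycCov L Φ) := by
  classical
  obtain ⟨B, M, i, r, h1, h2, h3, h4, h5⟩ := cyc_copies hz L Φ (L.s.biUnion Φ)
  refine ⟨⟨B, M, ∑ c ∈ L.s.biUnion Φ, r c, Rg.sum _ fun c _ => (h5 c).mono ?_,
    fun {X D N} R f h => ?_, fun {X D N R t t'} k h h' e => ?_⟩⟩
  · rintro _ _ _ ⟨a, rfl, b⟩
    exact ⟨a, rfl, b⟩
  · obtain ⟨s, F, e, hF⟩ := h.parts fun x g y =>
      if k : ∃ c ∈ Φ y, R x g (y, c) then some k.choose else none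
    have a (c : Y') : N.Rg L (fun x g y => c ∈ Φ y ∧ R x g (y, c)) (F (some c)) :=
      (hF _).mono fun x g y k => by
        have := k.2
        rw [dif_pos k.1, Option.some.injEq] at this
        exact this ▸ k.1.choose_spec
    refine ⟨∑ o ∈ s, o.elim 0 fun c => F (some c) ≫ i c, Rg.sum _ fun o _ => ?_, ?_⟩
    · cases o with
      | none => exact .zero
      | some c =>
        refine (a c).comp (h4 c) ?_
        rintro x g y _ _ k ⟨rfl, rfl⟩
        exact (mul_one g).symm ▸ k.2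
    · rw [← e, Preadditive.sum_comp]
      refine Finset.sum_congr rfl fun o _ => ?_
      cases o with
      | none => rw [(hF none).eq_zero fun x g y k => by simpa [k.1] using k.2]; simp
      | some c =>
        by_cases k : c ∈ L.s.biUnion Φ
        · rw [Option.elim_some, Category.assoc, Preadditive.comp_sum,
            Finset.sum_eq_single_of_mem c k fun c' _ k' => h2 c c' k'.symm, ← L.sum_r (F _),
            Preadditive.sum_comp]
          refine Finset.sum_congr rfl fun y _ => ?_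
          by_cases t : c ∈ Φ y
          · rw [Category.assoc, h1 c k y t]
          · have : F (some c) ≫ L.e y = 0 := N.ext_l fun x => by
              rw [comp_zero]; exact S.ext0 _ fun g => a c x y g fun q => t q.1
            rw [this, zero_comp]
        · rw [Option.elim_some, ((a c).on N.on_true L.on_s (R' := fun _ _ _ => False)
            fun _ _ y _ q p => k (Finset.mem_biUnion.2 ⟨y, q, p.1⟩)).eq_zero fun _ _ _ => id]
          simp
  · rw [← sub_eq_zero, ← Category.comp_id (t - t'), ← h3, Preadditive.comp_sum]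
    refine Finset.sum_eq_zero fun c q => ?_
    rw [← Category.assoc, Rg.sep (R := fun c x g y => R x g (y, c)) (F := fun c => (t - t') ≫ r c)
      (fun c => (h.sub h').comp (h5 c) ?_) ?_ (fun c c' x g y => k x g y c c') q, zero_comp]
    · rw [← Preadditive.comp_sum, Preadditive.sub_comp, e, sub_self]
    · rintro x g _ _ y a ⟨rfl, rfl, -⟩
      exact (mul_one g).symm ▸ a

variable [HasZeroObject C] {m : ℕ}

theorem Gm.cyc {Y Y' : Type w} {P : Rl G Y} {P' : Rl G Y'} {B : Y → G → Y → Prop}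
    {B' : Y' → G → Y' → Prop} (Φ : Y → Finset Y') (α : Y → G → Y' → Prop)
    (k1 : ∀ q g q' r, P.r q g q' → r ∈ Φ q → ∃! r', r' ∈ Φ q' ∧ P'.r r g r')
    (k2 : ∀ p g q, B p g q → ∃! r, r ∈ Φ q ∧ α p g r)
    (bl : ∀ p g p' h q, P.r p g p' → B p' h q → B p (g * h) q)
    (br : ∀ p g q h q', B p g q → P.r q h q' → B p (g * h) q')
    (al : ∀ p g p' h r, P.r p g p' → α p' h r → α p (g * h) r)
    (ar : ∀ p g r h r', α p g r → P'.r r h r' → α p (g * h) r')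
    (k3 : ∀ q r g q' r', r ∈ Φ q → B q g q' → r' ∈ Φ q' → α q g r' → B' r g r')
    (z : S.Gm P' B' (m + 1)) : S.Gm P B m := by
  have c (M : S.LQ P) : CycCov M.L Φ := (cyc_cov (hz_of (C := C)) M.L Φ).some
  let R1 : Y × Y' → G → Y × Y' → Prop := fun z g z' =>
    z.2 ∈ Φ z.1 ∧ P.r z.1 g z'.1 ∧ z'.2 ∈ Φ z'.1 ∧ P'.r z.2 g z'.2
  let R2 : Y → G → Y × Y' → Prop := fun p g z => B p g z.1 ∧ z.2 ∈ Φ z.1 ∧ α p g z.2
  have u1 : ∀ x g y c c', R1 x g (y, c) → R1 x g (y, c') → c = c' := fun x g y c c' a b =>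
    (k1 _ _ _ _ a.2.1 a.1).unique a.2.2 b.2.2
  have u2 : ∀ x g y c c', R2 x g (y, c) → R2 x g (y, c') → c = c' := fun x g y c c' a b =>
    (k2 _ _ _ a.1).unique a.2 b.2
  have e1 {M N : S.LQ P} (f : M ⟶ N) :
      ∃ t, (c M).M.Rg (c N).M R1 t ∧ t ≫ (c N).b = (c M).b ≫ f.1 :=
    (c N).ex R1 ((c M).rg.comp (LQ.hom_rg f) (by
      rintro x _ _ g y ⟨rfl, rfl, a⟩ b
      obtain ⟨r, d, -⟩ := k1 _ _ _ _ b a
      rw [one_mul]
      exact ⟨r, d.1, a, b, d⟩))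
  choose l l1 l2 using @e1
  have l3 {M N K : S.LQ P} (f : M ⟶ N) (g : N ⟶ K) : l (f ≫ g) = l f ≫ l g :=
    (c K).un u1 (l1 _) ((l1 f).comp (l1 g) fun _ _ _ _ _ a b =>
      ⟨a.1, P.trans a.2.1 b.2.1, b.2.2.1, P'.trans a.2.2.2 b.2.2.2⟩) (by
        rw [l2, Category.assoc, l2, reassoc_of% l2 f, LQ.comp_f])
  have l4 {M N : S.LQ P} (f : M ⟶ N) :
      ((c M).M.map Prod.snd).Rg ((c N).M.map Prod.snd) P'.r (l f) :=
    (l1 f).map (c M).M.on_true (c N).M.on_true fun _ _ _ _ _ a => a.2.2.2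
  let E : S.LQ P ⥤ S.LQ P' :=
    { obj M := ⟨(c M).B, (c M).M.map Prod.snd, l (𝟙 M), by rw [← l3, Category.id_comp], l4 _⟩
      map f := LQ.homMk (l f) ((l3 _ f).symm.trans (congrArg l (Category.id_comp f)))
        ((l3 f _).symm.trans (congrArg l (Category.comp_id f))) (l4 f)
      map_comp f g := LQ.hom_ext (l3 f g) }
  have : E.Additive := ⟨fun {M N f g} => LQ.hom_ext ((c N).un u1 (l1 _) ((l1 f).add (l1 g)) (by
    change l (f + g) ≫ _ = (l f + l g) ≫ _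
    rw [l2, Preadditive.add_comp, l2, l2, LQ.add_f, Preadditive.comp_add]))⟩
  intro X hX F x hx hm
  obtain ⟨ξ, hξ⟩ : ∃ ξ : ∀ A : X.A, (F.F.obj A).A ⟶ (F.F.obj A).A,
      ∀ A, ξ A = (NatTrans.app x A).1 := ⟨_, fun _ => rfl⟩
  have e2 (A : X.A) : ∃ t, (F.F.obj A).L.Rg (c (F.F.obj A)).M R2 t ∧
      t ≫ (c (F.F.obj A)).b = ξ A :=
    (c _).ex R2 (hξ A ▸ (hx A).mono fun p g q a => by
      obtain ⟨r, d, -⟩ := k2 _ _ _ a
      exact ⟨r, d.1, a, d⟩)
  choose a a1 a2 using e2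
  have n1 {M : S.LQ P} (A : X.A) (f : M ⟶ F.F.obj A) :
      M.L.Rg (c (F.F.obj A)).M R2 (f.1 ≫ a A) :=
    (LQ.hom_rg f).comp (a1 A) fun _ _ _ _ _ s t => ⟨bl _ _ _ _ _ s t.1, t.2.1, al _ _ _ _ _ s t.2.2⟩
  have n2 {M : S.LQ P} (A : X.A) (f : F.F.obj A ⟶ M) :
      (F.F.obj A).L.Rg (c M).M R2 (a A ≫ l f) :=
    (a1 A).comp (l1 f) fun _ _ _ _ _ s t =>
      ⟨br _ _ _ _ _ s.1 t.2.1, t.2.2.1, ar _ _ _ _ _ s.2.2 t.2.2.2⟩
  have p1 (A : X.A) : (F.F.obj A).p ≫ ξ A = ξ A := hξ A ▸ LQ.p_comp (NatTrans.app x A)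
  have p2 (A : X.A) : ξ A ≫ (F.F.obj A).p = ξ A := hξ A ▸ LQ.comp_p (NatTrans.app x A)
  have p0 {A A' : X.A} (f : A ⟶ A') : (F.F.map f).1 ≫ ξ A' = ξ A ≫ (F.F.map f).1 := by
    rw [hξ, hξ]; exact congrArg (·.1) (NatTrans.naturality x f)
  have p3 (A : X.A) : (F.F.obj A).p ≫ a A = a A :=
    (c _).un u2 (n1 A (𝟙 _)) (a1 A) (by rw [Category.assoc, a2, p1])
  have p4 (A : X.A) : a A ≫ l (𝟙 (F.F.obj A)) = a A := (c _).un u2 (n2 A _) (a1 A) (by
    rw [Category.assoc, l2, reassoc_of% a2, a2, LQ.id_f, p2])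
  have p5 {A A' : X.A} (f : A ⟶ A') : (F.F.map f).1 ≫ a A' = a A ≫ l (F.F.map f) :=
    (c _).un u2 (n1 A' _) (n2 A _) (by
      rw [Category.assoc, Category.assoc, a2, l2, reassoc_of% a2, p0])
  have p6 {M N : S.LQ P} (f : M ⟶ N) : l f ≫ (c N).b ≫ N.p = ((c M).b ≫ M.p) ≫ f.1 := by
    rw [reassoc_of% l2]; simp
  have p7 (M : S.LQ P) : ((c M).b ≫ M.p) ≫ M.p = (c M).b ≫ M.p := by simp
  have p8 (A : X.A) : a A ≫ (c _).b ≫ (F.F.obj A).p = ξ A := by rw [reassoc_of% a2, p2]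
  let s : S.und F ⟶ S.und (F.post E) :=
    { app A := LQ.homMk (a A) (p3 A) (p4 A) fun _ _ _ h => (h trivial).elim
      naturality A A' f := LQ.hom_ext (p5 f) }
  let t : S.und (F.post E) ⟶ S.und F :=
    { app A := LQ.homMk ((c (F.F.obj A)).b ≫ (F.F.obj A).p :) ((p6 (𝟙 _)).trans (p7 _)) (p7 _)
        fun _ _ _ h => (h trivial).elim
      naturality A A' f := LQ.hom_ext (p6 (F.F.map f)) }
  have st : s ≫ t = x := NatTrans.ext (funext fun A => LQ.hom_ext ((p8 A).trans (hξ A)))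
  rw [← st]
  refine Fn.Tr.cyc s t (z X hX (F.post E) (t ≫ s) (fun A => ?_) (by
    rw [pw_cyc, st, hm, zero_comp, comp_zero]))
  change ((c _).M.map Prod.snd).Rg ((c _).M.map Prod.snd) B' (((c _).b ≫ (F.F.obj A).p) ≫ a A :)
  rw [Category.assoc, p3]
  refine Rg.map (R := fun z g z' => B' z.2 g z'.2) ((c _).rg.comp (a1 A) ?_) (c _).M.on_true
    (c _).M.on_true fun _ _ _ _ _ => id
  rintro x _ _ g y ⟨rfl, rfl, q⟩ b
  rw [one_mul]
  exact k3 _ _ _ _ _ q b.1 b.2.1 b.2.2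

end GC

end Pool.Agent.Lib.MP_5d3e93_al
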