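import Pool.Agent.Lib.MP_5d3e93_al.K.Union
import Pool.Agent.Lib.MP_5d3e93_al.Win

/-! Lazard elimination for Nil terms over controlled categories. -/

open CategoryTheory Limits ZeroObject

namespace Pool.Agent.Lib.MP_5d3e93_al

universe w v u

open Gr

namespace GC

open Lo

variable {G : Type w} [Group G] {C : Type u} [Category.{v} C] [Preadditive C]
variable {S : GC G C} {m : ℕ}

/-- Paths with a given sequence of colours. -/
def Wr {Y K : Type*} (B : Y → G → Y → Prop) (c : Y → G → Y → K) : List K → Y → G → Y → Prop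
  | [], a, g, b => g = 1 ∧ a = b
  | k :: κ, a, g, b => ∃ h d h', B a h d ∧ c a h d = k ∧ Wr B c κ d h' b ∧ g = h * h'

section
variable {Y K : Type*} {B : Y → G → Y → Prop} {c : Y → G → Y → K} {A A' : C} {L : S.Lo Y A}
  {M : S.Lo Y A'} {k : K}

/-- `y` is the part of colour `k` of `x`. -/
def LazP (L : S.Lo Y A) (M : S.Lo Y A') (B : Y → G → Y → Prop) (c : Y → G → Y → K) (k : K)
    (x y : A ⟶ A') : Prop :=
  L.Rg M (fun a g b => B a g b ∧ c a g b = k) y ∧
    L.Rg M (fun a g b => B a g b ∧ c a g b ≠ k) (x - y)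

theorem laz_ex {x : A ⟶ A'} (h : L.Rg M B x) (c : Y → G → Y → K) (k : K) :
    ∃ y, LazP L M B c k x y := by
  classical
  obtain ⟨s, F, rfl, hF⟩ := h.parts c
  refine ⟨∑ j ∈ s with j = k, F j, .sum _ fun j hj => (Finset.mem_filter.1 hj).2 ▸ hF j, ?_⟩
  rw [← Finset.sum_filter_add_sum_filter_not s (· = k), add_sub_cancel_left]
  exact .sum _ fun j hj => (hF j).mono fun _ _ _ a => ⟨a.1, a.2 ▸ (Finset.mem_filter.1 hj).2⟩

theorem LazP.uniq {x x' y y' : A ⟶ A'} (h : LazP L M (fun _ _ _ => True) c k x y)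
    (h' : LazP L M (fun _ _ _ => True) c k x' y') (e : x = x') : y = y' := by
  subst e
  exact sub_eq_zero.1 (((h.1.sub h'.1).and
    (sub_sub_sub_cancel_left y' y x ▸ h'.2.sub h.2)).eq_zero fun _ _ _ a => a.2.2 a.1.2)

theorem LazP.top {x y : A ⟶ A'} (h : LazP L M B c k x y) : LazP L M (fun _ _ _ => True) c k x y :=
  ⟨h.1.mono fun _ _ _ a => ⟨trivial, a.2⟩, h.2.mono fun _ _ _ a => ⟨trivial, a.2⟩⟩

theorem LazP.left {P : Y → G → Y → Prop} {x y : A' ⟶ A'} {f : A ⟶ A'} (h : LazP M M B c k x y)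
    (cl : ∀ a g b h d, P a g b → B b h d → c a (g * h) d = c b h d) (hf : L.Rg M P f) :
    LazP L M (fun _ _ _ => True) c k (f ≫ x) (f ≫ y) :=
  ⟨hf.comp h.1 fun _ _ _ _ _ a b => ⟨trivial, (cl _ _ _ _ _ a b.1).trans b.2⟩,
    Preadditive.comp_sub f x y ▸ hf.comp h.2 fun _ _ _ _ _ a b =>
      ⟨trivial, (cl _ _ _ _ _ a b.1).trans_ne b.2⟩⟩

theorem LazP.right {P : Y → G → Y → Prop} {x y : A ⟶ A} {f : A ⟶ A'} (h : LazP L L B c k x y)
    (cr : ∀ a g b h d, B a g b → P b h d → c a (g * h) d = c a g b) (hf : L.Rg M P f) :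
    LazP L M (fun _ _ _ => True) c k (x ≫ f) (y ≫ f) :=
  ⟨h.1.comp hf fun _ _ _ _ _ a b => ⟨trivial, (cr _ _ _ _ _ a.1 b).trans a.2⟩,
    Preadditive.sub_comp x y f ▸ h.2.comp hf fun _ _ _ _ _ a b =>
      ⟨trivial, (cr _ _ _ _ _ a.1 b).trans_ne a.2⟩⟩

theorem laz_sum {x : A ⟶ A'} {y : K → (A ⟶ A')} (h : ∀ k, LazP L M B c k x (y k)) {s : Finset K}
    (hx : L.Rg M (fun a g b => c a g b ∈ s) x) : ∑ k ∈ s, y k = x := by
  classical
  refine (sub_eq_zero.1 (Rg.eq_zero (L := L) (M := M) (R := fun _ _ _ => False)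
    (fun a b g _ => ?_) fun _ _ _ => id)).symm
  by_cases e : c a g b ∈ s
  · have : L.Rg M (fun a' g' b' => c a' g' b' ≠ c a g b) (x - ∑ k ∈ s, y k) := by
      rw [← Finset.add_sum_erase _ _ e, ← sub_sub]
      exact ((h _).2.mono fun _ _ _ a => a.2).sub (.sum _ fun k hk => (h k).1.mono
        fun _ _ _ a => a.2.trans_ne (Finset.ne_of_mem_erase hk))
    exact this a b g fun k => k rfl
  · exact hx.sub (.sum _ fun k hk => (h k).1.mono fun _ _ _ a => a.2 ▸ hk) a b g e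

variable {x : A ⟶ A} {y : K → (A ⟶ A)}

theorem laz_word (h : ∀ k, LazP L L B c k x (y k)) (κ : List K) :
    L.Rg L (Wr B c κ) (lp (κ.map y)) := by
  induction κ with
  | nil => exact rg_id
  | cons k κ ih => exact (h k).1.comp ih fun _ _ _ _ _ a b => ⟨_, _, _, a.1, a.2, b, rfl⟩

theorem laz_pw (h : L.Rg L B x) (n : ℕ) :
    L.Rg L (fun a g b => ∃ κ : List K, κ.length = n ∧ Wr B c κ a g b) (pw x n) := by
  induction n with
  | zero => exact rg_id.mono fun _ _ _ a => ⟨[], rfl, a⟩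
  | succ n ih =>
    exact h.comp ih fun a g b _ _ h₁ ⟨κ, h₂, h₃⟩ =>
      ⟨c a g b :: κ, congrArg (· + 1) h₂, _, _, _, h₁, rfl, h₃, rfl⟩

theorem laz_sub (hx : L.Rg L B x) (h : ∀ k, LazP L L B c k x (y k)) (κ : List K) :
    L.Rg L (fun a g b => ∃ κ' : List K, κ'.length = κ.length ∧ κ' ≠ κ ∧ Wr B c κ' a g b)
      (pw x κ.length - lp (κ.map y)) := by
  induction κ with
  | nil => simpa [lp] using Rg.zero
  | cons k κ ih =>
    have e : pw x (k :: κ).length - lp ((k :: κ).map y) =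
        (x - y k) ≫ pw x κ.length + y k ≫ (pw x κ.length - lp (κ.map y)) := by
      simp [pw_succ, lp]
    rw [e]
    exact ((h k).2.comp (laz_pw (c := c) hx _) fun a g b _ _ h₁ ⟨κ', h₂, h₃⟩ =>
      ⟨c a g b :: κ', congrArg (· + 1) h₂, fun e => h₁.2 (List.cons.inj e).1, _, _, _, h₁.1, rfl,
        h₃, rfl⟩).add ((h k).1.comp ih fun a g b _ _ h₁ ⟨κ', h₂, h₃, h₄⟩ =>
      ⟨k :: κ', congrArg (· + 1) h₂, fun e => h₃ (List.cons.inj e).2, _, _, _, h₁.1, h₁.2, h₄, rfl⟩)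

theorem laz_zero (hx : L.Rg L B x) (h : ∀ k, LazP L L B c k x (y k))
    (sep : ∀ κ κ' a g b, κ.length = κ'.length → Wr B c κ a g b → Wr B c κ' a g b → κ = κ')
    (h0 : pw x m = 0) {κ : List K} (hκ : m ≤ κ.length) : lp (κ.map y) = 0 := by
  have e : (κ.take m).length = m := by simpa using hκ
  have := (laz_sub hx h (κ.take m)).neg
  rw [show pw x (κ.take m).length = 0 by rw [e, h0], zero_sub, neg_neg] at this
  rw [← List.take_append_drop m κ, List.map_append, lp_append, (this.and (laz_word h _)).eq_zero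
    fun _ _ _ ⟨⟨_, a, b, d⟩, f⟩ => b (sep _ _ _ _ _ a d f), zero_comp]

end

section
variable {Y : Type w} {P : Rl G Y} {X : Am.{v, max u w}} {F : Fn X (S.LQ P)}

theorem laz_lp {K : Type*} (q : K → (S.und F ⟶ S.und F)) (A : X.A) (κ : List K) :
    (NatTrans.app (lp (κ.map q)) A).1 =
      (F.F.obj A).p ≫ lp (κ.map fun k => (NatTrans.app (q k) A).1) := by
  induction κ with
  | nil => exact (Category.comp_id _).symm
  | cons k κ ih =>
    refine (congrArg ((NatTrans.app (q k) A).1 ≫ ·) ih).trans ?_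
    exact (LQ.comp_p_assoc (NatTrans.app (q k) A) _).trans
      (LQ.p_comp_assoc (NatTrans.app (q k) A) _).symm

theorem laz_lp' {K : Type*} (q : K → (S.und F ⟶ S.und F)) (A : X.A) (k : K) (κ : List K) :
    (NatTrans.app (lp ((k :: κ).map q)) A).1 =
      lp ((k :: κ).map fun k => (NatTrans.app (q k) A).1) :=
  (laz_lp q A _).trans (LQ.p_comp_assoc (NatTrans.app (q k) A) _)

theorem laz_pw' (x : S.und F ⟶ S.und F) (A : X.A) (n : ℕ) :
    (NatTrans.app (pw x (n + 1)) A).1 = pw (NatTrans.app x A).1 (n + 1) := by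
  induction n with
  | zero => exact (LQ.comp_p (NatTrans.app x A)).trans (Category.comp_id _).symm
  | succ n ih => exact congrArg ((NatTrans.app x A).1 ≫ ·) ih

end

variable [HasZeroObject C]

theorem gm_laz {Y : Type w} {K : Type*} {P : Rl G Y} {B : Y → G → Y → Prop} (c : Y → G → Y → K)
    (cl : ∀ a g b h d, P.r a g b → B b h d → c a (g * h) d = c b h d)
    (cr : ∀ a g b h d, B a g b → P.r b h d → c a (g * h) d = c a g b)
    (sep : ∀ κ κ' a g b, κ.length = κ'.length → Wr B c κ a g b → Wr B c κ' a g b → κ = κ')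
    (z₁ : ∀ k, S.Gm P (fun a g b => B a g b ∧ c a g b = k) (m + 1))
    (z₂ : ∀ κ, 2 ≤ κ.length → S.Gm P (Wr B c κ) m) (hm : 1 ≤ m) : S.Gm P B (m + 1) := by
  classical
  refine gm_union (ι := Finset K) (fun _ => P) (fun s a g b => B a g b ∧ c a g b ∈ s)
    (fun _ _ _ _ _ _ => id) (fun _ _ _ _ => id) (fun _ _ _ h => ⟨∅, h⟩)
    (fun _ _ h _ _ _ a => ⟨a.1, h a.2⟩) (fun a g b h => ⟨{c a g b}, h, by simp⟩) ?_
  intro s X hX F x hx h0
  have hB : S.Ty F B x := fun A => (hx A).mono fun _ _ _ a => a.1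
  choose y hy using fun A k => laz_ex (hB A) c k
  obtain ⟨q, hq⟩ : ∃ q : K → (S.und F ⟶ S.und F), ∀ k A, (NatTrans.app (q k) A).1 = y A k := by
    refine ⟨fun k => NatTrans.mk (fun A => LQ.homMk (y A k) ?_ ?_ fun _ _ _ h => (h trivial).elim)
      fun A A' f => LQ.hom_ext ?_, fun _ _ => rfl⟩
    · exact ((hy A k).left cl (F.F.obj A).rg).uniq (hy A k).top (LQ.p_comp (NatTrans.app x A))
    · exact ((hy A k).right cr (F.F.obj A).rg).uniq (hy A k).top (LQ.comp_p (NatTrans.app x A))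
    · exact ((hy A' k).left cl (LQ.hom_rg (F.F.map f))).uniq
        ((hy A k).right cr (LQ.hom_rg (F.F.map f))) (congrArg Subtype.val (NatTrans.naturality x f))
  have hw : ∀ k κ A, (NatTrans.app (lp ((k :: κ).map q)) A).1 = lp ((k :: κ).map (y A)) :=
    fun k κ A => by simpa only [hq] using! laz_lp' q A k κ
  have z0 : ∀ a ∈ Wd q (m + 1), a = 0 := by
    rintro _ ⟨_ | ⟨k, κ⟩, hκ, rfl⟩
    · simp at hκ
    refine NatTrans.ext (funext fun A => LQ.hom_ext ((hw k κ A).trans ?_))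
    exact laz_zero (hB A) (hy A) sep ((laz_pw' x A m).symm.trans (by rw [h0]; rfl)) hκ
  refine (Fn.nt.{v, max u w, v, u} X _).lazard z0 ?_ (m + 1) 1 le_rfl (by omega) x ?_
  · rintro _ ⟨_ | ⟨k, _ | ⟨k', κ⟩⟩, hκ, rfl⟩
    · simp at hκ
    · refine z₁ k X hX F _ (fun A => ?_) (z0 _ (Wd.pw ⟨_, hκ, rfl⟩ _))
      rw [hw]
      simpa [lp] using (hy A k).1
    · refine z₂ (k :: k' :: κ) (by simp) X hX F _ (fun A => ?_)
        (z0 _ (Wd.anti (by omega) (Wd.pw' (k := 2) ⟨_, by simp, rfl⟩ m)))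
      rw [hw]
      exact laz_word (hy A) _
  · have e : ∑ k ∈ s, q k = x := NatTrans.ext (funext fun A => LQ.hom_ext
      ((congrArg Subtype.val (NatTrans.app_sum s A q)).trans ((LQ.sum_f _ _).trans
        ((Finset.sum_congr rfl fun k _ => hq k A).trans
          (laz_sum (hy A) ((hx A).mono fun _ _ _ a => a.2))))))
    exact e ▸ sum_mem fun k _ => AddSubmonoid.subset_closure (Wd.one q k)

theorem gm_one {Y : Type w} {P : Rl G Y} {B : Y → G → Y → Prop} : S.Gm P B 1 := by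
  intro X _ F x _ h
  rw [show x = 0 from (Category.comp_id x).symm.trans h, sub_zero]
  exact Fn.tr_id _

end GC

end Pool.Agent.Lib.MP_5d3e93_al
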