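import Pool.Agent.Lib.MP_5d3e93_al.K.N2e
import Pool.Agent.Lib.MP_5d3e93_al.K.Cyc
import Pool.Agent.Lib.MP_5d3e93_al.K.Laz
import Pool.Agent.Lib.MP_5d3e93_al.K.PushA

/-! Cyclic moves along coverings with infinite fibres. -/

open CategoryTheory Limits ZeroObject MulAction

namespace Pool.Agent.Lib.MP_5d3e93_al

universe w v u

open Gr

namespace GC

open Lo

variable {G : Type w} [Group G] {C : Type u} [Category.{v} C] [Preadditive C]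
variable {S : GC G C} {Y Y' : Type w}

theorem cb_unmap {X Z Z' : Type*} {A B : C} {L : S.Lo X A} {M : S.Lo Z B} {φ : Z → Z'}
    {R : X → G → Z' → Prop} {f : A ⟶ B} (h : L.Rg (M.map φ) R f) :
    L.Rg M (fun x g z => R x g (φ z)) f := fun x z => by
  have := (h x (φ z)).comp_one (M.spl z).deg.cp_eq
  rwa [Category.assoc, Category.assoc, (M.map_mul φ (φ z) z).1, if_pos rfl] at this

theorem cb_fin {X : Type*} {A D : C} {N : S.Lo X D} {L : S.Lo Y A} {Φ : Y → Set Y'}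
    {ρ : X → G → Y' → Prop} {f : D ⟶ A} (h : N.Rg L (fun x g y => ∃ r ∈ Φ y, ρ x g r) f) :
    ∃ Φ₀ : Y → Finset Y', (∀ y, ∀ r ∈ Φ₀ y, r ∈ Φ y) ∧
      N.Rg L (fun x g y => ∃ r ∈ Φ₀ y, ρ x g r) f := by
  classical
  obtain ⟨s, F, e, hF⟩ := h.parts fun x g y =>
    if k : ∃ r ∈ Φ y, ρ x g r then some k.choose else none
  refine ⟨fun y => (Finset.eraseNone s).filter (· ∈ Φ y), fun y r k => (Finset.mem_filter.1 k).2,
    e ▸ Rg.sum _ fun c hc => (hF c).mono fun x g y k => ?_⟩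
  have := k.2
  rw [dif_pos k.1] at this
  exact ⟨_, Finset.mem_filter.2 ⟨Finset.mem_eraseNone.2 (by rwa [this]), k.1.choose_spec.1⟩,
    k.1.choose_spec.2⟩

/-- A detecting covering through which a given morphism factors. -/
theorem cb_cov (hz : ∃ Z : C, 𝟙 Z = 0) {X : Type w} {A D : C} {N : S.Lo X D} {L : S.Lo Y A}
    {Φ : Y → Set Y'} {ρ : X → G → Y' → Prop} {f : D ⟶ A}
    (h : N.Rg L (fun x g y => ∃ r ∈ Φ y, ρ x g r) f) :
    ∃ (B : C) (K : S.Lo Y' B) (b : B ⟶ A) (t : D ⟶ B), (K.On fun r => ∃ y, r ∈ Φ y) ∧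
      K.Rg L (fun r g y => g = 1 ∧ r ∈ Φ y) b ∧ N.Rg K ρ t ∧ t ≫ b = f ∧
      ∀ {X' : Type w} {D' : C} {N' : S.Lo X' D'} {ρ' : X' → G → Y' → Prop} (t : D' ⟶ B),
        (∀ q x g r₁ r₂, r₁ ∈ Φ q → r₂ ∈ Φ q → ρ' x g r₁ → ρ' x g r₂ → r₁ = r₂) →
        N'.Rg K ρ' t → t ≫ b = 0 → t = 0 := by
  obtain ⟨Φ₀, h0, h1⟩ := cb_fin h
  obtain ⟨c⟩ := cyc_cov hz L Φ₀
  obtain ⟨t, t1, t2⟩ := c.ex (fun x g z => ρ x g z.2) h1
  have on : c.M.On fun z => z.2 ∈ Φ z.1 := fun z hz => by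
    refine c.un (N := c.M) (R := fun _ _ z' => z' = z) (fun _ _ _ _ _ a b =>
      congrArg Prod.snd (a.trans b.symm)) (fun x y => ?_) .zero ?_
    · by_cases k : y = z
      · exact fun g hg => (hg k).elim
      · rw [c.M.orth z y (Ne.symm k), comp_zero]
        exact .zero
    · rw [zero_comp, ← L.sum_r (_ ≫ _)]
      refine Finset.sum_eq_zero fun y _ => ?_
      rw [Category.assoc]
      exact S.ext0 _ fun g => c.rg z y g fun k => hz (h0 _ _ (k.2.1 ▸ k.2.2))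
  refine ⟨c.B, c.M.map Prod.snd, c.b, t, on.map fun z k => ⟨_, k⟩,
    c.rg.mapl fun z g y k => ⟨k.1, h0 _ _ k.2.2⟩, t1.mapr fun _ _ _ => id, t2,
    fun {X' D' N' ρ'} t u k e => ?_⟩
  exact c.un (R := fun x g z => z.2 ∈ Φ z.1 ∧ ρ' x g z.2)
    (fun x g y a b p q => u y x g a b p.1 q.1 p.2 q.2)
    ((cb_unmap k).on N'.on_true on fun _ _ _ _ a b => ⟨a, b⟩) .zero (by rw [e, zero_comp])

variable {P : Rl G Y} {P' : Rl G Y'}

variable (S) in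
/-- The bimodule of morphisms of a given type. -/
def cbBi (ρ : Y → G → Y' → Prop) (al : ∀ p g p' h r, P.r p g p' → ρ p' h r → ρ p (g * h) r)
    (ar : ∀ p g r h r', ρ p g r → P'.r r h r' → ρ p (g * h) r') : Bi (LQ.U S P) (LQ.U S P') where
  m M N :=
    { carrier := {x | M.L.Rg N.L ρ x.1}
      zero_mem' := Rg.zero
      add_mem' := Rg.add
      neg_mem' := Rg.neg }
  l k _ h := (LQ.hom_rg k).comp h al
  r k _ h := Rg.comp h (LQ.hom_rg k) ar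

/-- A morphism of underlying objects. -/
noncomputable def cbU {M : S.LQ P} {N : S.LQ P'} (x : M.A ⟶ N.A) (h : M.p ≫ x = x) (k : x ≫ N.p = x) :
    (LQ.U S P).obj M ⟶ (LQ.U S P').obj N := LQ.homMk x h k fun _ _ _ a => (a trivial).elim

theorem cb_compl {A : Type*} [Category* A] [Preadditive A] [HasBinaryBiproducts A]
    [IsIdempotentComplete A] {M M₀ : A} (i : M ⟶ M₀) (r : M₀ ⟶ M) (h : i ≫ r = 𝟙 M) :
    ∃ M', Nonempty (M₀ ≅ M ⊞ M') := by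
  obtain ⟨M', j, s, h1, h2⟩ := IsIdempotentComplete.idempotents_split M₀ (𝟙 _ - r ≫ i)
    (by simp [reassoc_of% h])
  have a : i ≫ s = 0 := by
    rw [← Category.comp_id s, ← h1, reassoc_of% h2]; simp [reassoc_of% h]
  have b : j ≫ r = 0 := by
    rw [← Category.id_comp j, ← h1, Category.assoc, Category.assoc, reassoc_of% h2]; simp [h]
  exact ⟨M', ⟨⟨biprod.lift r s, biprod.desc i j, by simp [h2], by
    ext <;> simp [h, h1, a, b]⟩⟩⟩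

theorem cb_iso {A : Type*} [Category.{v} A] [Preadditive A] {B : Type*} [Category.{v} B]
    [Preadditive B] {T : Type*} [Category.{v} T] [Preadditive T] {f : A ⥤ T} {g : B ⥤ T}
    {α : Bi f g} {β : Bi g f} {M M' : A} (h : α.Hs β M) (e : M ≅ M') : α.Hs β M' := fun N y hy => by
  obtain ⟨N', s, k, ⟨h1, h2, h3⟩, h4⟩ := h N _ (β.r e.inv hy)
  refine ⟨N', s ≫ f.map e.hom, k, ⟨β.r _ h1, fun _ l a => h2 _ l ?_, fun _ l a b => h3 _ l a ?_⟩,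
    by rw [reassoc_of% h4, ← f.map_comp, e.inv_hom_id, f.map_id, Category.comp_id]⟩
  · rwa [← cancel_mono (f.map e.hom), zero_comp, Category.assoc]
  · rwa [← cancel_mono (f.map e.hom), zero_comp, Category.assoc]

variable [HasZeroObject C] {m : ℕ}

theorem Gm.cyc' {Y Y' : Type w} {P : Rl G Y} {P' : Rl G Y'} {B : Y → G → Y → Prop}
    {B' : Y' → G → Y' → Prop} (Φ : Y → Set Y') (α : Y → G → Y' → Prop)
    (qr : ∀ a g b, P.r a g b → P.r a 1 a ∧ P.r b 1 b) (rf : ∀ q r, r ∈ Φ q → P'.r r 1 r)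
    (k1 : ∀ q g q' r, P.r q g q' → r ∈ Φ q → ∃ r' ∈ Φ q', P'.r r g r')
    (k2 : ∀ p g q, B p g q → ∃ r ∈ Φ q, α p g r)
    (u1 : ∀ q r g r₁ r₂, r₁ ∈ Φ q → r₂ ∈ Φ q → P'.r r g r₁ → P'.r r g r₂ → r₁ = r₂)
    (u2 : ∀ q p g r₁ r₂, r₁ ∈ Φ q → r₂ ∈ Φ q → α p g r₁ → α p g r₂ → r₁ = r₂)
    (al : ∀ p g p' h r, P.r p g p' → α p' h r → α p (g * h) r)
    (ar : ∀ p g r h r', α p g r → P'.r r h r' → α p (g * h) r')
    (k3 : ∀ r g r₁ q h r', P'.r r g r₁ → r₁ ∈ Φ q → α q h r' → B' r (g * h) r')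
    (z₁ : S.Zq P) (z₂ : S.Zq P') (z : S.Gm P' B' (m + 1)) : S.Gm P B m := by
  obtain _ | m := m
  · exact gm_one.anti (Nat.zero_le 1)
  let β : Y' → G → Y → Prop := fun r g q => ∃ r' ∈ {r' | r' ∈ Φ q ∧ P.r q 1 q}, P'.r r g r'
  have br : ∀ r g q h q', β r g q → P.r q h q' → β r (g * h) q' := by
    rintro r g q h q' ⟨r', a, b⟩ c
    obtain ⟨r'', d, e⟩ := k1 _ _ _ _ c a.1
    exact ⟨r'', ⟨d, (qr _ _ _ c).2⟩, P'.trans b e⟩
  let a : Bi (LQ.U S P) (LQ.U S P') := S.cbBi α al ar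
  let b : Bi (LQ.U S P') (LQ.U S P) :=
    S.cbBi β (fun _ _ _ _ _ h ⟨r, k, l⟩ => ⟨r, k, P'.trans h l⟩) br
  have id' {D : C} {K : S.Lo Y' D} (h : K.On fun r => ∃ q, r ∈ {r' | r' ∈ Φ q ∧ P.r q 1 q}) :
      K.Rg K P'.r (𝟙 D) := rg_id.on h h fun r g r' ⟨q, k⟩ _ e => by
    rw [e.1, ← e.2]; exact rf q r k.1
  have bb {A D : C} {K : S.Lo Y' D} {L : S.Lo Y A} {x : D ⟶ A}
      (h : K.Rg L (fun r g q => g = 1 ∧ r ∈ {r' | r' ∈ Φ q ∧ P.r q 1 q}) x) : K.Rg L β x :=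
    h.mono fun r g q k => ⟨r, k.2, k.1 ▸ rf q r k.2.1⟩
  have k : Ga.{v, max u w, u} (LQ.U S P') (fun N y => y ∈ (b.mul a).m N N) (m + 2) :=
    Ga.mono (B' := fun N y => N.L.Rg N.L B' y.1) z fun N y ⟨M, s, t, hs, ht, e⟩ =>
      e ▸ Rg.comp hs ht fun _ _ _ _ _ ⟨r, p, q⟩ l => k3 _ _ _ _ _ _ q p.1 l
  refine Ga.mono (B := fun M x => M.L.Rg M.L B x.1)
    (ga_cyc.{v, max u w, u} a b (fun M => ?_) z₁ z₂ k) fun M x hx => ?_
  · obtain ⟨D, L, i, r, h1, h2, h3, h4, h5, h6, -⟩ := M.L.res (hz_of (C := C)) fun q => P.r q 1 q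
    let M₀ : S.LQ P := ⟨D, L, 𝟙 D, Category.id_comp _, rg_id.on h6 h6 fun q g q' k _ e => by
      rw [e.1, ← e.2]; exact k⟩
    have e : M.p ≫ r ≫ i = M.p := by
      rw [← M.L.sum_r M.p, Preadditive.sum_comp]
      refine Finset.sum_congr rfl fun q _ => ?_
      by_cases k : P.r q 1 q
      · rw [Category.assoc, h4 q k]
      · have : M.p ≫ M.L.e q = 0 := M.L.ext_l fun p => by
          rw [comp_zero]; exact S.ext0 _ fun g => M.rg p q g fun l => k (qr _ _ _ l).2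
        rw [this, zero_comp]
    obtain ⟨M', ⟨j⟩⟩ := cb_compl (M := M) (M₀ := M₀)
      (LQ.homMk (M.p ≫ r) (by simp) (Category.comp_id _) (M.rg.comp_dg h2))
      (LQ.homMk (i ≫ M.p) (Category.id_comp _) (by simp) (h1.dg_comp M.rg))
      (LQ.hom_ext (by simp [reassoc_of% e]))
    refine ⟨M', cb_iso (fun N y hy => ?_) j⟩
    obtain ⟨E, K, s, t, c1, c2, c3, c4, c5⟩ := cb_cov (hz_of (C := C)) (N := N.L) (L := L) hy
    exact ⟨⟨E, K, 𝟙 E, Category.id_comp _, id' c1⟩,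
      cbU s (Category.id_comp _) (Category.comp_id _), LQ.cut t c3,
      ⟨bb c2, fun N' l e => LQ.hom_ext (c5 l.1 (fun q x g r₁ r₂ a b => u1 q x g r₁ r₂ a.1 b.1)
        (LQ.hom_rg l) (congrArg (·.1) e)), fun M' l hl e => LQ.hom_ext (c5 l.1
          (fun q x g r₁ r₂ a b => u2 q x g r₁ r₂ a.1 b.1) hl (congrArg (·.1) e))⟩,
      LQ.hom_ext (by
        change (N.p ≫ t ≫ 𝟙 E) ≫ s = _
        rw [Category.comp_id, Category.assoc, c4]
        exact LQ.p_comp y)⟩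
  · obtain ⟨ξ, hξ⟩ : ∃ ξ : M.A ⟶ M.A, ξ = x.1 := ⟨_, rfl⟩
    have p1 : M.p ≫ ξ = ξ := hξ ▸ LQ.p_comp x
    have p2 : ξ ≫ M.p = ξ := hξ ▸ LQ.comp_p x
    have p3 : M.L.Rg M.L (fun _ _ q => P.r q 1 q) ξ :=
      p2 ▸ (rg_sup (S.sup_top ξ)).comp M.rg fun _ _ _ _ _ _ l => (qr _ _ _ l).2
    obtain ⟨E, K, s, t, c1, c2, c3, c4, -⟩ := cb_cov (hz_of (C := C))
      (Φ := fun q => {r' | r' ∈ Φ q ∧ P.r q 1 q}) (ρ := α)
      ((p3.and (hξ ▸ hx)).mono fun p g q l => (k2 p g q l.2).imp fun r n => ⟨⟨n.1, l.1⟩, n.2⟩)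
    exact ⟨⟨E, K, 𝟙 E, Category.id_comp _, id' c1⟩,
      cbU (M.p ≫ t) (by simp) (Category.comp_id _), cbU (s ≫ M.p) (Category.id_comp _) (by simp),
      M.rg.comp c3 al, (bb c2).comp M.rg br, LQ.hom_ext (by
        change (M.p ≫ t) ≫ s ≫ M.p = _
        rw [Category.assoc, reassoc_of% c4, p2, p1, hξ])⟩

end GC

end Pool.Agent.Lib.MP_5d3e93_al
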