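import Pool.Agent.Lib.MP_5d3e93_al.K.MV

/-! Exact functors with kernels, cycles and covers: the definition. -/

open CategoryTheory Limits Pretriangulated ZeroObject

namespace Pool.Agent.Lib.MP_5d3e93_al.K

open Gr Am

universe w v u y v' u' v'' u''

variable {A : Type (max u v)} [Category.{v} A] [Preadditive A] {A₀ : Type u''} [Category.{v''} A₀]
  [Preadditive A₀] (U : A ⥤ A₀) {B : Type (max u' v)} [Category.{v} B] [Preadditive B]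

/-- Kernels, cycles and covers. -/
structure Ex3 (h : A ⥤ B) : Prop where
  spl : ∀ {X Y Z : A} (i : X ⟶ Y) (p : Y ⟶ Z), i ≫ p = 0 → Spl (U.map i) (U.map p) →
    Spl (h.map i) (h.map p)
  ker : ∀ {Y Z : A} (p : Y ⟶ Z), (∃ s, s ≫ U.map p = 𝟙 _) → (∃ s, s ≫ h.map p = 𝟙 _) →
    ∃ (X : A) (i : X ⟶ Y), i ≫ p = 0 ∧ Spl (U.map i) (U.map p) ∧
      ∀ W (t : W ⟶ Y), t ≫ p = 0 → ∃ l, l ≫ i = t
  cyc : ∀ {X Y Z : A} (d : X ⟶ Y) (d' : Y ⟶ Z), d ≫ d' = 0 →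
    (∃ s s', s ≫ U.map d + U.map d' ≫ s' = 𝟙 _) → ∃ (K : A) (i : K ⟶ Y) (r : U.obj Y ⟶ U.obj K)
      (s : U.obj Z ⟶ U.obj Y), i ≫ d' = 0 ∧ U.map i ≫ r = 𝟙 _ ∧
        r ≫ U.map i + U.map d' ≫ s = 𝟙 _ ∧ ∀ W (t : W ⟶ Y), t ≫ d' = 0 → ∃ l, l ≫ i = t
  cov : ∀ c : A, ∃ (a : A) (f : a ⟶ c), IsZero (h.obj a) ∧ ∃ s, s ≫ U.map f = 𝟙 _

end Pool.Agent.Lib.MP_5d3e93_al.K
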