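import Pool.Agent.Lib.MP_5d3e93_al.K.KelT
import Pool.Agent.Lib.MP_5d3e93_al.K.Ex3D
import Pool.Agent.Lib.MP_5d3e93_al.Gr.Str

/-! The kernel of an exact functor with covers. -/

open CategoryTheory Limits Pretriangulated ZeroObject

namespace Pool.Agent.Lib.MP_5d3e93_al.K

open Gr Am

universe w v u y v' u' v'' u''

set_option backward.isDefEq.respectTransparency false
set_option linter.unusedSectionVars false

variable {A : Type (max u v)} [Category.{v} A] [Preadditive A] [HasZeroObject A]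
  [HasBinaryBiproducts A] {A₀ : Type u''} [Category.{v''} A₀] [Preadditive A₀] [HasZeroObject A₀]
  [HasBinaryBiproducts A₀] {U : A ⥤ A₀} [U.Additive]
  {B : Type (max u' v)} [Category.{v} B] [Preadditive B] [HasZeroObject B]
  [HasBinaryBiproducts B] [U.Faithful]

/-- A map from a killed object to the target of an admissible epimorphism lifts after a cover. -/
theorem Ex3.lift {h : A ⥤ B} [h.Additive] (x : Ex3 U h) {X K c : A} (d : X ⟶ K)
    (hU : ∃ s, s ≫ U.map d = 𝟙 _) (hh : ∃ s, s ≫ h.map d = 𝟙 _) (hc : IsZero (h.obj c))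
    (f : c ⟶ K) : ∃ (x₂ x₁ : A) (i : x₂ ⟶ x₁) (p : x₁ ⟶ c) (g : x₁ ⟶ X), IsZero (h.obj x₂) ∧
      IsZero (h.obj x₁) ∧ i ≫ p = 0 ∧ Spl (U.map i) (U.map p) ∧ g ≫ d = p ≫ f := by
  obtain ⟨σ, hσ⟩ := hU
  obtain ⟨τ, hτ⟩ := hh
  obtain ⟨e, k, k0, ⟨r, s, -, -, k3⟩, -⟩ := x.ker (biprod.desc f (-d))
    ⟨-σ ≫ U.map biprod.inr, by simp [← U.map_comp, hσ]⟩
    ⟨-τ ≫ h.map biprod.inr, by simp [← h.map_comp, hτ]⟩
  obtain ⟨a, φ, ha, ρ, hρ⟩ := x.cov e
  obtain ⟨t, ht⟩ : ∃ t, t = U.map (biprod.inl : c ⟶ c ⊞ X) + U.map f ≫ σ ≫ U.map biprod.inr :=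
    ⟨_, rfl⟩
  have t0 : t ≫ U.map (biprod.desc f (-d)) = 0 := by simp [ht, ← U.map_comp, hσ]
  have t1 : t ≫ r ≫ U.map k = t := by simpa [reassoc_of% t0] using congrArg (t ≫ ·) k3
  have t2 : t ≫ U.map biprod.fst = 𝟙 _ := by simp [ht, ← U.map_comp]
  obtain ⟨x₂, i, i0, sp, -⟩ := x.ker (φ ≫ k ≫ biprod.fst)
    ⟨t ≫ r ≫ ρ, by simp [reassoc_of% hρ, reassoc_of% t1, t2]⟩ ⟨0, hc.eq_of_src _ _⟩
  obtain ⟨r', -, e1, -⟩ := x.spl _ _ i0 sp
  refine ⟨x₂, a, i, _, φ ≫ k ≫ biprod.snd, (IsZero.iff_id_eq_zero _).2 ?_, ha, i0, sp, ?_⟩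
  · rw [← e1, ha.eq_of_src r' 0, comp_zero]
  · have : k ≫ biprod.fst ≫ f - k ≫ biprod.snd ≫ d = 0 := by
      rw [← k0, biprod.desc_eq]; simp [sub_eq_add_neg]
    simp only [Category.assoc, sub_eq_zero.1 this]

/-- `keller₃`. `K₀`, `K₁` = cycles of `d'`, `d`; `d = d₁ ≫ i₀`, `f = f₁ ≫ i₀`; `K₁ ⟶ X ⟶ K₀` is
`U`-split, so `h d₁` is split epi; `c = ker (desc f₁ (-d₁))`, `a ⟶ c` a cover, `x₂ = ker (a ⟶ x)`. -/
theorem Ex3.ff {h : A ⥤ B} [h.Additive] (x : Ex3 U h) :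
    FF (exMap.{v, u, v, u} U (Kz h).ι).D (exU.{v, u} ((Kz h).ι ⋙ U)).bdd := by
  refine keller₃.{v, u, u} U (Kz h).ι ?_
  rintro W X Y Z d₀ d d' h0 h1 e0 ⟨s, s', e1⟩ c f hf
  obtain ⟨K₀, i₀, r₀, s₀, a1, a2, -, a4⟩ := x.cyc d d' h1 ⟨s, s', e1⟩
  obtain ⟨K₁, i₁, r₁, s₁, b1, b2, b3, -⟩ := x.cyc d₀ d h0 e0
  obtain ⟨d₁, rfl⟩ := a4 _ d h1
  obtain ⟨f₁, rfl⟩ := a4 _ f hf
  have a1' : U.map i₀ ≫ U.map d' = 0 := by rw [← U.map_comp, a1, U.map_zero]
  have z : U.map i₁ ≫ U.map d₁ = 0 := by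
    have := congrArg (U.map · ≫ r₀) b1
    simpa [a2] using this
  have σ : (U.map i₀ ≫ s) ≫ U.map d₁ = 𝟙 _ := by
    have := congrArg (U.map i₀ ≫ · ≫ r₀) e1
    simpa [a2, reassoc_of% a1'] using this
  have τ : (U.map i₀ ≫ s₁) ≫ U.map d₁ = 𝟙 _ := by
    have := congrArg ((U.map i₀ ≫ s) ≫ · ≫ U.map d₁) b3
    simp only [U.map_comp, Preadditive.add_comp, Category.assoc, z,
      comp_zero, zero_add, Category.id_comp] at this σ ⊢
    rwa [reassoc_of% σ, σ] at this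
  obtain ⟨-, t, -, ht, -⟩ := x.spl i₁ d₁ (U.map_injective (by rw [U.map_comp, z, U.map_zero]))
    ⟨r₁, _, b2, τ, by simpa using b3⟩
  obtain ⟨x₂, x₁, i, p, g, z2, z1, k0, sp, hg⟩ := x.lift d₁ ⟨_, σ⟩ ⟨t, ht⟩ c.property f₁
  exact ⟨⟨x₂, z2⟩, ⟨x₁, z1⟩, ObjectProperty.homMk i, ObjectProperty.homMk p, g,
    ObjectProperty.hom_ext _ k0, sp, by rw [reassoc_of% hg]; rfl⟩

theorem ex3_zero {h : A ⥤ B} [h.Additive] (hT) (K : Kh A) :
    IsZero ((exTo.{v, u, u'} U h hT).D.obj ((exU.{v, u} U).Q.obj K)) ↔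
      IsZero ((h.mapHomotopyCategory (.up ℤ)).obj K) := of_Tb.{v, u'} _

theorem Ex3.step {h : A ⥤ B} [h.Additive] (x : Ex3 U h)
    (hT : ∀ K, exT U K → IsZero ((h.mapHomotopyCategory _).obj K)) (p : ℤ) (m : ℕ) :
    ∀ K : CochainComplex A ℤ, (∀ n, n < p ∨ p + m < n → IsZero (K.X n)) →
      IsZero ((h.mapHomotopyCategory (.up ℤ)).obj ((HomotopyCategory.quotient _ _).obj K)) →
      (exU.{v, u} U).gen (Kz h) ((exU.{v, u} U).QQ.obj K) := by
  induction m with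
  | zero =>
    intro K hK hz
    refine (exU.{v, u} U).gen_of_genK (Sb.genK ⟨fun n => ?_, _, _, hK⟩)
    by_cases e : n = p
    · subst e
      obtain ⟨s, s', k⟩ := kel_ctr (l := n - 1) (m := n) (n := n + 1) h hz (by omega) rfl
      refine (IsZero.iff_id_eq_zero _).2 ?_
      rw [← k, (hK (n - 1) (by omega)).eq_of_src (K.d _ _) 0,
        (hK (n + 1) (by omega)).eq_of_tgt (K.d _ _) 0]
      simp
    · exact h.map_isZero (hK n (by omega))
  | succ m ih =>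
    intro K hK hz
    obtain ⟨l, hl⟩ : ∃ l, l = p + m := ⟨_, rfl⟩
    obtain ⟨q, hq⟩ : ∃ q, q = l + 1 := ⟨_, rfl⟩
    obtain ⟨a, f, ha, ρ, hρ⟩ := x.cov (K.X q)
    let φ : (CochainComplex.singleFunctor A q).obj a ⟶ K :=
      HomologicalComplex.mkHomFromSingle f fun k (e : q + 1 = k) =>
        (hK k (by omega)).eq_of_tgt _ _
    have hφ : φ.f q = (kelE q a).hom ≫ f := HomologicalComplex.mkHomFromSingle_f _ _
    have tri := HomotopyCategory.mappingCone_triangleh_distinguished φ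
    have sa : Sb (Kz h) ((CochainComplex.singleFunctor A q).obj a) := Sb.single (P := Kz h) ha q
    have za : IsZero ((h.mapHomotopyCategory (.up ℤ)).obj ((HomotopyCategory.quotient _ _).obj
        ((CochainComplex.singleFunctor A q).obj a))) :=
      Functor.map_isZero (HomotopyCategory.quotient _ _)
        (X := (h.mapHomologicalComplex _).obj _) ((IsZero.iff_id_eq_zero _).2 (by
          ext n
          exact IsZero.eq_of_src (sa.1 n) _ _))
    have zC : IsZero ((h.mapHomotopyCategory (.up ℤ)).obj ((HomotopyCategory.quotient _ _).obj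
        (CochainComplex.mappingCone φ))) :=
      (Zr.inverseImage (h.mapHomotopyCategory (.up ℤ))).ext_of_isTriangulatedClosed₃ _ tri za hz
    have zX : ∀ n, n < p ∨ q < n → IsZero ((CochainComplex.mappingCone φ).X n) := fun n k =>
      (CochainComplex.mappingCone.isZero_X_iff φ n).2
        ⟨kel_zero q a _ (by omega), hK n (by omega)⟩
    have e1 := CochainComplex.mappingCone.inl_v_d φ q l (q + 1) (by omega) (by omega)
    rw [(kel_zero q a (q + 1) (by omega)).eq_of_tgt (HomologicalComplex.d _ q (q + 1)) 0,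
      zero_comp, sub_zero, hφ] at e1
    have e2 := CochainComplex.mappingCone.id_X φ q (q + 1) rfl
    rw [(kel_zero q a (q + 1) (by omega)).eq_of_src
      ((CochainComplex.mappingCone.inl φ).v (q + 1) q _) 0, comp_zero, zero_add] at e2
    obtain ⟨s, s', k⟩ := kel_ctr (l := l) (m := q) (n := q + 1) h zC hq.symm rfl
    rw [(zX (q + 1) (by omega)).eq_of_tgt (HomologicalComplex.d _ q (q + 1)) 0, h.map_zero,
      zero_comp, add_zero] at k
    obtain ⟨Y, i, i0, sp, li⟩ := x.ker ((CochainComplex.mappingCone φ).d l q)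
      ⟨U.map ((CochainComplex.mappingCone.snd φ).v q q (add_zero q)) ≫ ρ ≫
        U.map ((kelE q a).inv ≫ (CochainComplex.mappingCone.inl φ).v q l (by omega)), by
        rw [Category.assoc, Category.assoc, ← U.map_comp, Category.assoc, e1,
          Category.assoc, Iso.inv_hom_id_assoc, U.map_comp, reassoc_of% hρ, ← U.map_comp, e2,
          U.map_id]⟩ ⟨s, k⟩
    obtain ⟨K', ψ, z1, z2, iso⟩ := exists_smart.{v, u} U (CochainComplex.mappingCone φ)
      ⟨fun _ => trivial, _, _, zX⟩ l q hq.symm (fun n k => zX n (Or.inr k)) i i0 sp li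
    have g' := ih K' (fun n k => k.elim (fun k => (zX n (Or.inl k)).of_iso
        (z2 n (by omega)).some) fun k => z1 n (by omega))
      ((ex3_zero.{v, u, u'} hT _).1 (((ex3_zero.{v, u, u'} hT _).2 zC).of_iso
        ((exTo.{v, u, u'} U h hT).D.mapIso (asIso ((exU.{v, u} U).QQ.map ψ)))))
    exact Cl.ext _ ((exU.{v, u} U).Q.map_distinguished _ tri)
      ((exU.{v, u} U).gen_of_genK sa.genK) (Cl.iso (asIso ((exU.{v, u} U).QQ.map ψ)) g')

/-- Strict bounded representative (`exists_genK`, `genK_strict`), induction on the length: with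
top degree `q` and a cover `a ⟶ K q`, the mapping cone of `single q a ⟶ K` has `U`-split and
`h`-split top differential (`kel_ctr`, `of_Tb`); `ker`, `exists_smart`. -/
theorem Ex3.ker_eq {h : A ⥤ B} [h.Additive] (x : Ex3 U h) (hT) :
    (exTo.{v, u, u'} U h hT).ker (exU.{v, u} U).bdd = (exU.{v, u} U).gen (Kz h) := by
  refine le_antisymm ?_ (Cl.le ?_)
  · rintro Y ⟨hY, z⟩
    obtain ⟨X, gX, ⟨e⟩⟩ := (exU.{v, u} U).exists_genK (P := ⊤) (fun _ k => k.1) hY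
    obtain ⟨K, ⟨-, p, q, hK⟩, ⟨e'⟩⟩ := genK_strict gX
    have ε : (exU.{v, u} U).QQ.obj K ≅ Y := (exU.{v, u} U).Q.mapIso e'.symm ≪≫ e
    exact Cl.iso ε (x.step hT p (q - p).toNat K (fun n k => hK n (by omega))
      ((ex3_zero.{v, u, u'} hT _).1 (IsZero.of_iso z ((exTo.{v, u, u'} U h hT).D.mapIso ε))))
  · rintro Y ⟨a, ha, ⟨e⟩⟩
    refine ⟨Cl.of ⟨a, trivial, ⟨e⟩⟩, IsZero.of_iso ((ex3_zero.{v, u, u'} hT
      ((HomotopyCategory.singleFunctor A 0).obj a)).2 ?_)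
      ((exTo.{v, u, u'} U h hT).D.mapIso e.symm)⟩
    exact Functor.map_isZero (HomotopyCategory.quotient _ _)
      (X := (h.mapHomologicalComplex _).obj ((CochainComplex.singleFunctor A 0).obj a))
      ((IsZero.iff_id_eq_zero _).2 (by
        ext n
        exact IsZero.eq_of_src ((Sb.single (P := Kz h) ha 0).1 n) _ _))

/-- `FF.deq_gen`. -/
theorem Ex3.deq {h : A ⥤ B} [h.Additive] (x : Ex3 U h) (hT) :
    Deq (exMap.{v, u, v, u} U (Kz h).ι).D (exU.{v, u} ((Kz h).ι ⋙ U)).bdd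
      ((exTo.{v, u, u'} U h hT).ker (exU.{v, u} U).bdd) := by
  have e : ObjectProperty.map ⊤ (exMap.{v, u, v, u} U (Kz h).ι).F = Kz h := funext fun c => propext
    ⟨fun ⟨a, _, ⟨e⟩⟩ => IsZero.of_iso a.property (h.mapIso e).symm, fun k => ⟨⟨c, k⟩, trivial, ⟨Iso.refl _⟩⟩⟩
  have := Am.FF.deq_gen (exMap.{v, u, v, u} U (Kz h).ι) (G := ⊤) x.ff
  rw [e] at this
  rw [x.ker_eq hT]
  exact this

end Pool.Agent.Lib.MP_5d3e93_al.K
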