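import Pool.Agent.Lib.MP_5d3e93_al.K.Gd
import Pool.Agent.Lib.MP_5d3e93_al.PrS

/-! Families of subgroups, tame subgroups, closed classes of coefficient categories. -/

open CategoryTheory Limits Subgroup

namespace Pool.Agent.Lib.MP_5d3e93_al

universe w v u

/-- Families of subgroups. -/
structure Fam (Γ : Type w) [Group Γ] where
  m : Subgroup Γ → Prop
  le : ∀ {H K}, H ≤ K → m K → m H
  conj : ∀ {H} (g : Γ), m H → m (H.map (MulAut.conj g).toMonoidHom)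

namespace Fam

variable {Γ Γ' : Type w} [Group Γ] [Group Γ'] (𝓕 : Fam Γ)

/-- The subgroups whose image lies in the family. -/
def comap (j : Γ' →* Γ) : Fam Γ' where
  m H := 𝓕.m (H.map j)
  le h := 𝓕.le (map_mono h)
  conj {H} g h := 𝓕.le (by
    rintro _ ⟨_, ⟨x, hx, rfl⟩, rfl⟩
    exact ⟨j x, ⟨x, hx, rfl⟩, by simp⟩) (𝓕.conj (j g) h)

/-- One step of the descent. -/
def St (D₁ D : Subgroup Γ) : Prop := ∃ t, ¬ 𝓕.m (D ⊔ zpowers t) ∧ D₁ ≤ cj D t

/-- Subgroups from which the descent terminates. -/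
def Tame (D : Subgroup Γ) : Prop := Acc 𝓕.St D

variable {𝓕} {D D' : Subgroup Γ}

theorem Tame.mem (h : 𝓕.Tame D) : 𝓕.m D := by
  induction h with
  | intro D _ ih =>
    by_contra k
    exact k (ih D ⟨1, fun a => k (𝓕.le le_sup_left a), fun x hx => mem_cj.2 ⟨hx, by simpa⟩⟩)

theorem Tame.le (h : 𝓕.Tame D) (k : D' ≤ D) : 𝓕.Tame D' :=
  ⟨_, fun _ ⟨t, a, b⟩ => Acc.inv h ⟨t, fun c => a (𝓕.le (sup_le_sup_right k _) c),
    fun _ hx => mem_cj.2 ⟨k (mem_cj.1 (b hx)).1, k (mem_cj.1 (b hx)).2⟩⟩⟩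

theorem Tame.comap {j : Γ' →* Γ} {E : Subgroup Γ'} (h : 𝓕.Tame D) (k : E.map j ≤ D) :
    (𝓕.comap j).Tame E := by
  induction h generalizing E with
  | intro D _ ih =>
    refine ⟨_, fun E₁ ⟨t, a, b⟩ => ih (E₁.map j) ⟨j t, fun c => a (𝓕.le ?_ c), ?_⟩ le_rfl⟩
    · rw [Subgroup.map_sup, MonoidHom.map_zpowers]
      exact sup_le_sup_right k _
    · rintro _ ⟨x, hx, rfl⟩
      obtain ⟨p, q⟩ := mem_cj.1 (b hx)
      exact mem_cj.2 ⟨k ⟨x, p, rfl⟩, k ⟨_, q, by simp⟩⟩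

end Fam

section
variable {Γ : Type w} [Group Γ] {C : Type u} [Category.{v} C] [Preadditive C]

/-- Swindles for all groups of the family. -/
def SwF (𝓕 : Fam Γ) (σ : Act Γ C) : Prop := ∀ H, 𝓕.m H → Swd σ (· ∈ H)

/-- Vanishing for all groups of the family. -/
def Wf [HasBinaryBiproducts C] [HasZeroObject C] (𝓕 : Fam Γ) (σ : Act Γ C) : Prop :=
  ∀ H, 𝓕.m H → KZ (σ.comap H.subtype)

end

set_option linter.checkUnivs false in
/-- Classes of coefficient categories with families that are closed under the constructions of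
the induction and vanish on groups of the family. -/
structure Cfc where
  k : ∀ {Γ : Type w} [Group Γ] {C : Type (max u v w)} [Category.{v} C] [Preadditive C]
    [HasBinaryBiproducts C] [HasZeroObject C], Fam Γ → Act Γ C → Prop
  sub : ∀ {Γ : Type w} [Group Γ] {C : Type (max u v w)} [Category.{v} C] [Preadditive C]
    [HasBinaryBiproducts C] [HasZeroObject C] {𝓕 : Fam Γ} {σ : Act Γ C}, k 𝓕 σ →
    ∀ {H : Type w} [Group H] (j : H →* Γ), Function.Injective j → k (𝓕.comap j) (σ.comap j)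
  fst : ∀ {Γ : Type w} [Group Γ] {C : Type (max u v w)} [Category.{v} C] [Preadditive C]
    [HasBinaryBiproducts C] [HasZeroObject C] {𝓕 : Fam Γ} {σ : Act Γ C}, k 𝓕 σ →
    k (𝓕.comap (.fst Γ (Multiplicative ℤ))) (σ.comap (.fst Γ (Multiplicative ℤ)))
  act : ∀ {Γ : Type w} [Group Γ] {C : Type (max u v w)} [Category.{v} C] [Preadditive C]
    [HasBinaryBiproducts C] [HasZeroObject C] {𝓕 : Fam Γ} {σ : Act Γ C}, k 𝓕 σ →
    ∀ {Z : Type w} [Preorder Z] [MulAction Γ Z] [Nonempty Z]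
      (hm : ∀ (g : Γ) (x y : Z), x ≤ y → g • x ≤ g • y), k 𝓕 (Lc.act σ hm)
  kz : ∀ {Γ : Type w} [Group Γ] {C : Type (max u v w)} [Category.{v} C] [Preadditive C]
    [HasBinaryBiproducts C] [HasZeroObject C] {𝓕 : Fam Γ} {σ : Act Γ C}, k 𝓕 σ → 𝓕.m ⊤ → KZ σ

section
variable {Γ : Type w} [Group Γ] {C : Type (max u v w)} [Category.{v} C] [Preadditive C]
  [HasBinaryBiproducts C] [HasZeroObject C] {𝓕 : Fam Γ} {σ : Act Γ C}

variable (𝓕 σ) in
/-- Members of a closed class. -/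
def Okf : Prop := ∃ κ : Cfc.{w, v, u}, κ.k 𝓕 σ

theorem Okf.sub (h : Okf.{w, v, u} 𝓕 σ) {H : Type w} [Group H] (j : H →* Γ)
    (hj : Function.Injective j) : Okf.{w, v, u} (𝓕.comap j) (σ.comap j) :=
  h.imp fun κ k => κ.sub k j hj

theorem Okf.fst (h : Okf.{w, v, u} 𝓕 σ) : Okf.{w, v, u} (𝓕.comap (.fst Γ (Multiplicative ℤ)))
    (σ.comap (.fst Γ (Multiplicative ℤ))) := h.imp fun κ k => κ.fst k

theorem Okf.act (h : Okf.{w, v, u} 𝓕 σ) {Z : Type w} [Preorder Z] [MulAction Γ Z] [Nonempty Z]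
    (hm : ∀ (g : Γ) (x y : Z), x ≤ y → g • x ≤ g • y) : Okf.{w, v, u} 𝓕 (Lc.act σ hm) :=
  h.imp fun κ k => κ.act k hm

theorem Okf.wf (h : Okf.{w, v, u} 𝓕 σ) : Wf 𝓕 σ := fun H a => by
  obtain ⟨κ, k⟩ := h
  exact κ.kz (κ.sub k H.subtype H.subtype_injective) (𝓕.le (map_subtype_le _) a)

end

end Pool.Agent.Lib.MP_5d3e93_al
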