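import Pool.Agent.Lib.MP_5d3e93_al.K.Fam
import Pool.Agent.Lib.MP_5d3e93_al.K.Tw
import Pool.Agent.Lib.MP_5d3e93_al.Bg.Tame

/-! Families of subgroups: the kit. -/

open CategoryTheory Limits ZeroObject MulAction

namespace Pool.Agent.Lib.MP_5d3e93_al

universe w v u y y' v' u' v'' u'' u₁ u₂ u₃

open Gr

section
variable {Γ : Type w} [Group Γ] {C : Type u} [Category.{v} C] [Preadditive C] {σ : Act Γ C}
  {𝓕 : Fam Γ}
theorem SwF.comap (h : SwF 𝓕 σ) {H : Type w} [Group H] (j : H →* Γ) :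
    SwF (𝓕.comap j) (σ.comap j) := fun _ a => ((h _ a).comap j).mono fun g k => ⟨g, k, rfl⟩
theorem SwF.act (h : SwF 𝓕 σ) {Z : Type y} [Preorder Z] [MulAction Γ Z]
    (hm : ∀ (g : Γ) (x y : Z), x ≤ y → g • x ≤ g • y) : SwF 𝓕 (Lc.act σ hm) :=
  fun H a => (h H a).act hm
/-- The subgroups with a fixed point. -/
def Fam.fix (Γ : Type w) [Group Γ] (S : Type y) [MulAction Γ S] : Fam Γ where
  m H := ∃ s : S, ∀ g ∈ H, g • s = s
  le := fun h ⟨s, k⟩ => ⟨s, fun g a => k g (h a)⟩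
  conj := fun g ⟨s, k⟩ => ⟨g • s, by
    rintro _ ⟨x, hx, rfl⟩
    simp [mul_smul, k x hx]⟩
theorem obs_swF {S : Type y} [MulAction Γ S] (ρ : Act Γ C) : SwF (Fam.fix Γ S) (Obs.act S ρ) :=
  fun _ ⟨s, k⟩ => (obs_swd ρ s).mono k
theorem Fam.Tame.conj {D : Subgroup Γ} (h : 𝓕.Tame D) (g : Γ) :
    𝓕.Tame (D.map (MulAut.conj g).toMonoidHom) := by
  have k : (𝓕.comap (MulAut.conj g⁻¹).toMonoidHom).Tame (D.map (MulAut.conj g).toMonoidHom) :=
    h.comap (by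
      rintro _ ⟨_, ⟨x, hx, rfl⟩, rfl⟩
      simpa [mul_assoc] using hx)
  refine Subrelation.accessible (fun {a b} ⟨t, p, q⟩ => ⟨t, fun c => p ?_, q⟩) k
  refine 𝓕.le (fun x hx => ?_) (𝓕.conj g c)
  exact ⟨_, ⟨x, hx, rfl⟩, by simp [mul_assoc]⟩
open Submodule in
/-- As `tame_of_span` in Bg/Tame. -/
theorem Fam.tame_of_span {k R : Type*} [Field k] [Ring R] [Algebra k R] (ψ : Γ →* R)
    (h : ∀ N : Subgroup Γ, Module.Finite k (Submodule.span k (ψ '' N)) →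
      ∀ t ∈ Subgroup.normalizer (N : Set Γ), 𝓕.m (N ⊔ Subgroup.zpowers t))
    (D : Subgroup Γ) (hD : Module.Finite k (Submodule.span k (ψ '' D))) : 𝓕.Tame D := by
  generalize e : Module.finrank k (span k (ψ '' D)) = m
  induction m using Nat.strong_induction_on generalizing D with
  | _ m ih =>
  refine ⟨_, ?_⟩
  rintro _ ⟨t, b, s⟩
  refine Fam.Tame.le (D := cj D t) ?_ s
  have le : span k (ψ '' cj D t) ≤ span k (ψ '' D) :=
    span_mono (Set.image_mono fun _ a => a.1)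
  have := finiteDimensional_of_le le
  obtain l | l := le.lt_or_eq
  · exact ih _ (e ▸ finrank_lt_finrank_of_lt l) _ this rfl
  set A := span k (ψ '' D) with hA
  have m1 {a b : R} (p : a ∈ A) (q : b ∈ A) : a * b ∈ A := by
    have := mul_mem_mul p q
    rw [span_mul_span] at this
    refine span_mono ?_ this
    rintro _ ⟨_, ⟨x, r, rfl⟩, _, ⟨y, s, rfl⟩, rfl⟩
    exact ⟨x * y, mul_mem r s, map_mul ..⟩
  let c : R →ₗ[k] R := (LinearMap.mulRight k (ψ t)).comp (LinearMap.mulLeft k (ψ t⁻¹))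
  have c1 (g : Γ) : c (ψ g) = ψ (t⁻¹ * g * t) := by simp [c]
  have c2 : ∀ a ∈ A, c a ∈ A := fun a p => by
    rw [← l] at p
    refine (show span k (ψ '' cj D t) ≤ A.comap c from span_le.2 ?_) p
    rintro _ ⟨g, q, rfl⟩
    exact show c (ψ g) ∈ A from c1 g ▸ subset_span ⟨_, (mem_cj.1 q).2, rfl⟩
  have c3 : Function.Injective c := fun a b p => by
    have := congrArg (fun x => ψ t * x * ψ t⁻¹) p
    simpa [c, mul_assoc, ← map_mul, ← mul_assoc (ψ t) (ψ t⁻¹)] using this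
  have c4 (a) (p : c a ∈ A) : a ∈ A := by
    obtain ⟨b, q⟩ := LinearMap.surjective_of_injective (f := c.restrict c2)
      (fun a b p => Subtype.ext (c3 (congrArg Subtype.val p))) ⟨_, p⟩
    exact c3 (congrArg Subtype.val q) ▸ b.2
  let N : Subgroup Γ := ⟨⟨⟨{g | ψ g ∈ A ∧ ψ g⁻¹ ∈ A}, fun p q =>
    ⟨by rw [map_mul]; exact m1 p.1 q.1, by rw [mul_inv_rev, map_mul]; exact m1 q.2 p.2⟩⟩,
    ⟨subset_span ⟨1, one_mem _, rfl⟩, subset_span ⟨_, inv_mem (one_mem _), rfl⟩⟩⟩,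
    fun p => ⟨p.2, by rw [inv_inv]; exact p.1⟩⟩
  have n1 : span k (ψ '' N) ≤ A := span_le.2 (by rintro _ ⟨g, p, rfl⟩; exact p.1)
  have n2 : D ≤ N := fun g p => ⟨subset_span ⟨g, p, rfl⟩, subset_span ⟨_, inv_mem p, rfl⟩⟩
  have n3 (g : Γ) : (t⁻¹ * g * t)⁻¹ = t⁻¹ * g⁻¹ * t := by group
  refine (b (𝓕.le (sup_le_sup_right n2 _) (h N (finiteDimensional_of_le n1) t
    (Subgroup.mem_normalizer_iff''.2 fun g =>
      ⟨fun p => ⟨c1 g ▸ c2 _ p.1, ?_⟩, fun p => ⟨c4 _ (c1 g ▸ p.1), c4 _ ?_⟩⟩)))).elim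
  · rw [n3, ← c1]
    exact c2 _ p.2
  · rw [c1, ← n3]
    exact p.2
/-- A finite subgroup and an element of its normaliser generate a virtually cyclic group. -/
theorem famA_vc {D : Subgroup Γ} [Finite D] {t : Γ} (n : t ∈ Subgroup.normalizer (D : Set Γ)) :
    (Subgroup.zpowers (⟨t, Subgroup.mem_sup_right (Subgroup.mem_zpowers t)⟩ :
      ↥(D ⊔ Subgroup.zpowers t))).FiniteIndex := by
  have : Finite (↥(D ⊔ Subgroup.zpowers t) ⧸ Subgroup.zpowers
      (⟨t, Subgroup.mem_sup_right (Subgroup.mem_zpowers t)⟩ : ↥(D ⊔ Subgroup.zpowers t))) :=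
    .of_surjective (fun d : D => QuotientGroup.mk ⟨d.1, Subgroup.mem_sup_left d.2⟩) fun c => by
      obtain ⟨⟨g, hg⟩, rfl⟩ := QuotientGroup.mk_surjective c
      obtain ⟨d, hd, _, ⟨k, rfl⟩, rfl⟩ := (Subgroup.coe_mul_of_right_le_normalizer_left D
        (Subgroup.zpowers t) (Subgroup.zpowers_le.2 n)).le hg
      exact ⟨⟨d, hd⟩, QuotientGroup.eq.2 ⟨k, Subtype.ext (by simp)⟩⟩
  exact Subgroup.finiteIndex_of_finite_quotient
/-- Finite subgroups. -/
theorem Fam.tame_fin (h : ∀ (V : Subgroup Γ) (x : V), (Subgroup.zpowers x).FiniteIndex → 𝓕.m V)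
    (D : Subgroup Γ) [Finite D] : 𝓕.Tame D := by
  generalize e : Nat.card D = m
  induction m using Nat.strong_induction_on generalizing D with
  | _ m ih =>
  refine ⟨_, ?_⟩
  rintro _ ⟨t, b, s⟩
  refine Fam.Tame.le (D := cj D t) ?_ s
  have le : cj D t ≤ D := inf_le_left
  have : Finite (cj D t) := .of_injective _ (Subgroup.inclusion_injective le)
  obtain l | l := le.lt_or_eq
  · exact ih _ (e ▸ Set.Finite.card_lt_card ‹Finite D› l) _ rfl
  refine (b (h _ _ (famA_vc (inv_mem_iff.1 (Subgroup.mem_normalizer_fintype fun g a => ?_))))).elim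
  simpa using (mem_cj.1 (l.ge a)).2
variable [HasBinaryBiproducts C] [HasZeroObject C]
theorem kz_swd (h : Swd σ fun _ => True) : KZ σ := tw_sw (h.comap (MonoidHom.fst Γ Zi))
theorem SwF.wf (h : SwF 𝓕 σ) : Wf 𝓕 σ :=
  fun H a => kz_swd (((h H a).comap H.subtype).mono fun g _ => g.2)
theorem Wf.comap (h : Wf 𝓕 σ) {H : Type w} [Group H] (j : H →* Γ) (hj : Function.Injective j) :
    Wf (𝓕.comap j) (σ.comap j) := fun K a =>
  (kz_iff (j := j.comp K.subtype) (hj.comp K.subtype_injective)).2 (by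
    rw [MonoidHom.range_comp, K.range_subtype]
    exact (kz_sub _).1 (h _ a))
theorem Wf.wk (h : Wf 𝓕 σ) (V : Subgroup Γ) (hV : 𝓕.m V) : (SZ σ).WK (V.comap (.fst Γ Zi)) :=
  (kz_sub V).1 (h V hV)
end
section
variable {Γ : Type w} [Group Γ] {C : Type (max u v w)} [Category.{v} C] [Preadditive C]
  [HasBinaryBiproducts C] [HasZeroObject C] {σ : Act Γ C} {𝓕 : Fam Γ}
theorem SwF.okf (h : SwF 𝓕 σ) : Okf.{w, v, u} 𝓕 σ :=
  ⟨{ k := fun 𝓕 σ => SwF 𝓕 σ
     sub := fun k _ _ j _ => k.comap j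
     fst := fun k => k.comap _
     act := fun k _ _ _ _ hm => k.act hm
     kz := fun k a => kz_swd ((k _ a).mono fun _ _ => trivial) }, h⟩
/-- A class of good groups. -/
theorem okf_of_class (𝒢 : ∀ (H : Type w) [Group H], Prop)
    (sub : ∀ (H H' : Type w) [Group H] [Group H'] (j : H' →* H), Function.Injective j → 𝒢 H → 𝒢 H')
    (prod : ∀ (H : Type w) [Group H], 𝒢 H → 𝒢 (H × Multiplicative ℤ))
    (good : ∀ (H : Type w) [Group H], 𝒢 H → ∀ (D : Type (max u v w)) [Category.{v} D]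
      [Preadditive D] [HasBinaryBiproducts D] [HasZeroObject D] (τ : Act H D), Sw τ → KZ τ)
    (hs : Sw σ) (h : ∀ H, 𝓕.m H → 𝒢 H) : Okf.{w, v, u} 𝓕 σ :=
  ⟨{ k := fun 𝓕 σ => Sw σ ∧ ∀ H, 𝓕.m H → 𝒢 H
     sub := fun k _ _ j hj => ⟨k.1.comap j, fun K a =>
       sub _ _ (K.equivMapOfInjective j hj).toMonoidHom (MulEquiv.injective _) (k.2 _ a)⟩
     fst := fun {Γ} _ _ _ _ _ _ _ _ k => ⟨k.1.comap _, fun K a => sub _ _
       (((MonoidHom.fst Γ (Multiplicative ℤ)).subgroupMap K).prod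
         ((MonoidHom.snd Γ (Multiplicative ℤ)).comp K.subtype))
       (fun _ _ e => Subtype.ext (Prod.ext (congrArg (·.1.1) e) (congrArg (·.2) e)))
       (prod _ (k.2 _ a))⟩
     act := fun k _ _ _ _ hm => ⟨k.1.act hm, k.2⟩
     kz := fun k a => good _ (sub _ _ Subgroup.topEquiv.symm.toMonoidHom (MulEquiv.injective _)
       (k.2 _ a)) _ _ k.1 }, hs, h⟩
end

end Pool.Agent.Lib.MP_5d3e93_al
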