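import Pool.Agent.Lib.MP_5d3e93_al.K.PDef
import Pool.Agent.Lib.MP_5d3e93_al.Gr.Of
import Pool.Agent.Lib.MP_5d3e93_al.Gr.ExaG

/-! Bounded complexes with the degreewise split exact structure: the additive level. -/

open CategoryTheory Limits Pretriangulated ZeroObject

namespace Pool.Agent.Lib.MP_5d3e93_al.K

open Gr

universe w v u v' u' v'' u''

section Aux
variable {C : Type u} [Category.{v} C] [Preadditive C]

theorem fc_comm {K L : CochainComplex C ℤ} {f g : K ⟶ L} (H : Homotopy f g) :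
    f.f 0 = K.d 0 1 ≫ H.hom 1 0 + H.hom 0 (-1) ≫ L.d (-1) 0 + g.f 0 := by
  have e := H.comm 0
  rwa [dNext_eq _ (show (ComplexShape.up ℤ).Rel 0 1 by simp),
    prevD_eq _ (show (ComplexShape.up ℤ).Rel (-1) 0 by simp)] at e

theorem fc_null_id {K : CochainComplex C ℤ} (H : Homotopy (𝟙 K) 0) :
    Homotopy.nullHomotopicMap H.hom = 𝟙 K :=
  HomologicalComplex.hom_ext _ _ fun n => ((H.comm n).trans (add_zero _)).symm

theorem fc_null_src {X K : CochainComplex C ℤ} (h : ∀ n, n ≠ 0 → IsZero (X.X n)) (χ : X ⟶ K)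
    (g : X.X 0 ⟶ K.X (-1)) (e : g ≫ K.d (-1) 0 = χ.f 0) : Nonempty (Homotopy χ 0) :=
  ⟨{ hom i j := if a : i = 0 then if b : -1 = j then
        (X.XIsoOfEq a).hom ≫ g ≫ (K.XIsoOfEq b).hom else 0 else 0
     zero i j k := by
        split_ifs with a b
        · subst a b; simp at k
        · rfl
        · rfl
     comm i := by
        by_cases a : i = 0
        · subst a
          rw [dNext_eq _ (show (ComplexShape.up ℤ).Rel 0 1 by simp),
            prevD_eq _ (show (ComplexShape.up ℤ).Rel (-1) 0 by simp)]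
          simp [e]
        · exact (h i a).eq_of_src _ _ }⟩

theorem fc_null_tgt {X K : CochainComplex C ℤ} (h : ∀ n, n ≠ 0 → IsZero (X.X n)) (χ : K ⟶ X)
    (g : K.X 1 ⟶ X.X 0) (e : K.d 0 1 ≫ g = χ.f 0) : Nonempty (Homotopy χ 0) :=
  ⟨{ hom i j := if a : i = 1 then if b : 0 = j then
        (K.XIsoOfEq a).hom ≫ g ≫ (X.XIsoOfEq b).hom else 0 else 0
     zero i j k := by
        split_ifs with a b
        · subst a b; simp at k
        · rfl
        · rfl
     comm i := by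
        by_cases a : i = 0
        · subst a
          rw [dNext_eq _ (show (ComplexShape.up ℤ).Rel 0 1 by simp),
            prevD_eq _ (show (ComplexShape.up ℤ).Rel (-1) 0 by simp)]
          simp [e]
        · exact (h i a).eq_of_tgt _ _ }⟩

/-- A graded retract of a complex onto which the differential descends. -/
def fcRet (K : CochainComplex C ℤ) (Z : ℤ → C) (s : ∀ n, Z n ⟶ K.X n) (p : ∀ n, K.X n ⟶ Z n)
    (h : ∀ i j, p i ≫ s i ≫ K.d i j ≫ p j = K.d i j ≫ p j) : CochainComplex C ℤ where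
  X := Z
  d i j := s i ≫ K.d i j ≫ p j
  shape i j k := by rw [K.shape i j k, zero_comp, comp_zero]
  d_comp_d' i j k _ _ := by
    rw [Category.assoc, Category.assoc, h, K.d_comp_d_assoc, zero_comp, comp_zero]

theorem Spl.fc_iso {X Y Z Z' : C} {i : X ⟶ Y} {p : Y ⟶ Z} (h : Spl i p) (e : Z ≅ Z') :
    Spl i (p ≫ e.hom) := by
  obtain ⟨r, s, a, b, c⟩ := h
  exact ⟨r, e.inv ≫ s, a, by rw [Category.assoc, reassoc_of% b, e.inv_hom_id],
    by rw [Category.assoc, e.hom_inv_id_assoc, c]⟩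

end Aux

section Fc
/-- Injective objects: no maps from trivial complexes. -/
def Ij (a : Am.{v, u}) (X : a.A) : Prop :=
  ∀ t, a.T t → ∀ φ : t ⟶ (HomotopyCategory.singleFunctor a.A 0).obj X, φ = 0

theorem Ij.Q_bij {a : Am.{v, u}} {Y : a.A} (h : Ij a Y) (X : Kh a.A) : Function.Bijective
    (a.Q.map : (X ⟶ (HomotopyCategory.singleFunctor a.A 0).obj Y) → _) :=
  ObjectProperty.rightOrthogonal.map_bijective_of_isTriangulated (P := a.T)
    (fun t φ k => h t k φ) a.Q X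

theorem Ij.sg_bij {a : Am.{v, u}} {Y : a.A} (h : Ij a Y) (X : a.A) :
    Function.Bijective (a.sg.map : (X ⟶ Y) → _) :=
  (h.Q_bij _).comp (of_single_bij X Y)

theorem Ij.cx_zero {a : Am.{v, u}} {Y : a.A} (h : Ij a Y) (K : CochainComplex a.A ℤ)
    (k : IsZero (K.X 0)) (φ : a.nq.obj K ⟶ a.sg.obj Y) : φ = 0 := by
  obtain ⟨ψ, rfl⟩ := (h.Q_bij ((HomotopyCategory.quotient _ _).obj K)).2 φ
  obtain ⟨χ, rfl⟩ := (HomotopyCategory.quotient a.A (ComplexShape.up ℤ)).map_surjective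
    (Y := (CochainComplex.singleFunctor a.A 0).obj Y) ψ
  obtain rfl : χ = 0 := HomologicalComplex.to_single_hom_ext (k.eq_of_src _ _)
  exact a.nq.map_zero _ _

theorem Ij.ext_zero {a : Am.{v, u}} {Y : a.A} (h : Ij a Y) (X : a.A) {n : ℤ} (hn : n ≠ 0)
    (φ : a.sg.obj X ⟶ (a.sg.obj Y)⟦n⟧) : φ = 0 := by
  have e : a.nq.obj (((CochainComplex.singleFunctor a.A 0).obj X)⟦-n⟧) ≅ (a.sg.obj X)⟦-n⟧ :=
    (a.nq.commShiftIso (-n)).app _
  refine (shiftFunctor a.D (-n)).map_injective ?_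
  rw [Functor.map_zero, ← cancel_epi e.hom, comp_zero,
    ← cancel_mono (shiftShiftNeg (a.sg.obj Y) n).hom, zero_comp]
  exact h.cx_zero _ (HomologicalComplex.isZero_single_obj_X (ComplexShape.up ℤ) 0 X (0 + -n)
    (by simpa using hn)) _

variable {A : Type (max u v)} [Category.{v} A] [Preadditive A] [HasZeroObject A]
  [HasBinaryBiproducts A]

theorem fa_refl (X : Kh (fa.{v, u} A).A)
    (h : ∀ k, (Am.of.{v, u} A).Tb ((fev.{v, u} A k).K.obj X)) : (fa.{v, u} A).Tb X :=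
  (fa.{v, u} A).le_Tb X fun k => (Am.of_Tb _).1 (h k)

theorem fa_tri {X Y Z : Fc A} {i : X ⟶ Y} {p : Y ⟶ Z} (h : i ≫ p = 0)
    (k : ∀ n, Spl (i.hom.f n) (p.hom.f n)) : ∃ δ, Triangle.mk ((fa.{v, u} A).sg.map i)
      ((fa.{v, u} A).sg.map p) δ ∈ distTriang (fa.{v, u} A).D :=
  (Am.exaS_of_reflect (fev.{v, u} A) fa_refl h k).tri

omit [HasZeroObject A] [HasBinaryBiproducts A] in
theorem fc_col (K : CochainComplex (Fc A) ℤ) (n : ℤ)
    (k : IsZero (((Fc.ev A n).mapHomotopyCategory _).obj ((HomotopyCategory.quotient _ _).obj K))) :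
    ∃ (h : (K.X 1).obj.X n ⟶ (K.X 0).obj.X n) (h' : (K.X 0).obj.X n ⟶ (K.X (-1)).obj.X n),
      (K.d 0 1).hom.f n ≫ h + h' ≫ (K.d (-1) 0).hom.f n = 𝟙 _ := by
  obtain ⟨H⟩ := (HomotopyCategory.isZero_quotient_obj_iff
    (((Fc.ev A n).mapHomologicalComplex _).obj K)).1 k
  exact ⟨H.hom 1 0, H.hom 0 (-1), ((fc_comm H).trans (add_zero _)).symm⟩

omit [HasZeroObject A] [HasBinaryBiproducts A] in
theorem fc_lift {I : Fc A} (h : Jc A I) (K : CochainComplex (Fc A) ℤ) (k : ∀ n,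
    IsZero (((Fc.ev A n).mapHomotopyCategory _).obj ((HomotopyCategory.quotient _ _).obj K)))
    (f : I ⟶ K.X 0) (e : f ≫ K.d 0 1 = 0) : ∃ g : I ⟶ K.X (-1), g ≫ K.d (-1) 0 = f := by
  obtain ⟨σ⟩ := h
  choose H H' a using fun n => fc_col K n (k n)
  have e1 : ∀ n, f.hom.f n ≫ H' n ≫ (K.d (-1) 0).hom.f n = f.hom.f n := fun n => by
    have b : f.hom.f n ≫ (K.d 0 1).hom.f n = 0 := congrArg (·.hom.f n) e
    conv_rhs => rw [← Category.comp_id (f.hom.f n), ← a n]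
    rw [Preadditive.comp_add, reassoc_of% b, zero_comp, zero_add]
  refine ⟨(Fs A).homMk (Homotopy.nullHomotopicMap fun i j => σ.hom i j ≫ f.hom.f j ≫ H' j),
    ObjectProperty.hom_ext _ ?_⟩
  have e2 := Homotopy.nullHomotopicMap_comp σ.hom f.hom
  rw [fc_null_id σ, Category.id_comp] at e2
  refine (Homotopy.nullHomotopicMap_comp _ (K.d (-1) 0).hom).trans (Eq.trans ?_ e2.symm)
  congr 1
  funext i j
  rw [Category.assoc, Category.assoc, e1]

omit [HasZeroObject A] [HasBinaryBiproducts A] in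
theorem fc_ext {I : Fc A} (h : Jc A I) (K : CochainComplex (Fc A) ℤ) (k : ∀ n,
    IsZero (((Fc.ev A n).mapHomotopyCategory _).obj ((HomotopyCategory.quotient _ _).obj K)))
    (f : K.X 0 ⟶ I) (e : K.d (-1) 0 ≫ f = 0) : ∃ g : K.X 1 ⟶ I, K.d 0 1 ≫ g = f := by
  obtain ⟨σ⟩ := h
  choose H H' a using fun n => fc_col K n (k n)
  have e1 : ∀ n, (K.d 0 1).hom.f n ≫ H n ≫ f.hom.f n = f.hom.f n := fun n => by
    have b : (K.d (-1) 0).hom.f n ≫ f.hom.f n = 0 := congrArg (·.hom.f n) e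
    conv_rhs => rw [← Category.id_comp (f.hom.f n), ← a n]
    rw [Preadditive.add_comp, Category.assoc, Category.assoc, b, comp_zero, add_zero]
  refine ⟨(Fs A).homMk (Homotopy.nullHomotopicMap fun i j => H i ≫ f.hom.f i ≫ σ.hom i j),
    ObjectProperty.hom_ext _ ?_⟩
  have e2 := Homotopy.comp_nullHomotopicMap f.hom σ.hom
  rw [fc_null_id σ, Category.comp_id] at e2
  refine (Homotopy.comp_nullHomotopicMap (K.d 0 1).hom _).trans (Eq.trans ?_ e2.symm)
  congr 1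
  funext i j
  rw [reassoc_of% e1]

omit [HasBinaryBiproducts A] in
theorem fc_pj {I : Fc A} (h : Jc A I) (K : CochainComplex (Fc A) ℤ) (k : ∀ n,
    IsZero (((Fc.ev A n).mapHomotopyCategory _).obj ((HomotopyCategory.quotient _ _).obj K)))
    (χ : (HomologicalComplex.single (Fc A) (ComplexShape.up ℤ) 0).obj I ⟶ K) :
    Nonempty (Homotopy χ 0) := by
  let e := HomologicalComplex.singleObjXSelf (ComplexShape.up ℤ) 0 I
  obtain ⟨g, b⟩ := fc_lift h K k (e.inv ≫ χ.f 0) (by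
    rw [Category.assoc, χ.comm,
      (HomologicalComplex.isZero_single_obj_X (ComplexShape.up ℤ) 0 I 1 one_ne_zero).eq_of_src
        (χ.f 1) 0, comp_zero, comp_zero])
  exact fc_null_src (HomologicalComplex.isZero_single_obj_X (ComplexShape.up ℤ) 0 I) χ
    (e.hom ≫ g) (by rw [Category.assoc, b, e.hom_inv_id_assoc])

omit [HasBinaryBiproducts A] in
theorem fc_ij {I : Fc A} (h : Jc A I) (K : CochainComplex (Fc A) ℤ) (k : ∀ n,
    IsZero (((Fc.ev A n).mapHomotopyCategory _).obj ((HomotopyCategory.quotient _ _).obj K)))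
    (χ : K ⟶ (HomologicalComplex.single (Fc A) (ComplexShape.up ℤ) 0).obj I) :
    Nonempty (Homotopy χ 0) := by
  let e := HomologicalComplex.singleObjXSelf (ComplexShape.up ℤ) 0 I
  obtain ⟨g, b⟩ := fc_ext h K k (χ.f 0 ≫ e.hom) (by
    rw [← χ.comm_assoc,
      (HomologicalComplex.isZero_single_obj_X (ComplexShape.up ℤ) 0 I (-1) (by simp)).eq_of_tgt
        (χ.f (-1)) 0, zero_comp])
  exact fc_null_tgt (HomologicalComplex.isZero_single_obj_X (ComplexShape.up ℤ) 0 I) χ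
    (g ≫ e.inv) (by rw [reassoc_of% b, e.hom_inv_id, Category.comp_id])

/-- A cycle `f : I ⟶ t 0` is `d g` for the graded map `g = h f`; with `δ σ + σ δ = 1` on `I` the
chain map `δ g σ + g σ δ` is mapped to `f`. -/
theorem Jc.pj {I : Fc A} (h : Jc A I) : (fa.{v, u} A).Pj I := by
  intro t k φ
  obtain ⟨χ, rfl⟩ := (HomotopyCategory.quotient (fa.{v, u} A).A (ComplexShape.up ℤ)).map_surjective
    (X := (CochainComplex.singleFunctor (fa.{v, u} A).A 0).obj I) (Y := t.as) φ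
  obtain ⟨H⟩ := fc_pj h t.as k χ
  exact (HomotopyCategory.eq_of_homotopy _ _ H).trans (Functor.map_zero _ _ _)

theorem Jc.ij {I : Fc A} (h : Jc A I) : Ij (fa.{v, u} A) I := by
  intro t k φ
  obtain ⟨χ, rfl⟩ := (HomotopyCategory.quotient (fa.{v, u} A).A (ComplexShape.up ℤ)).map_surjective
    (Y := (CochainComplex.singleFunctor (fa.{v, u} A).A 0).obj I) (X := t.as) φ
  obtain ⟨H⟩ := fc_ij h t.as k χ
  exact (HomotopyCategory.eq_of_homotopy _ _ H).trans (Functor.map_zero _ _ _)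

omit [HasZeroObject A] [HasBinaryBiproducts A] in
theorem Fs.shift {K : CochainComplex A ℤ} (h : Fs A K) (n : ℤ) : Fs A (K⟦n⟧) := by
  obtain ⟨p, q, h⟩ := h
  exact ⟨p - n, q - n, fun m k => h (m + n) (by omega)⟩

/-- `I = mappingCone (𝟙 P)`, `triangleRotateShortComplexSplitting`. -/
theorem fc_up (P : Fc A) : ∃ (I Q : Fc A) (i : P ⟶ I) (p : I ⟶ Q), Jc A I ∧ i ≫ p = 0 ∧
    (∀ n, Spl (i.hom.f n) (p.hom.f n)) ∧ Nonempty (Q.obj ≅ P.obj⟦(1 : ℤ)⟧) := by
  have s : Gr.Sb ⊤ P.obj := ⟨fun _ => trivial, P.property⟩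
  let S := CochainComplex.mappingCone.triangleRotateShortComplex (𝟙 P.obj)
  refine ⟨⟨_, (s.cone s (𝟙 _)).2⟩, ⟨_, Fs.shift P.property 1⟩, (Fs A).homMk S.f, (Fs A).homMk S.g,
    ⟨CochainComplex.mappingCone.homotopyToZeroOfId _⟩, ObjectProperty.hom_ext _ S.zero,
    fun n => ?_, ⟨Iso.refl _⟩⟩
  have σ := CochainComplex.mappingCone.triangleRotateShortComplexSplitting (𝟙 P.obj) n
  exact ⟨σ.r, σ.s, σ.f_r, σ.s_g, σ.id⟩

theorem fc_down (P : Fc A) : ∃ (K I : Fc A) (i : K ⟶ I) (p : I ⟶ P), Jc A I ∧ i ≫ p = 0 ∧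
    (∀ n, Spl (i.hom.f n) (p.hom.f n)) ∧ Nonempty (K.obj ≅ P.obj⟦(-1 : ℤ)⟧) := by
  obtain ⟨I, Q, i, p, a, b, c, ⟨e⟩⟩ := fc_up (⟨_, Fs.shift P.property (-1)⟩ : Fc A)
  let e' : Q.obj ≅ P.obj := e ≪≫ shiftNegShift P.obj (1 : ℤ)
  exact ⟨_, I, i, p ≫ (Fs A).homMk e'.hom, a, by rw [reassoc_of% b, zero_comp],
    fun n => Spl.fc_iso (c n) ((HomologicalComplex.eval _ _ n).mapIso e'), ⟨Iso.refl _⟩⟩

omit [HasZeroObject A] [HasBinaryBiproducts A] in
theorem fc_desc {X Y Z W : Fc A} {i : X ⟶ Y} {p : Y ⟶ Z} (k : ∀ n, Spl (i.hom.f n) (p.hom.f n))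
    (g : Y ⟶ W) (h : i ≫ g = 0) : ∃ g', p ≫ g' = g := by
  choose r s _ b c using k
  have e : ∀ n, p.hom.f n ≫ s n ≫ g.hom.f n = g.hom.f n := fun n => by
    have z : i.hom.f n ≫ g.hom.f n = 0 := congrArg (·.hom.f n) h
    conv_rhs => rw [← Category.id_comp (g.hom.f n), ← c n]
    rw [Preadditive.add_comp, Category.assoc, Category.assoc, z, comp_zero, zero_add]
  refine ⟨(Fs A).homMk { f n := s n ≫ g.hom.f n, comm' := fun m n _ => ?_ },
    ObjectProperty.hom_ext _ (HomologicalComplex.hom_ext _ _ e)⟩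
  rw [← Category.id_comp (Z.obj.d m n ≫ _), ← b m, Category.assoc, Category.assoc,
    p.hom.comm_assoc, e, g.hom.comm]

omit [HasZeroObject A] [HasBinaryBiproducts A] in
theorem fc_ret (Y : Fc A) {Z : ℤ → A} {s : ∀ n, Z n ⟶ Y.obj.X n} {p : ∀ n, Y.obj.X n ⟶ Z n}
    (a : ∀ n, s n ≫ p n = 𝟙 _) (h) : Fs A (fcRet Y.obj Z s p h) := by
  obtain ⟨l, m, k⟩ := Y.property
  refine ⟨l, m, fun n b => (IsZero.iff_id_eq_zero (Z n)).2 ?_⟩
  rw [← a n, (k n b).eq_of_src (p n) 0, comp_zero]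

omit [HasZeroObject A] [HasBinaryBiproducts A] in
theorem fc_coker [IsIdempotentComplete A] {X Y : Fc A} (i : X ⟶ Y)
    (h : ∀ n, ∃ r, i.hom.f n ≫ r = 𝟙 _) :
    ∃ (Z : Fc A) (p : Y ⟶ Z), i ≫ p = 0 ∧ ∀ n, Spl (i.hom.f n) (p.hom.f n) := by
  choose r h using h
  choose Z s p a b using fun n => IsIdempotentComplete.idempotents_split (Y.obj.X n)
    (𝟙 _ - r n ≫ i.hom.f n) (by simp [reassoc_of% h n])
  have z : ∀ n, i.hom.f n ≫ p n = 0 := fun n => by
    rw [← Category.comp_id (p n), ← a n, reassoc_of% b n]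
    simp [reassoc_of% h n]
  have k : ∀ m n, p m ≫ s m ≫ Y.obj.d m n ≫ p n = Y.obj.d m n ≫ p n := fun m n => by
    rw [reassoc_of% b m]
    simp [z n]
  exact ⟨⟨_, fc_ret Y a k⟩, (Fs A).homMk { f := p, comm' := fun m n _ => k m n },
    ObjectProperty.hom_ext _ (HomologicalComplex.hom_ext _ _ z),
    fun n => ⟨r n, s n, h n, a n, by
      change r n ≫ i.hom.f n + p n ≫ s n = _
      rw [b n, add_sub_cancel]⟩⟩

instance [IsIdempotentComplete A] : IsIdempotentComplete (Fc A) := ⟨fun Y e h => by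
  have h' : ∀ n, e.hom.f n ≫ e.hom.f n = e.hom.f n := fun n => congrArg (·.hom.f n) h
  choose Z s p a b using fun n => IsIdempotentComplete.idempotents_split (Y.obj.X n) _ (h' n)
  have k : ∀ m n, p m ≫ s m ≫ Y.obj.d m n ≫ p n = Y.obj.d m n ≫ p n := fun m n => by
    rw [reassoc_of% b m, e.hom.comm_assoc, ← b n, Category.assoc, a n, Category.comp_id]
  have k' : ∀ m n, s m ≫ Y.obj.d m n = (s m ≫ Y.obj.d m n ≫ p n) ≫ s n := fun m n => by
    rw [Category.assoc, Category.assoc, b n, ← e.hom.comm, ← b m, Category.assoc,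
      reassoc_of% a m]
  exact ⟨⟨_, fc_ret Y a k⟩, (Fs A).homMk { f := s, comm' := fun m n _ => k' m n },
    (Fs A).homMk { f := p, comm' := fun m n _ => k m n },
    ObjectProperty.hom_ext _ (HomologicalComplex.hom_ext _ _ a),
    ObjectProperty.hom_ext _ (HomologicalComplex.hom_ext _ _ b)⟩⟩

end Fc

end Pool.Agent.Lib.MP_5d3e93_al.K
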