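import Pool.Agent.Lib.MP_5d3e93_al.Gr.LocB

/-! The stable category of a Frobenius category inside a Verdier quotient. -/

open CategoryTheory Limits Pretriangulated ZeroObject

namespace Pool.Agent.Lib.MP_5d3e93_al.K

open Gr

variable {D : Type*} [Category* D] [HasZeroObject D] [HasShift D ℤ] [Preadditive D]
  [∀ n : ℤ, (shiftFunctor D n).Additive] [Pretriangulated D]
variable {D' : Type*} [Category* D'] [HasZeroObject D'] [HasShift D' ℤ] [Preadditive D']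
  [∀ n : ℤ, (shiftFunctor D' n).Additive] [Pretriangulated D']

/-- `G` = objects, `J` = projective-injective objects. -/
structure Frob (J G : ObjectProperty D) : Prop where
  le : J ≤ G
  proj : ∀ (n : ℤ), 0 < n → ∀ X Y (f : X ⟶ Y⟦n⟧), J X → G Y → f = 0
  inj : ∀ (n : ℤ), 0 < n → ∀ X Y (f : X ⟶ Y⟦n⟧), G X → J Y → f = 0
  up : ∀ X, G X → ∃ T ∈ distTriang D, T.obj₁ = X ∧ J T.obj₂ ∧ G T.obj₃
  down : ∀ X, G X → ∃ T ∈ distTriang D, G T.obj₁ ∧ J T.obj₂ ∧ T.obj₃ = X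
  cone : ∀ X Y (φ : X ⟶ Y), G X → G Y → ∃ (I Z : D) (i : X ⟶ I) (g : Y ⊞ I ⟶ Z) (h : Z ⟶ _),
    J I ∧ G Z ∧ Triangle.mk (biprod.lift φ i) g h ∈ distTriang D

omit [HasZeroObject D] [Pretriangulated D] in
theorem fr_van {A B W C : D} (a : ℤ) (d : W ≅ A⟦a⟧) (e : C ≅ B⟦a⟧) (h : ∀ f : A ⟶ B, f = 0)
    (f : W ⟶ C) : f = 0 := by
  obtain ⟨g, hg⟩ := (shiftFunctor D a).map_surjective (d.inv ≫ f ≫ e.hom)
  rw [h g, Functor.map_zero] at hg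
  rw [← cancel_mono e.hom, ← cancel_epi d.inv, ← hg, zero_comp, comp_zero]

variable {J G : ObjectProperty D}

theorem Frob.projV (φ : Frob J G) {I Y W : D} (hI : J I) (hY : G Y) {a n : ℤ} (h : a < n)
    (d : W ≅ I⟦a⟧) (f : W ⟶ Y⟦n⟧) : f = 0 :=
  fr_van a d ((shiftFunctorAdd' D (n - a) a n (by omega)).app Y)
    (fun g => φ.proj _ (by omega) _ _ g hI hY) f

theorem Frob.far (φ : Frob J G) {N : D} (h : Cl J N) :
    ∃ k : ℤ, ∀ m, k ≤ m → ∀ g, G g → ∀ f : g ⟶ N⟦m⟧, f = 0 := by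
  induction h with
  | of a => exact ⟨1, fun m hm g hg f => φ.inj m (by omega) _ _ f hg a⟩
  | zero a => exact ⟨0, fun m _ g _ f => ((shiftFunctor D m).map_isZero a).eq_of_tgt _ _⟩
  | @shift X n _ ih =>
    obtain ⟨k, hk⟩ := ih
    refine ⟨k - n, fun m hm g hg f => ?_⟩
    have e := (shiftFunctorAdd' D n m (n + m) rfl).app X
    rw [← cancel_mono e.inv, zero_comp]
    exact hk _ (by omega) g hg _
  | ext T hT _ _ i₁ i₃ =>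
    obtain ⟨k₁, h₁⟩ := i₁
    obtain ⟨k₃, h₃⟩ := i₃
    refine ⟨max k₁ k₃, fun m hm g hg f => ?_⟩
    obtain ⟨u, hu⟩ := Triangle.coyoneda_exact₂ _ (Triangle.shift_distinguished T hT m) f
      (h₃ m (le_of_max_le_right hm) g hg _)
    rw [hu, h₁ m (le_of_max_le_left hm) g hg u]
    exact zero_comp

variable {π : D ⥤ D'} [π.CommShift ℤ] [π.IsTriangulated]

theorem Frob.tower (φ : Frob J G) (kill : ∀ X, Cl J X → IsZero (π.obj X)) {X : D} (a : G X)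
    (k : ℕ) : ∃ g, G g ∧ ∃ t : g⟦-(k : ℤ)⟧ ⟶ X, IsIso (π.map t) ∧
      (∀ n : ℤ, 0 ≤ n → ∀ Y, G Y → ∀ v : g⟦-(k : ℤ)⟧ ⟶ Y⟦n⟧, ∃ u, t ≫ u = v) ∧
      ∀ n : ℤ, 0 < n → ∀ Y, G Y → ∀ u : X ⟶ Y⟦n⟧, t ≫ u = 0 → u = 0 := by
  induction k with
  | zero =>
    have e : X⟦-((0 : ℕ) : ℤ)⟧ ≅ X := (shiftFunctorZero' D _ (by simp)).app X
    exact ⟨X, a, e.hom, inferInstance, fun n _ Y _ v => ⟨e.inv ≫ v, by simp⟩,
      fun n _ Y _ u hu => by rwa [← cancel_epi e.hom, comp_zero]⟩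
  | succ k ih =>
    obtain ⟨g, hg, t, i, s, j⟩ := ih
    obtain ⟨T, hT, rfl, hI, hg'⟩ := φ.up g hg
    have hU := inv_rot_of_distTriang _ (Triangle.shift_distinguished T hT (-(k : ℤ)))
    set U := ((Triangle.shiftFunctor D (-(k : ℤ))).obj T).invRotate
    have e : T.obj₃⟦-((k + 1 : ℕ) : ℤ)⟧ ≅ U.obj₁ :=
      (shiftFunctorAdd' D (-(k : ℤ)) (-1) _ (by push_cast; ring)).app T.obj₃
    have d : U.obj₃⟦(-1 : ℤ)⟧ ≅ T.obj₂⟦-(k : ℤ) - 1⟧ :=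
      ((shiftFunctorAdd' D (-(k : ℤ)) (-1) _ (by ring)).app T.obj₂).symm
    have i' : IsIso (π.map U.mor₁) := (Triangle.isZero₃_iff_isIso₁ _ (π.map_distinguished _ hU)).1
      (kill _ (.shift _ (.of hI)))
    let t' : U.obj₂ ⟶ X := t
    have i'' : IsIso (π.map t') := i
    refine ⟨T.obj₃, hg', e.hom ≫ U.mor₁ ≫ t', by
      rw [π.map_comp, π.map_comp]; infer_instance, fun n hn Y hY v => ?_, fun n hn Y hY u hu => ?_⟩
    · obtain ⟨w, hw⟩ := Triangle.yoneda_exact₂ _ (inv_rot_of_distTriang _ hU) (e.inv ≫ v)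
        (φ.projV hI hY (by omega) d _)
      obtain ⟨u, hu⟩ := s n hn Y hY w
      refine ⟨u, ?_⟩
      have hu' : t' ≫ u = w := hu
      have hw' : e.inv ≫ v = U.mor₁ ≫ w := hw
      rw [Category.assoc, Category.assoc, hu', ← hw', e.hom_inv_id_assoc]
    · rw [Category.assoc, Category.assoc, ← comp_zero (f := e.hom), cancel_epi] at hu
      obtain ⟨w, hw⟩ := Triangle.yoneda_exact₂ _ hU (t' ≫ u) hu
      refine j n hn Y hY u (hw.trans ?_)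
      rw [φ.projV hI hY (a := -(k : ℤ)) (by omega) (Iso.refl _) w]
      exact comp_zero

theorem Frob.refine (φ : Frob J G) (kill : ∀ X, Cl J X → IsZero (π.obj X)) {X X' : D} (a : G X)
    {s : X' ⟶ X} (hs : (Cl J).trW s) : ∃ (W : D) (u : W ⟶ X'), IsIso (π.map (u ≫ s)) ∧
      (∀ n : ℤ, 0 ≤ n → ∀ Y, G Y → ∀ v : W ⟶ Y⟦n⟧, ∃ w, (u ≫ s) ≫ w = v) ∧
      ∀ n : ℤ, 0 < n → ∀ Y, G Y → ∀ w : X ⟶ Y⟦n⟧, (u ≫ s) ≫ w = 0 → w = 0 := by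
  obtain ⟨N, p, q, hT, hN⟩ := hs
  obtain ⟨k, hk⟩ := φ.far hN
  obtain ⟨g, hg, t, ht⟩ := φ.tower kill a k.toNat
  obtain ⟨u, hu⟩ := Triangle.coyoneda_exact₂ _ hT t (fr_van (-(k.toNat : ℤ)) (Iso.refl _)
    ((shiftFunctorCompIsoId D (k.toNat : ℤ) (-(k.toNat : ℤ)) (by simp)).app N).symm
    (hk _ (Int.self_le_toNat k) g hg) _)
  have hu' : t = u ≫ s := hu
  exact ⟨_, u, hu' ▸ ht⟩

variable [IsTriangulated D] (φ : Frob J G) (h : LocOn π (Cl J) (Cl G))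
include φ h

theorem Frob.surj (n : ℤ) (hn : 0 ≤ n) {X Y : D} (a : G X) (b : G Y) :
    Function.Surjective (π.map : (X ⟶ Y⟦n⟧) → _) := fun ψ => by
  obtain ⟨X', s, f, hs, e⟩ := h.full' (.of a) (.shift n (.of b)) ψ
  obtain ⟨W, u, i, k, -⟩ := φ.refine h.kill a hs
  obtain ⟨w, hw⟩ := k n hn Y b (u ≫ f)
  refine ⟨w, ?_⟩
  rw [← cancel_epi (π.map (u ≫ s)), ← π.map_comp, hw, π.map_comp, π.map_comp, ← e, Category.assoc]

theorem Frob.injective (n : ℤ) (hn : 0 < n) {X Y : D} (a : G X) (b : G Y) :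
    Function.Injective (π.map : (X ⟶ Y⟦n⟧) → _) := fun f g e => by
  obtain ⟨X', s, hs, e'⟩ := h.faith' (.of a) (.shift n (.of b)) (f - g)
    (by rw [π.map_sub, e, sub_self])
  obtain ⟨W, u, -, -, k⟩ := φ.refine h.kill a hs
  exact sub_eq_zero.1 (k n hn Y b _ (by rw [Category.assoc, e', comp_zero]))

theorem Frob.surj₀ {X Y : D} (a : G X) (b : G Y) :
    Function.Surjective (π.map : (X ⟶ Y) → _) := fun ψ => by
  have e : Y⟦(0 : ℤ)⟧ ≅ Y := (shiftFunctorZero D ℤ).app Y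
  obtain ⟨f, hf⟩ := φ.surj h 0 le_rfl a b (ψ ≫ π.map e.inv)
  exact ⟨f ≫ e.hom, by rw [π.map_comp, hf, Category.assoc, ← π.map_comp, e.inv_hom_id, π.map_id,
    Category.comp_id]⟩

theorem Frob.tg (ne : ∃ Y, G Y) :
    Tg (fun Z => ∃ Y, G Y ∧ Nonempty (Z ≅ π.obj Y) : ObjectProperty D') := by
  set Q : ObjectProperty D' := fun Z => ∃ Y, G Y ∧ Nonempty (Z ≅ π.obj Y)
  have iso : ∀ {Z Z'}, (Z ≅ Z') → Q Z' → Q Z := fun e ⟨Y, a, ⟨d⟩⟩ => ⟨Y, a, ⟨e ≪≫ d⟩⟩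
  have m₃ : ∀ T ∈ distTriang D, J T.obj₂ → Nonempty (π.obj T.obj₃ ≅ (π.obj T.obj₁)⟦(1 : ℤ)⟧) :=
    fun T hT hI => ⟨@asIso _ _ _ _ _
      ((Triangle.isZero₂_iff_isIso₃ _ (π.map_distinguished _ hT)).1 (h.kill _ (.of hI)))⟩
  have up : ∀ Z, Q Z → Q (Z⟦(1 : ℤ)⟧) := fun Z ⟨Y, a, ⟨d⟩⟩ => by
    obtain ⟨T, hT, rfl, hI, b⟩ := φ.up Y a
    obtain ⟨e⟩ := m₃ T hT hI
    exact ⟨_, b, ⟨(shiftFunctor D' (1 : ℤ)).mapIso d ≪≫ e.symm⟩⟩
  have down : ∀ Z, Q Z → Q (Z⟦(-1 : ℤ)⟧) := fun Z ⟨Y, a, ⟨d⟩⟩ => by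
    obtain ⟨T, hT, b, hI, rfl⟩ := φ.down Y a
    obtain ⟨e⟩ := m₃ T hT hI
    exact ⟨_, b, ⟨(shiftFunctor D' (-1 : ℤ)).mapIso (d ≪≫ e) ≪≫
      (shiftFunctorCompIsoId D' (1 : ℤ) (-1) (by simp)).app _⟩⟩
  have cone : ∀ T ∈ distTriang D', Q T.obj₁ → Q T.obj₂ → Q T.obj₃ := by
    rintro T hT ⟨A, hA, ⟨e₁⟩⟩ ⟨B, hB, ⟨e₂⟩⟩
    obtain ⟨f, hf⟩ := φ.surj₀ h hA hB (e₁.inv ≫ T.mor₁ ≫ e₂.hom)
    obtain ⟨I, Z, i, g, k, hI, hZ, hU⟩ := φ.cone A B f hA hB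
    let e₃ : π.obj B ≅ π.obj (B ⊞ I) := ⟨π.map biprod.inl, π.map biprod.fst,
      by rw [← π.map_comp, biprod.inl_fst, π.map_id], by
        rw [← π.map_id, ← biprod.total, π.map_add, π.map_comp, π.map_comp,
          (h.kill _ (.of hI)).eq_of_src (π.map biprod.inr) 0, comp_zero, add_zero]⟩
    have e₄ : π.map (biprod.lift f i) = π.map f ≫ e₃.hom := by
      rw [← Iso.comp_inv_eq]
      exact (π.map_comp _ _).symm.trans (congrArg π.map (biprod.lift_fst f i))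
    have e₅ : T.mor₁ ≫ (e₂ ≪≫ e₃).hom = e₁.hom ≫ π.map (biprod.lift f i) := by
      rw [e₄, hf, Iso.trans_hom, Category.assoc, Category.assoc, e₁.hom_inv_id_assoc]
    exact ⟨Z, hZ, ⟨Triangle.π₃.mapIso (isoTriangleOfIso₁₂ _ _ hT
      (π.map_distinguished _ hU) e₁ (e₂ ≪≫ e₃) e₅)⟩⟩
  refine Tg.mk' (fun Z hZ => ?_) (fun n Z hZ => ?_) fun T hT a c => ?_
  · obtain ⟨Y, a⟩ := ne
    obtain ⟨T, -, -, hI, -⟩ := φ.up Y a
    exact ⟨_, φ.le _ hI, ⟨hZ.iso (h.kill _ (.of hI))⟩⟩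
  · induction n using Int.induction_on with
    | zero => exact iso ((shiftFunctorZero D' ℤ).app Z) hZ
    | succ n ih => exact iso ((shiftFunctorAdd' D' (n : ℤ) 1 _ rfl).app Z) (up _ ih)
    | pred n ih => exact iso ((shiftFunctorAdd' D' (-n : ℤ) (-1) _ (by ring)).app Z) (down _ ih)
  · exact cone _ (inv_rot_of_distTriang _ hT) (down _ c) a

/-- Shifts by `up`, `down`; extensions by `surj 0` and `cone`. -/
theorem Frob.ess (ne : ∃ Y, G Y) {X : D} (a : Cl G X) :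
    ∃ Y, G Y ∧ Nonempty (π.obj X ≅ π.obj Y) :=
  have := φ.tg h ne
  Cl.le (S := ObjectProperty.inverseImage (fun Z => ∃ Y, G Y ∧ Nonempty (Z ≅ π.obj Y)) π)
    (fun Y b => ⟨Y, b, ⟨Iso.refl _⟩⟩) X a

end Pool.Agent.Lib.MP_5d3e93_al.K
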