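import Pool.Agent.Lib.MP_5d3e93_al.Gr.Sod

/-! Bounded weight structures are idempotent complete. -/

open CategoryTheory Limits Pretriangulated ZeroObject

namespace Pool.Agent.Lib.MP_5d3e93_al.K

open Gr ObjectProperty

variable {D : Type*} [Category* D] [HasZeroObject D] [HasShift D ℤ] [Preadditive D]
  [∀ n : ℤ, (shiftFunctor D n).Additive] [Pretriangulated D]

/-- the objects of weight `a` -/
def icH (G : ObjectProperty D) (a : ℤ) : ObjectProperty D := fun X => G (X⟦a⟧)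

/-- the objects with weights from `a` down to `a - n` -/
def icA (G : ObjectProperty D) : ℕ → ℤ → ObjectProperty D
  | 0, a => icH G a
  | n + 1, a => (icH G a).extensionProduct (icA G n (a - 1))

/-- the hypotheses -/
structure IcG (G : ObjectProperty D) : Prop where
  h0 : ∀ X, IsZero X → G X
  neg : ∀ (n : ℤ), 0 < n → ∀ X Y (f : X ⟶ Y⟦n⟧), G X → G Y → f = 0
  sum : ∀ X Y, G X → G Y → G (X ⊞ Y)
  ret : ∀ X Y (i : X ⟶ Y) (r : Y ⟶ X), i ≫ r = 𝟙 X → G Y → G X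

namespace IcG

variable {G : ObjectProperty D} (γ : IcG G) {a b : ℤ} {X Y : D}
include γ

theorem iso (e : X ≅ Y) (h : G Y) : G X := γ.ret _ _ e.hom e.inv e.hom_inv_id h

theorem retH (i : X ⟶ Y) (r : Y ⟶ X) (e : i ≫ r = 𝟙 X) (h : icH G a Y) : icH G a X :=
  γ.ret _ _ (i⟦a⟧') (r⟦a⟧') (by rw [← Functor.map_comp, e, CategoryTheory.Functor.map_id]) h

theorem zeroH (h : IsZero X) : icH G a X := γ.h0 _ ((shiftFunctor D a).map_isZero h)

theorem shiftH (k : ℤ) (e : k + b = a) (h : icH G a X) : icH G b (X⟦k⟧) :=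
  γ.iso ((shiftFunctorAdd' D k b a e).app X).symm h

theorem orthH (e : b < a) (h : icH G a X) (k : icH G b Y) (f : X ⟶ Y) : f = 0 := by
  have := γ.neg (a - b) (by omega) _ _
    (f⟦a⟧' ≫ (shiftFunctorAdd' D b (a - b) a (by omega)).hom.app Y) h k
  rw [Preadditive.IsIso.comp_right_eq_zero] at this
  exact (shiftFunctor D a).map_injective (this.trans (Functor.map_zero _ _ _).symm)

theorem extH : (icH G a).extensionProduct (icH G a) ≤ icH G a := by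
  rintro X ⟨Y, Z, f, g, h, hT, u, v⟩
  obtain ⟨e, -⟩ := exists_iso_binaryBiproduct_of_distTriang _ hT
    (γ.orthH (by omega) v (γ.shiftH (b := a - 1) 1 (by omega) u) h)
  have := preservesBinaryBiproducts_of_preservesBiproducts (shiftFunctor D a)
  exact γ.iso ((shiftFunctor D a).mapIso e ≪≫ (shiftFunctor D a).mapBiprod Y Z) (γ.sum _ _ u v)

theorem zeroA : ∀ (n : ℕ) (a : ℤ), icA G n a 0
  | 0, _ => γ.zeroH (isZero_zero D)
  | n + 1, _ => ⟨_, _, _, _, _, contractible_distinguished 0, γ.zeroH (isZero_zero D), zeroA n _⟩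

theorem HA : ∀ (n : ℕ) (a : ℤ), icH G a ≤ icA G n a
  | 0, _ => le_rfl
  | n + 1, _ => fun X h => ⟨_, _, _, _, _, contractible_distinguished X, h, γ.zeroA n _⟩

theorem shiftA (k : ℤ) : ∀ (n : ℕ) {a b : ℤ} {X : D}, k + b = a → icA G n a X → icA G n b (X⟦k⟧)
  | 0, _, _, _, e, h => γ.shiftH k e h
  | n + 1, _, _, _, e, ⟨_, _, _, _, _, hT, u, v⟩ =>
    ⟨_, _, _, _, _, Triangle.shift_distinguished _ hT k, γ.shiftH k e u,
      shiftA k n (by omega) v⟩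

theorem orthA (h : icH G a X) : ∀ (n : ℕ) {b : ℤ} {Y : D}, b < a → icA G n b Y → ∀ f : X ⟶ Y, f = 0
  | 0, _, _, e, k, f => γ.orthH e h k f
  | n + 1, _, _, e, ⟨_, _, _, _, _, hT, u, v⟩, f => by
    obtain ⟨g, rfl⟩ := Triangle.coyoneda_exact₂ _ hT f (orthA h n (by omega) v _)
    exact (congrArg (· ≫ _) (γ.orthH e h u g)).trans zero_comp

theorem extA [IsTriangulated D] : ∀ (n : ℕ) (a : ℤ),
    (icA G n a).extensionProduct (icA G n a) ≤ icA G n a
  | 0, _ => γ.extH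
  | n + 1, a => (sod_star fun _ _ f u v =>
      γ.orthA u n (by omega) (γ.shiftA (b := a - 2) 1 n (by omega) v) f).trans
    ((monotone_extensionProduct_left _ γ.extH).trans
      (monotone_extensionProduct_right _ (extA n _)))

theorem succA : ∀ (n : ℕ) (a : ℤ), icA G n a ≤ icA G (n + 1) a
  | 0, a => γ.HA 1 a
  | n + 1, _ => monotone_extensionProduct_right _ (succA n _)

theorem addA (n k : ℕ) (a : ℤ) : icA G n a ≤ icA G (n + k) a := by
  induction k with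
  | zero => exact le_rfl
  | succ k ih => exact ih.trans (γ.succA _ _)

theorem upA (n k : ℕ) (a : ℤ) : icA G n a ≤ icA G (n + k) (a + k) := by
  induction k with
  | zero => simp
  | succ k ih =>
    refine ih.trans fun X h => ⟨_, _, _, _, _, contractible_distinguished₁ X,
      γ.zeroH (isZero_zero D), ?_⟩
    rwa [show a + (k + 1 : ℕ) - 1 = a + k by omega]

theorem monoA {n m : ℕ} (h : a ≤ b) (k : b - m ≤ a - n) : icA G n a ≤ icA G m b := by
  obtain ⟨c, rfl⟩ : ∃ c : ℕ, b = a + c := ⟨(b - a).toNat, by omega⟩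
  obtain ⟨d, rfl⟩ : ∃ d : ℕ, m = n + c + d := ⟨m - (n + c), by omega⟩
  exact (γ.upA n c a).trans (γ.addA _ d _)

theorem retA [IsTriangulated D] : ∀ (n : ℕ) {a : ℤ} {X Y : D} (i : X ⟶ Y) (r : Y ⟶ X),
    i ≫ r = 𝟙 X → icA G n a Y → icA G n a X
  | 0, _, _, _, i, r, e, h => γ.retH i r e h
  | n + 1, a, X, Y, i, r, e, ⟨Y₁, Y₂, f, g, h, hT, u, v⟩ => by
    obtain ⟨X', p, q, hX⟩ := distinguished_cocone_triangle (f ≫ r)
    obtain ⟨Z, p', q', hZ⟩ := distinguished_cocone_triangle (f ≫ r ≫ i)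
    obtain ⟨α, a1, a2⟩ : ∃ α : X' ⟶ Z, p ≫ α = i ≫ p' ∧ q ≫ (𝟙 Y₁)⟦(1 : ℤ)⟧' = α ≫ q' :=
      complete_distinguished_triangle_morphism _ _ hX hZ (𝟙 Y₁) i
        ((Category.assoc _ _ _).trans (Category.id_comp _).symm)
    obtain ⟨β, b1, b2⟩ : ∃ β : Z ⟶ X', p' ≫ β = r ≫ p ∧ q' ≫ (𝟙 Y₁)⟦(1 : ℤ)⟧' = β ≫ q :=
      complete_distinguished_triangle_morphism _ _ hZ hX (𝟙 Y₁) r (by
        change (f ≫ r ≫ i) ≫ r = 𝟙 Y₁ ≫ f ≫ r
        simp [e])
    rw [CategoryTheory.Functor.map_id, Category.comp_id] at a2 b2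
    have : IsIso (α ≫ β) := isIso₃_of_isIso₁₂ (T := Triangle.mk (f ≫ r) p q)
      (T' := Triangle.mk (f ≫ r) p q) (Triangle.homMk _ _ (𝟙 Y₁) (𝟙 X) (α ≫ β)
        ((Category.comp_id _).trans (Category.id_comp _).symm) (by
          change p ≫ α ≫ β = 𝟙 X ≫ p
          rw [reassoc_of% a1, b1, reassoc_of% e, Category.id_comp]) (by
          change q ≫ (𝟙 Y₁)⟦(1 : ℤ)⟧' = (α ≫ β) ≫ q
          rw [Category.assoc, ← b2, ← a2, CategoryTheory.Functor.map_id, Category.comp_id])) hX hX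
      (IsIso.id Y₁) (IsIso.id X)
    have u' : icH G (a - 1) (Y₁⟦(1 : ℤ)⟧) := γ.shiftH 1 (by omega) u
    obtain ⟨U, Z', k, l, m, hU, s, t⟩ : (icH G a).extensionProduct (icA G n (a - 1)) Z := by
      refine monotone_extensionProduct_right _ (γ.extA n _) _ ?_
      rw [← extensionProduct_assoc]
      exact ⟨_, _, _, _, _, rot_of_distTriang _ hZ, ⟨_, _, _, _, _, hT, u, v⟩, γ.HA n _ _ u'⟩
    obtain ⟨ψ, hψ⟩ : ∃ ψ : U ⟶ X, k ≫ β = ψ ≫ p :=
      Triangle.coyoneda_exact₃ _ hX (k ≫ β) (γ.orthH (by omega) s u' _)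
    obtain ⟨χ, hχ⟩ : ∃ χ : U ⟶ Y₁, ψ ≫ i = χ ≫ f :=
      Triangle.coyoneda_exact₂ _ hT (ψ ≫ i) (γ.orthA s n (by omega) v _)
    have z : (f ≫ r) ≫ p = 0 := comp_distTriang_mor_zero₁₂ _ hX
    obtain ⟨β', hβ⟩ : ∃ β' : Z' ⟶ X', β = l ≫ β' := Triangle.yoneda_exact₂ _ hU β (by
      change k ≫ β = 0
      rw [hψ, ← Category.comp_id ψ, ← e, reassoc_of% hχ, Category.assoc, z, comp_zero])
    exact ⟨_, _, _, _, _, hX, u, retA n (α ≫ l) (β' ≫ inv (α ≫ β))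
      (by rw [Category.assoc, ← reassoc_of% hβ, ← Category.assoc, IsIso.hom_inv_id]) t⟩

omit γ in
theorem leA : ∀ (n : ℕ) (a : ℤ), icA G n a ≤ Cl G
  | 0, a => fun X h => ((Cl.of (P := G) (X := X⟦a⟧) h).shift (-a)).iso
      ((shiftFunctorCompIsoId D a (-a) (by omega)).app X)
  | n + 1, a => extensionProduct_le_of_isTriangulatedClosed₂ (leA 0 a) (leA n _)

theorem clA [IsTriangulated D] (h : Cl G X) : ∃ n a, icA G n a X := by
  induction h with
  | of h => exact ⟨0, 0, γ.iso ((shiftFunctorZero D ℤ).app _) h⟩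
  | zero h => exact ⟨0, 0, γ.zeroH h⟩
  | shift k _ h =>
    obtain ⟨n, a, h⟩ := h
    exact ⟨n, a - k, γ.shiftA k n (by omega) h⟩
  | ext T hT _ _ u v =>
    obtain ⟨n, a, u⟩ := u
    obtain ⟨m, b, v⟩ := v
    exact ⟨n + m + (a - b).natAbs, max a b, γ.extA _ _ _ ⟨_, _, _, _, _, hT,
      γ.monoA (by omega) (by omega) _ u, γ.monoA (by omega) (by omega) _ v⟩⟩

end IcG

theorem cl_retract [IsTriangulated D] {G : ObjectProperty D} (h0 : ∀ X, IsZero X → G X)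
    (neg : ∀ (n : ℤ), 0 < n → ∀ X Y (f : X ⟶ Y⟦n⟧), G X → G Y → f = 0)
    (sum : ∀ X Y, G X → G Y → G (X ⊞ Y))
    (ret : ∀ X Y (i : X ⟶ Y) (r : Y ⟶ X), i ≫ r = 𝟙 X → G Y → G X)
    {X : D} (h : Th (Cl G) X) : Cl G X := by
  have γ : IcG G := ⟨h0, neg, sum, ret⟩
  obtain ⟨Y, h⟩ := h
  obtain ⟨n, a, h⟩ := γ.clA h
  exact IcG.leA n a X (γ.retA n biprod.inl biprod.fst biprod.inl_fst h)

end Pool.Agent.Lib.MP_5d3e93_al.K
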