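import Pool.Agent.Lib.MP_5d3e93_al.K.Fc
import Pool.Agent.Lib.MP_5d3e93_al.K.Frob
import Pool.Agent.Lib.MP_5d3e93_al.K.IC
import Pool.Agent.Lib.MP_5d3e93_al.Gr.KnL

/-! Bounded complexes form a Frobenius category; its stable category. -/

open CategoryTheory Limits Pretriangulated ZeroObject

namespace Pool.Agent.Lib.MP_5d3e93_al.K

open Gr

universe w v u v' u' v'' u''

section Sig
variable {C : Type u} [Category.{v} C] [Preadditive C] [HasZeroObject C]

/-- The terms in the degrees that satisfy `p`. -/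
noncomputable def fsig (p : ℤ → Prop) : Fc C ⥤ Fc C where
  obj K := ⟨{ X := fun n => (ct (p n)).obj (K.obj.X n)
              d := fun i j => (ctI (p i)).app _ ≫ K.obj.d i j ≫ (ctR (p j)).app _
              shape := fun i j h => by rw [K.obj.shape i j h, zero_comp, comp_zero]
              d_comp_d' := fun i j k _ _ => by
                by_cases h : p j
                · simp only [Category.assoc]
                  rw [ctR_I_assoc h, K.obj.d_comp_d_assoc, zero_comp, comp_zero]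
                · rw [ctI_neg h, zero_comp, comp_zero] },
    K.property.imp fun _ h => h.imp fun _ h n k => (ct (p n)).map_isZero (h n k)⟩
  map f := ObjectProperty.homMk
    { f := fun n => (ct (p n)).map (f.hom.f n)
      comm' := fun i j _ => by
        dsimp only
        rw [ctI_nat_assoc, Category.assoc, Category.assoc, ctR_nat, f.hom.comm_assoc] }
  map_id K := ObjectProperty.hom_ext _ (HomologicalComplex.hom_ext _ _ fun n =>
    (ct (p n)).map_id _)
  map_comp f g := ObjectProperty.hom_ext _ (HomologicalComplex.hom_ext _ _ fun n =>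
    (ct (p n)).map_comp _ _)

instance fsig_add (p : ℤ → Prop) : (fsig p : Fc C ⥤ Fc C).Additive :=
  ⟨ObjectProperty.hom_ext _ (HomologicalComplex.hom_ext _ _ fun n => (ct (p n)).map_add)⟩

/-- The inclusion of the terms above a degree. -/
noncomputable def fsigI (p : ℤ → Prop) (h : ∀ n, p n → p (n + 1)) : fsig p ⟶ 𝟭 (Fc C) where
  app K := ObjectProperty.homMk
    { f := fun n => (ctI (p n)).app _
      comm' := fun i j (e : i + 1 = j) => by
        change (ctI (p i)).app _ ≫ K.obj.d i j =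
          ((ctI (p i)).app _ ≫ K.obj.d i j ≫ (ctR (p j)).app _) ≫ (ctI (p j)).app _
        by_cases k : p i
        · rw [Category.assoc, Category.assoc, ctR_I (e ▸ h i k)]
          exact congrArg _ (Category.comp_id _).symm
        · rw [ctI_neg k, zero_comp, zero_comp, zero_comp] }
  naturality _ _ f := ObjectProperty.hom_ext _ (HomologicalComplex.hom_ext _ _ fun n =>
    ctI_nat (p n) (f.hom.f n))

/-- The projection to the remaining terms. -/
noncomputable def fsigR (p : ℤ → Prop) (h : ∀ n, p n → p (n + 1)) (K : Fc C) :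
    K ⟶ (fsig fun n => ¬p n).obj K := ObjectProperty.homMk
  { f := fun n => (ctR (¬p n)).app _
    comm' := fun i j (e : i + 1 = j) => by
      change (ctR (¬p i)).app _ ≫ (ctI (¬p i)).app _ ≫ K.obj.d i j ≫ (ctR (¬p j)).app _ =
        K.obj.d i j ≫ (ctR (¬p j)).app _
      by_cases k : p i
      · rw [ctR_neg (not_not.2 (e ▸ h i k : p j)), comp_zero, comp_zero, comp_zero]
      · exact ctR_I_assoc (p := ¬p i) k _ _ }

theorem fd_spl (p : Prop) (X : C) : Spl ((ctI p).app X) ((ctR ¬p).app X) := by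
  refine ⟨(ctR p).app X, (ctI ¬p).app X, ctI_R p X, ctI_R _ X, ?_⟩
  by_cases k : p
  · rw [ctR_I k, ctR_neg (not_not.2 k), zero_comp, add_zero]
  · rw [ctR_I (p := ¬p) k, ctR_neg k, zero_comp, zero_add]

theorem fd_IR (p : Prop) (X : C) : (ctI p).app X ≫ (ctR ¬p).app X = 0 := by
  by_cases k : p
  · rw [ctR_neg (not_not.2 k), comp_zero]
  · rw [ctI_neg k, zero_comp]

omit [HasZeroObject C] in
theorem fd_isZero {K : Fc C} (h : ∀ n, IsZero (K.obj.X n)) : IsZero K :=
  (IsZero.iff_id_eq_zero _).2 (ObjectProperty.hom_ext _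
    (HomologicalComplex.hom_ext _ _ fun n => (h n).eq_of_src _ _))

theorem fsigI_iso (p : ℤ → Prop) (h : ∀ n, p n → p (n + 1)) (K : Fc C)
    (k : ∀ n, ¬p n → IsZero (K.obj.X n)) : IsIso ((fsigI p h).app K) := by
  have : ∀ n, IsIso (((fsigI p h).app K).hom.f n) := fun n => ⟨(ctR (p n)).app _, ctI_R _ _, by
    by_cases l : p n
    · exact ctR_I l _
    · exact (k n l).eq_of_src _ _⟩
  have : IsIso ((Fs C).ι.map ((fsigI p h).app K)) :=
    HomologicalComplex.Hom.isIso_of_components ((fsigI p h).app K).hom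
  exact isIso_of_reflects_iso _ (Fs C).ι

/-- The shift of a bounded complex. -/
noncomputable def fsh (n : ℤ) (K : Fc C) : Fc C := ⟨K.obj⟦n⟧, by
  obtain ⟨p, q, h⟩ := K.property
  exact ⟨p - n, q - n, fun m l => h (m + n) (by omega)⟩⟩

end Sig

instance fd_sg_add (a : Am.{v, u}) : a.sg.Additive :=
  inferInstanceAs (HomotopyCategory.singleFunctor a.A 0 ⋙ a.Q).Additive

theorem fd_nat {a : Am.{v, u}} {b : Am.{v', u'}} (f g : Am.Map a b) (α : f.F ⟶ g.F) (X : a.A)
    [IsIso (α.app X)] : IsIso ((f.nat g α).app (a.sg.obj X)) := by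
  have : ∀ n, IsIso (((NatTrans.mapHomologicalComplex α (.up ℤ)).app
      ((CochainComplex.singleFunctor a.A 0).obj X)).f n) := fun n => by
    change IsIso (α.app (((CochainComplex.singleFunctor a.A 0).obj X).X n))
    by_cases k : n = 0
    · exact ((NatTrans.isIso_app_iff_of_iso α
        (HomologicalComplex.singleObjXIsoOfEq _ 0 X n k))).2 inferInstance
    · have z : IsZero (((CochainComplex.singleFunctor a.A 0).obj X).X n) :=
        HomologicalComplex.isZero_single_obj_X _ _ _ _ k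
      exact ⟨0, (f.F.map_isZero z).eq_of_src _ _, (g.F.map_isZero z).eq_of_src _ _⟩
  have := HomologicalComplex.Hom.isIso_of_components ((NatTrans.mapHomologicalComplex α
    (.up ℤ)).app ((CochainComplex.singleFunctor a.A 0).obj X))
  have e := f.nq_nat g α ((CochainComplex.singleFunctor a.A 0).obj X)
  exact e ▸ b.nq.map_isIso _

section Fd
variable {A : Type (max u v)} [Category.{v} A] [Preadditive A] [HasZeroObject A]
  [HasBinaryBiproducts A]

/-- The truncation as a map. -/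
noncomputable def fsigM (p : ℤ → Prop) : Am.Map (fa.{v, u} A) (fa.{v, u} A) where
  F := fsig p
  add := inferInstanceAs (fsig (C := A) p).Additive
  hT _ h := (fa.{v, u} A).le_Tb _ fun k =>
    ((ct (p k)).mapHomotopyCategory (.up ℤ)).map_isZero (h k)

theorem fd_sep (b : ℤ) (n : ℤ) (P Q : Fc A) (hP : ∀ m, ¬b < m → IsZero (P.obj.X m))
    (hQ : ∀ m, b < m → IsZero (Q.obj.X m))
    (φ : (fa.{v, u} A).sg.obj P ⟶ ((fa.{v, u} A).sg.obj Q)⟦n⟧) : φ = 0 := by
  let f : Am.Map (fa.{v, u} A) (fa.{v, u} A) := fsigM (b < ·)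
  let α : f.F ⟶ (fa.{v, u} A).idm.F := fsigI (b < ·) fun _ h => by omega
  have : IsIso (α.app P) := fsigI_iso _ _ P hP
  have i := fd_nat f _ α P
  obtain ⟨e, -⟩ := f.of_iso
  have z : IsZero (f.F.obj Q) := fd_isZero fun m => by
    by_cases k : b < m
    · exact (ct (b < m)).map_isZero (hQ m k)
    · exact ct_zero k _
  have z' : IsZero (f.D.obj (((fa.{v, u} A).sg.obj Q)⟦n⟧)) :=
    ((shiftFunctor _ n).map_isZero (((fa.{v, u} A).sg.map_isZero z).of_iso (e Q))).of_iso
      ((f.D.commShiftIso n).app _)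
  have k := (f.nat _ α).naturality φ
  rw [z'.eq_of_tgt (f.D.map φ) 0, zero_comp, Am.idm_map] at k
  exact (@Preadditive.IsIso.comp_left_eq_zero _ _ _ _ _ _ _ φ i).1 k.symm

/-- `Q` in degrees `≤ b`. If `P` lives above `b`: `fsig (b < ·) ⟶ 𝟭` is invertible at `P` and
`fsig (b < ·) Q = 0`, naturality. Otherwise induction with `fc_down` (the support moves up). -/
theorem fa_neg {n : ℤ} (hn : n < 0) (P Q : Fc A)
    (φ : (fa.{v, u} A).sg.obj P ⟶ ((fa.{v, u} A).sg.obj Q)⟦n⟧) : φ = 0 := by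
  obtain ⟨_, b, hQ⟩ := Q.property
  obtain ⟨p, _, hP⟩ := P.property
  obtain ⟨m, hm⟩ : ∃ m : ℕ, b < p + m := ⟨(b - p + 1).toNat, by omega⟩
  replace hP : ∀ k, k < p → IsZero (P.obj.X k) := fun k l => hP k (.inl l)
  induction m generalizing P p n with
  | zero => exact fd_sep b n P Q (fun k l => hP k (by omega)) (fun k l => hQ k (.inr l)) φ
  | succ m ih =>
    obtain ⟨K, I, i, q, hI, z, s, ⟨e⟩⟩ := fc_down P
    obtain ⟨δ, hT⟩ := fa_tri.{v, u} z s
    obtain ⟨ψ, hψ⟩ := Triangle.yoneda_exact₃ _ hT φ ((Jc.pj hI).ext_zero Q hn.ne _)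
    rw [hψ, fr_van (1 : ℤ) (Iso.refl _) ((shiftFunctorAdd' _ (n - 1) 1 n (by omega)).app _)
      (fun g => ih (n := n - 1) (by omega) K g (p + 1) (by push_cast at hm; omega) fun k l =>
        (hP (k + -1) (by omega)).of_iso ((HomologicalComplex.eval _ _ k).mapIso e)) ψ]
    exact comp_zero

variable (A) in
/-- Bounded complexes as objects of the derived category. -/
noncomputable def fs : Fc A ⥤ (fa.{v, u} A).D := (fa.{v, u} A).sg

instance fs_add : (fs.{v, u} A).Additive := inferInstanceAs (fa.{v, u} A).sg.Additive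

theorem fs_tri {X Y Z : Fc A} {i : X ⟶ Y} {p : Y ⟶ Z} (h : i ≫ p = 0)
    (k : ∀ n, Spl (i.hom.f n) (p.hom.f n)) : ∃ δ, Triangle.mk ((fs.{v, u} A).map i)
      ((fs.{v, u} A).map p) δ ∈ distTriang (fa.{v, u} A).D := fa_tri h k

theorem fs_pj {I : Fc A} (h : Jc A I) (Q : Fc A) :
    Function.Bijective ((fs.{v, u} A).map : (I ⟶ Q) → _) := (Jc.pj.{v, u} h).sg_bij Q

theorem fs_inj {P Q : Fc A} (φ : P ⟶ Q) (h : (fs.{v, u} A).map φ = 0) : φ = 0 := by
  obtain ⟨K, I, i, q, hI, z, s, -⟩ := fc_down P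
  have k : q ≫ φ = 0 := (fs_pj.{v, u} hI Q).1 (by
    rw [Functor.map_comp, h, comp_zero, Functor.map_zero])
  refine ObjectProperty.hom_ext _ (HomologicalComplex.hom_ext _ _ fun n => ?_)
  obtain ⟨_, t, -, e, -⟩ := s n
  have l : q.hom.f n ≫ φ.hom.f n = 0 := congrArg (fun x => x.hom.f n) k
  rw [← Category.id_comp (φ.hom.f n), ← e, Category.assoc, l, comp_zero]
  rfl

theorem fs_bij (P Q : Fc A) : Function.Bijective ((fs.{v, u} A).map : (P ⟶ Q) → _) := by
  refine ⟨fun f g e => sub_eq_zero.1 (fs_inj.{v, u} _ (by rw [Functor.map_sub, e, sub_self])),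
    fun ψ => ?_⟩
  obtain ⟨K, I, i, q, hI, z, s, -⟩ := fc_down P
  obtain ⟨δ, hT⟩ := fs_tri.{v, u} z s
  obtain ⟨g, hg⟩ := (fs_pj.{v, u} hI Q).2 ((fs.{v, u} A).map q ≫ ψ)
  obtain ⟨g', rfl⟩ := fc_desc s g (fs_inj.{v, u} _ (by
    rw [Functor.map_comp, hg, ← Category.assoc, ← Functor.map_comp, z, Functor.map_zero,
      zero_comp]))
  obtain ⟨χ, hχ⟩ := Triangle.yoneda_exact₃ _ hT ((fs.{v, u} A).map g' - ψ) (by
    change (fs.{v, u} A).map q ≫ _ = 0
    rw [Preadditive.comp_sub, ← hg, Functor.map_comp, sub_self])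
  rw [fr_van (1 : ℤ) (Iso.refl _) ((shiftFunctorCompIsoId _ (-1 : ℤ) 1 (by simp)).app _).symm
    (fa_neg (by simp) K Q) χ] at hχ
  exact ⟨g', sub_eq_zero.1 (hχ.trans comp_zero)⟩

/-- `fc_down`, `Pj.sg_bij`, `fc_desc`, `fa_neg`. -/
theorem fa_sg_bij (P Q : Fc A) : Function.Bijective ((fa.{v, u} A).sg.map : (P ⟶ Q) → _) :=
  fs_bij P Q

end Fd

end Pool.Agent.Lib.MP_5d3e93_al.K
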