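import Pool.Agent.Lib.MP_5d3e93_al.K.TAg
import Pool.Agent.Lib.MP_5d3e93_al.K.CLo

/-! The transfer theorem in all degrees. -/

open CategoryTheory Limits Filter

namespace Pool.Agent.Lib.MP_5d3e93_al

universe w w' v u z v' u' v₁ u₁ v₂ u₂

open K Gr

variable {G : Type w} [Group G] {Γ : Type w'} [Group Γ] {q : G →* Γ} {J : Type} {Y : J → Type z}
  [∀ j, MulAction Γ (Y j)] {ρ : ∀ j, Y j → Y j → Prop} {F : J → Set Γ} {N : ℕ} {l : Filter J}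

theorem tcz_comap (D : ∀ j, Lq.Tf Γ (ρ j) (F j) N) {μ : Ar G Y} (h1 : ∀ᶠ j in l, 1 ∈ F j)
    (hF : ∀ g : G, g ∈ Submonoid.closure {g | ∀ᶠ j in l, q g ∈ F j})
    (hρ : ∃ r, ∀ᶠ j in l, ∀ a g b, ρ j a (q g • b) → μ.n r j a g b) :
    Tcz q D l (μ.comap fun j => (D j).loc) := by
  obtain ⟨r, hρ⟩ := hρ
  have k : ∀ g : G, (∀ᶠ j in l, q g ∈ F j) → ∀ᶠ j in l, ∀ p,
      μ.n r j ((D j).loc (q g • p)) g ((D j).loc p) := fun g h =>
    (h.and hρ).mono fun j a p => a.2 _ _ _ ((D j).cg _ a.1 p)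
  have k1 := k 1 (by simpa using h1)
  refine ⟨fun g => ?_, fun m => ⟨(m + 1) * r, (k1.and hρ).mono fun j a x y ⟨n, hn, h⟩ => ?_⟩⟩
  · induction hF g using Submonoid.closure_induction with
    | mem g h => exact ⟨r, k g h⟩
    | one => exact ⟨r, k1⟩
    | mul g h _ _ a b =>
      obtain ⟨s, a⟩ := a
      obtain ⟨t, b⟩ := b
      refine ⟨s + t, (a.and b).mono fun j e p => ?_⟩
      rw [map_mul, mul_smul]
      exact μ.trans (e.1 _) (e.2 p)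
  · have e : ∀ (n : ℕ) (c : Y j), Lq.Pa (ρ j) n c ((D j).loc y) →
        μ.n ((n + 1) * r) j c 1 ((D j).loc y) := fun n => by
      induction n with
      | zero =>
        rintro _ rfl
        simpa using a.1 y
      | succ n ih =>
        rintro c ⟨c', s, t⟩
        have := μ.trans (a.2 c 1 c' (by simpa using s)) (ih c' t)
        rw [one_mul] at this
        exact μ.mono this (by nlinarith)
    exact μ.mono (e n _ h) (Nat.mul_le_mul_right _ (by omega))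

theorem trf_all {A : Type (max u v)} [Category.{v} A] [Preadditive A] [HasZeroObject A]
    [HasBinaryBiproducts A] {B : Type (max u' v')} [Category.{v'} B] [Preadditive B]
    [HasZeroObject B] [HasBinaryBiproducts B] [IsIdempotentComplete A] [IsIdempotentComplete B]
    (ι : A ⥤ B) [ι.Additive] [ι.Full] [ι.Faithful] {T : Type (max u₁ v₁)} [Category.{v₁} T]
    [Preadditive T] [HasZeroObject T] [HasBinaryBiproducts T] (t : T ⥤ Fc B) [t.Additive]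
    (P : ObjectProperty T) (ret : ∀ M, ∃ (M₀ : T) (i : M ⟶ M₀) (r : M₀ ⟶ M), P M₀ ∧ i ≫ r = 𝟙 M)
    (dom : ∀ M, P M → Dom ι.essImage (t.obj M)) (B₁ : J → Type (max u₂ v₂))
    [∀ j, Category.{v₂} (B₁ j)] [∀ j, Preadditive (B₁ j)] [∀ j, HasZeroObject (B₁ j)]
    [∀ j, HasBinaryBiproducts (B₁ j)] [∀ j, IsIdempotentComplete (B₁ j)] (κ : ∀ j, T ⥤ B₁ j)
    [∀ j, (κ j).Additive] [∀ j, (κ j).Full] [∀ j, (κ j).Faithful] (ev : J → A ⥤ T)
    [∀ j, (ev j).Additive] (eb : ∀ j, B ⥤ B₁ j) [∀ j, (eb j).Additive]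
    (e : ∀ j, Nonempty (ι ⋙ eb j ≅ ev j ⋙ κ j))
    (ε : ∀ j, ∃ ε : t ⋙ Fc.map (eb j) ⟶ 𝟭 _ ⋙ κ j ⋙ Fc.c0 _, ∀ M, P M → Heq (ε.app M)) (n : ℕ)
    (x : Am.Kn n _ (Am.of.{v₁, u₁} T).bdd) : ∃ y : Am.Kn n _ (Am.of.{v, u} A).bdd, ∀ j,
      Am.Kmap n (Am.ofOf.{v, u, v₁, u₁} (ev j)) (Am.Map.bdd_map _) y =
        Am.Kmap n (Am.ofOf.{v₁, u₁, v₁, u₁} (𝟭 T)) (Am.Map.bdd_map _) x :=
  (trf_ex.{v, u, v', u', v₁, u₁} ι t ret dom n x).imp fun _ hy j => (ε j).elim fun ε hε =>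
    trf_ev.{v, u, v', u', v₁, u₁, v₁, u₁, v₂, u₂} ι t ret (κ j) (ev j) (eb j) (e j).some (𝟭 T) ε
      hε hy

namespace GC

variable {C : Type u} [Category.{v} C] [Preadditive C] [HasZeroObject C] {S : GC G C}

omit [HasZeroObject C] in
theorem trf_ret (M : S.LQ (Rl.pt ⊤)) : ∃ (M₀ : S.LQ (Rl.pt ⊤)) (i : M ⟶ M₀) (r : M₀ ⟶ M),
    M₀.p = 𝟙 M₀.A ∧ i ≫ r = 𝟙 M :=
  ⟨⟨M.A, M.L, 𝟙 _, Category.id_comp _, fun _ _ _ a => (a trivial).elim⟩,
    LQ.homMk M.p M.idem (Category.comp_id _) fun _ _ _ a => (a trivial).elim,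
    LQ.homMk M.p (Category.id_comp _) M.idem fun _ _ _ a => (a trivial).elim, rfl,
    LQ.hom_ext M.idem⟩

theorem trf_y {D : ∀ j, Lq.Tf Γ (ρ j) (F j) N} {ν : Ar G fun j => (D j).B}
    (h : Tcz q D l ν) (n : ℕ) (x : Am.Kn n S.top S.top.bdd) :
    ∃ y : Am.Kn n (S.au l ν) (S.au l ν).bdd, ∀ j, Am.Kmap n (S.evm l ν j) (Am.Map.bdd_map _) y =
      Am.Kmap n (Am.ofOf.{v, u} (𝟭 (S.LQ (Rl.pt ⊤)))) (Am.Map.bdd_map _) x := by
  have c : ∀ j, ∃ c, c ∈ (D j).b.support := fun j => Finsupp.support_nonempty_iff.2 fun e => by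
    simpa [e] using (D j).εb
  choose c _ using c
  exact trf_all.{v, max u z, max z v, u, v, u, max z v, u} (AS.big S l ν) (tr S h)
    (fun M => M.p = 𝟙 M.A) trf_ret (tr_dom h) (fun j => S.BS ⊤ (Ar.top G (D j).B))
    (fun j => LQ.at S (c j)) (fun j => AS.ev S l ν j) (fun j => BS.ev S l ν j)
    (fun j => big_ev (S := S) (l := l) (ν := ν) j (c j)) (fun j => tr_aug (S := S) h j (c j)) n x

theorem trf_cz [l.NeBot] {D : ∀ j, Lq.Tf Γ (ρ j) (F j) N} {ν : Ar G fun j => (D j).B}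
    (h : Tcz q D l ν) (z : S.EV l ν (S.au l ν).bdd) : S.WK ⊤ := fun n => by
  have k : ∀ x : Am.Kn n S.top S.top.bdd, x = 0 := fun x => by
    obtain ⟨y, hy⟩ := trf_y h n x
    obtain ⟨j, hj⟩ := (z n y).exists
    exact (Am.Kinc_refl (a := S.top) n le_rfl x).symm.trans ((hy j).symm.trans (hj _))
  exact subsingleton_of_forall_eq 0 k

/-- Contractible complexes that are dominated with control by finite complexes transfer the
vanishing from the controlled category. -/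
theorem trf [l.NeBot] (D : ∀ j, Lq.Tf Γ (ρ j) (F j) N) {μ : Ar G Y}
    (h1 : ∀ᶠ j in l, 1 ∈ F j) (hF : ∀ g : G, g ∈ Submonoid.closure {g | ∀ᶠ j in l, q g ∈ F j})
    (hρ : ∃ r, ∀ᶠ j in l, ∀ a g b, ρ j a (q g • b) → μ.n r j a g b)
    (z : S.EV l μ (S.au l μ).bdd) : S.WK ⊤ :=
  trf_cz (tcz_comap D h1 hF hρ) (EV.push (fun j => (D j).loc)
    (fun r => ⟨r, .of_forall fun _ _ _ _ a => a⟩) (Am.Map.bdd_map _) le_rfl z)

end GC

end Pool.Agent.Lib.MP_5d3e93_al
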