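import Pool.Agent.Lib.MP_5d3e93_al.K.GeoA
import Pool.Agent.Lib.MP_5d3e93_al.K.Trf

/-! Long coloured covers with transfer data give vanishing. -/

open CategoryTheory Limits ZeroObject Filter MulAction

namespace Pool.Agent.Lib.MP_5d3e93_al

universe w v u

variable {C : Type u} [Category.{v} C] [Preadditive C] [HasBinaryBiproducts C] [HasZeroObject C]

attribute [local instance] Lq.Geo.ay Lq.Geo.ai

theorem kz_geo' {G : Type w} [Group G] {σ : Act G C} (h0 : K0Zero C) {D : Type} [Group D]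
    (q : G →* D) {k : Type} [Fintype k] {N : ℕ} {P : Subgroup D → Prop}
    (geo : ∀ (F : Finset D) (R : ℕ), Nonempty (Lq.Geo D k N P F R))
    (hK : ∀ (H : Subgroup G) (U : Subgroup D), P U → H ≤ U.comap q → KZ (σ.comap H.subtype)) :
    KZ σ := by
  classical
  let X : ∀ j : Finset D × ℕ, Lq.Geo D k N P j.1 j.2 := fun j => (geo j.1 j.2).some
  have e (g : D) : ∀ᶠ j : Finset D × ℕ in atTop, g ∈ (j.1 : Set D) :=
    (eventually_ge_atTop (({g} : Finset D), 0)).mono fun j a => a.1 (Finset.mem_singleton_self g)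
  exact GC.trf (q := q.comp (.fst G Zi)) (μ := geoAr q X) (fun j => (X j).tf) (e 1)
    (fun g => Submonoid.subset_closure (e _))
    ⟨1, .of_forall fun j a g b h => ⟨_, h, rfl⟩⟩ (geo_ev q h0 X hK)

theorem kz_geo {G : Type w} [Group G] {σ : Act G C} (hs : Sw σ) {D : Type} [Group D]
    (q : G →* D) {k : Type} [Fintype k] {N : ℕ} {P : Subgroup D → Prop}
    (geo : ∀ (F : Finset D) (R : ℕ), Nonempty (Lq.Geo D k N P F R))
    (hK : ∀ (H : Subgroup G) (U : Subgroup D), P U → H ≤ U.comap q → KZ (σ.comap H.subtype)) :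
    KZ σ := kz_geo' hs.k0 q geo hK

end Pool.Agent.Lib.MP_5d3e93_al
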