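import Pool.Agent.Lib.MP_5d3e93_al.K.CLc
import Pool.Agent.Lib.MP_5d3e93_al.K.Tw
import Pool.Agent.Lib.MP_5d3e93_al.Lq.Def2

/-! Long coloured covers give eventual vanishing. -/

open CategoryTheory Limits ZeroObject Filter MulAction

namespace Pool.Agent.Lib.MP_5d3e93_al

universe w v u

theorem pa_iff {Y : Type*} {ρ : Y → Y → Prop} {k : ℕ} :
    ∀ {x y : Y}, Lq.Pa ρ k x y ↔ Pth ρ k x y := by
  induction k with
  | zero => exact Iff.rfl
  | succ k ih => exact exists_congr fun _ => and_congr_right' ih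

variable {G : Type w} [Group G] {C : Type u} [Category.{v} C] [Preadditive C]
  [HasBinaryBiproducts C] [HasZeroObject C] {σ : Act G C} {D : Type} [Group D] (q : G →* D)
  {k : Type} [Fintype k] {N : ℕ} {P : Subgroup D → Prop}

attribute [local instance] Lq.Geo.ay Lq.Geo.ai

/-- The control by paths. -/
noncomputable def geoAr (X : ∀ j : Finset D × ℕ, Lq.Geo D k N P j.1 j.2) :
    Ar (G × Zi) fun j => (X j).Y :=
  Ar.act (q.comp (.fst G Zi)) fun j => Nr.pth D (X j).ρ (X j).refl (X j).inv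

theorem geo_ev (h0 : K0Zero C) (X : ∀ j : Finset D × ℕ, Lq.Geo D k N P j.1 j.2)
    (hK : ∀ (H : Subgroup G) (U : Subgroup D), P U → H ≤ U.comap q → KZ (σ.comap H.subtype)) :
    (SZ σ).EV atTop (geoAr q X) ((SZ σ).au _ _).bdd := by
  let : ∀ j, MulAction G (X j).Y := fun j => MulAction.compHom _ q
  let : ∀ j, MulAction G (X j).I := fun j => MulAction.compHom _ q
  have := GC.ev_lab (l := atTop) (ok (σ := σ) h0) (fun j => (X j).refl) (fun j => (X j).symm)
    (fun j g => (X j).inv (q g)) (fun j => (X j).lab) (fun j => (X j).uniq)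
    (fun j i g => (X j).smul i (q g)) (α := fun _ _ => True) (b := Prod.snd)
    (prod_atTop_atTop_eq (α := Finset D) (β := ℕ) ▸ tendsto_snd)
    (fun R => (eventually_ge_atTop (∅, R)).mono fun j a y _ => by
      obtain ⟨i, U, h⟩ := (X j).long y
      exact ⟨i, U, fun y' p => h y' (pa_iff.2 (GC.Pth.succ (X j).refl a.2 p))⟩)
    (.of_forall fun j U H h => (kz_sub H).1 (hK H _ ((X j).stab U) h))
  refine GC.EV.push (fun _ => id) (fun r => ⟨r, .of_forall fun _ _ _ _ a => ?_⟩)
    (Gr.Am.Map.bdd_map _) le_rfl this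
  exact ⟨a, trivial, trivial⟩

end Pool.Agent.Lib.MP_5d3e93_al
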