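import Pool.Agent.Lib.MP_5d3e93_al.K.FamA
import Pool.Agent.Lib.MP_5d3e93_al.K.Lift
import Pool.Agent.Lib.MP_5d3e93_al.GQ.Ind

/-! All linear groups from the relative theorem, the rational case and the hyper case. -/

open CategoryTheory Limits

namespace Pool.Agent.Lib.MP_5d3e93_al

universe w v u

/-- Groups with a representation over `k` whose kernel is hyper-polycyclic. -/
def Rk (k : Type) [Field k] (H : Type w) [Group H] : Prop :=
  ∃ (m : ℕ) (q : H →* GL (Fin m) k), Hyper q.ker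

section
variable {k : Type} [Field k]

theorem Rk.inj {H H' : Type w} [Group H] [Group H'] (j : H' →* H) (a : Function.Injective j)
    (h : Rk k H) : Rk k H' := by
  obtain ⟨m, q, b⟩ := h
  exact ⟨m, q.comp j, b.inj ((j.comp (Subgroup.subtype _)).codRestrict _ fun x => x.2)
    fun _ _ e => Subtype.ext (a (Subtype.mk.inj e))⟩

theorem Rk.prod {H : Type w} [Group H] (h : Rk k H) : Rk k (H × Multiplicative ℤ) := by
  obtain ⟨m, q, b⟩ := h
  exact ⟨m, q.comp (.fst _ _), (b.prod (hyper_comm (D := Multiplicative ℤ) mul_comm)).inj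
    (MonoidHom.prod (((MonoidHom.fst H (Multiplicative ℤ)).comp
      (q.comp (.fst H (Multiplicative ℤ))).ker.subtype).codRestrict q.ker fun x => x.2)
      ((MonoidHom.snd _ _).comp (Subgroup.subtype _))) fun _ _ e => Subtype.ext
        (Prod.ext (Subtype.mk.inj (congrArg Prod.fst e)) (congrArg Prod.snd e :))⟩

variable (k) in
/-- The family of these subgroups. -/
def Fam.rk (G : Type w) [Group G] : Fam G where
  m H := Rk k H
  le h := Rk.inj _ (Subgroup.inclusion_injective h)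
  conj {H} g := Rk.inj (H.equivMapOfInjective _ (MulAut.conj g).injective).symm.toMonoidHom
    (MulEquiv.injective _)

theorem rk_pair {G : Type w} [Group G] {R : Type*} [Ring R] [Algebra k R] (φ : G →* Rˣ)
    (hφ : Hyper φ.ker) (N : Subgroup G)
    (hf : Module.Finite k (Submodule.span k ((fun g => (φ g : R)) '' N))) (t : G)
    (ht : t ∈ Subgroup.normalizer (N : Set G)) : Rk k ↥(N ⊔ Subgroup.zpowers t) := by
  let V := N ⊔ Subgroup.zpowers t
  let t' : V := ⟨t, Subgroup.mem_sup_right (Subgroup.mem_zpowers t)⟩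
  have e : (fun g => ((φ.comp V.subtype) g : R)) '' (N.subgroupOf V) =
      (fun g => (φ g : R)) '' N := Set.ext fun _ => ⟨fun ⟨g, a, b⟩ => ⟨g, a, b⟩,
        fun ⟨g, a, b⟩ => ⟨⟨g, Subgroup.mem_sup_left a⟩, a, b⟩⟩
  obtain ⟨m, q, c⟩ := ex_aut (k := k) (φ.comp V.subtype) (N.subgroupOf V) t' (by
    refine Subgroup.map_injective V.subtype_injective (le_antisymm (Subgroup.map_mono le_top) ?_)
    refine (Subgroup.map_subtype_le _).trans (sup_le (fun g a => ?_) (Subgroup.zpowers_le.2 ?_))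
    · exact ⟨⟨g, Subgroup.mem_sup_left a⟩, Subgroup.subset_closure (.inr a), rfl⟩
    · exact ⟨t', Subgroup.subset_closure (.inl rfl), rfl⟩) (e ▸ hf) fun g a =>
      Submodule.subset_span ⟨t' * g * t'⁻¹, (Subgroup.mem_normalizer_iff.1 ht g).1 a, rfl⟩
  exact ⟨m, q, Hyper.of_comm (hφ.inj ((V.subtype.comp (Subgroup.subtype _)).codRestrict _
    fun x => x.2) fun _ _ l => Subtype.ext (Subtype.ext (Subtype.mk.inj l))) c⟩

end

/-- The vanishing for all hyper-polycyclic groups. -/
def HyK : Prop := ∀ (Γ : Type w) [Group Γ] (C : Type (max u v w)) [Category.{v} C] [Preadditive C]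
  [HasBinaryBiproducts C] [HasZeroObject C] (σ : Act Γ C), Sw σ → Hyper Γ → KZ σ

/-- The reduction to subgroups with hyper-polycyclic image in a linear group over `k`. -/
def GlK (k : Type) [Field k] : Prop := ∀ (C : Type (max u v w)) [Category.{v} C] [Preadditive C]
  [HasBinaryBiproducts C] [HasZeroObject C] (M : ℕ) (Γ : Type w) [Group Γ] (σ : Act Γ C), Sw σ →
  ∀ q : Γ →* GL (Fin M) k, (∀ (Δ : Type w) [Group Δ] (j : Δ →* Γ), Function.Injective j →
    Hyper (q.comp j).range → KZ (σ.comap j)) → KZ σ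

/-- The relative theorem for linear groups. -/
def LinK : Prop := ∀ (G : Type w) [Group G] (C : Type (max u v w)) [Category.{v} C] [Preadditive C]
  [HasBinaryBiproducts C] [HasZeroObject C] (σ : Act G C) (𝓕 : Fam G), K0Zero C →
  Okf.{w, v, u} 𝓕 σ →
  ∀ (k : Type) (K : Type w) [Field k] [Field K] [Algebra k K] (n : ℕ) (φ : G →* GL (Fin n) K),
    (∀ N : Subgroup G, Module.Finite k (Submodule.span k
      ((fun g => (φ g : Matrix (Fin n) (Fin n) K)) '' N)) →
      ∀ t ∈ Subgroup.normalizer (N : Set G), 𝓕.m (N ⊔ Subgroup.zpowers t)) → KZ σ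

theorem glK_fin (k : Type) [Field k] [Finite k] : GlK.{w, v, u} k :=
  fun _ _ _ _ _ _ Γ _ _ _ _ h => h Γ (.id Γ) Function.injective_id hyper_fin

theorem okf_rk (hy : HyK.{w, v, u}) {k : Type} [Field k] (gl : GlK.{w, v, u} k) {G : Type w}
    [Group G] {C : Type (max u v w)} [Category.{v} C] [Preadditive C] [HasBinaryBiproducts C]
    [HasZeroObject C] {σ : Act G C} (hs : Sw σ) : Okf.{w, v, u} (Fam.rk k G) σ :=
  okf_of_class (fun H _ => Rk k H) (fun _ _ _ _ => Rk.inj) (fun _ _ => Rk.prod)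
    (fun H _ ⟨m, q, b⟩ D _ _ _ _ τ s => gl D m H τ s q fun Δ _ j a c => hy Δ D _ (s.comap j)
      (Hyper.ext (q.comp j).rangeRestrict (b.inj ((j.comp (Subgroup.subtype _)).codRestrict _
        fun x => Subtype.mk.inj x.2) fun _ _ e => Subtype.ext (a (Subtype.mk.inj e))) c))
    hs fun _ h => h

theorem kz_linear (hy : HyK.{w, v, u}) (gl : GlK.{w, v, u} ℚ) (lin : LinK.{w, v, u}) {G : Type w}
    [Group G] {K : Type w} [Field K] {n : ℕ} (φ : G →* GL (Fin n) K) (hφ : Hyper φ.ker)
    {C : Type u} [Category.{v} C] [Preadditive C] [HasBinaryBiproducts C] [HasZeroObject C]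
    {σ : Act G C} (hs : Sw σ) : KZ σ := by
  have hm : ∀ (g : G) (a b : PUnit.{w + 1}), a ≤ b → g • a ≤ g • b := fun _ _ _ _ => le_rfl
  refine kz_loc (hm := hm) PUnit.unit (fun _ => le_rfl) ?_
  obtain h | ⟨p, hp, h⟩ := CharP.exists' K
  · exact lin G _ _ _ (hs.act hm).k0 (okf_rk hy gl (hs.act hm)) ℚ K n φ (rk_pair φ hφ)
  · let _ : Algebra (ZMod p) K := ZMod.algebra K p
    exact lin G _ _ _ (hs.act hm).k0 (okf_rk hy (glK_fin (ZMod p)) (hs.act hm)) (ZMod p) K n φ
      (rk_pair φ hφ)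

end Pool.Agent.Lib.MP_5d3e93_al
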