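import Pool.Agent.Lib.MP_5d3e93_al.K.HDf

/-! The commensurated stabiliser of the lattice; labels of locations with a window. -/

open MulAction

namespace Pool.Agent.Lib.MP_5d3e93_al

universe w

section HHu
variable {n : ℕ} {Γ : Type w} [Group Γ] [MulAction Γ (Fin n → ℚ)] {A : AA Γ ℚ (Fin n → ℚ)}

/-- The stabiliser of the lattice in height zero. -/
def hhuD (n : ℕ) [MulAction Γ (Fin n → ℚ)] (χ : Ch Γ) : Subgroup Γ where
  carrier := {g | χ g = 0 ∧ (∀ v ∈ Zn n, g • v ∈ Zn n) ∧ ∀ v ∈ Zn n, g⁻¹ • v ∈ Zn n}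
  one_mem' := ⟨χ.one, fun v k => by simpa using k, fun v k => by simpa using k⟩
  mul_mem' := fun {a b} ⟨a0, a1, a2⟩ ⟨b0, b1, b2⟩ => ⟨by simp [a0, b0],
    fun v k => by rw [mul_smul]; exact a1 _ (b1 v k),
    fun v k => by rw [mul_inv_rev, mul_smul]; exact b2 _ (a2 v k)⟩
  inv_mem' := fun {a} ⟨a0, a1, a2⟩ => ⟨by simp [a0], a2, fun v k => by simpa using a1 v k⟩

theorem hhu_tr {s d d' : Γ} (e : A.l d = A.l d') (v : Fin n → ℚ) :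
    ((d * s)⁻¹ * (d' * s)) • v = v + A.l s⁻¹ (A.l d⁻¹ (d' • 0 - d • 0)) := by
  have a : d' • s • v - d • s • v = d' • 0 - d • 0 := by
    rw [A.smul_eq d', A.smul_eq d (s • v), e]
    abel
  rw [← a, ← A.h, ← A.h]
  simp [mul_smul]

theorem hhu_fin {χ : Ch Γ} (hf : (A.l '' {g | χ g = 0}).Finite) (s : Γ) :
    {c : Γ ⧸ hhuD n χ | ∃ d ∈ hhuD n χ, c = (d * s : Γ)}.Finite := by
  obtain ⟨N, N0, hN⟩ := den (A.l s⁻¹)
  have : NeZero N := ⟨N0.ne'⟩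
  let f (d : hhuD n χ) := (A.l d, fun i => ((((d : Γ) • (0 : Fin n → ℚ)) i).num : ZMod N))
  have key (d d' : hhuD n χ) (e : f d = f d') :
      ∀ v ∈ Zn n, (((d : Γ) * s)⁻¹ * (d' * s)) • v ∈ Zn n := by
    intro v k
    obtain ⟨e1, e2⟩ := Prod.ext_iff.1 e
    rw [hhu_tr e1]
    refine add_mem k ?_
    have a := mem_zn.1 (d.2.2.1 0 (zero_mem _))
    have b := mem_zn.1 (d'.2.2.1 0 (zero_mem _))
    obtain ⟨u, hu, e⟩ : ∃ u ∈ Zn n, (d' : Γ) • (0 : Fin n → ℚ) - (d : Γ) • 0 = (N : ℚ) • u := by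
      have t (i : Fin n) : ∃ k : ℤ, ((d' : Γ) • (0 : Fin n → ℚ)) i - ((d : Γ) • (0 : Fin n → ℚ)) i =
          N * k := by
        obtain ⟨x, hx⟩ := a i
        obtain ⟨y, hy⟩ := b i
        have c : ((((d : Γ) • (0 : Fin n → ℚ)) i).num : ZMod N) =
          (((d' : Γ) • (0 : Fin n → ℚ)) i).num := congrFun e2 i
        rw [← hx, ← hy, Rat.num_intCast, Rat.num_intCast] at c
        obtain ⟨k, hk⟩ := (ZMod.intCast_eq_intCast_iff_dvd_sub _ _ _).1 c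
        exact ⟨k, by rw [← hx, ← hy]; exact_mod_cast hk⟩
      choose k hk using t
      exact ⟨fun i => k i, mem_zn.2 fun i => ⟨k i, rfl⟩, funext hk⟩
    rw [e, map_smul, map_smul]
    refine hN _ ?_
    rw [← sub_zero u, ← A.h]
    exact sub_mem (d.2.2.2 u hu) (d.2.2.2 0 (zero_mem _))
  have fin : (Set.range f).Finite := (hf.prod Set.finite_univ).subset (by
    rintro _ ⟨d, rfl⟩
    exact ⟨⟨d, d.2.1, rfl⟩, trivial⟩)
  refine (fin.image fun y => (((Function.invFun f y : hhuD n χ) * s : Γ) : Γ ⧸ hhuD n χ)).subset ?_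
  rintro _ ⟨d, hd, rfl⟩
  have e := Function.invFun_eq (f := f) ⟨⟨d, hd⟩, rfl⟩
  refine ⟨f ⟨d, hd⟩, ⟨_, rfl⟩, QuotientGroup.eq.2 ⟨?_, key _ _ e, ?_⟩⟩
  · simp [hd.1, (Function.invFun f (f ⟨d, hd⟩)).2.1]
  · simpa using key _ _ e.symm

theorem ex_hu (H : Ht Γ) (hΛ : ∀ d ∈ H.D, ∀ v ∈ Zn n, d • v ∈ Zn n)
    (hf : (A.l '' {g | H.χ g = 0}).Finite) : ∃ U : Hu Γ, U.χ = H.χ ∧ U.t = H.t ∧ H.D ≤ U.D ∧
      ∀ d ∈ U.D, ∀ v ∈ Zn n, d • v ∈ Zn n :=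
  ⟨⟨H.χ, hhuD n H.χ, H.t, fun _ k => k.1, H.ht, hhu_fin hf _, hhu_fin hf _⟩, rfl, rfl,
    fun d k => ⟨H.hD d k, hΛ d k, hΛ _ (inv_mem k)⟩, fun _ k => k.2.1⟩

variable {p : ℕ} [Fact p.Prime] {M : Md Γ (Zn n) p} {U : Hu Γ} {r : ℕ} {c : ℤ}
  {K : Fin (n + 2) → Set (Γ → Fin n → ℚ)}

theorem Md.ps_smul (k : Γ) (y : U.WL M.E) : M.ps A (k • y) = M.ps A y := funext fun g => by
  simp [ps, lf, mul_smul, add_assoc]

theorem Md.Lb.uniq (hr : 0 < r) (hK : ∀ i (y : Γ → Fin n → ℚ) g k, |U.χ g - U.χ k| ≤ 4 * c →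
    (fun x => y (g * x)) ∈ K i → (fun x => y (k * x)) ∈ K i → U.χ g = U.χ k) :
    ∀ i (y : U.WL M.E) V V', M.Lb A r c K i y V → M.Lb A r c K i y V' → V = V'
  | none, y, _, _, ⟨ζ, rfl, a, b⟩, ⟨ζ', rfl, a', b'⟩ => by
    have p0 := (Fact.out : p.Prime).pos
    have := zn_small (sub_mem a a') (by
      rw [sub_sub_sub_cancel_left]
      linarith [norm_sub_le ((r / p : ℚ) • y.γ⁻¹ • ζ') ((r / p : ℚ) • y.γ⁻¹ • ζ)])
    rw [sub_sub_sub_cancel_left, sub_eq_zero, smul_right_inj (by positivity),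
      smul_left_cancel_iff] at this
    rw [this]
  | some i, y, _, _, ⟨g, rfl, a, b⟩, ⟨g', rfl, a', b'⟩ => by
    rw [hK i.1 _ g g' (by rw [abs_le] at *; omega) b b']

theorem Md.Lb.smul : ∀ i (k : Γ) (y : U.WL M.E) V, M.Lb A r c K i y V →
    M.Lb A r c K i (k • y) (k • V)
  | none, k, y, _, ⟨ζ, rfl, a⟩ => ⟨k • ζ, rfl, by simpa [ps_smul, mul_smul] using a⟩
  | some i, k, y, _, ⟨g, rfl, a⟩ => ⟨g, congrArg Sum.inr (Ch.Lv.ext (show U.χ k +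
      (U.χ y.γ + U.χ g) = U.χ (k * y.γ) + U.χ g by simp [add_assoc])), by simpa [ps_smul] using a⟩

end HHu

end Pool.Agent.Lib.MP_5d3e93_al
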