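import Pool.Agent.Lib.MP_5d3e93_al.K.HDf

/-! Labels for hyperbolic commensurations. -/

open MulAction
open scoped Pointwise

namespace Pool.Agent.Lib.MP_5d3e93_al

universe w

variable {n : ℕ} {Γ : Type w} [Group Γ] [MulAction Γ (Fin n → ℚ)] {A : AA Γ ℚ (Fin n → ℚ)}

theorem Md.ps_rel {p : ℕ} [Fact p.Prime] (M : Md Γ (Zn n) p) {U : Hu Γ}
    (hl : ∀ g, U.χ g = 0 → ∀ v ∈ Zn n, A.l g v ∈ Zn n) {y y' : U.WL M.E}
    (e : y.e = y'.e) {g g' : Γ} {N : ℕ} (h : ∀ v ∈ Zn n, (N : ℚ) •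
      ((y'.w (U.χ y'.γ + U.χ g'))⁻¹ * y.w (U.χ y.γ + U.χ g)) • v ∈ Zn n) :
    (N : ℚ) • (M.ps A y' g' - A.l (g'⁻¹ * y'.γ⁻¹ * y.γ * g) (M.ps A y g) -
      (p : ℚ)⁻¹ • A.l g'⁻¹ ((y'.γ⁻¹ * y.γ) • 0)) ∈ Zn n := by
  convert hl (g'⁻¹ * y'.γ⁻¹ * y'.w (U.χ y'.γ + U.χ g')) (by simp [y'.lv]) _
    (M.key (A := A) y.e h) using 1
  rw [ps, ps, e]
  generalize M.lf y'.e (y'.w _) = z', M.lf y'.e (y.w _) = z
  simp only [map_smul, A.l_mul, A.l_inv]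
  rw [← A.l_mul y'.γ⁻¹, ← A.h y'.γ⁻¹, ← sub_zero (y.γ⁻¹ • z), ← A.h, mul_smul, smul_inv_smul]
  simp only [map_sub]
  module

theorem Hu.nb_pth {U : Hu Γ} {E : Type} {T : Set Γ} {a : ℕ} {c : ℤ} (hc : ∀ g ∈ T, |U.χ g| ≤ c)
    {j : ℕ} (c0 : 0 ≤ c) :
    ∀ {x y : U.WL E}, Pth (Nb T a) j x y → ∀ k, |k - U.χ x.γ| + j * c ≤ a → Ag x y k := by
  induction j with
  | zero => rintro x _ rfl; exact fun _ _ => by simp [Ag]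
  | succ j ih =>
    rintro x y ⟨z, d, e⟩ k f
    have := hc _ d.2.1
    have h1 : |k - U.χ z.γ| ≤ |k - U.χ x.γ| + c := by
      simp only [Ch.mul, Ch.inv, abs_le] at this ⊢
      constructor <;> linarith [le_abs_self (k - U.χ x.γ), neg_abs_le (k - U.χ x.γ)]
    have : 0 ≤ j * c := by positivity
    push_cast at f
    simpa [Ag, mul_assoc] using mul_mem (d.2.2 k (by linarith) (by linarith)) (ih e k (by linarith))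

variable {p : ℕ} [Fact p.Prime] {M : Md Γ (Zn n) p} {U : Hu Γ} {r : ℕ} {c : ℤ}
  {K : Fin (n + 2) → Set (Γ → Fin n → ℚ)}

theorem lab_hyp (U : Hu Γ) (hΛ : ∀ d ∈ U.D, ∀ v ∈ Zn n, d • v ∈ Zn n)
    (hl : ∀ g, U.χ g = 0 → ∀ v ∈ Zn n, A.l g v ∈ Zn n) (hf : (A.l '' {g | U.χ g = 0}).Finite)
    (hy : ∀ g, U.χ g ≠ 0 → ∀ v, A.l g v = v → v = 0) {T : Set Γ} (t0 : T.Finite) (t1 : 1 ∈ T)
    (ρ : ℕ) : ∃ (r : ℕ) (c : ℤ) (K : Fin (n + 2) → Set (Γ → Fin n → ℚ)) (a b : ℕ), 0 < r ∧ 1 ≤ a ∧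
      (∀ i (y : Γ → Fin n → ℚ) g k, |U.χ g - U.χ k| ≤ 4 * c → (fun x => y (g * x)) ∈ K i →
        (fun x => y (k * x)) ∈ K i → U.χ g = U.χ k) ∧
      ∀ (p : ℕ) [Fact p.Prime], b < p → ∀ (M : Md Γ (Zn n) p) (y : U.WL M.E),
        ∃ i V, ∀ y', Pth (Hu.Nb T a) ρ y y' → M.Lb A r c K i y' V := by
  have bd {F : Set Γ} (k : F.Finite) : ∃ c : ℕ, ∀ g ∈ F, |U.χ g| ≤ c := by
    obtain ⟨c, hc⟩ := (k.image fun g => (U.χ g).natAbs).bddAbove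
    exact ⟨c, fun g e => by
      have : (U.χ g).natAbs ≤ c := hc ⟨g, e, rfl⟩
      have := Int.natCast_natAbs (U.χ g)
      omega⟩
  obtain ⟨c, hc⟩ := bd t0
  obtain ⟨c', hc'⟩ := bd (fin_pow t0 ρ)
  obtain ⟨N, n1, n2, n3⟩ := den' A U.t⁻¹
  have n4 (g) (k : g ∈ dc U.D U.t) (v) (e : v ∈ Zn n) : (N : ℚ) • g⁻¹ • v ∈ Zn n := by
    obtain ⟨d, a, d', b, rfl⟩ := k
    have := hΛ _ (inv_mem a) v e
    rw [mul_inv_rev, mul_inv_rev, mul_smul, mul_smul, A.smul_eq, smul_add, ← map_smul,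
      A.smul_eq U.t⁻¹, smul_add]
    exact add_mem (hl _ (by simp [U.hD d' b]) _ (add_mem (n2 _ this) n3))
      (zn_nat (hΛ _ (inv_mem b) 0 (zero_mem _)) N)
  let s := Sy.of A U.ht N n1
  obtain ⟨r, r0, hr⟩ := s.cover U.ht hf hy (4 * c') (by positivity) (fin_pow t0 ρ)
  obtain ⟨η, e0, hη⟩ := s.near ((fin_pow t0 ρ).insert 1)
  obtain ⟨K, Φ, ε, k1, k2, k3, k4⟩ := hr η e0
  obtain ⟨c'', hc''⟩ := bd k1
  obtain ⟨b1, hb1⟩ := ev_small ((fin_pow t0 ρ).prod k1)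
    (fun x => A.l (x.1⁻¹ * x.2)⁻¹ (x.1⁻¹ • (0 : Fin n → ℚ))) k2
  obtain ⟨b2, hb2⟩ := ev_small (fin_pow t0 ρ) (fun x => (r : ℚ) • x⁻¹ • (0 : Fin n → ℚ))
    (ε := 1 / 4) (by positivity)
  refine ⟨r, c', K, c' + c'' + ρ * c + 1, max b1 b2, r0, by omega, k3, fun p hp k M y => ?_⟩
  generalize ha : c' + c'' + ρ * c + 1 = a
  have p0 : (p : ℚ) ≠ 0 := Nat.cast_ne_zero.2 hp.out.ne_zero
  have y2 (y : U.WL M.E) : M.ps A y ∈ s.Y := ⟨fun g d e => by simp [Md.ps, e, A.l_mul],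
    fun g => by
      have := M.ps_rel (A := A) hl (y := y) (g := g) (g' := g * U.t) (N := N) rfl fun v e => by
        simpa [U.ht, add_assoc] using n4 _ (y.up (U.χ y.γ + U.χ g)) v e
      simpa [mul_assoc] using this⟩
  have y3 {y y' : U.WL M.E} (d : Pth (Hu.Nb T a) ρ y y') (g) (e : |U.χ g| ≤ c' + c'') :
      M.ps A y' ((y.γ⁻¹ * y'.γ)⁻¹ * g) - M.ps A y g -
        (p : ℚ)⁻¹ • A.l ((y.γ⁻¹ * y'.γ)⁻¹ * g)⁻¹ ((y.γ⁻¹ * y'.γ)⁻¹ • 0) ∈ Zn n := by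
    have := M.ps_rel (A := A) hl (pth_eq Hu.WL.e (fun _ _ f => f.1) d) (g := g)
      (g' := (y.γ⁻¹ * y'.γ)⁻¹ * g) (N := 1) fun v f => by
        rw [show U.χ y'.γ + U.χ ((y.γ⁻¹ * y'.γ)⁻¹ * g) = U.χ y.γ + U.χ g by simp; ring]
        simpa using hΛ _ (inv_mem (Hu.nb_pth hc (by positivity) d (U.χ y.γ + U.χ g) (by
          rw [← ha]; push_cast; simp; linarith))) v f
    simpa [mul_assoc, A.l_one] using this
  have y4 {y' : U.WL M.E} (d : Pth (Hu.Nb T a) ρ y y') := pth_grp Hu.WL.γ (fun _ _ f => f.2.1) d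
  obtain d | ⟨i, g, d, e⟩ := k4 _ (y2 y)
  · obtain ⟨u, u1, u2⟩ := near_zn (d _ (Set.one_mem_pow t1))
    refine ⟨none, .inl (y.γ • (p / r : ℚ) • ((r : ℚ) • M.ps A y 1 - u)), fun y' e => ?_⟩
    obtain ⟨f1, f2⟩ := hη _ (.inr (y4 e)) r _ (y2 y) u u1 u2 (d _ (y4 e))
    have f3 := zn_nat (y3 e _ ((hc' _ (y4 e)).trans (by omega))) r
    have f4 := hb2 p ((le_max_right _ _).trans_lt k) _ (y4 e)
    have f5 : (r / p : ℚ) • y'.γ⁻¹ • y.γ • (p / r : ℚ) • ((r : ℚ) • M.ps A y 1 - u) =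
        A.l (y.γ⁻¹ * y'.γ)⁻¹ ((r : ℚ) • M.ps A y 1 - u) +
          (p : ℚ)⁻¹ • (r : ℚ) • (y.γ⁻¹ * y'.γ)⁻¹ • 0 := by
      have : (r : ℚ) ≠ 0 := by positivity
      rw [← mul_smul y'.γ⁻¹, A.smul_eq, map_smul, mul_inv_rev, inv_inv]
      generalize (y'.γ⁻¹ * y.γ) • (0 : Fin n → ℚ) = z
      match_scalars <;> field_simp
    refine ⟨_, rfl, ?_, ?_⟩ <;> rw [f5]
    · rw [inv_mul_cancel, inv_one, A.l_one] at f3
      convert add_mem f3 f1 using 1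
      generalize (y.γ⁻¹ * y'.γ)⁻¹ • (0 : Fin n → ℚ) = z
      module
    · exact (norm_add_le _ _).trans_lt (by linarith)
  · obtain ⟨j, f⟩ := ex_ctr d
    refine ⟨some (i, j), .inr ⟨U.χ y.γ + U.χ g⟩, fun y' f' =>
      ⟨(y.γ⁻¹ * y'.γ)⁻¹ * g, by simp; ring, ?_, ?_⟩⟩
    · have := hc' _ (y4 f')
      simp only [Ch.mul, Ch.inv, abs_le] at this f ⊢
      omega
    · simpa only [mul_assoc] using e _ (s.inv _ (y2 y') (y.γ⁻¹ * y'.γ)⁻¹) fun z l => by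
        rw [tor_congr (y3 f' z ((hc'' z l).trans (by omega)))]
        exact (tor_le _).trans_lt (hb1 p ((le_max_left _ _).trans_lt k) (_, z) ⟨y4 f', l⟩)

end Pool.Agent.Lib.MP_5d3e93_al
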