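import Pool.Agent.Lib.MP_5d3e93_al.K.HDf
import Pool.Agent.Lib.MP_5d3e93_al.K.CSw

/-! Induction for free actions on forms, shifts of idempotents, generating sets. -/

open CategoryTheory Limits ZeroObject Filter MulAction HNNExtension
open scoped Pointwise

namespace Pool.Agent.Lib.MP_5d3e93_al

universe w w' v u y y' v' u' v'' u''

open Gr

section HFr
open Classical in
theorem tk_free {n : ℕ} {Γ : Type w} [Group Γ] [MulAction Γ (Fin n → ℚ)] {V : Type*} [AddCommGroup V]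
    {τ : Lat Γ → V} (hτ : Lat.Ses τ) (b : ℕ)
    (k : ∀ (p : ℕ) [Fact p.Prime], b < p → ∃ M : Md Γ (Zn n) p, (∀ a, M.B.Fix a → a = 0) ∧
      (∀ L, Lat.Gr M.E (fun _ => True) L → τ L = 0) ∧
      ∀ L, Lat.Gr (Set M.B.Du) (fun x => ∃ a, a ≠ 0 ∧ M.B.pm a = x) L → τ L = 0) :
    τ (Lat.int Γ) = 0 := by
  refine zero_of_primes _ b fun p c hp a e => ⟨2, 0, ?_⟩
  have := Fact.mk hp
  obtain ⟨M, k1, k2, k3⟩ := k p a
  have := swan hτ M.B k2
    (fun a => M.B.pm a.1) (fun q a => M.B.pm_smul q a.1) (fun a => M.B.pm_neg a.1)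
    (fun L d => k3 L (d.wk fun _ ⟨a, b, c⟩ => ⟨a.1, b, c⟩)) M.B.pm M.B.pm_smul M.B.pm_neg
    (fun L d => k3 L (d.wk fun _ ⟨a, b, _, c⟩ => ⟨a, b, c⟩)) e (f := 0) (by
      have : IsEmpty {a : M.B.Du // a ≠ 0 ∧ M.B.Fix a} := ⟨fun a => a.2.1 (k1 _ a.2.2)⟩
      simp)
  simpa using this

theorem nt_shift {D : Type u} [Category.{v} D] [Preadditive D] (θ : Nt D) {A : D} {K : Type*}
    (F : Finset K) (e : K → (A ⟶ A)) (out : ∀ c, c ∉ F → e c = 0)
    (orth : ∀ c c', c ≠ c' → e c ≫ e c' = 0) (total : ∑ c ∈ F, e c = 𝟙 A) {s : K → K} {x : A ⟶ A}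
    (hx : ∀ c c', c' ≠ s c → e c ≫ x ≫ e c' = 0) {m : ℕ} (hm : pw x m = 0)
    (h : ∀ c, e c = 0 ∨ ∀ k, 0 < k → k < m → s^[k] c ≠ c) : θ.T (𝟙 A - x) := by
  have h0 (f : A ⟶ A) (c) (k : ∀ c', c' ≠ c → f ≫ e c' = 0) : f ≫ e c = f := by
    conv_rhs => rw [← Category.comp_id f, ← total, Preadditive.comp_sum]
    rw [Finset.sum_eq_single c (fun y _ l => k y l) fun l => by rw [out _ l, comp_zero]]
  have idem (c) : e c ≫ e c = e c := h0 _ c fun c' l => orth _ _ l.symm
  have h1 (c) : e c ≫ x ≫ e (s c) = e c ≫ x := by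
    rw [← Category.assoc]
    exact h0 _ _ fun c' l => (Category.assoc ..).trans (hx c c' l)
  have h2 (k : ℕ) : ∀ c, e c ≫ pw x k ≫ e (s^[k] c) = e c ≫ pw x k := by
    induction k with
    | zero => exact fun c => by simp [idem]
    | succ k ih =>
      intro c
      rw [pw_succ, Function.iterate_succ_apply, Category.assoc, ← reassoc_of% h1 c, ih,
        reassoc_of% h1 c]
  have h3 (κ : List K) : ∀ c, lp ((c :: κ).map fun c => e c ≫ x) = 0 ∨
      lp ((c :: κ).map fun c => e c ≫ x) = e c ≫ pw x (κ.length + 1) := by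
    induction κ with
    | nil => exact fun c => .inr (by simp [lp, pw_succ])
    | cons d κ ih =>
      intro c
      rw [List.map_cons, lp]
      obtain l | l := ih d <;> rw [l]
      · simp
      · by_cases k : s c = d
        · exact .inr (by rw [← k, Category.assoc, reassoc_of% h1 c]; rfl)
        · exact .inl (by rw [← h1 c]; simp [reassoc_of% orth _ _ k])
  have h4 (k) (a : m ≤ k) : pw x k = 0 := by
    obtain ⟨k, rfl⟩ := Nat.exists_eq_add_of_le a
    rw [pw_add, hm, zero_comp]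
  rcases Nat.eq_zero_or_pos m with rfl | m0
  · rw [show 𝟙 A - x = 𝟙 A by rw [← Category.id_comp x, show 𝟙 A = 0 from hm]; simp]
    exact θ.id A
  refine θ.lazard (q := fun c => e c ≫ x) (m := m) ?_ ?_ m 1 le_rfl (by omega) x ?_
  · rintro _ ⟨_ | ⟨c, κ⟩, hκ, rfl⟩
    · simp at hκ; omega
    · exact (h3 κ c).elim id fun l => by rw [l, h4 (κ.length + 1) hκ, comp_zero]
  · rintro _ ⟨_ | ⟨c, κ⟩, hκ, rfl⟩
    · simp at hκ
    obtain l | l := h3 κ c <;> rw [l]
    · simpa using θ.id A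
    by_cases k : κ.length + 1 < m
    · obtain k' | k' := h c
      · simpa [k'] using θ.id A
      · rw [← h2, ← Category.assoc]
        refine θ.cyc _ _ ?_
        rw [reassoc_of% orth _ _ (k' _ (by omega) k)]
        simpa using θ.id A
    · simpa [h4 _ (not_lt.1 k)] using θ.id A
  · have := sum_mem (S := AddSubmonoid.closure (Wd (fun τ => e τ ≫ x) 1)) (t := F)
      fun τ _ => AddSubmonoid.subset_closure (Wd.one _ τ)
    rwa [← Preadditive.sum_comp, total, Category.id_comp] at this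

/-- A slowly growing radius. -/
theorem ex_slow (b : ℕ → ℕ) : ∃ R : ℕ → ℕ, Tendsto R atTop atTop ∧ ∀ᶠ p in atTop, b (R p) < p := by
  classical
  refine ⟨fun p => Nat.findGreatest (fun r => b r < p) p, tendsto_atTop.2 fun r => ?_, ?_⟩
  · exact (eventually_ge_atTop (r + b r + 1)).mono fun p h =>
      Nat.le_findGreatest (P := fun r => b r < p) (by omega) (by omega)
  · exact (eventually_gt_atTop (b 0)).mono fun p h =>
      Nat.findGreatest_spec (P := fun r => b r < p) (Nat.zero_le p) h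

/-- Symmetric finite generating sets; every element is a word. -/
theorem ex_gen (Γ : Type w) [Group Γ] [Group.FG Γ] : ∃ T : Set Γ, T.Finite ∧ 1 ∈ T ∧
    (∀ g ∈ T, g⁻¹ ∈ T) ∧ ∀ g, ∃ r : ℕ, g ∈ T ^ r := by
  obtain ⟨F, a, b⟩ := Group.fg_iff.1 ‹Group.FG Γ›
  refine ⟨insert 1 (F ∪ F⁻¹), (b.union b.inv).insert 1, .inl rfl,
    fun g c => by simpa [or_comm] using c, fun g => ?_⟩
  have : g ∈ Subgroup.closure F := a ▸ trivial
  induction this using Subgroup.closure_induction'' with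
  | mem g c => exact ⟨1, by rw [pow_one]; exact .inr (.inl c)⟩
  | inv_mem g c => exact ⟨1, by rw [pow_one]; exact .inr (.inr (Set.inv_mem_inv.2 c))⟩
  | one => exact ⟨0, by simp⟩
  | mul g k _ _ c d =>
    obtain ⟨r, c⟩ := c
    obtain ⟨s, d⟩ := d
    exact ⟨r + s, by rw [pow_add]; exact Set.mul_mem_mul c d⟩

theorem Hn.fg {Γ : Type w} [Group Γ] {D : Subgroup Γ} (h : D.FG) (g : Γ) : Group.FG (Hn D g) := by
  obtain ⟨F, a, b⟩ := Group.fg_iff.1 ((Group.fg_iff_subgroup_fg D).2 h)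
  refine Group.fg_iff.2 ⟨insert t (of '' F), top_le_iff.1 ?_, (b.image _).insert _⟩
  rw [← Bs.gen (pE D g), Subgroup.closure_le]
  rintro _ (rfl | ⟨d, rfl⟩)
  · exact Subgroup.subset_closure (.inl rfl)
  · refine Subgroup.closure_mono (Set.subset_insert _ _) ?_
    rw [← MonoidHom.map_closure, a]
    exact ⟨d, trivial, rfl⟩
end HFr

end Pool.Agent.Lib.MP_5d3e93_al
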