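import Pool.Agent.Lib.MP_5d3e93_al.K.HCl
import Pool.Agent.Lib.MP_5d3e93_al.K.HFr

/-! Nil classes are killed by lattices graded by sets without short cycles. -/

open CategoryTheory Limits ZeroObject Filter MulAction HNNExtension
open scoped Pointwise

namespace Pool.Agent.Lib.MP_5d3e93_al

universe w w' v u y y' v' u' v'' u''

open Gr

namespace GC

section
variable {G : Type w} [Group G] {C : Type u} [Category.{v} C] [Preadditive C] {S : GC G C}
  {K : Type*} {A B : C} {L : S.Lo K A} {M : S.Lo K B} {f : A ⟶ B}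

theorem hNl_off {s : K → K} (h : L.Rg M (fun c _ c' => c' = s c) f) {c c' : K} (k : c' ≠ s c) :
    L.e c ≫ f ≫ M.e c' = 0 := S.ext0 _ fun g => h c c' g k

theorem hNl_comm (h : L.Rg M (fun c _ c' => c' = id c) f) (c : K) : L.e c ≫ f = f ≫ M.e c := by
  have a : L.e c ≫ f ≫ M.e c = L.e c ≫ f := by
    rw [← M.sum_r (L.e c ≫ f), Finset.sum_eq_single c, Category.assoc]
    · exact fun y _ k => by rw [Category.assoc]; exact hNl_off h k
    · exact fun k => by rw [M.out _ k, Limits.comp_zero]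
  rw [← a]
  refine L.ext_l fun y => ?_
  by_cases k : y = c
  · rw [k, reassoc_of% L.idem c]
  · rw [reassoc_of% L.orth _ _ k, zero_comp, hNl_off h (Ne.symm k)]

end

section FH
variable {Γ : Type w} [Group Γ] {C : Type u} [Category.{v} C] [Preadditive C] [HasZeroObject C]
  {S : GC (Γ × Zi) C}

theorem tk_nil (χ : Ch Γ) {t : Γ} (ht : χ t = 1) {X : Am.{v', u'}} {Y : Type y}
    {P : Rl (Γ × Zi) Y} (hP : ∀ a g b, P.r a g b → χ g.1 = 0) (F : Fn X (S.LQ P))
    (x : S.und F ⟶ S.und F) (hx : ∀ A, S.Sup {g | χ g.1 = 1} (NatTrans.app x A).1) {m : ℕ}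
    (hm : pw x m = 0) {Z : Type} [Fintype Z] [MulAction Γ Z] {Q : Z → Prop}
    (h : ∀ y, Q y → ∀ g, 0 < χ g → χ g < m → g • y ≠ y) (n : ℕ) (c : Am.Kn n X X.bdd)
    (L : Lat Γ) (a : Lat.Gr Z Q L) : S.tk (.fst Γ Zi) (n + 1) (ncl x hm n c) L = 0 := by
  classical
  let cl : ℤ → Z → Set Z := fun k y => {z | ∃ g, χ g = k ∧ z = g • y}
  let s : Set Z → Set Z := fun c => {z | t • z ∈ c}
  have h1 (k y) : s (cl k y) = cl (k - 1) y := Set.ext fun z =>
    ⟨fun ⟨g, a, b⟩ => ⟨t⁻¹ * g, by simp [a, ht]; ring, by rw [mul_smul, ← b, inv_smul_smul]⟩,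
      fun ⟨g, a, b⟩ => ⟨t * g, by simp [a, ht], by rw [mul_smul, b]⟩⟩
  have h2 (k : ℕ) (y) : s^[k] (cl 0 y) = cl (-k) y := by
    induction k with
    | zero => rfl
    | succ k ih => rw [Function.iterate_succ_apply', ih, h1]; congr 1; push_cast; ring
  have h3 (g : Γ) (y) : cl (0 - χ g) (g • y) = cl 0 y := Set.ext fun z =>
    ⟨fun ⟨k, c, d⟩ => ⟨k * g, by simp [c], by simp [d, mul_smul]⟩,
      fun ⟨k, c, d⟩ => ⟨k * g⁻¹, by simp [c], by simp [d, mul_smul]⟩⟩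
  let T := S.tn (.fst Γ Zi) L
  let Λ (A : C) : S.Lo (Set Z) (T.obj A) := (S.tnL (.fst Γ Zi) a A).map (cl 0)
  have cm {M N : S.LQ P} (f : M ⟶ N) (c) :
      (Λ M.A).e c ≫ T.map f.1 = T.map f.1 ≫ (Λ N.A).e c := by
    refine hNl_comm ((tnL_rg a (T := {g : Γ × Zi | χ g.1 = 0})
      ((LQ.hom_rg f).sup fun a g b k => hP a g b k)).map (tnL_on a _) (tnL_on a _) ?_) c
    rintro _ g y - - ⟨b, rfl⟩
    have := h3 g.1 y
    rw [show χ g.1 = 0 from b, sub_zero] at this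
    exact this.symm
  have cp (M : S.LQ P) (c) : (Λ M.A).e c ≫ T.map M.p = T.map M.p ≫ (Λ M.A).e c := cm (𝟙 M) c
  have pp (M : S.LQ P) : T.map M.p ≫ T.map M.p = T.map M.p := by rw [← T.map_comp, M.idem]
  let d (M : S.LQ P) (c : Set Z) : T.obj M.A ⟶ T.obj M.A := (Λ M.A).e c ≫ T.map M.p
  have d1 (M c) : T.map M.p ≫ d M c = d M c := by
    simp only [d]; rw [← reassoc_of% cp, pp]
  have d2 (M c) : d M c ≫ T.map M.p = d M c := by
    simp only [d]; rw [Category.assoc, pp]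
  have d3 {M N : S.LQ P} (f : M ⟶ N) (c) : T.map f.1 ≫ d N c = d M c ≫ T.map f.1 := by
    simp only [d]
    rw [← reassoc_of% cm, Category.assoc, ← T.map_comp, ← T.map_comp, LQ.comp_p, LQ.p_comp]
  have d4 (M c c') (l : c ≠ c') : d M c ≫ d M c' = 0 := by
    simp only [d]
    rw [Category.assoc, ← reassoc_of% cp, reassoc_of% (Λ _).orth _ _ l, zero_comp]
  have d5 (M) : ∑ c ∈ (Λ M.A).s, d M c = T.map M.p := by
    simp only [d]
    rw [← Preadditive.sum_comp, (Λ _).total, Category.id_comp]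
  have d6 (M c c') (l : c' ≠ s c) (ξ : M.A ⟶ M.A) (q : M.p ≫ ξ = ξ)
      (r : S.Sup {g | χ g.1 = 1} ξ) : d M c ≫ T.map ξ ≫ d M c' = 0 := by
    have z : (Λ M.A).e c ≫ T.map ξ ≫ (Λ M.A).e c' = 0 := by
      refine hNl_off (s := s) ((tnL_rg a r).map (tnL_on a _) (tnL_on a _) ?_) l
      rintro _ g y - - ⟨b, rfl⟩
      rw [h1, ← show χ g.1 = 1 from b]
      exact (h3 g.1 y).symm
    simp only [d]
    rw [Category.assoc, ← T.map_comp_assoc, q, reassoc_of% z, zero_comp]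
  let U : Fn X (S.LQ (Rl.pt ⊤)) := (S.und F).post (LQ.lift S T)
  let e (c : Set Z) : U ⟶ U :=
    { app A := LQ.homMk (d (F.F.obj A) c) (d1 _ c) (d2 _ c) fun _ _ _ h => (h trivial).elim
      naturality A A' f := LQ.hom_ext (d3 (F.F.map f) c) }
  have k := Fn.pw_post (LQ.lift S T) hm
  rw [tk_ncl _ L hm k, ncl_of_tr k, AddMonoidHom.zero_apply]
  have z (c) (l : ∀ A, (Λ A).e c = 0) : e c = 0 := NatTrans.ext (funext fun A => LQ.hom_ext
    (show (Λ (F.F.obj A).A).e c ≫ T.map (F.F.obj A).p = 0 by rw [l, zero_comp]))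
  refine nt_shift (Fn.nt.{v', u', v, u} X _) (Finset.univ.image (cl 0)) e
    (fun c l => z c fun A => (Λ A).out c ?_)
    (fun c c' l => NatTrans.ext (funext fun A => LQ.hom_ext (d4 _ c c' l)))
    (NatTrans.ext (funext fun A => LQ.hom_ext ((congrArg Subtype.val
      (NatTrans.app_sum _ A e)).trans ((LQ.sum_f _ _).trans (d5 (F.F.obj A)))))) (s := s)
    (fun c c' l => NatTrans.ext (funext fun A => LQ.hom_ext
      (d6 (F.F.obj A) c c' l _ (LQ.p_comp (NatTrans.app x A)) (hx A)))) k fun c => ?_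
  · exact fun q => l (by simpa using Finset.mem_image.1 q |>.imp fun _ r => r.2)
  · refine or_iff_not_imp_right.2 fun l => z c fun A =>
      (tnL_on a A).map (P' := fun c => ∀ k, 0 < k → k < m → s^[k] c ≠ c) ?_ c l
    intro y q j j1 j2 r
    rw [h2] at r
    obtain ⟨g, b, d⟩ : y ∈ cl (-j) y := r ▸ ⟨1, χ.one, (one_smul _ _).symm⟩
    exact h y q g⁻¹ (by simp [b, j1]) (by simp [b, j2]) (by rw [inv_smul_eq_iff, ← d])

end FH

end GC

end Pool.Agent.Lib.MP_5d3e93_al
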