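import Pool.Agent.Lib.MP_5d3e93_al.K.HAs
import Pool.Agent.Lib.MP_5d3e93_al.K.HHy
import Pool.Agent.Lib.MP_5d3e93_al.K.HHu
import Pool.Agent.Lib.MP_5d3e93_al.K.HNl
import Pool.Agent.Lib.MP_5d3e93_al.K.CLc

/-! Nil terms of hyperbolic commensurations in all degrees. -/

open CategoryTheory Limits ZeroObject Filter MulAction HNNExtension
open scoped Pointwise

namespace Pool.Agent.Lib.MP_5d3e93_al

universe w w' v u y y' v' u' v'' u''

open Gr

namespace GC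

variable {Γ : Type w} [Group Γ] {C : Type u} [Category.{v} C] [Preadditive C] [HasZeroObject C]
  {S : GC (Γ × Zi) C}

theorem kG3 {n : ℕ} [MulAction Γ (Fin n → ℚ)] {A : AA Γ ℚ (Fin n → ℚ)} {H : Ht Γ} (ok : S.Ok)
    [Group.FG Γ] (hg : Subgroup.closure (insert H.t H.D) = ⊤)
    (hΛ : ∀ d ∈ H.D, ∀ v ∈ Zn n, d • v ∈ Zn n) (hN : ∀ g, H.χ g = 0 → ∃ d ∈ H.D, A.l d = A.l g)
    (hf : (A.l '' H.D).Finite) (hy : ∀ g, H.χ g ≠ 0 → ∀ v, A.l g v = v → v = 0)
    (hW : ∀ ζ : Fin n → ℚ, ∀ K ≤ stabilizer Γ ζ, S.VK K)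
    (hW0 : ∀ K : Subgroup Γ, (∀ g ∈ K, H.χ g = 0) → S.VK K) :
    S.GS (H.D.comap (.fst Γ Zi)) {g | g.1 ∈ dc H.D H.t} := by
  classical
  intro m X _ F x hx hm
  have hx' (B) : S.Sup {g | g.1 ∈ dc H.D H.t} (NatTrans.app x B).1 := (hx B).sup fun _ _ _ e => e
  refine tr_of_ncl hm fun k c => ?_
  have hd (d) (k : d ∈ H.D) (v) (e : v ∈ Zn n) : A.l d v ∈ Zn n := by
    rw [← sub_zero v, ← A.h]
    exact sub_mem (hΛ d k v e) (hΛ d k 0 (zero_mem _))
  have hf' : (A.l '' {g | H.χ g = 0}).Finite := hf.subset (by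
    rintro _ ⟨g, k, rfl⟩
    exact hN g k)
  obtain ⟨U, u1, u2, u3, u4⟩ := ex_hu H hΛ hf'
  obtain ⟨T, t0, t1, t2, t3⟩ := ex_gen Γ
  choose r c' K a b r0 a1 k3 k4 using lab_hyp (A := A) U u4 (fun g k => by
    obtain ⟨d, e, f⟩ := hN g (u1 ▸ k)
    exact f ▸ hd d e) (u1 ▸ hf') (u1 ▸ hy) t0 t1
  obtain ⟨R, hR, hR'⟩ := ex_slow b
  obtain ⟨N1, a1', a2, a3⟩ := den' A H.t
  obtain ⟨N2, c1, c2, c3⟩ := den' A H.t⁻¹
  have co {p N : ℕ} (hp : p.Prime) (a : 0 < N) (b : N < p) :=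
    (Nat.coprime_of_lt_prime a.ne' b hp).symm
  let J := {p : ℕ // p.Prime ∧ N1 + N2 < p}
  have fp (j : J) : Fact j.1.Prime := ⟨j.2.1⟩
  have ne (j : J) : Nonempty (Md Γ (Zn n) j.1) := Md.nonempty A zn_fg fun g => by
    have b := j.2.2
    have : g ∈ Subgroup.closure (insert H.t H.D) := hg ▸ trivial
    have d0 (d) (k : d ∈ H.D) := loc_inv (A := A) (g := d) (Nat.coprime_one_left j.1)
      (by simpa using hd d k) (by simpa using hΛ d k 0 (zero_mem _))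
    induction this using Subgroup.closure_induction'' with
    | mem g e => exact e.elim (· ▸ loc_inv (co j.2.1 a1' (by omega)) a2 a3) (d0 g)
    | inv_mem g e =>
      exact e.elim (· ▸ loc_inv (co j.2.1 c1 (by omega)) c2 c3) fun e => d0 _ (inv_mem e)
    | one => simp
    | mul g k _ _ e f => exact fun v d => mul_smul g k v ▸ e _ (f v d)
  let M (j : J) : Md Γ (Zn n) j.1 := (ne j).some
  have tv : Tendsto (Subtype.val : J → ℕ) (comap Subtype.val atTop) atTop := tendsto_comap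
  have z := ev_lab ok (Y := fun j : J => U.WL (M j).E) (I := fun _ => (Fin n → ℚ) ⊕ U.χ.Lv)
    (ρ := fun j => Hu.Nb T (a (R j))) (fun _ => Hu.Nb.refl t1) (fun _ => Hu.Nb.symm t2)
    (fun _ => Hu.Nb.smul) (fun j => (M j).Lb A (r (R j)) (c' (R j)) (K (R j)))
    (fun j => Md.Lb.uniq (r0 _) (k3 _)) (fun j => Md.Lb.smul) (α := fun _ _ => True) tv
    (fun R' => by
      filter_upwards [tv.eventually hR', (hR.comp tv).eventually_ge_atTop R'] with j e f y _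
      obtain ⟨i, V, g⟩ := k4 (R j) j e (M j) y
      exact ⟨i, V, fun y' d => g y' (GC.Pth.succ (Hu.Nb.refl t1) f d)⟩)
    (.of_forall fun _ => by
      rintro (ζ | l) V d
      · exact hW ζ V fun g e => Sum.inl_injective (d e)
      · exact hW0 V fun g e => by
          simpa [u1] using show U.χ g + l.k = l.k from congrArg Ch.Lv.k (Sum.inr_injective (d e)))
  obtain ⟨b0, hb0⟩ := eventually_atTop.1 (eventually_comap.1 (tk_win U t1 t3 _ (fun j => a1 _) z u3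
    (u2 ▸ H.fr) (fun _ _ _ e => e) F x (u2 ▸ hx') hm k c))
  obtain ⟨F', f1, -, f3⟩ := reps H.ht hf' (2 * m + 2)
  choose! N n1 n2 using fun (g : Γ) (k : H.χ g ≠ 0) => ex_mul'
    (fun _ : Unit => A.l g - (1 : ℚ) • LinearMap.id) zn_fg zn_span (by
      rw [iSup_const, LinearMap.range_eq_top, ← LinearMap.injective_iff_surjective,
        ← LinearMap.ker_eq_bot, LinearMap.ker_eq_bot']
      exact fun v e => hy g k v (by simpa [sub_eq_zero] using e))
  obtain ⟨b', hb'⟩ := (f1.image N).bddAbove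
  rw [← tk_int (π := .fst Γ Zi) (k + 1) (ncl x hm k c)]
  refine tk_free (n := n) (tk_ses _ _) (b0 + b' + N1 + N2) fun p hp l => ?_
  let j : J := ⟨p, hp.out, by omega⟩
  have fr (g) (a : (M j).B.Du) (e : H.χ g ≠ 0) (e' : |H.χ g| ≤ m + 1)
      (f : g • a = a ∨ g • a = -a) : a = 0 := by
    obtain ⟨g', d1, d2, d3⟩ := f3 (g * g)⁻¹ (by rw [abs_le] at *; simp; omega)
    have d4 : H.χ g' ≠ 0 := by simp [d2]; omega
    refine (M j).du_zero (fun _ : Unit => g') (fun _ => 1) a (fun _ => .inl ⟨rfl, ?_⟩)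
      (co (p := p) hp.out (n1 g' d4) (by have : _ ≤ b' := hb' ⟨g', d1, rfl⟩; omega)) (n2 g' d4)
    refine Eq.trans (DFunLike.ext _ ((g * g) • a) fun x => by
      rw [AA.du_smul, AA.du_smul, inv_inv, (M j).congr d3]) ?_
    rcases f with f | f <;> simp [mul_smul, f, AA.du_neg]
  refine ⟨M j, fun a f => fr H.t a (by simp [H.ht]) (by simp [H.ht]) (f _),
    hb0 p (by omega) j rfl, fun L a => tk_nil H.χ H.ht (fun _ g _ e => H.hD _ e) F x
      (fun B => (hx' B).mono fun g => H.chi) hm ?_ k c L a⟩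
  rintro _ ⟨l, l0, rfl⟩ g c c' e
  exact l0 (fr g l c.ne' (by rw [abs_le]; omega) ((M j).B.pm_fix e))

end GC

end Pool.Agent.Lib.MP_5d3e93_al
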