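import Pool.Agent.Lib.MP_5d3e93_al.K.HAm
import Pool.Agent.Lib.MP_5d3e93_al.K.HG3

/-! Actions on trees with small or crystallographic elliptic subgroups, all degrees. -/

open CategoryTheory Limits MulAction HNNExtension
open scoped Pointwise

namespace Pool.Agent.Lib.MP_5d3e93_al

universe w w' v u

variable {C : Type u} [Category.{v} C] [Preadditive C] [HasBinaryBiproducts C] [HasZeroObject C]
  {G : Type w'} [Group G] {ρ : Act G C} {Γ : Type w} [Group Γ] {s : Cl.{w}} {n : ℕ} {R : AR Γ n}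

theorem kAA (h0 : K0Zero C) (hI : IK ρ s) (hn : 0 < n) (h : OT Γ (TF s R)) : AK ρ Γ := fun q => by
  refine kTR h (fun D e => ?_) (fun D => (R.l '' D).ncard) fun D e g f => ?_ <;>
    obtain a | a := e 1 D (by simp)
  · exact ak_small hI a (q.comp D.subtype)
  · exact ak_cr h0 hI hn h a.1 (q.comp D.subtype)
  · exact .inl (kd_small hI f a q)
  refine or_iff_not_imp_right.2 fun b => ?_
  have c : R.l '' D ⊆ R.l '' cj D g := by_contra fun c => b (Set.ncard_lt_ncard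
    ⟨Set.image_mono fun x k => (mem_cj.1 k).1, c⟩ a.1)
  have c1 : Set.MapsTo (fun T => R.l g⁻¹ * T * R.l g) (R.l '' D) (R.l '' D) := fun T k => by
    obtain ⟨x, l, rfl⟩ := c k
    exact ⟨_, (mem_cj.1 l).2, by simp⟩
  have c2 := ((a.1.injOn_iff_bijOn_of_mapsTo c1).1 fun T _ T' _ k => by
    simpa [← mul_assoc, ← map_mul, mul_assoc _ (R.l g)] using
      congrArg (fun T => R.l g * T * R.l g⁻¹) k).surjOn
  obtain ⟨F, f1, f2, f3⟩ := a.1.exists_subset_finite_image_eq subset_rfl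
  refine kd_fg f f2 f1 fun D' d1 d2 d3 => ?_
  have t := Hn.tf e d1 g
  obtain a' | a' := e 1 D' (by simpa)
  · exact kd_small hI (Bs.fr _) (s.inj (MonoidHom.ofInjective (of_injective _)).symm.toMonoidHom
      (MulEquiv.injective _) a') (q.comp (jj D' g))
  have m {T} (k : T ∈ R.l '' D) : ∃ x ∈ Bs.E (pE D' g), (R.comap (jj D' g)).l x = T := by
    obtain ⟨x, l, rfl⟩ := f3.ge k
    exact ⟨_, ⟨⟨x, d3 l⟩, rfl⟩, congrArg R.l (jj_of _ _ _)⟩
  have a2 : (R.comap (jj D' g)).Cr (Bs.E _) := .comap (by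
    convert a'
    ext x
    simp [Bs.E])
  have := (Group.fg_iff_subgroup_fg D').2 d2
  obtain ⟨n', b', R', π, g1, g2, g3⟩ := (R.comap (jj D' g)).norm hn (U := Bs.E _)
    ((Group.fg_iff_subgroup_fg _).1 (Group.fg_range _)) a2.1 (top_le_iff.1 (a2.2.ge.trans
      (Submodule.span_mono (Set.image_mono fun _ k => k.1))))
  have g4 (x) (k : Bs.χ _ x = 0) : ∃ d ∈ Bs.E _, R'.l d = R'.l x :=
    ((R.comap (jj D' g)).hN (Bs.H _) (Bs.gen _) (by
      rintro _ ⟨y, rfl⟩
      simpa [AR.comap, Bs.H] using m (c1 ⟨_, d1 y.2, rfl⟩)) (by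
      rintro _ ⟨y, rfl⟩
      obtain ⟨T, k, l⟩ := c2 ⟨_, d1 y.2, rfl⟩
      simpa [AR.comap, Bs.H, ← l, ← mul_assoc, ← map_mul R.l, mul_assoc _ (R.l g)] using m k)
      x k).imp fun d l => ⟨l.1, g1.congr l.2⟩
  have g5 := (g1.fin a2.1).1
  have g6 : (R'.l '' {x | Bs.χ _ x = 0}).Finite := g5.subset (Set.forall_mem_image.2 g4)
  have t' := t.mono fun U k => show TF s R' U from k.1.imp_right (AR.Cr.quot g1)
  obtain k | k := g2.dich _ (Bs.χ_t _) g6
  · exact kd_of_kz (kQQ h0 hI _ _ R' b' ⟨by simpa using k, Nat.lt_succ_self _⟩ t'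
      (q.comp (jj D' g))) _ _
  · let _ := R'.act
    have := Hn.fg d2 g
    exact GC.kG3 (H := Bs.H _) (A := R'.aa) (S := SZ (ρ.comap (q.comp (jj D' g)))) (ok h0) (Bs.gen _)
      g3 g4 g5 k (fun ζ H l => (ak_fix hI b' (t'.mono fun U g => ⟨g, trivial⟩) fun U g _ u g' o => by
        simpa [o] using show R'.l u ζ + R'.c u = ζ from l (g g')).sub _) fun K l =>
          (ak_cr h0 hI b' t' (g6.subset (Set.image_mono l))).sub _

end Pool.Agent.Lib.MP_5d3e93_al
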