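import Pool.Agent.Lib.MP_5d3e93_al.K.HDf
import Pool.Agent.Lib.MP_5d3e93_al.K.Union

/-! Directed unions of control relations with a condition on the objects. -/

open CategoryTheory Limits ZeroObject Filter MulAction HNNExtension
open scoped Pointwise

namespace Pool.Agent.Lib.MP_5d3e93_al

universe w w' v u y y' v' u' v'' u''

open Gr

namespace GC

open Lo

section Desc
variable {G : Type w} [Group G] {C : Type u} [Category.{v} C] [Preadditive C] [HasZeroObject C]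
  {S : GC G C}

variable (S) in
/-- A condition on endomorphisms that is closed under sums. -/
structure HunN where
  N : ∀ A : C, (A ⟶ A) → Prop
  n0 : ∀ A, N A 0
  n2 : ∀ A A' x x', N A x → N A' x' → N (S.sum A A') (S.blk x 0 0 x')

namespace Up

variable {Y : Type w} {P : Rl G Y} {X : Am.{v, max u w}} {F : Fn X (S.LQ P)}
  {x : S.und F ⟶ S.und F} {B : Y → G → Y → Prop} {m : ℕ}

theorem hun_xm (s t : Up x B) : (bic s t).pt.xm = S.blk s.xm 0 0 t.xm := by
  have key (c : (F.F.obj (s.A ⊞ t.A)).A ⟶ S.sum s.M.A t.M.A)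
      (a : (F.F.map biprod.inl).1 ≫ c = s.e.hom.1 ≫ s.M.p ≫ S.inl _ _)
      (b : (F.F.map biprod.inr).1 ≫ c = t.e.hom.1 ≫ t.M.p ≫ S.inr _ _) :
      ((S.fst _ _ ≫ s.M.p) ≫ s.e.inv.1 ≫ (F.F.map biprod.inl).1 +
        (S.snd _ _ ≫ t.M.p) ≫ t.e.inv.1 ≫ (F.F.map biprod.inr).1) ≫ unA x (s.A ⊞ t.A) ≫ c =
      S.blk s.xm 0 0 t.xm := by
    rw [Preadditive.add_comp]
    simp only [Category.assoc, unA_nat_assoc, a, b]
    simp [xm, blk]
  exact key _ (congrArg (·.1) (inl_sum s t)) (congrArg (·.1) (inr_sum s t))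

theorem hun_pw (s : Up x B) (h : pw x m = 0) : pw s.xm (m + 1) = 0 := by
  have a : ∀ k, s.e.hom.1 ≫ pw s.xm k = unA (pw x k) s.A ≫ s.e.hom.1 := fun k => by
    induction k with
    | zero => exact (Category.comp_id _).trans (LQ.p_comp s.e.hom).symm
    | succ k ih =>
      rw [pw_succ, e_xm_assoc, ih, ← Category.assoc]
      rfl
  have b : unA (0 : S.und F ⟶ S.und F) s.A = 0 := rfl
  rw [pw_succ]
  nth_rw 1 [xm]
  simp only [Category.assoc, a, h, b, zero_comp, comp_zero]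

variable (x B) (Q : Rl G Y) (B' : Y → G → Y → Prop) (N : S.HunN)

/-- The models of type `Q` on which the endomorphism has type `B'` and satisfies `N`. -/
noncomputable def sn : Su (Up x B) where
  ob s := (st x B Q B').ob s ∧ N.N _ s.xm
  mor := (st x B Q B').mor
  id s h := (st x B Q B').id s h.1
  comp := (st x B Q B').comp
  zero := by
    obtain ⟨Z, h, k⟩ := (st x B Q B').zero
    refine ⟨Z, h, k, ?_⟩
    rw [← p_xm, p_zero h, zero_comp]
    exact N.n0 _
  sum s t h k := by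
    have a : (md x B).map (bic s t).fst = (s.M.bicone t.M).fst := by
      change (sumIso s t).inv ≫ F.F.map biprod.fst ≫ s.e.hom = _
      simp [sumIso, ← F.F.map_comp_assoc]
    have b : (md x B).map (bic s t).snd = (s.M.bicone t.M).snd := by
      change (sumIso s t).inv ≫ F.F.map biprod.snd ≫ t.e.hom = _
      simp [sumIso, ← F.F.map_comp_assoc]
    have c : (md x B).map (bic s t).inl = (s.M.bicone t.M).inl :=
      (Iso.inv_comp_eq _).2 (inl_sum s t)
    have d : (md x B).map (bic s t).inr = (s.M.bicone t.M).inr :=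
      (Iso.inv_comp_eq _).2 (inr_sum s t)
    refine ⟨bic s t, ⟨⟨(LQ.sum (P := Q) ⟨_, _, _, s.M.idem, h.1.1⟩ ⟨_, _, _, t.M.idem, k.1.1⟩).rg,
      sum_rg s t h.1.2 k.1.2⟩, ?_⟩, ?_, ?_, ?_, ?_, biprod.total⟩
    · rw [hun_xm]
      exact N.n2 _ _ _ _ h.2 k.2
    · exact (congrArg (· ∈ (S.unSu P Q).mor _ _) a).mpr (rg_fst.dg_comp h.1.1)
    · exact (congrArg (· ∈ (S.unSu P Q).mor _ _) b).mpr (rg_snd.dg_comp k.1.1)
    · exact (congrArg (· ∈ (S.unSu P Q).mor _ _) c).mpr (Rg.comp_dg h.1.1 rg_inl)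
    · exact (congrArg (· ∈ (S.unSu P Q).mor _ _) d).mpr (Rg.comp_dg k.1.1 rg_inr)

/-- The model as a functor of stages. -/
def snF : (sn x B Q B' N).Cat ⥤ (S.unSu P Q).Cat where
  obj s := ⟨s.X.M, s.ob.1.1⟩
  map f := ⟨(md x B).map f.1, f.2⟩
  map_id _ := Subtype.ext ((md x B).map_id _)
  map_comp _ _ := Subtype.ext ((md x B).map_comp _ _)

instance : (snF x B Q B' N).Additive := ⟨Subtype.ext (md x B).map_add⟩

/-- The trivial complexes of a stage. -/
def snT : ObjectProperty (Kh (sn x B Q B' N).Cat) :=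
  genK ⊤ ⊓ (X.T.inverseImage (((sn x B Q B' N).ι ⋙ pr x B).mapHomotopyCategory _) ⊓
    Zr.inverseImage ((snF x B Q B' N).mapHomotopyCategory _))

instance : Tg (snT x B Q B' N) := inferInstanceAs (Tg (_ ⊓ _))

/-- The source of a stage. -/
noncomputable def snX : Am.{v, max u w} := (src x B).sub (sn x B Q B' N) (snT x B Q B' N)

/-- The map of a stage to the source. -/
noncomputable def snm : Am.Map (snX x B Q B' N) X :=
  ((src x B).subι (sn x B Q B' N) (snT x B Q B' N) fun _ h => h.2.1).comp (prm x B)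

/-- The functor of a stage. -/
noncomputable def snG : Fn (snX x B Q B' N) (S.LQ Q) :=
  Fn.mk'.{v, max u w, v, max u w} (snF x B Q B' N ⋙ S.unTo P Q)
    (k := inferInstanceAs (snF x B Q B' N ⋙ S.unTo P Q).Additive) fun _ h =>
      ((S.unTo P Q).mapHomotopyCategory _).map_isZero h.2.2

/-- The endomorphism of a stage. -/
noncomputable def snx : S.und (snG x B Q B' N) ⟶ S.und (snG x B Q B' N) where
  app s := LQ.homMk s.X.xm (p_xm s.X) (xm_p s.X) fun _ _ _ h => (h trivial).elim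
  naturality _ _ f := LQ.hom_ext (xm_nat f.1)

/-- The comparison of the underlying functors. -/
noncomputable def snE : (S.und F).pre (snm x B Q B' N) ≅ S.und (snG x B Q B' N) :=
  let e := Functor.isoWhiskerRight (Functor.isoWhiskerLeft (sn x B Q B' N).ι (mdIso x B))
    (LQ.U S P)
  ⟨e.hom, e.inv, e.hom_inv_id, e.inv_hom_id⟩

/-- The restricted endomorphism. -/
noncomputable def snw (t : S.und F ⟶ S.und F) :
    (S.und F).pre (snm x B Q B' N) ⟶ (S.und F).pre (snm x B Q B' N) :=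
  Functor.whiskerLeft (snm x B Q B' N).F t

theorem snE_x :
    (snE x B Q B' N).hom ≫ snx x B Q B' N = snw x B Q B' N x ≫ (snE x B Q B' N).hom :=
  NatTrans.ext (funext fun s => LQ.hom_ext (e_xm s.X))

theorem snE_pw (n : ℕ) : (snE x B Q B' N).hom ≫ pw (snx x B Q B' N) n =
    snw x B Q B' N (pw x n) ≫ (snE x B Q B' N).hom := by
  induction n with
  | zero => exact (Category.comp_id _).trans (Category.id_comp _).symm
  | succ n ih =>
    rw [pw_succ, ← Category.assoc, snE_x, Category.assoc, ih, ← Category.assoc]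
    rfl

theorem sn_tr (z : ∀ (X : Am.{v, max u w}), X.Gs → ∀ (F : Fn X (S.LQ Q)) (x : S.und F ⟶ S.und F),
      S.Ty F B' x → pw x m = 0 → (∀ A, N.N _ (NatTrans.app x A).1) →
        Fn.Tr.{v, max u w, v, u} (𝟙 _ - x)) (h : pw x m = 0) :
    Fn.Tr.{v, max u w, v, u} (snw x B Q B' N (𝟙 _ - x)) := by
  refine Fn.Tr.conj (snE x B Q B' N) ?_ (z (snX x B Q B' N) (fun _ k => k.1) (snG x B Q B' N)
    (snx x B Q B' N) (fun s => s.ob.1.2) ?_ fun s => s.ob.2)
  · rw [Preadditive.comp_sub, snE_x, Category.comp_id,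
      show snw x B Q B' N (𝟙 _ - x) = 𝟙 _ - snw x B Q B' N x from rfl, Preadditive.sub_comp,
      Category.id_comp]
  · rw [← cancel_epi (snE x B Q B' N).hom, snE_pw, h, comp_zero]
    exact zero_comp

end Up

theorem gm_unionN {ι : Type*} [Nonempty ι] [Preorder ι] [IsDirectedOrder ι] {Y : Type w}
    {P : Rl G Y} {B : Y → G → Y → Prop} {m : ℕ} (Q : ι → Rl G Y) (B' : ι → Y → G → Y → Prop)
    (N : ι → ∀ A : C, (A ⟶ A) → Prop)
    (h1 : ∀ i j, i ≤ j → ∀ a g b, (Q i).r a g b → (Q j).r a g b)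
    (h3 : ∀ a g b, P.r a g b → ∃ i, (Q i).r a g b)
    (k1 : ∀ i j, i ≤ j → ∀ a g b, B' i a g b → B' j a g b)
    (k3 : ∀ a g b, B a g b → ∃ i, B' i a g b)
    (n0 : ∀ i A, N i A 0) (n1 : ∀ i j, i ≤ j → ∀ A x, N i A x → N j A x)
    (n2 : ∀ i A A' x x', N i A x → N i A' x' → N i (S.sum A A') (S.blk x 0 0 x'))
    (n3 : ∀ (A : C) (L : S.Lo Y A) (x : A ⟶ A), L.Rg L B x → pw x (m + 1) = 0 → ∃ i, N i A x)
    (z : ∀ i (X : Am.{v, max u w}), X.Gs → ∀ (F : Fn X (S.LQ (Q i))) (x : S.und F ⟶ S.und F),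
      S.Ty F (B' i) x → pw x m = 0 → (∀ A, N i _ (NatTrans.app x A).1) →
        Fn.Tr.{v, max u w, v, u} (𝟙 _ - x)) : S.Gm P B m := by
  intro X hX F x hx hp
  let H : ι → S.HunN := fun i => ⟨N i, n0 i, n2 i⟩
  have := Fn.isIso_unip hp
  have e : (Up.prm x B).F.IsEquivalence := Up.pr_eqv hx
  have hm : ∀ (M N : S.LQ P) (f : M ⟶ N), ∃ i, f ∈ (S.unSu P (Q i)).mor M N := fun M N f =>
    (LQ.hom_rg f).union (fun i => (Q i).r) h1 h3
  have hs : ∀ {i j}, i ≤ j → (Up.sn x B (Q i) (B' i) (H i)).le (Up.sn x B (Q j) (B' j) (H j)) :=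
    fun {i j} h => ⟨fun _ k => ⟨⟨Rg.mono k.1.1 (h1 i j h), k.1.2.mono (k1 i j h)⟩,
      n1 i j h _ _ k.2⟩, fun _ _ _ k => Rg.mono k (h1 i j h)⟩
  refine Fn.tr_of_surj (fun i => Up.snX x B (Q i) (B' i) (H i))
    (fun i => Up.snm x B (Q i) (B' i) (H i))
    (fun n c => ?_) _ fun i => Up.sn_tr x B (Q i) (B' i) (H i) (z i) hp
  obtain ⟨c, rfl⟩ := Am.surj_equiv (Up.prm x B) (fun _ k => k) n c
  obtain ⟨i, c, rfl⟩ := Am.sb_surj (Up.src x B) (Up.src_gs hx hX)
    (fun i => Up.sn x B (Q i) (B' i) (H i)) hs (fun i => Up.snT x B (Q i) (B' i) (H i))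
    (fun _ _ k => k.1) (fun _ _ k => k.2.1) (fun i j h K k => ⟨un_genK _ k.1, k.2.1,
      ((Su.inc (unSu_le (h1 i j h))).mapHomotopyCategory _).map_isZero k.2.2⟩)
    (fun i K a b => by
      obtain ⟨j, h, k⟩ := Am.sb_contr (fun i => S.unSu P (Q i))
        (fun {i j} h => unSu_le (h1 i j h)) hm i
        (((Up.snF x B (Q i) (B' i) (H i)).mapHomologicalComplex _).obj K)
        (a.subset fun n k l => k ((Up.snF x B (Q i) (B' i) (H i)).map_isZero l))
        ((F.hT _ (X.le_Tb _ b)).of_iso (unIso (Up.mdIso x B)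
          (((Up.sn x B (Q i) (B' i) (H i)).ι.mapHomotopyCategory _).obj
            ((HomotopyCategory.quotient _ _).obj K))).symm)
      exact ⟨j, h, un_genK _ (un_fin a), b, k⟩)
    (fun s => by
      obtain ⟨i, a⟩ := hm s.M s.M (𝟙 _)
      obtain ⟨j, b⟩ := s.ty.union B' k1 k3
      obtain ⟨k, e⟩ := n3 _ _ s.xm s.ty (s.hun_pw hp)
      obtain ⟨l, c, d⟩ := exists_ge_ge i j
      obtain ⟨l', c', d'⟩ := exists_ge_ge l k
      exact ⟨l', ⟨Rg.mono a (h1 i l' (c.trans c')), Rg.mono b (k1 j l' (d.trans c'))⟩,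
        n1 k l' d' _ _ e⟩)
    (fun s t f => hm s.M t.M ((Up.md x B).map f)) n c
  exact ⟨i, c, Am.Kmap_comp n _ _ _ _ _ c⟩

end Desc

end GC

end Pool.Agent.Lib.MP_5d3e93_al
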