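import Pool.Agent.Lib.MP_5d3e93_al.K.HLf
import Pool.Agent.Lib.MP_5d3e93_al.K.HUn

/-! Reduction of Nil terms to finitely generated HNN extensions in all degrees. -/

open CategoryTheory Limits ZeroObject Filter MulAction HNNExtension
open scoped Pointwise

namespace Pool.Agent.Lib.MP_5d3e93_al

universe w w' v u

open Gr

theorem hfg_pw {G : Type w} [Group G] {C : Type u} [Category.{v} C] [Preadditive C] (S : GC G C)
    {A B : C} (x : A ⟶ A) (y : B ⟶ B) (m : ℕ) :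
    pw (S.blk x 0 0 y) (m + 1) = S.blk (pw x (m + 1)) 0 0 (pw y (m + 1)) := by
  induction m with
  | zero => simp [pw_succ]
  | succ m ih => rw [pw_succ, ih, GC.blk_comp]; simp [pw_succ]

section Av
variable {C : Type u} [Category.{v} C] [Preadditive C] [HasBinaryBiproducts C]

omit [HasBinaryBiproducts C] in
theorem hfg_push {G Γ Γ' : Type w'} [Group G] [Group Γ] [Group Γ'] {ρ : Act G C} (j : Γ →* G)
    (φ : Γ' →* Γ) {X Y : Tw (ρ.comap (j.comp φ))} (f : X ⟶ Y) :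
    Tw.push j (Tw.push (ρ := ρ.comap j) (X := ⟨X.as⟩) (Y := ⟨Y.as⟩) φ f) =
      Tw.push (j.comp φ) f := by
  induction f using Tw.ind' with
  | h0 => exact ((congrArg _ (map_zero _)).trans (map_zero _)).trans (map_zero _).symm
  | h1 a b ha hb =>
    exact ((congrArg _ (map_add _ _ _)).trans (map_add _ _ _)).trans
      ((congrArg₂ (· + ·) ha hb).trans (map_add _ _ _).symm)
  | h2 γ a =>
    exact ((congrArg _ (Tw.push_sg (ρ := ρ.comap j) (X := ⟨X.as⟩) (Y := ⟨Y.as⟩) φ γ a)).trans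
      (Tw.push_sg j _ _)).trans (Tw.push_sg (j.comp φ) γ a).symm

variable {Γ : Type w} [Group Γ] {σ : Act Γ C}

theorem hfg_comp {Γ' Γ'' : Type w} [Group Γ'] [Group Γ''] {j : Γ' →* Γ} {φ : Γ'' →* Γ'}
    {Ω : Set Γ''} {Ω' : Set Γ'} (k : ∀ a ∈ Ω, φ a ∈ Ω') {m : ℕ} {A : TwZ σ} {x : A ⟶ A}
    (h : LN σ (j.comp φ) Ω m A x) : LN σ j Ω' m A x := by
  obtain ⟨y, a, b, c⟩ := h
  refine ⟨Tw.push (ρ := (σ.comap j).comap (.fst Γ' Zi)) (X := ⟨A.as⟩) (Y := ⟨A.as⟩)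
    (φ.prodMap (.id Zi)) y, (sup_push' (ρ := (σ.comap j).comap (.fst Γ' Zi))
      (j := φ.prodMap (.id Zi)) (X := ⟨A.as⟩) (Y := ⟨A.as⟩) a).mono ?_,
    (hfg_push (ρ := σ.comap (.fst Γ Zi)) (j.prodMap (.id Zi)) (φ.prodMap (.id Zi))
      (X := ⟨A.as⟩) (Y := ⟨A.as⟩) y).trans b, ?_⟩
  · rintro _ ⟨γ, e, rfl⟩
    exact k _ e
  · exact (map_pw (Tw.pushF (ρ := (σ.comap j).comap (.fst Γ' Zi)) (φ.prodMap (.id Zi)))
      (A := ⟨A.as⟩) y (m + 1)).symm.trans ((congrArg _ c).trans (map_zero (Tw.push _)))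

theorem hfg_zero {Γ' : Type w} [Group Γ'] (j : Γ' →* Γ) (Ω : Set Γ') (m : ℕ) (A : TwZ σ) :
    LN σ j Ω m A 0 :=
  ⟨0, .zero, Functor.map_zero _ _ _, zero_comp⟩

theorem hfg_blk {Γ' : Type w} [Group Γ'] {j : Γ' →* Γ} {Ω : Set Γ'} {m : ℕ} {A A' : TwZ σ}
    {x : A ⟶ A} {x' : A' ⟶ A'} (h : LN σ j Ω m A x) (k : LN σ j Ω m A' x') :
    LN σ j Ω m ((SZ σ).sum A A') ((SZ σ).blk x 0 0 x') := by
  obtain ⟨y, a, b, c⟩ := h
  obtain ⟨y', a', b', c'⟩ := k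
  refine ⟨(SZ (σ.comap j)).blk y 0 0 y', a.blk .zero .zero a', ?_, ?_⟩
  · refine (push_blk (ρ := σ.comap (.fst Γ Zi)) (j := j.prodMap (.id Zi)) (X := ⟨A.as⟩)
      (Y := ⟨A'.as⟩) (X' := ⟨A.as⟩) (Y' := ⟨A'.as⟩) y 0 0 y').trans ?_
    rw [map_zero, map_zero, ← b, ← b']
    rfl
  · refine (hfg_pw _ y y' m).trans ?_
    rw [c, c']
    simp [GC.blk]
    rfl

/-- The map between the extensions of nested subgroups. -/
def hfgInc {D D' : Subgroup Γ} (h : D ≤ D') (g : Γ) : Hn D g →* Hn D' g :=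
  lift (of.comp (Subgroup.inclusion h)) t fun a =>
    t_mul_of (φ := pE D' g) ⟨Subgroup.inclusion h a, h a.2⟩

@[simp] theorem hfg_of {D D' : Subgroup Γ} (h : D ≤ D') (g : Γ) (d : D) :
    hfgInc h g (of d) = of (Subgroup.inclusion h d) := lift_of _ _ _ _

@[simp] theorem hfg_t {D D' : Subgroup Γ} (h : D ≤ D') (g : Γ) : hfgInc h g t = t := lift_t _ _ _

theorem hfg_jj {D D' : Subgroup Γ} (h : D ≤ D') (g : Γ) :
    jj D g = (jj D' g).comp (hfgInc h g) := by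
  refine HNNExtension.hom_ext (MonoidHom.ext fun d => ?_) ?_ <;> simp

theorem hfg_mono {D D' : Subgroup Γ} (h : D ≤ D') {g : Γ} {m : ℕ} {A : TwZ σ} {x : A ⟶ A}
    (k : LN σ (jj D g) (dc (Bs.E (pE D g)) t) m A x) :
    LN σ (jj D' g) (dc (Bs.E (pE D' g)) t) m A x := by
  rw [hfg_jj h] at k
  refine hfg_comp ?_ k
  rintro _ ⟨_, ⟨a, rfl⟩, _, ⟨b, rfl⟩, rfl⟩
  exact ⟨_, ⟨Subgroup.inclusion h a, rfl⟩, _, ⟨Subgroup.inclusion h b, rfl⟩, by simp⟩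

theorem hfg_ex {D : Subgroup Γ} {g : Γ} (hF : Fr D (dc D g)) {F : Set Γ} (f0 : F.Finite)
    (f1 : F ⊆ D) {A : TwZ σ} {x : A ⟶ A} (hx : (SZ σ).Sup {k | k.1 ∈ dc D g} x) {n : ℕ}
    (hm : pw x (n + 1) = 0) : ∃ D' : Subgroup Γ, (D' ≤ D ∧ D'.FG ∧ F ⊆ D') ∧
      LN σ (jj D' g) (dc (Bs.E (pE D' g)) t) n A x := by
  unfold LN
  generalize n + 1 = m at hm ⊢
  obtain ⟨T, t0, t1, t2⟩ := hx.finite
  choose! a a1 b b1 e1 using fun τ (k : τ ∈ dc D g) => k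
  have t3 : ∀ τ ∈ Prod.fst '' T, τ ∈ dc D g := Set.forall_mem_image.2 t1
  have t4 := t0.image Prod.fst
  generalize hT : Prod.fst '' T = T' at t3 t4
  let F' := F ∪ (a '' T' ∪ b '' T' ∪ D ∩ ⋃ k ≤ m, (T' ^ k)⁻¹ * T' ^ k)
  let D' := Subgroup.closure F'
  let Ω : Set (Hn D' g) := {γ | ∃ τ ∈ T', ∃ a' b' : D', a' = a τ ∧ b' = b τ ∧ γ = of a' * t * of b'}
  have o1 (γ) (k : γ ∈ Ω) : jj D' g γ ∈ T' := by
    obtain ⟨τ, c, a', b', d, e, rfl⟩ := k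
    simpa [d, e, ← e1 τ (t3 τ c)]
  have o2 (k) (c : k ≤ m) : ∀ w ∈ Ω ^ k, ∀ w' ∈ Ω ^ k, jj D' g (w⁻¹ * w') ∈ D →
      w⁻¹ * w' ∈ Bs.E _ := by
    induction k with
    | zero => simp
    | succ k ih =>
      intro w d w' d' e
      have f : jj D' g (w⁻¹ * w') ∈ D' := Subgroup.subset_closure (.inr (.inr ⟨e, Set.mem_biUnion c
        ⟨_, Set.inv_mem_inv.2 (mem_pow_map _ o1 w d), _, mem_pow_map _ o1 w' d', by simp⟩⟩))
      rw [pow_succ] at d d'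
      obtain ⟨u, d1, α, d2, rfl⟩ := d
      obtain ⟨u', d3, α', d4, rfl⟩ := d'
      have o3 (γ) (k : γ ∈ Ω) := t3 _ (o1 γ k)
      obtain ⟨y, l⟩ := ih (by omega) u d1 u' d3 (by
        simpa using hF.pref k 1 _ (mem_pow_map _ o3 u d1) _ (mem_pow_map _ o3 u' d3) _
          (by simpa using hF.right _ e _ (o3 α d2)) _ (by simpa using o3 α' d4) 1 (one_mem _)
          (by simp [mul_assoc]))
      obtain ⟨τ, -, a', b', -, -, rfl⟩ := d2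
      obtain ⟨τ', -, a'', b'', -, -, rfl⟩ := d4
      have e2 : (u * (of a' * t * of b'))⁻¹ * (u' * (of a'' * t * of b'')) =
          of b'⁻¹ * (t⁻¹ * of (a'⁻¹ * y * a'') * t) * of b'' := by simp [l, mul_assoc]
      beta_reduce at f ⊢
      rw [e2] at f ⊢
      rw [conj_t (by simpa [mul_assoc] using mul_mem (mul_mem b'.2 f) (inv_mem b''.2)), ← map_mul,
        ← map_mul]
      exact ⟨_, rfl⟩
  obtain ⟨y, h1, h2⟩ := push_lift (ρ := σ.comap (.fst Γ Zi)) (j := (jj D' g).prodMap (.id Zi))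
    (Ω := {k | k.1 ∈ Ω}) (X := ⟨A.as⟩) (Y := ⟨A.as⟩) x (t2.mono fun τ k => by
      have c : τ.1 ∈ T' := hT ▸ ⟨τ, k, rfl⟩
      exact ⟨(of ⟨a τ.1, Subgroup.subset_closure (.inr (.inl (.inl ⟨_, c, rfl⟩)))⟩ * t *
        of ⟨b τ.1, Subgroup.subset_closure (.inr (.inl (.inr ⟨_, c, rfl⟩)))⟩, τ.2),
        ⟨_, c, _, _, rfl, rfl, rfl⟩, Prod.ext (by simpa using (e1 _ (t3 _ c)).symm) rfl⟩)
  refine ⟨D', ⟨(Subgroup.closure_le _).2 (Set.union_subset f1 (Set.union_subset (Set.union_subset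
      (Set.forall_mem_image.2 fun τ k => a1 τ (t3 τ k)) (Set.forall_mem_image.2 fun τ k =>
        b1 τ (t3 τ k))) Set.inter_subset_left)), (Subgroup.fg_iff _).2 ⟨_, rfl, f0.union
      (((t4.image _).union (t4.image _)).union (((Set.finite_le_nat m).biUnion fun k _ =>
        (fin_pow t4 k).inv.mul (fin_pow t4 k)).inter_of_right _))⟩,
    fun _ k => Subgroup.subset_closure (.inl k)⟩, y, h1.mono ?_, h2,
    push_zero (ρ := σ.comap (.fst Γ Zi)) (j := (jj D' g).prodMap (.id Zi)) (fun w c w' c' e => ?_)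
      (h1.pw_pow m) ((map_pw _ _ _).trans ((congrArg (pw · m) h2).trans hm))⟩
  · rintro _ ⟨τ, -, a', b', -, -, e⟩
    exact ⟨_, ⟨a', rfl⟩, _, ⟨b', rfl⟩, e⟩
  · have e' : jj D' g w.1 = jj D' g w'.1 := congrArg Prod.fst e
    obtain ⟨z, l⟩ := o2 m le_rfl _ (pow_fst c) _ (pow_fst c') (by simp [e'])
    have := congrArg (jj D' g) l
    rw [show z = 1 from Subtype.ext (by simpa [e'] using this)] at l
    exact Prod.ext (by simpa [eq_inv_mul_iff_mul_eq] using l) (Prod.ext_iff.1 e).2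

variable [HasZeroObject C]

theorem kd_fg {D : Subgroup Γ} {g : Γ} (hF : Fr D (dc D g)) {F : Set Γ} (f0 : F.Finite)
    (f1 : F ⊆ D) (h : ∀ D' ≤ D, D'.FG → F ⊆ D' → GD (σ.comap (jj D' g)) (Bs.E _) t) :
    GD σ D g := by
  intro m
  let ι := {D' : Subgroup Γ // D' ≤ D ∧ D'.FG ∧ F ⊆ D'}
  have mk (d : Γ) (e : d ∈ D) : ∃ i : ι, d ∈ i.1 :=
    ⟨⟨Subgroup.closure (insert d F), (Subgroup.closure_le _).2 (Set.insert_subset e f1),
      (Subgroup.fg_iff _).2 ⟨_, rfl, f0.insert d⟩,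
      fun _ k => Subgroup.subset_closure (.inr k)⟩, Subgroup.subset_closure (.inl rfl)⟩
  have : Nonempty ι := ⟨(mk 1 (one_mem _)).choose⟩
  have : IsDirectedOrder ι := ⟨fun a b => ⟨⟨a.1 ⊔ b.1, sup_le a.2.1 b.2.1, a.2.2.1.sup b.2.2.1,
    fun _ k => (le_sup_left : a.1 ≤ _) (a.2.2.2 k)⟩, (le_sup_left : a.1 ≤ _),
      (le_sup_right : b.1 ≤ _)⟩⟩
  refine GC.gm_unionN (fun i : ι => Rl.pu (i.1.comap (.fst Γ Zi)))
    (fun _ _ k _ => k.1 ∈ dc D g) (fun i => LN σ (jj i.1 g) (dc (Bs.E (pE i.1 g)) t) m)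
    (fun i j e _ _ _ k => (show i.1 ≤ j.1 from e) k) (fun _ k _ e => mk k.1 e) (fun _ _ _ _ _ _ k => k)
    (fun _ _ _ k => ⟨Classical.arbitrary ι, k⟩) (fun i A => hfg_zero _ _ _ A)
    (fun i j e A x k => hfg_mono e k) (fun i A A' x x' => hfg_blk) (fun A L x a b => ?_)
    fun i X hX Φ x _ _ k => ?_
  · obtain ⟨D', c, d⟩ := hfg_ex hF f0 f1 (a.sup fun _ _ _ k => k) b
    exact ⟨⟨D', c⟩, d⟩
  · obtain ⟨a, b, c, -⟩ := jj_inj i.1 g
    refine tr_lift (jj i.1 g) a b ?_ ?_ (h i.1 i.2.1 i.2.2.1 i.2.2.2) c X hX Φ x k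
    · rintro d e _ ⟨a, p, b, q, rfl⟩
      exact ⟨_, mul_mem e p, b, q, by simp [mul_assoc]⟩
    · rintro d e _ ⟨a, p, b, q, rfl⟩
      exact ⟨a, p, _, mul_mem q e, by simp [mul_assoc]⟩
end Av

end Pool.Agent.Lib.MP_5d3e93_al
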