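import Pool.Agent.Lib.MP_5d3e93_al.K.HDf
import Pool.Agent.Lib.MP_5d3e93_al.K.CTr
import Pool.Agent.Lib.MP_5d3e93_al.K.CLc
import Pool.Agent.Lib.MP_5d3e93_al.K.CSw

/-! The Farrell-Hsiang method for finite holonomy in all degrees. -/

open CategoryTheory Limits ZeroObject Filter MulAction
open scoped Pointwise

namespace Pool.Agent.Lib.MP_5d3e93_al

universe w v u

open Gr

variable {n : ℕ} {Γ : Type w} [Group Γ] [MulAction Γ (Fin n → ℚ)] {A : AA Γ ℚ (Fin n → ℚ)}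

/-- The induction relation without fixed forms. -/
theorem hg1_free {G : Type w} [Group G] {V : Type*} [AddCommGroup V] {τ : Lat G → V}
    (hτ : Lat.Ses τ) {p c : ℕ} [Fact p.Prime] (e : 2 * c + 1 = p) {E : Type} [AddCommGroup E]
    [Module (ZMod p) E] [Fintype E] [MulAction G E] (B : AA G (ZMod p) E)
    (k1 : ∀ a, B.Fix a → a = 0) (k2 : ∀ L, Lat.Gr E (fun _ => True) L → τ L = 0)
    (k3 : ∀ L, Lat.Gr (Set B.Du) (fun x => ∃ a, a ≠ 0 ∧ B.pm a = x) L → τ L = 0) :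
    ((c : ℤ) ^ 2 * (p : ℤ) ^ 0) • τ (Lat.int G) = 0 := by
  classical
  have := swan hτ B k2 (fun a => B.pm a.1) (fun q a => B.pm_smul q a.1) (fun a => B.pm_neg a.1)
    (fun L a => k3 L (a.wk fun _ ⟨a, b, c⟩ => ⟨a.1, b, c⟩)) B.pm B.pm_smul B.pm_neg
    (fun L a => k3 L (a.wk fun _ ⟨a, b, _, c⟩ => ⟨a, b, c⟩)) e (f := 0) (by
      have : IsEmpty {a : B.Du // a ≠ 0 ∧ B.Fix a} := ⟨fun a => a.2.1 (k1 _ a.2.2)⟩
      simp)
  simpa using this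

variable (A) in
/-- Neighbours over a finite set. -/
def HgR (X : Type) (s : ℕ) (x y : X × (Fin n → ℚ)) : Prop :=
  x.1 = y.1 ∧ ∀ k, ‖A.l k (x.2 - y.2)‖ ≤ s

theorem hgR_pth {X : Type} {s : ℕ} (R : ℕ) : ∀ {x y : X × (Fin n → ℚ)}, Pth (HgR A X s) R x y →
    x.1 = y.1 ∧ ‖x.2 - y.2‖ ≤ R * s := by
  induction R with
  | zero => rintro x _ rfl; simp
  | succ R ih =>
    rintro x y ⟨z, a, b⟩
    have c := a.2 1
    rw [A.l_one] at c
    refine ⟨a.1.trans (ih b).1, (norm_sub_le_norm_sub_add_norm_sub _ z.2 _).trans ?_⟩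
    have := (ih b).2
    push_cast
    linarith

theorem hg1_lab {p Q : ℕ} [hp : Fact p.Prime] (M : Md Γ (Zn n) p) {b : ℝ} (b1 : 0 < b)
    (b2 : ∀ k v, ‖A.l k v‖ ≤ b * ‖v‖) (hl : ∀ g, ∀ v ∈ Zn n, A.l g v ∈ Zn n)
    (hQ : ∀ v : Fin n → ℚ, ∃ r : Fin Q, ∃ u ∈ Zn n, ‖((r + 1 : ℕ) : ℚ) • v - u‖ < 1 / (4 * b))
    {d : ℝ} (hd : 4 * b * Q * d < p) (x : M.E) : ∃ (r : Fin Q) (ζ : Fin n → ℚ),
      ∀ y : Fin n → ℚ, ‖y‖ ≤ d → ∃ z ∈ Zn n, M.r z = x ∧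
        Tor A ((r + 1 : ℕ) / p) Set.univ z y ζ := by
  have p0 : (0 : ℝ) < p := Nat.cast_pos.2 hp.out.pos
  have p1 : (p : ℚ) ≠ 0 := Nat.cast_ne_zero.2 hp.out.ne_zero
  obtain ⟨z, z1, rfl⟩ := M.surj x
  obtain ⟨r, w, w1, w2⟩ := hQ (-(p : ℚ)⁻¹ • z)
  have r0 : ((r + 1 : ℕ) : ℚ) ≠ 0 := by positivity
  refine ⟨r, z + (p / (r + 1 : ℕ) : ℚ) • w, fun y hy => ⟨z, z1, rfl, tor_mk (g := 1)
    (fun k _ => ⟨hl _, b2 _⟩) b1 ?_ ?_⟩⟩ <;> rw [inv_one, A.l_one]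
  · rwa [add_sub_cancel_left, smul_smul, div_mul_div_cancel₀ p1, div_self r0, one_smul]
  · rw [show ∀ y, ((r + 1 : ℕ) / p : ℚ) • (y - (z + (p / (r + 1 : ℕ) : ℚ) • w)) =
      (((r + 1 : ℕ) : ℚ) • -(p : ℚ)⁻¹ • z - w) + ((r + 1 : ℕ) / p : ℚ) • y from fun y => by
        match_scalars <;> field_simp]
    refine (norm_add_le _ _).trans_lt ?_
    have q1 : ‖((r + 1 : ℕ) / p : ℚ) • y‖ ≤ Q / p * d := by
      rw [norm_smul, norm_div, ← Rat.norm_cast_real, ← Rat.norm_cast_real]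
      simp only [Rat.cast_natCast, Real.norm_natCast]
      gcongr
      exact r.2
    have q2 : Q / p * d < 1 / (4 * b) := by
      rw [div_mul_eq_mul_div, div_lt_div_iff₀ p0 (by positivity)]
      linarith
    calc _ < 1 / (4 * b) + 1 / (4 * b) := by linarith
      _ = _ := by field_simp; norm_num

theorem hg1_sqrt (c : ℝ) : ∀ᶠ p : ℕ in atTop, c * p.sqrt < p ∧ c ≤ p.sqrt := by
  obtain ⟨m, hm⟩ := exists_nat_gt c
  refine eventually_atTop.2 ⟨(m + 1) ^ 2, fun p hp => ?_⟩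
  have h1 : ((m + 1 : ℕ) : ℝ) ≤ p.sqrt := Nat.cast_le.2 (Nat.le_sqrt'.2 hp)
  have h2 : ((p.sqrt * p.sqrt : ℕ) : ℝ) ≤ p := Nat.cast_le.2 (Nat.sqrt_le p)
  have h3 : (0 : ℝ) ≤ m := Nat.cast_nonneg m
  push_cast at h1 h2
  exact ⟨by nlinarith, by linarith⟩

namespace GC

variable {C : Type u} [Category.{v} C] [Preadditive C] [HasZeroObject C] {S : GC (Γ × Zi) C}

/-- The Farrell-Hsiang method for finite holonomy without eigenvectors. -/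
theorem wk_G1 (h : S.Ok) (hΛ : ∀ (g : Γ), ∀ v ∈ Zn n, g • v ∈ Zn n) (hf : (Set.range A.l).Finite)
    (hε : ∀ ε : Γ → ℚ, (∀ g, ε g = 1 ∨ ε g = -1) →
      ⨆ g, LinearMap.range (A.l g - ε g • LinearMap.id) = ⊤)
    (hW : ∀ ζ : Fin n → ℚ, ∀ H ≤ stabilizer Γ ζ, S.WK (H.comap (.fst Γ Zi)))
    (hW' : ∀ (H : Subgroup Γ) (g : Γ), (∀ k ∈ H, A.l k ≠ A.l g) → S.WK (H.comap (.fst Γ Zi))) :
    S.WK ⊤ := by
  classical
  suffices ∀ m (x : Am.Kn m S.top S.top.bdd), x = 0 from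
    fun m => ⟨fun x y => (this m x).trans (this m y).symm⟩
  intro m x
  obtain ⟨b, b1, b2⟩ := fin_bd hf
  replace b2 (k) := b2 _ ⟨k, rfl⟩
  obtain ⟨Q, hQ⟩ := dirichlet n (δ := 1 / (4 * b)) (by positivity)
  have hl (g : Γ) (v) (k : v ∈ Zn n) : A.l g v ∈ Zn n := by
    rw [← sub_zero v, ← A.h]
    exact sub_mem (hΛ g v k) (hΛ g 0 (zero_mem _))
  have := hf.to_subtype
  choose N n1 n2 using fun ε : Set.range A.l → Bool => ex_mul' _ zn_fg zn_span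
    (hε (fun g => if ε ⟨_, g, rfl⟩ then 1 else -1) fun g => by split_ifs <;> simp)
  obtain ⟨N', hN⟩ := (Set.finite_range N).bddAbove
  let J := {p : ℕ // p.Prime}
  have hJ : ∀ j : J, Fact j.1.Prime := fun j => ⟨j.2⟩
  have hM (j : J) : Nonempty (Md Γ (Zn n) j.1) := Md.nonempty A zn_fg fun g v ⟨m, m1, m2⟩ => by
    rw [A.smul_eq]
    exact add_mem ⟨m, m1, map_zsmul (A.l g) m v ▸ hl g _ m2⟩ (le_loc (hΛ g 0 (zero_mem _)))
  obtain ⟨M⟩ : Nonempty (∀ j : J, Md Γ (Zn n) j.1) := ⟨fun j => (hM j).some⟩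
  have ev {P : ℕ → Prop} (k : ∀ᶠ p in atTop, P p) : ∀ᶠ j : J in comap (·.1) atTop, P j.1 :=
    tendsto_comap.eventually k
  have z := ev_lab (l := comap (fun j : J => j.1) atTop) h
    (Y := fun j => (M j).E × (Fin n → ℚ)) (I := fun _ => Fin n → ℚ)
    (ρ := fun j => HgR A (M j).E j.1.sqrt) (fun j y => ⟨rfl, fun k => by simp⟩)
    (fun j x y a => ⟨a.1.symm, fun k => by
      rw [← neg_sub, map_neg, norm_neg]; exact a.2 k⟩)
    (fun j g x y a => ⟨congrArg (g • ·) a.1, fun k => by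
      change ‖A.l k (g • x.2 - g • y.2)‖ ≤ _
      rw [A.h, ← A.l_mul]; exact a.2 _⟩) (ι := Fin Q)
    (fun j r y ζ => ∃ z ∈ Zn n, (M j).r z = y.1 ∧ Tor A ((r + 1 : ℕ) / j.1) Set.univ z y.2 ζ)
    (by
      rintro j r y ζ ζ' ⟨z, z1, z2, z3⟩ ⟨z', z4, z5, z6⟩
      have p1 : (j.1 : ℚ) ≠ 0 := Nat.cast_ne_zero.2 j.2.ne_zero
      obtain ⟨w, w1, w2⟩ := (M j).ker _ (sub_mem z1 z4) (by
        rw [(M j).sub (le_loc z1) (le_loc z4), z2, z5, sub_self])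
      refine z3.uniq z6 (by positivity) (g := 1) trivial ?_
      rw [w2, inv_one, A.l_one, smul_smul, div_mul_cancel₀ _ p1, Nat.cast_smul_eq_nsmul]
      exact nsmul_mem w1 _)
    (by
      rintro j r g y ζ ⟨z, z1, z2, z3⟩
      exact ⟨g • z, hΛ g z z1, by rw [(M j).smul g z (le_loc z1), z2]; rfl,
        z3.smul g fun _ _ => trivial⟩)
    (α := fun _ y => y.2 = 0) (b := (·.1)) tendsto_comap
    (fun R => (ev (hg1_sqrt (4 * b * Q * R))).mono fun j k y a => by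
      obtain ⟨r, ζ, c⟩ := hg1_lab (M j) b1 b2 hl hQ (d := R * j.1.sqrt) (by linarith [k.1]) y.1
      refine ⟨r, ζ, fun y' d => ?_⟩
      obtain ⟨d1, d2⟩ := hgR_pth R d
      rw [a, zero_sub, norm_neg] at d2
      exact d1 ▸ c y'.2 d2)
    (.of_forall fun _ => hW)
  have key := tk_ev (π := .fst Γ Zi) (H := ⊤) (Xs := fun j => (M j).E) (Ps := fun _ _ => True)
    (fun j x => (x, 0)) ?_ z m x
  swap
  · exact fun g _ => ⟨1, (ev (hg1_sqrt (b * ‖g.1 • (0 : Fin n → ℚ)‖))).mono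
      fun j k y _ _ => ⟨⟨(g.1 • y, g.1 • 0), ⟨rfl, fun k' => by
        change ‖A.l k' (0 - g.1 • 0)‖ ≤ _
        rw [zero_sub, map_neg, norm_neg]
        exact (b2 _ _).trans k.2⟩, rfl⟩, rfl, rfl⟩⟩
  obtain ⟨d', hd⟩ := eventually_atTop.1 (eventually_comap.1 key)
  refine zero_of_primes _ (max N' d') fun p c hp k e => ⟨2, 0, ?_⟩
  let j : J := ⟨p, hp⟩
  have c1 {g k : Γ} (e : A.l g = A.l k) (a : (M j).B.Du) : g⁻¹ • a = k⁻¹ • a :=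
    DFunLike.ext _ _ fun x => by rw [AA.du_smul, AA.du_smul, inv_inv, inv_inv, (M j).congr e]
  have c2 (a) (f : (M j).B.Fix a) : a = 0 := by
    let ε : Set.range A.l → Bool := fun T => T.2.choose⁻¹ • a = a
    refine (M j).du_zero id _ a (fun g => ?_) (Nat.coprime_of_lt_prime (n1 ε).ne'
      ((hN ⟨ε, rfl⟩).trans_lt ((le_max_left _ _).trans_lt k)) hp).symm (n2 ε)
    have : ε ⟨_, g, rfl⟩ ↔ g⁻¹ • a = a := by
      simp only [ε, decide_eq_true_eq]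
      rw [c1 (Exists.choose_spec (⟨g, rfl⟩ : A.l g ∈ Set.range A.l))]
    split_ifs with e
    exacts [.inl ⟨rfl, this.1 e⟩, .inr ⟨rfl, (f _).resolve_left (mt this.2 e)⟩]
  rw [← tk_int (π := .fst Γ Zi) m x]
  refine hg1_free (p := j.1) (tk_ses m x) e (M j).B c2 (fun L a => ?_) fun L a =>
    tk_stab ?_ a m x
  · have := hd p ((le_max_right _ _).trans k.le) j rfl L a
    rwa [show Am.Kmap m (S.up ⊤) (Am.Map.bdd_map _) x = x from Am.Kinc_refl m le_rfl x] at this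
  · rintro _ ⟨a, a0, rfl⟩
    obtain ⟨g, hg⟩ := not_forall.1 fun f : (M j).B.Fix a => a0 (c2 a f)
    exact hW' _ g⁻¹ fun k m e => hg (by
      have := c1 e a
      rw [inv_inv] at this
      rw [← this]
      exact (M j).B.pm_fix (inv_mem m))

section FH
variable {Γ : Type w} [Group Γ] {C : Type u} [Category.{v} C] [Preadditive C] [HasZeroObject C]
  {S : GC (Γ × Zi) C}

theorem kG1 {n : ℕ} [MulAction Γ (Fin n → ℚ)] {A : AA Γ ℚ (Fin n → ℚ)} (ok : S.Ok) [Group.FG Γ]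
    (hΛ : ∀ (g : Γ), ∀ v ∈ Zn n, g • v ∈ Zn n) (hf : (Set.range A.l).Finite)
    (hε : ∀ ε : Γ → ℚ, (∀ g, ε g = 1 ∨ ε g = -1) →
      ⨆ g, LinearMap.range (A.l g - ε g • LinearMap.id) = ⊤)
    (hW : ∀ ζ : Fin n → ℚ, ∀ H ≤ stabilizer Γ ζ, S.VK H)
    (hW' : ∀ (H : Subgroup Γ) (g : Γ), (∀ k ∈ H, A.l k ≠ A.l g) → S.VK H) : S.WK ⊤ :=
  wk_G1 ok hΛ hf hε hW hW'

end FH

end GC

end Pool.Agent.Lib.MP_5d3e93_al
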