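import Pool.Agent.Lib.MP_5d3e93_al.K.HCt
import Pool.Agent.Lib.MP_5d3e93_al.K.HNl
import Pool.Agent.Lib.MP_5d3e93_al.Str

/-! The Farrell-Hsiang method for Nil terms of actions on a line in all degrees. -/

open CategoryTheory Limits ZeroObject Filter MulAction
open scoped Pointwise

namespace Pool.Agent.Lib.MP_5d3e93_al

universe w v u

open Gr

namespace GC

variable {Γ : Type w} [Group Γ] {C : Type u} [Category.{v} C] [Preadditive C] [HasZeroObject C]
  {S : GC (Γ × Zi) C}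

open Ln in
theorem kG2 (ok : S.Ok) [Group.FG Γ] (a : Ln Γ) {t : Γ} (ht : a.χ t = 1)
    (hW : ∀ f : a.I, ∀ H ≤ stabilizer Γ f, S.VK H)
    (hW' : ∀ (H : Subgroup Γ) (g : Γ), a.ε g = -1 → (∀ k ∈ H, a.ε k = 1) → S.VK H)
    {H : Subgroup (Γ × Zi)} (hH : ∀ g ∈ H, a.χ g.1 = 0) {Ω : Set (Γ × Zi)}
    (hΩ : ∀ g ∈ Ω, a.χ g.1 = 1) : S.GS H Ω := by
  classical
  intro m X _ F x hT hm
  refine tr_of_ncl hm fun n y => ?_
  have nil {Z : Type} [Fintype Z] [MulAction Γ Z] {Q : Z → Prop}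
      (h : ∀ y, Q y → ∀ g, 0 < a.χ g → a.χ g < m → g • y ≠ y) :=
    tk_nil a.χ ht (P := Rl.pu H) (fun _ g _ k => hH g k) F x
      (fun A => (hT A).sup fun _ g _ k => hΩ g k) hm h n y
  obtain ⟨Q, hQ⟩ := dirichlet 1 (δ := 1 / 4) (by positivity)
  let J := {p : ℕ // p.Prime ∧ 5 < p}
  have hJ : ∀ j : J, Fact j.1.Prime := fun j => ⟨j.2.1⟩
  have key := tk_ctrl ok (l := comap (fun j : J => j.1) atTop) (Xs := fun j => Set (a.B j.1).Af)
    (Ps := fun j x => (∃ l : (a.B j.1).Af, l.1 ≠ 0 ∧ ({l, -l} : Set _) = x) ∧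
      ¬ ∀ l ∈ x, u l.1 = 0) (I := fun _ => a.I) (ι := Fin Q) (fun j r => Lab r)
    (fun j _ _ _ _ => Lab.uniq j.2.2) (fun _ _ g _ _ k => k.smul g) (b := (·.1)) tendsto_comap
    (fun T t0 => ?_) (.of_forall fun _ => hW) (n + 1) (ncl x hm n y)
  swap
  · obtain ⟨d, hd⟩ := (t0.image fun g => (a.c g).natAbs + (a.χ g).natAbs).bddAbove
    refine (tendsto_comap.eventually (eventually_gt_atTop ((8 * Q * d) ^ 2))).mono fun j k => ?_
    rintro _ ⟨⟨l, -, rfl⟩, l1⟩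
    obtain ⟨r, f, b⟩ := ex_lab (l := l) (d := d) j.2.2 hQ k fun e => l1 (by
      rintro _ (rfl | rfl)
      exacts [e, neg_eq_zero.2 e])
    exact ⟨r, f, fun g k => by
      have : _ + _ ≤ d := hd ⟨g, k, rfl⟩
      have := Int.natCast_natAbs (a.c g)
      have := Int.natCast_natAbs (a.χ g)
      exact b g (by omega) (by omega)⟩
  obtain ⟨d, hd⟩ := eventually_atTop.1 (eventually_comap.1 key)
  refine zero_of_primes _ (5 + m + d) fun p c hp k e => ?_
  have := Fact.mk hp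
  have h2 : (2 : ZMod p) ≠ 0 := fun e => by simpa using small (p := p) (by omega) (x := 2) (by
    have : 1 ≤ p.sqrt := Nat.le_sqrt.2 hp.one_le
    simpa) (by simpa)
  have h3 (g) (b : 0 < a.χ g) (b' : a.χ g < m) : (a.χ g : ZMod p) ≠ 0 := fun e => by
    have := Int.le_of_dvd b ((ZMod.intCast_zmod_eq_zero_iff_dvd _ _).1 e)
    omega
  obtain ⟨f, j, f1, f2⟩ := count (a := a) e h2
  refine ⟨2, j, ?_⟩
  have ses := tk_ses (π := .fst Γ Zi) (n + 1) (ncl x hm n y)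
  rw [← f2, ← tk_int (π := .fst Γ Zi) (n + 1) (ncl x hm n y)]
  refine swan ses (a.B p) (nil
    fun y _ g b b' e => h3 g b b' (add_eq_left.1 (show y.2 + _ = y.2 from congrArg Prod.snd e)))
    (fun l => ({l, -l} : Set _)) (fun q l => ?_) (fun l => ?_) (fun L b => b.split
      (fun x => ∀ l ∈ x, u l.1 = 0) (fun g x => ?_) ses (nil ?_)
        (hd p (by omega) ⟨p, hp, by omega⟩ rfl))
    (a.B p).pm (a.B p).pm_smul (a.B p).pm_neg (fun L b => tk_stab ?_ b _ _) e f1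
  · rw [Set.smul_set_insert, Set.smul_set_singleton]
    exact congrArg (fun x => {_, x}) ((a.B p).i4.eqv q l)
  · rw [neg_neg, Set.pair_comm]
  · rw [← Set.image_smul, Set.forall_mem_image]
    refine forall₂_congr fun l _ => ?_
    rw [AA.af_fst, u_smul]
    rcases a.sq g with e | e <;> simp [e]
  · rintro _ ⟨⟨l, l0, rfl⟩, l1⟩ g b b' e
    have l2 := l1 l (.inl rfl)
    have l3 : Ln.v l.1 ≠ 0 := fun e => l0 (ext l2 e)
    obtain e | e : g • l ∈ ({l, -l} : Set _) := e ▸ Set.smul_mem_smul_set (.inl rfl)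
    · have : l.1 (a.ε g⁻¹ * 0 + a.c g⁻¹, 0 + a.χ g⁻¹) + l.2 = l.2 := congrArg Prod.snd e
      rw [app, l2] at this
      exact h3 g b b' (by simpa [l3] using this)
    · have : Ln.v (g • l.1) = -Ln.v l.1 := congrArg (fun l => Ln.v l.1) e
      rw [v_smul] at this
      exact l3 ((mul_eq_zero.1 (by linear_combination this)).resolve_left h2)
  · rintro _ ⟨l, -, l1, rfl⟩
    obtain ⟨g, hg⟩ := not_forall.1 fun e => l1 (fix_of (.inl e))
    exact hW' _ g ((a.sq g).resolve_left hg) fun k b => (a.sq k).resolve_right fun e =>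
      l1 (fix_of (.inr (of_fix h2 ((a.B p).pm_fix b) e)))

end GC

end Pool.Agent.Lib.MP_5d3e93_al
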