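import Pool.Agent.Lib.MP_5d3e93_al.K.HDs
import Pool.Agent.Lib.MP_5d3e93_al.K.HFg
import Pool.Agent.Lib.MP_5d3e93_al.K.HG1
import Pool.Agent.Lib.MP_5d3e93_al.K.HG2
import Pool.Agent.Lib.MP_5d3e93_al.K.HFr
import Pool.Agent.Lib.MP_5d3e93_al.GQ.Ind

/-! Groups acting on trees with crystallographic elliptic subgroups, all degrees. -/

open CategoryTheory Limits MulAction HNNExtension
open scoped Pointwise

namespace Pool.Agent.Lib.MP_5d3e93_al

universe w w' v u

variable {C : Type u} [Category.{v} C] [Preadditive C] [HasBinaryBiproducts C] [HasZeroObject C]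
  {G : Type w'} [Group G] {ρ : Act G C} {Γ : Type w} [Group Γ] {s : Cl.{w}} {n : ℕ} {R : AR Γ n}

theorem AK.sub {H : Subgroup Γ} (h : AK ρ H) (q : Γ →* G) : (SZ (ρ.comap q)).VK H :=
  (kz_sub H).1 (h (q.comp H.subtype))

theorem kd_small (hI : IK ρ s) {D : Subgroup Γ} {g : Γ} (hF : Fr D (dc D g)) (h : s.P D)
    (q : Γ →* G) : GD (ρ.comap q) D g :=
  kd_fg hF Set.finite_empty (Set.empty_subset _) fun D' a _ _ => kd_of_kz (hI _
    ((Hn.ot D' g).mono fun _ ⟨b, _, _, c⟩ => Cl.map b le_rfl (Cl.conj c (Cl.le a h)))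
      (q.comp (jj D' g))) _ _

theorem ak_small (hI : IK ρ s) {D : Subgroup Γ} (h : s.P D) : AK ρ D :=
  hI _ (.triv fun U => s.inj U.subtype U.subtype_injective h)

theorem ak_fix (hI : IK ρ s) (hn : 0 < n) {Φ : Subgroup Γ → Prop}
    (h : OT Γ fun U => TF s R U ∧ Φ U) {H : Subgroup Γ}
    (k : ∀ U ≤ H, Φ U → ∀ u ∈ U, R.l u = 1 → R.c u = 0) : AK ρ H :=
  hI _ (h.comap H.subtype fun U e => Cl.map H.subtype_injective.injOn le_rfl
    (e.1.resolve_right fun c => c.not hn (k _ (Subgroup.map_subtype_le U) e.2)))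

theorem ak_line (hI : IK ρ s) {ε c : Γ → ℤ} (h : (∀ g, ε g = 1 ∨ ε g = -1) ∧
    (∀ a b, ε (a * b) = ε a * ε b) ∧ ∀ a b, c (a * b) = c a + ε a * c b)
    (k : ∀ U : Subgroup Γ, (∀ u ∈ U, ε u = 1 → c u = 0) → s.P U) : AK ρ Γ := fun q => by
  have a (v : Lt ε c h) (D) (e : D ≤ stabilizer Γ v) := k D fun u b d => by
    have := congrArg Lt.x (e b)
    rw [Lt.smul_x, d] at this
    omega
  refine kTR0 (Lt.tree (h := h)) (fun g a b e => ?_) (fun g a b e f l => ?_)
    (fun v D e => ak_small hI (a v D e) (q.comp D.subtype)) 0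
    fun v D e g f => .inl (kd_small hI f (a v D e) q)
  · change _ ∨ _ at e ⊢
    rcases h.1 g with l | l <;> simp only [Lt.smul_x, l] <;> omega
  · have := congrArg Lt.x f
    change _ ∨ _ at e
    rcases h.1 g with l | l <;> simp only [Lt.smul_x, l] at this <;> omega

theorem kQQ (h0 : K0Zero C) (hI : IK ρ s) (j : ℕ) : ∀ (Γ : Type w) [Group Γ] {n : ℕ} (R : AR Γ n),
    0 < n → (R.l '' .univ).Finite ∧ (R.l '' .univ).ncard < j → OT Γ (TF s R) → AK ρ Γ := by
  induction j with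
  | zero => exact fun _ _ _ _ _ h => (Nat.not_lt_zero _ h.2).elim
  | succ j ih =>
  suffices ∀ (Γ : Type w) [Group Γ] {n : ℕ} (R : AR Γ n), Group.FG Γ → 0 < n →
      (R.l '' .univ).Finite ∧ (R.l '' .univ).ncard < j + 1 → OT Γ (TF s R) → AK ρ Γ from
    fun Γ _ n R a b c q => kz_fg fun H d => by
      have e : (R.comap H.subtype).l '' .univ ⊆ R.l '' .univ := fun _ ⟨x, _, e⟩ => ⟨x, trivial, e⟩
      exact this H _ ((Group.fg_iff_subgroup_fg H).2 d) a
        ⟨b.1.subset e, (Set.ncard_le_ncard e b.1).trans_lt b.2⟩ (c.sub H) (q.comp H.subtype)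
  intro Γ _ n R a b c d
  by_cases e : ∃ U, R.Cr U
  swap
  · exact hI _ (d.mono fun U f => f.resolve_right fun g => e ⟨U, g⟩)
  obtain ⟨U, e⟩ := e
  obtain ⟨n', b', R', π, f1, f2, f3⟩ := R.norm b a.1 c.1 (top_le_iff.1 (e.2.ge.trans
    (Submodule.span_mono (Set.image_mono (Set.subset_univ _)))))
  replace d := d.mono fun U (g : TF s R U) => show TF s R' U from g.imp_right (AR.Cr.quot f1)
  replace c := And.intro (f1.fin c.1).1 ((f1.fin c.1).2.trans (Nat.lt_succ_iff.1 c.2))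
  replace f3 := fun u => f3 u trivial
  clear f1 e
  have l {Γ' : Type w} [Group Γ'] (f : Γ' →* Γ) {g : Γ} (h : ∀ k, R'.l (f k) ≠ R'.l g) :=
    ih Γ' (R'.comap f) b' ⟨(less f h c.1).1, (less f h c.1).2.trans_le c.2⟩
  intro q
  obtain k | rfl : 2 ≤ n' ∨ n' = 1 := by omega
  · let _ := R'.act
    have hW (ζ : Fin n' → ℚ) (H) (e : H ≤ stabilizer Γ ζ) : AK ρ H :=
      ak_fix hI b' (d.mono fun U g => ⟨g, trivial⟩) fun U g _ u g' l => by
        simpa [l] using show R'.l u ζ + R'.c u = ζ from e (g g')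
    exact GC.kG1 (A := R'.aa) (ok h0) f3 (Set.image_univ ▸ c.1) (fun ε _ => f2.eps k ε)
        (fun ζ H e => (hW ζ H e).sub q) fun H g e =>
          (l H.subtype (fun k => e k k.2) (d.sub H)).sub q
  · obtain ⟨ε, γ, e1, e2, e3⟩ := AR.line f3
    have e4 (u) (a : ε u = 1) : R'.l u = 1 := by simp [e1, a]
    have e5 (u) (a : R'.l u = 1) : ε u = 1 := by
      simpa [e1] using congrFun (LinearMap.congr_fun a 1) 0
    refine kTR d (fun D e => ak_line hI (ε := fun g : D => ε g) (c := fun g : D => γ g)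
      ⟨fun g => e3.1 g, fun g k => e3.2.1 g k, fun g k => e3.2.2 g k⟩ (fun U f =>
        Cl.map D.subtype_injective.injOn le_rfl ((e 1 _ (by
          simpa using Subgroup.map_subtype_le U)).resolve_right fun c => c.not b' ?_))
        (q.comp D.subtype)) 0 fun D e g f => .inl (kd_fg f Set.finite_empty (Set.empty_subset _)
          fun D' a fg _ => have := Hn.fg fg g; GC.kG2 (S := SZ (ρ.comap (q.comp (jj D' g)))) (ok h0)
            ⟨fun x => ε (jj D' g x), fun x => γ (jj D' g x), Bs.χ _, fun x => e3.1 _,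
              by simp [e3.2.1], by simp [e3.2.2]⟩ (Bs.χ_t _) (fun y H k => AK.sub (ak_fix hI b'
                (Hn.tf e a g) fun U k' l u m o => ?_) _) (fun H x k k' => AK.sub
                  (l ((jj D' g).comp H.subtype) (g := jj D' g x) (fun y m => ?_)
                    (((Hn.tf e a g).mono fun _ m => m.1).sub H)) _)
                      (fun x => (Bs.H _).hD x.1) fun _ => (Bs.H _).chi)
    · rintro _ ⟨u, a, rfl⟩ g
      rw [e2, show γ (D.subtype u) = 0 from f u a (e5 _ g)]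
      rfl
    · have : (ε (jj D' g u) : ℚ) * y (0 - Bs.χ _ u) + γ (jj D' g u) = y 0 :=
        congrFun (k (k' m)) 0
      rw [l u m, e5 _ o] at this
      exact (e2 _).trans (funext fun _ => by simpa using this)
    · have := e5 (jj D' g x * (jj D' g y)⁻¹) (by
        rw [map_mul, ← m, ← map_mul]
        simp)
      have e6 := e3.2.1 (jj D' g x * (jj D' g y)⁻¹) (jj D' g y)
      rw [this, inv_mul_cancel_right, show ε _ = -1 from k, show ε _ = 1 from k' _ y.2] at e6
      omega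

theorem ak_cr (h0 : K0Zero C) (hI : IK ρ s) (hn : 0 < n) (h : OT Γ (TF s R)) {H : Subgroup Γ}
    (k : (R.l '' H).Finite) : AK ρ H :=
  kQQ h0 hI _ H _ hn ⟨k.subset fun _ ⟨x, _, e⟩ => ⟨x, x.2, e⟩, Nat.lt_succ_self _⟩ (h.sub H)

end Pool.Agent.Lib.MP_5d3e93_al
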