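import Pool.Agent.Lib.MP_5d3e93_al.K.HWn
import Pool.Agent.Lib.MP_5d3e93_al.K.CTr

/-! The family of windows. -/

open CategoryTheory Limits ZeroObject Filter MulAction HNNExtension
open scoped Pointwise

namespace Pool.Agent.Lib.MP_5d3e93_al

universe w w' v u y y' v' u' v'' u''

open Gr

namespace GC

section G3
variable {Γ : Type w} [Group Γ] {C : Type u} [Category.{v} C] [Preadditive C] [HasZeroObject C]
  {S : GC (Γ × Zi) C}

section
variable {Y : Type y} {P : Rl (Γ × Zi) Y} {H : Subgroup (Γ × Zi)}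
  (hP : ∀ a g b, P.r a g b → g ∈ H)

variable (S) in
/-- The tensor functor with degrees in a subgroup. -/
noncomputable def hasT (L : Lat Γ) : S.LQ P ⥤ S.LQ (Rl.pt H) where
  obj M := ⟨(S.tn (.fst Γ Zi) L).obj M.A, .one S () _, (S.tn (.fst Γ Zi) L).map M.p,
    by rw [← Functor.map_comp, M.idem], Lo.rg_sup (tn_sp _ L (M.rg.sup hP))⟩
  map f := LQ.homMk ((S.tn (.fst Γ Zi) L).map f.1)
    (((S.tn _ L).map_comp _ f.1).symm.trans (congrArg (S.tn _ L).map (LQ.p_comp f)))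
    (((S.tn _ L).map_comp f.1 _).symm.trans (congrArg (S.tn _ L).map (LQ.comp_p f)))
    (Lo.rg_sup (tn_sp _ L ((LQ.hom_rg f).sup hP)))
  map_id _ := rfl
  map_comp f g := LQ.hom_ext ((S.tn _ L).map_comp f.1 g.1)

instance (L : Lat Γ) : (S.hasT hP L).Additive :=
  ⟨fun {_ _ f g} => LQ.hom_ext ((S.tn _ L).map_add (f := f.1) (g := g.1))⟩
end

/-- The location of a window. -/
noncomputable def hasB {E : Type} (U : Hu Γ) (a : ℕ) (z : E × U.Wd a a) : U.WL E :=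
  ⟨z.1, 1, (Hu.ex_lift z.2).choose, (Hu.ex_lift z.2).choose_spec.1,
    (Hu.ex_lift z.2).choose_spec.2.1⟩

theorem has_pth {E : Type} [MulAction Γ E] {U : Hu Γ} {a r : ℕ} {T : Set Γ} (t1 : 1 ∈ T)
    {g : Γ × Zi} (hg : g.1 ∈ T ^ r) (ha : |U.χ g.1| ≤ a) {z z' : E × U.Wd a a}
    (e : z.1 = g.1 • z'.1) (h : Hu.ov (U.χ g.1) z.2 g z'.2) :
    Pth (Hu.Nb T a) (r + 2) (hasB U a z) (g.1 • hasB U a z') := by
  refine Hu.wl_ctl t1 hg ha rfl (mul_one _) e fun k h1 h2 => ?_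
  obtain ⟨a1, a2⟩ := abs_le.1 h1
  obtain ⟨a3, a4⟩ := abs_le.1 h2
  have k1 := h k a1 a2 a3 a4
  rw [(Hu.ex_lift z.2).choose_spec.2.2 k a1 a2, (Hu.ex_lift z'.2).choose_spec.2.2 _ a3 a4] at k1
  exact QuotientGroup.eq.1 k1

section
variable {J : Type} {l : Filter J} {E : J → Type} [∀ j, Fintype (E j)] [∀ j, MulAction Γ (E j)]
  (U : Hu Γ) [∀ a b, Fintype (U.Wd a b)] {T : Set Γ} (t1 : 1 ∈ T) (t3 : ∀ g, ∃ r : ℕ, g ∈ T ^ r)
  (a : J → ℕ) {Ls : J → Lat Γ} (b : ∀ j, Lat.Gr (E j) (fun _ => True) (Ls j))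

/-- The control on windows. -/
noncomputable abbrev hasN : Ar (Γ × Zi) fun j => U.WL (E j) :=
  (Ar.act (.fst Γ Zi) fun j => Nr.pth Γ (Hu.Nb (U := U) (E := E j) T (a j))
    (Hu.Nb.refl t1) Hu.Nb.smul).res fun _ _ => True

variable (S) in
/-- The locations of the windows. -/
noncomputable def hasL (A : C) (j : J) : S.Lo (U.WL (E j))
    (S.cpw ((S.tn (.fst Γ Zi) (Ls j)).obj A) (U.Wd (a j) (a j))).P :=
  ((S.cpw _ (U.Wd (a j) (a j))).lo (S.tnL (.fst Γ Zi) (b j) A)).map (hasB U (a j))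

include t3 in
theorem has_ec {i : ℤ} (hi : ∀ j, |i| ≤ a j) {A B : C} {f : A ⟶ B}
    (h : S.Sup {g | U.χ g.1 = i} f) : Ec l (hasN U t1 a) (S.hasL U a b A) (S.hasL U a b B)
      fun j => S.wm U (a j) (a j) (a j) (a j) i ((S.tn (.fst Γ Zi) (Ls j)).map f) := by
  obtain ⟨F, fin, sub, hF⟩ := h.finite
  choose r hr using t3
  obtain ⟨s, hs⟩ := (fin.image fun g => r g.1).bddAbove
  refine ⟨s + 2, .of_forall fun j => ?_⟩
  refine (Cp.mat_rg _ _ (tnL_rg (b j) hF)).map (Lo.on_true _) (Lo.on_true _) ?_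
  rintro z g z' - - ⟨⟨m, e⟩, k⟩
  obtain rfl : U.χ g.1 = i := sub m
  exact (hasN (E := E) U t1 a).mono (r := r g.1 + 2)
    ⟨has_pth t1 (hr g.1) (hi j) e k, trivial, trivial⟩ (Nat.add_le_add_right (hs ⟨g, m, rfl⟩) 2)

variable {Y : Type y} {P : Rl (Γ × Zi) Y}
  (hP : ∀ a g b, P.r a g b → g ∈ U.D.comap (.fst Γ Zi))

variable (S) in
/-- One component of the family. -/
noncomputable abbrev hasW (L : Lat Γ) (c : ℕ) : S.LQ P ⥤ S.LQ (Rl.pt ⊤) :=
  S.hasT hP L ⋙ S.wF U (fun _ _ _ h => h) c c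

variable (S l) in
/-- The family of window functors with its locations. -/
noncomputable def hasF : S.LQ P ⥤ S.AS l (hasN (E := E) U t1 a) where
  obj M := ⟨fun j => ((S.hasW U hP (Ls j) (a j)).obj M).A, S.hasL U a b M.A,
    fun j => ((S.hasW U hP (Ls j) (a j)).obj M).p,
    fun j => ((S.hasW U hP (Ls j) (a j)).obj M).idem,
    has_ec U t1 t3 a b (by simp) (M.rg.sup fun _ _ _ h => U.hD _ (hP _ _ _ h))⟩
  map f := AS.homMk (fun j => ((S.hasW U hP (Ls j) (a j)).map f).1) (fun _ => LQ.p_comp _)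
    (fun _ => LQ.comp_p _)
    (has_ec U t1 t3 a b (by simp) ((LQ.hom_rg f).sup fun _ _ _ h => U.hD _ (hP _ _ _ h)))
  map_id M := AS.hom_ext fun j => congrArg (·.1) ((S.hasW U hP (Ls j) (a j)).map_id M)
  map_comp f g := AS.hom_ext fun j => congrArg (·.1) ((S.hasW U hP (Ls j) (a j)).map_comp f g)

instance : (S.hasF l U t1 t3 a b hP).Additive :=
  ⟨fun {_ _ f g} => AS.hom_ext fun j =>
    congrArg (·.1) ((S.hasW U hP (Ls j) (a j)).map_add (f := f) (g := g))⟩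
end

theorem has_pw {J : Type} {l : Filter J} {Y : J → Type y} {ν : Ar (Γ × Zi) Y} {X : Am.{v', u'}}
    {F : Fn X (S.AS l ν)} (x : F ⟶ F) (k : ℕ) (A : X.A) (j : J) :
    (NatTrans.app (pw x (k + 1)) A).1 j = pw ((NatTrans.app x A).1 j) (k + 1) := by
  induction k with
  | zero =>
    rw [pw_succ, pw_succ]
    exact (AS.comp_p (NatTrans.app x A) j).trans (Category.comp_id _).symm
  | succ k ih =>
    rw [pw_succ, pw_succ _ (k + 1), ← ih]
    rfl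

theorem has_dc {U : Hu Γ} {D : Subgroup Γ} (hD : D ≤ U.D) {g : Γ} (h : g ∈ dc D U.t) :
    g ∈ dc U.D U.t ∧ U.χ g = 1 := by
  obtain ⟨d, hd, d', hd', rfl⟩ := h
  exact ⟨⟨d, hD hd, d', hD hd', rfl⟩, by simp [U.hD _ (hD hd), U.hD _ (hD hd'), U.ht]⟩

theorem tk_win {J : Type} {l : Filter J} {E : J → Type} [∀ j, Fintype (E j)]
    [∀ j, MulAction Γ (E j)] (U : Hu Γ) {T : Set Γ} (t1 : 1 ∈ T) (t3 : ∀ g, ∃ r : ℕ, g ∈ T ^ r)
    (a : J → ℕ) (ha : ∀ j, 1 ≤ a j)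
    (z : S.EV l ((Ar.act (.fst Γ Zi) fun j => Nr.pth Γ (Hu.Nb (U := U) (E := E j) T (a j))
      (Hu.Nb.refl t1) Hu.Nb.smul).res fun _ _ => True) (S.au l _).bdd)
    {D : Subgroup Γ} (hD : D ≤ U.D) (fr : Fr D (dc D U.t)) {X : Am.{v', u'}} {Y : Type y}
    {P : Rl (Γ × Zi) Y} (hP : ∀ a g b, P.r a g b → g.1 ∈ D) (F : Fn X (S.LQ P))
    (x : S.und F ⟶ S.und F) (hx : ∀ A, S.Sup {g | g.1 ∈ dc D U.t} (NatTrans.app x A).1) {m : ℕ}
    (hm : pw x m = 0) (n : ℕ) (c : Am.Kn n X X.bdd) : ∀ᶠ j in l, ∀ L,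
      Lat.Gr (E j) (fun _ => True) L → S.tk (.fst Γ Zi) (n + 1) (ncl x hm n c) L = 0 := by
  let _ : ∀ a b, Fintype (U.Wd a b) := fun a b => @Fintype.ofFinite _ (Hu.wd_fin U a b)
  have : ∀ j, ∃ L, ∃ _ : Lat.Gr (E j) (fun _ => True) L,
      S.tk (.fst Γ Zi) (n + 1) (ncl x hm n c) L = 0 → ∀ L, Lat.Gr (E j) (fun _ => True) L →
        S.tk (.fst Γ Zi) (n + 1) (ncl x hm n c) L = 0 := fun j => by
    by_cases e : ∀ L, Lat.Gr (E j) (fun _ => True) L →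
        S.tk (.fst Γ Zi) (n + 1) (ncl x hm n c) L = 0
    · obtain ⟨L, ⟨b⟩⟩ := ctr_zero (Q := Γ) (E j) fun _ => True
      exact ⟨L, b, fun _ => e⟩
    · obtain ⟨L, e⟩ := not_forall.1 e
      obtain ⟨b, e⟩ := not_forall.1 e
      exact ⟨L, b, fun k => (e k).elim⟩
  choose Ls b hL using this
  have hQ : ∀ a g b, P.r a g b → g ∈ U.D.comap (.fst Γ Zi) := fun _ _ _ h => hD (hP _ _ _ h)
  let x' (L : Lat Γ) : S.und (F.post (S.hasT hQ L)) ⟶ S.und (F.post (S.hasT hQ L)) :=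
    Functor.whiskerRight x (LQ.lift S (S.tn (.fst Γ Zi) L))
  have hx' (L : Lat Γ) (A) : S.Sup {g | g.1 ∈ dc U.D U.t} (NatTrans.app (x' L) A).1 :=
    tn_sp _ L ((hx A).mono fun _ h => (has_dc hD h).1)
  let w (j : J) := wX (fun _ _ _ h => h) (F.post (S.hasT hQ (Ls j))) (x' _) (hx' _) (a j) (a j)
  let ξ : F.post (S.hasF l U t1 t3 a b hQ) ⟶ F.post (S.hasF l U t1 t3 a b hQ) :=
    { app := fun A => AS.homMk (fun j => (NatTrans.app (w j) A).1) (fun _ => LQ.p_comp _)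
        (fun _ => LQ.comp_p _) (has_ec U t1 t3 a b (fun j => by exact_mod_cast ha j)
          ((hx A).mono fun _ h => (has_dc hD h).2))
      naturality := fun _ _ f => AS.hom_ext fun j =>
        congrArg (·.1) (NatTrans.naturality (w j) f) }
  have nil (j : J) (A) : pw (NatTrans.app (w j) A).1 (m + 1) = 0 := by
    refine wm_nil hD fr (a j) (a j) (tn_sp _ _ (hx A)) ?_
    rw [← map_pw, ← pw_app, (by rw [pw_succ', hm, zero_comp] : pw x (m + 1) = 0)]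
    exact Functor.map_zero _ _ _
  have hξ : pw ξ (m + 1) = 0 :=
    NatTrans.ext (funext fun A => AS.hom_ext fun j => (has_pw ξ m A j).trans (nil j A))
  have hw (j : J) : pw (w j) (m + 1) = 0 :=
    NatTrans.ext (funext fun A => LQ.hom_ext ((pw_app (w j) m A).trans (nil j A)))
  refine (z (n + 1) (Fn.cl.{v', u', v, max u w} (𝟙 _ - ξ) (Fn.isIso_unip hξ) n c)).mono
    fun j e => hL j ?_
  have k := Fn.pw_post (LQ.lift S (S.tn (.fst Γ Zi) (Ls j))) hm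
  refine (tk_ncl _ _ hm k n c).trans ?_
  refine (DFunLike.congr_fun (win_cl (fun _ _ _ h => h) (F.post (S.hasT hQ (Ls j))) (x' _) (hx' _)
    k (a j) (a j) (hw j) n) c).symm.trans ?_
  have q : 𝟙 _ - w j = Functor.whiskerRight (𝟙 _ - ξ) (AS.ev S l _ j) :=
    NatTrans.ext (funext fun _ => LQ.hom_ext rfl)
  exact (Fn.cl_post.{v', u', v, max u w, v, u} (F := F.post (S.hasF l U t1 t3 a b hQ))
    (t := 𝟙 _ - ξ) (AS.ev S l _ j) (Fn.isIso_unip hξ) q _ n c).trans (e _)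
end G3

end GC

end Pool.Agent.Lib.MP_5d3e93_al
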