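import Pool.Agent.Lib.MP_5d3e93_al.K.HDf

/-! Combinatorics of windows. -/

open CategoryTheory Limits ZeroObject Filter MulAction HNNExtension
open scoped Pointwise

namespace Pool.Agent.Lib.MP_5d3e93_al

universe w w' v u y y' v' u' v'' u''

open Gr

namespace Hu

section HWd
variable {Γ : Type w} [Group Γ] {U : Hu Γ} {a b a' b' a'' b'' : ℕ} {g g' : Γ × Zi}

theorem hwd_up {u u' : Γ} : U.up u u' ↔ u⁻¹ * u' ∈ dc U.D U.t := by
  constructor
  · rintro ⟨s, p, q⟩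
    exact ⟨_, QuotientGroup.eq.1 p, _, QuotientGroup.eq.1 q.symm, by group⟩
  · rintro ⟨d, hd, d', hd', e⟩
    refine ⟨u * d, QuotientGroup.eq.2 (by simpa using hd), (QuotientGroup.eq.2 ?_).symm⟩
    rwa [show (u * d * U.t)⁻¹ * u' = (d * U.t)⁻¹ * (u⁻¹ * u') by group, e, inv_mul_cancel_left]

theorem hwd_smul (s : Γ) {c c' : Γ ⧸ U.D} (h : U.up c c') : U.up (s • c) (s • c') := by
  obtain ⟨u, rfl, rfl⟩ := h
  exact ⟨s * u, rfl, by rw [mul_assoc]; rfl⟩

theorem hwd_fix {s : Γ} (h : s ∈ U.D) : s • ((1 : Γ) : Γ ⧸ U.D) = (1 : Γ) :=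
  (QuotientGroup.eq.2 (show (1 : Γ)⁻¹ * (s * 1) ∈ U.D by simpa using h)).symm

theorem hwd_chi {s : Γ} (h : s ∈ dc U.D U.t) : U.χ s = 1 := by
  obtain ⟨d, hd, d', hd', rfl⟩ := h
  simp [U.hD _ hd, U.hD _ hd', U.ht]

theorem hwd_f1 (c : Γ ⧸ U.D) : {c' | U.up c c'}.Finite := by
  obtain ⟨s, rfl⟩ := QuotientGroup.mk_surjective c
  refine (U.f1.image (s • ·)).subset ?_
  rintro _ ⟨u, p, rfl⟩
  exact ⟨_, ⟨_, QuotientGroup.eq.1 p, rfl⟩,
    congrArg QuotientGroup.mk (show s * (s⁻¹ * u * U.t) = u * U.t by group)⟩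

theorem hwd_f2 (c' : Γ ⧸ U.D) : {c | U.up c c'}.Finite := by
  obtain ⟨s, rfl⟩ := QuotientGroup.mk_surjective c'
  refine (U.f2.image (s • ·)).subset ?_
  rintro _ ⟨u, rfl, p⟩
  exact ⟨_, ⟨_, QuotientGroup.eq.1 p, rfl⟩,
    congrArg QuotientGroup.mk (show s * (s⁻¹ * (u * U.t) * U.t⁻¹) = u by group)⟩

theorem wd_fin (U : Hu Γ) (a b : ℕ) : Finite (U.Wd a b) := by
  have R (k : ℤ) : (Set.range fun x : U.Wd a b => x.v k).Finite := by
    induction k using Int.induction_on with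
    | zero => exact (Set.finite_singleton _).subset (by rintro _ ⟨x, rfl⟩; exact x.bs)
    | succ n ih =>
      refine ((ih.biUnion fun c _ => hwd_f1 c).insert ((1 : Γ) : Γ ⧸ U.D)).subset ?_
      rintro _ ⟨x, rfl⟩
      by_cases c : (n : ℤ) < b
      · exact .inr (Set.mem_biUnion ⟨x, rfl⟩ (x.up n (by omega) c))
      · exact .inl (x.out _ (by omega))
    | pred n ih =>
      refine ((ih.biUnion fun c _ => hwd_f2 c).insert ((1 : Γ) : Γ ⧸ U.D)).subset ?_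
      rintro _ ⟨x, rfl⟩
      by_cases c : (n : ℤ) < a
      · have := x.up (-n - 1) (by omega) (by omega)
        rw [sub_add_cancel] at this
        exact .inr (Set.mem_biUnion ⟨x, rfl⟩ this)
      · exact .inl (x.out _ (by omega))
  have := (Set.Finite.pi' (ι := Set.Icc (-a : ℤ) b) fun k => R k.1).to_subtype
  refine Finite.of_injective (β := {f : Set.Icc (-a : ℤ) b → Γ ⧸ U.D | ∀ k,
    f k ∈ Set.range fun x : U.Wd a b => x.v k.1}) (fun x => ⟨fun k => x.v k.1, fun _ => ⟨x, rfl⟩⟩)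
    fun x y e => Wd.ext (funext fun k => ?_)
  by_cases c : k < -a ∨ b < k
  · rw [x.out k c, y.out k c]
  · exact congrFun (congrArg Subtype.val e) ⟨k, by omega, by omega⟩

theorem wd_one (U : Hu Γ) : ∃ x : U.Wd 0 0, (∀ y, y = x) ∧ ∀ g : Γ × Zi, (g.1 ∈ U.D → ov 0 x g x) ∧
    ov 1 x g x := by
  refine ⟨⟨fun _ => (1 : Γ), rfl, fun k c d => by omega, fun _ _ => rfl⟩,
    fun y => Wd.ext (funext fun k => ?_), fun g => ⟨fun h k _ _ _ _ => (hwd_fix h).symm,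
      fun k _ _ _ _ => by omega⟩⟩
  by_cases c : k = 0
  · exact c ▸ y.bs
  · exact y.out k (by omega)

/-- Sizes for which the middle window covers the overlap of the outer ones. -/
theorem ov_trans {i j : ℤ} {x : U.Wd a b} {y : U.Wd a' b'} {z : U.Wd a'' b''}
    (h : ∀ k : ℤ, -a ≤ k → k ≤ b → -a'' ≤ k - (i + j) → k - (i + j) ≤ b'' →
      -a' ≤ k - i ∧ k - i ≤ b') (p : ov i x g y) (q : ov j y g' z) : ov (i + j) x (g * g') z := by
  intro k c d e f
  obtain ⟨s, t⟩ := h k c d e f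
  rw [p k c d s t, q _ s t (by omega) (by omega), sub_sub, Prod.fst_mul, mul_smul]

/-- The middle window is determined by the outer ones. `i`, `j` are `0` (degree in `D`) or `1`
(degree in the double coset), not both `1` unless the middle window is large. -/
theorem ov_mid {i j : ℤ} {x : U.Wd a b} {z : U.Wd a'' b''}
    (hg : i = 0 ∧ g.1 ∈ U.D ∨ i = 1 ∧ g.1 ∈ dc U.D U.t)
    (hg' : j = 0 ∧ g'.1 ∈ U.D ∨ j = 1 ∧ g'.1 ∈ dc U.D U.t) (hij : i + j ≤ 1)
    (h : ∀ k : ℤ, -a' ≤ k → k ≤ b' → (-a ≤ k + i ∧ k + i ≤ b) ∨ (-a'' ≤ k - j ∧ k - j ≤ b''))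
    (p : ov (i + j) x (g * g') z) : ∃! y : U.Wd a' b', ov i x g y ∧ ov j y g' z := by
  refine existsUnique_of_exists_of_unique ?_ fun y y' ⟨s, t⟩ ⟨s', t'⟩ => Wd.ext (funext fun k => ?_)
  swap
  · by_cases c : k < -a' ∨ b' < k
    · rw [y.out k c, y'.out k c]
    obtain d | d := h k (by omega) (by omega)
    · have := (s _ d.1 d.2 (by omega) (by omega)).symm.trans (s' _ d.1 d.2 (by omega) (by omega))
      rwa [add_sub_cancel_right, smul_left_cancel_iff] at this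
    · exact (t k (by omega) (by omega) d.1 d.2).trans (t' k (by omega) (by omega) d.1 d.2).symm
  obtain ⟨u, ux, uz⟩ : ∃ u : ℤ → Γ ⧸ U.D,
      (∀ k : ℤ, -a ≤ k + i → k + i ≤ b → u k = g.1⁻¹ • x.v (k + i)) ∧
      ∀ k : ℤ, -a'' ≤ k - j → k - j ≤ b'' → u k = g'.1 • z.v (k - j) := by
    refine ⟨fun k => if -a ≤ k + i ∧ k + i ≤ b then g.1⁻¹ • x.v (k + i) else g'.1 • z.v (k - j),
      fun k c d => if_pos ⟨c, d⟩, fun k c d => ?_⟩
    beta_reduce
    split_ifs with e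
    · rw [p _ e.1 e.2 (by omega) (by omega), Prod.fst_mul, mul_smul, inv_smul_smul,
        show k + i - (i + j) = k - j by ring]
    · rfl
  have u0 : u 0 = (1 : Γ) := by
    obtain ⟨rfl, c⟩ | ⟨rfl, -⟩ := hg
    · rw [ux 0 (by omega) (by omega), add_zero, x.bs, hwd_fix (inv_mem c)]
    · obtain ⟨rfl, c⟩ | ⟨rfl, -⟩ := hg'
      · rw [uz 0 (by omega) (by omega), sub_zero, z.bs, hwd_fix c]
      · omega
  have up (k : ℤ) (c : -a' ≤ k) (d : k < b') : U.up (u k) (u (k + 1)) := by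
    by_cases e : -a ≤ k + i ∧ k + i < b
    · rw [ux k e.1 e.2.le, ux _ (by omega) (by omega), add_right_comm]
      exact hwd_smul _ (x.up _ e.1 e.2)
    by_cases f : -a'' ≤ k - j ∧ k - j < b''
    · rw [uz k f.1 f.2.le, uz _ (by omega) (by omega), add_sub_right_comm]
      exact hwd_smul _ (z.up _ f.1 f.2)
    have h1 := h k c d.le
    have h2 := h (k + 1) (by omega) (by omega)
    have hi : i = 0 ∨ i = 1 := hg.imp And.left And.left
    have hj : j = 0 ∨ j = 1 := hg'.imp And.left And.left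
    have e1 : k + i = 0 := by omega
    have e2 : k + 1 - j = 0 := by omega
    rw [ux k (by omega) (by omega), uz _ (by omega) (by omega), e1, e2, x.bs, z.bs]
    refine (hwd_up (u := g.1⁻¹ * 1) (u' := g'.1 * 1)).2 ?_
    rw [mul_one, mul_one, inv_inv]
    obtain ⟨rfl, s⟩ | ⟨rfl, s, hs, s', hs', e⟩ := hg <;>
      obtain ⟨rfl, t⟩ | ⟨rfl, t, ht, t', ht', f⟩ := hg'
    · omega
    · exact ⟨_, mul_mem s ht, _, ht', by rw [f]; group⟩
    · exact ⟨_, hs, _, mul_mem hs' t, by rw [e]; group⟩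
    · omega
  refine ⟨⟨fun k => if -a' ≤ k ∧ k ≤ b' then u k else (1 : Γ), ?_, fun k c d => ?_,
    fun k c => if_neg (by omega)⟩, fun k c d e f => ?_, fun k c d e f => ?_⟩
  · exact (if_pos ⟨by omega, by omega⟩).trans u0
  · rw [if_pos ⟨c, d.le⟩, if_pos ⟨by omega, by omega⟩]
    exact up k c d
  · change _ = g.1 • ite _ _ _
    rw [if_pos ⟨e, f⟩, ux _ (by omega) (by omega), smul_inv_smul, sub_add_cancel]
  · exact (if_pos ⟨c, d⟩).trans (uz k e f)

/-- Lifts of windows. -/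
theorem ex_lift (x : U.Wd a b) : ∃ w : ℤ → Γ, (∀ k, (w k)⁻¹ * w (k + 1) ∈ dc U.D U.t) ∧
    (∀ k, U.χ (w k) = k) ∧ ∀ k : ℤ, -a ≤ k → k ≤ b → x.v k = w k := by
  obtain ⟨w, st, hw⟩ : ∃ w : ℤ → Γ, (∀ k, (w k)⁻¹ * w (k + 1) ∈ dc U.D U.t) ∧
      ∀ k : ℤ, -a ≤ k → k ≤ b → x.v k = w k := by
    obtain ⟨cl, c1, c2⟩ : ∃ cl : ℤ → ℤ, (∀ k : ℤ, -a ≤ k → k ≤ b → cl k = k) ∧
        ∀ k : ℤ, ¬(-a ≤ k ∧ k < b) → cl (k + 1) = cl k :=
      ⟨fun k => max (-a) (min k b), fun k _ _ => by beta_reduce; omega,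
        fun k _ => by beta_reduce; omega⟩
    have o (k : ℤ) (c : -a ≤ k) (d : k ≤ b) :
        x.v k = ((x.v (cl k)).out * U.t ^ (k - cl k) : Γ) := by
      rw [c1 k c d, sub_self, zpow_zero, mul_one, QuotientGroup.out_eq']
    refine ⟨fun k => (x.v (cl k)).out * U.t ^ (k - cl k), fun k => ?_, o⟩
    by_cases c : -a ≤ k ∧ k < b
    · refine hwd_up.1 ?_
      rw [← o k c.1 c.2.le, ← o _ (by omega) (by omega)]
      exact x.up k c.1 c.2
    · beta_reduce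
      rw [c2 k c]
      convert self_mem_dc U.t using 1
      group
  refine ⟨w, st, fun k => ?_, hw⟩
  have s (k : ℤ) : U.χ (w (k + 1)) = U.χ (w k) + 1 := by
    have := hwd_chi (st k)
    simp only [Ch.mul, Ch.inv] at this
    omega
  induction k using Int.induction_on with
  | zero =>
    exact U.hD _ (by simpa using QuotientGroup.eq.1 (x.bs.symm.trans (hw 0 (by omega) (by omega))))
  | succ n ih => rw [s, ih]
  | pred n ih =>
    have := s (-n - 1)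
    rw [sub_add_cancel] at this
    omega

theorem hwd_glue {E : Type} (x y : U.WL E) (h : Ag x y 0) : ∃ w : ℤ → Γ,
    (∀ k, (w k)⁻¹ * w (k + 1) ∈ dc U.D U.t) ∧ (∀ k, U.χ (w k) = k) ∧ (∀ k ≤ 0, w k = x.w k) ∧
      ∀ k, 0 < k → w k = y.w k := by
  refine ⟨fun k => if k ≤ 0 then x.w k else y.w k, fun k => ?_, fun k => ?_, fun k c => if_pos c,
    fun k c => if_neg (by omega)⟩
  all_goals beta_reduce
  · split_ifs with c d d
    · exact x.up k
    · obtain rfl : k = 0 := by omega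
      obtain ⟨s, hs, s', hs', e⟩ := y.up 0
      exact ⟨_, mul_mem h hs, _, hs', by
        rw [mul_assoc, mul_assoc, ← mul_assoc s, ← e]; group⟩
    · omega
    · exact y.up k
  · split_ifs
    exacts [x.lv k, y.lv k]

theorem hwd_walk {T : Set Γ} {E : Type} (e : E) {w : ℤ → Γ} (p) (q) (r : ℕ) : ∀ γ ∈ T ^ r, ∀ δ : Γ,
    Pth (Nb T a) r (⟨e, δ, w, p, q⟩ : U.WL E) ⟨e, δ * γ, w, p, q⟩ := by
  induction r with
  | zero =>
    intro γ h δ
    rw [pow_zero, Set.mem_one] at h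
    rw [h, mul_one]
    rfl
  | succ r ih =>
    intro γ h δ
    rw [pow_succ'] at h
    obtain ⟨s, hs, t, ht, rfl⟩ := h
    refine ⟨⟨e, δ * s, w, p, q⟩, ⟨rfl, by simpa using hs, fun _ _ _ => by simp [Ag]⟩, ?_⟩
    beta_reduce
    rw [← mul_assoc]
    exact ih t ht _

/-- Change the window to the glued one, walk along a word for `g`, change the window again. -/
theorem wl_ctl {T : Set Γ} (t1 : 1 ∈ T) {r : ℕ} {γ : Γ} (hγ : γ ∈ T ^ r) {E : Type} [MulAction Γ E]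
    (ha : |U.χ γ| ≤ a) {x y : U.WL E} (hx : x.γ = 1) (hy : y.γ = γ) (e : x.e = y.e)
    (h : ∀ k : ℤ, |k| ≤ a → |k - U.χ γ| ≤ a → Ag x y k) : Pth (Nb T a) (r + 2) x y := by
  have h' (k : ℤ) (c : |k| ≤ a) (d : |k - U.χ γ| ≤ a) : Ag y x k := by
    simpa [Ag] using inv_mem (h k c d)
  obtain ⟨w, p, q, wx, wy⟩ : ∃ w : ℤ → Γ, (∀ k, (w k)⁻¹ * w (k + 1) ∈ dc U.D U.t) ∧
      (∀ k, U.χ (w k) = k) ∧ (∀ k : ℤ, |k| ≤ a → (x.w k)⁻¹ * w k ∈ U.D) ∧
      ∀ k : ℤ, |k - U.χ γ| ≤ a → (w k)⁻¹ * y.w k ∈ U.D := by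
    simp only [abs_le] at h h' ha ⊢
    obtain c | c := le_total 0 (U.χ γ)
    · obtain ⟨w, p, q, s, t⟩ := hwd_glue x y (h 0 (by omega) (by omega))
      refine ⟨w, p, q, fun k d => ?_, fun k d => ?_⟩ <;> obtain l | l := le_or_gt k 0
      · simp [s k l]
      · exact t k l ▸ h k d (by omega)
      · exact s k l ▸ h k (by omega) d
      · simp [t k l]
    · obtain ⟨w, p, q, s, t⟩ := hwd_glue y x (h' 0 (by omega) (by omega))
      refine ⟨w, p, q, fun k d => ?_, fun k d => ?_⟩ <;> obtain l | l := le_or_gt k 0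
      · exact s k l ▸ h k d (by omega)
      · simp [t k l]
      · simp [s k l]
      · exact t k l ▸ h k (by omega) d
  have := (hwd_walk (a := a) x.e p q r γ hγ 1).trans (m := 1) (y := y)
    ⟨y, ⟨e, by simpa [hy], fun k c _ => wy k (by simpa using c)⟩, rfl⟩
  rw [add_comm 1 r] at this
  exact ⟨⟨x.e, 1, w, p, q⟩, ⟨rfl, by simpa [hx], fun k _ c => wx k (by simpa using c)⟩, this⟩
end HWd

end Hu

end Pool.Agent.Lib.MP_5d3e93_al
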