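import Pool.Agent.Lib.MP_5d3e93_al.K.HMt
import Pool.Agent.Lib.MP_5d3e93_al.K.HWd

/-! Control of the matrices of overlapping windows. -/

open CategoryTheory Limits Filter MulAction
open scoped Pointwise

namespace Pool.Agent.Lib.MP_5d3e93_al

universe w v u

namespace Hu

variable {Γ : Type w} [Group Γ] {U : Hu Γ} {E : Type} {a : ℕ}

/-- The location of a window at the base point. -/
noncomputable def bt (z : E × U.Wd a a) : U.WL E :=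
  ⟨z.1, 1, (ex_lift z.2).choose, (ex_lift z.2).choose_spec.1, (ex_lift z.2).choose_spec.2.1⟩

theorem bt_w (z : E × U.Wd a a) {k : ℤ} (h : |k| ≤ a) : z.2.v k = (bt z).w k :=
  (ex_lift z.2).choose_spec.2.2 k (abs_le.1 h).1 (abs_le.1 h).2

theorem bt_ctl [MulAction Γ E] {T : Set Γ} (t1 : 1 ∈ T) {g : Γ × Zi} {r : ℕ} (hg : g.1 ∈ T ^ r)
    {s : ℤ} (hs : U.χ g.1 = s) (ha : |s| ≤ a) {z z' : E × U.Wd a a} (e : z.1 = g.1 • z'.1)
    (o : ov s z.2 g z'.2) : Pth (Nb T a) (r + 2) (bt z) (g.1 • bt z') := by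
  subst hs
  refine wl_ctl t1 hg ha rfl (mul_one _) e fun k h1 h2 => QuotientGroup.eq.1 ?_
  rw [← bt_w z h1, o k (abs_le.1 h1).1 (abs_le.1 h1).2 (abs_le.1 h2).1 (abs_le.1 h2).2, bt_w z' h2]
  rfl

end Hu

namespace GC

variable {Γ : Type w} [Group Γ] {C : Type u} [Category.{v} C] [Preadditive C] [HasZeroObject C]
  {S : GC (Γ × Zi) C}

/-- One radius controls the matrices of windows for all members of the family. -/
theorem hsc_ec {J : Type} {l : Filter J} {E : J → Type} [∀ j, Fintype (E j)]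
    [∀ j, MulAction Γ (E j)] (U : Hu Γ) [∀ a b, Fintype (U.Wd a b)] {T : Set Γ} (t1 : 1 ∈ T)
    (t3 : ∀ g, ∃ r : ℕ, g ∈ T ^ r) (a : J → ℕ) (ha : ∀ j, 1 ≤ a j) {Ls : J → Lat Γ}
    (gr : ∀ j, Lat.Gr (E j) (fun _ => True) (Ls j)) {A B : C} {f : A ⟶ B} {s : ℤ} (hs : |s| ≤ 1)
    (h : S.Sup {g | U.χ g.1 = s} f) :
    Ec l ((Ar.act (.fst Γ Zi) fun j => Nr.pth Γ (Hu.Nb (U := U) (E := E j) T (a j))
      (Hu.Nb.refl t1) Hu.Nb.smul).res fun _ _ => True)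
      (fun j => ((S.cpw _ (U.Wd (a j) (a j))).lo (S.tnL (.fst Γ Zi) (gr j) A)).map Hu.bt)
      (fun j => ((S.cpw _ (U.Wd (a j) (a j))).lo (S.tnL (.fst Γ Zi) (gr j) B)).map Hu.bt)
      fun j => (S.cpw _ (U.Wd (a j) (a j))).mat (S.cpw _ (U.Wd (a j) (a j))) (Hu.ov s)
        ((S.tn (.fst Γ Zi) (Ls j)).map f) := by
  obtain ⟨F, fin, sub, hF⟩ := h.finite
  choose r hr using t3
  obtain ⟨m, hm⟩ := (fin.image fun g => r g.1).bddAbove
  refine ⟨m + 2, .of_forall fun j => (Cp.mat_rg _ _ (tnL_rg (gr j) hF)).map (Lo.on_true _)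
    (Lo.on_true _) fun z g z' _ _ k => ⟨Pth.succ (Hu.Nb.refl t1)
      (Nat.add_le_add_right (hm ⟨g, k.1.1, rfl⟩) 2) (Hu.bt_ctl t1 (hr g.1) (sub k.1.1)
        (hs.trans (by exact_mod_cast ha j)) k.1.2 k.2), trivial, trivial⟩⟩

omit [HasZeroObject C] in
theorem hsc_sup0 (U : Hu Γ) {A B : C} {f : A ⟶ B} (h : S.Sup {g | g.1 ∈ U.D} f) :
    S.Sup {g | U.χ g.1 = 0} f := h.mono fun g k => U.hD g.1 k

omit [HasZeroObject C] in
theorem hsc_sup1 (U : Hu Γ) {A B : C} {f : A ⟶ B} (h : S.Sup {g | g.1 ∈ dc U.D U.t} f) :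
    S.Sup {g | U.χ g.1 = 1} f := h.mono fun g ⟨d, hd, d', hd', k⟩ => by
  change U.χ g.1 = 1
  rw [k, U.χ.mul, U.χ.mul, U.hD d hd, U.hD d' hd', U.ht]
  rfl

end GC

end Pool.Agent.Lib.MP_5d3e93_al
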