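import Pool.Agent.Lib.MP_5d3e93_al.K.HDf

/-! Classes of natural automorphisms and of nilpotent endomorphisms. -/

open CategoryTheory Limits ZeroObject Filter MulAction HNNExtension
open scoped Pointwise

namespace Pool.Agent.Lib.MP_5d3e93_al

universe w w' v u y y' v' u' v'' u''

open Gr

section HCl
variable {X : Am.{v, u}} {B : Type (max u' v')} [Category.{v'} B] [Preadditive B] [HasZeroObject B]
  [HasBinaryBiproducts B] {F F' : Fn X B} {t : F ⟶ F}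

theorem Gr.Fn.Tr.cl (h : Fn.Tr.{v, u, v', u'} t) (i : IsIso t) (n : ℕ) :
    Fn.cl.{v, u, v', u'} t i n = 0 := Am.Tr.cls h n _

theorem Gr.Fn.tr_of_cl (i : IsIso t) (h : ∀ n c, Fn.cl.{v, u, v', u'} t i n c = 0) :
    Fn.Tr.{v, u, v', u'} t := Am.tr_of ⟨i.out⟩ fun n _ => AddMonoidHom.ext (h n)

theorem Gr.Fn.cl_congr {s : F ⟶ F} (e : t = s) (i : IsIso t) (k : IsIso s) (n : ℕ) :
    Fn.cl.{v, u, v', u'} t i n = Fn.cl.{v, u, v', u'} s k n := by
  subst e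
  rfl

theorem Gr.Fn.cl_cyc (x : F ⟶ F') (y : F' ⟶ F) (i : IsIso (𝟙 F - x ≫ y)) (k : IsIso (𝟙 F' - y ≫ x))
    (n : ℕ) : Fn.cl.{v, u, v', u'} _ i n = Fn.cl.{v, u, v', u'} _ k n :=
  Am.cls_cyc n (f := Fn.map.{v, u, v', u'} F) (g := Fn.map.{v, u, v', u'} F') x y _ _

theorem Gr.Fn.cl_conj (e : F ≅ F') {s : F' ⟶ F'} (h : e.hom ≫ s = t ≫ e.hom) (i : IsIso t)
    (k : IsIso s) (n : ℕ) : Fn.cl.{v, u, v', u'} t i n = Fn.cl.{v, u, v', u'} s k n :=
  Am.cls_conj n (f := Fn.map.{v, u, v', u'} F) (g := Fn.map.{v, u, v', u'} F') _ _ e.hom h.symm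
    fun Y _ => (((Fn.map.{v, u, v', u'} F).natIso (Fn.map.{v, u, v', u'} F')
      ⟨e.hom, e.inv, e.hom_inv_id, e.inv_hom_id⟩).app Y).isIso_hom

theorem Gr.Fn.cl_post {B' : Type (max u'' v'')} [Category.{v''} B'] [Preadditive B']
    [HasZeroObject B'] [HasBinaryBiproducts B'] (Φ : B ⥤ B') [Φ.Additive] (i : IsIso t)
    {s : F.post Φ ⟶ F.post Φ} (e : s = Functor.whiskerRight t Φ) (k : IsIso s) (n : ℕ)
    (c : Am.Kn n X X.bdd) : Fn.cl.{v, u, v'', u''} s k n c =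
      Am.Kmap (n + 1) (Am.ofOf.{v', u', v'', u''} Φ) (Am.Map.bdd_map _)
        (Fn.cl.{v, u, v', u'} t i n c) := by
  subst e
  exact Am.cls_post n (f := Fn.map.{v, u, v', u'} F) _ (Am.ofOf.{v', u', v'', u''} Φ) _ c

theorem Gr.Fn.HCl_pw {B' : Type u''} [Category.{v''} B'] [Preadditive B'] (Φ : B ⥤ B') [Φ.Additive]
    (m : ℕ) : pw (C := Fn X B') (A := F.post Φ) (Functor.whiskerRight t Φ) m =
      Functor.whiskerRight (pw (C := Fn X B) (A := F) t m) Φ := by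
  induction m with
  | zero => exact (Functor.whiskerRight_id' Φ).symm
  | succ m ih =>
    exact (congrArg (fun z : F.post Φ ⟶ F.post Φ => (Functor.whiskerRight t Φ ≫ z :)) ih).trans
      (Functor.whiskerRight_comp (G := F.F) t (pw (C := Fn X B) (A := F) t m) Φ).symm

/-- Whiskering commutes with powers. -/
theorem Gr.Fn.pw_post {B' : Type u''} [Category.{v''} B'] [Preadditive B'] (Φ : B ⥤ B') [Φ.Additive]
    {m : ℕ} (h : pw t m = 0) :
    pw (C := Fn X B') (A := F.post Φ) (Functor.whiskerRight t Φ) m = 0 := by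
  refine (Fn.HCl_pw Φ m).trans ((congrArg (fun z : F ⟶ F => Functor.whiskerRight z Φ) h).trans ?_)
  change Functor.whiskerRight (0 : F.F ⟶ F.F) Φ = (0 : F.F ⋙ Φ ⟶ F.F ⋙ Φ)
  ext A
  simp
end HCl

namespace GC

section HCl2
variable {G : Type w} [Group G] {C : Type u} [Category.{v} C] [Preadditive C] [HasZeroObject C]
  {S : GC G C} {X : Am.{v', u'}} {U U' : Fn X (S.LQ (Rl.pt ⊤))} {x : U ⟶ U} {m : ℕ}

theorem tr_of_ncl (h : pw x m = 0) (k : ∀ n c, ncl x h n c = 0) :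
    Fn.Tr.{v', u', v, u} (𝟙 U - x) := Fn.tr_of_cl _ k

theorem ncl_of_tr (h : pw x m = 0) (k : Fn.Tr.{v', u', v, u} (𝟙 U - x)) (n : ℕ) : ncl x h n = 0 :=
  k.cl _ n

theorem ncl_cyc (s : U ⟶ U') (t : U' ⟶ U) {m' : ℕ} (h : pw (s ≫ t) m = 0) (k : pw (t ≫ s) m' = 0)
    (n : ℕ) : ncl _ h n = ncl _ k n := Fn.cl_cyc.{v', u', v, u} s t _ _ n

theorem tk_ncl {Q : Type w'} [Group Q] (π : G →* Q) (L : Lat Q) (h : pw x m = 0)
    (k : pw (C := Fn X (S.LQ (Rl.pt ⊤))) (A := U.post (LQ.lift S (S.tn π L)))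
      (Functor.whiskerRight x (LQ.lift S (S.tn π L))) m = 0) (n : ℕ) (c : Am.Kn n X X.bdd) :
    S.tk π (n + 1) (ncl x h n c) L = ncl _ k n c :=
  (Fn.cl_post.{v', u', v, u, v, u} (LQ.lift S (S.tn π L)) _ (NatTrans.ext (funext fun A =>
    ((congrArg₂ (· - ·) ((LQ.lift S (S.tn π L)).map_id (U.F.obj A)).symm rfl).trans
      (LQ.lift S (S.tn π L)).map_sub.symm :
        𝟙 _ - (LQ.lift S (S.tn π L)).map (NatTrans.app x A) =
          (LQ.lift S (S.tn π L)).map (𝟙 _ - NatTrans.app x A)))) _ n c).symm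

theorem up_top (n : ℕ) (y : Am.Kn n S.top S.top.bdd) :
    Am.Kmap n (S.up ⊤) (Am.Map.bdd_map _) y = y := Am.Kinc_refl n le_rfl y

theorem tn_sp {Q : Type w'} [Group Q] (π : G →* Q) (L : Lat Q) {A B : C} {T : Set G} {f : A ⟶ B}
    (h : S.Sup T f) : S.Sup T ((S.tn π L).map f) :=
  Fm.sup_desc _ fun m => h.induction (P := fun f => S.Sup T (S.ac2 A π L (S.fm B L.M).In m f))
    (by rw [map_zero]; exact .zero) (fun a b ha hb => by rw [map_add]; exact ha.add hb)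
    fun g hg => by
      rw [ac2_cp]
      exact (Sup.of_cp (S.cp_same g f) hg).comp_one ((S.fm B L.M).sIn _).cp_eq

/-- Components of powers. -/
theorem pw_app (x : U ⟶ U) (k : ℕ) (A : X.A) :
    (NatTrans.app (pw x (k + 1)) A).1 = pw (NatTrans.app x A).1 (k + 1) := by
  induction k with
  | zero => exact (LQ.comp_p (NatTrans.app x A)).trans (Category.comp_id _).symm
  | succ k ih => exact congrArg ((NatTrans.app x A).1 ≫ ·) ih
end HCl2

end GC

end Pool.Agent.Lib.MP_5d3e93_al
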