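import Pool.Agent.Lib.MP_5d3e93_al.K.Laz
import Pool.Agent.Lib.MP_5d3e93_al.K.Cyc
import Pool.Agent.Lib.MP_5d3e93_al.K.Diag
import Pool.Agent.Lib.MP_5d3e93_al.K.Push

/-! Nil terms over sets with finite stabilisers. -/

open CategoryTheory Limits ZeroObject MulAction

namespace Pool.Agent.Lib.MP_5d3e93_al

universe w v u

section Comb

variable {Γ : Type w} [Group Γ] {Y : Type w} [MulAction Γ Y] {R : Y → Y → Prop}

theorem Unq.mono {R' : Y → Y → Prop} (h : Unq R) (k : ∀ a b, R' a b → R a b) : Unq R' := by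
  have e (n : ℕ) : ∀ a b, Pth R' n a b → Pth R n a b := by
    induction n with
    | zero => exact fun _ _ => id
    | succ n ih => exact fun a b ⟨c, x, y⟩ => ⟨c, k _ _ x, ih _ _ y⟩
  exact fun n σ τ x y a b c d => h n σ τ x y (k _ _ a) (k _ _ b) (e _ _ _ c) (e _ _ _ d)

theorem Unq.pth (h : Unq R) (l : ℕ) : Unq (Pth R l) := by
  have e (n : ℕ) : ∀ a b, Pth (Pth R l) n a b → Pth R (n * l) a b := by
    induction n with
    | zero => exact fun _ _ x => by rw [zero_mul]; exact x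
    | succ n ih => exact fun a b ⟨c, x, y⟩ => by rw [add_one_mul]; exact x.trans (ih _ _ y)
  exact fun n σ τ x y a b c d => Pth.uniq h a b (e _ _ _ c) (e _ _ _ d)

variable (Γ R) in
/-- Paths whose steps lie in given orbits of pairs. -/
def PO : List (Set (Y × Y)) → Y → Y → Prop
  | [], a, b => a = b
  | k :: κ, a, b => ∃ d, R a d ∧ orbit Γ (a, d) = k ∧ PO κ d b

theorem PO.pth {κ : List (Set (Y × Y))} : ∀ {a b : Y}, PO Γ R κ a b → Pth R κ.length a b := by
  induction κ with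
  | nil => exact id
  | cons k κ ih => exact fun ⟨d, x, _, y⟩ => ⟨d, x, ih y⟩

theorem PO.smul (hR : ∀ (g : Γ) a b, R a b → R (g • a) (g • b)) (g : Γ)
    {κ : List (Set (Y × Y))} : ∀ {a b : Y}, PO Γ R κ a b → PO Γ R κ (g • a) (g • b) := by
  induction κ with
  | nil => exact fun h => congrArg (g • ·) h
  | cons k κ ih => exact fun {a b} ⟨d, x, e, y⟩ =>
    ⟨g • d, hR _ _ _ x, (orbit_smul g (a, d)).trans e, ih y⟩

theorem PO.sep (hu : Unq R) {κ : List (Set (Y × Y))} : ∀ {κ' : List (Set (Y × Y))} {a b : Y},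
    κ.length = κ'.length → PO Γ R κ a b → PO Γ R κ' a b → κ = κ' := by
  induction κ with
  | nil => exact fun h _ _ => (List.length_eq_zero_iff.1 h.symm).symm
  | cons k κ ih =>
    rintro (_ | ⟨k', κ'⟩) a b h x y
    · simp at h
    obtain ⟨d, x1, rfl, x2⟩ := x
    obtain ⟨d', y1, rfl, y2⟩ := y
    have e : κ.length = κ'.length := by simpa using h
    obtain rfl := hu _ _ _ _ _ x1 y1 x2.pth (e ▸ y2.pth)
    rw [ih e x2 y2]

theorem card_stab (g : Γ) (a : Y) :
    Nat.card (stabilizer Γ (g • a)) = Nat.card (stabilizer Γ a) :=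
  Nat.card_congr (stabilizerEquivStabilizerOfOrbitRel (mem_orbit a g)).toEquiv

theorem vc_of_orbit (V : Subgroup Γ) (x : Y) [Finite (stabilizer Γ x)] (u : V)
    (h : ∀ g ∈ V, ∃ k : ℤ, g • x = (u : Γ) ^ k • x) : (Subgroup.zpowers u).FiniteIndex := by
  have : Finite {d : V // (d : Γ) • x = x} := .of_injective
    (fun d => (⟨d.1, d.2⟩ : stabilizer Γ x)) fun _ _ e =>
      Subtype.ext (Subtype.ext (Subtype.mk.inj e))
  have : Finite (V ⧸ Subgroup.zpowers u) := .of_surjective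
    (fun d : {d : V // (d : Γ) • x = x} => (d.1 : V ⧸ Subgroup.zpowers u)) fun c => by
      obtain ⟨g, rfl⟩ := QuotientGroup.mk_surjective c
      obtain ⟨k, e⟩ := h _ (inv_mem g.2)
      exact ⟨⟨g * u ^ k, by simp [mul_smul, ← e]⟩, QuotientGroup.mk_mul_of_mem _ ⟨k, rfl⟩⟩
  exact Subgroup.finiteIndex_of_finite_quotient

theorem fix_zpow {a : Y} {t : Γ} (h : stabilizer Γ a = stabilizer Γ (t • a)) (k : ℤ) {d : Γ}
    (e : d • a = a) : d • t ^ k • a = t ^ k • a := by
  have n : t ∈ Subgroup.normalizer (stabilizer Γ a : Set Γ) :=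
    Subgroup.mem_normalizer_iff.2 fun g => by
      conv_rhs => rw [h]
      simp [mul_smul]
  have := (Subgroup.mem_normalizer_iff''.1 (zpow_mem n k) d).1 e
  simpa [mul_smul, inv_smul_eq_iff] using this

end Comb

open Gr

namespace GC

variable {G : Type w} [Group G] {C : Type u} [Category.{v} C] [Preadditive C] [HasZeroObject C]
variable {S : GC G C} {Γ : Type w} [Group Γ] {q : G →* Γ} {Y : Type w} [MulAction Γ Y]

theorem wr_po {R : Y → Y → Prop} (hR : ∀ (g : Γ) a b, R a b → R (g • a) (g • b))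
    {κ : List (Set (Y × Y))} : ∀ {a g b}, Wr (fun a g b => R a (q g • b))
      (fun a g b => orbit Γ (a, q g • b)) κ a g b → PO Γ R κ a (q g • b) := by
  induction κ with
  | nil =>
    rintro a _ _ ⟨rfl, rfl⟩
    exact show a = _ by simp
  | cons k κ ih =>
    rintro a _ b ⟨h, d, h', x, y, z, rfl⟩
    exact ⟨_, x, y, by rw [map_mul, mul_smul]; exact (ih z).smul hR _⟩

/-- Reduction to single orbits of pairs. -/
theorem gi_orb (Ω : Y → Prop) (h : ∀ a b, Ω a → Unq (fun x y => (x, y) ∈ orbit Γ (a, b)) →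
    S.GI q Y fun x y => (x, y) ∈ orbit Γ (a, b)) (R : Y → Y → Prop)
    (hR : ∀ (g : Γ) a b, R a b → R (g • a) (g • b)) (hu : Unq R) (hΩ : ∀ a b, R a b → Ω a) :
    S.GI q Y R := by
  intro m
  induction m generalizing R with
  | zero => exact gm_one.anti zero_le_one
  | succ m ih =>
    obtain rfl | hm := Nat.eq_zero_or_pos m
    · exact gm_one
    refine gm_laz (fun a g b => orbit Γ (a, q g • b)) ?_ ?_
      (fun _ _ _ _ _ e x y => PO.sep hu e (wr_po hR x) (wr_po hR y)) (fun k => ?_) (fun κ l => ?_) hm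
    · rintro _ g b h d rfl -
      rw [map_mul, mul_smul]
      exact orbit_smul (q g) (b, q h • d)
    · rintro a g _ h d - rfl
      rw [map_mul, mul_smul]
    · by_cases e : ∃ a b, R a b ∧ orbit Γ (a, b) = k
      · obtain ⟨a, b, x, rfl⟩ := e
        refine (h a b (hΩ _ _ x) (hu.mono ?_) _).push id (fun _ _ _ => id) fun _ _ _ y =>
          y.2 ▸ mem_orbit_self _
        rintro c d ⟨g, y⟩
        obtain ⟨rfl, rfl⟩ := Prod.ext_iff.1 y
        exact hR g _ _ x
      · exact gm_empty fun a g b x => e ⟨_, _, x⟩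
    · refine (ih (Pth R κ.length) (fun g _ _ => Pth.smul hR g) (hu.pth _) ?_).push id
        (fun _ _ _ => id) fun _ _ _ y => (wr_po hR y).pth
      obtain _ | ⟨k, κ⟩ := κ
      · simp at l
      · exact fun a b ⟨c, x, _⟩ => hΩ _ _ x

/-- Different orbits of points. -/
theorem gi_ne {a b : Y} (h : b ∉ orbit Γ a) : S.GI q Y fun x y => (x, y) ∈ orbit Γ (a, b) := by
  classical
  intro m
  have e (g : Γ) (y : Y) : g • y ∈ orbit Γ a ↔ y ∈ orbit Γ a :=
    ⟨fun k => by simpa using mapsTo_smul_orbit g⁻¹ a k, fun k => mapsTo_smul_orbit g a k⟩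
  have f (x g y) (k : (x, q g • y) ∈ orbit Γ (a, b)) : x ∈ orbit Γ a ∧ y ∉ orbit Γ a := by
    obtain ⟨c, k⟩ := k
    obtain ⟨k1, k2⟩ := Prod.ext_iff.1 k
    exact ⟨⟨c, k1⟩, fun l => h ((e c b).1 ((show c • b = q g • y from k2) ▸ (e _ _).2 l))⟩
  refine gm_tri (fun y => if y ∈ orbit Γ a then 0 else 1) ?_ (fun x g y k => ?_) fun k =>
    gm_empty fun x g y l => ?_
  · rintro _ g y rfl
    simp only [e, le_refl]
  · simp [f x g y k]
  · have := l.2.1.trans l.2.2.symm
    simp [f x g y l.1] at this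

/-- Equal stabilisers. -/
theorem gi_eq
    (hV : ∀ (V : Subgroup Γ) (x : V), (Subgroup.zpowers x).FiniteIndex → S.WK (V.comap q))
    (fin : ∀ a : Y, Finite (stabilizer Γ a)) {a : Y} {t : Γ}
    (h : stabilizer Γ a = stabilizer Γ (t • a)) :
    S.GI q Y fun x y => (x, y) ∈ orbit Γ (a, t • a) := by
  intro m
  let s (x y : Y) : Prop := x = y ∨ ∃ (g : Γ) (k : ℤ), x = g • a ∧ y = g • t ^ k • a
  have k0 {g g' : Γ} (e : g • a = g' • a) (k : ℤ) : g • t ^ k • a = g' • t ^ k • a := by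
    have := fix_zpow h k (d := g'⁻¹ * g) (by rw [mul_smul, e, inv_smul_smul])
    rwa [mul_smul, inv_smul_eq_iff] at this
  have s1 (x y z) : s x y → s y z → s x z := by
    rintro (rfl | ⟨g, k, rfl, rfl⟩) l
    · exact l
    obtain rfl | ⟨g', k', e, rfl⟩ := l
    · exact .inr ⟨g, k, rfl, rfl⟩
    · rw [← mul_smul] at e
      exact .inr ⟨g, k + k', rfl, by rw [← k0 e, zpow_add, mul_smul, mul_smul]⟩
  have s2 (c : Γ) (x y) : s x y → s (c • x) (c • y) := by
    rintro (rfl | ⟨g, k, rfl, rfl⟩)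
    · exact .inl rfl
    · exact .inr ⟨c * g, k, (mul_smul ..).symm, (mul_smul ..).symm⟩
  have s3 (x y) : s x y → s y x := by
    rintro (rfl | ⟨g, k, rfl, rfl⟩)
    · exact .inl rfl
    · exact .inr ⟨g * t ^ k, -k, (mul_smul ..).symm, by simp [mul_smul]⟩
  have s4 (g : Γ) (x y) (l : s x (g • y)) : s y (g⁻¹ • x) := by simpa using s2 g⁻¹ _ _ (s3 _ _ l)
  refine Gm.push (P' := Rl.act q s s1 s2) id (fun _ _ _ => .inl) ?_
    (gm_of_zq (zq_diag (fun x g y l => ?_) fun x H l => ?_) fun _ _ _ => id)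
  · rintro x g y ⟨c, e⟩
    obtain ⟨e1, e2⟩ := Prod.ext_iff.1 e
    exact .inr ⟨c, 1, e1.symm, by rw [zpow_one]; exact e2.symm⟩
  · exact show s y (q g⁻¹ • x) from map_inv q g ▸ s4 _ _ _ l
  · let V : Subgroup Γ := ⟨⟨⟨{g | s x (g • x)}, fun {g g'} c d => s1 _ _ _ c
      (by rw [mul_smul]; exact s2 _ _ _ d)⟩, .inl (one_smul _ _).symm⟩, fun c => s4 _ _ _ c⟩
    rw [show H = V.comap q from Subgroup.ext l]
    have := fin x
    by_cases e : x ∈ orbit Γ a
    · obtain ⟨c, rfl⟩ := e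
      refine hV V ⟨c * t * c⁻¹, .inr ⟨c, 1, rfl, by simp [mul_smul]⟩⟩ (vc_of_orbit V (c • a) _ ?_)
      rintro g (o | ⟨g', k, o, p⟩)
      · exact ⟨0, by simpa using o.symm⟩
      · exact ⟨k, by rw [p, ← k0 o]; simp [mul_smul]⟩
    · refine hV V 1 (vc_of_orbit V x _ ?_)
      rintro g (o | ⟨g', k, o, -⟩)
      · exact ⟨0, by simpa using o.symm⟩
      · exact (e ⟨g', o.symm⟩).elim

/-- Passage to the set of steps. -/
theorem gi_step (fin : ∀ a : Y, Finite (stabilizer Γ a)) {p : Y × Y}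
    (h : S.GI q (orbit Γ p) fun r r' => r.1.2 = r'.1.1) :
    S.GI q Y fun x y => (x, y) ∈ orbit Γ p := by
  intro m
  have f (y : Y) : {r : orbit Γ p | r.1.2 = y}.Finite := by
    obtain e | ⟨r, e⟩ := {r : orbit Γ p | r.1.2 = y}.eq_empty_or_nonempty
    · exact e ▸ Set.finite_empty
    have := fin y
    refine (Set.finite_range fun d : stabilizer Γ y => (d : Γ) • r).subset fun r' e' => ?_
    obtain ⟨g, rfl⟩ := exists_smul_eq Γ r r'
    exact ⟨⟨g, show g • y = y from (congrArg (g • ·) e.symm).trans e'⟩, rfl⟩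
  refine Gm.cyc (fun y => (f y).toFinset) (fun x g r => x = q g • r.1.1) ?_ ?_ ?_ ?_ ?_ ?_ ?_
    (h (m + 1))
  · rintro _ g y r rfl k
    simp only [Set.Finite.mem_toFinset, Set.mem_ofPred_eq] at k ⊢
    refine ⟨(q g)⁻¹ • r, ⟨inv_smul_eq_iff.2 k, (smul_inv_smul _ _).symm⟩, ?_⟩
    rintro r' ⟨-, rfl⟩
    exact (inv_smul_smul _ _).symm
  · intro x g y k
    simp only [Set.Finite.mem_toFinset, Set.mem_ofPred_eq]
    refine ⟨⟨((q g)⁻¹ • x, y), by simpa using mapsTo_smul_orbit (q g)⁻¹ p k⟩,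
      ⟨rfl, (smul_inv_smul _ _).symm⟩, ?_⟩
    rintro r ⟨rfl, rfl⟩
    exact Subtype.ext (Prod.ext (inv_smul_smul _ _).symm rfl)
  · rintro _ g x h y rfl k
    rw [map_mul, mul_smul]
    exact mapsTo_smul_orbit (q g) p k
  · rintro x g _ h y k rfl
    rwa [map_mul, mul_smul]
  · rintro _ g _ h r rfl rfl
    rw [map_mul, mul_smul]
  · rintro _ g _ h r rfl rfl
    rw [map_mul, mul_smul]
    rfl
  · intro x r g y r' k _ _ l
    exact ((f x).mem_toFinset.1 k).trans l

theorem unq_step {p : Y × Y} (h : Unq fun x y => (x, y) ∈ orbit Γ p) :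
    Unq fun r r' : orbit Γ p => r.1.2 = r'.1.1 := by
  have e (n : ℕ) : ∀ r r' : orbit Γ p, Pth (fun r r' : orbit Γ p => r.1.2 = r'.1.1) n r r' →
      Pth (fun x y => (x, y) ∈ orbit Γ p) n r.1.2 r'.1.2 := by
    induction n with
    | zero => exact fun _ _ k => congrArg (fun r : orbit Γ p => r.1.2) k
    | succ n ih => exact fun r r' ⟨c, x, y⟩ => ⟨c.1.2, x ▸ c.2, ih _ _ y⟩
  intro n σ τ x y a b c d
  have k := a.symm.trans b
  exact Subtype.ext (Prod.ext k (h n τ.1.1 _ _ _ τ.2 (k ▸ x.2) (e _ _ _ c) (e _ _ _ d)))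

theorem gi_one
    (hV : ∀ (V : Subgroup Γ) (x : V), (Subgroup.zpowers x).FiniteIndex → S.WK (V.comap q))
    (n : ℕ) : ∀ (Y : Type w) [MulAction Γ Y], (∀ a : Y, Finite (stabilizer Γ a)) → ∀ a b : Y,
      Nat.card (stabilizer Γ a) < n → Unq (fun x y => (x, y) ∈ orbit Γ (a, b)) →
      S.GI q Y fun x y => (x, y) ∈ orbit Γ (a, b) := by
  induction n with
  | zero => exact fun _ _ _ _ _ h => (Nat.not_lt_zero _ h).elim
  | succ n ih =>
    intro Y _ fin a b h hu
    by_cases e : b ∈ orbit Γ a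
    swap
    · exact gi_ne e
    obtain ⟨t, rfl⟩ := e
    have := fin a
    have := fin (t • a)
    by_cases k : stabilizer Γ a ≤ stabilizer Γ (t • a)
    · exact gi_eq hV fin (Subgroup.eq_of_le_of_card_ge k (card_stab t a).le)
    have le (r : orbit Γ (a, t • a)) : stabilizer Γ r ≤ stabilizer Γ r.1.1 :=
      fun g l => congrArg (fun r : orbit Γ (a, t • a) => r.1.1) l
    refine gi_step fin (gi_orb (fun r => Nat.card (stabilizer Γ r) < n) (ih _ fun r => ?_) _
      (fun g r r' l => congrArg (g • ·) l) (unq_step hu) fun r _ _ => ?_)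
    · have := fin r.1.1
      exact .of_injective _ (Subgroup.inclusion_injective (le r))
    · obtain ⟨g, rfl⟩ := exists_smul_eq Γ (⟨_, mem_orbit_self _⟩ : orbit Γ (a, t • a)) r
      rw [card_stab]
      refine lt_of_lt_of_le (Set.Finite.card_lt_card (fin a) (lt_of_le_of_ne (le _) fun l =>
        k fun g o => congrArg (fun r : orbit Γ (a, t • a) => r.1.2) (l.ge o)))
        (Nat.lt_succ_iff.1 h)

theorem gi_fin {Γ : Type w} [Group Γ] (q : G →* Γ)
    (hV : ∀ (V : Subgroup Γ) (x : V), (Subgroup.zpowers x).FiniteIndex → S.WK (V.comap q))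
    (Y : Type w) [MulAction Γ Y] (fin : ∀ a : Y, Finite (stabilizer Γ a)) (R : Y → Y → Prop)
    (hR : ∀ (g : Γ) a b, R a b → R (g • a) (g • b)) (hu : Unq R) : S.GI q Y R :=
  gi_orb (fun _ => True) (fun a b _ => gi_one hV _ Y fin a b (Nat.lt_succ_self _)) R hR hu
    fun _ _ _ => trivial

end GC

end Pool.Agent.Lib.MP_5d3e93_al
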