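import Pool.Agent.Lib.MP_5d3e93_al.K.HDf
import Pool.Agent.Lib.MP_5d3e93_al.K.Nil

/-! Nil terms over one orbit reduce to Nil terms over one point. -/

open CategoryTheory Limits ZeroObject Filter MulAction HNNExtension
open scoped Pointwise

namespace Pool.Agent.Lib.MP_5d3e93_al

universe w v u

open Gr

namespace GC

variable {G : Type w} [Group G] {C : Type u} [Category.{v} C] [Preadditive C] [HasZeroObject C]
  {S : GC G C}

theorem hcn_move {Y : Type w} {P : Rl G Y} (h : ∀ a g b, P.r a g b → P.r b g⁻¹ a) (a₀ : Y)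
    (hc : ∀ a, P.r a 1 a → ∃ g, P.r a g a₀) (M : S.LQ P) :
    ∃ (B : C) (O : S.Lo PUnit.{w + 1} B) (a : M.A ⟶ B) (b : B ⟶ M.A),
      M.L.Rg O (fun x g _ => P.r x g a₀) a ∧ O.Rg M.L (fun _ g x => P.r a₀ g x) b ∧
      a ≫ b = M.p ∧ M.p ≫ a = a ∧ b ≫ M.p = b := by
  classical
  obtain ⟨B, O, u, v, h1, h2, h3⟩ := diag_move h a₀ M.L (M.L.s.filter fun x => P.r x 1 x)
    fun x hx => hc x (Finset.mem_filter.1 hx).2
  have e : M.p ≫ u ≫ v = M.p := by
    rw [h3, Preadditive.comp_sum, Finset.sum_filter_of_ne, M.L.sum_r]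
    intro x _ k
    by_contra k'
    refine k (M.L.ext_l fun y => S.ext0 _ ?_ |>.trans comp_zero.symm)
    intro g
    refine M.rg y x g fun l => k' ?_
    simpa using P.trans (h _ _ _ l) l
  exact ⟨B, O.map fun _ => ⟨⟩, M.p ≫ u, v ≫ M.p,
    (M.rg.comp (R'' := fun x g _ => P.r x g a₀) h1 fun _ _ _ _ _ => P.trans).mapr fun _ _ _ => id,
    (h2.comp (R'' := fun _ g x => P.r a₀ g x) M.rg fun _ _ _ _ _ => P.trans).mapl fun _ _ _ => id,
    by simp [reassoc_of% e], by simp, by simp⟩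

theorem gm_conn {Y : Type w} {P : Rl G Y} {B : Y → G → Y → Prop}
    (h : ∀ a g b, P.r a g b → P.r b g⁻¹ a) (a₀ : Y) (hc : ∀ a, P.r a 1 a → ∃ g, P.r a g a₀)
    {H : Subgroup G} (hH : ∀ g, g ∈ H ↔ P.r a₀ g a₀) {Ω : Set G}
    (hB : ∀ g a k b g', P.r a₀ g a → B a k b → P.r b g' a₀ → g * k * g' ∈ Ω) (z : S.GS H Ω) :
    S.GQ P B := by
  choose D O a b ha hb ab pa bp using hcn_move (S := S) h a₀ hc
  have r {M N : S.LQ P} (f : M ⟶ N) : (O M).Rg (O N) (Rl.pu H).r (b M ≫ f.1 ≫ a N) :=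
    (hb M).comp ((LQ.hom_rg f).comp (R'' := fun x g _ => P.r x g a₀) (ha N)
      fun _ _ _ _ _ => P.trans) fun _ _ _ _ _ k l => (hH _).2 (P.trans k l)
  let Ψ : S.LQ P ⥤ S.LQ (Rl.pu H) :=
    { obj M := ⟨D M, O M, b M ≫ M.p ≫ a M, by simp [reassoc_of% ab M], r (𝟙 M)⟩
      map f := LQ.homMk (b _ ≫ f.1 ≫ a _) (by simp [reassoc_of% ab]) (by simp [reassoc_of% ab])
        (r f)
      map_id _ := rfl
      map_comp f g := LQ.hom_ext (by simp [reassoc_of% ab]) }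
  have : Ψ.Additive := ⟨LQ.hom_ext (by simp [Ψ])⟩
  intro m X hX F x hx hm
  let s : S.und F ⟶ S.und (F.post Ψ) :=
    { app A := LQ.homMk (a (F.F.obj A)) (pa _)
        (show a _ ≫ b _ ≫ (F.F.obj A).p ≫ a _ = _ by simp [reassoc_of% ab, pa])
        fun _ _ _ h => (h trivial).elim
      naturality A A' f := LQ.hom_ext (show (F.F.map f).1 ≫ a _ = a _ ≫ b _ ≫ (F.F.map f).1 ≫ a _ by
        simp [reassoc_of% ab]) }
  let t : S.und (F.post Ψ) ⟶ S.und F :=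
    { app A := LQ.homMk (b (F.F.obj A))
        (show (b _ ≫ (F.F.obj A).p ≫ a _) ≫ b _ = _ by simp [ab, bp]) (bp _)
        fun _ _ _ h => (h trivial).elim
      naturality A A' f := LQ.hom_ext (show (b _ ≫ (F.F.map f).1 ≫ a _) ≫ b _ = b _ ≫ (F.F.map f).1 by
        simp [ab]) }
  have st : s ≫ t = 𝟙 _ := NatTrans.ext (funext fun A => LQ.hom_ext (ab _))
  have e : s ≫ t ≫ x = x := by rw [reassoc_of% st]
  rw [← e]
  refine Fn.Tr.cyc s (t ≫ x) (z (m + 1) X hX (F.post Ψ) _ (fun A => ?_) ?_)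
  · exact ((hb _).comp (R'' := fun _ k y => ∃ g c k', P.r a₀ g c ∧ B c k' y ∧ k = g * k') (hx A)
      fun _ _ _ _ _ k l => ⟨_, _, _, k, l, rfl⟩).comp (ha _) (by
        rintro _ _ _ _ _ ⟨g, c, k, p, q, rfl⟩ l
        exact hB _ _ _ _ _ p q l)
  · rw [pw_cyc, e, hm, zero_comp, comp_zero]

theorem gi_of_gs {Γ : Type w} [Group Γ] {q : G →* Γ} (hq : Function.Surjective q) {Y : Type w}
    [MulAction Γ Y] {a : Y} {t : Γ}
    (z : S.GS ((stabilizer Γ a).comap q) {k | q k ∈ dc (stabilizer Γ a) t}) :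
    S.GI q Y fun x y => (x, y) ∈ orbit Γ (a, t • a) := by
  classical
  intro m
  have e (g : Γ) (y : Y) : g • y ∈ orbit Γ a ↔ y ∈ orbit Γ a :=
    ⟨fun k => by simpa using mapsTo_smul_orbit g⁻¹ a k, fun k => mapsTo_smul_orbit g a k⟩
  have f (x g y) (k : (x, q g • y) ∈ orbit Γ (a, t • a)) : x ∈ orbit Γ a ∧ y ∈ orbit Γ a := by
    obtain ⟨c, k⟩ := k
    obtain ⟨k1, k2⟩ := Prod.ext_iff.1 k
    exact ⟨⟨c, k1⟩, (e (q g) y).1 ⟨c * t, (mul_smul ..).trans k2⟩⟩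
  refine gm_tri (fun y => if y ∈ orbit Γ a then 0 else 1) ?_ (fun x g y k => ?_) fun k => ?_
  · rintro _ g y rfl
    simp only [e, le_refl]
  · simp [f x g y k]
  obtain rfl | k0 := eq_or_ne k 0
  swap
  · exact gm_empty fun x g y l => k0 (by simpa [f x g y l.1] using l.2.1.symm)
  refine gm_conn ?_ a ?_ (fun g => ?_) ?_ z m
  · rintro _ g y ⟨rfl, c, d⟩
    exact ⟨show y = q g⁻¹ • q g • y by simp, d, c⟩
  · rintro x ⟨-, c, -⟩
    obtain ⟨γ, rfl⟩ : x ∈ orbit Γ a := by simpa using c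
    obtain ⟨g, rfl⟩ := hq γ
    exact ⟨g, rfl, c, by simp⟩
  · exact ⟨fun c => ⟨Eq.symm c, by simp, by simp⟩, fun c => Eq.symm c.1⟩
  · rintro g x k _ g' ⟨c, -⟩ ⟨⟨γ, l⟩, -⟩ ⟨rfl, -⟩
    obtain ⟨l1, l2⟩ := Prod.ext_iff.1 l
    change γ • a = x at l1
    change γ • t • a = q k • q g' • a at l2
    change a = q g • x at c
    refine ⟨q g * γ, ?_, t⁻¹ * γ⁻¹ * q k * q g', ?_, by simp only [map_mul]; group⟩
    · rw [mem_stabilizer_iff, mul_smul, l1, ← c]
    · simp only [mem_stabilizer_iff, mul_smul, ← l2, inv_smul_smul]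

theorem fr_of_unq {Γ : Type w} [Group Γ] {Y : Type w} [MulAction Γ Y] {a : Y} {t : Γ}
    (h : Unq fun x y => (x, y) ∈ orbit Γ (a, t • a)) :
    Fr (stabilizer Γ a) (dc (stabilizer Γ a) t) := by
  have st (g o : Γ) (ho : o ∈ dc (stabilizer Γ a) t) :
      (g • a, (g * o) • a) ∈ orbit Γ (a, t • a) := by
    obtain ⟨d, hd, d', hd', rfl⟩ := ho
    refine ⟨g * d, Prod.ext ?_ ?_⟩
    · change (g * d) • a = g • a
      rw [mul_smul, show d • a = a from hd]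
    · change (g * d) • t • a = (g * (d * t * d')) • a
      simp only [mul_smul, show d' • a = a from hd']
  have pt (n : ℕ) : ∀ (g : Γ), ∀ w ∈ dc (stabilizer Γ a) t ^ n,
      Pth (fun x y => (x, y) ∈ orbit Γ (a, t • a)) n (g • a) ((g * w) • a) := by
    induction n with
    | zero =>
      intro g w hw
      rw [pow_zero, Set.mem_one] at hw
      exact show _ = _ by rw [hw, mul_one]
    | succ n ih =>
      intro g w hw
      rw [pow_succ'] at hw
      obtain ⟨o, ho, w, hw, rfl⟩ := hw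
      exact ⟨_, st g o ho, by simpa only [mul_assoc] using ih (g * o) w hw⟩
  refine ⟨?_, ?_, fun n o ho o' ho' w hw w' hw' e => ?_⟩
  · rintro d hd _ ⟨c, hc, b, hb, rfl⟩
    exact ⟨_, mul_mem hd hc, b, hb, by group⟩
  · rintro d hd _ ⟨c, hc, b, hb, rfl⟩
    exact ⟨c, hc, _, mul_mem hb hd, by group⟩
  have := h n _ _ _ _ (st 1 o ho) (st 1 o' ho') (pt n _ w hw) (by
    rw [one_mul, one_mul, e]; simpa only [one_mul] using pt n (1 * o') w' hw')
  rw [one_mul, one_mul] at this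
  rw [mem_stabilizer_iff, mul_smul, ← this, inv_smul_smul]

end GC

end Pool.Agent.Lib.MP_5d3e93_al
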