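import Pool.Agent.Lib.MP_5d3e93_al.K.HCl
import Pool.Agent.Lib.MP_5d3e93_al.K.HFr
import Pool.Agent.Lib.MP_5d3e93_al.K.CLc
import Pool.Agent.Lib.MP_5d3e93_al.K.CTr

/-! Control over the product with the group, in all degrees. -/

open CategoryTheory Limits ZeroObject Filter MulAction
open scoped Pointwise

namespace Pool.Agent.Lib.MP_5d3e93_al

universe w v u y

open Gr

/-- Words give paths. -/
theorem hct_pth {Γ : Type w} [Group Γ] {X : Type*} {T : Set Γ} (x : X) {r : ℕ} :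
    ∀ (a g : Γ), g ∈ T ^ r →
      Pth (fun x y : X × Γ => x.1 = y.1 ∧ x.2⁻¹ * y.2 ∈ T) r (x, a) (x, a * g) := by
  induction r with
  | zero =>
    intro a g h
    rw [pow_zero, Set.mem_one] at h
    rw [h, mul_one]
    rfl
  | succ r ih =>
    intro a g h
    rw [pow_succ'] at h
    obtain ⟨t, m, k, n, rfl⟩ := h
    exact ⟨(x, a * t), ⟨rfl, by simpa using m⟩, mul_assoc a t k ▸ ih (a * t) k n⟩

namespace GC

variable {Γ : Type w} [Group Γ] {C : Type u} [Category.{v} C] [Preadditive C] [HasZeroObject C]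
  {S : GC (Γ × Zi) C}

theorem tk_ctrl (ok : S.Ok) [Group.FG Γ] {J : Type} {l : Filter J} {Xs : J → Type}
    [∀ j, Fintype (Xs j)] [∀ j, MulAction Γ (Xs j)] {Ps : ∀ j, Xs j → Prop} {I : J → Type y}
    [∀ j, MulAction Γ (I j)] {ι : Type} [Fintype ι] (Lab : ∀ j, ι → Xs j × Γ → I j → Prop)
    (h4 : ∀ j i y U U', Lab j i y U → Lab j i y U' → U = U')
    (h5 : ∀ j i (g : Γ) y U, Lab j i y U → Lab j i (g • y) (g • U)) {b : J → ℕ}
    (hb : Tendsto b l atTop)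
    (h6 : ∀ T : Set Γ, T.Finite → ∀ᶠ j in l, ∀ x, Ps j x → ∃ i U, ∀ g ∈ T, Lab j i (x, g) U)
    (hK : ∀ᶠ j in l, ∀ (U : I j), ∀ H ≤ stabilizer Γ U, S.VK H) (n : ℕ)
    (y : Am.Kn n S.top S.top.bdd) :
    ∀ᶠ j in l, ∀ L, Lat.Gr (Xs j) (Ps j) L → S.tk (.fst Γ Zi) n y L = 0 := by
  obtain ⟨T, fin, t1, t2, gen⟩ := ex_gen Γ
  have z := ev_lab (Y := fun j => Xs j × Γ) (l := l) ok
    (ρ := fun _ x y => x.1 = y.1 ∧ x.2⁻¹ * y.2 ∈ T) (fun _ y => ⟨rfl, by simpa⟩)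
    (fun _ x y c => ⟨c.1.symm, by simpa using t2 _ c.2⟩)
    (fun _ g x y c => ⟨congrArg (g • ·) c.1, by simpa [mul_assoc] using c.2⟩) Lab h4 h5
    (α := fun j y => Ps j y.1 ∧ y.2 = 1) hb
    (fun R => (h6 _ (fin_pow fin R)).mono fun j k => by
      rintro ⟨x, _⟩ ⟨c, rfl⟩
      obtain ⟨i, U, e⟩ := k x c
      refine ⟨i, U, fun y d => ?_⟩
      have := e y.2 (by simpa using pth_grp Prod.snd (fun _ _ b => b.2) d)
      rwa [show x = y.1 from pth_eq Prod.fst (fun _ _ b => b.1) d] at this) hK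
  have k := tk_ev (π := .fst Γ Zi) (Ps := Ps) (H := ⊤) (fun j z => ((z, 1) : Xs j × Γ))
    (fun g _ => by
      obtain ⟨r, m⟩ := gen g.1
      refine ⟨r, .of_forall fun j z p p' => ⟨?_, ⟨p', rfl⟩, p, rfl⟩⟩
      have := hct_pth (g.1 • z) 1 g.1 m
      rw [one_mul] at this
      change Pth _ r (g.1 • z, (1 : Γ)) (g.1 • z, g.1 * 1)
      rwa [mul_one]) z n y
  rwa [up_top] at k

end GC

end Pool.Agent.Lib.MP_5d3e93_al
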