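import Pool.Agent.Lib.MP_5d3e93_al.K.CTn
import Pool.Agent.Lib.MP_5d3e93_al.K.Tr
import Pool.Agent.Lib.MP_5d3e93_al.K.Tw
import Pool.Agent.Lib.MP_5d3e93_al.Ind
import Pool.Agent.Lib.MP_5d3e93_al.G3

/-! Nil terms over one point, classes of natural automorphisms, matrices, lattice windows. -/

open CategoryTheory Limits ZeroObject MulAction

namespace Pool.Agent.Lib.MP_5d3e93_al

universe w w' v u y y' v' u'

open Gr

/-- One point, degrees in a subgroup. -/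
def Rl.pu {G : Type w} [Group G] (H : Subgroup G) : Rl G PUnit.{w + 1} :=
  ⟨fun _ g _ => g ∈ H, fun a b => H.mul_mem a b⟩

/-- The class of a natural automorphism. -/
noncomputable def Gr.Fn.cl {X : Am.{v, u}} {B : Type (max u' v')} [Category.{v'} B] [Preadditive B]
    [HasZeroObject B] [HasBinaryBiproducts B] {F : Fn X B} (t : F ⟶ F) (h : IsIso t) (n : ℕ) :
    Am.Kn n X X.bdd →+ Am.Kn (n + 1) (Am.of.{v', u'} B) (Am.of.{v', u'} B).bdd :=
  Am.cls n (f := Fn.map.{v, u, v', u'} F) (u := t)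
    (@Am.Map.Au.of_iso _ _ _ _ _ _ ⟨h.out⟩ (Am.Map.bdd_map _))

namespace GC

section
variable {G : Type w} [Group G] {C : Type u} [Category.{v} C] [Preadditive C] (S : GC G C)

/-- Finitely many copies of an object. -/
structure Cp (A : C) (W : Type y) [Fintype W] where
  P : C
  i : W → (A ⟶ P)
  r : W → (P ⟶ A)
  si : ∀ c, S.Sup {1} (i c)
  sr : ∀ c, S.Sup {1} (r c)
  ir : ∀ c, i c ≫ r c = 𝟙 A
  orth : ∀ c c', c ≠ c' → i c ≫ r c' = 0
  total : ∑ c, r c ≫ i c = 𝟙 P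

variable {S} {A B : C} {W : Type y} {W' : Type y'} [Fintype W] [Fintype W']

/-- The matrix of the parts of a morphism. -/
noncomputable def Cp.mat (c : S.Cp A W) (c' : S.Cp B W') (R : W → G → W' → Prop) (f : A ⟶ B) :
    c.P ⟶ c'.P := ∑ a, ∑ b, c.r a ≫ S.proj {g | R a g b} f ≫ c'.i b

/-- The locations of the copies. -/
noncomputable def Cp.lo {Y : Type*} (c : S.Cp A W) (L : S.Lo Y A) : S.Lo (Y × W) c.P where
  e z := c.r z.2 ≫ L.e z.1 ≫ c.i z.2
  s := L.s ×ˢ Finset.univ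
  out z h := by rw [L.out z.1 (by simpa using h), zero_comp, comp_zero]
  spl z := (L.spl z.1).tr (c.si _) (c.sr _) (c.ir _)
  orth z z' h := by
    by_cases e : z.2 = z'.2
    · simp [e, reassoc_of% c.ir, reassoc_of% L.orth z.1 z'.1 fun k => h (Prod.ext k e)]
    · simp [reassoc_of% c.orth _ _ e]
  total := by
    rw [Finset.sum_product_right, ← c.total]
    refine Finset.sum_congr rfl fun a _ => ?_
    dsimp only
    rw [← Preadditive.comp_sum, ← Preadditive.sum_comp, L.total, Category.id_comp]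

variable [HasZeroObject C] (S)

theorem Cp.nonempty (A : C) (W : Type y) [Fintype W] : Nonempty (S.Cp A W) := by
  classical
  have (s : Finset W) : ∃ (P : C) (i : W → (A ⟶ P)) (r : W → (P ⟶ A)), (∀ c, S.Sup {1} (i c)) ∧
      (∀ c, S.Sup {1} (r c)) ∧ (∀ c ∈ s, i c ≫ r c = 𝟙 A) ∧ (∀ c c', c ≠ c' → i c ≫ r c' = 0) ∧
      ∑ c ∈ s, r c ≫ i c = 𝟙 P := by
    induction s using Finset.induction_on with
    | empty =>
      obtain ⟨Z, hZ⟩ := hz_of (C := C)
      exact ⟨Z, fun _ => 0, fun _ => 0, fun _ => .zero, fun _ => .zero, by simp, by simp, hZ.symm⟩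
    | insert d s hd ih =>
      obtain ⟨B, i, r, h1, h2, h3, h4, h5⟩ := ih
      refine ⟨S.sum A B, fun c => if c = d then S.inl _ _ else i c ≫ S.inr _ _,
        fun c => if c = d then S.fst _ _ else S.snd _ _ ≫ r c, fun c => ?_, fun c => ?_,
        fun c k => ?_, fun c c' k => ?_, ?_⟩
      all_goals beta_reduce
      · split_ifs
        exacts [sup_inl rfl, (h1 c).comp_one (S.cp_inr _ _)]
      · split_ifs
        exacts [sup_fst rfl, .one_comp (S.cp_snd _ _) (h2 c)]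
      · split_ifs with e
        · simp
        · simpa using h3 c (by simpa [e] using k)
      · split_ifs with e e'
        · exact (k (e.trans e'.symm)).elim
        all_goals simp [h4 c c' k]
      · rw [Finset.sum_insert hd, Finset.sum_congr rfl (g := fun c => S.snd A B ≫ (r c ≫ i c) ≫
          S.inr A B) fun c k => by simp [show c ≠ d from fun e => hd (e ▸ k)],
          ← Preadditive.comp_sum, ← Preadditive.sum_comp, h5]
        simp [S.total]
  obtain ⟨P, i, r, a, b, c, d, e⟩ := this Finset.univ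
  exact ⟨⟨P, i, r, a, b, fun x => c x (Finset.mem_univ x), d, e⟩⟩

/-- The chosen copies. -/
noncomputable def cpw (A : C) (W : Type y) [Fintype W] : S.Cp A W := (Cp.nonempty S A W).some

/-- Nil terms over a subgroup with degrees in a set are trivial. -/
def GS (H : Subgroup G) (Ω : Set G) : Prop := S.GQ (Rl.pu H) fun _ k _ => k ∈ Ω

variable {S} in
/-- The class of a nilpotent natural endomorphism. -/
noncomputable def ncl {X : Am.{v', u'}} {U : Fn X (S.LQ (Rl.pt ⊤))} (x : U ⟶ U) {m : ℕ}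
    (h : pw x m = 0) (n : ℕ) : Am.Kn n X X.bdd →+ Am.Kn (n + 1) S.top S.top.bdd :=
  Fn.cl.{v', u', v, u} (𝟙 U - x) (Fn.isIso_unip h) n

end

/-- Vanishing over a subgroup. -/
abbrev VK {Γ : Type w} [Group Γ] {C : Type u} [Category.{v} C] [Preadditive C] [HasZeroObject C]
    (S : GC (Γ × Zi) C) (H : Subgroup Γ) : Prop := S.WK (H.comap (.fst Γ Zi))

end GC

section
variable {C : Type u} [Category.{v} C] [Preadditive C] [HasBinaryBiproducts C] [HasZeroObject C]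

/-- The Nil terms of a double coset are trivial. -/
def GD {Γ : Type w} [Group Γ] (σ : Act Γ C) (D : Subgroup Γ) (g : Γ) : Prop :=
  (SZ σ).GS (D.comap (.fst Γ Zi)) {k | k.1 ∈ dc D g}

/-- Vanishing for all homomorphisms. -/
def AK {G : Type w'} [Group G] (ρ : Act G C) (Γ : Type w) [Group Γ] : Prop :=
  ∀ q : Γ →* G, KZ (ρ.comap q)

/-- Vanishing for actions on trees with elliptic subgroups in the class. -/
def IK {G : Type w'} [Group G] (ρ : Act G C) (s : Cl.{w}) : Prop :=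
  ∀ (Γ : Type w) [Group Γ], OT Γ (s.P ·) → AK ρ Γ

omit [HasZeroObject C] in
/-- The endomorphism has a nilpotent lift. -/
def LN {Γ Γ' : Type w} [Group Γ] [Group Γ'] (σ : Act Γ C) (j : Γ' →* Γ) (Ω : Set Γ') (m : ℕ)
    (A : TwZ σ) (x : A ⟶ A) : Prop :=
  ∃ y : (⟨A.as⟩ : TwZ (σ.comap j)) ⟶ ⟨A.as⟩, (SZ (σ.comap j)).Sup {k | k.1 ∈ Ω} y ∧
    (Tw.pushF (ρ := σ.comap (.fst Γ Zi)) (j.prodMap (.id Zi))).map y = x ∧ pw y (m + 1) = 0

end

/-- A commensurated subgroup in height zero and an element of height one. -/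
structure Hu (Γ : Type w) [Group Γ] where
  χ : Ch Γ
  D : Subgroup Γ
  t : Γ
  hD : ∀ d ∈ D, χ d = 0
  ht : χ t = 1
  f1 : {c : Γ ⧸ D | ∃ d ∈ D, c = (d * t : Γ)}.Finite
  f2 : {c : Γ ⧸ D | ∃ d ∈ D, c = (d * t⁻¹ : Γ)}.Finite

namespace Hu

variable {Γ : Type w} [Group Γ] (U : Hu Γ)

/-- One step up. -/
def up (c c' : Γ ⧸ U.D) : Prop := ∃ u : Γ, c = u ∧ c' = (u * U.t : Γ)

/-- Windows at the base point. -/
@[ext] structure Wd (a b : ℕ) where
  v : ℤ → Γ ⧸ U.D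
  bs : v 0 = (1 : Γ)
  up : ∀ k : ℤ, -a ≤ k → k < b → U.up (v k) (v (k + 1))
  out : ∀ k : ℤ, k < -a ∨ b < k → v k = (1 : Γ)

variable {U} in
/-- Agreement on the overlap after a shift. -/
def ov {a b a' b' : ℕ} (j : ℤ) (x : U.Wd a b) (g : Γ × Zi) (y : U.Wd a' b') : Prop :=
  ∀ k : ℤ, -a ≤ k → k ≤ b → -a' ≤ k - j → k - j ≤ b' → x.v k = g.1 • y.v (k - j)

/-- Locations with a window. -/
@[ext] structure WL (E : Type) where
  e : E
  γ : Γ
  w : ℤ → Γ
  up : ∀ k, (w k)⁻¹ * w (k + 1) ∈ dc U.D U.t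
  lv : ∀ k, U.χ (w k) = k

variable {U} {E : Type} [MulAction Γ E]

instance : MulAction Γ (U.WL E) where
  smul g y := ⟨g • y.e, g * y.γ, fun k => g * y.w (k - U.χ g),
    fun k => by simpa [mul_assoc, sub_add_eq_add_sub] using y.up (k - U.χ g),
    fun k => by simp [y.lv]⟩
  one_smul y := WL.ext (one_smul _ _) (one_mul _) (funext fun k =>
    show 1 * y.w (k - U.χ 1) = _ by simp)
  mul_smul a b y := WL.ext (mul_smul _ _ _) (mul_assoc _ _ _) (funext fun k =>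
    show a * b * y.w (k - U.χ (a * b)) = a * (b * y.w (k - U.χ a - U.χ b)) by
      simp [mul_assoc, sub_sub])

@[simp] theorem smul_e (g : Γ) (y : U.WL E) : (g • y).e = g • y.e := rfl

@[simp] theorem smul_γ (g : Γ) (y : U.WL E) : (g • y).γ = g * y.γ := rfl

@[simp] theorem smul_w (g : Γ) (y : U.WL E) (k : ℤ) : (g • y).w k = g * y.w (k - U.χ g) := rfl

/-- Agreement of windows. -/
def Ag (x y : U.WL E) (k : ℤ) : Prop := (x.w k)⁻¹ * y.w k ∈ U.D

theorem ag_smul {g : Γ} {x y : U.WL E} {k : ℤ} : Ag (g • x) (g • y) k ↔ Ag x y (k - U.χ g) := by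
  simp [Ag, mul_assoc]

/-- Neighbouring locations. -/
def Nb (T : Set Γ) (a : ℕ) (x y : U.WL E) : Prop := x.e = y.e ∧ x.γ⁻¹ * y.γ ∈ T ∧
  ∀ k, |k - U.χ x.γ| ≤ a → |k - U.χ y.γ| ≤ a → Ag x y k

variable {T : Set Γ} {a : ℕ}

omit [MulAction Γ E] in
theorem Nb.refl (h : 1 ∈ T) (y : U.WL E) : Nb T a y y :=
  ⟨rfl, by simpa, fun _ _ _ => by simp [Ag]⟩

omit [MulAction Γ E] in
theorem Nb.symm (h : ∀ g ∈ T, g⁻¹ ∈ T) (x y : U.WL E) (d : Nb T a x y) : Nb T a y x :=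
  ⟨d.1.symm, by simpa using h _ d.2.1, fun k e f => by simpa [Ag] using inv_mem (d.2.2 k f e)⟩

theorem Nb.smul (g : Γ) (x y : U.WL E) (h : Nb T a x y) : Nb T a (g • x) (g • y) :=
  ⟨congrArg (g • ·) h.1, by simpa [mul_assoc] using h.2.1, fun k c d => ag_smul.2
    (h.2.2 _ (by simpa [sub_sub] using c) (by simpa [sub_sub] using d))⟩

end Hu

namespace Md

variable {n : ℕ} {Γ : Type w} [Group Γ] [MulAction Γ (Fin n → ℚ)] (A : AA Γ ℚ (Fin n → ℚ))
  {p : ℕ} [Fact p.Prime] (M : Md Γ (Zn n) p) {U : Hu Γ}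

/-- Scaled positions. -/
noncomputable def ps (y : U.WL M.E) (g : Γ) : Fin n → ℚ :=
  (p : ℚ)⁻¹ • A.l g⁻¹ (y.γ⁻¹ • M.lf y.e (y.w (U.χ y.γ + U.χ g)))

/-- The labels. -/
def Lb (r : ℕ) (c : ℤ) (K : Fin (n + 2) → Set (Γ → Fin n → ℚ)) :
    Option (Fin (n + 2) × Fin 4) → U.WL M.E → (Fin n → ℚ) ⊕ U.χ.Lv → Prop
  | none, y, V => ∃ ζ, V = .inl ζ ∧ (r : ℚ) • M.ps A y 1 - (r / p : ℚ) • y.γ⁻¹ • ζ ∈ Zn n ∧
      ‖(r / p : ℚ) • y.γ⁻¹ • ζ‖ < 1 / 2
  | some i, y, V => ∃ g, V = .inr ⟨U.χ y.γ + U.χ g⟩ ∧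
      |U.χ g - c * (2 * (i.2 : ℕ) - 3)| ≤ 2 * c ∧ (fun x => M.ps A y (g * x)) ∈ K i.1

end Md

end Pool.Agent.Lib.MP_5d3e93_al
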