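import Pool.Agent.Lib.MP_5d3e93_al.K.CycB
import Pool.Agent.Lib.MP_5d3e93_al.K.Nil
import Pool.Agent.Lib.MP_5d3e93_al.K.Fam

/-! Nil terms over sets with tame stabilisers. -/

open CategoryTheory Limits ZeroObject MulAction

namespace Pool.Agent.Lib.MP_5d3e93_al

universe w v u

open Gr

namespace GC

variable {G : Type w} [Group G] {C : Type u} [Category.{v} C] [Preadditive C] [HasZeroObject C]
variable {S : GC G C}

section
variable {Γ : Type w} [Group Γ] {q : G →* Γ} {Y : Type w} [MulAction Γ Y]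

/-- Passage to the set of steps, for arbitrary stabilisers. -/
theorem gi_stepZ {p : Y × Y} (hY : ∀ y : Y, S.WK ((stabilizer Γ y).comap q))
    (hz : ∀ r : orbit Γ p, S.WK ((stabilizer Γ r).comap q))
    (h : S.GI q (orbit Γ p) fun r r2 => r.1.2 = r2.1.1) :
    S.GI q Y fun x y => (x, y) ∈ orbit Γ p := by
  intro m
  refine Gm.cyc' (fun y => {r : orbit Γ p | r.1.2 = y}) (fun x g r => x = q g • r.1.1)
    (fun a _ b _ => ⟨show a = q 1 • a by simp, show b = q 1 • b by simp⟩)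
    (fun _ r _ => show r = q 1 • r by simp) ?_ ?_ ?_ ?_ ?_ ?_ ?_ (zq_eq q Y hY) (zq_eq q _ hz)
    (h (m + 1))
  · rintro _ g y r rfl k
    exact ⟨(q g)⁻¹ • r, inv_smul_eq_iff.2 k, (smul_inv_smul _ _).symm⟩
  · intro x g y k
    exact ⟨⟨((q g)⁻¹ • x, y), by simpa using mapsTo_smul_orbit (q g)⁻¹ p k⟩, rfl,
      (smul_inv_smul _ _).symm⟩
  · rintro _ _ g r₁ r₂ - - rfl k
    exact smul_left_cancel _ k
  · rintro _ _ g r₁ r₂ rfl k rfl l
    exact Subtype.ext (Prod.ext (smul_left_cancel _ l) k.symm)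
  · rintro _ g _ h r rfl rfl
    rw [map_mul, mul_smul]
  · rintro _ g _ h r rfl rfl
    rw [map_mul, mul_smul]
    rfl
  · rintro _ g r₁ _ h r' rfl rfl k
    rw [map_mul, mul_smul]
    exact congrArg (q g • ·) k

/-- A step inside a group of the family. -/
theorem gi_grp {𝓕 : Fam Γ} (hV : ∀ V, 𝓕.m V → S.WK (V.comap q))
    (tm : ∀ a : Y, 𝓕.m (stabilizer Γ a)) {a : Y} {t : Γ} {V : Subgroup Γ} (h : 𝓕.m V)
    (ha : stabilizer Γ a ≤ V) (ht : t ∈ V) :
    S.GI q Y fun x y => (x, y) ∈ orbit Γ (a, t • a) := by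
  intro m
  let s (x y : Y) : Prop := x = y ∨ ∃ g g' : Γ, x = g • a ∧ y = g' • a ∧ g⁻¹ * g' ∈ V
  have k0 {g g' : Γ} (e : g • a = g' • a) : g⁻¹ * g' ∈ V :=
    ha (show (g⁻¹ * g') • a = a by rw [mul_smul, ← e, inv_smul_smul])
  have s1 (x y z) : s x y → s y z → s x z := by
    rintro (rfl | ⟨g, g', rfl, rfl, k⟩) l
    · exact l
    obtain rfl | ⟨c, c', e, rfl, l⟩ := l
    · exact .inr ⟨g, g', rfl, rfl, k⟩
    · exact .inr ⟨g, c', rfl, rfl, by simpa [mul_assoc] using mul_mem (mul_mem k (k0 e)) l⟩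
  have s2 (c : Γ) (x y) : s x y → s (c • x) (c • y) := by
    rintro (rfl | ⟨g, g', rfl, rfl, k⟩)
    · exact .inl rfl
    · exact .inr ⟨c * g, c * g', (mul_smul ..).symm, (mul_smul ..).symm, by
        simpa [mul_assoc] using k⟩
  have s3 (x y) : s x y → s y x := by
    rintro (rfl | ⟨g, g', rfl, rfl, k⟩)
    · exact .inl rfl
    · exact .inr ⟨g', g, rfl, rfl, by simpa using inv_mem k⟩
  have s4 (g : Γ) (x y) (l : s x (g • y)) : s y (g⁻¹ • x) := by simpa using s2 g⁻¹ _ _ (s3 _ _ l)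
  refine Gm.push (P' := Rl.act q s s1 s2) id (fun _ _ _ => .inl) ?_
    (gm_of_zq (zq_diag (fun x g y l => ?_) fun x H l => ?_) fun _ _ _ => id)
  · rintro x g y ⟨c, e⟩
    obtain ⟨e1, e2⟩ := Prod.ext_iff.1 e
    exact .inr ⟨c, c * t, e1.symm, by rw [mul_smul]; exact e2.symm, by simpa using ht⟩
  · exact show s y (q g⁻¹ • x) from map_inv q g ▸ s4 _ _ _ l
  · let W : Subgroup Γ := ⟨⟨⟨{g | s x (g • x)}, fun {g g'} c d => s1 _ _ _ c
      (by rw [mul_smul]; exact s2 _ _ _ d)⟩, .inl (one_smul _ _).symm⟩, fun c => s4 _ _ _ c⟩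
    rw [show H = W.comap q from Subgroup.ext l]
    by_cases e : x ∈ orbit Γ a
    · obtain ⟨c, rfl⟩ := e
      refine hV W (𝓕.le (K := V.map (MulAut.conj c).toMonoidHom)
        (fun g o => ⟨c⁻¹ * g * c, ?_, by simp [mul_assoc]⟩) (𝓕.conj c h))
      obtain o | ⟨g₁, g₂, o, o', k⟩ := o
      · rw [mul_assoc]
        exact k0 (o.trans (mul_smul ..).symm)
      · have := mul_mem (mul_mem (k0 o) k) (k0 (o'.symm.trans (mul_smul ..).symm))
        simpa [mul_assoc] using this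
    · refine hV W (𝓕.le ?_ (tm x))
      rintro g (o | ⟨g', -, o, -⟩)
      · exact o.symm
      · exact (e ⟨g', o.symm⟩).elim

theorem gi_oneT {𝓕 : Fam Γ} (hV : ∀ V, 𝓕.m V → S.WK (V.comap q)) {D : Subgroup Γ}
    (hD : 𝓕.Tame D) : ∀ (Y : Type w) [MulAction Γ Y], (∀ a : Y, 𝓕.Tame (stabilizer Γ a)) →
      ∀ a b : Y, stabilizer Γ a = D → Unq (fun x y => (x, y) ∈ orbit Γ (a, b)) →
      S.GI q Y fun x y => (x, y) ∈ orbit Γ (a, b) := by
  induction hD with
  | intro D _ ih =>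
    rintro Y _ tm a b rfl hu
    by_cases e : b ∈ orbit Γ a
    swap
    · exact gi_ne e
    obtain ⟨t, rfl⟩ := e
    by_cases k : 𝓕.m (stabilizer Γ a ⊔ Subgroup.zpowers t)
    · exact gi_grp hV (fun x => (tm x).mem) k le_sup_left
        (Subgroup.mem_sup_right (Subgroup.mem_zpowers t))
    have tm' (r : orbit Γ (a, t • a)) : 𝓕.Tame (stabilizer Γ r) :=
      (tm r.1.1).le fun g l => congrArg (fun r : orbit Γ (a, t • a) => r.1.1) l
    refine gi_stepZ (fun y => hV _ (tm y).mem) (fun r => hV _ (tm' r).mem)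
      (gi_orb (fun _ => True) (fun r r' _ l => ?_) _ (fun g r r' l => congrArg (g • ·) l)
        (unq_step hu) fun _ _ _ => trivial)
    let r₀ : orbit Γ (a, t • a) := ⟨_, mem_orbit_self _⟩
    obtain ⟨g, rfl⟩ := exists_smul_eq Γ r₀ r
    obtain ⟨r', rfl⟩ := MulAction.surjective g r'
    have o : orbit Γ (g • r₀, g • r') = orbit Γ (r₀, r') := orbit_smul g (r₀, r')
    simp only [o] at l ⊢
    refine ih _ ⟨t, k, fun d l => mem_cj.2 ⟨?_, ?_⟩⟩ _ tm' r₀ r' rfl l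
    · exact congrArg (fun r : orbit Γ (a, t • a) => r.1.1) l
    · have : d • t • a = t • a := congrArg (fun r : orbit Γ (a, t • a) => r.1.2) l
      exact show (t⁻¹ * d * t) • a = a by rw [mul_smul, mul_smul, this, inv_smul_smul]

end

theorem gi_tame {Γ : Type w} [Group Γ] (q : G →* Γ) (𝓕 : Fam Γ)
    (hV : ∀ V, 𝓕.m V → S.WK (V.comap q)) (Y : Type w) [MulAction Γ Y]
    (tm : ∀ a : Y, 𝓕.Tame (stabilizer Γ a)) (R : Y → Y → Prop)
    (hR : ∀ (g : Γ) a b, R a b → R (g • a) (g • b)) (hu : Unq R) : S.GI q Y R :=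
  gi_orb (fun _ => True) (fun a b _ => gi_oneT hV (tm a) Y tm a b rfl) R hR hu
    fun _ _ _ => trivial

end GC

end Pool.Agent.Lib.MP_5d3e93_al
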