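import Pool.Agent.Lib.MP_5d3e93_al.K.HCn
import Pool.Agent.Lib.MP_5d3e93_al.K.NilT
import Pool.Agent.Lib.MP_5d3e93_al.K.Prod

/-! Descent of Nil terms along a measure, and actions on trees. -/

open CategoryTheory Limits ZeroObject Filter MulAction HNNExtension
open scoped Pointwise

namespace Pool.Agent.Lib.MP_5d3e93_al

universe w w' v u y y' v' u' v'' u''

open Gr

namespace GC

variable {G : Type w} [Group G] {C : Type u} [Category.{v} C] [Preadditive C] [HasZeroObject C]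
  {S : GC G C}

theorem gi_desc {Γ : Type w} [Group Γ] {q : G →* Γ} (hq : Function.Surjective q)
    (Φ : Subgroup Γ → Prop) (hle : ∀ D D', D' ≤ D → Φ D → Φ D')
    (hW : ∀ D, Φ D → S.WK (D.comap q)) (μ : Subgroup Γ → ℕ)
    (h2 : ∀ D, Φ D → ∀ g, Fr D (dc D g) → S.GS (D.comap q) {k | q k ∈ dc D g} ∨ μ (cj D g) < μ D)
    (Y : Type w) [MulAction Γ Y] (hY : ∀ a : Y, Φ (stabilizer Γ a)) (R : Y → Y → Prop)
    (hR : ∀ (g : Γ) a b, R a b → R (g • a) (g • b)) (hu : Unq R) : S.GI q Y R := by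
  have key (n : ℕ) : ∀ (Y : Type w) [MulAction Γ Y], (∀ a : Y, Φ (stabilizer Γ a)) → ∀ a b : Y,
      μ (stabilizer Γ a) < n → Unq (fun x y => (x, y) ∈ orbit Γ (a, b)) →
      S.GI q Y fun x y => (x, y) ∈ orbit Γ (a, b) := by
    induction n with
    | zero => exact fun _ _ _ _ _ h => (Nat.not_lt_zero _ h).elim
    | succ n ih =>
      intro Y _ tm a b h hu
      by_cases e : b ∈ orbit Γ a
      swap
      · exact gi_ne e
      obtain ⟨t, rfl⟩ := e
      obtain k | k := h2 _ (tm a) t (fr_of_unq hu)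
      · exact gi_of_gs hq k
      have tm' (r : orbit Γ (a, t • a)) : Φ (stabilizer Γ r) :=
        hle _ _ (fun g l => congrArg (fun r : orbit Γ (a, t • a) => r.1.1) l) (tm r.1.1)
      refine gi_stepZ (fun y => hW _ (tm y)) (fun r => hW _ (tm' r))
        (gi_orb (fun _ => True) (fun r r' _ l => ?_) _ (fun g r r' l => congrArg (g • ·) l)
          (unq_step hu) fun _ _ _ => trivial)
      let r₀ : orbit Γ (a, t • a) := ⟨_, mem_orbit_self _⟩
      obtain ⟨g, rfl⟩ := exists_smul_eq Γ r₀ r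
      obtain ⟨r', rfl⟩ := MulAction.surjective g r'
      have o : orbit Γ (g • r₀, g • r') = orbit Γ (r₀, r') := orbit_smul g (r₀, r')
      simp only [o] at l ⊢
      refine ih _ tm' r₀ r' (lt_of_eq_of_lt (congrArg μ (Subgroup.ext fun d => ?_))
        (k.trans_le (Nat.lt_succ_iff.1 h))) l
      refine (Subtype.ext_iff.trans Prod.ext_iff).trans (Iff.trans ?_ mem_cj.symm)
      change d • a = a ∧ d • t • a = t • a ↔ d • a = a ∧ (t⁻¹ * d * t) • a = a
      rw [mul_smul, mul_smul, inv_smul_eq_iff]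
  exact gi_orb (fun _ => True) (fun a b _ => key _ Y hY a b (Nat.lt_succ_self _)) R hR hu
    fun _ _ _ => trivial

end GC

section Av
variable {C : Type u} [Category.{v} C] [Preadditive C] [HasBinaryBiproducts C] [HasZeroObject C]
  {Γ : Type w} [Group Γ] {σ : Act Γ C}

theorem kTR' {V : Type w} [MulAction Γ V] {T : SimpleGraph V} (hT : T.IsTree)
    (ha : ∀ (g : Γ) a b, T.Adj a b → T.Adj (g • a) (g • b))
    (hi : ∀ (g : Γ) a b, T.Adj a b → g • a = b → g • b ≠ a)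
    (h1 : ∀ v : V, ∀ D ≤ stabilizer Γ v, KZ (σ.comap D.subtype)) (μ : Subgroup Γ → ℕ)
    (h2 : ∀ v : V, ∀ D ≤ stabilizer Γ v, ∀ g, Fr D (dc D g) → GD σ D g ∨ μ (cj D g) < μ D) :
    KZ σ :=
  have e (d : Dt T ha) : stabilizer Γ d ≤ stabilizer Γ d.a := fun _ k => congrArg Dt.a k
  kz_of_zf (GC.zf_tree (.fst Γ Zi) hT ha hi (fun a => (kz_sub _).1 (h1 a _ le_rfl))
    (fun d => (kz_sub _).1 (h1 _ _ (e d))) (GC.gi_desc Prod.fst_surjective
      (fun D => ∃ v : V, D ≤ stabilizer Γ v) (fun _ _ a b => b.imp fun _ c => a.trans c)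
      (fun D ⟨v, a⟩ => (kz_sub _).1 (h1 v D a)) μ (fun D ⟨v, a⟩ => h2 v D a) _
      (fun d => ⟨_, e d⟩) _ Dt.st_smul (Dt.unq hT)))

theorem kTR0 {V : Type} [MulAction Γ V] {T : SimpleGraph V} (hT : T.IsTree)
    (ha : ∀ (g : Γ) a b, T.Adj a b → T.Adj (g • a) (g • b))
    (hi : ∀ (g : Γ) a b, T.Adj a b → g • a = b → g • b ≠ a)
    (h1 : ∀ v : V, ∀ D ≤ stabilizer Γ v, KZ (σ.comap D.subtype)) (μ : Subgroup Γ → ℕ)
    (h2 : ∀ v : V, ∀ D ≤ stabilizer Γ v, ∀ g, Fr D (dc D g) → GD σ D g ∨ μ (cj D g) < μ D) :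
    KZ σ :=
  have e (v : ULift.{w} V) : stabilizer Γ v ≤ stabilizer Γ v.down := fun _ k => congrArg ULift.down k
  kTR' (V := ULift.{w} V) (T := T.comap ULift.down)
    ((SimpleGraph.Iso.comap Equiv.ulift T).isTree_iff.2 hT) (fun g _ _ => ha g _ _)
    (fun g _ _ a b c => hi g _ _ a (congrArg ULift.down b) (congrArg ULift.down c))
    (fun v D a => h1 _ D (a.trans (e v))) μ fun v D a => h2 _ D (a.trans (e v))

theorem kTR {Φ : Subgroup Γ → Prop} (h : OT Γ Φ)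
    (h1 : ∀ D, (∀ k : Γ, ∀ U ≤ MulAut.conj k • D, Φ U) → KZ (σ.comap D.subtype))
    (μ : Subgroup Γ → ℕ) (h2 : ∀ D, (∀ k : Γ, ∀ U ≤ MulAut.conj k • D, Φ U) → ∀ g, Fr D (dc D g) →
      GD σ D g ∨ μ (cj D g) < μ D) : KZ σ := by
  obtain ⟨V, _, T, a, b, c, d⟩ := h
  have (v : V) (D) (e : D ≤ stabilizer Γ v) (k : Γ) (U) (f : U ≤ MulAut.conj k • D) : Φ U :=
    d (k • v) U fun u l => by
      have := e ((Subgroup.mem_pointwise_smul_iff_inv_smul_mem).1 (f l))
      simpa [mul_smul, inv_smul_eq_iff] using this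
  exact kTR' a b c (fun v D e => h1 D (this v D e)) μ fun v D e => h2 D (this v D e)

end Av

end Pool.Agent.Lib.MP_5d3e93_al
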