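import Pool.Agent.Lib.MP_5d3e93_al.K.HCl
import Pool.Agent.Lib.MP_5d3e93_al.K.Push

/-! Lifting Nil terms along a homomorphism. -/

open CategoryTheory Limits ZeroObject Filter MulAction HNNExtension
open scoped Pointwise

namespace Pool.Agent.Lib.MP_5d3e93_al

universe w v u y v' u' v'' u''

open Gr

theorem GC.hlf_rg {G : Type w} [Group G] {C : Type u} [Category.{v} C] [Preadditive C] {S : GC G C}
    {A B : C} {L : S.Lo PUnit.{y + 1} A} {M : S.Lo PUnit.{y + 1} B} {T : Set G} {f : A ⟶ B} :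
    L.Rg M (fun _ g _ => g ∈ T) f ↔ S.Sup T f := by
  have k : ∀ {A : C} (L : S.Lo PUnit.{y + 1} A), L.e ⟨⟩ = 𝟙 A := fun L => by
    rw [← L.total, Finset.sum_eq_single ⟨⟩ (fun _ _ h => (h rfl).elim) (L.out ⟨⟩)]
  have e : L.e ⟨⟩ ≫ f ≫ M.e ⟨⟩ = f := by simp [k]
  exact ⟨fun h => e ▸ h ⟨⟩ ⟨⟩, fun h _ _ => e.symm ▸ h⟩

theorem hlf_abs {X : Am.{v'', u''}} {B : Type (max u v)} [Category.{v} B] [Preadditive B]
    [HasZeroObject B] [HasBinaryBiproducts B] {B' : Type (max u' v')} [Category.{v'} B']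
    [Preadditive B'] [HasZeroObject B'] [HasBinaryBiproducts B'] {F : Fn X B} (F' : Fn X B')
    (Φ : B' ⥤ B) [Φ.Additive] (e : F.F ≅ F'.F ⋙ Φ) {x : F ⟶ F} {t : F' ⟶ F'}
    (k : Fn.Tr.{v'', u'', v', u'} (𝟙 F' - t))
    (h : ∀ A, e.hom.app A ≫ Φ.map (NatTrans.app t A) = NatTrans.app x A ≫ e.hom.app A) :
    Fn.Tr.{v'', u'', v, u} (𝟙 F - x) := by
  refine Fn.Tr.conj (F' := F'.post Φ) ⟨e.hom, e.inv, e.hom_inv_id, e.inv_hom_id⟩
    (NatTrans.ext (funext fun A => ?_)) (Fn.Tr.post.{v'', u'', v', u', v, u} Φ k)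
  change e.hom.app A ≫ Φ.map (𝟙 (F'.F.obj A) - NatTrans.app t A) =
    (𝟙 (F.F.obj A) - NatTrans.app x A) ≫ e.hom.app A
  rw [Φ.map_sub, Φ.map_id, Preadditive.comp_sub, Preadditive.sub_comp, h, Category.id_comp]
  exact congrArg (fun k => k - NatTrans.app x A ≫ e.hom.app A) (Category.comp_id (e.hom.app A))

section Lift
variable {C : Type u} [Category.{v} C] [Preadditive C] [HasBinaryBiproducts C]
  {G G' : Type w} [Group G] [Group G'] {ρ : Act G C} {j : G' →* G} {H' : Subgroup G'}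
  {H : Subgroup G}

theorem hlf_inj {Ω : Set G'} (hj : Set.InjOn j Ω) {X Y : Tw (ρ.comap j)} {f g : X ⟶ Y}
    (h : (twGC (ρ.comap j)).Sup Ω f) (k : (twGC (ρ.comap j)).Sup Ω g)
    (e : (Tw.pushF j).map f = (Tw.pushF j).map g) : f = g :=
  sub_eq_zero.1 (push_zero hj (h.sub k) (by rw [Functor.map_sub, e, sub_self]))

theorem hlf_ex (hH : (H : Set G) ⊆ j '' H') {M N : (twGC ρ).LQ (Rl.pu H)} (f : M ⟶ N) :
    ∃ f' : (⟨M.A.as⟩ : Tw (ρ.comap j)) ⟶ ⟨N.A.as⟩, (twGC (ρ.comap j)).Sup H' f' ∧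
      (Tw.pushF j).map f' = f.1 :=
  push_lift (X := ⟨M.A.as⟩) (Y := ⟨N.A.as⟩) f.1 ((GC.hlf_rg.1 (GC.LQ.hom_rg f)).mono hH)

variable (hj : Set.InjOn j H') (hH : (H : Set G) ⊆ j '' H')
include hj

theorem hlf_comp {M N K : (twGC ρ).LQ (Rl.pu H)} (f : M ⟶ N) (g : N ⟶ K) {h : M ⟶ K}
    (e : f ≫ g = h) : (hlf_ex hH f).choose ≫ (hlf_ex hH g).choose = (hlf_ex hH h).choose :=
  hlf_inj hj ((hlf_ex hH f).choose_spec.1.comp (hlf_ex hH g).choose_spec.1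
    fun _ a _ b => H'.mul_mem a b) (hlf_ex hH h).choose_spec.1 (by
      rw [Functor.map_comp, (hlf_ex hH f).choose_spec.2, (hlf_ex hH g).choose_spec.2,
        (hlf_ex hH h).choose_spec.2, ← e]
      rfl)

/-- The lift of located idempotents. -/
noncomputable def hlfF : (twGC ρ).LQ (Rl.pu H) ⥤ (twGC (ρ.comap j)).LQ (Rl.pu H') where
  obj M := ⟨⟨M.A.as⟩, .one _ ⟨⟩ _, (hlf_ex hH (𝟙 M)).choose,
    hlf_comp hj hH _ _ (Category.id_comp _), GC.hlf_rg.2 (hlf_ex hH (𝟙 M)).choose_spec.1⟩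
  map f := GC.LQ.homMk (hlf_ex hH f).choose (hlf_comp hj hH _ _ (Category.id_comp _))
    (hlf_comp hj hH _ _ (Category.comp_id _)) (GC.hlf_rg.2 (hlf_ex hH f).choose_spec.1)
  map_id _ := rfl
  map_comp f g := GC.LQ.hom_ext (hlf_comp hj hH f g rfl).symm

instance : (hlfF (ρ := ρ) hj hH).Additive := ⟨fun {_ _ f g} => GC.LQ.hom_ext
  (hlf_inj hj (hlf_ex hH (f + g)).choose_spec.1
    ((hlf_ex hH f).choose_spec.1.add (hlf_ex hH g).choose_spec.1)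
    ((hlf_ex hH (f + g)).choose_spec.2.trans ((congrArg₂ (· + ·) (hlf_ex hH f).choose_spec.2
      (hlf_ex hH g).choose_spec.2).symm.trans (Tw.pushF j).map_add.symm)))⟩

theorem hlfF_push {M N : (twGC ρ).LQ (Rl.pu H)} (f : M ⟶ N) :
    (Tw.pushF j).map ((hlfF hj hH).map f).1 = f.1 := (hlf_ex hH f).choose_spec.2

theorem hlfF_sup {M N : (twGC ρ).LQ (Rl.pu H)} (f : M ⟶ N) :
    (twGC (ρ.comap j)).Sup H' ((hlfF hj hH).map f).1 := (hlf_ex hH f).choose_spec.1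

/-- Extension of the group on idempotent completions. -/
noncomputable def hlfP (ρ : Act G C) (j : G' →* G) :
    (twGC (ρ.comap j)).LQ (Rl.pt ⊤) ⥤ (twGC ρ).LQ (Rl.pt ⊤) :=
  GC.twF _ (twGC ρ) ⊤ ⊤ (Tw.pushF j) fun _ _ => GC.sup_top _ _

instance : (hlfP ρ j).Additive := ⟨GC.LQ.hom_ext (Tw.pushF j).map_add⟩

/-- Lifting and extending is the identity. -/
noncomputable def hlfI : GC.LQ.U (twGC ρ) (Rl.pu H) ≅ hlfF hj hH ⋙ GC.LQ.U _ _ ⋙ hlfP ρ j :=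
  NatIso.ofComponents (fun M =>
    ⟨GC.LQ.homMk M.p M.idem ((congrArg (M.p ≫ ·) (hlfF_push hj hH (𝟙 M))).trans M.idem)
      fun _ _ _ h => (h trivial).elim,
    GC.LQ.homMk M.p ((congrArg (· ≫ M.p) (hlfF_push hj hH (𝟙 M))).trans M.idem) M.idem
      fun _ _ _ h => (h trivial).elim,
    GC.LQ.hom_ext M.idem, GC.LQ.hom_ext (M.idem.trans (hlfF_push hj hH (𝟙 M)).symm)⟩)
    fun {M _} f => GC.LQ.hom_ext ((GC.LQ.comp_p f).trans
      ((congrArg (M.p ≫ ·) (hlfF_push hj hH f)).trans (GC.LQ.p_comp f)).symm)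

variable {Ω : Set G'} (h2 : Set.InjOn j Ω)
  (hl : ∀ d ∈ H', ∀ a ∈ Ω, d * a ∈ Ω) (hr : ∀ d ∈ H', ∀ a ∈ Ω, a * d ∈ Ω)
include h2 hl hr

theorem hlf_sq {M N : (twGC ρ).LQ (Rl.pu H)} (f : M ⟶ N)
    {y : ((hlfF hj hH).obj M).A ⟶ ((hlfF hj hH).obj M).A}
    {y' : ((hlfF hj hH).obj N).A ⟶ ((hlfF hj hH).obj N).A} (a : (twGC (ρ.comap j)).Sup Ω y)
    (a' : (twGC (ρ.comap j)).Sup Ω y')
    (e : f.1 ≫ (Tw.pushF j).map y' = (Tw.pushF j).map y ≫ f.1) :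
    ((hlfF hj hH).map f).1 ≫ y' = y ≫ ((hlfF hj hH).map f).1 :=
  hlf_inj h2 ((hlfF_sup hj hH f).comp a' hl) (a.comp (hlfF_sup hj hH f) fun a b d e => hr d e a b)
    (by rw [Functor.map_comp, Functor.map_comp, hlfF_push]; exact e)

omit hr in
theorem hlf_p {M : (twGC ρ).LQ (Rl.pu H)} {y : ((hlfF hj hH).obj M).A ⟶ ((hlfF hj hH).obj M).A}
    (a : (twGC (ρ.comap j)).Sup Ω y) (e : M.p ≫ (Tw.pushF j).map y = (Tw.pushF j).map y) :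
    ((hlfF hj hH).map (𝟙 M)).1 ≫ y = y :=
  hlf_inj h2 ((hlfF_sup hj hH _).comp a hl) a (by rw [Functor.map_comp, hlfF_push]; exact e)

theorem hlf_tr [HasZeroObject C] (z : (twGC (ρ.comap j)).GS H' Ω) {m : ℕ}
    (X : Am.{max v w, max u w}) (hX : X.Gs)
    (F : Fn X ((twGC ρ).LQ (Rl.pu H))) (x : (twGC ρ).und F ⟶ (twGC ρ).und F)
    (hN : ∀ A, ∃ y : ((hlfF hj hH).obj (F.F.obj A)).A ⟶ ((hlfF hj hH).obj (F.F.obj A)).A,
      (twGC (ρ.comap j)).Sup Ω y ∧ (Tw.pushF j).map y = (NatTrans.app x A).1 ∧ pw y (m + 1) = 0) :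
    Fn.Tr.{max v w, max u w, max v w, u} (𝟙 ((twGC ρ).und F) - x) := by
  choose y y1 y2 y3 using hN
  have p1 : ∀ A, ((hlfF hj hH).map (𝟙 (F.F.obj A))).1 ≫ y A = y A := fun A =>
    hlf_p hj hH h2 hl (y1 A) (by rw [y2]; exact GC.LQ.p_comp (NatTrans.app x A))
  have p2 : ∀ A, y A ≫ ((hlfF hj hH).map (𝟙 (F.F.obj A))).1 = y A := fun A =>
    (hlf_sq hj hH h2 hl hr (𝟙 (F.F.obj A)) (y1 A) (y1 A) (by
      rw [y2]
      exact (GC.LQ.p_comp (NatTrans.app x A)).trans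
        (GC.LQ.comp_p (NatTrans.app x A)).symm)).symm.trans (p1 A)
  have p3 : ∀ A B (f : A ⟶ B), ((hlfF hj hH).map (F.F.map f)).1 ≫ y B =
      y A ≫ ((hlfF hj hH).map (F.F.map f)).1 := fun A B f =>
    hlf_sq hj hH h2 hl hr (F.F.map f) (y1 A) (y1 B) (by
      rw [y2, y2]
      exact congrArg (·.1) (NatTrans.naturality x f))
  obtain ⟨x', hx'⟩ : ∃ x' : (twGC (ρ.comap j)).und (F.post (hlfF hj hH)) ⟶
      (twGC (ρ.comap j)).und (F.post (hlfF hj hH)), ∀ A, (NatTrans.app x' A).1 = y A :=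
    ⟨{ app := fun A => GC.LQ.homMk (y A) (p1 A) (p2 A) fun _ _ _ h => (h trivial).elim
       naturality := fun A B f => GC.LQ.hom_ext (p3 A B f) }, fun _ => rfl⟩
  have k := z (m + 1) X hX (F.post (hlfF hj hH)) x' (fun A => GC.hlf_rg.2 ((hx' A).symm ▸ y1 A))
    (NatTrans.ext (funext fun A => GC.LQ.hom_ext
      ((GC.pw_app x' m A).trans ((hx' A).symm ▸ y3 A))))
  refine hlf_abs.{max v w, u, max v w, u, max v w, max u w} _ (hlfP ρ j)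
    (Functor.isoWhiskerLeft F.F (hlfI hj hH)) k fun A => GC.LQ.hom_ext ?_
  have e : (Tw.pushF j).map (NatTrans.app x' A).1 = (NatTrans.app x A).1 := (hx' A).symm ▸ y2 A
  exact ((congrArg ((F.F.obj A).p ≫ ·) e).trans (GC.LQ.p_comp (NatTrans.app x A))).trans
    (GC.LQ.comp_p (NatTrans.app x A)).symm

end Lift

section Av
variable {C : Type u} [Category.{v} C] [Preadditive C] [HasBinaryBiproducts C] [HasZeroObject C]
  {Γ : Type w} [Group Γ] {σ : Act Γ C}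

theorem kd_of_kz (h : KZ σ) (H : Subgroup (Γ × Zi)) (Ω : Set (Γ × Zi)) : (SZ σ).GS H Ω := fun _ =>
  GC.Gm.push (P' := Rl.pu ⊤) (B' := fun _ _ _ => True) id (fun _ _ _ _ => trivial)
    (fun _ _ _ _ => trivial) (GC.gm_of_zq (GC.Zq.retract (Q' := Rl.pt ⊤) (fun _ => ()) (fun _ => ⟨⟩)
      (fun _ _ _ _ => trivial) (fun _ _ _ _ => trivial) (fun _ _ _ _ => ⟨trivial, trivial⟩) h)
      fun _ _ _ _ => trivial)

theorem tr_lift {Γ' : Type w} [Group Γ'] (j : Γ' →* Γ) {E : Subgroup Γ'} {Ω : Set Γ'}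
    (h1 : Set.InjOn j E) (h2 : Set.InjOn j Ω) (hl : ∀ d ∈ E, ∀ a ∈ Ω, d * a ∈ Ω)
    (hr : ∀ d ∈ E, ∀ a ∈ Ω, a * d ∈ Ω) (z : (SZ (σ.comap j)).GS (E.comap (.fst Γ' Zi)) {k | k.1 ∈ Ω})
    {D : Subgroup Γ} (hD : E.map j = D) {m : ℕ} (X : Am.{max v w, max u w}) (hX : X.Gs)
    (F : Fn X ((SZ σ).LQ (Rl.pu (D.comap (.fst Γ Zi))))) (x : (SZ σ).und F ⟶ (SZ σ).und F)
    (hN : ∀ A, LN σ j Ω m (F.F.obj A).A (NatTrans.app x A).1) :
    Fn.Tr.{max v w, max u w, max v w, u} (𝟙 ((SZ σ).und F) - x) := by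
  subst hD
  exact hlf_tr (ρ := σ.comap (.fst Γ Zi)) (j := j.prodMap (.id Zi)) (H' := E.comap (.fst Γ' Zi))
    (H := (E.map j).comap (.fst Γ Zi)) (Ω := {k | k.1 ∈ Ω})
    (fun a b c d e => Prod.ext (h1 b d (congrArg Prod.fst e)) (congrArg Prod.snd e :))
    (fun g ⟨a, b, e⟩ => ⟨(a, g.2), b, Prod.ext e rfl⟩)
    (fun a b c d e => Prod.ext (h2 b d (congrArg Prod.fst e)) (congrArg Prod.snd e :))
    (fun d a e b => hl d.1 a e.1 b) (fun d a e b => hr d.1 a e.1 b) z X hX F x hN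

theorem jj_inj (D : Subgroup Γ) (g : Γ) : Set.InjOn (jj D g) (Bs.E (pE D g)) ∧
    Set.InjOn (jj D g) (dc (Bs.E (pE D g)) t) ∧ (Bs.E (pE D g)).map (jj D g) = D ∧
      jj D g '' dc (Bs.E (pE D g)) t = dc D g := by
  refine ⟨?_, ?_, ?_, Set.ext fun x => ⟨?_, ?_⟩⟩
  · rintro _ ⟨a, rfl⟩ _ ⟨b, rfl⟩ e
    rw [show a = b from Subtype.ext (by simpa using e)]
  · rintro _ ⟨_, ⟨a, rfl⟩, _, ⟨b, rfl⟩, rfl⟩ _ ⟨_, ⟨a', rfl⟩, _, ⟨b', rfl⟩, rfl⟩ e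
    have e' : g⁻¹ * (a'⁻¹ * a : D) * g = (b' * b⁻¹ : D) := by
      simp only [map_mul, jj_of, jj_t] at e
      rw [Subgroup.coe_mul, Subgroup.coe_mul, Subgroup.coe_inv, Subgroup.coe_inv,
        show (b' : Γ) = (a' * g)⁻¹ * (a * g * b) by rw [e]; group]
      group
    have k := conj_t (d := a'⁻¹ * a) (e' ▸ (b' * b⁻¹).2)
    rw [show (⟨_, e' ▸ (b' * b⁻¹).2⟩ : D) = b' * b⁻¹ from Subtype.ext e', map_mul, map_mul, map_inv,
      map_inv] at k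
    rw [show (of b' : Hn D g) = t⁻¹ * ((of a')⁻¹ * of a) * t * of b by rw [k]; group]
    group
  · ext x
    simp [Bs.E]
  · rintro ⟨_, ⟨_, ⟨a, rfl⟩, _, ⟨b, rfl⟩, rfl⟩, rfl⟩
    exact ⟨a, a.2, b, b.2, by simp⟩
  · rintro ⟨a, ha, b, hb, rfl⟩
    exact ⟨_, ⟨_, ⟨⟨a, ha⟩, rfl⟩, _, ⟨⟨b, hb⟩, rfl⟩, rfl⟩, by simp⟩

theorem kd_hn {D : Subgroup Γ} {g : Γ} (hF : Fr D (dc D g)) (h : KZ (σ.comap (jj D g))) :
    GD σ D g := by
  intro m X hX F x hx hm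
  obtain ⟨h1, h2, h3, h4⟩ := jj_inj D g
  have inj := Fr.injOn (t := t) h1 (by
    rintro _ ⟨a, rfl⟩ e
    exact ⟨_, (conj_t (by simpa [h3] using e)).symm⟩) (by rwa [h3, jj_t]) (m + 1)
  refine tr_lift (jj D g) h1 h2 ?_ ?_ (kd_of_kz h _ _) h3 (m := m) X hX F x fun A => ?_
  · rintro d a _ ⟨b, c, e, f, rfl⟩
    exact ⟨_, mul_mem a c, e, f, by simp [mul_assoc]⟩
  · rintro d a _ ⟨b, c, e, f, rfl⟩
    exact ⟨_, c, _, mul_mem f a, by simp [mul_assoc]⟩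
  obtain ⟨y, y1, y2⟩ := push_lift (ρ := σ.comap (.fst Γ Zi)) (j := (jj D g).prodMap (.id Zi))
    (Ω := {k | k.1 ∈ dc (Bs.E (pE D g)) t}) (X := ⟨(F.F.obj A).A.as⟩) (Y := ⟨(F.F.obj A).A.as⟩)
    (NatTrans.app x A).1 ((GC.hlf_rg.1 (hx A)).mono fun k a => by
      obtain ⟨b, c, e⟩ := h4.ge a
      exact ⟨(b, k.2), c, Prod.ext e rfl⟩)
  refine ⟨y, y1, y2, push_zero (fun a b c d e => Prod.ext (inj (pow_fst b) (pow_fst d)
    (congrArg Prod.fst e)) (congrArg Prod.snd e :)) (y1.pw_pow (m + 1)) ?_⟩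
  rw [map_pw, y2]
  refine (GC.pw_app x m A).symm.trans ?_
  rw [pw_succ, hm, comp_zero]
  rfl
end Av

end Pool.Agent.Lib.MP_5d3e93_al
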