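import Pool.Agent.Lib.MP_5d3e93_al.K.HDf

/-! Matrices of the parts of a morphism. -/

open CategoryTheory Limits ZeroObject Filter MulAction HNNExtension
open scoped Pointwise

namespace Pool.Agent.Lib.MP_5d3e93_al

universe w w' v u y y' v' u' v'' u''

open Gr

namespace GC

section HMt
variable {G : Type w} [Group G] {C : Type u} [Category.{v} C] [Preadditive C] {S : GC G C}
  {A B D : C} {W : Type y} {W' : Type y'} {W'' : Type w'} [Fintype W] [Fintype W'] [Fintype W'']
  (c : S.Cp A W) (c' : S.Cp B W') (c'' : S.Cp D W'') {R R₁ : W → G → W' → Prop}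
  {R' : W' → G → W'' → Prop} {R'' : W → G → W'' → Prop} {T T' : Set G} {f : A ⟶ B} {f' : B ⟶ D}

theorem hmt_add (X : Set G) (f g : A ⟶ B) : S.proj X (f + g) = S.proj X f + S.proj X g :=
  ext_cp (S := S) fun k => by
    simp only [map_add, cp_proj]
    split_ifs <;> simp

theorem hmt_zero (X : Set G) : S.proj X (0 : A ⟶ B) = 0 :=
  ext_cp (S := S) fun k => by simp [cp_proj]

theorem hmt_of {X : Set G} (hf : S.Sup T f) (h : T ⊆ X) : S.proj X f = f :=
  ext_cp (S := S) fun k => by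
    rw [cp_proj]
    split_ifs with e
    · rfl
    · exact (hf k fun a => e (h a)).symm

open Classical in
theorem hmt_hom {g : G} (X : Set G) (hf : S.cp g f = f) :
    S.proj X f = if g ∈ X then f else 0 := by
  split_ifs with e
  · exact hmt_of (.of_cp (X := {g}) hf rfl) (by simpa using e)
  · refine ((Sup.of_cp (X := {g}) hf rfl).proj X).eq_zero (Y := Set.univ)
      (fun _ k => (k trivial).elim) ?_
    rintro _ ⟨rfl, k⟩ _
    exact e k

theorem Cp.mat_add (f g : A ⟶ B) : c.mat c' R (f + g) = c.mat c' R f + c.mat c' R g := by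
  simp [Cp.mat, hmt_add, Finset.sum_add_distrib]

theorem Cp.mat_zero : c.mat c' R (0 : A ⟶ B) = 0 := by simp [Cp.mat, hmt_zero]

theorem Cp.mat_congr (hf : S.Sup T f) (h : ∀ a g b, g ∈ T → (R a g b ↔ R₁ a g b)) :
    c.mat c' R f = c.mat c' R₁ f := by
  classical
  refine Finset.sum_congr rfl fun a _ => Finset.sum_congr rfl fun b _ => ?_
  have : S.proj {g | R a g b} f = S.proj {g | R₁ a g b} f := ext_cp (S := S) fun k => by
    by_cases e : k ∈ T
    · rw [cp_proj, cp_proj]
      exact if_congr (h a k b e) rfl rfl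
    · simp only [cp_proj, hf k e, ite_self]
  rw [this]

theorem Cp.mat_comp (hf : S.Sup T f) (hf' : S.Sup T' f')
    (h1 : ∀ a g b g' d, g ∈ T → g' ∈ T' → R a g b → R' b g' d → R'' a (g * g') d)
    (h2 : ∀ a g g' d, g ∈ T → g' ∈ T' → R'' a (g * g') d → ∃! b, R a g b ∧ R' b g' d) :
    c.mat c' R f ≫ c'.mat c'' R' f' = c.mat c'' R'' (f ≫ f') := by
  classical
  refine hf.induction (P := fun f => c.mat c' R f ≫ c'.mat c'' R' f' = c.mat c'' R'' (f ≫ f'))
    (by simp [Cp.mat_zero]) (fun a b ha hb => by simp [Cp.mat_add, ha, hb]) fun g hg => ?_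
  refine hf'.induction (P := fun f' => c.mat c' R (S.cp g f) ≫ c'.mat c'' R' f' =
    c.mat c'' R'' (S.cp g f ≫ f')) (by simp [Cp.mat_zero])
    (fun a b ha hb => by simp [Cp.mat_add, ha, hb]) fun g' hg' => ?_
  have e1 := S.cp_same g f
  have e2 := S.cp_same g' f'
  generalize S.cp g f = x at e1
  generalize S.cp g' f' = x' at e2
  have k (b : W') : c'.i b ≫ c'.mat c'' R' x' = ∑ d, S.proj {g | R' b g d} x' ≫ c''.i d := by
    rw [Cp.mat, Preadditive.comp_sum, Finset.sum_eq_single b]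
    · simp only [Preadditive.comp_sum, reassoc_of% c'.ir b]
    · intro b' _ e
      simp [Preadditive.comp_sum, reassoc_of% c'.orth b b' e.symm]
    · simp
  rw [Cp.mat, Cp.mat.eq_1 c c'', Preadditive.sum_comp]
  refine Finset.sum_congr rfl fun a _ => ?_
  simp only [Preadditive.sum_comp, Category.assoc, k, Preadditive.comp_sum]
  rw [Finset.sum_comm]
  refine Finset.sum_congr rfl fun d _ => ?_
  simp only [hmt_hom _ e1, hmt_hom _ e2, hmt_hom _ (S.cp_comp e1 e2), Set.mem_ofPred_eq]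
  split_ifs with e
  · obtain ⟨b, hb, u⟩ := h2 a g g' d hg hg' e
    rw [Finset.sum_eq_single b]
    · simp [hb.1, hb.2]
    · intro b' _ n
      split_ifs with p q
      · exact (n (u b' ⟨p, q⟩)).elim
      all_goals simp
    · simp
  · rw [zero_comp, comp_zero]
    refine Finset.sum_eq_zero fun b _ => ?_
    split_ifs with p q
    · exact (e (h1 a g b g' d hg hg' p q)).elim
    all_goals simp

theorem Cp.mat_rg {Y Y' : Type*} {L : S.Lo Y A} {M : S.Lo Y' B} {Q : Y → G → Y' → Prop}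
    (h : L.Rg M Q f) :
    (c.lo L).Rg (c'.lo M) (fun z g z' => Q z.1 g z'.1 ∧ R z.2 g z'.2) (c.mat c' R f) := by
  rintro ⟨x, a⟩ ⟨y, b⟩
  have e : (c.lo L).e (x, a) ≫ c.mat c' R f ≫ (c'.lo M).e (y, b) =
      c.r a ≫ (L.e x ≫ S.proj {g | R a g b} f ≫ M.e y) ≫ c'.i b := by
    change (c.r a ≫ L.e x ≫ c.i a) ≫ c.mat c' R f ≫ c'.r b ≫ M.e y ≫ c'.i b = _
    rw [Cp.mat, Preadditive.sum_comp, Preadditive.comp_sum, Finset.sum_eq_single a,
      Preadditive.sum_comp, Preadditive.comp_sum, Finset.sum_eq_single b]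
    · simp [reassoc_of% c.ir a, reassoc_of% c'.ir b]
    · intro b' _ n
      simp [reassoc_of% c'.orth b' b n]
    · simp
    · intro a' _ n
      simp [Preadditive.sum_comp, Preadditive.comp_sum, reassoc_of% c.orth a a' n.symm]
    · simp
  rw [e]
  refine .one_comp (c.sr a).cp_eq (Sup.comp_one ?_ (c'.si b).cp_eq)
  have h1 : L.Rg M Q (S.proj {g | R a g b} f) := Lo.Rg.sum _ fun g _ => h.cp g
  exact (h1 x y).inter (Lo.rg_sup (S.sup_proj _ f) x y)

/-- One copy. -/
theorem Cp.mat_one (a : W) (b : W') (ha : ∀ x, x = a) (hb : ∀ x, x = b) (hf : S.Sup T f)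
    (h : ∀ g ∈ T, R a g b) : c.mat c' R f = c.r a ≫ f ≫ c'.i b := by
  rw [Cp.mat, Fintype.sum_eq_single a fun x n => (n (ha x)).elim,
    Fintype.sum_eq_single b fun x n => (n (hb x)).elim, hmt_of (X := {g | R a g b}) hf h]
end HMt

end GC

end Pool.Agent.Lib.MP_5d3e93_al
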