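import Pool.Agent.Lib.MP_5d3e93_al.K.HDf

/-! Overlap of windows along paths in a tree. -/

open MulAction
open scoped Pointwise

namespace Pool.Agent.Lib.MP_5d3e93_al

universe w

namespace Hu

variable {Γ : Type w} [Group Γ] {U : Hu Γ} {a b a' b' a'' b'' : ℕ} {g g' : Γ × Zi}

/-- Overlap along a path in the tree. -/
def ovp (D : Subgroup Γ) (k : ℕ) (x : U.Wd a b) (g : Γ × Zi) (z : U.Wd a b) : Prop :=
  ov k x g z ∧ ∃ π : ℕ → Γ, π 0 = 1 ∧ π k = g.1 ∧ (∀ i < k, (π i)⁻¹ * π (i + 1) ∈ dc D U.t) ∧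
    (∀ i ≤ k, i ≤ b → x.v i = π i) ∧ ∀ i ≤ k, k - i ≤ a → (π i : Γ ⧸ U.D) = g.1 • z.v (i - k)

variable {D : Subgroup Γ} {k : ℕ}

theorem we_smul (c d : Γ) : c • (d : Γ ⧸ U.D) = (c * d : Γ) := rfl

theorem we_up {p q : Γ ⧸ U.D} (h : U.up p q) (c : Γ) : U.up (c • p) (c • q) := by
  obtain ⟨u, rfl, rfl⟩ := h
  exact ⟨c * u, rfl, by rw [we_smul, mul_assoc]⟩

theorem we_step (hD : D ≤ U.D) {c d : Γ} (h : c⁻¹ * d ∈ dc D U.t) : U.up c d := by
  obtain ⟨e, he, e', he', k⟩ := h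
  refine ⟨c * e, QuotientGroup.eq.2 (by simpa using hD he), QuotientGroup.eq.2 ?_⟩
  rw [inv_mul_eq_iff_eq_mul.1 k]
  simpa [mul_assoc] using hD he'

theorem we_pow {Ω : Set Γ} {π : ℕ → Γ} (h : ∀ i < k, (π i)⁻¹ * π (i + 1) ∈ Ω) (i j : ℕ)
    (e : i + j ≤ k) : (π i)⁻¹ * π (i + j) ∈ Ω ^ j := by
  induction j with
  | zero => simp
  | succ j ih =>
    rw [pow_succ]
    exact ⟨_, ih (by omega), _, h (i + j) (by omega), by simp [mul_assoc, add_assoc]⟩

theorem ovp_one {x z : U.Wd a b} (hg : g.1 ∈ dc D U.t) : ovp D 1 x g z ↔ ov 1 x g z := by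
  refine ⟨fun p => p.1, fun p => ⟨p, (g.1 ^ ·), pow_zero _, pow_one _, fun i hi => ?_,
    fun i hi e => ?_, fun i hi e => ?_⟩⟩
  · obtain rfl : i = 0 := by omega
    simpa using hg
  · obtain rfl | rfl : i = 0 ∨ i = 1 := by omega
    · simpa using x.bs
    · have := p 1 (by omega) (by omega) (by omega) (by omega)
      rw [sub_self, z.bs, we_smul] at this
      simpa using this
  · obtain rfl | rfl : i = 0 ∨ i = 1 := by omega
    · have := p 0 (by omega) (by omega) (by omega) (by omega)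
      rw [x.bs] at this
      simpa using this
    · rw [sub_self, z.bs, we_smul]
      simp

theorem ovp_trans {x y z : U.Wd a b} (hg : g.1 ∈ dc D U.t) (p : ov 1 x g y) (q : ovp D k y g' z) :
    ovp D (k + 1) x (g * g') z := by
  obtain ⟨q, π, h0, h1, h2, h3, h4⟩ := q
  have o : ov (k + 1 : ℕ) x (g * g') z := fun m c1 c2 c3 c4 => by
    push_cast at c3 c4 ⊢
    rw [p m c1 c2 (by omega) (by omega), q (m - 1) (by omega) (by omega) (by omega) (by omega),
      Prod.fst_mul, mul_smul, sub_sub, add_comm]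
  refine ⟨o, fun i => Nat.casesOn i 1 fun i => g.1 * π i, rfl, congrArg (g.1 * ·) h1,
    fun i hi => ?_, fun i hi e => ?_, fun i hi e => ?_⟩
  · obtain _ | i := i
    · simpa [h0] using hg
    · simpa [mul_assoc] using h2 i (by omega)
  · obtain _ | i := i
    · exact x.bs
    · rw [p _ (by omega) (by omega) (by omega) (by omega), Nat.cast_succ, add_sub_cancel_right,
        h3 i (by omega) (by omega)]
      rfl
  · obtain _ | i := i
    · exact x.bs.symm.trans (o 0 (by omega) (by omega) (by omega) (by omega))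
    · refine (congrArg (g.1 • ·) (h4 i (by omega) (by omega))).trans ?_
      rw [Prod.fst_mul, mul_smul, Nat.cast_succ, Nat.cast_succ, add_sub_add_right_eq_sub]

theorem we_glue (hD : D ≤ U.D) {x z : U.Wd a b} {π : ℕ → Γ} (p : ov k x g z)
    (h2 : ∀ i < k, (π i)⁻¹ * π (i + 1) ∈ dc D U.t) (h3 : ∀ i ≤ k, i ≤ b → x.v i = π i)
    (h4 : ∀ i ≤ k, k - i ≤ a → (π i : Γ ⧸ U.D) = g.1 • z.v (i - k)) :
    ∃ u : ℤ → Γ ⧸ U.D, (∀ m : ℤ, -a ≤ m → m ≤ b → u m = x.v m) ∧ (∀ i ≤ k, u i = π i) ∧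
      (∀ m : ℤ, -a ≤ m - k → m - k ≤ b → u m = g.1 • z.v (m - k)) ∧
      ∀ m : ℤ, -a ≤ m → m < k + b → U.up (u m) (u (m + 1)) := by
  obtain ⟨u, hu⟩ : ∃ u : ℤ → Γ ⧸ U.D, ∀ m, u m = if m ≤ 0 then x.v m else
    if m ≤ k then (π m.toNat : Γ ⧸ U.D) else g.1 • z.v (m - k) := ⟨_, fun _ => rfl⟩
  have a2 : ∀ i ≤ k, u i = π i := fun i hi => by
    rw [hu]
    split_ifs with c d
    · exact h3 i hi (by omega)
    · rfl
    · omega
  have a1 : ∀ m : ℤ, -a ≤ m → m ≤ b → u m = x.v m := fun m c1 c2 => by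
    by_cases c : m ≤ 0
    · rw [hu, if_pos c]
    · by_cases d : m ≤ k
      · obtain ⟨i, rfl⟩ := Int.eq_ofNat_of_zero_le (show 0 ≤ m by omega)
        rw [a2 i (by omega), h3 i (by omega) (by omega)]
      · rw [hu, if_neg c, if_neg d, p m c1 c2 (by omega) (by omega)]
  have a3 : ∀ m : ℤ, -a ≤ m - k → m - k ≤ b → u m = g.1 • z.v (m - k) := fun m c1 c2 => by
    by_cases c : m ≤ 0
    · rw [hu, if_pos c, p m (by omega) (by omega) c1 c2]
    · by_cases d : m ≤ k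
      · obtain ⟨i, rfl⟩ := Int.eq_ofNat_of_zero_le (show 0 ≤ m by omega)
        rw [a2 i (by omega), h4 i (by omega) (by omega)]
      · rw [hu, if_neg c, if_neg d]
  refine ⟨u, a1, a2, a3, fun m c1 c2 => ?_⟩
  by_cases c : m < 0
  · rw [a1 m c1 (by omega), a1 _ (by omega) (by omega)]
    exact x.up m c1 (by omega)
  · by_cases d : m < k
    · obtain ⟨i, rfl⟩ := Int.eq_ofNat_of_zero_le (show 0 ≤ m by omega)
      rw [a2 i (by omega), ← Nat.cast_succ, a2 _ (by omega)]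
      exact we_step hD (h2 i (by omega))
    · rw [a3 m (by omega) (by omega), a3 _ (by omega) (by omega), add_sub_right_comm]
      exact we_up (z.up _ (by omega) (by omega)) _

theorem we_uniq (hD : D ≤ U.D) (fr : Fr D (dc D U.t)) {x y y' z : U.Wd a b}
    (p : ov 1 x g y ∧ ovp D k y g' z) (q : ov 1 x g y' ∧ ovp D k y' g' z) : y = y' := by
  obtain ⟨p, p', π, h0, h1, h2, h3, -⟩ := p
  obtain ⟨q, q', ρ, k0, k1, k2, k3, -⟩ := q
  refine Wd.ext (funext fun m => ?_)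
  by_cases c : m < -a ∨ b < m
  · rw [y.out m c, y'.out m c]
  by_cases d : m < b
  · have := (p (m + 1) (by omega) (by omega) (by omega) (by omega)).symm.trans
      (q (m + 1) (by omega) (by omega) (by omega) (by omega))
    rwa [add_sub_cancel_right, smul_left_cancel_iff] at this
  obtain rfl : m = b := by omega
  by_cases e : b ≤ k
  · obtain ⟨j, rfl⟩ := Nat.exists_eq_add_of_le e
    rw [h3 b e le_rfl, k3 b e le_rfl]
    have := fr.pref b j _ (we_pow h2 0 b (by omega)) _ (we_pow k2 0 b (by omega)) _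
      (we_pow h2 b j le_rfl) _ (we_pow k2 b j le_rfl) 1 (one_mem _) (by simp [h0, k0, h1, k1])
    exact QuotientGroup.eq.2 (by simpa [h0, k0] using hD this)
  · rw [p' b (by omega) le_rfl (by omega) (by omega), q' b (by omega) le_rfl (by omega) (by omega)]

/-- Prefixes of paths in the tree are unique modulo `D` (`Fr.pref`). -/
theorem ovp_mid (hD : D ≤ U.D) (fr : Fr D (dc D U.t)) {x z : U.Wd a b} (hg : g.1 ∈ dc D U.t)
    (hk : 0 < k) (hg' : g'.1 ∈ dc D U.t ^ k) (p : ovp D (k + 1) x (g * g') z) :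
    ∃! y : U.Wd a b, ov 1 x g y ∧ ovp D k y g' z := by
  refine existsUnique_of_exists_of_unique ?_ fun _ _ => we_uniq hD fr
  obtain ⟨p, π, h0, h1, h2, h3, h4⟩ := p
  obtain ⟨u, a1, a2, a3, a4⟩ := we_glue hD p h2 h3 h4
  rw [Prod.fst_mul] at h1 a3
  push_cast at a3 a4
  have d : g.1⁻¹ * π 1 ∈ D := fr.free k _ hg _ (by simpa [h0] using h2 0 (by omega)) _ hg' _
    (we_pow h2 1 k (by omega)) (by rw [add_comm, h1]; simp)
  have d' : g.1⁻¹ • (π 1 : Γ ⧸ U.D) = (1 : Γ) :=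
    (QuotientGroup.eq.2 (by simpa using hD d)).symm
  let y : U.Wd a b :=
    { v m := if -a ≤ m ∧ m ≤ b then g.1⁻¹ • u (m + 1) else (1 : Γ)
      bs := by rw [if_pos (by omega), ← d', ← a2 1 (by omega)]; rfl
      up m c1 c2 := by
        rw [if_pos (by omega), if_pos (by omega)]
        exact we_up (a4 _ (by omega) (by omega)) _
      out m c := if_neg (by omega) }
  have hy : ∀ m : ℤ, -a ≤ m → m ≤ b → y.v m = g.1⁻¹ • u (m + 1) := fun m c1 c2 => if_pos ⟨c1, c2⟩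
  have e : ∀ i : ℕ, ((if i = 0 then 1 else g.1⁻¹ * π (i + 1) : Γ) : Γ ⧸ U.D) =
      g.1⁻¹ • (π (i + 1) : Γ ⧸ U.D) := fun i => by
    split_ifs with c
    · rw [c]; exact d'.symm
    · rfl
  refine ⟨y, fun m c1 c2 c3 c4 => ?_, fun m c1 c2 c3 c4 => ?_,
    fun i => if i = 0 then 1 else g.1⁻¹ * π (i + 1), rfl, ?_, fun i hi => ?_, fun i hi c => ?_,
    fun i hi c => ?_⟩
  · rw [hy _ c3 c4, sub_add_cancel, smul_inv_smul, a1 m c1 c2]
  · rw [hy m c1 c2, a3 _ (by omega) (by omega), mul_smul, inv_smul_smul, add_sub_add_right_eq_sub]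
  · beta_reduce
    rw [if_neg hk.ne', h1, inv_mul_cancel_left]
  · beta_reduce
    rw [if_neg i.succ_ne_zero]
    split_ifs with c
    · subst c
      simpa [mul_assoc] using fr.left _ d _ (h2 1 (by omega))
    · simpa [mul_assoc] using h2 (i + 1) (by omega)
  · rw [e, hy _ (by omega) (by omega), ← Nat.cast_succ, a2 _ (by omega)]
  · rw [e, ← a2 _ (by omega), Nat.cast_succ, a3 _ (by omega) (by omega), mul_smul, inv_smul_smul,
      add_sub_add_right_eq_sub]

end Hu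

end Pool.Agent.Lib.MP_5d3e93_al
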