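import Pool.Agent.Lib.MP_5d3e93_al.K.HCl
import Pool.Agent.Lib.MP_5d3e93_al.K.HMt
import Pool.Agent.Lib.MP_5d3e93_al.K.HWd
import Pool.Agent.Lib.MP_5d3e93_al.K.HWe

/-! The window functors and the cyclic moves. -/

open CategoryTheory Limits ZeroObject Filter MulAction
open scoped Pointwise

namespace Pool.Agent.Lib.MP_5d3e93_al

universe w v u y v' u'

open Gr

/-- The degrees allowed for a shift. -/
def Hu.Dg {Γ : Type w} [Group Γ] (U : Hu Γ) (i : ℤ) : Set (Γ × Zi) :=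
  {g | i = 0 ∧ g.1 ∈ U.D ∨ i = 1 ∧ g.1 ∈ dc U.D U.t}

namespace GC

section HWn
variable {Γ : Type w} [Group Γ] {C : Type u} [Category.{v} C] [Preadditive C] [HasZeroObject C]
  (S : GC (Γ × Zi) C) (U : Hu Γ) [∀ a b, Fintype (U.Wd a b)] {Y : Type y} {P : Rl (Γ × Zi) Y}
  (hP : ∀ a g b, P.r a g b → g.1 ∈ U.D)

/-- The matrix of overlapping windows. -/
noncomputable def wm (a b a' b' : ℕ) (j : ℤ) {A B : C} (f : A ⟶ B) :
    (S.cpw A (U.Wd a b)).P ⟶ (S.cpw B (U.Wd a' b')).P :=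
  (S.cpw A (U.Wd a b)).mat (S.cpw B (U.Wd a' b')) (Hu.ov j) f

section
variable {S U} {a b a' b' a'' b'' : ℕ} {i j l : ℤ} {A B D : C} {f : A ⟶ B} {f' : B ⟶ D}

theorem wm_comp (hf : S.Sup (U.Dg i) f) (hf' : S.Sup (U.Dg j) f') (e : i + j = l) (hl : l ≤ 1)
    (h1 : ∀ k : ℤ, -a ≤ k → k ≤ b → -a'' ≤ k - l → k - l ≤ b'' → -a' ≤ k - i ∧ k - i ≤ b')
    (h2 : ∀ k : ℤ, -a' ≤ k → k ≤ b' → (-a ≤ k + i ∧ k + i ≤ b) ∨ (-a'' ≤ k - j ∧ k - j ≤ b'')) :
    S.wm U a b a' b' i f ≫ S.wm U a' b' a'' b'' j f' = S.wm U a b a'' b'' l (f ≫ f') := by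
  subst e
  exact Cp.mat_comp _ _ _ hf hf' (fun _ _ _ _ _ _ _ p q => Hu.ov_trans h1 p q)
    fun _ _ _ _ c d p => Hu.ov_mid c d hl h2 p

omit [HasZeroObject C] [∀ a b, Fintype (U.Wd a b)] in
theorem dg_le (hf : S.Sup (U.Dg i) f) : i ≤ 1 ∨ f = 0 := by
  refine or_iff_not_imp_left.2 fun k => S.ext0 _ fun g => hf g ?_
  rintro (⟨e, -⟩ | ⟨e, -⟩) <;> omega

theorem wm_zero : S.wm U a b a' b' i (0 : A ⟶ B) = 0 := Cp.mat_zero _ _

theorem wm_left (hf : S.Sup (U.Dg 0) f) (hf' : S.Sup (U.Dg j) f') :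
    S.wm U a b a b 0 f ≫ S.wm U a b a' b' j f' = S.wm U a b a' b' j (f ≫ f') := by
  obtain k | rfl := dg_le hf'
  · exact wm_comp hf hf' (zero_add j) k (fun _ _ _ _ _ => by omega) fun _ _ _ => by omega
  · simp [wm_zero]

theorem wm_right (hf : S.Sup (U.Dg j) f) (hf' : S.Sup (U.Dg 0) f') :
    S.wm U a b a' b' j f ≫ S.wm U a' b' a' b' 0 f' = S.wm U a b a' b' j (f ≫ f') := by
  obtain k | rfl := dg_le hf
  · exact wm_comp hf hf' (add_zero j) k (fun _ _ _ _ _ => by omega) fun _ _ _ => by omega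
  · simp [wm_zero]

omit [HasZeroObject C] [∀ a b, Fintype (U.Wd a b)] in
include hP in
theorem dg_hom {M N : S.LQ P} (f : M ⟶ N) : S.Sup (U.Dg 0) f.1 :=
  (LQ.hom_rg f).sup fun a g b h => .inl ⟨rfl, hP a g b h⟩

omit [HasZeroObject C] [∀ a b, Fintype (U.Wd a b)] in
include hP in
theorem dg_p (M : S.LQ P) : S.Sup (U.Dg 0) M.p := dg_hom hP (𝟙 M)

end

/-- The window functor. -/
noncomputable def wF (a b : ℕ) : S.LQ P ⥤ S.LQ (Rl.pt ⊤) where
  obj M := ⟨(S.cpw M.A (U.Wd a b)).P, .one S () _, S.wm U a b a b 0 M.p,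
    by rw [wm_left (dg_p hP M) (dg_p hP M), M.idem], fun _ _ _ h => (h trivial).elim⟩
  map {M N} f := LQ.homMk (S.wm U a b a b 0 f.1)
    ((wm_left (dg_p hP M) (dg_hom hP f)).trans (by rw [LQ.p_comp]))
    ((wm_left (dg_hom hP f) (dg_p hP N)).trans (by rw [LQ.comp_p])) fun _ _ _ h => (h trivial).elim
  map_id _ := rfl
  map_comp f g := LQ.hom_ext (wm_left (dg_hom hP f) (dg_hom hP g)).symm

instance (a b : ℕ) : (S.wF U hP a b).Additive :=
  ⟨LQ.hom_ext (Cp.mat_add _ _ _ _)⟩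

variable {S U} {X : Am.{v', u'}} (F : Fn X (S.LQ P)) (x : S.und F ⟶ S.und F)
  (hx : ∀ A, S.Sup {g | g.1 ∈ dc U.D U.t} (NatTrans.app x A).1)

/-- The natural maps between window functors. -/
noncomputable def wN (a b a' b' : ℕ) {j : ℤ} (z : S.und F ⟶ S.und F)
    (hz : ∀ A, S.Sup (U.Dg j) (NatTrans.app z A).1) :
    F.post (S.wF U hP a b) ⟶ F.post (S.wF U hP a' b') where
  app A := LQ.homMk (S.wm U a b a' b' j (NatTrans.app z A).1)
    ((wm_left (dg_p hP (F.F.obj A)) (hz A)).trans (congrArg _ (LQ.p_comp (NatTrans.app z A))))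
    ((wm_right (hz A) (dg_p hP (F.F.obj A))).trans (congrArg _ (LQ.comp_p (NatTrans.app z A))))
    fun _ _ _ h => (h trivial).elim
  naturality A B f := LQ.hom_ext (((wm_left (dg_hom hP (F.F.map f)) (hz B)).trans
    (congrArg _ (congrArg (·.1) (NatTrans.naturality z f)))).trans
      (wm_right (hz A) (dg_hom hP (F.F.map f))).symm)

omit [HasZeroObject C] [∀ a b, Fintype (U.Wd a b)] in
include hx in
theorem dg_x (A : X.A) : S.Sup (U.Dg 1) (NatTrans.app x A).1 := (hx A).mono fun _ h => .inr ⟨rfl, h⟩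

omit [HasZeroObject C] [∀ a b, Fintype (U.Wd a b)] in
include hP in
theorem dg_id (A : X.A) : S.Sup (U.Dg 0) (NatTrans.app (𝟙 (S.und F)) A).1 := dg_p hP (F.F.obj A)

/-- The endomorphism on windows. -/
noncomputable def wX (a b : ℕ) : F.post (S.wF U hP a b) ⟶ F.post (S.wF U hP a b) where
  app A := LQ.homMk (S.wm U a b a b 1 (NatTrans.app x A).1)
    (LQ.p_comp (NatTrans.app (wN hP F a b a b x (dg_x F x hx)) A))
    (LQ.comp_p (NatTrans.app (wN hP F a b a b x (dg_x F x hx)) A))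
    fun _ _ _ h => (h trivial).elim
  naturality := (wN hP F a b a b x (dg_x F x hx)).naturality

/-- `pw (wm 1 ξ) k = mat (ovp D k) (pw ξ k)` for `0 < k`. -/
theorem wm_nil {D : Subgroup Γ} (hD : D ≤ U.D) (fr : Fr D (dc D U.t)) (a b : ℕ) {A : C} {ξ : A ⟶ A}
    (h : S.Sup {g | g.1 ∈ dc D U.t} ξ) {m : ℕ} (hm : pw ξ (m + 1) = 0) :
    pw (S.wm U a b a b 1 ξ) (m + 1) = 0 := by
  have e (k : ℕ) : pw (S.wm U a b a b 1 ξ) (k + 1) = (S.cpw A (U.Wd a b)).mat (S.cpw A (U.Wd a b))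
      (Hu.ovp D (k + 1)) (pw ξ (k + 1)) := by
    induction k with
    | zero =>
      simp only [pw_succ, pw_zero, Category.comp_id]
      exact Cp.mat_congr _ _ h fun _ _ _ c => (Hu.ovp_one c).symm
    | succ k ih =>
      rw [pw_succ, ih, pw_succ ξ (k + 1)]
      exact Cp.mat_comp _ _ _ h ((h.pw_pow (k + 1)).mono
        (Y := {g : Γ × Zi | g.1 ∈ dc D U.t ^ (k + 1)}) fun _ => pow_fst)
        (fun _ _ _ _ _ c _ p q => Hu.ovp_trans c p q)
        fun _ _ _ _ c d p => Hu.ovp_mid hD fr c k.succ_pos d p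
  rw [e, hm, Cp.mat_zero]

/-- One cyclic move. -/
theorem ncl_move {V V' : Fn X (S.LQ (Rl.pt ⊤))} {p : V ⟶ V} {q : V' ⟶ V'} (s : V ⟶ V')
    (t : V' ⟶ V) (e : s ≫ t = p) (e' : t ≫ s = q) {m : ℕ} (k : pw q m = 0) :
    ∃ l : pw p (m + 1) = 0, ∀ n, ncl _ k n = ncl _ l n := by
  subst e e'
  exact ⟨by rw [pw_cyc, k, zero_comp, comp_zero], fun n => ncl_cyc _ _ _ _ n⟩

theorem wN_comp {a b a' b' : ℕ} {i j : ℤ} {z z' : S.und F ⟶ S.und F}
    (hz : ∀ A, S.Sup (U.Dg i) (NatTrans.app z A).1) (hz' : ∀ A, S.Sup (U.Dg j) (NatTrans.app z' A).1)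
    (e : i + j = 1) (e' : z ≫ z' = x)
    (h1 : ∀ k : ℤ, -a ≤ k → k ≤ b → -a ≤ k - 1 → k - 1 ≤ b → -a' ≤ k - i ∧ k - i ≤ b')
    (h2 : ∀ k : ℤ, -a' ≤ k → k ≤ b' → (-a ≤ k + i ∧ k + i ≤ b) ∨ (-a ≤ k - j ∧ k - j ≤ b)) :
    wN hP F a b a' b' z hz ≫ wN hP F a' b' a b z' hz' = wX hP F x hx a b := by
  subst e'
  exact NatTrans.ext (funext fun A => LQ.hom_ext (wm_comp (hz A) (hz' A) e le_rfl h1 h2))

theorem win_base {m : ℕ} (hm : pw x m = 0) {m' : ℕ} (k : pw (wX hP F x hx 0 0) m' = 0) (n : ℕ) :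
    ncl _ k n = ncl x hm n := by
  obtain ⟨o, h1, h2⟩ := U.wd_one
  have e {A B : C} {f : A ⟶ B} {j : ℤ} (hf : S.Sup (U.Dg j) f) : S.wm U 0 0 0 0 j f =
      (S.cpw A (U.Wd 0 0)).r o ≫ f ≫ (S.cpw B (U.Wd 0 0)).i o :=
    Cp.mat_one _ _ o o h1 h1 hf (by
      rintro g (⟨rfl, c⟩ | ⟨rfl, -⟩)
      exacts [(h2 g).1 c, (h2 g).2])
  have e0 {A B D : C} (f : A ⟶ B) (g : B ⟶ D) :
      (f ≫ (S.cpw B (U.Wd 0 0)).i o) ≫ (S.cpw B (U.Wd 0 0)).r o ≫ g = f ≫ g := by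
    rw [Category.assoc, reassoc_of% (S.cpw B (U.Wd 0 0)).ir o]
  have e1 {A B D : C} {f : A ⟶ B} (hf : S.Sup (U.Dg 0) f) (g : B ⟶ D) : S.wm U 0 0 0 0 0 f ≫
      (S.cpw B (U.Wd 0 0)).r o ≫ g = (S.cpw A (U.Wd 0 0)).r o ≫ f ≫ g := by
    rw [e hf, Category.assoc, e0]
  have e2 {A B D : C} (g : A ⟶ B) {f : B ⟶ D} (hf : S.Sup (U.Dg 0) f) :
      (g ≫ (S.cpw B (U.Wd 0 0)).i o) ≫ S.wm U 0 0 0 0 0 f = (g ≫ f) ≫ (S.cpw D (U.Wd 0 0)).i o := by
    rw [e hf, e0, Category.assoc]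
  let s : S.und F ⟶ F.post (S.wF U hP 0 0) :=
    { app A := LQ.homMk ((F.F.obj A).p ≫ (S.cpw (F.F.obj A).A (U.Wd 0 0)).i o)
        ((F.F.obj A).idem_assoc _) ((e2 _ (dg_p hP (F.F.obj A))).trans
          (congrArg (· ≫ _) (F.F.obj A).idem)) fun _ _ _ h => (h trivial).elim
      naturality A B f := LQ.hom_ext ((LQ.comp_p_assoc (F.F.map f) _).trans
        ((e2 _ (dg_hom hP (F.F.map f))).trans (congrArg (· ≫ _) (LQ.p_comp (F.F.map f)))).symm) }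
  let t : F.post (S.wF U hP 0 0) ⟶ S.und F :=
    { app A := LQ.homMk ((S.cpw (F.F.obj A).A (U.Wd 0 0)).r o ≫ (NatTrans.app x A).1)
        ((e1 (dg_p hP (F.F.obj A)) _).trans (congrArg _ (LQ.p_comp (NatTrans.app x A))))
        ((Category.assoc ..).trans (congrArg _ (LQ.comp_p (NatTrans.app x A))))
        fun _ _ _ h => (h trivial).elim
      naturality A B f := LQ.hom_ext (((e1 (dg_hom hP (F.F.map f)) _).trans
        (congrArg _ (congrArg (·.1) (NatTrans.naturality x f)))).trans (Category.assoc ..).symm) }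
  obtain ⟨l, c⟩ := ncl_move (p := x) (q := wX hP F x hx 0 0) s t (NatTrans.ext (funext fun A =>
    LQ.hom_ext ((e0 _ _).trans (LQ.p_comp (NatTrans.app x A))))) (NatTrans.ext (funext fun A =>
      LQ.hom_ext (((Category.assoc ..).trans (congrArg _
        (LQ.comp_p_assoc (NatTrans.app x A) _))).trans (e (dg_x F x hx A)).symm))) k
  exact c n

theorem win_cl {m : ℕ} (hm : pw x m = 0) (a b : ℕ) {m' : ℕ} (k : pw (wX hP F x hx a b) m' = 0)
    (n : ℕ) : ncl _ k n = ncl x hm n := by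
  have u := dg_id hP F
  have v := dg_x F x hx
  induction a generalizing m' with
  | succ a ih =>
    obtain ⟨l, c⟩ := ncl_move (wN hP F a b (a + 1) b x v) (wN hP F (a + 1) b a b _ u)
      (wN_comp hP F x hx v u rfl (Category.comp_id _) (fun _ _ _ _ _ => by omega)
        fun _ _ _ => by omega)
      (wN_comp hP F x hx u v rfl (Category.id_comp _) (fun _ _ _ _ _ => by omega)
        fun _ _ _ => by omega) k
    exact (c n).trans (ih l)
  | zero =>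
    induction b generalizing m' with
    | succ b ih =>
      obtain ⟨l, c⟩ := ncl_move (wN hP F 0 b 0 (b + 1) _ u) (wN hP F 0 (b + 1) 0 b x v)
        (wN_comp hP F x hx u v rfl (Category.id_comp _) (fun _ _ _ _ _ => by omega)
          fun _ _ _ => by omega)
        (wN_comp hP F x hx v u rfl (Category.comp_id _) (fun _ _ _ _ _ => by omega)
          fun _ _ _ => by omega) k
      exact (c n).trans (ih l)
    | zero => exact win_base hP F x hx hm k n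
end HWn

end GC

end Pool.Agent.Lib.MP_5d3e93_al
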