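import Pool.Agent.Lib.MP_5d3e93_al.K.HMt
import Pool.Agent.Lib.MP_5d3e93_al.K.HWe

/-! Powers of the matrix of overlapping windows. -/

open CategoryTheory Limits MulAction
open scoped Pointwise

namespace Pool.Agent.Lib.MP_5d3e93_al

universe w v u

namespace GC

variable {Γ : Type w} [Group Γ] {C : Type u} [Category.{v} C] [Preadditive C]
  {S : GC (Γ × Zi) C} {U : Hu Γ} {D : Subgroup Γ} {a b : ℕ} [Fintype (U.Wd a b)] {A : C}
  {ξ : A ⟶ A}

theorem hwn_sup {Ω : Set Γ} (h : S.Sup {g | g.1 ∈ Ω} ξ) (k : ℕ) :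
    S.Sup {g | g.1 ∈ Ω ^ k} (pw ξ k) := by
  induction k with
  | zero => exact .id (by simp)
  | succ k ih =>
    rw [pw_succ, pow_succ']
    exact h.comp ih fun x hx y hy => Set.mul_mem_mul hx hy

theorem hwn_pw (c : S.Cp A (U.Wd a b)) (hD : D ≤ U.D) (fr : Fr D (dc D U.t))
    (h : S.Sup {g | g.1 ∈ dc D U.t} ξ) (k : ℕ) :
    pw (c.mat c (Hu.ov 1) ξ) (k + 1) = c.mat c (Hu.ovp D (k + 1)) (pw ξ (k + 1)) := by
  induction k with
  | zero =>
    rw [pw_succ, pw_succ, pw_zero, pw_zero, Category.comp_id, Category.comp_id]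
    exact c.mat_congr c h fun _ _ _ hg => (Hu.ovp_one hg).symm
  | succ k ih =>
    rw [pw_succ, ih, pw_succ ξ (k + 1)]
    exact c.mat_comp c c h (hwn_sup h (k + 1)) (fun _ _ _ _ _ hg _ => Hu.ovp_trans hg)
      fun _ _ _ _ hg hg' => Hu.ovp_mid hD fr hg k.succ_pos hg'

theorem hwn_nil (c : S.Cp A (U.Wd a b)) (hD : D ≤ U.D) (fr : Fr D (dc D U.t))
    (h : S.Sup {g | g.1 ∈ dc D U.t} ξ) {m : ℕ} (hm : pw ξ (m + 1) = 0) :
    pw (c.mat c (Hu.ov 1) ξ) (m + 1) = 0 := by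
  rw [hwn_pw c hD fr h, hm, Cp.mat_zero]

end GC

end Pool.Agent.Lib.MP_5d3e93_al
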