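import Pool.Agent.Lib.MP_5d3e93_al.K.Col
import Pool.Agent.Lib.MP_5d3e93_al.Gr.LocC
import Pool.Agent.Lib.MP_5d3e93_al.Gr.Kel

/-! Functors with an ind-adjoint induce localisations of bounded derived categories. -/

open CategoryTheory Limits ZeroObject

namespace Pool.Agent.Lib.MP_5d3e93_al

universe v u v' u'

namespace Gr

set_option backward.isDefEq.respectTransparency false

theorem ind_lift {A : Type*} [Category* A] [Preadditive A] [HasZeroObject A]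
    [HasBinaryBiproducts A] {B : Type*} [Category* B] [Preadditive B] (F : A ⥤ B) [F.Additive]
    (Sp : ObjectProperty A) (h1 : ∀ W Y (g : W ⟶ Y), Sp Y → F.map g = 0 → g = 0)
    (h2 : ∀ W (Y : B) (φ : F.obj W ⟶ Y), ∃ (Y' : A) (e : F.obj Y' ≅ Y) (g : W ⟶ Y'), Sp Y' ∧
      F.map g ≫ e.hom = φ) (Y : CochainComplex B ℤ) (V : ℤ → A) (t : ∀ i, F.obj (V i) ⟶ Y.X i)
    (p q : ℤ) (hY : ∀ i, i < p ∨ q < i → IsZero (Y.X i)) :
    ∃ (Y' : CochainComplex A ℤ) (e : (F.mapHomologicalComplex _).obj Y' ≅ Y)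
      (g : ∀ i, V i ⟶ Y'.X i), (∀ i, i < p ∨ q < i → IsZero (Y'.X i)) ∧
      (∀ i W (k : W ⟶ Y'.X i), F.map k = 0 → k = 0) ∧ ∀ i, F.map (g i) ≫ e.hom.f i = t i := by
  have st : ∀ (i : ℤ) (x : Σ W : A, F.obj W ⟶ Y.X i), ∃ (Z : A) (e : F.obj Z ≅ Y.X i)
      (g : V i ⟶ Z) (δ : x.1 ⟶ Z), (i < p ∨ q < i → IsZero Z) ∧
      (∀ W (k : W ⟶ Z), F.map k = 0 → k = 0) ∧ F.map g ≫ e.hom = t i ∧ F.map δ ≫ e.hom = x.2 := by
    rintro i ⟨W, φ⟩
    by_cases h : i < p ∨ q < i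
    · exact ⟨0, (F.map_isZero (isZero_zero A)).iso (hY i h), 0, 0, fun _ => isZero_zero A,
        fun _ _ _ => (isZero_zero A).eq_of_tgt _ _, (hY i h).eq_of_tgt _ _, (hY i h).eq_of_tgt _ _⟩
    · obtain ⟨Z, e, g, s, k⟩ := h2 (W ⊞ V i) (Y.X i)
        (F.map biprod.fst ≫ φ + F.map biprod.snd ≫ t i)
      refine ⟨Z, e, biprod.inr ≫ g, biprod.inl ≫ g, fun l => (h l).elim,
        fun W k => h1 W Z k s, ?_, ?_⟩ <;>
      simp [k, ← F.map_comp_assoc]
  choose Z e g δ a1 a2 a3 a4 using st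
  let D : ∀ i : ℤ, Σ W : A, F.obj W ⟶ Y.X i := fun i => Int.inductionOn' i p ⟨0, 0⟩
    (fun k _ c => ⟨Z k c, (e k c).hom ≫ Y.d k (k + 1)⟩) fun _ _ _ => ⟨0, 0⟩
  have ed : ∀ i j, ∃ d : Z i (D i) ⟶ Z j (D j),
      F.map d ≫ (e j (D j)).hom = (e i (D i)).hom ≫ Y.d i j := fun i j => by
    by_cases h : i + 1 = j
    · subst h
      rcases lt_or_ge i p with k | k
      · exact ⟨0, (F.map_isZero (a1 i _ (Or.inl k))).eq_of_src _ _⟩
      · rw [show D (i + 1) = ⟨Z i (D i), (e i (D i)).hom ≫ Y.d i (i + 1)⟩ from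
          Int.inductionOn'_add_one k]
        exact ⟨_, a4 (i + 1) ⟨Z i (D i), (e i (D i)).hom ≫ Y.d i (i + 1)⟩⟩
    · exact ⟨0, by rw [Y.shape i j h, F.map_zero, zero_comp, comp_zero]⟩
  choose d hd using ed
  let Y' : CochainComplex A ℤ :=
    { X := fun i => Z i (D i)
      d := d
      shape := fun i j k => a2 _ _ _ _ (by
        rw [← cancel_mono (e j (D j)).hom, hd, Y.shape i j k, zero_comp, comp_zero])
      d_comp_d' := fun i j k _ _ => a2 _ _ _ _ (by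
        rw [← cancel_mono (e k (D k)).hom, F.map_comp, Category.assoc, hd, reassoc_of% hd i j,
          Y.d_comp_d, zero_comp, comp_zero]) }
  exact ⟨Y', HomologicalComplex.Hom.isoOfComponents (C₁ := (F.mapHomologicalComplex _).obj Y')
    (C₂ := Y) (fun i => e i (D i)) fun i j _ => (hd i j).symm, fun i => g i (D i),
    fun i => a1 i _, fun i => a2 i _, fun i => a3 i _⟩

section Aux
variable {A : Type*} [Category* A] [Preadditive A] {B : Type*} [Category* B] [Preadditive B]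
  {F : A ⥤ B} [F.Additive] {K M' : CochainComplex A ℤ} {M : CochainComplex B ℤ}
  (e : (F.mapHomologicalComplex _).obj M' ≅ M)
  (h : ∀ i W (k : W ⟶ M'.X i), F.map k = 0 → k = 0)
include h

theorem ind_ext {W : A} {i : ℤ} {x y : W ⟶ M'.X i}
    (k : F.map x ≫ e.hom.f i = F.map y ≫ e.hom.f i) : x = y :=
  sub_eq_zero.1 (h i W _ (by rw [F.map_sub, (cancel_mono (e.hom.f i)).1 k, sub_self]))

theorem ind_chain (τ : (F.mapHomologicalComplex _).obj K ⟶ M) (u : ∀ i, K.X i ⟶ M'.X i)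
    (k : ∀ i, F.map (u i) ≫ e.hom.f i = τ.f i) :
    ∃ τ' : K ⟶ M', (F.mapHomologicalComplex _).map τ' ≫ e.hom = τ :=
  ⟨{ f := u
     comm' := fun i j _ => ind_ext e h (by
      have c : e.hom.f i ≫ M.d i j = F.map (M'.d i j) ≫ e.hom.f j := e.hom.comm i j
      have c' : τ.f i ≫ M.d i j = F.map (K.d i j) ≫ τ.f j := τ.comm i j
      rw [F.map_comp, F.map_comp, Category.assoc, Category.assoc, k, ← c, ← c',
        reassoc_of% k i]) }, HomologicalComplex.hom_ext _ _ k⟩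

theorem ind_null (c : K ⟶ M') (H : Homotopy ((F.mapHomologicalComplex _).map c ≫ e.hom) 0)
    (u : ∀ i, K.X (i + 1) ⟶ M'.X i) (k : ∀ i, F.map (u i) ≫ e.hom.f i = H.hom (i + 1) i) :
    (HomotopyCategory.quotient _ _).map c = 0 := by
  have ex : ∀ i j, ∃ x : K.X i ⟶ M'.X j, F.map x ≫ e.hom.f j = H.hom i j := fun i j => by
    by_cases l : j + 1 = i
    · subst l
      exact ⟨u j, k j⟩
    · exact ⟨0, by rw [H.zero i j l, F.map_zero, zero_comp]⟩
  choose x hx using ex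
  refine (HomotopyCategory.eq_of_homotopy c 0
    { hom := x
      zero := fun i j l => ind_ext e h (by rw [hx, H.zero i j l, F.map_zero, zero_comp])
      comm := fun i => ind_ext e h ?_ }).trans (Functor.map_zero _ _ _)
  have c : e.hom.f (i - 1) ≫ M.d (i - 1) i = F.map (M'.d (i - 1) i) ≫ e.hom.f i := e.hom.comm _ _
  have r : (ComplexShape.up ℤ).Rel (i - 1) i := by simp
  have r' : (ComplexShape.up ℤ).Rel i (i + 1) := rfl
  refine (H.comm i).trans ?_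
  rw [dNext_eq _ r', prevD_eq _ r, dNext_eq _ r', prevD_eq _ r, ← hx, ← hx]
  simp [c]

end Aux

theorem Am.ind_str {a : Am.{v, u}} (ha : a.Gs) {X : a.D} (h : a.bdd X) :
    ∃ K, Sb ⊤ K ∧ Nonempty (X ≅ a.Q.obj ((HomotopyCategory.quotient _ _).obj K)) := by
  obtain ⟨X₀, k, ⟨e⟩⟩ := a.exists_genK ha h
  obtain ⟨K, l, ⟨i⟩⟩ := genK_strict k
  exact ⟨K, l, ⟨e.symm ≪≫ a.Q.mapIso i⟩⟩

theorem Am.ind_roof {b : Am.{v, u}} (hb : b.Gs) {L : CochainComplex b.A ℤ} (hL : Sb ⊤ L)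
    {Y : Kh b.A} {s : (HomotopyCategory.quotient _ _).obj L ⟶ Y} (w : b.T.trW s) :
    ∃ (M : CochainComplex b.A ℤ) (i : Y ≅ (HomotopyCategory.quotient _ _).obj M) (σ : L ⟶ M),
      Sb ⊤ M ∧ (HomotopyCategory.quotient _ _).map σ = s ≫ i.hom ∧
        IsIso (b.Q.map ((HomotopyCategory.quotient _ _).map σ)) := by
  obtain ⟨M, k, ⟨i⟩⟩ := genK_strict (Am.cs_gs hb w hL.genK)
  obtain ⟨σ, l⟩ := (HomotopyCategory.quotient _ _).map_surjective (s ≫ i.hom)
  have := Localization.inverts b.Q b.T.trW _ w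
  exact ⟨M, i, σ, k, l, by rw [l, b.Q.map_comp]; infer_instance⟩

theorem Am.ind_loc {a : Am.{v, u}} {b : Am.{v', u'}} (f : Am.Map a b) (ha : a.Gs) (hb : b.Gs)
    (Sp : ObjectProperty a.A) (h1 : ∀ W Y (g : W ⟶ Y), Sp Y → f.F.map g = 0 → g = 0)
    (h2 : ∀ W (Y : b.A) (φ : f.F.obj W ⟶ Y), ∃ (Y' : a.A) (e : f.F.obj Y' ≅ Y) (g : W ⟶ Y'),
      Sp Y' ∧ f.F.map g ≫ e.hom = φ) : Loc f.D (f.ker a.bdd) a.bdd b.bdd := by
  have sb : ∀ {K : CochainComplex a.A ℤ}, Sb ⊤ K → Sb ⊤ ((f.F.mapHomologicalComplex _).obj K) :=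
    fun ⟨_, p, q, k⟩ => ⟨fun _ => trivial, p, q, fun n l => f.F.map_isZero (k n l)⟩
  have bd : ∀ {K : CochainComplex a.A ℤ}, Sb ⊤ K →
      a.bdd (a.Q.obj ((HomotopyCategory.quotient _ _).obj K)) := fun k => a.gen_of_genK k.genK
  have dm : ∀ {K M' : CochainComplex a.A ℤ} {M : CochainComplex b.A ℤ}
      (e : (f.F.mapHomologicalComplex _).obj M' ≅ M) (τ : K ⟶ M'),
      f.D.map (a.Q.map ((HomotopyCategory.quotient _ _).map τ)) =
        b.Q.map ((HomotopyCategory.quotient _ _).map ((f.F.mapHomologicalComplex _).map τ ≫ e.hom))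
          ≫ b.Q.map ((HomotopyCategory.quotient _ _).map e.inv) := fun e τ => by
    rw [← b.Q.map_comp, ← Functor.map_comp, Category.assoc, e.hom_inv_id, Category.comp_id]
    exact f.D_map _
  refine
    { le := inf_le_left
      kill := fun _ k => k.2
      full := fun {X Y} hX hY φ => ?_
      faith := fun {X Y} hX hY ψ z => ?_
      thick := fun _ l k => ⟨l, k⟩
      maps := f.bdd_map
      surj := fun Y hY => ?_ }
  · obtain ⟨K, hK, ⟨i⟩⟩ := Am.ind_str ha hX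
    obtain ⟨L, hL, ⟨j⟩⟩ := Am.ind_str ha hY
    obtain ⟨Y', s, f₀, w, e₀⟩ := b.kel_loc.full
      (X := (HomotopyCategory.quotient _ _).obj ((f.F.mapHomologicalComplex _).obj K))
      (Y := (HomotopyCategory.quotient _ _).obj ((f.F.mapHomologicalComplex _).obj L))
      trivial trivial (f.D.map i.inv ≫ φ ≫ f.D.map j.hom)
    obtain ⟨M, m, σ, ⟨-, p, q, hM⟩, e₁, _⟩ := Am.ind_roof hb (sb hL) w
    obtain ⟨τ, e₂⟩ := (HomotopyCategory.quotient _ _).map_surjective (f₀ ≫ m.hom)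
    obtain ⟨M', e, g, k1, k2, k3⟩ := ind_lift f.F Sp h1 h2 M (fun n => K.X n ⊞ L.X n)
      (fun n => f.F.map biprod.fst ≫ τ.f n + f.F.map biprod.snd ≫ σ.f n) p q hM
    obtain ⟨τ', e₃⟩ := ind_chain e k2 τ (fun n => biprod.inl ≫ g n) fun n => by
      simp [k3, ← f.F.map_comp_assoc]
    obtain ⟨σ', e₄⟩ := ind_chain e k2 σ (fun n => biprod.inr ≫ g n) fun n => by
      simp [k3, ← f.F.map_comp_assoc]
    have : IsIso (f.D.map (j.hom ≫ a.Q.map ((HomotopyCategory.quotient _ _).map σ'))) := by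
      rw [f.D.map_comp, dm e, e₄]
      infer_instance
    refine ⟨_, j.hom ≫ a.Q.map ((HomotopyCategory.quotient _ _).map σ'),
      i.hom ≫ a.Q.map ((HomotopyCategory.quotient _ _).map τ'),
      locc_trW hY (bd ⟨fun _ => trivial, p, q, k1⟩) _, ?_⟩
    rw [f.D.map_comp, f.D.map_comp, dm e, dm e, e₃, e₄, e₁, e₂, b.Q.map_comp, b.Q.map_comp, ← e₀]
    simp [← f.D.map_comp_assoc]
  · obtain ⟨K, hK, ⟨i⟩⟩ := Am.ind_str ha hX
    obtain ⟨L, hL, ⟨j⟩⟩ := Am.ind_str ha hY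
    obtain ⟨Y₀, s₀, f₀, w₀, e₀⟩ := a.kel_loc.full trivial trivial (i.inv ≫ ψ ≫ j.hom)
    obtain ⟨L₀, l, σ₀, hL₀, e₁, _⟩ := Am.ind_roof ha hL w₀
    obtain ⟨c, e₂⟩ := (HomotopyCategory.quotient _ _).map_surjective (f₀ ≫ l.hom)
    have e₃ : a.Q.map ((HomotopyCategory.quotient _ _).map c) =
        i.inv ≫ ψ ≫ j.hom ≫ a.Q.map ((HomotopyCategory.quotient _ _).map σ₀) := by
      rw [e₁, e₂, a.Q.map_comp, a.Q.map_comp, ← e₀]
      simp
    obtain ⟨Y', s, w, e₄⟩ := b.kel_loc.faith trivial trivial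
      ((HomotopyCategory.quotient _ _).map ((f.F.mapHomologicalComplex _).map c)) (by
        refine (f.D_map ((HomotopyCategory.quotient _ _).map c)).symm.trans ?_
        rw [e₃, f.D.map_comp, f.D.map_comp, z, zero_comp, comp_zero])
    obtain ⟨M, m, σ, ⟨-, p, q, hM⟩, e₅, _⟩ := Am.ind_roof hb (sb hL₀) w
    have H : Homotopy ((f.F.mapHomologicalComplex _).map c ≫ σ) 0 :=
      HomotopyCategory.homotopyOfEq _ _ (by
        rw [Functor.map_comp, e₅, reassoc_of% e₄, zero_comp, Functor.map_zero])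
    obtain ⟨M', e, g, k1, k2, k3⟩ := ind_lift f.F Sp h1 h2 M (fun n => K.X (n + 1) ⊞ L₀.X n)
      (fun n => f.F.map biprod.fst ≫ H.hom (n + 1) n + f.F.map biprod.snd ≫ σ.f n) p q hM
    obtain ⟨σ', e₆⟩ := ind_chain e k2 σ (fun n => biprod.inr ≫ g n) fun n => by
      simp [k3, ← f.F.map_comp_assoc]
    have e₇ := ind_null e k2 (c ≫ σ') ((Homotopy.ofEq (by
      rw [Functor.map_comp, Category.assoc, e₆])).trans H) (fun n => biprod.inl ≫ g n) fun n => by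
        simp [k3, ← f.F.map_comp_assoc]
    have : IsIso (f.D.map (j.hom ≫ a.Q.map ((HomotopyCategory.quotient _ _).map σ₀) ≫
        a.Q.map ((HomotopyCategory.quotient _ _).map σ'))) := by
      rw [f.D.map_comp, f.D.map_comp, dm e, e₆]
      infer_instance
    refine ⟨_, j.hom ≫ a.Q.map ((HomotopyCategory.quotient _ _).map σ₀) ≫
      a.Q.map ((HomotopyCategory.quotient _ _).map σ'),
      locc_trW hY (bd ⟨fun _ => trivial, p, q, k1⟩) _, ?_⟩
    rw [← cancel_epi i.inv, ← reassoc_of% e₃, ← a.Q.map_comp, ← Functor.map_comp, e₇]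
    simp
  · obtain ⟨M, ⟨-, p, q, hM⟩, ⟨i⟩⟩ := Am.ind_str hb hY
    obtain ⟨M', e, -, k1, -⟩ := ind_lift f.F Sp h1 h2 M (fun _ => 0) (fun _ => 0) p q hM
    exact ⟨_, bd ⟨fun _ => trivial, p, q, k1⟩,
      ⟨b.Q.mapIso ((HomotopyCategory.quotient _ _).mapIso e) ≪≫ i.symm⟩⟩

end Gr

end Pool.Agent.Lib.MP_5d3e93_al
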