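import Pool.Agent.Lib.MP_5d3e93_al.K.MV
import Pool.Agent.Lib.MP_5d3e93_al.K.Fc
import Pool.Agent.Lib.MP_5d3e93_al.Gr.Kel
import Pool.Agent.Lib.MP_5d3e93_al.Gr.Of
import Pool.Agent.Lib.MP_5d3e93_al.Gr.Str

/-! Tools for exact structures split by a functor. -/

open CategoryTheory Limits Pretriangulated ZeroObject MulAction

namespace Pool.Agent.Lib.MP_5d3e93_al

universe w v u y v' u' v'' u''

namespace K

open Gr Am

set_option backward.isDefEq.respectTransparency false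

section Gen
variable {A : Type (max u v)} [Category.{v} A] [Preadditive A] [HasZeroObject A]
  [HasBinaryBiproducts A] {A₀ : Type u''} [Category.{v''} A₀] [Preadditive A₀] [HasZeroObject A₀]
  [HasBinaryBiproducts A₀] (U : A ⥤ A₀) [U.Additive]
  {B : Type (max u' v)} [Category.{v} B] [Preadditive B] [HasZeroObject B]
  [HasBinaryBiproducts B]

section KelT
/-- As `keller` (copy its proof), the hypothesis may use one more differential. -/
theorem keller₃ (j : B ⥤ A) [j.Additive] [j.Full] [j.Faithful]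
    (h : ∀ {W X Y Z : A} (d₀ : W ⟶ X) (d : X ⟶ Y) (d' : Y ⟶ Z), d₀ ≫ d = 0 → d ≫ d' = 0 →
      (∃ s s', s ≫ U.map d₀ + U.map d ≫ s' = 𝟙 _) → (∃ s s', s ≫ U.map d + U.map d' ≫ s' = 𝟙 _) →
      ∀ (x : B) (f : j.obj x ⟶ Y), f ≫ d' = 0 →
        ∃ (x₂ x₁ : B) (i : x₂ ⟶ x₁) (p : x₁ ⟶ x) (g : j.obj x₁ ⟶ X), i ≫ p = 0 ∧
          Spl ((j ⋙ U).map i) ((j ⋙ U).map p) ∧ g ≫ d = j.map p ≫ f) :
    FF (exMap.{v, u, v, u'} U j).D (exU.{v, u'} (j ⋙ U)).bdd := by
  have key : ∀ t, exT U t → ∀ (m : ℤ) (x : B), Kl (j.mapHomotopyCategory (.up ℤ))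
      (exT (j ⋙ U)) t ((HomotopyCategory.singleFunctor B m).obj x) := by
    intro t ht m x
    obtain ⟨K, ⟨-, p₀, q, hK⟩, ⟨e⟩⟩ := genK_strict ht.1
    have hz := IsZero.of_iso ht.2 ((U.mapHomotopyCategory (.up ℤ)).mapIso e).symm
    refine Kl.iso ?_ e
    have lo : ∀ m, m < p₀ → ∀ x : B, Kl (j.mapHomotopyCategory (.up ℤ)) (exT (j ⋙ U))
        ((HomotopyCategory.quotient _ _).obj K) ((HomotopyCategory.singleFunctor B m).obj x) := by
      intro m hm x φ
      obtain ⟨φ, rfl⟩ := (HomotopyCategory.quotient A (.up ℤ)).map_surjective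
        (X := (j.mapHomologicalComplex _).obj ((CochainComplex.singleFunctor B m).obj x)) φ
      exact ⟨_, 𝟙 _, MorphismProperty.id_mem _ _, by
        rw [kel_null (l := m - 1) (by omega) (fun a e => j.map_isZero (kel_zero m x a e)) φ 0
          ((hK m (Or.inl hm)).eq_of_tgt _ _), comp_zero]⟩
    rcases lt_or_ge m p₀ with hm | hm
    · exact lo m hm x
    replace hm : p₀ - 1 ≤ m := by omega
    induction m, hm using Int.leInduction generalizing x with
    | base => exact lo _ (by omega) x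
    | succ l _ ih =>
      intro φ
      obtain ⟨φ, rfl⟩ := (HomotopyCategory.quotient A (.up ℤ)).map_surjective
        (X := (j.mapHomologicalComplex _).obj ((CochainComplex.singleFunctor B (l + 1)).obj x)) φ
      obtain ⟨x₂, x₁, i, p, g, h0, k, hg⟩ := h (K.d (l - 1) l) (K.d l (l + 1))
        (K.d (l + 1) (l + 1 + 1)) (K.d_comp_d _ _ _) (K.d_comp_d _ _ _)
        (kel_ctr U hz (by omega) rfl) (kel_ctr U hz rfl rfl) x
        (j.map (kelE (l + 1) x).inv ≫ φ.f (l + 1)) (by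
          rw [Category.assoc, φ.comm, (j.map_isZero (kel_zero (l + 1) x (l + 1 + 1)
            (by omega))).eq_of_src (φ.f _) 0, comp_zero, comp_zero])
      refine Kl.step (rot_of_distTriang _ (HomotopyCategory.mappingCone_triangleh_distinguished
        ((CochainComplex.singleFunctor B (l + 1)).map i)))
        (((HomotopyCategory.singleFunctors B).shiftIso 1 l (l + 1) (by omega)).app x₂).symm
        (ih x₂) (exU_trW (j ⋙ U) (l + 1) h0 k) _ ?_
      refine Eq.trans ?_ (kel_null (l := l) rfl (fun a e => j.map_isZero (kel_zero (l + 1) x₁ a e))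
        ((j.mapHomologicalComplex _).map ((CochainComplex.singleFunctor B (l + 1)).map p) ≫ φ)
        (j.map (kelE (l + 1) x₁).hom ≫ g) (by simp [kel_map, hg]))
      refine Eq.trans ?_ ((HomotopyCategory.quotient A (.up ℤ)).map_comp _ φ).symm
      exact congrArg (fun z => (j.mapHomotopyCategory (.up ℤ)).map z ≫ _)
        (((HomotopyCategory.quotient B (.up ℤ)).map_comp _ _).symm.trans (congrArg _ (inr_exaD
          ((ShortComplex.mk i p h0).map (CochainComplex.singleFunctor B (l + 1))))))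
  have : (exMap.{v, u, v, u'} U j).F.Full := ‹j.Full›
  have : (exMap.{v, u, v, u'} U j).F.Faithful := ‹j.Faithful›
  refine ff_of_gen (G := ObjectProperty.map ⊤ (exU.{v, u'} (j ⋙ U)).sg) le_rfl ?_
  rintro X Y ⟨x, -, ⟨e⟩⟩ -
  obtain ⟨Y, rfl⟩ := (exU.{v, u'} (j ⋙ U)).exists_cx Y
  exact lc_iso e (Iso.refl _) ((exMap.{v, u, v, u'} U j).bij_of_kl (fun t ht => key t ht 0 x) _)

/-- Dual of `exU_pj` (`kel_null'`, `kel_ctr`). -/
theorem exU_ij {A₁ : Type*} [Category* A₁] [Preadditive A₁] (Φ : A₀ ⥤ A₁) [Φ.Additive] {R : A₁ ⥤ A}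
    (ad : U ⋙ Φ ⊣ R) (X : A₁) : Ij (exU.{v, u} U) (R.obj X) := by
  have := ad.right_adjoint_additive
  rintro ⟨K : CochainComplex A ℤ⟩ ht φ
  obtain ⟨φ, rfl⟩ := (HomotopyCategory.quotient A (.up ℤ)).map_surjective
    (Y := (CochainComplex.singleFunctor A 0).obj (R.obj X)) (X := K) φ
  obtain ⟨s, s', e'⟩ := kel_ctr (K := K) (l := -1) (m := 0) (n := 1) U ht.2 rfl rfl
  obtain ⟨f, hf⟩ : ∃ f : Φ.obj (U.obj (K.X 0)) ⟶ X,
    f = (ad.homEquiv _ _).symm (φ.f 0 ≫ (kelE 0 (R.obj X)).hom) := ⟨_, rfl⟩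
  have h0 : Φ.map (U.map (K.d (-1) 0)) ≫ f = 0 := by
    refine hf ▸ (ad.homEquiv_naturality_left_symm (K.d (-1) 0) _).symm.trans ?_
    rw [← φ.comm_assoc, (kel_zero 0 (R.obj X) (-1) (by omega)).eq_of_tgt (φ.f (-1)) 0, zero_comp,
      ad.homEquiv_counit, Functor.map_zero, zero_comp]
  have h1 : f = Φ.map (U.map (K.d 0 1)) ≫ Φ.map s' ≫ f := by
    simpa [h0] using (congrArg (Φ.map · ≫ f) e').symm
  refine kel_null' (m := 0) (n := 1) rfl (kel_zero 0 _) φ
    (ad.homEquiv _ _ (Φ.map s' ≫ f) ≫ (kelE 0 _).inv) ?_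
  rw [← Category.assoc, ← ad.homEquiv_naturality_left, Iso.eq_comp_inv,
    ← Equiv.symm_apply_eq, ← hf]
  exact h1

/-- As `proadj`, with injective targets: `locOn_of_pro` for the sources `G.map a.sg ⊔ N` (for a
source in `N` refine by `0 ⟶ X`). -/
theorem proadj' {a : Am.{v, u}} {b : Am.{v', u'}} (f : Map a b) {N : ObjectProperty a.D} [Tg N]
    {G G' : ObjectProperty a.A} (le : N ≤ a.gen G') (kill : ∀ X, N X → IsZero (f.D.obj X))
    (hG : a.gen G' ≤ Cl (G.map a.sg ⊔ N)) (ia : ∀ y, G' y → Ij a y)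
    (pb : ∀ g, G g → b.Pj (f.F.obj g))
    (full : ∀ g y, G g → G' y → ∀ φ : f.F.obj g ⟶ f.F.obj y, ∃ (g₁ : a.A) (s : g₁ ⟶ g)
      (ψ : g₁ ⟶ y), G g₁ ∧ N.trW (a.sg.map s) ∧ f.F.map s ≫ φ = f.F.map ψ)
    (faith : ∀ g y, G g → G' y → ∀ ψ : g ⟶ y, f.F.map ψ = 0 → ψ = 0) :
    LocOn f.D N (a.gen G') := by
  obtain ⟨e, he⟩ := f.of_iso
  have z : ∀ X, N X → (G.map a.sg ⊔ N) 0 ∧ N.trW (0 : 0 ⟶ X) := fun X hX =>
    ⟨Or.inr (Tg.zero N (isZero_zero _)), _, _, _, contractible_distinguished₁ X, hX⟩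
  have z' := f.D.map_isZero (isZero_zero a.D)
  refine locOn_of_pro le kill hG (of_gen_le G') ?_ ?_
  · rintro n X _ hX ⟨y, hy, rfl⟩
    by_cases hn : n = 0
    · subst hn
      refine LbFull.iso (F := f.D) (N := N) ((shiftFunctorZero a.D ℤ).symm.app (a.sg.obj y))
        ?_ X hX
      rintro X (⟨g, hg, ⟨i⟩⟩ | hX) φ
      · obtain ⟨φ₀, h⟩ := ((pb g hg).sg_bij (f.F.obj y)).2
          ((e g).inv ≫ f.D.map i.hom ≫ φ ≫ (e y).hom)
        obtain ⟨g₁, s, ψ, p, q, r⟩ := full g y hg hy φ₀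
        refine ⟨_, a.sg.map s ≫ i.hom, a.sg.map ψ, Or.inl ⟨g₁, p, ⟨Iso.refl _⟩⟩,
          N.trW.comp_mem _ _ q (N.trW_of_isIso _), ?_⟩
        rw [Functor.map_comp, he, he, ← r, Functor.map_comp, h]
        simp
      · exact ⟨_, 0, 0, (z X hX).1, (z X hX).2, z'.eq_of_src _ _⟩
    · rcases hX with ⟨g, hg, ⟨i⟩⟩ | hX
      · exact fun φ => ⟨_, i.hom, 0, Or.inl ⟨g, hg, ⟨Iso.refl _⟩⟩, N.trW_of_isIso _,
          (f.of_zero (pb g hg) y hn _).trans (f.of_zero (pb g hg) y hn _).symm⟩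
      · exact fun φ => ⟨_, 0, 0, (z X hX).1, (z X hX).2, z'.eq_of_src _ _⟩
  · rintro n X _ hX ⟨y, hy, rfl⟩
    by_cases hn : n = 0
    · subst hn
      refine LbFaith.iso (F := f.D) (N := N) ((shiftFunctorZero a.D ℤ).symm.app (a.sg.obj y))
        ?_ X hX
      rintro X (⟨g, hg, ⟨i⟩⟩ | hX) φ h
      · obtain ⟨ψ, hψ⟩ := ((ia y hy).sg_bij g).2 (i.hom ≫ φ)
        have h' : f.D.map (a.sg.map ψ) = 0 := by rw [hψ, f.D.map_comp, h, comp_zero]
        have k : f.F.map ψ = 0 := ((pb g hg).sg_bij _).1 (by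
          rw [he, Preadditive.IsIso.comp_left_eq_zero, Preadditive.IsIso.comp_right_eq_zero] at h'
          exact h'.trans (b.Q.map_zero _ _).symm |>.trans
            (congrArg b.Q.map ((HomotopyCategory.singleFunctor b.A 0).map_zero _ _).symm))
        refine ⟨_, i.hom, Or.inl ⟨g, hg, ⟨Iso.refl _⟩⟩, N.trW_of_isIso _, ?_⟩
        rw [← hψ, faith g y hg hy ψ k]
        exact (congrArg a.Q.map ((HomotopyCategory.singleFunctor a.A 0).map_zero _ _)).trans
          (a.Q.map_zero _ _)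
      · exact ⟨_, 0, (z X hX).1, (z X hX).2, zero_comp⟩
    · rcases hX with ⟨g, hg, ⟨i⟩⟩ | hX
      · exact fun φ _ => ⟨_, i.hom, Or.inl ⟨g, hg, ⟨Iso.refl _⟩⟩, N.trW_of_isIso _,
          (ia y hy).ext_zero g hn _⟩
      · exact fun φ _ => ⟨_, 0, (z X hX).1, (z X hX).2, zero_comp⟩

/-- Smart truncation. Choose for every `n` an object `Y n`, a mono `m n : Y n ⟶ K n`, `ρ n`, `σ n`
with `U (m n) ≫ ρ n = 𝟙`, `ρ n ≫ U (m n) + U d ≫ σ n + σ (n-1) ≫ U d = 𝟙` (identity below `p`,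
the kernel at `p`, zero above); `CochainComplex.of`; `U φ` is a homotopy equivalence. -/
theorem exists_smart [U.Faithful] (K : CochainComplex A ℤ) (hK : Sb ⊤ K) (p q : ℤ) (e : p + 1 = q)
    (hq : ∀ n, q < n → IsZero (K.X n)) {Y : A} (i : Y ⟶ K.X p) (h0 : i ≫ K.d p q = 0)
    (hs : Spl (U.map i) (U.map (K.d p q)))
    (hl : ∀ W (t : W ⟶ K.X p), t ≫ K.d p q = 0 → ∃ l, l ≫ i = t) :
    ∃ (K' : CochainComplex A ℤ) (φ : K' ⟶ K), (∀ n, p < n → IsZero (K'.X n)) ∧
      (∀ n, n < p → Nonempty (K'.X n ≅ K.X n)) ∧ IsIso ((exU.{v, u} U).QQ.map φ) := by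
  classical
  subst e
  obtain ⟨r, s, k1, k2, k3⟩ := hs
  obtain ⟨σ, σ0, σ1⟩ : ∃ σ : ∀ a b, U.obj (K.X a) ⟶ U.obj (K.X b),
      (∀ a b, ¬(a = p + 1 ∧ b = p) → σ a b = 0) ∧ σ (p + 1) p = s :=
    ⟨fun a b => if e : a = p + 1 ∧ b = p then
      U.map (K.XIsoOfEq e.1).hom ≫ s ≫ U.map (K.XIsoOfEq e.2.symm).hom else 0,
      fun a b e => dif_neg e, by simp⟩
  have hN : ∀ n, (Homotopy.nullHomotopicMap (C := (U.mapHomologicalComplex (.up ℤ)).obj K)
      (D := (U.mapHomologicalComplex (.up ℤ)).obj K) σ).f n =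
      U.map (K.d n (n + 1)) ≫ σ (n + 1) n + σ n (n - 1) ≫ U.map (K.d (n - 1) n) := fun n => by
    change dNext n _ + prevD n _ = _
    rw [dNext_eq _ (show (ComplexShape.up ℤ).Rel n (n + 1) from rfl),
      prevD_eq _ (show (ComplexShape.up ℤ).Rel (n - 1) n by simp)]
    rfl
  have ex : ∀ n, ∃ (Z : A) (m : Z ⟶ K.X n) (ρ : U.obj (K.X n) ⟶ U.obj Z), U.map m ≫ ρ = 𝟙 _ ∧
      ρ ≫ U.map m + (U.map (K.d n (n + 1)) ≫ σ (n + 1) n +
        σ n (n - 1) ≫ U.map (K.d (n - 1) n)) = 𝟙 _ ∧ (p < n → IsZero Z) ∧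
      (n < p → Nonempty (Z ≅ K.X n)) ∧ (IsZero (K.X n) → IsZero Z) ∧
      (p ≤ n → m ≫ K.d n (n + 1) = 0) ∧
      (n ≤ p → ∀ W (t : W ⟶ K.X n), t ≫ K.d n (n + 1) = 0 → ∃ l, l ≫ m = t) := by
    intro n
    rcases lt_trichotomy n p with h | rfl | h
    · exact ⟨_, 𝟙 _, 𝟙 _, by simp, by
        rw [σ0 _ _ (by omega), σ0 _ _ (by omega)]; simp, fun k => by omega,
        fun _ => ⟨Iso.refl _⟩, id, fun k => by omega, fun _ W t _ => ⟨t, by simp⟩⟩
    · refine ⟨Y, i, r, k1, by rw [σ1, σ0 _ _ (by omega), zero_comp, add_zero, k3],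
        fun k => by omega, fun k => by omega, fun k => ?_, fun _ => h0, fun _ => hl⟩
      refine (IsZero.iff_id_eq_zero _).2 (U.map_injective ?_)
      rw [U.map_id, ← k1, k.eq_of_tgt i 0, U.map_zero, U.map_zero, zero_comp]
    · refine ⟨0, 0, 0, (U.map_isZero (isZero_zero A)).eq_of_src _ _, ?_, fun _ => isZero_zero A,
        fun k => by omega, fun _ => isZero_zero A, fun _ => zero_comp, fun k => by omega⟩
      by_cases k : n = p + 1
      · subst k
        rw [σ0 _ _ (by omega), comp_zero, zero_add, zero_comp, zero_add]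
        have : ∀ a, a = p → σ (p + 1) a ≫ U.map (K.d a (p + 1)) = 𝟙 _ := by
          rintro a rfl
          rw [σ1, k2]
        exact this _ (by omega)
      · exact (U.map_isZero (hq n (by omega))).eq_of_src _ _
  choose Z m ρ a1 a2 a3 a4 a5 a6 a7 using ex
  have mo : ∀ n, Mono (U.map (m n)) := fun n => ⟨fun x y h => by
    rw [← Category.comp_id x, ← a1 n, reassoc_of% h, a1 n, Category.comp_id]⟩
  have mo' : ∀ n, Mono (m n) := fun n => U.mono_of_mono_map (mo n)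
  have ed : ∀ a b, ∃ δ : Z a ⟶ Z b, δ ≫ m b = m a ≫ K.d a b := fun a b => by
    rcases le_or_gt b p with h | h
    · exact a7 b h _ _ (by simp)
    · refine ⟨0, ?_⟩
      by_cases k : a + 1 = b
      · subst k
        rw [a6 a (by omega), zero_comp]
      · rw [K.shape a b k, zero_comp, comp_zero]
  choose δ hδ using ed
  let K' : CochainComplex A ℤ :=
    { X := Z
      d := δ
      shape := fun a b k => by rw [← cancel_mono (m b), hδ, K.shape a b k, zero_comp, comp_zero]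
      d_comp_d' := fun a b c _ _ => by
        rw [← cancel_mono (m c), Category.assoc, hδ, reassoc_of% hδ a b, K.d_comp_d, zero_comp,
          comp_zero] }
  let φ : K' ⟶ K := { f := m, comm' := fun a b _ => (hδ a b).symm }
  have a2' : ∀ n, ρ n ≫ U.map (m n) = (𝟙 ((U.mapHomologicalComplex (.up ℤ)).obj K) -
      Homotopy.nullHomotopicMap σ).f n := fun n => by
    rw [HomologicalComplex.sub_f_apply, hN]
    exact eq_sub_of_add_eq (a2 n)
  let ψ : (U.mapHomologicalComplex (.up ℤ)).obj K ⟶ (U.mapHomologicalComplex (.up ℤ)).obj K' :=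
    { f := ρ
      comm' := fun a b _ => by
        change ρ a ≫ U.map (δ a b) = U.map (K.d a b) ≫ ρ b
        rw [← cancel_mono (U.map (m b)), Category.assoc, Category.assoc, ← U.map_comp, hδ,
          U.map_comp, ← Category.assoc, a2', a2']
        exact HomologicalComplex.Hom.comm _ a b }
  have h5 : IsIso ((U.mapHomotopyCategory (.up ℤ)).map ((HomotopyCategory.quotient _ _).map φ)) := by
    rw [Functor.mapHomotopyCategory_map]
    refine ⟨(HomotopyCategory.quotient _ _).map ψ, ?_, ?_⟩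
    · rw [← Functor.map_comp, show (U.mapHomologicalComplex (.up ℤ)).map φ ≫ ψ = 𝟙 _ from
        HomologicalComplex.hom_ext _ _ a1]
      rfl
    · rw [← Functor.map_comp, show ψ ≫ (U.mapHomologicalComplex (.up ℤ)).map φ = _ from
        HomologicalComplex.hom_ext _ _ a2', Functor.map_sub, HomotopyCategory.eq_of_homotopy _ _
          (Homotopy.nullHomotopy (C := (U.mapHomologicalComplex (.up ℤ)).obj K)
            (D := (U.mapHomologicalComplex (.up ℤ)).obj K) σ fun a b k => σ0 a b (by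
              rintro ⟨rfl, rfl⟩
              exact k rfl)), Functor.map_zero, sub_zero]
      rfl
  have hK' : Sb ⊤ K' := ⟨fun _ => trivial, hK.2.imp fun _ => Exists.imp fun _ k n b => a5 n (k n b)⟩
  obtain ⟨W, g, l, hT⟩ := distinguished_cocone_triangle ((HomotopyCategory.quotient _ _).map φ)
  exact ⟨K', φ, a3, a4, Localization.inverts (exU.{v, u} U).Q (exU.{v, u} U).T.trW _
    ⟨W, g, l, hT, Cl.ext _ (rot_of_distTriang _ hT) hK.genK (Cl.shift 1 hK'.genK),
      (Triangle.isZero₃_iff_isIso₁ _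
        ((U.mapHomotopyCategory (.up ℤ)).map_distinguished _ hT)).2 h5⟩⟩

end KelT

/-- A functor that kills the trivial complexes (put it in K/KelT). -/
def exTo (h : A ⥤ B) [k : h.Additive]
    (hT : ∀ K, exT U K → IsZero ((h.mapHomotopyCategory _).obj K)) :
    Map (exU.{v, u} U) (Am.of.{v, u'} B) :=
  @Map.mk (exU U) (Am.of B) h k fun K l => Tg.zero (Am.of B).Tb (hT K l)

end Gen

end K

end Pool.Agent.Lib.MP_5d3e93_al
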