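import Pool.Agent.Lib.MP_5d3e93_al.K.Line2
import Pool.Agent.Lib.MP_5d3e93_al.K.Kop

/-! Vanishing in all degrees over orders with towers and terminating descent. -/

open CategoryTheory Limits MulAction

namespace Pool.Agent.Lib.MP_5d3e93_al

universe w v u

variable {Γ : Type w} [Group Γ] {C : Type u} [Category.{v} C] [Preadditive C]
  [HasBinaryBiproducts C] [HasZeroObject C] {σ : Act Γ C} {𝓕 : Fam Γ}
  {Y : Type w} [MulAction Γ Y] {κ : Type}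

namespace Bg

theorem kq_box2 (hs : W2 𝓕 σ) (hY : ∀ y : Y, 𝓕.Tm (stabilizer Γ y)) {χ : κ → Γ → ℤ} {s : κ → ℤ}
    (T : Tq χ s Y) {ω : Ch Γ} (hc : ∀ g c, χ c g = ω g * s c) (N : ℤ) (d : ℕ) :
    (SZ σ).GQ (Rl.act (.fst Γ Zi) ((T.T N).F (ω := ω) d) Twr.F.trans (Twr.F.smul hc))
      fun a g b => (T.T N).R d a (MonoidHom.fst Γ Zi g • b) := by
  have tm (a : Tm ω Y) : 𝓕.Tm (stabilizer Γ a) := (hY a.y).le fun _ k => congrArg Tm.y k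
  have z (d : ℕ) : (SZ σ).Zq (Rl.act (.fst Γ Zi) ((T.T N).F (ω := ω) d) Twr.F.trans
      (Twr.F.smul hc)) := by
    obtain ⟨μ, M, h1, h2⟩ := T.pot N d
    exact GC.zq_pot _ _ _ (fun p => μ (p.y, p.t)) (fun _ _ h => (h2 _ _ h.1 h.2.1).imp_left kop_ext)
      M (fun _ _ h => ⟨h1 _ h.2.2.1, h1 _ h.2.2.2⟩) fun a => hs.wk _ (tm a).mem
  have bl (d : ℕ) (a b e : Tm ω Y) (h : (T.T N).F d a b) (k : (T.T N).R d b e) : (T.T N).R d a e :=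
    ⟨(T.T N).trans h.1 k.1, by rw [k.2.1, h.2.1], h.2.2.1, k.2.2.2⟩
  have br (d : ℕ) (a b e : Tm ω Y) (h : (T.T N).R d a b) (k : (T.T N).F d b e) : (T.T N).R d a e :=
    ⟨(T.T N).trans h.1 k.1, by rw [k.2.1, h.2.1], h.2.2.1, k.2.2.2⟩
  induction d with
  | zero =>
    exact fun m => GC.Gm.push id (fun _ _ _ h => Twr.F.eq h) (fun _ _ _ h => h)
      (gi_tm hs _ tm _ (Twr.R.smul hc) Twr.R.uniq m)
  | succ d ih =>
    exact GC.gq_back' (P' := (T.T N).F (ω := ω) d) (R' := (T.T N).R (ω := ω) d) (.fst Γ Zi)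
      (fun p r : Tm ω Y => (T.T N).Le (p.y, p.t) (r.y, r.t) ∧ r.t = p.t + 1)
      (fun q r : Tm ω Y => (T.T N).Bk d (q.y, q.t) (r.y, r.t)) _ _ _ _
      (Twr.R.smul hc) (Twr.R.smul hc) (fun g a b h => ⟨(T.T N).sLe g _ (hc g) h.1,
        show ω g + b.t = ω g + a.t + 1 by rw [h.2, add_assoc]⟩)
      (fun g _ _ h => T.sBk N g _ (hc g) h)
      (fun _ _ h => ⟨⟨(T.T N).refl _, rfl, h.2.2.1, h.2.2.1⟩, (T.T N).refl _, rfl, h.2.2.2, h.2.2.2⟩)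
      (fun _ _ _ _ b _ => ⟨(T.T N).refl _, rfl, ((T.T N).bk b).2.2, ((T.T N).bk b).2.2⟩)
      (bl _) (br _) (bl _) (br _)
      (fun _ _ _ h k => ⟨(T.T N).trans h.1 k.1, by rw [k.2, h.2.1]⟩)
      (fun _ _ _ h k => ⟨(T.T N).trans h.1 k.1, by rw [k.2.1, h.2]⟩)
      (fun p q h => (Twr.kq_j1 p q h).exists)
      (fun _ _ _ _ _ _ h b a b' a' => ⟨T.cp h.1 h.2.1 b b' a.1 a'.1, a'.2.trans a.2.symm,
        ((T.T N).bk b).2.2, ((T.T N).bk b').2.2⟩)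
      (fun _ _ _ _ b _ b' a => ⟨(T.T N).trans ((T.T N).bk b).1 a.1,
        a.2.trans (congrArg (· + 1) ((T.T N).bk b).2.1.symm), ((T.T N).bk b).2.2,
        ((T.T N).bk b').2.2⟩)
      (fun _ _ _ _ b b' a a' => kop_ext ((T.T N).un a.1 a'.1 b b'))
      (fun _ _ _ _ b b' a a' => kop_ext ((T.T N).un a.1 a'.1 b b')) (z _) (z _) ih

section

variable [Preorder Y] (P : Oq Γ Y κ) (hs : W2 𝓕 σ) (hL : Lcd Y σ)
variable (hY : ∀ y : Y, 𝓕.Tm (stabilizer Γ y))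
include P hs hL hY

theorem kq_flat2 (hχ : ∀ g c, P.χ c g = 0) : KZ σ := by
  obtain ⟨l, hl⟩ := P.flat
  refine GC.Zq.refine (hL.lcq P.hm) (GC.zq_tri (fun a => l a.1)
    (fun a g b h => (hl g.1 _ _ (hχ _) h.1).1) fun k => ?_)
  have q {x y : Y} {g : Γ} (h : x ≤ g • y) := (hl g _ _ (hχ _) h).2
  refine GC.zq_diag (fun a g b h => ⟨⟨?_, trivial⟩, h.2.2, h.2.1⟩) fun a H h => ?_
  · have := q h.1.1 (h.2.1.trans h.2.2.symm)
    change b.1 ≤ g.1⁻¹ • a.1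
    rw [this]
    exact (inv_smul_smul g.1 b.1).ge
  · rw [show H = (stabilizer Γ a.1).comap (.fst Γ Zi) from Subgroup.ext fun g => (h g).trans
      ⟨fun l => (q l.1.1 rfl).symm, fun l => ⟨⟨Eq.ge l, trivial⟩, ((h 1).1 H.one_mem).2⟩⟩]
    exact hs.wk _ (hY a.1).mem

theorem kq_gi2 {ω : Ch Γ} {s : κ → ℤ} (hc : ∀ g c, P.χ c g = ω g * s c) :
    (SZ σ).GI (.fst Γ Zi) (Tm ω PUnit.{w + 1}) fun a b => b.t = a.t + 1 := by
  intro m
  obtain ⟨l, h1, h2, h3⟩ := P.line s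
  have e (g : Γ) (p : Tm ω Y) : l ((g • p).y, (g • p).t) = l (p.y, p.t) :=
    h1 g _ (hc g) (p.y, p.t)
  refine GC.Gm.refine (hL.lcq P.hm) (GC.Gm.push (Y' := Tm ω Y) (fun a => ⟨a.1, a.2.t⟩)
    (P' := Rl.act (.fst Γ Zi) (fun p r => p.y ≤ r.y ∧ r.t = p.t)
      (fun _ _ _ h k => ⟨h.1.trans k.1, k.2.trans h.2⟩) fun g a b h =>
        ⟨P.hm g _ _ h.1, show ω g + b.t = ω g + a.t by rw [h.2]⟩)
    (B' := fun a g b => a.y ≤ (g.1 • b).y ∧ (g.1 • b).t = a.t + 1)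
    (fun a g b h => ⟨h.1, (congrArg Tm.t h.2).symm⟩) (fun a g b h => h)
    (GC.gm_tri (fun p => l (p.y, p.t))
      (fun a g b h => (h2 _ (_, _) h.1 (.inl h.2)).trans_eq (e g.1 b))
      (fun a g b h => (h2 _ (_, _) h.1 (.inr h.2)).trans_eq (e g.1 b)) fun k => ?_))
  obtain h3 | ⟨T, h3⟩ := h3
  · exact GC.gm_empty fun a g b h => ((h3 _ (_, _) h.1.1 h.1.2).trans_eq (e g.1 b)).ne
      (h.2.1.trans h.2.2.symm)
  refine GC.Gm.push id (P' := Rl.act (.fst Γ Zi)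
      (fun p r : Tm ω Y => (T.T 0).Le (p.y, p.t) (r.y, r.t) ∧ r.t = p.t)
      (fun _ _ _ h k => ⟨(T.T 0).trans h.1 k.1, k.2.trans h.2⟩) fun g a b h =>
        ⟨(T.T 0).sLe g _ (hc g) h.1, show ω g + b.t = ω g + a.t by rw [h.2]⟩)
    (B' := fun a g b => (T.T 0).Le (a.y, a.t) ((g.1 • b).y, (g.1 • b).t) ∧ (g.1 • b).t = a.t + 1)
    (fun a g b h => ⟨h3 _ (_, _) h.1.1 (.inl h.1.2)
      (h.2.1.trans (h.2.2.symm.trans (e g.1 b).symm)), h.1.2⟩)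
    (fun a g b h => ⟨h3 _ (_, _) h.1.1 (.inr h.1.2)
      (h.2.1.trans (h.2.2.symm.trans (e g.1 b).symm)), h.1.2⟩) ?_
  have bx {i j : ℕ} (f : i ≤ j) {p} (h : (T.T (-i)).Bx (2 * i) p) : (T.T (-j)).Bx (2 * j) p :=
    T.box (by omega) (by omega) h
  refine GC.gm_union (ι := ℕ) _ _ (fun i j f a g b h => ?_) (fun i a g b h => ?_)
    (fun a g b h => ?_) (fun i j f a g b h => ?_) (fun a g b h => ?_)
    fun n => kq_box2 hs hY T hc (-n) (2 * n) m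
  · exact ⟨T.le _ _ h.1, h.2.1, bx f h.2.2.1, bx f h.2.2.2⟩
  · exact ⟨T.le _ _ h.1, h.2.1⟩
  · exact (T.two _ _).imp fun _ k => ⟨T.le _ _ h.1, h.2, k⟩
  · exact ⟨T.le _ _ h.1, h.2.1, bx f h.2.2.1, bx f h.2.2.2⟩
  · exact (T.two _ _).imp fun _ k => ⟨T.le _ _ h.1, h.2, k⟩

theorem kq_line2 (ω : Ch Γ) (h : ∀ g, ω g = 0 → ∀ c, P.χ c g = 0) : KZ σ := by
  by_cases z : ∃ g, ω g ≠ 0
  swap
  · exact kq_flat2 P hs hL hY fun g => h g (by_contra fun k => z ⟨g, k⟩)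
  obtain ⟨ω', t, c, d⟩ := ω.norm z
  have e (g i) : P.χ i g = ω' g * P.χ i t :=
    ω'.line c (χ := ⟨P.χ i, P.mul i⟩) (fun g k => h g ((d g).1 k) i) g
  obtain ⟨Q, hQ⟩ := P.comap ω'.ker.subtype fun _ _ => rfl
  exact kz_bhs ω' (kq_flat2 Q (hs.comap _ ω'.ker.subtype_injective) (hL.comap _ fun _ _ => rfl)
    (fun y => (hY y).comap ω'.ker.subtype_injective.injOn fun _ ⟨_, a, b⟩ => b ▸ a)
    fun g i => (hQ i g).trans (h g ((d g).1 g.2) i)) (kq_gi2 P hs hL hY e)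
    (kq_gi2 P hs hL hY (s := fun i => -P.χ i t) fun g i => by rw [e g i]; simp [Ch.neg])

end

end Bg

variable [Preorder Y] [Fintype κ]

/-- Vanishing in all degrees over an order with towers and terminating descent. -/
theorem Bg.kz_oq2 (P : Bg.Oq Γ Y κ) (hs : W2 𝓕 σ) (hL : Lcd Y σ)
    (hY : ∀ y : Y, 𝓕.Tm (stabilizer Γ y)) : KZ σ :=
  kz_fib (fun c => ⟨P.χ c, P.mul c⟩) fun H _ j a ω b => by
    let _ : MulAction H Y := MulAction.compHom Y j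
    obtain ⟨Q, hQ⟩ := P.comap j fun _ _ => rfl
    exact Bg.kq_line2 Q (hs.comap j a) (hL.comap j fun _ _ => rfl)
      (fun y => (hY y).comap a.injOn fun _ ⟨_, a, b⟩ => b ▸ a) ω
      fun g k c => (hQ c g).trans (b g k c)

end Pool.Agent.Lib.MP_5d3e93_al
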