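import Pool.Agent.Lib.MP_5d3e93_al.LC
import Pool.Agent.Lib.MP_5d3e93_al.Gr.Am

/-! The additive category of located idempotents with morphisms controlled by a relation. -/

open CategoryTheory Limits ZeroObject

namespace Pool.Agent.Lib.MP_5d3e93_al

universe w v u y y'

/-- Multiplicative relations between source point, degree and target point. -/
structure Rl (G : Type w) [Group G] (Y : Type y) where
  r : Y → G → Y → Prop
  trans : ∀ {a g b h c}, r a g b → r b h c → r a (g * h) c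

namespace Rl

variable {G : Type w} [Group G] {Y : Type y}

/-- One point, degrees in a subgroup. -/
def pt (H : Subgroup G) : Rl G Unit := ⟨fun _ g _ => g ∈ H, fun a b => H.mul_mem a b⟩

/-- The intersection. -/
def inf (P Q : Rl G Y) : Rl G Y :=
  ⟨fun a g b => P.r a g b ∧ Q.r a g b, fun h k => ⟨P.trans h.1 k.1, Q.trans h.2 k.2⟩⟩

/-- Invariant transitive relations on a set with an action through a homomorphism. -/
def act {Γ : Type*} [Group Γ] [MulAction Γ Y] (q : G →* Γ) (R : Y → Y → Prop)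
    (ht : ∀ a b c, R a b → R b c → R a c) (hi : ∀ (g : Γ) a b, R a b → R (g • a) (g • b)) :
    Rl G Y :=
  ⟨fun a g b => R a (q g • b), fun {a g b h c} k l => ht _ _ _ k (by
    rw [map_mul, mul_smul]; exact hi _ _ _ l)⟩

/-- The transport groupoid of a set with an action through a homomorphism. -/
def eq {Γ : Type*} [Group Γ] (q : G →* Γ) (Y : Type y) [MulAction Γ Y] : Rl G Y :=
  act q (· = ·) (fun _ _ _ => Eq.trans) fun _ _ _ h => h ▸ rfl

end Rl

/-- An additive functor as a map of ambient categories. -/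
def Gr.Am.ofOf {A : Type (max u v)} [Category.{v} A] [Preadditive A] [HasZeroObject A]
    [HasBinaryBiproducts A] {B : Type (max y' y)} [Category.{y} B] [Preadditive B]
    [HasZeroObject B] [HasBinaryBiproducts B] (F : A ⥤ B) [h : F.Additive] :
    Gr.Am.Map (Gr.Am.of.{v, u} A) (Gr.Am.of.{y, y'} B) :=
  @Gr.Am.ofMap _ _ _ _ _ (Gr.Am.of B) F h

namespace GC

open Lo

variable {G : Type w} [Group G] {C : Type u} [Category.{v} C] [Preadditive C] {S : GC G C}
variable {Y : Type y} {Y' : Type y'}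

theorem Lo.Rg.dg_comp {A B D : C} {X' : Type*} {L : S.Lo Y A} {M : S.Lo Y B} {N : S.Lo X' D}
    {R : Y → G → X' → Prop} {f : A ⟶ B} {k : B ⟶ D} (h : L.Rg M dg f) (h' : M.Rg N R k) :
    L.Rg N R (f ≫ k) := h.comp h' fun _ _ _ _ _ a b => by
  rw [a.1, a.2, one_mul]; exact b

theorem Lo.Rg.comp_dg {A B D : C} {X' : Type*} {L : S.Lo X' A} {M : S.Lo Y B} {N : S.Lo Y D}
    {R : X' → G → Y → Prop} {f : A ⟶ B} {k : B ⟶ D} (h : L.Rg M R f) (h' : M.Rg N dg k) :
    L.Rg N R (f ≫ k) := h.comp h' fun _ _ _ _ _ a b => by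
  rw [b.1, ← b.2, mul_one]; exact a

variable (S) in
/-- Located objects with a controlled idempotent. -/
structure LQ (P : Rl G Y) where
  A : C
  L : S.Lo Y A
  p : A ⟶ A
  idem : p ≫ p = p
  rg : L.Rg L P.r p

namespace LQ

attribute [reassoc (attr := simp)] idem

variable {P : Rl G Y} {P' : Rl G Y'}

/-- Controlled morphisms compatible with the idempotents. -/
def Mor (M N : S.LQ P) : AddSubgroup (M.A ⟶ N.A) where
  carrier := {f | M.p ≫ f = f ∧ f ≫ N.p = f ∧ M.L.Rg N.L P.r f}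
  add_mem' h k := ⟨by simp [h.1, k.1], by simp [h.2.1, k.2.1], h.2.2.add k.2.2⟩
  zero_mem' := ⟨by simp, by simp, .zero⟩
  neg_mem' h := ⟨by simp [h.1], by simp [h.2.1], h.2.2.neg⟩

instance : Category.{v} (S.LQ P) where
  Hom M N := Mor M N
  id M := ⟨M.p, M.idem, M.idem, M.rg⟩
  comp f g := ⟨f.1 ≫ g.1, by rw [← Category.assoc, f.2.1], by rw [Category.assoc, g.2.2.1],
    f.2.2.2.comp g.2.2.2 fun _ _ _ _ _ => P.trans⟩
  id_comp f := Subtype.ext f.2.1
  comp_id f := Subtype.ext f.2.2.1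
  assoc _ _ _ := Subtype.ext (Category.assoc ..)

instance : Preadditive (S.LQ P) where
  homGroup M N := inferInstanceAs (AddCommGroup (Mor M N))
  add_comp _ _ _ _ _ _ := Subtype.ext (Preadditive.add_comp ..)
  comp_add _ _ _ _ _ _ := Subtype.ext (Preadditive.comp_add ..)

variable {M N K : S.LQ P}

@[ext] theorem hom_ext {f g : M ⟶ N} (h : f.1 = g.1) : f = g := Subtype.ext h

@[simp] theorem id_f (M : S.LQ P) : (𝟙 M : M ⟶ M).1 = M.p := rfl

@[simp] theorem comp_f (f : M ⟶ N) (g : N ⟶ K) : (f ≫ g).1 = f.1 ≫ g.1 := rfl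

@[simp] theorem add_f (f g : M ⟶ N) : (f + g).1 = f.1 + g.1 := rfl

@[simp] theorem sub_f (f g : M ⟶ N) : (f - g).1 = f.1 - g.1 := rfl

@[simp] theorem neg_f (f : M ⟶ N) : (-f).1 = -f.1 := rfl

@[simp] theorem zero_f : (0 : M ⟶ N).1 = 0 := rfl

theorem sum_f {ι : Type*} (s : Finset ι) (f : ι → (M ⟶ N)) : (∑ i ∈ s, f i).1 = ∑ i ∈ s, (f i).1 :=
  map_sum (Mor M N).subtype f s

@[reassoc (attr := simp)] theorem p_comp (f : M ⟶ N) : M.p ≫ f.1 = f.1 := f.2.1

@[reassoc (attr := simp)] theorem comp_p (f : M ⟶ N) : f.1 ≫ N.p = f.1 := f.2.2.1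

theorem hom_rg (f : M ⟶ N) : M.L.Rg N.L P.r f.1 := f.2.2.2

/-- A morphism from its underlying morphism. -/
def homMk (f : M.A ⟶ N.A) (h : M.p ≫ f = f) (h' : f ≫ N.p = f) (k : M.L.Rg N.L P.r f) : M ⟶ N :=
  ⟨f, h, h', k⟩

@[simp] theorem homMk_f (f : M.A ⟶ N.A) (h h' k) : (homMk f h h' k).1 = f := rfl

/-- A controlled morphism cut by the idempotents. -/
def cut (f : M.A ⟶ N.A) (k : M.L.Rg N.L P.r f) : M ⟶ N :=
  homMk (M.p ≫ f ≫ N.p) (by simp) (by simp)
    (M.rg.comp (k.comp N.rg fun _ _ _ _ _ => P.trans) fun _ _ _ _ _ => P.trans)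

@[simp] theorem cut_f (f : M.A ⟶ N.A) (k) : (cut f k).1 = M.p ≫ f ≫ N.p := rfl

theorem isZero_iff : IsZero M ↔ M.p = 0 := by
  rw [IsZero.iff_id_eq_zero]
  exact Subtype.ext_iff

instance [HasZeroObject C] : HasZeroObject (S.LQ P) :=
  ⟨⟨⟨0, ⟨fun _ => 0, ∅, fun _ _ => rfl, fun _ => .inl rfl, by simp,
    (isZero_zero C).eq_of_src _ _⟩, 0, by simp, .zero⟩, isZero_iff.2 rfl⟩⟩

/-- The chosen direct sum. -/
noncomputable abbrev sum (M N : S.LQ P) : S.LQ P :=
  ⟨S.sum M.A N.A, M.L.add N.L, S.blk M.p 0 0 N.p, by simp, by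
    simpa [blk] using (rg_fst.dg_comp (M.rg.comp_dg rg_inl)).add
      (rg_snd.dg_comp (N.rg.comp_dg rg_inr))⟩

/-- The chosen direct sum as a bicone. -/
noncomputable def bicone (M N : S.LQ P) : BinaryBicone M N where
  pt := M.sum N
  fst := homMk (S.fst _ _ ≫ M.p) (by rw [S.blk_fst_assoc]; simp) (by simp) (rg_fst.dg_comp M.rg)
  snd := homMk (S.snd _ _ ≫ N.p) (by rw [S.blk_snd_assoc]; simp) (by simp) (rg_snd.dg_comp N.rg)
  inl := homMk (M.p ≫ S.inl _ _) (by simp) (by simp) (M.rg.comp_dg rg_inl)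
  inr := homMk (N.p ≫ S.inr _ _) (by simp) (by simp) (N.rg.comp_dg rg_inr)
  inl_fst := hom_ext (by simp)
  inl_snd := hom_ext (by simp)
  inr_fst := hom_ext (by simp)
  inr_snd := hom_ext (by simp)

theorem bicone_total (M N : S.LQ P) :
    (M.bicone N).fst ≫ (M.bicone N).inl + (M.bicone N).snd ≫ (M.bicone N).inr = 𝟙 _ := by
  have : (S.fst M.A N.A ≫ M.p) ≫ M.p ≫ S.inl M.A N.A + (S.snd M.A N.A ≫ N.p) ≫ N.p ≫
      S.inr M.A N.A = S.blk M.p 0 0 N.p := by simp [blk]
  exact hom_ext this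

instance : HasBinaryBiproducts (S.LQ P) :=
  ⟨fun M N => hasBinaryBiproduct_of_total _ (bicone_total M N)⟩

/-- The summand defined by an idempotent. -/
abbrev img (e : M ⟶ M) (h : e ≫ e = e) : S.LQ P := ⟨M.A, M.L, e.1, congrArg (·.1) h, hom_rg e⟩

instance : IsIdempotentComplete (S.LQ P) := ⟨fun _ e h =>
  ⟨img e h, homMk e.1 (img e h).idem (comp_p e) (hom_rg e),
    homMk e.1 (p_comp e) (img e h).idem (hom_rg e), hom_ext (img e h).idem,
    hom_ext (img e h).idem⟩⟩

variable (S) in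
/-- Moving the locations along a map. -/
noncomputable def push (φ : Y → Y') (h : ∀ a g b, P.r a g b → P'.r (φ a) g (φ b)) :
    S.LQ P ⥤ S.LQ P' where
  obj M := ⟨M.A, M.L.map φ, M.p, M.idem,
    M.rg.map M.L.on_true M.L.on_true fun a g b _ _ => h a g b⟩
  map {M N} f := homMk f.1 (p_comp f) (comp_p f)
    ((hom_rg f).map M.L.on_true N.L.on_true fun a g b _ _ => h a g b)

instance (φ : Y → Y') (h : ∀ a g b, P.r a g b → P'.r (φ a) g (φ b)) : (push S φ h).Additive where

variable (S) in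
/-- Enlarging the relation. -/
def inc {Q : Rl G Y} (h : ∀ a g b, P.r a g b → Q.r a g b) : S.LQ P ⥤ S.LQ Q where
  obj M := ⟨M.A, M.L, M.p, M.idem, M.rg.mono h⟩
  map f := homMk f.1 (p_comp f) (comp_p f) ((hom_rg f).mono h)

instance {Q : Rl G Y} (h : ∀ a g b, P.r a g b → Q.r a g b) : (inc S h).Additive where

variable (S P) in
/-- Forgetting the locations. -/
noncomputable def U : S.LQ P ⥤ S.LQ (Rl.pt ⊤) where
  obj M := ⟨M.A, .one S () M.A, M.p, M.idem, fun _ _ _ h => (h trivial).elim⟩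
  map f := homMk f.1 (p_comp f) (comp_p f) fun _ _ _ h => (h trivial).elim

instance : (U S P).Additive where

end LQ

variable [HasZeroObject C] (S)

theorem hz_of : ∃ Z : C, 𝟙 Z = 0 := ⟨0, (isZero_zero C).eq_of_src _ _⟩

/-- The ambient category of a relation. -/
def am (P : Rl G Y) : Gr.Am.{v, max u y} := Gr.Am.of (S.LQ P)

/-- All K-groups of the controlled category vanish. -/
def Zq (P : Rl G Y) : Prop := Gr.Am.Z (S.am P).bdd

/-- All K-groups of the idempotent completion of the part of degrees in `H` vanish. -/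
def WK (H : Subgroup G) : Prop := S.Zq (Rl.pt H)

/-- The idempotent completion of the whole category. -/
abbrev top : Gr.Am.{v, u} := S.am (Rl.pt ⊤)

/-- Forgetting the locations. -/
noncomputable def um (P : Rl G Y) : Gr.Am.Map (S.am P) S.top :=
  Gr.Am.ofOf (LQ.U S P)

/-- Moving the locations. -/
noncomputable def pm {P : Rl G Y} {P' : Rl G Y'} (φ : Y → Y')
    (h : ∀ a g b, P.r a g b → P'.r (φ a) g (φ b)) : Gr.Am.Map (S.am P) (S.am P') :=
  Gr.Am.ofOf (LQ.push S φ h)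

/-- Enlarging the relation. -/
noncomputable def im {P Q : Rl G Y} (h : ∀ a g b, P.r a g b → Q.r a g b) :
    Gr.Am.Map (S.am P) (S.am Q) :=
  Gr.Am.ofOf (LQ.inc S h)

end GC

end Pool.Agent.Lib.MP_5d3e93_al
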