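import Pool.Agent.Lib.MP_5d3e93_al.K.TW
import Pool.Agent.Lib.MP_5d3e93_al.K.Kop2

/-! Vanishing in all degrees for actions on lattices with a shift. -/

open CategoryTheory Limits MulAction Filter
open scoped Pointwise

namespace Pool.Agent.Lib.MP_5d3e93_al.Bg

universe w v u

variable {G : Type w} [Group G] {C : Type (max u v w)} [Category.{v} C] [Preadditive C]
  [HasBinaryBiproducts C] [HasZeroObject C] {σ : Act G C} {𝓕 : Fam G}
  (h : Okf.{w, v, u} 𝓕 σ) (hw : Sw σ) {X : Type w} [Lattice X] [Nonempty X] (B : Bl X)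
  [MulAction G X] [hB : B.Ac G] (hX : ∀ x : X, 𝓕.Tm (stabilizer G x))
include h hw hB hX

theorem kz_lat2_fg [Group.FG G] : KZ σ := by
  let _ : MulAction (G × Zi) X := MulAction.compHom X (MonoidHom.fst G Zi)
  have : B.Ac (G × Zi) := ⟨fun g => hB.hm g.1, fun g => hB.hπ g.1, fun g => hB.hc g.1⟩
  obtain ⟨F, hF⟩ := (Group.fg_iff_monoid_fg.1 ‹_›).fg_top
  have z := ev_nv (l := atTop) (h := fun j : ℕ => j + 2) (ok (σ := σ) hw.k0)
    (P := YL.pf B (G × Zi) (B.n + 2) (Finset (Fin (B.n + 1))))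
    (fun z x => funext fun L => one_smul G (x L))
    (fun A k => zq_wd B (fun _ _ => rfl) (fun Γ _ j Z _ _ _ κ _ O ⟨m, e, a⟩ b => kz_oq2 O
      ⟨((Okf.pi (fun c g => (e g).toAdd c) (fun c x y => by simp) h j fun g p q =>
        a (Prod.ext (p.trans (map_one j).symm) ((Multiplicative.toAdd.injective (funext q)).trans
          (map_one e).symm))).act O.hm).wf, (hw.comap j).act O.hm⟩ (lcd_act _ _) fun z =>
        (b z).elim fun x c => (hX x).comap c.1 c.2) k) (tendsto_add_atTop_nat 2) (4 * B.n + 6)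
  refine GC.trf (q := .fst G Zi) (fun j => (B.tf (F.finite_toSet.insert 1)
    (Nat.le_add_left 2 j)).some) (.of_forall fun _ => .inl rfl) (fun g => ?_)
      ⟨1, .of_forall fun j a g b k => k⟩ z
  obtain ⟨g, t⟩ := g
  rw [show (g, t) = (g, 1) * (1, t) by simp]
  refine mul_mem ?_ (Submonoid.subset_closure (.of_forall fun _ => .inl rfl))
  induction (hF ▸ Submonoid.mem_top g : g ∈ Submonoid.closure (F : Set G)) using
    Submonoid.closure_induction with
  | mem x p => exact Submonoid.subset_closure (.of_forall fun _ => .inr p)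
  | one => exact one_mem _
  | mul x y _ _ p q => simpa using mul_mem p q

theorem kz_lat2 : KZ σ := by
  refine kz_fg fun H a => ?_
  have := (Group.fg_iff_subgroup_fg H).2 a
  have : B.Ac H := ⟨fun g => hB.hm g.1, fun g => hB.hπ g.1, fun g => hB.hc g.1⟩
  refine kz_lat2_fg (h.sub H.subtype H.subtype_injective) (hw.comap _) B fun x =>
    (hX x).comap H.subtype_injective.injOn ?_
  rintro _ ⟨g, k, rfl⟩
  exact k

end Pool.Agent.Lib.MP_5d3e93_al.Bg

namespace Pool.Agent.Lib.MP_5d3e93_al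

universe w v u

variable {G : Type w} [Group G] (𝓕 : Fam G)

/-- The family together with the locally linear subgroups. -/
def Fam.ln : Fam G where
  m H := Lin H ∨ 𝓕.m H
  le h := Or.imp (Lin.pull (hyper_ker Function.injective_id (i := .id G))
    ((Subgroup.map_id _).trans_le h)) (𝓕.le h)
  conj {H} g := Or.imp (Lin.pull (hyper_ker (MulAut.conj g⁻¹).injective
    (i := (MulAut.conj g⁻¹).toMonoidHom)) (by
      rintro _ ⟨_, ⟨x, a, rfl⟩, rfl⟩
      simpa [mul_assoc] using a)) (𝓕.conj g)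

variable {𝓕} in
theorem okf_ln {C : Type (max u v w)} [Category.{v} C] [Preadditive C] [HasBinaryBiproducts C]
    [HasZeroObject C] {σ : Act G C} (hs : Sw σ) (hf : SwF 𝓕 σ) : Okf.{w, v, u} 𝓕.ln σ :=
  ⟨{ k := fun 𝓖 σ => Sw σ ∧ ∀ V, 𝓖.m V → Lin V ∨ Swd σ (· ∈ V)
     sub := fun k _ _ j a => ⟨k.1.comap j, fun _ b => (k.2 _ b).imp (Lin.pull (hyper_ker a) le_rfl)
       fun c => (c.comap j).mono fun g e => ⟨g, e, rfl⟩⟩
     fst := fun k => ⟨k.1.comap _, fun _ b => (k.2 _ b).imp (Lin.pull hyper_fst le_rfl)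
       fun c => (c.comap _).mono fun g e => ⟨g, e, rfl⟩⟩
     act := fun k _ _ _ _ hm => ⟨k.1.act hm, fun _ b => (k.2 _ b).imp_right (·.act hm)⟩
     kz := fun {Γ} _ _ _ _ _ _ _ _ k a => (k.2 _ a).elim (fun b => kz_all (fun H c => by
         obtain ⟨R, _, n, φ, e⟩ := (b.pull (E := H) (hyper_ker Function.injective_id (i := .id Γ))
           le_top) ⊤ ((Group.fg_iff_subgroup_fg H).2 c).out
         exact ⟨R, _, n, φ.comp Subgroup.topEquiv.symm.toMonoidHom,
           rg_comap (MulEquiv.injective _) e fun _ => id⟩) k.1)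
       fun b => kz_swd (b.mono fun _ _ => trivial) }, hs, fun V a => a.imp_right (hf V)⟩

variable {H : Type w} [Group H]

/-- One step of the descent. -/
def Stl (j : H →* G) (N D₁ D : Subgroup H) : Prop := ∃ t : H, ¬ LocHyper D ∧ ¬ Hyper ↥(D ⊓ N) ∧
  ¬ Lin ↥(D ⊔ Subgroup.zpowers t) ∧ ¬ 𝓕.m ((D ⊔ Subgroup.zpowers t).map j) ∧ D₁ ≤ cj D t

variable {𝓕} in
theorem Stl.pull {H' : Type w} [Group H'] {j : H →* G} {N : Subgroup H} {i : H' →* H}
    {N' : Subgroup H'} (hi : Hyper i.ker) (a : N' ≤ N.comap i) {D} (d : Acc (Stl 𝓕 j N) D) :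
    ∀ E : Subgroup H', E.map i ≤ D → Acc (Stl 𝓕 (j.comp i) N') E := by
  induction d with
  | intro D _ ih =>
    refine fun E k => ⟨_, fun E₁ ⟨t, o, p, q, r, s⟩ => ?_⟩
    have e : (E ⊔ Subgroup.zpowers t).map i ≤ D ⊔ Subgroup.zpowers (i t) := by
      rw [Subgroup.map_sup, MonoidHom.map_zpowers]
      exact sup_le_sup_right k _
    refine ih (E₁.map i) ⟨i t, fun c => o (c.pull hi k), fun c => p (Hyper.ext' i
      (hi.le inf_le_right) (c.le ?_)), fun c => q (c.pull hi e), fun c => r (𝓕.le ?_ c), ?_⟩ _ le_rfl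
    · rintro _ ⟨g, c, rfl⟩
      exact ⟨k ⟨g, c.1, rfl⟩, a c.2⟩
    · rw [← Subgroup.map_map]
      exact Subgroup.map_mono e
    · rintro _ ⟨x, hx, rfl⟩
      obtain ⟨b, c⟩ := mem_cj.1 (s hx)
      exact mem_cj.2 ⟨k ⟨x, b, rfl⟩, k ⟨_, c, by simp⟩⟩

variable (X : Type w) [MulAction G X]

/-- Groups with terminating descent at all points. -/
def admL : Adm G where
  a j N := ∀ x : X, Acc (Stl 𝓕 j N) ((stabilizer G x).comap j)
  pull i _ hi a h x := Stl.pull hi a (h x) _ (by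
    rintro _ ⟨g, b, rfl⟩
    exact b)
  ext0 f a b h x := Subrelation.accessible (fun ⟨t, o, p, q⟩ => ⟨t, o, fun c => p (Hyper.ext' f
    (c.le fun _ e => ⟨e.1.1, a ⟨e.1.2, e.2⟩⟩) (b.le (Subgroup.map_mono inf_le_right))), q⟩) (h x)

variable {X 𝓕} [Lattice X] [Nonempty X] (B : Bg.Bl X) [hB : B.Ac G]
include B hB

theorem admL_unit : Adm.Gd.{w, v, u} (admL 𝓕 X) 𝓕 PUnit.{w + 1} := by
  intro H _ j ψ h C _ _ _ _ σ hs hf
  rw [show ψ.ker = ⊤ from top_le_iff.1 fun _ _ => rfl] at h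
  let _ : MulAction H X := MulAction.compHom X j
  have : B.Ac H := ⟨fun g => hB.hm (j g), fun g => hB.hπ (j g), fun g => hB.hc (j g)⟩
  refine Bg.kz_lat2.{w, v, u} (okf_ln hs hf) hs B fun x => Subrelation.accessible ?_ (h x)
  rintro _ D ⟨t, o, p, q⟩
  exact ⟨t, o, fun c => o (c.le (le_inf le_rfl le_top)).loc, fun c => p (.inl c),
    fun c => p (.inr c), q⟩

theorem kz_bl {R : Type w} [CommRing R] {n : ℕ} (φ : G →* GL (Fin n) R)
    (hA : ∀ x : X, Acc (fun D₁ D : Subgroup G => ∃ t : G, ¬ LocHyper D ∧ ¬ Hyper ↥(D ⊓ φ.ker) ∧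
      ¬ Lin ↥(D ⊔ Subgroup.zpowers t) ∧ ¬ 𝓕.m (D ⊔ Subgroup.zpowers t) ∧
        D₁ = D ⊓ MulAut.conj t • D) (stabilizer G x))
    {C : Type u} [Category.{v} C] [Preadditive C] [HasBinaryBiproducts C] [HasZeroObject C]
    {σ : Act G C} (hs : Sw σ) (hf : SwF 𝓕 σ) : KZ σ := by
  refine Adm.kz (admL_unit B) φ (fun x => ?_) hs hf
  have key (D) (d : Acc (fun D₁ D : Subgroup G => ∃ t : G, ¬ LocHyper D ∧ ¬ Hyper ↥(D ⊓ φ.ker) ∧
      ¬ Lin ↥(D ⊔ Subgroup.zpowers t) ∧ ¬ 𝓕.m (D ⊔ Subgroup.zpowers t) ∧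
        D₁ = D ⊓ MulAut.conj t • D) D) : ∀ E ≤ D, Acc (Stl 𝓕 (.id G) φ.ker) E := by
    induction d with
    | intro D _ ih =>
      refine fun E k => ⟨_, fun E₁ ⟨t, o, p, q, r, s⟩ => ih _ ⟨t,
        fun c => o (Cl.le (s := LH) k c), fun c => p (c.le (inf_le_inf_right _ k)),
        fun c => q (c.pull (hyper_ker Function.injective_id (i := .id G))
          ((Subgroup.map_id _).trans_le (sup_le_sup_right k _))),
        fun c => r (𝓕.le ((Subgroup.map_id _).trans_le (sup_le_sup_right k _)) c), cj_eq D t⟩ _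
          fun x hx => ?_⟩
      exact mem_cj.2 ⟨k (mem_cj.1 (s hx)).1, k (mem_cj.1 (s hx)).2⟩
  exact key _ (hA x) _ le_rfl

end Pool.Agent.Lib.MP_5d3e93_al
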