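import Pool.Agent.Lib.MP_5d3e93_al.K.Ad
import Pool.Agent.Lib.MP_5d3e93_al.PrT

/-! Refining the locations by a located structure on the whole category. -/

open CategoryTheory Limits ZeroObject MulAction

namespace Pool.Agent.Lib.MP_5d3e93_al

universe w v u y y' v' u' v'' u''

open Gr

namespace GC

open Lo

variable {G : Type w} [Group G] {C : Type u} [Category.{v} C] [Preadditive C] [HasZeroObject C]
variable {S : GC G C} {m : ℕ}

/-- The refinement of located objects. -/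
theorem Lcq.ref {Y₀ : Type y} {Q : Rl G Y₀} (h : S.Lcq Q) (Z : Type y') :
    ∃ ρ : ∀ {A : C}, S.Lo Z A → S.Lo (Y₀ × Z) A,
      (∀ (A : C) (L : S.Lo Z A) z, ((ρ L).map Prod.snd).e z = L.e z) ∧
      ∀ (A B : C) (L : S.Lo Z A) (M : S.Lo Z B) (R : Z → G → Z → Prop) (f : A ⟶ B), L.Rg M R f →
        (ρ L).Rg (ρ M) (fun a g b => Q.r a.1 g b.1 ∧ R a.2 g b.2) f := by
  classical
  obtain ⟨T, hT⟩ := h
  choose B i r s1 s2 a b using fun (A : C) (L : S.Lo Z A) z => (L.spl z).split (hz_of (C := C))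
  have c1 (A L z) : i A L z ≫ L.e z = i A L z := by rw [← b, reassoc_of% a]
  have c2 (A L z) : L.e z ≫ r A L z = r A L z := by rw [← b, Category.assoc, a, Category.comp_id]
  have c5 (A L z z') (k : z ≠ z') : i A L z ≫ r A L z' = 0 := by
    rw [← c1, ← c2, Category.assoc, reassoc_of% L.orth z z' k, zero_comp, comp_zero]
  have c6 (A) (L : S.Lo Z A) (z) (l : z ∈ L.s) :
      ∑ x ∈ L.s.biUnion (fun z => (T (B A L z)).s), r A L z ≫ (T _).e x ≫ i A L z = L.e z := by
    rw [← Finset.sum_subset (Finset.subset_biUnion_of_mem (fun z => (T (B A L z)).s) l)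
      fun x _ k => by rw [(T _).out x k, zero_comp, comp_zero], ← Preadditive.comp_sum,
      ← Preadditive.sum_comp, (T _).total, Category.id_comp, b]
  have c7 (A) (L : S.Lo Z A) (p : Y₀ × Z)
      (k : p ∉ L.s.biUnion (fun z => (T (B A L z)).s) ×ˢ L.s) :
      r A L p.2 ≫ (T _).e p.1 ≫ i A L p.2 = 0 := by
    by_cases l : p.2 ∈ L.s
    · rw [(T _).out p.1 fun n => k (Finset.mem_product.2 ⟨Finset.mem_biUnion.2 ⟨_, l, n⟩, l⟩),
        zero_comp, comp_zero]
    · rw [← c2, L.out _ l, zero_comp, zero_comp]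
  refine ⟨fun {A} L => ⟨fun p => r A L p.2 ≫ (T _).e p.1 ≫ i A L p.2,
    L.s.biUnion (fun z => (T (B A L z)).s) ×ˢ L.s, c7 A L,
    fun p => ((T _).spl p.1).tr (s1 A L p.2) (s2 A L p.2) (a A L p.2), fun p q k => ?_, ?_⟩,
    fun A L z => ?_, fun A A' L M R f hf p q => ?_⟩
  · obtain ⟨x, z⟩ := p
    obtain ⟨x', z'⟩ := q
    by_cases l : z = z'
    · subst l
      simp [reassoc_of% a, reassoc_of% (T _).orth x x' fun n => k (by rw [n])]
    · simp [reassoc_of% c5 A L _ _ l]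
  · rw [Finset.sum_product_right, Finset.sum_congr rfl (c6 A L), L.total]
  · change ∑ x ∈ _, _ = _
    by_cases l : z ∈ L.s
    · rw [← c6 A L z l, Finset.sum_filter, Finset.sum_product]
      refine Finset.sum_congr rfl fun x _ => ?_
      simp [l]
    · rw [L.out z l]
      exact Finset.sum_eq_zero fun p hp => by
        rw [Finset.mem_filter, Finset.mem_product] at hp
        exact (l (hp.2 ▸ hp.1.2)).elim
  · have k1 := (hT _ _ (i A L p.2 ≫ f ≫ r A' M q.2) p.1 q.1).inter (Y := {g | R p.2 g q.2}) (by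
      have := Sup.one_comp ((T _).spl p.1).deg.cp_eq ((Sup.one_comp (s1 A L p.2).cp_eq
        ((hf p.2 q.2).comp_one (s2 A' M q.2).cp_eq)).comp_one ((T _).spl q.1).deg.cp_eq)
      simpa [c2, reassoc_of% c1, reassoc_of% c2] using this)
    simpa [Set.ofPred_and] using
      Sup.one_comp (s2 A L p.2).cp_eq (k1.comp_one (s1 A' M q.2).cp_eq)

section
variable {Y₀ : Type y} {Z : Type y'} {Q : Rl G Y₀}

/-- The refined location. -/
noncomputable def Lcq.rf (h : S.Lcq Q) {A : C} (L : S.Lo Z A) : S.Lo (Y₀ × Z) A :=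
  (h.ref Z).choose L

theorem Lcq.rf_snd (h : S.Lcq Q) {A : C} (L : S.Lo Z A) (z : Z) :
    ((h.rf L).map Prod.snd).e z = L.e z := (h.ref Z).choose_spec.1 A L z

theorem Lcq.rf_rg (h : S.Lcq Q) {A B : C} {L : S.Lo Z A} {M : S.Lo Z B} {R : Z → G → Z → Prop}
    {f : A ⟶ B} (k : L.Rg M R f) :
    (h.rf L).Rg (h.rf M) (fun a g b => Q.r a.1 g b.1 ∧ R a.2 g b.2) f :=
  (h.ref Z).choose_spec.2 A B L M R f k

/-- The refinement functor. -/
noncomputable def Lcq.fn (h : S.Lcq Q) (P : Rl G Z) : S.LQ P ⥤ S.LQ (Q.prod P) where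
  obj M := ⟨M.A, h.rf M.L, M.p, M.idem, h.rf_rg M.rg⟩
  map f := LQ.homMk f.1 (LQ.p_comp f) (LQ.comp_p f) (h.rf_rg (LQ.hom_rg f))

instance (h : S.Lcq Q) (P : Rl G Z) : (h.fn P).Additive where

/-- Refining and then forgetting the new coordinate is the identity. -/
noncomputable def Lcq.iso (h : S.Lcq Q) (P : Rl G Z) :
    h.fn P ⋙ LQ.push S (P := Q.prod P) (P' := P) Prod.snd (fun _ _ _ k => k.2) ≅ 𝟭 _ :=
  NatIso.ofComponents (fun M => ⟨LQ.homMk M.p M.idem M.idem fun a b => by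
      have := M.rg a b
      rwa [← h.rf_snd M.L a] at this, LQ.homMk M.p M.idem M.idem fun a b => by
      have := M.rg a b
      rwa [← h.rf_snd M.L b] at this, LQ.hom_ext M.idem, LQ.hom_ext M.idem⟩)
    fun f => LQ.hom_ext ((LQ.comp_p f).trans (LQ.p_comp f).symm)

end

section Pushfile
variable {Y Y' : Type w} {P : Rl G Y} {P' : Rl G Y'} {B : Y → G → Y → Prop}
  {B' : Y' → G → Y' → Prop}

/-- Split `L.e y` by `Spl.split`, locate the summand, transport back (as `Lcd.act`). -/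
theorem Gm.refine {Y₀ : Type w} {Q : Rl G Y₀} (h : S.Lcq Q)
    (z : S.Gm (Q.prod P) (fun a g b => Q.r a.1 g b.1 ∧ B a.2 g b.2) m) : S.Gm P B m :=
  fun X hX F x k l => z X hX (F.post (h.fn P)) x (fun A => h.rf_rg (k A)) l

theorem Zq.refine {Y₀ : Type y} {Z : Type y'} {Q : Rl G Y₀} {Q' : Rl G Z} (h : S.Lcq Q)
    (z : S.Zq (Q.prod Q')) : S.Zq Q' :=
  Am.Z_retract.{v, max u y', v, max u y y'} (h.fn Q') _ (h.iso Q') z

end Pushfile

end GC

variable {Γ : Type w} [Group Γ] {C : Type u} [Category.{v} C] [Preadditive C]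
  [HasBinaryBiproducts C] [HasZeroObject C] {σ : Act Γ C}

theorem Lcd.lcq {Y : Type y} [Preorder Y] [MulAction Γ Y] (h : Lcd Y σ)
    (hm : ∀ (g : Γ) (a b : Y), a ≤ b → g • a ≤ g • b) :
    (SZ σ).Lcq (Rl.act (.fst Γ Zi) (· ≤ ·) (fun _ _ _ => le_trans) hm) := h.lo

end Pool.Agent.Lib.MP_5d3e93_al
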