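import Pool.Agent.Lib.MP_5d3e93_al.K.TS

/-! Covers of Mayer-Vietoris presentations by presentations of zero. -/

open CategoryTheory Limits ZeroObject MulAction

namespace Pool.Agent.Lib.MP_5d3e93_al

universe w v u y u'

namespace K.MV

open Gr

variable {𝒱 ℰ : Type (max u v)} {𝒜 : Type (max u' v)} [Category.{v} 𝒱] [Category.{v} ℰ]
  [Category.{v} 𝒜] [Preadditive 𝒱] [Preadditive ℰ] [Preadditive 𝒜] [HasBinaryBiproducts 𝒱]
  [HasBinaryBiproducts ℰ] {D : MD.{v, u, u'} 𝒱 ℰ 𝒜}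

theorem th_zero {X Y Z : 𝒜} {u : X ⟶ Y} {k : Y ⟶ Z} (h : Spl u k) : u ≫ k = 0 := by
  obtain ⟨r, s, a, b, d⟩ := h
  simpa [reassoc_of% a, b] using congrArg (u ≫ · ≫ k) d

omit [HasBinaryBiproducts 𝒱] in
/-- One more edge object kills the kernel. -/
theorem th_att (c₀ c : MV D) {P : ℰ} (π : ∀ b, c₀.V ⟶ (D.s b).obj P)
    (u : D.j.obj P ⟶ D.i.obj c₀.V) (hu : Spl u c₀.κ) (hπ : u ≫ D.κ π = 𝟙 _) (f : c₀.V ⟶ c.V)
    (g₀ : c₀.E ⟶ c.E) (g₁ : P ⟶ c.E)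
    (h : ∀ b, f ≫ c.k b = c₀.k b ≫ (D.s b).map g₀ + π b ≫ (D.s b).map g₁) :
    ∃ (a : MV D) (φ : a ⟶ c), IsIso a.κ ∧ (∃ t : c₀.V ⟶ a.V, t ≫ hV φ = f) ∧
      ∃ t : P ⟶ a.E, t ≫ hE φ = g₁ := by
  have z := th_zero hu
  obtain ⟨r, s, a, b, d⟩ := hu
  have e : D.κ (fun b => c₀.k b ≫ (D.s b).map biprod.inl + π b ≫ (D.s b).map biprod.inr) =
      c₀.κ ≫ D.j.map (biprod.inl : _ ⟶ c₀.E ⊞ P) + D.κ π ≫ D.j.map biprod.inr := by
    simp only [κ, MD.κ, MD.t_add, MD.t_map, Preadditive.sub_comp]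
    abel
  have i1 : (D.j.map biprod.fst ≫ (s - s ≫ D.κ π ≫ u) + D.j.map biprod.snd ≫ u) ≫
      (c₀.κ ≫ D.j.map (biprod.inl : _ ⟶ c₀.E ⊞ P) + D.κ π ≫ D.j.map biprod.inr) = 𝟙 _ := by
    simp only [Preadditive.add_comp, Preadditive.comp_add, Preadditive.sub_comp,
      Preadditive.comp_sub, Category.assoc, reassoc_of% z, reassoc_of% b, reassoc_of% hπ,
      zero_comp, comp_zero, sub_zero, sub_self, add_zero, zero_add]
    rw [← D.j.map_comp, ← D.j.map_comp, ← D.j.map_add, biprod.total, D.j.map_id]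
  have i2 : (c₀.κ ≫ D.j.map (biprod.inl : _ ⟶ c₀.E ⊞ P) + D.κ π ≫ D.j.map biprod.inr) ≫
      (D.j.map biprod.fst ≫ (s - s ≫ D.κ π ≫ u) + D.j.map biprod.snd ≫ u) = 𝟙 _ := by
    have := congrArg (· ≫ D.κ π ≫ u) d
    simp only [Preadditive.add_comp, Category.assoc, reassoc_of% hπ, Category.id_comp] at this
    simp only [Preadditive.add_comp, Preadditive.comp_add, Category.assoc,
      ← Functor.map_comp_assoc, biprod.inl_fst, biprod.inl_snd, biprod.inr_fst, biprod.inr_snd,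
      CategoryTheory.Functor.map_id, Category.id_comp, Functor.map_zero, zero_comp, comp_zero,
      add_zero, zero_add, Preadditive.comp_sub]
    rw [← d, ← sub_eq_zero, ← sub_eq_zero.2 this.symm]
    abel
  refine ⟨⟨c₀.V, c₀.E ⊞ P, fun b => c₀.k b ≫ (D.s b).map biprod.inl +
    π b ≫ (D.s b).map biprod.inr, _, (congrArg (_ ≫ ·) e).trans i1⟩,
    homMk f (biprod.desc g₀ g₁) fun b => ?_,
    ⟨_, (congrArg (· ≫ _) e).trans i2, (congrArg (_ ≫ ·) e).trans i1⟩, ⟨𝟙 _, Category.id_comp _⟩, biprod.inr, biprod.inr_desc _ _⟩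
  simp [h b, ← Functor.map_comp]

theorem th_sum (a a' : MV D) (h : IsIso a.κ) (h' : IsIso a'.κ) : IsIso (a ⊞ a').κ := by
  have tV := congrArg (fun f => D.i.map (hV f)) (biprod.total (X := a) (Y := a'))
  have tE := congrArg (fun f => D.j.map (hE f)) (biprod.total (X := a) (Y := a'))
  simp only [hV_add, hV_comp, hE_add, hE_comp, hV_id, hE_id, Functor.map_add, Functor.map_comp,
    CategoryTheory.Functor.map_id] at tV tE
  refine ⟨D.j.map (hE biprod.fst) ≫ inv a.κ ≫ D.i.map (hV biprod.inl) +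
    D.j.map (hE biprod.snd) ≫ inv a'.κ ≫ D.i.map (hV biprod.inr), ?_, ?_⟩
  · simp only [Preadditive.comp_add, ← κ_comm_assoc, IsIso.hom_inv_id_assoc, tV]
  · simp only [Preadditive.add_comp, Category.assoc, κ_comm, IsIso.inv_hom_id_assoc, tE]

/-- Maps to the vertex object that lift to a presentation of zero. -/
def ThV (c : MV D) {x : 𝒱} (y : x ⟶ c.V) : Prop :=
  ∃ (a : MV D) (f : a ⟶ c) (y' : x ⟶ a.V), IsIso a.κ ∧ y' ≫ hV f = y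

theorem ThV.add {c : MV D} {x : 𝒱} {y z : x ⟶ c.V} (h : ThV c y) (k : ThV c z) :
    ThV c (y + z) := by
  obtain ⟨a, f, y', i, rfl⟩ := h
  obtain ⟨a', f', z', i', rfl⟩ := k
  refine ⟨a ⊞ a', biprod.desc f f', y' ≫ hV biprod.inl + z' ≫ hV biprod.inr, th_sum a a' i i', ?_⟩
  simp only [Preadditive.add_comp, Category.assoc, ← hV_comp, biprod.inl_desc, biprod.inr_desc]

/-- Maps to the edge object that lift to a presentation of zero. -/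
def ThE (c : MV D) {x : ℰ} (y : x ⟶ c.E) : Prop :=
  ∃ (a : MV D) (f : a ⟶ c) (y' : x ⟶ a.E), IsIso a.κ ∧ y' ≫ hE f = y

theorem ThE.add {c : MV D} {x : ℰ} {y z : x ⟶ c.E} (h : ThE c y) (k : ThE c z) :
    ThE c (y + z) := by
  obtain ⟨a, f, y', i, rfl⟩ := h
  obtain ⟨a', f', z', i', rfl⟩ := k
  refine ⟨a ⊞ a', biprod.desc f f', y' ≫ hE biprod.inl + z' ≫ hE biprod.inr, th_sum a a' i i', ?_⟩
  simp only [Preadditive.add_comp, Category.assoc, ← hE_comp, biprod.inl_desc, biprod.inr_desc]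

end K.MV

open Gr K

namespace GC

variable {G : Type w} [Group G] {C : Type u} [Category.{v} C] [Preadditive C] {S : GC G C}
variable {Γ : Type w} [Group Γ] {q : G →* Γ}
variable {V : Type w} [MulAction Γ V] {T : SimpleGraph V} {o : Ot Γ T}
variable (c : MV (S.md q o)) {X : C}

/-- The boundary map as a morphism of the base. -/
noncomputable def thK : c.V.A ⟶ c.E.A := c.κ.1

theorem thK_eq : thK c = kk c true - kk c false := md_κ c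

theorem th_ab {u : X ⟶ c.V.A} {W : Set V} (h : c.V.L.Ab q W u) (b : Bool) :
    c.E.L.Ab q {e | e.en b ∈ W} (u ≫ kk c b) :=
  (Lo.ab_map (Ed.en_smul b)).1 (LQ.ab_comp h (c.k b))

theorem th_abK {u : X ⟶ c.V.A} {W : Set V} (h : c.V.L.Ab q W u) :
    c.E.L.Ab q {e | ∃ b, e.en b ∈ W} (u ≫ thK c) := by
  rw [thK_eq, Preadditive.comp_sub]
  exact .sub ((th_ab c h true).mono fun _ k => ⟨_, k⟩) ((th_ab c h false).mono fun _ k => ⟨_, k⟩)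

theorem th_sec : ∃ σ : c.E.A ⟶ c.V.A, σ ≫ c.V.p = σ ∧ σ ≫ thK c = c.E.p := by
  obtain ⟨σ, h⟩ := c.epi
  exact ⟨σ.1, LQ.comp_p σ, congrArg (·.1) h⟩

theorem thK_p : thK c ≫ c.E.p = thK c := LQ.comp_p c.κ

/-- Cutting along an edge. -/
theorem th_cut (e : Ed o) (b : Bool) (z : X ⟶ c.V.A) (hz : z ≫ c.V.p = z)
    (k : c.E.L.Ab q {e} (z ≫ thK c)) : ∃ z₁ : X ⟶ c.V.A, z₁ ≫ c.V.p = z₁ ∧
      c.V.L.Ab q (e.sd b) z₁ ∧ c.V.L.Ab q (e.sd b)ᶜ (z - z₁) ∧ c.E.L.Ab q {e} (z₁ ≫ thK c) := by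
  obtain ⟨z₁, h1, h2, h3⟩ := LQ.part c.V (e.sd b) z hz
  refine ⟨z₁, h1, h2, h3, ?_⟩
  have a : c.E.L.Ab q ({e} ∪ {e' | ∃ b', e'.en b' ∈ (e.sd b)ᶜ}) (z₁ ≫ thK c) := by
    have := (k.mono Set.subset_union_left).sub ((th_abK c h3).mono Set.subset_union_right)
    rwa [Preadditive.sub_comp, sub_sub_cancel] at this
  refine ((th_abK c h2).inter a).mono ?_
  rintro e' ⟨⟨b₁, m⟩, rfl | ⟨b₂, n⟩⟩
  · rfl
  · refine (Ed.cross m fun l => n ?_).1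
    cases b₁ <;> cases b₂ <;> assumption

/-- A morphism of the base as a morphism of the total category. -/
noncomputable def thF {Y : Type y} {P : Rl G Y} {M : S.LQ P} (f : X ⟶ M.A) (h : f ≫ M.p = f) :
    S.fro X ⟶ (LQ.U S P).obj M :=
  LQ.homMk f (Category.id_comp _) h fun _ _ _ k => (k trivial).elim

theorem th_alg {A₀ A E₀ E : C} (b b' : Bool) {η : X ⟶ A₀} {f : A₀ ⟶ A} {z : X ⟶ A}
    {k : Bool → (A ⟶ E)} {k₀ : Bool → (A₀ ⟶ E₀)} {g₀ : E₀ ⟶ E} {g₁ : X ⟶ E} {π : Bool → (A₀ ⟶ X)}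
    (hf : η ≫ f = z) (h₀ : η ≫ k₀ true = η ≫ k₀ false) (hg₀ : η ≫ k₀ true ≫ g₀ = z ≫ k !b)
    (hg₁ : g₁ = z ≫ (k true - k false)) (p1 : η ≫ (π true - π false) = 𝟙 X) (p2 : π (!b) = 0) :
    η ≫ (f ≫ k b' - (k₀ b' ≫ g₀ + π b' ≫ g₁)) = 0 := by
  have p4 : η ≫ k₀ b' ≫ g₀ = z ≫ k !b := by
    cases b'
    · rw [← reassoc_of% h₀, hg₀]
    · exact hg₀
  rw [Preadditive.comp_sub, Preadditive.comp_add, reassoc_of% hf, p4, hg₁]
  cases b <;> cases b' <;> simp only [Bool.not_true, Bool.not_false] at p2 ⊢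
  · rw [p2, zero_sub, Preadditive.comp_neg, neg_eq_iff_eq_neg] at p1
    simp [reassoc_of% p1, Preadditive.comp_sub]
  · simp [p2]
  · simp [p2]
  · rw [p2, sub_zero] at p1
    simp [reassoc_of% p1, Preadditive.comp_sub]

variable [HasZeroObject C]

theorem dang (e : Ed o) (b : Bool) (z : X ⟶ c.V.A) (hz : z ≫ c.V.p = z)
    (h : c.V.L.Ab q (e.sd b) z) (k : c.E.L.Ab q {e} (z ≫ c.κ.1)) :
    ∃ (a : MV (S.md q o)) (f : a ⟶ c), IsIso a.κ ∧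
      (∀ w (y : S.pt q X w ⟶ c.V) (y₀ : X ⟶ c.V.A), y.1 = y₀ → c.V.L.Ab q {w}ᶜ (z - y₀) →
        ∃ y', y' ≫ MV.hV f = y) ∧
      ∀ y : S.pt q X e ⟶ c.E, y.1 = z ≫ c.κ.1 → ∃ y', y' ≫ MV.hE f = y := by
  classical
  change c.E.L.Ab q {e} (z ≫ thK c) at k
  obtain ⟨F, hF⟩ := Lo.Ab.fin (q := q) c.V.L z
  obtain ⟨Δ, c₀, η, sx, m, s1, s2⟩ := Sx.half (S := S) (q := q) X e b (F.filter (· ∈ e.sd b))
    fun _ l => (Finset.mem_filter.1 l).2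
  have zΔ : c.V.L.Ab q Δ z := (hF.inter h).mono fun _ l => s1 (Finset.mem_filter.2 l)
  obtain ⟨η₀, e₀⟩ : ∃ η₀ : X ⟶ c₀.V.A, η₀ = η.1 := ⟨_, rfl⟩
  have ηp : η₀ ≫ c₀.V.p = η₀ := e₀ ▸ LQ.comp_p η
  have ηκ : η₀ ≫ kk c₀ true = η₀ ≫ kk c₀ false := by
    rw [← sub_eq_zero, ← Preadditive.comp_sub, ← thK_eq, e₀]
    exact congrArg (·.1) (MV.th_zero sx.spl)
  obtain ⟨f, hf⟩ := sx.surV c.V (thF z hz) zΔ
  have hf : η₀ ≫ f.1 = z := e₀ ▸ congrArg (·.1) hf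
  obtain ⟨π₀, hπ⟩ := sx.surV (((S.md q o).s b).obj (S.pt q X e))
    (thF (M := ((S.md q o).s b).obj (S.pt q X e)) (𝟙 X) (Category.id_comp _))
    ((Lo.ab_map (Ed.en_smul b)).2 ((ab_pt X e).mono fun _ l => l ▸ m))
  have hπ : η₀ ≫ (π₀.1 : c₀.V.A ⟶ X) = 𝟙 X := e₀ ▸ congrArg (·.1) hπ
  obtain ⟨g₁, hg₁⟩ := pt_hom (z ≫ thK c) (by rw [Category.assoc, thK_p]) k
  have kp : ∀ b', kk c b' ≫ c.E.p = kk c b' := fun b' => LQ.comp_p (c.k b')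
  have sE : c.E.L.Ab q {e' | ∀ b', e'.en b' ∈ Δ} (z ≫ kk c !b) := by
    have a : c.E.L.Ab q ({e} ∪ {e' | e'.en b ∈ (Δ : Set V)}) (z ≫ kk c !b) := by
      have k1 := k.mono (W' := {e} ∪ {e' | e'.en b ∈ (Δ : Set V)}) Set.subset_union_left
      have k2 := (th_ab c zΔ b).mono (W' := {e} ∪ {e' | e'.en b ∈ (Δ : Set V)})
        Set.subset_union_right
      rw [thK_eq, Preadditive.comp_sub] at k1
      cases b
      · simpa using k1.add k2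
      · simpa using k2.sub k1
    refine ((th_ab c zΔ !b).inter a).mono ?_
    rintro e' ⟨l, rfl | l'⟩
    · exact ((Ed.sd_compl b e').le (Ed.en_mem (!b) e') (s2 l)).elim
    · intro b'
      cases b <;> cases b' <;> assumption
  obtain ⟨g₀, hg₀⟩ := sx.surE c.E (thF (z ≫ kk c !b) (by rw [Category.assoc, kp])) sE
  have hg₀ : η₀ ≫ kk c₀ true ≫ g₀.1 = z ≫ kk c !b := by
    have := congrArg (·.1) hg₀
    simp only [LQ.comp_f, md_t] at this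
    exact e₀ ▸ this
  obtain ⟨π, π', p0, p1, p2⟩ : ∃ (π : ∀ b', c₀.V ⟶ ((S.md q o).s b').obj (S.pt q X e))
      (π' : Bool → (c₀.V.A ⟶ X)), (∀ b', (π b').1 = π' b') ∧ η₀ ≫ (π' true - π' false) = 𝟙 X ∧
        π' (!b) = 0 := by
    obtain ⟨π₁, e₁⟩ : ∃ π₁ : c₀.V.A ⟶ X, π₀.1 = π₁ := ⟨_, rfl⟩
    have h₁ : η₀ ≫ π₁ = 𝟙 X := e₁ ▸ hπ
    cases b
    · exact ⟨fun | true => 0 | false => -π₀, fun | true => 0 | false => -π₁,
        fun | true => rfl | false => e₁ ▸ rfl, by simpa using h₁, rfl⟩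
    · exact ⟨fun | true => π₀ | false => 0, fun | true => π₁ | false => 0,
        fun | true => e₁ | false => rfl, by simpa using h₁, rfl⟩
  obtain ⟨a, φ, i, ⟨t, ht⟩, t', ht'⟩ := MV.th_att c₀ c π η sx.spl (LQ.hom_ext (by
    refine Eq.trans ?_ p1
    rw [e₀, ← p0, ← p0]
    exact congrArg (η.1 ≫ ·) (congrArg₂ (· - ·) (md_t true (π true)) (md_t false (π false)))))
    f g₀ g₁ fun b' => sub_eq_zero.1 (sx.injV _ _ (LQ.hom_ext (by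
      have := th_alg b b' hf ηκ hg₀ (hg₁.trans (congrArg (z ≫ ·) (thK_eq c))) p1 p2
      rw [e₀, ← p0] at this
      exact this)))
  refine ⟨a, φ, i, fun w y y₀ e₁ l => ?_, fun y l => ⟨t', ht'.trans (LQ.hom_ext (hg₁.trans l.symm))⟩⟩
  obtain ⟨η₁, n1, n2, n3⟩ := LQ.part c₀.V {w} η₀ ηp
  obtain ⟨y', hy⟩ := pt_hom η₁ n1 n2
  refine ⟨y' ≫ t, ?_⟩
  rw [Category.assoc, ht, ← sub_eq_zero]
  refine LQ.hom_ext ((pt_ab _).eq_zero (W' := {w}ᶜ) ?_ fun _ r r' => r' r)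
  have := l.sub (LQ.ab_comp n3 f)
  rw [Preadditive.sub_comp, hf, sub_sub_sub_cancel_left] at this
  rw [LQ.sub_f, LQ.comp_f, hy, e₁]
  exact this

theorem th_E (e : Ed o) (b : Bool) (z : X ⟶ c.V.A) (hz : z ≫ c.V.p = z)
    (h : c.V.L.Ab q (e.sd b) z) (y : S.pt q X e ⟶ c.E) (k : y.1 = z ≫ thK c) : MV.ThE c y := by
  obtain ⟨a, f, i, -, l⟩ := dang c e b z hz h (show c.E.L.Ab q {e} (z ≫ thK c) from k ▸ pt_ab y)
  obtain ⟨y', l⟩ := l y k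
  exact ⟨a, f, y', i, l⟩

theorem cov_E (e : Ed o) (y : S.pt q X e ⟶ c.E) : ∃ (a : MV (S.md q o)) (f : a ⟶ c)
    (y' : S.pt q X e ⟶ a.E), IsIso a.κ ∧ y' ≫ MV.hE f = y := by
  obtain ⟨σ, s1, s2⟩ := th_sec c
  obtain ⟨y₀, e₀⟩ : ∃ y₀ : X ⟶ c.E.A, y₀ = y.1 := ⟨_, rfl⟩
  have yp : y₀ ≫ c.E.p = y₀ := e₀ ▸ LQ.comp_p y
  have zκ : (y₀ ≫ σ) ≫ thK c = y₀ := by rw [Category.assoc, s2, yp]
  have zp : (y₀ ≫ σ) ≫ c.V.p = y₀ ≫ σ := by rw [Category.assoc, s1]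
  obtain ⟨z₁, h1, h2, h3, h4⟩ := th_cut c e true (y₀ ≫ σ) zp (by rw [zκ, e₀]; exact pt_ab y)
  obtain ⟨y₁, hy⟩ := pt_hom (z₁ ≫ thK c) (by rw [Category.assoc, thK_p]) h4
  have := (th_E c e true z₁ h1 h2 y₁ hy).add (th_E c e (!true) (y₀ ≫ σ - z₁)
    (by rw [Preadditive.sub_comp, zp, h1]) (Ed.sd_compl true e ▸ h3) (y - y₁)
    (by rw [Preadditive.sub_comp, zκ, LQ.sub_f, hy, e₀]; rfl))
  rwa [add_sub_cancel] at this

/-- The component at `v` lifts. -/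
def ThL (v : V) (z : X ⟶ c.V.A) : Prop := ∀ (y : S.pt q X v ⟶ c.V) (y₀ : X ⟶ c.V.A), y.1 = y₀ →
  c.V.L.Ab q {v}ᶜ (z - y₀) → MV.ThV c y

theorem th_one {v : V} (e : Ed o) (b : Bool) (hv : e.en b = v) (z : X ⟶ c.V.A)
    (hz : z ≫ c.V.p = z) (k : c.E.L.Ab q {e} (z ≫ thK c)) : ThL c v z := fun y y₀ e₁ l => by
  obtain ⟨z₁, h1, h2, h3, h4⟩ := th_cut c e b z hz k
  obtain ⟨a, f, i, m, -⟩ := dang c e b z₁ h1 h2 h4
  have := l.sub (h3.mono fun x r (r' : x = v) => r (r' ▸ hv ▸ Ed.en_mem b e))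
  rw [sub_sub_sub_cancel_left] at this
  obtain ⟨y', m⟩ := m v y y₀ e₁ this
  exact ⟨a, f, y', i, m⟩

omit [HasZeroObject C] in
theorem th_add {v : V} {z z₁ : X ⟶ c.V.A} (h : z₁ ≫ c.V.p = z₁) (k₁ : ThL c v z₁)
    (k₂ : ThL c v (z - z₁)) : ThL c v z := fun y y₀ e₁ l => by
  obtain ⟨x, n1, n2, n3⟩ := LQ.part c.V {v} z₁ h
  obtain ⟨y₁, hy⟩ := pt_hom x n1 n2
  have := (k₁ y₁ x hy n3).add (k₂ (y - y₁) (y₀ - x) (by rw [LQ.sub_f, hy, e₁]; rfl) (by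
    convert l.sub n3 using 1
    abel))
  rwa [add_sub_cancel] at this

theorem cov_V (v : V) (e₀ : Ed o) (b₀ : Bool) (hv : e₀.en b₀ = v) (y : S.pt q X v ⟶ c.V) :
    ∃ (a : MV (S.md q o)) (f : a ⟶ c) (y' : S.pt q X v ⟶ a.V), IsIso a.κ ∧ y' ≫ MV.hV f = y := by
  classical
  obtain ⟨σ, s1, s2⟩ := th_sec c
  have key : ∀ Φ : Finset (Ed o), (∀ e ∈ Φ, ∃ b, e.en b = v) → ∀ z : X ⟶ c.V.A, z ≫ c.V.p = z →
      c.E.L.Ab q Φ (z ≫ thK c) → ThL c v z := fun Φ => by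
    induction Φ using Finset.induction_on with
    | empty => exact fun _ z hz k => th_one c e₀ b₀ hv z hz (k.mono (by simp))
    | insert e Φ _ ih =>
      intro m z hz k
      obtain ⟨b, hb⟩ := m e (Finset.mem_insert_self _ _)
      obtain ⟨ε, n1, n2, n3⟩ := LQ.part c.E {e} (z ≫ thK c) (by rw [Category.assoc, thK_p])
      have zκ : (ε ≫ σ) ≫ thK c = ε := by rw [Category.assoc, s2, n1]
      have zp : (ε ≫ σ) ≫ c.V.p = ε ≫ σ := by rw [Category.assoc, s1]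
      refine th_add c zp (th_one c e b hb _ zp (zκ.symm ▸ n2))
        (ih (fun x r => m x (Finset.mem_insert_of_mem r)) _
          (by rw [Preadditive.sub_comp, zp, hz]) ?_)
      rw [Preadditive.sub_comp, zκ]
      exact (n3.inter (k.sub (n2.mono (by simp)))).mono fun x r =>
        (Finset.mem_insert.1 r.2).resolve_left r.1
  obtain ⟨y₀, e₁⟩ : ∃ y₀ : X ⟶ c.V.A, y.1 = y₀ := ⟨_, rfl⟩
  obtain ⟨F, hF⟩ := Lo.Ab.fin (q := q) c.E.L (y₀ ≫ thK c)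
  have yv : c.V.L.Ab q {v} y₀ := e₁ ▸ pt_ab y
  exact key (F.filter fun e => ∃ b, e.en b = v) (fun _ r => (Finset.mem_filter.1 r).2) y₀
    (e₁ ▸ LQ.comp_p y) ((hF.inter (th_abK c yv)).mono fun _ r => Finset.mem_filter.2 r) y y₀ e₁
    (by rw [sub_self]; exact .zero)

end GC

end Pool.Agent.Lib.MP_5d3e93_al
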