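import Pool.Agent.Lib.MP_5d3e93_al.K.MVb

/-! Presentations of zero and their twists. -/

open CategoryTheory Limits Pretriangulated ZeroObject MulAction

namespace Pool.Agent.Lib.MP_5d3e93_al

universe w v u y v' u' v'' u''

namespace K

open Gr Am

variable {𝒱 ℰ : Type (max u v)} {𝒜 : Type (max u' v)} [Category.{v} 𝒱] [Category.{v} ℰ]
  [Category.{v} 𝒜] [Preadditive 𝒱] [Preadditive ℰ] [Preadditive 𝒜] [HasZeroObject 𝒱]
  [HasZeroObject ℰ] [HasZeroObject 𝒜] [HasBinaryBiproducts 𝒱] [HasBinaryBiproducts ℰ]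
  [HasBinaryBiproducts 𝒜] (D : MD.{v, u, u'} 𝒱 ℰ 𝒜)

namespace MV

variable [IsIdempotentComplete 𝒜]

/-- Presentations of zero. -/
abbrev W := (Kz (h D)).FullSubcategory
/-- Their ambient category. -/
noncomputable abbrev ambW : Am.{v, u} := exU.{v, u} ((Kz (h D)).ι ⋙ U D)
/-- The edge object. -/
noncomputable def EW : W D ⥤ ℰ := (Kz (h D)).ι ⋙ U D ⋙ CategoryTheory.Prod.snd _ _
instance EW_add : (EW D).Additive :=
  inferInstanceAs ((Kz (h D)).ι ⋙ U D ⋙ CategoryTheory.Prod.snd _ _).Additive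
/-- The edge object as a source. -/
noncomputable def FW : Fn (ambW D) ℰ := @Fn.mk' (ambW D) ℰ _ _ _ _ (EW D) (EW_add D) fun _ k =>
  ((CategoryTheory.Prod.snd 𝒱 ℰ).mapHomotopyCategory _).map_isZero k.2
/-- Natural splittings of the edge object. -/
structure Idm where
  p : Bool → (EW D ⟶ EW D)
  sum : p true + p false = 𝟙 _
  idem : ∀ b, p b ≫ p b = p b
  mu : ∀ c : W D, ∃ μ : ∀ b, (D.s b).obj c.obj.E ⟶ c.obj.V,
    (∀ b b', μ b ≫ c.obj.k b' ≫ (D.s b').map ((p b').app c) =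
      (D.s b).map ((p b).app c) ≫ dl D c.obj.E b b') ∧
    c.obj.k true ≫ (D.s true).map ((p true).app c) ≫ μ true +
      c.obj.k false ≫ (D.s false).map ((p false).app c) ≫ μ false = 𝟙 _
  t : (FW D).post D.j ⟶ (FW D).post D.j
  ht : ∀ c : W D, D.κ (fun b => c.obj.k b ≫ (D.s b).map ((p b).app c)) ≫ NatTrans.app t c = c.obj.κ
  tr : Fn.Tr.{v, u, v, u'} t
variable {D} [IsIdempotentComplete 𝒱] [IsIdempotentComplete ℰ]
theorem Idm.mvd_iso (x : Idm D) (c : W D) :
    IsIso (D.κ fun b => c.obj.k b ≫ (D.s b).map ((x.p b).app c)) := by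
  have i₁ : IsIso c.obj.κ := (isZero_iff D c.obj).1 c.property
  have i₃ : IsIso (NatTrans.app x.t c) := @NatIso.isIso_app_of_isIso _ _ _ _ _ _ x.t x.tr.1 c
  exact @IsIso.of_isIso_fac_right _ _ _ _ _ _ _ _ i₃ i₁ (x.ht c)
/-- The twisted presentation. -/
noncomputable def Idm.tw (x : Idm D) : W D ⥤ MV D where
  obj c := ⟨c.obj.V, c.obj.E, fun b => c.obj.k b ≫ (D.s b).map ((x.p b).app c),
    ⟨@inv _ _ _ _ _ (x.mvd_iso c), @IsIso.inv_hom_id _ _ _ _ _ (x.mvd_iso c)⟩⟩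
  map {c c'} f := homMk (hV (c := c.obj) (c' := c'.obj) f.hom) (hE (c := c.obj) (c' := c'.obj) f.hom)
    fun b => by
      have := congrArg (D.s b).map ((x.p b).naturality f)
      rw [Functor.map_comp, Functor.map_comp] at this
      rw [comm_assoc, Category.assoc]
      exact congrArg (c.obj.k b ≫ ·) this
  map_id _ := rfl
  map_comp _ _ := rfl
instance Idm.tw_add (x : Idm D) : x.tw.Additive := ⟨rfl⟩
theorem Idm.tw_iso (x : Idm D) (c : W D) : IsIso (x.tw.obj c).κ := x.mvd_iso c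
/-- The twisted presentation as a map (`tw ⋙ U = ι ⋙ U` by `rfl`). -/
noncomputable def Idm.twM (x : Idm D) : Map (ambW D) (amb D) :=
  @Map.mk (ambW D) (amb D) x.tw x.tw_add (exMap.{v, u, v, u} (U D) x.tw).hT
variable (D) in
/-- The base as a map. -/
noncomputable def UW : Map (ambW D) (Am.of.{v, u} (𝒱 × ℰ)) :=
  exTo.{v, u, u} ((Kz (h D)).ι ⋙ U D) ((Kz (h D)).ι ⋙ U D) fun _ k => k.2
/-- The differentials of the two coresolutions. -/
noncomputable def Idm.d (x : Idm D) : Bool → (((UW D).comp (RM D)).F ⟶ ((UW D).comp (R₀M D)).F)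
  | true => Functor.whiskerLeft x.tw (dd D)
  | false => Functor.whiskerLeft (Kz (h D)).ι (dd D)

end MV

end K

end Pool.Agent.Lib.MP_5d3e93_al
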