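import Pool.Agent.Lib.MP_5d3e93_al.K.TD
import Pool.Agent.Lib.MP_5d3e93_al.K.Col
import Pool.Agent.Lib.MP_5d3e93_al.K.Tr

/-! No uniform order of nilpotence is needed. -/

open CategoryTheory Limits Pretriangulated ZeroObject MulAction

namespace Pool.Agent.Lib.MP_5d3e93_al

universe w v u y v' u' v'' u''

open Gr K

section TU

variable {A : Type u} [Category.{v} A] [Preadditive A] {B : Type u'} [Category.{v'} B]
  [Preadditive B] {Φ : A ⥤ B}

theorem tu_app (x : Φ ⟶ Φ) (c : A) (m : ℕ) : (pw x m).app c = pw (x.app c) m := by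
  induction m with
  | zero => rfl
  | succ m ih => rw [pw_succ, pw_succ, NatTrans.comp_app, ih]

omit [Preadditive A] in
theorem tu_fn {X : Am.{v'', u''}} {F : Fn X B} (x : F ⟶ F) (c : X.A) (m : ℕ) :
    NatTrans.app (pw x m) c = pw (NatTrans.app x c) m := by
  induction m with
  | zero => rfl
  | succ m ih => rw [pw_succ, pw_succ, ← ih]; rfl

/-- The full subcategory on the objects where `x` is nilpotent of order `m`. -/
def tuSu [HasZeroObject A] [HasBinaryBiproducts A] [Φ.Additive] (x : Φ ⟶ Φ) (m : ℕ) : Su A where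
  ob c := pw (x.app c) m = 0
  mor _ _ := ⊤
  id _ _ := trivial
  comp _ _ := trivial
  zero := ⟨0, isZero_zero A, (Φ.map_isZero (isZero_zero A)).eq_of_src _ _⟩
  sum X Y hX hY := by
    refine ⟨BinaryBiproduct.bicone X Y, ?_, trivial, trivial, trivial, trivial, biprod.total⟩
    rw [← tu_app] at hX hY ⊢
    have e := congrArg (fun k => Φ.map k ≫ (pw x m).app (X ⊞ Y)) (biprod.total (X := X) (Y := Y))
    simp only [Functor.map_add, Functor.map_comp, Preadditive.add_comp, Category.assoc,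
      NatTrans.naturality, hX, hY, zero_comp, comp_zero, add_zero, CategoryTheory.Functor.map_id,
      Category.id_comp] at e
    exact e.symm

theorem tuSu_le [HasZeroObject A] [HasBinaryBiproducts A] [Φ.Additive] (x : Φ ⟶ Φ) {i j : ℕ}
    (h : i ≤ j) : (tuSu x i).le (tuSu x j) := by
  obtain ⟨k, rfl⟩ := Nat.exists_eq_add_of_le h
  refine ⟨fun c (l : pw (x.app c) i = 0) => ?_, fun _ _ => le_rfl⟩
  change pw (x.app c) (i + k) = 0
  rw [pw_add, l, zero_comp]

theorem tu_gen [HasZeroObject A] [HasBinaryBiproducts A] (K : CochainComplex A ℤ)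
    (h : {n | ¬ IsZero (K.X n)}.Finite) : genK ⊤ ((HomotopyCategory.quotient _ _).obj K) := by
  obtain ⟨p, hp⟩ := h.bddBelow
  obtain ⟨q, hq⟩ := h.bddAbove
  refine Sb.genK ⟨fun _ => trivial, p, q, fun n l => ?_⟩
  by_contra c
  have a := hp c
  have b := hq c
  omega

end TU

namespace GC

variable {G : Type w} [Group G] {C : Type u} [Category.{v} C] [Preadditive C] {S : GC G C}

variable [HasZeroObject C]

theorem GQ.tr_exU {Y : Type w} {P : Rl G Y} {B : Y → G → Y → Prop} (h : S.GQ P B)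
    {A : Type (max (max u w) v)} [Category.{v} A] [Preadditive A] [HasZeroObject A]
    [HasBinaryBiproducts A] {A₀ : Type u''} [Category.{v''} A₀] [Preadditive A₀] [HasZeroObject A₀]
    [HasBinaryBiproducts A₀] (U : A ⥤ A₀) [U.Additive] (F : Fn (Am.exU.{v, max u w} U) (S.LQ P))
    (x : S.und F ⟶ S.und F) (ty : S.Ty F B x) (nil : ∀ c, ∃ m, pw (NatTrans.app x c) m = 0) :
    Fn.Tr.{v, max u w, v, u} (𝟙 _ - x) := by
  let a := Am.exU.{v, max u w} U
  let s : ℕ → Su a.A := fun m => tuSu (Φ := (S.und F).F) x m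
  have ad : ∀ m, (s m).ι.Additive := fun m => inferInstance
  have ad' : ∀ m, ((s m).ι ⋙ U).Additive := fun m =>
    ⟨(congrArg U.map (ad m).map_add).trans U.map_add⟩
  let T : ∀ m, ObjectProperty (Kh (s m).Cat) := fun m => (Am.exU.{v, max u w} ((s m).ι ⋙ U)).T
  have tg : ∀ m, Tg (T m) := fun m => (Am.exU.{v, max u w} ((s m).ι ⋙ U)).tg
  have hs : ∀ {i j}, i ≤ j → (s i).le (s j) := fun l => tuSu_le _ l
  have h1 : ∀ i K, T i K → a.T (((s i).ι.mapHomotopyCategory _).obj K) := fun i K k =>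
    ⟨cs_genK (s i).ι k.1, k.2⟩
  have i0 : ∀ c, IsIso (NatTrans.app (𝟙 (S.und F).F - (x : (S.und F).F ⟶ (S.und F).F)) c) :=
    fun c => (nil c).elim fun _ l => Fn.isIso_unip l
  have i1 : IsIso (𝟙 (S.und F) - x) := ⟨(NatIso.isIso_of_isIso_app _).out⟩
  refine Fn.tr_of_surj (fun m => a.sub (s m) (T m)) (fun m => a.subι (s m) (T m) (h1 m))
    (Am.sb_surj a (fun _ k => k.1) s hs T (fun _ _ k => k.1) h1
      (fun i j l K k => ⟨cs_genK _ k.1, k.2⟩)
      (fun i K l k => ⟨i, le_rfl, cs_genK _ (tu_gen K l), k.2⟩) nil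
      (fun _ _ _ => ⟨0, trivial⟩)) _ fun m => ?_
  exact h m (a.sub (s m) (T m)) (fun _ k => k.1) (F.pre (a.subι (s m) (T m) (h1 m)))
    (Functor.whiskerLeft (s m).ι x) (fun c => ty c.X)
    (NatTrans.ext (funext fun c => (tu_fn _ c m).trans c.ob))

end GC

end Pool.Agent.Lib.MP_5d3e93_al
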