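import Pool.Agent.Lib.MP_5d3e93_al.K.TQ
import Pool.Agent.Lib.MP_5d3e93_al.K.TU
import Pool.Agent.Lib.MP_5d3e93_al.K.MVd

/-! The Nil term of a tree. -/

open CategoryTheory Limits ZeroObject

namespace Pool.Agent.Lib.MP_5d3e93_al

open Gr K

universe w v u

set_option backward.isDefEq.respectTransparency false

namespace GC

open Lo

variable {G : Type w} [Group G] {C : Type u} [Category.{v} C] [Preadditive C] {S : GC G C}
variable {Γ : Type w} [Group Γ] {q : G →* Γ}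

theorem tn_blk {X X' : Type*} {A B A' B' : C} {L : S.Lo X A} {M : S.Lo X B} {L' : S.Lo X' A'}
    {M' : S.Lo X' B'} {R : X → G → X' → Prop} {a : A ⟶ A'} {b : A ⟶ B'} {c : B ⟶ A'} {d : B ⟶ B'}
    (ha : L.Rg L' R a) (hb : L.Rg M' R b) (hc : M.Rg L' R c) (hd : M.Rg M' R d) :
    (L.add M).Rg (L'.add M') R (S.blk a b c d) :=
  (((rg_fst.dg_comp (ha.comp_dg rg_inl)).add (rg_fst.dg_comp (hb.comp_dg rg_inr))).add
    (rg_snd.dg_comp (hc.comp_dg rg_inl))).add (rg_snd.dg_comp (hd.comp_dg rg_inr))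

theorem tn_pw {Y : Type*} {P : Rl G Y} {M : S.LQ P} (x : M ⟶ M) (m : ℕ) :
    (pw x (m + 1)).1 = pw x.1 (m + 1) := by
  induction m with
  | zero => exact (LQ.comp_p x).trans (Category.comp_id _).symm
  | succ m ih => exact congrArg (x.1 ≫ ·) ih

theorem tn_zero {A B : Type*} [Category* A] [Preadditive A] [Category* B] [Preadditive B]
    {Φ : A ⥤ B} [Φ.Additive] {Ψ : Bool → A ⥤ B} [∀ b, (Ψ b).Additive] (a : ∀ b, Φ ⟶ Ψ b)
    (r : ∀ b, Ψ b ⟶ Φ) (e : a true ≫ r true + a false ≫ r false = 𝟙 _) (K : Kh A)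
    (h : ∀ b, IsZero (((Ψ b).mapHomotopyCategory _).obj K)) :
    IsZero ((Φ.mapHomotopyCategory _).obj K) := by
  obtain ⟨K⟩ := K
  have e' : 𝟙 ((Φ.mapHomologicalComplex _).obj K) =
      (NatTrans.mapHomologicalComplex (a true) _).app K ≫
        (NatTrans.mapHomologicalComplex (r true) _).app K +
      (NatTrans.mapHomologicalComplex (a false) _).app K ≫
        (NatTrans.mapHomologicalComplex (r false) _).app K :=
    HomologicalComplex.hom_ext _ _ fun n => (NatTrans.congr_app e (K.X n)).symm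
  have := congrArg (HomotopyCategory.quotient _ _).map e'
  rw [Functor.map_add, Functor.map_comp, Functor.map_comp, CategoryTheory.Functor.map_id] at this
  refine (IsZero.iff_id_eq_zero _).2 (this.trans ((congrArg₂ (· + ·) ?_ ?_).trans (add_zero 0)))
  · exact (congrArg (· ≫ _) (IsZero.eq_of_tgt (h true) _ 0)).trans zero_comp
  · exact (congrArg (· ≫ _) (IsZero.eq_of_tgt (h false) _ 0)).trans zero_comp

variable {V : Type w} [MulAction Γ V] {T : SimpleGraph V} {o : Ot Γ T}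
variable {c c' : MV (S.md q o)} {l : c.E.A ⟶ c.V.A} {p : Bool → (c.E ⟶ c.E)}

theorem tn_map {R : Dt T o.ha → Dt T o.ha → Prop} {b b' : Bool} {m : c.E.A ⟶ c.E.A}
    (h : ∀ e, c.E.L.Ab q {e' | R (Ed.dt b e) (Ed.dt b' e')} (c.E.L.e e ≫ m)) :
    (c.E.L.map (Ed.dt b)).Rg (c.E.L.map (Ed.dt b')) (fun a g d => R a (q g • d)) m :=
  ((rg_iff_ab (R := fun e e' => R (Ed.dt b e) (Ed.dt b' e'))).2 h).map c.E.L.on_true c.E.L.on_true
    fun _ _ _ _ _ k => by rwa [Ed.dt_smul] at k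

variable [HasZeroObject C]

/-- The edge object located on oriented edges. -/
noncomputable def dob (p : Bool → (c.E ⟶ c.E)) (hi : ∀ b, p b ≫ p b = p b) :
    S.LQ (Rl.eq q (Dt T o.ha)) :=
  ⟨S.sum c.E.A c.E.A, (c.E.L.map (Ed.dt true)).add (c.E.L.map (Ed.dt false)),
    S.blk (p true).1 0 0 (p false).1, by
      simp [show ∀ b, (p b).1 ≫ (p b).1 = (p b).1 from fun b => congrArg (·.1) (hi b)],
    tn_blk ((S.ps q _ (Ed.dt_smul true)).obj (LQ.img _ (hi true))).rg .zero .zero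
      ((S.ps q _ (Ed.dt_smul false)).obj (LQ.img _ (hi false))).rg⟩

/-- The twisted boundary map. -/
noncomputable abbrev κ₀ (c : MV (S.md q o)) (p : Bool → (c.E ⟶ c.E)) :
    (S.md q o).i.obj c.V ⟶ (S.md q o).j.obj c.E :=
  (S.md q o).κ fun b => c.k b ≫ ((S.md q o).s b).map (p b)

omit [HasZeroObject C] in
theorem κ₀_f : (κ₀ c p).1 = kk c true ≫ (p true).1 - kk c false ≫ (p false).1 :=
  congrArg₂ (· - ·) (md_t true _) (md_t false _)

variable (h : Pc c l p)
include h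

theorem Pc.r1 (b : Bool) : (p b).1 ≫ (p b).1 = (p b).1 := congrArg (·.1) (h.idem b)

theorem Pc.r2 : (p true).1 ≫ (p false).1 = 0 := congrArg (·.1) (h.orth true)

theorem Pc.r3 : (p false).1 ≫ (p true).1 = 0 := congrArg (·.1) (h.orth false)

omit [HasZeroObject C] in
theorem Pc.r4 : (p true).1 + (p false).1 = c.E.p := congrArg (·.1) h.sum

/-- The comparison with the underlying object. -/
noncomputable def Pc.iso : (LQ.U S _).obj (dob p h.idem) ≅ (S.md q o).j.obj c.E where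
  hom := LQ.homMk (S.fst _ _ ≫ (p true).1 + S.snd _ _ ≫ (p false).1)
    (by
      change S.blk (p true).1 0 0 (p false).1 ≫ _ = _
      simp [h.r1])
    (by
      change _ ≫ c.E.p = _
      simp) fun _ _ _ k => (k trivial).elim
  inv := LQ.homMk ((p true).1 ≫ S.inl _ _ + (p false).1 ≫ S.inr _ _)
    (by
      change c.E.p ≫ _ = _
      simp)
    (by
      change _ ≫ S.blk (p true).1 0 0 (p false).1 = _
      simp [reassoc_of% h.r1]) fun _ _ _ k => (k trivial).elim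
  hom_inv_id := LQ.hom_ext (by
    change (_ + _) ≫ (_ + _) = S.blk (p true).1 0 0 (p false).1
    simp [reassoc_of% h.r1, reassoc_of% h.r2, reassoc_of% h.r3, blk])
  inv_hom_id := LQ.hom_ext (by
    change (_ + _) ≫ (_ + _) = c.E.p
    simp [h.r1, h.r4])

theorem Pc.conj (m : (S.md q o).j.obj c.E ⟶ (S.md q o).j.obj c.E) (m₀ : c.E.A ⟶ c.E.A)
    (e : m.1 = m₀) : (h.iso.hom ≫ m ≫ h.iso.inv).1 = S.blk ((p true).1 ≫ m₀ ≫ (p true).1)
      ((p true).1 ≫ m₀ ≫ (p false).1) ((p false).1 ≫ m₀ ≫ (p true).1)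
      ((p false).1 ≫ m₀ ≫ (p false).1) := by
  subst e
  change (_ + _) ≫ _ ≫ (_ + _) = _
  simp [blk, add_assoc, add_left_comm]

theorem Pc.obj [IsIso c.κ] : ∃ μ : ∀ b, ((S.md q o).s b).obj c.E ⟶ c.V,
    (∀ b b', μ b ≫ c.k b' ≫ ((S.md q o).s b').map (p b') =
      ((S.md q o).s b).map (p b) ≫ MV.dl _ c.E b b') ∧
    c.k true ≫ ((S.md q o).s true).map (p true) ≫ μ true +
      c.k false ≫ ((S.md q o).s false).map (p false) ≫ μ false = 𝟙 _ ∧
    ∃ _ : IsIso (κ₀ c p), (dob p h.idem).L.Rg (dob p h.idem).L (fun a g d => Dt.st a (q g • d))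
      (h.iso.hom ≫ (𝟙 _ - inv (κ₀ c p) ≫ c.κ) ≫ h.iso.inv).1 ∧
      ∃ m, pw (h.iso.hom ≫ (𝟙 _ - inv (κ₀ c p) ≫ c.κ) ≫ h.iso.inv) m = 0 := by
  obtain ⟨μ, m1, m2, m3⟩ := h.mu
  obtain ⟨ν, hν⟩ : ∃ ν : Bool → (c.E.A ⟶ c.V.A), ∀ b, ν b = (μ b).1 := ⟨_, fun _ => rfl⟩
  have n1 : ∀ b, ν b ≫ kk c b ≫ (p b).1 = (p b).1 := fun b => by
    rw [hν]
    cases b
    exacts [(congrArg Subtype.val (m1 false false)).trans (LQ.comp_p (p false)),
      (congrArg Subtype.val (m1 true true)).trans (LQ.comp_p (p true))]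
  have n2 : ∀ b, ν b ≫ kk c (!b) ≫ (p (!b)).1 = 0 := fun b => by
    rw [hν]
    cases b
    exacts [(congrArg Subtype.val (m1 false true)).trans comp_zero,
      (congrArg Subtype.val (m1 true false)).trans comp_zero]
  have n3 : ∀ b, (p b).1 ≫ ν b = ν b := fun b => by rw [hν]; exact m2 b
  have n4 : ∀ b, (p (!b)).1 ≫ ν b = 0 := fun b => by
    rw [← n3]
    cases b
    exacts [by rw [Bool.not_false, reassoc_of% h.r2, zero_comp],
      by rw [Bool.not_true, reassoc_of% h.r3, zero_comp]]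
  have n5 : ∀ b, ν b ≫ c.V.p = ν b := fun b => by rw [hν]; exact LQ.comp_p (μ b)
  have n2t := n2 true
  have n2f := n2 false
  have n4t := n4 true
  have n4f := n4 false
  simp only [Bool.not_true, Bool.not_false] at n2t n2f n4t n4f
  let ψ : (S.md q o).j.obj c.E ⟶ (S.md q o).i.obj c.V := LQ.homMk (ν true - ν false)
    (by
      change c.E.p ≫ _ = _
      rw [← h.r4]
      simp [n3, n4t, n4f, sub_eq_add_neg])
    (by
      change _ ≫ c.V.p = _
      simp [n5]) fun _ _ _ k => (k trivial).elim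
  let l' : (S.md q o).j.obj c.E ⟶ (S.md q o).i.obj c.V := inv c.κ
  have hl : l'.1 = l := by
    have a : c.κ.1 ≫ l'.1 = c.V.p := congrArg (·.1) (IsIso.hom_inv_id c.κ)
    have b : c.E.p ≫ l'.1 = l'.1 := LQ.p_comp l'
    rw [← b, ← h.lκ, Category.assoc, a, h.lp]
  have e1 : ψ ≫ κ₀ c p = 𝟙 _ := LQ.hom_ext (by
    change (ν true - ν false) ≫ (κ₀ c p).1 = c.E.p
    rw [κ₀_f, ← h.r4]
    simp [n1, n2t, n2f])
  have hx : (dob p h.idem).L.Rg (dob p h.idem).L (fun a g d => Dt.st a (q g • d))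
      (h.iso.hom ≫ (𝟙 _ - ψ ≫ c.κ) ≫ h.iso.inv).1 := by
    have k : ∀ b b' e, c.E.L.Ab q {e' | Dt.st (Ed.dt b e) (Ed.dt b' e')}
        (c.E.L.e e ≫ ν b ≫ kk c (!b') ≫ (p b').1) := fun b b' e => by
      have k1 : c.V.L.Ab q {e.en b} (c.E.L.e e ≫ ν b) := by
        have := (((rg_iff_ab (R := (· = ·))).1 (LQ.hom_rg (μ b))) (e.en b)).pre1
          (c.E.L.spl e).deg
        have z := (c.E.L.map_mul (Ed.en b) (e.en b) e).2
        rw [if_pos rfl] at z
        rw [hν, ← z, Category.assoc]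
        exact this.mono fun _ k => k.symm
      have k2 := LQ.ab_comp (ab_κ c k1 (!b')) (p b')
      simp only [Category.assoc] at k2
      by_cases k3 : b' = !b
      · subst k3
        have k4 := m3 b e
        rw [← hν] at k4
        rw [Bool.not_not] at k2 ⊢
        refine (k2.inter k4).mono fun e' a => ⟨by simpa [Ed.dt] using a.1, fun z => a.2 ?_⟩
        exact (Ed.dt_inj (b := !b) (b' := !b) (Dt.ext (by simpa [Ed.dt] using a.1) z)).2
      · refine k2.mono fun e' a => ⟨a, fun z => k3 ?_⟩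
        exact (Ed.dt_inj (e := e') (e' := e) (Dt.ext (by simpa [Ed.dt] using a) z)).1
    rw [h.conj _ (c.E.p - (ν true - ν false) ≫ (kk c true - kk c false)) (by rw [← md_κ]; rfl)]
    refine tn_blk (tn_map fun e => ?_) (tn_map fun e => ?_) (tn_map fun e => ?_)
      (tn_map fun e => ?_)
    · simpa [Preadditive.comp_sub, Preadditive.sub_comp, reassoc_of% n3, reassoc_of% n4f, n1, h.r1]
        using k true true e
    · simpa [Preadditive.comp_sub, Preadditive.sub_comp, reassoc_of% n3, reassoc_of% n4f, n2t, h.r2]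
        using (k true false e).neg
    · simpa [Preadditive.comp_sub, Preadditive.sub_comp, reassoc_of% n3, reassoc_of% n4t, n2f, h.r3]
        using (k false true e).neg
    · simpa [Preadditive.comp_sub, Preadditive.sub_comp, reassoc_of% n3, reassoc_of% n4t, n1, h.r1]
        using k false false e
  have hy : (dob p h.idem).L.Rg (dob p h.idem).L (fun a g d => ∃ n, Pth Dt.st n a (q g • d))
      (h.iso.hom ≫ (l' ≫ κ₀ c p) ≫ h.iso.inv).1 := by
    rw [h.conj _ (l ≫ (kk c true ≫ (p true).1 - kk c false ≫ (p false).1))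
      (by rw [← κ₀_f, ← hl]; rfl)]
    refine tn_blk (tn_map (R := fun a d => ∃ n, Pth Dt.st n a d) fun e => ?_)
      (tn_map (R := fun a d => ∃ n, Pth Dt.st n a d) fun e => ?_)
      (tn_map (R := fun a d => ∃ n, Pth Dt.st n a d) fun e => ?_)
      (tn_map (R := fun a d => ∃ n, Pth Dt.st n a d) fun e => ?_)
    · simpa [Preadditive.comp_sub, Preadditive.sub_comp, h.r1, h.r3] using h.fwd true true e
    · simpa [Preadditive.comp_sub, Preadditive.sub_comp, h.r1, h.r2] using (h.fwd true false e).neg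
    · simpa [Preadditive.comp_sub, Preadditive.sub_comp, h.r1, h.r3] using h.fwd false true e
    · simpa [Preadditive.comp_sub, Preadditive.sub_comp, h.r1, h.r2] using (h.fwd false false e).neg
  obtain ⟨x, hx'⟩ : ∃ x, x = h.iso.hom ≫ (𝟙 _ - ψ ≫ c.κ) ≫ h.iso.inv := ⟨_, rfl⟩
  obtain ⟨y, hy'⟩ : ∃ y, y = h.iso.hom ≫ (l' ≫ κ₀ c p) ≫ h.iso.inv := ⟨_, rfl⟩
  have e2 : (𝟙 _ - x) = h.iso.hom ≫ (ψ ≫ c.κ) ≫ h.iso.inv := by
    simp [hx', Preadditive.comp_sub, Preadditive.sub_comp]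
  have e3 : (𝟙 _ - x) ≫ y = 𝟙 _ := by simp [e2, hy', l', reassoc_of% e1]
  rw [← hx'] at hx
  rw [← hy'] at hy
  obtain ⟨m, hm⟩ := nil_of_inv (fun g _ _ k => ⟨congrArg (g • ·) k.1, fun z => k.2
    (smul_left_cancel g z)⟩) (fun _ _ _ _ => Dt.pth_len o.tree) (dob p h.idem).rg (LQ.p_comp x)
    (LQ.comp_p x) (LQ.p_comp y) hx hy (congrArg (·.1) e3)
  have hm' : pw x (m + 1) = 0 := LQ.hom_ext ((tn_pw x m).trans hm)
  have i1 : IsIso (h.iso.hom ≫ (ψ ≫ c.κ) ≫ h.iso.inv) := e2 ▸ Fn.isIso_unip hm'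
  have i2 : IsIso (ψ ≫ c.κ) := by
    have := IsIso.of_isIso_comp_left h.iso.hom ((ψ ≫ c.κ) ≫ h.iso.inv)
    exact IsIso.of_isIso_comp_right _ h.iso.inv
  have i3 : IsIso ψ := IsIso.of_isIso_comp_right ψ c.κ
  have e4 : κ₀ c p ≫ ψ = 𝟙 _ := by rw [← cancel_epi ψ, reassoc_of% e1, Category.comp_id]
  have i4 : IsIso (κ₀ c p) := ⟨ψ, e4, e1⟩
  have e5 : inv (κ₀ c p) = ψ := IsIso.inv_eq_of_hom_inv_id e4
  refine ⟨μ, m1, LQ.hom_ext ?_, i4, by rw [e5, ← hx']; exact hx, m + 1, by rw [e5, ← hx', hm']⟩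
  have e6 : (κ₀ c p).1 ≫ (ν true - ν false) = c.V.p := congrArg (·.1) e4
  rw [κ₀_f] at e6
  change kk c true ≫ (p true).1 ≫ (μ true).1 + kk c false ≫ (p false).1 ≫ (μ false).1 = c.V.p
  rw [← hν, ← hν, ← e6]
  simp [Preadditive.comp_sub, Preadditive.sub_comp, n4t, n4f]

omit h

open MV in
theorem ex_idm (hN : S.GI q (Dt T o.ha) Dt.st) : Nonempty (MV.Idm (S.md q o)) := by
  have i0 : ∀ c : MV.W (S.md q o), IsIso c.obj.κ := fun c => (isZero_iff _ c.obj).1 c.property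
  choose p hp using fun c : MV.W (S.md q o) => ex_pc c.obj
  choose μ m1 m2 i1 ty nil using fun c : MV.W (S.md q o) => (hp c).obj
  have nat : ∀ {c c' : MV.W (S.md q o)} (f : c ⟶ c') (b : Bool),
      hE f.hom ≫ p c' b = p c b ≫ hE f.hom := fun f b => (hp _).nat (hp _) f.hom b
  have nat' : ∀ {c c' : MV.W (S.md q o)} (f : c ⟶ c') (b : Bool),
      (p c b).1 ≫ (hE f.hom).1 = (hE f.hom).1 ≫ (p c' b).1 := fun f b =>
    congrArg Subtype.val (nat f b).symm
  have nκ : ∀ {c c' : MV.W (S.md q o)} (f : c ⟶ c'), (S.md q o).i.map (hV f.hom) ≫ κ₀ c'.obj (p c') =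
      κ₀ c.obj (p c) ≫ (S.md q o).j.map (hE f.hom) := fun f => by
    simp only [κ₀, MD.κ, Preadditive.comp_sub, Preadditive.sub_comp, ← MD.t_comp, ← MD.t_map,
      comm_assoc, Category.assoc, ← Functor.map_comp, nat]
  let t : (FW (S.md q o)).post (S.md q o).j ⟶ (FW (S.md q o)).post (S.md q o).j :=
    { app c := inv (κ₀ c.obj (p c)) ≫ c.obj.κ
      naturality c c' f := by
        change (S.md q o).j.map (hE f.hom) ≫ _ = _ ≫ (S.md q o).j.map (hE f.hom)
        rw [Category.assoc, ← κ_comm, IsIso.eq_inv_comp, ← reassoc_of% nκ f]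
        simp }
  let F₀ : MV.W (S.md q o) ⥤ S.LQ (Rl.eq q (Dt T o.ha)) :=
    { obj c := dob (p c) (hp c).idem
      map {c c'} f := LQ.homMk
        (S.blk ((hE f.hom).1 ≫ (p c' true).1) 0 0 ((hE f.hom).1 ≫ (p c' false).1))
        (by simp [dob, reassoc_of% nat', (hp c').r1]) (by simp [dob, (hp c').r1])
        (tn_blk (LQ.hom_rg ((S.ps q _ (Ed.dt_smul true)).map (hE f.hom ≫ p c' true))) .zero .zero
          (LQ.hom_rg ((S.ps q _ (Ed.dt_smul false)).map (hE f.hom ≫ p c' false))))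
      map_id c := LQ.hom_ext (by simp [dob])
      map_comp f g := LQ.hom_ext (by simp [reassoc_of% nat', (hp _).r1]) }
  have a0 : F₀.Additive := ⟨fun {c c' f g} => LQ.hom_ext (by
    change S.blk (((hE f.hom).1 + (hE g.hom).1) ≫ _) 0 0 (((hE f.hom).1 + (hE g.hom).1) ≫ _) =
      S.blk _ 0 0 _ + S.blk _ 0 0 _
    rw [S.blk_add, Preadditive.add_comp, Preadditive.add_comp, add_zero])⟩
  let a : ∀ b : Bool, F₀ ⟶ EW (S.md q o) ⋙ S.ps q _ (Ed.dt_smul b)
    | true =>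
      { app c := LQ.homMk (S.fst _ _ ≫ (p c true).1) (by simp [F₀, dob, (hp c).r1])
          ((Category.assoc ..).trans (congrArg _ (LQ.comp_p (p c true))))
          (rg_fst.dg_comp (LQ.hom_rg ((S.ps q _ (Ed.dt_smul true)).map (p c true))))
        naturality c c' f := LQ.hom_ext (by
          change _ = (S.fst _ _ ≫ (p c true).1) ≫ (hE f.hom).1
          simp [F₀, (hp c').r1, nat']) }
    | false =>
      { app c := LQ.homMk (S.snd _ _ ≫ (p c false).1) (by simp [F₀, dob, (hp c).r1])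
          ((Category.assoc ..).trans (congrArg _ (LQ.comp_p (p c false))))
          (rg_snd.dg_comp (LQ.hom_rg ((S.ps q _ (Ed.dt_smul false)).map (p c false))))
        naturality c c' f := LQ.hom_ext (by
          change _ = (S.snd _ _ ≫ (p c false).1) ≫ (hE f.hom).1
          simp [F₀, (hp c').r1, nat']) }
  let r : ∀ b : Bool, EW (S.md q o) ⋙ S.ps q _ (Ed.dt_smul b) ⟶ F₀
    | true =>
      { app c := LQ.homMk ((p c true).1 ≫ S.inl _ _) (LQ.p_comp_assoc (p c true) _)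
          (by simp [F₀, dob, reassoc_of% (hp c).r1])
          ((LQ.hom_rg ((S.ps q _ (Ed.dt_smul true)).map (p c true))).comp_dg rg_inl)
        naturality c c' f := LQ.hom_ext (by
          change (hE f.hom).1 ≫ (p c' true).1 ≫ S.inl _ _ = _
          simp [F₀, reassoc_of% (hp c').r1, reassoc_of% nat']) }
    | false =>
      { app c := LQ.homMk ((p c false).1 ≫ S.inr _ _) (LQ.p_comp_assoc (p c false) _)
          (by simp [F₀, dob, reassoc_of% (hp c).r1])
          ((LQ.hom_rg ((S.ps q _ (Ed.dt_smul false)).map (p c false))).comp_dg rg_inr)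
        naturality c c' f := LQ.hom_ext (by
          change (hE f.hom).1 ≫ (p c' false).1 ≫ S.inr _ _ = _
          simp [F₀, reassoc_of% (hp c').r1, reassoc_of% nat']) }
  have ar : a true ≫ r true + a false ≫ r false = 𝟙 _ := NatTrans.ext (funext fun c =>
    LQ.hom_ext (by
      change (S.fst _ _ ≫ (p c true).1) ≫ (p c true).1 ≫ S.inl _ _ +
        (S.snd _ _ ≫ (p c false).1) ≫ (p c false).1 ≫ S.inr _ _ =
          S.blk (p c true).1 0 0 (p c false).1
      simp [blk, reassoc_of% (hp c).r1]))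
  let F : Fn (ambW (S.md q o)) (S.LQ (Rl.eq q (Dt T o.ha))) := @Fn.mk (ambW _) _ _ _ F₀ a0
    fun K k => tn_zero a r ar K fun b => ((FW _).post (S.ps q _ (Ed.dt_smul b))).hT K k
  let e₀ : F₀ ⋙ LQ.U S _ ≅ EW (S.md q o) ⋙ (S.md q o).j :=
    NatIso.ofComponents (fun c => (hp c).iso) fun {c c'} f => LQ.hom_ext (by
      change S.blk ((hE f.hom).1 ≫ (p c' true).1) 0 0 ((hE f.hom).1 ≫ (p c' false).1) ≫
        (S.fst _ _ ≫ (p c' true).1 + S.snd _ _ ≫ (p c' false).1) =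
        (S.fst _ _ ≫ (p c true).1 + S.snd _ _ ≫ (p c false).1) ≫ (hE f.hom).1
      simp [(hp c').r1, nat'])
  let e : S.und F ≅ (FW (S.md q o)).post (S.md q o).j :=
    ⟨e₀.hom, e₀.inv, e₀.hom_inv_id, e₀.inv_hom_id⟩
  have ap : ∀ c, NatTrans.app (e.hom ≫ (𝟙 ((FW (S.md q o)).post (S.md q o).j) - t) ≫ e.inv) c =
      (hp c).iso.hom ≫ (𝟙 _ - inv (κ₀ c.obj (p c)) ≫ c.obj.κ) ≫ (hp c).iso.inv := fun _ => rfl
  have tr := hN.tr_exU _ F (e.hom ≫ (𝟙 ((FW (S.md q o)).post (S.md q o).j) - t) ≫ e.inv)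
    (fun c => by rw [ap]; exact ty c) fun c => by rw [ap]; exact nil c
  exact ⟨{
    p b := ⟨fun c => p c b, fun _ _ f => nat f b⟩
    sum := NatTrans.ext (funext fun c => (hp c).sum)
    idem b := NatTrans.ext (funext fun c => (hp c).idem b)
    mu c := ⟨μ c, m1 c, m2 c⟩
    t := t
    ht c := IsIso.hom_inv_id_assoc (κ₀ c.obj (p c)) c.obj.κ
    tr := Fn.Tr.conj e.symm (by simp [Preadditive.comp_sub, Preadditive.sub_comp]) tr }⟩

end GC

end Pool.Agent.Lib.MP_5d3e93_al
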