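import Pool.Agent.Lib.MP_5d3e93_al.K.MVb
import Pool.Agent.Lib.MP_5d3e93_al.K.Kar

/-! Mayer-Vietoris presentations: the presented object is a localisation. -/

open CategoryTheory Limits Pretriangulated ZeroObject MulAction

namespace Pool.Agent.Lib.MP_5d3e93_al

universe w v u y v' u' v'' u''

namespace K

open Gr Am

variable {𝒱 ℰ : Type (max u v)} {𝒜 : Type (max u' v)} [Category.{v} 𝒱] [Category.{v} ℰ]
  [Category.{v} 𝒜] [Preadditive 𝒱] [Preadditive ℰ] [Preadditive 𝒜] [HasZeroObject 𝒱]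
  [HasZeroObject ℰ] [HasZeroObject 𝒜] [HasBinaryBiproducts 𝒱] [HasBinaryBiproducts ℰ]
  [HasBinaryBiproducts 𝒜] (D : MD.{v, u, u'} 𝒱 ℰ 𝒜)

namespace MV

variable [IsIdempotentComplete 𝒜]

set_option backward.isDefEq.respectTransparency false
set_option linter.unusedSectionVars false

section MVc
/-- Standard presentations. -/
structure Std where
  G : ∀ (X : 𝒜) (c : MV D), (X ⟶ D.i.obj c.V) → Prop
  spl : ∀ {X c η}, G X c η → Spl η c.κ
  fullV : ∀ {X c η}, G X c η → ∀ M (φ : X ⟶ D.i.obj M), ∃ (c' : MV D) (η' : X ⟶ D.i.obj c'.V)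
    (s : c' ⟶ c) (ψ : c'.V ⟶ M), G X c' η' ∧ η' ≫ D.i.map (hV s) = η ∧ η' ≫ D.i.map ψ = φ
  fullE : ∀ {X c η}, G X c η → ∀ M (φ : X ⟶ D.j.obj M), ∃ (c' : MV D) (η' : X ⟶ D.i.obj c'.V)
    (s : c' ⟶ c) (ψ : c'.E ⟶ M), G X c' η' ∧ η' ≫ D.i.map (hV s) = η ∧
      η' ≫ D.t true (c'.k true) ≫ D.j.map ψ = φ
  faithV : ∀ {X c η}, G X c η → ∀ M (ψ : c.V ⟶ M), η ≫ D.i.map ψ = 0 → ψ = 0
  faithE : ∀ {X c η}, G X c η → ∀ M (ψ : c.E ⟶ M),
    η ≫ D.t true (c.k true) ≫ D.j.map ψ = 0 → ψ = 0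
  P : ObjectProperty 𝒱
  cof : Cof P
  base : ∀ x, P x → G (D.i.obj x) ((rV D).obj x) (𝟙 _)
variable {D}

theorem mvc_mono (c : MV D) : Mono c.ι := ⟨fun f g e => by
  simpa using congrArg (· ≫ c.ρ) e⟩

/-- A refinement that represents a map of kernels. -/
theorem mvc_full (σ : Std D) {X : 𝒜} {g : MV D} {η : X ⟶ D.i.obj g.V} (hg : σ.G X g η)
    {y₀ y : MV D} (e : y₀ ≅ y) {Z : 𝒜} (m : D.i.obj y₀.V ⟶ Z) (hm : Mono (y₀.ι ≫ m))
    (H : ∀ φ : X ⟶ Z, ∃ (c' : MV D) (η' : X ⟶ D.i.obj c'.V) (s : c' ⟶ g) (ψ : c' ⟶ y₀),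
      σ.G X c' η' ∧ η' ≫ D.i.map (hV s) = η ∧ η' ≫ D.i.map (hV ψ) ≫ m = φ)
    (φ : (h D).obj g ⟶ (h D).obj y) : ∃ (g₁ : MV D) (s : g₁ ⟶ g) (ψ : g₁ ⟶ y),
      (∃ X η, σ.G X g₁ η) ∧ IsIso ((h D).map s) ∧ (h D).map s ≫ φ = (h D).map ψ := by
  obtain ⟨e₀, h₀⟩ := ker_iso D g (σ.spl hg)
  obtain ⟨c', η', s, ψ, p, q, r⟩ := H (e₀.hom ≫ φ ≫ (h D).map e.inv ≫ y₀.ι ≫ m)
  obtain ⟨e₁, h₁⟩ := ker_iso D c' (σ.spl p)
  have := mvc_mono g
  have k : e₁.hom ≫ (h D).map s = e₀.hom := by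
    rw [← cancel_mono g.ι, Category.assoc, h_ι, reassoc_of% h₁, q, h₀]
  refine ⟨c', s, ψ ≫ e.hom, ⟨_, _, p⟩, ?_, ?_⟩
  · rw [← Iso.eq_inv_comp] at k
    rw [k]
    infer_instance
  · rw [← cancel_epi e₁.hom, ← cancel_mono ((h D).map e.inv), ← cancel_mono (y₀.ι ≫ m)]
    simp only [Category.assoc]
    rw [reassoc_of% k, ← r, ← Functor.map_comp_assoc, Category.assoc, e.hom_inv_id,
      Category.comp_id, h_ι_assoc, ← h₁]
    simp only [Category.assoc]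

theorem mvc_zero (σ : Std D) {X : 𝒜} {g y : MV D} {η : X ⟶ D.i.obj g.V} (hg : σ.G X g η)
    (ψ : g ⟶ y) (z : (h D).map ψ = 0) : η ≫ D.i.map (hV ψ) = 0 := by
  obtain ⟨e₀, h₀⟩ := ker_iso D g (σ.spl hg)
  rw [← h₀, Category.assoc, ← h_ι, z, zero_comp, comp_zero]

theorem mvc_t {g : MV D} {M : ℰ} (ψ : g ⟶ (rE D).obj M) :
    D.i.map (hV ψ) ≫ D.t true (((rE D).obj M).k true) = D.t true (g.k true) ≫ D.j.map (hE ψ) := by
  rw [← MD.t_comp, comm, MD.t_map]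

theorem mvc_full' (σ : Std D) (g y : MV D) (hg : ∃ X η, σ.G X g η)
    (hy : ((rV D).essImage ⊔ (rE D).essImage) y) (φ : (h D).obj g ⟶ (h D).obj y) :
    ∃ (g₁ : MV D) (s : g₁ ⟶ g) (ψ : g₁ ⟶ y),
      (∃ X η, σ.G X g₁ η) ∧ IsIso ((h D).map s) ∧ (h D).map s ≫ φ = (h D).map ψ := by
  obtain ⟨X, η, hg⟩ := hg
  rcases hy with ⟨M, ⟨e⟩⟩ | ⟨M, ⟨e⟩⟩
  · refine mvc_full σ hg e (𝟙 _) (by rw [Category.comp_id]; exact mvc_mono _) (fun χ => ?_) φ
    obtain ⟨c', η', s, ψ, p, q, r⟩ := σ.fullV hg M χ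
    exact ⟨c', η', s, homMk ψ 0 fun b => by simp [rV], p, q, by
      rw [Category.comp_id]; exact r⟩
  · obtain ⟨ad, ha⟩ := adjE D
    obtain ⟨i, hi⟩ := h_rE D
    refine mvc_full σ hg e (D.t true (((rE D).obj M).k true))
      (by rw [← hi]; infer_instance) (fun χ => ?_) φ
    obtain ⟨c', η', s, ψ, p, q, r⟩ := σ.fullE hg M χ
    refine ⟨c', η', s, ad.homEquiv c' M ψ, p, q, ?_⟩
    rw [mvc_t, ← ha, Equiv.symm_apply_apply]
    exact r

theorem mvc_faith (σ : Std D) (g y : MV D) (hg : ∃ X η, σ.G X g η)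
    (hy : ((rV D).essImage ⊔ (rE D).essImage) y) (ψ : g ⟶ y) (z : (h D).map ψ = 0) : ψ = 0 := by
  obtain ⟨X, η, hg⟩ := hg
  rcases hy with ⟨M, ⟨e⟩⟩ | ⟨M, ⟨e⟩⟩
  · have k := mvc_zero σ hg (ψ ≫ e.inv) (by rw [Functor.map_comp, z, zero_comp])
    rw [← cancel_mono e.inv, zero_comp]
    exact hom_ext (σ.faithV hg M _ k) ((isZero_zero ℰ).eq_of_tgt _ _)
  · obtain ⟨ad, ha⟩ := adjE D
    have k := mvc_zero σ hg (ψ ≫ e.inv) (by rw [Functor.map_comp, z, zero_comp])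
    rw [← cancel_mono e.inv, zero_comp]
    refine (ad.homEquiv g M).symm.injective ?_
    rw [ha, ha]
    refine σ.faithE hg M _ ?_
    rw [← mvc_t, reassoc_of% k, zero_comp]

theorem mvc_bdd (c : MV D) : (amb D).bdd ((amb D).sg.obj c) := Cl.of ⟨c, trivial, ⟨Iso.refl _⟩⟩

theorem mvc_ker (c : MV D) (k : IsIso c.κ) : (hM D).ker (amb D).bdd ((amb D).sg.obj c) := by
  obtain ⟨e, -⟩ := (hM D).of_iso
  exact ⟨mvc_bdd c, IsZero.of_iso
    ((Am.of.{v, u'} 𝒜).sg.map_isZero ((isZero_iff D c).2 k)) (e c)⟩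

theorem mvc_trW {c c' : MV D} (s : c ⟶ c') (k : IsIso ((h D).map s)) :
    ((hM D).ker (amb D).bdd).trW ((amb D).sg.map s) := by
  obtain ⟨e, he⟩ := (hM D).of_iso
  have : IsIso ((hM D).F.map s) := k
  have : IsIso ((hM D).D.map ((amb D).sg.map s)) := by
    rw [he]
    infer_instance
  exact locc_trW (mvc_bdd c) (mvc_bdd c') _

/-- The vertex objects are generated by the standard ones. -/
theorem mvc_V {P : ObjectProperty 𝒱} (cof : Cof P) (zV : Subsingleton (K0 (Am.of.{v, u} 𝒱).bdd))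
    (S : ObjectProperty (amb D).D) [Tg S] (hP : ∀ x, P x → S ((amb D).sg.obj ((rV D).obj x)))
    (M : 𝒱) : S ((amb D).sg.obj ((rV D).obj M)) := by
  have ad : (rV D).Additive := inferInstance
  let f : Map (Am.of.{v, u} 𝒱) (amb D) := @ofMap _ _ _ _ _ (amb D) (rV D) ad
  let s : 𝒱 ⥤ (amb D).D := rV D ⋙ (amb D).sg
  have : (amb D).sg.Additive := kar_sg_add _
  have : s.Additive := inferInstanceAs (rV D ⋙ (amb D).sg).Additive
  have := preservesBinaryBiproducts_of_preservesBinaryProducts s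
  have k : ∀ x, Sm P x → S (s.obj x) := fun x hx => by
    induction hx with
    | of a => exact hP _ a
    | zero a => exact Tg.zero S (s.map_isZero a)
    | iso e _ a => exact S.prop_of_iso (s.mapIso e) a
    | add _ _ a b => exact S.prop_of_iso (s.mapBiprod _ _).symm (Tg.biprod S a b)
  obtain ⟨e, -⟩ := f.of_iso
  have l : (Am.of.{v, u} 𝒱).gen (Sm P) ≤ S.inverseImage f.D := Cl.le (by
    rintro _ ⟨x, hx, ⟨i⟩⟩
    exact S.prop_of_iso ((e x).symm ≪≫ f.D.mapIso i) (k x hx))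
  rw [gen_eq_of_cof.{v, u} (Sm P) cof (Am.of.{v, u} 𝒱).bdd
    (Cl.le fun _ ⟨x, _, i⟩ => Cl.of ⟨x, trivial, i⟩) le_rfl zV] at l
  exact S.prop_of_iso (e M) (l _ (Cl.of ⟨M, trivial, ⟨Iso.refl _⟩⟩))

/-- The edge objects are extensions of vertex objects by presentations of zero. -/
theorem mvc_E (S : ObjectProperty (amb D).D) [Tg S]
    (hV : ∀ M, S ((amb D).sg.obj ((rV D).obj M)))
    (hN : ∀ c : MV D, IsIso c.κ → S ((amb D).sg.obj c)) (M : ℰ) :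
    S ((amb D).sg.obj ((rE D).obj M)) := by
  let i : (el D false).obj M ⟶ (rE D).obj M := homMk biprod.inr (𝟙 M) fun b => by
    cases b <;> simp [el, rE, dl]
  let p : (rE D).obj M ⟶ (rV D).obj ((D.s true).obj M) := homMk biprod.fst 0 fun b => by
    simp [rV]
  have z : i ≫ p = 0 := hom_ext biprod.inr_fst comp_zero
  have k : Spl ((U D).map i) ((U D).map p) := ⟨(biprod.snd, 𝟙 M), (biprod.inl, 0),
    Prod.ext biprod.inr_snd (Category.comp_id _),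
    Prod.ext biprod.inl_fst ((isZero_zero ℰ).eq_of_src _ _),
    Prod.ext ((add_comm _ _).trans biprod.total)
      (show 𝟙 M ≫ 𝟙 M + (0 : M ⟶ 0) ≫ (0 : 0 ⟶ M) = 𝟙 M by simp)⟩
  obtain ⟨δ, hδ⟩ := (exU_exaS.{v, u} (U D) z k).tri
  refine S.ext_of_isTriangulatedClosed₂ _ hδ (hN _ ?_) (hV _)
  have : ((el D false).obj M).κ = -(D.e false).hom.app M := by simp [el, κ, MD.κ, MD.t, dl]
  rw [this]
  exact ⟨-(D.e false).inv.app M, by simp [el], by simp [el]⟩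

/-- `proadj'` with `N` = kernel, `G c := ∃ X η, σ.G X c η`, `G'` as in `bdd_eq`. Generation:
`gen_eq_of_cof` in `𝒱` gives `rV M`; the `U`-split sequence `el false M ⟶ rE M ⟶ rV (s true M)`
gives `rE M`. A map `s` with `h s` invertible has its cone in `N`. Then `LocOn.loc`. -/
theorem loc_h (σ : Std D) (zV : Subsingleton (K0 (Am.of.{v, u} 𝒱).bdd)) :
    Loc (hM D).D ((hM D).ker (amb D).bdd) (amb D).bdd ((amb D).bdd.map (hM D).D) := by
  let G : ObjectProperty (amb D).A := fun c : MV D => ∃ X η, σ.G X c η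
  have hV := mvc_V σ.cof zV (Cl (G.map (amb D).sg ⊔ (hM D).ker (amb D).bdd)) fun x hx =>
    Cl.of (Or.inl ⟨(rV D).obj x, ⟨_, _, σ.base x hx⟩, ⟨Iso.refl _⟩⟩)
  have hE := mvc_E _ hV fun c k => Cl.of (Or.inr (mvc_ker c k))
  have k : LocOn (hM D).D ((hM D).ker (amb D).bdd)
      ((amb D).gen ((rV D).essImage ⊔ (rE D).essImage)) := by
    refine proadj' (G := G) (hM D) (fun X a => bdd_eq D ▸ a.1) (fun X a => a.2) (Cl.le ?_) ?_
      (fun g _ => Am.of_pj ((h D).obj g)) (fun g y hg hy φ => ?_) (mvc_faith σ)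
    · rintro _ ⟨y, ⟨M, ⟨e⟩⟩ | ⟨M, ⟨e⟩⟩, ⟨i⟩⟩
      · exact Cl.iso ((amb D).sg.mapIso e ≪≫ i) (hV M)
      · exact Cl.iso ((amb D).sg.mapIso e ≪≫ i) (hE M)
    · have iso : ∀ {y₀ y : MV D}, (y₀ ≅ y) → Ij (amb D) y₀ → Ij (amb D) y := fun e a t ht φ => by
        rw [← cancel_mono ((HomotopyCategory.singleFunctor (MV D) 0).map e.inv), zero_comp]
        exact a t ht _
      rintro y (⟨M, ⟨e⟩⟩ | ⟨M, ⟨e⟩⟩)
      · exact iso e (exU_ij (U D) _ (adjV D).choose M)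
      · exact iso e (exU_ij (U D) _ (adjE D).choose M)
    · obtain ⟨g₁, s, ψ, p, q, r⟩ := mvc_full' σ g y hg hy φ
      exact ⟨g₁, s, ψ, p, mvc_trW s q, r⟩
  rw [← bdd_eq D] at k
  exact
    { toLocOn := k
      thick := fun X a b => ⟨a, b⟩
      maps := fun _ a => ObjectProperty.prop_map_obj _ _ a
      surj := fun _ a => a }
end MVc

end MV

end K

end Pool.Agent.Lib.MP_5d3e93_al
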