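import Pool.Agent.Lib.MP_5d3e93_al.K.TS
import Pool.Agent.Lib.MP_5d3e93_al.K.MVc

/-! The standard presentations of the datum of a tree. -/

open CategoryTheory Limits Pretriangulated ZeroObject MulAction

namespace Pool.Agent.Lib.MP_5d3e93_al

universe w v u y v' u' v'' u''

open Gr K

namespace GC

variable {G : Type w} [Group G] {C : Type u} [Category.{v} C] [Preadditive C] {S : GC G C}
variable {Γ : Type w} [Group Γ] {q : G →* Γ}

variable [HasZeroObject C]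

variable {V : Type w} [MulAction Γ V] {T : SimpleGraph V} {o : Ot Γ T}

theorem ex_std : Nonempty (MV.Std (S.md q o)) := by
  classical
  refine ⟨⟨fun X c η => ∃ (Y : C) (Δ : Finset V) (e : X = S.fro Y), Δ.Nonempty ∧ Sx Y Δ c (e ▸ η),
    ?_, ?_, ?_, ?_, ?_, S.Pt q V, cof_pt, ?_⟩⟩
  · rintro _ c η ⟨Y, Δ, rfl, -, h⟩
    exact h.spl
  · rintro _ c η ⟨Y, Δ, rfl, ne, h⟩ M φ
    obtain ⟨W, hW⟩ := Lo.Ab.fin (q := q) M.L φ.1
    obtain ⟨Δ', c', η', s, a1, a2, a3, a4⟩ := Sx.reach h ne W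
    obtain ⟨ψ, b⟩ := a1.surV M φ (hW.mono a3)
    exact ⟨c', η', s, ψ, ⟨Y, Δ', rfl, ne.mono a2, a1⟩, a4, b⟩
  · rintro _ c η ⟨Y, Δ, rfl, ne, h⟩ M φ
    obtain ⟨W, hW⟩ := Lo.Ab.fin (q := q) M.L φ.1
    obtain ⟨Δ', c', η', s, a1, a2, a3, a4⟩ :=
      Sx.reach h ne (W.image (Ed.en true) ∪ W.image (Ed.en false))
    obtain ⟨ψ, b⟩ := a1.surE M φ (hW.mono fun e k b => a3 (by
      cases b
      · exact Finset.mem_union_right _ (Finset.mem_image_of_mem _ k)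
      · exact Finset.mem_union_left _ (Finset.mem_image_of_mem _ k)))
    exact ⟨c', η', s, ψ, ⟨Y, Δ', rfl, ne.mono a2, a1⟩, a4, b⟩
  · rintro _ c η ⟨Y, Δ, rfl, -, h⟩
    exact h.injV
  · rintro _ c η ⟨Y, Δ, rfl, -, h⟩
    exact h.injE
  · rintro _ ⟨X, y, rfl⟩
    exact ⟨X, {y}, rfl, Finset.singleton_nonempty y, Sx.base X y⟩

end GC

end Pool.Agent.Lib.MP_5d3e93_al
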