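import Pool.Agent.Lib.MP_5d3e93_al.K.MVg
import Pool.Agent.Lib.MP_5d3e93_al.K.Diag
import Pool.Agent.Lib.MP_5d3e93_al.K.TN
import Pool.Agent.Lib.MP_5d3e93_al.K.TH
import Pool.Agent.Lib.MP_5d3e93_al.K.TSd

/-! Vanishing for groups acting on trees. -/

open CategoryTheory Limits ZeroObject MulAction

namespace Pool.Agent.Lib.MP_5d3e93_al

open Gr K

universe w v u

namespace GC

variable {G : Type w} [Group G] {C : Type u} [Category.{v} C] [Preadditive C] {S : GC G C}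

/-- Any morphism between objects without locations is controlled. -/
noncomputable def trHom {M N : S.LQ (Rl.pt (⊤ : Subgroup G))} (f : M.A ⟶ N.A) : M ⟶ N :=
  LQ.cut f fun _ _ _ h => (h trivial).elim

theorem tr_ret (M : S.LQ (Rl.pt (⊤ : Subgroup G))) :
    trHom (M := M) (N := S.fro M.A) (𝟙 M.A) ≫ trHom (M := S.fro M.A) (N := M) (𝟙 M.A) = 𝟙 M :=
  LQ.hom_ext (show (M.p ≫ 𝟙 M.A ≫ 𝟙 M.A) ≫ 𝟙 M.A ≫ 𝟙 M.A ≫ M.p = M.p by simp)

theorem tr_iso (M : S.LQ (Rl.pt (⊤ : Subgroup G))) (h : M.p = 𝟙 M.A) : Nonempty (S.fro M.A ≅ M) :=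
  ⟨⟨trHom (M := S.fro M.A) (N := M) (𝟙 M.A), trHom (M := M) (N := S.fro M.A) (𝟙 M.A),
    LQ.hom_ext (show (𝟙 M.A ≫ 𝟙 M.A ≫ M.p) ≫ M.p ≫ 𝟙 M.A ≫ 𝟙 M.A = 𝟙 M.A by simp [h]), tr_ret M⟩⟩

variable [HasZeroObject C]

theorem zf_tree {Γ : Type w} [Group Γ] (q : G →* Γ) {V : Type w} [MulAction Γ V]
    {T : SimpleGraph V} (hT : T.IsTree) (ha : ∀ (g : Γ) a b, T.Adj a b → T.Adj (g • a) (g • b))
    (hi : ∀ (g : Γ) a b, T.Adj a b → g • a = b → g • b ≠ a)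
    (hV : ∀ a : V, S.WK ((stabilizer Γ a).comap q))
    (hE : ∀ d : Dt T ha, S.WK ((stabilizer Γ d).comap q))
    (hN : S.GI q (Dt T ha) Dt.st) : S.ZF := by
  obtain ⟨v₀⟩ := hT.connected.nonempty
  rcases subsingleton_or_nontrivial V with s | s
  · have e : (stabilizer Γ v₀).comap q = ⊤ := eq_top_iff.2 fun _ _ => s.elim _ _
    have z : S.WK ⊤ := e ▸ hV v₀
    exact ⟨S.top.bdd, inferInstance, Am.mv_mono le_top, le_rfl, z⟩
  obtain ⟨o, -⟩ := ex_ot hT ha hi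
  obtain ⟨σ⟩ := ex_std (S := S) (q := q) (o := o)
  obtain ⟨x⟩ := ex_idm (S := S) (q := q) (o := o) hN
  obtain ⟨N, t, a, b, c⟩ := MV.tree (D := S.md q o) (zq_eq q V hV)
    (zq_eq q (Ed o) fun e => e.stab ▸ hE e.d) σ
    (MV.cov_of_gen _ cof_pt cof_pt (by
      rintro c _ ⟨X, v, rfl⟩ y
      obtain ⟨w, hw⟩ := hT.connected.preconnected.exists_adj_of_nontrivial v
      obtain ⟨e, b, -, k⟩ := Ed.ex (o := o) hw.symm
      exact cov_V c v e b k y) (by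
      rintro c _ ⟨X, e, rfl⟩ y
      exact cov_E c e y)) x
    fun c => ⟨S.pt q c.A v₀, _, _, tr_ret c⟩
  exact ⟨N, t, (Am.mv_mono fun M h => ⟨S.pt q M.A v₀, tr_iso M h⟩).trans a, b, c⟩

end GC

end Pool.Agent.Lib.MP_5d3e93_al
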