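import Pool.Agent.Lib.MP_5d3e93_al.Gr.W2

/-! Polynomial extensions of additive categories and the restriction to presheaves. -/

open CategoryTheory Limits Pretriangulated ZeroObject

namespace Pool.Agent.Lib.MP_5d3e93_al.K

open Gr

universe v u v' u'

/-- The polynomial extension of a preadditive category. -/
structure Pol (C : Type u) where
  as : C

namespace Pol

variable {C : Type u} [Category.{v} C] [Preadditive C]

/-- Convolution. -/
noncomputable def cv (X Y Z : C) : (ℕ →₀ (X ⟶ Y)) →+ (ℕ →₀ (Y ⟶ Z)) →+ (ℕ →₀ (X ⟶ Z)) :=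
  Finsupp.liftAddHom fun a => (Finsupp.liftAddHom fun b =>
    (Preadditive.compHom.flip).compr₂ (Finsupp.singleAddHom (a + b))).flip

theorem cv_single {X Y Z : C} (a b : ℕ) (f : X ⟶ Y) (g : Y ⟶ Z) :
    cv X Y Z (.single a f) (.single b g) = .single (a + b) (f ≫ g) := by
  simp only [cv, Finsupp.liftAddHom_apply_single, AddMonoidHom.flip_apply,
    AddMonoidHom.compr₂_apply, Finsupp.singleAddHom_apply]
  rfl

noncomputable instance : Category.{v} (Pol C) where
  Hom X Y := ℕ →₀ (X.as ⟶ Y.as)
  id _ := .single 0 (𝟙 _)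
  comp f g := cv _ _ _ f g
  id_comp f := by
    induction f using Finsupp.induction_linear with
    | zero => exact map_zero _
    | add f g a b => rw [map_add, a, b]
    | single a f => rw [cv_single, zero_add, Category.id_comp]
  comp_id f := by
    induction f using Finsupp.induction_linear with
    | zero => rw [map_zero, AddMonoidHom.zero_apply]
    | add f g a b => rw [map_add, AddMonoidHom.add_apply, a, b]
    | single a f => rw [cv_single, add_zero, Category.comp_id]
  assoc f g h := by
    induction f using Finsupp.induction_linear with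
    | zero => simp only [map_zero, AddMonoidHom.zero_apply]
    | add f g a b => simp only [map_add, AddMonoidHom.add_apply, a, b]
    | single a f =>
      induction g using Finsupp.induction_linear with
      | zero => simp only [map_zero, AddMonoidHom.zero_apply]
      | add f g a b => simp only [map_add, AddMonoidHom.add_apply, a, b]
      | single b g =>
        induction h using Finsupp.induction_linear with
        | zero => simp only [map_zero]
        | add f g a b => simp only [map_add, a, b]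
        | single c h => simp only [cv_single, add_assoc, Category.assoc]

noncomputable instance : Preadditive (Pol C) where
  homGroup X Y := inferInstanceAs (AddCommGroup (ℕ →₀ (X.as ⟶ Y.as)))
  add_comp _ _ _ f g h := DFunLike.congr_fun ((cv _ _ _).map_add f g) h
  comp_add _ _ _ f g h := (cv _ _ _ f).map_add g h

/-- Monomials. -/
noncomputable def mon {X Y : Pol C} (k : ℕ) : (X.as ⟶ Y.as) →+ (X ⟶ Y) := Finsupp.singleAddHom k

theorem mon_comp {X Y Z : Pol C} (a b : ℕ) (f : X.as ⟶ Y.as) (g : Y.as ⟶ Z.as) :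
    mon a f ≫ mon b g = mon (a + b) (f ≫ g) := cv_single a b f g

theorem mon_id (X : Pol C) : mon 0 (𝟙 X.as) = 𝟙 X := rfl

theorem ind {X Y : Pol C} {p : (X ⟶ Y) → Prop} (f : X ⟶ Y) (h0 : p 0)
    (h1 : ∀ f g, p f → p g → p (f + g)) (h2 : ∀ k g, p (mon k g)) : p f :=
  Finsupp.induction_linear f h0 h1 h2

variable (C) in
/-- The constant morphisms. -/
noncomputable def cst : C ⥤ Pol C where
  obj X := ⟨X⟩
  map f := mon 0 f
  map_comp f g := (mon_comp 0 0 f g).symm

instance : (cst C).Additive := ⟨(mon 0).map_add _ _⟩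

instance [HasZeroObject C] : HasZeroObject (Pol C) := ⟨_, (cst C).map_isZero (isZero_zero C)⟩

instance [HasBinaryBiproducts C] : HasBinaryBiproducts (Pol C) := ⟨fun ⟨X⟩ ⟨Y⟩ =>
  have h : (cst C).map biprod.fst ≫ (cst C).map biprod.inl +
      (cst C).map biprod.snd ≫ (cst C).map biprod.inr = 𝟙 ((cst C).obj (X ⊞ Y)) := by
    rw [← Functor.map_comp, ← Functor.map_comp, ← Functor.map_add, biprod.total,
      CategoryTheory.Functor.map_id]
  hasBinaryBiproduct_of_total ((cst C).mapBinaryBicone (BinaryBiproduct.bicone X Y)) h⟩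

variable {Q : Type u'} [Category.{v'} Q] [Preadditive Q] (j : C ⥤ Q) [j.Additive] (t : End j)

/-- Evaluation of a polynomial. -/
noncomputable def ev (X Y : C) : (ℕ →₀ (X ⟶ Y)) →+ (j.obj X ⟶ j.obj Y) :=
  Finsupp.liftAddHom fun k => (Preadditive.leftComp _ (NatTrans.app (t ^ k) X)).comp j.mapAddHom

theorem ev_single {X Y : C} (k : ℕ) (g : X ⟶ Y) :
    ev j t X Y (.single k g) = NatTrans.app (t ^ k) X ≫ j.map g :=
  Finsupp.liftAddHom_apply_single ..

theorem ev_apply {X Y : C} (f : ℕ →₀ (X ⟶ Y)) :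
    ev j t X Y f = f.sum fun k g => NatTrans.app (t ^ k) X ≫ j.map g := rfl

theorem ev_cv {X Y Z : C} (f : ℕ →₀ (X ⟶ Y)) (g : ℕ →₀ (Y ⟶ Z)) :
    ev j t X Z (cv X Y Z f g) = ev j t X Y f ≫ ev j t Y Z g := by
  induction f using Finsupp.induction_linear with
  | zero => simp only [map_zero, AddMonoidHom.zero_apply, zero_comp]
  | add f g a b => simp only [map_add, AddMonoidHom.add_apply, Preadditive.add_comp, a, b]
  | single a f =>
    induction g using Finsupp.induction_linear with
    | zero => simp only [map_zero, comp_zero]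
    | add f g a b => simp only [map_add, Preadditive.comp_add, a, b]
    | single b g =>
      rw [cv_single, ev_single, ev_single, ev_single, add_comm, pow_add, End.mul_def,
        NatTrans.comp_app, j.map_comp, Category.assoc, Category.assoc,
        NatTrans.naturality_assoc]

/-- The universal property. -/
noncomputable def lift : Pol C ⥤ Q where
  obj X := j.obj X.as
  map f := ev j t _ _ f
  map_id X := (ev_single j t 0 (𝟙 X.as)).trans (by rw [pow_zero, j.map_id]; exact Category.id_comp _)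
  map_comp f g := ev_cv j t f g

instance : (lift j t).Additive := ⟨(ev j t _ _).map_add _ _⟩

theorem lift_mon {X Y : Pol C} (k : ℕ) (g : X.as ⟶ Y.as) :
    (lift j t).map (mon k g) = NatTrans.app (t ^ k) X.as ≫ j.map g := ev_single j t k g

/-- The polynomial `t e + 1 - e`. -/
noncomputable def lin {X : C} (e : X ⟶ X) : (⟨X⟩ : Pol C) ⟶ ⟨X⟩ := mon 1 e + mon 0 (𝟙 X - e)

theorem lift_lin {X : C} (e : X ⟶ X) :
    (lift j t).map (lin e) = NatTrans.app t X ≫ j.map e + (𝟙 _ - j.map e) := by
  rw [lin, Functor.map_add, lift_mon, lift_mon, pow_one, pow_zero, j.map_sub, j.map_id]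
  exact congrArg _ (Category.id_comp _)

theorem lin_id (X : Pol C) : lin (𝟙 X.as) = mon 1 (𝟙 X.as) := by
  rw [lin, sub_self, map_zero, add_zero]

end Pol

section Alg

variable {V : Type u} [Category.{v} V] [Preadditive V]

theorem pol_zero {X Y Z : V} {i : X ⟶ Y} {p : Y ⟶ Z} (h : Spl i p) : i ≫ p = 0 := by
  obtain ⟨r, s, a, b, c⟩ := h
  have e : i ≫ (r ≫ i + p ≫ s) ≫ p = i ≫ p := by rw [c, Category.id_comp]
  rw [Preadditive.add_comp, Preadditive.comp_add, Category.assoc, Category.assoc, b,
    reassoc_of% a, Category.comp_id] at e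
  exact add_eq_left.1 e

theorem pol_map {W : Type u'} [Category.{v'} W] [Preadditive W] (F : V ⥤ W) [F.Additive]
    {X Y Z : V} {i : X ⟶ Y} {p : Y ⟶ Z} (h : Spl i p) : Spl (F.map i) (F.map p) := by
  obtain ⟨r, s, a, b, c⟩ := h
  refine ⟨F.map r, F.map s, ?_, ?_, ?_⟩
  · rw [← F.map_comp, a, F.map_id]
  · rw [← F.map_comp, b, F.map_id]
  · rw [← F.map_comp, ← F.map_comp, ← F.map_add, c, F.map_id]

theorem pol_mul {M : V} {T S E : M ⟶ M} (e : E ≫ E = E) (h : E ≫ S = S ≫ E) :
    (T ≫ E + (𝟙 M - E)) ≫ (S ≫ E + (𝟙 M - E)) = (T ≫ S) ≫ E + (𝟙 M - E) := by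
  simp only [Preadditive.add_comp, Preadditive.comp_add, Preadditive.sub_comp,
    Preadditive.comp_sub, Category.assoc, Category.id_comp, Category.comp_id, reassoc_of% h, e]
  abel

theorem pol_isIso {M : V} (T E : M ⟶ M) [IsIso T] (e : E ≫ E = E) (h : E ≫ T = T ≫ E) :
    IsIso (T ≫ E + (𝟙 M - E)) := by
  have h' : E ≫ inv T = inv T ≫ E := by
    rw [IsIso.comp_inv_eq, Category.assoc, h, IsIso.inv_hom_id_assoc]
  refine ⟨inv T ≫ E + (𝟙 M - E), ?_, ?_⟩
  · rw [pol_mul e h', IsIso.hom_inv_id, Category.id_comp, add_sub_cancel]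
  · rw [pol_mul e h, IsIso.inv_hom_id, Category.id_comp, add_sub_cancel]

/-- The cokernel of `T e + 1 - e` is the image of `e`. -/
theorem pol_spl {U : Type u'} [Category.{v'} U] {R y : U ⥤ V} {T : R ⟶ R} {π : R ⟶ y}
    (h : Spl T π) {c x : U} (i : c ⟶ x) (r : x ⟶ c) (e : i ≫ r = 𝟙 c) :
    Spl (T.app x ≫ R.map (r ≫ i) + (𝟙 _ - R.map (r ≫ i))) (π.app x ≫ y.map r) := by
  obtain ⟨S, σ, a, b, k⟩ := h
  have a' : T.app x ≫ S.app x = 𝟙 _ := NatTrans.congr_app a x
  have b' : σ.app x ≫ π.app x = 𝟙 _ := NatTrans.congr_app b x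
  have k' : S.app x ≫ T.app x + π.app x ≫ σ.app x = 𝟙 _ := NatTrans.congr_app k x
  have ee : R.map (r ≫ i) ≫ R.map (r ≫ i) = R.map (r ≫ i) := by
    rw [← R.map_comp, Category.assoc, reassoc_of% e]
  refine ⟨S.app x ≫ R.map (r ≫ i) + (𝟙 _ - R.map (r ≫ i)), y.map i ≫ σ.app x, ?_, ?_, ?_⟩
  · rw [pol_mul ee (S.naturality _), a', Category.id_comp, add_sub_cancel]
  · rw [Category.assoc, reassoc_of% b', ← y.map_comp, e, y.map_id]
  · rw [pol_mul ee (T.naturality _), Category.assoc (π.app x), ← y.map_comp_assoc, σ.naturality,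
      ← Category.assoc (π.app x), add_right_comm, ← Preadditive.add_comp, k', Category.id_comp,
      add_sub_cancel]

end Alg

/-- Finitely supported sequences. -/
noncomputable def polF : AddCommGrpCat.{v} ⥤ AddCommGrpCat.{v} where
  obj M := .of (ℕ →₀ M)
  map f := AddCommGrpCat.ofHom (Finsupp.mapRange.addMonoidHom f.hom)
  map_id _ := AddCommGrpCat.hom_ext (AddMonoidHom.ext fun _ => Finsupp.ext fun _ => rfl)
  map_comp _ _ := AddCommGrpCat.hom_ext (AddMonoidHom.ext fun _ => Finsupp.ext fun _ => rfl)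

instance : polF.{v}.Additive :=
  ⟨AddCommGrpCat.hom_ext (AddMonoidHom.ext fun _ => Finsupp.ext fun _ => rfl)⟩

theorem polF_spl : ∃ (T : polF.{v} ⟶ polF) (π : polF.{v} ⟶ 𝟭 _), Spl T π := by
  let T : polF.{v} ⟶ polF :=
    { app M := AddCommGrpCat.ofHom (Finsupp.mapDomain.addMonoidHom Nat.succ)
      naturality _ _ f := AddCommGrpCat.hom_ext (Finsupp.addHom_ext fun k x => by
        change Finsupp.mapDomain _ (Finsupp.mapRange f.hom f.hom.map_zero (.single k x)) =
          Finsupp.mapRange f.hom f.hom.map_zero (Finsupp.mapDomain Nat.succ (.single k x))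
        simp only [Finsupp.mapRange_single, Finsupp.mapDomain_single]) }
  let S : polF.{v} ⟶ polF :=
    { app M := AddCommGrpCat.ofHom (Finsupp.comapDomain.addMonoidHom Nat.succ_injective)
      naturality _ _ f :=
        AddCommGrpCat.hom_ext (AddMonoidHom.ext fun _ => Finsupp.ext fun _ => rfl) }
  let π : polF.{v} ⟶ 𝟭 _ :=
    { app M := AddCommGrpCat.ofHom (Finsupp.applyAddHom 0)
      naturality _ _ f := AddCommGrpCat.hom_ext (AddMonoidHom.ext fun _ => rfl) }
  let σ : 𝟭 _ ⟶ polF.{v} :=
    { app M := AddCommGrpCat.ofHom (Finsupp.singleAddHom 0)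
      naturality _ _ f := AddCommGrpCat.hom_ext (AddMonoidHom.ext fun _ =>
        (Finsupp.mapRange_single (hf := f.hom.map_zero)).symm) }
  refine ⟨T, π, S, σ, ?_, ?_, ?_⟩
  · exact NatTrans.ext (funext fun M => AddCommGrpCat.hom_ext (AddMonoidHom.ext fun x =>
      Finsupp.ext fun k => Finsupp.mapDomain_apply Nat.succ_injective x k))
  · exact NatTrans.ext (funext fun M => AddCommGrpCat.hom_ext (AddMonoidHom.ext fun x =>
      Finsupp.single_eq_same))
  · refine NatTrans.ext (funext fun M => AddCommGrpCat.hom_ext (AddMonoidHom.ext fun x =>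
      Finsupp.ext fun k => ?_))
    change Finsupp.mapDomain Nat.succ (Finsupp.comapDomain Nat.succ x Nat.succ_injective.injOn) k +
      Finsupp.single 0 (Finsupp.toFun x 0) k = Finsupp.toFun x k
    cases k with
    | zero => rw [Finsupp.mapDomain_of_notMem_range _ _ (by simp), Finsupp.single_eq_same, zero_add]
    | succ k =>
      rw [Finsupp.mapDomain_apply Nat.succ_injective, Finsupp.single_eq_of_ne (by simp), add_zero]
      rfl

theorem exists_res (U : Type u) [Category.{v} U] [Preadditive U] :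
    ∃ (y R : U ⥤ Uᵒᵖ ⥤ AddCommGrpCat.{v}) (_ : y.Additive) (_ : R.Additive) (T : R ⟶ R)
      (π : R ⟶ y), y.Full ∧ y.Faithful ∧ Spl T π := by
  obtain ⟨T, π, S, σ, a, b, c⟩ := polF_spl.{v}
  let W := Functor.whiskeringRight Uᵒᵖ AddCommGrpCat.{v} AddCommGrpCat.{v}
  have h : (preadditiveYoneda (C := U)).Additive := ⟨fun {_ _ f g} => NatTrans.ext (funext fun _ =>
    AddCommGrpCat.hom_ext (AddMonoidHom.ext fun _ => Preadditive.comp_add _ _ _ _ f g))⟩
  have h' : (preadditiveYoneda (C := U) ⋙ W.obj polF).Additive := ⟨fun {_ _ f g} =>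
    NatTrans.ext (funext fun _ => (congrArg polF.map (NatTrans.congr_app h.1 _)).trans
      polF.map_add)⟩
  exact ⟨preadditiveYoneda, preadditiveYoneda ⋙ W.obj polF, h, h',
    Functor.whiskerLeft _ (W.map T), Functor.whiskerLeft preadditiveYoneda (W.map π),
    inferInstance, inferInstance, Functor.whiskerLeft _ (W.map S),
    Functor.whiskerLeft preadditiveYoneda (W.map σ),
    NatTrans.ext (funext fun _ => NatTrans.ext (funext fun _ => NatTrans.congr_app a _)),
    NatTrans.ext (funext fun _ => NatTrans.ext (funext fun _ => NatTrans.congr_app b _)),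
    NatTrans.ext (funext fun _ => NatTrans.ext (funext fun _ => NatTrans.congr_app c _))⟩

end Pool.Agent.Lib.MP_5d3e93_al.K
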