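import Pool.Agent.Lib.MP_5d3e93_al.K.Kar
import Pool.Agent.Lib.MP_5d3e93_al.K.Pol

/-! The boundary map of the Laurent extension. -/

open CategoryTheory Limits Pretriangulated ZeroObject

namespace Pool.Agent.Lib.MP_5d3e93_al.K

open Gr

universe w v u v' u' v'' u'' v₃ u₃

theorem up_gen {D : Type*} [Category* D] [HasZeroObject D] [HasShift D ℤ] [Preadditive D]
    [∀ n : ℤ, (shiftFunctor D n).Additive] [Pretriangulated D] {G : ObjectProperty D}
    (h : ∀ X (a : G X), K0.mk (S := Cl G) X (Cl.of a) = 0) : Subsingleton (K0 (Cl G)) := by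
  let P : ObjectProperty D := fun X => ∃ a : Cl G X, K0.mk X a = 0
  have : Tg P := eg_tg (fun e ⟨a, k⟩ => ⟨a.iso e, (K0.mk_iso e a _).symm.trans k⟩)
    ⟨.zero (isZero_zero D), K0.mk_zero (isZero_zero D) _⟩ fun T k =>
      ⟨fun ⟨b, q⟩ => ⟨fun ⟨a, p⟩ => by
        have c := (Cl G).ext_of_isTriangulatedClosed₃ T k a b
        have e := K0.mk_tri k a b c
        rw [p, q, zero_add] at e
        exact ⟨c, e.symm⟩, fun ⟨c, r⟩ => by
        have a := (Cl G).ext_of_isTriangulatedClosed₁ T k b c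
        have e := K0.mk_tri k a b c
        rw [r, q, add_zero] at e
        exact ⟨a, e.symm⟩⟩, fun ⟨a, p⟩ ⟨c, r⟩ =>
        ⟨.ext T k a c, by rw [K0.mk_tri k a _ c, p, r, add_zero]⟩⟩
  refine subsingleton_of_forall_eq 0 fun x => ?_
  obtain ⟨X, a, rfl⟩ := K0.mk_surj x
  exact (Cl.le (S := P) (fun X a => ⟨_, h X a⟩) X a).2

section Cone
variable {a : Am.{v, u}} {b : Am.{v', u'}} (g : Am.Map a b) {X Y : a.A} {φ : X ⟶ Y} {Z : a.D}
  {p : a.sg.obj Y ⟶ Z} {δ : Z ⟶ (a.sg.obj X)⟦(1 : ℤ)⟧}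
  (h : Triangle.mk (a.sg.map φ) p δ ∈ distTriang a.D)
include h

theorem up_cone {W : b.D} {p' : _ ⟶ W} {δ' : W ⟶ _}
    (h' : Triangle.mk (b.sg.map (g.F.map φ)) p' δ' ∈ distTriang b.D) :
    Nonempty (g.D.obj Z ≅ W) := by
  obtain ⟨e, he⟩ := g.of_iso
  refine ⟨Triangle.π₃.mapIso (isoTriangleOfIso₁₂ _ _ (g.D.map_distinguished _ h) h' (e X) (e Y) ?_)⟩
  change g.D.map (a.sg.map φ) ≫ (e Y).hom = (e X).hom ≫ b.sg.map (g.F.map φ)
  rw [he, Category.assoc, Category.assoc, Iso.inv_hom_id, Category.comp_id]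

theorem up_zero (k : IsIso (g.F.map φ)) : IsZero (g.D.obj Z) := by
  obtain ⟨W, p', δ', h'⟩ := distinguished_cocone_triangle (b.sg.map (g.F.map φ))
  obtain ⟨e⟩ := up_cone g h h'
  exact ((Triangle.isZero₃_iff_isIso₁ _ h').2 (b.sg.map_isIso _)).of_iso e

theorem up_bdd : a.bdd Z := a.bdd.ext_of_isTriangulatedClosed₃ _ h
  (Cl.of ⟨X, trivial, ⟨Iso.refl _⟩⟩) (Cl.of ⟨Y, trivial, ⟨Iso.refl _⟩⟩)

end Cone

section KarUp
variable {A : Type (max u v)} [Category.{v} A] [Preadditive A] [HasZeroObject A]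
  [HasBinaryBiproducts A] {U : Type (max u' v')} [Category.{v'} U] [Preadditive U]
  [HasZeroObject U] [HasBinaryBiproducts U] {Q : Type (max u'' v'')} [Category.{v''} Q]
  [Preadditive Q] [HasZeroObject Q] [HasBinaryBiproducts Q]

/-- The morphisms between the objects `j X` are Laurent polynomials in `t`. -/
structure Lau (j : A ⥤ Q) where
  t : End j
  iso : IsIso (C := A ⥤ Q) t
  span : ∀ {X Y : A} (φ : j.obj X ⟶ j.obj Y), ∃ (m : ℕ) (f : ℕ →₀ (X ⟶ Y)),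
    NatTrans.app (t ^ m) X ≫ φ = f.sum fun k g => NatTrans.app (t ^ k) X ≫ j.map g
  indep : ∀ {X Y : A} (f : ℕ →₀ (X ⟶ Y)),
    (f.sum fun k g => NatTrans.app (t ^ k) X ≫ j.map g) = 0 → f = 0

variable (A) in
/-- The polynomial extension as an ambient category. -/
noncomputable abbrev upA : Am.{v, u} := Am.of.{v, u} (Pol A)

variable (A) in
/-- The closure of the cones of the variable. -/
def upN : ObjectProperty (upA.{v, u} A).D := Cl fun Z => ∃ (X : A) (p : _ ⟶ Z) (δ : Z ⟶ _),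
  Triangle.mk ((upA.{v, u} A).sg.map (Pol.lin (𝟙 X))) p δ ∈ distTriang _

instance : Tg (upN.{v, u} A) := inferInstanceAs (Tg (Cl _))

theorem up_trW (X : Pol A) (m : ℕ) :
    (upN.{v, u} A).trW ((upA.{v, u} A).sg.map (Pol.mon (X := X) (Y := X) m (𝟙 _))) := by
  induction m with
  | zero =>
    rw [Pol.mon_id]
    exact ((upA.{v, u} A).sg.map_id X).symm ▸ MorphismProperty.id_mem _ _
  | succ m ih =>
    have e : Pol.mon (X := X) (Y := X) (m + 1) (𝟙 _) = Pol.mon m (𝟙 _) ≫ Pol.lin (𝟙 X.as) := by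
      rw [Pol.lin_id, Pol.mon_comp, Category.id_comp]
    obtain ⟨Z, p, δ, k⟩ := distinguished_cocone_triangle ((upA.{v, u} A).sg.map (Pol.lin (𝟙 X.as)))
    have := (upN.{v, u} A).trW.comp_mem _ _ ih ⟨Z, p, δ, k, Cl.of ⟨X.as, p, δ, k⟩⟩
    rw [e]
    exact ((upA.{v, u} A).sg.map_comp _ _).symm ▸ this

variable (j : A ⥤ Q) [j.Additive] (L : Lau j)

omit [HasZeroObject A] [HasBinaryBiproducts A] [HasZeroObject Q] [HasBinaryBiproducts Q] in
theorem up_isIso {X : A} (e : X ⟶ X) (h : e ≫ e = e) : IsIso ((Pol.lift j L.t).map (Pol.lin e)) := by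
  have := L.iso
  have : IsIso (NatTrans.app L.t X) := NatIso.isIso_app_of_isIso (F := j) (G := j) L.t X
  exact (congrArg IsIso (Pol.lift_lin j L.t e)).mpr (pol_isIso (M := j.obj X) _ _
    (by rw [← j.map_comp, h]) (NatTrans.naturality L.t e))

theorem up_locOn : LocOn (ofF.{v, u, v'', u''} (Pol.lift j L.t)).D (upN.{v, u} A)
    (upA.{v, u} A).bdd := by
  refine Am.proadj (G := ⊤) (G' := ⊤) _ (Cl.le fun _ ⟨_, _, _, k⟩ => up_bdd k)
    (Cl.le (S := Zr.inverseImage (ofF.{v, u, v'', u''} (Pol.lift j L.t)).D)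
      fun _ ⟨X, _, _, k⟩ => up_zero _ k (up_isIso j L _ (Category.id_comp _))) le_rfl
    (fun g _ => Am.of_pj g) (fun g _ => Am.of_pj (j.obj (Pol.as g))) (fun g P _ _ φ => ?_)
    fun g P _ _ ψ z => ⟨g, _, trivial, up_trW g 0, ?_⟩
  · obtain ⟨m, f, e⟩ := L.span (X := Pol.as g) (Y := Pol.as P) φ
    refine ⟨g, _, f, trivial, up_trW g m, Eq.trans (congrArg (· ≫ φ) ?_) e⟩
    exact (Pol.lift_mon j L.t m _).trans (by rw [j.map_id, Category.comp_id])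
  · rw [show ψ = 0 from L.indep (X := Pol.as g) (Y := Pol.as P) ψ z]
    exact comp_zero

theorem up_loc : Loc (ofF.{v, u, v'', u''} (Pol.lift j L.t)).D
    ((ofF.{v, u, v'', u''} (Pol.lift j L.t)).ker (upA.{v, u} A).bdd) (upA.{v, u} A).bdd
    ((Am.of.{v'', u''} Q).gen j.essImage) := by
  have k := up_locOn.{v, u, v'', u''} j L
  have le : upN.{v, u} A ≤ (ofF.{v, u, v'', u''} (Pol.lift j L.t)).ker (upA.{v, u} A).bdd :=
    fun X a => ⟨k.le X a, k.kill X a⟩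
  have e₀ : (Pol.lift j L.t).essImage = j.essImage := funext fun _ => propext
    ⟨fun ⟨X, i⟩ => ⟨X.as, i⟩, fun ⟨X, i⟩ => ⟨⟨X⟩, i⟩⟩
  have e : (upA.{v, u} A).bdd.map (ofF.{v, u, v'', u''} (Pol.lift j L.t)).D =
      (Am.of.{v'', u''} Q).gen j.essImage :=
    (k.map_cl.trans (Am.gen_map_eq _ _)).trans (congrArg _ ((ofF_top _).trans e₀))
  rw [← e]
  exact
    { le := inf_le_left
      kill := fun _ a => a.2
      full := fun a b φ => by
        obtain ⟨Y', s, f, c, q⟩ := k.full a b φ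
        exact ⟨Y', s, f, ObjectProperty.trW_monotone le _ c, q⟩
      faith := fun a b f z => by
        obtain ⟨Y', s, c, q⟩ := k.faith a b f z
        exact ⟨Y', s, ObjectProperty.trW_monotone le _ c, q⟩
      thick := fun _ a b => ⟨a, b⟩
      maps := fun _ a => ObjectProperty.prop_map_obj _ _ a
      surj := fun _ a => a }

omit [HasZeroObject U] [HasBinaryBiproducts U] in
theorem up_res {V : Type (max u₃ v₃)} [Category.{v₃} V] [Preadditive V] [HasZeroObject V]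
    [HasBinaryBiproducts V] (κ : A ⥤ U) [κ.Additive] {y R : U ⥤ V} [R.Additive] {T : R ⟶ R}
    {π : R ⟶ y} (s : Spl T π) {x : A} {c : U} {e : x ⟶ x} (i : c ⟶ κ.obj x) (r : κ.obj x ⟶ c)
    (h : i ≫ r = 𝟙 c) (he : κ.map e = r ≫ i) {Z : (upA.{v, u} A).D} {p : _ ⟶ Z} {δ : Z ⟶ _}
    (k : Triangle.mk ((upA.{v, u} A).sg.map (Pol.lin e)) p δ ∈ distTriang _) :
    Nonempty ((ofF.{v, u, v₃, u₃} (Pol.lift (κ ⋙ R) (Functor.whiskerLeft κ T))).D.obj Z ≅
      (Am.of.{v₃, u₃} V).sg.obj (y.obj c)) := by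
  have q : (Pol.lift (κ ⋙ R) (Functor.whiskerLeft κ T)).map (Pol.lin e) =
      T.app _ ≫ R.map (r ≫ i) + (𝟙 _ - R.map (r ≫ i)) := by
    rw [← he]
    exact Pol.lift_lin (κ ⋙ R) (Functor.whiskerLeft κ T) e
  obtain ⟨δ', k'⟩ := kar_tri.{v₃, u₃}
    ((congrArg (Spl · (π.app _ ≫ y.map r)) q).mpr (pol_spl s i r h))
  exact up_cone (ofF.{v, u, v₃, u₃} (Pol.lift (κ ⋙ R) (Functor.whiskerLeft κ T))) k k'

include L in
theorem up_aux {V : Type (max u₃ v₃)} [Category.{v₃} V] [Preadditive V] [HasZeroObject V]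
    [HasBinaryBiproducts V] (κ : A ⥤ U) [κ.Additive] [κ.Full] [κ.Faithful] [IsIdempotentComplete U]
    (cof : ∀ c, ∃ (x : A) (i : c ⟶ κ.obj x) (r : κ.obj x ⟶ c), i ≫ r = 𝟙 c)
    {y R : U ⥤ V} [y.Additive] [y.Full] [y.Faithful] [R.Additive] {T : R ⟶ R}
    {π : R ⟶ y} (s : Spl T π) (z : Am.Z ((Am.of.{v'', u''} Q).gen j.essImage)) :
    Subsingleton (K0 (Am.of.{v', u'} U).bdd) := by
  let f := ofF.{v, u, v'', u''} (Pol.lift j L.t)
  let g := ofF.{v, u, v₃, u₃} (Pol.lift (κ ⋙ R) (Functor.whiskerLeft κ T))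
  let G := (Am.of.{v₃, u₃} V).gen y.essImage
  have : Tg G := inferInstanceAs (Tg (Cl _))
  have : Tg ((Am.of.{v'', u''} Q).gen j.essImage) := inferInstanceAs (Tg (Cl _))
  have gy : ∀ c, G ((Am.of.{v₃, u₃} V).sg.obj (y.obj c)) := fun c =>
    Cl.of ⟨_, y.obj_mem_essImage c, ⟨Iso.refl _⟩⟩
  have m₀ : upN.{v, u} A ≤ G.inverseImage g.D := Cl.le fun _ ⟨X, _, _, k⟩ =>
    G.prop_of_iso (up_res.{v, u, v', u', v₃, u₃} κ s (𝟙 _) (𝟙 _) (Category.id_comp _)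
      ((κ.map_id X).trans (Category.id_comp _).symm) k).some.symm (gy _)
  have m : f.ker (upA.{v, u} A).bdd ≤ G.inverseImage g.D := fun X a => by
    obtain ⟨Y, b⟩ := (up_locOn.{v, u, v'', u''} j L).th a.1 a.2
    have := preservesBinaryBiproducts_of_preservesBinaryProducts g.D
    exact gen_thick.{v', u', v₃, u₃} y _ ⟨_, G.prop_of_iso (g.D.mapBiprod X Y) (m₀ _ b)⟩
  have l := up_loc.{v, u, v'', u''} j L
  have d := ofF_deq.{v', u', v₃, u₃} y
  refine up_gen ?_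
  rintro X ⟨c : U, hc, ⟨e₀⟩⟩
  obtain ⟨x, i, r, h⟩ := cof c
  have he := κ.map_preimage (r ≫ i)
  obtain ⟨Z, p, δ, k⟩ := distinguished_cocone_triangle
    ((upA.{v, u} A).sg.map (Pol.lin (κ.preimage (r ≫ i))))
  have a : f.ker (upA.{v, u} A).bdd Z := ⟨up_bdd k, up_zero f k (up_isIso j L _
    (κ.map_injective (by rw [κ.map_comp, he, Category.assoc, reassoc_of% h])))⟩
  have b : (upA.{v, u} A).bdd ((upA.{v, u} A).sg.obj (Pol.mk x)) :=
    Cl.of ⟨_, trivial, ⟨Iso.refl _⟩⟩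
  have h₁ : K0.mk Z a.1 = 0 := left_eq_add.1 (K0.mk_tri k b b a.1)
  have h₂ : K0.mk Z a = 0 := Am.loc_inc_inj 0 l (fun n _ => z n)
    ((Am.knl_mk l.le Z a).trans (h₁.trans (map_zero _).symm))
  have h₃ : K0.mk (S := G) (g.D.obj Z) (m Z a) = 0 := (K0.map_mk g.D m Z a).symm.trans
    ((congrArg (K0.map g.D m) h₂).trans (map_zero _))
  obtain ⟨e₁⟩ := up_res.{v, u, v', u', v₃, u₃} κ s i r h he k
  obtain ⟨e₂⟩ := (ofF.{v', u', v₃, u₃} y).sg_iso
  refine d.k0_bij.1 ((K0.map_mk _ _ _ _).trans (Eq.trans ?_ (h₃.trans (map_zero _).symm)))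
  exact K0.mk_iso ((ofF.{v', u', v₃, u₃} y).D.mapIso e₀.symm ≪≫ e₂.app c ≪≫ e₁.symm) _ _

/-- `Pol A`, `Am.proadj`, `Am.loc_inc_inj`; restriction of polynomial objects to presheaves. -/
theorem up_k0 (κ : A ⥤ U) [κ.Additive] [κ.Full] [κ.Faithful] [IsIdempotentComplete U]
    (cof : ∀ c, ∃ (x : A) (i : c ⟶ κ.obj x) (r : κ.obj x ⟶ c), i ≫ r = 𝟙 c)
    (j : A ⥤ Q) [j.Additive] (L : Lau j) (z : Am.Z ((Am.of.{v'', u''} Q).gen j.essImage)) :
    Subsingleton (K0 (Am.of.{v', u'} U).bdd) := by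
  obtain ⟨y, R, _, _, T, π, _, _, s⟩ := exists_res U
  exact up_aux.{v, u, v', u', v'', u'', max u' v', v' + 1} j L κ cof s z

/-- The form for the users: `j` has the same essential image as `κ`. -/
theorem up (κ : A ⥤ U) [κ.Additive] [κ.Full] [κ.Faithful] [IsIdempotentComplete U]
    (cof : ∀ c, ∃ (x : A) (i : c ⟶ κ.obj x) (r : κ.obj x ⟶ c), i ≫ r = 𝟙 c)
    (j : A ⥤ U) [j.Additive] (L : Lau j) (e : j.essImage = κ.essImage)
    (S : ObjectProperty (Am.of.{v', u'} U).D) [Tg S] (h : (Am.of.{v', u'} U).gen κ.essImage ≤ S)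
    (h' : S ≤ (Am.of.{v', u'} U).bdd) (z : Am.Z S) : Am.Z (Am.of.{v', u'} U).bdd := by
  have cof' : ∀ c, ∃ (x : U) (i : c ⟶ x) (r : x ⟶ c), κ.essImage x ∧ i ≫ r = 𝟙 c := fun c => by
    obtain ⟨x, i, r, k⟩ := cof c
    exact ⟨_, i, r, κ.obj_mem_essImage x, k⟩
  have e₁ := gen_eq_of_cof.{v', u'} _ cof' S h h' (z 0)
  have z' : Am.Z ((Am.of.{v', u'} U).gen j.essImage) := by
    rw [e, e₁]
    exact z
  have e₂ := gen_eq_of_cof.{v', u'} _ cof' _ (h.trans h') le_rfl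
    (up_k0.{v, u, v', u', v', u'} κ cof j L z')
  rw [← e₂, e₁]
  exact z

end KarUp

end Pool.Agent.Lib.MP_5d3e93_al.K
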