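import Pool.Agent.Lib.MP_5d3e93_al.K.Gd
import Pool.Agent.Lib.MP_5d3e93_al.K.Up

/-! From vanishing on a class containing the free objects to vanishing on all objects. -/

open CategoryTheory Limits ZeroObject MulAction

namespace Pool.Agent.Lib.MP_5d3e93_al

open Gr

universe w v u v' u' v'' u''

namespace GC

variable {G : Type w} [Group G] {C : Type u} [Category.{v} C] [Preadditive C]

theorem uz_lau {S : GC (G × Zi) C} (hc : S.Central) {A : Type (max u' v')} [Category.{v'} A]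
    [Preadditive A] {U : Type (max u'' v'')} [Category.{v''} U] [Preadditive U] (j : A ⥤ C)
    [j.Additive] [j.Faithful]
    (h1 : ∀ {X Y : A} (f : X ⟶ Y), S.Sup {g | g.2.toAdd 0 = 0} (j.map f))
    (h2 : ∀ {X Y : A} (x : j.obj X ⟶ j.obj Y), S.Sup {g | g.2.toAdd 0 = 0} x → ∃ f, j.map f = x)
    (κ : C ⥤ U) [κ.Additive] [κ.Full] [κ.Faithful] :
    Nonempty (K.Lau.{v', u', v'', u''} (j ⋙ κ)) := by
  classical
  obtain ⟨φ, ψ, a1, a2, a3, a4, a5⟩ := hc (Multiplicative.ofAdd (Finsupp.single 0 1))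
  let t : End (j ⋙ κ) := ⟨fun X => κ.map (φ (j.obj X)), fun X Y f => by
    simp only [Functor.comp_map, ← κ.map_comp, a5]⟩
  have hp : ∀ (m : ℕ) (X : A), ∃ a : j.obj X ⟶ j.obj X,
      S.HIso (1, Multiplicative.ofAdd (Finsupp.single 0 (m : ℤ))) a ∧
        NatTrans.app (t ^ m) X = κ.map a := by
    intro m X
    induction m with
    | zero => exact ⟨𝟙 _, by simpa using! S.hiso_id _, (κ.map_id _).symm⟩
    | succ m ih =>
      obtain ⟨a, b, c⟩ := ih
      refine ⟨φ _ ≫ a, HIso.comp ⟨a1 _, ψ _, by simpa using a2 _, a3 _, a4 _⟩ b ?_, ?_⟩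
      · rw [Prod.mk_mul_mk, mul_one, ← ofAdd_add, ← Finsupp.single_add]
        push_cast
        rw [add_comm]
      · rw [pow_succ, κ.map_comp, ← c]
        rfl
  choose a ha he using hp
  refine ⟨t, ?_, fun {X Y} x => ?_, fun {X Y} f e => ?_⟩
  · have : ∀ X, IsIso (NatTrans.app t X) := fun X =>
      have : IsIso (φ (j.obj X)) := ⟨ψ _, a3 _, a4 _⟩
      inferInstanceAs (IsIso (κ.map (φ (j.obj X))))
    exact NatIso.isIso_of_isIso_app t
  · obtain ⟨x, rfl⟩ := κ.map_surjective x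
    suffices h : ∃ m₀ : ℕ, ∀ m, m₀ ≤ m → ∃ f : ℕ →₀ (X ⟶ Y),
        a m X ≫ x = f.sum fun k g => a k X ≫ j.map g by
      obtain ⟨m, h⟩ := h
      obtain ⟨f, hf⟩ := h m le_rfl
      refine ⟨m, f, ?_⟩
      simp only [he, Functor.comp_map, ← κ.map_comp]
      rw [hf, Finsupp.sum, Finsupp.sum, κ.map_sum]
    refine (S.sup_top x).induction (P := fun x => ∃ m₀ : ℕ, ∀ m, m₀ ≤ m → ∃ f : ℕ →₀ (X ⟶ Y),
      a m X ≫ x = f.sum fun k g => a k X ≫ j.map g) ⟨0, fun m _ => ⟨0, by simp⟩⟩ ?_ fun g _ => ?_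
    · rintro x y ⟨m₁, k₁⟩ ⟨m₂, k₂⟩
      refine ⟨max m₁ m₂, fun m hm => ?_⟩
      obtain ⟨f₁, e₁⟩ := k₁ m (le_of_max_le_left hm)
      obtain ⟨f₂, e₂⟩ := k₂ m (le_of_max_le_right hm)
      refine ⟨f₁ + f₂, ?_⟩
      rw [Finsupp.sum_add_index' (by simp) (by simp), Preadditive.comp_add, e₁, e₂]
    · refine ⟨(g.2.toAdd 0).natAbs, fun m hm => ?_⟩
      obtain ⟨k, hk⟩ : ∃ k : ℕ, (k : ℤ) = m + g.2.toAdd 0 := ⟨(m + g.2.toAdd 0).toNat, by omega⟩
      obtain ⟨-, b, b1, b2, -⟩ := ha k X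
      obtain ⟨f, hf⟩ := h2 (b ≫ a m X ≫ S.cp g x) (b1.comp ((ha m X).1.comp
        (.of_cp (X := {g}) (S.cp_same g x) rfl) (Z := {_}) (by rintro _ rfl _ rfl; rfl)) (by
          rintro _ rfl _ rfl
          simp [hk]))
      exact ⟨.single k f, by rw [Finsupp.sum_single_index (by simp), hf, reassoc_of% b2]⟩
  · have e' : (f.sum fun k g => a k X ≫ j.map g) = 0 := by
      refine κ.map_injective ?_
      rw [κ.map_zero, ← e, Finsupp.sum, Finsupp.sum, κ.map_sum]
      simp only [he, Functor.comp_map, κ.map_comp]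
    have s : ∀ k : ℕ, S.Sup {g | g.2.toAdd 0 = k} (a k X ≫ j.map (f k)) := fun k =>
      (ha k X).1.comp (h1 _) (by
        rintro _ rfl y hy
        simpa using hy)
    ext k
    by_contra n
    rw [Finsupp.sum, ← Finset.add_sum_erase _ _ (Finsupp.mem_support_iff.2 n),
      add_eq_zero_iff_eq_neg] at e'
    have z : a k X ≫ j.map (f k) = 0 := (s k).eq_zero (Y := {g : G × Zi | g.2.toAdd 0 ≠ (k : ℤ)}) (by
      rw [e']
      exact .neg (.sum _ fun i hi => (s i).mono fun g (hg : _ = (i : ℤ)) (h : _ = (k : ℤ)) =>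
        Finset.ne_of_mem_erase hi (by exact_mod_cast hg.symm.trans h))) fun g h k => k h
    obtain ⟨-, b, -, -, b2⟩ := ha k X
    exact n (j.map_injective (by simpa [reassoc_of% b2] using congrArg (b ≫ ·) z))

variable (S : GC G C) in
/-- Free objects. -/
noncomputable def uzF : C ⥤ S.LQ (Rl.pt ⊤) where
  obj A := ⟨A, .one S () A, 𝟙 A, by simp, fun _ _ _ h => (h trivial).elim⟩
  map f := LQ.homMk f (by simp) (by simp) fun _ _ _ h => (h trivial).elim

instance (S : GC G C) : S.uzF.Additive where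

instance (S : GC G C) : S.uzF.Faithful := ⟨fun h => congrArg (·.1) h⟩

instance (S : GC G C) : S.uzF.Full := ⟨fun f => ⟨f.1, rfl⟩⟩

theorem uz_wk [HasZeroObject C] {S : GC (G × Zi) C} (hc : S.Central) (T : C ⥤ C) [T.Additive]
    [T.Faithful] (ho : ∀ X, T.obj X = X)
    (h1 : ∀ {X Y : C} (f : X ⟶ Y), S.Sup {g | g.2.toAdd 0 = 0} (T.map f))
    (h2 : ∀ {X Y : C} (x : T.obj X ⟶ T.obj Y), S.Sup {g | g.2.toAdd 0 = 0} x → ∃ f, T.map f = x)
    (h : S.ZF) : S.WK ⊤ := by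
  obtain ⟨N, tN, k1, k2, k3⟩ := h
  let A := InducedCategory C (ULift.down.{v})
  let d : A ⥤ C := inducedFunctor _
  have : HasZeroObject A := ⟨⟨ULift.up 0, (IsZero.iff_id_eq_zero _).2
    (d.map_injective ((isZero_zero C).eq_of_src _ _))⟩⟩
  have : HasBinaryBiproducts A := ⟨fun X Y => hasBinaryBiproduct_of_total
    { pt := ULift.up (S.sum X.down Y.down)
      fst := InducedCategory.homMk (S.fst _ _)
      snd := InducedCategory.homMk (S.snd _ _)
      inl := InducedCategory.homMk (S.inl _ _)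
      inr := InducedCategory.homMk (S.inr _ _)
      inl_fst := InducedCategory.hom_ext (S.inl_fst _ _)
      inl_snd := InducedCategory.hom_ext (S.inl_snd _ _)
      inr_fst := InducedCategory.hom_ext (S.inr_fst _ _)
      inr_snd := InducedCategory.hom_ext (S.inr_snd _ _) } (InducedCategory.hom_ext (S.total _ _))⟩
  obtain ⟨L⟩ := uz_lau.{w, v, u, v, u, v, u} (A := A) hc (d ⋙ T) (fun f => h1 _) (fun x hx => by
    obtain ⟨f, rfl⟩ := h2 x hx
    exact ⟨InducedCategory.homMk f, rfl⟩) S.uzF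
  have le : S.top.gen (d ⋙ S.uzF).essImage ≤ N := by
    refine Cl.le ?_
    rintro X ⟨M, ⟨Y, ⟨e⟩⟩, ⟨e'⟩⟩
    exact k1 _ (Cl.of ⟨(d ⋙ S.uzF).obj Y, rfl, ⟨S.top.sg.mapIso e ≪≫ e'⟩⟩)
  let N' : ObjectProperty (Am.of.{v, u} (S.LQ (Rl.pt ⊤))).D := N
  have : Tg N' := tN
  refine K.up.{v, u, v, u} (A := A) (d ⋙ S.uzF) (fun c => ⟨ULift.up c.A,
    LQ.homMk c.p c.idem (Category.comp_id _) fun _ _ _ h => (h trivial).elim,
    LQ.homMk c.p (Category.id_comp _) c.idem fun _ _ _ h => (h trivial).elim,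
    LQ.hom_ext c.idem⟩) _ L ?_ N' le k2 k3
  ext M
  exact exists_congr fun X => by
    change Nonempty (S.uzF.obj (T.obj X.down) ≅ M) ↔ Nonempty (S.uzF.obj X.down ≅ M)
    rw [ho]

end GC

/-- The shift of the coordinates. -/
noncomputable def uzS (G : Type w) [Group G] : G × Zi →* G × Zi :=
  (MonoidHom.id G).prodMap
    (AddMonoidHom.toMultiplicative (Finsupp.mapDomain.addMonoidHom Nat.succ))

theorem uzS_inj (G : Type w) [Group G] : Function.Injective (uzS G) :=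
  Function.injective_id.prodMap (Finsupp.mapDomain_injective Nat.succ_injective)

theorem uzS_range (G : Type w) [Group G] :
    ((uzS G).range : Set (G × Zi)) = {g | g.2.toAdd 0 = 0} := by
  ext g
  constructor
  · rintro ⟨x, rfl⟩
    exact Finsupp.mapDomain_of_notMem_range _ _ (by simp)
  · intro h
    refine ⟨(g.1, Multiplicative.ofAdd (g.2.toAdd.comapDomain Nat.succ Nat.succ_injective.injOn)),
      Prod.ext rfl ?_⟩
    refine Finsupp.mapDomain_comapDomain _ Nat.succ_injective _ fun n hn => ?_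
    obtain _ | n := n
    · exact (Finsupp.mem_support_iff.1 hn h).elim
    · exact ⟨n, rfl⟩

variable {Γ : Type w} [Group Γ] {C : Type u} [Category.{v} C] [Preadditive C]
  [HasBinaryBiproducts C] [HasZeroObject C] {σ : Act Γ C}

theorem kz_of_zf (h : (SZ σ).ZF) : KZ σ := by
  let T : TwZ σ ⥤ TwZ σ := Tw.pushF (ρ := σ.comap (.fst Γ Zi)) (uzS Γ)
  have : T.Additive := inferInstanceAs (Tw.pushF (ρ := σ.comap (.fst Γ Zi)) (uzS Γ)).Additive
  have : T.Faithful := Tw.push_faithful (ρ := σ.comap (.fst Γ Zi)) (uzS_inj Γ)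
  exact GC.uz_wk (twGC_central σ) T (fun _ => rfl)
    (fun f => uzS_range Γ ▸ sup_push (ρ := σ.comap (.fst Γ Zi)) (j := uzS Γ) f)
    (fun x hx => push_surj (ρ := σ.comap (.fst Γ Zi)) (j := uzS Γ) x (uzS_range Γ ▸ hx)) h

end Pool.Agent.Lib.MP_5d3e93_al
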