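import Pool.Agent.Lib.MP_5d3e93_al.K.Nil
import Pool.Agent.Lib.MP_5d3e93_al.K.Back
import Pool.Agent.Lib.MP_5d3e93_al.K.Tw
import Pool.Agent.Lib.MP_5d3e93_al.K.UpZ
import Pool.Agent.Lib.MP_5d3e93_al.K.Tree
import Pool.Agent.Lib.MP_5d3e93_al.K.Ref
import Pool.Agent.Lib.MP_5d3e93_al.K.Tri
import Pool.Agent.Lib.MP_5d3e93_al.K.Union
import Pool.Agent.Lib.MP_5d3e93_al.K.Diag
import Pool.Agent.Lib.MP_5d3e93_al.K.Push
import Pool.Agent.Lib.MP_5d3e93_al.K.LineA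

/-! Vanishing in all degrees over graded posets of rank at most one. -/

open CategoryTheory Limits ZeroObject MulAction

namespace Pool.Agent.Lib.MP_5d3e93_al

universe w v u

open Gr

variable {Γ : Type w} [Group Γ] {C : Type u} [Category.{v} C] [Preadditive C]
  [HasBinaryBiproducts C] [HasZeroObject C] {σ : Act Γ C}

theorem kz_bhs (ω : Ch Γ) (hK : KZ (σ.comap ω.ker.subtype))
    (hp : (SZ σ).GI (.fst Γ Zi) (Tm ω PUnit.{w + 1}) fun a b => b.t = a.t + 1)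
    (hm : (SZ σ).GI (.fst Γ Zi) (Tm ω.neg PUnit.{w + 1}) fun a b => b.t = a.t + 1) : KZ σ := by
  have hW := (kz_sub _).1 hK
  have st {d e : Dt (lnT ω) (lnT_smul ω)} (h : d.st e) :
      e.a.t = d.b.t ∧ d.b.t - d.a.t = e.b.t - e.a.t := by
    have a : e.a.t = d.b.t := congrArg Tm.t h.1
    have b : e.b.t ≠ d.a.t := fun k => h.2 (Tm.ln_ext k)
    rcases d.adj with p | p <;> rcases e.adj with q | q <;> omega
  have ta (g : Γ) (d : Dt (lnT ω) (lnT_smul ω)) : (g • d).a.t = ω g + d.a.t := rfl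
  have tb (g : Γ) (d : Dt (lnT ω) (lnT_smul ω)) : (g • d).b.t = ω g + d.b.t := rfl
  refine kz_of_zf (GC.zf_tree (.fst Γ Zi) (lnT_tree ω) (lnT_smul ω) (fun g a b h e f => ?_)
    (fun a => by rw [lnT_stab]; exact hW) (fun d => ?_) fun m => ?_)
  · have e' : ω g + a.t = b.t := congrArg Tm.t e
    have f' : ω g + b.t = a.t := congrArg Tm.t f
    rcases h with h | h <;> omega
  · rw [show stabilizer Γ d = ω.ker from Subgroup.ext fun g =>
      ⟨fun k => lnT_stab ω d.a ▸ congrArg Dt.a k, fun k => Dt.ext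
        (show g ∈ stabilizer Γ d.a from (lnT_stab ω d.a).symm ▸ k)
        (show g ∈ stabilizer Γ d.b from (lnT_stab ω d.b).symm ▸ k)⟩]
    exact hW
  refine GC.gm_tri (fun d => d.b.t - d.a.t) (fun a g b h => ?_) (fun a g b h => ?_) fun k => ?_
  · rw [show a = g.1 • b from h, ta, tb]
    omega
  · have := (st h).2
    rw [ta, tb] at this
    omega
  by_cases e : k = 1
  · refine GC.Gm.push Dt.a (fun a g b h => congrArg Dt.a h.1) (fun a g b h => ?_) (hp m)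
    have := (st h.1).1
    have := h.2.1
    change (g.1 • b).a.t = a.a.t + 1
    change (g.1 • b).a.t = _ at *
    omega
  · refine GC.Gm.push (fun d => ⟨⟨⟩, -d.a.t⟩) (fun a g b h => Tm.ln_ext ?_) (fun a g b h => ?_)
      (hm m)
    · rw [show a = g.1 • b from h.1, ta]
      exact neg_add ..
    · have p : ω g.1 + b.a.t = a.b.t := (st h.1).1
      have q := h.2.1
      change -ω g.1 + -b.a.t = -a.a.t + 1
      rcases a.adj with r | r <;> omega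

variable {Y : Type w} [Preorder Y] [MulAction Γ Y] {κ : Type} [Fintype κ] (P : Gp Γ Y κ)
  (hs : Sw σ) (hL : Lcd Y σ) (hY : ∀ y : Y, Finite (stabilizer Γ y))
include P hs hL hY

theorem kz_flat (hχ : ∀ g i, P.χ i g = 0) : KZ σ := by
  have e (g : Γ) (y) : P.h (g • y) = P.h y := funext fun i => by rw [P.smul, hχ, zero_add]
  refine GC.Zq.refine (hL.lcq P.hm) (GC.zq_tri (fun a => ∑ i, P.h a.1 i)
    (fun a g b h => Finset.sum_le_sum fun i _ => e g.1 b.1 ▸ P.mono h.1 i) fun k => ?_)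
  have q {x y : Y} {g : Γ} (h : x ≤ g • y) (l : ∑ i, P.h x i = ∑ i, P.h y i) : x = g • y :=
    P.uniq le_rfl h h le_rfl (funext fun i => by
      rw [e]
      exact (Finset.sum_eq_sum_iff_of_le fun i _ => e g y ▸ P.mono h i).1 l i (Finset.mem_univ i))
  refine GC.zq_diag (fun a g b h => ⟨⟨?_, trivial⟩, h.2.2, h.2.1⟩) fun a H h => ?_
  · have := q h.1.1 (h.2.1.trans h.2.2.symm)
    change b.1 ≤ g.1⁻¹ • a.1
    rw [this]
    exact (inv_smul_smul g.1 b.1).ge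
  · have := hY a.1
    rw [show H = (stabilizer Γ a.1).comap (.fst Γ Zi) from Subgroup.ext fun g => (h g).trans
      ⟨fun l => (q l.1.1 rfl).symm, fun l => ⟨⟨Eq.ge l, trivial⟩, ((h 1).1 H.one_mem).2⟩⟩]
    exact wk_sw hs _ 1 inferInstance

omit hL in
theorem ln_box {ω : Ch Γ} {c : κ → ℤ} (hc : ∀ g i, P.χ i g = ω g * c i) (N : ℤ) (d : ℕ) :
    (SZ σ).GQ (Rl.act (.fst Γ Zi) (P.Fl (ω := ω) c N d) Gp.Fl.trans (Gp.Fl.smul hc))
      fun a g b => P.R c N d a (MonoidHom.fst Γ Zi g • b) := by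
  have fin (a : Tm ω Y) : Finite (stabilizer Γ a) :=
    have := hY a.y
    Finite.of_injective _ (Subgroup.inclusion_injective (show stabilizer Γ a ≤ stabilizer Γ a.y from
      fun _ k => congrArg Tm.y k))
  induction d with
  | zero =>
    exact fun m => GC.Gm.push id (fun _ _ _ h => Gp.Fl.eq h) (fun _ _ _ h => h)
      (GC.gi_fin (.fst Γ Zi) (wk_sw hs) _ fin _ (Gp.R.smul hc) Gp.R.uniq m)
  | succ d ih =>
    exact GC.gq_back (.fst Γ Zi) (fun p r => p.y ≤ r.y ∧ r.t = p.t + 1) (P.Bk c N d) _ _ _ _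
      (Gp.R.smul hc) (fun g a b h => ⟨P.hm g _ _ h.1,
        show ω g + b.t = ω g + a.t + 1 by rw [h.2, add_assoc]⟩) (Gp.Bk.ln_smul hc) fin
      (fun p => ∑ i with 0 < c i, P.off c p i) (fun _ _ h => h.lt) _
      (fun _ _ h => ⟨h.2.2.2.1.ln_abs, h.2.2.2.2.ln_abs⟩)
      (fun _ _ _ h k => ⟨h.1.trans k.1, by rw [k.2.1, h.2.1],
        fun i l => (h.2.2.1 i l).trans (k.2.2.1 i l), h.2.2.2.1, k.2.2.2.2⟩)
      (fun _ _ _ h k => ⟨h.1.trans k.1, by rw [k.2.1, h.2.1],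
        fun i l => (h.2.2.1 i l).trans (k.2.2.1 i l), h.2.2.2.1, k.2.2.2.2⟩)
      (fun _ _ _ h k => ⟨h.1.trans k.1, by rw [k.2, h.2.1]⟩)
      (fun _ _ _ h k => ⟨h.1.trans k.1, by rw [k.2.1, h.2]⟩) Gp.ln_j1
      (fun _ _ _ _ _ _ h b a b' a' => Gp.ln_j2 h b a.1 b' a'.1)
      (fun _ _ _ _ b h b' a => Gp.ln_j3 b h b' a.1) ih

theorem gi_line {ω : Ch Γ} {c : κ → ℤ} (hc : ∀ g i, P.χ i g = ω g * c i) :
    (SZ σ).GI (.fst Γ Zi) (Tm ω PUnit.{w + 1}) fun a b => b.t = a.t + 1 := by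
  intro m
  let l (p : Tm ω Y) : ℤ := ∑ i with c i ≤ 0, P.off c p i
  have e (g : Γ) (p) : l (g • p) = l p := by simp only [l, Gp.off_smul hc]
  have q {p r : Tm ω Y} (h : ∀ i, c i ≤ 0 → P.off c p i ≤ P.off c r i) :
      l p ≤ l r ∧ (l p = l r → ∀ i, c i ≤ 0 → P.off c p i = P.off c r i) :=
    ⟨Finset.sum_le_sum fun i k => h i (Finset.mem_filter.1 k).2, fun f i k =>
      (Finset.sum_eq_sum_iff_of_le fun i k => h i (Finset.mem_filter.1 k).2).1 f i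
        (by simpa using k)⟩
  refine GC.Gm.refine (hL.lcq P.hm) (GC.Gm.push (Y' := Tm ω Y) (fun a => ⟨a.1, a.2.t⟩)
    (P' := Rl.act (.fst Γ Zi) (fun p r => p.y ≤ r.y ∧ r.t = p.t)
      (fun _ _ _ h k => ⟨h.1.trans k.1, k.2.trans h.2⟩) fun g a b h =>
        ⟨P.hm g _ _ h.1, show ω g + b.t = ω g + a.t by rw [h.2]⟩)
    (B' := fun a g b => a.y ≤ (g.1 • b).y ∧ (g.1 • b).t = a.t + 1)
    (fun a g b h => ⟨h.1, (congrArg Tm.t h.2).symm⟩) (fun a g b h => h) (GC.gm_tri l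
      (fun a g b h => e g.1 b ▸ (q fun i _ => Gp.ln_off h.1 h.2 i).1)
      (fun a g b h => e g.1 b ▸ (q fun i k => Gp.ln_off' h.1 h.2 k).1) fun k => ?_))
  refine GC.Gm.push id (P' := Rl.act (.fst Γ Zi)
      (fun p r : Tm ω Y => p.y ≤ r.y ∧ r.t = p.t ∧ ∀ i, c i ≤ 0 → P.off c p i = P.off c r i)
      (fun _ _ _ h k => ⟨h.1.trans k.1, k.2.1.trans h.2.1,
        fun i l => (h.2.2 i l).trans (k.2.2 i l)⟩) fun g a b h =>
        ⟨P.hm g _ _ h.1, show ω g + b.t = ω g + a.t by rw [h.2.1], by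
          simp only [Gp.off_smul hc]; exact h.2.2⟩)
    (B' := fun a g b => a.y ≤ (g.1 • b).y ∧ (g.1 • b).t = a.t + 1 ∧
      ∀ i, c i ≤ 0 → P.off c a i = P.off c (g.1 • b) i)
    (fun a g b h => ⟨h.1.1, h.1.2, (q fun i _ => Gp.ln_off h.1.1 h.1.2 i).2
      (h.2.1.trans (h.2.2.symm.trans (e g.1 b).symm))⟩)
    (fun a g b h => ⟨h.1.1, h.1.2, (q fun i k => Gp.ln_off' h.1.1 h.1.2 k).2
      (h.2.1.trans (h.2.2.symm.trans (e g.1 b).symm))⟩) ?_
  refine GC.gm_union (ι := ℕ) _ _ (fun i j f a g b h => ?_) (fun i a g b h => ?_)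
    (fun a g b h => ?_) (fun i j f a g b h => ?_) (fun a g b h => ?_)
    fun n => ln_box P hs hY hc (-n) (2 * n) m
  · exact ⟨h.1, h.2.1, h.2.2.1, h.2.2.2.1.ln_mono f, h.2.2.2.2.ln_mono f⟩
  · exact ⟨h.1, h.2.1, h.2.2.1⟩
  · exact (Gp.ln_box a (g.1 • b)).imp fun _ k => ⟨h.1, h.2.1, h.2.2, k⟩
  · exact ⟨h.1, h.2.1, h.2.2.1, h.2.2.2.1.ln_mono f, h.2.2.2.2.ln_mono f⟩
  · exact (Gp.ln_box a (g.1 • b)).imp fun _ k => ⟨h.1, h.2.1, h.2.2, k⟩

theorem kz_line (ω : Ch Γ) (h : ∀ g, ω g = 0 → ∀ i, P.χ i g = 0) : KZ σ := by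
  by_cases z : ∃ g, ω g ≠ 0
  swap
  · exact kz_flat P hs hL hY fun g => h g (by_contra fun k => z ⟨g, k⟩)
  obtain ⟨ω', t, c, d⟩ := ω.norm z
  have e (g i) : P.χ i g = ω' g * P.χ i t := ω'.line c (fun g k => h g ((d g).1 k) i) g
  exact kz_bhs ω' (kz_flat (P.comap ω'.ker.subtype fun _ _ => rfl) (hs.comap _)
    (hL.comap _ fun _ _ => rfl) (fun y => have := hY y; Finite.of_injective
      (fun g : stabilizer ω'.ker y => (⟨g.1.1, g.2⟩ : stabilizer Γ y))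
      fun _ _ k => Subtype.ext (Subtype.ext (Subtype.mk.inj k)))
    fun g => h g ((d g).1 g.2)) (gi_line P hs hL hY e)
    (gi_line P hs hL hY (c := fun i => -P.χ i t) fun g i => by rw [e g i]; simp [Ch.neg])

end Pool.Agent.Lib.MP_5d3e93_al
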