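import Pool.Agent.Lib.MP_5d3e93_al.K.HIn
import Pool.Agent.Lib.MP_5d3e93_al.K.FamA

/-! Descent that stops at locally hyper subgroups or inside a family. -/

open CategoryTheory Limits ZeroObject MulAction Subgroup

namespace Pool.Agent.Lib.MP_5d3e93_al

universe w v u

open Gr

namespace Fam

variable {Γ Γ' : Type w} [Group Γ] [Group Γ'] (𝓕 : Fam Γ)

/-- One step of the descent. -/
def S2 (D₁ D : Subgroup Γ) : Prop := ∃ t, ¬ LocHyper D ∧ ¬ 𝓕.m (D ⊔ zpowers t) ∧ D₁ ≤ cj D t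

/-- Subgroups from which the descent terminates. -/
def Tm (D : Subgroup Γ) : Prop := Acc 𝓕.S2 D

/-- The family together with the locally hyper subgroups. -/
def pl : Fam Γ where
  m H := LocHyper H ∨ 𝓕.m H
  le h := Or.imp (Cl.le (s := LH) h) (𝓕.le h)
  conj {H} g := Or.imp (LH.inj (H.equivMapOfInjective _ (MulAut.conj g).injective).symm.toMonoidHom
    (MulEquiv.injective _)) (𝓕.conj g)

variable {𝓕} {D D' : Subgroup Γ}

theorem Tm.mem (h : 𝓕.Tm D) : 𝓕.pl.m D := by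
  induction h with
  | intro D _ ih =>
    by_contra k
    exact k (ih D ⟨1, fun a => k (.inl a), fun a => k (.inr (𝓕.le le_sup_left a)),
      fun x hx => mem_cj.2 ⟨hx, by simpa⟩⟩)

theorem Tm.le (h : 𝓕.Tm D) (k : D' ≤ D) : 𝓕.Tm D' :=
  ⟨_, fun _ ⟨t, o, a, b⟩ => Acc.inv h ⟨t, fun c => o (Cl.le (s := LH) k c),
    fun c => a (𝓕.le (sup_le_sup_right k _) c),
    fun _ hx => mem_cj.2 ⟨k (mem_cj.1 (b hx)).1, k (mem_cj.1 (b hx)).2⟩⟩⟩

theorem Tm.comap {j : Γ' →* Γ} {E : Subgroup Γ'} (h : 𝓕.Tm D) (i : Set.InjOn j E)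
    (k : E.map j ≤ D) : (𝓕.comap j).Tm E := by
  induction h generalizing E with
  | intro D _ ih =>
    refine ⟨_, fun E₁ ⟨t, o, a, b⟩ => ih (E₁.map j) ⟨j t, fun c => o (Cl.map (s := LH) i k c),
      fun c => a (𝓕.le ?_ c), ?_⟩ (i.mono fun _ c => (mem_cj.1 (b c)).1) le_rfl⟩
    · rw [Subgroup.map_sup, MonoidHom.map_zpowers]
      exact sup_le_sup_right k _
    · rintro _ ⟨x, hx, rfl⟩
      obtain ⟨p, q⟩ := mem_cj.1 (b hx)
      exact mem_cj.2 ⟨k ⟨x, p, rfl⟩, k ⟨_, q, by simp⟩⟩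

theorem tm_lh (h : LocHyper D) : 𝓕.Tm D := ⟨_, fun _ ⟨_, a, _⟩ => (a h).elim⟩

end Fam

variable {Γ : Type w} [Group Γ] {C : Type u} [Category.{v} C] [Preadditive C]
  [HasBinaryBiproducts C] [HasZeroObject C] {σ : Act Γ C} {𝓕 : Fam Γ}

/-- Vanishing on a family and swindles for virtually cyclic groups. -/
def W2 (𝓕 : Fam Γ) (σ : Act Γ C) : Prop := Wf 𝓕 σ ∧ Sw σ

theorem W2.comap (h : W2 𝓕 σ) {H : Type w} [Group H] (j : H →* Γ) (hj : Function.Injective j) :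
    W2 (𝓕.comap j) (σ.comap j) := ⟨h.1.comap j hj, h.2.comap j⟩

theorem W2.wk (h : W2 𝓕 σ) (V : Subgroup Γ) (hV : 𝓕.pl.m V) : (SZ σ).WK (V.comap (.fst Γ Zi)) :=
  hV.elim (fun a => (kz_sub V).1 (kz_lh (h.2.comap _) a)) (h.1.wk V)

theorem gd_lh (hs : Sw σ) {D : Subgroup Γ} {g : Γ} (hF : Fr D (dc D g)) (h : LocHyper D) :
    GD σ D g := kd_small (ρ := σ) (s := LH) (ik_lh hs.k0 (kz_sw hs)) hF h (.id Γ)

theorem stab_pair {Y : Type w} [MulAction Γ Y] (a : Y) (t : Γ) :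
    stabilizer Γ (⟨_, mem_orbit_self _⟩ : orbit Γ (a, t • a)) = cj (stabilizer Γ a) t := by
  refine Subgroup.ext fun d => (Subtype.ext_iff.trans Prod.ext_iff).trans (Iff.trans ?_ mem_cj.symm)
  change d • a = a ∧ d • t • a = t • a ↔ d • a = a ∧ (t⁻¹ * d * t) • a = a
  rw [mul_smul, mul_smul, inv_smul_eq_iff]

open GC in
theorem gi_tm1 (hs : W2 𝓕 σ) {D : Subgroup Γ} (hD : 𝓕.Tm D) : ∀ (Y : Type w) [MulAction Γ Y],
    (∀ a : Y, 𝓕.Tm (stabilizer Γ a)) → ∀ a b : Y, stabilizer Γ a = D →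
      Unq (fun x y => (x, y) ∈ orbit Γ (a, b)) →
      (SZ σ).GI (.fst Γ Zi) Y fun x y => (x, y) ∈ orbit Γ (a, b) := by
  induction hD with
  | intro D _ ih =>
    rintro Y _ tm a b rfl hu
    by_cases e : b ∈ orbit Γ a
    swap
    · exact gi_ne e
    obtain ⟨t, rfl⟩ := e
    by_cases o : LocHyper (stabilizer Γ a)
    · exact gi_of_gs Prod.fst_surjective (gd_lh hs.2 (fr_of_unq hu) o)
    by_cases k : 𝓕.m (stabilizer Γ a ⊔ Subgroup.zpowers t)
    · exact gi_grp hs.wk (fun x => (tm x).mem) (.inr k) le_sup_left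
        (Subgroup.mem_sup_right (Subgroup.mem_zpowers t))
    have tm' (r : orbit Γ (a, t • a)) : 𝓕.Tm (stabilizer Γ r) :=
      (tm r.1.1).le fun g l => congrArg (fun r : orbit Γ (a, t • a) => r.1.1) l
    refine gi_stepZ (fun y => hs.wk _ (tm y).mem) (fun r => hs.wk _ (tm' r).mem)
      (gi_orb (fun _ => True) (fun r r' _ l => ?_) _ (fun g r r' l => congrArg (g • ·) l)
        (unq_step hu) fun _ _ _ => trivial)
    let r₀ : orbit Γ (a, t • a) := ⟨_, mem_orbit_self _⟩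
    obtain ⟨g, rfl⟩ := exists_smul_eq Γ r₀ r
    obtain ⟨r', rfl⟩ := MulAction.surjective g r'
    have p : orbit Γ (g • r₀, g • r') = orbit Γ (r₀, r') := orbit_smul g (r₀, r')
    simp only [p] at l ⊢
    exact ih _ ⟨t, o, k, (stab_pair a t).le⟩ _ tm' r₀ r' rfl l

theorem gi_tm (hs : W2 𝓕 σ) (Y : Type w) [MulAction Γ Y] (tm : ∀ a : Y, 𝓕.Tm (stabilizer Γ a))
    (R : Y → Y → Prop) (hR : ∀ (g : Γ) a b, R a b → R (g • a) (g • b)) (hu : Unq R) :
    (SZ σ).GI (.fst Γ Zi) Y R :=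
  GC.gi_orb (fun _ => True) (fun a b _ => gi_tm1 hs (tm a) Y tm a b rfl) R hR hu
    fun _ _ _ => trivial

end Pool.Agent.Lib.MP_5d3e93_al
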