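import Pool.Agent.Lib.MP_5d3e93_al.K.LineT
import Pool.Agent.Lib.MP_5d3e93_al.K.Tm

/-! Vanishing in all degrees over graded posets of rank at most one, stabilisers with terminating descent. -/

open CategoryTheory Limits ZeroObject MulAction

namespace Pool.Agent.Lib.MP_5d3e93_al

universe w v u

open Gr

variable {Γ : Type w} [Group Γ] {C : Type u} [Category.{v} C] [Preadditive C]
  [HasBinaryBiproducts C] [HasZeroObject C] {σ : Act Γ C} {𝓕 : Fam Γ}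
  {Y : Type w} [Preorder Y] [MulAction Γ Y] {κ : Type} [Fintype κ]

section

variable (P : Gp Γ Y κ) (hs : W2 𝓕 σ) (hL : Lcd Y σ) (hY : ∀ y : Y, 𝓕.Tm (stabilizer Γ y))
include P hs hL hY

theorem kz_flat2 (hχ : ∀ g i, P.χ i g = 0) : KZ σ := by
  have e (g : Γ) (y) : P.h (g • y) = P.h y := funext fun i => by rw [P.smul, hχ, zero_add]
  refine GC.Zq.refine (hL.lcq P.hm) (GC.zq_tri (fun a => ∑ i, P.h a.1 i)
    (fun a g b h => Finset.sum_le_sum fun i _ => e g.1 b.1 ▸ P.mono h.1 i) fun k => ?_)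
  have q {x y : Y} {g : Γ} (h : x ≤ g • y) (l : ∑ i, P.h x i = ∑ i, P.h y i) : x = g • y :=
    P.uniq le_rfl h h le_rfl (funext fun i => by
      rw [e]
      exact (Finset.sum_eq_sum_iff_of_le fun i _ => e g y ▸ P.mono h i).1 l i (Finset.mem_univ i))
  refine GC.zq_diag (fun a g b h => ⟨⟨?_, trivial⟩, h.2.2, h.2.1⟩) fun a H h => ?_
  · have := q h.1.1 (h.2.1.trans h.2.2.symm)
    change b.1 ≤ g.1⁻¹ • a.1
    rw [this]
    exact (inv_smul_smul g.1 b.1).ge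
  · rw [show H = (stabilizer Γ a.1).comap (.fst Γ Zi) from Subgroup.ext fun g => (h g).trans
      ⟨fun l => (q l.1.1 rfl).symm, fun l => ⟨⟨Eq.ge l, trivial⟩, ((h 1).1 H.one_mem).2⟩⟩]
    exact hs.wk _ (hY a.1).mem

omit hL in
theorem ln_box2 {ω : Ch Γ} {c : κ → ℤ} (hc : ∀ g i, P.χ i g = ω g * c i) (N : ℤ) (d : ℕ) :
    (SZ σ).GQ (Rl.act (.fst Γ Zi) (P.Fl (ω := ω) c N d) Gp.Fl.trans (Gp.Fl.smul hc))
      fun a g b => P.R c N d a (MonoidHom.fst Γ Zi g • b) := by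
  have tm (a : Tm ω Y) : 𝓕.Tm (stabilizer Γ a) := (hY a.y).le fun _ k => congrArg Tm.y k
  have z (d : ℕ) : (SZ σ).Zq (Rl.act (.fst Γ Zi) (P.Fl (ω := ω) c N d) Gp.Fl.trans
      (Gp.Fl.smul hc)) := GC.zq_pot _ _ _ (fun p => ∑ i with 0 < c i, P.off c p i)
    (fun _ _ h => h.lt) _ (fun _ _ h => ⟨h.2.2.2.1.ln_abs, h.2.2.2.2.ln_abs⟩)
    fun a => hs.wk _ (tm a).mem
  have bl (d : ℕ) (a b e : Tm ω Y) (h : P.Fl c N d a b) (k : P.R c N d b e) : P.R c N d a e :=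
    ⟨h.1.trans k.1, by rw [k.2.1, h.2.1], fun i l => (h.2.2.1 i l).trans (k.2.2.1 i l), h.2.2.2.1,
      k.2.2.2.2⟩
  have br (d : ℕ) (a b e : Tm ω Y) (h : P.R c N d a b) (k : P.Fl c N d b e) : P.R c N d a e :=
    ⟨h.1.trans k.1, by rw [k.2.1, h.2.1], fun i l => (h.2.2.1 i l).trans (k.2.2.1 i l), h.2.2.2.1,
      k.2.2.2.2⟩
  have un {d : ℕ} {q r r' : Tm ω Y} {x : Y} (b : P.Bk c N d q r) (b' : P.Bk c N d q r')
      (a : x ≤ r.y) (a' : x ≤ r'.y) : r = r' :=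
    have t := b.2.1.trans b'.2.1.symm
    Tm.ext (P.uniq a b.1 a' b'.1 (Gp.h_eq t (funext fun i =>
      (b.2.2.2 i).trans (b'.2.2.2 i).symm))) t
  induction d with
  | zero =>
    exact fun m => GC.Gm.push id (fun _ _ _ h => Gp.Fl.eq h) (fun _ _ _ h => h)
      (gi_tm hs _ tm _ (Gp.R.smul hc) Gp.R.uniq m)
  | succ d ih =>
    exact GC.gq_back' (.fst Γ Zi) (fun p r => p.y ≤ r.y ∧ r.t = p.t + 1) (P.Bk c N d) _ _ _ _
      (Gp.R.smul hc) (Gp.R.smul hc) (fun g a b h => ⟨P.hm g _ _ h.1,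
        show ω g + b.t = ω g + a.t + 1 by rw [h.2, add_assoc]⟩) (Gp.Bk.ln_smul hc)
      (fun _ _ h => ⟨⟨le_rfl, rfl, fun _ _ => rfl, h.2.2.2.1, h.2.2.2.1⟩,
        le_rfl, rfl, fun _ _ => rfl, h.2.2.2.2, h.2.2.2.2⟩)
      (fun _ _ _ _ b _ => ⟨le_rfl, rfl, fun _ _ => rfl, b.2.2.1, b.2.2.1⟩)
      (bl _) (br _) (bl _) (br _)
      (fun _ _ _ h k => ⟨h.1.trans k.1, by rw [k.2, h.2.1]⟩)
      (fun _ _ _ h k => ⟨h.1.trans k.1, by rw [k.2.1, h.2]⟩) (fun p q h => (Gp.ln_j1 p q h).exists)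
      (fun _ _ _ _ _ _ h b a b' a' => Gp.ln_j2 h b a.1 b' a'.1)
      (fun _ _ _ _ b h b' a => Gp.ln_j3 b h b' a.1)
      (fun _ _ _ _ b b' a a' => un b b' a.1 a'.1) (fun _ _ _ _ b b' a a' => un b b' a.1 a'.1)
      (z _) (z _) ih

theorem gi_line2 {ω : Ch Γ} {c : κ → ℤ} (hc : ∀ g i, P.χ i g = ω g * c i) :
    (SZ σ).GI (.fst Γ Zi) (Tm ω PUnit.{w + 1}) fun a b => b.t = a.t + 1 := by
  intro m
  let l (p : Tm ω Y) : ℤ := ∑ i with c i ≤ 0, P.off c p i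
  have e (g : Γ) (p) : l (g • p) = l p := by simp only [l, Gp.off_smul hc]
  have q {p r : Tm ω Y} (h : ∀ i, c i ≤ 0 → P.off c p i ≤ P.off c r i) :
      l p ≤ l r ∧ (l p = l r → ∀ i, c i ≤ 0 → P.off c p i = P.off c r i) :=
    ⟨Finset.sum_le_sum fun i k => h i (Finset.mem_filter.1 k).2, fun f i k =>
      (Finset.sum_eq_sum_iff_of_le fun i k => h i (Finset.mem_filter.1 k).2).1 f i
        (by simpa using k)⟩
  refine GC.Gm.refine (hL.lcq P.hm) (GC.Gm.push (Y' := Tm ω Y) (fun a => ⟨a.1, a.2.t⟩)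
    (P' := Rl.act (.fst Γ Zi) (fun p r => p.y ≤ r.y ∧ r.t = p.t)
      (fun _ _ _ h k => ⟨h.1.trans k.1, k.2.trans h.2⟩) fun g a b h =>
        ⟨P.hm g _ _ h.1, show ω g + b.t = ω g + a.t by rw [h.2]⟩)
    (B' := fun a g b => a.y ≤ (g.1 • b).y ∧ (g.1 • b).t = a.t + 1)
    (fun a g b h => ⟨h.1, (congrArg Tm.t h.2).symm⟩) (fun a g b h => h) (GC.gm_tri l
      (fun a g b h => e g.1 b ▸ (q fun i _ => Gp.ln_off h.1 h.2 i).1)
      (fun a g b h => e g.1 b ▸ (q fun i k => Gp.ln_off' h.1 h.2 k).1) fun k => ?_))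
  refine GC.Gm.push id (P' := Rl.act (.fst Γ Zi)
      (fun p r : Tm ω Y => p.y ≤ r.y ∧ r.t = p.t ∧ ∀ i, c i ≤ 0 → P.off c p i = P.off c r i)
      (fun _ _ _ h k => ⟨h.1.trans k.1, k.2.1.trans h.2.1,
        fun i l => (h.2.2 i l).trans (k.2.2 i l)⟩) fun g a b h =>
        ⟨P.hm g _ _ h.1, show ω g + b.t = ω g + a.t by rw [h.2.1], by
          simp only [Gp.off_smul hc]; exact h.2.2⟩)
    (B' := fun a g b => a.y ≤ (g.1 • b).y ∧ (g.1 • b).t = a.t + 1 ∧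
      ∀ i, c i ≤ 0 → P.off c a i = P.off c (g.1 • b) i)
    (fun a g b h => ⟨h.1.1, h.1.2, (q fun i _ => Gp.ln_off h.1.1 h.1.2 i).2
      (h.2.1.trans (h.2.2.symm.trans (e g.1 b).symm))⟩)
    (fun a g b h => ⟨h.1.1, h.1.2, (q fun i k => Gp.ln_off' h.1.1 h.1.2 k).2
      (h.2.1.trans (h.2.2.symm.trans (e g.1 b).symm))⟩) ?_
  refine GC.gm_union (ι := ℕ) _ _ (fun i j f a g b h => ?_) (fun i a g b h => ?_)
    (fun a g b h => ?_) (fun i j f a g b h => ?_) (fun a g b h => ?_)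
    fun n => ln_box2 P hs hY hc (-n) (2 * n) m
  · exact ⟨h.1, h.2.1, h.2.2.1, h.2.2.2.1.ln_mono f, h.2.2.2.2.ln_mono f⟩
  · exact ⟨h.1, h.2.1, h.2.2.1⟩
  · exact (Gp.ln_box a (g.1 • b)).imp fun _ k => ⟨h.1, h.2.1, h.2.2, k⟩
  · exact ⟨h.1, h.2.1, h.2.2.1, h.2.2.2.1.ln_mono f, h.2.2.2.2.ln_mono f⟩
  · exact (Gp.ln_box a (g.1 • b)).imp fun _ k => ⟨h.1, h.2.1, h.2.2, k⟩

end

theorem kz_line2 (P : Gp Γ Y κ) (hs : W2 𝓕 σ) (hL : Lcd Y σ)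
    (hY : ∀ y : Y, 𝓕.Tm (stabilizer Γ y)) (ω : Ch Γ) (h : ∀ g, ω g = 0 → ∀ i, P.χ i g = 0) :
    KZ σ := by
  by_cases z : ∃ g, ω g ≠ 0
  swap
  · exact kz_flat2 P hs hL hY fun g => h g (by_contra fun k => z ⟨g, k⟩)
  obtain ⟨ω', t, c, d⟩ := ω.norm z
  have e (g i) : P.χ i g = ω' g * P.χ i t := ω'.line c (fun g k => h g ((d g).1 k) i) g
  exact kz_bhs ω' (kz_flat2 (P.comap ω'.ker.subtype fun _ _ => rfl)
    (hs.comap _ ω'.ker.subtype_injective) (hL.comap _ fun _ _ => rfl)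
    (fun y => (hY y).comap ω'.ker.subtype_injective.injOn fun _ ⟨_, a, b⟩ => b ▸ a)
    fun g => h g ((d g).1 g.2)) (gi_line2 P hs hL hY e)
    (gi_line2 P hs hL hY (c := fun i => -P.χ i t) fun g i => by rw [e g i]; simp [Ch.neg])

end Pool.Agent.Lib.MP_5d3e93_al
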