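import Pool.Agent.Lib.MP_5d3e93_al.PrB

/-! The line as a tree and the flat relation of a graded poset. -/

open MulAction

namespace Pool.Agent.Lib.MP_5d3e93_al

universe w w'

variable {Γ : Type w} [Group Γ]

theorem Tm.ln_t {ω : Ch Γ} {Y : Type w'} [MulAction Γ Y] (g : Γ) (p : Tm ω Y) :
    (g • p).t = ω g + p.t := rfl

theorem Tm.ln_ext {ω : Ch Γ} {a b : Tm ω PUnit.{w + 1}} (h : a.t = b.t) : a = b := Tm.ext rfl h

/-- The line graph on the times. -/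
def lnT (ω : Ch Γ) : SimpleGraph (Tm ω PUnit.{w + 1}) where
  Adj a b := b.t = a.t + 1 ∨ a.t = b.t + 1
  symm := ⟨fun _ _ => Or.symm⟩
  loopless := ⟨fun _ h => by omega⟩

theorem lnT_tree (ω : Ch Γ) : (lnT ω).IsTree where
  nonempty := ⟨⟨⟨⟩, 0⟩⟩
  preconnected x y := by
    have (k : ℤ) : (lnT ω).Reachable ⟨⟨⟩, 0⟩ ⟨⟨⟩, k⟩ := by
      induction k using Int.induction_on with
      | zero => rfl
      | succ k ih => exact ih.trans (SimpleGraph.Adj.reachable (.inl rfl))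
      | pred k ih => exact ih.trans (SimpleGraph.Adj.reachable (.inr (by simp)))
    exact (this _).symm.trans (this _)
  isAcyclic := SimpleGraph.isAcyclic_iff_forall_adj_isBridge.2 fun a b e k => by
    have := half_ind (T := lnT ω) (P := fun w => w.t ≤ min a.t b.t ↔ b.t ≤ min a.t b.t) .rfl
      (fun x y _ d f g => by
        have : ¬ (x.t = a.t ∧ y.t = b.t ∨ x.t = b.t ∧ y.t = a.t) := fun l =>
          f (Sym2.eq_iff.2 (l.imp (.imp Tm.ln_ext Tm.ln_ext) (.imp Tm.ln_ext Tm.ln_ext)))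
        rcases d with d | d <;> rcases e with e | e <;> omega)
      (show a ∈ Half (lnT ω) a b from k.symm)
    rcases e with e | e <;> omega

theorem lnT_smul (ω : Ch Γ) (g : Γ) (a b) (h : (lnT ω).Adj a b) : (lnT ω).Adj (g • a) (g • b) := by
  change _ ∨ _
  rw [Tm.ln_t, Tm.ln_t]
  rcases h with h | h <;> omega

theorem lnT_stab (ω : Ch Γ) (a : Tm ω PUnit.{w + 1}) : stabilizer Γ a = ω.ker :=
  Subgroup.ext fun g => ⟨fun k => by
    have : ω g + a.t = a.t := congrArg Tm.t k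
    exact add_eq_right.1 this, fun k => Tm.ln_ext (add_eq_right.2 k)⟩

namespace Gp

variable {Y : Type w'} [Preorder Y] [MulAction Γ Y] {κ : Type} (P : Gp Γ Y κ)
variable {ω : Ch Γ} (c : κ → ℤ) (N : ℤ)

/-- The flat relation inside a box. -/
def Fl (d : ℕ) (p q : Tm ω Y) : Prop := p.y ≤ q.y ∧ q.t = p.t ∧
  (∀ i, c i ≤ 0 → P.off c p i = P.off c q i) ∧ P.Bx c N d p ∧ P.Bx c N d q

variable {P c N} {d : ℕ}

theorem Fl.trans (a b e : Tm ω Y) (h : P.Fl c N d a b) (k : P.Fl c N d b e) : P.Fl c N d a e :=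
  ⟨h.1.trans k.1, k.2.1.trans h.2.1, fun i l => (h.2.2.1 i l).trans (k.2.2.1 i l), h.2.2.2.1,
    k.2.2.2.2⟩

theorem Fl.smul (hc : ∀ g i, P.χ i g = ω g * c i) (g : Γ) (p q : Tm ω Y) (h : P.Fl c N d p q) :
    P.Fl c N d (g • p) (g • q) := by
  refine ⟨P.hm g _ _ h.1, show ω g + q.t = ω g + p.t by rw [h.2.1], ?_⟩
  simp only [Bx, off_smul hc]
  exact h.2.2

theorem Bk.ln_smul (hc : ∀ g i, P.χ i g = ω g * c i) (g : Γ) (p q : Tm ω Y)
    (h : P.Bk c N d p q) : P.Bk c N d (g • p) (g • q) := by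
  refine ⟨P.hm g _ _ h.1, show ω g + q.t = ω g + p.t by rw [h.2.1], ?_⟩
  simp only [Bx, off_smul hc]
  exact h.2.2

theorem ln_off {p q : Tm ω Y} (h : p.y ≤ q.y) (e : q.t = p.t) (i) : P.off c p i ≤ P.off c q i := by
  have : P.h p.y i ≤ P.h q.y i := P.mono h i
  simp only [off, e]
  omega

theorem ln_off' {p q : Tm ω Y} (h : p.y ≤ q.y) (e : q.t = p.t + 1) {i} (k : c i ≤ 0) :
    P.off c p i ≤ P.off c q i := by
  have : P.h p.y i ≤ P.h q.y i := P.mono h i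
  simp only [off, e, add_mul]
  omega

theorem ln_eq {p q : Tm ω Y} (h : p.y ≤ q.y) (e : q.t = p.t) (k : P.off c p = P.off c q) :
    p = q := Tm.ext (P.uniq le_rfl h h le_rfl (h_eq e.symm k)) e.symm

theorem Fl.eq {p q : Tm ω Y} (h : P.Fl c N 0 p q) : p = q := ln_eq h.1 h.2.1 (funext fun i => by
  obtain l | l := le_or_gt (c i) 0
  · exact h.2.2.1 i l
  · have := h.2.2.2.1 i l
    have := h.2.2.2.2 i l
    omega)

theorem Fl.lt [Fintype κ] {p q : Tm ω Y} (h : P.Fl c N d p q) :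
    p = q ∨ ∑ i with 0 < c i, P.off c p i < ∑ i with 0 < c i, P.off c q i := by
  refine (Finset.sum_le_sum fun i _ => ln_off h.1 h.2.1 i).eq_or_lt.imp_left fun e =>
    ln_eq (P := P) (c := c) h.1 h.2.1 (funext fun i => ?_)
  obtain l | l := le_or_gt (c i) 0
  · exact h.2.2.1 i l
  · exact (Finset.sum_eq_sum_iff_of_le fun i _ => ln_off h.1 h.2.1 i).1 e i (by simpa using l)

theorem Bx.ln_abs [Fintype κ] {p : Tm ω Y} (h : P.Bx c N d p) :
    |∑ i with 0 < c i, P.off c p i| ≤ (Fintype.card κ * (N.natAbs + d) : ℕ) := by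
  refine (Finset.abs_sum_le_sum_abs ..).trans ((Finset.sum_le_card_nsmul _ _
    ((N.natAbs + d : ℕ) : ℤ) fun i k => ?_).trans ?_)
  · have := h i (Finset.mem_filter.1 k).2
    rw [abs_le]
    omega
  · rw [nsmul_eq_mul]
    exact_mod_cast Nat.mul_le_mul_right _ (Finset.card_le_univ _)

theorem Bx.ln_mono {i j : ℕ} (k : i ≤ j) {p : Tm ω Y} (h : P.Bx c (-i) (2 * i) p) :
    P.Bx c (-j) (2 * j) p := fun a b => by
  have := h a b
  omega

theorem ln_box [Fintype κ] (p q : Tm ω Y) :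
    ∃ n : ℕ, P.Bx c (-n) (2 * n) p ∧ P.Bx c (-n) (2 * n) q := by
  obtain ⟨n, h⟩ := (Set.finite_range fun i => (P.off c p i).natAbs + (P.off c q i).natAbs).bddAbove
  refine ⟨n, fun i _ => ?_, fun i _ => ?_⟩ <;>
  · have : (P.off c p i).natAbs + (P.off c q i).natAbs ≤ n := h ⟨i, rfl⟩
    omega

theorem ln_j1 (p q : Tm ω Y) (h : P.R c N (d + 1) p q) :
    ∃! r, P.Bk c N d q r ∧ p.y ≤ r.y ∧ r.t = p.t + 1 := by
  obtain ⟨r, a, b⟩ := ex_bk h
  refine ⟨r, ⟨b, a, b.2.1.trans h.2.1⟩, fun r' ⟨b', a', _⟩ => ?_⟩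
  have t := b'.2.1.trans b.2.1.symm
  exact Tm.ext (P.uniq a' b'.1 a b.1 (h_eq t (funext fun i =>
    (b'.2.2.2 i).trans (b.2.2.2 i).symm))) t

theorem ln_j2 {p q q' r r' : Tm ω Y} (h : P.Fl c N (d + 1) q q') (b : P.Bk c N d q r)
    (a : p.y ≤ r.y) (b' : P.Bk c N d q' r') (a' : p.y ≤ r'.y) : P.Fl c N d r r' := by
  have t : r'.t = r.t := b'.2.1.trans (h.2.1.trans b.2.1.symm)
  obtain ⟨y, y1, y2, y3⟩ := P.fac a' (P.mono a) fun i => by
    have e := b.2.2.2 i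
    have e' := b'.2.2.2 i
    have := ln_off (P := P) (c := c) h.1 h.2.1 i
    have f : P.off c r i ≤ P.off c r' i := by
      rw [e, e']
      split_ifs <;> omega
    simp only [off, t] at f
    change P.h r.y i ≤ P.h r'.y i
    omega
  obtain rfl := P.uniq y1 (y2.trans b'.1) a (b.1.trans h.1) y3
  refine ⟨y2, t, fun i l => ?_, b.2.2.1, b'.2.2.1⟩
  rw [b.2.2.2, b'.2.2.2, if_neg l.not_gt, if_neg l.not_gt, h.2.2.1 i l]

theorem ln_j3 {q r q' r' : Tm ω Y} (b : P.Bk c N d q r) (h : P.R c N (d + 1) q q')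
    (b' : P.Bk c N d q' r') (a : q.y ≤ r'.y) : P.R c N d r r' := by
  refine ⟨b.1.trans a, b'.2.1.trans (h.2.1.trans (by rw [b.2.1])), fun i l => ?_, b.2.2.1,
    b'.2.2.1⟩
  rw [b.2.2.2, b'.2.2.2, if_neg l.not_gt, if_neg l.not_gt, h.2.2.1 i l]

end Gp

end Pool.Agent.Lib.MP_5d3e93_al
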