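import Pool.Agent.Lib.MP_5d3e93_al.K.PDef
import Pool.Agent.Lib.MP_5d3e93_al.K.Gd
import Pool.Agent.Lib.MP_5d3e93_al.Gr.Kel

/-! Mayer-Vietoris presentations: definitions. -/

open CategoryTheory Limits ZeroObject

namespace Pool.Agent.Lib.MP_5d3e93_al.K

open Gr

universe v u u' u''

section Prod

variable {C : Type u} [Category.{v} C] [Preadditive C] {D : Type u'} [Category.{v} D]
  [Preadditive D]

instance prodPre : Preadditive (C × D) where
  homGroup X Y := inferInstanceAs (AddCommGroup ((X.1 ⟶ Y.1) × (X.2 ⟶ Y.2)))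
  add_comp _ _ _ _ _ _ := Prod.ext (Preadditive.add_comp ..) (Preadditive.add_comp ..)
  comp_add _ _ _ _ _ _ := Prod.ext (Preadditive.comp_add ..) (Preadditive.comp_add ..)

instance prodZero [HasZeroObject C] [HasZeroObject D] : HasZeroObject (C × D) :=
  ⟨⟨(0, 0), (IsZero.iff_id_eq_zero _).2
    (Prod.ext ((isZero_zero C).eq_of_src _ _) ((isZero_zero D).eq_of_src _ _))⟩⟩

instance prodBip [HasBinaryBiproducts C] [HasBinaryBiproducts D] : HasBinaryBiproducts (C × D) :=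
  ⟨fun X Y => hasBinaryBiproduct_of_total
    { pt := (X.1 ⊞ Y.1, X.2 ⊞ Y.2)
      fst := (biprod.fst, biprod.fst)
      snd := (biprod.snd, biprod.snd)
      inl := (biprod.inl, biprod.inl)
      inr := (biprod.inr, biprod.inr)
      inl_fst := Prod.ext biprod.inl_fst biprod.inl_fst
      inl_snd := Prod.ext biprod.inl_snd biprod.inl_snd
      inr_fst := Prod.ext biprod.inr_fst biprod.inr_fst
      inr_snd := Prod.ext biprod.inr_snd biprod.inr_snd } (Prod.ext biprod.total biprod.total)⟩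

instance : (CategoryTheory.Prod.fst C D).Additive where
instance : (CategoryTheory.Prod.snd C D).Additive where

variable [HasZeroObject C] [HasBinaryBiproducts C]

instance adZero (P : ObjectProperty C) [Ad P] : P.ContainsZero :=
  ⟨0, isZero_zero _, Ad.zero _ (isZero_zero _)⟩

instance adBip (P : ObjectProperty C) [Ad P] : HasBinaryBiproducts P.FullSubcategory :=
  hasBiprod_full P Ad.add

/-- The closure under finite sums. -/
inductive Sm (P : ObjectProperty C) : ObjectProperty C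
  | of {X : C} : P X → Sm P X
  | zero {X : C} : IsZero X → Sm P X
  | iso {X Y : C} : (X ≅ Y) → Sm P X → Sm P Y
  | add {X Y : C} : Sm P X → Sm P Y → Sm P (X ⊞ Y)

/-- Every object is a retract of a finite sum of objects of `P`. -/
def Cof (P : ObjectProperty C) : Prop :=
  ∀ M, ∃ (x : C) (a : M ⟶ x) (b : x ⟶ M), Sm P x ∧ a ≫ b = 𝟙 M

/-- The objects killed by a functor. -/
def Kz (h : C ⥤ D) : ObjectProperty C := fun c => IsZero (h.obj c)

instance (h : C ⥤ D) [h.Additive] : Ad (Kz h) where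
  zero _ k := h.map_isZero k
  iso e k := IsZero.of_iso k (h.mapIso e).symm
  add X Y a b := (IsZero.iff_id_eq_zero _).2 (by
    rw [← h.map_id, ← biprod.total, h.map_add, h.map_comp, h.map_comp,
      IsZero.eq_of_src a (h.map biprod.inl) 0, IsZero.eq_of_src b (h.map biprod.inr) 0]
    simp)

end Prod

/-- Coefficients on vertices, on edges and in the total category, and the two end maps. -/
structure MD (𝒱 ℰ : Type (max u v)) (𝒜 : Type (max u' v)) [Category.{v} 𝒱] [Category.{v} ℰ]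
    [Category.{v} 𝒜] [Preadditive 𝒱] [Preadditive ℰ] [Preadditive 𝒜] where
  i : 𝒱 ⥤ 𝒜
  j : ℰ ⥤ 𝒜
  s : Bool → ℰ ⥤ 𝒱
  e : ∀ b, s b ⋙ i ≅ j
  [ai : i.Additive]
  [aj : j.Additive]
  [as : ∀ b, (s b).Additive]

attribute [instance] MD.ai MD.aj MD.as

variable {𝒱 ℰ : Type (max u v)} {𝒜 : Type (max u' v)} [Category.{v} 𝒱] [Category.{v} ℰ]
  [Category.{v} 𝒜] [Preadditive 𝒱] [Preadditive ℰ] [Preadditive 𝒜] (D : MD.{v, u, u'} 𝒱 ℰ 𝒜)

/-- A map to an end of the edge object, seen in the total category. -/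
def MD.t (b : Bool) {V : 𝒱} {E : ℰ} (φ : V ⟶ (D.s b).obj E) : D.i.obj V ⟶ D.j.obj E :=
  D.i.map φ ≫ (D.e b).hom.app E

/-- The boundary map. -/
def MD.κ {V : 𝒱} {E : ℰ} (k : ∀ b, V ⟶ (D.s b).obj E) : D.i.obj V ⟶ D.j.obj E :=
  D.t true (k true) - D.t false (k false)

variable {D} in
theorem MD.t_comp (b : Bool) {V V' : 𝒱} {E : ℰ} (f : V' ⟶ V) (φ : V ⟶ (D.s b).obj E) :
    D.t b (f ≫ φ) = D.i.map f ≫ D.t b φ := by simp [MD.t]

variable {D} in
theorem MD.t_map (b : Bool) {V : 𝒱} {E E' : ℰ} (φ : V ⟶ (D.s b).obj E) (g : E ⟶ E') :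
    D.t b (φ ≫ (D.s b).map g) = D.t b φ ≫ D.j.map g := by
  have := (D.e b).hom.naturality g
  simp only [Functor.comp_obj, Functor.comp_map] at this
  simp [MD.t, this]

variable {D} in
theorem MD.t_add (b : Bool) {V : 𝒱} {E : ℰ} (φ ψ : V ⟶ (D.s b).obj E) :
    D.t b (φ + ψ) = D.t b φ + D.t b ψ := by simp [MD.t]

variable {D} in
@[simp] theorem MD.t_zero (b : Bool) {V : 𝒱} {E : ℰ} : D.t b (0 : V ⟶ (D.s b).obj E) = 0 := by
  simp [MD.t]

/-- Mayer-Vietoris presentations. -/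
structure MV where
  V : 𝒱
  E : ℰ
  k : ∀ b, V ⟶ (D.s b).obj E
  epi : ∃ σ, σ ≫ D.κ k = 𝟙 _

namespace MV

variable {D}

/-- The boundary map of a presentation. -/
abbrev κ (c : MV D) : D.i.obj c.V ⟶ D.j.obj c.E := D.κ c.k

/-- Morphisms of presentations. -/
def Mor (c c' : MV D) : AddSubgroup ((c.V ⟶ c'.V) × (c.E ⟶ c'.E)) where
  carrier := {f | ∀ b, f.1 ≫ c'.k b = c.k b ≫ (D.s b).map f.2}
  add_mem' h k b := by simp [h b, k b]
  zero_mem' b := by simp
  neg_mem' h b := by simp [h b]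

instance : Category.{v} (MV D) where
  Hom c c' := Mor c c'
  id c := ⟨(𝟙 _, 𝟙 _), fun _ => by simp⟩
  comp f g := ⟨(f.1.1 ≫ g.1.1, f.1.2 ≫ g.1.2), fun b => by
    rw [Category.assoc, g.2 b, reassoc_of% (f.2 b), Functor.map_comp]⟩
  id_comp _ := Subtype.ext (Prod.ext (Category.id_comp _) (Category.id_comp _))
  comp_id _ := Subtype.ext (Prod.ext (Category.comp_id _) (Category.comp_id _))
  assoc _ _ _ := Subtype.ext (Prod.ext (Category.assoc ..) (Category.assoc ..))

instance : Preadditive (MV D) where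
  homGroup c c' := inferInstanceAs (AddCommGroup (Mor c c'))
  add_comp _ _ _ _ _ _ := Subtype.ext (Prod.ext (Preadditive.add_comp ..) (Preadditive.add_comp ..))
  comp_add _ _ _ _ _ _ := Subtype.ext (Prod.ext (Preadditive.comp_add ..) (Preadditive.comp_add ..))

variable {c c' c'' : MV D}

/-- The vertex part of a morphism. -/
def hV (f : c ⟶ c') : c.V ⟶ c'.V := f.1.1

/-- The edge part of a morphism. -/
def hE (f : c ⟶ c') : c.E ⟶ c'.E := f.1.2

@[reassoc] theorem comm (f : c ⟶ c') (b : Bool) : hV f ≫ c'.k b = c.k b ≫ (D.s b).map (hE f) :=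
  f.2 b

@[ext] theorem hom_ext {f g : c ⟶ c'} (h : hV f = hV g) (k : hE f = hE g) : f = g :=
  Subtype.ext (Prod.ext h k)

/-- A morphism from its two parts. -/
def homMk (f : c.V ⟶ c'.V) (g : c.E ⟶ c'.E) (h : ∀ b, f ≫ c'.k b = c.k b ≫ (D.s b).map g) :
    c ⟶ c' := ⟨(f, g), h⟩

@[simp] theorem hV_mk (f : c.V ⟶ c'.V) (g h) : hV (homMk f g h) = f := rfl
@[simp] theorem hE_mk (f : c.V ⟶ c'.V) (g h) : hE (homMk f g h) = g := rfl
@[simp] theorem hV_id : hV (𝟙 c) = 𝟙 _ := rfl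
@[simp] theorem hE_id : hE (𝟙 c) = 𝟙 _ := rfl
@[simp] theorem hV_comp (f : c ⟶ c') (g : c' ⟶ c'') : hV (f ≫ g) = hV f ≫ hV g := rfl
@[simp] theorem hE_comp (f : c ⟶ c') (g : c' ⟶ c'') : hE (f ≫ g) = hE f ≫ hE g := rfl
@[simp] theorem hV_add (f g : c ⟶ c') : hV (f + g) = hV f + hV g := rfl
@[simp] theorem hE_add (f g : c ⟶ c') : hE (f + g) = hE f + hE g := rfl
@[simp] theorem hV_zero : hV (0 : c ⟶ c') = 0 := rfl
@[simp] theorem hE_zero : hE (0 : c ⟶ c') = 0 := rfl
@[simp] theorem hV_neg (f : c ⟶ c') : hV (-f) = -hV f := rfl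
@[simp] theorem hE_neg (f : c ⟶ c') : hE (-f) = -hE f := rfl

@[reassoc] theorem κ_comm (f : c ⟶ c') : D.i.map (hV f) ≫ c'.κ = c.κ ≫ D.j.map (hE f) := by
  simp only [κ, MD.κ, Preadditive.comp_sub, Preadditive.sub_comp, ← MD.t_comp, ← MD.t_map, comm]

variable (D)

/-- The underlying pair. -/
def U : MV D ⥤ 𝒱 × ℰ where
  obj c := (c.V, c.E)
  map f := (hV f, hE f)

instance : (U D).Additive where

/-- The identity at the end `b`, zero at the other end. -/
def dl (M : ℰ) : ∀ b c : Bool, (D.s b).obj M ⟶ (D.s c).obj M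
  | true, true => 𝟙 _
  | false, false => 𝟙 _
  | true, false => 0
  | false, true => 0

/-- An edge object with one of its ends. -/
def el (b : Bool) : ℰ ⥤ MV D where
  obj M := ⟨(D.s b).obj M, M, dl D M b, ⟨cond b ((D.e b).inv.app M) (-(D.e b).inv.app M), by
    cases b <;> simp [MD.κ, MD.t, dl]⟩⟩
  map f := homMk ((D.s b).map f) f fun c => by cases b <;> cases c <;> simp [dl]
  map_id _ := hom_ext (CategoryTheory.Functor.map_id _ _) rfl
  map_comp _ _ := hom_ext (Functor.map_comp _ _ _) rfl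

instance (b : Bool) : (el D b).Additive := ⟨hom_ext (D.s b).map_add rfl⟩

section
variable [HasZeroObject ℰ]

/-- A vertex object without edges. -/
noncomputable def rV : 𝒱 ⥤ MV D where
  obj M := ⟨M, 0, fun _ => 0, ⟨0, (D.j.map_isZero (isZero_zero _)).eq_of_src _ _⟩⟩
  map f := homMk f 0 fun _ => by simp
  map_id _ := hom_ext rfl ((isZero_zero _).eq_of_src _ _)
  map_comp _ _ := hom_ext rfl zero_comp.symm

instance : (rV D).Additive := ⟨hom_ext rfl (add_zero _).symm⟩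

instance [HasZeroObject 𝒱] : HasZeroObject (MV D) :=
  ⟨⟨_, (rV D).map_isZero (isZero_zero _)⟩⟩

end

section
variable [HasBinaryBiproducts 𝒱]

/-- An edge object with both ends. -/
noncomputable def rE : ℰ ⥤ MV D where
  obj M := ⟨(D.s true).obj M ⊞ (D.s false).obj M, M,
    fun | true => biprod.fst | false => biprod.snd,
    ⟨(D.e true).inv.app M ≫ D.i.map biprod.inl, by
      simp [MD.κ, MD.t, Preadditive.comp_sub, ← Functor.map_comp_assoc]⟩⟩
  map f := homMk (biprod.map ((D.s true).map f) ((D.s false).map f)) f fun b => by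
    cases b <;> simp
  map_id _ := hom_ext (by ext <;> simp) rfl
  map_comp _ _ := hom_ext (by ext <;> simp) rfl

instance : (rE D).Additive := ⟨fun {_ _ f g} => hom_ext (by
  change biprod.map _ _ = biprod.map ((D.s true).map f) ((D.s false).map f) +
    biprod.map ((D.s true).map g) ((D.s false).map g)
  ext <;> simp [Preadditive.add_comp, Preadditive.comp_add]) rfl⟩

variable {D} [HasBinaryBiproducts ℰ]

/-- The direct sum. -/
noncomputable def sum (c c' : MV D) : MV D where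
  V := c.V ⊞ c'.V
  E := c.E ⊞ c'.E
  k b := biprod.fst ≫ c.k b ≫ (D.s b).map biprod.inl + biprod.snd ≫ c'.k b ≫ (D.s b).map biprod.inr
  epi := by
    obtain ⟨σ, h⟩ := c.epi
    obtain ⟨σ', h'⟩ := c'.epi
    refine ⟨D.j.map biprod.fst ≫ σ ≫ D.i.map biprod.inl +
      D.j.map biprod.snd ≫ σ' ≫ D.i.map biprod.inr, ?_⟩
    have e : D.κ (fun b => biprod.fst ≫ c.k b ≫ (D.s b).map biprod.inl +
        biprod.snd ≫ c'.k b ≫ (D.s b).map biprod.inr) =
        D.i.map biprod.fst ≫ c.κ ≫ D.j.map biprod.inl +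
          D.i.map biprod.snd ≫ c'.κ ≫ D.j.map biprod.inr := by
      simp only [κ, MD.κ, MD.t_add, ← Category.assoc, MD.t_map]
      simp only [MD.t_comp, Preadditive.comp_sub, Preadditive.sub_comp, Category.assoc]
      abel
    rw [e]
    simp only [Preadditive.add_comp, Preadditive.comp_add, Category.assoc,
      ← Functor.map_comp_assoc, biprod.inl_fst, biprod.inl_snd, biprod.inr_fst, biprod.inr_snd,
      CategoryTheory.Functor.map_id, Category.id_comp, Functor.map_zero, zero_comp, comp_zero,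
      add_zero, zero_add, reassoc_of% h, reassoc_of% h']
    rw [← D.j.map_comp, ← D.j.map_comp, ← D.j.map_add, biprod.total, D.j.map_id]

instance : HasBinaryBiproducts (MV D) := ⟨fun c c' => hasBinaryBiproduct_of_total
  { pt := c.sum c'
    fst := homMk biprod.fst biprod.fst fun _ => by simp [sum, ← Functor.map_comp]
    snd := homMk biprod.snd biprod.snd fun _ => by simp [sum, ← Functor.map_comp]
    inl := homMk biprod.inl biprod.inl fun _ => by simp [sum]
    inr := homMk biprod.inr biprod.inr fun _ => by simp [sum]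
    inl_fst := hom_ext biprod.inl_fst biprod.inl_fst
    inl_snd := hom_ext biprod.inl_snd biprod.inl_snd
    inr_fst := hom_ext biprod.inr_fst biprod.inr_fst
    inr_snd := hom_ext biprod.inr_snd biprod.inr_snd } (hom_ext biprod.total biprod.total)⟩

end

variable {D} [IsIdempotentComplete 𝒜]

theorem ex_ker (c : MV D) : ∃ (P : 𝒜) (ι : P ⟶ D.i.obj c.V) (ρ : D.i.obj c.V ⟶ P)
    (σ : D.j.obj c.E ⟶ D.i.obj c.V), ι ≫ ρ = 𝟙 _ ∧ σ ≫ c.κ = 𝟙 _ ∧ ρ ≫ ι + c.κ ≫ σ = 𝟙 _ := by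
  obtain ⟨σ, h⟩ := c.epi
  obtain ⟨P, ι, ρ, a, b⟩ := IsIdempotentComplete.idempotents_split _ (𝟙 _ - c.κ ≫ σ)
    (by simp [Preadditive.sub_comp, Preadditive.comp_sub, reassoc_of% h])
  exact ⟨P, ι, ρ, σ, a, h, by simp [b]⟩

/-- The kernel of the boundary map. -/
noncomputable def P (c : MV D) : 𝒜 := c.ex_ker.choose

/-- The inclusion of the kernel. -/
noncomputable def ι (c : MV D) : c.P ⟶ D.i.obj c.V := c.ex_ker.choose_spec.choose

/-- A retraction onto the kernel. -/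
noncomputable def ρ (c : MV D) : D.i.obj c.V ⟶ c.P := c.ex_ker.choose_spec.choose_spec.choose

theorem spec (c : MV D) : ∃ σ, c.ι ≫ c.ρ = 𝟙 _ ∧ σ ≫ c.κ = 𝟙 _ ∧ c.ρ ≫ c.ι + c.κ ≫ σ = 𝟙 _ :=
  c.ex_ker.choose_spec.choose_spec.choose_spec

@[reassoc (attr := simp)] theorem ι_ρ (c : MV D) : c.ι ≫ c.ρ = 𝟙 _ := c.spec.choose_spec.1

theorem spl (c : MV D) : Spl c.ι c.κ := ⟨_, _, c.spec.choose_spec⟩

@[reassoc (attr := simp)] theorem ι_κ (c : MV D) : c.ι ≫ c.κ = 0 := by
  obtain ⟨σ, a, b, d⟩ := c.spec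
  simpa [reassoc_of% a, b] using congrArg (c.ι ≫ · ≫ c.κ) d

@[reassoc] theorem lift (c : MV D) {X : 𝒜} (φ : X ⟶ D.i.obj c.V) (h : φ ≫ c.κ = 0) :
    φ ≫ c.ρ ≫ c.ι = φ := by
  obtain ⟨σ, -, -, d⟩ := c.spec
  simpa [reassoc_of% h] using congrArg (φ ≫ ·) d

variable (D) in
/-- The presented object. -/
noncomputable def h : MV D ⥤ 𝒜 where
  obj c := c.P
  map {c c'} f := c.ι ≫ D.i.map (hV f) ≫ c'.ρ
  map_id c := by simp
  map_comp {c c' c''} f g := by
    have := c'.lift_assoc (c.ι ≫ D.i.map (hV f)) (by simp [κ_comm]) (D.i.map (hV g) ≫ c''.ρ)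
    simpa using this.symm

instance : (h D).Additive := ⟨fun {c c' f g} => by
  change c.ι ≫ D.i.map (hV f + hV g) ≫ c'.ρ = c.ι ≫ D.i.map (hV f) ≫ c'.ρ + c.ι ≫ D.i.map (hV g) ≫ c'.ρ
  simp⟩

@[reassoc] theorem h_ι (f : c ⟶ c') : (h D).map f ≫ c'.ι = c.ι ≫ D.i.map (hV f) := by
  simpa [h] using c'.lift (c.ι ≫ D.i.map (hV f)) (by simp [κ_comm])

end MV

end Pool.Agent.Lib.MP_5d3e93_al.K
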