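import Pool.Agent.Lib.MP_5d3e93_al.K.MV
import Pool.Agent.Lib.MP_5d3e93_al.K.Ad

/-! Mayer-Vietoris presentations: the coresolution. -/

open CategoryTheory Limits Pretriangulated ZeroObject MulAction

namespace Pool.Agent.Lib.MP_5d3e93_al

universe w v u y v' u' v'' u''

namespace K

open Gr Am

variable {𝒱 ℰ : Type (max u v)} {𝒜 : Type (max u' v)} [Category.{v} 𝒱] [Category.{v} ℰ]
  [Category.{v} 𝒜] [Preadditive 𝒱] [Preadditive ℰ] [Preadditive 𝒜] [HasZeroObject 𝒱]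
  [HasZeroObject ℰ] [HasZeroObject 𝒜] [HasBinaryBiproducts 𝒱] [HasBinaryBiproducts ℰ]
  [HasBinaryBiproducts 𝒜] (D : MD.{v, u, u'} 𝒱 ℰ 𝒜)

namespace MV

section MVa
instance : (U D).Faithful := ⟨fun e => hom_ext (congrArg Prod.fst e) (congrArg Prod.snd e)⟩
/-- The ambient category of presentations. -/
abbrev amb : Am.{v, u} := exU.{v, u} (U D)
/-- Both ends of an edge object. -/
noncomputable def sE : ℰ ⥤ 𝒱 := rE D ⋙ U D ⋙ CategoryTheory.Prod.fst _ _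
instance : (sE D).Additive :=
  inferInstanceAs (rE D ⋙ U D ⋙ CategoryTheory.Prod.fst _ _).Additive
omit [HasZeroObject 𝒱] [HasZeroObject ℰ] [HasZeroObject 𝒜] [HasBinaryBiproducts 𝒱]
  [HasBinaryBiproducts ℰ] [HasBinaryBiproducts 𝒜] in
theorem mva_κ {V V' : 𝒱} {E : ℰ} (f : V' ⟶ V) (k : ∀ b, V ⟶ (D.s b).obj E) :
    D.κ (fun b => f ≫ k b) = D.i.map f ≫ D.κ k := by
  simp only [MD.κ, MD.t_comp, Preadditive.comp_sub]
omit [HasZeroObject 𝒱] [HasZeroObject ℰ] [HasZeroObject 𝒜] [HasBinaryBiproducts ℰ]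
  [HasBinaryBiproducts 𝒜] in
theorem mva_sE {M N : ℰ} (f : M ⟶ N) (b : Bool) :
    (sE D).map f ≫ ((rE D).obj N).k b = ((rE D).obj M).k b ≫ (D.s b).map f :=
  comm ((rE D).map f) b
omit [HasZeroObject 𝒱] [HasZeroObject ℰ] [HasZeroObject 𝒜] [HasBinaryBiproducts ℰ]
  [HasBinaryBiproducts 𝒜] in
theorem mva_epi {V V' : 𝒱} {E : ℰ} (k : ∀ b, V ⟶ (D.s b).obj E) (σ) (e : σ ≫ D.κ k = 𝟙 _) :
    ∃ τ, τ ≫ D.κ (fun b => (biprod.snd : V' ⊞ V ⟶ V) ≫ k b) = 𝟙 _ :=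
  ⟨σ ≫ D.i.map biprod.inr, by simp [mva_κ, ← D.i.map_comp_assoc, e]⟩
/-- The right adjoint of `U`. -/
noncomputable def R : 𝒱 × ℰ ⥤ MV D where
  obj y := ⟨y.1 ⊞ (sE D).obj y.2, y.2, fun b => biprod.snd ≫ ((rE D).obj y.2).k b, by
    obtain ⟨σ, e⟩ := ((rE D).obj y.2).epi
    exact mva_epi D (V := (sE D).obj y.2) (E := y.2) _ σ e⟩
  map f := homMk (biprod.map f.1 ((sE D).map f.2)) f.2 fun b =>
    (biprod.map_snd_assoc ..).trans ((congrArg _ (mva_sE D f.2 b)).trans (Category.assoc ..).symm)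
  map_id y := hom_ext (by
    change biprod.map (𝟙 y.1) ((sE D).map (𝟙 y.2)) = 𝟙 (y.1 ⊞ (sE D).obj y.2)
    ext <;> simp) rfl
  map_comp f g := hom_ext (by
    change biprod.map (f.1 ≫ g.1) ((sE D).map (f.2 ≫ g.2)) =
      biprod.map f.1 ((sE D).map f.2) ≫ biprod.map g.1 ((sE D).map g.2)
    ext <;> simp) rfl
instance R_add : (R D).Additive := ⟨fun {_ _ f g} => hom_ext (by
  change biprod.map (f.1 + g.1) ((sE D).map (f.2 + g.2)) =
    biprod.map f.1 ((sE D).map f.2) + biprod.map g.1 ((sE D).map g.2)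
  ext <;> simp [Preadditive.add_comp, Preadditive.comp_add]) rfl⟩
/-- The second term of the coresolution. -/
noncomputable def R₀ : 𝒱 × ℰ ⥤ MV D := CategoryTheory.Prod.snd _ _ ⋙ sE D ⋙ rV D
instance R₀_add : (R₀ D).Additive :=
  inferInstanceAs (CategoryTheory.Prod.snd _ _ ⋙ sE D ⋙ rV D).Additive
/-- The right adjoint as a map. -/
noncomputable def RM : Map (Am.of.{v, u} (𝒱 × ℰ)) (amb D) :=
  @ofMap _ _ _ _ _ (amb D) (R D) (R_add D)
/-- The second term as a map. -/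
noncomputable def R₀M : Map (Am.of.{v, u} (𝒱 × ℰ)) (amb D) :=
  @ofMap _ _ _ _ _ (amb D) (R₀ D) (R₀_add D)
/-- Both structure maps. -/
noncomputable def kk (c : MV D) : c.V ⟶ (sE D).obj c.E := biprod.lift (c.k true) (c.k false)
omit [HasZeroObject 𝒱] [HasZeroObject ℰ] [HasZeroObject 𝒜] [HasBinaryBiproducts ℰ]
  [HasBinaryBiproducts 𝒜] in
theorem kk_k (c : MV D) (b : Bool) : kk D c ≫ ((rE D).obj c.E).k b = c.k b := by
  cases b
  exacts [biprod.lift_snd .., biprod.lift_fst ..]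
omit [HasZeroObject 𝒱] [HasZeroObject ℰ] [HasZeroObject 𝒜] [HasBinaryBiproducts ℰ]
  [HasBinaryBiproducts 𝒜] in
theorem sE_ext {X : 𝒱} {M : ℰ} {f g : X ⟶ (sE D).obj M}
    (h : ∀ b, f ≫ ((rE D).obj M).k b = g ≫ ((rE D).obj M).k b) : f = g :=
  biprod.hom_ext _ _ (h true) (h false)
omit [HasZeroObject 𝒱] [HasZeroObject ℰ] [HasZeroObject 𝒜] [HasBinaryBiproducts ℰ]
  [HasBinaryBiproducts 𝒜] in
theorem kk_map (c : MV D) {M : ℰ} (g : c.E ⟶ M) (b : Bool) :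
    (kk D c ≫ (sE D).map g) ≫ ((rE D).obj M).k b = c.k b ≫ (D.s b).map g :=
  (Category.assoc ..).trans ((congrArg _ (mva_sE D g b)).trans
    ((Category.assoc ..).symm.trans (congrArg (· ≫ _) (kk_k D c b))))
omit [HasZeroObject 𝒱] [HasZeroObject ℰ] [HasZeroObject 𝒜] [HasBinaryBiproducts ℰ]
  [HasBinaryBiproducts 𝒜] in
theorem kk_nat {c c' : MV D} (f : c ⟶ c') : hV f ≫ kk D c' = kk D c ≫ (sE D).map (hE f) :=
  sE_ext D fun b => (Category.assoc ..).trans ((congrArg _ (kk_k D c' b)).trans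
    ((comm f b).trans (kk_map D c _ b).symm))
/-- The unit. -/
noncomputable def η : 𝟭 (MV D) ⟶ U D ⋙ R D where
  app c := homMk (biprod.lift (𝟙 c.V) (kk D c)) (𝟙 c.E) fun b =>
    (biprod.lift_snd_assoc ..).trans ((kk_k D c b).trans
      ((Category.comp_id _).symm.trans (congrArg _ ((D.s b).map_id _).symm)))
  naturality c c' f := hom_ext (by
    change hV f ≫ biprod.lift (𝟙 c'.V) (kk D c') =
      biprod.lift (𝟙 c.V) (kk D c) ≫ biprod.map (hV f) ((sE D).map (hE f))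
    ext <;> simp [kk_nat]) ((Category.comp_id _).trans (Category.id_comp _).symm)
/-- The differential of the coresolution. -/
noncomputable def dd : U D ⋙ R D ⟶ U D ⋙ R₀ D where
  app c := homMk (biprod.desc (kk D c) (-𝟙 _)) 0 fun b =>
    comp_zero.trans (comp_zero.symm.trans (congrArg _ ((D.s b).map_zero _ _).symm))
  naturality c c' f := hom_ext (by
    change biprod.map (hV f) ((sE D).map (hE f)) ≫ biprod.desc (kk D c') (-𝟙 _) =
      biprod.desc (kk D c) (-𝟙 _) ≫ (sE D).map (hE f)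
    ext <;> simp [kk_nat]) ((isZero_zero ℰ).eq_of_tgt _ _)
theorem η_dd (c : MV D) : (η D).app c ≫ (dd D).app c = 0 := hom_ext (by
  change biprod.lift (𝟙 c.V) (kk D c) ≫ biprod.desc (kk D c) (-𝟙 _) = 0
  simp) ((isZero_zero ℰ).eq_of_tgt _ _)
theorem spl_η (c : MV D) : Spl ((U D).map ((η D).app c)) ((U D).map ((dd D).app c)) := by
  refine ⟨(biprod.fst, 𝟙 c.E), (-biprod.inr, 0), Prod.ext (biprod.lift_fst ..) (Category.id_comp _),
    Prod.ext ?_ ((isZero_zero ℰ).eq_of_tgt _ _), Prod.ext ?_ ?_⟩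
  · change (-biprod.inr) ≫ biprod.desc (kk D c) (-𝟙 _) = 𝟙 ((sE D).obj c.E)
    simp
  · have (X Y : 𝒱) (k : X ⟶ Y) : biprod.fst ≫ biprod.lift (𝟙 X) k +
        biprod.desc k (-𝟙 Y) ≫ (-biprod.inr) = 𝟙 (X ⊞ Y) := by
      ext <;> simp [Preadditive.add_comp, Preadditive.comp_add]
    exact this _ _ _
  · exact (congrArg₂ (· + ·) (Category.id_comp _) zero_comp).trans (add_zero _)
theorem adjV : ∃ ad : U D ⋙ CategoryTheory.Prod.fst _ _ ⊣ rV D,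
    ∀ c M (f : c ⟶ (rV D).obj M), (ad.homEquiv c M).symm f = hV f :=
  ⟨.mkOfHomEquiv ⟨fun c M => ⟨fun g => homMk g 0 fun b =>
      comp_zero.trans (comp_zero.symm.trans (congrArg _ ((D.s b).map_zero _ _).symm)), hV,
      fun _ => rfl, fun _ => hom_ext rfl ((isZero_zero ℰ).eq_of_tgt _ _)⟩, fun _ _ => rfl,
      fun _ _ => hom_ext rfl ((isZero_zero ℰ).eq_of_tgt _ _)⟩,
    fun c M f => by rw [Adjunction.mkOfHomEquiv_homEquiv]; rfl⟩
theorem adjE : ∃ ad : U D ⋙ CategoryTheory.Prod.snd _ _ ⊣ rE D,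
    ∀ c M (f : c ⟶ (rE D).obj M), (ad.homEquiv c M).symm f = hE f :=
  ⟨.mkOfHomEquiv ⟨fun c M => ⟨fun g => homMk (kk D c ≫ (sE D).map g) g (kk_map D c g), hE,
      fun _ => rfl, fun f => hom_ext (sE_ext D fun b => (kk_map D c _ b).trans (comm f b).symm)
        rfl⟩, fun _ _ => rfl,
      fun f g => hom_ext ((congrArg _ ((sE D).map_comp f g)).trans (Category.assoc ..).symm) rfl⟩,
    fun c M f => by rw [Adjunction.mkOfHomEquiv_homEquiv]; rfl⟩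
/-- `exU_exaS`; `R y ≅ rV y.1 ⊞ rE y.2`. -/
theorem bdd_eq : (amb D).bdd = (amb D).gen ((rV D).essImage ⊔ (rE D).essImage) := by
  have : Tg ((amb D).gen ((rV D).essImage ⊔ (rE D).essImage)) := inferInstanceAs (Tg (Cl _))
  have : Tg (amb D).bdd := inferInstanceAs (Tg (Cl _))
  refine le_antisymm (Cl.le ?_) (Cl.le fun _ ⟨c, _, e⟩ => Cl.of ⟨c, trivial, e⟩)
  rintro _ ⟨c, -, ⟨e⟩⟩
  refine Cl.iso e ?_
  have a (M) : (amb D).gen ((rV D).essImage ⊔ (rE D).essImage) ((amb D).sg.obj ((rV D).obj M)) :=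
    Cl.of ⟨_, .inl ⟨M, ⟨Iso.refl _⟩⟩, ⟨Iso.refl _⟩⟩
  have b (M) : (amb D).gen ((rV D).essImage ⊔ (rE D).essImage) ((amb D).sg.obj ((rE D).obj M)) :=
    Cl.of ⟨_, .inr ⟨M, ⟨Iso.refl _⟩⟩, ⟨Iso.refl _⟩⟩
  let i : (rV D).obj c.V ⟶ (R D).obj (c.V, c.E) := homMk biprod.inl 0 fun b =>
    (biprod.inl_snd_assoc ..).trans (zero_comp.trans zero_comp.symm)
  let p : (R D).obj (c.V, c.E) ⟶ (rE D).obj c.E := homMk biprod.snd (𝟙 c.E) fun b =>
    (Category.comp_id _).symm.trans (congrArg _ ((D.s b).map_id _).symm)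
  obtain ⟨δ, t⟩ := (exU_exaS (U D) (i := i) (p := p) (hom_ext biprod.inl_snd zero_comp)
    ⟨(biprod.fst, 0), (biprod.inr, 𝟙 c.E), Prod.ext biprod.inl_fst ((isZero_zero ℰ).eq_of_tgt _ _),
      Prod.ext biprod.inr_snd (Category.id_comp _), Prod.ext biprod.total
        ((congrArg₂ (· + ·) zero_comp (Category.id_comp _)).trans (zero_add _))⟩).tri
  obtain ⟨δ', t'⟩ := (exU_exaS (U D) (η_dd D c) (spl_η D c)).tri
  have m := ObjectProperty.ext_of_isTriangulatedClosed₂ _ _ t (a _) (b _)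
  exact ObjectProperty.ext_of_isTriangulatedClosed₁ _ _ t' m (a _)
/-- The identity of `𝒱 × ℰ` is the sum of two functors through `𝒱` and `ℰ`. -/
theorem Z_pair (zV : Z (Am.of.{v, u} 𝒱).bdd) (zE : Z (Am.of.{v, u} ℰ).bdd) :
    Z (Am.of.{v, u} (𝒱 × ℰ)).bdd := by
  let l : 𝒱 ⥤ 𝒱 × ℰ := ⟨fun X => (X, 0), fun f => (f, 0),
    fun _ => Prod.ext rfl ((isZero_zero ℰ).eq_of_tgt _ _), fun _ _ => Prod.ext rfl zero_comp.symm⟩
  let r : ℰ ⥤ 𝒱 × ℰ := ⟨fun X => (0, X), fun f => (0, f),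
    fun _ => Prod.ext ((isZero_zero 𝒱).eq_of_tgt _ _) rfl, fun _ _ => Prod.ext zero_comp.symm rfl⟩
  have : l.Additive := ⟨Prod.ext rfl (add_zero _).symm⟩
  have : r.Additive := ⟨Prod.ext (add_zero _).symm rfl⟩
  let α : CategoryTheory.Prod.fst 𝒱 ℰ ⋙ l ⟶ 𝟭 _ := ⟨fun y => (𝟙 y.1, 0), fun _ _ _ =>
    Prod.ext ((Category.comp_id _).trans (Category.id_comp _).symm) ((isZero_zero ℰ).eq_of_src _ _)⟩
  let β : 𝟭 _ ⟶ CategoryTheory.Prod.snd 𝒱 ℰ ⋙ r := ⟨fun y => (0, 𝟙 y.2), fun _ _ _ =>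
    Prod.ext ((isZero_zero 𝒱).eq_of_tgt _ _) ((Category.comp_id _).trans (Category.id_comp _).symm)⟩
  refine Z_of_null (fun _ h => h) fun n => ?_
  have e := null_ses.{v, u, v, u} α β (fun y => ⟨(𝟙 y.1, 0), (0, 𝟙 y.2),
    Prod.ext (Category.id_comp _) ((isZero_zero ℰ).eq_of_tgt _ _),
    Prod.ext ((isZero_zero 𝒱).eq_of_tgt _ _) (Category.id_comp _),
    Prod.ext ((congrArg₂ (· + ·) (Category.id_comp _) zero_comp).trans (add_zero _))
      ((congrArg₂ (· + ·) zero_comp (Category.id_comp _)).trans (zero_add _))⟩) n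
  have e₁ := zV.null (ofOf.{v, u, v, u} (CategoryTheory.Prod.fst 𝒱 ℰ)) (ofOf.{v, u, v, u} l)
    (Map.bdd_map _) (Map.bdd_map _) (Map.bdd_map _) n
  have e₂ := zE.null (ofOf.{v, u, v, u} (CategoryTheory.Prod.snd 𝒱 ℰ)) (ofOf.{v, u, v, u} r)
    (Map.bdd_map _) (Map.bdd_map _) (Map.bdd_map _) n
  exact e.trans ((congrArg₂ (· + ·) e₁ e₂).trans (add_zero _))
/-- `ses_of_gen`, `exU_exaS`, `Kmap_add`, `Z.null`, `Z_of_null`. -/
theorem Z_amb (zV : Z (Am.of.{v, u} 𝒱).bdd) (zE : Z (Am.of.{v, u} ℰ).bdd) : Z (amb D).bdd := by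
  let UM : Map (amb D) (Am.of.{v, u} (𝒱 × ℰ)) := @Map.mk (amb D) (Am.of (𝒱 × ℰ)) (U D)
    (inferInstanceAs (U D).Additive) fun K l => Tg.zero (Am.of (𝒱 × ℰ)).Tb l.2
  refine Z_of_null (fun _ h => h) fun n => ?_
  have e := Kmap_add n (S' := (amb D).bdd) (ses_of_gen (f₁ := (amb D).idm) (f := UM.comp (RM D))
    (f₂ := UM.comp (R₀M D)) (α := η D) (β := dd D) (h := NatTrans.ext (funext (η_dd D))) (P := ⊤)
    fun c _ => exU_exaS (U D) (η_dd D c) (spl_η D c)) (fun _ h => h) (Map.bdd_map _)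
      (Map.bdd_map _)
  have e₁ := (Z_pair zV zE).null UM (RM D) (Map.bdd_map _) (Map.bdd_map _) (Map.bdd_map _) n
  have e₂ := (Z_pair zV zE).null UM (R₀M D) (Map.bdd_map _) (Map.bdd_map _) (Map.bdd_map _) n
  exact (add_zero _).symm.trans ((congrArg _ e₂.symm).trans (e.symm.trans e₁))
end MVa

end MV

end K

end Pool.Agent.Lib.MP_5d3e93_al
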