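import Pool.Agent.Lib.MP_5d3e93_al.K.Ex3D
import Pool.Agent.Lib.MP_5d3e93_al.K.KelT
import Pool.Agent.Lib.MP_5d3e93_al.K.MVa

/-! Mayer-Vietoris presentations: kernels. -/

open CategoryTheory Limits Pretriangulated ZeroObject

namespace Pool.Agent.Lib.MP_5d3e93_al.K

open Gr Am

universe w v u y v' u' v'' u''

section Snake
variable {C : Type*} [Category* C] [Preadditive C]

theorem mvb_zero {X Y Z : C} {i : X ⟶ Y} {p : Y ⟶ Z} (h : Spl i p) : i ≫ p = 0 := by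
  obtain ⟨r, s, a, b, d⟩ := h
  simpa [reassoc_of% a, b] using congrArg (i ≫ · ≫ p) d

theorem mvb_map {C' : Type*} [Category* C'] [Preadditive C'] (F : C ⥤ C') [F.Additive] {X Y Z : C}
    {i : X ⟶ Y} {p : Y ⟶ Z} (h : Spl i p) : Spl (F.map i) (F.map p) := by
  obtain ⟨r, s, a, b, d⟩ := h
  exact ⟨F.map r, F.map s, by rw [← F.map_comp, a, F.map_id], by rw [← F.map_comp, b, F.map_id],
    by rw [← F.map_comp, ← F.map_comp, ← F.map_add, d, F.map_id]⟩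

theorem mvb_lift {W X Y Z : C} {i : X ⟶ Y} {p : Y ⟶ Z} (h : Spl i p) (t : W ⟶ Y) (k : t ≫ p = 0) :
    ∃ l, l ≫ i = t := by
  obtain ⟨r, s, -, -, d⟩ := h
  exact ⟨t ≫ r, by simpa [reassoc_of% k] using congrArg (t ≫ ·) d⟩

theorem mvb_mono {X Y Z : C} {i : X ⟶ Y} {p : Y ⟶ Z} (h : Spl i p) : Mono i := by
  obtain ⟨r, s, a, -⟩ := h
  exact mono_of_mono_fac a

/-- The kernels of a split epimorphism of split sequences form a split sequence. -/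
theorem mvb_snake {P₁ P₂ P₃ A₁ A₂ A₃ B₁ B₂ B₃ : C} {ι₁ : P₁ ⟶ A₁} {ι₂ : P₂ ⟶ A₂} {ι₃ : P₃ ⟶ A₃}
    {κ₁ : A₁ ⟶ B₁} {κ₂ : A₂ ⟶ B₂} {κ₃ : A₃ ⟶ B₃} {a : A₁ ⟶ A₂} {a' : A₂ ⟶ A₃} {b : B₁ ⟶ B₂}
    {b' : B₂ ⟶ B₃} {c : P₁ ⟶ P₂} {c' : P₂ ⟶ P₃} (h₁ : Spl ι₁ κ₁) (h₂ : Spl ι₂ κ₂) (h₃ : Spl ι₃ κ₃)
    (ha : Spl a a') (hb : Spl b b') (e : a ≫ κ₂ = κ₁ ≫ b) (e' : a' ≫ κ₃ = κ₂ ≫ b')
    (f : c ≫ ι₂ = ι₁ ≫ a) (f' : c' ≫ ι₃ = ι₂ ≫ a') : Spl c c' := by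
  have := mvb_mono h₁
  have := mvb_mono h₂
  have := mvb_mono h₃
  have := mvb_mono ha
  have := mvb_mono hb
  have z := mvb_zero ha
  have z₂ := mvb_zero h₂
  have z₃ := mvb_zero h₃
  obtain ⟨ra, sa, -, a2, -⟩ := id ha
  obtain ⟨ρ₁, σ₁, -, s1, -⟩ := id h₁
  obtain ⟨w, hw⟩ := mvb_lift hb (ι₃ ≫ sa ≫ κ₂) (by simp [← e', reassoc_of% a2, z₃])
  obtain ⟨s, hs⟩ := mvb_lift h₂ (ι₃ ≫ sa - w ≫ σ₁ ≫ a) (by simp [e, reassoc_of% s1, hw])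
  have k : s ≫ c' = 𝟙 _ := by simp [← cancel_mono ι₃, f', reassoc_of% hs, a2, z]
  obtain ⟨v, hv⟩ := mvb_lift ha (ι₂ - c' ≫ s ≫ ι₂) (by simp [← f', reassoc_of% k])
  obtain ⟨r, hr⟩ := mvb_lift h₁ v (by simp [← cancel_mono b, ← e, reassoc_of% hv, z₂])
  have z' : c ≫ c' = 0 := by simp [← cancel_mono ι₃, f', reassoc_of% f, z]
  refine ⟨r, s, ?_, k, ?_⟩
  · simp [← cancel_mono ι₁, ← cancel_mono a, hr, hv, reassoc_of% z', f]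
  · simp [← cancel_mono ι₂, f, reassoc_of% hr, hv]

theorem mvb_tau {P₂ P₃ A₂ A₃ B₂ B₃ X : C} {ι₂ : P₂ ⟶ A₂} {ι₃ : P₃ ⟶ A₃} {κ₂ : A₂ ⟶ B₂}
    {κ₃ : A₃ ⟶ B₃} {a : A₂ ⟶ A₃} {b : B₂ ⟶ B₃} {c : P₂ ⟶ P₃} (h₂ : Spl ι₂ κ₂) (h₃ : Spl ι₃ κ₃)
    (e : a ≫ κ₃ = κ₂ ≫ b) (f : c ≫ ι₃ = ι₂ ≫ a) {t : P₃ ⟶ P₂} (ht : t ≫ c = 𝟙 _) (x : X ⟶ B₂)
    (hx : x ≫ b = 0) : ∃ τ : X ⟶ A₂, τ ≫ a = 0 ∧ τ ≫ κ₂ = x := by
  have z := mvb_zero h₂
  obtain ⟨-, σ, -, s, -⟩ := h₂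
  obtain ⟨y, hy⟩ := mvb_lift h₃ (x ≫ σ ≫ a) (by simp [e, reassoc_of% s, hx])
  exact ⟨x ≫ σ - y ≫ t ≫ ι₂, by simp [← f, reassoc_of% ht, hy], by simp [s, z]⟩

theorem mvb_tau' {A₁ A₂ A₃ B₁ B₂ X : C} {κ₁ : A₁ ⟶ B₁} {κ₂ : A₂ ⟶ B₂} {a : A₁ ⟶ A₂} {a' : A₂ ⟶ A₃}
    {b : B₁ ⟶ B₂} (h : ∃ σ, σ ≫ κ₁ = 𝟙 _) (e : a ≫ κ₂ = κ₁ ≫ b) (z : a ≫ a' = 0) (x : X ⟶ B₁) :
    ∃ τ : X ⟶ A₂, τ ≫ a' = 0 ∧ τ ≫ κ₂ = x ≫ b := by
  obtain ⟨σ, s⟩ := h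
  exact ⟨x ≫ σ ≫ a, by simp [z], by simp [e, reassoc_of% s]⟩

variable [HasBinaryBiproducts C]

theorem mvb_diag {A : Type*} [Category* A] [Preadditive A] (F : C ⥤ A) [F.Additive] {X Y : C} {J : A}
    (a : F.obj X ≅ J) (b : F.obj Y ≅ J) :
    Spl (a.inv ≫ F.map biprod.inl + b.inv ≫ F.map biprod.inr)
      (F.map biprod.fst ≫ a.hom - F.map biprod.snd ≫ b.hom) ∧
    (a.inv ≫ F.map biprod.inl + b.inv ≫ F.map biprod.inr) ≫ F.map biprod.fst ≫ a.hom = 𝟙 _ := by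
  have k : (a.inv ≫ F.map biprod.inl + b.inv ≫ F.map biprod.inr) ≫ F.map biprod.fst ≫ a.hom =
      𝟙 _ := by simp [← Functor.map_comp_assoc]
  refine ⟨⟨_, -b.inv ≫ F.map biprod.inr, k, by simp [← Functor.map_comp_assoc], ?_⟩, k⟩
  simp [add_assoc, ← Functor.map_comp, ← Functor.map_add]

/-- Covers from covers of generators. -/
theorem mvb_cov {A : Type*} [Category* A] [Preadditive A] [HasZeroObject A] [HasBinaryBiproducts A]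
    (Q : ObjectProperty A) [Ad Q] (F : A ⥤ C) [F.Additive] {P : ObjectProperty C} (hP : Cof P) (c : A)
    (k : ∀ x, P x → ∀ y : x ⟶ F.obj c, ∃ (a : A) (f : a ⟶ c) (y' : x ⟶ F.obj a),
      Q a ∧ y' ≫ F.map f = y) :
    ∃ (a : A) (f : a ⟶ c) (s : F.obj c ⟶ F.obj a), Q a ∧ s ≫ F.map f = 𝟙 _ := by
  have key : ∀ x, Sm P x → ∀ y : x ⟶ F.obj c, ∃ (a : A) (f : a ⟶ c) (y' : x ⟶ F.obj a),
      Q a ∧ y' ≫ F.map f = y := fun x hx => by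
    induction hx with
    | of h => exact k _ h
    | zero h => exact fun y => ⟨0, 0, 0, Ad.zero _ (isZero_zero _), h.eq_of_src _ _⟩
    | iso e _ ih =>
      intro y
      obtain ⟨a, f, y', q, h⟩ := ih (e.hom ≫ y)
      exact ⟨a, f, e.inv ≫ y', q, by simp [h]⟩
    | add _ _ ih ih' =>
      intro y
      obtain ⟨a, f, z, q, h⟩ := ih (biprod.inl ≫ y)
      obtain ⟨a', f', z', q', h'⟩ := ih' (biprod.inr ≫ y)
      refine ⟨a ⊞ a', biprod.desc f f', biprod.desc (z ≫ F.map biprod.inl) (z' ≫ F.map biprod.inr),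
        Ad.add _ _ q q', ?_⟩
      ext <;> simp [← F.map_comp, h, h']
  obtain ⟨x, α, β, hx, e⟩ := hP (F.obj c)
  obtain ⟨a, f, y, q, h⟩ := key x hx β
  exact ⟨a, f, α ≫ y, q, by simp [h, e]⟩

end Snake

variable {𝒱 ℰ : Type (max u v)} {𝒜 : Type (max u' v)} [Category.{v} 𝒱] [Category.{v} ℰ]
  [Category.{v} 𝒜] [Preadditive 𝒱] [Preadditive ℰ] [Preadditive 𝒜] [HasZeroObject 𝒱]
  [HasZeroObject ℰ] [HasZeroObject 𝒜] [HasBinaryBiproducts 𝒱] [HasBinaryBiproducts ℰ]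
  [HasBinaryBiproducts 𝒜] (D : MD.{v, u, u'} 𝒱 ℰ 𝒜)

namespace MV

variable [IsIdempotentComplete 𝒜]

section MVb
theorem isZero_iff (c : MV D) : IsZero ((h D).obj c) ↔ IsIso c.κ := by
  obtain ⟨σ, a, b, d⟩ := c.spec
  constructor
  · intro k
    exact ⟨σ, by simpa [IsZero.eq_of_src (X := c.P) k c.ι 0] using d, b⟩
  · intro k
    have : c.ι = 0 := by rw [← cancel_mono c.κ, ι_κ, zero_comp]
    exact (IsZero.iff_id_eq_zero c.P).2 (by rw [← a, this, zero_comp])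

/-- Any kernel of the boundary map is the chosen one. -/
theorem ker_iso (c : MV D) {X : 𝒜} {η : X ⟶ D.i.obj c.V} (k : Spl η c.κ) :
    ∃ e : X ≅ (h D).obj c, e.hom ≫ c.ι = η := by
  have z := c.lift η (mvb_zero k)
  obtain ⟨r, s, a, -, d⟩ := k
  have k1 : (η ≫ c.ρ) ≫ c.ι ≫ r = 𝟙 _ := by rw [Category.assoc, reassoc_of% z, a]
  have k2 : (c.ι ≫ r) ≫ η ≫ c.ρ = 𝟙 _ := by simpa using congrArg (c.ι ≫ · ≫ c.ρ) d
  exact ⟨⟨η ≫ c.ρ, c.ι ≫ r, k1, k2⟩, (Category.assoc ..).trans z⟩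

theorem h_rV : ∃ e : rV D ⋙ h D ≅ D.i, ∀ M, e.hom.app M = ((rV D).obj M).ι := by
  refine ⟨NatIso.ofComponents (fun M => ⟨((rV D).obj M).ι, ((rV D).obj M).ρ, ι_ρ _, ?_⟩)
    fun f => h_ι ((rV D).map f), fun _ => rfl⟩
  obtain ⟨σ, -, -, d⟩ := ((rV D).obj M).spec
  have z : IsZero (D.j.obj ((rV D).obj M).E) := D.j.map_isZero (isZero_zero ℰ)
  rwa [z.eq_of_src σ 0, comp_zero, add_zero] at d

theorem mvb_t {c c' : MV D} (f : c ⟶ c') (b : Bool) :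
    D.i.map (hV f) ≫ D.t b (c'.k b) = D.t b (c.k b) ≫ D.j.map (hE f) := by
  rw [← MD.t_comp, ← MD.t_map, comm]

theorem mvb_ιt {c c' : MV D} (f : c ⟶ c') (b : Bool) :
    (h D).map f ≫ c'.ι ≫ D.t b (c'.k b) = (c.ι ≫ D.t b (c.k b)) ≫ D.j.map (hE f) :=
  (Category.assoc ..).symm.trans ((congrArg (· ≫ D.t b (c'.k b)) (h_ι f)).trans
    ((Category.assoc ..).trans ((congrArg (c.ι ≫ ·) (mvb_t D f b)).trans (Category.assoc ..).symm)))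

theorem h_rE : ∃ e : rE D ⋙ h D ≅ D.j, ∀ M,
    e.hom.app M = ((rE D).obj M).ι ≫ D.t true (((rE D).obj M).k true) := by
  have key : ∀ M : ℰ, IsIso (((rE D).obj M).ι ≫ D.t true (((rE D).obj M).k true)) := fun M => by
    obtain ⟨k, k'⟩ := mvb_diag D.i ((D.e true).app M) ((D.e false).app M)
    obtain ⟨e, he⟩ := ker_iso D ((rE D).obj M) k
    have : e.hom ≫ ((rE D).obj M).ι ≫ D.t true (((rE D).obj M).k true) = 𝟙 _ :=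
      (Category.assoc ..).symm.trans ((congrArg (· ≫ _) he).trans k')
    exact ((Iso.hom_comp_eq_id e).1 this).symm ▸ e.isIso_inv
  refine ⟨NatIso.ofComponents (fun M => @asIso _ _ _ _ _ (key M)) fun {M M'} f => ?_, fun _ => rfl⟩
  exact mvb_ιt D ((rE D).map f) true

/-- The degreewise split sequence `h ⟶ i V ⟶ j E`. -/
theorem h_hT : ∀ K, exT (U D) K → IsZero (((h D).mapHomotopyCategory _).obj K) := by
  rintro ⟨K : CochainComplex (MV D) ℤ⟩ hK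
  let α : h D ⟶ U D ⋙ CategoryTheory.Prod.fst _ _ ⋙ D.i := ⟨fun c => c.ι, fun _ _ f => h_ι f⟩
  let β : U D ⋙ CategoryTheory.Prod.fst _ _ ⋙ D.i ⟶ U D ⋙ CategoryTheory.Prod.snd _ _ ⋙ D.j :=
    ⟨fun c => c.κ, fun _ _ f => κ_comm f⟩
  let s : ShortComplex (CochainComplex 𝒜 ℤ) := ⟨(NatTrans.mapHomologicalComplex α _).app K,
    (NatTrans.mapHomologicalComplex β _).app K, by ext n; exact ι_κ (K.X n)⟩
  choose σ k1 k2 k3 using fun n => (K.X n).spec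
  have hT := (HomotopyCategory.distinguished_iff_iso_trianglehOfDegreewiseSplit _).2
    ⟨s, fun n => ⟨(K.X n).ρ, σ n, k1 n, k2 n, k3 n⟩, ⟨Iso.refl _⟩⟩
  exact Triangle.isZero₁_of_isZero₂₃ _ hT
    (((CategoryTheory.Prod.fst _ _ ⋙ D.i).mapHomotopyCategory (.up ℤ)).map_isZero hK.2)
    (((CategoryTheory.Prod.snd _ _ ⋙ D.j).mapHomotopyCategory (.up ℤ)).map_isZero hK.2)

/-- Covers from covers of generators (sums of covers, `Sm` induction, retracts). -/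
theorem cov_of_gen {PV : ObjectProperty 𝒱} {PE : ObjectProperty ℰ} (hV : Cof PV) (hE : Cof PE)
    (kV : ∀ (c : MV D) x, PV x → ∀ y : x ⟶ c.V, ∃ (a : MV D) (f : a ⟶ c) (y' : x ⟶ a.V),
      IsIso a.κ ∧ y' ≫ MV.hV f = y)
    (kE : ∀ (c : MV D) x, PE x → ∀ y : x ⟶ c.E, ∃ (a : MV D) (f : a ⟶ c) (y' : x ⟶ a.E),
      IsIso a.κ ∧ y' ≫ MV.hE f = y) (c : MV D) :
    ∃ (a : MV D) (f : a ⟶ c), IsZero ((h D).obj a) ∧ ∃ s, s ≫ (U D).map f = 𝟙 _ := by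
  obtain ⟨a, f, s, q, e⟩ := mvb_cov (Kz (h D)) (U D ⋙ CategoryTheory.Prod.fst _ _) hV c
    fun x hx y => by
      obtain ⟨a, f, y', q, e⟩ := kV c x hx y
      exact ⟨a, f, y', (isZero_iff D a).2 q, e⟩
  obtain ⟨a', f', s', q', e'⟩ := mvb_cov (Kz (h D)) (U D ⋙ CategoryTheory.Prod.snd _ _) hE c
    fun x hx y => by
      obtain ⟨a, f, y', q, e⟩ := kE c x hx y
      exact ⟨a, f, y', (isZero_iff D a).2 q, e⟩
  have q₂ := @Ad.add _ _ _ inferInstance (Kz (h D)) _ a a' q q'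
  refine ⟨a ⊞ a', biprod.desc f f', q₂,
    (s ≫ MV.hV (biprod.inl : a ⟶ a ⊞ a'), s' ≫ MV.hE (biprod.inr : a' ⟶ a ⊞ a')), Prod.ext ?_ ?_⟩
  · exact (Category.assoc ..).trans
      ((congrArg (fun z => s ≫ MV.hV z) (biprod.inl_desc f f')).trans e)
  · exact (Category.assoc ..).trans
      ((congrArg (fun z => s' ≫ MV.hE z) (biprod.inr_desc f f')).trans e')

variable [IsIdempotentComplete 𝒱] [IsIdempotentComplete ℰ]

theorem mvb_split {C : Type*} [Category* C] [Preadditive C] [IsIdempotentComplete C] {Y Z : C}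
    {m : Y ⟶ Z} {s : Z ⟶ Y} {ε : Y ⟶ Y} (e₁ : ε + m ≫ s = 𝟙 _) (e₂ : ε ≫ m = 0) :
    ∃ (K : C) (i : K ⟶ Y) (r : Y ⟶ K) (s' : Z ⟶ Y), i ≫ r = 𝟙 _ ∧ r ≫ i = ε ∧ i ≫ m = 0 ∧
      r ≫ i = 𝟙 _ - m ≫ s' := by
  obtain ⟨K, i, r, a, b⟩ := IsIdempotentComplete.idempotents_split Y ε
    (by simpa [reassoc_of% e₂] using congrArg (ε ≫ ·) e₁)
  refine ⟨K, i, r, s, a, b, ?_, by rw [b, ← e₁, add_sub_cancel_right]⟩
  simpa [reassoc_of% a] using congrArg (i ≫ ·) (b ▸ e₂ : (r ≫ i) ≫ m = 0)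

/-- Split the idempotent `ε`; `k b = i ≫ k b ≫ s r`; the section of the boundary map is
`j i ≫ τ ≫ i r`. -/
theorem ker₀ {Y Z : MV D} (m : Y ⟶ Z) (s : (U D).obj Z ⟶ (U D).obj Y)
    (ε : (U D).obj Y ⟶ (U D).obj Y) (e₁ : ε + (U D).map m ≫ s = 𝟙 _) (e₂ : ε ≫ (U D).map m = 0)
    (τ : D.j.obj Y.E ⟶ D.i.obj Y.V) (t₁ : τ ≫ D.i.map (hV m) = 0) (t₂ : τ ≫ Y.κ = D.j.map ε.2) :
    ∃ (K : MV D) (i : K ⟶ Y) (r : (U D).obj Y ⟶ (U D).obj K), i ≫ m = 0 ∧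
      (U D).map i ≫ r = 𝟙 _ ∧ r ≫ (U D).map i = ε ∧
        ∀ W (t : W ⟶ Y), t ≫ m = 0 → ∃ l, l ≫ i = t := by
  obtain ⟨V, i, r, w, a1, a2, a3, a4⟩ := mvb_split (Y := Y.V) (Z := Z.V) (m := hV m) (s := s.1)
    (ε := ε.1) (congrArg Prod.fst e₁) (congrArg Prod.fst e₂)
  obtain ⟨E, i', r', w', b1, b2, b3, b4⟩ := mvb_split (Y := Y.E) (Z := Z.E) (m := hE m) (s := s.2)
    (ε := ε.2) (congrArg Prod.snd e₁) (congrArg Prod.snd e₂)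
  have ek : D.κ (fun b => i ≫ Y.k b ≫ (D.s b).map r') = D.i.map i ≫ Y.κ ≫ D.j.map r' := by
    simp only [κ, MD.κ, ← Category.assoc, MD.t_map]
    simp only [MD.t_comp, Preadditive.comp_sub, Preadditive.sub_comp, Category.assoc]
  have t₃ : τ ≫ D.i.map r ≫ D.i.map i = τ := by
    rw [← D.i.map_comp, a4]
    simp [reassoc_of% t₁]
  have t₄ : τ ≫ Y.κ = D.j.map (r' ≫ i') := t₂.trans (congrArg D.j.map b2.symm)
  let K : MV D := ⟨V, E, fun b => i ≫ Y.k b ≫ (D.s b).map r', D.j.map i' ≫ τ ≫ D.i.map r, by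
    rw [ek]
    simp only [Category.assoc, reassoc_of% t₃, reassoc_of% t₄]
    rw [← D.j.map_comp, ← D.j.map_comp, Category.assoc, reassoc_of% b1, b1, D.j.map_id]⟩
  refine ⟨K, homMk i i' fun b => ?_, (r, r'), hom_ext a3 b3, Prod.ext a1 b1, Prod.ext a2 b2,
    fun W t k => ?_⟩
  · change _ = (i ≫ Y.k b ≫ (D.s b).map r') ≫ (D.s b).map i'
    simp only [Category.assoc]
    rw [← (D.s b).map_comp, b4]
    simp [← comm_assoc, reassoc_of% a3]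
  · have k1 : hV t ≫ r ≫ i = hV t := by
      rw [a4]
      simp [reassoc_of% (show hV t ≫ hV m = 0 from congrArg hV k)]
    have k2 : hE t ≫ r' ≫ i' = hE t := by
      rw [b4]
      simp [reassoc_of% (show hE t ≫ hE m = 0 from congrArg hE k)]
    refine ⟨homMk (hV t ≫ r) (hE t ≫ r') fun b => ?_,
      hom_ext ((Category.assoc ..).trans k1) ((Category.assoc ..).trans k2)⟩
    change (hV t ≫ r) ≫ i ≫ Y.k b ≫ (D.s b).map r' = _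
    simp only [Category.assoc, reassoc_of% k1, comm_assoc, Functor.map_comp]

/-- `spl`: snake. `ker`: `τ = ε σ - y t ι` with `ε σ (i m) = y ι`, `t` a section of `h m`.
`cyc`: `ε = s ≫ U d`, `τ = j s ≫ σ ≫ i d`. -/
theorem ex3 (cov : ∀ c : MV D, ∃ (a : MV D) (f : a ⟶ c), IsZero ((h D).obj a) ∧
    ∃ s, s ≫ (U D).map f = 𝟙 _) : Ex3 (U D) (h D) where
  spl {X Y Z} i p _ k := mvb_snake X.spl Y.spl Z.spl
    (mvb_map (CategoryTheory.Prod.fst _ _ ⋙ D.i) k) (mvb_map (CategoryTheory.Prod.snd _ _ ⋙ D.j) k)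
    (κ_comm i) (κ_comm p) (h_ι i) (h_ι p)
  ker {Y Z} p := by
    rintro ⟨s, hs⟩ ⟨t, ht⟩
    obtain ⟨ε, hε⟩ : ∃ ε, ε = 𝟙 _ - (U D).map p ≫ s := ⟨_, rfl⟩
    have e₁ : ε + (U D).map p ≫ s = 𝟙 _ := by rw [hε, sub_add_cancel]
    have e₂ : ε ≫ (U D).map p = 0 := by
      rw [hε, Preadditive.sub_comp, Category.assoc, hs, Category.id_comp, Category.comp_id, sub_self]
    obtain ⟨τ, t₁, t₂⟩ := mvb_tau Y.spl Z.spl (κ_comm p) (h_ι p) ht (D.j.map ε.2)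
      ((D.j.map_comp _ _).symm.trans
        ((congrArg (fun z => D.j.map z.2) e₂).trans (D.j.map_zero _ _)))
    obtain ⟨K, i, r, a, b, c, d⟩ := ker₀ D p s ε e₁ e₂ τ t₁ t₂
    exact ⟨K, i, a, ⟨r, s, b, hs, by rw [c, e₁]⟩, d⟩
  cyc {X Y Z} d d' z := by
    rintro ⟨s, s', e⟩
    obtain ⟨τ, t₁, t₂⟩ := mvb_tau' (a' := D.i.map (hV d')) X.epi (κ_comm d)
      (by rw [← D.i.map_comp, ← hV_comp, z, hV_zero, D.i.map_zero]) (D.j.map s.2)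
    obtain ⟨K, i, r, a, b, c, k⟩ := ker₀ D d' s' (s ≫ (U D).map d) e
      (by rw [Category.assoc, ← Functor.map_comp, z, Functor.map_zero, comp_zero]) τ t₁
      (t₂.trans (D.j.map_comp _ _).symm)
    exact ⟨K, i, r, s', a, b, by rw [c, e], k⟩
  cov := cov
end MVb

/-- The presented object as a map. -/
noncomputable abbrev hM : Map (amb D) (Am.of.{v, u'} 𝒜) := exTo.{v, u, u'} (U D) (h D) (h_hT D)

end MV

end Pool.Agent.Lib.MP_5d3e93_al.K
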