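import Pool.Agent.Lib.MP_5d3e93_al.K.MVd
import Pool.Agent.Lib.MP_5d3e93_al.K.Cls

/-! The twisted presentation is trivial in K-theory. -/

open CategoryTheory Limits Pretriangulated ZeroObject MulAction

namespace Pool.Agent.Lib.MP_5d3e93_al

universe w v u y v' u' v'' u''

namespace K

open Gr Am

theorem mve_split {A : Type*} {B : Type*} [Category* A] [Category* B] [Preadditive B]
    {F F₁ F₂ : A ⥤ B} (p₁ : F ⟶ F₁) (p₂ : F ⟶ F₂)
    (h : ∀ X, ∃ i₁ i₂, i₁ ≫ p₁.app X = 𝟙 _ ∧ i₂ ≫ p₂.app X = 𝟙 _ ∧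
      p₁.app X ≫ i₁ + p₂.app X ≫ i₂ = 𝟙 _) :
    ∃ i : F₁ ⟶ F, i ≫ p₂ = 0 ∧ ∀ X, ∃ r s, i.app X ≫ r = 𝟙 _ ∧ s ≫ p₂.app X = 𝟙 _ ∧
      r ≫ i.app X + p₂.app X ≫ s = 𝟙 _ := by
  choose i₁ i₂ a b c using h
  have z := fun X => cls_orth (a X) (b X) (c X)
  refine ⟨⟨i₁, fun X Y φ => ?_⟩, NatTrans.ext (funext z), fun X => ⟨_, _, a X, b X, c X⟩⟩
  have e := congrArg (i₁ X ≫ F.map φ ≫ ·) (c Y)
  simp only [Preadditive.comp_add, NatTrans.naturality_assoc, reassoc_of% (a X),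
    reassoc_of% (z X), zero_comp, add_zero, Category.comp_id] at e
  exact e

theorem mve_add {A : Type*} {B : Type*} [Category* A] [Category* B] [Preadditive A] [Preadditive B]
    {F I : A ⥤ B} [F.Additive] (i : I ⟶ F) (e : F ⟶ I) (h : i ≫ e = 𝟙 _) : I.Additive := by
  have k : ∀ {X Y : A} (φ : X ⟶ Y), I.map φ = i.app X ≫ F.map φ ≫ e.app Y := fun {X Y} φ => by
    rw [← i.naturality_assoc, ← NatTrans.comp_app, h, NatTrans.id_app, Category.comp_id]
  exact ⟨fun {X Y f g} => by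
    rw [k, k f, k g, F.map_add, Preadditive.add_comp, Preadditive.comp_add]⟩

theorem mve_zero {A : Type*} {B : Type*} [Category* A] [Category* B] [Preadditive A] [Preadditive B]
    {F I : A ⥤ B} [F.Additive] [I.Additive] (i : I ⟶ F) (e : F ⟶ I) (h : i ≫ e = 𝟙 _)
    (K : Kh A) (z : IsZero ((F.mapHomotopyCategory _).obj K)) :
    IsZero ((I.mapHomotopyCategory _).obj K) := by
  rw [IsZero.iff_id_eq_zero, ← NatTrans.id_app, ← NatTrans.mapHomotopyCategory_id, ← h,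
    NatTrans.mapHomotopyCategory_comp, NatTrans.comp_app,
    z.eq_of_src ((NatTrans.mapHomotopyCategory e _).app K) 0, comp_zero]

variable {𝒱 ℰ : Type (max u v)} {𝒜 : Type (max u' v)} [Category.{v} 𝒱] [Category.{v} ℰ]
  [Category.{v} 𝒜] [Preadditive 𝒱] [Preadditive ℰ] [Preadditive 𝒜] [HasZeroObject 𝒱]
  [HasZeroObject ℰ] [HasZeroObject 𝒜] [HasBinaryBiproducts 𝒱] [HasBinaryBiproducts ℰ]
  [HasBinaryBiproducts 𝒜] (D : MD.{v, u, u'} 𝒱 ℰ 𝒜)

namespace MV

variable [IsIdempotentComplete 𝒜]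

/-- An edge object with one end, as a map. -/
noncomputable def elM (b : Bool) : Map (Am.of.{v, u} ℰ) (amb D) :=
  @ofMap _ _ _ _ _ (amb D) (el D b) (inferInstanceAs (el D b).Additive)

theorem el_iso (b : Bool) (M : ℰ) : IsIso ((el D b).obj M).κ := by
  cases b
  · have : ((el D false).obj M).κ = -(D.e false).hom.app M := by simp [el, MD.κ, MD.t, dl]
    rw [this]
    exact (-(D.e false).app M).isIso_hom
  · have : ((el D true).obj M).κ = (D.e true).hom.app M := by simp [el, MD.κ, MD.t, dl]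
    rw [this]
    exact ((D.e true).app M).isIso_hom

theorem elM_ker (b : Bool) :
    (Am.of.{v, u} ℰ).bdd ≤ ((hM D).ker (amb D).bdd).inverseImage (elM D b).D := by
  have : Tg (amb D).bdd := inferInstanceAs (Tg (Cl _))
  obtain ⟨e⟩ := (elM D b).sg_iso
  obtain ⟨e'⟩ := (hM D).sg_iso
  have : (Am.of.{v, u'} 𝒜).sg.Additive :=
    inferInstanceAs (HomotopyCategory.singleFunctor _ 0 ⋙ (Am.of.{v, u'} 𝒜).Q).Additive
  refine Cl.le ?_
  rintro _ ⟨M, hM', ⟨i⟩⟩
  refine ⟨(elM D b).bdd_map _ (Cl.of ⟨M, hM', ⟨i⟩⟩), ?_⟩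
  exact IsZero.of_iso ((Am.of.{v, u'} 𝒜).sg.map_isZero ((isZero_iff D _).2 (el_iso D b M)))
    ((hM D).D.mapIso (((elM D b).D.mapIso i).symm ≪≫ e.app M) ≪≫ e'.app _)

variable {D}

section Pt
variable {V : 𝒱} {E : ℰ} (k : ∀ b, V ⟶ (D.s b).obj E) (p : Bool → (E ⟶ E))

omit [HasZeroObject 𝒱] [HasZeroObject ℰ] [HasZeroObject 𝒜] [HasBinaryBiproducts 𝒱]
  [HasBinaryBiproducts ℰ] [HasBinaryBiproducts 𝒜] [IsIdempotentComplete 𝒜] in
theorem mve_p (s : p true + p false = 𝟙 _) (a : p true ≫ p true = p true) (b : Bool) {I : ℰ}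
    (e : E ⟶ I) (h : p b ≫ e = e) (b' : Bool) : (k b ≫ (D.s b).map e) ≫ dl D I b b' =
      (k b' ≫ (D.s b').map (p b')) ≫ (D.s b').map e := by
  have o₁ : p true ≫ p false = 0 := by simpa [a] using congrArg (p true ≫ ·) s
  have o₂ : p false ≫ p true = 0 := by simpa [a] using congrArg (· ≫ p true) s
  rw [Category.assoc, Category.assoc, ← Functor.map_comp]
  cases b <;> cases b'
  · simp [dl, h]
  · rw [← h, reassoc_of% o₁]; simp [dl]
  · rw [← h, reassoc_of% o₂]; simp [dl]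
  · simp [dl, h]

omit [HasZeroObject 𝒱] [HasZeroObject ℰ] [HasZeroObject 𝒜] [HasBinaryBiproducts 𝒱]
  [HasBinaryBiproducts ℰ] [HasBinaryBiproducts 𝒜] [IsIdempotentComplete 𝒜] in
theorem mve_i (μ : ∀ b, (D.s b).obj E ⟶ V)
    (m : ∀ b b', μ b ≫ k b' ≫ (D.s b').map (p b') = (D.s b).map (p b) ≫ dl D E b b') (b : Bool)
    {I : ℰ} (i : I ⟶ E) (e : E ⟶ I) (a : i ≫ e = 𝟙 _) (a' : e ≫ i = p b) :
    (∀ b', ((D.s b).map i ≫ μ b) ≫ k b' ≫ (D.s b').map (p b') = dl D I b b' ≫ (D.s b').map i) ∧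
    ((D.s b).map i ≫ μ b) ≫ k b ≫ (D.s b).map e = 𝟙 _ ∧
    (k b ≫ (D.s b).map e) ≫ (D.s b).map i ≫ μ b = k b ≫ (D.s b).map (p b) ≫ μ b := by
  have q : ∀ b', ((D.s b).map i ≫ μ b) ≫ k b' ≫ (D.s b').map (p b') =
      dl D I b b' ≫ (D.s b').map i := fun b' => by
    rw [Category.assoc, m, ← Functor.map_comp_assoc, ← a', reassoc_of% a]
    cases b <;> cases b' <;> simp [dl]
  refine ⟨q, ?_, by rw [Category.assoc, ← Functor.map_comp_assoc, a']⟩
  have r := congrArg (· ≫ (D.s b).map e) (q b)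
  have d : dl D I b b = 𝟙 _ := by cases b <;> rfl
  simp only [Category.assoc, ← Functor.map_comp, ← a', a, d, Category.comp_id, Category.id_comp,
    CategoryTheory.Functor.map_id] at r
  rw [Category.assoc]
  exact r

end Pt

variable [IsIdempotentComplete 𝒱] [IsIdempotentComplete ℰ]

/-- The projection to one side. -/
noncomputable def Idm.prj (x : Idm D) (b : Bool) {I : W D ⥤ ℰ} (e : EW D ⟶ I)
    (h : ∀ c, (x.p b).app c ≫ e.app c = e.app c) : x.tw ⟶ I ⋙ el D b where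
  app c := homMk (c.obj.k b ≫ (D.s b).map (e.app c)) (e.app c)
    (mve_p c.obj.k (fun b => (x.p b).app c) (NatTrans.congr_app x.sum c)
      (NatTrans.congr_app (x.idem _) c) b (e.app c) (h c))
  naturality c c' f := by
    refine hom_ext ?_ (e.naturality f)
    have := congrArg (D.s b).map (e.naturality f)
    rw [Functor.map_comp, Functor.map_comp] at this
    change hV (c := c.obj) (c' := c'.obj) f.hom ≫ c'.obj.k b ≫ (D.s b).map (e.app c') =
      (c.obj.k b ≫ (D.s b).map (e.app c)) ≫ (D.s b).map (I.map f)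
    rw [comm_assoc, Category.assoc]
    exact congrArg (c.obj.k b ≫ ·) this

theorem Idm.mve_inc (x : Idm D) {I : Bool → W D ⥤ ℰ} (i : ∀ b, I b ⟶ EW D) (e : ∀ b, EW D ⟶ I b)
    (a : ∀ b c, (i b).app c ≫ (e b).app c = 𝟙 _)
    (a' : ∀ b c, (e b).app c ≫ (i b).app c = (x.p b).app c)
    (h : ∀ b c, (x.p b).app c ≫ (e b).app c = (e b).app c) (c : W D) :
    ∃ i₁ i₂, i₁ ≫ (x.prj true (e true) (h true)).app c = 𝟙 _ ∧
      i₂ ≫ (x.prj false (e false) (h false)).app c = 𝟙 _ ∧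
      (x.prj true (e true) (h true)).app c ≫ i₁ + (x.prj false (e false) (h false)).app c ≫ i₂ =
        𝟙 _ := by
  obtain ⟨μ, m₁, m₂⟩ := x.mu c
  have q := fun b => mve_i c.obj.k (fun b => (x.p b).app c) μ m₁ b ((i b).app c) ((e b).app c)
    (a b c) (a' b c)
  let j : ∀ b, (I b ⋙ el D b).obj c ⟶ x.tw.obj c := fun b =>
    homMk ((D.s b).map ((i b).app c) ≫ μ b) ((i b).app c) (q b).1
  exact ⟨j true, j false, hom_ext (q true).2.1 (a true c), hom_ext (q false).2.1 (a false c),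
    hom_ext ((congrArg₂ (· + ·) (q true).2.2 (q false).2.2).trans m₂)
      ((congrArg₂ (· + ·) (a' true c) (a' false c)).trans (NatTrans.congr_app x.sum c))⟩

theorem Idm.tw_null (x : Idm D) (zE : Z (Am.of.{v, u} ℰ).bdd)
    (k : (ambW D).bdd ≤ ((hM D).ker (amb D).bdd).inverseImage x.twM.D) : Null x.twM k := by
  have : Tg (amb D).bdd := inferInstanceAs (Tg (Cl _))
  choose I i e a a' using fun b => IsIdempotentComplete.idempotents_split (EW D) (x.p b) (x.idem b)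
  have ad : ∀ b, (I b).Additive := fun b => mve_add (i b) (e b) (a b)
  have h : ∀ b c, (x.p b).app c ≫ (e b).app c = (e b).app c := fun b c => by
    rw [← NatTrans.comp_app, ← a', Category.assoc, a, Category.comp_id]
  let g : Bool → Map (ambW D) (Am.of.{v, u} ℰ) := fun b =>
    @Map.mk (ambW D) (Am.of ℰ) (I b) (ad b) fun K l => Tg.zero (Am.of ℰ).Tb
      (@mve_zero _ _ _ _ _ _ _ _ (EW_add D) (ad b) (i b) (e b) (a b) K
        (((CategoryTheory.Prod.snd 𝒱 ℰ).mapHomotopyCategory _).map_isZero l.2))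
  have l : ∀ b, (ambW D).bdd ≤ ((hM D).ker (amb D).bdd).inverseImage ((g b).comp (elM D b)).D :=
    fun b X hX => elM_ker D b _ ((g b).bdd_map X hX)
  obtain ⟨α, z, s⟩ := mve_split (x.prj true (e true) (h true)) (x.prj false (e false) (h false))
    (x.mve_inc i e (fun b c => NatTrans.congr_app (a b) c) (fun b c => NatTrans.congr_app (a' b) c) h)
  intro n
  rw [Kmap_add n (f₁ := (g true).comp (elM D true)) (f := x.twM) (f₂ := (g false).comp (elM D false))
      (ses_of_split (α := α) (h := z) s _) (l true) k (l false),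
    zE.null (g true) (elM D true) (g true).bdd_map (elM_ker D true) (l true) n,
    zE.null (g false) (elM D false) (g false).bdd_map (elM_ker D false) (l false) n, add_zero]

end MV

end K

end Pool.Agent.Lib.MP_5d3e93_al
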