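import Pool.Agent.Lib.MP_5d3e93_al.K.MVd
import Pool.Agent.Lib.MP_5d3e93_al.K.Tr

/-! The class of the two coresolutions vanishes. -/

open CategoryTheory Limits Pretriangulated ZeroObject MulAction

namespace Pool.Agent.Lib.MP_5d3e93_al

universe v u v' u'

namespace K

open Gr Am

theorem mvf_key {a : Am.{v, u}} {b : Am.{v', u'}} {f g J : Map a b} {α : Bool → (f.F ⟶ g.F)}
    {t : J.F ⟶ J.F} (tr : Tr J t) (i : J.F ⟶ f.F) (q : g.F ⟶ J.F)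
    (s₁ : ∀ X, Spl (i.app X) ((α true ≫ q).app X)) (s₂ : ∀ X, Spl ((i ≫ α true).app X) (q.app X))
    (e₁ : i ≫ α false = i ≫ α true) (e₂ : (α true ≫ q) ≫ t = α false ≫ q) (n : ℕ)
    (z : ∀ m : J.Au (𝟙 _) a.bdd b.bdd, Kmap n _ m.V = 0)
    (k : a.bdd ≤ (V b.bdd).inverseImage (f.two g α).D) : Kmap n _ k = 0 := by
  have zero : ∀ {f : Map a b} (i : J.F ⟶ f.F) (p : f.F ⟶ J.F), (∀ X, Spl (i.app X) (p.app X)) →
      i ≫ p = 0 := fun i p s => NatTrans.ext (funext fun X => by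
    obtain ⟨r, s, h1, h2, h3⟩ := s X
    exact tr_zero h1 h2 h3)
  have o : J.Au (𝟙 _) a.bdd b.bdd := .one J.bdd_map
  obtain ⟨_, s⟩ := ses_two (α₁ := fun c => cond c (𝟙 _) (𝟙 _)) (α := α)
    (α₂ := fun c => cond c (𝟙 _) t) (ses_of_split (h := zero _ _ s₁) s₁ a.bdd)
    (ses_of_split (h := zero _ _ s₂) s₂ a.bdd) (by rintro (_ | _) <;> simp [e₁])
    (by rintro (_ | _); exacts [e₂, Category.comp_id _])
  rw [Kmap_add n s o.V k tr.au.V, z o, zero_add]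
  exact (tr.2 n tr.au.V o.V).trans (z o)

theorem mvf_spl {C : Type*} [Category* C] [Preadditive C] {A B S E P : C} {l : A ⟶ B} {l' : B ⟶ A}
    {m : S ⟶ B} {m' : B ⟶ S} (h₁ : l ≫ l' = 𝟙 _) (h₂ : m ≫ m' = 𝟙 _)
    (h₃ : l' ≫ l + m' ≫ m = 𝟙 _) {δ : E ⟶ S} {π : S ⟶ E} (s : Spl δ π) {ι : P ⟶ B} {ρ : B ⟶ P}
    (e₁ : ι ≫ ρ = 𝟙 _) (e₂ : ι ≫ m' ≫ π = 0)
    (e₃ : ∀ X (φ : X ⟶ B), φ ≫ m' ≫ π = 0 → φ ≫ ρ ≫ ι = φ) (κ : A ⟶ E) [IsIso κ] :
    Spl (-δ ≫ m ≫ ρ) (ι ≫ l' ≫ κ) := by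
  obtain ⟨r, s, s₁, s₂, s₃⟩ := s
  have z := cls_orth h₁ h₂ h₃
  have a₁ := e₃ _ (δ ≫ m) (by simp [reassoc_of% h₂, tr_zero s₁ s₂ s₃])
  have a₂ := e₃ _ l (by rw [reassoc_of% z, zero_comp])
  rw [Category.assoc] at a₁
  refine ⟨-ι ≫ m' ≫ r, inv κ ≫ l ≫ ρ, ?_, ?_, ?_⟩
  · simp [reassoc_of% a₁, reassoc_of% h₂, s₁]
  · simp [reassoc_of% a₂, reassoc_of% h₁]
  · have b₁ := congrArg (fun k => ι ≫ m' ≫ k ≫ m ≫ ρ) s₃
    have b₂ := congrArg (fun k => ι ≫ k ≫ ρ) h₃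
    simp [reassoc_of% e₂] at b₁
    simpa [b₁, e₁, add_comm] using b₂

variable {𝒱 ℰ : Type (max u v)} {𝒜 : Type (max u' v)} [Category.{v} 𝒱] [Category.{v} ℰ]
  [Category.{v} 𝒜] [Preadditive 𝒱] [Preadditive ℰ] [Preadditive 𝒜] [HasZeroObject 𝒱]
  [HasZeroObject ℰ] [HasZeroObject 𝒜] [HasBinaryBiproducts 𝒱] [HasBinaryBiproducts ℰ]
  [HasBinaryBiproducts 𝒜] (D : MD.{v, u, u'} 𝒱 ℰ 𝒜)

namespace MV

/-- The diagonal of an edge object. -/
noncomputable def fδ' (E : ℰ) : D.j.obj E ⟶ D.i.obj ((D.s true).obj E ⊞ (D.s false).obj E) :=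
  (D.e true).inv.app E ≫ D.i.map biprod.inl + (D.e false).inv.app E ≫ D.i.map biprod.inr

/-- The diagonal of an edge object. -/
noncomputable def fδ (E : ℰ) : D.j.obj E ⟶ D.i.obj ((sE D).obj E) := fδ' D E

/-- The difference of the two ends. -/
noncomputable def fπ (E : ℰ) : D.i.obj ((sE D).obj E) ⟶ D.j.obj E := ((rE D).obj E).κ

theorem fδ_nat {E E' : ℰ} (g : E ⟶ E') :
    D.j.map g ≫ fδ D E' = fδ D E ≫ D.i.map ((sE D).map g) := by
  have a := fun b => (D.e b).inv.naturality g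
  simp only [Functor.comp_obj, Functor.comp_map] at a
  change D.j.map g ≫ fδ' D E' =
    fδ' D E ≫ D.i.map (biprod.map ((D.s true).map g) ((D.s false).map g))
  simp [fδ', Preadditive.comp_add, Preadditive.add_comp, reassoc_of% a, ← Functor.map_comp]

theorem fπ_nat {E E' : ℰ} (g : E ⟶ E') :
    D.i.map ((sE D).map g) ≫ fπ D E' = fπ D E ≫ D.j.map g := κ_comm ((rE D).map g)

theorem fδ_spl' (E : ℰ) : Spl (fδ' D E) (D.t true biprod.fst - D.t false biprod.snd) := by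
  refine ⟨D.t false biprod.snd, (D.e true).inv.app E ≫ D.i.map biprod.inl, ?_, ?_, ?_⟩
  · simp [fδ', MD.t, Preadditive.add_comp, ← Functor.map_comp_assoc]
  · simp [MD.t, Preadditive.comp_sub, ← Functor.map_comp_assoc]
  · have := congrArg D.i.map (biprod.total (X := (D.s true).obj E) (Y := (D.s false).obj E))
    simp only [Functor.map_add, Functor.map_comp, CategoryTheory.Functor.map_id] at this
    rw [← this]
    simp [fδ', MD.t, Preadditive.comp_add, Preadditive.sub_comp]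
    abel

theorem fδ_spl (E : ℰ) : Spl (fδ D E) (fπ D E) := fδ_spl' D E

theorem fπ_kk (c : MV D) : D.i.map (kk D c) ≫ fπ D c.E = c.κ := by
  have a : (kk D c ≫ biprod.fst : _ ⟶ (D.s true).obj c.E) = c.k true := biprod.lift_fst _ _
  have b : (kk D c ≫ biprod.snd : _ ⟶ (D.s false).obj c.E) = c.k false := biprod.lift_snd _ _
  exact (Preadditive.comp_sub ..).trans (congrArg₂ (· - ·)
    ((MD.t_comp ..).symm.trans (congrArg _ a)) ((MD.t_comp ..).symm.trans (congrArg _ b)))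

theorem fπ_R (y : 𝒱 × ℰ) : ((R D).obj y).κ =
    D.i.map (biprod.snd : y.1 ⊞ (sE D).obj y.2 ⟶ _) ≫ fπ D y.2 :=
  ((Preadditive.comp_sub ..).trans (congrArg₂ (· - ·) (MD.t_comp ..).symm (MD.t_comp ..).symm)).symm

variable [IsIdempotentComplete 𝒜]

/-- The inclusion of the first term. -/
noncomputable def Rι (y : 𝒱 × ℰ) :
    (h D).obj ((R D).obj y) ⟶ D.i.obj (y.1 ⊞ (sE D).obj y.2) := ((R D).obj y).ι

/-- The retraction onto the first term. -/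
noncomputable def Rρ (y : 𝒱 × ℰ) :
    D.i.obj (y.1 ⊞ (sE D).obj y.2) ⟶ (h D).obj ((R D).obj y) := ((R D).obj y).ρ

/-- The inclusion of the second term. -/
noncomputable def Vι (y : 𝒱 × ℰ) : (h D).obj ((R₀ D).obj y) ⟶ D.i.obj ((sE D).obj y.2) :=
  ((R₀ D).obj y).ι

/-- Its inverse. -/
noncomputable def Vρ (y : 𝒱 × ℰ) : D.i.obj ((sE D).obj y.2) ⟶ (h D).obj ((R₀ D).obj y) :=
  ((R₀ D).obj y).ρ

variable {D} (y : 𝒱 × ℰ)

theorem Rι_ρ : Rι D y ≫ Rρ D y = 𝟙 _ := ι_ρ _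

theorem Rι_κ : Rι D y ≫ D.i.map biprod.snd ≫ fπ D y.2 = 0 :=
  (congrArg (Rι D y ≫ ·) (fπ_R D y)).symm.trans (ι_κ _)

theorem R_lift (X : 𝒜) (φ : X ⟶ _) (h : φ ≫ D.i.map biprod.snd ≫ fπ D y.2 = 0) :
    φ ≫ Rρ D y ≫ Rι D y = φ := ((R D).obj y).lift φ ((congrArg (φ ≫ ·) (fπ_R D y)).trans h)

theorem Vι_ρ : Vι D y ≫ Vρ D y = 𝟙 _ := ι_ρ _

theorem Vρ_ι : Vρ D y ≫ Vι D y = 𝟙 _ := (Category.id_comp _).symm.trans
  (((R₀ D).obj y).lift (𝟙 _) ((D.j.map_isZero (isZero_zero _)).eq_of_tgt _ _))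

theorem Rδ : fδ D y.2 ≫ D.i.map biprod.inr ≫ Rρ D y ≫ Rι D y = fδ D y.2 ≫ D.i.map biprod.inr := by
  obtain ⟨r, s, h1, h2, h3⟩ := fδ_spl D y.2
  simpa using R_lift y _ (fδ D y.2 ≫ D.i.map biprod.inr)
    (by simp [← Functor.map_comp_assoc, tr_zero h1 h2 h3])

variable (D) in
/-- The edge object inside the first term. -/
noncomputable def fi : CategoryTheory.Prod.snd 𝒱 ℰ ⋙ D.j ⟶ R D ⋙ h D where
  app y := -fδ D y.2 ≫ D.i.map biprod.inr ≫ Rρ D y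
  naturality y y' f := by
    have b : (h D).map ((R D).map f) ≫ Rι D y' =
        Rι D y ≫ D.i.map (biprod.map f.1 ((sE D).map f.2)) := h_ι ((R D).map f)
    change D.j.map f.2 ≫ (-fδ D y'.2 ≫ D.i.map biprod.inr ≫ Rρ D y') =
      (-fδ D y.2 ≫ D.i.map biprod.inr ≫ Rρ D y) ≫ (h D).map ((R D).map f)
    rw [← Category.comp_id ((h D).map _), ← Rι_ρ y', reassoc_of% b]
    simp only [Preadditive.comp_neg, Preadditive.neg_comp, Category.assoc, reassoc_of% Rδ y,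
      reassoc_of% fδ_nat D f.2, ← Functor.map_comp_assoc, biprod.inr_map]

variable (D) in
/-- The edge object as a quotient of the second term. -/
noncomputable def fq : R₀ D ⋙ h D ⟶ CategoryTheory.Prod.snd 𝒱 ℰ ⋙ D.j where
  app y := Vι D y ≫ fπ D y.2
  naturality y y' f := by
    have b : (h D).map ((R₀ D).map f) ≫ Vι D y' = Vι D y ≫ D.i.map ((sE D).map f.2) :=
      h_ι ((R₀ D).map f)
    change (h D).map ((R₀ D).map f) ≫ Vι D y' ≫ fπ D y'.2 = (Vι D y ≫ fπ D y.2) ≫ D.j.map f.2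
    rw [reassoc_of% b, fπ_nat, Category.assoc]

/-- The differential in the total category. -/
noncomputable def fd (c : MV D) : (h D).obj ((R D).obj (c.V, c.E)) ⟶
    (h D).obj ((R₀ D).obj (c.V, c.E)) := (h D).map ((dd D).app c)

theorem fd_ι (c : MV D) : fd c ≫ Vι D (c.V, c.E) =
    Rι D (c.V, c.E) ≫ D.i.map (biprod.desc (kk D c) (-𝟙 _)) := h_ι ((dd D).app c)

theorem fdq (c : MV D) : fd c ≫ Vι D (c.V, c.E) ≫ fπ D c.E =
    Rι D (c.V, c.E) ≫ D.i.map biprod.fst ≫ c.κ := by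
  have a : biprod.desc (kk D c) (-𝟙 _) = biprod.fst ≫ kk D c - biprod.snd := by ext <;> simp
  have b := Rι_κ (D := D) (c.V, c.E)
  rw [reassoc_of% fd_ι c, a]
  simp [Preadditive.sub_comp, Preadditive.comp_sub, fπ_kk, b]

theorem fid (c : MV D) : (-fδ D c.E ≫ D.i.map biprod.inr ≫ Rρ D (c.V, c.E)) ≫ fd c =
    fδ D c.E ≫ Vρ D (c.V, c.E) := by
  have b := Rδ (D := D) (c.V, c.E)
  rw [← Category.comp_id (fd c), ← Vι_ρ, reassoc_of% fd_ι c]
  simp [reassoc_of% b, ← Functor.map_comp_assoc]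

theorem fspl₁ (c : MV D) [IsIso c.κ] : Spl (-fδ D c.E ≫ D.i.map biprod.inr ≫ Rρ D (c.V, c.E))
    (fd c ≫ Vι D (c.V, c.E) ≫ fπ D c.E) := by
  rw [fdq]
  refine mvf_spl (l := D.i.map biprod.inl) (m' := D.i.map biprod.snd) ?_ ?_ ?_ (fδ_spl D c.E)
    (Rι_ρ _) (Rι_κ (c.V, c.E)) (R_lift (c.V, c.E)) _
  all_goals simp [← Functor.map_comp, ← Functor.map_add]

theorem fspl₂ (c : MV D) : Spl ((-fδ D c.E ≫ D.i.map biprod.inr ≫ Rρ D (c.V, c.E)) ≫ fd c)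
    (Vι D (c.V, c.E) ≫ fπ D c.E) := by
  obtain ⟨r, s, h1, h2, h3⟩ := fδ_spl D c.E
  have a := Vρ_ι (D := D) (c.V, c.E)
  rw [fid]
  refine ⟨Vι D (c.V, c.E) ≫ r, s ≫ Vρ D (c.V, c.E), by simp [reassoc_of% a, h1],
    by simp [reassoc_of% a, h2], ?_⟩
  simpa [Vι_ρ] using congrArg (fun k => Vι D (c.V, c.E) ≫ k ≫ Vρ D (c.V, c.E)) h3

variable [IsIdempotentComplete 𝒱] [IsIdempotentComplete ℰ]

theorem Idm.two_null (x : Idm D) (zE : Z (Am.of.{v, u} ℰ).bdd) (n : ℕ)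
    (k : (ambW D).bdd ≤ (Am.V (Am.of.{v, u'} 𝒜).bdd).inverseImage
      ((((UW D).comp (RM D)).comp (hM D)).two (((UW D).comp (R₀M D)).comp (hM D))
        fun e => Functor.whiskerRight (x.d e) (hM D).F).D) : Kmap n _ k = 0 := by
  refine mvf_key (J := Fn.map.{v, u, v, u'} ((FW D).post D.j))
    (f := ((UW D).comp (RM D)).comp (hM D)) (g := ((UW D).comp (R₀M D)).comp (hM D))
    (α := fun e => Functor.whiskerRight (x.d e) (hM D).F)
    x.tr (Functor.whiskerLeft (UW D).F (fi D)) (Functor.whiskerLeft (UW D).F (fq D))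
    (fun c => ?_) (fun c => fspl₂ (x.tw.obj c)) ?_ ?_ n (fun m => ?_) k
  · have := x.tw_iso c
    exact fspl₁ (x.tw.obj c)
  · exact NatTrans.ext (funext fun c => (fid c.obj).trans (fid (x.tw.obj c)).symm)
  · refine NatTrans.ext (funext fun c => ?_)
    refine (congrArg (· ≫ NatTrans.app x.t c) (fdq (x.tw.obj c))).trans
      (Eq.trans ?_ (fdq c.obj).symm)
    exact (Category.assoc ..).trans ((congrArg (Rι D (c.obj.V, c.obj.E) ≫ ·) (Category.assoc ..)).trans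
      (congrArg (fun z => Rι D (c.obj.V, c.obj.E) ≫ D.i.map biprod.fst ≫ z) (x.ht c)))
  · exact two_one_null n zE (Fn.map.{v, u, v, u} (FW D)) (ofMap (b := Am.of.{v, u'} 𝒜) D.j)
      (Map.bdd_map _) (Map.bdd_map _) m

end MV

end K

end Pool.Agent.Lib.MP_5d3e93_al
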