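import Pool.Agent.Lib.MP_5d3e93_al.K.MVc
import Pool.Agent.Lib.MP_5d3e93_al.K.MVe
import Pool.Agent.Lib.MP_5d3e93_al.K.MVf
import Pool.Agent.Lib.MP_5d3e93_al.K.Ex3
import Pool.Agent.Lib.MP_5d3e93_al.K.CMv
import Pool.Agent.Lib.MP_5d3e93_al.K.Bdy

/-! The Mayer-Vietoris theorem for presentations. -/

open CategoryTheory Limits Pretriangulated ZeroObject

set_option linter.unusedSectionVars false

namespace Pool.Agent.Lib.MP_5d3e93_al

universe v u v' u' v'' u''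

namespace K

open Gr Am

/-- The kernel of a localisation vanishes if it is covered by one of two functors with the same
coresolution and killed by the other. -/
theorem mvg_ker {a : Am.{v, u}} {b : Am.{v', u'}} {c : Am.{v'', u''}} (p : Map b c)
    {S : ObjectProperty a.D} {N S' : ObjectProperty b.D} {S'' S₁ : ObjectProperty c.D} [Tg S] [Tg N]
    [Tg S'] [Tg S''] [Tg S₁] (h : Loc p.D N S' S'') (F : Bool → Map a b) {P₁ P₀ : Map a b}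
    {i : ∀ e, (F e).F ⟶ P₁.F} {d : Bool → (P₁.F ⟶ P₀.F)} {w : ∀ e, i e ≫ d e = 0}
    (k : ∀ e, Ses (i e) (d e) (w e) S) (hF : ∀ e, S ≤ N.inverseImage (F e).D)
    (h₁ : S ≤ S'.inverseImage P₁.D) (h₀ : S ≤ S'.inverseImage P₀.D) (le : S'' ≤ S₁)
    (hd : ∀ X, S₁ X → ∃ Y, S₁ Y ∧ S'' (X ⊞ Y))
    (nul : ∀ n (l : S ≤ (Am.V S₁).inverseImage ((P₁.comp p).two (P₀.comp p)
      fun e => Functor.whiskerRight (d e) p.F).D), Kmap n _ l = 0)
    (ht : Null (F true) (hF true)) (dq : Deq (F false).D S N) : Z N := by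
  have hV : S ≤ (Am.V S'').inverseImage ((P₁.comp p).two (P₀.comp p)
      fun e => Functor.whiskerRight (d e) p.F).D :=
    V_two _ (fun X hX => h.maps _ (h₁ X hX)) fun e X hX => by
      obtain ⟨δ, hT⟩ := (k e).tri hX
      rw [← Map.map_nat]
      exact (Triangle.isZero₁_iff_isIso₂ _ (p.D.map_distinguished _ hT)).1 (h.kill _ (hF e X hX))
  intro n
  induction n using Nat.strong_induction_on with | _ n ih => ?_
  refine subsingleton_of_forall_eq 0 fun y => ?_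
  obtain ⟨x, rfl⟩ := (deq_bij n dq).2 y
  refine (bdy n p h ih F k hF h₁ h₀ hV x (Kinc_dense le hd (n + 1) ?_)).symm.trans
    (DFunLike.congr_fun (ht n) x)
  have l := knl_V_le le
  have e := Kmap_comp n _ c.B.idm hV l (fun X hX => l _ (hV X hX)) x
  exact e.symm.trans ((DFunLike.congr_fun (nul n fun X hX => l _ (hV X hX)) x).trans
    (map_zero _).symm)

variable {𝒱 ℰ : Type (max u v)} {𝒜 : Type (max u' v)} [Category.{v} 𝒱] [Category.{v} ℰ]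
  [Category.{v} 𝒜] [Preadditive 𝒱] [Preadditive ℰ] [Preadditive 𝒜] [HasZeroObject 𝒱]
  [HasZeroObject ℰ] [HasZeroObject 𝒜] [HasBinaryBiproducts 𝒱] [HasBinaryBiproducts ℰ]
  [HasBinaryBiproducts 𝒜] {D : MD.{v, u, u'} 𝒱 ℰ 𝒜}

theorem mvg_ad (i : 𝒱 ⥤ 𝒜) [i.Additive] : Ad i.essImage where
  zero _ z := ⟨0, ⟨(i.map_isZero (isZero_zero _)).iso z⟩⟩
  iso e := fun ⟨M, ⟨f⟩⟩ => ⟨M, ⟨f ≪≫ e⟩⟩
  add _ _ := fun ⟨M, ⟨f⟩⟩ ⟨N, ⟨g⟩⟩ =>
    have := preservesBinaryBiproducts_of_preservesBiproducts i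
    ⟨M ⊞ N, ⟨i.mapBiprod M N ≪≫ biprod.mapIso f g⟩⟩

namespace MV

variable [IsIdempotentComplete 𝒜] [IsIdempotentComplete 𝒱] [IsIdempotentComplete ℰ]

theorem mvg_img [Tg ((amb D).bdd.map (hM D).D)] :
    (Am.of.{v, u'} 𝒜).gen D.i.essImage ≤ (amb D).bdd.map (hM D).D := by
  obtain ⟨e, -⟩ := h_rV D
  obtain ⟨f⟩ := (hM D).sg_iso
  refine Cl.le ?_
  rintro _ ⟨X, ⟨M, ⟨g⟩⟩, ⟨l⟩⟩
  exact ⟨(amb D).sg.obj ((rV D).obj M), Cl.of ⟨_, trivial, ⟨Iso.refl _⟩⟩,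
    ⟨f.app _ ≪≫ (Am.of.{v, u'} 𝒜).sg.mapIso (e.app M ≪≫ g) ≪≫ l⟩⟩

/-- The two functors from presentations of zero. -/
noncomputable def mvgF (x : Idm D) : Bool → Map (ambW D) (amb D)
  | true => x.twM
  | false => exMap.{v, u, v, u} (U D) (Kz (h D)).ι

/-- Their coresolutions. -/
noncomputable def mvgI (x : Idm D) : ∀ e, (mvgF x e).F ⟶ ((UW D).comp (RM D)).F
  | true => Functor.whiskerLeft x.tw (η D)
  | false => Functor.whiskerLeft (Kz (h D)).ι (η D)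

theorem mvg_w (x : Idm D) : ∀ e, mvgI x e ≫ x.d e = 0
  | true => NatTrans.ext (funext fun c => η_dd D (x.tw.obj c))
  | false => NatTrans.ext (funext fun c => η_dd D c.obj)

theorem mvg_ses (x : Idm D) : ∀ e, Ses (mvgI x e) (x.d e) (mvg_w x e) (ambW D).bdd
  | true => ses_of_gen fun c _ => exU_exaS (U D) (η_dd D (x.tw.obj c)) (spl_η D (x.tw.obj c))
  | false => ses_of_gen fun c _ => exU_exaS (U D) (η_dd D c.obj) (spl_η D c.obj)

theorem mvg_kill (f : Map (ambW D) (amb D)) (z : ∀ c, IsZero ((h D).obj (f.F.obj c))) :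
    (ambW D).bdd ≤ ((hM D).ker (amb D).bdd).inverseImage f.D :=
  fun X hX => ⟨f.bdd_map X hX, (f.comp (hM D)).isZero z X⟩

theorem mvg_hF (x : Idm D) :
    ∀ e, (ambW D).bdd ≤ ((hM D).ker (amb D).bdd).inverseImage (mvgF x e).D
  | true => mvg_kill _ fun c => (isZero_iff D _).2 (x.tw_iso c)
  | false => mvg_kill _ fun c => c.property

theorem tree (zV : Z (Am.of.{v, u} 𝒱).bdd) (zE : Z (Am.of.{v, u} ℰ).bdd) (σ : Std D)
    (cov : ∀ c : MV D, ∃ (a : MV D) (f : a ⟶ c), IsZero ((h D).obj a) ∧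
      ∃ s, s ≫ (U D).map f = 𝟙 _) (x : Idm D)
    (cof : ∀ c : 𝒜, ∃ (M : 𝒱) (a : c ⟶ D.i.obj M) (r : D.i.obj M ⟶ c), a ≫ r = 𝟙 c) :
    ∃ (N : ObjectProperty (Am.of.{v, u'} 𝒜).D) (_ : Tg N),
      (Am.of.{v, u'} 𝒜).gen D.i.essImage ≤ N ∧ N ≤ (Am.of.{v, u'} 𝒜).bdd ∧ Z N := by
  have l := loc_h σ (zV 0)
  have t := l.toLocOn.tg_map
  have := mvg_ad D.i
  have le : (amb D).bdd.map (hM D).D ≤ (Am.of.{v, u'} 𝒜).bdd := fun _ ⟨X, hX, ⟨e⟩⟩ =>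
    (Am.of.{v, u'} 𝒜).bdd.prop_of_iso e ((hM D).bdd_map X hX)
  refine ⟨_, t, mvg_img, le, Z_quo l (mvg_ker (hM D) l (mvgF x) (mvg_ses x) (mvg_hF x)
    (Map.bdd_map _) (Map.bdd_map _) le (fun X hX => ?_) (x.two_null zE) (x.tw_null zE _)
    ((ex3 D cov).deq _)) (Z_amb D zV zE)⟩
  obtain ⟨Y, a, b⟩ := gen_dense D.i.essImage (fun c => by
    obtain ⟨M, a, r, e⟩ := cof c
    exact ⟨_, a, r, ⟨M, ⟨Iso.refl _⟩⟩, e⟩) X hX
  exact ⟨Y, a, mvg_img _ b⟩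

end MV

end K

end Pool.Agent.Lib.MP_5d3e93_al
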