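import Pool.Agent.Lib.MP_5d3e93_al.K.Tr
import Pool.Agent.Lib.MP_5d3e93_al.K.Col

/-! Categories of nilpotent endomorphisms over bimodules. -/

open CategoryTheory Limits ZeroObject

namespace Pool.Agent.Lib.MP_5d3e93_al.Gr

universe v u u' u₁ u₂ u₃ u₄

section
variable {P : Type u₁} [Category.{v} P] [Preadditive P] {Q : Type u₂} [Category.{v} Q]
  [Preadditive Q] {T : Type u₃} [Category.{v} T] [Preadditive T]

omit [Preadditive T] in
theorem pw_comm {A B : T} {x : A ⟶ A} {y : B ⟶ B} {f : A ⟶ B} (h : f ≫ y = x ≫ f) (n : ℕ) :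
    f ≫ pw y n = pw x n ≫ f := by
  induction n with
  | zero => simp
  | succ n ih => rw [pw_succ, pw_succ, reassoc_of% h, ih, Category.assoc]

theorem pw_zero' {A : T} (n : ℕ) : pw (0 : A ⟶ A) (n + 1) = 0 := by rw [pw_succ, zero_comp]

/-- Bimodules of morphisms between the images of two functors. -/
structure Bi (f : P ⥤ T) (g : Q ⥤ T) where
  m : ∀ M N, AddSubgroup (f.obj M ⟶ g.obj N)
  l : ∀ {M' M N} (k : M' ⟶ M) {x}, x ∈ m M N → f.map k ≫ x ∈ m M' N
  r : ∀ {M N N'} (k : N ⟶ N') {x}, x ∈ m M N → x ≫ g.map k ∈ m M N'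

variable {f : P ⥤ T} {g : Q ⥤ T}

namespace Bi

variable {P₀ : Type u₄} [Category.{v} P₀] [Preadditive P₀]

/-- Restriction on the left. -/
def lc (α : Bi f g) (j : P₀ ⥤ P) : Bi (j ⋙ f) g :=
  ⟨fun M N => α.m (j.obj M) N, fun k _ h => α.l (j.map k) h, fun k _ h => α.r k h⟩

/-- Restriction on the right. -/
def rc (β : Bi g f) (j : P₀ ⥤ P) : Bi g (j ⋙ f) :=
  ⟨fun N M => β.m N (j.obj M), fun k _ h => β.l k h, fun k _ h => β.r (j.map k) h⟩

/-- Products. -/
def mul [HasZeroObject Q] [HasBinaryBiproducts Q] [g.Additive] {h : P₀ ⥤ T} (α : Bi f g)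
    (β : Bi g h) : Bi f h where
  m M K :=
    { carrier := {x | ∃ N a b, a ∈ α.m M N ∧ b ∈ β.m N K ∧ a ≫ b = x}
      zero_mem' := ⟨0, 0, 0, zero_mem _, zero_mem _, zero_comp⟩
      neg_mem' := fun ⟨N, a, b, p, q, e⟩ => ⟨N, -a, b, neg_mem p, q, by simp [e]⟩
      add_mem' := fun ⟨N, a, b, p, q, e⟩ ⟨N', a', b', p', q', e'⟩ =>
        ⟨N ⊞ N', a ≫ g.map biprod.inl + a' ≫ g.map biprod.inr,
          g.map biprod.fst ≫ b + g.map biprod.snd ≫ b', add_mem (α.r _ p) (α.r _ p'),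
          add_mem (β.l _ q) (β.l _ q'), by simp [← g.map_comp_assoc, e, e']⟩ }
  l k _ := fun ⟨N, a, b, p, q, e⟩ => ⟨N, f.map k ≫ a, b, α.l k p, q, by simp [e]⟩
  r k _ := fun ⟨N, a, b, p, q, e⟩ => ⟨N, a, b ≫ h.map k, p, β.r k q, by simp [← e]⟩

/-- Morphisms that detect morphisms into their source. -/
def Sp (α : Bi f g) (β : Bi g f) {N : Q} {M : P} (b : g.obj N ⟶ f.obj M) : Prop :=
  b ∈ β.m N M ∧ (∀ N' (k : N' ⟶ N), g.map k ≫ b = 0 → k = 0) ∧
    ∀ M' (a : f.obj M' ⟶ g.obj N), a ∈ α.m M' N → a ≫ b = 0 → a = 0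

/-- Objects over which every morphism of the bimodule factors through a detecting one. -/
def Hs (α : Bi f g) (β : Bi g f) (M : P) : Prop := ∀ N b, b ∈ β.m N M →
  ∃ (N' : Q) (b' : g.obj N' ⟶ f.obj M) (k : N ⟶ N'), α.Sp β b' ∧ g.map k ≫ b' = b

end Bi

/-- Nilpotent endomorphisms in a bimodule. -/
structure N1 (B : Bi f f) (m : ℕ) where
  M : P
  x : f.obj M ⟶ f.obj M
  mem : x ∈ B.m M M
  nil : pw x (m + 1) = 0

namespace N1

variable [f.Additive] {B : Bi f f} {m : ℕ}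

/-- Morphisms commuting with the endomorphisms. -/
def Mor (X Y : N1 B m) : AddSubgroup (X.M ⟶ Y.M) where
  carrier := {k | f.map k ≫ Y.x = X.x ≫ f.map k}
  add_mem' {a b} h k := by
    change _ = _ at h k ⊢
    simp [h, k]
  zero_mem' := by simp
  neg_mem' {a} h := by
    change _ = _ at h ⊢
    simp [h]

instance : Category.{v} (N1 B m) where
  Hom X Y := Mor X Y
  id X := ⟨𝟙 _, show _ = _ by simp⟩
  comp a b := ⟨a.1 ≫ b.1, show _ = _ by
    rw [f.map_comp, Category.assoc, show f.map b.1 ≫ _ = _ from b.2,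
      reassoc_of% show f.map a.1 ≫ _ = _ from a.2]⟩
  id_comp _ := Subtype.ext (Category.id_comp _)
  comp_id _ := Subtype.ext (Category.comp_id _)
  assoc _ _ _ := Subtype.ext (Category.assoc ..)

instance : Preadditive (N1 B m) where
  homGroup X Y := inferInstanceAs (AddCommGroup (Mor X Y))
  add_comp _ _ _ _ _ _ := Subtype.ext (Preadditive.add_comp ..)
  comp_add _ _ _ _ _ _ := Subtype.ext (Preadditive.comp_add ..)

variable {X Y Z : N1 B m}

@[ext] theorem hom_ext {a b : X ⟶ Y} (h : a.1 = b.1) : a = b := Subtype.ext h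

@[simp] theorem id_f (X : N1 B m) : (𝟙 X : X ⟶ X).1 = 𝟙 _ := rfl

@[simp] theorem comp_f (a : X ⟶ Y) (b : Y ⟶ Z) : (a ≫ b).1 = a.1 ≫ b.1 := rfl

@[simp] theorem add_f (a b : X ⟶ Y) : (a + b).1 = a.1 + b.1 := rfl

@[simp] theorem zero_f : (0 : X ⟶ Y).1 = 0 := rfl

@[reassoc] theorem comm (a : X ⟶ Y) : f.map a.1 ≫ Y.x = X.x ≫ f.map a.1 := a.2

/-- A morphism from its underlying morphism. -/
def homMk (k : X.M ⟶ Y.M) (h : f.map k ≫ Y.x = X.x ≫ f.map k) : X ⟶ Y := ⟨k, h⟩

@[simp] theorem homMk_f (k : X.M ⟶ Y.M) (h) : (homMk k h).1 = k := rfl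

instance [HasZeroObject P] : HasZeroObject (N1 B m) :=
  ⟨⟨⟨0, 0, zero_mem _, pw_zero' m⟩, (IsZero.iff_id_eq_zero _).2
    (hom_ext ((isZero_zero P).eq_of_src _ _))⟩⟩

instance [HasBinaryBiproducts P] : HasBinaryBiproducts (N1 B m) := ⟨fun X Y =>
  have t : f.map (biprod.fst : X.M ⊞ Y.M ⟶ _) ≫ f.map biprod.inl +
      f.map biprod.snd ≫ f.map biprod.inr = 𝟙 _ := by
    rw [← f.map_comp, ← f.map_comp, ← f.map_add, biprod.total, f.map_id]
  hasBinaryBiproduct_of_total
    { pt := ⟨X.M ⊞ Y.M, f.map biprod.fst ≫ X.x ≫ f.map biprod.inl +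
          f.map biprod.snd ≫ Y.x ≫ f.map biprod.inr,
        add_mem (B.l _ (B.r _ X.mem)) (B.l _ (B.r _ Y.mem)), by
          rw [← Category.id_comp (pw _ _), ← t, Preadditive.add_comp, Category.assoc,
            Category.assoc, pw_comm (x := X.x) (by simp [← f.map_comp_assoc]),
            pw_comm (x := Y.x) (by simp [← f.map_comp_assoc]), X.nil, Y.nil]
          simp⟩
      fst := homMk biprod.fst (by simp [← f.map_comp])
      snd := homMk biprod.snd (by simp [← f.map_comp])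
      inl := homMk biprod.inl (by simp [← f.map_comp_assoc])
      inr := homMk biprod.inr (by simp [← f.map_comp_assoc])
      inl_fst := hom_ext biprod.inl_fst
      inl_snd := hom_ext biprod.inl_snd
      inr_fst := hom_ext biprod.inr_fst
      inr_snd := hom_ext biprod.inr_snd } (hom_ext biprod.total)⟩

variable (B m)

/-- The underlying object. -/
def fst : N1 B m ⥤ P where
  obj X := X.M
  map a := a.1

instance : (fst B m).Additive where

/-- The zero endomorphisms. -/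
def z : P ⥤ N1 B m where
  obj M := ⟨M, 0, zero_mem _, pw_zero' m⟩
  map k := homMk k (by simp)

instance : (z B m).Additive where

end N1

/-- Nilpotent pairs. -/
structure N2 (α : Bi f g) (β : Bi g f) (m : ℕ) where
  M : P
  N : Q
  a : f.obj M ⟶ g.obj N
  b : g.obj N ⟶ f.obj M
  ha : a ∈ α.m M N
  hb : b ∈ β.m N M
  nil : pw (a ≫ b) (m + 1) = 0

namespace N2

variable [f.Additive] [g.Additive] {α : Bi f g} {β : Bi g f} {m : ℕ}

/-- Morphisms of pairs. -/
def Mor (X Y : N2 α β m) : AddSubgroup ((X.M ⟶ Y.M) × (X.N ⟶ Y.N)) where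
  carrier := {k | f.map k.1 ≫ Y.a = X.a ≫ g.map k.2 ∧ g.map k.2 ≫ Y.b = X.b ≫ f.map k.1}
  add_mem' h k := ⟨by simp [h.1, k.1], by simp [h.2, k.2]⟩
  zero_mem' := ⟨by simp, by simp⟩
  neg_mem' h := ⟨by simp [h.1], by simp [h.2]⟩

instance : Category.{v} (N2 α β m) where
  Hom X Y := Mor X Y
  id X := ⟨(𝟙 _, 𝟙 _), by simp, by simp⟩
  comp s t := ⟨(s.1.1 ≫ t.1.1, s.1.2 ≫ t.1.2), by simp [t.2.1, reassoc_of% s.2.1],
    by simp [t.2.2, reassoc_of% s.2.2]⟩
  id_comp _ := Subtype.ext (Prod.ext (Category.id_comp _) (Category.id_comp _))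
  comp_id _ := Subtype.ext (Prod.ext (Category.comp_id _) (Category.comp_id _))
  assoc _ _ _ := Subtype.ext (Prod.ext (Category.assoc ..) (Category.assoc ..))

instance : Preadditive (N2 α β m) where
  homGroup X Y := inferInstanceAs (AddCommGroup (Mor X Y))
  add_comp _ _ _ _ _ _ :=
    Subtype.ext (Prod.ext (Preadditive.add_comp ..) (Preadditive.add_comp ..))
  comp_add _ _ _ _ _ _ :=
    Subtype.ext (Prod.ext (Preadditive.comp_add ..) (Preadditive.comp_add ..))

variable {X Y Z : N2 α β m}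

@[ext] theorem hom_ext {s t : X ⟶ Y} (h : s.1.1 = t.1.1) (k : s.1.2 = t.1.2) : s = t :=
  Subtype.ext (Prod.ext h k)

@[simp] theorem id_f (X : N2 α β m) : (𝟙 X : X ⟶ X).1 = (𝟙 _, 𝟙 _) := rfl

@[simp] theorem comp_f (s : X ⟶ Y) (t : Y ⟶ Z) :
    (s ≫ t).1 = (s.1.1 ≫ t.1.1, s.1.2 ≫ t.1.2) := rfl

@[simp] theorem add_f (s t : X ⟶ Y) : (s + t).1 = s.1 + t.1 := rfl

@[simp] theorem zero_f : (0 : X ⟶ Y).1 = 0 := rfl

@[reassoc] theorem comm_a (s : X ⟶ Y) : f.map s.1.1 ≫ Y.a = X.a ≫ g.map s.1.2 := s.2.1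

@[reassoc] theorem comm_b (s : X ⟶ Y) : g.map s.1.2 ≫ Y.b = X.b ≫ f.map s.1.1 := s.2.2

/-- A morphism from its components. -/
def homMk (k : X.M ⟶ Y.M) (l : X.N ⟶ Y.N) (h : f.map k ≫ Y.a = X.a ≫ g.map l)
    (h' : g.map l ≫ Y.b = X.b ≫ f.map k) : X ⟶ Y := ⟨(k, l), h, h'⟩

@[simp] theorem homMk_f (k : X.M ⟶ Y.M) (l : X.N ⟶ Y.N) (h h') : (homMk k l h h').1 = (k, l) := rfl

instance [HasZeroObject P] [HasZeroObject Q] : HasZeroObject (N2 α β m) :=
  ⟨⟨⟨0, 0, 0, 0, zero_mem _, zero_mem _, by rw [zero_comp, pw_zero']⟩, (IsZero.iff_id_eq_zero _).2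
    (hom_ext ((isZero_zero P).eq_of_src _ _) ((isZero_zero Q).eq_of_src _ _))⟩⟩

instance [HasBinaryBiproducts P] [HasBinaryBiproducts Q] : HasBinaryBiproducts (N2 α β m) :=
  ⟨fun X Y =>
  have t : f.map (biprod.fst : X.M ⊞ Y.M ⟶ _) ≫ f.map biprod.inl +
      f.map biprod.snd ≫ f.map biprod.inr = 𝟙 _ := by
    rw [← f.map_comp, ← f.map_comp, ← f.map_add, biprod.total, f.map_id]
  hasBinaryBiproduct_of_total
    { pt := ⟨X.M ⊞ Y.M, X.N ⊞ Y.N, f.map biprod.fst ≫ X.a ≫ g.map biprod.inl +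
          f.map biprod.snd ≫ Y.a ≫ g.map biprod.inr, g.map biprod.fst ≫ X.b ≫ f.map biprod.inl +
          g.map biprod.snd ≫ Y.b ≫ f.map biprod.inr,
        add_mem (α.l _ (α.r _ X.ha)) (α.l _ (α.r _ Y.ha)),
        add_mem (β.l _ (β.r _ X.hb)) (β.l _ (β.r _ Y.hb)), by
          rw [← Category.id_comp (pw _ _), ← t, Preadditive.add_comp, Category.assoc,
            Category.assoc,
            pw_comm (x := X.a ≫ X.b) (by simp [← f.map_comp_assoc, ← g.map_comp_assoc]),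
            pw_comm (x := Y.a ≫ Y.b) (by simp [← f.map_comp_assoc, ← g.map_comp_assoc]),
            X.nil, Y.nil]
          simp⟩
      fst := homMk biprod.fst biprod.fst (by simp [← g.map_comp]) (by simp [← f.map_comp])
      snd := homMk biprod.snd biprod.snd (by simp [← g.map_comp]) (by simp [← f.map_comp])
      inl := homMk biprod.inl biprod.inl (by simp [← f.map_comp_assoc])
        (by simp [← g.map_comp_assoc])
      inr := homMk biprod.inr biprod.inr (by simp [← f.map_comp_assoc])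
        (by simp [← g.map_comp_assoc])
      inl_fst := hom_ext biprod.inl_fst biprod.inl_fst
      inl_snd := hom_ext biprod.inl_snd biprod.inl_snd
      inr_fst := hom_ext biprod.inr_fst biprod.inr_fst
      inr_snd := hom_ext biprod.inr_snd biprod.inr_snd } (hom_ext biprod.total biprod.total)⟩

variable (α β m)

/-- The first object. -/
def fst : N2 α β m ⥤ P where
  obj X := X.M
  map s := s.1.1

instance : (fst α β m).Additive where

/-- The second object. -/
def snd : N2 α β m ⥤ Q where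
  obj X := X.N
  map s := s.1.2

instance : (snd α β m).Additive where

/-- Pairs with trivial first object. -/
noncomputable def c [HasZeroObject P] : Q ⥤ N2 α β m where
  obj N := ⟨0, N, 0, 0, zero_mem _, zero_mem _, by rw [zero_comp, pw_zero']⟩
  map l := homMk 0 l (by simp) (by simp)
  map_id _ := hom_ext ((isZero_zero P).eq_of_src _ _) rfl
  map_comp _ _ := hom_ext (by simp) rfl

instance [HasZeroObject P] : (c α β m).Additive := ⟨hom_ext (add_zero _).symm rfl⟩

/-- The product of the two morphisms. -/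
def π [HasZeroObject Q] [HasBinaryBiproducts Q] : N2 α β m ⥤ N1 (α.mul β) m where
  obj X := ⟨X.M, X.a ≫ X.b, ⟨_, _, _, X.ha, X.hb, rfl⟩, X.nil⟩
  map s := N1.homMk s.1.1 (by simp [comm_a_assoc, comm_b])

instance [HasZeroObject Q] [HasBinaryBiproducts Q] : (π α β m).Additive where

end N2

end

section
variable {P Q : Type (max u v)} [Category.{v} P] [Preadditive P] [HasZeroObject P]
  [HasBinaryBiproducts P] [Category.{v} Q] [Preadditive Q] [HasZeroObject Q]
  [HasBinaryBiproducts Q] {T : Type (max u' v)} [Category.{v} T] [Preadditive T] [HasZeroObject T]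
  [HasBinaryBiproducts T] {f : P ⥤ T} {g : Q ⥤ T} [f.Additive] [g.Additive]

variable (f) in
/-- Nil terms of type `B` and order `m` are trivial. -/
def Ga (B : ∀ M, (f.obj M ⟶ f.obj M) → Prop) (m : ℕ) : Prop :=
  ∀ (X : Am.{v, u}), X.Gs → ∀ (F : Fn X P) (x : F.post f ⟶ F.post f),
    (∀ A, B (F.F.obj A) (NatTrans.app x A)) → pw x m = 0 → Fn.Tr.{v, u, v, u'} (𝟙 _ - x)

/-- Nilpotent endomorphisms; a bounded complex is trivial if the underlying one is contractible. -/
def n1 (B : Bi f f) (m : ℕ) : Am.{v, u} :=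
  ⟨N1 B m, genK ⊤ ⊓ Zr.inverseImage ((N1.fst B m).mapHomotopyCategory (.up ℤ))⟩

/-- Nilpotent pairs; a bounded complex is trivial if both underlying ones are contractible. -/
def n2 (α : Bi f g) (β : Bi g f) (m : ℕ) : Am.{v, u} :=
  ⟨N2 α β m, genK ⊤ ⊓ (Zr.inverseImage ((N2.fst α β m).mapHomotopyCategory (.up ℤ)) ⊓
    Zr.inverseImage ((N2.snd α β m).mapHomotopyCategory (.up ℤ)))⟩

/-- The underlying object as a functor on the source. -/
def n1F (B : Bi f f) (m : ℕ) : Fn (n1.{v, u, u'} B m) P :=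
  @Fn.mk' (n1.{v, u, u'} B m) P _ _ _ _ (N1.fst B m) (inferInstanceAs (N1.fst B m).Additive)
    fun _ h => h.2

/-- The universal endomorphism. -/
def n1X (B : Bi f f) (m : ℕ) : (n1F.{v, u, u'} B m).post f ⟶ (n1F.{v, u, u'} B m).post f :=
  { app X := N1.x X, naturality _ _ s := N1.comm s }

variable (α : Bi f g) (β : Bi g f) (m : ℕ)

/-- The product as a map. -/
def n2π : Am.Map (n2.{v, u, u'} α β m) (n1.{v, u, u'} (α.mul β) m) where
  F := N2.π α β m
  add := inferInstanceAs (N2.π α β m).Additive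
  hT _ h := Am.le_Tb _ _ ⟨cs_genK (N2.π α β m) h.1, h.2.1⟩

/-- The pairs with trivial first object as a map. -/
noncomputable def n2c : Am.Map (Am.of.{v, u} Q) (n2.{v, u, u'} α β m) :=
  @Am.ofMap _ _ _ _ _ (n2.{v, u, u'} α β m) (N2.c α β m) (inferInstanceAs (N2.c α β m).Additive)

end

end Pool.Agent.Lib.MP_5d3e93_al.Gr
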