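import Pool.Agent.Lib.MP_5d3e93_al.K.N12
import Pool.Agent.Lib.MP_5d3e93_al.K.Ad

/-! The universal Nil term. -/

open CategoryTheory Limits ZeroObject MulAction

namespace Pool.Agent.Lib.MP_5d3e93_al

universe w v u y y' v' u' v'' u'' u₁ u₂ u₃

namespace Gr

set_option backward.isDefEq.respectTransparency false
set_option linter.unusedSectionVars false

section
variable {P Q P₀ : Type (max u v)} [Category.{v} P] [Preadditive P] [HasZeroObject P]
  [HasBinaryBiproducts P] [Category.{v} Q] [Preadditive Q] [HasZeroObject Q]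
  [HasBinaryBiproducts Q] [Category.{v} P₀] [Preadditive P₀] [HasZeroObject P₀]
  [HasBinaryBiproducts P₀] {T : Type (max u' v)} [Category.{v} T] [Preadditive T] [HasZeroObject T]
  [HasBinaryBiproducts T] {f : P ⥤ T} {g : Q ⥤ T} [f.Additive] [g.Additive] {m : ℕ}

theorem n1a_pw {X : Am.{v', u''}} {F : Fn X T} (x : F ⟶ F) (A : X.A) (n : ℕ) :
    NatTrans.app (pw x n) A = pw (NatTrans.app x A) n := by
  induction n with
  | zero => rfl
  | succ n ih => exact congrArg (NatTrans.app x A ≫ ·) ih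

theorem n1_gs (B : Bi f f) : (n1.{v, u, u'} B m).Gs := fun _ k => k.1
theorem n2_gs (α : Bi f g) (β : Bi g f) : (n2.{v, u, u'} α β m).Gs := fun _ k => k.1
theorem Ga.mono {B B' : ∀ M, (f.obj M ⟶ f.obj M) → Prop} (h : Ga.{v, u, u'} f B' m)
    (k : ∀ M x, B M x → B' M x) : Ga.{v, u, u'} f B m :=
  fun X s F x a b => h X s F x (fun A => k _ _ (a A)) b
theorem ga_iff (B : Bi f f) : Ga.{v, u, u'} f (fun M x => x ∈ B.m M M) (m + 1) ↔
    Fn.Tr.{v, u, v, u'} (𝟙 _ - n1X.{v, u, u'} B m) := by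
  refine ⟨fun h => h _ (n1_gs B) (n1F B m) (n1X B m) (fun A => N1.mem A)
    (NatTrans.ext (funext fun A => (n1a_pw (n1X.{v, u, u'} B m) A _).trans (N1.nil A))),
    fun h X s F x a b => ?_⟩
  let c : X.A ⥤ N1 B m :=
    { obj := fun A => ⟨F.F.obj A, NatTrans.app x A, a A,
        (n1a_pw x A _).symm.trans (congrArg (fun t => NatTrans.app t A) b)⟩
      map := fun k => N1.homMk (F.F.map k) (NatTrans.naturality x k)
      map_id := fun _ => N1.hom_ext (F.F.map_id _)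
      map_comp := fun _ _ => N1.hom_ext (F.F.map_comp _ _) }
  have ad : c.Additive := ⟨N1.hom_ext F.F.map_add⟩
  let γ : Am.Map X (n1.{v, u, u'} B m) := @Am.Map.mk X (n1.{v, u, u'} B m) c ad fun K k =>
    Am.le_Tb _ _ ⟨cs_genK c (s K k), F.hT K (X.le_Tb K k)⟩
  exact Fn.Tr.pre γ h
theorem Bi.Hs.iso {α : Bi f g} {β : Bi g f} {M M' : P} (h : α.Hs β M) (e : M ≅ M') : α.Hs β M' := by
  intro N b hb
  obtain ⟨N', b', k, ⟨p, q, r⟩, s⟩ := h N _ (β.r e.inv hb)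
  refine ⟨N', b' ≫ f.map e.hom, k, ⟨β.r _ p, fun W t z => q W t ?_, fun W t a z => r W t a ?_⟩, ?_⟩
  · rwa [← Category.assoc, Preadditive.IsIso.comp_right_eq_zero] at z
  · rwa [← Category.assoc, Preadditive.IsIso.comp_right_eq_zero] at z
  · rw [reassoc_of% s, ← f.map_comp, e.inv_hom_id, f.map_id, Category.comp_id]
theorem Bi.hs_zero (α : Bi f g) (β : Bi g f) {M : P} (h : IsZero M) : α.Hs β M := fun _ _ _ =>
  ⟨0, 0, 0, ⟨zero_mem _, fun _ _ _ => (isZero_zero Q).eq_of_tgt _ _,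
    fun _ _ _ _ => (g.map_isZero (isZero_zero Q)).eq_of_tgt _ _⟩, (f.map_isZero h).eq_of_tgt _ _⟩
theorem Bi.Hs.add {α : Bi f g} {β : Bi g f} {M M' : P} (h : α.Hs β M) (k : α.Hs β M') :
    α.Hs β (M ⊞ M') := by
  intro N b hb
  obtain ⟨N₁, b₁, k₁, ⟨p₁, q₁, r₁⟩, s₁⟩ := h N _ (β.r biprod.fst hb)
  obtain ⟨N₂, b₂, k₂, ⟨p₂, q₂, r₂⟩, s₂⟩ := k N _ (β.r biprod.snd hb)
  obtain ⟨c, hc⟩ : ∃ c : g.obj (N₁ ⊞ N₂) ⟶ f.obj (M ⊞ M'), c = g.map biprod.fst ≫ b₁ ≫
    f.map biprod.inl + g.map biprod.snd ≫ b₂ ≫ f.map biprod.inr := ⟨_, rfl⟩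
  have c₁ : c ≫ f.map biprod.fst = g.map biprod.fst ≫ b₁ := by simp [hc, ← f.map_comp]
  have c₂ : c ≫ f.map biprod.snd = g.map biprod.snd ≫ b₂ := by simp [hc, ← f.map_comp]
  refine ⟨N₁ ⊞ N₂, c, biprod.lift k₁ k₂, ⟨hc ▸ add_mem (β.l _ (β.r _ p₁)) (β.l _ (β.r _ p₂)),
    fun W t z => ?_, fun W t a z => ?_⟩, ?_⟩
  · refine biprod.hom_ext _ _ ((q₁ W _ ?_).trans zero_comp.symm) ((q₂ W _ ?_).trans zero_comp.symm)
    · rw [g.map_comp, Category.assoc, ← c₁, reassoc_of% z, zero_comp]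
    · rw [g.map_comp, Category.assoc, ← c₂, reassoc_of% z, zero_comp]
  · have z₁ := r₁ W _ (α.r biprod.fst a) (by rw [Category.assoc, ← c₁, reassoc_of% z, zero_comp])
    have z₂ := r₂ W _ (α.r biprod.snd a) (by rw [Category.assoc, ← c₂, reassoc_of% z, zero_comp])
    rw [← Category.comp_id t, ← g.map_id, ← biprod.total, g.map_add, g.map_comp, g.map_comp,
      Preadditive.comp_add, reassoc_of% z₁, reassoc_of% z₂, zero_comp, zero_comp, add_zero]
  · rw [hc, Preadditive.comp_add, ← g.map_comp_assoc, ← g.map_comp_assoc, biprod.lift_fst,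
      biprod.lift_snd, reassoc_of% s₁, reassoc_of% s₂, ← f.map_comp, ← f.map_comp,
      ← Preadditive.comp_add, ← f.map_add, biprod.total, f.map_id, Category.comp_id]
theorem Bi.Hs.comap {α : Bi f g} {β : Bi g f} (j : P₀ ⥤ P) {M : P₀} (h : α.Hs β (j.obj M)) :
    (α.lc j).Hs (β.rc j) M := fun N b hb => by
  obtain ⟨N', b', k, ⟨p, q, r⟩, s⟩ := h N b hb
  exact ⟨N', b', k, ⟨p, q, fun W t a z => r (j.obj W) t a z⟩, s⟩
end

end Gr

end Pool.Agent.Lib.MP_5d3e93_al
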