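import Pool.Agent.Lib.MP_5d3e93_al.K.N1a
import Pool.Agent.Lib.MP_5d3e93_al.Gr.Kel
import Pool.Agent.Lib.MP_5d3e93_al.K.Kar

/-! Cofinality for Nil terms. -/

open CategoryTheory Limits ZeroObject MulAction

namespace Pool.Agent.Lib.MP_5d3e93_al

universe w v u y y' v' u' v'' u'' u₁ u₂ u₃

namespace Gr

set_option backward.isDefEq.respectTransparency false
set_option linter.unusedSectionVars false

theorem n1c_nil {T : Type u₃} [Category.{v} T] [Preadditive T] {A X X' : T} {g : A ⟶ X}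
    {b : X ⟶ A} {g' : A ⟶ X'} {b' : X' ⟶ A} {x : X ⟶ X} {x' : X' ⟶ X'} {z : A ⟶ A} {m : ℕ}
    (hz : z = g ≫ x ≫ b + g' ≫ x' ≫ b') (h : g ≫ x = z ≫ g) (h' : g' ≫ x' = z ≫ g')
    (n : pw x (m + 1) = 0) (n' : pw x' (m + 1) = 0) : pw z (m + 1) = 0 := by
  rw [pw_succ'] at n n' ⊢
  have e : pw z m ≫ z = pw z m ≫ (g ≫ x ≫ b + g' ≫ x' ≫ b') := congrArg _ hz
  rw [e, Preadditive.comp_add, ← reassoc_of% (pw_comm h m), ← reassoc_of% (pw_comm h' m),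
    reassoc_of% n, reassoc_of% n']
  simp

section
variable {P Q P₀ : Type (max u v)} [Category.{v} P] [Preadditive P] [HasZeroObject P]
  [HasBinaryBiproducts P] [Category.{v} Q] [Preadditive Q] [HasZeroObject Q]
  [HasBinaryBiproducts Q] [Category.{v} P₀] [Preadditive P₀] [HasZeroObject P₀]
  [HasBinaryBiproducts P₀] {T : Type (max u' v)} [Category.{v} T] [Preadditive T] [HasZeroObject T]
  [HasBinaryBiproducts T] {f : P ⥤ T} {g : Q ⥤ T} [f.Additive] [g.Additive] {m : ℕ}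

/-- The functor induced on nilpotent endomorphisms. -/
def n1J (j : P₀ ⥤ P) [j.Additive] (B : Bi f f) (m : ℕ) : N1 ((B.lc j).rc j) m ⥤ N1 B m where
  obj X := ⟨j.obj X.M, X.x, X.mem, X.nil⟩
  map a := N1.homMk (j.map a.1) a.2
  map_id _ := N1.hom_ext (j.map_id _)
  map_comp _ _ := N1.hom_ext (j.map_comp _ _)

variable (j : P₀ ⥤ P) [j.Additive] (B : Bi f f)

instance : (n1J j B m).Additive := ⟨N1.hom_ext j.map_add⟩

instance [j.Faithful] : (n1J j B m).Faithful :=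
  ⟨fun e => N1.hom_ext (j.map_injective (congrArg Subtype.val e))⟩

instance [j.Full] : (n1J j B m).Full := ⟨fun {X Y} a => by
  obtain ⟨k, e⟩ := j.map_surjective (X := X.M) (Y := Y.M) a.1
  refine ⟨N1.homMk k ?_, N1.hom_ext e⟩
  change f.map (j.map k) ≫ Y.x = X.x ≫ f.map (j.map k)
  rw [e]
  exact N1.comm a⟩

variable {j B}

/-- An endomorphism transported along a retraction up to an idempotent. -/
def n1c_one (X : N1 B m) {M : P₀} (a : j.obj M ⟶ X.M) (b : X.M ⟶ j.obj M)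
    (h : f.map a ≫ X.x ≫ f.map (b ≫ a) = f.map a ≫ X.x) : N1 ((B.lc j).rc j) m where
  M := M
  x := f.map a ≫ X.x ≫ f.map b
  mem := B.l _ (B.r _ X.mem)
  nil := n1c_nil (g := f.map a) (b := f.map b) (g' := 0) (b' := 0) (x' := X.x) (by simp)
    (by simpa using h.symm) (by simp) X.nil X.nil

theorem n1c_kel (cof : ∀ M : P, ∃ (M' : P) (M₀ : P₀), Nonempty (j.obj M₀ ≅ M ⊞ M'))
    {X Y Z : N1 B m} (d : X ⟶ Y) (d' : Y ⟶ Z) (z : d ≫ d' = 0)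
    (hs : ∃ s s', s ≫ (N1.fst B m).map d + (N1.fst B m).map d' ≫ s' = 𝟙 _)
    (x : N1 ((B.lc j).rc j) m) (φ : (n1J j B m).obj x ⟶ Y) (hφ : φ ≫ d' = 0) :
    ∃ (x₂ x₁ : N1 ((B.lc j).rc j) m) (i : x₂ ⟶ x₁) (p : x₁ ⟶ x) (g : (n1J j B m).obj x₁ ⟶ X),
      i ≫ p = 0 ∧ Spl ((n1J j B m ⋙ N1.fst B m).map i) ((n1J j B m ⋙ N1.fst B m).map p) ∧
        g ≫ d = (n1J j B m).map p ≫ φ := by
  obtain ⟨s, s', e⟩ := hs
  change Y.M ⟶ X.M at s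
  change Z.M ⟶ Y.M at s'
  change s ≫ d.1 + d'.1 ≫ s' = 𝟙 Y.M at e
  obtain ⟨φ, cφ⟩ := φ
  change j.obj x.M ⟶ Y.M at φ
  change f.map φ ≫ Y.x = x.x ≫ f.map φ at cφ
  have z₁ : d.1 ≫ d'.1 = 0 := congrArg Subtype.val z
  have z₂ : φ ≫ d'.1 = 0 := congrArg Subtype.val hφ
  have e₁ : d.1 ≫ s ≫ d.1 = d.1 := by simpa [reassoc_of% z₁] using congrArg (d.1 ≫ ·) e
  have e₂ : φ ≫ s ≫ d.1 = φ := by simpa [reassoc_of% z₂] using congrArg (φ ≫ ·) e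
  obtain ⟨M', M₀, ⟨k⟩⟩ := cof X.M
  obtain ⟨ε, hε⟩ : ∃ ε : X.M ⟶ X.M, ε = 𝟙 _ - d.1 ≫ s := ⟨_, rfl⟩
  have e₃ : ε ≫ d.1 = 0 := by simp [hε, Preadditive.sub_comp, e₁]
  have e₄ : ε ≫ ε = ε := by
    rw [hε, Preadditive.comp_sub, ← hε, reassoc_of% e₃]
    simp
  obtain ⟨a, ha⟩ : ∃ a : j.obj M₀ ⟶ X.M, a = k.hom ≫ biprod.fst ≫ ε := ⟨_, rfl⟩
  obtain ⟨b, hb⟩ : ∃ b : X.M ⟶ j.obj M₀, b = biprod.inl ≫ k.inv := ⟨_, rfl⟩
  have e₅ : b ≫ a = ε := by simp [ha, hb]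
  have e₆ : a ≫ d.1 = 0 := by simp [ha, e₃]
  have c : ∀ {A : P} (t : A ⟶ X.M), f.map t ≫ X.x ≫ f.map ε =
      f.map t ≫ X.x - f.map (t ≫ d.1) ≫ Y.x ≫ f.map s := fun t => by
    simp [hε, Preadditive.comp_sub, N1.comm_assoc]
  let x₂ := n1c_one (j := j) X a b (by rw [e₅, c, e₆]; simp)
  obtain ⟨g₁, hg⟩ : ∃ g₁ : j.obj (M₀ ⊞ x.M) ⟶ X.M,
    g₁ = j.map biprod.fst ≫ a + j.map biprod.snd ≫ φ ≫ s := ⟨_, rfl⟩
  have e₇ : g₁ ≫ d.1 = j.map biprod.snd ≫ φ := by simp [hg, e₆, e₂]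
  have e₈ : j.map biprod.inl ≫ g₁ = a := by simp [hg, ← j.map_comp_assoc]
  have e₉ : j.map biprod.inr ≫ g₁ = φ ≫ s := by simp [hg, ← j.map_comp_assoc]
  obtain ⟨t, ht⟩ : ∃ t : f.obj (j.obj (M₀ ⊞ x.M)) ⟶ f.obj (j.obj (M₀ ⊞ x.M)),
    t = f.map g₁ ≫ X.x ≫ f.map (b ≫ j.map biprod.inl) +
      f.map (j.map biprod.snd) ≫ x.x ≫ f.map (j.map biprod.inr) := ⟨_, rfl⟩
  have c₁ : f.map g₁ ≫ X.x = t ≫ f.map g₁ := by
    rw [ht, Preadditive.add_comp]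
    simp only [Category.assoc, ← f.map_comp]
    rw [e₈, e₉, e₅, c, e₇, f.map_comp, f.map_comp, Category.assoc, reassoc_of% cφ]
    simp
  have c₂ : f.map (j.map biprod.snd) ≫ x.x = t ≫ f.map (j.map biprod.snd) := by
    rw [ht, Preadditive.add_comp]
    simp only [Category.assoc, ← f.map_comp, ← j.map_comp]
    simp
  let x₁ : N1 ((B.lc j).rc j) m := ⟨M₀ ⊞ x.M, t,
    ht ▸ add_mem (B.l _ (B.r _ X.mem)) (B.l _ (B.r _ x.mem)), n1c_nil ht c₁ c₂ X.nil x.nil⟩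
  have := preservesBinaryBiproducts_of_preservesBinaryProducts j
  refine ⟨x₂, x₁, N1.homMk biprod.inl ?_, N1.homMk biprod.snd c₂, N1.homMk g₁ c₁,
    N1.hom_ext biprod.inl_snd, ⟨j.map biprod.fst, j.map biprod.inr, ?_, ?_, ?_⟩, N1.hom_ext e₇⟩
  · change f.map (j.map biprod.inl) ≫ t = (f.map a ≫ X.x ≫ f.map b) ≫ f.map (j.map biprod.inl)
    rw [ht, Preadditive.comp_add, ← f.map_comp_assoc, ← f.map_comp_assoc, e₈, ← j.map_comp]
    simp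
  · exact (j.map_comp _ _).symm.trans ((congrArg j.map biprod.inl_fst).trans (j.map_id _))
  · exact (j.map_comp _ _).symm.trans ((congrArg j.map biprod.inr_snd).trans (j.map_id _))
  · change j.map biprod.fst ≫ j.map biprod.inl + j.map biprod.snd ≫ j.map biprod.inr =
      𝟙 (j.obj (M₀ ⊞ x.M))
    rw [← j.map_comp, ← j.map_comp, ← j.map_add, biprod.total, j.map_id]

/-- The image generates. -/
theorem n1c_gen (cof : ∀ M : P, ∃ (M' : P) (M₀ : P₀), Nonempty (j.obj M₀ ≅ M ⊞ M'))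
    (z : Subsingleton (K0 (Am.of.{v, u} P).bdd)) :
    (n1.{v, u, u'} B m).gen (ObjectProperty.map ⊤ (n1J j B m)) = (n1.{v, u, u'} B m).bdd := by
  refine le_antisymm (Cl.le fun _ ⟨x, _, i⟩ => Cl.of ⟨x, trivial, i⟩) (Cl.le ?_)
  have ad : (N1.z B m).Additive := inferInstance
  let ζ : Am.Map (Am.of.{v, u} P) (n1.{v, u, u'} B m) :=
    @Am.ofMap _ _ _ _ _ (n1.{v, u, u'} B m) (N1.z B m) ad
  have l := ζ.gen_map (P := j.essImage) (P' := ObjectProperty.map ⊤ (n1J j B m))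
    fun _ ⟨M₀, ⟨i⟩⟩ => ⟨(N1.z _ m).obj M₀, trivial, ⟨(N1.z B m).mapIso i⟩⟩
  rw [K.gen_eq_of_cof.{v, u} j.essImage (fun c => by
      obtain ⟨M', M₀, ⟨k⟩⟩ := cof c
      exact ⟨_, biprod.inl ≫ k.inv, k.hom ≫ biprod.fst, j.obj_mem_essImage M₀, by simp⟩)
    (Am.of.{v, u} P).bdd (Cl.le fun _ ⟨x, _, i⟩ => Cl.of ⟨x, trivial, i⟩) le_rfl z] at l
  obtain ⟨e, -⟩ := ζ.of_iso
  rintro _ ⟨X : N1 B m, -, ⟨i⟩⟩
  refine Cl.iso i ?_
  obtain ⟨M', M₀, ⟨k⟩⟩ := cof X.M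
  let Y := n1c_one (j := j) X (k.hom ≫ biprod.fst) (biprod.inl ≫ k.inv) (by
    rw [show (biprod.inl ≫ k.inv) ≫ k.hom ≫ biprod.fst = 𝟙 X.M by simp, f.map_id, Category.comp_id])
  let a : X ⟶ (n1J j B m).obj Y := N1.homMk (biprod.inl ≫ k.inv) (by
    change _ ≫ f.map (k.hom ≫ biprod.fst) ≫ X.x ≫ f.map (biprod.inl ≫ k.inv) = _
    rw [← f.map_comp_assoc]
    simp)
  let p : (n1J j B m).obj Y ⟶ (N1.z B m).obj M' := N1.homMk (k.hom ≫ biprod.snd) (by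
    change _ ≫ 0 = (f.map (k.hom ≫ biprod.fst) ≫ X.x ≫ f.map (biprod.inl ≫ k.inv)) ≫ _
    simp only [Category.assoc, ← f.map_comp]
    simp)
  have h0 : a ≫ p = 0 := N1.hom_ext (by simp [a, p])
  have sp : Spl ((N1.fst B m).map a) ((N1.fst B m).map p) :=
    ⟨k.hom ≫ biprod.fst, biprod.inr ≫ k.inv, by simp [a, N1.fst], by simp [p, N1.fst, N1.z], by
      change (k.hom ≫ biprod.fst) ≫ biprod.inl ≫ k.inv + (k.hom ≫ biprod.snd) ≫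
        biprod.inr ≫ k.inv = 𝟙 _
      have t := congrArg (fun t => k.hom ≫ t ≫ k.inv) (biprod.total (X := X.M) (Y := M'))
      simpa only [Preadditive.add_comp, Preadditive.comp_add, Category.assoc, Category.id_comp,
        k.hom_inv_id] using t⟩
  obtain ⟨δ, hδ⟩ := (Am.exU_exaS.{v, u} (N1.fst B m) h0 sp).tri
  exact ((n1.{v, u, u'} B m).gen (ObjectProperty.map ⊤ (n1J j B m))).ext_of_isTriangulatedClosed₁
    _ hδ (Cl.of ⟨_, ⟨Y, trivial, ⟨Iso.refl _⟩⟩, ⟨Iso.refl _⟩⟩)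
    (Cl.iso (e M') (l _ (Cl.of ⟨M', trivial, ⟨Iso.refl _⟩⟩)))

omit [j.Additive] in
theorem n1c_pw {X : Am.{v', u''}} {F : Fn X T} (x : F ⟶ F) (A : X.A) (n : ℕ) :
    NatTrans.app (pw x n) A = pw (NatTrans.app x A) n := by
  induction n with
  | zero => rfl
  | succ n ih => exact congrArg (NatTrans.app x A ≫ ·) ih

theorem ga_cof (j : P₀ ⥤ P) [j.Additive] [j.Full] [j.Faithful] [IsIdempotentComplete P]
    (cof : ∀ M : P, ∃ (M' : P) (M₀ : P₀), Nonempty (j.obj M₀ ≅ M ⊞ M'))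
    (z : Am.Z (Am.of.{v, u} P).bdd) (B : Bi f f)
    (h : Ga.{v, u, u'} (j ⋙ f) (fun M x => x ∈ B.m (j.obj M) (j.obj M)) (m + 1)) :
    Ga.{v, u, u'} f (fun M x => x ∈ B.m M M) (m + 1) := by
  refine (ga_iff B).2 ?_
  let X₀ : Am.{v, u} := Am.exU.{v, u} (n1J j B m ⋙ N1.fst B m)
  let γ : Am.Map X₀ (n1.{v, u, u'} B m) := Am.exMap.{v, u, v, u} (N1.fst B m) (n1J j B m)
  have ff : FF γ.D (X₀.gen ⊤) := Am.keller.{v, u, v, u} (N1.fst B m) (n1J j B m) (n1c_kel cof)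
  have dq : Deq γ.D X₀.bdd (n1.{v, u, u'} B m).bdd :=
    n1c_gen (B := B) (m := m) cof (z 0) ▸ Am.FF.deq_gen γ ff
  have ad : (N1.fst ((B.lc j).rc j) m).Additive := inferInstance
  let F₀ : Fn X₀ P₀ := @Fn.mk'.{v, u, v, u} X₀ P₀ _ _ _ _ (N1.fst ((B.lc j).rc j) m) ad fun K k =>
    (IsZero.iff_id_eq_zero _).2 ((j.mapHomotopyCategory (.up ℤ)).map_injective
      (IsZero.eq_of_src (show IsZero ((j.mapHomotopyCategory (.up ℤ)).obj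
        (((N1.fst ((B.lc j).rc j) m).mapHomotopyCategory (.up ℤ)).obj K)) from k.2) _ _))
  let x₀ : F₀.post (j ⋙ f) ⟶ F₀.post (j ⋙ f) :=
    { app X := N1.x X, naturality _ _ s := N1.comm s }
  have k := h X₀ (fun _ k => k.1) F₀ x₀ (fun A => N1.mem A)
    (NatTrans.ext (funext fun A => (n1c_pw x₀ A _).trans (N1.nil A)))
  have : IsIso (𝟙 _ - n1X.{v, u, u'} B m) := Fn.isIso_unip (m := m + 1)
    (NatTrans.ext (funext fun A => (n1c_pw (n1X.{v, u, u'} B m) A _).trans (N1.nil A)))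
  exact Fn.tr_of_surj (fun _ : Unit => X₀) (fun _ => γ)
    (fun n x => ⟨(), (Am.deq_bij n dq).2 x⟩) _ fun _ => k
end

end Gr

end Pool.Agent.Lib.MP_5d3e93_al
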