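import Pool.Agent.Lib.MP_5d3e93_al.K.N2z
import Pool.Agent.Lib.MP_5d3e93_al.Gr.Kel
import Pool.Agent.Lib.MP_5d3e93_al.Gr.Of

/-! The kernel of the product map on nilpotent pairs. -/

open CategoryTheory Limits Pretriangulated ZeroObject

set_option backward.isDefEq.respectTransparency false
set_option linter.unusedSectionVars false

namespace Pool.Agent.Lib.MP_5d3e93_al

universe v u u'

namespace Gr

section
variable {P Q : Type (max u v)} [Category.{v} P] [Preadditive P] [HasZeroObject P]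
  [HasBinaryBiproducts P] [Category.{v} Q] [Preadditive Q] [HasZeroObject Q]
  [HasBinaryBiproducts Q] {T : Type (max u' v)} [Category.{v} T] [Preadditive T] [HasZeroObject T]
  [HasBinaryBiproducts T] {f : P ⥤ T} {g : Q ⥤ T} [f.Additive] [g.Additive] {m : ℕ}

section
variable (α : Bi f g) (β : Bi g f) (m)

/-- The first object on homotopy categories. -/
abbrev n2A : Kh (N2 α β m) ⥤ Kh P := (N2.fst α β m).mapHomotopyCategory (.up ℤ)

/-- The second object on homotopy categories. -/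
abbrev n2B : Kh (N2 α β m) ⥤ Kh Q := (N2.snd α β m).mapHomotopyCategory (.up ℤ)

/-- The pairs with trivial first object on homotopy categories. -/
noncomputable abbrev n2C : Kh Q ⥤ Kh (N2 α β m) := (N2.c α β m).mapHomotopyCategory (.up ℤ)

/-- The trivial complexes of pairs. -/
abbrev n2T : ObjectProperty (Kh (N2 α β m)) :=
  genK ⊤ ⊓ (Zr.inverseImage (n2A m α β) ⊓ Zr.inverseImage (n2B m α β))

end

variable {α : Bi f g} {β : Bi g f}

theorem n2d_w {X Y : Kh (N2 α β m)} (hX : genK ⊤ X) (hY : genK ⊤ Y) (s : X ⟶ Y)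
    (h : IsIso ((n2A m α β).map s)) (k : IsIso ((n2B m α β).map s)) : (n2T m α β).trW s := by
  obtain ⟨Z, a, b, hT⟩ := distinguished_cocone_triangle s
  exact ⟨Z, a, b, hT, (genK ⊤).ext_of_isTriangulatedClosed₃ _ hT hX hY,
    (Triangle.isZero₃_iff_isIso₁ _ ((n2A m α β).map_distinguished _ hT)).2 h,
    (Triangle.isZero₃_iff_isIso₁ _ ((n2B m α β).map_distinguished _ hT)).2 k⟩

theorem n2d_z (X : Kh Q) : IsZero ((n2A m α β).obj ((n2C m α β).obj X)) := by
  obtain ⟨K⟩ := X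
  refine (HomotopyCategory.quotient P (.up ℤ)).map_isZero
    (X := ((N2.fst α β m).mapHomologicalComplex _).obj
      (((N2.c α β m).mapHomologicalComplex _).obj K)) ((IsZero.iff_id_eq_zero _).2 ?_)
  ext n
  exact (isZero_zero P).eq_of_src _ _

theorem n2d_zig {W : Kh (N2 α β m)} (hW : genK ⊤ W) (h : IsZero ((n2A m α β).obj W)) :
    ∃ (V : Kh Q) (Z : Kh (N2 α β m)) (i : W ⟶ Z) (j : (n2C m α β).obj V ⟶ Z), genK ⊤ V ∧
      (n2T m α β).trW i ∧ (n2T m α β).trW j ∧ ∀ (X : Kh Q) (s : (n2C m α β).obj X ⟶ W),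
        ∃ φ : X ⟶ V, (IsIso ((n2B m α β).map s) → IsIso φ) ∧ s ≫ i = (n2C m α β).map φ ≫ j := by
  obtain ⟨K, hK, ⟨e⟩⟩ := genK_strict hW
  have h' : IsZero ((n2A m α β).obj ((HomotopyCategory.quotient _ _).obj K)) :=
    h.of_iso ((n2A m α β).mapIso e).symm
  obtain ⟨H⟩ := (HomotopyCategory.isZero_quotient_obj_iff
    (((N2.fst α β m).mapHomologicalComplex (.up ℤ)).obj K)).1 h'
  obtain ⟨Z, i, j, hZ, i₁, i₂, j₂, k⟩ := N2.zig K H
  have gK : genK ⊤ ((HomotopyCategory.quotient _ _).obj K) := hK.genK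
  have gZ : genK ⊤ ((HomotopyCategory.quotient _ _).obj Z) := by
    obtain ⟨-, p, q, l⟩ := hK
    exact Sb.genK ⟨fun _ => trivial, p - 1, q, fun n c => hZ n (l n (by omega)) (l _ (by omega))⟩
  have gV : genK ⊤ ((n2B m α β).obj ((HomotopyCategory.quotient _ _).obj K)) := cs_genK _ gK
  have i₁' : IsIso ((n2A m α β).map ((HomotopyCategory.quotient _ _).map i)) :=
    inferInstanceAs (IsIso ((HomotopyCategory.quotient _ _).map
      (((N2.fst α β m).mapHomologicalComplex _).map i)))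
  have z : IsZero ((n2A m α β).obj ((HomotopyCategory.quotient _ _).obj Z)) :=
    h'.of_iso (asIso ((n2A m α β).map ((HomotopyCategory.quotient _ _).map i))).symm
  refine ⟨(n2B m α β).obj ((HomotopyCategory.quotient _ _).obj K), _,
    e.hom ≫ (HomotopyCategory.quotient _ _).map i, (HomotopyCategory.quotient _ _).map j, gV,
    (n2T m α β).trW.comp_mem _ _ ((n2T m α β).trW_of_isIso _) (n2d_w gK gZ _ i₁' i₂),
    n2d_w (cs_genK _ gV) gZ _ (isIso_of_source_target_iso_zero _ (n2d_z _).isoZero z.isoZero) j₂,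
    ?_⟩
  rintro ⟨X⟩ s
  obtain ⟨s₀, hs⟩ := (HomotopyCategory.quotient _ (.up ℤ)).map_surjective
    (X := ((N2.c α β m).mapHomologicalComplex _).obj X) (Y := K) (s ≫ e.hom)
  let φ : X ⟶ ((N2.snd α β m).mapHomologicalComplex _).obj K :=
    ((N2.snd α β m).mapHomologicalComplex _).map s₀
  refine ⟨(HomotopyCategory.quotient _ _).map φ, fun c => ?_, ?_⟩
  · have c' : IsIso ((n2B m α β).map (s ≫ e.hom)) := by
      rw [Functor.map_comp]
      infer_instance
    rw [← hs] at c'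
    exact c'
  · rw [← Category.assoc, ← hs]
    exact ((HomotopyCategory.quotient _ _).map_comp _ _).symm.trans
      ((HomotopyCategory.eq_of_homotopy _ _ (k X s₀ φ fun _ => rfl).some).trans
        ((HomotopyCategory.quotient _ _).map_comp _ _))

theorem n2_deq (α : Bi f g) (β : Bi g f) : Deq (n2c.{v, u, u'} α β m).D (Am.of.{v, u} Q).bdd
    ((n2π.{v, u, u'} α β m).ker (n2.{v, u, u'} α β m).bdd) := by
  let a := Am.of.{v, u} Q
  let b := n2.{v, u, u'} α β m
  let c : Am.Map a b := n2c.{v, u, u'} α β m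
  let r : Am.Map b a :=
    { F := N2.snd α β m
      add := inferInstanceAs (N2.snd α β m).Additive
      hT := fun _ h => (Am.of_Tb _).2 h.2.2 }
  let t : Am.Map (n1.{v, u, u'} (α.mul β) m) (Am.of.{v, u} P) :=
    { F := N1.fst (α.mul β) m
      add := inferInstanceAs (N1.fst (α.mul β) m).Additive
      hT := fun _ h => (Am.of_Tb _).2 h.2 }
  have w : ∀ {X Y : Kh (N2 α β m)} {s : X ⟶ Y}, (n2T m α β).trW s → IsIso (b.Q.map s) :=
    fun h => Localization.inverts b.Q b.T.trW _ h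
  refine ⟨fun X Y _ hY => ⟨fun p q e => ?_, fun φ => ?_⟩, fun X hX => ⟨c.bdd_map X hX, ?_⟩, ?_⟩
  · have k : ∀ p : X ⟶ Y, r.D.map (c.D.map p) = p := fun p =>
      (c.comp_map r p).symm.trans (Am.idm_map (a := a) p)
    exact (k p).symm.trans ((congrArg r.D.map e).trans (k q))
  · obtain ⟨K, rfl⟩ := a.exists_cx X
    obtain ⟨L, rfl⟩ := a.exists_cx Y
    have hL : genK ⊤ ((HomotopyCategory.quotient Q (.up ℤ)).obj L) :=
      a.genK_of_gen (fun _ h => Tg.zero _ ((Am.of_Tb _).1 h)) hY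
    obtain ⟨W, s, p, hs, e⟩ := b.kel_loc.full
      (X := (n2C m α β).obj ((HomotopyCategory.quotient Q (.up ℤ)).obj K))
      (Y := (n2C m α β).obj ((HomotopyCategory.quotient Q (.up ℤ)).obj L)) trivial trivial φ
    have hs' : (n2T m α β).trW s := hs
    have s₁ : IsIso ((n2A m α β).map s) := isIso_of_kill (N := n2T m α β) (fun _ h => h.2.1) hs'
    have s₂ : IsIso ((n2B m α β).map s) := isIso_of_kill (N := n2T m α β) (fun _ h => h.2.2) hs'
    obtain ⟨V, Z, i, j, -, hi, -, k⟩ := n2d_zig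
      ((Tg.of_trW (N := n2T m α β) (fun _ h => h.1) hs').1 (cs_genK _ hL))
      ((n2d_z _).of_iso (asIso ((n2A m α β).map s)).symm)
    obtain ⟨σ, hσ, e₁⟩ := k _ s
    obtain ⟨τ, -, e₂⟩ := k _ p
    have := hσ s₂
    have e₃ : (n2C m α β).map (τ ≫ inv σ) ≫ s ≫ i = p ≫ i := by
      rw [e₁, e₂, ← Functor.map_comp_assoc, Category.assoc, IsIso.inv_hom_id, Category.comp_id]
    have := w ((n2T m α β).trW.comp_mem _ _ hs' hi)
    refine ⟨a.Q.map (τ ≫ inv σ), (c.D_map _).trans ((cancel_mono (b.Q.map (s ≫ i))).1 ?_)⟩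
    refine ((b.Q.map_comp _ _).symm.trans (congrArg b.Q.map e₃)).trans ?_
    rw [b.Q.map_comp, b.Q.map_comp, ← e]
    exact Category.assoc _ _ _
  · have k := (c.comp (n2π.{v, u, u'} α β m)).isZero (fun N => (IsZero.iff_id_eq_zero _).2
      (N1.hom_ext ((isZero_zero P).eq_of_src _ _))) X
    rw [Am.Map.comp_D] at k
    exact k
  · rintro Y ⟨hY, z⟩
    obtain ⟨W, hW, ⟨e⟩⟩ := b.exists_genK (fun _ h => h.1) hY
    have z' : IsZero ((n2A m α β).obj W) := by
      have z₁ := (Am.of_Tb _).1 (t.hTb ((n2π.{v, u, u'} α β m).K.obj W)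
        (IsZero.of_iso z ((n2π.{v, u, u'} α β m).D.mapIso e)))
      obtain ⟨W⟩ := W
      exact z₁
    obtain ⟨V, Z, i, j, hV, hi, hj, -⟩ := n2d_zig hW z'
    have := w hi
    have := w hj
    exact ⟨a.Q.obj V, a.gen_of_genK hV,
      ⟨asIso (b.Q.map j) ≪≫ (asIso (b.Q.map i)).symm ≪≫ e⟩⟩

end

end Gr

end Pool.Agent.Lib.MP_5d3e93_al
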