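import Pool.Agent.Lib.MP_5d3e93_al.Gr.W2

/-! Products of ambient categories, truncations, bounded complexes: definitions. -/

open CategoryTheory Limits Pretriangulated ZeroObject

namespace Pool.Agent.Lib.MP_5d3e93_al.K

open Gr

universe w v u v' u'

/-- The functors `p i` identify the source with the product of the targets. -/
structure IsPi {I : Type*} {D : Type*} [Category* D] {E : I → Type u} [∀ i, Category.{v} (E i)]
    (p : ∀ i, D ⥤ E i) : Prop where
  bij : ∀ X Y : D, Function.Bijective fun (f : X ⟶ Y) i => (p i).map f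
  surj : ∀ X : ∀ i, E i, ∃ Y : D, ∀ i, Nonempty ((p i).obj Y ≅ X i)

/-- Objects all of whose components lie in the given classes. -/
def Pw {I : Type*} {D : Type*} [Category* D] {E : I → Type u} [∀ i, Category.{v} (E i)]
    (p : ∀ i, D ⥤ E i) (S : ∀ i, ObjectProperty (E i)) : ObjectProperty D :=
  fun X => ∀ i, S i ((p i).obj X)

section PiA

variable {I : Type w} (A : I → Type u) [∀ i, Category.{v} (A i)] [∀ i, Preadditive (A i)]

instance piPre : Preadditive (∀ i, A i) where
  homGroup X Y := inferInstanceAs (AddCommGroup (∀ i, X i ⟶ Y i))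
  add_comp _ _ _ _ _ _ := funext fun _ => Preadditive.add_comp ..
  comp_add _ _ _ _ _ _ := funext fun _ => Preadditive.comp_add ..

variable {A} in
@[simp] theorem pi_add {X Y : ∀ i, A i} (f g : X ⟶ Y) (i) : (f + g) i = f i + g i := rfl

variable {A} in
@[simp] theorem pi_zero {X Y : ∀ i, A i} (i) : (0 : X ⟶ Y) i = 0 := rfl

instance [∀ i, HasZeroObject (A i)] : HasZeroObject (∀ i, A i) :=
  ⟨⟨fun _ => 0, (IsZero.iff_id_eq_zero _).2 (funext fun i => (isZero_zero (A i)).eq_of_src _ _)⟩⟩

instance [∀ i, HasBinaryBiproducts (A i)] : HasBinaryBiproducts (∀ i, A i) := ⟨fun P Q =>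
  hasBinaryBiproduct_of_total
    { pt := fun i => P i ⊞ Q i
      fst := fun _ => biprod.fst
      snd := fun _ => biprod.snd
      inl := fun _ => biprod.inl
      inr := fun _ => biprod.inr
      inl_fst := funext fun _ => biprod.inl_fst
      inl_snd := funext fun _ => biprod.inl_snd
      inr_fst := funext fun _ => biprod.inr_fst
      inr_snd := funext fun _ => biprod.inr_snd } (funext fun _ => biprod.total)⟩

instance (i : I) : (Pi.eval A i).Additive where

variable {A} in
instance {B : I → Type u'} [∀ i, Category.{v'} (B i)] [∀ i, Preadditive (B i)]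
    (F : ∀ i, A i ⥤ B i) [∀ i, (F i).Additive] : (Functor.pi F).Additive :=
  ⟨funext fun i => (F i).map_add⟩

variable {A} in
instance {B : Type*} [Category* B] [Preadditive B] (F : ∀ i, B ⥤ A i) [∀ i, (F i).Additive] :
    (Functor.pi' F).Additive := ⟨funext fun i => (F i).map_add⟩

end PiA

section Cut

variable {C : Type u} [Category.{v} C] [Preadditive C] [HasZeroObject C]

open Classical in
/-- The identity functor or zero. -/
noncomputable def ct (p : Prop) : C ⥤ C := if p then 𝟭 C else (Functor.const C).obj 0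

omit [Preadditive C] in
theorem ct_pos {p : Prop} (h : p) : (ct p : C ⥤ C) = 𝟭 C := if_pos h

open Classical in
/-- The inclusion. -/
noncomputable def ctI (p : Prop) : (ct p : C ⥤ C) ⟶ 𝟭 C :=
  if h : p then eqToHom (ct_pos h) else 0

open Classical in
/-- The projection. -/
noncomputable def ctR (p : Prop) : 𝟭 C ⟶ (ct p : C ⥤ C) :=
  if h : p then eqToHom (ct_pos h).symm else 0

omit [Preadditive C] in
theorem ct_zero {p : Prop} (h : ¬p) (X : C) : IsZero ((ct p).obj X) := by
  rw [ct, if_neg h]; exact isZero_zero C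

instance (p : Prop) : (ct p : C ⥤ C).Additive := by
  by_cases h : p
  · rw [ct, if_pos h]; infer_instance
  · exact ⟨(ct_zero h _).eq_of_src _ _⟩

@[reassoc] theorem ctI_R (p : Prop) (X : C) : (ctI p).app X ≫ (ctR p).app X = 𝟙 _ := by
  by_cases h : p
  · rw [ctI, ctR, dif_pos h, dif_pos h, ← NatTrans.comp_app, eqToHom_trans]; rfl
  · exact (ct_zero h _).eq_of_src _ _

@[reassoc] theorem ctR_I {p : Prop} (h : p) (X : C) : (ctR p).app X ≫ (ctI p).app X = 𝟙 _ := by
  rw [ctI, ctR, dif_pos h, dif_pos h, ← NatTrans.comp_app, eqToHom_trans]; rfl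

theorem ctI_neg {p : Prop} (h : ¬p) (X : C) : (ctI p).app X = 0 := (ct_zero h _).eq_of_src _ _

theorem ctR_neg {p : Prop} (h : ¬p) (X : C) : (ctR p).app X = 0 := (ct_zero h _).eq_of_tgt _ _

@[reassoc] theorem ctI_nat (p : Prop) {X Y : C} (f : X ⟶ Y) :
    (ct p).map f ≫ (ctI p).app Y = (ctI p).app X ≫ f := (ctI p).naturality f

@[reassoc] theorem ctR_nat (p : Prop) {X Y : C} (f : X ⟶ Y) :
    (ctR p).app X ≫ (ct p).map f = f ≫ (ctR p).app Y := ((ctR p).naturality f).symm

end Cut

section Fc

variable (A : Type u) [Category.{v} A] [Preadditive A]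

/-- Complexes with finitely many nonzero terms. -/
def Fs : ObjectProperty (CochainComplex A ℤ) :=
  fun K => ∃ p q : ℤ, ∀ n, n < p ∨ q < n → IsZero (K.X n)

/-- The category of strictly bounded complexes. -/
abbrev Fc := (Fs A).FullSubcategory

/-- Contractible bounded complexes. -/
def Jc : ObjectProperty (Fc A) := fun K => Nonempty (Homotopy (𝟙 K.obj) 0)

/-- The term of degree `k`. -/
def Fc.ev (k : ℤ) : Fc A ⥤ A := (Fs A).ι ⋙ HomologicalComplex.eval _ _ k

instance (k : ℤ) : (Fc.ev A k).Additive := by unfold Fc.ev; infer_instance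

/-- Full subcategories closed under sums. -/
theorem hasBiprod_full {C : Type u} [Category.{v} C] [Preadditive C] [HasBinaryBiproducts C]
    (P : ObjectProperty C) (h : ∀ X Y, P X → P Y → P (X ⊞ Y)) :
    HasBinaryBiproducts P.FullSubcategory := ⟨fun X Y => hasBinaryBiproduct_of_total
  { pt := ⟨X.obj ⊞ Y.obj, h _ _ X.property Y.property⟩
    fst := P.homMk biprod.fst
    snd := P.homMk biprod.snd
    inl := P.homMk biprod.inl
    inr := P.homMk biprod.inr
    inl_fst := ObjectProperty.hom_ext _ biprod.inl_fst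
    inl_snd := ObjectProperty.hom_ext _ biprod.inl_snd
    inr_fst := ObjectProperty.hom_ext _ biprod.inr_fst
    inr_snd := ObjectProperty.hom_ext _ biprod.inr_snd } (ObjectProperty.hom_ext _ biprod.total)⟩

variable [HasZeroObject A] [HasBinaryBiproducts A]

instance : HasBinaryBiproducts (CochainComplex A ℤ) := ⟨fun _ _ => inferInstance⟩

instance : (Fs A).ContainsZero := ⟨0, isZero_zero _, 0, 0, fun n _ =>
  (HomologicalComplex.eval A _ n).map_isZero (isZero_zero _)⟩

instance : HasBinaryBiproducts (Fc A) := hasBiprod_full _ fun X Y ⟨p, q, h⟩ ⟨p', q', h'⟩ =>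
  ⟨min p p', max q q', fun n hn => (IsZero.iff_id_eq_zero _).2 (by
    rw [← HomologicalComplex.id_f, ← biprod.total, HomologicalComplex.add_f_apply,
      HomologicalComplex.comp_f, HomologicalComplex.comp_f,
      (h n (by omega)).eq_of_src ((biprod.inl : X ⟶ X ⊞ Y).f n) 0,
      (h' n (by omega)).eq_of_src ((biprod.inr : Y ⟶ X ⊞ Y).f n) 0]
    simp)⟩

instance : (Jc A).ContainsZero :=
  ⟨0, isZero_zero _, ⟨Homotopy.ofEq (((Fs A).ι.map_isZero (isZero_zero _)).eq_of_src _ _)⟩⟩

omit [HasZeroObject A] in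
theorem Jc.biprod (X Y : Fc A) (h : Jc A X) (k : Jc A Y) : Jc A (X ⊞ Y) := by
  obtain ⟨h⟩ := h
  obtain ⟨k⟩ := k
  have e : 𝟙 (X ⊞ Y).obj = (biprod.fst : X ⊞ Y ⟶ X).hom ≫ 𝟙 X.obj ≫ (biprod.inl : X ⟶ _).hom +
      (biprod.snd : X ⊞ Y ⟶ Y).hom ≫ 𝟙 Y.obj ≫ (biprod.inr : Y ⟶ _).hom := by
    rw [Category.id_comp, Category.id_comp]
    exact congrArg (·.hom) (biprod.total (X := X) (Y := Y)).symm
  exact ⟨(Homotopy.ofEq e).trans ((((h.compRight _).compLeft _).add
    ((k.compRight _).compLeft _)).trans (Homotopy.ofEq (by simp)))⟩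

instance : HasBinaryBiproducts (Jc A).FullSubcategory := hasBiprod_full _ (Jc.biprod A)

/-- An object as a complex in degree zero. -/
noncomputable def Fc.c0 : A ⥤ Fc A :=
  (Fs A).lift (CochainComplex.singleFunctor A 0) fun X => ⟨0, 0, fun n h =>
    HomologicalComplex.isZero_single_obj_X _ _ X n (by omega)⟩

instance : (Fc.c0 A).Additive :=
  ⟨ObjectProperty.hom_ext _ (CochainComplex.singleFunctor A 0).map_add⟩

end Fc

/-- The product of ambient categories. -/
def api {I : Type w} (a : I → Am.{v, u}) : Am.{max w v, max w u} where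
  A := ∀ i, (a i).A
  T X := ∀ i, (a i).Tb (((Pi.eval (fun i => (a i).A) i).mapHomotopyCategory _).obj X)
  tg := Tg.mk' (fun _ h _ => Tg.zero _ (Functor.map_isZero _ h))
    (fun n X h i => ((a i).Tb.inverseImage
      ((Pi.eval (fun i => (a i).A) i).mapHomotopyCategory _)).le_shift n X (h i))
    fun T k h h' i => ((a i).Tb.inverseImage ((Pi.eval (fun i => (a i).A) i).mapHomotopyCategory
      _)).ext_of_isTriangulatedClosed₂ T k (h i) (h' i)

/-- The projections. -/
def apr {I : Type w} (a : I → Am.{v, u}) (i : I) : Am.Map (api a) (a i) where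
  F := Pi.eval (fun i => (a i).A) i
  add := inferInstanceAs (Pi.eval (fun i => (a i).A) i).Additive
  hT _ h := h i

/-- The product of classes of objects. -/
def piS {I : Type w} {a : I → Am.{v, u}} (S : ∀ i, ObjectProperty (a i).D) :
    ObjectProperty (api a).D := Pw (fun i => (apr a i).D) S

/-- The product of maps. -/
def mpi {I : Type w} {a : I → Am.{v, u}} {b : I → Am.{v', u'}} (f : ∀ i, Am.Map (a i) (b i)) :
    Am.Map (api a) (api b) where
  F := Functor.pi fun i => (f i).F
  add := inferInstanceAs (Functor.pi fun i => (f i).F).Additive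
  hT _ h := (api b).le_Tb _ fun i => (f i).hTb _ (h i)

/-- Bounded complexes with the degreewise split exact structure. -/
def fa (A : Type (max u v)) [Category.{v} A] [Preadditive A] [HasZeroObject A]
    [HasBinaryBiproducts A] : Am.{v, u} where
  A := Fc A
  T X := ∀ k, IsZero (((Fc.ev A k).mapHomotopyCategory _).obj X)
  tg := Tg.mk' (fun _ h _ => Functor.map_isZero _ h)
    (fun n X h k => (Zr.inverseImage ((Fc.ev A k).mapHomotopyCategory _)).le_shift n X (h k))
    fun T e h h' k => (Zr.inverseImage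
      ((Fc.ev A k).mapHomotopyCategory _)).ext_of_isTriangulatedClosed₂ T e (h k) (h' k)

/-- The terms as maps. -/
def fev (A : Type (max u v)) [Category.{v} A] [Preadditive A] [HasZeroObject A]
    [HasBinaryBiproducts A] (k : ℤ) : Am.Map (fa.{v, u} A) (Am.of.{v, u} A) where
  F := Fc.ev A k
  add := inferInstanceAs (Fc.ev A k).Additive
  hT _ h := Tg.zero (Am.of.{v, u} A).Tb (h k)

end Pool.Agent.Lib.MP_5d3e93_al.K
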