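import Pool.Agent.Lib.MP_5d3e93_al.K.Ind
import Pool.Agent.Lib.MP_5d3e93_al.K.N2d
import Pool.Agent.Lib.MP_5d3e93_al.K.N1c
import Pool.Agent.Lib.MP_5d3e93_al.K.N1a
import Pool.Agent.Lib.MP_5d3e93_al.K.PDef

/-! The cyclic move for Nil terms over bimodules. -/

open CategoryTheory Limits ZeroObject

namespace Pool.Agent.Lib.MP_5d3e93_al.Gr

universe v u u'

variable {P Q : Type (max u v)} [Category.{v} P] [Preadditive P] [HasZeroObject P]
  [HasBinaryBiproducts P] [Category.{v} Q] [Preadditive Q] [HasZeroObject Q]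
  [HasBinaryBiproducts Q] {T : Type (max u' v)} [Category.{v} T] [Preadditive T] [HasZeroObject T]
  [HasBinaryBiproducts T] {f : P ⥤ T} {g : Q ⥤ T} [f.Additive] [g.Additive] {m : ℕ}

theorem n2e_fn {X : Am.{v, u}} {B : Type*} [Category* B] [Preadditive B] {F : Fn X B} (x : F ⟶ F)
    (n : ℕ) (A : X.A) : NatTrans.app (pw x n) A = pw (NatTrans.app x A) n := by
  induction n with
  | zero => rfl
  | succ n ih => exact congrArg (NatTrans.app x A ≫ ·) ih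

omit [HasZeroObject P] [HasBinaryBiproducts P] [HasZeroObject T] [HasBinaryBiproducts T] in
theorem n2e_lift (α : Bi f g) (β : Bi g f) (h : ∀ M, α.Hs β M) (W : N2 α β m)
    (Y : N1 (α.mul β) m) (φ : (N2.π α β m).obj W ⟶ Y) : ∃ (Y' : N2 α β m)
      (e : (N2.π α β m).obj Y' ≅ Y) (s : W ⟶ Y'), α.Sp β Y'.b ∧
        (N2.π α β m).map s ≫ e.hom = φ := by
  obtain ⟨N, a, b, ha, hb, e⟩ := Y.mem
  let ψ : W.M ⟶ Y.M := φ.1
  have c : f.map ψ ≫ Y.x = (W.a ≫ W.b) ≫ f.map ψ := φ.2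
  obtain ⟨N', b', k, s, e'⟩ := h Y.M (W.N ⊞ N)
    (g.map biprod.fst ≫ W.b ≫ f.map ψ + g.map biprod.snd ≫ b)
    (add_mem (β.l _ (β.r _ W.hb)) (β.l _ hb))
  have e1 : g.map (biprod.inl ≫ k) ≫ b' = W.b ≫ f.map ψ := by
    rw [g.map_comp, Category.assoc, e']
    simp [← g.map_comp_assoc]
  have e2 : (a ≫ g.map (biprod.inr ≫ k)) ≫ b' = Y.x := by
    rw [g.map_comp, Category.assoc, Category.assoc, e', ← e]
    simp [← g.map_comp_assoc]
  refine ⟨⟨Y.M, N', a ≫ g.map (biprod.inr ≫ k), b', α.r _ ha, s.1, e2 ▸ Y.nil⟩,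
    ⟨N1.homMk (𝟙 Y.M) ?_, N1.homMk (𝟙 Y.M) ?_, N1.hom_ext (Category.id_comp _),
      N1.hom_ext (Category.id_comp _)⟩, N2.homMk ψ (biprod.inl ≫ k) (sub_eq_zero.1
        (s.2.2 _ _ (sub_mem (α.l _ (α.r _ ha)) (α.r _ W.ha)) ?_)) e1, s,
    N1.hom_ext (Category.comp_id _)⟩
  · exact ((congrArg (· ≫ Y.x) (f.map_id _)).trans (Category.id_comp _)).trans (e2.symm.trans
      ((Category.comp_id _).symm.trans (congrArg (_ ≫ ·) (f.map_id _).symm)))
  · exact ((congrArg (· ≫ _) (f.map_id _)).trans (Category.id_comp _)).trans (e2.trans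
      ((Category.comp_id _).symm.trans (congrArg (_ ≫ ·) (f.map_id _).symm)))
  · change (f.map ψ ≫ a ≫ g.map (biprod.inr ≫ k) - W.a ≫ g.map (biprod.inl ≫ k)) ≫ b' = 0
    rw [Preadditive.sub_comp, Category.assoc, e2, Category.assoc, e1, c, Category.assoc, sub_self]

theorem n2_loc (α : Bi f g) (β : Bi g f) (h : ∀ M, α.Hs β M) :
    Loc (n2π.{v, u, u'} α β m).D ((n2π.{v, u, u'} α β m).ker (n2.{v, u, u'} α β m).bdd)
      (n2.{v, u, u'} α β m).bdd (n1.{v, u, u'} (α.mul β) m).bdd :=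
  Am.ind_loc (n2π.{v, u, u'} α β m) (n2_gs α β) (n1_gs _) (fun X : N2 α β m => α.Sp β X.b)
    (fun (W Y : N2 α β m) (s : W ⟶ Y) k e => by
      have e1 : s.1.1 = 0 := congrArg Subtype.val e
      exact N2.hom_ext e1 (k.2.1 _ _ (by rw [N2.comm_b, e1, f.map_zero, comp_zero])))
    (n2e_lift α β h)

theorem ga_hs (α : Bi f g) (β : Bi g f) (h : ∀ M, α.Hs β M) (z : Am.Z (Am.of.{v, u} Q).bdd)
    (k : Ga.{v, u, u'} g (fun N y => y ∈ (β.mul α).m N N) (m + 2)) :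
    Ga.{v, u, u'} f (fun M x => x ∈ (α.mul β).m M M) (m + 1) := by
  rw [ga_iff]
  have nil : pw (n1X.{v, u, u'} (α.mul β) m) (m + 1) = 0 :=
    NatTrans.ext (funext fun A => (n2e_fn _ _ A).trans (N1.nil A))
  have := Fn.isIso_unip nil
  refine Fn.tr_of_surj (fun _ : Unit => n2.{v, u, u'} α β m) (fun _ => n2π.{v, u, u'} α β m)
    (fun n x => ⟨(), Am.loc_surj n (n2_loc α β h)
      (fun j _ => (Am.Z_deq (n2_deq α β)).1 z j) x⟩) _ fun _ => ?_
  let F : Fn (n2.{v, u, u'} α β m) T :=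
    ((n1F.{v, u, u'} (α.mul β) m).post f).pre (n2π.{v, u, u'} α β m)
  let F' : Fn (n2.{v, u, u'} α β m) Q := @Fn.mk' (n2.{v, u, u'} α β m) Q _ _ _ _ (N2.snd α β m)
    (inferInstanceAs (N2.snd α β m).Additive) fun _ h => h.2.2
  let a : F ⟶ F'.post g := { app X := N2.a X, naturality _ _ s := N2.comm_a s }
  let b : F'.post g ⟶ F := { app X := N2.b X, naturality _ _ s := N2.comm_b s }
  have ab : pw (a ≫ b) (m + 1) = 0 :=
    NatTrans.ext (funext fun A => (n2e_fn _ _ A).trans (N2.nil A))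
  exact Fn.Tr.cyc a b (k _ (n2_gs α β) F' (b ≫ a) (fun A => ⟨_, _, _, N2.hb A, N2.ha A, rfl⟩)
    (by rw [pw_cyc, ab, zero_comp, comp_zero]))

theorem ga_cyc (α : Bi f g) (β : Bi g f) [IsIdempotentComplete P]
    (cof : ∀ M : P, ∃ M', α.Hs β (M ⊞ M')) (z₁ : Am.Z (Am.of.{v, u} P).bdd)
    (z₂ : Am.Z (Am.of.{v, u} Q).bdd)
    (k : Ga.{v, u, u'} g (fun N y => y ∈ (β.mul α).m N N) (m + 2)) :
    Ga.{v, u, u'} f (fun M x => x ∈ (α.mul β).m M M) (m + 1) := by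
  let H : ObjectProperty P := α.Hs β
  have : H.ContainsZero := ⟨0, isZero_zero _, α.hs_zero β (isZero_zero _)⟩
  have : HasBinaryBiproducts H.FullSubcategory := K.hasBiprod_full H fun _ _ => Bi.Hs.add
  exact ga_cof H.ι (fun M => (cof M).imp fun M' c => ⟨⟨_, c⟩, ⟨Iso.refl _⟩⟩) z₁ (α.mul β)
    (ga_hs (α.lc H.ι) (β.rc H.ι) (fun M => Bi.Hs.comap H.ι M.property) z₂
      (k.mono fun N x ⟨M, a, b, p, q, e⟩ => ⟨H.ι.obj M, a, b, p, q, e⟩))

end Pool.Agent.Lib.MP_5d3e93_al.Gr
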