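import Pool.Agent.Lib.MP_5d3e93_al.K.N12

/-! A cylinder for complexes of nilpotent pairs whose first complex is contractible. -/

open CategoryTheory Limits ZeroObject

namespace Pool.Agent.Lib.MP_5d3e93_al

universe v u₁ u₂ u₃

namespace Gr

/-- A homotopy from its components. -/
noncomputable def n2zH {V : Type*} [Category* V] [Preadditive V] {C D : CochainComplex V ℤ}
    {s t : C ⟶ D} (H : ∀ n, C.X (n + 1) ⟶ D.X n) (e : ∀ n, s.f (n + 1) =
      C.d (n + 1) (n + 1 + 1) ≫ H (n + 1) + H n ≫ D.d n (n + 1) + t.f (n + 1)) : Homotopy s t where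
  hom i j := if h : j + 1 = i then (C.XIsoOfEq h).inv ≫ H j else 0
  zero _ _ h := dif_neg h
  comm i := by
    obtain ⟨k, rfl⟩ : ∃ k, i = k + 1 := ⟨i - 1, by ring⟩
    rw [dNext_eq _ (show (ComplexShape.up ℤ).Rel (k + 1) (k + 1 + 1) from rfl),
      prevD_eq _ (show (ComplexShape.up ℤ).Rel k (k + 1) from rfl), dif_pos rfl, dif_pos rfl, e]
    simp

section

variable {P : Type u₁} [Category.{v} P] [Preadditive P]
  {Q : Type u₂} [Category.{v} Q] [Preadditive Q] [HasBinaryBiproducts Q] {T : Type u₃}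
  [Category.{v} T] [Preadditive T] {f : P ⥤ T} {g : Q ⥤ T} [f.Additive] [g.Additive]
  {α : Bi f g} {β : Bi g f} {m : ℕ} (W : CochainComplex (N2 α β m) ℤ)
  (H : ∀ n, (W.X (n + 1)).M ⟶ (W.X n).M)

/-- The terms. -/
noncomputable def n2zX (n : ℤ) : N2 α β m where
  M := (W.X n).M
  N := (W.X n).N ⊞ (W.X (n + 1)).N ⊞ (W.X n).N
  a := (W.X n).a ≫ g.map biprod.inl
  b := g.map (biprod.fst + biprod.snd ≫ biprod.snd) ≫ (W.X n).b +
    g.map (biprod.snd ≫ biprod.fst) ≫ (W.X (n + 1)).b ≫ f.map (H n)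
  ha := α.r _ (W.X n).ha
  hb := add_mem (β.l _ (W.X n).hb) (β.l _ (β.r _ (W.X (n + 1)).hb))
  nil := by
    have := (W.X n).nil
    simpa [← g.map_comp_assoc, -Functor.map_comp, -Functor.map_add] using this

/-- The differential of the second complex. -/
noncomputable def n2zD (n : ℤ) : (W.X n).N ⊞ (W.X (n + 1)).N ⊞ (W.X n).N ⟶
    (W.X (n + 1)).N ⊞ (W.X (n + 1 + 1)).N ⊞ (W.X (n + 1)).N :=
  biprod.fst ≫ (W.d n (n + 1)).1.2 ≫ biprod.inl + biprod.snd ≫
    (biprod.fst ≫ (biprod.inr - (W.d (n + 1) (n + 1 + 1)).1.2 ≫ biprod.inl) +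
      biprod.snd ≫ (W.d n (n + 1)).1.2 ≫ biprod.inr) ≫ biprod.inr

omit [HasBinaryBiproducts Q] in
theorem n2z_dd (i j k : ℤ) : (W.d i j).1.1 ≫ (W.d j k).1.1 = 0 ∧ (W.d i j).1.2 ≫ (W.d j k).1.2 = 0 :=
  ⟨congrArg (·.1.1) (W.d_comp_d i j k), congrArg (·.1.2) (W.d_comp_d i j k)⟩

variable (hH : ∀ n, (W.d (n + 1) (n + 1 + 1)).1.1 ≫ H (n + 1) + H n ≫ (W.d n (n + 1)).1.1 = 𝟙 _)

/-- The differentials. -/
noncomputable def n2zd (n : ℤ) : n2zX W H n ⟶ n2zX W H (n + 1) :=
  N2.homMk (W.d n (n + 1)).1.1 (n2zD W n) (by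
    have e : biprod.inl ≫ n2zD W n = (W.d n (n + 1)).1.2 ≫ biprod.inl := by simp [n2zD]
    have k : f.map (W.d n (n + 1)).1.1 ≫ (W.X (n + 1)).a ≫ g.map biprod.inl =
        ((W.X n).a ≫ g.map biprod.inl) ≫ g.map (n2zD W n) := by
      rw [Category.assoc, ← g.map_comp, e, g.map_comp, N2.comm_a_assoc]
    exact k) (by
    have e : n2zD W n ≫ (biprod.fst + biprod.snd ≫ biprod.snd) =
        (biprod.fst + biprod.snd ≫ biprod.snd) ≫ (W.d n (n + 1)).1.2 + biprod.snd ≫ biprod.fst := by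
      simp [n2zD]
      abel
    have e' : n2zD W n ≫ biprod.snd ≫ biprod.fst =
        -(biprod.snd ≫ biprod.fst) ≫ (W.d (n + 1) (n + 1 + 1)).1.2 := by simp [n2zD]
    have k := congrArg (fun t => g.map (biprod.snd ≫ biprod.fst :
      (W.X n).N ⊞ (W.X (n + 1)).N ⊞ (W.X n).N ⟶ _) ≫ (W.X (n + 1)).b ≫ f.map t) (hH n)
    change g.map (n2zD W n) ≫ (g.map _ ≫ _ + g.map _ ≫ _ ≫ _) =
      (g.map _ ≫ _ + g.map _ ≫ _ ≫ _) ≫ f.map (W.d n (n + 1)).1.1
    rw [Preadditive.comp_add, ← g.map_comp_assoc, ← g.map_comp_assoc, e, e', g.map_add,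
      g.map_neg, g.map_comp _ (W.d n (n + 1)).1.2, g.map_comp _ (W.d (n + 1) (n + 1 + 1)).1.2]
    simp only [Functor.map_add f, Functor.map_comp f, Preadditive.comp_add] at k
    rw [f.map_id, Category.comp_id] at k
    simp only [Preadditive.add_comp, Preadditive.neg_comp, Category.assoc, N2.comm_b,
      N2.comm_b_assoc]
    rw [eq_sub_of_add_eq' k]
    abel)

/-- The complex. -/
noncomputable def n2zZ : CochainComplex (N2 α β m) ℤ :=
  CochainComplex.of (n2zX W H) (n2zd W H hH) fun n => N2.hom_ext (n2z_dd W _ _ _).1 (by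
    change n2zD W n ≫ n2zD W (n + 1) = 0
    simp [n2zD, reassoc_of% (n2z_dd W n (n + 1) (n + 1 + 1)).2,
      reassoc_of% (n2z_dd W (n + 1) (n + 1 + 1) (n + 1 + 1 + 1)).2])

theorem n2zZ_d (n : ℤ) : (n2zZ W H hH).d n (n + 1) = n2zd W H hH n := CochainComplex.of_d ..

/-- The first inclusion. -/
noncomputable def n2zi : W ⟶ n2zZ W H hH where
  f n := N2.homMk (Y := n2zX W H n) (𝟙 _) biprod.inl (by simp [n2zX])
    (by simp [n2zX, ← g.map_comp_assoc, -Functor.map_comp, -Functor.map_add])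
  comm' := by
    rintro n _ rfl
    rw [n2zZ_d]
    refine N2.hom_ext ((Category.id_comp _).trans (Category.comp_id _).symm) ?_
    change biprod.inl ≫ n2zD W n = (W.d n (n + 1)).1.2 ≫ biprod.inl
    simp [n2zD]

/-- The projection of the second complex. -/
noncomputable def n2zr : ((N2.snd α β m).mapHomologicalComplex _).obj (n2zZ W H hH) ⟶
    ((N2.snd α β m).mapHomologicalComplex _).obj W where
  f n := (biprod.fst : (W.X n).N ⊞ (W.X (n + 1)).N ⊞ (W.X n).N ⟶ _)
  comm' := by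
    rintro n _ rfl
    change biprod.fst ≫ (W.d n (n + 1)).1.2 = ((n2zZ W H hH).d n (n + 1)).1.2 ≫ _
    rw [n2zZ_d]
    change _ = n2zD W n ≫ biprod.fst
    simp [n2zD]

/-- The first inclusion is a homotopy equivalence on the second complexes. -/
noncomputable def n2zE : HomotopyEquiv (((N2.snd α β m).mapHomologicalComplex _).obj W)
    (((N2.snd α β m).mapHomologicalComplex _).obj (n2zZ W H hH)) where
  hom := ((N2.snd α β m).mapHomologicalComplex _).map (n2zi W H hH)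
  inv := n2zr W H hH
  homotopyHomInvId := .ofEq (HomologicalComplex.hom_ext _ _ fun _ => biprod.inl_fst)
  homotopyInvHomId := (n2zH (fun n => (biprod.snd ≫ biprod.snd ≫ biprod.inl ≫ biprod.inr :
      (W.X (n + 1)).N ⊞ (W.X (n + 1 + 1)).N ⊞ (W.X (n + 1)).N ⟶
        (W.X n).N ⊞ (W.X (n + 1)).N ⊞ (W.X n).N)) fun n => by
    have d : ∀ k, (((N2.snd α β m).mapHomologicalComplex _).obj (n2zZ W H hH)).d k (k + 1) =
      n2zD W k := fun k => congrArg (·.1.2) (n2zZ_d W H hH k)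
    have k : 𝟙 _ = n2zD W (n + 1) ≫ biprod.snd ≫ biprod.snd ≫ biprod.inl ≫ biprod.inr +
        (biprod.snd ≫ biprod.snd ≫ biprod.inl ≫ biprod.inr) ≫ n2zD W n +
          biprod.fst ≫ biprod.inl := by
      refine biprod.hom_ext' _ _ (by simp [n2zD]) (biprod.hom_ext' _ _ ?_ ?_) <;> simp [n2zD]
    rw [d, d]
    exact k).symm

variable [HasZeroObject P]

/-- The second inclusion. -/
noncomputable def n2zj : ((N2.c α β m).mapHomologicalComplex _).obj
    (((N2.snd α β m).mapHomologicalComplex _).obj W) ⟶ n2zZ W H hH where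
  f n := N2.homMk (X := (N2.c α β m).obj (W.X n).N) (Y := n2zX W H n) 0
    (biprod.inl - biprod.inr ≫ biprod.inr : (W.X n).N ⟶ _ ⊞ _ ⊞ _)
    (by rw [f.map_zero, zero_comp]; exact zero_comp.symm)
    (by simp [N2.c, n2zX, ← g.map_comp_assoc, -Functor.map_comp, -Functor.map_add,
      -Functor.map_sub])
  comm' := by
    rintro n _ rfl
    rw [n2zZ_d]
    refine N2.hom_ext ((isZero_zero P).eq_of_src _ _) ?_
    change (biprod.inl - biprod.inr ≫ biprod.inr) ≫ n2zD W n =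
      (W.d n (n + 1)).1.2 ≫ (biprod.inl - biprod.inr ≫ biprod.inr)
    simp [n2zD, sub_eq_add_neg]

end

theorem N2.zig {P : Type u₁} [Category.{v} P] [Preadditive P] [HasZeroObject P]
    {Q : Type u₂} [Category.{v} Q] [Preadditive Q] [HasBinaryBiproducts Q] {T : Type u₃}
    [Category.{v} T] [Preadditive T] {f : P ⥤ T} {g : Q ⥤ T} [f.Additive] [g.Additive]
    {α : Bi f g} {β : Bi g f} {m : ℕ} (W : CochainComplex (N2 α β m) ℤ)
    (h : Homotopy (𝟙 (((N2.fst α β m).mapHomologicalComplex _).obj W)) 0) :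
    ∃ (Z : CochainComplex (N2 α β m) ℤ) (i : W ⟶ Z)
      (j : ((N2.c α β m).mapHomologicalComplex _).obj
        (((N2.snd α β m).mapHomologicalComplex _).obj W) ⟶ Z),
      (∀ n, IsZero (W.X n) → IsZero (W.X (n + 1)) → IsZero (Z.X n)) ∧
      IsIso (((N2.fst α β m).mapHomologicalComplex _).map i) ∧
      IsIso ((HomotopyCategory.quotient _ _).map (((N2.snd α β m).mapHomologicalComplex _).map i)) ∧
      IsIso ((HomotopyCategory.quotient _ _).map (((N2.snd α β m).mapHomologicalComplex _).map j)) ∧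
      ∀ (X : CochainComplex Q ℤ) (s : ((N2.c α β m).mapHomologicalComplex _).obj X ⟶ W)
        (φ : X ⟶ ((N2.snd α β m).mapHomologicalComplex _).obj W), (∀ n, (s.f n).1.2 = φ.f n) →
        Nonempty (Homotopy (s ≫ i) (((N2.c α β m).mapHomologicalComplex _).map φ ≫ j)) := by
  let H : ∀ n, (W.X (n + 1)).M ⟶ (W.X n).M := fun n => h.hom (n + 1) n
  have hH : ∀ n, (W.d (n + 1) (n + 1 + 1)).1.1 ≫ H (n + 1) + H n ≫ (W.d n (n + 1)).1.1 = 𝟙 _ :=
    fun n => by
      have := h.comm (n + 1)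
      rw [dNext_eq _ (show (ComplexShape.up ℤ).Rel (n + 1) (n + 1 + 1) from rfl),
        prevD_eq _ (show (ComplexShape.up ℤ).Rel n (n + 1) from rfl)] at this
      exact (add_zero _).symm.trans this.symm
  let E := HomotopyCategory.isoOfHomotopyEquiv (n2zE W H hH)
  refine ⟨n2zZ W H hH, n2zi W H hH, n2zj W H hH, fun n a b => ?_, ?_, E.isIso_hom, ?_,
    fun X s φ e => ⟨?_⟩⟩
  · have a2 : IsZero (W.X n).N := (N2.snd α β m).map_isZero a
    have b2 : IsZero (W.X (n + 1)).N := (N2.snd α β m).map_isZero b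
    exact (IsZero.iff_id_eq_zero _).2 (N2.hom_ext (((N2.fst α β m).map_isZero a).eq_of_src _ _)
      (biprod.hom_ext' _ _ (a2.eq_of_src _ _)
        (biprod.hom_ext' _ _ (b2.eq_of_src _ _) (a2.eq_of_src _ _))))
  · exact @HomologicalComplex.Hom.isIso_of_components _ _ _ _ _ _ _ _ fun n =>
      inferInstanceAs (IsIso (𝟙 (W.X n).M))
  · have k : ((N2.snd α β m).mapHomologicalComplex _).map (n2zj W H hH) ≫ n2zr W H hH = 𝟙 _ :=
      HomologicalComplex.hom_ext _ _ fun n => by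
        change (biprod.inl - biprod.inr ≫ biprod.inr) ≫ biprod.fst = 𝟙 (W.X n).N
        simp
    have k' : (HomotopyCategory.quotient _ _).map
        (((N2.snd α β m).mapHomologicalComplex _).map (n2zj W H hH)) ≫ E.inv = 𝟙 _ :=
      ((HomotopyCategory.quotient _ _).map_comp _ _).symm.trans
        ((congrArg _ k).trans ((HomotopyCategory.quotient _ _).map_id _))
    have : IsIso ((HomotopyCategory.quotient _ _).map
        (((N2.snd α β m).mapHomologicalComplex _).map (n2zj W H hH)) ≫ E.inv) :=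
      k' ▸ IsIso.id _
    exact IsIso.of_isIso_comp_right _ E.inv
  · let ψ : ∀ n, X.X n ⟶ (W.X n).N := φ.f
    have z : ∀ n, g.map (ψ n) ≫ (W.X n).b = 0 := fun n =>
      (congrArg (fun t => g.map t ≫ (W.X n).b) (e n).symm).trans
        ((N2.comm_b (s.f n)).trans zero_comp)
    have c : ∀ n, X.d n (n + 1) ≫ ψ (n + 1) = ψ n ≫ (W.d n (n + 1)).1.2 := fun n =>
      (φ.comm n (n + 1)).symm
    refine n2zH (fun n => N2.homMk (X := (N2.c α β m).obj (X.X (n + 1))) (Y := n2zX W H n) 0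
      (ψ (n + 1) ≫ biprod.inl ≫ biprod.inr : X.X (n + 1) ⟶ _ ⊞ _ ⊞ _)
      (by rw [f.map_zero, zero_comp]; exact zero_comp.symm) (by
        simp [N2.c, n2zX, ← g.map_comp_assoc, -Functor.map_comp, -Functor.map_add,
          reassoc_of% z])) fun n => ?_
    rw [n2zZ_d]
    refine N2.hom_ext ((isZero_zero P).eq_of_src _ _) ?_
    have k : ψ (n + 1) ≫ biprod.inl =
        X.d (n + 1) (n + 1 + 1) ≫ ψ (n + 1 + 1) ≫ biprod.inl ≫ biprod.inr +
          (ψ (n + 1) ≫ biprod.inl ≫ biprod.inr) ≫ n2zD W n +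
            ψ (n + 1) ≫ (biprod.inl - biprod.inr ≫ biprod.inr) := by
      rw [reassoc_of% c]
      simp [n2zD]
    exact (congrArg (· ≫ (biprod.inl : (W.X (n + 1)).N ⟶ _)) (e (n + 1))).trans k

end Gr

end Pool.Agent.Lib.MP_5d3e93_al
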