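import Mathlib

/-! The covolume of a modular lattice with a shift of finite length. -/

namespace Pool.Agent.Lib.MP_5d3e93_al.Nc

universe w

variable {X : Type w} [Lattice X]

/-- There is a chain with `k` proper steps between the two elements. -/
inductive Ch (a : X) : ℕ → X → Prop
  | base {b} : a ≤ b → Ch a 0 b
  | step {k b c} : Ch a k b → b < c → Ch a (k + 1) c

namespace Ch

variable {a b c : X} {k l : ℕ}

theorem le (h : Ch a k b) : a ≤ b := by
  induction h with
  | base h => exact h
  | step _ h ih => exact ih.trans h.le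

theorem up (h : Ch a k b) (e : b ≤ c) : Ch a k c := by
  cases h with
  | base h => exact .base (h.trans e)
  | step h f => exact .step h (f.trans_le e)

theorem down (h : Ch b k c) (e : a ≤ b) : Ch a k c := by
  induction h with
  | base h => exact .base (e.trans h)
  | step _ f ih => exact .step ih f

theorem cat (h : Ch a k b) (h' : Ch b l c) : Ch a (k + l) c := by
  induction h' with
  | base f => exact h.up f
  | step _ f ih => exact .step ih f

theorem short (h : Ch a k b) (e : l ≤ k) : Ch a l b := by
  induction h generalizing l with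
  | base f => exact Nat.le_zero.1 e ▸ .base f
  | step p f ih =>
    obtain e | rfl := e.lt_or_eq
    exacts [(ih (Nat.le_of_lt_succ e)).up f.le, .step p f]

theorem zero (h : Ch a k b) (e : b ≤ a) : k = 0 := by
  cases h with
  | base _ => rfl
  | step h f => exact ((h.le.trans_lt f).not_ge e).elim

theorem map (e : X ≃o X) (h : Ch a k b) : Ch (e a) k (e b) := by
  induction h with
  | base f => exact .base (e.monotone f)
  | step _ f ih => exact .step ih (e.strictMono f)

theorem split [IsModularLattice X] (h : Ch a k c) (b : X) :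
    ∃ i j, i + j = k ∧ Ch (a ⊓ b) i (c ⊓ b) ∧ Ch (a ⊔ b) j (c ⊔ b) := by
  induction h with
  | base f => exact ⟨0, 0, rfl, .base (inf_le_inf_right _ f), .base (sup_le_sup_right f _)⟩
  | step _ f ih =>
    obtain ⟨i, j, rfl, p, q⟩ := ih
    obtain r | r := Prod.lt_iff.1 (strictMono_inf_prod_sup (z := b) f)
    · exact ⟨i + 1, j, by omega, .step p r.1, q.up r.2⟩
    · exact ⟨i, j + 1, rfl, p.up r.1, .step q r.2⟩

end Ch

/-- The length of an interval. -/
noncomputable def ln (a b : X) : ℕ := sSup {k | Ch a k b}

theorem ln_map (e : X ≃o X) (a b : X) : ln (e a) (e b) = ln a b :=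
  congrArg sSup (Set.ext fun _ => ⟨fun h => by simpa using Ch.map e.symm h, Ch.map e⟩)

variable [IsModularLattice X]

theorem ln_dia (a b : X) : ln b (a ⊔ b) = ln (a ⊓ b) a := by
  refine congrArg sSup (Set.ext fun k => ⟨fun h => ?_, fun h => ?_⟩)
  · obtain ⟨i, j, rfl, p, q⟩ := Ch.split h a
    obtain rfl := q.zero (by simp)
    exact (p.up inf_le_right).down (inf_comm ..).le
  · obtain ⟨i, j, rfl, p, q⟩ := Ch.split h b
    obtain rfl := p.zero (by simp)
    simpa using q

theorem ex_cov [Nonempty X] (π : X ≃o X) (h3 : ∀ x, π x ≤ x) (h4 : ∀ x y, ∃ m : ℕ, (π ^ m) x ≤ y)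
    (n : ℕ) (hn : ∀ x, ¬ Ch (π x) (n + 1) x) : ∃ (cov : X → ℤ) (N : ℕ), StrictAnti cov ∧
      (∀ x y, cov (x ⊔ y) + cov (x ⊓ y) = cov x + cov y) ∧ (∀ x, cov (π x) = cov x + N) ∧
      ∀ e : X ≃o X, ∃ c, ∀ x, cov (e x) = cov x + c := by
  have b1 (m : ℕ) (x : X) : ∀ k, Ch ((π ^ m) x) k x → k ≤ m * n := by
    induction m generalizing x with
    | zero => exact fun k h => (h.zero le_rfl).le.trans (Nat.zero_le _)
    | succ m ih =>
      intro k h
      obtain ⟨i, j, rfl, p, q⟩ := h.split (π x)
      have a := ih (π x) i ((p.up inf_le_right).down (le_inf (by rw [pow_succ]; rfl) ?_))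
      · have b : ¬ n + 1 ≤ j := fun c =>
          hn x (((q.short c).up (sup_le le_rfl (h3 x))).down le_sup_right)
        rw [add_mul]
        omega
      · induction m with
        | zero => rfl
        | succ m _ =>
          clear * - h3
          induction m with
          | zero => exact h3 _
          | succ m ih => rw [pow_succ']; exact (h3 _).trans ih
  have b2 (a b : X) : BddAbove {k | Ch a k b} :=
    (h4 b a).elim fun m e => ⟨m * n, fun k h => b1 m b k (Ch.down h e)⟩
  have l1 {a b : X} {k} (h : Ch a k b) : k ≤ ln a b := le_csSup (b2 a b) h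
  have l2 {a b : X} (h : a ≤ b) : Ch a (ln a b) b := Nat.sSup_mem ⟨0, .base h⟩ (b2 a b)
  have ad {a b c : X} (h : a ≤ b) (k : b ≤ c) : ln a c = ln a b + ln b c := by
    refine le_antisymm ?_ (l1 ((l2 h).cat (l2 k)))
    obtain ⟨i, j, e, p, q⟩ := (l2 (h.trans k)).split b
    have := l1 ((p.up inf_le_right).down (le_inf le_rfl h))
    have := l1 ((q.up (sup_le le_rfl k)).down le_sup_right)
    omega
  obtain ⟨o⟩ := ‹Nonempty X›
  let cov : X → ℤ := fun x => ln (x ⊓ o) o - ln (x ⊓ o) x
  have c1 {x y : X} (h : y ≤ x) : cov y = cov x + ln y x := by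
    have a := ad (inf_le_inf_right o h) (inf_le_right (a := x))
    have b := ad (inf_le_inf_right o h) (inf_le_left (a := x))
    have c := ad (inf_le_left (a := y) (b := o)) h
    simp only [cov]
    omega
  have c2 (e : X ≃o X) (x : X) : cov (e x) = cov x + (cov (e o) - cov o) := by
    have a := c1 (inf_le_left (a := x) (b := o))
    have b := c1 (inf_le_right (a := x) (b := o))
    have c := c1 (e.monotone (inf_le_left (a := x) (b := o)))
    have d := c1 (e.monotone (inf_le_right (a := x) (b := o)))
    rw [ln_map] at c d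
    omega
  refine ⟨cov, ln (π o) o, fun y x h => ?_, fun x y => ?_, fun x => ?_, fun e => ⟨_, c2 e⟩⟩
  · have := c1 h.le
    have := l1 (.step (.base le_rfl) h)
    omega
  · have a := c1 (inf_le_left (a := x) (b := y))
    have b := c1 (le_sup_right (a := x) (b := y))
    rw [ln_dia] at b
    omega
  · have := c2 π x
    have := c1 (h3 o)
    omega

end Pool.Agent.Lib.MP_5d3e93_al.Nc
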