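import Mathlib

/-! Valuations on rings whose leading terms satisfy the Ore condition. -/

open WithZero

namespace Pool.Agent.Lib.MP_5d3e93_al.Nc

universe w

variable {A : Type w} [Ring A] {v : Valuation A (WithZero (Multiplicative ℤ))}

theorem v_up {a : A} {m l : ℤ} (h : v a ≤ exp m) (e : m ≤ l) : v a ≤ exp l :=
  h.trans (exp_le_exp.2 e)

theorem v_mul {a b : A} {m l : ℤ} (h : v a ≤ exp m) (k : v b ≤ exp l) : v (a * b) ≤ exp (m + l) := by
  rw [map_mul, exp_add]
  exact mul_le_mul' h k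

theorem v_eq {a b : A} {m l : ℤ} (h : v a = exp m) (k : v b = exp l) : v (a * b) = exp (m + l) := by
  rw [map_mul, exp_add, h, k]

theorem v_cl {a b : A} {m l : ℤ} (h : v a = exp m) (k : v (a * b) ≤ exp (m + l)) : v b ≤ exp l := by
  rw [map_mul, exp_add, h] at k
  exact le_of_mul_le_mul_left k exp_pos

theorem v_cr {a b : A} {m l : ℤ} (h : v b = exp l) (k : v (a * b) ≤ exp (m + l)) : v a ≤ exp m := by
  rw [map_mul, exp_add, h] at k
  exact le_of_mul_le_mul_right k exp_pos

theorem v_lt {a : A} {m : ℤ} (h : v a < exp m) : v a ≤ exp (m - 1) := by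
  by_cases e : v a = 0
  · simp [e]
  · exact le_exp_of_log_le (Int.le_sub_one_of_lt ((log_lt_iff_lt_exp e).2 h))

theorem v_sum {ι : Type*} [Fintype ι] {f : ι → A} {m : ℤ} (h : ∀ i, v (f i) ≤ exp m) :
    v (∑ i, f i) ≤ exp m := v.map_sum_le fun i _ => h i

theorem v_bd {ι : Type*} [Finite ι] (f : ι → A) : ∃ m : ℕ, ∀ i, v (f i) ≤ exp (m : ℤ) := by
  obtain ⟨m, h⟩ := (Set.finite_range fun i => (log (v (f i))).toNat).bddAbove
  exact ⟨m, fun i => le_exp_of_log_le (Int.toNat_le.1 (h ⟨i, rfl⟩))⟩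

variable (v) in
/-- The Ore condition for leading terms. -/
def Ore : Prop := ∀ a b, v a ≠ 0 → v b ≠ 0 → ∃ p q, v (p * a - q * b) < v (p * a)

variable (h : Ore v)
include h

theorem Ore.apx {a b : A} {α : ℤ} (ha : v a ≤ exp α) (hb : v b ≠ 0) (r : ℕ) :
    ∃ p q e, v p = exp e ∧ v (p * a - q * b) ≤ exp (e + α - r) := by
  induction r with
  | zero => exact ⟨1, 0, 0, map_one v, by simpa using ha⟩
  | succ r ih =>
    obtain ⟨p, q, e, c, d⟩ := ih
    by_cases z : v (p * a - q * b) = 0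
    · exact ⟨p, q, e, c, by simp [z]⟩
    obtain ⟨p', q', f⟩ := h _ b z hb
    have g : v p' = exp (log (v p')) := (exp_log fun g => by simp [g] at f).symm
    refine ⟨p' * p, p' * q + q', _, v_eq g c, ?_⟩
    rw [show p' * p * a - (p' * q + q') * b = p' * (p * a - q * b) - q' * b by noncomm_ring]
    exact v_up (v_lt (f.trans_le (v_mul g.le d))) (by push_cast; omega)

theorem Ore.apx' {a b : A} {α β : ℤ} (ha : v a ≤ exp α) (hb : v b = exp β) (r : ℕ) :
    ∃ p q e, v p = exp e ∧ v q ≤ exp (e + α - β) ∧ v (p * a - q * b) ≤ exp (e + α - r) := by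
  obtain ⟨p, q, e, c, d⟩ := h.apx ha (hb ▸ exp_ne_zero) r
  refine ⟨p, q, e, c, v_cr hb ?_, d⟩
  rw [← sub_sub_cancel (p * a) (q * b), sub_add_cancel]
  exact v.map_sub_le (v_mul c.le ha) (v_up d (by omega))

/-- More than `n` vectors are dependent up to any order. -/
theorem Ore.dep (n : ℕ) (x : Fin (n + 1) → Fin n → A) (m : Fin (n + 1) → ℤ) (R : ℤ) :
    ∃ (c : Fin (n + 1) → A) (μ : ℤ), (∀ i, v (c i) ≤ exp (μ - m i)) ∧
      (∃ i, v (c i) = exp (μ - m i)) ∧ ∀ j, v (∑ i, c i * x i j) ≤ exp (μ - R) := by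
  induction n with
  | zero => exact ⟨fun _ => 1, m 0, fun i => by simp [Fin.eq_zero i], ⟨0, by simp⟩, nofun⟩
  | succ n ih =>
    obtain ⟨s, hs⟩ : ∃ s, ∀ i, ∃ p q e, v p = exp e ∧
        v (p * x i 0 - q * x s 0) ≤ exp (e + m i - R) := by
      by_cases z : ∀ i, v (x i 0) = 0
      · exact ⟨0, fun i => ⟨1, 0, 0, map_one v, by simp [z]⟩⟩
      obtain ⟨s, z⟩ := not_forall.1 z
      refine ⟨s, fun i => ?_⟩
      obtain ⟨p, q, e, c, d⟩ := h.apx (le_exp_log (x := v (x i 0))) z
        (log (v (x i 0)) - m i + R).toNat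
      exact ⟨p, q, e, c, v_up d (by omega)⟩
    choose p q e hp hq using hs
    obtain ⟨c, μ, a, ⟨i₀, b⟩, d⟩ := ih (fun i j => p (s.succAbove i) * x (s.succAbove i) j.succ -
      q (s.succAbove i) * x s j.succ) fun i => m (s.succAbove i) + e (s.succAbove i)
    let c' : Fin (n + 2) → A := Fin.insertNth s (-∑ i, c i * q (s.succAbove i))
      fun i => c i * p (s.succAbove i)
    have k (j) : ∑ i, c' i * x i j = ∑ i, c i * (p (s.succAbove i) * x (s.succAbove i) j -
        q (s.succAbove i) * x s j) := by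
      simp only [Fin.sum_univ_succAbove _ s, c', Fin.insertNth_apply_same,
        Fin.insertNth_apply_succAbove, mul_sub, Finset.sum_sub_distrib, neg_mul, Finset.sum_mul,
        mul_assoc]
      abel
    obtain ⟨t, ht⟩ := Finite.exists_max fun i => v (c' i) * exp (m i)
    have u : exp μ ≤ v (c' t) * exp (m t) := by
      refine Eq.trans_le ?_ (ht (s.succAbove i₀))
      simp only [c', Fin.insertNth_apply_succAbove, v_eq b (hp _), ← exp_add, exp_inj]
      omega
    have z : v (c' t) * exp (m t) ≠ 0 := (exp_pos.trans_le u).ne'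
    rw [← exp_log z] at ht u
    refine ⟨c', log (v (c' t) * exp (m t)), fun i => ?_, ⟨t, ?_⟩, fun j => ?_⟩
    · rw [exp_sub, le_div_iff₀ exp_pos]
      exact ht i
    · rw [exp_sub, exp_log z, mul_div_cancel_right₀ _ exp_ne_zero]
    · have := exp_le_exp.1 u
      rw [k]
      cases j using Fin.cases with
      | zero => exact v_sum fun i => v_up (v_mul (a i) (hq _)) (by omega)
      | succ j => exact v_up (d j) (by omega)

end Pool.Agent.Lib.MP_5d3e93_al.Nc
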