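import Pool.Agent.Lib.MP_5d3e93_al.K.NcA
import Pool.Agent.Lib.MP_5d3e93_al.K.NcB

/-! The modular lattice of saturated filtrations on a free module. -/

open WithZero Matrix

namespace Pool.Agent.Lib.MP_5d3e93_al.Nc

universe w w'

variable {A : Type w} [Ring A] (v : Valuation A (WithZero (Multiplicative ℤ))) (n : ℕ)

/-- Saturated filtrations at bounded distance from the standard one. -/
@[ext]
structure Sf (h : Ore v) : Type w where
  s : ℤ → (Fin n → A) → Prop
  add : ∀ {m x y}, s m x → s m y → s m (x + y)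
  smul : ∀ {m x a e}, v a ≤ exp e → s m x → s (m + e) (a • x)
  sat : ∀ {m x a e}, v a = exp e → s (m + e) (a • x) → s m x
  bd : ∃ c : ℕ, ∀ m x, ((∀ i, v (x i) ≤ exp m) → s (m + c) x) ∧
    (s m x → ∀ i, v (x i) ≤ exp (m + c))

variable {v n} {h : Ore v}

namespace Sf

variable (L L' : Sf v n h) {m l : ℤ} {x y : Fin n → A}

theorem up {L : Sf v n h} (a : L.s m x) (e : m ≤ l) : L.s l x := by
  simpa using L.smul (a := 1) (e := l - m) (v_up (m := 0) (map_one v).le (by omega)) a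

theorem sub {L : Sf v n h} (a : L.s m x) (b : L.s m y) : L.s m (x - y) := by
  simpa [sub_eq_add_neg] using L.add a (up (L.smul (a := -1) (e := 0) (by simp) b) (by omega))

theorem all (x) (m : ℤ) : ∃ r : ℕ, L.s (m + r) x := by
  obtain ⟨c, a⟩ := L.bd
  obtain ⟨k, b⟩ := v_bd (v := v) x
  exact ⟨(k + c - m).toNat, up ((a k x).1 b) (by omega)⟩

theorem zero (m : ℤ) : L.s m 0 := by
  obtain ⟨c, a⟩ := L.bd
  simpa using (a (m - c) 0).1 (by simp)

theorem sum {ι : Type*} [Fintype ι] {f : ι → Fin n → A} (a : ∀ i, L.s m (f i)) :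
    L.s m (∑ i, f i) := Finset.sum_induction f _ (fun _ _ => L.add) (L.zero m) fun i _ => a i

instance : PartialOrder (Sf v n h) := PartialOrder.lift s fun _ _ => Sf.ext

/-- The standard filtration. -/
def std : Sf v n h where
  s m x := ∀ i, v (x i) ≤ exp m
  add a b i := v.map_add_le (a i) (b i)
  smul a b i := v_up (v_mul a (b i)) (by omega)
  sat a b i := v_cl a (v_up (b i) (by omega))
  bd := ⟨0, by simp⟩

/-- The intersection. -/
def mn : Sf v n h where
  s m x := L.s m x ∧ L'.s m x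
  add a b := ⟨L.add a.1 b.1, L'.add a.2 b.2⟩
  smul a b := ⟨L.smul a b.1, L'.smul a b.2⟩
  sat a b := ⟨L.sat a b.1, L'.sat a b.2⟩
  bd := by
    obtain ⟨c, a⟩ := L.bd
    obtain ⟨c', b⟩ := L'.bd
    exact ⟨c + c', fun m x => ⟨fun d => ⟨up ((a m x).1 d) (by omega), up ((b m x).1 d) (by omega)⟩,
      fun d i => v_up ((a m x).2 d.1 i) (by omega)⟩⟩

/-- The saturated sum. -/
def mx : Sf v n h where
  s m x := ∃ a e y, v a = exp e ∧ L.s (m + e) y ∧ L'.s (m + e) (a • x - y)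
  add := fun {m x y} ⟨a, e, z, a1, a2, a3⟩ ⟨b, f, u, b1, b2, b3⟩ => by
    obtain ⟨r, c⟩ := L.all y m
    obtain ⟨p, q, g, d1, d2, d3⟩ := h.apx' a1.le b1 r
    refine ⟨p * a, g + e, p • z + q • u + (p * a - q * b) • y, v_eq d1 a1, L.add (L.add
      (up (L.smul d1.le a2) (by omega)) (up (L.smul d2 b2) (by omega)))
      (up (L.smul d3 c) (by omega)), ?_⟩
    rw [show (p * a) • (x + y) - (p • z + q • u + (p * a - q * b) • y) =
      p • (a • x - z) + q • (b • y - u) by simp only [smul_add, smul_sub, sub_smul, mul_smul]; abel]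
    exact L'.add (up (L'.smul d1.le a3) (by omega)) (up (L'.smul d2 b3) (by omega))
  smul := fun {m x b f} b1 ⟨a, e, z, a1, a2, a3⟩ => by
    obtain ⟨r, c⟩ := L.all x m
    obtain ⟨p, q, g, d1, d2, d3⟩ := h.apx' b1 a1 r
    refine ⟨p, g, q • z + (p * b - q * a) • x, d1, L.add (up (L.smul d2 a2) (by omega))
      (up (L.smul d3 c) (by omega)), ?_⟩
    rw [show p • b • x - (q • z + (p * b - q * a) • x) = q • (a • x - z) by
      simp only [smul_sub, sub_smul, mul_smul]; abel]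
    exact up (L'.smul d2 a3) (by omega)
  sat := fun {m x b f} b1 ⟨a, e, z, a1, a2, a3⟩ => ⟨a * b, e + f, z, v_eq a1 b1,
    up a2 (by omega), by rw [mul_smul]; exact up a3 (by omega)⟩
  bd := by
    obtain ⟨c, a⟩ := L.bd
    obtain ⟨c', b⟩ := L'.bd
    refine ⟨c + c', fun m x => ⟨fun d => ⟨1, 0, x, map_one v, up ((a m x).1 d) (by omega),
      by simpa using L'.zero _⟩, fun ⟨p, e, z, a1, a2, a3⟩ i => v_cl a1 ?_⟩⟩
    rw [show p * x i = z i + (p • x - z) i by simp]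
    exact v.map_add_le (v_up ((a _ _).2 a2 i) (by omega)) (v_up ((b _ _).2 a3 i) (by omega))

instance : Lattice (Sf v n h) where
  sup := mx
  inf := mn
  le_sup_left L L' m x a := ⟨1, 0, x, map_one v, by simpa using a, by simpa using L'.zero _⟩
  le_sup_right L L' m x a := ⟨1, 0, 0, map_one v, L.zero _, by simpa using a⟩
  sup_le L L' Z a b m x := fun ⟨p, e, z, a1, a2, a3⟩ =>
    Z.sat a1 (by simpa using Z.add (a _ _ a2) (b _ _ a3))
  inf_le_left _ _ _ _ a := a.1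
  inf_le_right _ _ _ _ a := a.2
  le_inf _ _ _ a b m x c := ⟨a m x c, b m x c⟩

instance : IsModularLattice (Sf v n h) := ⟨fun {_} _ {Z} a _ _ ⟨⟨p, e, z, a1, a2, a3⟩, b⟩ =>
  ⟨p, e, z, a1, a2, a3, sub (Z.smul a1.le b) (a _ _ a2)⟩⟩

/-- The shift by an integer. -/
def sh (k : ℤ) : Sf v n h where
  s m x := L.s (m - k) x
  add := L.add
  smul a b := up (L.smul a b) (by omega)
  sat a b := L.sat a (up b (by omega))
  bd := by
    obtain ⟨c, a⟩ := L.bd
    exact ⟨c + k.natAbs, fun m x => ⟨fun d => up ((a m x).1 d) (by omega),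
      fun d i => v_up ((a _ x).2 d i) (by omega)⟩⟩

variable (v n h) in
/-- The shift. -/
def pi : Sf v n h ≃o Sf v n h where
  toFun L := L.sh 1
  invFun L := L.sh (-1)
  left_inv L := by ext; simp [sh]
  right_inv L := by ext; simp [sh]
  map_rel_iff' := ⟨fun a m x b => by simpa [sh] using a (m + 1) x (by simpa [sh] using b),
    fun a m => a (m - 1)⟩

theorem pi_pow (k : ℕ) : (pi v n h ^ k) L = L.sh k := by
  induction k with
  | zero => ext; simp [sh]
  | succ k ih =>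
    rw [pow_succ', RelIso.mul_apply, ih]
    ext
    simp [pi, sh, sub_sub, add_comm]

theorem pi_le : pi v n h L ≤ L := fun _ _ a => up a (by omega)

theorem pi_arch : ∃ k : ℕ, (pi v n h ^ k) L ≤ L' := by
  obtain ⟨c, a⟩ := L.bd
  obtain ⟨c', b⟩ := L'.bd
  exact ⟨c + c', (pi_pow ..).trans_le fun m x d => up ((b _ x).1 ((a _ x).2 d)) (by omega)⟩

theorem ort {k : ℕ} {Z : Sf v n h} (a : Ch (pi v n h L) k Z) (b : Z ≤ L) :
    ∃ (x : Fin k → Fin n → A) (m : Fin k → ℤ), (∀ i, Z.s (m i) (x i)) ∧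
      ∀ (c : Fin k → A) (μ : ℤ), (∀ i, v (c i) ≤ exp (μ - m i)) → L.s (μ - 1) (∑ i, c i • x i) →
        ∀ i, v (c i) ≠ exp (μ - m i) := by
  induction a with
  | base _ => exact ⟨nofun, nofun, nofun, nofun⟩
  | @step k Y Z a d ih =>
    obtain ⟨x, m, p, q⟩ := ih (d.le.trans b)
    obtain ⟨l, y, e, f⟩ : ∃ l y, Z.s l y ∧ ¬ Y.s l y := by
      by_contra! r
      exact d.not_ge r
    refine ⟨Fin.cons y x, Fin.cons l m, Fin.cases e fun i => d.le _ _ (p i), fun c μ r s => ?_⟩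
    rw [Fin.sum_univ_succ] at s
    have t : v (c 0) ≠ exp (μ - l) := fun t => f (Y.sat t (by
      simpa using sub (a.le μ _ s) (Y.sum fun i => up (Y.smul (r i.succ) (p i)) (by simp))))
    refine Fin.cases t (q (fun i => c i.succ) μ (fun i => r i.succ) ?_)
    simpa using sub s (up (L.smul (v_lt ((r 0).lt_of_ne t)) (b _ _ e)) (by simp; omega))

theorem fin : ¬ Ch (pi v n h L) (n + 1) L := fun a => by
  obtain ⟨x, m, -, q⟩ := L.ort a le_rfl
  obtain ⟨b, d⟩ := L.bd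
  obtain ⟨c, μ, p, ⟨i, r⟩, s⟩ := h.dep n x m (b + 1)
  exact q c μ p (up ((d (μ - (b + 1)) _).1 fun j => by
    rw [Finset.sum_apply]
    exact s j) (by omega)) i r

/-- The action of an invertible matrix. -/
def act (g : GL (Fin n) A) : Sf v n h where
  s m x := L.s m (x ᵥ* g.1)
  add a b := by simpa [add_vecMul] using L.add a b
  smul a b := by simpa [smul_vecMul] using L.smul a b
  sat a b := L.sat a (by simpa [smul_vecMul] using b)
  bd := by
    obtain ⟨c, a⟩ := L.bd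
    obtain ⟨k, b⟩ := v_bd (v := v) fun i : Fin n × Fin n => g.1 i.1 i.2
    obtain ⟨k', b'⟩ := v_bd (v := v) fun i : Fin n × Fin n => (g⁻¹).1 i.1 i.2
    refine ⟨c + k + k', fun m x => ⟨fun d => up ((a (m + k) _).1 fun j =>
      v_sum fun i => v_mul (d i) (b (i, j))) (by omega), fun d j => ?_⟩⟩
    rw [show x = (x ᵥ* g.1) ᵥ* (g⁻¹).1 by simp]
    exact v_sum fun i => v_up (v_mul ((a _ _).2 d i) (b' (i, j))) (by omega)

instance : MulAction (GL (Fin n) A) (Sf v n h) where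
  smul g L := L.act g
  one_smul L := Sf.ext (by ext m x; exact iff_of_eq (congrArg (L.s m) (vecMul_one x)))
  mul_smul g k L := Sf.ext (by
    ext m x
    exact iff_of_eq (congrArg (L.s m) (vecMul_vecMul x g.1 k.1).symm))

theorem stab : ∃ c : ℤ, ∀ g : GL (Fin n) A, g • L = L → ∀ i j, v (g.1 i j) ≤ exp c := by
  obtain ⟨c, a⟩ := L.bd
  refine ⟨0 + c + c, fun g e i j => ?_⟩
  have b := (a 0 (Pi.single i 1)).1 fun k => by
    rw [Pi.single_apply]
    split_ifs <;> simp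
  rw [← e] at b
  have := (a _ _).2 b j
  rwa [single_one_vecMul] at this

end Sf

theorem ex_val (h : Ore v) {G : Type w'} [Group G] (φ : G →* GL (Fin n) A) :
    ∃ (X : Type w) (_ : Lattice X) (_ : Nonempty X) (_ : MulAction G X)
      (π : X ≃o X) (cov : X → ℤ) (χ : G → ℤ) (N : ℕ),
      (∀ (g : G) (x y : X), x ≤ y → g • x ≤ g • y) ∧ (∀ (g : G) x, π (g • x) = g • π x) ∧
      (∀ x, π x ≤ x) ∧ (∀ x y, ∃ m : ℕ, (π ^ m) x ≤ y) ∧ StrictAnti cov ∧
      (∀ x y, cov (x ⊔ y) + cov (x ⊓ y) = cov x + cov y) ∧ (∀ x, cov (π x) = cov x + N) ∧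
      (∀ (g : G) x, cov (g • x) = cov x + χ g) ∧
      ∀ x : X, ∃ c : ℤ, ∀ g, g • x = x → ∀ i j, v ((φ g).1 i j) ≤ exp c := by
  have : Nonempty (Sf v n h) := ⟨.std⟩
  obtain ⟨cov, N, a, b, c, d⟩ := ex_cov (Sf.pi v n h) Sf.pi_le Sf.pi_arch n Sf.fin
  have m (g : GL (Fin n) A) (x y : Sf v n h) (e : x ≤ y) : g • x ≤ g • y := fun _ _ => e _ _
  choose χ e using fun g : G => d ⟨MulAction.toPerm (φ g), fun {x y} =>
    ⟨fun f => by simpa using m (φ g)⁻¹ _ _ f, m _ _ _⟩⟩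
  exact ⟨Sf v n h, inferInstance, this, MulAction.compHom _ φ, Sf.pi v n h, cov, χ, N,
    fun g => m (φ g), fun _ _ => rfl, Sf.pi_le, Sf.pi_arch, a, b, c, e,
    fun x => x.stab.imp fun _ f g => f (φ g)⟩

end Pool.Agent.Lib.MP_5d3e93_al.Nc
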