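import Pool.Agent.Lib.MP_5d3e93_al.K.NcC
import Pool.Agent.Lib.MP_5d3e93_al.K.All
import Pool.Agent.Lib.MP_5d3e93_al.DefsN

/-! Vanishing in all degrees for linear groups over algebras with degree functions. -/

open CategoryTheory Limits WithZero MulAction

namespace Pool.Agent.Lib.MP_5d3e93_al

universe w v u

namespace Nc

variable {G : Type w} [Group G]

/-- Actions on graded lattices with a shift whose stabilisers are bounded. -/
def Dt (N : ℕ) (P : ℤ → G → Prop) : Prop :=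
  ∃ (X : Type w) (_ : Lattice X) (_ : Nonempty X) (_ : MulAction G X)
    (π : X ≃o X) (cov : X → ℤ) (χ : G → ℤ),
    (∀ (g : G) (x y : X), x ≤ y → g • x ≤ g • y) ∧ (∀ (g : G) x, π (g • x) = g • π x) ∧
    (∀ x, π x ≤ x) ∧ (∀ x y, ∃ m : ℕ, (π ^ m) x ≤ y) ∧ StrictAnti cov ∧
    (∀ x y, cov (x ⊔ y) + cov (x ⊓ y) = cov x + cov y) ∧ (∀ x, cov (π x) = cov x + N) ∧
    (∀ (g : G) x, cov (g • x) = cov x + χ g) ∧ ∀ x : X, ∃ c : ℤ, ∀ g, g • x = x → P c g

theorem dt_one : Dt (G := G) 1 fun _ _ => True := by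
  let π : ULift.{w} ℤ ≃o ULift.{w} ℤ := ⟨⟨fun x => ⟨x.1 - 1⟩, fun x => ⟨x.1 + 1⟩,
    fun x => by simp, fun x => by simp⟩, sub_le_sub_iff_right (1 : ℤ)⟩
  have a (m : ℕ) (x) : ((π ^ m) x).1 = x.1 - m := by
    induction m with
    | zero => simp
    | succ m ih => rw [pow_succ', RelIso.mul_apply]; change _ - 1 = _; rw [ih]; omega
  refine ⟨ULift ℤ, inferInstance, inferInstance,
    { smul := fun _ x => x, one_smul := fun _ => rfl, mul_smul := fun _ _ _ => rfl }, π,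
    fun x => -x.1, 0, fun _ _ _ => id, fun _ _ => rfl, fun x => (sub_one_lt x.1).le,
    fun x y => ⟨(x.1 - y.1).toNat, ?_⟩, fun _ _ h => neg_lt_neg h, fun x y => ?_, fun x => ?_,
    fun _ _ => (add_zero _).symm, fun _ => ⟨0, fun _ _ => trivial⟩⟩
  · change ULift.down _ ≤ y.1
    rw [a]
    omega
  · change -max x.1 y.1 + -min x.1 y.1 = -x.1 + -y.1
    omega
  · change -(x.1 - 1) = -x.1 + (1 : ℕ)
    omega

theorem Dt.prod {N N' : ℕ} {P P' Q : ℤ → G → Prop} (h : Dt N P) (h' : Dt N' P')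
    (e : ∀ c c' g, P c g → P' c' g → Q (max c c') g) : Dt (N + N') Q := by
  obtain ⟨X, _, _, _, π, cov, χ, a1, a2, a3, a4, a5, a6, a7, a8, a9⟩ := h
  obtain ⟨Y, _, _, _, π', cov', χ', b1, b2, b3, b4, b5, b6, b7, b8, b9⟩ := h'
  let p : X × Y ≃o X × Y :=
    ⟨π.toEquiv.prodCongr π'.toEquiv, and_congr π.map_rel_iff π'.map_rel_iff⟩
  have a (m : ℕ) (z : X × Y) : (p ^ m) z = ((π ^ m) z.1, (π' ^ m) z.2) := by
    induction m with
    | zero => rfl
    | succ n ih => rw [pow_succ', pow_succ', pow_succ', RelIso.mul_apply, ih]; rfl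
  have an {Z : Type w} [Lattice Z] {π : Z ≃o Z} (h3 : ∀ x, π x ≤ x) {m k : ℕ} (h : m ≤ k) (x) :
      (π ^ k) x ≤ (π ^ m) x := by
    induction h with
    | refl => exact le_rfl
    | step _ ih => rw [pow_succ']; exact (h3 _).trans ih
  refine ⟨X × Y, inferInstance, inferInstance, inferInstance, p, fun z => cov z.1 + cov' z.2,
    χ + χ', fun g _ _ k => ⟨a1 g _ _ k.1, b1 g _ _ k.2⟩, fun g _ => Prod.ext (a2 g _) (b2 g _),
    fun _ => ⟨a3 _, b3 _⟩, fun z z' => ?_, fun z z' k => ?_, fun z z' => ?_, fun z => ?_,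
    fun g z => ?_, fun z => ?_⟩
  · obtain ⟨m, c⟩ := a4 z.1 z'.1
    obtain ⟨k, d⟩ := b4 z.2 z'.2
    exact ⟨m + k, (a ..).le.trans ⟨(an a3 (Nat.le_add_right _ _) _).trans c,
      (an b3 (Nat.le_add_left _ _) _).trans d⟩⟩
  · exact (Prod.lt_iff.1 k).elim (fun c => add_lt_add_of_lt_of_le (a5 c.1) (b5.antitone c.2))
      fun c => add_lt_add_of_le_of_lt (a5.antitone c.1) (b5 c.2)
  · have := a6 z.1 z'.1
    have := b6 z.2 z'.2
    simp only [Prod.fst_sup, Prod.snd_sup, Prod.fst_inf, Prod.snd_inf]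
    omega
  · have := a7 z.1
    have := b7 z.2
    change cov (π z.1) + cov' (π' z.2) = cov z.1 + cov' z.2 + (N + N' : ℕ)
    omega
  · have := a8 g z.1
    have := b8 g z.2
    change cov (g • z.1) + cov' (g • z.2) = cov z.1 + cov' z.2 + (χ g + χ' g)
    omega
  · obtain ⟨c, d⟩ := a9 z.1
    obtain ⟨c', d'⟩ := b9 z.2
    exact ⟨_, fun g k => e _ _ g (d g (congrArg Prod.fst k)) (d' g (congrArg Prod.snd k))⟩

theorem ex_nc {B : Type w} [Ring B] {n : ℕ} {ι : Type} [Finite ι] {A : ι → Type w}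
    [∀ i, Ring (A i)] (f : ∀ i, B →+* A i)
    {v : ∀ i, Valuation (A i) (WithZero (Multiplicative ℤ))} (h : ∀ i, Ore (v i))
    (φ : G →* GL (Fin n) B) : ∃ (X : Type w) (_ : Lattice X) (_ : Nonempty X) (_ : MulAction G X)
      (B : Bg.Bl X), B.Ac G ∧
        ∀ x : X, ∃ c : ℤ, ∀ g, g • x = x → ∀ i j l, v l (f l ((φ g).1 i j)) ≤ exp c := by
  have k (s : Set ι) :
      ∃ N, Dt (1 + N) fun c g => ∀ i j, ∀ l ∈ s, v l (f l ((φ g).1 i j)) ≤ exp c := by
    induction s, s.toFinite using Set.Finite.induction_on with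
    | empty => simpa using ⟨0, dt_one⟩
    | @insert l s _ _ ih =>
      obtain ⟨N, a⟩ := ih
      obtain ⟨X, _, _, _, π, cov, χ, M, b⟩ :=
        ex_val (h l) ((Units.map (f l).mapMatrix.toMonoidHom).comp φ)
      exact ⟨N + M, add_assoc 1 N M ▸ a.prod ⟨X, _, ‹_›, _, π, cov, χ, b⟩
        fun c c' g p q i j => Set.forall_mem_insert.2 ⟨v_up (q i j) (le_max_right ..),
          fun l e => v_up (p i j l e) (le_max_left ..)⟩⟩
  obtain ⟨N, X, _, _, _, π, cov, χ, a1, a2, a3, a4, a5, a6, a7, a8, a9⟩ := k .univ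
  obtain ⟨Y, _, _, _, B, b, c⟩ := Bg.ex_bl π cov χ (1 + N) (by omega) a1 a2 a3 a4 a5 a6 a7 a8
  exact ⟨Y, _, ‹_›, _, B, b, fun y => (c y).elim fun x d => (a9 x).imp
    fun _ e g f i j l => e g (d g f) i j l trivial⟩

end Nc

theorem nc_id {H : Type w} [Group H] : Hyper (MonoidHom.id H).ker :=
  hyper_comm fun x y => Subtype.ext ((congrArg₂ (· * ·) x.2 y.2).trans
    (congrArg₂ (· * ·) y.2 x.2).symm)

theorem nc_inj {H H' : Type w} [Group H] [Group H'] {j : H' →* H} (a : Function.Injective j) :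
    Hyper j.ker := rg_comap a nc_id fun _ => id

/-- The family of good subgroups. -/
def Fam.gd (G : Type w) [Group G] : Fam G where
  m H := GoodOver.{w, v, u} H
  le h := .pull _ (nc_inj (Subgroup.inclusion_injective h))
  conj {H} g := .pull (H.equivMapOfInjective _ (MulAut.conj g).injective).symm.toMonoidHom
    (nc_inj (MulEquiv.injective _))

theorem nc_pair {k L G R : Type w} [Field k] [Group L] [Group G] [Ring R] [Algebra k R]
    (hL : GoodOver.{w, v, u} L) (φ : G →* Rˣ) (χ : G →* L) (hφ : Hyper ↥(φ.ker ⊓ χ.ker))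
    (N : Subgroup G) (hf : Module.Finite k (Submodule.span k ((fun g => (φ g : R)) '' N))) (t : G)
    (ht : t ∈ Subgroup.normalizer (N : Set G)) :
    GoodOver.{w, v, u} ↥(N ⊔ Subgroup.zpowers t) := by
  let V := N ⊔ Subgroup.zpowers t
  let t' : V := ⟨t, Subgroup.mem_sup_right (Subgroup.mem_zpowers t)⟩
  have e : (fun g => ((φ.comp V.subtype) g : R)) '' (N.subgroupOf V) =
      (fun g => (φ g : R)) '' N := Set.ext fun _ => ⟨fun ⟨g, a, b⟩ => ⟨g, a, b⟩,
        fun ⟨g, a, b⟩ => ⟨⟨g, Subgroup.mem_sup_left a⟩, a, b⟩⟩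
  obtain ⟨m, q, c⟩ := ex_aut (k := k) (φ.comp V.subtype) (N.subgroupOf V) t' (by
    refine Subgroup.map_injective V.subtype_injective (le_antisymm (Subgroup.map_mono le_top) ?_)
    refine (Subgroup.map_subtype_le _).trans (sup_le (fun g a => ?_) (Subgroup.zpowers_le.2 ?_))
    · exact ⟨⟨g, Subgroup.mem_sup_left a⟩, Subgroup.subset_closure (.inr a), rfl⟩
    · exact ⟨t', Subgroup.subset_closure (.inl rfl), rfl⟩) (e ▸ hf) fun g a =>
      Submodule.subset_span ⟨t' * g * t'⁻¹, (Subgroup.mem_normalizer_iff.1 ht g).1 a, rfl⟩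
  refine (hL.step (fun _ _ _ _ _ M => glq M) Bg.linK m).pull (q.prod (χ.comp V.subtype)) ?_
  rw [MonoidHom.ker_prod]
  exact Hyper.ext' (φ.comp V.subtype)
    (rg_comap V.subtype_injective hφ fun _ a => ⟨a.2, a.1.2⟩)
    (hyper_comm fun ⟨_, x, a, rfl⟩ ⟨_, y, b, rfl⟩ => Subtype.ext (c x a.1 y b.1))

theorem GoodOver.deg {L A : Type w} [Group L] [Ring A] (hA : Deg A) (n : ℕ)
    (hL : GoodOver.{w, v, u} L) : GoodOver.{w, v, u} (GL (Fin n) A × L) := by
  intro G _ ψ a C _ _ _ _ σ hs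
  obtain ⟨k, _, _, r, A', _, f', d, o, f⟩ := hA
  have b : Hyper ↥(((MonoidHom.fst _ _).comp ψ).ker ⊓ ((MonoidHom.snd _ _).comp ψ).ker) :=
    a.le fun _ c => Prod.ext c.1 c.2
  obtain ⟨X, _, _, _, B, _, e⟩ := Nc.ex_nc f' o ((MonoidHom.fst _ _).comp ψ)
  refine Bg.kz_lat.{w, v, u} (𝓕 := Fam.gd.{w, v, u} G) (okf_of_class (fun H _ => GoodOver.{w, v, u} H)
    (fun _ _ _ _ j c => .pull j (nc_inj c)) (fun H _ => .pull (.fst _ _) ?_)
    (fun H _ c => c H _ nc_id) hs fun _ => id) B fun x =>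
    Fam.tame_of_span (k := k) ((Units.coeHom _).comp ((MonoidHom.fst _ _).comp ψ))
      (nc_pair hL _ _ b) _ ?_
  · exact hyper_comm fun x y => Subtype.ext (Prod.ext ((congrArg₂ (· * ·) x.2 y.2).trans
      (congrArg₂ (· * ·) y.2 x.2).symm) (mul_comm _ _))
  · obtain ⟨c, e⟩ := e x
    have := f (exp c)
    let j : Matrix (Fin n) (Fin n) (Submodule.span k {a | ∀ i, d i (f' i a) ≤ exp c}) →ₗ[k]
      Matrix (Fin n) (Fin n) A := (Submodule.subtype _).mapMatrix
    refine Submodule.finiteDimensional_of_le (S₂ := LinearMap.range j) (Submodule.span_le.2 ?_)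
    rintro _ ⟨g, p, rfl⟩
    exact ⟨fun s t => ⟨_, Submodule.subset_span (e g p s t)⟩, rfl⟩

theorem kz_nc {G : Type w} [Group G] (hG : ∀ H : Subgroup G, H.FG → ∃ (R : Type w)
    (_ : CommRing R) (s n : ℕ) (A : Fin s → Type w) (_ : ∀ i, Ring (A i))
    (φ : H →* GL (Fin n) R × ∀ i, GL (Fin n) (A i)), (∀ i, Deg (A i)) ∧ Hyper φ.ker)
    {C : Type u} [Category.{v} C] [Preadditive C] [HasBinaryBiproducts C] [HasZeroObject C]
    {σ : Act G C} (hs : Sw σ) : KZ σ := by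
  have hm : ∀ (g : G) (a b : PUnit.{w + 1}), a ≤ b → g • a ≤ g • b := fun _ _ _ _ => le_rfl
  refine kz_loc (hm := hm) PUnit.unit (fun _ => le_rfl) (kz_fg fun H a => ?_)
  obtain ⟨R, _, s, n, A, _, φ, b, c⟩ := hG H a
  refine (?_ : GoodOver.{w, v, u} _) H φ c _ _ ((hs.act hm).comap _)
  clear c φ
  induction s with
  | zero =>
    exact fun Γ _ ψ c D _ _ _ _ τ t => kz_all (fun U _ => ⟨R, _, n,
      ((MonoidHom.fst _ _).comp ψ).comp U.subtype, rg_comap U.subtype_injective c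
        fun _ d => Prod.ext d (Subsingleton.elim ..)⟩) t
  | succ s ih =>
    refine ((ih (fun i => A i.succ) _ fun i => b i.succ).deg (b 0) n).pull
      (((Pi.evalMonoidHom _ 0).comp (.snd _ _)).prod ((MonoidHom.fst _ _).prod
        (MonoidHom.pi fun i => (Pi.evalMonoidHom _ (Fin.succ i)).comp (.snd _ _))))
      (nc_inj fun x y e => Prod.ext (congrArg (·.2.1) e) (funext (Fin.cases (congrArg (·.1) e)
        fun i => congrArg (·.2.2 i) e)))

end Pool.Agent.Lib.MP_5d3e93_al
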