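import Pool.Agent.Lib.MP_5d3e93_al.DefsN

/-! Free algebras have degree functions. -/

open WithZero MonoidAlgebra

namespace Pool.Agent.Lib.MP_5d3e93_al

universe w

namespace Nc

/-- The wreath product of the integers with the integers. -/
abbrev Wr := RegularWreathProduct (Multiplicative ℤ) (Multiplicative ℤ)

variable {k : Type w} [Field k]

/-- The degree. -/
noncomputable def wd (a : MonoidAlgebra k Wr) : WithZero (Multiplicative ℤ) :=
  a.coeff.support.sup fun m => m.right

theorem wd_le {a : MonoidAlgebra k Wr} {c} :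
    wd a ≤ c ↔ ∀ m ∈ a.coeff.support, (m.right : WithZero _) ≤ c := Finset.sup_le_iff

theorem wd_top {a : MonoidAlgebra k Wr} (h : a ≠ 0) : ∃ m ∈ a.coeff.support, wd a = m.right :=
  Finset.exists_mem_eq_sup _ (Finsupp.support_nonempty_iff.2 (mt coeff_eq_zero.1 h)) _

theorem wd_mul (a b : MonoidAlgebra k Wr) : wd (a * b) = wd a * wd b := by
  classical
  obtain rfl | ha := eq_or_ne a 0
  · simp [wd]
  obtain rfl | hb := eq_or_ne b 0
  · simp [wd]
  refine le_antisymm (wd_le.2 fun m h => ?_) ?_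
  · obtain ⟨x, p, y, q, rfl⟩ := Finset.mem_mul.1 (support_coeff_mul_subset a b h)
    exact (coe_mul ..).le.trans (mul_le_mul' (wd_le.1 le_rfl x p) (wd_le.1 le_rfl y q))
  obtain ⟨s, p, e⟩ := wd_top ha
  obtain ⟨t, q, f⟩ := wd_top hb
  obtain ⟨_, c, _, d, u⟩ := UniqueProds.uniqueMul_of_nonempty
    (A := (a.coeff.support.filter (·.right = s.right)).image (·.left))
    (B := (b.coeff.support.filter (·.right = t.right)).image fun y z => y.left (s.right⁻¹ * z))
    ⟨_, Finset.mem_image_of_mem _ (Finset.mem_filter.2 ⟨p, rfl⟩)⟩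
    ⟨_, Finset.mem_image_of_mem _ (Finset.mem_filter.2 ⟨q, rfl⟩)⟩
  simp only [Finset.mem_image, Finset.mem_filter] at c d
  obtain ⟨x, c, rfl⟩ := c
  obtain ⟨y, d, rfl⟩ := d
  have : UniqueMul a.coeff.support b.coeff.support x y := fun x' y' p' q' h => by
    have h1 : x'.right ≤ s.right := coe_le_coe.1 (e ▸ wd_le.1 le_rfl x' p')
    have h2 : y'.right ≤ t.right := coe_le_coe.1 (f ▸ wd_le.1 le_rfl y' q')
    obtain ⟨h1, h2⟩ := (mul_eq_mul_iff_eq_and_eq h1 h2).1
      (by rw [← c.2, ← d.2]; exact congrArg (·.right) h)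
    obtain ⟨h3, -⟩ := u (Finset.mem_image_of_mem _ (Finset.mem_filter.2 ⟨p', h1⟩))
      (Finset.mem_image_of_mem _ (Finset.mem_filter.2 ⟨q', h2⟩))
      (by simpa [h1, c.2] using congrArg (·.left) h)
    obtain rfl : x' = x := RegularWreathProduct.ext h3 (h1.trans c.2.symm)
    exact ⟨rfl, mul_left_cancel h⟩
  rw [e, f, ← c.2, ← d.2]
  exact wd_le.1 le_rfl (x * y) (Finsupp.mem_support_iff.2 (coeff_mul_mul_of_uniqueMul this ▸
    mul_ne_zero (Finsupp.mem_support_iff.1 c.1) (Finsupp.mem_support_iff.1 d.1)))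

theorem wd_single (m : Wr) {c : k} (h : c ≠ 0) : wd (single m c) = m.right := by
  simp [wd, Finsupp.support_single _ h]

variable (k) in
/-- The degree valuation. -/
noncomputable def wv : Valuation (MonoidAlgebra k Wr) (WithZero (Multiplicative ℤ)) where
  toFun := wd
  map_zero' := rfl
  map_one' := wd_single 1 one_ne_zero
  map_mul' := wd_mul
  map_add_le_max' a b := by
    classical
    exact wd_le.2 fun m h => (Finset.mem_union.1 (Finsupp.support_add h)).elim
      (fun c => le_max_of_le_left (wd_le.1 le_rfl m c))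
      fun c => le_max_of_le_right (wd_le.1 le_rfl m c)

theorem wv_comm {a b : MonoidAlgebra k Wr} (ha : wv k a ≤ 1) (hb : wv k b ≤ 1) :
    wv k (b * a - a * b) < 1 := by
  rw [mul_def, mul_def, Finsupp.sum_comm a.coeff, Finsupp.sum, Finsupp.sum,
    ← Finset.sum_sub_distrib]
  refine Valuation.map_sum_lt _ one_ne_zero fun y q => ?_
  rw [Finsupp.sum, Finsupp.sum, ← Finset.sum_sub_distrib]
  refine Valuation.map_sum_lt _ one_ne_zero fun x p => ?_
  have h1 : x.right ≤ 1 := coe_le_coe.1 (wd_le.1 ha x p)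
  have h2 : y.right ≤ 1 := coe_le_coe.1 (wd_le.1 hb y q)
  have c := mul_ne_zero (Finsupp.mem_support_iff.1 p) (Finsupp.mem_support_iff.1 q)
  rw [mul_comm (b.coeff y)]
  obtain h | h := (mul_le_one' h1 h2).eq_or_lt
  · obtain ⟨h1, h2⟩ := (mul_eq_mul_iff_eq_and_eq h1 h2).1 (h.trans (mul_one 1).symm)
    rw [show y * x = x * y by ext <;> simp [h1, h2, mul_comm], sub_self, map_zero]
    exact zero_lt_one
  · exact Valuation.map_sub_lt _ ((wd_single _ c).trans_lt (coe_lt_coe.2 ((mul_comm ..).trans_lt h)))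
      ((wd_single _ c).trans_lt (coe_lt_coe.2 h))

theorem wv_ore (a b) (ha : wv k a ≠ 0) (hb : wv k b ≠ 0) :
    ∃ p q, wv k (p * a - q * b) < wv k (p * a) := by
  have n {a} (h : wv k a ≠ 0) : ∃ u, wv k (u * a) = 1 := by
    obtain ⟨m, -, e⟩ := wd_top (a := a) (by rintro rfl; exact h (map_zero _))
    exact ⟨single m⁻¹ 1, (wd_mul ..).trans (by rw [wd_single _ one_ne_zero, e]; simp)⟩
  obtain ⟨s, e⟩ := n ha
  obtain ⟨t, f⟩ := n hb
  refine ⟨t * b * s, s * a * t, ?_⟩
  rw [mul_assoc _ s, mul_assoc _ t, map_mul, e, f, one_mul]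
  exact wv_comm e.le f.le

variable {d : ℕ}

/-- The free monoid in the wreath product. -/
def fw : FreeMonoid (Fin d) →* Wr :=
  FreeMonoid.lift fun i => ⟨Pi.mulSingle 1 (.ofAdd (i : ℕ)), .ofAdd 1⟩

theorem fw_lt : (Multiplicative.ofAdd (1 : ℤ))⁻¹ < 1 := by decide

theorem fw_sp (x : FreeMonoid (Fin d)) :
    (fw x).right = .ofAdd (x.length : ℤ) ∧ ∀ q < 1, (fw x).left q = 1 := by
  induction x using FreeMonoid.inductionOn' with
  | one => simp
  | of_mul i x ih =>
    refine ⟨by simp [fw] at ih ⊢; simp [ih.1], fun q h => ?_⟩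
    rw [map_mul, fw, FreeMonoid.lift_eval_of]
    exact mul_eq_one_iff_eq_inv.2 ((Pi.mulSingle_eq_of_ne h.ne _).trans (inv_eq_one.2
      (ih.2 _ (mul_lt_one_of_lt_of_le fw_lt h.le))).symm)

theorem fw_of (i : Fin d) (x) : (fw (.of i * x)).left 1 = .ofAdd ((i : ℕ) : ℤ) := by
  have := (fw_sp x).2 _ fw_lt
  rw [map_mul]
  simpa [fw] using this

theorem fw_inj : Function.Injective (fw (d := d)) := fun x y h => by
  have l (x y : FreeMonoid (Fin d)) (h : fw x = fw y) : x.length = y.length := by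
    simpa [(fw_sp _).1] using congrArg (·.right) h
  induction x using FreeMonoid.inductionOn' generalizing y with
  | one => exact (FreeMonoid.length_eq_zero.1 (l _ _ h).symm).symm
  | of_mul i x ih =>
    induction y using FreeMonoid.inductionOn' with
    | one => exact FreeMonoid.length_eq_zero.1 (l _ _ h)
    | of_mul j y _ =>
      obtain rfl : i = j := Fin.ext (Int.ofNat_inj.1 ((fw_of i x).symm.trans (h ▸ fw_of j y)))
      rw [map_mul, map_mul] at h
      rw [ih _ (mul_left_cancel h)]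

end Nc

theorem deg_free (k : Type w) [Field k] (d : ℕ) : Deg (FreeAlgebra k (Fin d)) := by
  classical
  let e := FreeAlgebra.equivMonoidAlgebraFreeMonoid (R := k) (X := Fin d)
  refine ⟨k, _, inferInstance, 1, _, _, fun _ => (mapDomainRingHom k Nc.fw).comp e.toRingHom,
    fun _ => Nc.wv k, fun _ => Nc.wv_ore, fun c => ?_⟩
  obtain ⟨l, p⟩ : ∃ l : ℕ, c ≤ exp (l : ℤ) := by
    obtain rfl | h := eq_or_ne c 0
    · exact ⟨0, zero_le⟩
    · exact ⟨(log c).toNat, (exp_log h).ge.trans (exp_le_exp.2 (Int.self_le_toNat _))⟩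
  have := Module.Finite.span_of_finite k
    ((List.finite_length_le (Fin d) l).image fun x => e.symm (of k _ (.ofList x)))
  refine Submodule.finiteDimensional_of_le (Submodule.span_le.2 fun b h => ?_) (S₂ := .span k
    ((fun x => e.symm (of k _ (.ofList x))) '' {x | x.length ≤ l}))
  rw [← e.symm_apply_apply b]
  refine Submodule.span_mono ?_ (Submodule.apply_mem_span_image_of_mem_span e.symm.toLinearMap
    (mem_span_support_coeff (e b)))
  rintro _ ⟨_, ⟨x, q, rfl⟩, rfl⟩
  refine ⟨x.toList, ?_, rfl⟩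
  have := (Nc.wd_le.1 (h 0) (Nc.fw x) ((Finsupp.mapDomain_support_of_injective Nc.fw_inj _).ge
    (Finset.mem_image_of_mem _ q))).trans p
  rw [(Nc.fw_sp x).1] at this
  exact Int.ofNat_le.1 (exp_le_exp.1 this)

end Pool.Agent.Lib.MP_5d3e93_al
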