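import Pool.Agent.Lib.MP_5d3e93_al.Gr.LocK
import Pool.Agent.Lib.MP_5d3e93_al.Gr.LocB
import Pool.Agent.Lib.MP_5d3e93_al.Gr.F4b

/-! Binary complexes one of whose total objects vanishes. -/

open CategoryTheory Limits Pretriangulated ZeroObject

set_option linter.unusedSectionVars false

namespace Pool.Agent.Lib.MP_5d3e93_al.K

open Gr

variable {D : Type*} [Category* D] [HasZeroObject D] [HasShift D ℤ] [Preadditive D]
  [∀ n : ℤ, (shiftFunctor D n).Additive] [Pretriangulated D]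
variable {D' : Type*} [Category* D'] [HasZeroObject D'] [HasShift D' ℤ] [Preadditive D']
  [∀ n : ℤ, (shiftFunctor D' n).Additive] [Pretriangulated D']
variable {E : Type*} [Category* E] [HasZeroObject E] [HasShift E ℤ] [Preadditive E]
  [∀ n : ℤ, (shiftFunctor E n).Additive] [Pretriangulated E]

section P4file
variable {ev : ℕ → E ⥤ D} {R : Bool → D ⥤ E} [∀ j, (ev j).CommShift ℤ]
  [∀ j, (ev j).IsTriangulated] [∀ b, (R b).CommShift ℤ] [∀ b, (R b).IsTriangulated]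
  {S : ObjectProperty D}
/-- Bounded binary complexes that are acyclic for the differential `b`. -/
def Nb (ev : ℕ → E ⥤ D) (R : Bool → D ⥤ E) (S : ObjectProperty D) (b : Bool) : ObjectProperty E :=
  fun M => Wd ev S M ∧ ∀ Y (φ : M ⟶ (R b).obj Y), φ = 0

theorem Nb_eq (b : Bool) : Nb ev R S b = Vd ev (fun _ => R b) S :=
  funext fun _ => propext ⟨fun h => ⟨h.1, fun _ => h.2⟩, fun h => ⟨h.1, h.2 true⟩⟩

instance [Tg S] (b : Bool) : Tg (Nb ev R S b) := by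
  rw [Nb_eq]
  infer_instance

theorem Nb_th [Tg S] (b : Bool) (X : E) (h : Wd ev S X) (k : Th (Nb ev R S b) X) : Nb ev R S b X := by
  obtain ⟨Y, -, k⟩ := k
  refine ⟨h, fun Z φ => ?_⟩
  rw [← Category.id_comp φ, ← biprod.inl_fst (X := X) (Y := Y), Category.assoc,
    k Z (biprod.fst ≫ φ), comp_zero]

theorem Nb_inf : Nb ev R S false ⊓ Nb ev R S true = Vd ev R S :=
  funext fun _ => propext ⟨fun h => ⟨h.1.1, fun b => by
    cases b
    exacts [h.1.2, h.2.2]⟩, fun h => ⟨⟨h.1, h.2 false⟩, h.1, h.2 true⟩⟩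

theorem Nb_le (b : Bool) : Vd ev R S ≤ Nb ev R S b := fun _ h => ⟨h.1, h.2 b⟩

theorem p4_pre [Tg S] {b : Bool} {M M' : E} {s : M' ⟶ M} (hs : (Nb ev R S b).trW s) (Y : D) :
    Function.Bijective fun φ : M ⟶ (R b).obj Y => s ≫ φ := by
  constructor
  · obtain ⟨Z, g, h, hT, hZ⟩ := hs
    intro φ ψ e
    obtain ⟨k, hk⟩ := Triangle.yoneda_exact₂ _ hT (φ - ψ) (by
      change s ≫ (φ - ψ) = 0
      rw [Preadditive.comp_sub, sub_eq_zero]
      exact e)
    exact sub_eq_zero.1 (hk.trans ((congrArg (g ≫ ·) (hZ.2 Y k)).trans comp_zero))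
  · obtain ⟨Z, g, h, hT, hZ⟩ := ((Nb ev R S b).trW_iff' s).1 hs
    intro ψ
    obtain ⟨k, hk⟩ := Triangle.yoneda_exact₂ _ hT ψ (hZ.2 Y _)
    exact ⟨k, hk.symm⟩

/-- `Hom (-, R b Y)` inverts `s`. -/
theorem un_comp_iff [Tg S] {b : Bool} {M M' : E} {s : M' ⟶ M} (hs : (Nb ev R S b).trW s) {P : D}
    (u : M ⟶ (R b).obj P) : Un (R b) (s ≫ u) ↔ Un (R b) u := forall_congr' fun Y => by
  rw [← (p4_pre hs Y).of_comp_iff' fun g : P ⟶ Y => u ≫ (R b).map g]
  simp only [Function.comp_def, Category.assoc]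

theorem trW_of_un [Tg S] {b : Bool} {M M' : E} (s : M' ⟶ M) (h' : Wd ev S M') (h : Wd ev S M)
    {P : D} {u : M ⟶ (R b).obj P} (hu : Un (R b) u) (hu' : Un (R b) (s ≫ u)) :
    (Nb ev R S b).trW s := by
  obtain ⟨C, g, k, hC⟩ := distinguished_cocone_triangle s
  exact ObjectProperty.trW.mk _ hC ⟨(Wd ev S).ext_of_isTriangulatedClosed₃ _ hC h' h,
    ac_cone (R := fun _ => R b) hC (fun _ => ⟨P, u, hu, hu'⟩) true⟩

variable (β : Bs ev R) [Tg S] [IsTriangulated E] (z : Subsingleton (K0 S))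
include β z
/-- `tot` gives `P`; `pair` an object with total objects `(P, 0)`; `raise` it above `m` and above
`M`; `f4` gives the map with components `(id, 0)`. -/
theorem key {M : E} (h : Wd ev S M) (m : ℕ) : ∃ (M' : E) (φ : M' ⟶ M),
    (∀ j, j < m → IsZero ((ev j).obj M')) ∧ Nb ev R S false M' ∧ (Nb ev R S true).trW φ := by
  obtain ⟨P, hP, u, hu⟩ := β.tot h true
  obtain ⟨P', -, u', hu'⟩ := β.tot h false
  obtain ⟨A, wA, v, v', hv, hv'⟩ := β.pair hP (Tg.zero S (isZero_zero D)) (Subsingleton.elim _ _)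
  obtain ⟨n, hn⟩ := h.2
  obtain ⟨A', s, l, w⟩ := β.raise wA (max m n)
  have w' : ∀ b, (Nb ev R S b).trW s := fun b => ObjectProperty.trW_monotone (Nb_le b) _ w
  have wA' : Wd ev S A' := (Tg.of_trW (fun _ k => k.1) (w' true)).2 wA
  obtain ⟨φ, hφ⟩ := (β.f4 n hn hu hu' fun j k => l j (lt_max_of_lt_right k)).2 (s ≫ v, 0)
  have e : φ ≫ u = s ≫ v := congrArg Prod.fst hφ
  exact ⟨A', φ, fun j k => l j (lt_max_of_lt_left k),
    ⟨wA', ((un_comp_iff (w' false) v').2 hv').isZero_iff.1 (isZero_zero D)⟩,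
    trW_of_un φ wA' h hu (e ▸ (un_comp_iff (w' true) v).2 hv)⟩

variable {π : E ⥤ D'} [π.CommShift ℤ] [π.IsTriangulated] {S' : ObjectProperty D'}
/-- `LocOn.mono`, `LocOn.verdier` (raise the source, `f4`: both components vanish), `key`. -/
theorem locA (h : Loc π (Nb ev R S true) (Wd ev S) S') :
    Loc π (Vd ev R S) (Nb ev R S false) S' := by
  refine ⟨Nb_inf (ev := ev) (R := R) (S := S) ▸ h.toLocOn.verdier (fun _ k => k.1) ?_,
    fun X a k => ?_, fun X a => h.maps X a.1, fun Y a => ?_⟩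
  · intro X Y f a b
    obtain ⟨P, -, u, hu⟩ := β.tot b.1 true
    obtain ⟨P', -, u', hu'⟩ := β.tot b.1 false
    obtain ⟨n, hn⟩ := b.1.2
    obtain ⟨M, s, l, Z, g, k, hT, hZ⟩ := β.raise a.1 n
    have e : s ≫ f = 0 := (β.f4 n hn hu hu' l).1 (by
      refine Prod.ext ?_ ?_
      · change (s ≫ f) ≫ u = 0 ≫ u
        rw [Category.assoc, a.2 _ (f ≫ u), comp_zero, zero_comp]
      · change (s ≫ f) ≫ u' = 0 ≫ u'
        rw [b.2 _ u', comp_zero, comp_zero])
    obtain ⟨c, hc⟩ := Triangle.yoneda_exact₂ _ hT f e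
    exact ⟨Z, g, c, Nb_le false _ hZ, Nb_le true _ hZ, hc.symm⟩
  · rw [← Nb_inf]
    exact ⟨a, h.thick X a.1 k⟩
  · obtain ⟨X, b, ⟨e⟩⟩ := h.surj Y a
    obtain ⟨M, φ, -, c, w⟩ := key β z b 0
    have := isIso_of_kill h.kill w
    exact ⟨M, c, ⟨asIso (π.map φ) ≪≫ e⟩⟩

theorem p4_ff (h : Loc π (Nb ev R S true) (Wd ev S) S') : FF (β.L 0 ⋙ π) S := by
  intro X Y a b
  have hi : ∀ (Y : D) j, 1 ≤ j → IsZero ((ev j).obj ((β.L 0).obj Y)) := fun Y j k => β.high 0 j Y k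
  constructor
  · intro f f' e
    obtain ⟨X', s, w, k⟩ := h.toLocOn.faith' (β.W_L 0 a) (β.W_L 0 b) ((β.L 0).map (f - f')) (by
      rw [Functor.map_sub, Functor.map_sub, sub_eq_zero]
      exact e)
    refine sub_eq_zero.1 (((un_comp_iff w _).2 (β.un_L 0 true X) Y).1 ?_)
    change (s ≫ _) ≫ (R true).map (f - f') = (s ≫ _) ≫ (R true).map 0
    rw [Functor.map_zero, comp_zero, Category.assoc, ← (β.ι 0 true).naturality, ← Category.assoc,
      k, zero_comp]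
  · intro φ
    obtain ⟨X', s, f, w, k⟩ := h.toLocOn.full' (β.W_L 0 a) (β.W_L 0 b) φ
    obtain ⟨g, hg⟩ := ((un_comp_iff w _).2 (β.un_L 0 true X) Y).2 (f ≫ (β.ι 0 true).app Y)
    replace hg : (s ≫ (β.ι 0 true).app X) ≫ (R true).map g = f ≫ (β.ι 0 true).app Y := hg
    obtain ⟨M, t, l, c, w'⟩ := key β z ((Tg.of_trW h.le w).2 (β.W_L 0 a)) 1
    have e : t ≫ s ≫ (β.L 0).map g = t ≫ f :=
      (β.f4 1 (hi Y) (β.un_L 0 true Y) (β.un_L 0 false Y) l).1 (by
        refine Prod.ext ?_ ((c.2 _ _).trans (c.2 _ _).symm)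
        change (t ≫ s ≫ _) ≫ _ = (t ≫ f) ≫ _
        simp only [Category.assoc] at hg ⊢
        rw [(β.ι 0 true).naturality, hg])
    have := isIso_of_kill h.kill w
    have := isIso_of_kill h.kill w'
    refine ⟨g, (cancel_epi (π.map s)).1 ((cancel_epi (π.map t)).1 ?_)⟩
    rw [k, ← π.map_comp, ← e, π.map_comp, π.map_comp]
    rfl

/-- Injective: `faith'`, `un_comp_iff`, `un_L`. Full: `full'`, the universal arrow gives `g`, the
difference dies on the object of `key` by `f4`. Onto: `key` with `m = 1`, `f4`, `trW_of_un`. -/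
theorem deqB [Tg S'] (h : Loc π (Nb ev R S true) (Wd ev S) S') (L : D ⥤ D') (e : L ≅ β.L 0 ⋙ π) :
    Deq L S S' := by
  refine ⟨fun X Y a b => ?_, fun X a => S'.prop_of_iso (e.app X).symm (h.maps _ (β.W_L 0 a)),
    fun Y a => ?_⟩
  · have := ((five_bij_pre (e.app X)).comp (five_bij_post (e.app Y).symm)).comp (p4_ff β z h a b)
    convert this using 1
    funext g
    exact (NatIso.naturality_2 e g).symm
  · obtain ⟨X, b, ⟨i⟩⟩ := h.surj Y a
    obtain ⟨M, φ, l, c, w⟩ := key β z b 1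
    obtain ⟨P, hP, u, hu⟩ := β.tot c.1 true
    obtain ⟨ψ, hψ⟩ := (β.f4 1 (fun j k => β.high 0 j P k) (β.un_L 0 true P) (β.un_L 0 false P)
      l).2 (u, 0)
    have e' : ψ ≫ (β.ι 0 true).app P = u := congrArg Prod.fst hψ
    have := isIso_of_kill h.kill w
    have := isIso_of_kill h.kill (trW_of_un ψ c.1 (β.W_L 0 hP) (β.un_L 0 true P) (e' ▸ hu))
    exact ⟨P, hP, ⟨e.app P ≪≫ (asIso (π.map ψ)).symm ≪≫ asIso (π.map φ) ≪≫ i⟩⟩
end P4file

end Pool.Agent.Lib.MP_5d3e93_al.K
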