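import Pool.Agent.Lib.MP_5d3e93_al.K.PDef
import Pool.Agent.Lib.MP_5d3e93_al.K.P4
import Pool.Agent.Lib.MP_5d3e93_al.Gr.Kn
import Pool.Agent.Lib.MP_5d3e93_al.Gr.Of

/-! Truncations of binary complexes, the exchange of the differentials and the telescope. -/

open CategoryTheory Limits Pretriangulated ZeroObject

namespace Pool.Agent.Lib.MP_5d3e93_al.K

open Gr

universe w v u v' u' v'' u''

section Ct
variable {C : Type u} [Category.{v} C] [Preadditive C] [HasZeroObject C] {p q r s : Prop}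
  {X Y W : C}

/-- The inclusion, with plain types. -/
noncomputable def tI (p : Prop) (X : C) : (ct p).obj X ⟶ X := (ctI p).app X

/-- The projection, with plain types. -/
noncomputable def tR (p : Prop) (X : C) : X ⟶ (ct p).obj X := (ctR p).app X

@[reassoc] theorem tI_R : tI p X ≫ tR p X = 𝟙 _ := ctI_R p X

@[reassoc] theorem tR_I (h : p) : tR p X ≫ tI p X = 𝟙 _ := ctR_I h X

theorem tI_neg (h : ¬p) : tI p X = 0 := ctI_neg h X

theorem tR_neg (h : ¬p) : tR p X = 0 := ctR_neg h X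

@[reassoc] theorem tI_nat (f : X ⟶ Y) : (ct p).map f ≫ tI p Y = tI p X ≫ f := ctI_nat p f

@[reassoc] theorem tR_nat (f : X ⟶ Y) : tR p X ≫ (ct p).map f = f ≫ tR p Y := ctR_nat p f

theorem t_sq (d : X ⟶ Y) (d' : Y ⟶ W) (h : d ≫ d' = 0) :
    (tI p X ≫ d ≫ tR q Y) ≫ tI q Y ≫ d' ≫ tR r W = 0 := by
  by_cases k : q
  · simp [tR_I_assoc k, reassoc_of% h]
  · simp [tR_neg k]

theorem t_comm {X' Y' : C} {d : X ⟶ Y} {d' : X' ⟶ Y'} {f : X ⟶ X'} {g : Y ⟶ Y'}
    (h : f ≫ d' = d ≫ g) : (ct p).map f ≫ tI p X' ≫ d' ≫ tR q Y' =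
      (tI p X ≫ d ≫ tR q Y) ≫ (ct q).map g := by
  simp [tI_nat_assoc, tR_nat, reassoc_of% h]

theorem t_map (d : X ⟶ Y) (h : p → s → (q ↔ r)) :
    (tI p X ≫ tR q X) ≫ tI q X ≫ d ≫ tR s Y = (tI p X ≫ d ≫ tR r Y) ≫ tI r Y ≫ tR s Y := by
  by_cases a : p
  · by_cases b : s
    · by_cases c : q
      · simp [tR_I_assoc c, tR_I_assoc ((h a b).1 c)]
      · simp [tR_neg c, tR_neg (mt (h a b).2 c)]
    · simp [tR_neg b]
  · simp [tI_neg a]

theorem t_nat (f : X ⟶ Y) :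
    (ct p).map f ≫ tI p Y ≫ tR q Y = (tI p X ≫ tR q X) ≫ (ct q).map f := by
  simp [tI_nat_assoc, tR_nat]

theorem t_inc (d : X ⟶ Y) (h : p → q) : tI p X ≫ d = (tI p X ≫ d ≫ tR q Y) ≫ tI q Y := by
  by_cases a : p
  · simp [tR_I (h a)]
  · simp [tI_neg a]

theorem t_zero (d : X ⟶ Y) (h : p → ¬q) : tI p X ≫ d ≫ tR q Y = 0 := by
  by_cases a : p
  · simp [tR_neg (h a)]
  · simp [tI_neg a]

theorem t_comp_zero (h : p → ¬r) : (tI p X ≫ tR q X) ≫ tI q X ≫ tR r X = 0 := by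
  by_cases a : p
  · simp [tR_neg (h a)]
  · simp [tI_neg a]

theorem t_spl (h : q ↔ p ∨ r) (k : p → ¬r) : Spl (tI p X ≫ tR q X) (tI q X ≫ tR r X) := by
  refine ⟨tI q X ≫ tR p X, tI r X ≫ tR q X, ?_, ?_, ?_⟩
  · by_cases a : p
    · simp [tR_I_assoc (h.2 (.inl a)), tI_R]
    · exact (ct_zero a _).eq_of_src _ _
  · by_cases a : r
    · simp [tR_I_assoc (h.2 (.inr a)), tI_R]
    · exact (ct_zero a _).eq_of_src _ _
  · by_cases a : q
    · rcases h.1 a with b | b
      · simp [tR_I_assoc b, tR_neg (k b), tI_R]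
      · simp [tR_I_assoc b, tR_neg (mt k (not_not.2 b)), tI_R]
    · exact (ct_zero a _).eq_of_src _ _

theorem isIso_tI (h : p) : IsIso (tI p X) := ⟨tR p X, tI_R, tR_I h⟩

end Ct

section Sum
variable {C : Type u} [Category.{v} C] {D : Type u'} [Category.{v'} D] [Preadditive D]
  [HasBinaryBiproducts D] {E : Type u''} [Category.{v''} E] [Preadditive E]

/-- The sum of two functors. -/
noncomputable def bsum (F G : C ⥤ D) : C ⥤ D where
  obj X := F.obj X ⊞ G.obj X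
  map f := biprod.map (F.map f) (G.map f)
  map_id _ := by ext <;> simp
  map_comp _ _ := by ext <;> simp

instance [Preadditive C] (F G : C ⥤ D) [F.Additive] [G.Additive] : (bsum F G).Additive :=
  ⟨fun {X Y f g} => show biprod.map (F.map (f + g)) (G.map (f + g)) =
    biprod.map (F.map f) (G.map f) + biprod.map (F.map g) (G.map g) by ext <;> simp⟩

variable (F G : C ⥤ D)

/-- The first projection. -/
noncomputable def bfst : bsum F G ⟶ F := ⟨fun _ => biprod.fst, fun _ _ _ => biprod.map_fst _ _⟩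

/-- The second projection. -/
noncomputable def bsnd : bsum F G ⟶ G := ⟨fun _ => biprod.snd, fun _ _ _ => biprod.map_snd _ _⟩

/-- The first inclusion. -/
noncomputable def binl : F ⟶ bsum F G :=
  ⟨fun _ => biprod.inl, fun _ _ _ => (biprod.inl_map _ _).symm⟩

/-- The second inclusion. -/
noncomputable def binr : G ⟶ bsum F G :=
  ⟨fun _ => biprod.inr, fun _ _ _ => (biprod.inr_map _ _).symm⟩

theorem btot : bfst F G ≫ binl F G + bsnd F G ≫ binr F G = 𝟙 _ :=
  NatTrans.ext (funext fun _ => biprod.total)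

variable {F G} in
/-- The sum of two natural transformations. -/
noncomputable def bmap {F' G' : C ⥤ D} (α : F ⟶ F') (β : G ⟶ G') : bsum F G ⟶ bsum F' G' :=
  ⟨fun X => biprod.map (α.app X) (β.app X), fun X Y f =>
    show biprod.map (F.map f) (G.map f) ≫ biprod.map (α.app Y) (β.app Y) =
      biprod.map (α.app X) (β.app X) ≫ biprod.map (F'.map f) (G'.map f) by ext <;> simp⟩

variable (T : D ⥤ E) [T.Additive] {X Y : D}

omit [Preadditive E] [T.Additive] in
@[reassoc] theorem g_lf : T.map (biprod.inl : X ⟶ X ⊞ Y) ≫ T.map biprod.fst = 𝟙 _ := by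
  rw [← T.map_comp, biprod.inl_fst, T.map_id]

@[reassoc] theorem g_ls : T.map (biprod.inl : X ⟶ X ⊞ Y) ≫ T.map biprod.snd = 0 := by
  rw [← T.map_comp, biprod.inl_snd, T.map_zero]

@[reassoc] theorem g_rf : T.map (biprod.inr : Y ⟶ X ⊞ Y) ≫ T.map biprod.fst = 0 := by
  rw [← T.map_comp, biprod.inr_fst, T.map_zero]

omit [Preadditive E] [T.Additive] in
@[reassoc] theorem g_rs : T.map (biprod.inr : Y ⟶ X ⊞ Y) ≫ T.map biprod.snd = 𝟙 _ := by
  rw [← T.map_comp, biprod.inr_snd, T.map_id]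

theorem g_tot : T.map (biprod.fst : X ⊞ Y ⟶ X) ≫ T.map biprod.inl +
    T.map (biprod.snd : X ⊞ Y ⟶ Y) ≫ T.map biprod.inr = 𝟙 _ := by
  rw [← T.map_comp, ← T.map_comp, ← T.map_add, biprod.total, T.map_id]

theorem g_spl : Spl (T.map (biprod.inl : X ⟶ X ⊞ Y)) (T.map (biprod.snd : X ⊞ Y ⟶ Y)) :=
  ⟨T.map biprod.fst, T.map biprod.inr, g_lf T, g_rs T, g_tot T⟩

theorem g_sum {A₁ A₂ A₃ B₁ B₂ B₃ : D} {i : A₁ ⟶ A₂} {p : A₂ ⟶ A₃} {j : B₁ ⟶ B₂} {q : B₂ ⟶ B₃}
    (h : Spl (T.map i) (T.map p)) (k : Spl (T.map j) (T.map q)) :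
    Spl (T.map (biprod.map i j)) (T.map (biprod.map p q)) := by
  obtain ⟨r, s, h₁, h₂, h₃⟩ := h
  obtain ⟨r', s', k₁, k₂, k₃⟩ := k
  refine ⟨T.map biprod.fst ≫ r ≫ T.map biprod.inl + T.map biprod.snd ≫ r' ≫ T.map biprod.inr,
    T.map biprod.fst ≫ s ≫ T.map biprod.inl + T.map biprod.snd ≫ s' ≫ T.map biprod.inr,
    ?_, ?_, ?_⟩
  · simp [biprod.map_eq, g_lf_assoc, g_ls_assoc, g_rf_assoc, g_rs_assoc, reassoc_of% h₁,
      reassoc_of% k₁, g_tot]
  · simp [biprod.map_eq, g_lf_assoc, g_ls_assoc, g_rf_assoc, g_rs_assoc, reassoc_of% h₂,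
      reassoc_of% k₂, g_tot]
  · have e := g_tot T (X := A₂) (Y := B₂)
    rw [← Category.id_comp (T.map biprod.inl), ← Category.id_comp (T.map biprod.inr), ← h₃,
      ← k₃] at e
    rw [← e]
    simp [biprod.map_eq, g_lf_assoc, g_ls_assoc, g_rf_assoc, g_rs_assoc]
    abel

theorem g_inv {S : D ⥤ D} [S.Additive] {X' Y' : D} (e : S.obj X ≅ X') (e' : S.obj Y ≅ Y') :
    (S.map biprod.fst ≫ e.hom ≫ biprod.inl + S.map biprod.snd ≫ e'.hom ≫ biprod.inr) ≫
      (biprod.fst ≫ e.inv ≫ S.map biprod.inl + biprod.snd ≫ e'.inv ≫ S.map biprod.inr) =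
        𝟙 (S.obj (X ⊞ Y)) ∧
    (biprod.fst ≫ e.inv ≫ S.map biprod.inl + biprod.snd ≫ e'.inv ≫ S.map biprod.inr) ≫
      (S.map biprod.fst ≫ e.hom ≫ biprod.inl + S.map biprod.snd ≫ e'.hom ≫ biprod.inr) =
        𝟙 (X' ⊞ Y') :=
  ⟨by simp [g_tot], by simp [g_lf_assoc, g_ls_assoc, g_rf_assoc, g_rs_assoc]⟩

theorem g_iso {S : D ⥤ D} [S.Additive] (e : F ⋙ S ≅ F) (e' : G ⋙ S ≅ G) :
    Nonempty (bsum F G ⋙ S ≅ bsum F G) :=
  ⟨⟨Functor.whiskerRight (bfst F G) S ≫ e.hom ≫ binl F G +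
      Functor.whiskerRight (bsnd F G) S ≫ e'.hom ≫ binr F G,
    bfst F G ≫ e.inv ≫ Functor.whiskerRight (binl F G) S +
      bsnd F G ≫ e'.inv ≫ Functor.whiskerRight (binr F G) S,
    NatTrans.ext (funext fun X => (g_inv (S := S) (e.app X) (e'.app X)).1),
    NatTrans.ext (funext fun X => (g_inv (S := S) (e.app X) (e'.app X)).2)⟩⟩

end Sum

theorem Tb_sum {a : Am.{v, u}} {b : Am.{v', u'}} (F F₁ F₂ : a.A ⥤ b.A) [F.Additive] [F₁.Additive]
    [F₂.Additive] (o₁ : F ⟶ F₁) (o₂ : F ⟶ F₂) (i₁ : F₁ ⟶ F) (i₂ : F₂ ⟶ F)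
    (h : o₁ ≫ i₁ + o₂ ≫ i₂ = 𝟙 F) (X : Kh a.A) (h₁ : b.Tb ((F₁.mapHomotopyCategory _).obj X))
    (h₂ : b.Tb ((F₂.mapHomotopyCategory _).obj X)) : b.Tb ((F.mapHomotopyCategory _).obj X) := by
  obtain ⟨K, rfl⟩ := HomotopyCategory.quotient_obj_surjective X
  have z₁ : IsZero (b.QQ.obj ((F₁.mapHomologicalComplex _).obj K)) := h₁
  have z₂ : IsZero (b.QQ.obj ((F₂.mapHomologicalComplex _).obj K)) := h₂
  have e : (NatTrans.mapHomologicalComplex o₁ (ComplexShape.up ℤ)).app K ≫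
      (NatTrans.mapHomologicalComplex i₁ _).app K + (NatTrans.mapHomologicalComplex o₂ _).app K ≫
        (NatTrans.mapHomologicalComplex i₂ _).app K = 𝟙 _ := by
    ext n
    exact NatTrans.congr_app h (K.X n)
  change IsZero (b.QQ.obj ((F.mapHomologicalComplex _).obj K))
  rw [IsZero.iff_id_eq_zero, ← b.QQ.map_id, ← e, b.QQ.map_add, b.QQ.map_comp, b.QQ.map_comp,
    z₁.eq_of_src (b.QQ.map _) 0, z₂.eq_of_src (b.QQ.map _) 0, comp_zero, comp_zero, add_zero]

/-- The sum of two maps. -/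
noncomputable def msum {a : Am.{v, u}} {b : Am.{v', u'}} (f g : Am.Map a b) : Am.Map a b where
  F := bsum f.F g.F
  hT X h := Tb_sum _ _ _ _ _ _ _ (btot f.F g.F) X (f.hT X h) (g.hT X h)

theorem msum_iso {a : Am.{v, u}} {b : Am.{v', u'}} (f g : Am.Map a b) (X : a.D) :
    Nonempty ((msum f g).D.obj X ≅ f.D.obj X ⊞ g.D.obj X) :=
  ⟨@asIso _ _ _ _ _ (Am.Map.biprod (msum f g) f g (bfst f.F g.F) (bsnd f.F g.F) (binl f.F g.F)
    (binr f.F g.F) (NatTrans.ext (funext fun _ => biprod.inl_fst))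
    (NatTrans.ext (funext fun _ => biprod.inr_snd)) (btot f.F g.F) X)⟩

/-- The identity or zero. -/
noncomputable def act (a : Am.{v, u}) (p : Prop) : Am.Map a a where
  F := ct p
  hT X h := Am.Tb_of_sum (ct p) (ctI p) 0 (ctR p) 0
    (NatTrans.ext (funext fun Y => by simpa using ctI_R p Y)) X (a.le_Tb X h)

theorem act_mem (a : Am.{v, u}) (p : Prop) (S : ObjectProperty a.D) [Tg S] (X : a.D) (h : S X) :
    S ((act a p).D.obj X) := by
  by_cases k : p
  · exact S.prop_of_iso (@asIso _ _ _ _ _ (Am.Map.isIso_nat (act a p) a.idm (ctI p)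
      (fun _ => isIso_tI k) X)).symm h
  · exact Tg.zero S ((act a p).isZero (ct_zero k) X)

section Tel
variable (C : Type u) [Category.{v} C] [Preadditive C] [HasZeroObject C]
/-- The terms in the degrees that satisfy `p`. -/
noncomputable def sig (p : ℕ → Prop) : Bin C ⥤ Bin C where
  obj P := ⟨fun n => (ct (p n)).obj (P.X n),
    fun b n => (ctI (p (n + 1))).app _ ≫ P.d b n ≫ (ctR (p n)).app _,
    fun b n => t_sq _ _ (P.sq b n)⟩
  map f := Bin.homMk (fun n => (ct (p n)).map (f.1 n)) fun b n => t_comm (f.2 b n)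
  map_id _ := Bin.hom_ext fun n => (ct (p n)).map_id _
  map_comp _ _ := Bin.hom_ext fun n => (ct (p n)).map_comp _ _
instance (p : ℕ → Prop) : (sig C p).Additive := ⟨Bin.hom_ext fun n => (ct (p n)).map_add⟩
/-- The comparison of two truncations. -/
noncomputable def sigMap (p q : ℕ → Prop) (h : ∀ n, p (n + 1) → q n → (q (n + 1) ↔ p n)) :
    sig C p ⟶ sig C q where
  app P := Bin.homMk (fun n => (ctI (p n)).app _ ≫ (ctR (q n)).app _)
    fun b n => t_map (P.d b n) (h n)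
  naturality _ _ f := Bin.hom_ext fun n => t_nat (f.1 n)
/-- The inclusion of a truncation. -/
noncomputable def sigI (p : ℕ → Prop) (h : ∀ n, p (n + 1) → p n) : sig C p ⟶ 𝟭 _ where
  app P := Bin.homMk (fun n => (ctI (p n)).app _) fun b n => t_inc (P.d b n) (h n)
  naturality _ _ f := Bin.hom_ext fun n => tI_nat (f.1 n)
/-- Exchange of the differentials. -/
def swp : Bin C ⥤ Bin C where
  obj P := ⟨P.X, fun b => P.d (!b), fun _ => P.sq _⟩
  map f := Bin.homMk f.1 fun _ => f.2 _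
instance : (swp C).Additive := ⟨rfl⟩

theorem sig_swp (p : ℕ → Prop) (h : ∀ n, p (n + 1) → ¬p n) :
    Nonempty (sig C p ⋙ swp C ≅ sig C p) :=
  ⟨NatIso.ofComponents (fun P => @asIso _ _ _ _
    (Bin.homMk (P := (swp C).obj ((sig C p).obj P)) (Q := (sig C p).obj P)
      (fun n => 𝟙 ((ct (p n)).obj (P.X n))) fun b n =>
        ((Category.id_comp _).trans (t_zero (P.d b n) (h n))).trans
          ((Category.comp_id _).trans (t_zero (P.d (!b) n) (h n))).symm)
    (Bin.isIso_of _ fun n => IsIso.id ((ct (p n)).obj (P.X n))))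
    fun _ => Bin.hom_ext fun _ => (Category.comp_id _).trans (Category.id_comp _).symm⟩

omit [HasZeroObject C] in
/-- The exchange is adjoint to itself. -/
def swpAdj : swp C ⊣ swp C := Adjunction.mkOfHomEquiv
  { homEquiv := fun P Q =>
      ⟨fun f => Bin.homMk (P := P) (Q := (swp C).obj Q) f.1 fun b n => by
          have := f.2 (!b) n
          cases b <;> exact this,
        fun f => Bin.homMk (P := (swp C).obj P) (Q := Q) f.1 fun b n => by
          have := f.2 (!b) n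
          cases b <;> exact this,
        fun _ => rfl, fun _ => rfl⟩
    homEquiv_naturality_left_symm := fun _ _ => rfl
    homEquiv_naturality_right := fun _ _ => rfl }

omit [HasZeroObject C] in
theorem R_swp : Nonempty (Bin.R C true ⋙ swp C ≅ Bin.R C false) :=
  ⟨NatIso.ofComponents (fun X => @asIso _ _ _ _
    (Bin.homMk (P := (swp C).obj ((Bin.R C true).obj X)) (Q := (Bin.R C false).obj X)
      (fun _ => 𝟙 X) fun b n => by
        change 𝟙 X ≫ (if b = Bin.lt false n then 𝟙 X else 0) =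
          (if (!b) = Bin.lt true n then 𝟙 X else 0) ≫ 𝟙 X
        rw [Zoo.lt_eq false n]
        cases b <;> cases Bin.lt true n <;> simp)
    (Bin.isIso_of _ fun _ => IsIso.id X))
    fun _ => Bin.hom_ext fun _ => (Category.comp_id _).trans (Category.id_comp _).symm⟩

variable (a : Am.{v, u})
/-- The truncation as a map. -/
noncomputable def asig (p : ℕ → Prop) : Am.Map a.B a.B where
  F := sig a.A p
  add := inferInstanceAs (sig a.A p).Additive
  hT _ h := a.B.le_Tb _ fun j => (act a (p j)).hTb _ (h j)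
/-- The exchange as a map. -/
def aswp : Am.Map a.B a.B where
  F := swp a.A
  add := inferInstanceAs (swp a.A).Additive
  hT _ h := a.B.le_Tb _ h
variable {a} in
/-- Maps that keep bounded binary complexes with terms in any triangulated class. -/
def Pres (f : Am.Map a.B a.B) : Prop :=
  ∀ (S : ObjectProperty a.D) [Tg S], Am.W S ≤ (Am.W S).inverseImage f.D
theorem asig_pres (p : ℕ → Prop) : Pres (asig a p) := fun S _ _ ⟨h, m, k⟩ =>
  ⟨fun j => act_mem a (p j) S _ (h j), m, fun j l => (act a (p j)).D.map_isZero (k j l)⟩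
theorem aswp_pres : Pres (aswp a) := fun _ _ _ h => h
variable {a} in
theorem msum_pres {f g : Am.Map a.B a.B} (h : Pres f) (k : Pres g) : Pres (msum f g) :=
  fun S _ X l => (Am.W S).prop_of_iso (msum_iso f g X).some.symm
    ((Am.W S).ext_of_isTriangulatedClosed₂ _ (binaryBiproductTriangle_distinguished _ _)
      (h S X l) (k S X l))
theorem ev_reflect {X Y : a.B.D} (φ : X ⟶ Y) (h : ∀ j, IsIso ((a.ev j).D.map φ)) : IsIso φ := by
  obtain ⟨Z, p, q, k⟩ := distinguished_cocone_triangle φ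
  exact (Triangle.isZero₃_iff_isIso₁ _ k).1 (a.bs.cons Z fun j =>
    (Triangle.isZero₃_iff_isIso₁ _ ((a.ev j).D.map_distinguished _ k)).2 (h j))
theorem asig_iso (m : ℕ) (X : a.B.D) (h : ∀ j, m ≤ j → IsZero ((a.ev j).D.obj X)) :
    IsIso (((asig a (· < m)).nat a.B.idm (sigI a.A (· < m) fun _ => Nat.lt_of_succ_lt)).app X) :=
  ev_reflect a _ fun j => by
    rcases lt_or_ge j m with k | k
    · exact (Am.Map.map_nat (asig a (· < m)) a.B.idm (a.ev j) _ X).symm ▸
        Am.Map.isIso_nat _ _ _ (fun _ => isIso_tI k) X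
    · exact IsZero.isIso ((act a (j < m)).D.map_isZero (h j k)) (h j k) _
theorem aswp_Nb (S : ObjectProperty a.D) [Tg S] :
    Nb (fun j => (a.ev j).D) (fun b => (a.R b).D) S false ≤
      (Nb (fun j => (a.ev j).D) (fun b => (a.R b).D) S true).inverseImage (aswp a).D := by
  rintro M ⟨h, k⟩
  refine ⟨h, fun Y φ => ?_⟩
  obtain ⟨ad, -⟩ := Am.Map.exists_adj (aswp a) (aswp a) (swpAdj a.A)
  have e : (aswp a).D.obj ((a.R true).D.obj Y) ≅ (a.R false).D.obj Y :=
    (((a.R true).comp (aswp a)).natIso (a.R false) (R_swp a.A).some).app Y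
  exact (ad.homEquiv _ _).injective ((cancel_mono e.hom).1 ((k Y _).trans (k Y _).symm))
theorem exists_c0 : ∃ c : Am.Map a a.B, Nonempty (c.D ≅ a.bs.L 0) :=
  ⟨a.zo (Zoo.okL 0), ⟨Iso.refl _⟩⟩
theorem tel_aux (m : ℕ) : ∃ (H G : Am.Map a.B a.B) (α : H.F ⟶ (msum H (asig a (· < m))).F)
    (β : (msum H (asig a (· < m))).F ⟶ G.F), Pres H ∧ Pres G ∧ α ≫ β = 0 ∧
      (∀ j X, Spl ((a.ev j).F.map (α.app X)) ((a.ev j).F.map (β.app X))) ∧
      Nonempty ((G.comp (aswp a)).F ≅ G.F) := by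
  induction m with
  | zero =>
    exact ⟨asig a (· < 0), asig a (· < 0), binl _ _, bsnd _ _, asig_pres a _, asig_pres a _,
      NatTrans.ext (funext fun _ => biprod.inl_snd), fun j _ => g_spl (a.ev j).F,
      sig_swp a.A _ fun _ h => by omega⟩
  | succ m ih =>
    obtain ⟨H, G, α, β, h₁, h₂, h₃, h₄, ⟨e⟩⟩ := ih
    let γ : (asig a (· < m)).F ⟶ (asig a (· < m + 1)).F := sigMap a.A _ _ fun _ _ _ => by omega
    let δ : (asig a (· < m + 1)).F ⟶ (asig a (· = m)).F := sigMap a.A _ _ fun _ _ _ => by omega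
    have z : ∀ X, γ.app X ≫ δ.app X = 0 := fun X => Bin.hom_ext fun n => t_comp_zero (by omega)
    refine ⟨msum H (asig a (· < m)), msum G (asig a (· = m)), bmap α γ, bmap β δ,
      msum_pres h₁ (asig_pres a _), msum_pres h₂ (asig_pres a _),
      NatTrans.ext (funext fun X => ?_), fun j X => g_sum (a.ev j).F (h₄ j X)
        (t_spl (by omega) (by omega)),
      g_iso G.F (asig a (· = m)).F (S := (aswp a).F) e (sig_swp a.A _ fun _ h => by omega).some⟩
    have y : α.app X ≫ β.app X = 0 := NatTrans.congr_app h₃ X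
    change biprod.map (α.app X) (γ.app X) ≫ biprod.map (β.app X) (δ.app X) = 0
    ext <;> simp [y, z]
theorem tel (m : ℕ) : ∃ (H M G : Am.Map a.B a.B) (α : H.F ⟶ M.F) (β : M.F ⟶ G.F) (i : H.F ⟶ M.F)
    (q : M.F ⟶ (asig a (· < m)).F), Pres H ∧ Pres M ∧ Pres G ∧ α ≫ β = 0 ∧ i ≫ q = 0 ∧
      (∀ j X, Spl ((a.ev j).F.map (α.app X)) ((a.ev j).F.map (β.app X))) ∧
      (∀ X, Spl (i.app X) (q.app X)) ∧ Nonempty ((G.comp (aswp a)).F ≅ G.F) := by
  obtain ⟨H, G, α, β, h₁, h₂, h₃, h₄, h₅⟩ := tel_aux a m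
  exact ⟨H, _, G, α, β, binl _ _, bsnd _ _, h₁, msum_pres h₁ (asig_pres a _), h₂, h₃,
    NatTrans.ext (funext fun _ => biprod.inl_snd), h₄,
    fun _ => ⟨biprod.fst, biprod.inr, biprod.inl_fst, biprod.inr_snd, biprod.total⟩, h₅⟩
end Tel

end Pool.Agent.Lib.MP_5d3e93_al.K
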