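import Pool.Agent.Lib.MP_5d3e93_al.K.PiA
import Pool.Agent.Lib.MP_5d3e93_al.K.Tel
import Pool.Agent.Lib.MP_5d3e93_al.Gr.KnL

/-! Vanishing of all K-groups passes to products of ambient categories. -/

open CategoryTheory Limits Pretriangulated ZeroObject

namespace Pool.Agent.Lib.MP_5d3e93_al.K

open Gr

universe w v u

variable {I : Type w} {a : I → Am.{v, u}}

/-- Bounded binary complexes that are acyclic for one differential. -/
def aN {a : Am.{v, u}} (S : ObjectProperty a.D) (b : Bool) : ObjectProperty a.B.D :=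
  Nb (fun j => (a.ev j).D) (fun b => (a.R b).D) S b

instance {a : Am.{v, u}} (S : ObjectProperty a.D) [Tg S] (b : Bool) : Tg (aN S b) :=
  inferInstanceAs (Tg (Nb _ _ S b))

theorem aN_le {a : Am.{v, u}} (S : ObjectProperty a.D) (b : Bool) : aN S b ≤ Am.W S :=
  fun _ h => h.1

theorem spl_pi {A : I → Type u} [∀ i, Category.{v} (A i)] [∀ i, Preadditive (A i)]
    {X Y Z : ∀ i, A i} {f : X ⟶ Y} {g : Y ⟶ Z} (h : ∀ i, Spl (f i) (g i)) : Spl f g := by
  choose r s h₁ h₂ h₃ using h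
  exact ⟨r, s, funext h₁, funext h₂, funext h₃⟩

theorem natpi_zero {b : I → Am.{v, u}} {f g h : ∀ i, Am.Map (a i) (b i)}
    {α : ∀ i, (f i).F ⟶ (g i).F} {β : ∀ i, (g i).F ⟶ (h i).F} (e : ∀ i, α i ≫ β i = 0) :
    (NatTrans.pi α : (mpi f).F ⟶ (mpi g).F) ≫ (NatTrans.pi β : (mpi g).F ⟶ (mpi h).F) = 0 :=
  NatTrans.ext (funext fun X : ∀ i, (a i).A => funext fun i => NatTrans.congr_app (e i) (X i))

theorem ses_pi {b : I → Am.{v, u}} {f g h : ∀ i, Am.Map (a i) (b i)}
    {α : ∀ i, (f i).F ⟶ (g i).F} {β : ∀ i, (g i).F ⟶ (h i).F} (e : ∀ i, α i ≫ β i = 0)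
    (s : ∀ i X, Spl ((α i).app X) ((β i).app X)) (S : ObjectProperty (api a).D) :
    Am.Ses (f₁ := mpi f) (f := mpi g) (f₂ := mpi h) (NatTrans.pi α) (NatTrans.pi β)
      (natpi_zero e) S := by
  refine Am.ses_of_split (fun X : ∀ i, (a i).A => ?_) S
  exact spl_pi (A := fun i => (b i).A) fun i => s i (X i)

theorem ses_piB {b : I → Am.{v, u}} {f g h : ∀ i, Am.Map (a i) (b i).B}
    {α : ∀ i, (f i).F ⟶ (g i).F} {β : ∀ i, (g i).F ⟶ (h i).F} (e : ∀ i, α i ≫ β i = 0)
    (s : ∀ i j X, Spl (((b i).ev j).F.map ((α i).app X)) (((b i).ev j).F.map ((β i).app X)))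
    (S : ObjectProperty (api a).D) :
    Am.Ses (f₁ := mpi f) (f := mpi g) (f₂ := mpi h) (NatTrans.pi α) (NatTrans.pi β)
      (natpi_zero e) S := by
  refine Am.ses_of_reflect (fun j : ℕ => mpi fun i => (b i).ev j)
    (fun X k => (api _).le_Tb X fun i => (b i).B.le_Tb _ fun j => (api_Tb _).1 (k j) i)
    (fun j (X : ∀ i, (a i).A) => ?_) S
  exact spl_pi (A := fun i => (b i).A) fun i => s i j (X i)

/-- Complexes supported below `m`. -/
def Wm (S : ∀ i, ObjectProperty (a i).D) (m : I → ℕ) : ObjectProperty (api fun i => (a i).B).D :=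
  piS fun i => Am.W (S i) ⊓ fun X => ∀ j, m i ≤ j → IsZero (((a i).ev j).D.obj X)

theorem tg_low (a : Am.{v, u}) (m : ℕ) :
    Tg (fun X : a.B.D => ∀ j, m ≤ j → IsZero ((a.ev j).D.obj X)) :=
  Tg.mk' (fun _ h _ _ => Functor.map_isZero _ h)
    (fun n X h j k => (Zr.inverseImage (a.ev j).D).le_shift n X (h j k))
    fun T e h h' j k => (Zr.inverseImage (a.ev j).D).ext_of_isTriangulatedClosed₂ T e (h j k)
      (h' j k)

instance (S : ∀ i, ObjectProperty (a i).D) [∀ i, Tg (S i)] (m : I → ℕ) : Tg (Wm S m) :=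
  have := fun i => tg_low (a i) (m i)
  inferInstanceAs (Tg (piS _))

variable (S : ∀ i, ObjectProperty (a i).D) [∀ i, Tg (S i)]

theorem swp_maps : piS (fun i => Am.W (S i)) ≤
    (piS fun i => Am.W (S i)).inverseImage (mpi fun i => aswp (a i)).D :=
  mpi_maps fun i => aswp_pres _ (S i)

theorem tel_K {b : Am.{v, u}} {T : ObjectProperty b.D} [Tg T] (n : ℕ) {H M G σ : Am.Map b b}
    (τ : Am.Map b b) {α : H.F ⟶ M.F} {β : M.F ⟶ G.F} {ι : H.F ⟶ M.F} {q : M.F ⟶ σ.F}
    {e₁ : α ≫ β = 0} {e₂ : ι ≫ q = 0} (s₁ : Am.Ses α β e₁ T) (s₂ : Am.Ses ι q e₂ T)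
    (t : (G.comp τ).F ≅ G.F) (kH : T ≤ T.inverseImage H.D) (kM : T ≤ T.inverseImage M.D)
    (kG : T ≤ T.inverseImage G.D) (h : T ≤ T.inverseImage σ.D) (k : T ≤ T.inverseImage τ.D)
    (x : Am.Kn n b T) : Am.Kmap n τ k (Am.Kmap n σ h x) = Am.Kmap n σ h x := by
  have l : T ≤ T.inverseImage (G.comp τ).D := fun X j => k _ (kG X j)
  rw [← add_left_cancel ((Am.Kmap_add n s₁ kH kM kG).symm.trans (Am.Kmap_add n s₂ kH kM h)),
    ← Am.Kmap_comp n G τ kG k l x, Am.Kmap_iso n _ _ t l kG]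

/-- The exchange of the differentials acts trivially after truncation. -/
theorem swp_sig (n : ℕ) (m : I → ℕ) (h : piS (fun i => Am.W (S i)) ≤
      (piS fun i => Am.W (S i)).inverseImage (mpi fun i => asig (a i) (· < m i)).D)
    (x : Am.Kn n _ (piS fun i => Am.W (S i))) :
    Am.Kmap n _ (swp_maps S) (Am.Kmap n _ h x) = Am.Kmap n _ h x := by
  choose H M G α β ι q hH hM hG e₁ e₂ s₁ s₂ t using fun i => tel (a i) (m i)
  exact tel_K n (mpi fun i => aswp (a i)) (ses_piB (f := H) (g := M) (h := G) e₁ s₁ _)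
    (ses_pi (f := H) (g := M) (h := fun i => asig (a i) (· < m i)) e₂ s₂ _)
    (NatIso.pi (F := fun i => ((G i).comp (aswp (a i))).F) fun i => (t i).some)
    (mpi_maps fun i => hH i (S i)) (mpi_maps fun i => hM i (S i)) (mpi_maps fun i => hG i (S i))
    h _ x

/-- The exchange of the differentials acts trivially. -/
theorem swp_id (n : ℕ) (x : Am.Kn n _ (piS fun i => Am.W (S i))) :
    Am.Kmap n _ (swp_maps S) x = x := by
  have le : ∀ m, Wm S m ≤ piS fun i => Am.W (S i) := fun m X h i => (h i).1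
  obtain ⟨m, y, rfl⟩ := Am.union_surj n (Wm S) (fun m m' => ⟨m ⊔ m',
    fun X h i => ⟨(h i).1, fun j k => (h i).2 j ((le_max_left _ _).trans k)⟩,
    fun X h i => ⟨(h i).1, fun j k => (h i).2 j ((le_max_right _ _).trans k)⟩⟩) le (fun X h => by
      choose m hm using fun i => (h i).2
      exact ⟨m, fun i => ⟨h i, hm i⟩⟩) x
  have h := mpi_maps (f := fun i => asig (a i) (· < m i)) fun i => asig_pres _ _ (S i)
  have l : Wm S m ≤ (piS fun i => Am.W (S i)).inverseImage
      ((api _).idm.comp (mpi fun i => asig (a i) (· < m i))).D := fun X k => h X (le m X k)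
  have e : Am.Kinc n (le m) y = Am.Kmap n _ h (Am.Kinc n (le m) y) := by
    rw [Am.Kinc, ← Am.Kmap_comp n _ _ (le m) h l]
    exact (DFunLike.congr_fun (Am.Kmap_weq n (mpi fun i => asig (a i) (· < m i))
      (mpi fun i => (a i).B.idm) (NatTrans.pi fun i => sigI (a i).A (· < m i)
        fun _ => Nat.lt_of_succ_lt) (fun X k => mpi_nat_iso _ X fun i =>
          asig_iso (a i) (m i) _ (k i).2) l (le m)) y).symm
  rw [e, swp_sig]

theorem Z_pi_aux (n : ℕ) : ∀ (a : I → Am.{v, u}) (S : ∀ i, ObjectProperty (a i).D)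
    [∀ i, Tg (S i)], (∀ i, Am.Z (S i)) → Subsingleton (Am.Kn n _ (piS S)) := by
  induction n using Nat.strong_induction_on with
  | _ n ih =>
  intro a S _ z
  have k₀ := fun i => Am.quo_loc (N := aN (S i) true) (S := Am.W (S i)) (aN_le _ _) (Nb_th true)
  have tg := fun i => (k₀ i).toLocOn.tg_map
  have kA := mpi_loc (f := fun i => (a i).B.π (aN (S i) true)) (N := fun i => Am.V (S i))
    (S := fun i => aN (S i) false) fun i => locA (a i).bs (z i 0) (k₀ i)
  choose c hc using fun i => exists_c0 (a i)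
  have kB := mpi_deq (f := fun i => (c i).comp ((a i).B.π (aN (S i) true))) fun i =>
    deqB (a i).bs (z i 0) (k₀ i) _ (Am.Map.compD _ _ ≪≫ Functor.isoWhiskerRight (hc i).some _)
  have hW := mpi_maps (f := fun i => (a i).B.π (aN (S i) true)) fun i => (k₀ i).maps
  have le : ∀ b, piS (fun i => aN (S i) b) ≤ piS fun i => Am.W (S i) := fun b X h i => (h i).1
  have hs := mpi_maps (f := fun i => aswp (a i)) (S := fun i => aN (S i) false)
    (S' := fun i => aN (S i) true) fun i => aswp_Nb _ (S i)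
  have z₁ : ∀ y, Am.Kmap n _ kA.maps y = 0 := fun y => by
    have l : piS (fun i => aN (S i) false) ≤ (piS fun i => Am.W (S i)).inverseImage
        ((api _).idm.comp (mpi fun i => aswp (a i))).D := fun X k => le true _ (hs X k)
    have l' : piS (fun i => aN (S i) false) ≤ ObjectProperty.inverseImage _
        (((api _).idm.comp (mpi fun i => aswp (a i))).comp
          (mpi fun i => (a i).B.π (aN (S i) true))).D := fun X k => hW _ (l X k)
    have e₁ := Am.Kmap_comp n (api _).idm _ (le false) hW kA.maps y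
    have e₂ := (Am.Kmap_comp n (api _).idm _ (le false) (swp_maps S) l y).trans (swp_id S n _)
    have e₃ := Am.Kmap_comp n _ _ l hW l' y
    have e₄ := Am.Kmap_zero n (((api _).idm.comp (mpi fun i => aswp (a i))).comp
      (mpi fun i => (a i).B.π (aN (S i) true))) (fun X k => (isPi_apr fun i => (a i).B.quo
      (aN (S i) true)).isZero fun i => (k₀ i).kill _ (hs X k i)) l'
    exact e₁.trans ((congrArg _ e₂).symm.trans (e₃.symm.trans (DFunLike.congr_fun e₄ y)))
  have su := Am.loc_surj n kA fun j h => ih j h _ _ fun i => (z i).V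
  refine ⟨fun x y => (Am.deq_bij n kB).1 ?_⟩
  obtain ⟨x', hx⟩ := su (Am.Kmap n _ kB.maps x)
  obtain ⟨y', hy⟩ := su (Am.Kmap n _ kB.maps y)
  rw [← hx, ← hy, z₁, z₁]

theorem Z_pi {I : Type w} {a : I → Am.{v, u}} (S : ∀ i, ObjectProperty (a i).D) [∀ i, Tg (S i)]
    (z : ∀ i, Am.Z (S i)) : Am.Z (piS S) := fun n => Z_pi_aux n a S z

end Pool.Agent.Lib.MP_5d3e93_al.K
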