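import Pool.Agent.Lib.MP_5d3e93_al.K.PiT
import Pool.Agent.Lib.MP_5d3e93_al.Gr.Of

/-! Products of ambient categories. -/

open CategoryTheory Limits Pretriangulated ZeroObject

namespace Pool.Agent.Lib.MP_5d3e93_al.K

open Gr

universe w v u v' u' v'' u''

section PiA

/-- Complexes, chain maps and homotopies are assembled componentwise. -/
theorem isPi_K {I : Type w} (A : I → Type u) [∀ i, Category.{v} (A i)] [∀ i, Preadditive (A i)] :
    IsPi fun i => (Pi.eval A i).mapHomotopyCategory (.up ℤ) where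
  bij := by
    rintro ⟨X⟩ ⟨Y⟩
    refine ⟨fun f g h => ?_, fun φ => ?_⟩
    · obtain ⟨f, rfl⟩ := (HomotopyCategory.quotient _ (ComplexShape.up ℤ)).map_surjective
        (X := X) (Y := Y) f
      obtain ⟨g, rfl⟩ := (HomotopyCategory.quotient _ (ComplexShape.up ℤ)).map_surjective
        (X := X) (Y := Y) g
      have k : ∀ i, Homotopy (((Pi.eval A i).mapHomologicalComplex (.up ℤ)).map f)
          (((Pi.eval A i).mapHomologicalComplex (.up ℤ)).map g) :=
        fun i => HomotopyCategory.homotopyOfEq _ _ (congrFun h i)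
      exact HomotopyCategory.eq_of_homotopy _ _
        { hom := fun p q i => (k i).hom p q
          zero := fun p q e => funext fun i => (k i).zero p q e
          comm := fun p => funext fun i => (k i).comm p }
    · choose ψ hψ using fun i => (HomotopyCategory.quotient _ (ComplexShape.up ℤ)).map_surjective
        (X := ((Pi.eval A i).mapHomologicalComplex (.up ℤ)).obj X)
        (Y := ((Pi.eval A i).mapHomologicalComplex (.up ℤ)).obj Y) (φ i)
      exact ⟨(HomotopyCategory.quotient _ (ComplexShape.up ℤ)).map (X := X) (Y := Y)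
        ⟨fun p i => (ψ i).f p, fun p q e => funext fun i => (ψ i).comm' p q e⟩, funext hψ⟩
  surj X := ⟨(HomotopyCategory.quotient _ (ComplexShape.up ℤ)).obj
    { X := fun p i => (X i).as.X p
      d := fun p q i => (X i).as.d p q
      shape := fun p q e => funext fun i => (X i).as.shape p q e
      d_comp_d' := fun p q r e e' => funext fun i => (X i).as.d_comp_d' p q r e e' },
    fun _ => ⟨Iso.refl _⟩⟩

variable {I : Type w} {a : I → Am.{v, u}} {b : I → Am.{v', u'}}

theorem api_Tb (X : Kh (api a).A) : (api a).Tb X ↔ ∀ i, (a i).Tb ((apr a i).K.obj X) :=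
  ⟨fun h i => (apr a i).hTb X h, fun h => (api a).le_Tb X h⟩

theorem isPi_aprK (a : I → Am.{v, u}) : IsPi fun i => (apr a i).K := isPi_K fun i => (a i).A

/-- `IsPi.of_loc` with `Q_loc`. -/
theorem isPi_apr (a : I → Am.{v, u}) : IsPi fun i => (apr a i).D := by
  have e : Pw (fun i => (apr a i).K) (fun i => (a i).Tb) = (api a).Tb :=
    funext fun X => propext (api_Tb X).symm
  exact (isPi_aprK a).of_loc (F := (api a).Q) (f := fun i => (a i).Q)
    (fun i => eqToIso (apr a i).fac) (N := fun i => (a i).Tb) (e ▸ (api a).Q_loc)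
    fun i => (a i).Q_loc

instance (S : ∀ i, ObjectProperty (a i).D) [∀ i, Tg (S i)] : Tg (piS S) :=
  inferInstanceAs (Tg (Pw (fun i => (apr a i).D) S))

theorem mpi_comp (f : ∀ i, Am.Map (a i) (b i)) (i : I) :
    (mpi f).comp (apr b i) = (apr a i).comp (f i) := rfl

theorem mpi_obj (f : ∀ i, Am.Map (a i) (b i)) (i : I) (X : (api a).D) :
    (apr b i).D.obj ((mpi f).D.obj X) = (f i).D.obj ((apr a i).D.obj X) := rfl

theorem mpi_iso (f : ∀ i, Am.Map (a i) (b i)) (i : I) :
    Nonempty ((mpi f).D ⋙ (apr b i).D ≅ (apr a i).D ⋙ (f i).D) :=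
  ⟨((mpi f).compD (apr b i)).symm ≪≫ (apr a i).compD (f i)⟩

variable {f g : ∀ i, Am.Map (a i) (b i)} {N S : ∀ i, ObjectProperty (a i).D}
  {S' : ∀ i, ObjectProperty (b i).D}

theorem mpi_maps (h : ∀ i, S i ≤ (S' i).inverseImage (f i).D) :
    piS S ≤ (piS S').inverseImage (mpi f).D := fun _ k i => h i _ (k i)

theorem mpi_loc [∀ i, Tg (N i)] [∀ i, Tg (S i)] [∀ i, Tg (S' i)]
    (h : ∀ i, Loc (f i).D (N i) (S i) (S' i)) : Loc (mpi f).D (piS N) (piS S) (piS S') :=
  (isPi_apr a).loc (fun i => (mpi_iso f i).some) (isPi_apr b) h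

theorem mpi_deq [∀ i, Tg (S i)] [∀ i, Tg (S' i)] (h : ∀ i, Deq (f i).D (S i) (S' i)) :
    Deq (mpi f).D (piS S) (piS S') :=
  (isPi_apr a).deq (fun i => (mpi_iso f i).some) (isPi_apr b) h

/-- `map_nat`, `nat_obj`. -/
theorem mpi_nat_iso (α : ∀ i, (f i).F ⟶ (g i).F) (X : (api a).D)
    (h : ∀ i, IsIso (((f i).nat (g i) (α i)).app ((apr a i).D.obj X))) :
    IsIso (((mpi f).nat (mpi g) (NatTrans.pi α)).app X) :=
  (isPi_apr b).isIso _ fun i => by
    have k := h i
    rw [Am.Map.nat_obj] at k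
    rw [Am.Map.map_nat]
    exact k

theorem piS_sg (P : ∀ i, ObjectProperty (a i).A) : piS (fun i => (P i).map (a i).sg) =
    ObjectProperty.map (fun X : (api a).A => ∀ i, P i (X i)) (api a).sg := by
  have e := fun i => (apr a i).sg_iso.some
  refine funext fun X => propext ⟨fun h => ?_, ?_⟩
  · choose Y hY k using h
    exact ⟨Y, hY, (isPi_apr a).iso fun i => ⟨(e i).app Y ≪≫ (k i).some⟩⟩
  · rintro ⟨Y, hY, ⟨k⟩⟩ i
    exact ⟨Y i, hY i, ⟨((e i).app Y).symm ≪≫ (apr a i).D.mapIso k⟩⟩

theorem api_pj {X : (api a).A} (h : ∀ i, (a i).Pj (X i)) : (api a).Pj X := fun t ht φ =>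
  ((isPi_aprK a).bij _ _).1 (funext fun i => by
    have e : (HomotopyCategory.singleFunctor (a i).A 0).obj (X i) ≅
        (apr a i).K.obj ((HomotopyCategory.singleFunctor (api a).A 0).obj X) :=
      (HomotopyCategory.quotient _ _).mapIso
        ((HomologicalComplex.singleMapHomologicalComplex (apr a i).F (ComplexShape.up ℤ) 0).app
          X).symm
    rw [← cancel_epi e.hom]
    exact ((h i).Q_bij _).1 (IsZero.eq_of_tgt (ht i) _ _))

end PiA

end Pool.Agent.Lib.MP_5d3e93_al.K
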