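import Pool.Agent.Lib.MP_5d3e93_al.K.PDef
import Pool.Agent.Lib.MP_5d3e93_al.K.Frob
import Pool.Agent.Lib.MP_5d3e93_al.Gr.LocB

/-! Products of triangulated categories. -/

open CategoryTheory Limits Pretriangulated ZeroObject

namespace Pool.Agent.Lib.MP_5d3e93_al.K

open Gr

universe w v u v' u' v'' u''

set_option linter.unusedSectionVars false

section PiT
variable {D : Type*} [Category* D] [HasZeroObject D] [HasShift D ℤ] [Preadditive D]
  [∀ n : ℤ, (shiftFunctor D n).Additive] [Pretriangulated D]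
variable {D' : Type*} [Category* D'] [HasZeroObject D'] [HasShift D' ℤ] [Preadditive D']
  [∀ n : ℤ, (shiftFunctor D' n).Additive] [Pretriangulated D']
variable {I : Type*} {E : I → Type u} [∀ i, Category.{v} (E i)] [∀ i, HasZeroObject (E i)]
  [∀ i, HasShift (E i) ℤ] [∀ i, Preadditive (E i)] [∀ i (n : ℤ), (shiftFunctor (E i) n).Additive]
  [∀ i, Pretriangulated (E i)]
variable {E' : I → Type u'} [∀ i, Category.{v'} (E' i)] [∀ i, HasZeroObject (E' i)]
  [∀ i, HasShift (E' i) ℤ] [∀ i, Preadditive (E' i)] [∀ i (n : ℤ), (shiftFunctor (E' i) n).Additive]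
  [∀ i, Pretriangulated (E' i)]
variable {p : ∀ i, D ⥤ E i} [∀ i, (p i).CommShift ℤ] [∀ i, (p i).IsTriangulated]
  {p' : ∀ i, D' ⥤ E' i} [∀ i, (p' i).CommShift ℤ] [∀ i, (p' i).IsTriangulated]
  {N S : ∀ i, ObjectProperty (E i)} {S' : ∀ i, ObjectProperty (E' i)}

instance [∀ i, Tg (S i)] : Tg (Pw p S) :=
  Tg.mk' (fun _ h i => Tg.zero (S i) ((p i).map_isZero h))
    (fun n X h i => ((S i).inverseImage (p i)).le_shift n X (h i))
    fun T k h h' i => ((S i).inverseImage (p i)).ext_of_isTriangulatedClosed₂ T k (h i) (h' i)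

theorem pw_trW [∀ i, Tg (N i)] {X Y : D} (s : X ⟶ Y) :
    (Pw p N).trW s ↔ ∀ i, (N i).trW ((p i).map s) := by
  obtain ⟨Z, g, k, hT⟩ := distinguished_cocone_triangle s
  exact ((Pw p N).trW_iff_of_distinguished _ hT).trans (forall_congr' fun i =>
    ((N i).trW_iff_of_distinguished _ ((p i).map_distinguished _ hT)).symm)

theorem IsPi.ext (h : IsPi p) {X Y : D} {f g : X ⟶ Y} (k : ∀ i, (p i).map f = (p i).map g) :
    f = g := (h.bij X Y).1 (funext k)

theorem IsPi.pre (h : IsPi p) {X Y : D} (f : ∀ i, (p i).obj X ⟶ (p i).obj Y) :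
    ∃ g : X ⟶ Y, ∀ i, (p i).map g = f i :=
  ((h.bij X Y).2 f).imp fun _ e => congrFun e

theorem IsPi.isIso (h : IsPi p) {X Y : D} (f : X ⟶ Y) (k : ∀ i, IsIso ((p i).map f)) : IsIso f := by
  obtain ⟨g, e⟩ := h.pre fun i => inv ((p i).map f)
  exact ⟨g, h.ext fun i => by simp [e], h.ext fun i => by simp [e]⟩

theorem IsPi.isZero (h : IsPi p) {X : D} (k : ∀ i, IsZero ((p i).obj X)) : IsZero X :=
  (IsZero.iff_id_eq_zero X).2 (h.ext fun i => (k i).eq_of_src _ _)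

theorem IsPi.iso (h : IsPi p) {X Y : D} (k : ∀ i, Nonempty ((p i).obj X ≅ (p i).obj Y)) :
    Nonempty (X ≅ Y) := by
  obtain ⟨g, e⟩ := h.pre fun i => (k i).some.hom
  have := h.isIso g fun i => e i ▸ inferInstance
  exact ⟨asIso g⟩

theorem IsPi.lift (h : IsPi p) (X : D) {Y : ∀ i, E i} (s : ∀ i, (p i).obj X ⟶ Y i) :
    ∃ (Y' : D) (t : X ⟶ Y') (e : ∀ i, (p i).obj Y' ≅ Y i), ∀ i, (p i).map t ≫ (e i).hom = s i := by
  obtain ⟨Y', e⟩ := h.surj Y
  obtain ⟨t, k⟩ := h.pre fun i => s i ≫ (e i).some.inv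
  exact ⟨Y', t, fun i => (e i).some, fun i => by simp [k]⟩

theorem IsPi.lift' (h : IsPi p) (X : D) {Y : ∀ i, E i} (s : ∀ i, Y i ⟶ (p i).obj X) :
    ∃ (Y' : D) (t : Y' ⟶ X) (e : ∀ i, (p i).obj Y' ≅ Y i), ∀ i, (p i).map t = (e i).hom ≫ s i := by
  obtain ⟨Y', e⟩ := h.surj Y
  obtain ⟨t, k⟩ := h.pre fun i => (e i).some.hom ≫ s i
  exact ⟨Y', t, fun i => (e i).some, k⟩

theorem IsPi.dist (h : IsPi p) (T : Triangle D)
    (k : ∀ i, (p i).mapTriangle.obj T ∈ distTriang (E i)) : T ∈ distTriang D := by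
  obtain ⟨Z, g, l, hT⟩ := distinguished_cocone_triangle T.mor₁
  choose e h₁ h₂ using fun i => exists_iso_of_arrow_iso _ _ (k i)
    ((p i).map_distinguished _ hT) (Iso.refl _)
  obtain ⟨φ, hφ⟩ := h.pre (X := T.obj₃) (Y := Z) fun i => (e i).hom.hom₃
  have i₀ : IsIso φ := h.isIso φ fun i => by
    rw [hφ]; exact (Triangle.π₃.mapIso (e i)).isIso_hom
  refine isomorphic_distinguished _ hT _ (Triangle.isoMk _ _ (Iso.refl _) (Iso.refl _)
    (@asIso _ _ _ _ φ i₀) ((Category.comp_id _).trans (Category.id_comp _).symm)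
    (h.ext fun i => ?_) (h.ext fun i => ?_))
  · have c := (e i).hom.comm₂
    rw [h₂, ← hφ] at c
    exact ((p i).map_comp _ _).trans (c.trans ((Category.id_comp _).trans
      (congrArg _ (Category.id_comp _).symm)))
  · have c := (e i).hom.comm₃
    rw [h₁, ← hφ] at c
    have c' : ((p i).map T.mor₃ ≫ ((p i).commShiftIso (1 : ℤ)).hom.app T.obj₁) ≫
        (shiftFunctor _ (1 : ℤ)).map (𝟙 ((p i).obj T.obj₁)) =
        (p i).map φ ≫ (p i).map l ≫ ((p i).commShiftIso (1 : ℤ)).hom.app T.obj₁ := c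
    have c₂ : (p i).map T.mor₃ = (p i).map φ ≫ (p i).map l :=
      (cancel_mono (((p i).commShiftIso (1 : ℤ)).hom.app T.obj₁)).1
        (((Category.comp_id _).symm.trans ((congrArg _
          ((shiftFunctor _ (1 : ℤ)).map_id _).symm).trans c')).trans (Category.assoc ..).symm)
    exact (congrArg _ ((congrArg (T.mor₃ ≫ ·) ((shiftFunctor D (1 : ℤ)).map_id _)).trans
      (Category.comp_id _))).trans (c₂.trans ((p i).map_comp _ _).symm)

theorem pit_obj₃ (q : D ⥤ D') [q.CommShift ℤ] [q.IsTriangulated] {T : Triangle D}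
    (hT : T ∈ distTriang D) {U : Triangle D'} (hU : U ∈ distTriang D') (a : q.obj T.obj₁ ≅ U.obj₁)
    (b : q.obj T.obj₂ ≅ U.obj₂) (c : q.map T.mor₁ ≫ b.hom = a.hom ≫ U.mor₁) :
    Nonempty (U.obj₃ ≅ q.obj T.obj₃) :=
  ⟨(Triangle.π₃.mapIso (isoTriangleOfIso₁₂ _ _ (q.map_distinguished _ hT) hU a b c)).symm⟩

theorem pit_obj₁ (q : D ⥤ D') [q.CommShift ℤ] [q.IsTriangulated] {T : Triangle D}
    (hT : T ∈ distTriang D) {U : Triangle D'} (hU : U ∈ distTriang D') (a : q.obj T.obj₂ ≅ U.obj₂)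
    (b : q.obj T.obj₃ ≅ U.obj₃) (c : q.map T.mor₂ ≫ b.hom = a.hom ≫ U.mor₂) :
    Nonempty (U.obj₁ ≅ q.obj T.obj₁) := by
  obtain ⟨f, h₁, h₂⟩ := complete_distinguished_triangle_morphism₁ _ _ (q.map_distinguished _ hT) hU
    a.hom b.hom c
  have : IsIso f := isIso₁_of_isIso₂₃ (Triangle.homMk _ _ f a.hom b.hom h₁ c h₂)
    (q.map_distinguished _ hT) hU a.isIso_hom b.isIso_hom
  exact ⟨(asIso f).symm⟩

theorem IsPi.van (h : IsPi p) {X Y : D} {n : ℤ} (f : X ⟶ Y⟦n⟧)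
    (k : ∀ i (g : (p i).obj X ⟶ ((p i).obj Y)⟦n⟧), g = 0) : f = 0 := h.ext fun i => by
  rw [← cancel_mono (((p i).commShiftIso n).hom.app Y)]
  exact (k i _).trans (k i _).symm

theorem IsPi.frob (h : IsPi p) {J G : ∀ i, ObjectProperty (E i)}
    [∀ i, (J i).IsClosedUnderIsomorphisms] [∀ i, (G i).IsClosedUnderIsomorphisms]
    (k : ∀ i, Frob (J i) (G i)) : Frob (Pw p J) (Pw p G) where
  le _ a i := (k i).le _ (a i)
  proj n hn _ _ f a b := h.van f fun i g => (k i).proj n hn _ _ g (a i) (b i)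
  inj n hn _ _ f a b := h.van f fun i g => (k i).inj n hn _ _ g (a i) (b i)
  up X a := by
    choose T hT e b c using fun i => (k i).up _ (a i)
    obtain ⟨Y, t, ε, q⟩ := h.lift X fun i => (eqToIso (e i).symm).hom ≫ (T i).mor₁
    obtain ⟨Z, g, l, hU⟩ := distinguished_cocone_triangle t
    exact ⟨_, hU, rfl, fun i => (J i).prop_of_iso (ε i).symm (b i), fun i => (G i).prop_of_iso
      (pit_obj₃ (p i) hU (hT i) _ (ε i) (q i)).some (c i)⟩
  down X a := by
    choose T hT b c e using fun i => (k i).down _ (a i)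
    obtain ⟨Y, t, ε, q⟩ := h.lift' X fun i => (T i).mor₂ ≫ (eqToIso (e i)).hom
    obtain ⟨Z, g, l, hU⟩ := distinguished_cocone_triangle₁ t
    exact ⟨_, hU, fun i => (G i).prop_of_iso (pit_obj₁ (p i) hU (hT i) (ε i) (eqToIso (e i)).symm
      (((eqToIso (e i)).comp_inv_eq).2 ((q i).trans (Category.assoc ..).symm))).some (b i),
      fun i => (J i).prop_of_iso (ε i).symm (c i), rfl⟩
  cone X Y φ a b := by
    choose I Z ι g l c d hT using fun i => (k i).cone _ _ ((p i).map φ) (a i) (b i)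
    obtain ⟨I', t, ε, q⟩ := h.lift X ι
    obtain ⟨Z', g', l', hU⟩ := distinguished_cocone_triangle (biprod.lift φ t)
    refine ⟨I', Z', t, g', l', fun i => (J i).prop_of_iso (ε i).symm (c i), fun i => ?_, hU⟩
    have := preservesBinaryBiproduct_of_preservesBiproduct (p i) Y I'
    refine (G i).prop_of_iso (pit_obj₃ (p i) hU (hT i) (Iso.refl _)
      ((p i).mapBiprod Y I' ≪≫ biprod.mapIso (Iso.refl _) (ε i)) ?_).some (d i)
    change (p i).map (biprod.lift φ t) ≫ ((p i).mapBiprod Y I').hom ≫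
      biprod.map (𝟙 _) (ε i).hom = 𝟙 _ ≫ biprod.lift ((p i).map φ) (ι i)
    rw [Functor.mapBiprod_hom, Category.id_comp]
    ext
    · rw [Category.assoc, Category.assoc, biprod.map_fst, biprod.lift_fst_assoc, biprod.lift_fst,
        Category.comp_id, ← Functor.map_comp, biprod.lift_fst]
    · rw [Category.assoc, Category.assoc, biprod.map_snd, biprod.lift_snd_assoc, biprod.lift_snd,
        ← Category.assoc, ← Functor.map_comp, biprod.lift_snd, q]

variable {F : D ⥤ D'} [F.CommShift ℤ] [F.IsTriangulated] {f : ∀ i, E i ⥤ E' i}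
  [∀ i, (f i).CommShift ℤ] [∀ i, (f i).IsTriangulated]

/-- Localise at `Cl J` and lift `F`; there every pair of shifted generators is isomorphic to a pair
`(X, Y⟦1⟧)`. -/
theorem Frob.locOn [IsTriangulated D] {J G : ObjectProperty D} (φ : Frob J G)
    (kill : ∀ X, J X → IsZero (F.obj X))
    (h : ∀ X Y, G X → G Y → Function.Bijective (F.map : (X ⟶ Y⟦(1 : ℤ)⟧) → _)) :
    LocOn F (Cl J) (Cl G) := by
  have kill' : Cl J ≤ Zr.inverseImage F := Cl.le kill
  have inv : (Cl J).trW.IsInvertedBy F := fun _ _ _ s => isIso_of_kill kill' s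
  let π := (Cl J).trW.Q
  have : π.IsTriangulated := Triangulated.Localization.isTriangulated_functor _ _
  let H := Localization.lift F inv π
  let e : π ⋙ H ≅ F := Localization.fac F inv π
  let _ : H.CommShift ℤ := Functor.commShiftOfLocalization π (Cl J).trW ℤ F H
  have := NatTrans.commShift_iso_hom_of_localization π (Cl J).trW ℤ F H
  have := Localization.essSurj_mapArrow π (Cl J).trW
  have : H.IsTriangulated :=
    Functor.isTriangulated_of_precomp_iso (Localization.Lifting.iso π (Cl J).trW F H)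
  have k : LocOn π (Cl J) (Cl G) := locOn_of_isLocalization (Cl.le fun X a => Cl.of (φ.le X a))
  refine k.comp_ff e (k.map_cl ▸ ff_of_gen₂ ?_)
  rintro n _ _ ⟨X, a, ⟨i⟩⟩ ⟨Y, b, ⟨j⟩⟩
  have := φ.tg k ⟨X, a⟩
  obtain ⟨Y', c, ⟨d⟩⟩ := ObjectProperty.le_shift
    (fun Z => ∃ Y, G Y ∧ Nonempty (Z ≅ π.obj Y) : ObjectProperty _) (n - 1) _ ⟨Y, b, ⟨j.symm⟩⟩
  refine lc_iso i ((π.commShiftIso (1 : ℤ)).app Y' ≪≫ (shiftFunctor _ (1 : ℤ)).mapIso d.symm ≪≫
    ((shiftFunctorAdd' _ (n - 1) 1 n (by omega)).app _).symm) ?_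
  refine (Function.Bijective.of_comp_iff _
    ⟨φ.injective k 1 one_pos a c, φ.surj k 1 zero_le_one a c⟩).1 ⟨fun x y z => (h X Y' a c).1 ?_,
      fun ψ => ?_⟩
  · rw [← NatIso.naturality_1 e x, ← NatIso.naturality_1 e y]
    exact congrArg (fun t => e.inv.app X ≫ t ≫ e.hom.app _) z
  · obtain ⟨x, hx⟩ := (h X Y' a c).2 (e.inv.app X ≫ ψ ≫ e.hom.app _)
    refine ⟨x, (NatIso.naturality_2 e x).symm.trans ?_⟩
    rw [hx]
    simp

theorem IsPi.full (h : IsPi p) [∀ i, Tg (N i)] (k : ∀ i, LocOn (f i) (N i) (S i)) {X Y : D}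
    (a : Pw p S X) (b : Pw p S Y) (φ : ∀ i, (f i).obj ((p i).obj X) ⟶ (f i).obj ((p i).obj Y)) :
    ∃ (Y' : D) (s : Y ⟶ Y') (g : X ⟶ Y'), (Pw p N).trW s ∧
      ∀ i, φ i ≫ (f i).map ((p i).map s) = (f i).map ((p i).map g) := by
  choose Z s g hs q using fun i => (k i).full (a i) (b i) (φ i)
  obtain ⟨Y', t, ε, r⟩ := h.lift Y s
  obtain ⟨g', r'⟩ := h.pre fun i => g i ≫ (ε i).inv
  have r₁ : ∀ i, (p i).map t = s i ≫ (ε i).inv := fun i => (Iso.eq_comp_inv _).2 (r i)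
  refine ⟨Y', t, g', (pw_trW t).2 fun i => ?_, fun i => ?_⟩
  · rw [r₁]
    exact MorphismProperty.RespectsIso.postcomp _ _ _ (hs i)
  · rw [r₁, r', Functor.map_comp, Functor.map_comp, ← q, Category.assoc]

theorem IsPi.faith (h : IsPi p) [∀ i, Tg (N i)] (k : ∀ i, LocOn (f i) (N i) (S i)) {X Y : D}
    (a : Pw p S X) (b : Pw p S Y) (g : X ⟶ Y) (z : ∀ i, (f i).map ((p i).map g) = 0) :
    ∃ (Y' : D) (s : Y ⟶ Y'), (Pw p N).trW s ∧ g ≫ s = 0 := by
  choose Z s hs q using fun i => (k i).faith (a i) (b i) _ (z i)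
  obtain ⟨Y', t, ε, r⟩ := h.lift Y s
  have r₁ : ∀ i, (p i).map t = s i ≫ (ε i).inv := fun i => (Iso.eq_comp_inv _).2 (r i)
  refine ⟨Y', t, (pw_trW t).2 fun i => ?_, h.ext fun i => ?_⟩
  · rw [r₁]
    exact MorphismProperty.RespectsIso.postcomp _ _ _ (hs i)
  · rw [Functor.map_comp, r₁, ← Category.assoc, q, zero_comp, Functor.map_zero]

theorem pit_nat (e : ∀ i, F ⋙ p' i ≅ p i ⋙ f i) (i : I) {X Y : D} (g : X ⟶ Y) :
    (p' i).map (F.map g) = (e i).hom.app X ≫ (f i).map ((p i).map g) ≫ (e i).inv.app Y :=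
  (NatIso.naturality_2 (e i) g).symm

theorem pit_nat' (e : ∀ i, F ⋙ p' i ≅ p i ⋙ f i) (i : I) {X Y : D} (g : X ⟶ Y) :
    (f i).map ((p i).map g) = (e i).inv.app X ≫ (p' i).map (F.map g) ≫ (e i).hom.app Y :=
  (NatIso.naturality_1 (e i) g).symm

theorem pit_sq (e : ∀ i, F ⋙ p' i ≅ p i ⋙ f i) (i : I) {X Y Z : D} {s : Y ⟶ Z} {g : X ⟶ Z}
    {ψ : (p' i).obj (F.obj X) ⟶ (p' i).obj (F.obj Y)}
    (q : ((e i).inv.app X ≫ ψ ≫ (e i).hom.app Y) ≫ (f i).map ((p i).map s) =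
      (f i).map ((p i).map g)) : ψ ≫ (p' i).map (F.map s) = (p' i).map (F.map g) := by
  rw [pit_nat e, pit_nat e, ← q]
  simp

variable (h : IsPi p) (e : ∀ i, F ⋙ p' i ≅ p i ⋙ f i)
include h e

theorem IsPi.map_bij (h' : IsPi p') {X Y : D} (k : ∀ i, Function.Bijective
    ((f i).map : ((p i).obj X ⟶ (p i).obj Y) → _)) :
    Function.Bijective (F.map : (X ⟶ Y) → _) := by
  refine ⟨fun x y z => h.ext fun i => (k i).1 (by rw [pit_nat' e, pit_nat' e, z]), fun ψ => ?_⟩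
  choose x hx using fun i => (k i).2 ((e i).inv.app X ≫ (p' i).map ψ ≫ (e i).hom.app Y)
  obtain ⟨g, hg⟩ := h.pre x
  refine ⟨g, h'.ext fun i => ?_⟩
  rw [pit_nat e, hg, hx]
  simp

theorem IsPi.locOn (h' : IsPi p') [∀ i, Tg (N i)] (k : ∀ i, LocOn (f i) (N i) (S i)) :
    LocOn F (Pw p N) (Pw p S) where
  le _ a i := (k i).le _ (a i)
  kill X a := h'.isZero fun i => ((k i).kill _ (a i)).of_iso ((e i).app X)
  full {X Y} a b φ := by
    obtain ⟨Y', s, g, hs, q⟩ := h.full k a b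
      fun i => (e i).inv.app X ≫ (p' i).map φ ≫ (e i).hom.app Y
    exact ⟨Y', s, g, hs, h'.ext fun i => ((p' i).map_comp _ _).trans (pit_sq e i (q i))⟩
  faith a b g z := h.faith k a b g fun i => by
    rw [pit_nat' e, z, Functor.map_zero, zero_comp, comp_zero]

theorem IsPi.onto (h' : IsPi p') [∀ i, Tg (S i)]
    (k : ∀ i Y, S' i Y → ∃ X, S i X ∧ Nonempty ((f i).obj X ≅ Y)) (Y : D') (b : Pw p' S' Y) :
    ∃ X, Pw p S X ∧ Nonempty (F.obj X ≅ Y) := by
  choose X a d using fun i => k i _ (b i)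
  obtain ⟨X', ε⟩ := h.surj X
  exact ⟨X', fun i => (S i).prop_of_iso (ε i).some.symm (a i),
    h'.iso fun i => ⟨(e i).app X' ≪≫ (f i).mapIso (ε i).some ≪≫ (d i).some⟩⟩

theorem IsPi.loc (h' : IsPi p') [∀ i, Tg (N i)] [∀ i, Tg (S i)] [∀ i, Tg (S' i)]
    (k : ∀ i, Loc (f i) (N i) (S i) (S' i)) : Loc F (Pw p N) (Pw p S) (Pw p' S') where
  toLocOn := h.locOn e h' fun i => (k i).toLocOn
  thick X a z i := (k i).thick _ (a i) (((p' i).map_isZero z).of_iso ((e i).app X).symm)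
  maps X a i := (S' i).prop_of_iso ((e i).app X).symm ((k i).maps _ (a i))
  surj := h.onto e h' fun i => (k i).surj

theorem IsPi.deq (h' : IsPi p') [∀ i, Tg (S i)] [∀ i, Tg (S' i)]
    (k : ∀ i, Deq (f i) (S i) (S' i)) : Deq F (Pw p S) (Pw p' S') where
  ff _ _ a b := h.map_bij e h' fun i => (k i).ff (a i) (b i)
  maps X a i := (S' i).prop_of_iso ((e i).app X).symm ((k i).maps _ (a i))
  surj := h.onto e h' fun i => (k i).surj

theorem IsPi.of_loc [∀ i, Tg (N i)] (kF : Loc F (Pw p N) ⊤ ⊤) (k : ∀ i, Loc (f i) (N i) ⊤ ⊤) :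
    IsPi p' where
  bij X' Y' := by
    obtain ⟨X, -, ⟨a⟩⟩ := kF.surj X' trivial
    obtain ⟨Y, -, ⟨b⟩⟩ := kF.surj Y' trivial
    refine ⟨fun x y z => ?_, fun ψ => ?_⟩
    · obtain ⟨Z, s, g, hs, q⟩ := kF.full (X := X) (Y := Y) trivial trivial (a.hom ≫ (x - y) ≫ b.inv)
      obtain ⟨W, t, ht, r⟩ := h.faith (S := fun _ => ⊤) (fun i => (k i).toLocOn)
        (fun _ => trivial) (fun _ => trivial) g fun i => by
          have z' : (p' i).map x = (p' i).map y := congrFun z i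
          rw [pit_nat' e, ← q]
          simp [z']
      have := isIso_of_kill kF.kill hs
      have := isIso_of_kill kF.kill ht
      rw [← sub_eq_zero, ← cancel_epi a.hom, ← cancel_mono b.inv, ← cancel_mono (F.map s),
        ← cancel_mono (F.map t), Category.assoc a.hom, q, ← F.map_comp, r]
      simp
    · obtain ⟨Z, s, g, hs, q⟩ := h.full (S := fun _ => ⊤) (fun i => (k i).toLocOn)
        (X := X) (Y := Y) (fun _ => trivial) (fun _ => trivial) fun i => (e i).inv.app X ≫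
          ((p' i).map a.hom ≫ ψ i ≫ (p' i).map b.inv) ≫ (e i).hom.app Y
      have := isIso_of_kill kF.kill hs
      refine ⟨a.inv ≫ F.map g ≫ inv (F.map s) ≫ b.hom, funext fun i => ?_⟩
      simp only [Functor.map_comp, ← pit_sq e i (q i)]
      simp
  surj X' := by
    choose X a d using fun i => (k i).surj (X' i) trivial
    obtain ⟨Y, ε⟩ := h.surj X
    exact ⟨F.obj Y, fun i => ⟨(e i).app Y ≪≫ (f i).mapIso (ε i).some ≪≫ (d i).some⟩⟩

end PiT

end Pool.Agent.Lib.MP_5d3e93_al.K
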