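import Pool.Agent.Lib.MP_5d3e93_al.K.Tw
import Pool.Agent.Lib.MP_5d3e93_al.DefsK

/-! Comparison of the two descriptions of binary multicomplexes. -/

open CategoryTheory Limits

namespace Pool.Agent.Lib.MP_5d3e93_al

universe w v u

/-- Isomorphisms of categories with short exact sequences. -/
structure Cmp (E : Gr.Ex.{v, u}) (E' : Exc.{v, u}) where
  Φ : E.C ⥤ E'.C
  [full : Φ.Full]
  [faith : Φ.Faithful]
  surj : Function.Surjective Φ.obj
  ses : ∀ {X Y Z : E.C} (i : X ⟶ Y) (p : Y ⟶ Z), E'.ses (Φ.map i) (Φ.map p) ↔ E.ses i p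
  zero : ∀ {X Y Z : E.C} (i : X ⟶ Y) (p : Y ⟶ Z), E.ses i p → i ≫ p = 0

attribute [instance] Cmp.full Cmp.faith

namespace Cmp

variable {E : Gr.Ex.{v, u}} {E' : Exc.{v, u}} (c : Cmp E E')

theorem isZero (X : E.C) : IsZero (c.Φ.obj X) ↔ IsZero X :=
  ⟨fun h => (IsZero.iff_id_eq_zero X).2 (c.Φ.map_injective (h.eq_of_src _ _)), fun h =>
    ⟨fun Y => by
      obtain ⟨Y, rfl⟩ := c.surj Y
      exact ⟨⟨⟨c.Φ.map 0⟩, fun f => by rw [← c.Φ.map_preimage f, h.eq_of_src (c.Φ.preimage f) 0]; rfl⟩⟩,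
    fun Y => by
      obtain ⟨Y, rfl⟩ := c.surj Y
      exact ⟨⟨⟨c.Φ.map 0⟩, fun f => by rw [← c.Φ.map_preimage f, h.eq_of_tgt (c.Φ.preimage f) 0]; rfl⟩⟩⟩⟩

/-- The functor on binary complexes. -/
def bin : E.Bq.C ⥤ E'.Bq.C where
  obj P := ⟨fun n => c.Φ.obj (P.obj.X n), fun b n => c.Φ.map (P.obj.d b n),
    P.property.1.imp fun _ h n k => (c.isZero _).2 (h n k), fun b => by
      obtain ⟨Z, i, p, z, h⟩ := P.property.2 b
      exact ⟨_, fun n => c.Φ.map (i n), fun n => c.Φ.map (p n), (c.isZero _).2 z, fun n =>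
        ⟨(c.ses _ _).2 (h n).1, by rw [(h n).2, c.Φ.map_comp]⟩⟩⟩
  map f := ⟨fun n => c.Φ.map (f.hom.1 n), fun b n =>
    (c.Φ.map_comp ..).symm.trans ((congrArg _ (f.hom.2 b n)).trans (c.Φ.map_comp ..))⟩
  map_id _ := Exc.Hom.ext (funext fun _ => c.Φ.map_id _)
  map_comp _ _ := Exc.Hom.ext (funext fun _ => c.Φ.map_comp ..)

instance : c.bin.Full := ⟨fun f => ⟨⟨⟨fun n => c.Φ.preimage (f.f n), fun b n =>
  c.Φ.map_injective (by
    rw [c.Φ.map_comp, c.Φ.map_comp, c.Φ.map_preimage, c.Φ.map_preimage]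
    exact f.comm b n)⟩⟩,
    Exc.Hom.ext (funext fun _ => c.Φ.map_preimage _)⟩⟩

instance : c.bin.Faithful := ⟨fun e => ObjectProperty.hom_ext _ (Subtype.ext (funext fun n =>
  c.Φ.map_injective (congrFun (congrArg Exc.Hom.f e) n)))⟩

theorem bin_surj : Function.Surjective c.bin.obj := by
  rintro ⟨X, d, bdd, acyc⟩
  choose Y hY using fun n => c.surj (X n)
  obtain rfl : (fun n => c.Φ.obj (Y n)) = X := funext hY
  have a (b) : ∃ (Z : ℕ → E.C) (i : ∀ n, Z (n + 1) ⟶ Y n) (p : ∀ n, Y n ⟶ Z n), IsZero (Z 0) ∧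
      ∀ n, E.ses (i n) (p n) ∧ c.Φ.preimage (d b n) = p (n + 1) ≫ i n := by
    obtain ⟨Z, i, p, z, h⟩ := acyc b
    choose W hW using fun n => c.surj (Z n)
    obtain rfl : (fun n => c.Φ.obj (W n)) = Z := funext hW
    exact ⟨W, fun n => c.Φ.preimage (i n), fun n => c.Φ.preimage (p n), (c.isZero _).1 z, fun n =>
      ⟨(c.ses _ _).1 (by simpa using (h n).1), c.Φ.map_injective (by simpa using (h n).2)⟩⟩
  refine ⟨⟨⟨Y, fun b n => c.Φ.preimage (d b n), fun b n => ?_⟩,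
    bdd.imp fun _ h n k => (c.isZero _).1 (h n k), a⟩, ?_⟩
  · obtain ⟨Z, i, p, -, h⟩ := a b
    rw [(h _).2, (h _).2, Category.assoc, reassoc_of% c.zero _ _ (h (n + 1)).1]
    simp
  · have e : (fun b n => c.Φ.map (c.Φ.preimage (d b n))) = d := by simp
    change Exc.Bin.mk (fun n => c.Φ.obj (Y n)) (fun b n => c.Φ.map (c.Φ.preimage (d b n))) _ _ = _
    congr 1

/-- One more direction. -/
def bq : Cmp E.Bq E'.Bq where
  Φ := c.bin
  surj := c.bin_surj
  ses _ _ := forall_congr' fun _ => c.ses _ _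
  zero _ _ h := ObjectProperty.hom_ext _ (Subtype.ext (funext fun n => c.zero _ _ (h n)))

include c in
theorem k0 (h : Subsingleton E.K0) : Subsingleton E'.K0 := by
  refine @Function.Surjective.subsingleton E.K0 E'.K0 (QuotientAddGroup.map _ _
    (FreeAbelianGroup.map c.Φ.obj) ((AddSubgroup.closure_le _).2 ?_)) h fun y => ?_
  · rintro _ ⟨X, Y, Z, i, p, a, rfl⟩
    exact AddSubgroup.subset_closure ⟨_, _, _, _, _, (c.ses i p).2 a, by simp⟩
  · obtain ⟨y, rfl⟩ := QuotientAddGroup.mk_surjective y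
    refine ⟨QuotientAddGroup.mk (FreeAbelianGroup.map (Function.surjInv c.surj) y),
      (QuotientAddGroup.map_mk ..).trans (congrArg _ ?_)⟩
    rw [← FreeAbelianGroup.map_comp_apply, (Function.rightInverse_surjInv c.surj).id,
      FreeAbelianGroup.map_id_apply]

theorem iter (n : ℕ) : ∀ {E : Gr.Ex.{v, u}} {E' : Exc.{v, u}}, Cmp E E' →
    Nonempty (Cmp (Gr.Ex.Bq^[n] E) (Exc.Bq^[n] E')) := by
  induction n with
  | zero => exact fun c => ⟨c⟩
  | succ n ih => exact fun c => ih c.bq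

end Cmp

theorem spl_zero {D : Type u} [Category.{v} D] [Preadditive D] {X Y Z : D} {i : X ⟶ Y} {p : Y ⟶ Z}
    {r : Y ⟶ X} {s : Z ⟶ Y} (a : i ≫ r = 𝟙 X) (b : s ≫ p = 𝟙 Z) (c : r ≫ i + p ≫ s = 𝟙 Y) :
    i ≫ p = 0 := by
  have e : i ≫ p ≫ s = 0 := by simpa [reassoc_of% a] using congrArg (i ≫ ·) c
  rw [← Category.comp_id p, ← b, reassoc_of% e, zero_comp]

theorem kzero_pub {C : Type u} [Category.{v} C] [Preadditive C] (h : Gr.KZero C) : KZero C :=
  fun n => (Cmp.iter n (E := Gr.spl.{v, u} (Idempotents.Karoubi C))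
    (E' := Exc.spl.{v, u} (Idempotents.Karoubi C))
    { Φ := 𝟭 (Idempotents.Karoubi C)
      full := Functor.Full.id
      faith := Functor.Faithful.id
      surj := Function.surjective_id
      ses := fun _ _ => Iff.rfl
      zero := fun _ _ ⟨_, _, a, b, c⟩ => spl_zero a b c }).elim fun c => c.k0 (h n)

theorem KZ.pub {Γ : Type w} [Group Γ] {C : Type u} [Category.{v} C] [Preadditive C]
    [HasBinaryBiproducts C] [HasZeroObject C] {σ : Act Γ C} (h : KZ σ) : KZero (TwZ σ) :=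
  kzero_pub (kz_iff_kzero.1 h)

end Pool.Agent.Lib.MP_5d3e93_al
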