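import Pool.Agent.Lib.MP_5d3e93_al.GQ.HyL

/-! Linear groups over commutative rings: reduction to finitely many fields. -/

open Matrix

namespace Pool.Agent.Lib.MP_5d3e93_al

universe w

section
variable {H : Type*} [Group H] {R : Type*} [CommRing R] {n : ℕ}

theorem ringA_ker {S : Type*} [CommRing S] (f : R →+* S) (φ : H →* GL (Fin n) R) (g : H) :
    g ∈ ((GeneralLinearGroup.map f).comp φ).ker ↔
      ∀ i j, f (((φ g : Matrix (Fin n) (Fin n) R) - 1) i j) = 0 := by
  rw [MonoidHom.mem_ker, Units.ext_iff, ← sub_eq_zero, ← Matrix.ext_iff]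
  have e : (((GeneralLinearGroup.map f).comp φ g : GL (Fin n) S) : Matrix (Fin n) (Fin n) S) -
      ((1 : GL (Fin n) S) : Matrix (Fin n) (Fin n) S) =
      f.mapMatrix ((φ g : Matrix (Fin n) (Fin n) R) - 1) := by
    rw [map_sub, map_one]
    rfl
  rw [e]
  rfl

/-- The congruence subgroup of an ideal. -/
def ringA_cg (φ : H →* GL (Fin n) R) (I : Ideal R) : Subgroup H :=
  ((GeneralLinearGroup.map (Ideal.Quotient.mk I)).comp φ).ker

theorem ringA_mem {φ : H →* GL (Fin n) R} {I : Ideal R} {g : H} :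
    g ∈ ringA_cg φ I ↔ ∀ i j, ((φ g : Matrix (Fin n) (Fin n) R) - 1) i j ∈ I :=
  (ringA_ker _ φ g).trans (forall₂_congr fun _ _ => Ideal.Quotient.eq_zero_iff_mem)

theorem ringA_sq {φ : H →* GL (Fin n) R} {I J : Ideal R} (h : I * I ≤ J)
    (k : Hyper (ringA_cg φ J)) : Hyper (ringA_cg φ I) := by
  refine Hyper.of_comm (φ := (GeneralLinearGroup.map (Ideal.Quotient.mk J)).comp φ) k
    fun x a y b => Units.ext ?_
  have z {u v : H} (a : u ∈ ringA_cg φ I) (b : v ∈ ringA_cg φ I) : (Ideal.Quotient.mk J).mapMatrix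
      (((φ u : Matrix (Fin n) (Fin n) R) - 1) * ((φ v : Matrix (Fin n) (Fin n) R) - 1)) = 0 := by
    ext i j
    refine Ideal.Quotient.eq_zero_iff_mem.2 (h ?_)
    rw [Matrix.mul_apply]
    exact sum_mem fun l _ => Ideal.mul_mem_mul (ringA_mem.1 a i l) (ringA_mem.1 b l j)
  have e : (φ x : Matrix (Fin n) (Fin n) R) * φ y - φ y * φ x =
      ((φ x : Matrix (Fin n) (Fin n) R) - 1) * ((φ y : Matrix (Fin n) (Fin n) R) - 1) -
      ((φ y : Matrix (Fin n) (Fin n) R) - 1) * ((φ x : Matrix (Fin n) (Fin n) R) - 1) := by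
    noncomm_ring
  have e' := congrArg (Ideal.Quotient.mk J).mapMatrix e
  rw [map_sub, map_sub, z a b, z b a, sub_zero, sub_eq_zero, map_mul, map_mul] at e'
  exact e'

theorem ringA_pow {φ : H →* GL (Fin n) R} {J : Ideal R} (m : ℕ)
    (k : Hyper (ringA_cg φ (J ^ (m + 1)))) : Hyper (ringA_cg φ J) := by
  induction m with
  | zero => rwa [zero_add, pow_one] at k
  | succ m ih =>
    refine ih (ringA_sq ?_ k)
    rw [← pow_add]
    exact Ideal.pow_le_pow_right (by omega)

theorem ringA_nil {φ : H →* GL (Fin n) R} (h : Hyper φ.ker) {J : Ideal R} {m : ℕ}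
    (k : J ^ m ≤ ⊥) : Hyper (ringA_cg φ J) := by
  refine ringA_pow m (h.le fun g a => Units.ext (sub_eq_zero.1 (Matrix.ext fun i j => ?_)))
  exact k (Ideal.pow_le_pow_right m.le_succ (ringA_mem.1 a i j))

/-- The entries of a finitely generated group lie in a Noetherian subring. -/
theorem ringA_sub (hH : Group.FG H) (φ : H →* GL (Fin n) R) :
    ∃ (A : Subring R) (ψ : H →* GL (Fin n) A), IsNoetherianRing A ∧ ψ.ker ≤ φ.ker := by
  obtain ⟨T, hT, fT⟩ := Group.fg_iff.1 hH
  let s : Set R := (fun x : H × Fin n × Fin n => (φ x.1 : Matrix (Fin n) (Fin n) R) x.2.1 x.2.2) ''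
    ((T ∪ T⁻¹) ×ˢ Set.univ)
  have a (g : H) : ∀ i j, (φ g : Matrix (Fin n) (Fin n) R) i j ∈ Subring.closure s := by
    have : g ∈ Subgroup.closure T := hT ▸ trivial
    induction this using Subgroup.closure_induction'' with
    | mem g e => exact fun i j => Subring.subset_closure ⟨(g, i, j), ⟨.inl e, trivial⟩, rfl⟩
    | inv_mem g e =>
      exact fun i j => Subring.subset_closure ⟨(g⁻¹, i, j), ⟨.inr (Set.inv_mem_inv.2 e), trivial⟩, rfl⟩
    | one =>
      intro i j
      rw [map_one, Units.val_one, Matrix.one_apply]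
      split_ifs
      exacts [one_mem _, zero_mem _]
    | mul g h _ _ e f =>
      intro i j
      rw [map_mul, Units.val_mul, Matrix.mul_apply]
      exact sum_mem fun l _ => mul_mem (e i l) (f l j)
  have i : Function.Injective ((Subring.closure s).subtype.mapMatrix (m := Fin n)) :=
    Matrix.map_injective Subtype.val_injective
  let u : H → Matrix (Fin n) (Fin n) (Subring.closure s) := fun g => .of fun i j => ⟨_, a g i j⟩
  have hu (g) : (Subring.closure s).subtype.mapMatrix (u g) = φ g := rfl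
  let ψ : H →* Matrix (Fin n) (Fin n) (Subring.closure s) :=
    ⟨⟨u, i (by rw [hu, map_one, map_one, Units.val_one])⟩,
      fun g h => i (by rw [map_mul, hu, hu, hu, map_mul, Units.val_mul])⟩
  refine ⟨_, ψ.toHomUnits, is_noetherian_subring_closure s
    (((fT.union fT.inv).prod Set.finite_univ).image _), fun g e => Units.ext ?_⟩
  have e' : u g = 1 := congrArg Units.val e
  rw [← hu, e', map_one, Units.val_one]

end

theorem ring_ind (P : ∀ (L : Type w) [Group L], Prop) (h0 : P PUnit)
    (step : ∀ (L K : Type w) [Group L] [Field K] (n : ℕ), P L → P (GL (Fin n) K × L))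
    (pull : ∀ (L L2 : Type w) [Group L] [Group L2] (f : L2 →* L), Hyper f.ker → P L → P L2)
    {H : Type w} [Group H] (hH : Group.FG H) {R : Type w} [CommRing R] {n : ℕ}
    (φ : H →* GL (Fin n) R) (h : Hyper φ.ker) : P H := by
  obtain ⟨A, ψ, _, k⟩ := ringA_sub hH φ
  have key (s : Multiset (PrimeSpectrum A)) : ∃ (L : Type w) (_ : Group L) (f : H →* L)
      (J : Ideal A), P L ∧ J ^ s.card ≤ (s.map PrimeSpectrum.asIdeal).prod ∧
        f.ker ≤ ringA_cg ψ J := by
    induction s using Multiset.induction_on with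
    | empty => exact ⟨PUnit, inferInstance, 1, ⊤, h0, by simp, fun _ _ => ringA_mem.2 fun _ _ => trivial⟩
    | cons p s ih =>
      obtain ⟨L, _, f, J, a, b, c⟩ := ih
      let t : A →+* FractionRing (A ⧸ p.asIdeal) :=
        (algebraMap (A ⧸ p.asIdeal) _).comp (Ideal.Quotient.mk _)
      refine ⟨_, inferInstance, ((GeneralLinearGroup.map t).comp ψ).prod f, p.asIdeal ⊓ J,
        step L _ n a, ?_, fun g e => ringA_mem.2 fun i j => ⟨?_, ?_⟩⟩
      · rw [Multiset.card_cons, Multiset.map_cons, Multiset.prod_cons, pow_succ']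
        exact Ideal.mul_mono inf_le_left ((Ideal.pow_right_mono inf_le_right _).trans b)
      · exact Ideal.Quotient.eq_zero_iff_mem.1 ((map_eq_zero_iff _ (IsFractionRing.injective _ _)).1
          ((ringA_ker t ψ g).1 (congrArg Prod.fst e) i j))
      · exact ringA_mem.1 (c (congrArg Prod.snd e)) i j
  obtain ⟨s, hs⟩ := PrimeSpectrum.exists_primeSpectrum_prod_le A ⊥
  obtain ⟨L, _, f, J, a, b, c⟩ := key s
  exact pull L H f ((ringA_nil (h.le k) (b.trans hs)).le c) a

end Pool.Agent.Lib.MP_5d3e93_al
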