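import Pool.Agent.Lib.MP_5d3e93_al.K.SDf
import Pool.Agent.Lib.MP_5d3e93_al.K.CTe
import Pool.Agent.Lib.MP_5d3e93_al.K.CLo

/-! Small boxes contract to their centre. -/

open CategoryTheory Limits ZeroObject Filter MulAction

namespace Pool.Agent.Lib.MP_5d3e93_al

universe w w' w'' v u y

open Gr

section
variable {G : Type w} [Group G] {C : Type u} [Category.{v} C] [Preadditive C] [HasZeroObject C]

namespace Bg

variable {J : Type} {l : Filter J} {h : J → ℕ} {n : ℕ}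

theorem sbs_mid {p q h : ℕ} (hp : p ≤ q) (hq : q ≤ p + 1) : 2 * p * h ≤ (p + q) * h ∧
    (p + q) * h ≤ 2 * p * h + h ∧ (p + q) * h ≤ 2 * q * h ∧ 2 * q * h ≤ (p + q) * h + h := by
  refine ⟨Nat.mul_le_mul_right _ (by omega), ?_, Nat.mul_le_mul_right _ (by omega), ?_⟩
  · rw [← Nat.succ_mul]; exact Nat.mul_le_mul_right _ (by omega)
  · rw [← Nat.succ_mul]; exact Nat.mul_le_mul_right _ (by omega)

theorem sbs_ne (h : ℕ) (h0 : 0 < h) (b : Fin n → ℕ) : {L | Adm h 0 b b L}.Nonempty := by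
  classical
  refine ⟨Finset.univ.filter fun i => ∀ j, b j ≠ lv h i, fun i m j => ?_, fun i m => ?_⟩
  · have := (Finset.mem_filter.1 m).2 j
    omega
  · simp only [Finset.mem_filter, Finset.mem_univ, true_and, not_forall, not_not] at m
    obtain ⟨j, m⟩ := m
    exact ⟨j, by omega, by omega⟩

/-- `ZO.contr` towards the centre of the box, then `zo_cst`. -/
theorem zo_base {S : GC G C} {W : Type w'} [MulAction G W] {P : Pf G W (Finset (Fin (n + 1)))}
    (hloc : ∀ A : Set (Finset (Fin (n + 1))), A.Nonempty → S.Zq (P.cap A).nr.rl)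
    (hh : Tendsto h l atTop) {p q : Fin n → ℕ} (hp : ∀ i, p i ≤ q i) (hq : ∀ i, q i ≤ p i + 1) :
    S.ZO l (P.box h p q) := by
  let b : J → Fin n → ℕ := fun j i => (p i + q i) * h j
  have b1 (j i) : 2 * p i * h j ≤ b j i ∧ b j i ≤ 2 * p i * h j + h j ∧ b j i ≤ 2 * q i * h j ∧
      2 * q i * h j ≤ b j i + h j := sbs_mid (hp i) (hq i)
  let φ : ℕ → J → Pt n W → Pt n W := fun m j x =>
    ⟨fun i => max (x.t i - m) (min (b j i) (x.t i + m)), x.w⟩
  have f0 (j x) : φ 0 j x = x := Pt.ext (funext fun i => by simp only [φ]; omega) rfl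
  have f1 (m j x) (a : mvRn (h j) 0 p q x) : mvRn (h j) 0 p q (φ m j x) := fun i => by
    have := a i
    have := b1 j i
    simp only [φ]
    omega
  have f2 (j x) (a : mvRn (h j) 0 p q x) : (φ (2 * h j) j x).t = b j := funext fun i => by
    have := a i
    have := b1 j i
    simp only [φ]
    omega
  have f3 (r j) (hr : r + 1 < h j) (m m' : ℕ) (e : m ≤ m' + 1) (e' : m' ≤ m + 1) (x) (g : G) (y)
      (c : (P.box h p q).n r j x g y) : (P.box h p q).n (r + 1) j (φ m j x) g (φ m' j y) := by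
    refine ⟨⟨fun i => ?_, fun L k => c.1.2 L (mvAdm (R := 0) hr r.le_succ hq
      (fun i => (c.2.1 i).2) (fun i => (c.2.2 i).1) (fun i => ?_) (fun i => ?_) k)⟩,
      f1 _ _ _ c.2.1, f1 _ _ _ c.2.2⟩
    · have : y.t i ≤ x.t i + r := c.1.1 i
      change max _ _ ≤ max _ _ + (r + 1)
      omega
    · change _ ≤ max _ _ ∨ b j i ≤ max _ _
      omega
    · change max (y.t i - m') _ ≤ y.t i ∨ max _ _ ≤ b j i
      omega
  let Q (j : J) : Rl G (Pt n W) := ⟨fun x g y => x.t = b j ∧ y.t = b j ∧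
    (P.cap {L | Adm (h j) 0 (b j) (b j) L}).nr.rl.r x.w g y.w,
    fun c d => ⟨c.1, d.2.1, (Nr.rl _).trans c.2.2 d.2.2⟩⟩
  refine GC.ZO.contr φ (fun r => ⟨r + 1, (hh.eventually_gt_atTop (r + 1)).mono
      fun j hr m x g y c => ⟨f3 r j hr _ _ (by omega) (by omega) x g y c,
        f3 r j hr _ _ (by omega) (by omega) x g y c, f3 r j hr _ _ (by omega) (by omega) x g y c⟩⟩)
    (fun r => ⟨r, .of_forall fun j x g y c => by rw [f0]; exact c⟩)
    (fun r => ⟨r, .of_forall fun j x g y c => by rw [f0]; exact c⟩) (fun j => 2 * h j)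
    (μ := Ar.cst Q) (fun r => ⟨0, (hh.eventually_gt_atTop r).mono fun j hr x g y c =>
      ⟨f2 j x c.2.1, f2 j y c.2.2, fun L k => c.1.2 L (mvAdm (R := 0) hr le_rfl hq
        (fun i => (c.2.1 i).2) (fun i => (c.2.2 i).1) (fun i => .inr le_rfl) (fun i => .inr le_rfl)
        (mvAdm0 hr k))⟩⟩)
    (fun r => ⟨0, .of_forall fun j x g y c => ?_⟩)
    (GC.zo_cst Q ((hh.eventually_gt_atTop 0).mono fun j hj =>
      GC.Zq.retract Pt.w (fun x => ⟨b j, x⟩) (fun _ _ _ c => c.2.2) (fun _ _ _ c => ⟨rfl, rfl, c⟩)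
        (fun _ _ _ c => ⟨⟨c.1, rfl, c.2.2⟩, rfl, c.2.1, c.2.2⟩) (hloc _ (sbs_ne _ hj _))))
  obtain ⟨c1, c2, c3⟩ := c
  have m (z : Pt n W) (e : z.t = b j) : mvRn (h j) 0 p q z := fun i => by
    have := b1 j i
    rw [e]
    omega
  refine ⟨⟨fun i => ?_, fun L k => c3 L ?_⟩, m x c1, m y c2⟩
  · exact (congrFun (c2.trans c1.symm) i).le
  · have k' : Adm (h j) 0 x.t y.t L := k
    rwa [c1, c2] at k'

end Bg

end

end Pool.Agent.Lib.MP_5d3e93_al
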