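import Pool.Agent.Lib.MP_5d3e93_al.K.SDf
import Pool.Agent.Lib.MP_5d3e93_al.QC

/-! From stable products of commutators to controlled triviality. -/

open CategoryTheory Limits ZeroObject

namespace Pool.Agent.Lib.MP_5d3e93_al

universe w v u y

namespace GC

open Lo CF

variable {G : Type w} [Group G] {C : Type u} [Category.{v} C] [Preadditive C] {S : GC G C}

section
variable {Φ : S.CF} {A B : C}

theorem CF.Tq.comm0 {a a' b b' : A ⟶ A} (ha : Φ.Ct 0 a) (ha' : Φ.Ct 0 a') (hb : Φ.Ct 0 b)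
    (hb' : Φ.Ct 0 b') (e1 : a ≫ a' = 𝟙 A) (e2 : a' ≫ a = 𝟙 A) (e3 : b ≫ b' = 𝟙 A)
    (e4 : b' ≫ b = 𝟙 A) : Φ.Tq 0 (a ≫ b ≫ a' ≫ b') := by
  have : S.blk (a ≫ b ≫ a' ≫ b') 0 0 (𝟙 A) = S.blk a 0 0 a' ≫ S.blk b 0 0 b' ≫
      S.blk (a' ≫ b') 0 0 (b ≫ a) := by simp [reassoc_of% e4, e2]
  refine Tq.of_bd (D := A) ?_
  rw [this]
  exact (Tq.wh ha ha' e1 e2).comp ((Tq.wh hb hb' e3 e4).comp (Tq.wh (Φ.c0 ha' hb') (Φ.c0 hb ha)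
    (by simp [reassoc_of% e4, e2]) (by simp [reassoc_of% e1, e3])))

theorem CF.Tq.cyc0 {X : A ⟶ B} {Y : B ⟶ A} (hX : Φ.Ct 0 X) (hY : Φ.Ct 0 Y)
    (h : Φ.Tq 0 (𝟙 B - Y ≫ X)) : Φ.Tq 0 (𝟙 A - X ≫ Y) := by
  have e : S.blk (𝟙 A) X 0 (𝟙 B) ≫ S.blk (𝟙 A - X ≫ Y) 0 0 (𝟙 B) ≫ S.blk (𝟙 A) 0 Y (𝟙 B) =
      S.blk (𝟙 A) 0 Y (𝟙 B) ≫ S.blk (𝟙 A) 0 0 (𝟙 B - Y ≫ X) ≫ S.blk (𝟙 A) X 0 (𝟙 B) := by
    simp
  have h1 := (Tq.lower (A := A) hY).comp ((h.id_bd A).comp (Tq.upper hX))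
  rw [← e] at h1
  exact Tq.of_bd ((Tq.lower hY).cancel_right ((Tq.upper hX).cancel_left h1))

end

variable {X : Type y} [MulAction G X] {ν : Nr G X}

/-- Located objects are stably isomorphic in degree one. -/
theorem sk_h0 (hz : ∃ Z : C, 𝟙 Z = 0)
    (h0 : ∀ A B, ∃ (E : C) (c : S.sum B E ⟶ S.sum A E), S.HIso 1 c)
    (D E : S.LO X fun _ => True) : ∃ (F : S.LO X fun _ => True)
      (c : (S.lg X _).sum E F ⟶ (S.lg X _).sum D F), (S.lc _ ν).Tq 0 c := by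
  classical
  suffices ∀ t : Finset X, ∀ D E : S.LO X fun _ => True, D.L.On (· ∈ t) → E.L.On (· ∈ t) →
      ∃ (F : S.LO X fun _ => True) (c : (S.lg X _).sum E F ⟶ (S.lg X _).sum D F),
        (S.lc _ ν).Tq 0 c from
    this (D.L.s ∪ E.L.s) D E (D.L.on_s.mono fun x k => Finset.mem_union_left _ k)
      (E.L.on_s.mono fun x k => Finset.mem_union_right _ k)
  intro t
  induction t using Finset.induction_on with
  | empty =>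
    intro D E hD hE
    have z (P : S.LO X fun _ => True) (h : P.L.On (· ∈ (∅ : Finset X))) : 𝟙 P = 0 :=
      P.L.total.symm.trans (Finset.sum_eq_zero fun x _ => h x (by simp))
    exact ⟨D, _, .hom (HI.bd (hi_mk (f := 0) (f' := 0) .zero .zero (S.lc _ ν).zero
      (S.lc _ ν).zero (by rw [z E hE, comp_zero]) (by rw [z D hD, comp_zero])) hi_id)⟩
  | insert a t _ ih =>
    intro D E hD hE
    obtain ⟨D1, D2, σ, a1, a2, a3, a4⟩ := lo_split (ν := ν) hz D (· = a)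
    obtain ⟨E1, E2, τ, b1, b2, b3, b4⟩ := lo_split (ν := ν) hz E (· = a)
    obtain ⟨F2, c2, h2⟩ := ih D2 E2
      (((a4 _ hD).2.and a3).mono fun x k => by simpa [k.2] using k.1)
      (((b4 _ hE).2.and b3).mono fun x k => by simpa [k.2] using k.1)
    obtain ⟨F1, c1, h1⟩ := h0 D1.A E1.A
    have o : (LO.pt (x := a) trivial F1 : S.LO X fun _ => True).L.On (· = a) :=
      on_one (P := (· = a)) rfl F1
    have k1 : (S.lc _ ν).HI 0 1 (A := (S.lg X _).sum E1 (.pt (x := a) trivial F1))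
        (B := (S.lg X _).sum D1 (.pt (x := a) trivial F1)) c1 :=
      hi_pt (b2.add o) (a2.add o) (one_mem _) h1
    obtain ⟨-, σ', k2, -⟩ := (Tq.hom a1).inv
    exact ⟨_, _, ((Tq.hom b1).bd_id _).comp (Tq.c0' hi_shuf
      ((((Tq.hom k1).bd h2).c0 hi_shuf).comp (k2.bd_id _)))⟩

/-- The located object under an object with idempotent. -/
abbrev LQ.lo {P : Rl G X} (B : S.LQ P) : S.LO X fun _ => True := ⟨B.A, B.L, on_true _⟩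

/-- Extension by the identity. -/
def LQ.ex {P : Rl G X} {B : S.LQ P} (f : B ⟶ B) : B.lo ⟶ B.lo := (f.1 + (𝟙 B.A - B.p) : B.A ⟶ B.A)

theorem LQ.ex_comp {P : Rl G X} {B : S.LQ P} (f g : B ⟶ B) : LQ.ex (f ≫ g) = LQ.ex f ≫ LQ.ex g := by
  change f.1 ≫ g.1 + (𝟙 B.A - B.p) = (f.1 + (𝟙 B.A - B.p)) ≫ (g.1 + (𝟙 B.A - B.p))
  simp

theorem LQ.ex_id {P : Rl G X} (B : S.LQ P) : LQ.ex (𝟙 B) = 𝟙 B.lo := by
  change B.p + (𝟙 B.A - B.p) = 𝟙 B.A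
  simp

theorem LQ.ex_ct {B : S.LQ ν.rl} (f : B ⟶ B) : (S.lc _ ν).Ct 0 (LQ.ex f) :=
  Rg.add (LQ.hom_rg f) (Rg.sub rg_id.nr B.rg)

theorem sk_comm {B : S.LQ ν.rl} {c : Aut B} (hc : c ∈ commutator (Aut B)) :
    (S.lc _ ν).Tq 0 (LQ.ex c.hom) := by
  have hi (c : Aut B) : LQ.ex c.hom ≫ LQ.ex c.inv = 𝟙 _ := by
    rw [← LQ.ex_comp, c.hom_inv_id, LQ.ex_id]
  have hi' (c : Aut B) : LQ.ex c.inv ≫ LQ.ex c.hom = 𝟙 _ := by
    rw [← LQ.ex_comp, c.inv_hom_id, LQ.ex_id]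
  rw [commutator_eq_closure] at hc
  induction hc using Subgroup.closure_induction with
  | mem _ h =>
    obtain ⟨c, d, rfl⟩ := h
    have := Tq.comm0 (LQ.ex_ct d.inv) (LQ.ex_ct d.hom) (LQ.ex_ct c.inv) (LQ.ex_ct c.hom)
      (hi' d) (hi d) (hi' c) (hi c)
    simp only [← LQ.ex_comp] at this
    exact this
  | one => exact (LQ.ex_id B).symm ▸ Tq.hom hi_id
  | mul c d _ _ h1 h2 =>
    have := h2.comp h1
    rwa [← LQ.ex_comp] at this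
  | inv c _ h => exact h.cancel_left (s := 0) ((hi c).symm ▸ Tq.hom hi_id)

theorem sk_aut (hK : K1Zero (S.LQ ν.rl)) {D : S.LO X fun _ => True} {u : D ⟶ D}
    (h : (S.lc _ ν).CI 0 u) : (S.lc _ ν).Tq 0 u := by
  obtain ⟨h1, u', h2, h3, h4⟩ := h
  let M : S.LQ ν.rl := ⟨D.A, D.L, 𝟙 _, Category.comp_id _, rg_id.nr⟩
  obtain ⟨B, E, i, r, i', r', e1, -, e3, b, hb, e⟩ := hK M
    ⟨LQ.homMk u (Category.id_comp _) (Category.comp_id _) h1,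
      LQ.homMk u' (Category.id_comp _) (Category.comp_id _) h2, LQ.hom_ext h3, LQ.hom_ext h4⟩
  have f1 : i.1 ≫ r.1 = 𝟙 D.A := congrArg (·.1) e1
  have f3 : r.1 ≫ i.1 + r'.1 ≫ i'.1 = B.p := congrArg (·.1) e3
  have f : b.hom.1 = r.1 ≫ (u : D.A ⟶ D.A) ≫ i.1 + r'.1 ≫ i'.1 := congrArg (·.1) e
  have k := sk_comm hb
  let i₀ : D ⟶ B.lo := i.1
  let r₀ : B.lo ⟶ D := r.1
  have k1 : LQ.ex b.hom = 𝟙 B.lo - r₀ ≫ ((𝟙 D - u) ≫ i₀) := by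
    change b.hom.1 + (𝟙 B.A - B.p) = 𝟙 B.A - r.1 ≫ ((𝟙 D.A - (u : D.A ⟶ D.A)) ≫ i.1)
    rw [f, ← f3, Preadditive.sub_comp, Preadditive.comp_sub, Category.id_comp]
    abel
  rw [k1] at k
  have ci : (S.lc _ ν).Ct 0 i₀ := LQ.hom_rg i
  have cr : (S.lc _ ν).Ct 0 r₀ := LQ.hom_rg r
  have k2 := Tq.cyc0 ((S.lc _ ν).c0 ((S.lc _ ν).sub (S.lc _ ν).id h1) ci) cr k
  rwa [Category.assoc, show i₀ ≫ r₀ = 𝟙 D from f1, Category.comp_id, sub_sub_cancel] at k2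

theorem tq_of_k1 (hz : ∃ Z : C, 𝟙 Z = 0)
    (h0 : ∀ A B, ∃ (E : C) (c : S.sum B E ⟶ S.sum A E), S.HIso 1 c) (hK : K1Zero (S.LQ ν.rl))
    (D E : S.LO X fun _ => True) (u : D ⟶ E) (h : (S.lc _ ν).CI 0 u) : (S.lc _ ν).Tq 0 u := by
  obtain ⟨F, c, hc⟩ := sk_h0 (ν := ν) hz h0 D E
  obtain ⟨h1, u', h2, h3, h4⟩ := h
  obtain ⟨k1, c', k2, k3, k4⟩ := hc.ci
  refine Tq.of_bd (D := F) (hc.cancel_right (s := 0) (sk_aut hK ⟨?_, c' ≫ (S.lg X _).blk u' 0 0 (𝟙 F),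
    ?_, by simp [reassoc_of% k3, h3], by simp [← Category.assoc _ _ c, h4, k4]⟩))
  · exact (S.lc _ ν).c0 ((S.lc _ ν).blk h1 (S.lc _ ν).zero (S.lc _ ν).zero (S.lc _ ν).id) k1
  · exact (S.lc _ ν).c0 k2 ((S.lc _ ν).blk h2 (S.lc _ ν).zero (S.lc _ ν).zero (S.lc _ ν).id)

end GC

end Pool.Agent.Lib.MP_5d3e93_al
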