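import Pool.Agent.Lib.MP_5d3e93_al.K.SDf
import Pool.Agent.Lib.MP_5d3e93_al.K.Tri
import Pool.Agent.Lib.MP_5d3e93_al.K.Push
import Pool.Agent.Lib.MP_5d3e93_al.K.Ad
import Pool.Agent.Lib.MP_5d3e93_al.Bg.Lft

/-! Filtrations and lifts of controlled categories in all degrees. -/

open CategoryTheory Limits ZeroObject Filter MulAction

namespace Pool.Agent.Lib.MP_5d3e93_al

universe w w' w'' v u y v' u'

open Gr GC GC.Lo

section
variable {G : Type w} [Group G] {C : Type u} [Category.{v} C] [Preadditive C]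
variable {G' : Type w'} [Group G'] {C' : Type u'} [Category.{v'} C'] [Preadditive C']
variable (S' : GC G' C') {S : GC G C} {Z : Type y} {P : Rl G Z}

/-- A functor into located objects, on idempotent completions. -/
noncomputable def GC.slF (Φ : C' ⥤ C) (L : ∀ A, S.Lo Z (Φ.obj A))
    (h : ∀ A B (f : A ⟶ B), (L A).Rg (L B) P.r (Φ.map f)) : S'.LQ (Rl.pt ⊤) ⥤ S.LQ P where
  obj M := ⟨Φ.obj M.A, L _, Φ.map M.p, by rw [← Φ.map_comp, M.idem], h _ _ _⟩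
  map f := LQ.homMk (Φ.map f.1) ((Φ.map_comp _ _).symm.trans (congrArg Φ.map (LQ.p_comp f)))
    ((Φ.map_comp _ _).symm.trans (congrArg Φ.map (LQ.comp_p f))) (h _ _ _)
  map_id _ := rfl
  map_comp _ _ := LQ.hom_ext (Φ.map_comp ..)

theorem GC.slF_equiv (Φ : C' ⥤ C) [Φ.Faithful] (L : ∀ A, S.Lo Z (Φ.obj A))
    (h : ∀ A B (f : A ⟶ B), (L A).Rg (L B) P.r (Φ.map f))
    (h2 : ∀ A B (f : Φ.obj A ⟶ Φ.obj B), (L A).Rg (L B) P.r f → ∃ f', Φ.map f' = f)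
    (h3 : ∀ B (M : S.Lo Z B), ∃ (A : C') (i : Φ.obj A ⟶ B) (r : B ⟶ Φ.obj A),
      r ≫ i = 𝟙 B ∧ (L A).Rg M dg i ∧ M.Rg (L A) dg r) : (S'.slF Φ L h).IsEquivalence where
  faithful := ⟨fun e => LQ.hom_ext (Φ.map_injective (congrArg (·.1) e))⟩
  full := ⟨fun {M N} f => by
    obtain ⟨f', b⟩ := h2 _ _ f.1 (LQ.hom_rg f)
    refine ⟨LQ.cut f' fun _ _ _ k => (k trivial).elim, LQ.hom_ext ?_⟩
    change Φ.map (M.p ≫ f' ≫ N.p) = _
    rw [Φ.map_comp, Φ.map_comp, b]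
    exact (congrArg (_ ≫ ·) (LQ.comp_p f)).trans (LQ.p_comp f)⟩
  essSurj := ⟨fun M => by
    obtain ⟨A, i, r, a, b, c⟩ := h3 M.A M.L
    obtain ⟨p, e⟩ := h2 A A (i ≫ M.p ≫ r) (b.dg_comp (M.rg.comp_dg c))
    let N : S'.LQ (Rl.pt ⊤) := ⟨A, .one S' () A, p, Φ.map_injective (by
      simp [e, reassoc_of% a]), fun _ _ _ k => (k trivial).elim⟩
    refine ⟨N, ⟨⟨LQ.homMk (M := (S'.slF Φ L h).obj N) (i ≫ M.p) ?_
        ((Category.assoc ..).trans (congrArg _ M.idem)) (b.dg_comp M.rg),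
      LQ.homMk (N := (S'.slF Φ L h).obj N) (M.p ≫ r) (M.idem_assoc _) ?_ (M.rg.comp_dg c),
      LQ.hom_ext ?_, LQ.hom_ext ?_⟩⟩⟩
    · change Φ.map p ≫ i ≫ M.p = i ≫ M.p
      simp [e, reassoc_of% a]
    · change (M.p ≫ r) ≫ Φ.map p = M.p ≫ r
      simp [e, reassoc_of% a]
    · change (i ≫ M.p) ≫ M.p ≫ r = Φ.map p
      simp [e]
    · change (M.p ≫ r) ≫ i ≫ M.p = M.p
      simp [reassoc_of% a]⟩

theorem GC.zq_of_wk [HasZeroObject C] [HasZeroObject C'] (Φ : C' ⥤ C) [Φ.Additive] [Φ.Faithful]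
    (L : ∀ A, S.Lo Z (Φ.obj A)) (h : ∀ A B (f : A ⟶ B), (L A).Rg (L B) P.r (Φ.map f))
    (h2 : ∀ A B (f : Φ.obj A ⟶ Φ.obj B), (L A).Rg (L B) P.r f → ∃ f', Φ.map f' = f)
    (h3 : ∀ B (M : S.Lo Z B), ∃ (A : C') (i : Φ.obj A ⟶ B) (r : B ⟶ Φ.obj A),
      r ≫ i = 𝟙 B ∧ (L A).Rg M dg i ∧ M.Rg (L A) dg r) : S'.WK ⊤ ↔ S.Zq P :=
  have := S'.slF_equiv Φ L h h2 h3
  have : (S'.slF Φ L h).Additive := ⟨LQ.hom_ext Φ.map_add⟩
  Am.Z_equiv.{v', u', v, max u y} (S'.slF Φ L h)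

end

section
variable {G : Type w} [Group G] {C : Type u} [Category.{v} C] [Preadditive C] [HasZeroObject C]

theorem GC.zq_filt {S : GC G C} {X : Type y} {J : Type*} [Countable J] {P : Rl G X} (φ : X → J)
    (l : J → ℤ) (h1 : ∀ a g b, P.r a g b → φ a = φ b ∨ l (φ b) < l (φ a))
    (h2 : ∀ t, S.Zq (P.res (φ · = t))) : S.Zq P := by
  obtain ⟨c, hc⟩ := exists_injective_nat J
  refine zq_tri (fun a => -l (φ a)) (fun a g b k => (h1 a g b k).elim (fun e => by rw [e])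
    fun e => neg_le_neg e.le) fun k => zq_tri (fun a => (c (φ a) : ℤ)) (fun a g b e => ?_)
      fun m => ?_
  · obtain d | d := h1 a g b e.1
    · rw [d]
    · exact (d.ne (neg_injective (e.2.2.trans e.2.1.symm))).elim
  by_cases e : ∃ t, -l t = k ∧ (c t : ℤ) = m
  · obtain ⟨t, rfl, rfl⟩ := e
    exact Zq.retract (Q' := P.res (φ · = t)) id id
      (fun a g b d => ⟨d.1.1, hc (Nat.cast_injective d.2.1), hc (Nat.cast_injective d.2.2)⟩)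
      (fun a g b d => ⟨⟨d.1, congrArg (-l ·) d.2.1, congrArg (-l ·) d.2.2⟩,
        congrArg (c · : J → ℤ) d.2.1, congrArg (c · : J → ℤ) d.2.2⟩) (fun _ _ _ d => ⟨d, d⟩) (h2 t)
  · exact zq_empty fun a g b d => e ⟨φ a, d.1.2.1, d.2.1⟩

open Bg in
theorem zq_lift [HasBinaryBiproducts C] {σ : Act G C} {Γ : Type w} [Group Γ] (j : Γ →* G)
    {Z : Type w'} [Preorder Z] [MulAction Γ Z] [Nonempty Z]
    (hm : ∀ (g : Γ) (x y : Z), x ≤ y → g • x ≤ g • y) (hK : KZ (Lc.act (σ.comap j) hm))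
    {Y : Type w''} {P : Rl (G × Zi) Y} (φ : Z → Y) (ψ : Y → Z)
    (h1 : ∀ x (γ : Γ) (z : Zi) y, x ≤ γ • y → P.r (φ x) (j γ, z) (φ y))
    (h2 : ∀ x (g : G × Zi) y, P.r (φ x) g (φ y) → ∃ γ, j γ = g.1 ∧ x ≤ γ • y)
    (h3 : ∀ (x : Z) (γ γ' : Γ) (y : Z), x ≤ γ • y → x ≤ γ' • y → j γ = j γ' → γ = γ')
    (h4 : ∀ a g b, P.r a g b → P.r a g (φ (ψ b)) ∧ P.r (φ (ψ a)) g b) : (SZ σ).Zq P := by
  let p : Γ × Zi →* G × Zi := j.prodMap (.id Zi)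
  let F0 : TwZ (Lc.act (σ.comap j) hm) ⥤ Tw ((σ.comap (.fst G Zi)).comap p) :=
    fgt (σ.comap j) hm (.fst Γ Zi)
  have : F0.Additive := ⟨map_add fgm _ _⟩
  let F : TwZ (Lc.act (σ.comap j) hm) ⥤ TwZ σ := F0 ⋙ Tw.pushF p
  let L (A : TwZ (Lc.act (σ.comap j) hm)) : (twGC _).Lo Z (F0.obj A) := lo (σ.comap j) A.as.d
  let L' (A : TwZ (Lc.act (σ.comap j) hm)) : (twGC _).Lo Z (Tw.up p (F0.obj A)) := lo σ A.as.d
  have e (A x) : Tw.push p ((L A).e x) = (L' A).e x := push_emb _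
  have rg {A B} (f : A ⟶ B) : (L A).Rg (L B) (fun x g y => x ≤ g.1 • y) (F0.map f) := rg_fgt f
  have zr {A B} (f : A ⟶ B) (k : F.map f = 0) : f = 0 :=
    fgt_zero (push_rg_zero (e A) (e B) (rg f) (fun x y a b c d l =>
      Prod.ext (h3 x _ _ y b d (Prod.ext_iff.1 l).1) (Prod.ext_iff.1 l).2) k)
  have : F.Faithful := ⟨fun {_ _ a b} k => sub_eq_zero.1 (zr _ (by rw [F.map_sub, k, sub_self]))⟩
  let P' : Rl (G × Zi) Z := ⟨fun x g y => P.r (φ x) g (φ y), P.trans⟩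
  refine Zq.retract (Q' := P') ψ φ (fun a g b k => (h4 _ _ _ (h4 a g b k).1).2) (fun _ _ _ => id)
    h4 (((SZ (Lc.act (σ.comap j) hm)).zq_of_wk F L' (fun A B f => ?_) (fun A B f k => ?_)
      fun B M => ?_).1 hK)
  · refine (push_rg (e A) (e B) (rg f)).mono ?_
    rintro x _ y ⟨γ, k, rfl⟩
    exact h1 x γ.1 γ.2 y k
  · obtain ⟨f0, a, b⟩ := push_rg_lift (R := fun x g y => x ≤ g.1 • y) (e A) (e B)
      (k.mono fun x g y a => by
        obtain ⟨γ, b, c⟩ := h2 x g y a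
        exact ⟨(γ, g.2), c, Prod.ext b rfl⟩)
    obtain ⟨f', c⟩ := fgt_full (A := A) (B := B) a
    exact ⟨f', (congrArg (Tw.push p) c).trans b⟩
  · obtain ⟨d, hd⟩ := ex_ld M
    refine ⟨⟨⟨B.as, d⟩⟩, 𝟙 B, 𝟙 B, Category.id_comp _, fun x y => ?_, fun x y => ?_⟩
    · have := rg_id (L := M) x y
      rwa [← hd x] at this
    · have := rg_id (L := M) x y
      rwa [← hd y] at this

end

end Pool.Agent.Lib.MP_5d3e93_al
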