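import Pool.Agent.Lib.MP_5d3e93_al.K.SDf
import Pool.Agent.Lib.MP_5d3e93_al.K.CSf

/-! Idempotents over boxes of formal locations are stably free. -/

open CategoryTheory Limits ZeroObject Filter MulAction

namespace Pool.Agent.Lib.MP_5d3e93_al

universe w w' w'' v u y

open Gr

namespace GC

open Lo CF

theorem SSf_pt {G : Type w} [Group G] {C : Type u} [Category.{v} C] [Preadditive C] {S : GC G C}
    {X : Type*} [MulAction G X] {ν : Nr G X} {Ω Ω' : X → Prop} {φ : X → X} {r s s' : ℕ}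
    (hz : ∃ Z : C, 𝟙 Z = 0) (hk : ∀ x, Ω x → Ω' x) (f0 : ∀ x, Ω x → φ x = x)
    (f1 : ∀ x, Ω' x → Ω (φ x))
    (f2 : ∀ x (g : G) y, Ω' x → Ω' y → ν.n s x (g • y) → ν.n s' (φ x) (g • φ y))
    (H : ∀ (A : S.LO X Ω') (e : A ⟶ A), (S.lc Ω' ν).Ct r e → e ≫ e = e →
      ∃ D E, (S.lc Ω' ν).So s e D E) {A : C} (L : S.Lo X A) {p : A ⟶ A}
    (h : L.Rg L (fun a g b => ν.n r a (g • b) ∧ Ω a ∧ Ω b) p) (hp : p ≫ p = p) :
    ∃ (D E : C) (LD : S.Lo X D) (LE : S.Lo X E) (x : S.sum A D ⟶ E)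
      (y : E ⟶ S.sum A D), LD.On Ω ∧ LE.On Ω ∧
      (L.add LD).Rg LE (fun a g b => ν.n s' a (g • b) ∧ Ω a ∧ Ω b) x ∧
      LE.Rg (L.add LD) (fun a g b => ν.n s' a (g • b) ∧ Ω a ∧ Ω b) y ∧
      x ≫ y = S.blk p 0 0 (𝟙 D) ∧ y ≫ x = 𝟙 E := by
  obtain ⟨B, M, i, t, h1, h2, h3, h4, h5, h6, -⟩ := L.res hz Ω
  have z (a b) (k : ¬ (Ω a ∧ Ω b)) : L.e a ≫ p ≫ L.e b = 0 :=
    S.ext0 _ fun g => h a b g fun c => k c.2
  have e1 : t ≫ i ≫ p = p := L.ext_l fun a => by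
    by_cases k : Ω a
    · rw [reassoc_of% h4 a k]
    · rw [reassoc_of% h5 a k, zero_comp, ← L.sum_r p, Preadditive.comp_sum]
      exact (Finset.sum_eq_zero fun b _ => z a b fun c => k c.1).symm
  have e2 : p ≫ t ≫ i = p := by
    conv_lhs => rw [← L.sum_r p, Preadditive.sum_comp]
    conv_rhs => rw [← L.sum_r p]
    refine Finset.sum_congr rfl fun b _ => ?_
    by_cases k : Ω b
    · rw [Category.assoc, h4 b k]
    · have : p ≫ L.e b = 0 := L.ext_l fun a => by rw [z a b fun c => k c.2, comp_zero]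
      rw [this, zero_comp]
  obtain ⟨e, he⟩ : ∃ e : B ⟶ B, e = i ≫ p ≫ t := ⟨_, rfl⟩
  have e3 : M.Rg M (fun a g b => ν.n r a (g • b)) e :=
    he ▸ (h1.dg_comp (h.comp_dg h2)).mono fun _ _ _ c => c.1
  have e4 : e ≫ e = e := by simp only [he, Category.assoc, reassoc_of% e1, reassoc_of% hp]
  obtain ⟨D, E, x, y, b1, b2, b3, b4⟩ := H ⟨B, M, h6.mono hk⟩ e e3 e4
  revert x y
  intro (x : S.sum B D.A ⟶ E.A) (y : E.A ⟶ S.sum B D.A) b1 b2 b3 b4
  have c3 : x ≫ y = S.blk (i ≫ p ≫ t) 0 0 (𝟙 D.A) := he ▸ b3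
  have c4 : y ≫ x = 𝟙 E.A := b4
  have a1 : M.Rg ((M.add D.L).map φ) dg (S.inl B D.A) :=
    ((rg_inl (L := M) (L' := D.L)).on (R' := fun a g b => dg a g (φ b)) h6 (on_true _)
      fun a g b k _ c => ⟨c.1, c.2 ▸ (f0 a k).symm⟩).mapr fun _ _ _ => id
  have a2 : (D.L.map φ).Rg ((M.add D.L).map φ) dg (S.inr B D.A) :=
    (rg_inr (L := M) (L' := D.L)).map (on_true _) (on_true _)
      fun a g b _ _ c => ⟨c.1, congrArg φ c.2⟩
  have a3 : ((M.add D.L).map φ).Rg M dg (S.fst B D.A) :=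
    ((rg_fst (L := M) (L' := D.L)).on (R' := fun a g b => dg (φ a) g b) (on_true _) h6
      fun a g b _ k c => ⟨c.1, c.2 ▸ f0 a (c.2 ▸ k)⟩).mapl fun _ _ _ => id
  have a4 : ((M.add D.L).map φ).Rg (D.L.map φ) dg (S.snd B D.A) :=
    (rg_snd (L := M) (L' := D.L)).map (on_true _) (on_true _)
      fun a g b _ _ c => ⟨c.1, congrArg φ c.2⟩
  have d1 : (L.add (D.L.map φ)).Rg ((M.add D.L).map φ) dg (S.blk t 0 0 (𝟙 D.A)) := by
    simpa [blk] using (rg_fst.dg_comp (h2.comp_dg a1)).add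
      ((rg_snd (L := L) (L' := D.L.map φ)).dg_comp a2)
  have d2 : ((M.add D.L).map φ).Rg (L.add (D.L.map φ)) dg (S.blk i 0 0 (𝟙 D.A)) := by
    simpa [blk] using (a3.dg_comp (h1.comp_dg rg_inl)).add
      (a4.dg_comp (rg_inr (L := L) (L' := D.L.map φ)))
  have o : (M.add D.L).On Ω' := (h6.mono hk).add D.on
  refine ⟨D.A, E.A, D.L.map φ, E.L.map φ, S.blk t 0 0 (𝟙 D.A) ≫ x, y ≫ S.blk i 0 0 (𝟙 D.A),
    D.on.map f1, E.on.map f1,
    d1.dg_comp (Rg.map (L := M.add D.L) b1 o E.on fun _ _ _ a b c =>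
      ⟨f2 _ _ _ a b c, f1 _ a, f1 _ b⟩),
    (Rg.map (M := M.add D.L) b2 E.on o fun _ _ _ a b c =>
      ⟨f2 _ _ _ a b c, f1 _ a, f1 _ b⟩).comp_dg d2, ?_, ?_⟩
  · rw [Category.assoc, reassoc_of% c3]
    simp [e1, e2]
  · rw [Category.assoc, ← Category.assoc (S.blk i 0 0 _)]
    simp [h3, c4]

end GC

section
variable {G : Type w} [Group G] {C : Type u} [Category.{v} C] [Preadditive C] [HasZeroObject C]

namespace Bg

open GC GC.Lo GC.CF

variable {J : Type} {l : Filter J} {h : J → ℕ} {n : ℕ}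

variable {S : GC (G × Zi) C} {W : Type w'} [MulAction (G × Zi) W]
  {P : Pf (G × Zi) W (Finset (Fin (n + 1)))}

theorem sf_box (hc : S.Central) (hW : ∀ (z : Zi) (x : W), ((1 : G), z) • x = x)
    (hloc : ∀ A : Set (Finset (Fin (n + 1))), A.Nonempty →
      ∀ (D E : S.LO W fun _ => True) (u : D ⟶ E), (S.lc _ (P.cap A).nr).CI 0 u →
        (S.lc _ (P.cap A).nr).Tq 0 u) (hh : Tendsto h l atTop) {p q : Fin n → ℕ}
    (hp : ∀ i, p i ≤ q i) : S.SF l (P.box h p q) := by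
  intro X
  have hz : ∃ Z : C, 𝟙 Z = 0 := ⟨0, (isZero_zero C).eq_of_src _ _⟩
  obtain ⟨r, hr⟩ := X.rg
  obtain ⟨T, -, H⟩ := mvInd hz hc hW hloc (∑ i, (q i - p i) + 1) (r + 1) (Nat.le_add_left 1 r)
  obtain ⟨s, hs⟩ : ∃ s, s = 5 * (r + 1) + 9 * T := ⟨_, rfl⟩
  let ν := P.box h p q
  let good : J → Prop := fun j => (X.L j).Rg (X.L j) (ν.n r j) (X.p j) ∧ 2 * T < h j
  have hg : ∀ᶠ j in l, good j := hr.and (hh.eventually_gt_atTop _)
  have key (j : J) : ∃ (D E : C) (LD : S.Lo (Pt n W) D) (LE : S.Lo (Pt n W) E)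
      (x : S.sum (X.A j) D ⟶ E) (y : E ⟶ S.sum (X.A j) D),
      S.blk (X.p j) 0 0 (𝟙 D) ≫ x = x ∧ y ≫ S.blk (X.p j) 0 0 (𝟙 D) = y ∧ (good j →
        LD.On (mvRn (h j) 0 p q) ∧ LE.On (mvRn (h j) 0 p q) ∧
        ((X.L j).add LD).Rg LE (ν.n (T + s + T) j) x ∧
        LE.Rg ((X.L j).add LD) (ν.n (T + s + T) j) y ∧
        x ≫ y = S.blk (X.p j) 0 0 (𝟙 D) ∧ y ≫ x = 𝟙 E) := by
    by_cases k : good j
    · let φ : Pt n W → Pt n W := fun x =>
        ⟨fun i => max (2 * p i * h j) (min (2 * q i * h j) (x.t i)), x.w⟩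
      have m (i) : 2 * p i * h j ≤ 2 * q i * h j :=
        Nat.mul_le_mul_right _ (Nat.mul_le_mul_left _ (hp i))
      have m1 (x) (a : mvRn (h j) T p q x) :
          (P.nv (h j)).nr.n T (φ x) x ∧ (P.nv (h j)).nr.n T x (φ x) :=
        ⟨⟨fun i => by
          have := a i
          have := m i
          change _ ≤ max _ _ + T
          omega, fun _ _ => P.refl ..⟩, fun i => by
          have := a i
          have := m i
          change max _ _ ≤ _
          omega, fun _ _ => P.refl ..⟩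
      obtain ⟨D, E, LD, LE, x, y, a1, a2, a3, a4, a5, a6⟩ := SSf_pt (ν := (P.nv (h j)).nr)
        (Ω := mvRn (h j) 0 p q) (Ω' := mvRn (h j) T p q) (φ := φ) (r := r + 1) (s := s)
        (s' := T + s + T) hz (fun x a i => by have := a i; omega)
        (fun x a => Pt.ext (funext fun i => by
          have := a i
          change max _ _ = _
          omega) rfl)
        (fun x a i => by
          have := m i
          change _ ≤ max _ _ + 0 ∧ max _ _ ≤ _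
          omega)
        (fun x g y a b c => (P.nv (h j)).nr.trans ((P.nv (h j)).nr.trans (m1 x a).1 c)
          ((P.nv (h j)).nr.smul g (m1 y b).2))
        (fun A e a b => hs ▸ mvBd hc (fun z x => Pt.ext rfl (hW z x.w))
          (H T (h j) le_rfl k.2 p q hp (Nat.lt_succ_self _)) e a b) (X.L j)
        (k.1.mono fun _ _ _ c => ν.mono c (Nat.le_succ r)) (X.idem j)
      exact ⟨D, E, LD, LE, x, y, by rw [← a5, Category.assoc, a6, Category.comp_id],
        by rw [← a5, reassoc_of% a6], fun _ => ⟨a1, a2, a3, a4, a5, a6⟩⟩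
    · exact ⟨_, _, X.L j, X.L j, 0, 0, comp_zero, zero_comp, fun a => (k a).elim⟩
  choose D E LD LE x y k1 k2 k3 using key
  have fr (B : J → C) (L : ∀ j, S.Lo (Pt n W) (B j))
      (b : ∀ j, good j → (L j).On (mvRn (h j) 0 p q)) : Ec l ν L L fun j => 𝟙 (B j) :=
    ⟨0, hg.mono fun j k => rg_id.on (b j k) (b j k) fun a g b c d e => by
      refine ⟨?_, c, d⟩
      change (P.nv (h j)).nr.n 0 a ((MonoidHom.id (G × Zi)) g • b)
      rw [e.1, e.2, map_one, one_smul]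
      exact Nr.refl _ _ _⟩
  let D' : S.AS l ν := ⟨D, LD, fun j => 𝟙 _, fun j => Category.id_comp _,
    fr D LD fun j k => (k3 j k).1⟩
  let E' : S.AS l ν := ⟨E, LE, fun j => 𝟙 _, fun j => Category.id_comp _,
    fr E LE fun j k => (k3 j k).2.1⟩
  let x' : AS.sum X D' ⟶ E' := AS.homMk x k1 (fun j => Category.comp_id _)
    ⟨T + s + T, hg.mono fun j k => (k3 j k).2.2.1⟩
  let y' : E' ⟶ AS.sum X D' := AS.homMk y (fun j => Category.id_comp _) k2
    ⟨T + s + T, hg.mono fun j k => (k3 j k).2.2.2.1⟩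
  have tot := congrArg (AO.π S l ν).map (AS.bicone_total X D')
  rw [Functor.map_add, Functor.map_comp, Functor.map_comp, CategoryTheory.Functor.map_id] at tot
  refine ⟨D', E', .of_forall fun j => rg_id, .of_forall fun j => rg_id,
    ⟨(biprod.uniqueUpToIso _ _ (isBinaryBilimitOfTotal
      ((AO.π S l ν).mapBinaryBicone (AS.bicone X D')) tot)).symm ≪≫
      ⟨(AO.π S l ν).map x', (AO.π S l ν).map y', ?_, ?_⟩⟩⟩
  · exact ((AO.π S l ν).map_comp x' y').symm.trans ((AO.π_eq.2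
      (hg.mono fun j k => (k3 j k).2.2.2.2.1)).trans ((AO.π S l ν).map_id _))
  · exact ((AO.π S l ν).map_comp y' x').symm.trans ((AO.π_eq.2
      (hg.mono fun j k => (k3 j k).2.2.2.2.2)).trans ((AO.π S l ν).map_id _))

end Bg

end

end Pool.Agent.Lib.MP_5d3e93_al
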