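import Pool.Agent.Lib.MP_5d3e93_al.K.SLf
import Pool.Agent.Lib.MP_5d3e93_al.Bg.Loc
import Pool.Agent.Lib.MP_5d3e93_al.Bg.TowQ

/-! Vanishing in all degrees for the word orders. -/

open CategoryTheory Limits ZeroObject Filter MulAction

namespace Pool.Agent.Lib.MP_5d3e93_al

universe w w' w'' v u y

open Gr

variable {G : Type w} [Group G] {C : Type u} [Category.{v} C] [Preadditive C] [HasZeroObject C]

namespace Bg

theorem words_liftq {X : Type w'} [Lattice X] {B : Bl X} [MulAction G X] {N : ℕ} [B.Ac G]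
    {J : Type} [Finite J] {A : Set J} (hA : A.Nonempty)
    (y0 : J → YL B N) : ∃ (Γ : Type w) (_ : Group Γ) (j : Γ →* G) (Z : Type w') (_ : Preorder Z)
      (_ : MulAction Γ Z) (_ : Nonempty Z) (κ : Type) (_ : Fintype κ) (_ : Oq Γ Z κ)
      (φ : Z → J → YL B N) (ψ : (J → YL B N) → Z),
      (∀ x (γ : Γ) y, x ≤ γ • y → ∀ L ∈ A, (φ x L).le (j γ • φ y L)) ∧
      (∀ x (g : G) y, (∀ L ∈ A, (φ x L).le (g • φ y L)) → ∃ γ, j γ = g ∧ x ≤ γ • y) ∧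
      (∀ (x : Z) (γ γ' : Γ) (y : Z), x ≤ γ • y → x ≤ γ' • y → j γ = j γ' → γ = γ') ∧
      (∀ y, (∀ L ∈ A, (y L).ℓ = (y0 L).ℓ) → ∀ L ∈ A, φ (ψ y) L = y L) ∧
      (∀ x, ∀ L ∈ A, (φ x L).ℓ = (y0 L).ℓ) ∧
      ∀ z : Z, ∃ x : X, Set.InjOn j (stabilizer Γ z) ∧
        (stabilizer Γ z).map j ≤ stabilizer G x := by
  classical
  have := Fintype.ofFinite A
  let κ (i : A) : Type := {c // 0 < (y0 i).ℓ c}
  let Z (i : A) : Type w' := Cw B fun c : κ i => (y0 i).ℓ c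
  let Γ : Type w := G × Multiplicative (∀ i, κ i → ℤ)
  let p (i : A) : Γ →* G × Multiplicative (κ i → ℤ) := (MonoidHom.id G).prodMap
    (AddMonoidHom.toMultiplicative (Pi.evalAddMonoidHom (fun i => κ i → ℤ) i))
  let _ (i : A) : MulAction Γ (Z i) := MulAction.compHom _ (p i)
  have e (γ : Γ) (y : ∀ i, Z i) (i) : (γ • y) i = (y i).act γ.1 (γ.2.toAdd i) := rfl
  have P (i : A) : Oq Γ (Z i) (κ i) :=
    ((Cw.wp B (fun c : κ i => (y0 i).ℓ c) G).some.oq.some.comap (p i) fun _ _ => rfl).choose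
  choose ψ hψ using fun (y : J → YL B N) (i : A) => show ∃ x : Z i,
      (y i).ℓ = (y0 i).ℓ → (⟨_, x⟩ : YL B N) = y i by
    by_cases k : (y i).ℓ = (y0 i).ℓ
    · generalize y i = a at k
      obtain ⟨ℓ, x⟩ := a
      obtain rfl : ℓ = _ := k
      exact ⟨x, fun _ => rfl⟩
    · exact ⟨(y0 i).x, fun l => (k l).elim⟩
  refine ⟨Γ, inferInstance, .fst .., ∀ i, Z i, inferInstance, inferInstance, ⟨fun i => (y0 i).x⟩,
    _, inferInstance, (Oq.pi P).some, fun x L => if h : L ∈ A then ⟨_, x ⟨L, h⟩⟩ else y0 L, ψ,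
    fun x γ y k L h => ?_, fun x g y k => ?_, fun x γ γ' y a b c => ?_, fun y k L h => ?_,
    fun x L h => ?_, fun z => ?_⟩
  · simp only [dif_pos h]
    exact YL.le_mk.2 ⟨γ.2.toAdd ⟨L, h⟩, Cw.le_act_iff.2 (k ⟨L, h⟩)⟩
  · choose s hs using fun i : A => show ∃ s, (x i).le (((y i).act g 0).sh s) by
      have := k i i.2
      simp only [dif_pos i.2] at this
      exact YL.le_mk.1 this
    exact ⟨(g, .ofAdd s), rfl, fun i => Cw.le_act_iff.1 (hs i)⟩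
  · obtain ⟨g, s⟩ := γ
    obtain ⟨g', s'⟩ := γ'
    obtain rfl : g = g' := c
    exact Prod.ext rfl (Multiplicative.toAdd.injective (funext fun i => Cw.sh_uniq
      (z := (y i).act g 0) (Cw.le_act_iff.2 (a i)) (Cw.le_act_iff.2 (b i))))
  · simp only [dif_pos h]
    exact hψ y ⟨L, h⟩ (k L h)
  · simp only [dif_pos h]
  · obtain ⟨i, h⟩ := hA
    obtain ⟨c⟩ := (z ⟨i, h⟩).ne
    have s (γ : Γ) (k : γ ∈ stabilizer Γ z) (i) := Cw.stab ((e γ z i).symm.trans (congrFun k i))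
    refine ⟨(z ⟨i, h⟩).U (c, 0), fun a k b l m => Prod.ext m (Multiplicative.toAdd.injective
      (funext fun i => (s a k i).1.trans (s b l i).1.symm)), ?_⟩
    rintro _ ⟨γ, k, rfl⟩
    exact (s γ k _).2 _

theorem zq_words [HasBinaryBiproducts C] {σ : Act G C} {X : Type w'} [Lattice X] (B : Bl X)
    [MulAction G X] [B.Ac G] [MulAction (G × Zi) X] [B.Ac (G × Zi)]
    (hj : ∀ (g : G × Zi) (x : X), g • x = g.1 • x) {N : ℕ} {J : Type} [Finite J] {A : Set J}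
    (hop : ∀ y0 : J → YL B N, ∃ (Γ : Type w) (_ : Group Γ) (j : Γ →* G) (Z : Type w')
      (_ : Preorder Z) (_ : MulAction Γ Z) (_ : Nonempty Z)
      (hm : ∀ (g : Γ) (x y : Z), x ≤ y → g • x ≤ g • y)
      (φ : Z → J → YL B N) (ψ : (J → YL B N) → Z),
      (∀ x (γ : Γ) y, x ≤ γ • y → ∀ L ∈ A, (φ x L).le (j γ • φ y L)) ∧
      (∀ x (g : G) y, (∀ L ∈ A, (φ x L).le (g • φ y L)) → ∃ γ, j γ = g ∧ x ≤ γ • y) ∧
      (∀ (x : Z) (γ γ' : Γ) (y : Z), x ≤ γ • y → x ≤ γ' • y → j γ = j γ' → γ = γ') ∧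
      (∀ y, (∀ L ∈ A, (y L).ℓ = (y0 L).ℓ) → ∀ L ∈ A, φ (ψ y) L = y L) ∧
      (∀ x, ∀ L ∈ A, (φ x L).ℓ = (y0 L).ℓ) ∧ KZ (Lc.act (σ.comap j) hm)) :
    (SZ σ).Zq ((YL.pf B (G × Zi) N J).cap A).nr.rl := by
  classical
  have := Fintype.ofFinite A
  have e (g : G × Zi) (y : YL B N) : g • y = g.1 • y := congrArg (YL.mk y.ℓ)
    (Cw.ext (funext fun _ => hj ..) (funext fun _ => hj ..))
  refine GC.zq_filt (fun x (L : A) => (x L).ℓ) (fun t => (∑ L, ∑ c, t L c : ℕ))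
    (fun x g y k => ?_) fun t => ?_
  · have k' (L : A) : (x L).ℓ = (y L).ℓ ∨ ∑ c, (y L).ℓ c < ∑ c, (x L).ℓ c :=
      YL.le_l (z := g • y L) (k L L.2)
    by_cases l : ∀ L : A, (x L).ℓ = (y L).ℓ
    · exact .inl (funext l)
    · obtain ⟨L, l⟩ := not_forall.1 l
      exact .inr (Int.ofNat_lt.2 (Finset.sum_lt_sum (fun L _ => (k' L).elim
        (fun m => (congrArg (∑ c, · c) m).ge) le_of_lt)
          ⟨L, Finset.mem_univ _, (k' L).resolve_left l⟩))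
  by_cases k : ∃ y0 : J → YL B N, (fun L : A => (y0 L).ℓ) = t
  swap
  · exact GC.zq_empty fun a _ _ h => k ⟨a, h.2.1⟩
  obtain ⟨y0, rfl⟩ := k
  obtain ⟨Γ, _, j, Z, _, _, _, hm, φ, ψ, h1, h2, h3, h4, h5, hK⟩ := hop y0
  have h6 (x : Z) : (fun L : A => (φ x L).ℓ) = fun L : A => (y0 L).ℓ := funext fun L => h5 x L L.2
  refine zq_lift j hm hK φ ψ (fun x γ z y k => ⟨fun L l => ?_, h6 x, h6 y⟩)
    (fun x g y k => h2 x g.1 y fun L l => ?_) h3 fun a g b k =>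
      ⟨⟨fun L l => ?_, k.2.1, h6 _⟩, fun L l => ?_, h6 _, k.2.2⟩
  · exact (congrArg (φ x L).le (e (j γ, z) (φ y L))).mpr (h1 x γ y k L l)
  · exact (congrArg (φ x L).le (e g (φ y L))).mp (k.1 L l)
  · exact (congrArg (fun y => (a L).le (g • y))
      (h4 b (fun L l => congrFun k.2.2 ⟨L, l⟩) L l)).mpr (k.1 L l)
  · exact (congrArg (YL.le · (g • b L)) (h4 a (fun L l => congrFun k.2.1 ⟨L, l⟩) L l)).mpr (k.1 L l)

end Bg

end Pool.Agent.Lib.MP_5d3e93_al
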