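import Pool.Agent.Lib.MP_5d3e93_al.K.TD
import Pool.Agent.Lib.MP_5d3e93_al.Win

/-! Absolute supports of morphisms to located objects. -/

open CategoryTheory Limits ZeroObject MulAction

namespace Pool.Agent.Lib.MP_5d3e93_al

universe w v u y

open Gr K

namespace GC

variable {G : Type w} [Group G] {C : Type u} [Category.{v} C] [Preadditive C] {S : GC G C}
variable {Γ : Type w} [Group Γ] {q : G →* Γ}

section TA
variable {Y Y' : Type y} [MulAction Γ Y] [MulAction Γ Y'] {A B B' : C} {L : S.Lo Y B}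
  {L' : S.Lo Y' B'} {W W' : Set Y} {f f' : A ⟶ B}

theorem Lo.ab_iff : L.Ab q W f ↔ ∀ y, S.Sup {g | q g • y ∈ W} (f ≫ L.e y) := Iff.rfl

theorem Lo.Ab.mono (h : L.Ab q W f) (k : W ⊆ W') : L.Ab q W' f :=
  letI := MulAction.compHom Y q
  Lo.To.mono h k

theorem Lo.Ab.zero : L.Ab q W (0 : A ⟶ B) :=
  letI := MulAction.compHom Y q
  Lo.To.zero

theorem Lo.Ab.univ : L.Ab q Set.univ f := fun _ _ h => (h trivial).elim

theorem Lo.Ab.add (h : L.Ab q W f) (k : L.Ab q W f') : L.Ab q W (f + f') :=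
  letI := MulAction.compHom Y q
  Lo.To.add h k

theorem Lo.Ab.neg (h : L.Ab q W f) : L.Ab q W (-f) :=
  letI := MulAction.compHom Y q
  Lo.To.neg h

theorem Lo.Ab.sub (h : L.Ab q W f) (k : L.Ab q W f') : L.Ab q W (f - f') :=
  letI := MulAction.compHom Y q
  Lo.To.sub h k

theorem Lo.Ab.inter (h : L.Ab q W f) (k : L.Ab q W' f) : L.Ab q (W ∩ W') f :=
  letI := MulAction.compHom Y q
  Lo.To.inter h k

theorem Lo.Ab.eq_zero (h : L.Ab q W f) (k : L.Ab q W' f) (d : ∀ x ∈ W, x ∉ W') : f = 0 :=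
  letI := MulAction.compHom Y q
  Lo.To.eq_zero h k d

theorem Lo.Ab.all (h : ∀ y, y ∉ W → ∃ W', y ∉ W' ∧ L.Ab q W' f) : L.Ab q W f :=
  letI := MulAction.compHom Y q
  Lo.To.all h

theorem Lo.Ab.fin (L : S.Lo Y B) (f : A ⟶ B) : ∃ W : Finset Y, L.Ab q W f := by
  let := MulAction.compHom Y q
  obtain ⟨W, h1, h2⟩ := Lo.To.fin L f
  exact ⟨h1.toFinset, by rw [Set.Finite.coe_toFinset]; exact h2⟩

theorem Lo.Ab.pre1 {A' : C} {k : A' ⟶ A} (hk : S.Sup {1} k) (h : L.Ab q W f) :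
    L.Ab q W (k ≫ f) :=
  letI := MulAction.compHom Y q
  Lo.To.pre1 hk h

theorem Lo.rg_iff_ab {R : Y → Y' → Prop} {k : B ⟶ B'} :
    L.Rg L' (fun x g y => R x (q g • y)) k ↔ ∀ x, L'.Ab q {y | R x y} (L.e x ≫ k) :=
  forall_congr' fun x => forall_congr' fun y => by rw [Category.assoc]; rfl

theorem Lo.Ab.comp {R : Y → Y' → Prop} (hR : ∀ (g : Γ) x y, R x y → R (g • x) (g • y))
    {k : B ⟶ B'} {W₁ : Set Y'} (h : L.Ab q W f) (hk : L.Rg L' (fun x g y => R x (q g • y)) k)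
    (m : ∀ x ∈ W, ∀ y, R x y → y ∈ W₁) : L'.Ab q W₁ (f ≫ k) :=
  letI := MulAction.compHom Y q
  letI := MulAction.compHom Y' q
  Lo.To.comp h (Lo.rg_iff_ab.1 hk) fun g _ hx _ hy => m _ hx _ (hR (q g) _ _ hy)

theorem Lo.ab_map {φ : Y → Y'} (hφ : ∀ (g : Γ) a, φ (g • a) = g • φ a) {W₁ : Set Y'} :
    (L.map φ).Ab q W₁ f ↔ L.Ab q (φ ⁻¹' W₁) f := by
  let := MulAction.compHom Y q
  let := MulAction.compHom Y' q
  refine ⟨fun h => Lo.ab_iff.2 fun x => ?_, fun h => Lo.To.map (fun g a => hφ (q g) a) h⟩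
  have := (Lo.ab_iff.1 h (φ x)).comp_one (L.spl x).deg.cp_eq
  rw [Category.assoc, (L.map_mul φ (φ x) x).1, if_pos rfl] at this
  refine this.mono fun g hg => ?_
  change φ (q g • x) ∈ W₁
  rw [hφ]
  exact hg

theorem LQ.ab_comp {M N : S.LQ (Rl.eq q Y)} {f : A ⟶ M.A} (h : M.L.Ab q W f) (ψ : M ⟶ N) :
    N.L.Ab q W (f ≫ ψ.1) :=
  h.comp (R := (· = ·)) (fun _ _ _ e => e ▸ rfl) (LQ.hom_rg ψ) fun _ hx _ e => e ▸ hx

theorem LQ.part (M : S.LQ (Rl.eq q Y)) (W : Set Y) (f : A ⟶ M.A) (h : f ≫ M.p = f) :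
    ∃ f₁, f₁ ≫ M.p = f₁ ∧ M.L.Ab q W f₁ ∧ M.L.Ab q Wᶜ (f - f₁) := by
  let := MulAction.compHom Y q
  obtain ⟨f₁, h1, h2⟩ := M.L.part (G := G) W f
  refine ⟨f₁ ≫ M.p, by simp, LQ.ab_comp h1 (𝟙 M), ?_⟩
  have := LQ.ab_comp (q := q) h2 (𝟙 M)
  rwa [LQ.id_f, Preadditive.sub_comp, h] at this

theorem LQ.ta_glue {M N : S.LQ (Rl.eq q Y)} {f : M.A ⟶ N.A}
    (k : ∀ y, N.L.Ab q {y} (M.L.e y ≫ f)) : M.L.Rg N.L (Rl.eq q Y).r f :=
  (Lo.rg_iff_ab (R := (· = ·))).2 fun y => (k y).mono fun _ h => Eq.symm h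

theorem pt_hom {X : C} {y : Y} {M : S.LQ (Rl.eq q Y)} (f : X ⟶ M.A) (h : f ≫ M.p = f)
    (k : M.L.Ab q {y} f) : ∃ ψ : S.pt q X y ⟶ M, ψ.1 = f := by
  refine ⟨LQ.homMk f (Category.id_comp _) h (LQ.ta_glue fun x => ?_), rfl⟩
  change M.L.Ab q {x} ((Lo.one S y X).e x ≫ f)
  by_cases e : x = y
  · rwa [e, Lo.one_e, Category.id_comp]
  · rw [Lo.one_e_ne e, zero_comp]
    exact .zero

theorem ab_pt (X : C) (y : Y) : (S.pt q X y).L.Ab q {y} (𝟙 X) :=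
  letI := MulAction.compHom Y q
  Lo.to_one id1 fun g hg => by rw [hg, one_smul]; rfl

theorem pt_ab {X : C} {y : Y} {M : S.LQ (Rl.eq q Y)} (ψ : S.pt q X y ⟶ M) : M.L.Ab q {y} ψ.1 :=
  LQ.p_comp ψ ▸ LQ.ab_comp (ab_pt X y) ψ

theorem ps_pt (φ : Y → Y') (h : ∀ (g : Γ) a, φ (g • a) = g • φ a) (X : C) (y : Y) :
    ∃ e : (S.ps q φ h).obj (S.pt q X y) ≅ S.pt q X (φ y), e.hom.1 = 𝟙 X ∧ e.inv.1 = 𝟙 X := by
  obtain ⟨b, hb⟩ := pt_hom (M := (S.ps q φ h).obj (S.pt q X y)) (y := φ y) (𝟙 X)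
    (Category.id_comp _) ((Lo.ab_map h).2 ((ab_pt X y).mono fun _ k => congrArg φ k))
  have k : ((Lo.one S y X).map φ).Rg (Lo.one S (φ y) X) (Rl.eq q Y').r (𝟙 X) :=
    ((Lo.rg_sup id1).on (R' := fun a g b => φ a = q g • b) (Lo.on_one (P := (· = y)) rfl X)
      (Lo.on_one (P := (· = φ y)) rfl X) fun a g b h1 h2 h3 => by
        rw [h1, h2, h3, map_one, one_smul]).mapl fun _ _ _ => id
  let a : (S.ps q φ h).obj (S.pt q X y) ⟶ S.pt q X (φ y) :=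
    LQ.homMk (𝟙 X) (Category.id_comp _) (Category.id_comp _) k
  refine ⟨⟨a, b, LQ.hom_ext ?_, LQ.hom_ext ?_⟩, rfl, hb⟩
  · rw [LQ.comp_f, hb]
    exact Category.id_comp _
  · rw [LQ.comp_f, hb]
    exact Category.id_comp _

/-- A family of maps from the pieces of `M` glues to a morphism of located objects. -/
theorem LQ.glue {M N : S.LQ (Rl.eq q Y)} (f : M.A ⟶ N.A) (h : M.p ≫ f = f) (h' : f ≫ N.p = f)
    (k : ∀ y, N.L.Ab q {y} (M.L.e y ≫ f)) : ∃ ψ : M ⟶ N, ψ.1 = f :=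
  ⟨LQ.homMk f h h' (LQ.ta_glue k), rfl⟩

theorem ta_piece [HasZeroObject C] (M : S.LQ (Rl.eq q Y)) (y : Y) : ∃ (X : C) (a : M ⟶ S.pt q X y)
    (b : S.pt q X y ⟶ M), (a ≫ b).1 = M.p ≫ M.L.e y ≫ M.p := by
  let := MulAction.compHom Y q
  obtain ⟨X, i, r, h1, h2, h3, h4⟩ := (M.L.spl y).split (hz_of (C := C))
  have a : M.L.Ab q {y} i := Lo.to_of_sup (x := y) h1 (by rw [← h4, reassoc_of% h3]) fun g hg => by
    rw [hg, one_smul]; rfl
  obtain ⟨b, hb⟩ := pt_hom (i ≫ M.p) (by simp) (LQ.ab_comp a (𝟙 M))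
  have k : M.L.Rg (S.pt q X y).L (Rl.eq q Y).r r := LQ.ta_glue (N := S.pt q X y) fun x => by
    by_cases e : x = y
    · exact Lo.to_one ((M.L.spl x).deg.mul1 h2) fun g hg => by rw [hg, one_smul]; exact e.symm
    · have : M.L.e x ≫ r = 0 := by
        rw [← Category.comp_id r, ← h3, reassoc_of% h4, reassoc_of% M.L.orth x y e, zero_comp]
      exact this ▸ .zero
  refine ⟨X, LQ.cut r k, b, ?_⟩
  rw [LQ.comp_f, hb, LQ.cut_f, ← h4]
  change (M.p ≫ r ≫ 𝟙 X) ≫ i ≫ M.p = _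
  simp

/-- Every located object is a retract of a finite sum of objects placed at points. -/
theorem cof_pt [HasZeroObject C] : Cof (S.Pt q Y) := fun M => by
  classical
  have key (s : Finset Y) : ∃ (x : S.LQ (Rl.eq q Y)) (a : M ⟶ x) (b : x ⟶ M),
      Sm (S.Pt q Y) x ∧ (a ≫ b).1 = ∑ y ∈ s, M.p ≫ M.L.e y ≫ M.p := by
    induction s using Finset.induction_on with
    | empty => exact ⟨0, 0, 0, .zero (isZero_zero _), by simp⟩
    | insert y s hy ih =>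
      obtain ⟨x, a, b, h1, h2⟩ := ih
      obtain ⟨X, a', b', h3⟩ := ta_piece M y
      exact ⟨_, biprod.lift a' a, biprod.desc b' b, .add (.of ⟨X, y, rfl⟩) h1, by
        rw [biprod.lift_desc, LQ.add_f, h2, h3, Finset.sum_insert hy]⟩
  obtain ⟨x, a, b, h1, h2⟩ := key M.L.s
  refine ⟨x, a, b, h1, LQ.hom_ext ?_⟩
  rw [h2, ← Preadditive.comp_sum, ← Preadditive.sum_comp, M.L.total, Category.id_comp, M.idem,
    LQ.id_f]

/-- An endomorphism that moves forward and has a forward moving geometric series is nilpotent. -/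
theorem nil_of_inv {R : Y → Y → Prop} (hR : ∀ (g : Γ) x y, R x y → R (g • x) (g • y))
    (len : ∀ m n a b, Pth R m a b → Pth R n a b → m = n) {p x y : B ⟶ B}
    (hp : L.Rg L (Rl.eq q Y).r p) (px : p ≫ x = x) (xp : x ≫ p = x) (py : p ≫ y = y)
    (hx : L.Rg L (fun a g b => R a (q g • b)) x)
    (hy : L.Rg L (fun a g b => ∃ n, Pth R n a (q g • b)) y) (e : (p - x) ≫ y = p) :
    ∃ m, pw x (m + 1) = 0 := by
  obtain ⟨s, F, h1, h2⟩ := hy.parts fun a g b => Classical.epsilon fun n => Pth R n a (q g • b)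
  have hN : L.Rg L (fun a g b => ∃ n ≤ s.sup id, Pth R n a (q g • b)) y :=
    h1 ▸ .sum _ fun c hc => (h2 c).mono fun a g b k =>
      ⟨c, Finset.le_sup (f := id) hc, k.2 ▸ Classical.epsilon_spec k.1⟩
  have e1 : x ≫ y = y - p := by
    rw [Preadditive.sub_comp, py] at e
    rw [← e, sub_sub_cancel]
  have e2 (n : ℕ) : pw x (n + 1 + 1) ≫ y = pw x (n + 1) ≫ y - pw x (n + 1) := by
    rw [pw_succ' x (n + 1), Category.assoc, e1, Preadditive.comp_sub, pw_succ' x n,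
      Category.assoc _ x p, xp]
  have k (N n : ℕ) (h : n ≤ N) (hN : L.Rg L (fun a g b => ∃ n ≤ N, Pth R n a (q g • b)) y) :
      L.Rg L (fun a g b => ∃ n ≤ N, Pth R n a (q g • b)) (pw x (n + 1) ≫ y) := by
    induction n with
    | zero =>
      rw [pw_succ, pw_zero, Category.comp_id, e1]
      exact hN.sub (hp.mono fun a g b k => ⟨0, h, k⟩)
    | succ n ih =>
      rw [e2]
      exact (ih (by omega)).sub ((hx.pw hR (n + 1)).mono fun a g b k => ⟨_, h, k⟩)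
  have z : pw x (s.sup id + 1) ≫ y = 0 :=
    ((k _ _ le_rfl hN).and (R' := fun a g b => ∃ n, s.sup id < n ∧ Pth R n a (q g • b))
      ((hx.pw hR _).comp hy fun a g b g' c h ⟨n, k⟩ => ⟨n + (s.sup id + 1), by omega, by
        rw [map_mul, mul_smul]; exact h.trans (k.smul hR _)⟩)).eq_zero
      fun a g b ⟨⟨m, a1, a2⟩, n, a3, a4⟩ => absurd (len _ _ _ _ a2 a4) (by omega)
  refine ⟨s.sup id, ?_⟩
  have := e2 (s.sup id)
  rw [pw_succ x (s.sup id + 1), Category.assoc, z, comp_zero, zero_sub] at this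
  exact neg_eq_zero.1 this.symm

end TA

end GC

end Pool.Agent.Lib.MP_5d3e93_al
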