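import Pool.Agent.Lib.MP_5d3e93_al.K.TFc

/-! The augmentation of the transfer complex. -/

open CategoryTheory Limits Filter Finsupp

namespace Pool.Agent.Lib.MP_5d3e93_al

universe w w' v u z v' u'

namespace K

variable {A : Type u'} [Category.{v'} A] {B : Type u} [Category.{v} B] [Preadditive B]
  [HasZeroObject B] [HasBinaryBiproducts B]

/-- A map to a complex concentrated in degree zero. -/
noncomputable def tauTo {K : Fc B} {X : B} (a : K.obj.X 0 ⟶ X) (ha : ∀ i, K.obj.d i 0 ≫ a = 0) :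
    K ⟶ (Fc.c0 B).obj X :=
  ObjectProperty.homMk (HomologicalComplex.mkHomToSingle a fun i _ => ha i)

/-- The natural form. -/
noncomputable def tauNat (T : A ⥤ Fc B) (U : A ⥤ B) (a : ∀ M, (T.obj M).obj.X 0 ⟶ U.obj M)
    (ha : ∀ M i, (T.obj M).obj.d i 0 ≫ a M = 0)
    (nat : ∀ {M N} (f : M ⟶ N), (T.map f).hom.f 0 ≫ a N = a M ≫ U.map f) : T ⟶ U ⋙ Fc.c0 B where
  app M := tauTo (a M) (ha M)
  naturality M N f := ObjectProperty.hom_ext _ (HomologicalComplex.to_single_hom_ext (by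
    change (T.map f).hom.f 0 ≫ (HomologicalComplex.mkHomToSingle (a N) fun i _ => ha N i).f 0 =
      (HomologicalComplex.mkHomToSingle (a M) fun i _ => ha M i).f 0 ≫
        ((HomologicalComplex.single B (.up ℤ) 0).map (U.map f)).f 0
    rw [HomologicalComplex.mkHomToSingle_f, HomologicalComplex.mkHomToSingle_f,
      HomologicalComplex.single_map_f_self, reassoc_of% nat f]
    simp))

theorem tau_heq {K : Fc B} {X : B} (a : K.obj.X 0 ⟶ X) (ha : ∀ i, K.obj.d i 0 ≫ a = 0)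
    (b : X ⟶ K.obj.X 0) (hb : ∀ k, b ≫ K.obj.d 0 k = 0) (ba : b ≫ a = 𝟙 X)
    (h : ∀ i k, K.obj.X i ⟶ K.obj.X k) (sh : ∀ i k, k + 1 ≠ i → h i k = 0)
    (e0 : 𝟙 _ - a ≫ b = h 0 (0 - 1) ≫ K.obj.d (0 - 1) 0 + K.obj.d 0 (0 + 1) ≫ h (0 + 1) 0)
    (en : ∀ i, i ≠ 0 → 𝟙 _ = h i (i - 1) ≫ K.obj.d (i - 1) i + K.obj.d i (i + 1) ≫ h (i + 1) i) :
    Heq (tauTo a ha) := by
  let φ : K.obj ⟶ (HomologicalComplex.single B (.up ℤ) 0).obj X :=
    HomologicalComplex.mkHomToSingle a fun i _ => ha i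
  let ψ : (HomologicalComplex.single B (.up ℤ) 0).obj X ⟶ K.obj :=
    HomologicalComplex.mkHomFromSingle b fun k _ => hb k
  have e : ψ ≫ φ = 𝟙 _ := HomologicalComplex.to_single_hom_ext (by
    simp [φ, ψ, reassoc_of% ba])
  refine ⟨ObjectProperty.homMk ψ, ⟨Homotopy.symm (f := 𝟙 K.obj) (g := φ ≫ ψ)
    ⟨h, fun i k n => sh i k n, fun i => ?_⟩⟩, ⟨Homotopy.ofEq e⟩⟩
  rw [dNext_eq h (show (ComplexShape.up ℤ).Rel i (i + 1) from rfl),
    prevD_eq h (show (ComplexShape.up ℤ).Rel (i - 1) i from sub_add_cancel i 1),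
    HomologicalComplex.id_f, HomologicalComplex.comp_f, add_comm (K.obj.d _ _ ≫ _)]
  by_cases n : i = 0
  · subst n
    rw [← e0]
    simp [φ, ψ]
  · rw [← en i n, (HomologicalComplex.isZero_single_obj_X _ _ X i n).eq_of_src (ψ.f i) 0,
      comp_zero, add_zero]

end K

open K

namespace GC

variable {G : Type w} [Group G] {C : Type u} [Category.{v} C] [Preadditive C] {S : GC G C}

variable {Γ : Type w'} [Group Γ] {q : G →* Γ} {J : Type} {Y : J → Type z}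
  [∀ j, MulAction Γ (Y j)] {ρ : ∀ j, Y j → Y j → Prop} {F : J → Set Γ} {N : ℕ}
  {D : ∀ j, Lq.Tf Γ (ρ j) (F j) N} {l : Filter J} {ν : Ar G fun j => (D j).B}

theorem tau_au (j : J) (c : (D j).B) {A B W : C} (f : A ⟶ B) (g : B ⟶ W) :
    S.tw q (D j) ((D j).u 0) f ≫ MC.ct ((D j).au c) g = MC.ct ((D j).au c) (f ≫ g) :=
  tw_ct (fun γ => by
    have := (D j).auσu c 1
    rw [(D j).σ_one, mul_one] at this
    rw [this, (D j).auσ]) f g

/-- The augmentation in degree zero. -/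
noncomputable def tauA (h : Tcz q D l ν) (j : J) (c : (D j).B) (M : S.LQ (Rl.pt ⊤)) :
    ((tr S h ⋙ Fc.map (BS.ev S l ν j)).obj M).obj.X 0 ⟶ (LQ.at S c).obj M :=
  BS.homMk (fun _ => MC.ct ((D j).au c) M.p)
    (fun _ => (tau_au j c _ _).trans (congrArg _ M.idem))
    (fun _ => (MC.ct_comp ..).trans (congrArg₂ (MC.ct · ·) ((D j).prj_au c) M.idem)) (BS.eb_top _)

theorem tauA_d (h : Tcz q D l ν) (j : J) (c : (D j).B) (M : S.LQ (Rl.pt ⊤)) (i : ℤ) :
    ((tr S h ⋙ Fc.map (BS.ev S l ν j)).obj M).obj.d i 0 ≫ tauA h j c M = 0 :=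
  BS.hom_ext fun _ => (tw_ct (q := q) (D := D j) (θ := 0)
    (fun γ => by rw [(D j).auδ, zero_mul]) M.p M.p).trans (MC.zero_ct _)

/-- The augmentation is natural, and a homotopy equivalence at the free objects. -/
theorem tr_aug [HasZeroObject C] (h : Tcz q D l ν) (j : J) (c : (D j).B) :
    ∃ ε : tr S h ⋙ Fc.map (BS.ev S l ν j) ⟶ 𝟭 _ ⋙ LQ.at S c ⋙ Fc.c0 _,
      ∀ M : S.LQ (Rl.pt ⊤), M.p = 𝟙 M.A → Heq (ε.app M) := by
  refine ⟨tauNat _ (LQ.at S c) (tauA h j c) (tauA_d h j c) fun {M N} f => BS.hom_ext fun _ =>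
    (tau_au j c f.1 N.p).trans ((MC.ct_comp ((D j).au c) (prj c) M.p f.1).trans (by
      rw [(D j).prj_au, LQ.p_comp, LQ.comp_p])).symm, fun M k => ?_⟩
  have e (φ : (D j).E) : S.tw q (D j) φ M.p = MC.ct φ M.p := by rw [k, tw_id]
  have cc (φ ψ : (D j).E) : MC.ct φ M.p ≫ MC.ct ψ M.p = MC.ct (ψ * φ) M.p :=
    (MC.ct_comp ..).trans (congrArg _ M.idem)
  have cl (φ ψ : (D j).E) : S.tw q (D j) φ M.p ≫ MC.ct ψ M.p = MC.ct (ψ * φ) M.p := by rw [e, cc]
  have cr (φ ψ : (D j).E) : MC.ct φ M.p ≫ S.tw q (D j) ψ M.p = MC.ct (ψ * φ) M.p := by rw [e, cc]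
  have cg {φ ψ : (D j).E} (a : φ = ψ) : MC.ct φ M.p = MC.ct ψ M.p := congrArg (MC.ct · M.p) a
  have ht (i : ℤ) := cg (sub_eq_iff_eq_add.1 ((D j).htp_κ c (sub_add_cancel i 1) rfl))
  simp only [MC.add_ct] at ht
  refine tau_heq _ (tauA_d h j c M) (BS.homMk (fun _ => MC.ct ((D j).bp c) M.p)
      (fun _ => (cc ..).trans (cg ((D j).bp_prj c))) (fun _ => (cr ..).trans (cg ((D j).u_bp c)))
      (BS.eb_top _)) (fun i => BS.hom_ext fun _ => (cr ..).trans ?_)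
    (BS.hom_ext fun _ => (cc ..).trans (cg ((D j).au_bp c)))
    (fun i i' => BS.homMk (fun _ => MC.ct ((D j).cu (D j).κE i i') M.p)
      (fun _ => (cl ..).trans (cg ((D j).cu_u ..))) (fun _ => (cr ..).trans (cg ((D j).u_cu ..)))
      (BS.eb_top _)) (fun i i' n => BS.hom_ext fun _ => ?_) (sub_eq_iff_eq_add.2 (BS.hom_ext
        fun _ => ?_)) fun i n => BS.hom_ext fun _ => ?_
  · rw [(D j).δ_zero, zero_mul]
    exact MC.zero_ct _
  · exact (cg ((D j).κ_shape n)).trans (MC.zero_ct _)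
  · refine (e _).trans ((ht 0).trans ?_)
    rw [if_pos rfl, ← cr, ← cl, ← cc]
    rfl
  · refine (e _).trans ((ht i).trans ?_)
    rw [if_neg n, MC.zero_ct, add_zero, ← cr, ← cl]
    rfl

end GC

end Pool.Agent.Lib.MP_5d3e93_al
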