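import Pool.Agent.Lib.MP_5d3e93_al.K.TDg

/-! Operator identities for transfer data. -/

open Finsupp

namespace Pool.Agent.Lib.MP_5d3e93_al

universe w' z

namespace Lq.Tf
section TAl
variable {Γ : Type w'} [Group Γ] {Y : Type z} [MulAction Γ Y] {ρ : Y → Y → Prop} {F : Set Γ}
  {N : ℕ} (D : Tf Γ ρ F N)

theorem σ_apply (g : Γ) (c : D.B →₀ ℤ) : D.σ g c = c.mapDomain (g • ·) := rfl

theorem σ_single (g : Γ) (a : D.B) : D.σ g (single a 1) = single (g • a) 1 := mapDomain_single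

theorem E_ext {φ ψ : D.E} (h : ∀ a, φ (single a 1) = ψ (single a 1)) : φ = ψ :=
  lhom_ext' fun a => LinearMap.ext_ring (h a)

theorem σ_one : D.σ 1 = 1 := D.E_ext fun a => by rw [σ_single, one_smul, Module.End.one_apply]

theorem σ_mul (g h : Γ) : D.σ (g * h) = D.σ g * D.σ h := D.E_ext fun a => by
  rw [Module.End.mul_apply, σ_single, σ_single, σ_single, mul_smul]

theorem π_apply (n : ℤ) (c : D.B →₀ ℤ) (p : D.B) :
    D.π n c p = if n + D.deg p = 0 then c p else 0 := filter_apply ..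

theorem π_single (n : ℤ) (p : D.B) :
    D.π n (single p 1) = if n + D.deg p = 0 then single p 1 else 0 := by
  split_ifs with h
  · exact filter_single_of_pos (p := fun p => n + D.deg p = 0) h
  · exact filter_single_of_neg (p := fun p => n + D.deg p = 0) h

theorem ππ (n : ℤ) : D.π n * D.π n = D.π n := D.E_ext fun a => by
  rw [Module.End.mul_apply, π_single]
  split_ifs with h
  · rw [π_single, if_pos h]
  · exact map_zero _

theorem ππ_ne {n m : ℤ} (h : n ≠ m) : D.π n * D.π m = 0 := D.E_ext fun a => by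
  rw [Module.End.mul_apply, π_single, LinearMap.zero_apply]
  split_ifs with k
  · rw [π_single, if_neg (by omega)]
  · exact map_zero _

theorem π_pos {n : ℤ} (h : 0 < n) : D.π n = 0 := D.E_ext fun a => by
  rw [π_single, if_neg (by omega), LinearMap.zero_apply]

/-- Homogeneous operators. -/
def Hg (k : ℤ) (φ : D.E) : Prop := ∀ n m, n + k = m → D.π m * φ = φ * D.π n

theorem hg_of {k : ℤ} {φ : D.E}
    (h : ∀ p, ∀ q ∈ (φ (single p 1)).support, (D.deg q : ℤ) + k = D.deg p) : D.Hg k φ :=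
  fun n m e => D.E_ext fun p => Finsupp.ext fun q => by
    rw [Module.End.mul_apply, Module.End.mul_apply, π_apply, π_single]
    by_cases c : φ (single p 1) q = 0
    · split_ifs <;> simp [c]
    · have := h p q (mem_support_iff.2 c)
      by_cases l : n + D.deg p = 0
      · rw [if_pos l, if_pos (by omega)]
      · rw [if_neg l, if_neg (by omega), map_zero, Finsupp.zero_apply]

theorem hg_d : D.Hg 1 D.dE := D.hg_of fun p q h => by have := D.deg_d p q h; omega

theorem hg_η : D.Hg (-1) D.ηE := D.hg_of fun p q h => by have := D.deg_η p q h; omega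

theorem hg_κ : D.Hg (-1) D.κE := D.hg_of fun p q h => by have := D.deg_κ p q h; omega

theorem hg_σ (g : Γ) : D.Hg 0 (D.σ g) := D.hg_of fun p q h => by
  rw [σ_single] at h
  rw [Finset.mem_singleton.1 (support_single_subset h), D.deg_smul, add_zero]

theorem πσ (g : Γ) (n : ℤ) : D.π n * D.σ g = D.σ g * D.π n := D.hg_σ g n n (add_zero n)

theorem πdη (n : ℤ) : D.π n * (D.dE * D.ηE) = D.dE * D.ηE * D.π n := by
  rw [← mul_assoc, D.hg_d (n - 1) n (by omega), mul_assoc, D.hg_η n (n - 1) (by omega), mul_assoc]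

theorem πηd (n : ℤ) : D.π n * (D.ηE * D.dE) = D.ηE * D.dE * D.π n := by
  rw [← mul_assoc, D.hg_η (n + 1) n (by omega), mul_assoc, D.hg_d n (n + 1) rfl, mul_assoc]

theorem πR (n : ℤ) : D.π n * D.R = D.R * D.π n := by
  rw [R, mul_sub, mul_sub, sub_mul, sub_mul, πdη, πηd, mul_one, one_mul]

theorem d_d : D.dE * D.dE = 0 := LinearMap.ext D.dd

theorem dσ (g : Γ) : D.dE * D.σ g = D.σ g * D.dE := LinearMap.ext (D.d_smul g)

theorem dR : D.dE * D.R = D.R * D.dE := by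
  rw [R, mul_sub, mul_sub, sub_mul, sub_mul, ← mul_assoc, d_d, mul_assoc D.ηE, d_d, zero_mul,
    mul_zero, mul_one, one_mul, sub_zero, sub_zero, mul_assoc]

theorem R_mem (x : D.B →₀ ℤ) (c : D.B) (h : D.R x c ≠ 0) : c ∈ D.T :=
  D.dom x (mem_support_iff.2 h)

theorem Rπ {n : ℤ} (h : n ≤ -N) : D.R * D.π n = 0 := by
  rw [← πR]
  refine LinearMap.ext fun x => Finsupp.ext fun c => ?_
  rw [Module.End.mul_apply, π_apply]
  split_ifs with k
  · by_contra e
    have := D.T_deg c (D.R_mem x c e)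
    omega
  · rfl

theorem u_gt {n : ℤ} (h : -(N : ℤ) < n) : D.u n = D.π n := if_pos h

theorem u_eq {n : ℤ} (h : n = -N) : D.u n = (1 - D.dE * D.ηE) * D.π n :=
  (if_neg (by omega)).trans (if_pos h)

theorem u_lt {n : ℤ} (h : n < -N) : D.u n = 0 := (if_neg (by omega)).trans (if_neg (by omega))

theorem u_out {n : ℤ} (h : n < -N ∨ 0 < n) : D.u n = 0 := by
  rcases h with h | h
  · exact D.u_lt h
  · rw [D.u_gt (by omega), D.π_pos h]

theorem uπ (n : ℤ) : D.u n * D.π n = D.u n := by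
  rcases lt_trichotomy n (-N) with h | h | h
  · rw [D.u_lt h, zero_mul]
  · rw [D.u_eq h, mul_assoc, ππ]
  · rw [D.u_gt h, ππ]

theorem πu (n : ℤ) : D.π n * D.u n = D.u n := by
  rcases lt_trichotomy n (-N) with h | h | h
  · rw [D.u_lt h, mul_zero]
  · rw [D.u_eq h, ← mul_assoc, mul_sub, πdη, mul_one, sub_mul, mul_assoc, ππ, sub_mul, one_mul]
  · rw [D.u_gt h, ππ]

theorem ud_low {n : ℤ} (h : n ≤ -N) : D.u n * D.dE = 0 := by
  rcases h.lt_or_eq with h | h
  · rw [D.u_lt h, zero_mul]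
  · have e : (1 - D.dE * D.ηE) * D.dE = D.dE * D.R := by
      rw [dR, R, sub_mul (1 - _), mul_assoc D.ηE, d_d, mul_zero, sub_zero]
    rw [D.u_eq h, mul_assoc, D.hg_d (n - 1) n (by omega), ← mul_assoc, e, mul_assoc,
      D.Rπ (by omega), mul_zero]

theorem ud {i j : ℤ} (h : i + 1 = j) : D.u j * D.dE = D.dE * D.u i := by
  rcases lt_trichotomy i (-N) with k | k | k
  · rw [D.u_lt k, mul_zero, D.ud_low (by omega)]
  · rw [D.u_eq k, D.u_gt (by omega), D.hg_d i j h, ← mul_assoc, mul_sub, ← mul_assoc, d_d,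
      zero_mul, sub_zero, mul_one]
  · rw [D.u_gt k, D.u_gt (by omega), D.hg_d i j h]

theorem uσu (g : Γ) (n : ℤ) : D.u n * D.σ g * D.u n = D.u n * D.σ g := by
  have e : D.u n * D.σ g * D.π n = D.u n * D.σ g := by rw [mul_assoc, ← πσ, ← mul_assoc, uπ]
  rcases lt_trichotomy n (-N) with h | h | h
  · rw [D.u_lt h, zero_mul, zero_mul]
  · have k : D.u n * D.σ g * (D.dE * D.ηE) = 0 := by
      rw [← mul_assoc, mul_assoc (D.u n), ← dσ, ← mul_assoc, D.ud_low h.le, zero_mul, zero_mul]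
    refine (congrArg (D.u n * D.σ g * ·) (D.u_eq h)).trans ?_
    simp only [← mul_assoc (D.u n * D.σ g)]
    rw [mul_sub, k, sub_zero, mul_one, e]
  · exact (congrArg (D.u n * D.σ g * ·) (D.u_gt h)).trans e

theorem uu (n : ℤ) : D.u n * D.u n = D.u n := by
  have := D.uσu 1 n
  rwa [σ_one, mul_one] at this

theorem u_cu (h : D.E) (i j : ℤ) : D.u j * D.cu h i j = D.cu h i j := by
  rw [cu, ← mul_assoc, ← mul_assoc, uu]

theorem cu_u (h : D.E) (i j : ℤ) : D.cu h i j * D.u i = D.cu h i j := by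
  rw [cu, mul_assoc, uu]

theorem cu_shape {k : ℤ} {φ : D.E} (hφ : D.Hg k φ) {i j : ℤ} (h : i + k ≠ j) :
    D.cu φ i j = 0 := by
  rw [cu, ← D.uπ j, ← D.πu i, ← mul_assoc, mul_assoc _ φ, ← hφ i _ rfl, ← mul_assoc,
    mul_assoc (D.u j), D.ππ_ne h.symm, mul_zero, zero_mul, zero_mul]

theorem δ_shape {i j : ℤ} (h : i + 1 ≠ j) : D.cu D.dE i j = 0 := D.cu_shape D.hg_d h

theorem η_shape {i j : ℤ} (h : j + 1 ≠ i) : D.cu D.ηE i j = 0 := D.cu_shape D.hg_η (by omega)

theorem κ_shape {i j : ℤ} (h : j + 1 ≠ i) : D.cu D.κE i j = 0 := D.cu_shape D.hg_κ (by omega)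

theorem δ_left {i j : ℤ} (h : i + 1 = j) : D.cu D.dE i j = D.u j * D.dE := by
  rw [cu, mul_assoc, ← D.ud h, ← mul_assoc, uu]

theorem δ_right {i j : ℤ} (h : i + 1 = j) : D.cu D.dE i j = D.dE * D.u i := by
  rw [D.δ_left h, D.ud h]

theorem δσu (g : Γ) (i j : ℤ) : D.cu D.dE i j * D.σ g * D.u i = D.cu D.dE i j * D.σ g := by
  rw [← D.cu_u D.dE i j, mul_assoc _ (D.u i), mul_assoc, uσu]

theorem uσδ (g : Γ) (i j : ℤ) : D.u j * D.σ g * D.cu D.dE i j = D.cu D.dE i j * D.σ g := by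
  by_cases h : i + 1 = j
  · rw [D.δ_left h, ← mul_assoc, uσu, mul_assoc, ← dσ, mul_assoc]
  · rw [D.δ_shape h, mul_zero, zero_mul]

theorem δσδ (g : Γ) (i j k : ℤ) : D.cu D.dE j k * D.σ g * D.cu D.dE i j = 0 := by
  by_cases h : i + 1 = j
  · by_cases l : j + 1 = k
    · rw [← D.cu_u D.dE j k, mul_assoc _ (D.u j), mul_assoc, uσδ, ← mul_assoc, D.δ_left l,
        D.δ_right h, mul_assoc (D.u k), ← mul_assoc D.dE, d_d, zero_mul, mul_zero, zero_mul]
    · rw [D.δ_shape l, zero_mul, zero_mul]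
  · rw [D.δ_shape h, mul_zero]

theorem δR (i j : ℤ) : D.cu D.dE i j * D.cu D.R i i = D.cu D.R j j * D.cu D.dE i j := by
  by_cases h : i + 1 = j
  · have a : D.cu D.dE i j * D.cu D.R i i = D.u j * (D.dE * D.R) * D.u i := by
      rw [D.δ_right h, mul_assoc, u_cu, cu, ← mul_assoc, ← mul_assoc, ← D.ud h, mul_assoc (D.u j)]
    have b : D.cu D.R j j * D.cu D.dE i j = D.u j * (D.R * D.dE) * D.u i := by
      rw [D.δ_left h, ← mul_assoc, cu_u, cu, mul_assoc, D.ud h, ← mul_assoc, mul_assoc (D.u j)]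
    rw [a, b, dR]
  · rw [D.δ_shape h, mul_zero, zero_mul]

theorem R_T (n : ℤ) (a c : D.B) (h : D.cu D.R n n (single a 1) c ≠ 0) : c ∈ D.T := by
  rcases le_or_gt n (-N) with k | k
  · refine (h ?_).elim
    rw [cu, ← D.πu n, mul_assoc, ← mul_assoc D.R, D.Rπ k, zero_mul, mul_zero]
    rfl
  · rw [cu, D.u_gt k, Module.End.mul_apply, Module.End.mul_apply, π_apply] at h
    split_ifs at h
    · exact D.R_mem _ c h
    · exact (h rfl).elim

theorem htp {h φ : D.E} (e : 1 - φ = D.dE * h + h * D.dE) {i' i i'' : ℤ} (a : i' + 1 = i)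
    (b : i + 1 = i'') : D.u i - D.cu φ i i =
      D.cu D.dE i' i * D.cu h i i' + D.cu h i'' i * D.cu D.dE i i'' := by
  have e₁ : D.cu D.dE i' i * D.cu h i i' = D.u i * (D.dE * h) * D.u i := by
    rw [D.δ_right a, mul_assoc, u_cu, cu, ← mul_assoc, ← mul_assoc, ← D.ud a, mul_assoc (D.u i)]
  have e₂ : D.cu h i'' i * D.cu D.dE i i'' = D.u i * (h * D.dE) * D.u i := by
    rw [D.δ_left b, ← mul_assoc, cu_u, cu, mul_assoc, D.ud b, ← mul_assoc, mul_assoc (D.u i)]
  rw [e₁, e₂, ← add_mul, ← mul_add, ← e, mul_sub, sub_mul, mul_one, uu, cu]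

theorem htp_η {i' i i'' : ℤ} (h : i' + 1 = i) (k : i + 1 = i'') : D.u i - D.cu D.R i i =
    D.cu D.dE i' i * D.cu D.ηE i i' + D.cu D.ηE i'' i * D.cu D.dE i i'' :=
  D.htp (by rw [R, sub_sub, sub_sub_cancel]) h k

theorem επ_zero (x : D.B →₀ ℤ) : D.ε (D.π 0 x) = D.ε x := by
  refine LinearMap.congr_fun (f := D.ε ∘ₗ D.π 0) (lhom_ext' fun a => LinearMap.ext_ring ?_) x
  change D.ε (D.π 0 (single a 1)) = D.ε (single a 1)
  rw [π_single]
  split_ifs with h
  · rfl
  · rw [map_zero, D.deg_ε a (by omega)]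

theorem επ_ne {n : ℤ} (h : n ≠ 0) (x : D.B →₀ ℤ) : D.ε (D.π n x) = 0 := by
  rw [← επ_zero, ← Module.End.mul_apply, D.ππ_ne h.symm, LinearMap.zero_apply, map_zero]

theorem εu_zero (x : D.B →₀ ℤ) : D.ε (D.u 0 x) = D.ε x := by
  rcases lt_trichotomy (0 : ℤ) (-N) with h | h | h
  · omega
  · rw [D.u_eq h, Module.End.mul_apply, LinearMap.sub_apply, map_sub, Module.End.mul_apply, D.εd,
      sub_zero, Module.End.one_apply, επ_zero]
  · rw [D.u_gt h, επ_zero]

theorem εu_ne {n : ℤ} (h : n ≠ 0) (x : D.B →₀ ℤ) : D.ε (D.u n x) = 0 := by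
  rw [← D.πu n, Module.End.mul_apply, D.επ_ne h]

theorem htp_κ (c : D.B) {i' i i'' : ℤ} (h : i' + 1 = i) (k : i + 1 = i'') :
    D.u i - (if i = 0 then D.bp c * D.au c else 0) =
      D.cu D.dE i' i * D.cu D.κE i i' + D.cu D.κE i'' i * D.cu D.dE i i'' := by
  rw [← D.htp (φ := LinearMap.toSpanSingleton ℤ _ D.b ∘ₗ D.ε) (LinearMap.ext D.con) h k]
  refine congrArg (D.u i - ·) (LinearMap.ext fun x => ?_)
  change _ = D.u i (D.ε (D.u i x) • D.b)
  split_ifs with e
  · subst e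
    change D.u 0 ((single c (D.ε x)) c • D.b) = _
    rw [single_eq_same, εu_zero]
  · rw [D.εu_ne e, zero_smul, map_zero, LinearMap.zero_apply]

end TAl
end Lq.Tf

end Pool.Agent.Lib.MP_5d3e93_al
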