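import Pool.Agent.Lib.MP_5d3e93_al.K.TDg

/-! Augmentation, base point and control of the operators of transfer data. -/

open CategoryTheory Limits Filter Finsupp

namespace Pool.Agent.Lib.MP_5d3e93_al

universe w w' v u z

namespace Lq

theorem tam_trans {Y : Type*} {ρ : Y → Y → Prop} {a b : ℕ} :
    ∀ {x y z : Y}, Pa ρ a x y → Pa ρ b y z → Pa ρ (a + b) x z := by
  induction a with
  | zero => rintro x _ z rfl h; rwa [zero_add]
  | succ a ih =>
    rintro x y z ⟨w, h1, h2⟩ h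
    rw [Nat.add_right_comm]
    exact ⟨w, h1, ih h2 h⟩

namespace Tf

variable {Γ : Type w'} [Group Γ] {Y : Type z} [MulAction Γ Y] {ρ : Y → Y → Prop} {F : Set Γ}
  {N : ℕ} (D : Tf Γ ρ F N)

theorem tam_π (n : ℤ) (x : D.B →₀ ℤ) (p : D.B) :
    D.π n x p = if n + D.deg p = 0 then x p else 0 := filter_apply ..

theorem tam_lin (φ : (D.B →₀ ℤ) →ₗ[ℤ] ℤ) {x : D.B →₀ ℤ}
    (h : ∀ p ∈ x.support, φ (single p 1) = 0) : φ x = 0 := by
  rw [← x.sum_single, Finsupp.sum, map_sum]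
  refine Finset.sum_eq_zero fun p k => ?_
  rw [← mul_one (x p), ← smul_eq_mul, ← smul_single, map_smul, h p k, smul_zero]

theorem tam_εη (x : D.B →₀ ℤ) : D.ε (D.η x) = 0 :=
  D.tam_lin (D.ε ∘ₗ D.η) fun p _ => D.tam_lin D.ε fun q k => D.deg_ε q (by
    rw [D.deg_η p q k]; omega)

include D in
theorem tam_pos : 0 < N := Nat.pos_of_ne_zero fun h => by
  have e : D.b - D.d (D.η D.b) - D.η (D.d D.b) = 0 := Finsupp.ext fun p => by_contra fun k => by
    have := D.T_deg p (D.dom D.b (mem_support_iff.2 k))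
    omega
  have := congrArg D.ε e
  rw [map_sub, map_sub, D.εb, D.εd, D.tam_εη, map_zero] at this
  omega

theorem tam_u : D.u 0 = D.π 0 := if_pos (by have := D.tam_pos; omega)

theorem tam_επ (x : D.B →₀ ℤ) : D.ε (D.π 0 x) = D.ε x := by
  rw [← sub_eq_zero, ← map_sub]
  refine D.tam_lin D.ε fun p k => D.deg_ε p fun e => mem_support_iff.1 k ?_
  rw [Finsupp.sub_apply, tam_π, if_pos (by omega), sub_self]

theorem tam_au (c : D.B) : D.au c * D.u 0 = D.au c := by
  rw [tam_u]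
  exact LinearMap.ext fun x => congrArg (single c) (D.tam_επ x)

theorem auσ (c : D.B) (g : Γ) : D.au c * D.σ g = D.au c :=
  LinearMap.ext fun x => congrArg (single c) (D.ε_smul g x)

theorem auσu (c : D.B) (g : Γ) : D.au c * D.σ g * D.u 0 = D.au c := by rw [auσ, tam_au]

theorem auδ (c : D.B) (i : ℤ) : D.au c * D.cu D.dE i 0 = 0 := by
  rw [cu, ← mul_assoc, ← mul_assoc, tam_au]
  exact LinearMap.ext fun x => (congrArg (single c) (D.εd _)).trans (single_zero c)

theorem prj_au (c : D.B) : prj c * D.au c = D.au c :=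
  LinearMap.ext fun _ => congrArg (single c) single_eq_same

theorem au_bp (c : D.B) : D.au c * D.bp c = prj c := by
  rw [bp, ← mul_assoc, tam_au]
  refine LinearMap.ext fun x => congrArg (single c) ?_
  change D.ε (x c • D.b) = x c
  rw [map_smul, D.εb, smul_eq_mul, mul_one]

theorem bp_prj (c : D.B) : D.bp c * prj c = D.bp c :=
  LinearMap.ext fun _ => congrArg (fun n : ℤ => D.u 0 (n • D.b)) single_eq_same

theorem u_bp (c : D.B) : D.u 0 * D.bp c = D.bp c := by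
  rw [bp, ← mul_assoc, tam_u]
  congr 1
  refine LinearMap.ext fun x => Finsupp.ext fun p => ?_
  rw [Module.End.mul_apply, tam_π, tam_π]
  split_ifs <;> rfl

theorem δ_zero (j : ℤ) : D.cu D.dE 0 j = 0 := by
  rw [cu, mul_assoc, tam_u, show D.dE * D.π 0 = 0 from ?_, mul_zero]
  refine LinearMap.ext fun x => Finsupp.ext fun q => D.tam_lin (lapply q ∘ₗ D.d) fun p k => ?_
  refine by_contra fun e => ?_
  have h1 := D.deg_d p q (mem_support_iff.2 e)
  have h2 := mem_support_iff.1 k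
  rw [tam_π, if_neg (by omega)] at h2
  exact h2 rfl

variable {D} {a b : ℕ} {φ ψ : D.E}

theorem Ct.mono (h : D.Ct a φ) (k : a ≤ b) : D.Ct b φ := fun p q e =>
  (h p q e).imp fun _ c => ⟨c.1.trans k, c.2⟩

theorem Ct.sub (h : D.Ct a φ) (k : D.Ct a ψ) : D.Ct a (φ - ψ) := fun p q e => by
  by_cases c : φ (single p 1) q = 0
  · exact k p q fun c' => e (by rw [LinearMap.sub_apply, Finsupp.sub_apply, c, c', sub_zero])
  · exact h p q c

theorem Ct.mul (k : D.Ct b ψ) (h : D.Ct a φ) : D.Ct (a + b) (ψ * φ) := fun p q e => by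
  by_contra n
  refine e (D.tam_lin (lapply q ∘ₗ ψ) fun r c => by_contra fun c' => n ?_)
  obtain ⟨m, m1, m2⟩ := h p r (mem_support_iff.1 c)
  obtain ⟨m', m3, m4⟩ := k r q c'
  exact ⟨m + m', add_le_add m1 m3, tam_trans m2 m4⟩

variable (D)

theorem tam_one : D.Ct 0 1 := fun p q e => ⟨0, le_rfl, by
  rw [show q = p from by_contra fun c => e (single_eq_of_ne c)]; rfl⟩

theorem tam_ctπ (n : ℤ) : D.Ct 0 (D.π n) := fun p q e => D.tam_one p q fun c => e (by
  rw [tam_π, show (single p 1 : D.B →₀ ℤ) q = 0 from c, ite_self])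

theorem tam_ctd : D.Ct 1 D.dE := fun p q e => ⟨1, le_rfl, _, D.cd p q (mem_support_iff.2 e), rfl⟩

theorem tam_ctη : D.Ct 1 D.ηE := fun p q e => ⟨1, le_rfl, _, D.cη p q (mem_support_iff.2 e), rfl⟩

theorem tam_ctu (n : ℤ) : D.Ct 2 (D.u n) := by
  unfold u
  split_ifs
  · exact (D.tam_ctπ n).mono (by omega)
  · exact ((D.tam_one.mono (by omega)).sub (D.tam_ctd.mul D.tam_ctη)).mul (D.tam_ctπ n)
  · exact fun _ _ e => (e rfl).elim

/-- `Ct` is closed under sums, `Ct a φ → Ct b ψ → Ct (a + b) (ψ * φ)`. -/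
theorem ct_u (n : ℤ) : D.Ct 6 (D.u n) := (D.tam_ctu n).mono (by omega)

theorem ct_δ (i j : ℤ) : D.Ct 6 (D.cu D.dE i j) :=
  (((D.tam_ctu j).mul D.tam_ctd).mul (D.tam_ctu i)).mono (by omega)

theorem ct_η (i j : ℤ) : D.Ct 6 (D.cu D.ηE i j) :=
  (((D.tam_ctu j).mul D.tam_ctη).mul (D.tam_ctu i)).mono (by omega)

theorem ct_R (i j : ℤ) : D.Ct 6 (D.cu D.R i j) :=
  ((D.tam_ctu j).mul (((D.tam_one.mono (by omega)).sub (D.tam_ctd.mul D.tam_ctη)).sub
    (D.tam_ctη.mul D.tam_ctd))).mul (D.tam_ctu i)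

end Tf

end Lq

end Pool.Agent.Lib.MP_5d3e93_al
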