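import Pool.Agent.Lib.MP_5d3e93_al.K.TD
import Pool.Agent.Lib.MP_5d3e93_al.TreeC

/-! Combinatorics of the oriented tree. -/

open MulAction

namespace Pool.Agent.Lib.MP_5d3e93_al

universe w

section TC
variable {Γ : Type w} [Group Γ] {V : Type w} [MulAction Γ V] {T : SimpleGraph V} {o : Ot Γ T}

theorem Ed.en_mem (b : Bool) (e : Ed o) : e.en b ∈ e.sd b := half_self

theorem Ed.sd_compl (b : Bool) (e : Ed o) : e.sd (!b) = (e.sd b)ᶜ := by
  ext v
  rw [Ed.sd, Bool.not_not]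
  exact ⟨half_disj o.tree (e.adj b).symm, (half_or o.tree (e.adj b) v).resolve_left⟩

theorem Ed.sd_smul (b : Bool) (g : Γ) (e : Ed o) (v : V) : g • v ∈ (g • e).sd b ↔ v ∈ e.sd b := by
  have key : ∀ (g : Γ) (e : Ed o) v, v ∈ e.sd b → g • v ∈ (g • e).sd b := fun g e v h => by
    rw [Ed.sd, Ed.en_smul, Ed.en_smul]
    exact half_smul o.ha g h
  refine ⟨fun h => ?_, key g e v⟩
  have := key g⁻¹ _ _ h
  rwa [inv_smul_smul, inv_smul_smul] at this

theorem Ed.ex {a c : V} (h : T.Adj a c) : ∃ (e : Ed o) (b : Bool), e.en (!b) = a ∧ e.en b = c := by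
  rcases o.tot a c h with k | k
  exacts [⟨⟨⟨a, c, h⟩, k⟩, false, rfl, rfl⟩, ⟨⟨⟨c, a, h.symm⟩, k⟩, true, rfl, rfl⟩]

theorem Ed.en_inj {b b' : Bool} {e e' : Ed o} (h1 : e.en (!b) = e'.en (!b'))
    (h2 : e.en b = e'.en b') : b = b' ∧ e = e' := by
  have p := e.pos
  have p' := o.asym _ e'.pos
  cases b <;> cases b'
  · exact ⟨rfl, Ed.ext (Dt.ext h1 h2)⟩
  · exact (p' (by rwa [show e.d.a = e'.d.b from h1, show e.d.b = e'.d.a from h2] at p)).elim
  · exact (p' (by rwa [show e.d.b = e'.d.a from h1, show e.d.a = e'.d.b from h2] at p)).elim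
  · exact ⟨rfl, Ed.ext (Dt.ext h2 h1)⟩

theorem Ed.dt_inj {b b' : Bool} {e e' : Ed o} (h : e.dt b = e'.dt b') : b = b' ∧ e = e' :=
  Ed.en_inj (congrArg Dt.a h) (congrArg Dt.b h)

/-- Only `e` crosses from one side of `e` to the other. -/
theorem Ed.cross {b b' : Bool} {e e' : Ed o} (h : e'.en b' ∈ e.sd b) (k : e'.en (!b') ∉ e.sd b) :
    e' = e ∧ b' = b :=
  have c := half_cross o.tree (e.adj b) (e'.adj b').symm h k
  (Ed.en_inj c.2 c.1).symm

theorem Dt.ex_pth (hT : T.IsTree) {ha : ∀ (g : Γ) a b, T.Adj a b → T.Adj (g • a) (g • b)}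
    (d' : Dt T ha) (n : ℕ) : ∀ d : Dt T ha, T.dist d.b d'.b < n → d'.b ∈ Half T d.a d.b →
      d.a ∉ Half T d'.a d'.b → ∃ n, Pth Dt.st n d d' := by
  induction n with
  | zero => exact fun _ h => (Nat.not_lt_zero _ h).elim
  | succ n ih =>
    intro d hn h k
    by_cases c : d.b ∈ Half T d'.a d'.b
    · have := half_cross hT d'.adj d.adj.symm c k
      exact ⟨0, Dt.ext this.2 this.1⟩
    · obtain e | ⟨x, h1, h2⟩ := half_ex hT d.b d'.b
      · exact (c (e ▸ half_self)).elim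
      · have := half_dist hT h1.symm (half_disj hT h1 h2) half_self
        obtain ⟨m, hm⟩ := ih ⟨d.b, x, h1⟩ (by change T.dist x d'.b < n; omega) h2 c
        refine ⟨m + 1, ⟨d.b, x, h1⟩, ⟨rfl, fun e : x = d.a => ?_⟩, hm⟩
        exact half_disj hT d.adj h (e ▸ h2)

/-- An oriented edge on the side `b` of `e` that does not point back to `e` is reached by a path
without backtracking. -/
theorem Ed.pth {b b' : Bool} {e e' : Ed o} (h : e'.en b' ∈ e.sd b)
    (k : e' = e ∨ e.en (!b) ∉ e'.sd b') : ∃ n, Pth Dt.st n (e.dt b) (e'.dt b') := by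
  refine Dt.ex_pth o.tree (e'.dt b') _ (e.dt b) (Nat.lt_succ_self _) h ?_
  rcases k with rfl | k
  · obtain rfl | rfl := Bool.eq_or_eq_not b' b
    · exact not_half o.tree (e'.adj b')
    · exact (not_half o.tree (e'.adj b) h).elim
  · exact k

theorem Dt.pth_stp {ha : ∀ (g : Γ) a b, T.Adj a b → T.Adj (g • a) (g • b)} {d' : Dt T ha}
    {m : ℕ} : ∀ {d : Dt T ha}, Pth Dt.st m d d' → Pth (Stp T) m (d.a, d.b) (d'.a, d'.b) := by
  induction m with
  | zero => exact fun h => by rw [show _ = d' from h]; rfl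
  | succ m ih =>
    rintro d ⟨x, ⟨h1, h2⟩, h3⟩
    have h4 : x.a ∈ Half T d.a d.b := h1 ▸ half_self
    refine ⟨(x.a, x.b), ⟨h1, d.adj, h4, half_step h4 x.adj fun e => ?_⟩, ih h3⟩
    rcases Sym2.eq_iff.1 e with ⟨e, -⟩ | ⟨-, e⟩
    exacts [d.adj.ne (e.symm.trans h1), h2 e]

theorem Dt.pth_dist (hT : T.IsTree) {ha : ∀ (g : Γ) a b, T.Adj a b → T.Adj (g • a) (g • b)}
    {d d' : Dt T ha} {m : ℕ} (h : Pth Dt.st m d d') : T.dist d'.a d.a = m := by
  have h1 := (Dt.pth_stp h).near hT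
  have h2 := ((Dt.pth_stp h).far hT (c := d.a) (not_half hT)).2
  exact le_antisymm h1 (le_trans (Nat.le_add_left _ _) h2)

theorem Dt.pth_len (hT : T.IsTree) {ha : ∀ (g : Γ) a b, T.Adj a b → T.Adj (g • a) (g • b)}
    {d d' : Dt T ha} {m n : ℕ} (h : Pth Dt.st m d d') (k : Pth Dt.st n d d') : m = n :=
  (Dt.pth_dist hT h).symm.trans (Dt.pth_dist hT k)

theorem Ed.stab (e : Ed o) : stabilizer Γ e = stabilizer Γ e.d :=
  Subgroup.ext fun _ => ⟨fun h => congrArg Ed.d h, fun h => Ed.ext h⟩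

theorem ex_ot (hT : T.IsTree) (ha : ∀ (g : Γ) a b, T.Adj a b → T.Adj (g • a) (g • b))
    (hi : ∀ (g : Γ) a b, T.Adj a b → g • a = b → g • b ≠ a) : ∃ o : Ot Γ T, True :=
  have ⟨O, h1, h2, h3⟩ := ex_orient hi
  ⟨⟨hT, ha, O, h1, h2, h3⟩, trivial⟩

end TC

end Pool.Agent.Lib.MP_5d3e93_al
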