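import Pool.Agent.Lib.MP_5d3e93_al.K.MV

/-! The Mayer-Vietoris datum of an action on a tree: definitions. -/

open CategoryTheory Limits ZeroObject

namespace Pool.Agent.Lib.MP_5d3e93_al

open Gr K

universe w v u y

section Or

variable (Γ : Type w) [Group Γ] {V : Type w} [MulAction Γ V] (T : SimpleGraph V)

/-- A tree with an invariant orientation. -/
structure Ot where
  tree : T.IsTree
  ha : ∀ (g : Γ) a b, T.Adj a b → T.Adj (g • a) (g • b)
  O : V × V → Prop
  smul : ∀ (g : Γ) x, O x → O (g • x)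
  asym : ∀ x, O x → ¬ O x.swap
  tot : ∀ a b, T.Adj a b → O (a, b) ∨ O (b, a)

variable {Γ T}

/-- Geometric edges. -/
@[ext] structure Ed (o : Ot Γ T) where
  d : Dt T o.ha
  pos : o.O (d.a, d.b)

variable {o : Ot Γ T}

instance : MulAction Γ (Ed o) where
  smul g e := ⟨g • e.d, o.smul g _ e.pos⟩
  one_smul e := Ed.ext (one_smul Γ e.d)
  mul_smul g h e := Ed.ext (mul_smul g h e.d)

/-- The two ends of an edge. -/
def Ed.en (b : Bool) (e : Ed o) : V := cond b e.d.a e.d.b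

theorem Ed.en_smul (b : Bool) (g : Γ) (e : Ed o) : (g • e).en b = g • e.en b := by
  cases b <;> rfl

theorem Ed.adj (b : Bool) (e : Ed o) : T.Adj (e.en !b) (e.en b) := by
  cases b
  exacts [e.d.adj, e.d.adj.symm]

/-- The half tree that contains the end `b`. -/
def Ed.sd (b : Bool) (e : Ed o) : Set V := Half T (e.en !b) (e.en b)

/-- The edge oriented towards its end `b`. -/
def Ed.dt (b : Bool) (e : Ed o) : Dt T o.ha := ⟨e.en !b, e.en b, e.adj b⟩

theorem Ed.dt_smul (b : Bool) (g : Γ) (e : Ed o) : (g • e).dt b = g • e.dt b :=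
  Dt.ext (e.en_smul _ g) (e.en_smul _ g)

end Or

namespace GC

variable {G : Type w} [Group G] {C : Type u} [Category.{v} C] [Preadditive C] (S : GC G C)
variable {Γ : Type w} [Group Γ] (q : G →* Γ)

variable {S} in
/-- The morphism goes to points of `W`. -/
def Lo.Ab {Y : Type y} [MulAction Γ Y] {A B : C} (L : S.Lo Y B) (W : Set Y) (f : A ⟶ B) : Prop :=
  letI := MulAction.compHom Y q
  L.To W f

/-- An object placed at a point. -/
noncomputable def pt {Y : Type y} [MulAction Γ Y] (X : C) (y : Y) : S.LQ (Rl.eq q Y) :=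
  ⟨X, .one S y X, 𝟙 X, Category.id_comp _, Lo.rg_id.mono fun a g b h => by
    change a = q g • b
    rw [h.1, h.2, map_one, one_smul]⟩

/-- An object of the total category. -/
noncomputable def fro (X : C) : S.LQ (Rl.pt (⊤ : Subgroup G)) :=
  ⟨X, .one S () X, 𝟙 X, Category.id_comp _, fun _ _ _ h => (h trivial).elim⟩

theorem U_pt {Y : Type y} [MulAction Γ Y] (X : C) (y : Y) :
    (LQ.U S _).obj (S.pt q X y) = S.fro X := rfl

/-- The objects placed at one point. -/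
def Pt (Y : Type y) [MulAction Γ Y] : ObjectProperty (S.LQ (Rl.eq q Y)) :=
  fun M => ∃ X y, M = S.pt q X y

/-- Moving the locations along an equivariant map. -/
noncomputable def ps {Y Y' : Type y} [MulAction Γ Y] [MulAction Γ Y'] (φ : Y → Y')
    (h : ∀ (g : Γ) a, φ (g • a) = g • φ a) : S.LQ (Rl.eq q Y) ⥤ S.LQ (Rl.eq q Y') :=
  LQ.push S φ fun a g b (k : a = q g • b) => show φ a = q g • φ b by rw [k, h]

instance {Y Y' : Type y} [MulAction Γ Y] [MulAction Γ Y'] (φ : Y → Y')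
    (h : ∀ (g : Γ) a, φ (g • a) = g • φ a) : (S.ps q φ h).Additive := ⟨rfl⟩

variable {V : Type w} [MulAction Γ V] {T : SimpleGraph V} (o : Ot Γ T)

/-- The Mayer-Vietoris datum of the tree. -/
noncomputable def md : MD.{v, max u w, u} (S.LQ (Rl.eq q V)) (S.LQ (Rl.eq q (Ed o)))
    (S.LQ (Rl.pt (⊤ : Subgroup G))) where
  i := LQ.U S _
  j := LQ.U S _
  s b := S.ps q (Ed.en b) (Ed.en_smul b)
  e _ := Iso.refl _

variable {S q o}

theorem md_t (b : Bool) {M : S.LQ (Rl.eq q V)} {N : S.LQ (Rl.eq q (Ed o))}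
    (φ : M ⟶ ((S.md q o).s b).obj N) : ((S.md q o).t b φ).1 = φ.1 := LQ.comp_p φ

/-- The underlying morphisms of the structure maps. -/
def kk (c : MV (S.md q o)) (b : Bool) : c.V.A ⟶ c.E.A := (c.k b).1

theorem md_κ (c : MV (S.md q o)) : c.κ.1 = kk c true - kk c false :=
  congrArg₂ (· - ·) (md_t true (c.k true)) (md_t false (c.k false))

/-- Standard presentations of `X` over the finite subtree `Δ`. -/
structure Sx (X : C) (Δ : Finset V) (c : MV (S.md q o)) (η : S.fro X ⟶ (S.md q o).i.obj c.V) :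
    Prop where
  spl : Gr.Spl η c.κ
  conn : ∀ a b, T.Adj a b → a ∉ Δ → b ∈ Δ → (Δ : Set V) ⊆ Half T a b
  sup : c.V.L.Ab q Δ η.1
  injV : ∀ M (ψ : c.V ⟶ M), η ≫ (S.md q o).i.map ψ = 0 → ψ = 0
  surV : ∀ M (φ : S.fro X ⟶ (S.md q o).i.obj M), M.L.Ab q Δ φ.1 →
    ∃ ψ : c.V ⟶ M, η ≫ (S.md q o).i.map ψ = φ
  injE : ∀ M (ψ : c.E ⟶ M), η ≫ (S.md q o).t true (c.k true) ≫ (S.md q o).j.map ψ = 0 → ψ = 0
  surE : ∀ M (φ : S.fro X ⟶ (S.md q o).j.obj M), M.L.Ab q {e | ∀ b, e.en b ∈ Δ} φ.1 →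
    ∃ ψ : c.E ⟶ M, η ≫ (S.md q o).t true (c.k true) ≫ (S.md q o).j.map ψ = φ

/-- The decomposition of the edge object by the side to which the inverse boundary map goes. -/
structure Pc (c : MV (S.md q o)) (l : c.E.A ⟶ c.V.A) (p : Bool → (c.E ⟶ c.E)) : Prop where
  lp : l ≫ c.V.p = l
  lκ : l ≫ c.κ.1 = c.E.p
  κl : c.κ.1 ≫ l = c.V.p
  sum : p true + p false = 𝟙 _
  side : ∀ b e, c.V.L.Ab q (Ed.sd b e) (c.E.L.e e ≫ (p b).1 ≫ l)

end GC

end Pool.Agent.Lib.MP_5d3e93_al
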