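import Pool.Agent.Lib.MP_5d3e93_al.K.CDf

/-! Row finite matrices, big controlled categories. -/

open CategoryTheory Limits ZeroObject Filter Finsupp

namespace Pool.Agent.Lib.MP_5d3e93_al

universe w v u z

variable {C : Type u} [Category.{v} C] [Preadditive C]

/-- Sums of copies of an object, indexed by `Z`. -/
structure MC (Z : Type z) (C : Type u) where
  A : C

namespace MC

variable {Z : Type z}

/-- A row multiplied from the left. -/
noncomputable def pre {A B D : C} (x : A ⟶ B) : (Z →₀ (B ⟶ D)) →+ (Z →₀ (A ⟶ D)) :=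
  mapRange.addMonoidHom (Preadditive.leftComp D x)

/-- A row multiplied by a matrix. -/
noncomputable def post {A B D : C} (g : Z → Z →₀ (B ⟶ D)) : (Z →₀ (A ⟶ B)) →+ (Z →₀ (A ⟶ D)) :=
  liftAddHom fun c => AddMonoidHom.mk' (fun x => pre x (g c)) fun _ _ =>
    Finsupp.ext fun _ => Preadditive.add_comp ..

theorem pre_apply {A B D : C} (x : A ⟶ B) (r : Z →₀ (B ⟶ D)) (c) : pre x r c = x ≫ r c := rfl

theorem pre_single {A B D : C} (x : A ⟶ B) (c : Z) (y : B ⟶ D) :
    pre x (single c y) = single c (x ≫ y) := mapRange_single (hf := map_zero _)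

theorem post_single {A B D : C} (g : Z → Z →₀ (B ⟶ D)) (c) (x : A ⟶ B) :
    post g (single c x) = pre x (g c) := liftAddHom_apply_single ..

theorem post_apply {A B D : C} (g : Z → Z →₀ (B ⟶ D)) (r : Z →₀ (A ⟶ B)) (e) :
    post g r e = ∑ c ∈ r.support, r c ≫ g c e := by
  rw [post, liftAddHom_apply, Finsupp.sum, finsetSum_apply]
  rfl

theorem pre_post {A' A B D : C} (x : A' ⟶ A) (g : Z → Z →₀ (B ⟶ D)) (r : Z →₀ (A ⟶ B)) :
    post g (pre x r) = pre x (post g r) := by
  induction r using Finsupp.induction_linear with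
  | zero => simp
  | add a b h k => simp [h, k]
  | single c y =>
    rw [pre_single, post_single, post_single]
    exact Finsupp.ext fun _ => Category.assoc ..

noncomputable instance : Category.{max z v} (MC Z C) where
  Hom X Y := Z → Z →₀ (X.A ⟶ Y.A)
  id X a := single a (𝟙 X.A)
  comp f g a := post g (f a)
  id_comp f := funext fun a => (post_single ..).trans (Finsupp.ext fun _ => Category.id_comp _)
  comp_id f := funext fun a => by
    induction f a using Finsupp.induction_linear with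
    | zero => simp
    | add a b h k => simp [h, k]
    | single c y => rw [post_single, pre_single, Category.comp_id]
  assoc f g h := funext fun a => by
    change post h (post g (f a)) = post (fun a => post h (g a)) (f a)
    induction f a using Finsupp.induction_linear with
    | zero => simp
    | add a b h k => rw [map_add, map_add, map_add, h, k]
    | single c y => rw [post_single, post_single, pre_post]

noncomputable instance : Preadditive (MC Z C) where
  homGroup X Y := inferInstanceAs (AddCommGroup (Z → Z →₀ (X.A ⟶ Y.A)))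
  add_comp _ _ _ f g h := funext fun a => map_add (post h) (f a) (g a)
  comp_add _ _ _ f g h := funext fun a => Finsupp.ext fun e => by
    change post (fun c => g c + h c) (f a) e = post g (f a) e + post h (f a) e
    simp [post_apply, Finset.sum_add_distrib]

variable {X Y W : MC Z C}

theorem comp_apply (f : X ⟶ Y) (g : Y ⟶ W) (a e) :
    (f ≫ g) a e = ∑ c ∈ (f a).support, f a c ≫ g c e := post_apply ..

theorem id_apply (X : MC Z C) (a) : (𝟙 X : X ⟶ X) a = single a (𝟙 X.A) := rfl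

@[simp] theorem add_apply (f g : X ⟶ Y) (a) : (f + g) a = f a + g a := rfl

@[simp] theorem neg_apply (f : X ⟶ Y) (a) : (-f) a = -f a := rfl

@[simp] theorem sub_apply (f g : X ⟶ Y) (a) : (f - g) a = f a - g a := rfl

@[simp] theorem zero_apply (a) : (0 : X ⟶ Y) a = 0 := rfl

/-- An integer matrix tensored with a morphism. Rows are images of basis elements. -/
noncomputable def ct (φ : Module.End ℤ (Z →₀ ℤ)) {A B : C} (f : A ⟶ B) :
    (⟨A⟩ : MC Z C) ⟶ ⟨B⟩ := fun a => (φ (single a 1)).mapRange (· • f) (zero_smul ℤ f)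

theorem ct_apply (φ : Module.End ℤ (Z →₀ ℤ)) {A B : C} (f : A ⟶ B) (a c) :
    ct φ f a c = φ (single a 1) c • f := rfl

theorem ct_comp (φ ψ : Module.End ℤ (Z →₀ ℤ)) {A B D : C} (f : A ⟶ B) (g : B ⟶ D) :
    ct φ f ≫ ct ψ g = ct (ψ * φ) (f ≫ g) := funext fun a => by
  change post (ct ψ g) ((φ (single a 1)).mapRange (· • f) (zero_smul ℤ f)) =
    (ψ (φ (single a 1))).mapRange (· • (f ≫ g)) (zero_smul ℤ _)
  induction φ (single a 1) using Finsupp.induction_linear with
  | zero => simp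
  | add x y h k => rw [mapRange_add (fun _ _ => add_smul ..), map_add, map_add,
      mapRange_add (fun _ _ => add_smul ..), h, k]
  | single c n =>
    rw [mapRange_single, post_single]
    refine Finsupp.ext fun e => ?_
    rw [pre_apply, ct_apply, mapRange_apply, ← mul_one n, ← smul_eq_mul n, ← smul_single,
      map_smul]
    simp [smul_smul, mul_comm]

theorem ct_one (A : C) : ct 1 (𝟙 A) = 𝟙 (⟨A⟩ : MC Z C) :=
  funext fun _ => mapRange_single.trans (congrArg _ (one_smul ..))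

theorem ct_add (φ : Module.End ℤ (Z →₀ ℤ)) {A B : C} (f g : A ⟶ B) :
    ct φ (f + g) = ct φ f + ct φ g := funext fun _ => Finsupp.ext fun _ => smul_add ..

theorem add_ct (φ ψ : Module.End ℤ (Z →₀ ℤ)) {A B : C} (f : A ⟶ B) :
    ct (φ + ψ) f = ct φ f + ct ψ f := funext fun _ => Finsupp.ext fun _ => add_smul ..

@[simp] theorem ct_zero (φ : Module.End ℤ (Z →₀ ℤ)) {A B : C} : ct φ (0 : A ⟶ B) = 0 :=
  funext fun _ => Finsupp.ext fun _ => smul_zero _

@[simp] theorem zero_ct {A B : C} (f : A ⟶ B) : ct (0 : Module.End ℤ (Z →₀ ℤ)) f = 0 :=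
  funext fun _ => Finsupp.ext fun _ => zero_smul ..

end MC

variable {G : Type w} [Group G] {J : Type}

/-- The pull back along maps. -/
def Ar.comap {Y : J → Type u} {Z : J → Type z} (ν : Ar G Y) (φ : ∀ j, Z j → Y j) : Ar G Z :=
  ⟨fun r j a g b => ν.n r j (φ j a) g (φ j b), ν.mono, ν.trans⟩

/-- No control. -/
def Ar.top (G : Type w) [Group G] (Z : Type z) : Ar G fun _ : Unit => Z :=
  ⟨fun _ _ _ _ _ => True, fun _ _ => trivial, fun _ _ => trivial⟩

namespace GC

variable {S : GC G C} {Z : J → Type z} {l : Filter J} {ν : Ar G Z}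

section Eb

variable {X Y W : ∀ j, MC (Z j) C} {f f' : ∀ j, X j ⟶ Y j} {k : ∀ j, Y j ⟶ W j}

variable (S l ν f) in
/-- Eventually uniform control of the entries. -/
def Eb : Prop := ∃ r, ∀ᶠ j in l, ∀ a c, S.Sup {g | ν.n r j a g c} (f j a c)

theorem Eb.zero : S.Eb l ν (X := X) (Y := Y) fun _ => 0 := ⟨0, .of_forall fun _ _ _ => .zero⟩

theorem Eb.add (h : S.Eb l ν f) (h' : S.Eb l ν f') : S.Eb l ν fun j => f j + f' j := by
  obtain ⟨r, h⟩ := h
  obtain ⟨s, h'⟩ := h'
  exact ⟨r + s, (h.and h').mono fun j e a c => ((e.1 a c).mono fun _ b => ν.mono b (by omega)).add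
    ((e.2 a c).mono fun _ b => ν.mono b (by omega))⟩

theorem Eb.neg (h : S.Eb l ν f) : S.Eb l ν fun j => -f j :=
  h.imp fun _ h => h.mono fun _ e a c => (e a c).neg

theorem Eb.comp (h : S.Eb l ν f) (h' : S.Eb l ν k) : S.Eb l ν fun j => f j ≫ k j := by
  obtain ⟨r, h⟩ := h
  obtain ⟨s, h'⟩ := h'
  refine ⟨r + s, (h.and h').mono fun j e a c => ?_⟩
  rw [MC.comp_apply]
  exact .sum _ fun b _ => (e.1 a b).comp (e.2 b c) fun _ x _ y => ν.trans x y

theorem di_comp {Z : Type z} {A : C} {Y W : MC Z C} (x : A ⟶ Y.A) (k : Y ⟶ W) (a c) :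
    (MC.ct 1 x ≫ k) a c = x ≫ k a c := by
  change MC.post k ((single a (1 : ℤ)).mapRange (· • x) (zero_smul ℤ x)) c = _
  rw [mapRange_single, MC.post_single, one_smul, MC.pre_apply]

theorem comp_di {Z : Type z} {B : C} {X Y : MC Z C} (f : X ⟶ Y) (x : Y.A ⟶ B) (a c) :
    (f ≫ MC.ct 1 x) a c = f a c ≫ x := by
  classical
  rw [MC.comp_apply, Finset.sum_eq_single c]
  · exact congrArg _ ((MC.ct_apply ..).trans (by simp))
  · intro b _ e
    rw [MC.ct_apply, Module.End.one_apply, single_eq_of_ne e.symm, zero_smul, comp_zero]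
  · intro e
    rw [notMem_support_iff.1 e, zero_comp]

theorem Eb.dg_comp {A : J → C} {x : ∀ j, A j ⟶ (Y j).A} (h : ∀ j, S.cp 1 (x j) = x j)
    (h' : S.Eb l ν k) : S.Eb l ν fun j => MC.ct 1 (x j) ≫ k j :=
  h'.imp fun _ e => e.mono fun j e a c => di_comp (x j) (k j) a c ▸ .one_comp (h j) (e a c)

theorem Eb.comp_dg {B : J → C} {x : ∀ j, (Y j).A ⟶ B j} (h : S.Eb l ν f)
    (h' : ∀ j, S.cp 1 (x j) = x j) : S.Eb l ν fun j => f j ≫ MC.ct 1 (x j) :=
  h.imp fun _ e => e.mono fun j e a c => comp_di (f j) (x j) a c ▸ (e a c).comp_one (h' j)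

end Eb

variable (S l ν) in
/-- Families of controlled idempotent matrices. -/
structure BS where
  A : J → C
  p : ∀ j, (⟨A j⟩ : MC (Z j) C) ⟶ ⟨A j⟩
  idem : ∀ j, p j ≫ p j = p j
  rg : S.Eb l ν p

namespace BS

attribute [reassoc (attr := simp)] idem

/-- Controlled families of matrices compatible with the idempotents. -/
def Mor (M N : S.BS l ν) : AddSubgroup (∀ j, (⟨M.A j⟩ : MC (Z j) C) ⟶ ⟨N.A j⟩) where
  carrier := {f | (∀ j, M.p j ≫ f j = f j) ∧ (∀ j, f j ≫ N.p j = f j) ∧ S.Eb l ν f}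
  add_mem' h k := ⟨fun j => by simp [h.1 j, k.1 j], fun j => by simp [h.2.1 j, k.2.1 j],
    h.2.2.add k.2.2⟩
  zero_mem' := ⟨by simp, by simp, .zero⟩
  neg_mem' h := ⟨fun j => by simp [h.1 j], fun j => by simp [h.2.1 j], h.2.2.neg⟩

noncomputable instance : Category.{max z v} (S.BS l ν) where
  Hom M N := Mor M N
  id M := ⟨M.p, M.idem, M.idem, M.rg⟩
  comp f g := ⟨fun j => f.1 j ≫ g.1 j, fun j => by rw [← Category.assoc, f.2.1],
    fun j => by rw [Category.assoc, g.2.2.1], f.2.2.2.comp g.2.2.2⟩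
  id_comp f := Subtype.ext (funext f.2.1)
  comp_id f := Subtype.ext (funext f.2.2.1)
  assoc _ _ _ := Subtype.ext (funext fun _ => Category.assoc ..)

noncomputable instance : Preadditive (S.BS l ν) where
  homGroup M N := inferInstanceAs (AddCommGroup (Mor M N))
  add_comp _ _ _ _ _ _ := Subtype.ext (funext fun _ => Preadditive.add_comp ..)
  comp_add _ _ _ _ _ _ := Subtype.ext (funext fun _ => Preadditive.comp_add ..)

variable {M N K : S.BS l ν}

@[ext] theorem hom_ext {f g : M ⟶ N} (h : ∀ j, f.1 j = g.1 j) : f = g := Subtype.ext (funext h)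

@[simp] theorem id_f (M : S.BS l ν) (j) : (𝟙 M : M ⟶ M).1 j = M.p j := rfl

@[simp] theorem comp_f (f : M ⟶ N) (g : N ⟶ K) (j) : (f ≫ g).1 j = f.1 j ≫ g.1 j := rfl

@[simp] theorem add_f (f g : M ⟶ N) (j) : (f + g).1 j = f.1 j + g.1 j := rfl

@[simp] theorem sub_f (f g : M ⟶ N) (j) : (f - g).1 j = f.1 j - g.1 j := rfl

@[simp] theorem neg_f (f : M ⟶ N) (j) : (-f).1 j = -f.1 j := rfl

@[simp] theorem zero_f (j) : (0 : M ⟶ N).1 j = 0 := rfl

@[reassoc (attr := simp)] theorem p_comp (f : M ⟶ N) (j) : M.p j ≫ f.1 j = f.1 j := f.2.1 j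

@[reassoc (attr := simp)] theorem comp_p (f : M ⟶ N) (j) : f.1 j ≫ N.p j = f.1 j := f.2.2.1 j

theorem hom_rg (f : M ⟶ N) : S.Eb l ν f.1 := f.2.2.2

/-- A morphism from its components. -/
def homMk (f : ∀ j, (⟨M.A j⟩ : MC (Z j) C) ⟶ ⟨N.A j⟩) (h : ∀ j, M.p j ≫ f j = f j)
    (h' : ∀ j, f j ≫ N.p j = f j) (k : S.Eb l ν f) : M ⟶ N := ⟨f, h, h', k⟩

@[simp] theorem homMk_f (f : ∀ j, (⟨M.A j⟩ : MC (Z j) C) ⟶ ⟨N.A j⟩) (h h' k) :
    (homMk f h h' k).1 = f := rfl

instance [HasZeroObject C] : HasZeroObject (S.BS l ν) :=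
  ⟨⟨⟨fun _ => 0, fun _ => 0, by simp, .zero⟩, (IsZero.iff_id_eq_zero _).2 rfl⟩⟩

instance : HasBinaryBiproducts (S.BS l ν) := ⟨fun M N => by
  let a := fun j => MC.ct (Z := Z j) 1 (S.fst (M.A j) (N.A j))
  let b := fun j => MC.ct (Z := Z j) 1 (S.snd (M.A j) (N.A j))
  let i := fun j => MC.ct (Z := Z j) 1 (S.inl (M.A j) (N.A j))
  let k := fun j => MC.ct (Z := Z j) 1 (S.inr (M.A j) (N.A j))
  have ia : ∀ j, i j ≫ a j = 𝟙 _ := fun j => by
    rw [MC.ct_comp, S.inl_fst, mul_one, MC.ct_one]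
  have ib : ∀ j, i j ≫ b j = 0 := fun j => by rw [MC.ct_comp, S.inl_snd, MC.ct_zero]
  have ka : ∀ j, k j ≫ a j = 0 := fun j => by rw [MC.ct_comp, S.inr_fst, MC.ct_zero]
  have kb : ∀ j, k j ≫ b j = 𝟙 _ := fun j => by
    rw [MC.ct_comp, S.inr_snd, mul_one, MC.ct_one]
  let P : S.BS l ν := ⟨fun j => S.sum (M.A j) (N.A j),
    fun j => a j ≫ M.p j ≫ i j + b j ≫ N.p j ≫ k j,
    fun j => by simp [reassoc_of% ia j, reassoc_of% ib j, reassoc_of% ka j, reassoc_of% kb j],
    (Eb.dg_comp (fun _ => S.cp_fst _ _) (M.rg.comp_dg fun _ => S.cp_inl _ _)).add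
      (Eb.dg_comp (fun _ => S.cp_snd _ _) (N.rg.comp_dg fun _ => S.cp_inr _ _))⟩
  exact hasBinaryBiproduct_of_total
    { pt := P
      fst := homMk (fun j => a j ≫ M.p j) (fun j => by simp [P, reassoc_of% ia j, reassoc_of% ka j])
        (by simp) (.dg_comp (fun _ => S.cp_fst _ _) M.rg)
      snd := homMk (fun j => b j ≫ N.p j) (fun j => by simp [P, reassoc_of% ib j, reassoc_of% kb j])
        (by simp) (.dg_comp (fun _ => S.cp_snd _ _) N.rg)
      inl := homMk (fun j => M.p j ≫ i j) (by simp)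
        (fun j => by simp [P, reassoc_of% ia j, reassoc_of% ib j])
        (M.rg.comp_dg fun _ => S.cp_inl _ _)
      inr := homMk (fun j => N.p j ≫ k j) (by simp)
        (fun j => by simp [P, reassoc_of% ka j, reassoc_of% kb j])
        (N.rg.comp_dg fun _ => S.cp_inr _ _)
      inl_fst := hom_ext fun j => by simp [reassoc_of% ia j]
      inl_snd := hom_ext fun j => by simp [reassoc_of% ib j]
      inr_fst := hom_ext fun j => by simp [reassoc_of% ka j]
      inr_snd := hom_ext fun j => by simp [reassoc_of% kb j] }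
    (hom_ext fun j => by simp [P])⟩

/-- The summand defined by an idempotent. -/
abbrev img (e : M ⟶ M) (h : e ≫ e = e) : S.BS l ν :=
  ⟨M.A, e.1, fun j => congrArg (·.1 j) h, hom_rg e⟩

instance : IsIdempotentComplete (S.BS l ν) := ⟨fun _ e h =>
  ⟨img e h, homMk e.1 (img e h).idem (comp_p e) (hom_rg e),
    homMk e.1 (p_comp e) (img e h).idem (hom_rg e), hom_ext (img e h).idem,
    hom_ext (img e h).idem⟩⟩

theorem eb_top {Z : Type z} {X Y : ∀ _ : Unit, MC Z C} (f : ∀ j, X j ⟶ Y j) :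
    S.Eb ⊤ (Ar.top G Z) f := ⟨0, .of_forall fun _ _ _ _ h => (h trivial).elim⟩

variable (S l ν) in
/-- One component, without control. -/
def ev (j : J) : S.BS l ν ⥤ S.BS ⊤ (Ar.top G (Z j)) where
  obj M := ⟨fun _ => M.A j, fun _ => M.p j, fun _ => M.idem j, eb_top _⟩
  map f := homMk (fun _ => f.1 j) (fun _ => p_comp f j) (fun _ => comp_p f j) (eb_top _)

instance (j : J) : (ev S l ν j).Additive where

end BS

end GC

end Pool.Agent.Lib.MP_5d3e93_al
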