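import Pool.Agent.Lib.MP_5d3e93_al.K.TDf
import Pool.Agent.Lib.MP_5d3e93_al.Lq.Def2

/-! The operators attached to transfer data; twisted tensor products of matrices. -/

open CategoryTheory Limits Filter Finsupp

namespace Pool.Agent.Lib.MP_5d3e93_al

universe w w' v u z

/-- The projection to one basis element. -/
noncomputable def prj {Z : Type z} (c : Z) : Module.End ℤ (Z →₀ ℤ) := lsingle c ∘ₗ lapply c

namespace Lq.Tf

attribute [instance] act

variable {Γ : Type w'} [Group Γ] {Y : Type z} [MulAction Γ Y] {ρ : Y → Y → Prop} {F : Set Γ}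
  {N : ℕ} (D : Tf Γ ρ F N)

/-- Integer matrices on the cells. -/
abbrev E := Module.End ℤ (D.B →₀ ℤ)

/-- The differential. -/
abbrev dE : D.E := D.d

/-- The controlled homotopy. -/
abbrev ηE : D.E := D.η

/-- The contraction. -/
abbrev κE : D.E := D.κ

/-- The action. -/
noncomputable def σ (g : Γ) : D.E := lmapDomain ℤ ℤ (g • ·)

/-- The projection to the cells of cohomological degree `n`. -/
noncomputable def π (n : ℤ) : D.E := (filterAddHom fun p => n + D.deg p = 0).toIntLinearMap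

/-- The idempotents of the truncated complex. -/
noncomputable def u (n : ℤ) : D.E :=
  if -(N : ℤ) < n then D.π n else if n = -N then (1 - D.dE * D.ηE) * D.π n else 0

/-- The retraction. -/
noncomputable def R : D.E := 1 - D.dE * D.ηE - D.ηE * D.dE

/-- The component from degree `i` to degree `j`. -/
noncomputable def cu (h : D.E) (i j : ℤ) : D.E := D.u j * h * D.u i

/-- The augmentation, with values at the cell `c`. -/
noncomputable def au (c : D.B) : D.E := lsingle c ∘ₗ D.ε

/-- The base point, defined at the cell `c`. -/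
noncomputable def bp (c : D.B) : D.E :=
  D.u 0 * (LinearMap.toSpanSingleton ℤ _ D.b ∘ₗ lapply c)

/-- Matrices that move at most `k` steps. -/
def Ct (k : ℕ) (φ : D.E) : Prop :=
  ∀ a c, φ (single a 1) c ≠ 0 → ∃ m ≤ k, Pa ρ m (D.loc a) (D.loc c)

end Lq.Tf

namespace GC

variable {G : Type w} [Group G] {C : Type u} [Category.{v} C] [Preadditive C] (S : GC G C)

/-- The tensor product of the components with matrices that depend on the degree. -/
noncomputable def tg {Z : Type z} (Φ : G → Module.End ℤ (Z →₀ ℤ)) {A B : C} (f : A ⟶ B) :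
    (⟨A⟩ : MC Z C) ⟶ ⟨B⟩ := ∑ g ∈ (S.fin f).toFinset, MC.ct (Φ g) (S.cp g f)

variable {S} in
/-- The matrix of a morphism of located objects. -/
noncomputable def Lo.mx {Z : Type z} {A B : C} (L : S.Lo Z A) (M : S.Lo Z B) (f : A ⟶ B) :
    (⟨A⟩ : MC Z C) ⟶ ⟨B⟩ := fun a => onFinset M.s (fun c => L.e a ≫ f ≫ M.e c) fun c h =>
  by_contra fun k => h (by rw [M.out c k, comp_zero, comp_zero])

variable {Γ : Type w'} [Group Γ] (q : G →* Γ)

/-- The diagonal action followed by a matrix. -/
noncomputable def tw {Y : Type z} [MulAction Γ Y] {ρ : Y → Y → Prop} {F : Set Γ} {N : ℕ}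
    (D : Lq.Tf Γ ρ F N) (φ : D.E) {A B : C} (f : A ⟶ B) : (⟨A⟩ : MC D.B C) ⟶ ⟨B⟩ :=
  S.tg (fun g => φ * D.σ (q g)⁻¹) f

end GC

/-- The control conditions on the cells. -/
structure Tcz {G : Type w} [Group G] {Γ : Type w'} [Group Γ] (q : G →* Γ) {J : Type}
    {Y : J → Type z} [∀ j, MulAction Γ (Y j)] {ρ : ∀ j, Y j → Y j → Prop} {F : J → Set Γ} {N : ℕ}
    (D : ∀ j, Lq.Tf Γ (ρ j) (F j) N) (l : Filter J) (ν : Ar G fun j => (D j).B) : Prop where
  act : ∀ g : G, ∃ r, ∀ᶠ j in l, ∀ p, ν.n r j (q g • p) g p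
  step : ∀ k, ∃ r, ∀ᶠ j in l, ∀ a c, (∃ m ≤ k, Lq.Pa (ρ j) m ((D j).loc a) ((D j).loc c)) →
    ν.n r j a 1 c

end Pool.Agent.Lib.MP_5d3e93_al
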