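import Pool.Agent.Lib.MP_5d3e93_al.K.Fd
import Pool.Agent.Lib.MP_5d3e93_al.K.Kar
import Pool.Agent.Lib.MP_5d3e93_al.K.Ad

/-! Transfers through finitely dominated complexes over a larger category. -/

open CategoryTheory Limits Pretriangulated ZeroObject

namespace Pool.Agent.Lib.MP_5d3e93_al.K

open Gr

universe v u v' u' v₀ u₀ v₁ u₁ v₂ u₂

section Thr
variable {C : Type u} [Category.{v} C]

/-- Morphisms that factor through an object of the class. -/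
def Thr (P : ObjectProperty C) {X Y : C} (f : X ⟶ Y) : Prop :=
  ∃ (Z : C) (a : X ⟶ Z) (b : Z ⟶ Y), P Z ∧ a ≫ b = f

theorem Thr.comp {P : ObjectProperty C} {W X Y Z : C} {f : X ⟶ Y} (h : Thr P f) (a : W ⟶ X)
    (b : Y ⟶ Z) : Thr P (a ≫ f ≫ b) := by
  obtain ⟨U, c, d, k, rfl⟩ := h
  exact ⟨U, a ≫ c, d ≫ b, k, by simp⟩

theorem trc_ret {D : Type*} [Category* D] {F G : C ⥤ D} (τ : F ⟶ G) {X Y : C} (i : X ⟶ Y)
    (r : Y ⟶ X) (h : i ≫ r = 𝟙 X) [IsIso (τ.app Y)] : IsIso (τ.app X) :=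
  ⟨G.map i ≫ inv (τ.app Y) ≫ F.map r, by
    rw [← τ.naturality_assoc, IsIso.hom_inv_id_assoc, ← F.map_comp, h, F.map_id], by
    rw [Category.assoc, Category.assoc, τ.naturality, IsIso.inv_hom_id_assoc, ← G.map_comp, h,
      G.map_id]⟩

variable [Preadditive C]

/-- The identity is homotopic to a map whose components factor through the class. -/
def Dom (P : ObjectProperty C) (K : Fc C) : Prop :=
  ∃ ρ : K ⟶ K, Nonempty (Homotopy ρ.hom (𝟙 K.obj)) ∧ ∀ n, Thr P (ρ.hom.f n)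

/-- Homotopy equivalences. -/
def Heq {K L : Fc C} (φ : K ⟶ L) : Prop := ∃ ψ : L ⟶ K,
  Nonempty (Homotopy (φ ≫ ψ).hom (𝟙 K.obj)) ∧ Nonempty (Homotopy (ψ ≫ φ).hom (𝟙 L.obj))

variable {C' : Type u'} [Category.{v'} C'] [Preadditive C']

/-- An additive functor applied degreewise. -/
def Fc.map (F : C ⥤ C') [F.Additive] : Fc C ⥤ Fc C' :=
  (Fs C').lift ((Fs C).ι ⋙ F.mapHomologicalComplex _) fun K => by
    obtain ⟨p, q, h⟩ := K.property
    exact ⟨p, q, fun n k => F.map_isZero (h n k)⟩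

instance (F : C ⥤ C') [F.Additive] : (Fc.map F).Additive :=
  ⟨ObjectProperty.hom_ext _ (HomologicalComplex.hom_ext _ _ fun _ => F.map_add)⟩

variable [HasZeroObject C] [HasBinaryBiproducts C] [HasZeroObject C'] [HasBinaryBiproducts C']

/-- Degree zero commutes with functors. -/
noncomputable def Fc.c0Map (F : C ⥤ C') [F.Additive] : Fc.c0 C ⋙ Fc.map F ≅ F ⋙ Fc.c0 C' :=
  NatIso.ofComponents (fun X => (Fs C').isoMk
    ((HomologicalComplex.singleMapHomologicalComplex F (.up ℤ) 0).app X)) fun f =>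
      ObjectProperty.hom_ext _
        ((HomologicalComplex.singleMapHomologicalComplex F (.up ℤ) 0).hom.naturality f)

omit [HasBinaryBiproducts C] in
theorem Thr.ct {P : ObjectProperty C} {X Y : C} {f : X ⟶ Y} (h : Thr P f) (p : Prop) :
    Thr P ((ct p).map f) := by
  have := h.comp ((ctI p).app X) ((ctR p).app Y)
  rwa [← ctI_nat_assoc, ctI_R, Category.comp_id] at this

end Thr

theorem trc_sq {D : Type*} [Category* D] [HasZeroObject D] [HasShift D ℤ] [Preadditive D]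
    [∀ n : ℤ, (shiftFunctor D n).Additive] [Pretriangulated D] {T : Triangle D}
    (hT : T ∈ distTriang D) (b : T.obj₂ ⟶ T.obj₂) (h : T.mor₁ ≫ b = 0) (k : b ≫ T.mor₂ = 0) :
    b ≫ b = 0 := by
  obtain ⟨x, hx⟩ := Triangle.yoneda_exact₂ _ hT b h
  obtain ⟨y, hy⟩ := Triangle.coyoneda_exact₂ _ hT b k
  calc b ≫ b = (y ≫ T.mor₁) ≫ T.mor₂ ≫ x := by rw [← hx, ← hy]
    _ = 0 := by rw [Category.assoc, reassoc_of% comp_distTriang_mor_zero₁₂ _ hT]; simp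

theorem trc_single {C : Type*} [Category* C] [Preadditive C] [HasZeroObject C] {C' : Type*}
    [Category* C'] [Preadditive C'] [HasZeroObject C'] {F G : C ⥤ C'} [F.Additive] [G.Additive]
    (α : F ⟶ G) (X : C) : (NatTrans.mapHomologicalComplex α (.up ℤ)).app
      ((HomologicalComplex.single C (.up ℤ) 0).obj X) ≫
        (HomologicalComplex.singleMapHomologicalComplex G (.up ℤ) 0).hom.app X =
      (HomologicalComplex.singleMapHomologicalComplex F (.up ℤ) 0).hom.app X ≫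
        (HomologicalComplex.single C' (.up ℤ) 0).map (α.app X) := by
  refine HomologicalComplex.to_single_hom_ext ?_
  rw [HomologicalComplex.comp_f, HomologicalComplex.comp_f,
    HomologicalComplex.singleMapHomologicalComplex_hom_app_self,
    HomologicalComplex.singleMapHomologicalComplex_hom_app_self,
    HomologicalComplex.single_map_f_self]
  exact (α.naturality_assoc _ _).symm.trans ((congrArg (F.map _ ≫ ·)
    (Iso.inv_hom_id_assoc _ _).symm).trans (Category.assoc ..).symm)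

section Nat
variable {a : Am.{v, u}} {b : Am.{v', u'}}

theorem trc_tg (f g : Am.Map a b) (α : f.F ⟶ g.F) :
    Tg (fun X => IsIso ((f.nat g α).app X) : ObjectProperty a.D) := by
  refine Tg.mk' (fun X h => ⟨0, (f.D.map_isZero h).eq_of_src _ _,
    (g.D.map_isZero h).eq_of_src _ _⟩) (fun n X h => ?_) fun T k h h' => ?_
  · rw [NatTrans.app_shift (f.nat g α) n X]
    infer_instance
  · exact isIso₂_of_isIso₁₃ (Triangle.homMk (f.D.mapTriangle.obj T) (g.D.mapTriangle.obj T)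
      ((f.nat g α).app _) ((f.nat g α).app _) ((f.nat g α).app _) ((f.nat g α).naturality _)
      ((f.nat g α).naturality _) (((Category.assoc ..).trans (congrArg (f.D.map T.mor₃ ≫ ·)
        (NatTrans.shift_app_comm (f.nat g α) (1 : ℤ) T.obj₁))).trans
          ((f.nat g α).naturality_assoc _ _))) (f.D.map_distinguished _ k)
      (g.D.map_distinguished _ k) h h'

theorem trc_nat (f g : Am.Map a b) (α : f.F ⟶ g.F) (X : a.A) [h : IsIso (b.sg.map (α.app X))] :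
    IsIso ((f.nat g α).app (a.sg.obj X)) := by
  have e := f.nq_nat g α ((HomologicalComplex.single a.A (.up ℤ) 0).obj X)
  have k := ((b.nq.map_comp _ _).symm.trans (congrArg b.nq.map (trc_single α X))).trans
    (b.nq.map_comp _ _)
  have : IsIso (b.nq.map ((HomologicalComplex.single b.A (.up ℤ) 0).map (α.app X))) := h
  have l := IsIso.of_isIso_fac_right k
  exact e ▸ l

end Nat

section Fq
variable {A : Type (max u v)} [Category.{v} A] [Preadditive A] [HasZeroObject A]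
  [HasBinaryBiproducts A] {B : Type (max u' v')} [Category.{v'} B] [Preadditive B]
  [HasZeroObject B] [HasBinaryBiproducts B]

variable (A) in
/-- Bounded complexes up to homotopy as an ambient category. -/
def fq : Am.{v, u} := (fa.{v, u} A).quo (fN.{v, u} A)

/-- A functor to bounded complexes as a map. -/
def trM (tr : A ⥤ Fc B) [h : tr.Additive] : Am.Map (Am.of.{v, u} A) (fq.{v', u'} B) :=
  @Am.ofMap _ _ _ _ _ (fq.{v', u'} B) tr h

/-- A functor followed by the inclusion in degree zero. -/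
noncomputable def inM (ι : A ⥤ B) [ι.Additive] : Am.Map (Am.of.{v, u} A) (fq.{v', u'} B) :=
  (Am.ofOf.{v, u, v', u'} ι).comp ((fc0.{v', u'} B).comp (fπ.{v', u'} B))

/-- Complexes that come from the smaller category. -/
def trN (ι : A ⥤ B) [ι.Additive] : ObjectProperty (fq.{v', u'} B).D :=
  (Am.of.{v, u} A).bdd.map (inM.{v, u, v', u'} ι).D

/-- An additive functor applied degreewise. -/
def fam (F : A ⥤ B) [F.Additive] : Am.Map (fa.{v, u} A) (fa.{v', u'} B) where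
  F := Fc.map F
  add := inferInstanceAs (Fc.map F).Additive
  hT _ h := (fa.{v', u'} B).le_Tb _ fun k => (F.mapHomotopyCategory (.up ℤ)).map_isZero (h k)

/-- An additive functor applied degreewise. -/
def fqm (F : A ⥤ B) [F.Additive] : Am.Map (fq.{v, u} A) (fq.{v', u'} B) where
  F := Fc.map F
  add := inferInstanceAs (Fc.map F).Additive
  hT _ h := (fq.{v', u'} B).le_Tb _ ((fam.{v, u, v', u'} F).gen_map (P := Jc A) (P' := Jc B)
    (fun K ⟨σ⟩ => ⟨(Homotopy.ofEq ((F.mapHomologicalComplex _).map_id K.obj).symm).trans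
      ((F.mapHomotopy σ).trans (Homotopy.ofEq (Functor.map_zero _ _ _)))⟩) _ h)

variable (B) in
/-- The object of a complex. -/
noncomputable abbrev fΨ : Fc B ⥤ (fq.{v', u'} B).D := fs.{v', u'} B ⋙ (fπ.{v', u'} B).D

instance : (fΨ.{v', u'} B).Additive :=
  inferInstanceAs (fs.{v', u'} B ⋙ (fπ.{v', u'} B).D).Additive

theorem fΨ_iso : Nonempty (fΨ.{v', u'} B ≅ (fq.{v', u'} B).sg) := (fπ.{v', u'} B).sg_iso

variable [IsIdempotentComplete B]

theorem fΨ_hom {K L : Fc B} {φ ψ : K ⟶ L} (H : Homotopy φ.hom ψ.hom) :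
    (fΨ.{v', u'} B).map φ = (fΨ.{v', u'} B).map ψ := by
  obtain ⟨I, Q, i, p, hI, -, s, -⟩ := fc_up K
  choose r _ h _ using s
  have e : φ - ψ = i ≫ (Fs B).homMk (Homotopy.nullHomotopicMap fun m n => r m ≫ H.hom m n) := by
    refine ObjectProperty.hom_ext _ (Eq.trans ?_ (Homotopy.comp_nullHomotopicMap i.hom _).symm)
    have k : (fun m n => i.hom.f m ≫ r m ≫ H.hom m n) = H.hom := by
      funext m n
      rw [reassoc_of% h m]
    rw [k]
    exact HomologicalComplex.hom_ext _ _ fun n => sub_eq_iff_eq_add.2 (H.comm n)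
  rw [← sub_eq_zero, ← Functor.map_sub, e, Functor.map_comp]
  exact (congrArg (_ ≫ ·) ((fq_zero.{v', u'} hI).eq_zero_of_src _)).trans comp_zero

theorem Heq.isIso {K L : Fc B} {φ : K ⟶ L} (h : Heq φ) : IsIso ((fΨ.{v', u'} B).map φ) := by
  obtain ⟨ψ, ⟨a⟩, ⟨b⟩⟩ := h
  exact ⟨(fΨ.{v', u'} B).map ψ,
    (Functor.map_comp ..).symm.trans ((fΨ_hom (ψ := 𝟙 K) a).trans (CategoryTheory.Functor.map_id ..)),
    (Functor.map_comp ..).symm.trans ((fΨ_hom (ψ := 𝟙 L) b).trans (CategoryTheory.Functor.map_id ..))⟩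

omit [IsIdempotentComplete B] in
theorem inM_sg (ι : A ⥤ B) [ι.Additive] (W : A) :
    Nonempty ((inM.{v, u, v', u'} ι).D.obj ((Am.of.{v, u} A).sg.obj W) ≅
      (fΨ.{v', u'} B).obj ((Fc.c0 B).obj (ι.obj W))) :=
  ⟨(inM.{v, u, v', u'} ι).sg_iso.some.app W ≪≫ (fΨ_iso.{v', u'}.some.app _).symm⟩

variable (ι : A ⥤ B) [ι.Additive] [ι.Full] [ι.Faithful]

theorem trf_deq : Deq (inM.{v, u, v', u'} ι).D (Am.of.{v, u} A).bdd (trN.{v, u, v', u'} ι) := by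
  refine ⟨fun X Y h k => ?_, fun X h => ⟨X, h, ⟨Iso.refl _⟩⟩, fun _ ⟨X, h, e⟩ => ⟨X, h, e⟩⟩
  have e := (fq_deq.{v', u'}.ff ((Am.ofOf.{v, u, v', u'} ι).bdd_map X h)
    ((Am.ofOf.{v, u, v', u'} ι).bdd_map Y k)).comp ((Am.deq_ff.{v, u, v', u'} ι).ff h k)
  have q : ((inM.{v, u, v', u'} ι).D.map : (X ⟶ Y) → _) = _ := funext fun φ =>
    (Am.ofOf.{v, u, v', u'} ι).comp_map ((fc0.{v', u'} B).comp (fπ.{v', u'} B)) φ
  exact q ▸ e

instance : Tg (trN.{v, u, v', u'} ι) := (trf_deq.{v, u, v', u'} ι).ff.tg_map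

theorem trf_th [IsIdempotentComplete A] (K : Fc B)
    (h : Th (trN.{v, u, v', u'} ι) ((fΨ.{v', u'} B).obj K)) :
    trN.{v, u, v', u'} ι ((fΨ.{v', u'} B).obj K) := by
  obtain ⟨Z, hZ, ⟨e⟩⟩ := fq_deq.{v', u'}.surj ((fΨ.{v', u'} B).obj K)
    ⟨_, Cl.of ⟨K, trivial, ⟨Iso.refl _⟩⟩, ⟨Iso.refl _⟩⟩
  obtain ⟨Y, W, hW, ⟨e'⟩⟩ := h
  have hW' := (Am.ofOf.{v, u, v', u'} ι).bdd_map W hW
  obtain ⟨a, c, l⟩ : ∃ (a : (fΨ.{v', u'} B).obj K ⟶ (inM.{v, u, v', u'} ι).D.obj W)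
      (c : _ ⟶ (fΨ.{v', u'} B).obj K), a ≫ c = 𝟙 _ :=
    ⟨biprod.inl ≫ e'.inv, e'.hom ≫ biprod.fst, by simp⟩
  obtain ⟨i, hi⟩ := (fq_deq.{v', u'}.ff hZ hW').2 (e.hom ≫ a)
  obtain ⟨r, hr⟩ := (fq_deq.{v', u'}.ff hW' hZ).2 (c ≫ e.inv)
  have k : i ≫ r = 𝟙 Z := (fq_deq.{v', u'}.ff hZ hZ).1 (by
    rw [Functor.map_comp, hi, hr, CategoryTheory.Functor.map_id]
    exact (Category.assoc ..).trans ((congrArg (e.hom ≫ ·) ((Category.assoc ..).symm.trans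
      ((congrArg (· ≫ e.inv) l).trans (Category.id_comp _)))).trans e.hom_inv_id))
  obtain ⟨W₂, h₂, ⟨e₂⟩⟩ := (Am.deq_ff.{v, u, v', u'} ι).surj Z (gen_thick ι Z
    (Th.of_retract i r k ((Am.deq_ff.{v, u, v', u'} ι).maps W hW)))
  exact ⟨W₂, h₂, ⟨((fc0.{v', u'} B).comp (fπ.{v', u'} B)).D.mapIso e₂ ≪≫ e⟩⟩

omit [ι.Full] [ι.Faithful] in
theorem trf_one (N : ObjectProperty (fq.{v', u'} B).D) [Tg N] {P : ObjectProperty B}
    (hP : ∀ Z, P Z → N ((fΨ.{v', u'} B).obj ((Fc.c0 B).obj Z))) {K : Fc B} {q : ℤ}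
    (z : ∀ n, n ≠ q → IsZero (K.obj.X n)) (ρ : K ⟶ K) (h : Thr P (ρ.hom.f q)) :
    (fΨ.{v', u'} B ⋙ ((fq.{v', u'} B).π N).D).map ρ = 0 := by
  obtain ⟨Z, x, y, hZ, e⟩ := h
  let L : Fc B := ⟨(HomologicalComplex.single B (.up ℤ) q).obj Z, q, q, fun n k =>
    HomologicalComplex.isZero_single_obj_X _ _ _ _ (by omega)⟩
  have hx : ∀ i, (ComplexShape.up ℤ).Rel i q → K.obj.d i q ≫ x = 0 := fun i l =>
    (z i (by rintro rfl; simp at l)).eq_of_src _ _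
  have hy : ∀ i, (ComplexShape.up ℤ).Rel q i → y ≫ K.obj.d q i = 0 := fun i l =>
    (z i (by rintro rfl; simp at l)).eq_of_tgt _ _
  have k : ρ = (Fs B).homMk (Y := L) (HomologicalComplex.mkHomToSingle x hx) ≫
      (Fs B).homMk (X := L) (HomologicalComplex.mkHomFromSingle y hy) := by
    refine ObjectProperty.hom_ext _ (HomologicalComplex.hom_ext _ _ fun n => ?_)
    by_cases l : n = q
    · subst l
      refine e.symm.trans (Eq.trans ?_ (congrArg₂ (· ≫ ·) (HomologicalComplex.mkHomToSingle_f x hx)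
        (HomologicalComplex.mkHomFromSingle_f y hy)).symm)
      rw [Category.assoc, Iso.inv_hom_id_assoc]
    · exact (z n l).eq_of_src _ _
  obtain ⟨a⟩ := fq_shift.{v', u'} (-q) ((Fc.c0 B).obj Z) L
    (((CochainComplex.singleFunctors B).shiftIso (-q) q 0 (by simp)).app Z).symm
  have := Am.π_isLocalization (N := N)
  have l : IsZero ((fΨ.{v', u'} B ⋙ ((fq.{v', u'} B).π N).D).obj L) :=
    (locOn_of_isLocalization (F := ((fq.{v', u'} B).π N).D) (S := ⊤) le_top).kill _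
      (N.prop_of_iso a.symm (N.le_shift (-q) _ (hP Z hZ)))
  rw [k, Functor.map_comp, l.eq_zero_of_src (CategoryTheory.Functor.map _ _), comp_zero]

theorem trf_nil (N : ObjectProperty (fq.{v', u'} B).D) [Tg N] {P : ObjectProperty B}
    (hP : ∀ Z, P Z → N ((fΨ.{v', u'} B).obj ((Fc.c0 B).obj Z))) (K : Fc B) (ρ : End K)
    (h : ∀ n, Thr P (ρ.hom.f n)) :
    ∃ k : ℕ, (fΨ.{v', u'} B ⋙ ((fq.{v', u'} B).π N).D).map (ρ ^ k) = 0 := by
  obtain ⟨p, q, hK⟩ := K.property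
  obtain ⟨m, hm⟩ : ∃ m : ℕ, q < p + m := ⟨(q - p + 1).toNat, by omega⟩
  set Φ := fΨ.{v', u'} B ⋙ ((fq.{v', u'} B).π N).D
  have : Φ.Additive := inferInstanceAs (fΨ.{v', u'} B ⋙ ((fq.{v', u'} B).π N).D).Additive
  induction m generalizing K q with
  | zero => exact ⟨0, (Φ.map_isZero (fd_isZero fun n => hK n (by omega))).eq_of_src _ _⟩
  | succ m ih =>
    have u : ∀ n, q ≤ n → q ≤ n + 1 := fun _ k => by omega
    obtain ⟨δ, hT⟩ := fs_tri.{v', u'} (i := (fsigI (q ≤ ·) u).app K) (p := fsigR (q ≤ ·) u K)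
      (ObjectProperty.hom_ext _ (HomologicalComplex.hom_ext _ _ fun n => fd_IR (q ≤ n) _))
      fun n => fd_spl (q ≤ n) _
    have hT' := ((fq.{v', u'} B).π N).D.map_distinguished _
      ((fπ.{v', u'} B).D.map_distinguished _ hT)
    obtain ⟨k, hk⟩ := ih ((fsig fun n => ¬q ≤ n).obj K) ((fsig fun n => ¬q ≤ n).mapEnd K ρ)
      (fun n => (h n).ct _) (q - 1) (fun n l => by
        by_cases l : q ≤ n
        · exact ct_zero (not_not.2 l) _
        · exact (ct (¬q ≤ n)).map_isZero (hK n (by omega))) (by push_cast at hm; omega)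
    have h1 : Φ.map ((fsig (q ≤ ·)).map ρ) = 0 := trf_one N hP (q := q) (fun n k => by
      by_cases l : q ≤ n
      · exact (ct (q ≤ n)).map_isZero (hK n (by omega))
      · exact ct_zero l _) _ ((h q).ct _)
    refine ⟨(k + 1) + (k + 1), ?_⟩
    rw [pow_add, End.mul_def, Φ.map_comp]
    refine trc_sq hT' _ ?_ ?_
    · change Φ.map ((fsigI (q ≤ ·) u).app K) ≫ Φ.map (ρ ^ (k + 1)) = 0
      have e := (fsigI (q ≤ ·) u).naturality (ρ ^ (k + 1) : End K)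
      rw [← Φ.map_comp]
      refine (congrArg Φ.map e.symm).trans ?_
      rw [pow_succ, End.mul_def, Functor.map_comp, Functor.map_comp, Functor.map_comp, h1,
        zero_comp, zero_comp]
    · change Φ.map (ρ ^ (k + 1)) ≫ Φ.map (fsigR (q ≤ ·) u K) = 0
      have e : ∀ σ : K ⟶ K, σ ≫ fsigR (q ≤ ·) u K =
          fsigR (q ≤ ·) u K ≫ (fsig fun n => ¬q ≤ n).map σ := fun σ =>
        ObjectProperty.hom_ext _ (HomologicalComplex.hom_ext _ _ fun n =>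
          (ctR_nat (¬q ≤ n) (σ.hom.f n)).symm)
      have e' : Φ.map ((fsig fun n => ¬q ≤ n).map (ρ ^ k : End K)) = 0 :=
        (congrArg Φ.map (map_pow ((fsig fun n => ¬q ≤ n).mapEnd K) ρ k)).trans hk
      rw [← Φ.map_comp, e, pow_succ, End.mul_def, Functor.map_comp, Functor.map_comp,
        Functor.map_comp, e', comp_zero, comp_zero]

theorem trf_dom [IsIdempotentComplete A] {K : Fc B} (h : Dom ι.essImage K) :
    trN.{v, u, v', u'} ι ((fΨ.{v', u'} B).obj K) := by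
  obtain ⟨ρ : End K, ⟨H⟩, h⟩ := h
  obtain ⟨k, hk⟩ := trf_nil (trN.{v, u, v', u'} ι) (fun Z ⟨W, ⟨e⟩⟩ => ⟨_, Cl.of ⟨W, trivial,
    ⟨Iso.refl _⟩⟩, ⟨(inM_sg ι W).some ≪≫ (Fc.c0 B ⋙ fΨ.{v', u'} B).mapIso e⟩⟩) K ρ h
  have e : (fΨ.{v', u'} B).mapEnd K ρ = 1 :=
    (fΨ_hom (ψ := 𝟙 K) H).trans (CategoryTheory.Functor.map_id ..)
  have e' : (fΨ.{v', u'} B).map (ρ ^ k : End K) = 𝟙 _ :=
    (map_pow ((fΨ.{v', u'} B).mapEnd K) ρ k).trans (by rw [e, one_pow]; rfl)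
  have := Am.π_isLocalization (N := trN.{v, u, v', u'} ι)
  refine trf_th ι K ((locOn_of_isLocalization (F := ((fq.{v', u'} B).π (trN.{v, u, v', u'} ι)).D)
    (S := ⊤) le_top).th trivial ((IsZero.iff_id_eq_zero _).2 ?_))
  rw [← CategoryTheory.Functor.map_id, ← e']
  exact hk

variable {A₀ : Type (max u₀ v₀)} [Category.{v₀} A₀] [Preadditive A₀] [HasZeroObject A₀]
  [HasBinaryBiproducts A₀] (tr : A₀ ⥤ Fc B) [tr.Additive] {P₀ : ObjectProperty A₀}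
  (ret : ∀ M, ∃ (M₀ : A₀) (i : M ⟶ M₀) (r : M₀ ⟶ M), P₀ M₀ ∧ i ≫ r = 𝟙 M)

include ret in
/-- Dominated complexes come from the smaller category. -/
theorem trf_le [IsIdempotentComplete A] (dom : ∀ M, P₀ M → Dom ι.essImage (tr.obj M)) :
    (Am.of.{v₀, u₀} A₀).bdd ≤ (trN.{v, u, v', u'} ι).inverseImage (trM.{v₀, u₀, v', u'} tr).D := by
  refine Cl.le ?_
  rintro _ ⟨M, -, ⟨e⟩⟩
  obtain ⟨M₀, i, r, h, k⟩ := ret M
  refine (trN.{v, u, v', u'} ι).prop_of_iso ((fΨ_iso.{v', u'}.some.app (tr.obj M)) ≪≫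
    ((trM.{v₀, u₀, v', u'} tr).sg_iso.some.app M).symm ≪≫ (trM.{v₀, u₀, v', u'} tr).D.mapIso e)
    (trf_th ι _ (Th.of_retract ((tr ⋙ fΨ.{v', u'} B).map i) ((tr ⋙ fΨ.{v', u'} B).map r) ?_
      (trf_dom ι (dom M₀ h))))
  rw [← Functor.map_comp, k, CategoryTheory.Functor.map_id]
  rfl

variable {T : Type (max u₁ v₁)} [Category.{v₁} T] [Preadditive T] [HasZeroObject T]
  [HasBinaryBiproducts T] {B₁ : Type (max u₂ v₂)} [Category.{v₂} B₁] [Preadditive B₁]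
  [HasZeroObject B₁] [HasBinaryBiproducts B₁] [IsIdempotentComplete B₁]

include ret in
omit [IsIdempotentComplete B] [ι.Full] [ι.Faithful] in
/-- The components of the transferred class. -/
theorem trf_ev (κ : T ⥤ B₁) [κ.Additive] [κ.Full] [κ.Faithful] (ev : A ⥤ T) [ev.Additive]
    (eb : B ⥤ B₁) [eb.Additive] (e : ι ⋙ eb ≅ ev ⋙ κ) (up : A₀ ⥤ T) [up.Additive]
    (ε : tr ⋙ Fc.map eb ⟶ up ⋙ κ ⋙ Fc.c0 B₁) (hε : ∀ M, P₀ M → Heq (ε.app M)) {n : ℕ}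
    {x : Am.Kn n _ (Am.of.{v₀, u₀} A₀).bdd} {y : Am.Kn n _ (Am.of.{v, u} A).bdd}
    {h : (Am.of.{v₀, u₀} A₀).bdd ≤ (trN.{v, u, v', u'} ι).inverseImage (trM.{v₀, u₀, v', u'} tr).D}
    {h' : (Am.of.{v, u} A).bdd ≤ (trN.{v, u, v', u'} ι).inverseImage (inM.{v, u, v', u'} ι).D}
    (k : Am.Kmap n _ h' y = Am.Kmap n _ h x) :
    Am.Kmap n (Am.ofOf.{v, u, v₁, u₁} ev) (Am.Map.bdd_map _) y =
      Am.Kmap n (Am.ofOf.{v₀, u₀, v₁, u₁} up) (Am.Map.bdd_map _) x := by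
  have d := trf_deq.{v₁, u₁, v₂, u₂} κ
  let m₁ := (inM.{v, u, v', u'} ι).comp (fqm.{v', u', v₂, u₂} eb)
  let m₂ := (Am.ofOf.{v, u, v₁, u₁} ev).comp (inM.{v₁, u₁, v₂, u₂} κ)
  let m₃ := (trM.{v₀, u₀, v', u'} tr).comp (fqm.{v', u', v₂, u₂} eb)
  let m₄ := (Am.ofOf.{v₀, u₀, v₁, u₁} up).comp (inM.{v₁, u₁, v₂, u₂} κ)
  let i : ι ⋙ Fc.c0 B ⋙ Fc.map eb ≅ ev ⋙ κ ⋙ Fc.c0 B₁ :=
    Functor.isoWhiskerLeft ι (Fc.c0Map eb) ≪≫ Functor.isoWhiskerRight e (Fc.c0 B₁)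
  have l₂ : _ ≤ (trN.{v₁, u₁, v₂, u₂} κ).inverseImage m₂.D := fun X a =>
    d.maps _ ((Am.ofOf.{v, u, v₁, u₁} ev).bdd_map X a)
  have l₄ : _ ≤ (trN.{v₁, u₁, v₂, u₂} κ).inverseImage m₄.D := fun X a =>
    d.maps _ ((Am.ofOf.{v₀, u₀, v₁, u₁} up).bdd_map X a)
  have l : trN.{v, u, v', u'} ι ≤
      (trN.{v₁, u₁, v₂, u₂} κ).inverseImage (fqm.{v', u', v₂, u₂} eb).D := by
    rintro _ ⟨W, a, ⟨j⟩⟩
    exact (trN.{v₁, u₁, v₂, u₂} κ).prop_of_iso (((m₁.natIso m₂ i).app W).symm ≪≫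
      (fqm.{v', u', v₂, u₂} eb).D.mapIso j) (l₂ W a)
  have l₁ : _ ≤ (trN.{v₁, u₁, v₂, u₂} κ).inverseImage m₁.D := fun X a => l _ (h' X a)
  have l₃ : _ ≤ (trN.{v₁, u₁, v₂, u₂} κ).inverseImage m₃.D := fun X a => l _ (h X a)
  have w : ∀ X, (Am.of.{v₀, u₀} A₀).bdd X → IsIso ((m₃.nat m₄ ε).app X) := by
    have := trc_tg m₃ m₄ ε
    refine Cl.le (S := fun X => IsIso ((m₃.nat m₄ ε).app X)) ?_
    rintro _ ⟨M, -, ⟨j⟩⟩
    obtain ⟨M₀, a, r, b, c⟩ := ret M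
    have : IsIso ((Functor.whiskerRight ε (fΨ.{v₂, u₂} B₁)).app M₀) := (hε M₀ b).isIso
    have : IsIso ((fΨ.{v₂, u₂} B₁).map (ε.app M)) :=
      trc_ret (Functor.whiskerRight ε (fΨ.{v₂, u₂} B₁)) a r c
    have s : IsIso ((fq.{v₂, u₂} B₁).sg.map (ε.app M)) :=
      (NatIso.isIso_map_iff fΨ_iso.{v₂, u₂}.some (ε.app M)).1 this
    exact (NatTrans.isIso_app_iff_of_iso _ j).1 (trc_nat m₃ m₄ ε M (h := s))
  refine (Am.deq_bij n d).1 ?_
  rw [← Am.Kmap_comp n _ _ _ _ l₂, ← Am.Kmap_comp n _ _ _ _ l₄, ← Am.Kmap_iso n m₁ m₂ i l₁ l₂,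
    ← Am.Kmap_weq n m₃ m₄ ε w l₃ l₄, Am.Kmap_comp n _ _ h' l l₁, Am.Kmap_comp n _ _ h l l₃, k]

include ret in
/-- The transferred class. -/
theorem trf_ex [IsIdempotentComplete A] (dom : ∀ M, P₀ M → Dom ι.essImage (tr.obj M)) (n : ℕ)
    (x : Am.Kn n _ (Am.of.{v₀, u₀} A₀).bdd) : ∃ y : Am.Kn n _ (Am.of.{v, u} A).bdd,
      Am.Kmap n _ (trf_deq.{v, u, v', u'} ι).maps y = Am.Kmap n _ (trf_le ι tr ret dom) x :=
  (Am.deq_bij n (trf_deq.{v, u, v', u'} ι)).2 _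

end Fq

end Pool.Agent.Lib.MP_5d3e93_al.K
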