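import Pool.Agent.Lib.MP_5d3e93_al.K.TDg
import Pool.Agent.Lib.MP_5d3e93_al.K.TrC

/-! Located objects as matrices. -/

open CategoryTheory Limits Filter Finsupp

namespace Pool.Agent.Lib.MP_5d3e93_al

universe w w' v u z

namespace MC

variable {C : Type u} [Category.{v} C] [Preadditive C] {Z : Type z} {X Y W : MC Z C}

theorem comp_sub (f : X ⟶ Y) (g : Y ⟶ W) (a e) {s : Finset Z} (h : (f a).support ⊆ s) :
    (f ≫ g) a e = ∑ c ∈ s, f a c ≫ g c e :=
  (comp_apply f g a e).trans (Finset.sum_subset h fun c _ k => by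
    rw [notMem_support_iff.1 k, zero_comp])

/-- Diagonal matrices. -/
noncomputable def dm {A B : C} (x : Z → (A ⟶ B)) : (⟨A⟩ : MC Z C) ⟶ ⟨B⟩ := fun a => single a (x a)

theorem dm_comp {A : C} (x : Z → (A ⟶ Y.A)) (g : Y ⟶ W) (a c) : (dm x ≫ g) a c = x a ≫ g a c :=
  DFunLike.congr_fun (post_single g a (x a)) c

theorem comp_dm {B : C} (f : X ⟶ Y) (x : Z → (Y.A ⟶ B)) (a c) :
    (f ≫ dm x) a c = f a c ≫ x c := by
  rw [comp_apply, Finset.sum_eq_single c]
  · exact congrArg _ single_eq_same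
  · intro b _ e
    exact (congrArg _ (single_eq_of_ne e.symm)).trans comp_zero
  · intro e
    rw [notMem_support_iff.1 e, zero_comp]

theorem hom_ext {f g : X ⟶ Y} (h : ∀ a c, f a c = g a c) : f = g :=
  funext fun a => Finsupp.ext (h a)

end MC

open K

namespace GC

variable {G : Type w} [Group G] {C : Type u} [Category.{v} C] [Preadditive C] {S : GC G C}

section TIo

theorem Lo.mx_apply {Z : Type z} {A B : C} (L : S.Lo Z A) (M : S.Lo Z B) (f : A ⟶ B) (a c) :
    L.mx M f a c = L.e a ≫ f ≫ M.e c := rfl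

theorem Lo.mx_comp {Z : Type z} {A B W : C} (L : S.Lo Z A) (M : S.Lo Z B) (K : S.Lo Z W)
    (f : A ⟶ B) (g : B ⟶ W) : L.mx M f ≫ M.mx K g = L.mx K (f ≫ g) :=
  MC.hom_ext fun a e => by
    rw [MC.comp_sub _ _ a e support_onFinset_subset, mx_apply]
    conv_rhs => rw [← M.sum_r f]
    simp only [Preadditive.sum_comp, Preadditive.comp_sum, Category.assoc]
    refine Finset.sum_congr rfl fun c _ => ?_
    change (L.e a ≫ f ≫ M.e c) ≫ M.e c ≫ g ≫ K.e e = _
    rw [Category.assoc, Category.assoc, reassoc_of% M.idem c]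

namespace Lo

variable {Z : Type z} {A B D : C} (L : S.Lo Z A) (M : S.Lo Z B)

theorem mx_add (f g : A ⟶ B) : L.mx M (f + g) = L.mx M f + L.mx M g :=
  MC.hom_ext fun a c => by
    change L.e a ≫ (f + g) ≫ M.e c = L.e a ≫ f ≫ M.e c + L.e a ≫ g ≫ M.e c
    simp

theorem mx_inj {f g : A ⟶ B} (h : L.mx M f = L.mx M g) : f = g := L.ext_l fun a => by
  rw [← M.sum_r (L.e a ≫ f), ← M.sum_r (L.e a ≫ g)]
  exact Finset.sum_congr rfl fun c _ => (Category.assoc ..).trans
    ((DFunLike.congr_fun (congrFun h a) c).trans (Category.assoc ..).symm)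

theorem mx_surj {p : A ⟶ A} {q : B ⟶ B} (F : (⟨A⟩ : MC Z C) ⟶ ⟨B⟩) (h : L.mx L p ≫ F = F)
    (k : F ≫ M.mx M q = F) : ∃ f, L.mx M f = F ∧ p ≫ f = f ∧ f ≫ q = f := by
  have h1 : ∀ a c, L.e a ≫ F a c = F a c := fun a c => by
    rw [← h, MC.comp_apply, Preadditive.comp_sum]
    exact Finset.sum_congr rfl fun b _ => by
      rw [mx_apply, Category.assoc, reassoc_of% L.idem a]
  have h2 : ∀ a c, F a c ≫ M.e c = F a c := fun a c => by
    rw [← k, MC.comp_apply, Preadditive.sum_comp]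
    exact Finset.sum_congr rfl fun b _ => by
      rw [mx_apply, Category.assoc, Category.assoc, Category.assoc, M.idem c]
  have e : L.mx M (∑ a ∈ L.s, ∑ c ∈ M.s, F a c) = F := MC.hom_ext fun a c => by
    rw [mx_apply, ← Category.assoc, L.pick (F := fun a => ∑ c ∈ M.s, F a c) fun x => by
      simp only [Preadditive.comp_sum, h1], M.pick' (h2 a)]
  exact ⟨_, e, L.mx_inj M (by rw [← L.mx_comp L, e, h]), L.mx_inj M (by rw [← L.mx_comp M, e, k])⟩

theorem mx_id : L.mx L (𝟙 A) = MC.dm L.e := MC.hom_ext fun a c => by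
  rw [mx_apply, Category.id_comp]
  by_cases e : a = c
  · subst e
    exact (L.idem a).trans single_eq_same.symm
  · exact (L.orth a c e).trans (single_eq_of_ne (Ne.symm e)).symm

theorem mx_one (c : Z) (f : A ⟶ B) : (one S c A).mx (one S c B) f = MC.ct (prj c) f :=
  MC.hom_ext fun a e => by
    classical
    change (one S c A).e a ≫ f ≫ (one S c B).e e = single c (single a (1 : ℤ) c) e • f
    by_cases h : a = c
    · by_cases k : e = c
      · rw [h, k, one_e, one_e]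
        simp
      · rw [(one S c B).out e (by simpa [one] using k), single_eq_of_ne k]
        simp
    · rw [(one S c A).out a (by simpa [one] using h), single_eq_of_ne (Ne.symm h)]
      simp

end Lo

theorem ex_copies [HasZeroObject C] {Z : Type z} (T : Finset Z) (A : C) :
    ∃ (P : C) (i : Z → (A ⟶ P)) (r : Z → (P ⟶ A)) (L : S.Lo Z P), (∀ t, S.cp 1 (i t) = i t) ∧
      (∀ t, S.cp 1 (r t) = r t) ∧ (∀ t ∈ T, i t ≫ r t = 𝟙 A) ∧ (∀ t, L.e t = r t ≫ i t) ∧
      (∀ t, i t ≫ L.e t = i t) ∧ (∀ t, L.e t ≫ r t = r t) ∧ L.s = T := by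
  classical
  obtain ⟨P, i, r, h1, h2, h3, h4, h5⟩ := S.orth (hz_of (C := C)) (Fin T.card) fun _ => A
  let i' : Z → (A ⟶ P) := fun t => if h : t ∈ T then i (T.equivFin ⟨t, h⟩) else 0
  let r' : Z → (P ⟶ A) := fun t => if h : t ∈ T then r (T.equivFin ⟨t, h⟩) else 0
  have a1 : ∀ t, S.Sup {1} (i' t) := fun t => by
    dsimp only [i']
    split_ifs
    exacts [h1 _, .zero]
  have a2 : ∀ t, S.Sup {1} (r' t) := fun t => by
    dsimp only [r']
    split_ifs
    exacts [h2 _, .zero]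
  have a3 : ∀ t ∈ T, i' t ≫ r' t = 𝟙 A := fun t h => by simp [i', r', h, h3]
  have a4 : ∀ t, t ∉ T → i' t = 0 ∧ r' t = 0 := fun t h => ⟨dif_neg h, dif_neg h⟩
  refine ⟨P, i', r', ⟨fun t => r' t ≫ i' t, T, fun t h => by rw [(a4 t h).1, comp_zero],
    fun t => ?_, fun t s h => ?_, ?_⟩, fun t => (a1 t).cp_eq, fun t => (a2 t).cp_eq, a3,
    fun _ => rfl, fun t => ?_, fun t => ?_, rfl⟩
  · by_cases h : t ∈ T
    · exact .inr ⟨A, i' t, r' t, a1 t, a2 t, a3 t h, rfl⟩
    · exact .inl (by rw [(a4 t h).1, comp_zero])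
  · by_cases a : t ∈ T
    · by_cases b : s ∈ T
      · have := h4 (T.equivFin ⟨t, a⟩) (T.equivFin ⟨s, b⟩) fun e =>
          h (congrArg Subtype.val (T.equivFin.injective e))
        simp [i', r', a, b, reassoc_of% this]
      · rw [(a4 s b).1, comp_zero, comp_zero]
    · rw [(a4 t a).1, comp_zero, zero_comp]
  · rw [← h5, ← Finset.sum_coe_sort, ← T.equivFin.sum_comp]
    exact Finset.sum_congr rfl fun t _ => by simp [i', r', t.2]
  · by_cases h : t ∈ T
    · exact (Category.assoc ..).symm.trans (by rw [a3 t h, Category.id_comp])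
    · rw [(a4 t h).1, zero_comp]
  · by_cases h : t ∈ T
    · exact (Category.assoc ..).trans (by rw [a3 t h, Category.comp_id])
    · rw [(a4 t h).2, comp_zero]

theorem prj_ct {Z : Type z} (c : Z) {A B W : C} (f : A ⟶ B) (g : B ⟶ W) :
    MC.ct (prj c) f ≫ MC.ct (prj c) g = MC.ct (prj c) (f ≫ g) := by
  rw [MC.ct_comp]
  congr 1
  exact LinearMap.ext fun x => congrArg (single c) single_eq_same

variable {J : Type} {Z : J → Type z} {l : Filter J} {ν : Ar G Z}

variable (S l ν) in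
/-- Located objects as matrices. -/
noncomputable def AS.big : S.AS l ν ⥤ S.BS l ν where
  obj M := ⟨M.A, fun j => (M.L j).mx (M.L j) (M.p j), fun j => by rw [Lo.mx_comp, M.idem], M.rg⟩
  map {M N} f := BS.homMk (fun j => (M.L j).mx (N.L j) (f.1 j))
    (fun j => (Lo.mx_comp ..).trans (congrArg _ (AS.p_comp f j)))
    (fun j => (Lo.mx_comp ..).trans (congrArg _ (AS.comp_p f j))) (AS.hom_rg f)
  map_id _ := rfl
  map_comp _ _ := BS.hom_ext fun _ => (Lo.mx_comp ..).symm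

instance : (AS.big S l ν).Additive := ⟨BS.hom_ext fun _ => Lo.mx_add ..⟩

/-- The preimage of `φ` is the sum of all entries. -/
instance : (AS.big S l ν).Full := ⟨fun {M N} F => by
  choose f h1 h2 h3 using fun j =>
    (M.L j).mx_surj (N.L j) (F.1 j) (BS.p_comp F j) (BS.comp_p F j)
  exact ⟨AS.homMk f h2 h3 ((BS.hom_rg F).imp fun _ a => a.mono fun j a x y => by
    have := a x y
    rwa [← h1 j] at this), BS.hom_ext h1⟩⟩

instance : (AS.big S l ν).Faithful :=
  ⟨fun h => AS.hom_ext fun j => Lo.mx_inj _ _ (congrArg (·.1 j) h)⟩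

variable (S) in
/-- An object placed at one index. -/
noncomputable def LQ.at {Z : Type z} (c : Z) : S.LQ (Rl.pt ⊤) ⥤ S.BS ⊤ (Ar.top G Z) where
  obj M := ⟨fun _ => M.A, fun _ => MC.ct (prj c) M.p,
    fun _ => (prj_ct ..).trans (congrArg _ M.idem), BS.eb_top _⟩
  map f := BS.homMk (fun _ => MC.ct (prj c) f.1)
    (fun _ => (prj_ct ..).trans (congrArg _ (LQ.p_comp f)))
    (fun _ => (prj_ct ..).trans (congrArg _ (LQ.comp_p f))) (BS.eb_top _)
  map_id _ := rfl
  map_comp _ _ := BS.hom_ext fun _ => (prj_ct ..).symm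

instance {Z : Type z} (c : Z) : (LQ.at S c).Additive := ⟨BS.hom_ext fun _ => MC.ct_add ..⟩

instance {Z : Type z} (c : Z) : (LQ.at S c).Full := ⟨fun {M N} F => by
  obtain ⟨f, h1, h2, h3⟩ := (Lo.one S c M.A).mx_surj (Lo.one S c N.A) (p := M.p) (q := N.p)
    (F.1 ()) (by rw [Lo.mx_one]; exact BS.p_comp F ()) (by rw [Lo.mx_one]; exact BS.comp_p F ())
  exact ⟨LQ.homMk f h2 h3 fun _ _ _ h => (h trivial).elim,
    BS.hom_ext fun _ => (Lo.mx_one c f).symm.trans h1⟩⟩

instance {Z : Type z} (c : Z) : (LQ.at S c).Faithful :=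
  ⟨fun {M N} f g h => LQ.hom_ext ((Lo.one S c M.A).mx_inj (Lo.one S c N.A)
    ((Lo.mx_one c f.1).trans ((congrArg (·.1 ()) h).trans (Lo.mx_one c g.1).symm)))⟩

/-- The matrices `L.mx (one c) p` and `(one c).mx L p`. -/
theorem big_ev (j : J) (c : Z j) :
    Nonempty (AS.big S l ν ⋙ BS.ev S l ν j ≅ AS.ev S l ν j ⋙ LQ.at S c) := by
  have a : ∀ {A B W : C} (L : S.Lo (Z j) A) (f : A ⟶ B) (g : B ⟶ W),
      L.mx (Lo.one S c B) f ≫ MC.ct (prj c) g = L.mx (Lo.one S c W) (f ≫ g) := fun L f g => by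
    rw [← Lo.mx_one (S := S), Lo.mx_comp]
  have b : ∀ {A B W : C} (L : S.Lo (Z j) W) (f : A ⟶ B) (g : B ⟶ W),
      MC.ct (prj c) f ≫ (Lo.one S c B).mx L g = (Lo.one S c A).mx L (f ≫ g) := fun L f g => by
    rw [← Lo.mx_one (S := S), Lo.mx_comp]
  exact ⟨NatIso.ofComponents (fun M =>
    ⟨BS.homMk (fun _ => (M.L j).mx (Lo.one S c _) (M.p j))
        (fun _ => (Lo.mx_comp ..).trans (congrArg _ (M.idem j)))
        (fun _ => (a ..).trans (congrArg _ (M.idem j))) (BS.eb_top _),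
      BS.homMk (fun _ => (Lo.one S c _).mx (M.L j) (M.p j))
        (fun _ => (b ..).trans (congrArg _ (M.idem j)))
        (fun _ => (Lo.mx_comp ..).trans (congrArg _ (M.idem j))) (BS.eb_top _),
      BS.hom_ext fun _ => (Lo.mx_comp ..).trans (congrArg _ (M.idem j)),
      BS.hom_ext fun _ => (Lo.mx_comp ..).trans
        ((congrArg _ (M.idem j)).trans (Lo.mx_one ..))⟩) fun f =>
    BS.hom_ext fun _ => (Lo.mx_comp ..).trans ((congrArg _
      ((AS.comp_p f j).trans (AS.p_comp f j).symm)).trans (a ..).symm)⟩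

/-- Through `T j` copies of `N.A j`, the copy `c` located at `c`, with entries `f a c ≫ i c` and
`r c ≫ N.p c c'`. -/
theorem thr_fin [HasZeroObject C] (hr : ∃ r, ∀ᶠ j in l, ∀ c, ν.n r j c 1 c) {M N : S.BS l ν}
    (f : M ⟶ N) (T : ∀ j, Finset (Z j)) (h : ∀ j a c, f.1 j a c ≠ 0 → c ∈ T j) :
    Thr (AS.big S l ν).essImage f := by
  choose P i r L h1 h2 h3 h4 h5 h6 h7 using fun j => ex_copies (S := S) (T j) (N.A j)
  let X : S.AS l ν := ⟨P, L, fun _ => 𝟙 _, by simp, hr.imp fun _ a => a.mono fun j a =>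
    Lo.rg_id.mono fun x g y c => by
      rw [c.1, ← c.2]
      exact a x⟩
  refine ⟨(AS.big S l ν).obj X, BS.homMk (fun j => f.1 j ≫ MC.dm (i j))
    (fun j => BS.p_comp_assoc ..) (fun j => MC.hom_ext fun a c => ?_)
    ((BS.hom_rg f).imp fun _ e => e.mono fun j e a c =>
      MC.comp_dm (f.1 j) (i j) a c ▸ (e a c).comp_one (h1 j c)),
    BS.homMk (fun j => MC.dm (r j) ≫ N.p j) (fun j => MC.hom_ext fun a c => ?_)
    (fun j => (Category.assoc ..).trans (congrArg _ (N.idem j)))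
    (N.rg.imp fun _ e => e.mono fun j e a c =>
      MC.dm_comp (r j) (N.p j) a c ▸ .one_comp (h2 j a) (e a c)),
    ⟨X, ⟨Iso.refl _⟩⟩, BS.hom_ext fun j => ?_⟩
  · change ((f.1 j ≫ MC.dm (i j)) ≫ (L j).mx (L j) (𝟙 _)) a c = _
    rw [Lo.mx_id, MC.comp_dm, MC.comp_dm, Category.assoc, h5]
    exact (MC.comp_dm ..).symm
  · change ((L j).mx (L j) (𝟙 _) ≫ MC.dm (r j) ≫ N.p j) a c = _
    rw [Lo.mx_id, MC.dm_comp, MC.dm_comp, reassoc_of% h6 j a]
    exact (MC.dm_comp ..).symm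
  · change (f.1 j ≫ MC.dm (i j)) ≫ MC.dm (r j) ≫ N.p j = f.1 j
    rw [← Category.assoc]
    refine (congrArg (· ≫ N.p j) (MC.hom_ext fun a c => ?_)).trans (BS.comp_p f j)
    rw [MC.comp_dm, MC.comp_dm]
    by_cases k : c ∈ T j
    · rw [Category.assoc, h3 j c k, Category.comp_id]
    · rw [not_not.1 (mt (h j a c) k), zero_comp, zero_comp]

end TIo

end GC

end Pool.Agent.Lib.MP_5d3e93_al
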