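import Pool.Agent.Lib.MP_5d3e93_al.K.TDg

/-! Twisted tensor products of integer matrices with graded morphisms. -/

open CategoryTheory Limits Filter Finsupp

namespace Pool.Agent.Lib.MP_5d3e93_al

universe w w' v u z

namespace GC

variable {G : Type w} [Group G] {C : Type u} [Category.{v} C] [Preadditive C] {S : GC G C}

section TTw

variable {Z : Type z} {Φ Ψ Θ : G → Module.End ℤ (Z →₀ ℤ)} {A B W : C}

theorem ttw_sum (f : A ⟶ B) {s : Finset G} (h : ∀ g, S.cp g f ≠ 0 → g ∈ s) :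
    S.tg Φ f = ∑ g ∈ s, MC.ct (Φ g) (S.cp g f) :=
  Finset.sum_subset (fun g a => h g (by simpa using a)) fun g _ a => by
    rw [show S.cp g f = 0 by simpa using a, MC.ct_zero]

theorem ttw_zero : S.tg Φ (0 : A ⟶ B) = 0 :=
  (ttw_sum (s := ∅) 0 fun _ a => (a (map_zero _)).elim).trans Finset.sum_empty

theorem tg_add (f f' : A ⟶ B) : S.tg Φ (f + f') = S.tg Φ f + S.tg Φ f' := by
  classical
  rw [ttw_sum (s := (S.fin f).toFinset ∪ (S.fin f').toFinset) f (by simp +contextual),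
    ttw_sum (s := (S.fin f).toFinset ∪ (S.fin f').toFinset) f' (by simp +contextual),
    ttw_sum (s := (S.fin f).toFinset ∪ (S.fin f').toFinset) (f + f') fun g a => by
      by_contra k
      simp only [Finset.mem_union, Set.Finite.mem_toFinset, not_or] at k
      exact a (by rw [map_add, not_not.1 k.1, not_not.1 k.2, add_zero]),
    ← Finset.sum_add_distrib]
  exact Finset.sum_congr rfl fun g _ => by rw [map_add, MC.ct_add]

theorem tg_cp {g : G} {f : A ⟶ B} (h : S.cp g f = f) : S.tg Φ f = MC.ct (Φ g) f := by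
  rw [ttw_sum (s := {g}) f fun k a => by
    by_contra e
    exact a (Sup.of_cp (X := {g}) h rfl k (by simpa using e)), Finset.sum_singleton, h]

theorem ttw_ind (f : A ⟶ B) {P : (A ⟶ B) → Prop} (h0 : P 0) (h1 : ∀ a b, P a → P b → P (a + b))
    (h2 : ∀ g a, S.cp g a = a → P a) : P f :=
  Sup.induction (S := S) (X := Set.univ) (fun _ a => (a trivial).elim) h0 h1
    fun g _ => h2 g _ (S.cp_same g f)

theorem tg_const (φ : Module.End ℤ (Z →₀ ℤ)) (f : A ⟶ B) : S.tg (fun _ => φ) f = MC.ct φ f := by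
  induction f using ttw_ind (S := S) with
  | h0 => rw [ttw_zero, MC.ct_zero]
  | h1 a b h k => rw [tg_add, MC.ct_add, h, k]
  | h2 g a h => exact tg_cp h

theorem tg_comp (h : ∀ g k, Ψ k * Φ g = Θ (g * k)) (f : A ⟶ B) (f' : B ⟶ W) :
    S.tg Φ f ≫ S.tg Ψ f' = S.tg Θ (f ≫ f') := by
  induction f using ttw_ind (S := S) with
  | h0 => rw [zero_comp, ttw_zero, ttw_zero, zero_comp]
  | h1 a b i k => rw [Preadditive.add_comp, tg_add, tg_add, Preadditive.add_comp, i, k]
  | h2 g a i =>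
    induction f' using ttw_ind (S := S) with
    | h0 => rw [comp_zero, ttw_zero, ttw_zero, comp_zero]
    | h1 b c i k => rw [Preadditive.comp_add, tg_add, tg_add, Preadditive.comp_add, i, k]
    | h2 k b j => rw [tg_cp i, tg_cp j, tg_cp (S.cp_comp i j), MC.ct_comp, h]

theorem tg_sup (f : A ⟶ B) (a c : Z) :
    S.Sup {g | S.cp g f ≠ 0 ∧ Φ g (single a 1) c ≠ 0} (S.tg Φ f a c) := by
  have e : S.tg Φ f a c = ∑ g ∈ (S.fin f).toFinset, Φ g (single a 1) c • S.cp g f := by
    classical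
    unfold tg
    induction (S.fin f).toFinset using Finset.induction_on with
    | empty => rfl
    | insert g s k ih => rw [Finset.sum_insert k, Finset.sum_insert k, ← ih]; rfl
  rw [e]
  refine .sum _ fun g hg => ?_
  by_cases k : Φ g (single a 1) c = 0
  · rw [k, zero_smul]
    exact .zero
  · exact .of_cp (g := g) (by rw [map_zsmul, S.cp_same]) ⟨by simpa using hg, k⟩

variable {Γ : Type w'} [Group Γ] {q : G →* Γ}

section

variable {Y : Type z} [MulAction Γ Y] {ρ : Y → Y → Prop} {F : Set Γ} {N : ℕ} {D : Lq.Tf Γ ρ F N}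
  {φ ψ θ : D.E}

theorem ttw_single (g : Γ) (a : D.B) : D.σ g (single a 1) = single (g • a) 1 := mapDomain_single

theorem ttw_one : D.σ 1 = 1 := lhom_ext' fun a => LinearMap.ext_ring
  ((ttw_single 1 a).trans (by rw [one_smul]; rfl))

theorem ttw_mul (g h : Γ) : D.σ (g * h) = D.σ g * D.σ h := lhom_ext' fun a => LinearMap.ext_ring
  ((ttw_single _ a).trans (by
    rw [mul_smul, ← ttw_single, ← ttw_single]
    rfl))

theorem tw_add (f f' : A ⟶ B) : S.tw q D φ (f + f') = S.tw q D φ f + S.tw q D φ f' := tg_add f f'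

theorem zero_tw (f : A ⟶ B) : S.tw q D 0 f = 0 :=
  Finset.sum_eq_zero fun _ _ => by simp only [zero_mul, MC.zero_ct]

theorem tw_zero : S.tw q D φ (0 : A ⟶ B) = 0 := ttw_zero

theorem tw_id (A : C) : S.tw q D φ (𝟙 A) = MC.ct φ (𝟙 A) :=
  (tg_cp (S.cp_id A)).trans (by rw [map_one, inv_one, ttw_one, mul_one])

theorem tw_comp (h : ∀ γ, ψ * D.σ γ * φ = θ * D.σ γ) (f : A ⟶ B) (f' : B ⟶ W) :
    S.tw q D φ f ≫ S.tw q D ψ f' = S.tw q D θ (f ≫ f') :=
  tg_comp (fun g k => by rw [← mul_assoc, h, map_mul, mul_inv_rev, ttw_mul, mul_assoc]) f f'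

theorem tw_ct (h : ∀ γ, ψ * φ * D.σ γ = θ) (f : A ⟶ B) (f' : B ⟶ W) :
    S.tw q D φ f ≫ MC.ct ψ f' = MC.ct θ (f ≫ f') := by
  rw [← tg_const (S := S) ψ, ← tg_const (S := S) θ]
  exact tg_comp (fun g _ => by rw [← mul_assoc, h]) f f'

end

variable {J : Type} {Y : J → Type z} [∀ j, MulAction Γ (Y j)] {ρ : ∀ j, Y j → Y j → Prop}
  {F : J → Set Γ} {N : ℕ} {D : ∀ j, Lq.Tf Γ (ρ j) (F j) N} {l : Filter J}
  {ν : Ar G fun j => (D j).B}

/-- Finitely many degrees `g`; `a = q g • ((q g)⁻¹ • a)`, `act`, `step`, `trans`. -/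
theorem eb_tw (h : Tcz q D l ν) {k : ℕ} {φ : ∀ j, (D j).E} (hφ : ∀ j, (D j).Ct k (φ j))
    (f : A ⟶ B) : S.Eb l ν fun j => S.tw q (D j) (φ j) f := by
  obtain ⟨s, hs⟩ := h.step k
  choose r hr using h.act
  refine ⟨(S.fin f).toFinset.sup r + s, (hs.and ((eventually_all_finset (S.fin f).toFinset).2
    fun g _ => hr g)).mono fun j e a c => (tg_sup f a c).mono fun g b => ?_⟩
  have m : g ∈ (S.fin f).toFinset := by simpa using b.1
  have x := e.2 g m ((q g)⁻¹ • a)
  have y := e.1 _ _ (hφ j ((q g)⁻¹ • a) c (by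
    rw [← ttw_single]
    exact b.2))
  rw [smul_inv_smul] at x
  have := ν.trans x y
  rw [mul_one] at this
  exact ν.mono this (Nat.add_le_add_right (Finset.le_sup m) s)

end TTw

end GC

end Pool.Agent.Lib.MP_5d3e93_al
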