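import Pool.Agent.Lib.MP_5d3e93_al.K.TAl
import Pool.Agent.Lib.MP_5d3e93_al.K.TAm
import Pool.Agent.Lib.MP_5d3e93_al.K.TTw
import Pool.Agent.Lib.MP_5d3e93_al.K.TIo

/-! The transfer functor. -/

open CategoryTheory Limits Filter Finsupp

namespace Pool.Agent.Lib.MP_5d3e93_al

universe w w' v u z

open K

namespace GC

variable {G : Type w} [Group G] {C : Type u} [Category.{v} C] [Preadditive C] {S : GC G C}

theorem tfc_comp {Γ : Type w'} [Group Γ] {q : G →* Γ} {Y : Type z} [MulAction Γ Y]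
    {ρ : Y → Y → Prop} {F : Set Γ} {N : ℕ} {D : Lq.Tf Γ ρ F N} {φ ψ θ : D.E} {A B W : C}
    (h : ∀ γ, ψ * D.σ γ * φ = θ * D.σ γ) {f : A ⟶ B} {f' : B ⟶ W} {k : A ⟶ W} (e : f ≫ f' = k) :
    S.tw q D φ f ≫ S.tw q D ψ f' = S.tw q D θ k := e ▸ tw_comp h f f'

theorem tfc_one {Γ : Type w'} [Group Γ] {q : G →* Γ} {Y : Type z} [MulAction Γ Y]
    {ρ : Y → Y → Prop} {F : Set Γ} {N : ℕ} {D : Lq.Tf Γ ρ F N} (φ ψ : D.E) {A : C} {p : A ⟶ A}
    (e : p = 𝟙 A) : S.tw q D φ p ≫ S.tw q D ψ p = S.tw q D (ψ * φ) p := by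
  rw [e, tw_id, tw_id, tw_id, MC.ct_comp, Category.comp_id]

variable {Γ : Type w'} [Group Γ] {q : G →* Γ} {J : Type} {Y : J → Type z}
  [∀ j, MulAction Γ (Y j)] {ρ : ∀ j, Y j → Y j → Prop} {F : J → Set Γ} {N : ℕ}
  {D : ∀ j, Lq.Tf Γ (ρ j) (F j) N} {l : Filter J} {ν : Ar G fun j => (D j).B}

section TFc
/-- The terms. -/
noncomputable def trX (h : Tcz q D l ν) (M : S.LQ (Rl.pt ⊤)) (n : ℤ) : S.BS l ν :=
  ⟨fun _ => M.A, fun j => S.tw q (D j) ((D j).u n) M.p,
    fun j => tfc_comp (fun γ => (D j).uσu γ n) M.idem, eb_tw h (fun j => (D j).ct_u n) _⟩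
variable (S) in
/-- The transfer. -/
noncomputable def tr (h : Tcz q D l ν) : S.LQ (Rl.pt ⊤) ⥤ Fc (S.BS l ν) where
  obj M := ⟨{ X := trX h M
              d := fun i k => BS.homMk (fun j => S.tw q (D j) ((D j).cu (D j).dE i k) M.p)
                (fun j => tfc_comp (fun γ => (D j).δσu γ i k) M.idem)
                (fun j => tfc_comp (fun γ => (D j).uσδ γ i k) M.idem)
                (eb_tw h (fun j => (D j).ct_δ i k) _)
              shape := fun _ _ e => BS.hom_ext fun j =>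
                (congrArg (S.tw q (D j) · M.p) ((D j).δ_shape e)).trans (zero_tw _)
              d_comp_d' := fun i k m _ _ => BS.hom_ext fun j =>
                (tw_comp (fun γ => ((D j).δσδ γ i k m).trans (zero_mul _).symm) _ _).trans
                  (zero_tw _) }, -N, 0, fun _ e => (IsZero.iff_id_eq_zero _).2
    (BS.hom_ext fun j => (congrArg (S.tw q (D j) · M.p) ((D j).u_out e)).trans (zero_tw _))⟩
  map f := ObjectProperty.homMk
    { f := fun n => BS.homMk (fun j => S.tw q (D j) ((D j).u n) f.1)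
        (fun j => tfc_comp (fun γ => (D j).uσu γ n) (LQ.p_comp f))
        (fun j => tfc_comp (fun γ => (D j).uσu γ n) (LQ.comp_p f))
        (eb_tw h (fun j => (D j).ct_u n) _)
      comm' := fun i k _ => BS.hom_ext fun j =>
        (tfc_comp (fun γ => (D j).δσu γ i k) (LQ.comp_p f)).trans
          (tfc_comp (fun γ => (D j).uσδ γ i k) (LQ.p_comp f)).symm }
  map_id _ := rfl
  map_comp f g := ObjectProperty.hom_ext _ (HomologicalComplex.hom_ext _ _ fun n =>
    BS.hom_ext fun j => (tw_comp (fun γ => (D j).uσu γ n) f.1 g.1).symm)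
instance (h : Tcz q D l ν) : (tr S h).Additive :=
  ⟨ObjectProperty.hom_ext _ (HomologicalComplex.hom_ext _ _ fun _ =>
    BS.hom_ext fun _ => tw_add _ _)⟩
/-- The transferred complex of a free object is finitely dominated. -/
theorem tr_dom [HasZeroObject C] (h : Tcz q D l ν) (M : S.LQ (Rl.pt ⊤)) (k : M.p = 𝟙 M.A) :
    Dom (AS.big S l ν).essImage ((tr S h).obj M) := by
  let c (φ : ∀ j, (D j).E) (e : ∀ i m j, (D j).Ct 6 ((D j).cu (φ j) i m)) (i m : ℤ) :
      trX h M i ⟶ trX h M m :=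
    BS.homMk (fun j => S.tw q (D j) ((D j).cu (φ j) i m) M.p)
      (fun j => (tfc_one _ _ k).trans (by rw [(D j).cu_u]; rfl))
      (fun j => (tfc_one _ _ k).trans (by rw [(D j).u_cu]; rfl)) (eb_tw h (e i m) _)
  refine ⟨ObjectProperty.homMk
    { f := fun n => c (fun j => (D j).R) (fun i m j => (D j).ct_R i m) n n
      comm' := fun i m _ => BS.hom_ext fun j => (tfc_one _ _ k).trans
        ((congrArg (S.tw q (D j) · M.p) ((D j).δR i m)).trans (tfc_one _ _ k).symm) },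
    ⟨Homotopy.symm
      { hom := c (fun j => (D j).ηE) fun i m j => (D j).ct_η i m
        zero := fun _ _ e => BS.hom_ext fun j =>
          (congrArg (S.tw q (D j) · M.p) ((D j).η_shape e)).trans (zero_tw _)
        comm := fun i => ?_ }⟩, fun n => ?_⟩
  · rw [dNext_eq _ (show (ComplexShape.up ℤ).Rel i (i + 1) from rfl),
      prevD_eq _ (show (ComplexShape.up ℤ).Rel (i - 1) i from sub_add_cancel ..)]
    refine BS.hom_ext fun j => Eq.trans ?_ (congrArg (· + _)
      (congrArg₂ (· + ·) (tfc_one _ _ k) (tfc_one _ _ k))).symm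
    change S.tw q (D j) _ M.p = _ + S.tw q (D j) _ M.p
    rw [sub_eq_iff_eq_add.1 ((D j).htp_η (sub_add_cancel i 1) rfl), k, tw_id, tw_id, tw_id, tw_id,
      MC.add_ct, MC.add_ct, add_comm (MC.ct _ _)]
  · obtain ⟨r, e⟩ := h.step 0
    refine thr_fin ⟨r, e.mono fun j e a => e a a ⟨0, le_rfl, rfl⟩⟩ _ (fun j => (D j).T)
      fun j a b e => (D j).R_T n a b fun z => e ?_
    change S.tw q (D j) _ M.p a b = 0
    rw [k, tw_id, MC.ct_apply, z, zero_smul]
end TFc

end GC

end Pool.Agent.Lib.MP_5d3e93_al
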