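import Pool.Agent.Lib.MP_5d3e93_al.K.TA
import Pool.Agent.Lib.MP_5d3e93_al.K.TC

/-! The natural idempotents on the edge object of a presentation of zero. -/

open CategoryTheory Limits Pretriangulated ZeroObject MulAction

namespace Pool.Agent.Lib.MP_5d3e93_al

universe w v u y v' u' v'' u''

open Gr K

namespace GC

variable {G : Type w} [Group G] {C : Type u} [Category.{v} C] [Preadditive C] {S : GC G C}
variable {Γ : Type w} [Group Γ] {q : G →* Γ}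
variable [HasZeroObject C]
variable {V : Type w} [MulAction Γ V] {T : SimpleGraph V} {o : Ot Γ T}

section TP
variable {c c' : MV (S.md q o)} {l : c.E.A ⟶ c.V.A} {l' : c'.E.A ⟶ c'.V.A} {p : Bool → (c.E ⟶ c.E)}
  {p' : Bool → (c'.E ⟶ c'.E)}

/-- The underlying morphism of the boundary map. -/
noncomputable def tpK (c : MV (S.md q o)) : c.V.A ⟶ c.E.A := c.κ.1

theorem tpK_eq (c : MV (S.md q o)) : tpK c = kk c true - kk c false := md_κ c

theorem tpK_p (c : MV (S.md q o)) : tpK c ≫ c.E.p = tpK c := LQ.comp_p c.κ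

theorem tpK_comm (f : c ⟶ c') : (MV.hV f).1 ≫ tpK c' = tpK c ≫ (MV.hE f).1 :=
  congrArg (·.1) (MV.κ_comm f)

theorem ab_κ (c : MV (S.md q o)) {A : C} {u : A ⟶ c.V.A} {W : Set V} (h : c.V.L.Ab q W u) (b : Bool) :
    c.E.L.Ab q {e | e.en b ∈ W} (u ≫ kk c b) :=
  (Lo.ab_map (L := c.E.L) (Ed.en_smul b)).1 (LQ.ab_comp h (c.k b))

theorem tp_ab (c : MV (S.md q o)) {A : C} {u : A ⟶ c.V.A} {W : Set V} (h : c.V.L.Ab q W u) :
    c.E.L.Ab q {e | ∃ b, e.en b ∈ W} (u ≫ tpK c) := by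
  rw [tpK_eq, Preadditive.comp_sub]
  exact .sub ((ab_κ c h true).mono fun _ k => by exact ⟨_, k⟩)
    ((ab_κ c h false).mono fun _ k => by exact ⟨_, k⟩)

theorem tp_one {Y : Type y} [MulAction Γ Y] {A B : C} {L : S.Lo Y B} {f : A ⟶ B} {W W' : Set Y}
    {e : Y} (h : L.Ab q W f) (k : L.Ab q W' f) (d : ∀ x ∈ W, x ∈ W' → x = e) : L.Ab q {e} f :=
  (h.inter k).mono fun x a => d x a.1 a.2

theorem tp_both (e : Ed o) (b : Bool) : ∀ x ∈ {e' : Ed o | ∃ b', e'.en b' ∈ e.sd b},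
    x ∈ {e' : Ed o | ∃ b', e'.en b' ∈ e.sd (!b)} → x = e := by
  rintro x ⟨b₁, h₁⟩ ⟨b₂, h₂⟩
  rw [Ed.sd_compl] at h₂
  obtain rfl : b₂ = !b₁ := by
    rcases b₁ <;> rcases b₂ <;> first | rfl | exact (h₂ h₁).elim
  exact (Ed.cross h₁ h₂).1

theorem tp_e {Y : Type y} [MulAction Γ Y] {M N : S.LQ (Rl.eq q Y)} (f : M ⟶ N) (x : Y) :
    N.L.Ab q {x} (M.L.e x ≫ f.1) :=
  ((Lo.rg_iff_ab (R := (· = ·))).1 (LQ.hom_rg f) x).mono fun _ k => Eq.symm k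

theorem tp_side {A : C} {w : A ⟶ c.E.A} {e : Ed o} (h : c.E.L.Ab q {e} w) {k : c.E.A ⟶ c.V.A}
    {b : Bool} (s : ∀ e, c.V.L.Ab q (Ed.sd b e) (c.E.L.e e ≫ k)) :
    c.V.L.Ab q (e.sd b) (w ≫ k) :=
  h.comp (R := fun e v => v ∈ Ed.sd b e) (fun g e v k => (Ed.sd_smul b g e v).2 k)
    (Lo.rg_iff_ab.2 s) fun _ a _ k => a ▸ k

theorem tp_sum {M : Type*} [AddCommMonoid M] {p : Bool → M} {s : M} (h : p true + p false = s)
    (b : Bool) : p b + p (!b) = s := by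
  cases b
  exacts [(add_comm _ _).trans h, h]

theorem ex_pc (c : MV (S.md q o)) [IsIso c.κ] : ∃ p, Pc c (inv c.κ).1 p := by
  obtain ⟨l, hl⟩ : ∃ l : c.E.A ⟶ c.V.A, l = (inv c.κ).1 := ⟨_, rfl⟩
  have a1 : l ≫ c.V.p = l := hl ▸ LQ.comp_p (inv c.κ)
  have a2 : l ≫ tpK c = c.E.p := hl ▸ congrArg (·.1) (IsIso.inv_hom_id c.κ)
  have a3 : tpK c ≫ l = c.V.p := hl ▸ congrArg (·.1) (IsIso.hom_inv_id c.κ)
  have a4 : c.E.p ≫ l = l := hl ▸ LQ.p_comp (inv c.κ)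
  choose f f1 f2 f3 using fun e : Ed o =>
    LQ.part c.V (e.sd true) (c.E.L.e e ≫ l) (by rw [Category.assoc, a1])
  have pk : ∀ e, c.E.L.e e ≫ ∑ x ∈ c.E.L.s, c.E.L.e x ≫ f x = c.E.L.e e ≫ f e :=
    c.E.L.pick fun x => by rw [← Category.assoc, c.E.L.idem]
  obtain ⟨k, k1, k2, k3⟩ : ∃ k : Bool → (c.E.A ⟶ c.V.A), k true + k false = l ∧
      (∀ b, k b ≫ c.V.p = k b) ∧ ∀ b e, c.V.L.Ab q (Ed.sd b e) (c.E.L.e e ≫ k b) := by
    have s : (∑ x ∈ c.E.L.s, c.E.L.e x ≫ f x) ≫ c.V.p = ∑ x ∈ c.E.L.s, c.E.L.e x ≫ f x := by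
      simp only [Preadditive.sum_comp, Category.assoc, f1]
    refine ⟨fun b => cond b (∑ x ∈ c.E.L.s, c.E.L.e x ≫ f x)
      (l - ∑ x ∈ c.E.L.s, c.E.L.e x ≫ f x), add_sub_cancel _ _, fun b => ?_, fun b e => ?_⟩
    · cases b
      · exact (Preadditive.sub_comp ..).trans (congrArg₂ _ a1 s)
      · exact s
    · cases b
      · have := (f3 e).pre1 (c.E.L.spl e).deg
        rw [Preadditive.comp_sub, ← Category.assoc, c.E.L.idem, ← pk, ← Preadditive.comp_sub,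
          ← Ed.sd_compl] at this
        exact this
      · exact (congrArg _ (pk e)).mpr ((f2 e).pre1 (c.E.L.spl e).deg)
  have s1 : ∀ b e, c.V.L.Ab q (Ed.sd b e) ((c.E.L.e e ≫ c.E.p) ≫ k b) := fun b e =>
    tp_side (tp_e (𝟙 c.E) e) (k3 b)
  have s2 : ∀ b, c.E.p ≫ k b ≫ tpK c = c.E.p - c.E.p ≫ k (!b) ≫ tpK c := fun b => by
    rw [eq_sub_iff_add_eq, ← Preadditive.comp_add, ← Preadditive.add_comp, tp_sum k1, a2, c.E.idem]
  have s3 : ∀ b e, c.E.L.Ab q {e' | ∃ b', e'.en b' ∈ Ed.sd b e}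
      (c.E.L.e e ≫ c.E.p ≫ k b ≫ tpK c) := fun b e => by
    simpa only [Category.assoc] using tp_ab c (s1 b e)
  choose P hP using fun b => LQ.glue (M := c.E) (N := c.E) (c.E.p ≫ k b ≫ tpK c)
    (c.E.idem_assoc _) (by rw [Category.assoc, Category.assoc, tpK_p]) fun e =>
      tp_one (s3 b e) (by
        rw [s2, Preadditive.comp_sub]
        refine .sub ((tp_e (𝟙 c.E) e).mono ?_) (s3 (!b) e)
        rintro _ rfl
        exact ⟨!b, Ed.en_mem _ _⟩)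
        (tp_both e b)
  refine ⟨P, hl ▸ ⟨a1, a2, a3, LQ.hom_ext ?_, fun b e => ?_⟩⟩
  · rw [LQ.add_f, hP, hP, s2 true]
    exact sub_add_cancel _ _
  · rw [hP, Category.assoc, Category.assoc, a3, k2, ← Category.assoc]
    exact s1 b e

theorem Pc.tp_sum (h : Pc c l p) (b : Bool) : (p b).1 + (p (!b)).1 = c.E.p :=
  congrArg (·.1) (GC.tp_sum h.sum b)

theorem Pc.tp_key (h : Pc c l p) {A : C} (u : A ⟶ c.V.A) (hu : u ≫ c.V.p = u) (e : Ed o) (b : Bool)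
    (k : c.V.L.Ab q (e.sd b) u) (k' : c.E.L.Ab q {e} (u ≫ tpK c)) :
    u ≫ tpK c ≫ (p (!b)).1 = 0 := by
  have a2 : l ≫ tpK c = c.E.p := h.lκ
  have a3 : tpK c ≫ l = c.V.p := h.κl
  have e1 : (u ≫ tpK c) ≫ (p (!b)).1 ≫ l = u - (u ≫ tpK c) ≫ (p b).1 ≫ l := by
    rw [eq_sub_iff_add_eq', ← Preadditive.comp_add, ← Preadditive.add_comp, h.tp_sum,
      Category.assoc, ← Category.assoc (tpK c), tpK_p, a3, hu]
  have z : (u ≫ tpK c) ≫ (p (!b)).1 ≫ l = 0 :=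
    (tp_side k' (h.side (!b))).eq_zero (W' := e.sd b) (e1 ▸ k.sub (tp_side k' (h.side b)))
      fun x a => by rwa [Ed.sd_compl] at a
  have := congrArg (· ≫ tpK c) z
  simpa only [Category.assoc, a2, LQ.comp_p, zero_comp] using this

theorem Pc.key (h : Pc c l p) {A : C} (u : A ⟶ c.V.A) (hu : u ≫ c.V.p = u) (e : Ed o) (b : Bool)
    (k : c.V.L.Ab q (e.sd b) u) (k' : c.E.L.Ab q {e} (u ≫ c.κ.1)) :
    u ≫ c.κ.1 ≫ (p (!b)).1 = 0 := h.tp_key u hu e b k k'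

theorem Pc.tp_mix (h : Pc c l p) (h' : Pc c' l' p') (f : c ⟶ c') (b : Bool) :
    p b ≫ MV.hE f ≫ p' (!b) = 0 := LQ.hom_ext (c.E.L.ext_l fun e => by
  have a2 : l ≫ tpK c = c.E.p := h.lκ
  have a : ((c.E.L.e e ≫ (p b).1 ≫ l) ≫ (MV.hV f).1) ≫ tpK c' = c.E.L.e e ≫ (p b ≫ MV.hE f).1 := by
    simp only [Category.assoc, tpK_comm, reassoc_of% a2, LQ.p_comp, LQ.comp_f]
  have := h'.tp_key _ (by rw [Category.assoc, LQ.comp_p]) e b (LQ.ab_comp (h.side b e) (MV.hV f))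
    (a ▸ tp_e _ e)
  rw [← Category.assoc, a] at this
  simpa using this)

theorem Pc.orth (h : Pc c l p) (b : Bool) : p b ≫ p (!b) = 0 := by
  simpa using h.tp_mix h (𝟙 c) b

theorem Pc.idem (h : Pc c l p) (b : Bool) : p b ≫ p b = p b := by
  have := congrArg (p b ≫ ·) (GC.tp_sum h.sum b)
  simpa [h.orth b] using this

theorem Pc.nat (h : Pc c l p) (h' : Pc c' l' p') (f : c ⟶ c') (b : Bool) :
    MV.hE f ≫ p' b = p b ≫ MV.hE f := by
  have a := congrArg (· ≫ MV.hE f ≫ p' b) (GC.tp_sum h.sum b)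
  have d := congrArg (p b ≫ MV.hE f ≫ ·) (GC.tp_sum h'.sum b)
  have z := h.tp_mix h' f (!b)
  rw [Bool.not_not] at z
  simp only [Preadditive.add_comp, Preadditive.comp_add, z, h.tp_mix h' f b, add_zero,
    Category.id_comp, Category.comp_id] at a d
  exact a.symm.trans d

theorem Pc.back (h : Pc c l p) {A : C} (u : A ⟶ c.V.A) (hu : u ≫ c.V.p = u) (e : Ed o) (b : Bool)
    (k : c.E.L.Ab q {e' | e'.en (!b) ∈ e.sd b ∧ e'.en b ∈ e.sd b} (u ≫ c.κ.1)) :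
    c.E.L.Ab q {e}ᶜ (u ≫ kk c b ≫ (p b).1) := by
  replace k : c.E.L.Ab q {e' | e'.en (!b) ∈ e.sd b ∧ e'.en b ∈ e.sd b} (u ≫ tpK c) := k
  obtain ⟨u₁, a1, a2, a3⟩ := LQ.part c.V (e.sd b) u hu
  have n : e.en (!b) ∉ e.sd b := by
    have := Ed.en_mem (!b) e
    rwa [Ed.sd_compl] at this
  rw [← Ed.sd_compl] at a3
  have z := h.tp_key (u - u₁) (by rw [Preadditive.sub_comp, hu, a1]) e (!b) a3
    (tp_one (by
      rw [Preadditive.sub_comp]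
      exact .sub (k.mono fun _ a => by exact ⟨_, a.2⟩) (tp_ab c a2)) (tp_ab c a3) (tp_both e b))
  rw [Bool.not_not, Preadditive.sub_comp, sub_eq_zero] at z
  have b1 : c.E.L.Ab q {e}ᶜ (u₁ ≫ tpK c ≫ (p b).1) := by
    rw [← z, ← Category.assoc]
    exact LQ.ab_comp (k.mono fun x a (d : x = e) => n (d ▸ a.1)) (p b)
  have b2 : c.E.L.Ab q {e}ᶜ (u₁ ≫ kk c (!b) ≫ (p b).1) := by
    rw [← Category.assoc]
    exact LQ.ab_comp ((ab_κ c a2 (!b)).mono fun x a (d : x = e) => n (d ▸ a)) (p b)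
  have b3 : c.E.L.Ab q {e}ᶜ ((u - u₁) ≫ kk c b ≫ (p b).1) := by
    rw [← Category.assoc]
    refine LQ.ab_comp ((ab_κ c a3 b).mono ?_) (p b)
    rintro x a rfl
    rw [Set.mem_ofPred_eq, Ed.sd_compl] at a
    exact a (Ed.en_mem b x)
  rw [tpK_eq] at b1
  cases b
  · convert (b3.add b2).sub b1 using 1
    simp only [Preadditive.sub_comp, Preadditive.comp_sub, Bool.not_false]
    abel
  · convert (b3.add b2).add b1 using 1
    simp [Preadditive.sub_comp, Preadditive.comp_sub]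
end TP

end GC

end Pool.Agent.Lib.MP_5d3e93_al
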