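import Pool.Agent.Lib.MP_5d3e93_al.K.TP

/-! The inverse of the twisted boundary map and the direction of the Nil term. -/

open CategoryTheory Limits Pretriangulated ZeroObject MulAction

namespace Pool.Agent.Lib.MP_5d3e93_al

universe w v u y v' u' v'' u''

open Gr K

namespace GC

variable {G : Type w} [Group G] {C : Type u} [Category.{v} C] [Preadditive C] {S : GC G C}
variable {Γ : Type w} [Group Γ] {q : G →* Γ}
variable [HasZeroObject C]
variable {V : Type w} [MulAction Γ V] {T : SimpleGraph V} {o : Ot Γ T}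

section TQ
variable {c : MV (S.md q o)} {l : c.E.A ⟶ c.V.A} {p : Bool → (c.E ⟶ c.E)}

theorem tq_ends {e y : Ed o} {b b' : Bool} (n : e ≠ y) (h : e.en b ∈ y.sd b') :
    e.en (!b') ∈ y.sd b' ∧ e.en b' ∈ y.sd b' := by
  have k : e.en (!b) ∈ y.sd b' := by_contra fun a => n (Ed.cross h a).1
  rcases b <;> rcases b' <;> first | exact ⟨k, h⟩ | exact ⟨h, k⟩

theorem tq_out (e : Ed o) (b : Bool) : e.en (!b) ∉ e.sd b := by
  have := Ed.en_mem (!b) e
  rwa [Ed.sd_compl] at this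

theorem tq_kx {A : C} {u : A ⟶ c.V.A} {W : Set V} (h : c.V.L.Ab q W u) (b : Bool) (x : c.E ⟶ c.E)
    {e : Ed o} (k : e.en b ∉ W) : c.E.L.Ab q {e}ᶜ (u ≫ kk c b ≫ x.1) := by
  rw [← Category.assoc]
  exact LQ.ab_comp ((ab_κ c h b).mono fun y a (d : y = e) => k (d ▸ a)) x

theorem Pc.tq_back (h : Pc c l p) {A : C} {u : A ⟶ c.V.A} (hu : u ≫ c.V.p = u) {e y : Ed o}
    (k : c.E.L.Ab q {e} (u ≫ tpK c)) {b b' : Bool} (n : e ≠ y) (m : e.en b ∈ y.sd b') :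
    c.E.L.Ab q {y}ᶜ (u ≫ kk c b' ≫ (p b').1) :=
  h.back u hu y b' (k.mono fun _ a => by rw [a]; exact tq_ends n m)

theorem Pc.tq_one (h : Pc c l p) {A : C} {u u₀ : A ⟶ c.V.A} (hu : u ≫ c.V.p = u) {e : Ed o}
    (k : c.E.L.Ab q {e} (u ≫ tpK c)) {b : Bool} (h0 : c.V.L.Ab q {e.en b} u₀)
    (h1 : c.V.L.Ab q {e.en b}ᶜ (u - u₀)) (b' : Bool) :
    c.E.L.Ab q {e} (u₀ ≫ kk c b' ≫ (p b').1) := by
  refine .all fun y n => ⟨{y}ᶜ, fun a => a rfl, ?_⟩
  by_cases m : y.en b' = e.en b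
  · have := (h.tq_back hu k (Ne.symm n) (m ▸ Ed.en_mem b' y)).sub
      (tq_kx h1 b' (p b') fun a => a m)
    rwa [← Preadditive.sub_comp, sub_sub_cancel] at this
  · exact tq_kx h0 b' _ m

theorem tq_sgn {A : C} {u u₀ : A ⟶ c.V.A} {e : Ed o} {b : Bool} (s : c.V.L.Ab q (e.sd b) u)
    (h1 : c.V.L.Ab q {e.en b}ᶜ (u - u₀)) (x : c.E ⟶ c.E) : c.E.L.Ab q {e}ᶜ
      (((cond b 1 (-1) : ℤ) • u₀) ≫ kk c b ≫ x.1 - u ≫ tpK c ≫ x.1) := by
  have a := tq_kx h1 b x fun a => a rfl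
  have d := tq_kx s (!b) x (tq_out e b)
  rw [tpK_eq]
  cases b
  · convert a.sub d using 1
    simp only [Preadditive.sub_comp, Preadditive.comp_sub, Bool.not_false, cond_false, neg_smul,
      one_smul, Preadditive.neg_comp]
    abel
  · convert d.sub a using 1
    simp only [Preadditive.sub_comp, Preadditive.comp_sub, Bool.not_true, cond_true, one_smul]
    abel

theorem Pc.tq_u (h : Pc c l p) (b : Bool) (e : Ed o) :
    (c.E.L.e e ≫ (p b).1 ≫ l) ≫ tpK c = c.E.L.e e ≫ (p b).1 := by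
  have a : l ≫ tpK c = c.E.p := h.lκ
  rw [Category.assoc, Category.assoc, a, LQ.comp_p]

theorem Pc.tq_ex (h : Pc c l p) (b : Bool) : ∃ ν : c.E.A ⟶ c.V.A, ν ≫ c.V.p = ν ∧
    (p b).1 ≫ ν = ν ∧ ∀ e, c.V.L.Ab q {e.en b} (c.E.L.e e ≫ ν) ∧
      c.V.L.Ab q {e.en b}ᶜ (c.E.L.e e ≫ (p b).1 ≫ l - c.E.L.e e ≫ ν) := by
  choose f f1 f2 f3 using fun e : Ed o =>
    LQ.part c.V {e.en b} (c.E.L.e e ≫ l) (by rw [Category.assoc, h.lp])
  have pk : ∀ e, c.E.L.e e ≫ ∑ x ∈ c.E.L.s, c.E.L.e x ≫ f x = c.E.L.e e ≫ f e :=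
    c.E.L.pick fun x => by rw [← Category.assoc, c.E.L.idem]
  have pp : (p b).1 ≫ (p b).1 = (p b).1 := congrArg (·.1) (h.idem b)
  refine ⟨(p b).1 ≫ ∑ x ∈ c.E.L.s, c.E.L.e x ≫ f x, ?_, by rw [← Category.assoc, pp],
    fun e => ⟨?_, ?_⟩⟩
  · simp only [Preadditive.sum_comp, Category.assoc, f1]
  · rw [← Category.assoc]
    exact (tp_e (p b) e).comp (R := fun e v => v = e.en b)
      (fun g e v k => by rw [k, Ed.en_smul])
      ((Lo.rg_iff_ab (R := fun e v => v = Ed.en b e)).2 fun x => (congrArg _ (pk x)).mpr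
        ((f2 x).pre1 (c.E.L.spl x).deg)) fun _ a _ k => a ▸ k
  · rw [← Preadditive.comp_sub, ← Preadditive.comp_sub, ← Category.assoc]
    refine (tp_e (p b) e).comp (R := fun e v => v ≠ e.en b)
      (fun g e v k m => k (by rwa [Ed.en_smul, smul_left_cancel_iff] at m))
      ((Lo.rg_iff_ab (R := fun e v => v ≠ Ed.en b e)).2 fun x => ?_) fun _ a _ k => a ▸ k
    have := (f3 x).pre1 (c.E.L.spl x).deg
    rwa [Preadditive.comp_sub, ← Category.assoc, c.E.L.idem, ← pk, ← Preadditive.comp_sub] at this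

/-- `μ b` is plus or minus the part of `p b ≫ l` at the vertex `en b e`. -/
theorem Pc.mu (h : Pc c l p) : ∃ μ : ∀ b, ((S.md q o).s b).obj c.E ⟶ c.V,
    (∀ b b', μ b ≫ c.k b' ≫ ((S.md q o).s b').map (p b') =
      ((S.md q o).s b).map (p b) ≫ MV.dl _ c.E b b') ∧ (∀ b, (p b).1 ≫ (μ b).1 = (μ b).1) ∧
    ∀ b e, c.E.L.Ab q {e}ᶜ (c.E.L.e e ≫ (μ b).1 ≫ kk c b ≫ (p !b).1) := by
  choose ν n1 n2 n3 n4 using h.tq_ex
  obtain ⟨m, hm⟩ : ∃ m : Bool → (c.E.A ⟶ c.V.A), ∀ b, m b = (cond b 1 (-1) : ℤ) • ν b :=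
    ⟨_, fun _ => rfl⟩
  have m1 (b) : m b ≫ c.V.p = m b := by rw [hm, Preadditive.zsmul_comp, n1]
  have m2 (b) : (p b).1 ≫ m b = m b := by rw [hm, Preadditive.comp_zsmul, n2]
  have m3 (b e) : c.V.L.Ab q {e.en b} (c.E.L.e e ≫ m b) := by
    rw [hm]
    cases b
    · simpa using (n3 false e).neg
    · simpa using n3 true e
  have hu (b e) : (c.E.L.e e ≫ (p b).1 ≫ l) ≫ c.V.p = c.E.L.e e ≫ (p b).1 ≫ l := by
    rw [Category.assoc, Category.assoc, h.lp]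
  have hk (b e) : c.E.L.Ab q {e} ((c.E.L.e e ≫ (p b).1 ≫ l) ≫ tpK c) := h.tq_u b e ▸ tp_e _ e
  have one (b b' e) : c.E.L.Ab q {e} (c.E.L.e e ≫ m b ≫ kk c b' ≫ (p b').1) := by
    have := h.tq_one (hu b e) (hk b e) (n3 b e) (n4 b e) b'
    rw [hm]
    cases b
    · simpa using this.neg
    · simpa using this
  have sg (b e) (x : c.E ⟶ c.E) : c.E.L.Ab q {e}ᶜ
      (c.E.L.e e ≫ m b ≫ kk c b ≫ x.1 - c.E.L.e e ≫ (p b ≫ x).1) := by
    have := tq_sgn (h.side b e) (n4 b e) x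
    rwa [← Preadditive.comp_zsmul, ← hm, Category.assoc, ← Category.assoc _ (tpK c), h.tq_u,
      Category.assoc] at this
  have e1 (b) : m b ≫ kk c b ≫ (p b).1 = (p b).1 := c.E.L.ext_l fun e => by
    have := sg b e (p b)
    rw [h.idem] at this
    exact sub_eq_zero.1 (((one b b e).sub (tp_e _ e)).eq_zero this fun _ a d => d a)
  have e2 (b) : m b ≫ kk c (!b) ≫ (p !b).1 = 0 := c.E.L.ext_l fun e => by
    have := tq_kx (m3 b e) (!b) (p !b) (e := e) fun a => tq_out e b (a ▸ Ed.en_mem b e)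
    rw [Category.assoc] at this
    rw [comp_zero]
    exact (one b (!b) e).eq_zero this fun _ a d => d a
  refine ⟨fun b => LQ.homMk (m b) (by
    change c.E.p ≫ _ = _
    rw [← m2, LQ.p_comp_assoc]) (m1 b) (Lo.Rg.mapl (L := c.E.L)
      ((Lo.rg_iff_ab (R := fun e v => v = Ed.en b e)).2 (m3 b)) fun _ _ _ a => a.symm),
    fun b b' => LQ.hom_ext ?_, m2, fun b e => ?_⟩
  · rcases b <;> rcases b'
    · exact (e1 false).trans (LQ.comp_p (p false)).symm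
    · exact (e2 false).trans comp_zero.symm
    · exact (e2 true).trans comp_zero.symm
    · exact (e1 true).trans (LQ.comp_p (p true)).symm
  · have := sg b e (p !b)
    rwa [h.orth, LQ.zero_f, comp_zero, sub_zero] at this

/-- The inverse followed by the twisted boundary only goes forward. -/
theorem Pc.fwd (h : Pc c l p) (b b' : Bool) (e : Ed o) :
    c.E.L.Ab q {e' | ∃ n, Pth Dt.st n (e.dt b) (e'.dt b')}
      (c.E.L.e e ≫ (p b).1 ≫ l ≫ kk c b' ≫ (p b').1) := by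
  have a : c.E.L.e e ≫ (p b).1 ≫ l ≫ kk c b' ≫ (p b').1 =
      (c.E.L.e e ≫ (p b).1 ≫ l) ≫ kk c b' ≫ (p b').1 := by simp only [Category.assoc]
  rw [a]
  refine .all fun y n => ⟨{y}ᶜ, fun a => a rfl, ?_⟩
  by_cases m : y.en b' ∈ e.sd b
  · have k := not_or.1 fun k => n (Ed.pth m k)
    exact h.tq_back (by rw [Category.assoc, Category.assoc, h.lp]) (h.tq_u b e ▸ tp_e _ e)
      (Ne.symm k.1) (not_not.1 k.2)
  · exact tq_kx (h.side b e) b' _ m

end TQ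

end GC

end Pool.Agent.Lib.MP_5d3e93_al
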