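import Pool.Agent.Lib.MP_5d3e93_al.K.TA
import Pool.Agent.Lib.MP_5d3e93_al.K.TC

/-! Standard presentations over finite subtrees. -/

open CategoryTheory Limits Pretriangulated ZeroObject MulAction

namespace Pool.Agent.Lib.MP_5d3e93_al

universe w v u y v' u' v'' u''

open Gr K

theorem ts_spl {𝒜 : Type*} [Category* 𝒜] [Preadditive 𝒜] {F A B A' B' : 𝒜} {η : F ⟶ A}
    {κ : A ⟶ B} (h : Gr.Spl η κ) {n : A ⟶ F} {ε : F ⟶ F} (e1 : ε ≫ ε = 𝟙 F) (e2 : η ≫ n = -ε)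
    {a₁ : A ⟶ A'} {a₂ : F ⟶ A'} {p₁ : A' ⟶ A} {p₂ : A' ⟶ F} {b₁ : B ⟶ B'} {b₂ : F ⟶ B'}
    {r₁ : B' ⟶ B} {r₂ : B' ⟶ F} (x1 : a₁ ≫ p₁ = 𝟙 _) (x2 : a₁ ≫ p₂ = 0) (x3 : a₂ ≫ p₁ = 0)
    (x4 : a₂ ≫ p₂ = 𝟙 _) (x5 : p₁ ≫ a₁ + p₂ ≫ a₂ = 𝟙 _) (y1 : b₁ ≫ r₁ = 𝟙 _) (y2 : b₁ ≫ r₂ = 0)
    (y3 : b₂ ≫ r₁ = 0) (y4 : b₂ ≫ r₂ = 𝟙 _) (y5 : r₁ ≫ b₁ + r₂ ≫ b₂ = 𝟙 _) :
    Gr.Spl (η ≫ a₁ + a₂) (p₁ ≫ κ ≫ b₁ + p₁ ≫ n ≫ b₂ + p₂ ≫ ε ≫ b₂) := by
  obtain ⟨r, σ, h1, h2, h3⟩ := h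
  have h4 : κ ≫ σ = 𝟙 _ - r ≫ η := eq_sub_of_add_eq' h3
  refine ⟨p₁ ≫ r, r₁ ≫ σ ≫ a₁ - r₁ ≫ σ ≫ n ≫ ε ≫ a₂ + r₂ ≫ ε ≫ a₂, ?_, ?_, ?_⟩
  · simp [reassoc_of% x1, reassoc_of% x3, h1]
  · rw [← y5]
    simp [reassoc_of% x1, reassoc_of% x2, reassoc_of% x3, reassoc_of% x4, reassoc_of% h2,
      reassoc_of% e1]
  · rw [← x5]
    simp [reassoc_of% y1, reassoc_of% y2, reassoc_of% y3, reassoc_of% y4, reassoc_of% h4,
      reassoc_of% e1, reassoc_of% e2]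
    abel

theorem ts_t {𝒜 : Type*} [Category* 𝒜] [Preadditive 𝒜] {F A B A' B' : 𝒜} {η : F ⟶ A}
    (t : A ⟶ B) {n : A ⟶ F} {ε : F ⟶ F} (e : η ≫ n + ε = 𝟙 F)
    {a₁ : A ⟶ A'} {a₂ : F ⟶ A'} {p₁ : A' ⟶ A} {p₂ : A' ⟶ F} (b₁ : B ⟶ B') (b₂ : F ⟶ B')
    (x1 : a₁ ≫ p₁ = 𝟙 _) (x2 : a₁ ≫ p₂ = 0) (x3 : a₂ ≫ p₁ = 0) (x4 : a₂ ≫ p₂ = 𝟙 _) :
    (η ≫ a₁ + a₂) ≫ (p₁ ≫ t ≫ b₁ + p₁ ≫ n ≫ b₂ + p₂ ≫ ε ≫ b₂) = (η ≫ t) ≫ b₁ + b₂ := by
  have : η ≫ n ≫ b₂ + ε ≫ b₂ = b₂ := by simpa using congrArg (· ≫ b₂) e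
  simp [reassoc_of% x1, reassoc_of% x2, reassoc_of% x3, reassoc_of% x4, add_assoc, this]

namespace GC

variable {G : Type w} [Group G] {C : Type u} [Category.{v} C] [Preadditive C] {S : GC G C}
variable {Γ : Type w} [Group Γ] {q : G →* Γ}

/-- The underlying morphism out of an object placed at a point. -/
def tsU {Y : Type y} [MulAction Γ Y] {X : C} {x : Y} {M : S.LQ (Rl.eq q Y)}
    (ψ : S.pt q X x ⟶ M) : X ⟶ M.A := ψ.1

theorem ts_rep {Y : Type y} [MulAction Γ Y] {X : C} {W W' : Set Y} {M₀ : S.LQ (Rl.eq q Y)}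
    {θ : X ⟶ M₀.A} (h1 : M₀.L.Ab q W θ) (h2 : ∀ M (ψ : M₀ ⟶ M), θ ≫ ψ.1 = 0 → ψ = 0)
    (h3 : ∀ (M : S.LQ (Rl.eq q Y)) (φ : X ⟶ M.A), φ ≫ M.p = φ → M.L.Ab q W φ →
      ∃ ψ : M₀ ⟶ M, θ ≫ ψ.1 = φ) {x : Y} (hx : x ∉ W) (e : W' = insert x W)
    {θ' : X ⟶ (M₀ ⊞ S.pt q X x).A}
    (e' : θ' = θ ≫ (biprod.inl : M₀ ⟶ M₀ ⊞ S.pt q X x).1 + tsU biprod.inr) :
    (M₀ ⊞ S.pt q X x).L.Ab q W' θ' ∧
      (∀ M (ψ : M₀ ⊞ S.pt q X x ⟶ M), θ' ≫ ψ.1 = 0 → ψ = 0) ∧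
      ∀ (M : S.LQ (Rl.eq q Y)) (φ : X ⟶ M.A), φ ≫ M.p = φ → M.L.Ab q W' φ →
        ∃ ψ : M₀ ⊞ S.pt q X x ⟶ M, θ' ≫ ψ.1 = φ := by
  subst e
  have c (M) (ψ : M₀ ⊞ S.pt q X x ⟶ M) :
      θ' ≫ ψ.1 = θ ≫ (biprod.inl ≫ ψ).1 + tsU (biprod.inr ≫ ψ) := by
    rw [e', Preadditive.add_comp, Category.assoc]
    rfl
  have s (M) (ψ : S.pt q X x ⟶ M) : M.L.Ab q {x} (tsU ψ) := pt_ab ψ
  refine ⟨?_, fun M ψ k => ?_, fun M φ k' k => ?_⟩
  · rw [e']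
    exact ((LQ.ab_comp h1 _).mono (Set.subset_insert ..)).add
      ((s _ _).mono (Set.singleton_subset_iff.2 (Set.mem_insert ..)))
  · have d1 : θ ≫ (biprod.inl ≫ ψ).1 = -tsU (biprod.inr ≫ ψ) :=
      eq_neg_of_add_eq_zero_left ((c M ψ).symm.trans k)
    have d2 : θ ≫ (biprod.inl ≫ ψ).1 = 0 :=
      (LQ.ab_comp h1 _).eq_zero (W' := {x}) (d1 ▸ (s _ _).neg) fun a b b' => hx (b' ▸ b)
    exact biprod.hom_ext' _ _ ((h2 M _ d2).trans comp_zero.symm)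
      ((LQ.hom_ext (neg_eq_zero.1 (d1.symm.trans d2))).trans comp_zero.symm)
  · obtain ⟨f, a1, a2, a3⟩ := LQ.part M {x} φ k'
    obtain ⟨ψ₂, m⟩ := pt_hom f a1 a2
    obtain ⟨ψ₁, b⟩ := h3 M (φ - f) (by rw [Preadditive.sub_comp, k', a1])
      (((k.sub (a2.mono (Set.singleton_subset_iff.2 (Set.mem_insert ..)))).inter a3).mono
        fun a b => b.1.resolve_left b.2)
    refine ⟨biprod.desc ψ₁ ψ₂, (c _ _).trans ?_⟩
    rw [biprod.inl_desc, biprod.inr_desc, b, show tsU ψ₂ = f from m, sub_add_cancel]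

/-- A morphism out of a free object of the total category. -/
noncomputable def tsF {Y : Type y} {P : Rl G Y} {X : C} {M : S.LQ P} (φ : X ⟶ M.A) (h : φ ≫ M.p = φ) :
    S.fro X ⟶ (LQ.U S P).obj M :=
  LQ.homMk φ (Category.id_comp _) h fun _ _ _ k => (k trivial).elim

variable [HasZeroObject C]

variable {V : Type w} [MulAction Γ V] {T : SimpleGraph V} {o : Ot Γ T}

section TS
variable {X : C} {Δ : Finset V} {c : MV (S.md q o)} {η : S.fro X ⟶ (S.md q o).i.obj c.V}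

theorem Sx.base (X : C) (v : V) : Sx (o := o) X {v} ((MV.rV _).obj (S.pt q X v)) (𝟙 _) where
  spl := ⟨𝟙 _, 0, Category.id_comp _,
    ((S.md q o).j.map_isZero (isZero_zero _)).eq_of_src _ _, by
      rw [comp_zero, add_zero]; exact Category.id_comp _⟩
  conn a b _ _ k := by
    rw [Finset.mem_singleton.1 k, Finset.coe_singleton, Set.singleton_subset_iff]
    exact half_self
  sup := by rw [Finset.coe_singleton]; exact ab_pt X v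
  injV M ψ k := LQ.hom_ext ((Category.id_comp _).symm.trans (congrArg (·.1) k))
  surV M φ k := by
    rw [Finset.coe_singleton] at k
    obtain ⟨ψ, e⟩ := pt_hom φ.1 (LQ.comp_p φ) k
    exact ⟨ψ, LQ.hom_ext ((Category.id_comp _).trans e)⟩
  injE M ψ _ := (isZero_zero _).eq_of_src _ _
  surE M φ k := ⟨0, by
    rw [Functor.map_zero, comp_zero]
    refine comp_zero.trans (LQ.hom_ext (k.eq_zero k fun e a _ => (e.adj true).ne ?_)).symm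
    exact (Finset.mem_singleton.1 (a false)).trans (Finset.mem_singleton.1 (a true)).symm⟩

omit [HasZeroObject C] in
theorem Sx.supE (h : Sx X Δ c η) :
    c.E.L.Ab q {e | ∀ b, e.en b ∈ Δ} (η ≫ (S.md q o).t true (c.k true)).1 := by
  have a (b) : c.E.L.Ab q (Ed.en b ⁻¹' Δ) (η.1 ≫ kk c b) :=
    (Lo.ab_map (Ed.en_smul b)).1 (LQ.ab_comp h.sup (c.k b))
  obtain ⟨r, σ, h1, h2, h3⟩ := h.spl
  have z : η ≫ c.κ = 0 := by
    simpa [reassoc_of% h1, h2] using congrArg (η ≫ · ≫ c.κ) h3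
  have z' : η.1 ≫ kk c true = η.1 ≫ kk c false := by
    have : η.1 ≫ c.κ.1 = 0 := congrArg (·.1) z
    rw [md_κ] at this
    exact sub_eq_zero.1 ((Preadditive.comp_sub ..).symm.trans this)
  have e : (η ≫ (S.md q o).t true (c.k true)).1 = η.1 ≫ kk c true :=
    congrArg (η.1 ≫ ·) (md_t true (c.k true))
  rw [e]
  exact ((a true).inter (z' ▸ a false)).mono fun e k b => by
    cases b
    exacts [k.2, k.1]

theorem Sx.step [DecidableEq V] (h : Sx X Δ c η) {w w' : V} (hw : w ∈ Δ) (a : T.Adj w w')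
    (hw' : w' ∉ Δ) : ∃ (c' : MV (S.md q o)) (η' : S.fro X ⟶ _) (s : c' ⟶ c),
      Sx X (insert w' Δ) c' η' ∧ η' ≫ (S.md q o).i.map (MV.hV s) = η := by
  obtain ⟨e, b, e1, e2⟩ := Ed.ex (o := o) a
  have ab (b') : (((S.md q o).s b').obj (S.pt q X e)).L.Ab q {e.en b'} (𝟙 X) :=
    (Lo.ab_map (Ed.en_smul b')).2 ((ab_pt X e).mono (Set.singleton_subset_iff.2 rfl))
  have hρ (b') : ∃ ρ : S.pt q X w' ⟶ ((S.md q o).s b').obj (S.pt q X e),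
      ρ.1 = if b' = b then 𝟙 X else 0 := by
    split_ifs with k
    · subst k
      exact pt_hom (M := ((S.md q o).s b').obj (S.pt q X e)) (𝟙 X) (Category.id_comp _)
        (e2 ▸ ab b')
    · exact ⟨0, rfl⟩
  have hπ (b') : ∃ π : c.V ⟶ ((S.md q o).s b').obj (S.pt q X e),
      η.1 ≫ π.1 = if b' = b then 0 else 𝟙 X := by
    split_ifs with k
    · exact ⟨0, comp_zero⟩
    · obtain ⟨π, m⟩ := h.surV (((S.md q o).s b').obj (S.pt q X e)) (𝟙 (S.fro X))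
        ((ab b').mono (Set.singleton_subset_iff.2 (by
          rw [Bool.eq_not_of_ne k, e1]; exact hw)))
      exact ⟨π, congrArg (·.1) m⟩
  choose ρ hρ using hρ
  choose π hπ using hπ
  let k : ∀ b', c.V ⊞ S.pt q X w' ⟶ ((S.md q o).s b').obj (c.E ⊞ S.pt q X e) := fun b' =>
    biprod.fst ≫ c.k b' ≫ ((S.md q o).s b').map biprod.inl +
      biprod.fst ≫ π b' ≫ ((S.md q o).s b').map biprod.inr +
      biprod.snd ≫ ρ b' ≫ ((S.md q o).s b').map biprod.inr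
  obtain ⟨a₂, ha⟩ : ∃ a₂ : S.fro X ⟶ (S.md q o).i.obj (c.V ⊞ S.pt q X w'),
    a₂ = (S.md q o).i.map (X := S.pt q X w') biprod.inr := ⟨_, rfl⟩
  obtain ⟨p₂, hp⟩ : ∃ p₂ : (S.md q o).i.obj (c.V ⊞ S.pt q X w') ⟶ S.fro X,
    p₂ = (S.md q o).i.map biprod.snd := ⟨_, rfl⟩
  obtain ⟨b₂, hb⟩ : ∃ b₂ : S.fro X ⟶ (S.md q o).j.obj (c.E ⊞ S.pt q X e),
    b₂ = (S.md q o).j.map (X := S.pt q X e) biprod.inr := ⟨_, rfl⟩
  obtain ⟨r₂, hr⟩ : ∃ r₂ : (S.md q o).j.obj (c.E ⊞ S.pt q X e) ⟶ S.fro X,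
    r₂ = (S.md q o).j.map biprod.snd := ⟨_, rfl⟩
  obtain ⟨n, hn⟩ : ∃ n : Bool → ((S.md q o).i.obj c.V ⟶ S.fro X),
    ∀ b', n b' = (S.md q o).t b' (π b') := ⟨_, fun _ => rfl⟩
  obtain ⟨ε, hε⟩ : ∃ ε : Bool → (S.fro X ⟶ S.fro X), ∀ b', ε b' = (S.md q o).t b' (ρ b') :=
    ⟨_, fun _ => rfl⟩
  have t1 (b') : (S.md q o).t b' (k b') =
      (S.md q o).i.map biprod.fst ≫ (S.md q o).t b' (c.k b') ≫ (S.md q o).j.map biprod.inl +
        (S.md q o).i.map biprod.fst ≫ n b' ≫ b₂ + p₂ ≫ ε b' ≫ b₂ := by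
    simp only [k, MD.t_add, MD.t_comp _ biprod.fst, MD.t_comp _ biprod.snd, MD.t_map, hn, hε, hb, hp]
    rfl
  have t2 (b') : ε b' = if b' = b then 𝟙 _ else 0 := by
    refine (hε b').trans (LQ.hom_ext ((md_t b' _).trans ((hρ b').trans ?_)))
    split_ifs <;> rfl
  have t3 (b') : η ≫ n b' = if b' = b then 0 else 𝟙 _ := by
    rw [hn]
    refine LQ.hom_ext ((congrArg (η.1 ≫ ·) (md_t b' _)).trans ((hπ b').trans ?_))
    split_ifs <;> rfl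
  have fm {𝒞 : Type (max (max u w) v)} [Category.{v} 𝒞] [Preadditive 𝒞] [HasBinaryBiproducts 𝒞]
      (F : 𝒞 ⥤ S.LQ (Rl.pt (⊤ : Subgroup G))) [F.Additive] (A B : 𝒞) :
      F.map (biprod.inl : A ⟶ A ⊞ B) ≫ F.map biprod.fst = 𝟙 _ ∧
      F.map (biprod.inl : A ⟶ A ⊞ B) ≫ F.map biprod.snd = 0 ∧
      F.map (biprod.inr : B ⟶ A ⊞ B) ≫ F.map biprod.fst = 0 ∧
      F.map (biprod.inr : B ⟶ A ⊞ B) ≫ F.map biprod.snd = 𝟙 _ ∧
      F.map biprod.fst ≫ F.map (biprod.inl : A ⟶ A ⊞ B) +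
        F.map biprod.snd ≫ F.map biprod.inr = 𝟙 _ := by
    simp only [← F.map_comp, ← F.map_add]
    simp
  obtain ⟨x1, x2, x3, x4, x5⟩ := fm (S.md q o).i c.V (S.pt q X w')
  obtain ⟨y1, y2, y3, y4, y5⟩ := fm (S.md q o).j c.E (S.pt q X e)
  rw [← hp] at x2 x4 x5
  rw [← ha] at x3 x4 x5
  rw [← hr] at y2 y4 y5
  rw [← hb] at y3 y4 y5
  have sp : Gr.Spl (η ≫ (S.md q o).i.map biprod.inl + a₂) ((S.md q o).κ k) := by
    have := ts_spl h.spl (n := n true - n false) (ε := ε true - ε false)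
      (by rw [t2, t2]; cases b <;> simp)
      (by rw [Preadditive.comp_sub, t3, t3, t2, t2]; cases b <;> simp)
      x1 x2 x3 x4 x5 y1 y2 y3 y4 y5
    refine Eq.mp (congrArg _ ?_) this
    simp only [MD.κ, t1, MV.κ, Preadditive.comp_sub, Preadditive.sub_comp]
    abel
  let c' : MV (S.md q o) := ⟨_, _, k, sp.choose_spec.imp fun _ m => m.2.1⟩
  have t4 : (η ≫ (S.md q o).i.map biprod.inl + a₂) ≫ (S.md q o).t true (k true) =
      (η ≫ (S.md q o).t true (c.k true)) ≫ (S.md q o).j.map biprod.inl + b₂ := by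
    rw [t1]
    exact ts_t _ (by rw [t3, t2]; cases b <;> simp) _ _ x1 x2 x3 x4
  obtain ⟨v1, v2, v3⟩ := ts_rep (X := X) (θ := η.1) h.sup
    (fun M ψ m => h.injV M ψ (LQ.hom_ext m))
    (fun M φ m m' => (h.surV M (tsF φ m) m').imp fun _ z => congrArg (·.1) z)
    (Finset.mem_coe.not.2 hw') (Finset.coe_insert w' Δ)
    (θ' := (η ≫ (S.md q o).i.map biprod.inl + a₂).1) (by rw [ha]; rfl)
  have cn := h.conn
  obtain ⟨u1, u2, u3⟩ := ts_rep (X := X) (θ := (η ≫ (S.md q o).t true (c.k true)).1) h.supE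
    (fun M ψ m => h.injE M ψ (LQ.hom_ext ((Category.assoc ..).symm.trans m)))
    (fun M φ m m' => (h.surE M (tsF φ m) m').imp fun _ z =>
      (Category.assoc ..).trans (congrArg (·.1) z))
    (x := e) (fun m => hw' (e2 ▸ m b)) (W' := {e | ∀ b, e.en b ∈ insert w' Δ})
    (Set.ext fun e' => ⟨fun m => by
      by_contra z
      rw [Set.mem_insert_iff, not_or, Set.mem_ofPred_eq, not_forall] at z
      obtain ⟨z1, b', z2⟩ := z
      have z3 : e'.en b' = w' := (Finset.mem_insert.1 (m b')).resolve_right z2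
      have z4 : T.Adj w' (e'.en !b') := z3 ▸ (e'.adj b').symm
      have z5 : e'.en (!b') ∈ Δ := (Finset.mem_insert.1 (m !b')).resolve_left z4.ne'
      have z6 := half_uniq o.tree z4 a.symm (cn _ _ z4 hw' z5 hw) (cn _ _ a.symm hw' hw hw)
      exact z1 (Ed.dt_inj (b := b') (b' := b) (Dt.ext (z6.trans e1.symm) (z3.trans e2.symm))).2,
      fun m b' => by
        rcases m with rfl | m
        · by_cases z : b' = b
          · rw [z, e2]; exact Finset.mem_insert_self ..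
          · rw [Bool.eq_not_of_ne z, e1]; exact Finset.mem_insert_of_mem hw
        · exact Finset.mem_insert_of_mem (m b')⟩)
    (θ' := ((η ≫ (S.md q o).i.map biprod.inl + a₂) ≫ (S.md q o).t true (k true)).1)
    (by rw [t4, hb]; rfl)
  refine ⟨c', η ≫ (S.md q o).i.map biprod.inl + a₂,
    MV.homMk biprod.fst biprod.fst fun b' => by simp [c', k, ← Functor.map_comp],
    ⟨sp, fun x z m m1 m2 => ?_, v1, fun M ψ m => v2 M ψ (congrArg (·.1) m),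
      fun M φ m => (v3 M φ.1 (LQ.comp_p φ) m).imp fun _ z => LQ.hom_ext z,
      fun M ψ m => u2 M ψ ((Category.assoc ..).trans (congrArg (·.1) m)),
      fun M φ m => (u3 M φ.1 (LQ.comp_p φ) m).imp fun _ z =>
        LQ.hom_ext ((Category.assoc ..).symm.trans z)⟩, ?_⟩
  · rw [Finset.mem_insert, not_or] at m1
    have ne : x ≠ w := fun z => m1.2 (z ▸ hw)
    rw [Finset.coe_insert, Set.insert_subset_iff]
    rcases Finset.mem_insert.1 m2 with rfl | m2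
    · refine ⟨half_self, (cn _ _ a.symm hw' hw).trans (half_nest o.tree m a.symm
        (half_step half_self a.symm fun z => ?_))⟩
      rcases Sym2.eq_iff.1 z with z | z
      exacts [m1.1 z.1.symm, ne z.2.symm]
    · refine ⟨half_step (cn _ _ m m1.2 m2 hw) a fun z => ?_, cn _ _ m m1.2 m2⟩
      rcases Sym2.eq_iff.1 z with z | z
      exacts [ne z.1.symm, m1.1 z.2.symm]
  · change (η ≫ (S.md q o).i.map biprod.inl + a₂) ≫ (S.md q o).i.map biprod.fst = η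
    rw [Preadditive.add_comp, Category.assoc, x1, Category.comp_id]
    exact (congrArg (η + ·) x3).trans (add_zero _)

theorem Sx.reach (h : Sx X Δ c η) (ne : Δ.Nonempty) (F : Finset V) : ∃ (Δ' : Finset V)
    (c' : MV (S.md q o)) (η' : S.fro X ⟶ _) (s : c' ⟶ c), Sx X Δ' c' η' ∧ Δ ⊆ Δ' ∧ F ⊆ Δ' ∧
      η' ≫ (S.md q o).i.map (MV.hV s) = η := by
  classical
  have one {Δ : Finset V} {c : MV (S.md q o)} {η : S.fro X ⟶ (S.md q o).i.obj c.V}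
      (h : Sx X Δ c η) (ne : Δ.Nonempty) (x : V) : ∃ (Δ' : Finset V)
      (c' : MV (S.md q o)) (η' : S.fro X ⟶ _) (s : c' ⟶ c), Sx X Δ' c' η' ∧ Δ ⊆ Δ' ∧ x ∈ Δ' ∧
        η' ≫ (S.md q o).i.map (MV.hV s) = η := by
    obtain ⟨a, ha⟩ := ne
    induction x using conn_ind o.tree (a := a) with
    | h0 => exact ⟨Δ, c, η, 𝟙 _, h, Finset.Subset.refl _, ha, by simp⟩
    | h1 x y k ih =>
      obtain ⟨Δ', c', η', s, a1, a2, a3, a4⟩ := ih
      by_cases m : y ∈ Δ'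
      · exact ⟨Δ', c', η', s, a1, a2, m, a4⟩
      · obtain ⟨c'', η'', s', b1, b2⟩ := a1.step a3 k m
        exact ⟨_, c'', η'', s' ≫ s, b1, a2.trans (Finset.subset_insert ..),
          Finset.mem_insert_self .., by rw [MV.hV_comp, Functor.map_comp, reassoc_of% b2, a4]⟩
  induction F using Finset.induction_on with
  | empty => exact ⟨Δ, c, η, 𝟙 _, h, Finset.Subset.refl _, Finset.empty_subset _, by simp⟩
  | insert x F _ ih =>
    obtain ⟨Δ', c', η', s, a1, a2, a3, a4⟩ := ih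
    obtain ⟨Δ'', c'', η'', s', b1, b2, b3, b4⟩ := one a1 (ne.mono a2) x
    exact ⟨Δ'', c'', η'', s' ≫ s, b1, a2.trans b2, Finset.insert_subset b3 (a3.trans b2),
      by rw [MV.hV_comp, Functor.map_comp, reassoc_of% b4, a4]⟩

theorem Sx.half (X : C) (e : Ed o) (b : Bool) (F : Finset V) (hF : (F : Set V) ⊆ e.sd b) :
    ∃ (Δ : Finset V) (c : MV (S.md q o)) (η : S.fro X ⟶ _), Sx X Δ c η ∧ e.en b ∈ Δ ∧ F ⊆ Δ ∧
      (Δ : Set V) ⊆ e.sd b := by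
  classical
  induction F using Finset.induction_on with
  | empty => exact ⟨_, _, _, Sx.base X (e.en b), Finset.mem_singleton_self _, Finset.empty_subset _,
      by rw [Finset.coe_singleton]; exact Set.singleton_subset_iff.2 half_self⟩
  | insert x F _ ih =>
    obtain ⟨Δ, c, η, a1, a2, a3, a4⟩ := ih fun y k => hF (Finset.mem_insert_of_mem k)
    have : ∃ (Δ' : Finset V) (c : MV (S.md q o)) (η : S.fro X ⟶ _), Sx X Δ' c η ∧ Δ ⊆ Δ' ∧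
        x ∈ Δ' ∧ (Δ' : Set V) ⊆ e.sd b := by
      refine half_ind (P := fun x => ∃ (Δ' : Finset V) (c : MV (S.md q o)) (η : S.fro X ⟶ _),
        Sx X Δ' c η ∧ Δ ⊆ Δ' ∧ x ∈ Δ' ∧ (Δ' : Set V) ⊆ e.sd b)
        ⟨Δ, c, η, a1, Finset.Subset.refl _, a2, a4⟩ ?_ (hF (Finset.mem_insert_self ..))
      rintro y z k m n ⟨Δ', c', η', b1, b2, b3, b4⟩
      by_cases m' : z ∈ Δ'
      · exact ⟨Δ', c', η', b1, b2, m', b4⟩
      · obtain ⟨c'', η'', -, d, -⟩ := b1.step b3 m m'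
        exact ⟨_, c'', η'', d, b2.trans (Finset.subset_insert ..), Finset.mem_insert_self .., by
          rw [Finset.coe_insert]; exact Set.insert_subset (half_step k m n) b4⟩
    obtain ⟨Δ', c', η', b1, b2, b3, b4⟩ := this
    exact ⟨Δ', c', η', b1, b2 a2, Finset.insert_subset b3 (a3.trans b2), b4⟩

end TS

end GC

end Pool.Agent.Lib.MP_5d3e93_al
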