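import Pool.Agent.Lib.MP_5d3e93_al.K.TwoV
import Pool.Agent.Lib.MP_5d3e93_al.Gr.Det

/-! Acyclicity of shifted binary complexes and of complexes of length one. -/

open CategoryTheory Limits Pretriangulated ZeroObject

namespace Pool.Agent.Lib.MP_5d3e93_al.Gr

universe v u v' u' v'' u''

theorem twa_un {D E : Type*} [Category* D] [Category* E] {L R : D ⥤ E} {F : E ⥤ D} (ad : L ⊣ F)
    (ι : L ⟶ R) (h : ∀ X, IsIso (ad.unit.app X ≫ F.map (ι.app X))) (X : D) : Un R (ι.app X) := by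
  intro Y
  have := h Y
  rw [← Function.Bijective.of_comp_iff' (ad.homEquiv _ _).bijective]
  refine (congrArg Function.Bijective (funext fun g => ?_)).mp
    (five_bij_post (X := X) (asIso (ad.unit.app Y ≫ F.map (ι.app Y))))
  exact ((congrArg _ (ι.naturality g).symm).trans (ad.homEquiv_naturality_left g _)).symm

namespace Am

variable {a : Am.{v, u}} {b : Am.{v', u'}} {c : Am.{v'', u''}}
variable {S : ObjectProperty a.D} {S' : ObjectProperty b.D} {S'' : ObjectProperty c.D}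

/-- If `l ⊣ ev j` on the additive level and `ι` is adjoint to the identity of `ev j ∘ R e = id`,
then `ι` is universal (`Map.exists_adj`). -/
theorem un_of_adj (l : Map a a.B) (j : ℕ) (ad : l.F ⊣ (a.ev j).F) (e : Bool) (ι : l.F ⟶ (a.R e).F)
    (h : ∀ X, ad.unit.app X ≫ (a.ev j).F.map (ι.app X) = 𝟙 X) (X : a.D) :
    Un (a.R e).D ((l.nat (a.R e) ι).app X) := by
  obtain ⟨ad', hu, -⟩ := l.exists_adj (a.ev j) ad
  refine twa_un ad' _ (fun Y => ?_) X
  have k := Map.isIso_nat a.idm ((a.R e).comp (a.ev j))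
    (ad.unit ≫ Functor.whiskerRight ι (a.ev j).F) (fun Z => (congrArg IsIso (h Z)).mpr (IsIso.id Z)) Y
  rw [hu, Map.map_nat]
  exact (Map.nat_app_comp a.idm (l.comp (a.ev j)) ((a.R e).comp (a.ev j)) ad.unit
    (Functor.whiskerRight ι (a.ev j).F) _ rfl Y).symm ▸ k

theorem twa_c0 (X : a.A) (n : ℕ) : IsZero (Bin.X (a.c0.F.obj X) (n + 1)) :=
  (Bin.ev a.A n).map_isZero (isZero_zero _)

/-- The identity in degree zero. -/
noncomputable def ι0 (a : Am.{v, u}) (e : Bool) : a.c0.F ⟶ (a.R e).F where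
  app X := Bin.homMk (fun | 0 => 𝟙 X | _ + 1 => 0) fun _ n => (twa_c0 X n).eq_of_src _ _
  naturality X _ _ := Bin.cons_ext ((Category.comp_id _).trans (Category.id_comp _).symm)
    fun n => (twa_c0 X n).eq_of_src _ _

variable (a) in
/-- The adjunction in degree zero. -/
noncomputable def twaAd : a.c0.F ⊣ (a.ev 0).F := Adjunction.mkOfHomEquiv
  { homEquiv X _ :=
      { toFun f := f.1 0
        invFun g := Bin.homMk (fun | 0 => g | _ + 1 => 0) fun _ n => (twa_c0 X n).eq_of_src _ _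
        left_inv _ := Bin.cons_ext rfl fun n => (twa_c0 X n).eq_of_src _ _
        right_inv _ := rfl }
    homEquiv_naturality_left_symm _ _ := Bin.cons_ext rfl fun n => (twa_c0 _ n).eq_of_src _ _
    homEquiv_naturality_right _ _ := rfl }

/-- `c0 ⊣ ev 0`. -/
theorem un_c0 (e : Bool) (X : a.D) : Un (a.R e).D ((a.c0.nat (a.R e) (a.ι0 e)).app X) :=
  un_of_adj a.c0 0 a.twaAd e _ (fun _ => Category.id_comp _) X

variable (a)

/-- Raising the degree. -/
noncomputable def twaU : Map a.B a.B where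
  F := Det.up a.A
  add := inferInstanceAs (Det.up a.A).Additive
  hT _ h := a.B.le_Tb _ fun
    | 0 => Tg.zero _ ((HomotopyCategory.quotient _ _).map_isZero
      ((IsZero.iff_id_eq_zero _).2 (HomologicalComplex.hom_ext _ _ fun _ =>
        (isZero_zero _).eq_of_src _ _)))
    | j + 1 => h j

theorem twa_hR (e : Bool) : ∀ (n : ℕ) X, a.T X →
    a.B.Tb (((Det.sR a.A e n).mapHomotopyCategory _).obj X)
  | 0, X, h => (a.R e).hT X h
  | n + 1, X, h => a.twaU.hTb _ (twa_hR e n X h)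

theorem twa_hC (e : Bool) : ∀ (n : ℕ) X, a.T X →
    a.B.Tb (((Det.sC a.A e n).mapHomotopyCategory _).obj X)
  | 0, X, h => a.B.le_Tb _ fun
    | 0 => a.le_Tb X h
    | _ + 1 => (a.idm.sum a.idm).hT X h
  | n + 1, X, h => a.twaU.hTb _ (twa_hC e n X h)

/-- The strings. -/
noncomputable def twaR (e : Bool) (n : ℕ) : Map a a.B where
  F := Det.sR a.A e n
  add := Det.sR_add a.A e n
  hT := a.twa_hR e n

/-- The coinduced complexes. -/
noncomputable def twaC (e : Bool) (n : ℕ) : Map a a.B where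
  F := Det.sC a.A e n
  add := Det.sC_add a.A e n
  hT := a.twa_hC e n

variable {a}

theorem twa_tri (e : Bool) (n : ℕ) (Y : a.D) : ∃ δ, Triangle.mk
    (((a.twaR e n).nat (a.twaC e n) (Det.sI a.A e n)).app Y)
    (((a.twaC e n).nat (a.twaR e (n + 1)) (Det.sP a.A e n)).app Y) δ ∈ distTriang a.B.D :=
  zo_tri (f₁ := a.twaR e n) (f := a.twaC e n) (f₂ := a.twaR e (n + 1))
    (Det.s_zero e n) (fun j X => Det.s_spl e X n j) Y

theorem twa_key (e : Bool) (n : ℕ) {M : a.B.D} {u : M ⟶ (a.twaC e n).D.obj ((a.ev n).D.obj M)}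
    {u' : M ⟶ (a.twaC e (n + 1)).D.obj ((a.ev (n + 1)).D.obj M)}
    (h : u = (a.B.idm.nat ((a.ev n).comp (a.twaC e n)) (Det.sA a.A e n).unit).app M)
    (h' : u' = (a.B.idm.nat ((a.ev (n + 1)).comp (a.twaC e (n + 1)))
      (Det.sA a.A e (n + 1)).unit).app M) :
    u ≫ ((a.twaC e n).nat (a.twaR e (n + 1)) (Det.sP a.A e n)).app _ ≫
      ((a.twaR e (n + 1)).nat (a.twaC e (n + 1)) (Det.sI a.A e (n + 1))).app _ =
      u' ≫ (a.twaC e (n + 1)).D.map (((a.ev (n + 1)).nat (a.ev n) (detD e n)).app M) := by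
  rw [h, h', Map.map_nat, Map.nat_obj, Map.nat_obj]
  refine (congrArg (_ ≫ ·) (Map.nat_app_comp _ _ _ _ _ _ rfl M)).trans
    ((Map.nat_app_comp _ _ _ _ _ _ ?_ M).trans (Map.nat_app_comp _ _ _ _ _ _ rfl M).symm)
  exact NatTrans.ext (funext fun T => Det.s_key e n T)

/-- A bounded object whose terms form a contractible complex is acyclic. -/
theorem Ac1_of_ctr (e : Bool) {M : a.B.D} (m : ℕ) (hm : ∀ j, m ≤ j → IsZero ((a.ev j).D.obj M))
    (h : ∀ n, (a.ev n).D.obj M ⟶ (a.ev (n + 1)).D.obj M)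
    (h0 : h 0 ≫ ((a.ev 1).nat (a.ev 0) (detD e 0)).app M = 𝟙 _)
    (h1 : ∀ n, h (n + 1) ≫ ((a.ev (n + 2)).nat (a.ev (n + 1)) (detD e (n + 1))).app M +
      ((a.ev (n + 1)).nat (a.ev n) (detD e n)).app M ≫ h n = 𝟙 _) : a.Ac1 e M := by
  choose ad hu _ using fun n => (a.ev n).exists_adj (a.twaC e n) (Det.sA a.A e n)
  have t : DetT (fun n => (a.twaR e n).D) (fun n => (a.twaC e n).D)
      (fun n => (a.twaR e n).nat (a.twaC e n) (Det.sI a.A e n))
      (fun n => (a.twaC e n).nat (a.twaR e (n + 1)) (Det.sP a.A e n)) M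
      (fun n => (a.ev n).D.obj M) (fun n => (ad n).unit.app M)
      fun n => ((a.ev (n + 1)).nat (a.ev n) (detD e n)).app M :=
    ⟨twa_tri e, fun n Y => ((ad n).homEquiv M Y).bijective,
      fun n => twa_key e n (hu n M) (hu (n + 1) M), m, fun n k Y φ =>
        a.bs.det_orth n (Y := (a.twaR e n).D.obj Y) (fun j l => hm j (k.trans l))
          (fun j l => ((a.twaR e n).comp (a.ev j)).isZero (fun X => Det.s_low e X n j l) Y) φ⟩
  have : ∀ n, (a.twaC e n).D.Additive := fun n => inferInstance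
  exact t.of_ctr h h0 h1

/-- `tl ⊣ sh`, `sh.comp tl = id`; triangle `R e Y ⟶ co Y ⟶ sh (R e Y)`. -/
theorem Ac1_sh {e : Bool} {M : a.B.D} (h : a.Ac1 e M) : a.Ac1 e (a.sh.D.obj M) := by
  intro Y φ
  obtain ⟨δ, hT⟩ := twa_tri e 0 Y
  obtain ⟨ad, -⟩ := (a.ev 0).exists_adj (a.twaC e 0) (Det.sA a.A e 0)
  obtain ⟨ad', -⟩ := a.tl.exists_adj a.twaU (Det.adU a.A)
  have z : IsZero ((a.ev 0).D.obj (a.sh.D.obj M)) :=
    (a.sh.comp (a.ev 0)).isZero (fun _ => isZero_zero _) M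
  refine det_inj hT φ ((ad.homEquiv _ _).symm.injective (z.eq_of_src _ _)) fun ψ =>
    ⟨0, zero_comp.trans (zero_of_comp_mono
      (((a.twaR e 1).D.commShiftIso (-1 : ℤ)).inv.app Y) ?_).symm⟩
  exact (ad'.homEquiv _ ((a.R e).D.obj (Y⟦(-1 : ℤ)⟧))).symm.injective ((h _ _).trans (h _ _).symm)

theorem V_sh [Tg S] : V S ≤ (V S).inverseImage a.sh.D :=
  fun M h => ⟨W_sh M h.1, fun e => Ac1_sh (h.2 e)⟩

/-- The terms of `two f g α` form a contractible complex. -/
theorem Ac1_two {f g : Map a b} (α : Bool → (f.F ⟶ g.F)) (e : Bool) {X : a.D}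
    (h : IsIso ((f.nat g (α e)).app X)) : b.Ac1 e ((f.two g α).D.obj X) := by
  have z : ∀ j, IsZero ((b.ev (j + 2)).D.obj ((f.two g α).D.obj X)) := fun j =>
    ((f.two g α).comp (b.ev (j + 2))).isZero (fun Y => twa_c0 (f.F.obj Y) j) X
  have k : ((b.ev 1).nat (b.ev 0) (detD e 0)).app ((f.two g α).D.obj X) =
      (f.nat g (α e)).app X := (f.two g α).nat_obj (b.ev 1) (b.ev 0) (detD e 0) X
  obtain ⟨r, r₁, r₂⟩ := h.out
  refine Ac1_of_ctr e 2 (fun j l => ?_) (fun | 0 => r | _ + 1 => 0) ?_ fun n => ?_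
  · obtain ⟨j, rfl⟩ := Nat.exists_eq_add_of_le' l
    exact z j
  · exact (congrArg (_ ≫ ·) k).trans r₂
  · cases n with
    | zero => exact (congrArg (· + _) zero_comp).trans ((zero_add _).trans
        ((congrArg (· ≫ _) k).trans r₁))
    | succ n => exact (z n).eq_of_src _ _

theorem V_two [Tg S'] {f g : Map a b} (α : Bool → (f.F ⟶ g.F)) (hf : S ≤ S'.inverseImage f.D)
    (h : ∀ e X, S X → IsIso ((f.nat g (α e)).app X)) : S ≤ (V S').inverseImage (f.two g α).D :=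
  fun X k =>
    have := h true X k
    ⟨W_two α (hf X k) (S'.prop_of_iso (asIso ((f.nat g (α true)).app X)) (hf X k)),
      fun e => Ac1_two α e (h e X k)⟩

end Am

end Pool.Agent.Lib.MP_5d3e93_al.Gr
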