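import Pool.Agent.Lib.MP_5d3e93_al.K.Two
import Pool.Agent.Lib.MP_5d3e93_al.Gr.Kn

/-! Short binary complexes: membership in `W`, filtrations. -/

open CategoryTheory Limits Pretriangulated ZeroObject

namespace Pool.Agent.Lib.MP_5d3e93_al.Gr

universe v u v' u' v'' u''

namespace Am

variable {a : Am.{v, u}} {b : Am.{v', u'}} {c : Am.{v'', u''}}
variable {S : ObjectProperty a.D} {S' : ObjectProperty b.D} {S'' : ObjectProperty c.D}

instance (e : Bool) : Tg (a.Ac1 e) := by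
  have h : a.Ac1 e = Ac fun _ => (a.R e).D :=
    funext fun _ => propext ⟨fun h _ => h, fun h => h e⟩
  rw [h]
  infer_instance

theorem V_iff {M : a.B.D} : V S M ↔ W S M ∧ ∀ e, a.Ac1 e M := Iff.rfl

/-- `ev 0` of the value is `g.D.obj X`, `ev (j + 1)` is `ev j` of `f.D.obj X`, by `rfl`. -/
theorem W_cons {f : Map a b.B} {g : Map a b} (δ h) {X : a.D} (k : W S' (f.D.obj X))
    (l : S' (g.D.obj X)) : W S' ((f.cons g δ h).D.obj X) := by
  obtain ⟨k, m, k'⟩ := k
  exact ⟨fun | 0 => l | j + 1 => k j, m + 1, fun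
    | 0, hj => absurd hj (Nat.not_succ_le_zero m)
    | j + 1, hj => k' j (Nat.le_of_succ_le_succ hj)⟩

theorem Map.twoV_zero (X : a.D) : IsZero ((Map.zero a b).D.obj X) :=
  Map.isZero _ (fun _ => isZero_zero _) X

theorem W_c0 [Tg S] : S ≤ (W S).inverseImage a.c0.D := fun X h =>
  W_cons (f := Map.zero a a.B) (g := a.idm) _ _ (Tg.zero _ (Map.twoV_zero X)) h

theorem W_sh [Tg S] : W S ≤ (W S).inverseImage a.sh.D := fun X h =>
  W_cons (f := a.B.idm) (g := Map.zero a.B a) _ _ h (Tg.zero _ (Map.twoV_zero X))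

theorem W_tl : W S ≤ (W S).inverseImage a.tl.D := fun _ ⟨h, m, k⟩ =>
  ⟨fun j => h (j + 1), m, fun j hj => k (j + 1) (Nat.le_succ_of_le hj)⟩

theorem W_two [Tg S'] {f g : Map a b} (α : Bool → (f.F ⟶ g.F)) {X : a.D} (k : S' (f.D.obj X))
    (l : S' (g.D.obj X)) : W S' ((f.two g α).D.obj X) :=
  W_cons (f := f.comp b.c0) (g := g) _ _ (W_c0 _ k) l

/-- The term of degree zero is a subcomplex. -/
noncomputable def Map.consI (f : Map a b.B) (g : Map a b) (δ h) :
    (g.comp b.c0).F ⟶ (f.cons g δ h).F where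
  app X := Bin.homMk (fun | 0 => 𝟙 (g.F.obj X) | _ + 1 => 0) fun _ => fun
    | 0 => zero_comp.trans zero_comp.symm
    | _ + 1 => zero_comp.trans comp_zero.symm
  naturality _ _ _ := Bin.cons_ext ((Category.comp_id _).trans (Category.id_comp _).symm)
    fun _ => comp_zero.trans zero_comp.symm

/-- The quotient by the term of degree zero. -/
noncomputable def Map.consP (f : Map a b.B) (g : Map a b) (δ h) :
    (f.cons g δ h).F ⟶ (f.comp b.sh).F where
  app X := Bin.homMk (fun | 0 => 0 | n + 1 => 𝟙 (Bin.X (f.F.obj X) n)) fun _ => fun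
    | 0 => comp_zero.trans comp_zero.symm
    | _ + 1 => (Category.id_comp _).trans (Category.comp_id _).symm
  naturality _ _ _ := Bin.cons_ext (comp_zero.trans zero_comp.symm)
    fun _ => (Category.comp_id _).trans (Category.id_comp _).symm

theorem Map.consI_P (f : Map a b.B) (g : Map a b) (δ h) : f.consI g δ h ≫ f.consP g δ h = 0 := by
  ext X
  exact Bin.cons_ext comp_zero fun _ => zero_comp

/-- `ses_of_reflect` with the family `b.ev`. -/
theorem ses_cons (f : Map a b.B) (g : Map a b) (δ h) (S : ObjectProperty a.D) :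
    Ses (f.consI g δ h) (f.consP g δ h) (f.consI_P g δ h) S :=
  ses_of_reflect (f₁ := g.comp b.c0) (f := f.cons g δ h) (f₂ := f.comp b.sh) b.ev b.B.le_Tb (fun
    | 0, X => ⟨𝟙 (g.F.obj X), 0, Category.id_comp _, (isZero_zero b.A).eq_of_src _ _,
      (congrArg₂ (· + ·) (Category.id_comp _) comp_zero).trans (add_zero _)⟩
    | j + 1, X => ⟨0, 𝟙 (Bin.X (f.F.obj X) j),
      ((b.ev j).F.map_isZero (isZero_zero _)).eq_of_src _ _, Category.id_comp _,
      (congrArg₂ (· + ·) zero_comp (Category.id_comp _)).trans (zero_add _)⟩) S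

/-- The differentials as natural transformations. -/
def Map.dn (f : Map a b.B) (e : Bool) (j : ℕ) : (f.comp (b.ev (j + 1))).F ⟶ (f.comp (b.ev j)).F where
  app X := Bin.d (f.F.obj X) e j
  naturality _ _ φ := Bin.comm (f.F.map φ) e j

/-- A natural transformation that is invertible in every degree. -/
theorem twoV_iso {f g : Map a b.B} (α : f.F ⟶ g.F) (h : ∀ X n, IsIso ((α.app X).1 n)) :
    Nonempty (f.F ≅ g.F) :=
  ⟨@asIso _ _ _ _ α (@NatIso.isIso_of_isIso_app _ _ _ _ _ _ α fun X => Bin.isIso_of _ (h X))⟩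

/-- Every functor to binary complexes is a `cons`. -/
theorem Map.iso_cons (f : Map a b.B) : Nonempty (f.F ≅ ((f.comp b.tl).cons (f.comp (b.ev 0))
    (fun e => f.dn e 0) fun e X => Bin.sq (f.F.obj X) e 0).F) :=
  twoV_iso
    { app X := Bin.homMk
        (fun | 0 => 𝟙 (Bin.X (f.F.obj X) 0) | n + 1 => 𝟙 (Bin.X (f.F.obj X) (n + 1))) fun _ => fun
          | 0 => (Category.id_comp _).trans (Category.comp_id _).symm
          | _ + 1 => (Category.id_comp _).trans (Category.comp_id _).symm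
      naturality _ _ _ := Bin.cons_ext ((Category.comp_id _).trans (Category.id_comp _).symm)
        fun _ => (Category.comp_id _).trans (Category.id_comp _).symm }
    fun _ => fun | 0 => IsIso.id _ | _ + 1 => IsIso.id _

/-- A functor to binary complexes of length one is a `two`. -/
theorem Map.iso_two (f : Map a b.B) (h : ∀ X j, IsZero (Bin.X (f.F.obj X) (j + 2))) :
    Nonempty (f.F ≅ ((f.comp (b.ev 1)).two (f.comp (b.ev 0)) fun e => f.dn e 0).F) :=
  twoV_iso
    { app X := Bin.homMk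
        (fun | 0 => 𝟙 (Bin.X (f.F.obj X) 0) | 1 => 𝟙 (Bin.X (f.F.obj X) 1) | _ + 2 => 0)
        fun _ => fun
          | 0 => (Category.id_comp _).trans (Category.comp_id _).symm
          | n + 1 => (h X n).eq_of_src _ _
      naturality X _ _ := Bin.hom_ext fun
        | 0 => (Category.comp_id _).trans (Category.id_comp _).symm
        | 1 => (Category.comp_id _).trans (Category.id_comp _).symm
        | n + 2 => (h X n).eq_of_src _ _ }
    fun X => fun
      | 0 => IsIso.id _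
      | 1 => IsIso.id _
      | n + 2 => (h X n).isIso ((b.ev n).F.map_isZero (isZero_zero _)) _

/-- Induction on the bound: `iso_cons` for `a.B.idm`, `ses_cons`; start with `a.bs.cons`. -/
theorem W_ind (P : ObjectProperty a.B.D) [Tg P] (h0 : ∀ X, S X → P (a.c0.D.obj X))
    (h1 : ∀ M, W S M → P M → P (a.sh.D.obj M)) : W S ≤ P := by
  rintro M ⟨h, m, k⟩
  induction m generalizing M with
  | zero => exact Tg.zero P (a.bs.cons M fun j => k j j.zero_le)
  | succ m ih =>
    obtain ⟨e⟩ := a.B.idm.iso_cons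
    obtain ⟨δ, hT⟩ := (ses_cons (a.B.idm.comp a.tl) (a.B.idm.comp (a.ev 0))
      (fun e => a.B.idm.dn e 0) (fun e X => Bin.sq (a.B.idm.F.obj X) e 0) ⊤).tri (X := M) trivial
    have k' : ∀ j, m ≤ j → IsZero ((a.ev j).D.obj (a.tl.D.obj M)) :=
      fun j hj => k (j + 1) (Nat.succ_le_succ hj)
    have := P.ext_of_isTriangulatedClosed₂ _ hT (h0 _ (h 0))
      (h1 (a.tl.D.obj M) ⟨fun j => h (j + 1), m, k'⟩ (ih _ (fun j => h (j + 1)) k'))
    exact P.prop_of_iso ((Map.natIso _ _ e).app M).symm this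

/-- A sequence of functors to binary complexes is exact if it is in every degree. -/
theorem ses_of_ev {f₁ f f₂ : Map a b.B} {α : f₁.F ⟶ f.F} {β : f.F ⟶ f₂.F} {h : α ≫ β = 0}
    (k : ∀ j, ∃ e, Ses (f₁ := f₁.comp (b.ev j)) (f := f.comp (b.ev j)) (f₂ := f₂.comp (b.ev j))
      (Functor.whiskerRight α (b.ev j).F) (Functor.whiskerRight β (b.ev j).F) e S) :
    Ses α β h S := fun K hK =>
  exa_of_reflect b.ev _ b.B.le_Tb fun j => (k j).choose_spec K hK

theorem twoV_isZero (f g : Map a b) (α : Bool → (f.F ⟶ g.F)) (n : ℕ) (X : a.A) :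
    IsZero (((f.two g α).comp (b.ev (n + 2))).F.obj X) := (b.ev n).F.map_isZero (isZero_zero _)

theorem ses_two {f₁ f f₂ g₁ g g₂ : Map a b} {α₁ : Bool → (f₁.F ⟶ g₁.F)} {α : Bool → (f.F ⟶ g.F)}
    {α₂ : Bool → (f₂.F ⟶ g₂.F)} {i : f₁.F ⟶ f.F} {p : f.F ⟶ f₂.F} {j : g₁.F ⟶ g.F}
    {q : g.F ⟶ g₂.F} {h h'} (k : Ses i p h S) (l : Ses j q h' S) (e : ∀ c, i ≫ α c = α₁ c ≫ j)
    (e' : ∀ c, p ≫ α₂ c = α c ≫ q) : ∃ z, Ses (Map.twoNat i j e) (Map.twoNat p q e') z S := by
  have z : Map.twoNat i j e ≫ Map.twoNat p q e' = 0 := by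
    ext X
    exact Bin.hom_ext fun
      | 0 => NatTrans.congr_app h' X
      | 1 => NatTrans.congr_app h X
      | n + 2 => (twoV_isZero f₁ g₁ α₁ n X).eq_of_src _ _
  refine ⟨z, ses_of_ev fun
    | 0 => ⟨h', fun K hK => l K hK⟩
    | 1 => ⟨h, fun K hK => k K hK⟩
    | n + 2 => ⟨?_, ses_of_split (fun X => ⟨0, 0, (twoV_isZero f₁ g₁ α₁ n X).eq_of_src _ _,
        (twoV_isZero f₂ g₂ α₂ n X).eq_of_src _ _, (twoV_isZero f g α n X).eq_of_src _ _⟩) S⟩⟩
  ext X
  exact (twoV_isZero f₁ g₁ α₁ n X).eq_of_src _ _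

theorem isIso_twoNat {f g f' g' : Map a b} {α : Bool → (f.F ⟶ g.F)} {α' : Bool → (f'.F ⟶ g'.F)}
    (φ : f.F ⟶ f'.F) (ψ : g.F ⟶ g'.F) (e : ∀ c, φ ≫ α' c = α c ≫ ψ) (X : a.D)
    (k : IsIso ((f.nat f' φ).app X)) (l : IsIso ((g.nat g' ψ).app X)) :
    IsIso (((f.two g α).nat (f'.two g' α') (Map.twoNat φ ψ e)).app X) :=
  isIso_of_ev _ fun j => by
    rw [Map.map_nat]
    exact match j with
      | 0 => l
      | 1 => k
      | n + 2 => (Map.isZero _ (twoV_isZero f g α n) X).isIso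
          (Map.isZero _ (twoV_isZero f' g' α' n) X) _

end Am

end Pool.Agent.Lib.MP_5d3e93_al.Gr
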